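import Pool.Agent.Work.MP_055a27_an.Bd.B01
import Pool.Agent.Work.MP_055a27_an.Nv.Stmts
import Pool.Agent.Work.MP_055a27_an.Thr.Stmts
import Pool.Agent.Work.MP_055a27_an.Crit.Stmts
import Pool.Agent.Work.MP_055a27_an.Thr.KE

/-! Bundle of small proof modules (one section per former module). -/

section

/-!
# The sawtooth estimate of bounded height: Green's inequality
-/

open MeasureTheory Set Filter Topology Complex Metric intervalIntegral
open scoped ENNReal NNReal

namespace Pool.Agent.Work.MP_055a27_an.Cr3.SawT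

/-- Gradient bound from bounds of bounded height. -/
lemma cone_grad_boundT {F : ℂ → ℂ} (hF : DifferentiableOn ℂ F uhp) {b lam σ : ℝ} (hlam : 0 < lam)
    (hlb : lam < b) {E : Set ℝ}
    {H : ℝ} (hσ : ∀ z y : ℝ, 0 < y → y ≤ H → infDist z E < b * y → |(F (z + y * I)).re| ≤ σ)
    {z y : ℝ}
    (hy : 0 < y) (hyH : 2 * y ≤ H) (hz : infDist z E ≤ lam * y) :
    ‖deriv F (z + y * I)‖ ≤ 4 * σ * ((1 + b) / (b - lam)) / y := by
  have hb : 0 < b := hlam.trans hlb
  set ρ : ℝ := (b - lam) / (1 + b) * y with hρ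
  have hbl : 0 < b - lam := by linarith
  have hρ0 : 0 < ρ := by positivity
  have hρy : ρ < y := by
    rw [hρ]
    have : (b - lam) / (1 + b) < 1 := by
      rw [div_lt_one (by positivity)]; linarith
    calc (b - lam) / (1 + b) * y < 1 * y := by gcongr
      _ = y := one_mul y
  have h1 : ∀ v ∈ ball ((z : ℂ) + y * I) ρ, |(F v).re| ≤ σ := by
    intro v hv
    have hve : (v.re : ℂ) + v.im * I = v := Complex.re_add_im v
    have hd : ‖v - (z + y * I)‖ < ρ := by simpa [dist_eq_norm] using hv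
    have hre : |v.re - z| < ρ := by
      have := Complex.abs_re_le_norm (v - (z + y * I))
      simp at this
      linarith
    have him : |v.im - y| < ρ := by
      have := Complex.abs_im_le_norm (v - (z + y * I))
      simp at this
      linarith
    rw [abs_lt] at hre him
    have hvy : 0 < v.im := by linarith [him.1]
    rw [← hve]
    apply hσ _ _ hvy (by linarith [him.2])
    have h2 : infDist v.re E ≤ infDist z E + dist v.re z := infDist_le_infDist_add_dist
    rw [Real.dist_eq] at h2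
    have h3 : |v.re - z| < ρ := abs_lt.2 hre
    have h4 : ρ * (1 + b) = (b - lam) * y := by
      rw [hρ]; field_simp
    nlinarith [him.1]
  have h2 : ball ((z : ℂ) + y * I) ρ ⊆ uhp := by
    intro v hv
    have hd : ‖v - (z + y * I)‖ < ρ := by simpa [dist_eq_norm] using hv
    have := Complex.abs_im_le_norm (v - (z + y * I))
    simp at this
    have h3 := (abs_lt.1 (lt_of_le_of_lt this hd)).1
    show 0 < v.im
    linarith
  have h3 := grad_bound hρ0 (hF.mono h2) h1
  refine h3.trans (le_of_eq ?_)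
  rw [hρ]
  field_simp

/-- The main inequality above a Lipschitz graph. -/
lemma green_boundT {F : ℂ → ℂ} (hF : DifferentiableOn ℂ F uhp) {φ : ℝ → ℝ} {L : ℝ≥0}
    (hL : LipschitzWith L φ) {ε : ℝ} (hε : 0 < ε) (hφ : ∀ z, ε ≤ φ z) {C T : ℝ} (hC : 0 < C)
    (hT : 0 < T) (c : Cutoff C T)
    {A B : ℝ} (hAB : A ≤ B) (hA : 2 * T < φ A) (hB : 2 * T < φ B) {σ K : ℝ} (hσ0 : 0 ≤ σ) (hK0 : 0 ≤ K)

    (hu : ∀ z t, 0 ≤ t → φ z + t ≤ 2 * T → |(F (curve φ t z)).re| ≤ σ)
    (hg : ∀ z, φ z ≤ 2 * T → φ z * ‖deriv F (curve φ 0 z)‖ ≤ K * σ) :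
    ∫ z in A..B, ∫ t in (0:ℝ)..(2 * T), hf F c φ z t ≤
      ((L + 1) * K + C / 2 + C) * σ ^ 2 * (B - A) := by
  have hcont : Continuous φ := hL.continuous
  have hF1 : DifferentiableOn ℂ (deriv F) uhp := hF.deriv isOpen_uhp
  have h2T : (0:ℝ) ≤ 2 * T := by positivity
  set g : ℝ → ℝ → ℝ := fun z t => kzf F c φ z t + deriv φ z * kyf F c φ z t with hgdef
  have hφ'b : ∀ z, ‖deriv φ z‖ ≤ L := fun z => norm_deriv_le_of_lipschitz hL
  -- integrability
  have hi1 := integrable_rect (contOn_kzf hF hcont hε hφ c) A B (2 * T)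
  have hi2 : Integrable (fun q : ℝ × ℝ => deriv φ q.1 * kyf F c φ q.1 q.2)
      ((volume.restrict (Ioc A B)).prod (volume.restrict (Ioc 0 (2 * T)))) := by
    refine (integrable_rect (contOn_kyf hF hcont hε hφ c) A B (2 * T)).bdd_mul (c := L) ?_ ?_
    · exact ((measurable_deriv φ).comp measurable_fst).aestronglyMeasurable
    · exact Eventually.of_forall fun q => hφ'b q.1
  have hig : Integrable (Function.uncurry g)
      ((volume.restrict (Ioc A B)).prod (volume.restrict (Ioc 0 (2 * T)))) := hi1.add hi2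
  -- the integral of g vanishes
  have hg0 : ∫ z in A..B, ∫ t in (0:ℝ)..(2 * T), g z t = 0 := by
    have e1 : ∫ z in A..B, ∫ t in (0:ℝ)..(2 * T), g z t =
        ∫ z, ∫ t, g z t ∂(volume.restrict (Ioc 0 (2 * T))) ∂(volume.restrict (Ioc A B)) := by
      rw [integral_of_le hAB]
      apply MeasureTheory.integral_congr_ae
      refine Eventually.of_forall fun z => ?_
      simp only
      rw [integral_of_le h2T]
    rw [e1, integral_integral_swap hig]
    have e2 : ∀ t ∈ Ioc (0:ℝ) (2 * T), ∫ z, g z t ∂(volume.restrict (Ioc A B)) = 0 := by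
      intro t ht
      have := green_step1 hF hL hε hφ c hAB hA hB ht.1.le
      rw [integral_of_le hAB] at this
      exact this
    rw [setIntegral_congr_fun measurableSet_Ioc e2]
    simp
  have hGi : IntervalIntegrable (fun z => ∫ t in (0:ℝ)..(2 * T), g z t) volume A B := by
    rw [intervalIntegrable_iff_integrableOn_Ioc_of_le hAB]
    have := hig.integral_prod_left
    refine this.congr (Eventually.of_forall fun z => ?_)
    simp only [Function.uncurry]
    rw [integral_of_le h2T]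
  have hHi : IntervalIntegrable (fun z => ∫ t in (0:ℝ)..(2 * T), hf F c φ z t) volume A B := by
    rw [intervalIntegrable_iff_integrableOn_Ioc_of_le hAB]
    have h1 : ContinuousOn (fun q : ℝ × ℝ => hf F c φ q.1 q.2) {q | 0 ≤ q.2} := by
      unfold hf
      have e0 : ContinuousOn (fun q : ℝ × ℝ => c.q (φ q.1 + q.2)) {q | 0 ≤ q.2} :=
        ((cutoff_cont_q c).comp ((hcont.comp continuous_fst).add continuous_snd)).continuousOn
      exact e0.mul ((continuousOn_curve hcont hε hφ hF1).norm.pow 2)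
    have := (integrable_rect h1 A B (2 * T)).integral_prod_left
    refine this.congr (Eventually.of_forall fun z => ?_)
    simp only
    rw [integral_of_le h2T]
  have hsplit : ∫ z in A..B, ∫ t in (0:ℝ)..(2 * T), hf F c φ z t =
      ∫ z in A..B, ((∫ t in (0:ℝ)..(2 * T), hf F c φ z t) - ∫ t in (0:ℝ)..(2 * T), g z t) := by
    rw [intervalIntegral.integral_sub hHi hGi, hg0, sub_zero]
  rw [hsplit]
  -- pointwise bound
  have hpt : ∀ z, ‖(∫ t in (0:ℝ)..(2 * T), hf F c φ z t) - ∫ t in (0:ℝ)..(2 * T), g z t‖ ≤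
      ((L + 1) * K + C / 2 + C) * σ ^ 2 := by
    intro z
    have hq2c : ContinuousOn (fun q : ℝ × ℝ => c.q2 (φ q.1 + q.2) *
        ((F (curve φ q.2 q.1)).re * (F (curve φ q.2 q.1)).re / 2)) {q | 0 ≤ q.2} := by
      have e2 : ContinuousOn (fun q : ℝ × ℝ => c.q2 (φ q.1 + q.2)) {q | 0 ≤ q.2} :=
        (c.hq2.comp ((hcont.comp continuous_fst).add continuous_snd)).continuousOn
      have a0 := contOn_re hcont hε hφ hF
      exact e2.mul ((a0.mul a0).div_const 2)
    have slice : ∀ {G : ℝ × ℝ → ℝ}, ContinuousOn G {q | 0 ≤ q.2} →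
        IntervalIntegrable (fun t => G (z, t)) volume 0 (2 * T) := by
      intro G hG
      apply ContinuousOn.intervalIntegrable
      apply hG.comp (f := fun t : ℝ => (z, t)) (by fun_prop)
      intro t ht
      rw [uIcc_of_le h2T] at ht
      exact ht.1
    have ik := slice (contOn_kzf hF hcont hε hφ c)
    have iy := slice (contOn_kyf hF hcont hε hφ c)
    have im := slice (contOn_myf hF hcont hε hφ c)
    have iq := slice hq2c
    have e1 : ∫ t in (0:ℝ)..(2 * T), hf F c φ z t = (∫ t in (0:ℝ)..(2 * T), kzf F c φ z t) +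
        (∫ t in (0:ℝ)..(2 * T), myf F c φ z t) + ∫ t in (0:ℝ)..(2 * T), c.q2 (φ z + t) *
        ((F (curve φ t z)).re * (F (curve φ t z)).re / 2) := by
      simp_rw [hf_eq]
      rw [intervalIntegral.integral_add (ik.add im) iq, intervalIntegral.integral_add ik im]
    have e2 : ∫ t in (0:ℝ)..(2 * T), g z t = (∫ t in (0:ℝ)..(2 * T), kzf F c φ z t) +
        deriv φ z * ∫ t in (0:ℝ)..(2 * T), kyf F c φ z t := by
      simp only [hgdef]
      rw [intervalIntegral.integral_add ik (iy.const_mul _), intervalIntegral.integral_const_mul]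
    rw [e1, e2, ftc_k hF hcont hε hφ hT c z, ftc_m hF hcont hε hφ hT c z]
    set u : ℝ := (F (curve φ 0 z)).re with hudef
    set d : ℂ := deriv F (curve φ 0 z) with hd
    have hu0 : φ z ≤ 2 * T → |u| ≤ σ := fun h => hu z 0 le_rfl (by linarith)
    have hφz : 0 < φ z := lt_of_lt_of_le hε (hφ z)
    have hq0 : 0 ≤ c.q (φ z) := c.nonneg _ hφz.le
    have hqle : c.q (φ z) ≤ φ z := c.le_self _ hφz.le
    have hqd : c.q (φ z) * ‖d‖ ≤ K * σ := by
      rcases le_or_gt (φ z) (2 * T) with h2 | h2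
      · refine le_trans ?_ (hg z h2)
        gcongr
      · rw [c.zero _ h2, zero_mul]
        positivity
    have hqu : c.q (φ z) * |u| ≤ c.q (φ z) * σ := by
      rcases le_or_gt (φ z) (2 * T) with h2 | h2
      · exact mul_le_mul_of_nonneg_left (hu0 h2) hq0
      · rw [c.zero _ h2, zero_mul, zero_mul]
    have hre : |d.re| ≤ ‖d‖ := Complex.abs_re_le_norm d
    have him : |d.im| ≤ ‖d‖ := Complex.abs_im_le_norm d
    have hL0 : (0 : ℝ) ≤ L := L.2
    have t1 : |deriv φ z * (-(c.q (φ z) * (u * d.re)))| ≤ L * K * σ ^ 2 := by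
      rw [abs_mul, abs_neg, abs_mul, abs_mul, abs_of_nonneg hq0]
      have h1 : |deriv φ z| ≤ L := hφ'b z
      calc |deriv φ z| * (c.q (φ z) * (|u| * |d.re|)) = |deriv φ z| * ((c.q (φ z) * |u|) * |d.re|) := by ring
        _ ≤ L * ((c.q (φ z) * σ) * ‖d‖) := by gcongr
        _ = L * σ * (c.q (φ z) * ‖d‖) := by ring
        _ ≤ L * σ * (K * σ) := by gcongr
        _ = L * K * σ ^ 2 := by ring
    have t2 : |c.q (φ z) * (u * (-d.im))| ≤ K * σ ^ 2 := by
      rw [abs_mul, abs_mul, abs_neg, abs_of_nonneg hq0]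
      calc c.q (φ z) * (|u| * |d.im|) = (c.q (φ z) * |u|) * |d.im| := by ring
        _ ≤ (c.q (φ z) * σ) * ‖d‖ := by gcongr
        _ = σ * (c.q (φ z) * ‖d‖) := by ring
        _ ≤ σ * (K * σ) := by gcongr
        _ = K * σ ^ 2 := by ring
    have hu2 : φ z ≤ 2 * T → |u * u / 2| ≤ σ ^ 2 / 2 := by
      intro h2
      have hu0' := hu0 h2
      rw [abs_div, abs_mul, abs_of_pos (by norm_num : (0:ℝ) < 2)]
      have : |u| * |u| ≤ σ * σ := by gcongr
      rw [sq]
      linarith
    have t3 : |c.q1 (φ z) * (u * u / 2)| ≤ C / 2 * σ ^ 2 := by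
      rw [abs_mul]
      rcases le_or_gt (φ z) (2 * T) with h2 | h2
      · have h1 := c.b1 (φ z) hφz.le
        have hu2' := hu2 h2
        calc |c.q1 (φ z)| * |u * u / 2| ≤ C * (σ ^ 2 / 2) := by gcongr
          _ = C / 2 * σ ^ 2 := by ring
      · rw [c.zero1 _ h2, abs_zero, zero_mul]
        positivity
    have t4 : |∫ t in (0:ℝ)..(2 * T), c.q2 (φ z + t) *
        ((F (curve φ t z)).re * (F (curve φ t z)).re / 2)| ≤ C * σ ^ 2 := by
      rw [← Real.norm_eq_abs]
      have h1 : ‖∫ t in (0:ℝ)..(2 * T), c.q2 (φ z + t) *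
        ((F (curve φ t z)).re * (F (curve φ t z)).re / 2)‖ ≤ (C / T * (σ ^ 2 / 2)) * |2 * T - 0| := by
        apply intervalIntegral.norm_integral_le_of_norm_le_const
        intro t ht
        rw [uIoc_of_le h2T] at ht
        rw [Real.norm_eq_abs, abs_mul]
        have h2 := c.b2 (φ z + t) (by linarith [ht.1])
        rcases le_or_gt (φ z + t) (2 * T) with h2T' | h2T'
        swap
        · rw [c.zero2 _ h2T', abs_zero, zero_mul]
          positivity
        have h3 := hu z t ht.1.le h2T'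
        have h4 : |(F (curve φ t z)).re * (F (curve φ t z)).re / 2| ≤ σ ^ 2 / 2 := by
          rw [abs_div, abs_mul, abs_of_pos (by norm_num : (0:ℝ) < 2)]
          have : |(F (curve φ t z)).re| * |(F (curve φ t z)).re| ≤ σ * σ := by gcongr
          rw [sq]
          linarith
        gcongr
      refine h1.trans (le_of_eq ?_)
      rw [sub_zero, abs_of_pos (by positivity)]
      field_simp
    rw [Real.norm_eq_abs]
    have e3 : (∫ t in (0:ℝ)..(2 * T), kzf F c φ z t) +
        (-(c.q (φ z) * (u * (-d.im)) - c.q1 (φ z) * (u * u / 2))) +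
        (∫ t in (0:ℝ)..(2 * T), c.q2 (φ z + t) *
        ((F (curve φ t z)).re * (F (curve φ t z)).re / 2)) -
        ((∫ t in (0:ℝ)..(2 * T), kzf F c φ z t) + deriv φ z * (-(c.q (φ z) * (u * d.re)))) =
        -(deriv φ z * (-(c.q (φ z) * (u * d.re)))) - c.q (φ z) * (u * (-d.im)) +
        c.q1 (φ z) * (u * u / 2) + (∫ t in (0:ℝ)..(2 * T), c.q2 (φ z + t) *
        ((F (curve φ t z)).re * (F (curve φ t z)).re / 2)) := by ring
    rw [e3]
    generalize deriv φ z * (-(c.q (φ z) * (u * d.re))) = x1 at t1 ⊢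
    generalize c.q (φ z) * (u * (-d.im)) = x2 at t2 ⊢
    generalize c.q1 (φ z) * (u * u / 2) = x3 at t3 ⊢
    generalize (∫ t in (0:ℝ)..(2 * T), c.q2 (φ z + t) *
        ((F (curve φ t z)).re * (F (curve φ t z)).re / 2)) = x4 at t4 ⊢
    have h5 : |-x1 - x2 + x3 + x4| ≤ |x1| + |x2| + |x3| + |x4| := by
      have a1 := abs_add_le (-x1 - x2 + x3) x4
      have a2 := abs_add_le (-x1 - x2) x3
      have a3 := abs_sub (-x1) x2
      rw [abs_neg] at a3
      linarith
    calc |-x1 - x2 + x3 + x4| ≤ |x1| + |x2| + |x3| + |x4| := h5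
      _ ≤ L * K * σ ^ 2 + K * σ ^ 2 + C / 2 * σ ^ 2 + C * σ ^ 2 := by linarith
      _ = ((L + 1) * K + C / 2 + C) * σ ^ 2 := by ring
  have hfin := intervalIntegral.norm_integral_le_of_norm_le_const (a := A) (b := B)
    (f := fun z => (∫ t in (0:ℝ)..(2 * T), hf F c φ z t) - ∫ t in (0:ℝ)..(2 * T), g z t)
    (C := ((L + 1) * K + C / 2 + C) * σ ^ 2) (fun z _ => hpt z)
  rw [abs_of_nonneg (by linarith : 0 ≤ B - A)] at hfin
  exact (le_abs_self _).trans (by rw [← Real.norm_eq_abs]; exact hfin)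

end Pool.Agent.Work.MP_055a27_an.Cr3.SawT

end

section

set_option autoImplicit false

open MeasureTheory Set Filter Topology Complex Metric ComplexConjugate
open scoped ENNReal NNReal

namespace Pool.Agent.Work.MP_055a27_an.Nv

namespace HL

lemma layer_fin (q : ℝ) (hq : 0 < q) (α : ℝ) (hα : 0 ≤ α) :
    ENNReal.ofReal α ^ q = ∫⁻ t in Ioi (0 : ℝ),
      (if ENNReal.ofReal t < ENNReal.ofReal α then ENNReal.ofReal (q * t ^ (q - 1)) else 0) := by
  have h := lintegral_rpow_eq_lintegral_meas_lt_mul (μ := Measure.dirac ())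
    (f := fun _ : Unit => α) (Eventually.of_forall fun _ => hα) aemeasurable_const hq
  rw [lintegral_dirac] at h
  rw [ENNReal.ofReal_rpow_of_nonneg hα hq.le, h, ← lintegral_const_mul' _ _ ENNReal.ofReal_ne_top]
  apply setLIntegral_congr_fun measurableSet_Ioi
  intro t ht
  have ht' : (0 : ℝ) < t := ht
  by_cases hta : t < α
  · have h1 : ENNReal.ofReal t < ENNReal.ofReal α := by
      rw [ENNReal.ofReal_lt_ofReal_iff (ht'.trans hta)]; exact hta
    have h2 : {_a : Unit | t < α} = univ := by ext; simp [hta]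
    simp only [h1, if_true, h2, measure_univ, one_mul]
    rw [ENNReal.ofReal_mul hq.le]
  · have h1 : ¬ ENNReal.ofReal t < ENNReal.ofReal α := by
      push Not at hta ⊢
      exact ENNReal.ofReal_le_ofReal hta
    have h2 : {_a : Unit | t < α} = ∅ := by ext; simp [hta]
    simp only [h1, if_false, h2, measure_empty, zero_mul, mul_zero]

lemma layer (q : ℝ) (hq : 0 < q) (a : ℝ≥0∞) :
    a ^ q = ∫⁻ t in Ioi (0 : ℝ),
      (if ENNReal.ofReal t < a then ENNReal.ofReal (q * t ^ (q - 1)) else 0) := by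
  by_cases ha : a = ∞
  · subst ha
    rw [ENNReal.top_rpow_of_pos hq]
    symm
    rw [eq_top_iff]
    have h1 : Tendsto (fun α : ℝ => ENNReal.ofReal α) atTop (𝓝 ∞) := ENNReal.tendsto_ofReal_atTop
    have h2 := (ENNReal.continuous_rpow_const (y := q)).tendsto ∞
    rw [ENNReal.top_rpow_of_pos hq] at h2
    refine le_of_tendsto' (h2.comp h1) ?_
    intro α
    show ENNReal.ofReal α ^ q ≤ _
    rcases le_or_gt 0 α with h | h
    · rw [layer_fin q hq α h]
      apply lintegral_mono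
      intro t
      dsimp only
      split_ifs with h1 h2
      · exact le_rfl
      · exact absurd (ENNReal.ofReal_lt_top) h2
      · exact zero_le
      · exact le_rfl
    · rw [ENNReal.ofReal_of_nonpos h.le, ENNReal.zero_rpow_of_pos hq]
      exact zero_le
  · have h1 : ENNReal.ofReal a.toReal = a := ENNReal.ofReal_toReal ha
    have h2 := layer_fin q hq a.toReal ENNReal.toReal_nonneg
    rw [h1] at h2
    exact h2

lemma mx_congr {h h' : ℝ → ℝ≥0∞} (hh : h =ᵐ[volume] h') : mx h = mx h' := by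
  funext x
  unfold mx
  apply iSup_congr; intro r
  apply iSup_congr; intro _
  congr 1
  exact lintegral_congr_ae (ae_restrict_of_ae hh)

lemma isOpen_gt (h : ℝ → ℝ≥0∞) (a : ℝ≥0∞) : IsOpen {x | a < mx h x} := by
  rw [isOpen_iff_mem_nhds]
  intro x hx
  simp only [mem_ofPred_eq, mx] at hx
  obtain ⟨r, hr⟩ := lt_iSup_iff.1 hx
  obtain ⟨hr0, hr1⟩ := lt_iSup_iff.1 hr
  set F := ∫⁻ t in Ioo (x - r) (x + r), h t with hF
  have hcont : Tendsto (fun r' : ℝ => F / ENNReal.ofReal (2 * r')) (𝓝[>] r)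
      (𝓝 (F / ENNReal.ofReal (2 * r))) := by
    apply ENNReal.Tendsto.const_div
    · apply Tendsto.mono_left _ nhdsWithin_le_nhds
      apply ENNReal.tendsto_ofReal
      apply Continuous.tendsto
      fun_prop
    · left
      exact ENNReal.ofReal_ne_top
  obtain ⟨r', hr', hr2⟩ := ((hcont.eventually (lt_mem_nhds hr1)).and self_mem_nhdsWithin).exists
  have hr'' : r < r' := hr2
  filter_upwards [Ioo_mem_nhds (show x - (r' - r) < x by linarith)
    (show x < x + (r' - r) by linarith)] with y hy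
  simp only [mem_ofPred_eq, mx]
  refine lt_of_lt_of_le hr' ?_
  refine le_trans ?_ (le_iSup₂ (f := fun (r : ℝ) (_ : 0 < r) =>
    (∫⁻ t in Ioo (y - r) (y + r), h t) / ENNReal.ofReal (2 * r)) r' (hr0.trans hr''))
  apply ENNReal.div_le_div_right
  apply lintegral_mono_set
  apply Ioo_subset_Ioo
  · linarith [hy.2]
  · linarith [hy.1]

lemma measurable_mx (h : ℝ → ℝ≥0∞) : Measurable (mx h) :=
  measurable_of_Ioi fun a => (isOpen_gt h a).measurableSet

lemma weak (h : ℝ → ℝ≥0∞) (s : ℝ≥0∞) (hs : s ≠ 0) (hs' : s ≠ ∞) :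
    volume {x | s < mx h x} ≤ 5 / s * ∫⁻ x, h x := by
  by_cases hI : ∫⁻ x, h x = ∞
  · rw [hI, ENNReal.mul_top]
    · exact le_top
    · exact (ENNReal.div_pos (by norm_num) hs').ne'
  set T : Set (ℝ × ℝ) := {q | 0 < q.2 ∧
    s * ENNReal.ofReal (2 * q.2) < ∫⁻ t in Ioo (q.1 - q.2) (q.1 + q.2), h t} with hT
  have hbd : ∀ q ∈ T, q.2 ≤ ((∫⁻ x, h x) / s).toReal := by
    rintro ⟨x, r⟩ ⟨hr, hq⟩
    simp only at hr hq ⊢
    have h1 : s * ENNReal.ofReal (2 * r) ≤ ∫⁻ x, h x := hq.le.trans (setLIntegral_le_lintegral _ _)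
    have h2 : ENNReal.ofReal (2 * r) ≤ (∫⁻ x, h x) / s := by
      rw [ENNReal.le_div_iff_mul_le (Or.inl hs) (Or.inl hs'), mul_comm]
      exact h1
    have h3 : ENNReal.ofReal r ≤ (∫⁻ x, h x) / s :=
      (ENNReal.ofReal_le_ofReal (by linarith)).trans h2
    exact (ENNReal.ofReal_le_iff_le_toReal (ENNReal.div_lt_top hI hs).ne).1 h3
  obtain ⟨u, huT, hudisj, hucov⟩ := Vitali.exists_disjoint_subfamily_covering_enlargement_closedBall
    T (fun q : ℝ × ℝ => q.1) (fun q : ℝ × ℝ => q.2) _ hbd 5 (by norm_num)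
  have hucount : u.Countable := by
    apply hudisj.countable_of_nonempty_interior
    intro q hq
    refine ⟨q.1, ball_subset_interior_closedBall ?_⟩
    simp [(huT hq).1]
  have hcov : {x | s < mx h x} ⊆ ⋃ q ∈ u, closedBall q.1 (5 * q.2) := by
    intro x hx
    simp only [mem_ofPred_eq, mx] at hx
    obtain ⟨r, hr⟩ := lt_iSup_iff.1 hx
    obtain ⟨hr0, hr1⟩ := lt_iSup_iff.1 hr
    have hmem : ((x, r) : ℝ × ℝ) ∈ T := by
      refine ⟨hr0, ?_⟩
      simp only
      have hne : ENNReal.ofReal (2 * r) ≠ 0 := by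
        simp only [ne_eq, ENNReal.ofReal_eq_zero, not_le]; linarith
      exact (ENNReal.lt_div_iff_mul_lt (Or.inl hne) (Or.inl ENNReal.ofReal_ne_top)).1 hr1
    obtain ⟨b, hb, hsub⟩ := hucov (x, r) hmem
    rw [mem_iUnion₂]
    exact ⟨b, hb, hsub (mem_closedBall_self hr0.le)⟩
  have hdisj : u.PairwiseDisjoint (fun q : ℝ × ℝ => Ioo (q.1 - q.2) (q.1 + q.2)) := by
    intro a ha b hb hab
    refine (hudisj ha hb hab).mono ?_ ?_
    · show Ioo (a.1 - a.2) (a.1 + a.2) ⊆ closedBall a.1 a.2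
      rw [← Real.ball_eq_Ioo]; exact ball_subset_closedBall
    · show Ioo (b.1 - b.2) (b.1 + b.2) ⊆ closedBall b.1 b.2
      rw [← Real.ball_eq_Ioo]; exact ball_subset_closedBall
  calc volume {x | s < mx h x} ≤ volume (⋃ q ∈ u, closedBall q.1 (5 * q.2)) := measure_mono hcov
    _ ≤ ∑' q : u, volume (closedBall (q : ℝ × ℝ).1 (5 * (q : ℝ × ℝ).2)) :=
        measure_biUnion_le volume hucount _
    _ ≤ ∑' q : u, 5 / s * ∫⁻ t in Ioo ((q : ℝ × ℝ).1 - (q : ℝ × ℝ).2)
          ((q : ℝ × ℝ).1 + (q : ℝ × ℝ).2), h t := by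
        apply ENNReal.tsum_le_tsum
        intro q
        obtain ⟨h0, h1⟩ := huT q.2
        rw [Real.volume_closedBall]
        have e1 : ENNReal.ofReal (2 * (5 * (q : ℝ × ℝ).2)) =
            5 / s * (s * ENNReal.ofReal (2 * (q : ℝ × ℝ).2)) := by
          rw [← mul_assoc (5 / s), ENNReal.div_mul_cancel hs hs',
            show 2 * (5 * (q : ℝ × ℝ).2) = 5 * (2 * (q : ℝ × ℝ).2) by ring,
            ENNReal.ofReal_mul (by norm_num)]
          norm_num
        rw [e1]
        gcongr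
    _ = 5 / s * ∑' q : u, ∫⁻ t in Ioo ((q : ℝ × ℝ).1 - (q : ℝ × ℝ).2)
          ((q : ℝ × ℝ).1 + (q : ℝ × ℝ).2), h t := ENNReal.tsum_mul_left
    _ = 5 / s * ∫⁻ t in ⋃ q ∈ u, Ioo (q.1 - q.2) (q.1 + q.2), h t := by
        rw [lintegral_biUnion hucount (fun _ _ => measurableSet_Ioo) hdisj]
    _ ≤ 5 / s * ∫⁻ x, h x := by
        gcongr
        exact Measure.restrict_le_self

lemma split (h : ℝ → ℝ≥0∞) (hh : Measurable h) (c : ℝ≥0∞) (x : ℝ) :
    mx h x ≤ mx (fun t => if c < h t then h t else 0) x + c := by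
  unfold mx
  apply iSup₂_le
  intro r hr
  have hne : ENNReal.ofReal (2 * r) ≠ 0 := by
    simp only [ne_eq, ENNReal.ofReal_eq_zero, not_le]; linarith
  have h1 : (∫⁻ t in Ioo (x - r) (x + r), h t) ≤
      (∫⁻ t in Ioo (x - r) (x + r), (if c < h t then h t else 0)) +
        c * ENNReal.ofReal (2 * r) := by
    have e1 : c * ENNReal.ofReal (2 * r) = ∫⁻ _ in Ioo (x - r) (x + r), c := by
      rw [setLIntegral_const, Real.volume_Ioo]
      congr 2; ring
    have hm : Measurable fun t => if c < h t then h t else 0 :=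
      Measurable.ite (measurableSet_lt measurable_const hh) hh measurable_const
    rw [e1, ← lintegral_add_left hm]
    apply lintegral_mono
    intro t
    dsimp only
    split_ifs with h2
    · exact le_self_add
    · rw [zero_add]; exact not_lt.1 h2
  calc (∫⁻ t in Ioo (x - r) (x + r), h t) / ENNReal.ofReal (2 * r)
      ≤ ((∫⁻ t in Ioo (x - r) (x + r), (if c < h t then h t else 0)) +
        c * ENNReal.ofReal (2 * r)) / ENNReal.ofReal (2 * r) := ENNReal.div_le_div_right h1 _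
    _ = (∫⁻ t in Ioo (x - r) (x + r), (if c < h t then h t else 0)) / ENNReal.ofReal (2 * r)
        + c := by
        rw [ENNReal.add_div, ENNReal.mul_div_cancel_right hne ENNReal.ofReal_ne_top]
    _ ≤ _ := by
        gcongr
        exact le_iSup₂ (f := fun (r : ℝ) (_ : 0 < r) =>
          (∫⁻ t in Ioo (x - r) (x + r), (if c < h t then h t else 0)) / ENNReal.ofReal (2 * r)) r hr

lemma weak2 (h : ℝ → ℝ≥0∞) (hh : Measurable h) (t : ℝ) (ht : 0 < t) :
    volume {x | ENNReal.ofReal t < mx h x} ≤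
      ENNReal.ofReal (10 / t) * ∫⁻ x, (if ENNReal.ofReal (t / 2) < h x then h x else 0) := by
  have h1 : {x | ENNReal.ofReal t < mx h x} ⊆
      {x | ENNReal.ofReal (t / 2) <
        mx (fun y => if ENNReal.ofReal (t / 2) < h y then h y else 0) x} := by
    intro x hx
    simp only [mem_ofPred_eq] at hx ⊢
    have h2 := lt_of_lt_of_le hx (split h hh (ENNReal.ofReal (t / 2)) x)
    by_contra hcon
    push Not at hcon
    have h3 : ENNReal.ofReal t < ENNReal.ofReal (t / 2) + ENNReal.ofReal (t / 2) :=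
      lt_of_lt_of_le h2 (by gcongr)
    rw [← ENNReal.ofReal_add (by linarith) (by linarith)] at h3
    simp at h3
  refine (measure_mono h1).trans ?_
  have hne : ENNReal.ofReal (t / 2) ≠ 0 := by
    simp only [ne_eq, ENNReal.ofReal_eq_zero, not_le]; linarith
  refine (weak _ _ hne ENNReal.ofReal_ne_top).trans ?_
  have e1 : (5 : ℝ≥0∞) / ENNReal.ofReal (t / 2) = ENNReal.ofReal (10 / t) := by
    rw [show (5 : ℝ≥0∞) = ENNReal.ofReal 5 by norm_num,
      ← ENNReal.ofReal_div_of_pos (by linarith : (0:ℝ) < t / 2)]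
    congr 1
    field_simp
    norm_num
  rw [e1]

end HL

open HL in
theorem I_HL : StHL := by
  intro p hp
  have hp0 : 0 < p := by linarith
  refine ⟨Real.toNNReal (10 * p / (p - 1) * 2 ^ (p - 1)), ?_⟩
  intro h hm
  refine ⟨measurable_mx h, ?_⟩
  set h' := hm.mk h with hh'
  have hae : h =ᵐ[volume] h' := hm.ae_eq_mk
  have hmeas : Measurable h' := hm.measurable_mk
  have e1 : mx h = mx h' := mx_congr hae
  have e2 : ∫⁻ x, (h x) ^ p = ∫⁻ x, (h' x) ^ p := by
    apply lintegral_congr_ae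
    filter_upwards [hae] with x hx
    rw [hx]
  rw [e1, e2]
  clear_value h'
  clear e1 e2 hae hm hh' h
  -- layer cake
  have L1 : ∫⁻ x, (mx h' x) ^ p = ∫⁻ t in Ioi (0 : ℝ), ENNReal.ofReal (p * t ^ (p - 1)) *
      volume {x | ENNReal.ofReal t < mx h' x} := by
    have : ∀ x, (mx h' x) ^ p = ∫⁻ t in Ioi (0 : ℝ),
      (if ENNReal.ofReal t < mx h' x then ENNReal.ofReal (p * t ^ (p - 1)) else 0) :=
      fun x => layer p hp0 _
    simp_rw [this]
    rw [lintegral_lintegral_swap]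
    · apply lintegral_congr
      intro t
      have e : (fun x => if ENNReal.ofReal t < mx h' x then ENNReal.ofReal (p * t ^ (p - 1)) else 0)
          = indicator {x | ENNReal.ofReal t < mx h' x}
            (fun _ => ENNReal.ofReal (p * t ^ (p - 1))) := by
        funext x
        simp [indicator]
      rw [e, lintegral_indicator_const (isOpen_gt h' _).measurableSet]
    · apply Measurable.aemeasurable
      apply Measurable.ite
      · exact measurableSet_lt (ENNReal.measurable_ofReal.comp measurable_snd)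
          ((measurable_mx h').comp measurable_fst)
      · fun_prop
      · exact measurable_const
  have L2 : ∫⁻ t in Ioi (0 : ℝ), ENNReal.ofReal (p * t ^ (p - 1)) *
      volume {x | ENNReal.ofReal t < mx h' x} ≤
      ∫⁻ t in Ioi (0 : ℝ), ∫⁻ x, (ENNReal.ofReal (10 * p * t ^ (p - 2)) *
        (if ENNReal.ofReal (t / 2) < h' x then h' x else 0)) := by
    apply setLIntegral_mono'
    · exact measurableSet_Ioi
    · intro t ht
      have ht' : (0 : ℝ) < t := ht
      rw [lintegral_const_mul' _ _ ENNReal.ofReal_ne_top]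
      calc ENNReal.ofReal (p * t ^ (p - 1)) * volume {x | ENNReal.ofReal t < mx h' x}
          ≤ ENNReal.ofReal (p * t ^ (p - 1)) * (ENNReal.ofReal (10 / t) *
            ∫⁻ x, (if ENNReal.ofReal (t / 2) < h' x then h' x else 0)) := by
            gcongr
            exact weak2 h' hmeas t ht'
        _ = _ := by
            rw [← mul_assoc, ← ENNReal.ofReal_mul (by positivity)]
            congr 2
            have h9 : t ^ (p - 2) = t ^ (p - 1) / t := by
              rw [show p - 2 = (p - 1) - 1 by ring]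
              exact Real.rpow_sub_one ht'.ne' (p - 1)
            rw [h9]
            ring
  have L3 : ∫⁻ t in Ioi (0 : ℝ), ∫⁻ x, (ENNReal.ofReal (10 * p * t ^ (p - 2)) *
        (if ENNReal.ofReal (t / 2) < h' x then h' x else 0)) =
      ∫⁻ x, ENNReal.ofReal (10 * p / (p - 1) * 2 ^ (p - 1)) * (h' x) ^ p := by
    rw [lintegral_lintegral_swap]
    · apply lintegral_congr
      intro x
      have hx : ∀ t ∈ Ioi (0 : ℝ), (ENNReal.ofReal (10 * p * t ^ (p - 2)) *
          (if ENNReal.ofReal (t / 2) < h' x then h' x else 0)) =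
          (ENNReal.ofReal (10 * p / (p - 1)) * h' x) *
          (if ENNReal.ofReal t < 2 * h' x then ENNReal.ofReal ((p - 1) * t ^ ((p - 1) - 1)) else 0)
          := by
        intro t ht
        have ht' : (0 : ℝ) < t := ht
        have hiff : ENNReal.ofReal (t / 2) < h' x ↔ ENNReal.ofReal t < 2 * h' x := by
          rw [ENNReal.ofReal_div_of_pos (by norm_num), ENNReal.div_lt_iff (by norm_num)
            (by norm_num), mul_comm (h' x)]
          norm_num
        by_cases hc : ENNReal.ofReal t < 2 * h' x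
        · simp only [hiff, hc, if_true]
          have : 10 * p * t ^ (p - 2) = 10 * p / (p - 1) * ((p - 1) * t ^ ((p - 1) - 1)) := by
            have h1 : p - 1 ≠ 0 := by linarith
            rw [show p - 2 = (p - 1) - 1 by ring]
            field_simp
          rw [this, ENNReal.ofReal_mul (by
            apply div_nonneg; positivity; linarith)]
          ring
        · simp only [hiff, hc, if_false, mul_zero]
      rw [setLIntegral_congr_fun measurableSet_Ioi hx]
      have hme : Measurable fun t : ℝ => (if ENNReal.ofReal t < 2 * h' x then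
          ENNReal.ofReal ((p - 1) * t ^ ((p - 1) - 1)) else 0) := by
        apply Measurable.ite
        · exact measurableSet_lt (by fun_prop) measurable_const
        · fun_prop
        · exact measurable_const
      rw [lintegral_const_mul _ hme, ← layer (p - 1) (by linarith)]
      rw [ENNReal.mul_rpow_of_nonneg _ _ (by linarith : (0:ℝ) ≤ p - 1)]
      have e3 : h' x ^ p = h' x * h' x ^ (p - 1) := by
        have := ENNReal.rpow_add_of_nonneg (x := h' x) 1 (p - 1) (by norm_num) (by linarith)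
        rw [ENNReal.rpow_one] at this
        rw [← this]
        congr 1
        ring
      rw [e3, ENNReal.ofReal_mul (by apply div_nonneg; positivity; linarith)]
      rw [← ENNReal.ofReal_rpow_of_pos (by norm_num : (0:ℝ) < 2)]
      norm_num
      ring
    · apply Measurable.aemeasurable
      apply Measurable.mul
      · fun_prop
      · apply Measurable.ite
        · exact measurableSet_lt (by fun_prop) (by fun_prop)
        · fun_prop
        · exact measurable_const
  rw [L1]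
  refine L2.trans ?_
  rw [L3, lintegral_const_mul' _ _ ENNReal.ofReal_ne_top]
  apply le_of_eq
  rfl

end Pool.Agent.Work.MP_055a27_an.Nv

end

section

/-!
# Item Pk: Poisson integrals in a cone are bounded by the maximal function
-/

set_option autoImplicit false

open MeasureTheory Set Filter Topology Complex Metric ComplexConjugate
open scoped ENNReal NNReal

namespace Pool.Agent.Work.MP_055a27_an.Nv

namespace Pk

theorem pk_near {z y t : ℝ} (hy : 0 < y) : pk z y t ≤ 4 / (Real.pi * y * 4 ^ 0) := by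
  unfold pk
  have hp := Real.pi_pos
  rw [div_le_div_iff₀ (by positivity) (by positivity)]
  have h1 : 0 ≤ Real.pi * (z - t) ^ 2 := by positivity
  have h2 : 0 ≤ Real.pi * y ^ 2 := by positivity
  nlinarith

theorem pk_far {z y t : ℝ} (hy : 0 < y) (j : ℕ) (h : 2 ^ j * y ≤ |t - z|) :
    pk z y t ≤ 4 / (Real.pi * y * 4 ^ (j + 1)) := by
  unfold pk
  have hp := Real.pi_pos
  rw [div_le_div_iff₀ (by positivity) (by positivity)]
  have h0 : (0 : ℝ) ≤ 2 ^ j * y := by positivity
  have h1 : (2 ^ j * y) ^ 2 ≤ (t - z) ^ 2 := by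
    rw [← sq_abs (t - z)]
    exact pow_le_pow_left₀ h0 h 2
  have h2 : ((2 : ℝ) ^ j * y) ^ 2 = 4 ^ j * y ^ 2 := by
    rw [mul_pow, ← pow_mul, mul_comm j 2, pow_mul]
    norm_num
  rw [h2] at h1
  have h3 : Real.pi * (4 ^ j * y ^ 2) ≤ Real.pi * (t - z) ^ 2 :=
    mul_le_mul_of_nonneg_left h1 hp.le
  have h4 : 0 ≤ Real.pi * y ^ 2 := by positivity
  have e : y * (Real.pi * y * 4 ^ (j + 1)) = 4 * (Real.pi * (4 ^ j * y ^ 2)) := by
    rw [pow_succ]; ring
  rw [e]
  have e2 : 4 * (Real.pi * ((z - t) ^ 2 + y ^ 2)) =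
      4 * (Real.pi * (t - z) ^ 2) + 4 * (Real.pi * y ^ 2) := by ring
  rw [e2]
  linarith

theorem exists_k {z y t : ℝ} (hy : 0 < y) : ∃ k : ℕ, pk z y t ≤ 4 / (Real.pi * y * 4 ^ k) ∧
    t ∈ Ioo (z - 2 ^ k * y) (z + 2 ^ k * y) := by
  classical
  have hex : ∃ k : ℕ, |t - z| < 2 ^ k * y := by
    obtain ⟨k, hk⟩ := pow_unbounded_of_one_lt (|t - z| / y) (by norm_num : (1 : ℝ) < 2)
    exact ⟨k, by rwa [div_lt_iff₀ hy] at hk⟩
  have hmem : ∀ k : ℕ, |t - z| < 2 ^ k * y → t ∈ Ioo (z - 2 ^ k * y) (z + 2 ^ k * y) := by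
    intro k hk
    rw [abs_lt] at hk
    exact ⟨by linarith [hk.1], by linarith [hk.2]⟩
  have hs := Nat.find_spec hex
  refine ⟨Nat.find hex, ?_, hmem _ hs⟩
  rcases hk : Nat.find hex with _ | j
  · exact pk_near hy
  · refine pk_far hy j ?_
    by_contra hc
    push Not at hc
    have := Nat.find_min hex (m := j) (by omega)
    exact this hc

theorem ball_le (h : ℝ → ℝ≥0∞) (x : ℝ) {r : ℝ} (hr : 0 < r) :
    ∫⁻ t in Ioo (x - r) (x + r), h t ≤ mx h x * ENNReal.ofReal (2 * r) := by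
  have h1 : (∫⁻ t in Ioo (x - r) (x + r), h t) / ENNReal.ofReal (2 * r) ≤ mx h x := by
    unfold mx
    exact le_iSup₂ (f := fun (r : ℝ) (_ : 0 < r) =>
      (∫⁻ t in Ioo (x - r) (x + r), h t) / ENNReal.ofReal (2 * r)) r hr
  have h2 : ENNReal.ofReal (2 * r) ≠ 0 := by
    rw [Ne, ENNReal.ofReal_eq_zero, not_le]; linarith
  rwa [ENNReal.div_le_iff h2 ENNReal.ofReal_ne_top] at h1

theorem summ (b : ℝ) : Summable (fun k : ℕ => 8 * (b + 2 ^ k) / (Real.pi * 4 ^ k)) := by
  have h1 : Summable (fun k : ℕ => (8 * b / Real.pi) * (1 / 4 : ℝ) ^ k) :=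
    (summable_geometric_of_lt_one (by norm_num) (by norm_num)).mul_left _
  have h2 : Summable (fun k : ℕ => (8 / Real.pi) * (1 / 2 : ℝ) ^ k) :=
    (summable_geometric_of_lt_one (by norm_num) (by norm_num)).mul_left _
  refine (h1.add h2).congr ?_
  intro k
  have hp := Real.pi_pos
  have e : (4 : ℝ) ^ k = 2 ^ k * 2 ^ k := by rw [← mul_pow]; norm_num
  rw [one_div_pow, one_div_pow, e]
  field_simp

end Pk

/-- Item 2: Poisson integrals in a cone. -/
theorem I_Pk : StPk := by
  intro b hb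
  refine ⟨Real.toNNReal (∑' k : ℕ, 8 * (b + 2 ^ k) / (Real.pi * 4 ^ k)), ?_⟩
  intro h hh x z y hy hzx
  have hp := Real.pi_pos
  obtain ⟨hz1, hz2⟩ := abs_le.mp hzx
  set w : ℕ → ℝ := fun k => 4 / (Real.pi * y * 4 ^ k) with hw
  set J : ℕ → Set ℝ := fun k => Ioo (z - 2 ^ k * y) (z + 2 ^ k * y) with hJ
  have hw0 : ∀ k, 0 ≤ w k := fun k => by rw [hw]; positivity
  calc ∫⁻ t, ENNReal.ofReal (pk z y t) * h t
      ≤ ∫⁻ t, ∑' k : ℕ, ENNReal.ofReal (w k) * (J k).indicator h t := by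
        refine lintegral_mono (fun t => ?_)
        obtain ⟨k, hk1, hk2⟩ := Pk.exists_k (z := z) (t := t) hy
        refine le_trans ?_ (ENNReal.le_tsum k)
        rw [Set.indicator_of_mem hk2]
        exact mul_le_mul_left (ENNReal.ofReal_le_ofReal hk1) _
    _ = ∑' k : ℕ, ∫⁻ t, ENNReal.ofReal (w k) * (J k).indicator h t := by
        refine lintegral_tsum (fun k => ?_)
        exact (hh.indicator measurableSet_Ioo).const_mul _
    _ ≤ ∑' k : ℕ, ENNReal.ofReal (8 * (b + 2 ^ k) / (Real.pi * 4 ^ k)) * mx h x := by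
        refine ENNReal.tsum_le_tsum (fun k => ?_)
        rw [lintegral_const_mul' _ _ ENNReal.ofReal_ne_top, lintegral_indicator measurableSet_Ioo]
        have hr : 0 < (b + 2 ^ k) * y := by positivity
        have hsub : J k ⊆ Ioo (x - (b + 2 ^ k) * y) (x + (b + 2 ^ k) * y) := by
          intro t ht
          rw [hJ] at ht
          obtain ⟨h1, h2⟩ := ht
          constructor
          · linarith
          · linarith
        have h3 : ∫⁻ t in J k, h t ≤ mx h x * ENNReal.ofReal (2 * ((b + 2 ^ k) * y)) :=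
          le_trans (lintegral_mono_set hsub) (Pk.ball_le h x hr)
        calc ENNReal.ofReal (w k) * ∫⁻ t in J k, h t
            ≤ ENNReal.ofReal (w k) * (mx h x * ENNReal.ofReal (2 * ((b + 2 ^ k) * y))) :=
              mul_le_mul_right h3 _
          _ = ENNReal.ofReal (w k) * ENNReal.ofReal (2 * ((b + 2 ^ k) * y)) * mx h x := by ring
          _ = ENNReal.ofReal (8 * (b + 2 ^ k) / (Real.pi * 4 ^ k)) * mx h x := by
              rw [← ENNReal.ofReal_mul (hw0 k)]
              congr 2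
              rw [hw]
              field_simp
              ring
    _ = (Real.toNNReal (∑' k : ℕ, 8 * (b + 2 ^ k) / (Real.pi * 4 ^ k)) : ℝ≥0) * mx h x := by
        rw [ENNReal.tsum_mul_right]
        congr 1
        rw [← ENNReal.ofReal_tsum_of_nonneg (fun k => by positivity) (Pk.summ b)]
        rfl

end Pool.Agent.Work.MP_055a27_an.Nv

end

section

/-! # Change of aperture, horizontal version -/

open MeasureTheory Set Filter Topology Complex Metric
open scoped ENNReal NNReal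

namespace Pool.Agent.Work.MP_055a27_an.Thr

namespace Aper2

lemma pow_eq (g b p : ℝ) (hp : 0 < p) (f : ℝ → ℝ) (x : ℝ) :
    (ntMax b f x * ENNReal.ofReal (Real.exp (|x| ^ g / p))) ^ p =
      (ntMax b f x) ^ p * ENNReal.ofReal (Ug g x) := by
  rw [ENNReal.mul_rpow_of_nonneg _ _ hp.le, ENNReal.ofReal_rpow_of_pos (Real.exp_pos _)]
  congr 2
  unfold Ug
  rw [← Real.exp_mul]
  congr 1
  field_simp

/-- Horizontal mean value inequality. -/
lemma horiz {f : ℝ → ℝ} (hf : Admissible f) {x z y B : ℝ} (hy : 0 < y)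
    (hB : ∀ s : ℝ, |x - s| ≤ |x - z| → ‖dschw f (s + y * I)‖ ≤ B) :
    |poisson f z y - poisson f x y| ≤ B * |z - x| := by
  have h1 : ∀ s ∈ uIcc x z, HasDerivWithinAt (fun s : ℝ => schw f ((s : ℂ) + y * I))
      (dschw f (s + y * I)) (uIcc x z) s := by
    intro s _
    have h2 : HasDerivAt (schw f) (dschw f (s + y * I)) ((s : ℂ) + y * I) :=
      hasDerivAt_schw hf (by simpa using hy)
    have h3 : HasDerivAt (fun s : ℂ => s + y * I) 1 (s : ℂ) := (hasDerivAt_id _).add_const _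
    have h4 := (h2.comp (s : ℂ) h3).comp_ofReal
    simpa using h4.hasDerivWithinAt
  have h5 := (convex_uIcc x z).norm_image_sub_le_of_norm_hasDerivWithin_le h1
    (fun s hs => hB s (by
      rw [abs_sub_comm x s, abs_sub_comm x z]
      exact abs_sub_left_of_mem_uIcc hs)) left_mem_uIcc right_mem_uIcc
  rw [poisson_eq_re hf hy, poisson_eq_re hf hy, ← Complex.sub_re]
  refine (Complex.abs_re_le_norm _).trans ?_
  rw [← Real.norm_eq_abs (z - x)]
  exact h5

end Aper2

theorem stAper2 (hHL : StHL) (hCone : StCone) (hKE : StKE) (hPois : StPois) (hMeas : StMeas) :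
    StAper := by
  intro g b b' p hg hg1 hb hb' hT hp
  have hp0 : 0 < p := by linarith
  obtain ⟨δ, hδ, hcone⟩ := hCone g b' hg hg1 hb' hT
  obtain ⟨C1, hC1, h1⟩ := hKE g b p hg hg1 hb hp0
  obtain ⟨C2, h2⟩ := hPois (2 * b') (by positivity)
  obtain ⟨C3, h3⟩ := hHL p hp
  set ε : ℝ := min (1 / 2) (δ / C1) with hε
  have hε0 : 0 < ε := lt_min (by norm_num) (div_pos hδ hC1)
  have hε1 : ε ≤ 1 / 2 := min_le_left _ _
  have hε2 : C1 * ε ≤ δ := by
    have : ε ≤ δ / C1 := min_le_right _ _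
    calc C1 * ε ≤ C1 * (δ / C1) := by gcongr
      _ = δ := by field_simp
  -- the gradient bound
  have grad : ∀ f : ℝ → ℝ, Admissible f → ∀ x s y : ℝ, 0 < y → |x - s| ≤ b' * y →
      ENNReal.ofReal ‖dschw f (s + y * I)‖ ≤
        ENNReal.ofReal (C1 / (ε * y) * Real.exp (-(|x| ^ g / p))) *
          (C2 * hlM (hh g b p f) x) := by
    intro f hf x s y hy hs
    have ha : 0 < ε * y := by positivity
    have hay : ε * y < y := by nlinarith
    refine (h1 f hf s y (ε * y) ha hay).trans ?_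
    gcongr ?_ * ?_
    · apply ENNReal.ofReal_le_ofReal
      gcongr
      rw [← neg_div]
      apply div_le_div_of_nonneg_right _ hp0.le
      have h4 := hcone x s y hy hs
      have h5 : C1 * (ε * y) * ‖(s : ℂ) + y * I‖ ^ (g - 1) ≤
          δ * y * ‖(s : ℂ) + y * I‖ ^ (g - 1) := by
        have : C1 * (ε * y) ≤ δ * y := by nlinarith
        gcongr
      linarith
    · refine h2 (hh g b p f) x s (y - ε * y) (hMeas g b p f hg hf) (by linarith) ?_
      have : y / 2 ≤ y - ε * y := by nlinarith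
      calc |x - s| ≤ b' * y := hs
        _ = 2 * b' * (y / 2) := by ring
        _ ≤ 2 * b' * (y - ε * y) := by gcongr
  -- the pointwise bound
  set K : ℝ≥0 := Real.toNNReal (b' * C1 / ε) * C2 + 1 with hK
  have pw : ∀ f : ℝ → ℝ, Admissible f → ∀ x : ℝ,
      ntMax b' f x * ENNReal.ofReal (Real.exp (|x| ^ g / p)) ≤
        hh g b p f x + K * hlM (hh g b p f) x := by
    intro f hf x
    set Mx : ℝ≥0∞ := hlM (hh g b p f) x with hMx
    by_cases hMt : Mx = ∞
    · rw [hMt, ENNReal.mul_top (by rw [hK]; simp)]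
      simp
    unfold ntMax
    simp only [ENNReal.iSup_mul]
    refine iSup_le fun z0 => iSup_le fun y => iSup_le fun hy => ?_
    obtain ⟨hy0, hz0⟩ := hy
    set z : ℝ := x - z0 with hz
    have hxz : |x - z| ≤ b' * y := by rw [hz, sub_sub_cancel]; exact hz0
    set R : ℝ≥0∞ := ENNReal.ofReal (C1 / (ε * y) * Real.exp (-(|x| ^ g / p))) * (C2 * Mx) with hR
    have hRt : R ≠ ∞ := ENNReal.mul_ne_top ENNReal.ofReal_ne_top
      (ENNReal.mul_ne_top ENNReal.coe_ne_top hMt)
    have hB : ∀ s : ℝ, |x - s| ≤ |x - z| → ‖dschw f (s + y * I)‖ ≤ R.toReal := by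
      intro s hs
      have h6 := grad f hf x s y hy0 (hs.trans hxz)
      exact (ENNReal.ofReal_le_iff_le_toReal hRt).1 h6
    have h7 := Aper2.horiz hf hy0 hB
    have h8 : |poisson f z y| ≤ |poisson f x y| + R.toReal * (b' * y) := by
      have h9 : |poisson f z y| ≤ |poisson f x y| + |poisson f z y - poisson f x y| := by
        have := abs_sub_abs_le_abs_sub (poisson f z y) (poisson f x y)
        linarith
      have h10 : R.toReal * |z - x| ≤ R.toReal * (b' * y) := by
        rw [abs_sub_comm z x]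
        gcongr
      linarith
    calc ENNReal.ofReal |poisson f z y| * ENNReal.ofReal (Real.exp (|x| ^ g / p))
        ≤ (ENNReal.ofReal |poisson f x y| + R * ENNReal.ofReal (b' * y)) *
            ENNReal.ofReal (Real.exp (|x| ^ g / p)) := by
          gcongr
          refine (ENNReal.ofReal_le_ofReal h8).trans ?_
          rw [ENNReal.ofReal_add (abs_nonneg _) (by positivity),
            ENNReal.ofReal_mul ENNReal.toReal_nonneg, ENNReal.ofReal_toReal hRt]
      _ = ENNReal.ofReal |poisson f x y| * ENNReal.ofReal (Real.exp (|x| ^ g / p)) +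
            R * ENNReal.ofReal (b' * y) * ENNReal.ofReal (Real.exp (|x| ^ g / p)) := by
          rw [add_mul]
      _ ≤ hh g b p f x + K * Mx := by
          gcongr ?_ + ?_
          · unfold hh
            gcongr
            exact le_ntMax hy0 (by rw [sub_self, abs_zero]; positivity)
          · have h11 : R * ENNReal.ofReal (b' * y) * ENNReal.ofReal (Real.exp (|x| ^ g / p)) =
                ENNReal.ofReal (b' * C1 / ε) * C2 * Mx := by
              rw [hR]
              have e1 : ENNReal.ofReal (C1 / (ε * y) * Real.exp (-(|x| ^ g / p))) *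
                  ENNReal.ofReal (b' * y) * ENNReal.ofReal (Real.exp (|x| ^ g / p)) =
                  ENNReal.ofReal (b' * C1 / ε) := by
                rw [← ENNReal.ofReal_mul (by positivity), ← ENNReal.ofReal_mul (by positivity)]
                congr 1
                have e2 : Real.exp (-(|x| ^ g / p)) * Real.exp (|x| ^ g / p) = 1 := by
                  rw [← Real.exp_add]; simp
                calc C1 / (ε * y) * Real.exp (-(|x| ^ g / p)) * (b' * y) *
                      Real.exp (|x| ^ g / p) = C1 / (ε * y) * (b' * y) *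
                      (Real.exp (-(|x| ^ g / p)) * Real.exp (|x| ^ g / p)) := by ring
                  _ = b' * C1 / ε := by rw [e2]; field_simp
              calc ENNReal.ofReal (C1 / (ε * y) * Real.exp (-(|x| ^ g / p))) * (↑C2 * Mx) *
                    ENNReal.ofReal (b' * y) * ENNReal.ofReal (Real.exp (|x| ^ g / p))
                  = (ENNReal.ofReal (C1 / (ε * y) * Real.exp (-(|x| ^ g / p))) *
                    ENNReal.ofReal (b' * y) * ENNReal.ofReal (Real.exp (|x| ^ g / p))) *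
                    (C2 * Mx) := by ring
                _ = _ := by rw [e1, mul_assoc]
            rw [h11, hK]
            gcongr
            push_cast
            rw [ENNReal.ofReal]
            exact le_self_add
  clear_value K
  refine ⟨Real.toNNReal (2 ^ p) * (1 + K ^ p * C3), fun f hf => ?_⟩
  have hm := hMeas g b p f hg hf
  calc ∫⁻ x, (ntMax b' f x) ^ p * ENNReal.ofReal (Ug g x)
      = ∫⁻ x, (ntMax b' f x * ENNReal.ofReal (Real.exp (|x| ^ g / p))) ^ p := by
        simp_rw [Aper2.pow_eq g b' p hp0 f]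
    _ ≤ ∫⁻ x, ENNReal.ofReal (2 ^ p) *
          ((hh g b p f x) ^ p + (K : ℝ≥0∞) ^ p * (hlM (hh g b p f) x) ^ p) := by
        refine lintegral_mono fun x => ?_
        refine (ENNReal.rpow_le_rpow (pw f hf x) hp0.le).trans ?_
        rw [← ENNReal.mul_rpow_of_nonneg _ _ hp0.le]
        set u := hh g b p f x
        set v := (K : ℝ≥0∞) * hlM (hh g b p f) x
        have h12 : u + v ≤ 2 * max u v := by
          rw [two_mul]
          exact add_le_add (le_max_left _ _) (le_max_right _ _)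
        refine (ENNReal.rpow_le_rpow h12 hp0.le).trans ?_
        rw [ENNReal.mul_rpow_of_nonneg _ _ hp0.le]
        gcongr ?_ * ?_
        · rw [← ENNReal.ofReal_rpow_of_pos (by norm_num)]
          simp
        · rcases le_total u v with h | h
          · rw [max_eq_right h]; exact le_add_self
          · rw [max_eq_left h]; exact le_self_add
    _ = ENNReal.ofReal (2 ^ p) * ((∫⁻ x, (hh g b p f x) ^ p) +
          (K : ℝ≥0∞) ^ p * ∫⁻ x, (hlM (hh g b p f) x) ^ p) := by
        rw [lintegral_const_mul' _ _ ENNReal.ofReal_ne_top,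
          lintegral_add_left (hm.pow_const p),
          lintegral_const_mul' _ _ (ENNReal.rpow_ne_top_of_nonneg hp0.le ENNReal.coe_ne_top)]
    _ ≤ ENNReal.ofReal (2 ^ p) * ((∫⁻ x, (hh g b p f x) ^ p) +
          (K : ℝ≥0∞) ^ p * (C3 * ∫⁻ x, (hh g b p f x) ^ p)) := by
        gcongr
        exact h3 _ hm
    _ = ((Real.toNNReal (2 ^ p) * (1 + K ^ p * C3) : ℝ≥0) : ℝ≥0∞) *
          ∫⁻ x, (hh g b p f x) ^ p := by
        rw [ENNReal.coe_mul, ENNReal.coe_add, ENNReal.coe_mul, ENNReal.coe_rpow_of_nonneg _ hp0.le,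
          ENNReal.ofReal, ENNReal.coe_one]
        ring
    _ = _ := by
        congr 1
        exact lintegral_congr fun x => Aper2.pow_eq g b p hp0 f x

end Pool.Agent.Work.MP_055a27_an.Thr

end

section

/-!
# Gradient bound above the vertex of a cone
-/

open MeasureTheory Set Filter Topology Complex Metric
open scoped ENNReal NNReal

namespace Pool.Agent.Work.MP_055a27_an.Thr

theorem stBd : StBd := by
  intro b hb
  refine ⟨4 * (1 + b) / b, by positivity, ?_⟩
  intro f hf x a ha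
  by_cases htop : ntMax b f x = ⊤
  · have h0 : ENNReal.ofReal (4 * (1 + b) / b / a) ≠ 0 := by
      rw [Ne, ENNReal.ofReal_eq_zero, not_le]
      positivity
    rw [htop, ENNReal.mul_top h0]
    exact le_top
  set σ : ℝ := (ntMax b f x).toReal with hσ
  set ρ : ℝ := b * (a / (1 + b)) with hρ
  have hρ0 : 0 < ρ := by positivity
  have hρa : a - ρ = a / (1 + b) := by
    rw [hρ]; field_simp; ring
  have hb1 : ∀ v ∈ ball ((x : ℂ) + a * I) ρ, |v.re - x| < ρ ∧ a / (1 + b) < v.im := by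
    intro v hv
    have hd : ‖v - (x + a * I)‖ < ρ := by simpa [dist_eq_norm] using hv
    have h1 := Complex.abs_re_le_norm (v - (x + a * I))
    have h2 := Complex.abs_im_le_norm (v - (x + a * I))
    simp at h1 h2
    have h3 := (abs_lt.1 (lt_of_le_of_lt h2 hd)).1
    exact ⟨lt_of_le_of_lt h1 hd, by linarith⟩
  have hq : 0 < a / (1 + b) := by positivity
  have h1 : ∀ v ∈ ball ((x : ℂ) + a * I) ρ, |(schw f v).re| ≤ σ := by
    intro v hv
    obtain ⟨h2, h3⟩ := hb1 v hv
    have hvy : 0 < v.im := hq.trans h3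
    have hve : (v.re : ℂ) + v.im * I = v := Complex.re_add_im v
    rw [← hve, schw_re hf hvy]
    have h4 : |x - v.re| ≤ b * v.im := by
      rw [abs_sub_comm]
      refine h2.le.trans ?_
      rw [hρ]
      exact mul_le_mul_of_nonneg_left h3.le hb.le
    have h5 := le_ntMax (f := f) hvy h4
    rw [hσ]
    exact (ENNReal.ofReal_le_iff_le_toReal htop).1 h5
  have h2 : DifferentiableOn ℂ (schw f) (ball ((x : ℂ) + a * I) ρ) := by
    intro v hv
    have hvy : 0 < v.im := hq.trans (hb1 v hv).2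
    exact (hasDerivAt_schw hf hvy).differentiableAt.differentiableWithinAt
  have h3 := grad_bound hρ0 h2 h1
  have hw : 0 < ((x : ℂ) + a * I).im := by simp [ha]
  rw [(hasDerivAt_schw hf hw).deriv] at h3
  have h4 : 4 * σ / ρ = 4 * (1 + b) / b / a * σ := by
    rw [hρ]; field_simp
  rw [h4] at h3
  calc ENNReal.ofReal ‖dschw f (x + a * I)‖ ≤ ENNReal.ofReal (4 * (1 + b) / b / a * σ) :=
        ENNReal.ofReal_le_ofReal h3
    _ = ENNReal.ofReal (4 * (1 + b) / b / a) * ntMax b f x := by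
        rw [ENNReal.ofReal_mul (by positivity), hσ, ENNReal.ofReal_toReal htop]

end Pool.Agent.Work.MP_055a27_an.Thr

end

section

/-!
# MP_055a27_an, Thr: polynomial growth of the derivative of the Schwarz integral
-/

set_option autoImplicit false

open MeasureTheory Set Filter Topology Complex Metric ComplexConjugate
open scoped ENNReal NNReal

namespace Pool.Agent.Work.MP_055a27_an.Thr

theorem stGrow : StGrow := by
  intro f hf a ha
  refine ⟨1 / Real.pi * ((2 + 2 / a ^ 2) * ∫ t : ℝ, |f t / (1 + t ^ 2)|), fun w hw => ?_⟩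
  have hw0 : 0 < w.im := lt_of_lt_of_le ha hw
  have hI : 0 ≤ ∫ t : ℝ, |f t / (1 + t ^ 2)| := integral_nonneg fun t => abs_nonneg _
  have h1 : ‖∫ t : ℝ, (f t : ℂ) / (w - t) ^ 2‖ ≤
      ∫ t : ℝ, (2 + (1 + 2 * ‖w‖ ^ 2) / a ^ 2) * |f t / (1 + t ^ 2)| := by
    refine norm_integral_le_of_norm_le (Integrable.const_mul ?_ _) (Eventually.of_forall fun t => ?_)
    · exact Integrable.abs hf
    · have h2 := one_add_sq_le ha hw t
      have h3 : (0 : ℝ) < 1 + t ^ 2 := by positivity
      have h4 : 0 < ‖w - (t : ℂ)‖ := norm_pos_iff.mpr (sub_ofReal_ne_zero hw0 t)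
      rw [norm_div, norm_pow, Complex.norm_real, Real.norm_eq_abs, abs_div, abs_of_pos h3,
        mul_div_assoc', div_le_div_iff₀ (by positivity) h3]
      calc |f t| * (1 + t ^ 2) ≤
          |f t| * ((2 + (1 + 2 * ‖w‖ ^ 2) / a ^ 2) * ‖w - (t : ℂ)‖ ^ 2) :=
            mul_le_mul_of_nonneg_left h2 (abs_nonneg _)
        _ = (2 + (1 + 2 * ‖w‖ ^ 2) / a ^ 2) * |f t| * ‖w - (t : ℂ)‖ ^ 2 := by ring
  rw [integral_const_mul] at h1
  have h5 : 2 + (1 + 2 * ‖w‖ ^ 2) / a ^ 2 ≤ (2 + 2 / a ^ 2) * (1 + ‖w‖) ^ 2 := by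
    have h6 : (0 : ℝ) < a ^ 2 := by positivity
    have h7 : 0 ≤ ‖w‖ := norm_nonneg w
    have h8 : (1 + 2 * ‖w‖ ^ 2) / a ^ 2 ≤ 2 / a ^ 2 * (1 + ‖w‖) ^ 2 := by
      rw [div_mul_eq_mul_div]
      refine div_le_div_of_nonneg_right ?_ h6.le
      nlinarith
    nlinarith
  unfold dschw
  rw [norm_mul, norm_neg, norm_div, Complex.norm_I, Complex.norm_real, Real.norm_eq_abs,
    abs_of_pos Real.pi_pos]
  calc 1 / Real.pi * ‖∫ t : ℝ, (f t : ℂ) / (w - t) ^ 2‖
      ≤ 1 / Real.pi * ((2 + (1 + 2 * ‖w‖ ^ 2) / a ^ 2) * ∫ t : ℝ, |f t / (1 + t ^ 2)|) :=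
        mul_le_mul_of_nonneg_left h1 (by positivity)
    _ ≤ 1 / Real.pi * (((2 + 2 / a ^ 2) * (1 + ‖w‖) ^ 2) * ∫ t : ℝ, |f t / (1 + t ^ 2)|) :=
        mul_le_mul_of_nonneg_left (mul_le_mul_of_nonneg_right h5 hI) (by positivity)
    _ = 1 / Real.pi * ((2 + 2 / a ^ 2) * ∫ t : ℝ, |f t / (1 + t ^ 2)|) * (1 + ‖w‖) ^ 2 := by ring

end Pool.Agent.Work.MP_055a27_an.Thr

end

section

/-! MP_055a27_an, module Thr, item HL: the Hardy Littlewood maximal theorem on the line (from the
same theorem in the module Nv; closed and open intervals have the same integrals). -/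

set_option autoImplicit false

open MeasureTheory Set Filter Topology Complex Metric
open scoped ENNReal NNReal

namespace Pool.Agent.Work.MP_055a27_an.Thr

namespace HL

lemma hlM_eq (h : ℝ → ℝ≥0∞) (x : ℝ) : hlM h x = Nv.mx h x := by
  unfold hlM Nv.mx
  refine iSup_congr (fun r => iSup_congr (fun _ => ?_))
  rw [Measure.restrict_congr_set (Ioo_ae_eq_Icc (a := x - r) (b := x + r))]

end HL

theorem stHL : StHL := by
  intro p hp
  obtain ⟨C, hC⟩ := Nv.I_HL p hp
  refine ⟨C, fun h hh => ?_⟩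
  simp only [HL.hlM_eq]
  exact (hC h hh.aemeasurable).2

end Pool.Agent.Work.MP_055a27_an.Thr

end

section

/-! # PL: Phragmen Lindelof principle with the Poisson majorant -/

set_option autoImplicit false

open MeasureTheory Set Filter Topology Complex Metric
open scoped ENNReal NNReal

namespace Pool.Agent.Work.MP_055a27_an.Thr

namespace PL

lemma cos_lower {s φ : ℝ} (h0 : 0 < s) (h1 : s < 1) (ha : -(Real.pi / 2) < φ)
    (hb : φ < Real.pi / 2) : Real.cos (Real.pi * s / 2) ≤ Real.cos (s * φ) := by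
  have hpi := Real.pi_pos
  rw [← Real.cos_abs (s * φ)]
  apply Real.cos_le_cos_of_nonneg_of_le_pi (abs_nonneg _)
  · nlinarith
  · rw [abs_mul, abs_of_pos h0]
    have h2 : |φ| ≤ Real.pi / 2 := abs_le.mpr ⟨by linarith, by linarith⟩
    have h3 := mul_le_mul_of_nonneg_left h2 h0.le
    linarith

lemma re_pw_lower {s : ℝ} (h0 : 0 < s) (h1 : s < 1) {w : ℂ} (hw : 0 < w.im) :
    Real.cos (Real.pi * s / 2) * ‖w‖ ^ s ≤ (pw s w).re := by
  obtain ⟨φ, ha, hb, _, _, h⟩ := polar hw
  rw [(h s).1, mul_comm]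
  exact mul_le_mul_of_nonneg_left (cos_lower h0 h1 ha hb) (Real.rpow_nonneg (norm_nonneg w) _)

lemma norm_le_add_I {z : ℂ} (hz : 0 ≤ z.im) : ‖z‖ ≤ ‖z + I‖ := by
  rw [Complex.norm_def, Complex.norm_def]
  apply Real.sqrt_le_sqrt
  rw [Complex.normSq_apply, Complex.normSq_apply]
  simp only [add_re, add_im, I_re, I_im, add_zero]
  nlinarith

lemma aux {g gp K κ : ℝ} (hg : 0 < g) (hgp : g < gp) (hK : 0 < K) (hκ : 0 < κ) :
    ∃ M : ℝ, 0 ≤ M ∧ ∀ t : ℝ, 0 ≤ t → K * t ^ g - κ * t ^ gp ≤ M := by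
  have hd : 0 < gp - g := by linarith
  set T0 : ℝ := (K / κ) ^ (1 / (gp - g)) with hT0
  have hT0' : 0 < T0 := Real.rpow_pos_of_pos (by positivity) _
  refine ⟨K * T0 ^ g, by positivity, fun t ht => ?_⟩
  rcases le_or_gt t T0 with h | h
  · have h1 : t ^ g ≤ T0 ^ g := Real.rpow_le_rpow ht h hg.le
    have h2 : 0 ≤ t ^ gp := Real.rpow_nonneg ht _
    nlinarith [mul_le_mul_of_nonneg_left h1 hK.le, mul_nonneg hκ.le h2]
  · have ht0 : 0 < t := hT0'.trans h
    have h1 : K / κ ≤ t ^ (gp - g) := by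
      have h2 : T0 ^ (gp - g) ≤ t ^ (gp - g) := Real.rpow_le_rpow hT0'.le h.le hd.le
      have h3 : T0 ^ (gp - g) = K / κ := by
        rw [hT0, ← Real.rpow_mul (by positivity)]
        rw [one_div_mul_cancel hd.ne', Real.rpow_one]
      rw [h3] at h2
      exact h2
    have h4 : t ^ gp = t ^ g * t ^ (gp - g) := by
      rw [← Real.rpow_add ht0]; congr 1; ring
    have h5 : K ≤ κ * t ^ (gp - g) := by
      rw [div_le_iff₀ hκ] at h1; linarith
    have h6 : 0 ≤ t ^ g := Real.rpow_nonneg ht _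
    have h7 : K * t ^ g - κ * t ^ gp ≤ 0 := by
      rw [h4]; nlinarith [mul_le_mul_of_nonneg_right h5 h6]
    have h8 : 0 ≤ K * T0 ^ g := by positivity
    linarith

lemma bound {g gp κ A B : ℝ} (hg : 0 < g) (hg1 : g < 1) (hgp : g < gp) (hκ : 0 < κ) :
    ∃ M : ℝ, ∀ t : ℝ, 0 ≤ t →
      A * (1 + t) ^ 2 * Real.exp (B * t ^ g) * Real.exp (-(κ * t ^ gp)) ≤ M := by
  set K1 : ℝ := 2 / g + |B| with hK1
  have hK1' : 0 < K1 := by positivity
  obtain ⟨M0, hM0, h0⟩ := aux (K := 2 * K1) hg hgp (by positivity) hκ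
  refine ⟨|A| * Real.exp (2 * K1 + M0), fun t ht => ?_⟩
  have h1t : 0 < 1 + t := by linarith
  have e1 : (1 + t) ^ 2 = Real.exp (2 * Real.log (1 + t)) := by
    rw [two_mul, Real.exp_add, Real.exp_log h1t]; ring
  have e2 : Real.log (1 + t) ≤ (1 + t) ^ g / g := Real.log_le_rpow_div h1t.le hg
  have e3 : (1 + t) ^ g ≤ 2 + 2 * t ^ g := by
    rcases le_or_gt t 1 with h | h
    · have h2 : (1 + t) ^ g ≤ (2 : ℝ) ^ g := Real.rpow_le_rpow h1t.le (by linarith) hg.le
      have h3 : (2 : ℝ) ^ g ≤ 2 ^ (1 : ℝ) := Real.rpow_le_rpow_of_exponent_le (by norm_num) hg1.le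
      rw [Real.rpow_one] at h3
      have h4 : 0 ≤ t ^ g := Real.rpow_nonneg ht _
      linarith
    · have h2 : (1 + t) ^ g ≤ (2 * t) ^ g := Real.rpow_le_rpow h1t.le (by linarith) hg.le
      rw [Real.mul_rpow (by norm_num) ht] at h2
      have h3 : (2 : ℝ) ^ g ≤ 2 ^ (1 : ℝ) := Real.rpow_le_rpow_of_exponent_le (by norm_num) hg1.le
      rw [Real.rpow_one] at h3
      have h4 : 0 ≤ t ^ g := Real.rpow_nonneg ht _
      nlinarith [mul_le_mul_of_nonneg_right h3 h4]
  have e4 : B * t ^ g ≤ |B| * (1 + t) ^ g := by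
    have h4 : 0 ≤ t ^ g := Real.rpow_nonneg ht _
    have h5 : t ^ g ≤ (1 + t) ^ g := Real.rpow_le_rpow ht (by linarith) hg.le
    calc B * t ^ g ≤ |B| * t ^ g := mul_le_mul_of_nonneg_right (le_abs_self B) h4
      _ ≤ _ := mul_le_mul_of_nonneg_left h5 (abs_nonneg B)
  have e5 : 2 * Real.log (1 + t) + B * t ^ g - κ * t ^ gp ≤ 2 * K1 + M0 := by
    have h6 : 2 * Real.log (1 + t) + B * t ^ g ≤ K1 * (1 + t) ^ g := by
      have : K1 * (1 + t) ^ g = 2 * ((1 + t) ^ g / g) + |B| * (1 + t) ^ g := by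
        rw [hK1]; ring
      rw [this]; linarith
    have h7 : K1 * (1 + t) ^ g ≤ K1 * (2 + 2 * t ^ g) := mul_le_mul_of_nonneg_left e3 hK1'.le
    have h8 := h0 t ht
    nlinarith
  have e6 : (1 + t) ^ 2 * Real.exp (B * t ^ g) * Real.exp (-(κ * t ^ gp)) ≤
      Real.exp (2 * K1 + M0) := by
    rw [e1, ← Real.exp_add, ← Real.exp_add]
    apply Real.exp_le_exp.2
    linarith
  have e7 : 0 ≤ (1 + t) ^ 2 * Real.exp (B * t ^ g) * Real.exp (-(κ * t ^ gp)) := by positivity
  calc A * (1 + t) ^ 2 * Real.exp (B * t ^ g) * Real.exp (-(κ * t ^ gp))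
      = A * ((1 + t) ^ 2 * Real.exp (B * t ^ g) * Real.exp (-(κ * t ^ gp))) := by ring
    _ ≤ |A| * ((1 + t) ^ 2 * Real.exp (B * t ^ g) * Real.exp (-(κ * t ^ gp))) :=
        mul_le_mul_of_nonneg_right (le_abs_self A) e7
    _ ≤ _ := mul_le_mul_of_nonneg_left e6 (abs_nonneg A)

/-- The damped function. -/
noncomputable def Ge (G : ℂ → ℂ) (gp ε : ℝ) (z : ℂ) : ℂ :=
  G z * Complex.exp (-(ε : ℂ) * pw gp (z + I))

lemma norm_Ge (G : ℂ → ℂ) (gp ε : ℝ) (z : ℂ) :
    ‖Ge G gp ε z‖ = ‖G z‖ * Real.exp (-(ε * (pw gp (z + I)).re)) := by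
  unfold Ge
  rw [norm_mul, Complex.norm_exp]
  congr 2
  rw [← Complex.ofReal_neg, Complex.re_ofReal_mul]
  ring

lemma main_le {g A B : ℝ} {G : ℂ → ℂ} (hg : 0 < g) (hg1 : g < 1)
    (hd : ∀ ζ : ℂ, 0 ≤ ζ.im → DifferentiableAt ℂ G ζ)
    (hb : ∀ ζ : ℂ, 0 ≤ ζ.im → ‖G ζ‖ ≤ A * (1 + ‖ζ‖) ^ 2 * Real.exp (B * ‖ζ‖ ^ g))
    {s y : ℝ} (hy : 0 < y) {ε : ℝ} (hε : 0 < ε) :
    ENNReal.ofReal ‖Ge G ((1 + g) / 2) ε (s + y * I)‖ ≤
      ∫⁻ t : ℝ, ENNReal.ofReal (y / ((s - t) ^ 2 + y ^ 2)) * ENNReal.ofReal ‖G t‖ := by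
  set gp : ℝ := (1 + g) / 2 with hgp
  have hgp0 : 0 < gp := by rw [hgp]; linarith
  have hgp1 : gp < 1 := by rw [hgp]; linarith
  have hgg : g < gp := by rw [hgp]; linarith
  have hcos := cos_half_pos hgp0 hgp1
  set c : ℝ := Real.cos (Real.pi * gp / 2) with hc
  have him : ∀ ζ : ℂ, 0 ≤ ζ.im → 0 < (ζ + I).im := by
    intro ζ h; simp only [add_im, I_im]; linarith
  have hre : ∀ ζ : ℂ, 0 ≤ ζ.im → c * ‖ζ‖ ^ gp ≤ (pw gp (ζ + I)).re := by
    intro ζ h
    refine le_trans ?_ (re_pw_lower hgp0 hgp1 (him ζ h))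
    exact mul_le_mul_of_nonneg_left (Real.rpow_le_rpow (norm_nonneg _) (norm_le_add_I h) hgp0.le)
      hcos.le
  have hre0 : ∀ ζ : ℂ, 0 ≤ ζ.im → 0 ≤ (pw gp (ζ + I)).re := by
    intro ζ h
    refine le_trans ?_ (hre ζ h)
    exact mul_nonneg hcos.le (Real.rpow_nonneg (norm_nonneg _) _)
  have hdiff : ∀ ζ : ℂ, 0 ≤ ζ.im → DifferentiableAt ℂ (Ge G gp ε) ζ := by
    intro ζ h
    have h1 : DifferentiableAt ℂ (pw gp) (ζ + I) := (hasDerivAt_pw gp (him ζ h)).differentiableAt
    have h2 : DifferentiableAt ℂ (fun z : ℂ => pw gp (z + I)) ζ :=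
      DifferentiableAt.comp (g := pw gp) (f := fun z : ℂ => z + I) ζ h1
        (differentiableAt_id.add_const I)
    have h3 : DifferentiableAt ℂ (fun z : ℂ => Complex.exp (-(ε : ℂ) * pw gp (z + I))) ζ :=
      (h2.const_mul (-(ε : ℂ))).cexp
    exact (hd ζ h).mul h3
  obtain ⟨M, hM⟩ := bound (A := A) (B := B) hg hg1 hgg (mul_pos hε hcos)
  have hbd : ∀ ζ : ℂ, 0 ≤ ζ.im → ‖Ge G gp ε ζ‖ ≤ M := by
    intro ζ h
    rw [norm_Ge]
    have h1 : Real.exp (-(ε * (pw gp (ζ + I)).re)) ≤ Real.exp (-(ε * c * ‖ζ‖ ^ gp)) := by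
      apply Real.exp_le_exp.2
      have := mul_le_mul_of_nonneg_left (hre ζ h) hε.le
      linarith
    have h2 : 0 ≤ A * (1 + ‖ζ‖) ^ 2 * Real.exp (B * ‖ζ‖ ^ g) := (norm_nonneg _).trans (hb ζ h)
    calc ‖G ζ‖ * Real.exp (-(ε * (pw gp (ζ + I)).re))
        ≤ A * (1 + ‖ζ‖) ^ 2 * Real.exp (B * ‖ζ‖ ^ g) * Real.exp (-(ε * c * ‖ζ‖ ^ gp)) :=
          mul_le_mul (hb ζ h) h1 (Real.exp_pos _).le h2
      _ ≤ M := hM ‖ζ‖ (norm_nonneg _)
  have hrep := poisson_rep_complex hdiff hbd (z := s) hy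
  have hle : ∀ t : ℝ, ‖Ge G gp ε t‖ ≤ ‖G t‖ := by
    intro t
    rw [norm_Ge]
    have h1 : Real.exp (-(ε * (pw gp ((t : ℂ) + I)).re)) ≤ 1 := by
      apply Real.exp_le_one_iff.2
      have := mul_nonneg hε.le (hre0 (t : ℂ) (by simp))
      linarith
    calc _ ≤ ‖G t‖ * 1 := mul_le_mul_of_nonneg_left h1 (norm_nonneg _)
      _ = _ := mul_one _
  have hpi : 1 ≤ Real.pi := by linarith [Real.pi_gt_three]
  have e1 : ENNReal.ofReal (‖Ge G gp ε (s + y * I)‖ * (Real.pi / y)) ≤
      ∫⁻ t : ℝ, ENNReal.ofReal (1 / ((s - t) ^ 2 + y ^ 2)) * ENNReal.ofReal ‖G t‖ := by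
    have h1 : ‖Ge G gp ε (s + y * I) * (Real.pi / y)‖ = ‖Ge G gp ε (s + y * I)‖ * (Real.pi / y) := by
      rw [norm_mul, norm_div, Complex.norm_real, Complex.norm_real, Real.norm_of_nonneg
        Real.pi_pos.le, Real.norm_of_nonneg hy.le]
    rw [← h1, ← hrep, ofReal_norm]
    refine (enorm_integral_le_lintegral_enorm _).trans (lintegral_mono fun t => ?_)
    rw [enorm_mul, mul_comm, ← ofReal_norm, ← ofReal_norm]
    refine mul_le_mul' ?_ (ENNReal.ofReal_le_ofReal (hle t))
    rw [Complex.norm_real, Real.norm_of_nonneg (by positivity)]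
  have e2 : ENNReal.ofReal ‖Ge G gp ε (s + y * I)‖ =
      ENNReal.ofReal (y / Real.pi) * ENNReal.ofReal (‖Ge G gp ε (s + y * I)‖ * (Real.pi / y)) := by
    rw [← ENNReal.ofReal_mul (by positivity)]
    congr 1
    have := Real.pi_pos
    field_simp
  rw [e2]
  calc _ ≤ ENNReal.ofReal y * ∫⁻ t : ℝ, ENNReal.ofReal (1 / ((s - t) ^ 2 + y ^ 2)) *
        ENNReal.ofReal ‖G t‖ := by
        refine mul_le_mul' (ENNReal.ofReal_le_ofReal ?_) e1
        exact div_le_self hy.le hpi
    _ = ∫⁻ t : ℝ, ENNReal.ofReal y * (ENNReal.ofReal (1 / ((s - t) ^ 2 + y ^ 2)) *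
        ENNReal.ofReal ‖G t‖) := by
        rw [lintegral_const_mul' _ _ ENNReal.ofReal_ne_top]
    _ = _ := by
        refine lintegral_congr fun t => ?_
        rw [← mul_assoc, ← ENNReal.ofReal_mul hy.le]
        congr 2
        ring

end PL

theorem stPL : StPL := by
  intro g A B G hg hg1 hd hb s y hy
  have hcont : Continuous (fun ε : ℝ => ENNReal.ofReal ‖PL.Ge G ((1 + g) / 2) ε (s + y * I)‖) := by
    unfold PL.Ge
    apply ENNReal.continuous_ofReal.comp
    fun_prop
  have h0 : ENNReal.ofReal ‖PL.Ge G ((1 + g) / 2) 0 (s + y * I)‖ =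
      ENNReal.ofReal ‖G (s + y * I)‖ := by
    unfold PL.Ge
    simp
  have ht : Tendsto (fun ε : ℝ => ENNReal.ofReal ‖PL.Ge G ((1 + g) / 2) ε (s + y * I)‖)
      (𝓝[>] 0) (𝓝 (ENNReal.ofReal ‖G (s + y * I)‖)) := by
    rw [← h0]
    exact (hcont.tendsto 0).mono_left nhdsWithin_le_nhds
  refine le_of_tendsto ht ?_
  filter_upwards [self_mem_nhdsWithin] with ε hε
  exact PL.main_le hg hg1 hd hb hy hε

end Pool.Agent.Work.MP_055a27_an.Thr

end

section

/-!
# The Carleson embedding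
-/

set_option autoImplicit false

open MeasureTheory Set Filter Topology
open scoped ENNReal NNReal

namespace Pool.Agent.Work.MP_055a27_an.Crit

open Pool.Agent.Work.MP_055a27_an.Thr (hlM StHL StPois)

namespace Car

/-- The power `2 ^ n`. -/
noncomputable def tw (n : ℤ) : ℝ≥0∞ := (2 : ℝ≥0∞) ^ n

lemma tw_succ (n : ℤ) : tw (n + 1) = 2 * tw n := by
  unfold tw
  rw [ENNReal.zpow_add (by norm_num) (by norm_num), zpow_one, mul_comm]

lemma tw_mono {a b : ℤ} (h : a ≤ b) : tw a ≤ tw b := by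
  unfold tw
  exact ENNReal.zpow_le_of_le (by norm_num) h

lemma tw_pos (n : ℤ) : 0 < tw n := ENNReal.zpow_pos (by norm_num) (by norm_num) n

lemma tw_ne_top (n : ℤ) : tw n ≠ ∞ := ENNReal.zpow_ne_top (by norm_num) (by norm_num) n

lemma tw_sub (n : ℤ) (j : ℕ) : tw (n - j) = tw n * (2⁻¹ : ℝ≥0∞) ^ j := by
  unfold tw
  rw [sub_eq_add_neg, ENNReal.zpow_add (by norm_num) (by norm_num), ENNReal.zpow_neg,
    zpow_natCast, ENNReal.inv_pow]

open Classical in
/-- The geometric sum. -/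
lemma geom {p : ℝ} (hp : 1 < p) (u : ℝ≥0∞) :
    ∑' n : ℤ, (if tw n < u then (tw (n + 1)) ^ p else 0) ≤ 2 * 2 ^ p * u ^ p := by
  have hp0 : 0 < p := by linarith
  rcases eq_or_ne u 0 with h0 | h0
  · subst h0
    have : ∀ n : ℤ, (if tw n < 0 then (tw (n + 1)) ^ p else 0) = 0 := fun n =>
      if_neg not_lt_zero
    simp only [this, tsum_zero]
    exact zero_le
  rcases eq_or_ne u ∞ with h1 | h1
  · rw [h1, ENNReal.top_rpow_of_pos hp0]
    refine le_top.trans (le_of_eq ?_)
    rw [ENNReal.mul_top]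
    exact mul_ne_zero (by norm_num) (by
      have : (0 : ℝ≥0∞) < 2 ^ p := ENNReal.rpow_pos (by norm_num) (by norm_num)
      exact this.ne')
  obtain ⟨N, hN1, hN2⟩ := ENNReal.exists_mem_Ioc_zpow h0 h1 (y := 2) (by norm_num) (by norm_num)
  have hN2' : u ≤ tw (N + 1) := hN2
  have hN1' : tw N < u := hN1
  have hsupp : Function.support (fun n : ℤ => if tw n < u then (tw (n + 1)) ^ p else 0) ⊆
      range (fun j : ℕ => N - (j : ℤ)) := by
    intro n hn
    rw [Function.mem_support] at hn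
    have h2 : tw n < u := by
      by_contra hcon
      exact hn (if_neg hcon)
    have h3 : n ≤ N := by
      by_contra hcon
      push Not at hcon
      exact absurd (h2.trans_le (hN2'.trans (tw_mono (by omega : N + 1 ≤ n)))) (lt_irrefl _)
    exact ⟨(N - n).toNat, by
      change N - ((N - n).toNat : ℤ) = n
      rw [Int.toNat_of_nonneg (by omega)]
      ring⟩
  have hinj : Function.Injective (fun j : ℕ => N - (j : ℤ)) := by
    intro a b hab
    have : N - (a : ℤ) = N - (b : ℤ) := hab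
    omega
  rw [← hinj.tsum_eq hsupp]
  calc ∑' j : ℕ, (if tw (N - j) < u then (tw (N - j + 1)) ^ p else 0)
      ≤ ∑' j : ℕ, (tw (N + 1)) ^ p * (2⁻¹ : ℝ≥0∞) ^ j := by
        refine ENNReal.tsum_le_tsum fun j => ?_
        refine le_trans (b := (tw (N - j + 1)) ^ p) ?_ ?_
        · split_ifs
          · exact le_rfl
          · exact zero_le
        · have e : N - (j : ℤ) + 1 = (N + 1) - j := by ring
          rw [e, tw_sub, ENNReal.mul_rpow_of_nonneg _ _ hp0.le]
          refine mul_le_mul_right ?_ _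
          have h2 : ((2⁻¹ : ℝ≥0∞) ^ j) ^ p ≤ ((2⁻¹ : ℝ≥0∞) ^ j) ^ (1 : ℝ) :=
            ENNReal.rpow_le_rpow_of_exponent_ge (pow_le_one₀ zero_le (by norm_num)) hp.le
          rwa [ENNReal.rpow_one] at h2
    _ = (tw (N + 1)) ^ p * 2 := by
        rw [ENNReal.tsum_mul_left, ENNReal.tsum_geometric_two]
    _ ≤ (2 * u) ^ p * 2 := by
        rw [tw_succ]
        exact mul_le_mul_left (ENNReal.rpow_le_rpow (mul_le_mul_right hN1'.le _) hp0.le) _
    _ = _ := by
        rw [ENNReal.mul_rpow_of_nonneg _ _ hp0.le]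
        ring

/-- The open sets. -/
def On (μ : ℝ) (k : ℝ → ℝ≥0∞) (n : ℤ) : Set ℝ :=
  {x | ∃ z y : ℝ, 0 < y ∧ |x - z| < μ * y ∧ tw n < Pk k z y}

/-- The partial suprema. -/
noncomputable def Sn (μ : ℝ) (U : ℝ → ℝ) (k : ℝ → ℝ≥0∞) (n : ℤ) (x : ℝ) : ℝ≥0∞ :=
  ⨆ (z : ℝ) (y : ℝ) (_ : 0 < y ∧ |x - z| < μ * y ∧ tw n < Pk k z y),
    ENNReal.ofReal (Real.exp (-poisson (lg U) z y))

lemma nhds_abs {x z r : ℝ} (h : |x - z| < r) : ∀ᶠ x' in 𝓝 x, |x' - z| < r := by
  have hc : Continuous fun x' : ℝ => |x' - z| := by fun_prop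
  exact hc.continuousAt.eventually (Iio_mem_nhds h)

lemma isOpen_On (μ : ℝ) (k : ℝ → ℝ≥0∞) (n : ℤ) : IsOpen (On μ k n) := by
  rw [isOpen_iff_mem_nhds]
  rintro x ⟨z, y, hy, hx, hP⟩
  filter_upwards [nhds_abs hx] with x' hx'
  exact ⟨z, y, hy, hx', hP⟩

lemma measurable_Sn (μ : ℝ) (U : ℝ → ℝ) (k : ℝ → ℝ≥0∞) (n : ℤ) : Measurable (Sn μ U k n) := by
  refine measurable_of_Ioi fun t => ?_
  apply IsOpen.measurableSet
  rw [isOpen_iff_mem_nhds]
  intro x hx
  rw [mem_preimage, mem_Ioi] at hx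
  unfold Sn at hx
  rw [lt_iSup_iff] at hx
  obtain ⟨z, hx⟩ := hx
  rw [lt_iSup_iff] at hx
  obtain ⟨y, hx⟩ := hx
  rw [lt_iSup_iff] at hx
  obtain ⟨⟨hy, hxz, hP⟩, ht⟩ := hx
  filter_upwards [nhds_abs hxz] with x' hx'
  rw [mem_preimage, mem_Ioi]
  refine ht.trans_le ?_
  exact le_iSup_of_le z (le_iSup_of_le y (le_iSup_of_le ⟨hy, hx', hP⟩ le_rfl))

lemma Sn_off {μ : ℝ} {U : ℝ → ℝ} {k : ℝ → ℝ≥0∞} {n : ℤ} {x : ℝ} (h : x ∉ On μ k n) :
    Sn μ U k n x = 0 := by
  refine le_antisymm (iSup_le fun z => iSup_le fun y => iSup_le fun ⟨h1, h2, h3⟩ => ?_) zero_le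
  exact absurd ⟨z, y, h1, h2, h3⟩ h

/-- The pointwise bound. -/
lemma pointwise {μ p : ℝ} (hp : 1 < p) (U : ℝ → ℝ) (k : ℝ → ℝ≥0∞) (x : ℝ) :
    (⨆ (z : ℝ) (y : ℝ) (_ : 0 < y ∧ |x - z| < μ * y),
        ENNReal.ofReal (Real.exp (-poisson (lg U) z y)) * (Pk k z y) ^ p) ≤
      ∑' n : ℤ, (tw (n + 1)) ^ p * Sn μ U k n x := by
  have hp0 : 0 < p := by linarith
  refine iSup_le fun z => iSup_le fun y => iSup_le fun hzy => ?_
  have hle : ∀ n : ℤ, tw n < Pk k z y →
      (tw (n + 1)) ^ p * ENNReal.ofReal (Real.exp (-poisson (lg U) z y)) ≤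
        (tw (n + 1)) ^ p * Sn μ U k n x := by
    intro n hn
    refine mul_le_mul_right ?_ _
    exact le_iSup_of_le z (le_iSup_of_le y (le_iSup_of_le ⟨hzy.1, hzy.2, hn⟩ le_rfl))
  rcases eq_or_ne (Pk k z y) 0 with h0 | h0
  · rw [h0, ENNReal.zero_rpow_of_pos hp0, mul_zero]
    exact zero_le
  rcases eq_or_ne (Pk k z y) ∞ with h1 | h1
  · refine le_top.trans (le_of_eq ?_)
    symm
    rw [eq_top_iff]
    have hc : ENNReal.ofReal (Real.exp (-poisson (lg U) z y)) ≠ 0 := by
      rw [Ne, ENNReal.ofReal_eq_zero, not_le]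
      exact Real.exp_pos _
    rw [← ENNReal.tsum_const_eq_top_of_ne_zero (α := ℕ) hc]
    have hinj : Function.Injective (fun j : ℕ => (j : ℤ)) := Nat.cast_injective
    refine le_trans ?_ (ENNReal.tsum_comp_le_tsum_of_injective hinj _)
    refine ENNReal.tsum_le_tsum fun j => ?_
    refine le_trans ?_ (hle (j : ℤ) (by rw [h1]; exact (tw_ne_top _).lt_top))
    refine le_mul_of_one_le_left zero_le ?_
    have h2 : (1 : ℝ≥0∞) ≤ tw ((j : ℤ) + 1) := by
      have h3 : tw 0 = 1 := by unfold tw; rw [zpow_zero]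
      rw [← h3]
      exact tw_mono (by omega)
    calc (1 : ℝ≥0∞) = 1 ^ p := (ENNReal.one_rpow p).symm
      _ ≤ _ := ENNReal.rpow_le_rpow h2 hp0.le
  obtain ⟨N, hN1, hN2⟩ := ENNReal.exists_mem_Ioc_zpow h0 h1 (y := 2) (by norm_num) (by norm_num)
  refine le_trans ?_ ((hle N hN1).trans (ENNReal.le_tsum N))
  rw [mul_comm]
  exact mul_le_mul_left (ENNReal.rpow_le_rpow hN2 hp0.le) _

/-- The integral over one of the open sets. -/
lemma level (hComps : StComps) {μ : ℝ} (hμ : 0 < μ) {U : ℝ → ℝ} {C : ℝ≥0}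
    (hC : ∀ a c : ℝ, a < c →
      ∫⁻ x in Icc a c, cc μ a c U x * ENNReal.ofReal (U x) ≤ C * ENNReal.ofReal (c - a))
    (k : ℝ → ℝ≥0∞) (n : ℤ) (hfin : volume (On μ k n) ≠ ∞) :
    ∫⁻ x, Sn μ U k n x * ENNReal.ofReal (U x) ≤ C * volume (On μ k n) := by
  obtain ⟨ι, _, a, c, hac, hO, hdis, hsub⟩ := hComps _ (isOpen_On μ k n) hfin
  have h1 : ∫⁻ x, Sn μ U k n x * ENNReal.ofReal (U x) =
      ∫⁻ x in On μ k n, Sn μ U k n x * ENNReal.ofReal (U x) := by
    rw [← lintegral_indicator (isOpen_On μ k n).measurableSet]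
    refine lintegral_congr fun x => ?_
    by_cases hx : x ∈ On μ k n
    · rw [indicator_of_mem hx]
    · rw [indicator_of_notMem hx, Sn_off hx, zero_mul]
  have h2 : ∀ i, ∀ x ∈ Ioo (a i) (c i), Sn μ U k n x ≤ cc μ (a i) (c i) U x := by
    intro i x hx
    unfold Sn
    refine iSup_le fun z => iSup_le fun y => iSup_le fun ⟨hy, hxz, hP⟩ => ?_
    have hmy : 0 < μ * y := mul_pos hμ hy
    have hxI : x ∈ Ioo (z - μ * y) (z + μ * y) := by
      rw [abs_lt] at hxz
      exact ⟨by linarith [hxz.1], by linarith [hxz.2]⟩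
    obtain ⟨j, hj⟩ := hsub (z - μ * y) (z + μ * y) (by linarith) (by
      intro x' hx'
      refine ⟨z, y, hy, ?_, hP⟩
      rw [abs_lt]
      exact ⟨by linarith [hx'.1], by linarith [hx'.2]⟩)
    have hij : i = j := by
      by_contra hne
      exact Set.disjoint_left.1 (hdis hne) hx (hj hxI)
    subst hij
    have h3 := (Ioo_subset_Ioo_iff (by linarith : z - μ * y < z + μ * y)).1 hj
    exact le_iSup_of_le z (le_iSup_of_le y (le_iSup_of_le ⟨hy, hxz, h3.1, h3.2⟩ le_rfl))
  rw [h1]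
  calc ∫⁻ x in On μ k n, Sn μ U k n x * ENNReal.ofReal (U x)
      ≤ ∑' i, ∫⁻ x in Ioo (a i) (c i), Sn μ U k n x * ENNReal.ofReal (U x) := by
        rw [hO]
        exact lintegral_iUnion_le _ _
    _ ≤ ∑' i, (C : ℝ≥0∞) * volume (Ioo (a i) (c i)) := by
        refine ENNReal.tsum_le_tsum fun i => ?_
        refine le_trans (setLIntegral_mono' measurableSet_Ioo fun x hx =>
          mul_le_mul_left (h2 i x hx) _) ?_
        refine (lintegral_mono_set Ioo_subset_Icc_self).trans ?_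
        rw [Real.volume_Ioo]
        exact hC _ _ (hac i)
    _ = C * volume (On μ k n) := by
        rw [ENNReal.tsum_mul_left, ← measure_iUnion hdis (fun i => measurableSet_Ioo), ← hO]

/-- The embedding for measurable functions. -/
lemma main (hHL : StHL) (hPois : StPois) (hComps : StComps) {μ p : ℝ} {U : ℝ → ℝ} (hμ : 0 < μ)
    (hp : 1 < p) (hU : IsWeight U) (hCC : CC μ U) : ∃ C : ℝ≥0, ∀ k : ℝ → ℝ≥0∞, Measurable k →
    ∫⁻ x, (⨆ (z : ℝ) (y : ℝ) (_ : 0 < y ∧ |x - z| < μ * y),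
        ENNReal.ofReal (Real.exp (-poisson (lg U) z y)) * (Pk k z y) ^ p) *
        ENNReal.ofReal (U x) ≤ C * ∫⁻ x, (k x) ^ p := by
  have hp0 : 0 < p := by linarith
  obtain ⟨C0, hC0⟩ := hCC
  obtain ⟨C1, hC1⟩ := hPois μ hμ
  obtain ⟨C3, hC3⟩ := hHL p hp
  set K : ℝ≥0∞ := C0 * (2 * 2 ^ p * (C1 ^ p * C3)) with hK
  have hKt : K ≠ ∞ := by
    rw [hK]
    refine ENNReal.mul_ne_top ENNReal.coe_ne_top (ENNReal.mul_ne_top (ENNReal.mul_ne_top
      (by norm_num) (ENNReal.rpow_ne_top_of_nonneg hp0.le (by norm_num)))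
      (ENNReal.mul_ne_top (ENNReal.rpow_ne_top_of_nonneg hp0.le ENNReal.coe_ne_top)
        ENNReal.coe_ne_top))
  refine ⟨K.toNNReal + 1, fun k hk => ?_⟩
  rw [ENNReal.coe_add, ENNReal.coe_toNNReal hKt, ENNReal.coe_one]
  rcases eq_or_ne (∫⁻ x, (k x) ^ p) ∞ with hI | hI
  · rw [hI, ENNReal.mul_top (by
      have : (0 : ℝ≥0∞) < K + 1 := lt_of_lt_of_le one_pos le_add_self
      exact this.ne')]
    exact le_top
  have hHLk := hC3 k hk
  -- the open sets are contained in the level sets of the maximal function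
  have hsub : ∀ n : ℤ, ∀ x ∈ On μ k n, tw n < C1 * hlM k x := by
    rintro n x ⟨z, y, hy, hxz, hP⟩
    exact hP.trans_le (hC1 k x z y hk hy hxz.le)
  have hM : ∫⁻ x, (C1 * hlM k x) ^ p ≤ C1 ^ p * (C3 * ∫⁻ x, (k x) ^ p) := by
    have h1 : ∀ x, (C1 * hlM k x) ^ p = (C1 : ℝ≥0∞) ^ p * (hlM k x) ^ p := fun x =>
      ENNReal.mul_rpow_of_nonneg _ _ hp0.le
    simp only [h1]
    rw [lintegral_const_mul' _ _ (ENNReal.rpow_ne_top_of_nonneg hp0.le ENNReal.coe_ne_top)]
    exact mul_le_mul_right hHLk _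
  have hfin : ∀ n : ℤ, volume (On μ k n) ≠ ∞ := by
    intro n htop
    have h1 : (tw n) ^ p * volume (On μ k n) ≤ ∫⁻ x, (C1 * hlM k x) ^ p := by
      calc (tw n) ^ p * volume (On μ k n) = ∫⁻ _ in On μ k n, (tw n) ^ p :=
            (setLIntegral_const _ _).symm
        _ ≤ ∫⁻ x in On μ k n, (C1 * hlM k x) ^ p :=
            setLIntegral_mono' (isOpen_On μ k n).measurableSet fun x hx =>
              ENNReal.rpow_le_rpow (hsub n x hx).le hp0.le
        _ ≤ _ := setLIntegral_le_lintegral _ _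
    have h2 : ∫⁻ x, (C1 * hlM k x) ^ p ≠ ∞ :=
      ne_top_of_le_ne_top (ENNReal.mul_ne_top
        (ENNReal.rpow_ne_top_of_nonneg hp0.le ENNReal.coe_ne_top)
        (ENNReal.mul_ne_top ENNReal.coe_ne_top hI)) hM
    rw [htop, ENNReal.mul_top (ENNReal.rpow_pos (tw_pos n) (tw_ne_top n)).ne'] at h1
    exact h2 (top_le_iff.1 h1)
  have hUm : AEMeasurable (fun x => ENNReal.ofReal (U x)) volume := weight_ofReal_aemeas hU
  classical
  calc ∫⁻ x, (⨆ (z : ℝ) (y : ℝ) (_ : 0 < y ∧ |x - z| < μ * y),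
        ENNReal.ofReal (Real.exp (-poisson (lg U) z y)) * (Pk k z y) ^ p) *
        ENNReal.ofReal (U x)
      ≤ ∫⁻ x, ∑' n : ℤ, (tw (n + 1)) ^ p * (Sn μ U k n x * ENNReal.ofReal (U x)) := by
        refine lintegral_mono fun x => ?_
        refine (mul_le_mul_left (pointwise hp U k x) _).trans (le_of_eq ?_)
        rw [← ENNReal.tsum_mul_right]
        exact tsum_congr fun n => mul_assoc _ _ _
    _ = ∑' n : ℤ, (tw (n + 1)) ^ p * ∫⁻ x, Sn μ U k n x * ENNReal.ofReal (U x) := by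
        have hm : ∀ n : ℤ, AEMeasurable
            (fun x => (tw (n + 1)) ^ p * (Sn μ U k n x * ENNReal.ofReal (U x))) volume :=
          fun n => ((measurable_Sn μ U k n).aemeasurable.mul hUm).const_mul _
        rw [lintegral_tsum hm]
        exact tsum_congr fun n => lintegral_const_mul' _ _
          (ENNReal.rpow_ne_top_of_nonneg hp0.le (tw_ne_top _))
    _ ≤ ∑' n : ℤ, (tw (n + 1)) ^ p * (C0 * volume (On μ k n)) :=
        ENNReal.tsum_le_tsum fun n => mul_le_mul_right (level hComps hμ hC0 k n (hfin n)) _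
    _ = C0 * ∑' n : ℤ, ∫⁻ x, (On μ k n).indicator (fun _ => (tw (n + 1)) ^ p) x := by
        rw [← ENNReal.tsum_mul_left]
        refine tsum_congr fun n => ?_
        rw [lintegral_indicator (isOpen_On μ k n).measurableSet, setLIntegral_const]
        ring
    _ = C0 * ∫⁻ x, ∑' n : ℤ, (On μ k n).indicator (fun _ => (tw (n + 1)) ^ p) x := by
        rw [lintegral_tsum fun n => (measurable_const.indicator
          (isOpen_On μ k n).measurableSet).aemeasurable]
    _ ≤ C0 * ∫⁻ x, 2 * 2 ^ p * (C1 * hlM k x) ^ p := by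
        refine mul_le_mul_right (lintegral_mono fun x => ?_) _
        refine le_trans (ENNReal.tsum_le_tsum fun n => ?_) (geom hp (C1 * hlM k x))
        by_cases hx : x ∈ On μ k n
        · rw [indicator_of_mem hx, if_pos (hsub n x hx)]
        · rw [indicator_of_notMem hx]
          exact zero_le
    _ = C0 * (2 * 2 ^ p * ∫⁻ x, (C1 * hlM k x) ^ p) := by
        rw [lintegral_const_mul' _ _ (ENNReal.mul_ne_top (by norm_num)
          (ENNReal.rpow_ne_top_of_nonneg hp0.le (by norm_num)))]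
    _ ≤ C0 * (2 * 2 ^ p * (C1 ^ p * (C3 * ∫⁻ x, (k x) ^ p))) := by
        gcongr
    _ = K * ∫⁻ x, (k x) ^ p := by
        rw [hK]
        ring
    _ ≤ _ := mul_le_mul_left le_self_add _

end Car

open Car in
theorem stCar (hHL : StHL) (hPois : StPois) (hComps : StComps) (_hPC : StPCont) : StCar := by
  intro μ p U hμ hp hU _ hCC
  obtain ⟨C, hC⟩ := main hHL hPois hComps hμ hp hU hCC
  refine ⟨C, fun k hk => ?_⟩
  have h1 := hC (hk.mk k) hk.measurable_mk
  have h2 : ∀ z y : ℝ, Pk k z y = Pk (hk.mk k) z y := by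
    intro z y
    unfold Pk
    refine lintegral_congr_ae ?_
    filter_upwards [hk.ae_eq_mk] with t ht
    rw [ht]
  have h3 : ∫⁻ x, (k x) ^ p = ∫⁻ x, (hk.mk k x) ^ p := by
    refine lintegral_congr_ae ?_
    filter_upwards [hk.ae_eq_mk] with t ht
    rw [ht]
  simp only [h2]
  rw [h3]
  exact h1

end Pool.Agent.Work.MP_055a27_an.Crit

end

section

/-! # Decomposition of an open set of finite measure into intervals -/

open MeasureTheory Set Filter Topology Complex Metric
open scoped ENNReal NNReal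

namespace Pool.Agent.Work.MP_055a27_an.Crit

namespace Comps

theorem eq_Ioo {C : Set ℝ} (ho : IsOpen C) (hc : IsPreconnected C) (hne : C.Nonempty)
    (hv : volume C ≠ ∞) : sInf C < sSup C ∧ C = Ioo (sInf C) (sSup C) := by
  have hba : BddAbove C := by
    by_contra h
    by_cases hb : BddBelow C
    · exact hv (top_le_iff.1 (by
        rw [← Real.volume_Ioi (a := sInf C)]
        exact measure_mono (hc.Ioi_csInf_subset hb h)))
    · exact hv (by rw [hc.eq_univ_of_unbounded hb h, Real.volume_univ])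
  have hbb : BddBelow C := by
    by_contra h
    exact hv (top_le_iff.1 (by
      rw [← Real.volume_Iio (a := sSup C)]
      exact measure_mono (hc.Iio_csSup_subset h hba)))
  have hsub : C ⊆ Ioo (sInf C) (sSup C) := by
    intro x hx
    obtain ⟨ε, hε, hb⟩ := Metric.isOpen_iff.1 ho x hx
    have h1 : x - ε / 2 ∈ C := hb (by
      rw [mem_ball, Real.dist_eq, show x - ε / 2 - x = -(ε / 2) by ring, abs_neg,
        abs_of_pos (by linarith)]
      linarith)
    have h2 : x + ε / 2 ∈ C := hb (by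
      rw [mem_ball, Real.dist_eq, show x + ε / 2 - x = ε / 2 by ring, abs_of_pos (by linarith)]
      linarith)
    have h3 := csInf_le hbb h1
    have h4 := le_csSup hba h2
    exact ⟨by linarith, by linarith⟩
  refine ⟨?_, hsub.antisymm ((show IsConnected C from ⟨hne, hc⟩).Ioo_csInf_csSup_subset hbb hba)⟩
  obtain ⟨x, hx⟩ := hne
  exact (hsub hx).1.trans (hsub hx).2

end Comps

theorem stComps : StComps := by
  intro O hO hv
  let ι : Type := {C : Set ℝ // ∃ q ∈ O, C = connectedComponentIn O q}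
  have hop : ∀ i : ι, IsOpen i.1 := by
    rintro ⟨C, q, hq, rfl⟩
    exact hO.connectedComponentIn
  have hco : ∀ i : ι, IsPreconnected i.1 := by
    rintro ⟨C, q, hq, rfl⟩
    exact isPreconnected_connectedComponentIn
  have hne : ∀ i : ι, i.1.Nonempty := by
    rintro ⟨C, q, hq, rfl⟩
    exact ⟨q, mem_connectedComponentIn hq⟩
  have hsub : ∀ i : ι, i.1 ⊆ O := by
    rintro ⟨C, q, hq, rfl⟩
    exact connectedComponentIn_subset _ _
  have hvi : ∀ i : ι, volume i.1 ≠ ∞ := fun i => ne_top_of_le_ne_top hv (measure_mono (hsub i))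
  have hpt : ∀ (i : ι) (x : ℝ), x ∈ i.1 → i.1 = connectedComponentIn O x := by
    rintro ⟨C, q, hq, rfl⟩ x hx
    exact connectedComponentIn_eq hx
  have hrat : ∀ i : ι, ∃ q : ℚ, (q : ℝ) ∈ i.1 := fun i =>
    (Rat.denseRange_cast (𝕜 := ℝ)).exists_mem_open (hop i) (hne i)
  choose f hf using hrat
  have hcount : Countable ι := by
    refine Function.Injective.countable (f := f) fun i j h => ?_
    have h1 := hpt i _ (hf i)
    have h2 := hpt j _ (hf j)
    rw [h] at h1
    exact Subtype.ext (h1.trans h2.symm)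
  have hI : ∀ i : ι, sInf i.1 < sSup i.1 ∧ i.1 = Ioo (sInf i.1) (sSup i.1) := fun i =>
    Comps.eq_Ioo (hop i) (hco i) (hne i) (hvi i)
  refine ⟨ι, hcount, fun i => sInf i.1, fun i => sSup i.1, fun i => (hI i).1, ?_, ?_, ?_⟩
  · ext x
    constructor
    · intro hx
      refine mem_iUnion.2 ⟨⟨_, x, hx, rfl⟩, ?_⟩
      rw [← (hI ⟨_, x, hx, rfl⟩).2]
      exact mem_connectedComponentIn hx
    · intro hx
      obtain ⟨i, hi⟩ := mem_iUnion.1 hx
      rw [← (hI i).2] at hi
      exact hsub i hi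
  · intro i j hij
    simp only
    rw [← (hI i).2, ← (hI j).2, Set.disjoint_left]
    intro x hx hx'
    exact hij (Subtype.ext ((hpt i x hx).trans (hpt j x hx').symm))
  · intro r s hrs h
    have hm : (r + s) / 2 ∈ Ioo r s := ⟨by linarith, by linarith⟩
    refine ⟨⟨_, (r + s) / 2, h hm, rfl⟩, ?_⟩
    rw [← (hI ⟨_, (r + s) / 2, h hm, rfl⟩).2]
    exact isPreconnected_Ioo.subset_connectedComponentIn hm h

end Pool.Agent.Work.MP_055a27_an.Crit

end

section

/-!
# The key estimate for the gradient, general weight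
-/

open MeasureTheory Set Filter Topology Complex Metric
open scoped ENNReal NNReal

namespace Pool.Agent.Work.MP_055a27_an.Crit

open Pool.Agent.Work.MP_055a27_an.Thr (hlM StHL StPois StPL StGrow StBd)

namespace KEG

lemma diff_dschw {f : ℝ → ℝ} (hf : Admissible f) {w : ℂ} (hw : 0 < w.im) :
    DifferentiableAt ℂ (dschw f) w := by
  have h1 : DifferentiableOn ℂ (schw f) uhp := fun v hv =>
    (hasDerivAt_schw hf hv).differentiableAt.differentiableWithinAt
  have h2 : DifferentiableOn ℂ (deriv (schw f)) uhp := h1.deriv isOpen_uhp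
  have h3 : DifferentiableAt ℂ (deriv (schw f)) w :=
    (h2 w hw).differentiableAt (isOpen_uhp.mem_nhds hw)
  refine h3.congr_of_eventuallyEq ?_
  filter_upwards [isOpen_uhp.mem_nhds hw] with v hv
  exact ((hasDerivAt_schw hf hv).deriv).symm

lemma im_shift (ζ : ℂ) (a : ℝ) : (ζ + a * I).im = ζ.im + a := by simp

lemma adm_div {v : ℝ → ℝ} (hv : Admissible v) (p : ℝ) : Admissible (fun t => v t / p) := by
  unfold Admissible at *
  have := hv.div_const p
  refine this.congr (Eventually.of_forall fun t => ?_)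
  simp only
  ring

lemma poisson_div (v : ℝ → ℝ) (p z y : ℝ) :
    poisson (fun t => v t / p) z y = poisson v z y / p := by
  unfold poisson
  rw [mul_div_assoc, ← integral_div]
  congr 1
  apply integral_congr_ae
  exact Eventually.of_forall fun t => by simp only; ring

end KEG

open KEG in
theorem stKEG (hSm : StSm) (hGrow : StGrow) (hBd : StBd) : StKEG := by
  intro b p hb hp
  obtain ⟨C, hC, hB⟩ := hBd b hb
  refine ⟨C, hC, ?_⟩
  intro U hU f hf s y a ha hay
  obtain ⟨K, hK⟩ := hGrow f hf a ha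
  have hdiff : ∀ ζ : ℂ, 0 ≤ ζ.im → DifferentiableAt ℂ (fun z : ℂ => dschw f (z + a * I)) ζ := by
    intro ζ hζ
    have hw : 0 < (ζ + a * I).im := by rw [im_shift]; linarith
    have h1 : DifferentiableAt ℂ (fun z : ℂ => z + a * I) ζ := by fun_prop
    exact DifferentiableAt.comp (g := dschw f) (f := fun z : ℂ => z + a * I) ζ
      (diff_dschw hf hw) h1
  have hgrowth : ∀ ζ : ℂ, 0 ≤ ζ.im → ‖(fun z : ℂ => dschw f (z + a * I)) ζ‖ ≤
      (|K| * (1 + a) ^ 2) * (1 + ‖ζ‖) ^ 2 * Real.exp (0 * ‖ζ‖ ^ (1 / 2 : ℝ)) := by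
    intro ζ hζ
    have hw : 0 < (ζ + a * I).im := by rw [im_shift]; linarith
    have hn : ‖ζ + a * I‖ ≤ ‖ζ‖ + a := by
      refine (norm_add_le _ _).trans ?_
      simp [abs_of_pos ha]
    rw [zero_mul, Real.exp_zero, mul_one]
    refine (hK (ζ + a * I) (by rw [im_shift]; linarith)).trans ?_
    calc K * (1 + ‖ζ + a * I‖) ^ 2 ≤ |K| * ((1 + a) * (1 + ‖ζ‖)) ^ 2 := by
          apply mul_le_mul (le_abs_self K) ?_ (by positivity) (abs_nonneg K)
          apply pow_le_pow_left₀ (by positivity)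
          nlinarith [norm_nonneg ζ]
      _ = _ := by ring
  have key := hSm (1 / 2) (|K| * (1 + a) ^ 2) 0 (fun z : ℂ => dschw f (z + a * I))
    (fun t => lg U t / p) (by norm_num) (by norm_num) hdiff hgrowth (adm_div hU p)
    s (y - a) (by linarith)
  rw [poisson_div] at key
  have hsh : ((s : ℂ) + ((y - a : ℝ) : ℂ) * I) + a * I = (s : ℂ) + y * I := by
    push_cast; ring
  simp only [hsh] at key
  -- the right side
  have hint : ∫⁻ t : ℝ, ENNReal.ofReal ((y - a) / ((s - t) ^ 2 + (y - a) ^ 2)) *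
      ENNReal.ofReal (‖dschw f ((t : ℂ) + a * I)‖ * Real.exp (lg U t / p)) ≤
      ENNReal.ofReal (C / a) * Pk (Crit.hU U b p f) s (y - a) := by
    unfold Pk Crit.hU
    rw [← lintegral_const_mul' _ _ ENNReal.ofReal_ne_top]
    apply lintegral_mono
    intro t
    calc ENNReal.ofReal ((y - a) / ((s - t) ^ 2 + (y - a) ^ 2)) *
        ENNReal.ofReal (‖dschw f ((t : ℂ) + a * I)‖ * Real.exp (lg U t / p))
        ≤ ENNReal.ofReal ((y - a) / ((s - t) ^ 2 + (y - a) ^ 2)) *
          ((ENNReal.ofReal (C / a) * ntMax b f t) * ENNReal.ofReal (Real.exp (lg U t / p))) := by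
          rw [ENNReal.ofReal_mul (norm_nonneg _)]
          gcongr
          exact hB f hf t a ha
      _ = _ := by ring
  have h1 : ‖dschw f ((s : ℂ) + y * I)‖ = Real.exp (-poisson (lg U) s (y - a) / p) *
      (‖dschw f ((s : ℂ) + y * I)‖ * Real.exp (poisson (lg U) s (y - a) / p)) := by
    rw [mul_comm ‖dschw f ((s : ℂ) + y * I)‖, ← mul_assoc, ← Real.exp_add, neg_div,
      neg_add_cancel, Real.exp_zero, one_mul]
  calc ENNReal.ofReal ‖dschw f ((s : ℂ) + y * I)‖
      = ENNReal.ofReal (Real.exp (-poisson (lg U) s (y - a) / p)) *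
        ENNReal.ofReal (‖dschw f ((s : ℂ) + y * I)‖ *
          Real.exp (poisson (lg U) s (y - a) / p)) := by
        rw [← ENNReal.ofReal_mul (Real.exp_nonneg _), ← h1]
    _ ≤ ENNReal.ofReal (Real.exp (-poisson (lg U) s (y - a) / p)) *
        (ENNReal.ofReal (C / a) * Pk (Crit.hU U b p f) s (y - a)) := by
        gcongr
        exact key.trans hint
    _ = _ := by
        rw [ENNReal.ofReal_mul (by positivity : (0 : ℝ) ≤ C / a)]
        ring

end Pool.Agent.Work.MP_055a27_an.Crit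

end

section

/-! # The maximal function of larger aperture is bounded by the area function -/

open MeasureTheory Set Filter Topology Complex Metric
open scoped ENNReal NNReal

namespace Pool.Agent.Work.MP_055a27_an.Crit

namespace NS

/-- Mean value inequality on circles. -/
lemma circ {G : ℂ → ℂ} {w : ℂ} {ρ r : ℝ} (hr : 0 < r) (hrρ : r < ρ)
    (hG : DifferentiableOn ℂ G (ball w ρ)) :
    ENNReal.ofReal (2 * Real.pi * ‖G w‖) ≤
      ∫⁻ θ in Ioo (-Real.pi) Real.pi, ENNReal.ofReal ‖G (w + Complex.polarCoord.symm (r, θ))‖ := by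
  have h1 : Real.circleAverage G w r = G w := by
    apply DiffContOnCl.circleAverage
    rw [abs_of_pos hr]
    exact hG.diffContOnCl_ball (closedBall_subset_ball hrρ)
  have hper : Function.Periodic (fun θ : ℝ => G (circleMap w r θ)) (2 * Real.pi) := by
    intro θ
    show G (circleMap w r (θ + 2 * Real.pi)) = G (circleMap w r θ)
    rw [periodic_circleMap w r θ]
  have h2 : ∫ θ in (-Real.pi)..Real.pi, G (circleMap w r θ) = (2 * Real.pi : ℝ) • G w := by
    have h3 := hper.intervalIntegral_add_eq (-Real.pi) 0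
    have e1 : -Real.pi + 2 * Real.pi = Real.pi := by ring
    rw [e1, zero_add] at h3
    rw [h3, ← h1, Real.circleAverage_def, smul_smul, mul_inv_cancel₀ (by positivity), one_smul]
  have h4 : ‖(2 * Real.pi : ℝ) • G w‖ₑ ≤ ∫⁻ θ in Ioc (-Real.pi) Real.pi, ‖G (circleMap w r θ)‖ₑ := by
    rw [← h2, intervalIntegral.integral_of_le (by linarith [Real.pi_pos])]
    exact enorm_integral_le_lintegral_enorm _
  have h5 : ENNReal.ofReal (2 * Real.pi * ‖G w‖) = ‖(2 * Real.pi : ℝ) • G w‖ₑ := by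
    rw [← ofReal_norm, norm_smul, Real.norm_of_nonneg (by positivity)]
  rw [h5, setLIntegral_congr (Ioo_ae_eq_Ioc)]
  refine h4.trans (le_of_eq ?_)
  refine lintegral_congr fun θ => ?_
  rw [ofReal_norm]
  congr 2
  rw [Complex.polarCoord_symm_apply, circleMap, Complex.exp_mul_I]
  push_cast
  ring

/-- Mean value inequality on discs. -/
lemma disc {G : ℂ → ℂ} {w : ℂ} {ρ : ℝ} (hρ : 0 < ρ) (hG : DifferentiableOn ℂ G (ball w ρ)) :
    ENNReal.ofReal (ρ ^ 2 * ‖G w‖) ≤ ∫⁻ ζ in ball w ρ, ENNReal.ofReal ‖G ζ‖ := by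
  set H : ℂ → ℝ≥0∞ := (ball w ρ).indicator (fun ζ => ENNReal.ofReal ‖G ζ‖) with hH
  have hHm : Measurable H := by
    classical
    rw [hH, ← Set.piecewise_eq_indicator]
    apply ContinuousOn.measurable_piecewise
    · exact ENNReal.continuous_ofReal.comp_continuousOn hG.continuousOn.norm
    · exact continuousOn_const
    · exact measurableSet_ball
  have h0 : ∫⁻ ζ in ball w ρ, ENNReal.ofReal ‖G ζ‖ = ∫⁻ ζ, H (w + ζ) := by
    rw [lintegral_add_left_eq_self H w, hH, lintegral_indicator measurableSet_ball]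
  rw [h0, ← Complex.lintegral_comp_polarCoord_symm]
  have hpm : Measurable (fun p : ℝ × ℝ => Complex.polarCoord.symm p) := by
    have : (fun p : ℝ × ℝ => Complex.polarCoord.symm p) =
        fun p : ℝ × ℝ => (p.1 : ℂ) * (Real.cos p.2 + Real.sin p.2 * Complex.I) := by
      funext p
      exact Complex.polarCoord_symm_apply p
    rw [this]
    fun_prop
  have hFm : Measurable (fun p : ℝ × ℝ => ENNReal.ofReal p.1 • H (w + Complex.polarCoord.symm p)) := by
    have h1 : Measurable (fun p : ℝ × ℝ => H (w + Complex.polarCoord.symm p)) :=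
      hHm.comp (hpm.const_add w)
    exact (ENNReal.measurable_ofReal.comp measurable_fst).mul h1
  have ht : polarCoord.target = Ioi (0 : ℝ) ×ˢ Ioo (-Real.pi) Real.pi := rfl
  rw [ht, Measure.volume_eq_prod, ← Measure.prod_restrict, lintegral_prod _ hFm.aemeasurable]
  have hsub : Ioo (ρ / 2) ρ ⊆ Ioi (0 : ℝ) := fun r hr => by
    have := hr.1
    show 0 < r
    linarith
  refine le_trans ?_ (lintegral_mono_set hsub)
  have h3 : ∀ r ∈ Ioo (ρ / 2) ρ, ENNReal.ofReal (ρ / 2) * ENNReal.ofReal (2 * Real.pi * ‖G w‖) ≤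
      ∫⁻ θ in Ioo (-Real.pi) Real.pi,
        ENNReal.ofReal r • H (w + Complex.polarCoord.symm (r, θ)) := by
    intro r hr
    have hr0 : 0 < r := hsub hr
    have h4 := circ hr0 hr.2 hG
    calc ENNReal.ofReal (ρ / 2) * ENNReal.ofReal (2 * Real.pi * ‖G w‖)
        ≤ ENNReal.ofReal r * ∫⁻ θ in Ioo (-Real.pi) Real.pi,
            ENNReal.ofReal ‖G (w + Complex.polarCoord.symm (r, θ))‖ := by
          gcongr
          exact hr.1.le
      _ = ∫⁻ θ in Ioo (-Real.pi) Real.pi,
            ENNReal.ofReal r * ENNReal.ofReal ‖G (w + Complex.polarCoord.symm (r, θ))‖ := by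
          rw [lintegral_const_mul' _ _ ENNReal.ofReal_ne_top]
      _ = _ := by
          refine lintegral_congr fun θ => ?_
          rw [smul_eq_mul, hH, Set.indicator_of_mem]
          rw [mem_ball, dist_eq_norm, add_sub_cancel_left, Complex.norm_polarCoord_symm]
          simpa [abs_of_pos hr0] using hr.2
  calc ENNReal.ofReal (ρ ^ 2 * ‖G w‖)
      ≤ ENNReal.ofReal (ρ / 2) * ENNReal.ofReal (2 * Real.pi * ‖G w‖) *
          volume (Ioo (ρ / 2) ρ) := by
        rw [Real.volume_Ioo, ← ENNReal.ofReal_mul (by positivity),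
          ← ENNReal.ofReal_mul (by positivity)]
        apply ENNReal.ofReal_le_ofReal
        have := Real.pi_gt_three
        have h5 : 0 ≤ ρ ^ 2 * ‖G w‖ := by positivity
        nlinarith
    _ = ∫⁻ r in Ioo (ρ / 2) ρ, ENNReal.ofReal (ρ / 2) * ENNReal.ofReal (2 * Real.pi * ‖G w‖) := by
        rw [setLIntegral_const]
    _ ≤ _ := setLIntegral_mono' measurableSet_Ioo h3

/-- The gradient is controlled by the area integral. -/
lemma grad_area {f : ℝ → ℝ} (hf : Admissible f) {lam x s y ρ : ℝ} (hlam : 0 < lam)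
    (hρ : 0 < ρ) (hρy : ρ < y) (h : |x - s| + ρ ≤ lam * (y - ρ)) :
    ENNReal.ofReal (ρ ^ 2 * ‖dschw f (s + y * I)‖ ^ 2) ≤
      ∫⁻ q in cone lam x, ENNReal.ofReal (gradSq f q.1 q.2) := by
  set w : ℂ := (s : ℂ) + y * I with hw
  have hwre : w.re = s := by simp [hw]
  have hwim : w.im = y := by simp [hw]
  have him : ∀ ζ ∈ ball w ρ, y - ρ < ζ.im := by
    intro ζ hζ
    have h1 : |(ζ - w).im| < ρ := (Complex.abs_im_le_norm _).trans_lt (by
      rwa [mem_ball, dist_eq_norm] at hζ)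
    rw [Complex.sub_im, hwim] at h1
    linarith [(abs_lt.1 h1).1]
  have hre : ∀ ζ ∈ ball w ρ, |ζ.re - s| < ρ := by
    intro ζ hζ
    have h1 : |(ζ - w).re| < ρ := (Complex.abs_re_le_norm _).trans_lt (by
      rwa [mem_ball, dist_eq_norm] at hζ)
    rwa [Complex.sub_re, hwre] at h1
  have hG : DifferentiableOn ℂ (fun ζ => dschw f ζ ^ 2) (ball w ρ) := by
    intro ζ hζ
    have h2 : DifferentiableAt ℂ (dschw f) ζ := Thr.KE.diff_dschw hf (by
      have := him ζ hζ
      linarith)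
    exact (h2.pow 2).differentiableWithinAt
  have h1 := disc hρ hG
  simp only [norm_pow] at h1
  refine h1.trans ?_
  rw [← (Complex.volume_preserving_equiv_real_prod.symm).setLIntegral_comp_preimage_emb
    Complex.measurableEquivRealProd.symm.measurableEmbedding]
  refine le_trans ?_ (lintegral_mono_set (s := Complex.measurableEquivRealProd.symm ⁻¹' ball w ρ) ?_)
  · refine setLIntegral_mono' (Complex.measurableEquivRealProd.symm.measurable measurableSet_ball)
      fun q hq => ?_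
    have e : Complex.measurableEquivRealProd.symm q = (q.1 : ℂ) + q.2 * I := by
      rw [Complex.measurableEquivRealProd_symm_apply]
      apply Complex.ext <;> simp
    have hq2 : 0 < q.2 := by
      have h3 := him _ hq
      rw [e] at h3
      simp at h3
      linarith
    rw [gradSq_eq hf hq2, ← e]
  · intro q hq
    have e : Complex.measurableEquivRealProd.symm q = (q.1 : ℂ) + q.2 * I := by
      rw [Complex.measurableEquivRealProd_symm_apply]
      apply Complex.ext <;> simp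
    have h3 := him _ hq
    have h4 := hre _ hq
    rw [e] at h3 h4
    simp at h3 h4
    have hq2 : 0 < q.2 := by linarith
    refine ⟨?_, hq2⟩
    have h5 : |x - q.1| ≤ |x - s| + |q.1 - s| := by
      have e6 : x - q.1 = (x - s) - (q.1 - s) := by ring
      rw [e6]
      exact abs_sub _ _
    have h6 : lam * (y - ρ) ≤ lam * q.2 := by
      apply mul_le_mul_of_nonneg_left _ hlam.le
      linarith
    linarith

end NS

theorem stNS : StNS := by
  intro lam lam2 b hlam2 hlam hb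
  have hlam0 : 0 < lam := hlam2.trans hlam
  set κ : ℝ := (lam - lam2) / (1 + lam) with hκ
  have hκ0 : 0 < κ := div_pos (by linarith) (by linarith)
  have hκ1 : κ < 1 := by
    rw [hκ, div_lt_one (by linarith)]
    linarith
  have hκ2 : lam2 + κ = lam * (1 - κ) := by
    rw [hκ]
    field_simp
    ring
  refine ⟨Real.toNNReal (lam2 / κ) + 1, fun f hf x => ?_⟩
  by_cases hA : areaFn lam f x = ∞
  · rw [hA, ENNReal.mul_top (by simp)]
    simp
  set A : ℝ≥0∞ := areaFn lam f x with hAdef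
  -- gradient bound
  have grad : ∀ s y : ℝ, 0 < y → |x - s| ≤ lam2 * y →
      ‖dschw f (s + y * I)‖ ≤ A.toReal / (κ * y) := by
    intro s y hy hs
    have h1 := NS.grad_area hf (lam := lam) (x := x) (s := s) (y := y) (ρ := κ * y) hlam0
      (by positivity) (by nlinarith) (by nlinarith)
    have h2 : (∫⁻ q in cone lam x, ENNReal.ofReal (gradSq f q.1 q.2)) = A ^ (2 : ℝ) := by
      rw [hAdef, areaFn, ← ENNReal.rpow_mul]
      norm_num
    have h3 : ENNReal.ofReal (κ * y * ‖dschw f (s + y * I)‖) ≤ A := by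
      have h4 : ENNReal.ofReal (κ * y * ‖dschw f (s + y * I)‖) ^ (2 : ℝ) ≤ A ^ (2 : ℝ) := by
        rw [← h2]
        refine le_trans (le_of_eq ?_) h1
        rw [ENNReal.rpow_ofNat, ← ENNReal.ofReal_pow (by positivity)]
        congr 1
        ring
      exact (ENNReal.rpow_le_rpow_iff (by norm_num)).1 h4
    rw [ENNReal.ofReal_le_iff_le_toReal hA] at h3
    rw [le_div_iff₀ (by positivity)]
    linarith
  unfold ntMax
  refine iSup_le fun z0 => iSup_le fun y => iSup_le fun hy => ?_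
  obtain ⟨hy0, hz0⟩ := hy
  set z : ℝ := x - z0 with hz
  have hxz : |x - z| ≤ lam2 * y := by rw [hz, sub_sub_cancel]; exact hz0
  have h7 := Thr.Aper2.horiz hf hy0 (x := x) (z := z) (B := A.toReal / (κ * y))
    (fun s hs => grad s y hy0 (hs.trans hxz))
  have h8 : |poisson f z y| ≤ |poisson f x y| + lam2 / κ * A.toReal := by
    have h9 : |poisson f z y| ≤ |poisson f x y| + |poisson f z y - poisson f x y| := by
      have := abs_sub_abs_le_abs_sub (poisson f z y) (poisson f x y)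
      linarith
    have h10 : A.toReal / (κ * y) * |z - x| ≤ A.toReal / (κ * y) * (lam2 * y) := by
      rw [abs_sub_comm z x]
      gcongr
    have h11 : A.toReal / (κ * y) * (lam2 * y) = lam2 / κ * A.toReal := by
      field_simp
    linarith
  calc ENNReal.ofReal |poisson f z y|
      ≤ ENNReal.ofReal (|poisson f x y| + lam2 / κ * A.toReal) := ENNReal.ofReal_le_ofReal h8
    _ = ENNReal.ofReal |poisson f x y| + ENNReal.ofReal (lam2 / κ) * A := by
        rw [ENNReal.ofReal_add (abs_nonneg _) (by positivity), ENNReal.ofReal_mul (by positivity),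
          ENNReal.ofReal_toReal hA]
    _ ≤ ntMax b f x + ((Real.toNNReal (lam2 / κ) + 1 : ℝ≥0) : ℝ≥0∞) * A := by
        gcongr ?_ + ?_ * _
        · exact le_ntMax hy0 (by rw [sub_self, abs_zero]; positivity)
        · rw [ENNReal.coe_add, ENNReal.ofReal]
          exact le_self_add

end Pool.Agent.Work.MP_055a27_an.Crit

end

section

/-!
# The critical aperture of a weight, item Nec: necessity of the Carleson condition
-/

open MeasureTheory Set Filter Topology Complex Metric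
open scoped ENNReal NNReal

namespace Pool.Agent.Work.MP_055a27_an.Crit

namespace Nec

lemma rpow_add_le (A B : ℝ≥0∞) {p : ℝ} (hp : 0 < p) :
    (A + B) ^ p ≤ 2 ^ p * (A ^ p + B ^ p) := by
  have h1 : A + B ≤ 2 * max A B := by
    rw [two_mul]
    exact add_le_add (le_max_left _ _) (le_max_right _ _)
  calc (A + B) ^ p ≤ (2 * max A B) ^ p := ENNReal.rpow_le_rpow h1 hp.le
    _ = 2 ^ p * (max A B) ^ p := ENNReal.mul_rpow_of_nonneg _ _ hp.le
    _ ≤ 2 ^ p * (A ^ p + B ^ p) := by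
      gcongr
      rcases le_total A B with h | h
      · rw [max_eq_right h]; exact le_add_self
      · rw [max_eq_left h]; exact le_self_add

lemma meas_ntMax {f : ℝ → ℝ} (hf : Admissible f) (b : ℝ) : Measurable (fun t : ℝ => ntMax b f t) := by
  have e2 : ∀ x, ntMax b f x = NT (schw f) b x := fun x => ntMax_eq hf
  simp_rw [e2]
  exact measurable_NT (schw_diff hf) b

/-- convergence of the Poisson integrals -/
lemma pois_tend {U : ℝ → ℝ} (hA : Admissible (lg U)) {z y β : ℝ} (hy : 0 < y) (hβ : 0 < β) :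
    Tendsto (fun n : ℕ => poisson (lgT U n) z (y + β / (n + 1))) atTop (𝓝 (poisson (lg U) z y)) := by
  simp only [poisson_eq_integral]
  apply Tendsto.const_mul
  have hw : y ≤ ((z : ℂ) + y * I).im := by simp
  set K : ℝ := 2 + (1 + 2 * ‖((z : ℂ) + y * I)‖ ^ 2) / y ^ 2 with hK
  have hK0 : 0 < K := by positivity
  have hm := adm_measurable hA
  have hdn : ∀ n : ℕ, 0 < β / ((n : ℝ) + 1) := fun n => by positivity
  have hdn1 : ∀ n : ℕ, β / ((n : ℝ) + 1) ≤ β := fun n => by
    rw [div_le_iff₀ (by positivity)]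
    nlinarith [hβ, (Nat.cast_nonneg n : (0 : ℝ) ≤ n)]
  apply tendsto_integral_of_dominated_convergence
    (fun t => (y + β) * K * ‖lg U t / (1 + t ^ 2)‖)
  · intro n
    have h1 : AEStronglyMeasurable (fun t => lgT U n t) volume := by
      unfold lgT
      exact (hm.aemeasurable.max aemeasurable_const).aestronglyMeasurable
    have h2 : AEStronglyMeasurable (fun t : ℝ => (y + β / ((n : ℝ) + 1)) /
        ((z - t) ^ 2 + (y + β / ((n : ℝ) + 1)) ^ 2)) volume := by
      apply Measurable.aestronglyMeasurable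
      fun_prop
    refine (h1.mul h2).congr (Eventually.of_forall fun t => ?_)
    show lgT U n t * ((y + β / ((n : ℝ) + 1)) / ((z - t) ^ 2 + (y + β / ((n : ℝ) + 1)) ^ 2)) = _
    ring
  · exact (hA.norm).const_mul _
  · intro n
    refine Eventually.of_forall fun t => ?_
    have h0 := hdn n
    have h1 := hdn1 n
    have hl : |lgT U n t| ≤ |lg U t| := by
      unfold lgT
      rcases le_total (-(n : ℝ)) (lg U t) with h | h
      · rw [max_eq_left h]
      · rw [max_eq_right h, abs_neg, abs_of_nonneg (Nat.cast_nonneg n)]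
        have := neg_abs_le (lg U t)
        have hn : (0 : ℝ) ≤ n := Nat.cast_nonneg n
        rw [abs_of_nonpos (by linarith)]
        linarith
    have hq : 1 + t ^ 2 ≤ K * ((z - t) ^ 2 + y ^ 2) := by
      have := one_add_sq_le hy hw t
      have e : ‖(z : ℂ) + y * I - (t : ℂ)‖ ^ 2 = (z - t) ^ 2 + y ^ 2 := by
        rw [← Complex.normSq_eq_norm_sq, Complex.normSq_apply]
        simp
        ring
      rw [e] at this
      exact this
    have hpos : 0 < (z - t) ^ 2 + y ^ 2 := by positivity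
    have hpos2 : 0 < (z - t) ^ 2 + (y + β / ((n : ℝ) + 1)) ^ 2 := by positivity
    rw [Real.norm_eq_abs, abs_div, abs_mul, abs_of_pos hpos2, abs_of_pos (show 0 < y + β / ((n : ℝ) + 1) by
      positivity), Real.norm_eq_abs, abs_div, abs_of_pos (show (0 : ℝ) < 1 + t ^ 2 by positivity),
      ← mul_div_assoc, div_le_div_iff₀ hpos2 (by positivity)]
    have hle : (z - t) ^ 2 + y ^ 2 ≤ (z - t) ^ 2 + (y + β / ((n : ℝ) + 1)) ^ 2 := by
      nlinarith
    calc (y + β / ((n : ℝ) + 1)) * |lgT U n t| * (1 + t ^ 2)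
        ≤ (y + β) * |lg U t| * (K * ((z - t) ^ 2 + (y + β / ((n : ℝ) + 1)) ^ 2)) := by
          gcongr
          exact hq.trans (by gcongr)
      _ = _ := by ring
  · refine Eventually.of_forall fun t => ?_
    have hev : ∀ᶠ n : ℕ in atTop, (y + β / ((n : ℝ) + 1)) * lg U t /
        ((z - t) ^ 2 + (y + β / ((n : ℝ) + 1)) ^ 2) =
        (y + β / ((n : ℝ) + 1)) * lgT U n t / ((z - t) ^ 2 + (y + β / ((n : ℝ) + 1)) ^ 2) := by
      obtain ⟨n0, hn0⟩ := exists_nat_ge |lg U t|
      filter_upwards [eventually_ge_atTop n0] with n hn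
      have hn1 : |lg U t| ≤ n := hn0.trans (by exact_mod_cast hn)
      have : lgT U n t = lg U t := by
        unfold lgT
        exact max_eq_left (by linarith [neg_abs_le (lg U t)])
      rw [this]
    refine Tendsto.congr' hev ?_
    have hd : Tendsto (fun n : ℕ => y + β / ((n : ℝ) + 1)) atTop (𝓝 y) := by
      have h3 : Tendsto (fun n : ℕ => β / ((n : ℝ) + 1)) atTop (𝓝 0) := by
        have h4 := (tendsto_one_div_add_atTop_nhds_zero_nat (𝕜 := ℝ)).const_mul β
        simpa [div_eq_mul_inv] using h4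
      simpa using h3.const_add y
    apply Tendsto.div
    · exact hd.mul_const _
    · exact (hd.pow 2).const_add _
    · positivity

lemma norm_upper {x0 β z y μ L : ℝ} (hμ : 0 < μ) (hβ : 0 < β) (hy : 0 < y)
    (hL : L = 3 / 2 + 1 / (2 * μ)) (h1 : x0 - β / 2 ≤ z - μ * y) (h2 : z + μ * y ≤ x0 + β / 2) :
    ‖(z : ℂ) + y * I - x0 + β * I‖ ≤ β * L := by
  have e : (z : ℂ) + y * I - x0 + β * I = ((z - x0 : ℝ) : ℂ) + ((y + β : ℝ) : ℂ) * I := by
    push_cast; ring
  have hz : |z - x0| ≤ β / 2 := by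
    rw [abs_le]
    constructor <;> nlinarith [mul_pos hμ hy]
  have hyb : y ≤ β * (1 / (2 * μ)) := by
    rw [mul_one_div, le_div_iff₀ (by positivity)]
    nlinarith
  calc ‖(z : ℂ) + y * I - x0 + β * I‖ ≤ ‖((z - x0 : ℝ) : ℂ)‖ + ‖((y + β : ℝ) : ℂ) * I‖ := by
        rw [e]; exact norm_add_le _ _
    _ = |z - x0| + (y + β) := by
        rw [norm_mul, Complex.norm_I, mul_one, Complex.norm_real, Complex.norm_real, Real.norm_eq_abs,
          Real.norm_eq_abs, abs_of_pos (show 0 < y + β by linarith)]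
    _ ≤ β * L := by rw [hL]; nlinarith

/-- the pointwise bound -/
lemma point (hTF : StTF) {U : ℝ → ℝ} (hA : Admissible (lg U)) {μ p M ε x0 β x z y L : ℝ} {k : ℕ}
    (hμ : 0 < μ) (hp : 0 < p) (hε : 0 < ε) (hβ : 0 < β) (hy : 0 < y)
    (hL : L = 3 / 2 + 1 / (2 * μ)) (h1 : x0 - β / 2 ≤ z - μ * y) (h2 : z + μ * y ≤ x0 + β / 2)
    (hx : |x - z| < μ * y) :
    ENNReal.ofReal (Real.exp (-poisson (lgT U M) z (y + ε))) ≤
      (ENNReal.ofReal (L ^ k)) ^ p * 2 ^ p *
        ((ntMax μ (fun t : ℝ => (tF2 U M p ε x0 β k t).re) x) ^ p +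
         (ntMax μ (fun t : ℝ => (tF2 U M p ε x0 β k t).im) x) ^ p) := by
  obtain ⟨a1, a2, a3⟩ := hTF U M p ε x0 β k hA hp hε hβ
  obtain ⟨b1, b2, b3⟩ := a3 z y hy
  have hL0 : 0 < L := by rw [hL]; positivity
  have hn := norm_upper hμ hβ hy hL h1 h2
  have hden : 0 < ‖(z : ℂ) + y * I - x0 + β * I‖ := by
    rw [norm_pos_iff]
    exact den_ne hβ (by simp [hy.le])
  have hr : 1 / L ≤ β / ‖(z : ℂ) + y * I - x0 + β * I‖ := by
    rw [div_le_div_iff₀ hL0 hden]
    linarith
  set P := poisson (lgT U M) z (y + ε) with hP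
  have hexp : Real.exp (-P / p) ≤ L ^ k * ‖tF2 U M p ε x0 β k (z + y * I)‖ := by
    rw [b3]
    have h3 : (1 / L) ^ k ≤ (β / ‖(z : ℂ) + y * I - x0 + β * I‖) ^ k :=
      pow_le_pow_left₀ (by positivity) hr k
    calc Real.exp (-P / p) = L ^ k * (Real.exp (-P / p) * (1 / L) ^ k) := by
          rw [one_div, inv_pow]; field_simp
      _ ≤ _ := by gcongr
  have hnorm : ‖tF2 U M p ε x0 β k (z + y * I)‖ ≤
      |poisson (fun t : ℝ => (tF2 U M p ε x0 β k t).re) z y| +
      |poisson (fun t : ℝ => (tF2 U M p ε x0 β k t).im) z y| := by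
    rw [b1, b2]
    exact Complex.norm_le_abs_re_add_abs_im _
  have e1 : ENNReal.ofReal (Real.exp (-P)) = (ENNReal.ofReal (Real.exp (-P / p))) ^ p := by
    rw [ENNReal.ofReal_rpow_of_pos (Real.exp_pos _), ← Real.exp_mul]
    congr 2
    field_simp
  rw [e1]
  have hx' : |x - z| ≤ μ * y := hx.le
  have g1 := le_ntMax (f := fun t : ℝ => (tF2 U M p ε x0 β k t).re) hy hx'
  have g2 := le_ntMax (f := fun t : ℝ => (tF2 U M p ε x0 β k t).im) hy hx'
  calc (ENNReal.ofReal (Real.exp (-P / p))) ^ p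
      ≤ (ENNReal.ofReal (L ^ k) *
          (ntMax μ (fun t : ℝ => (tF2 U M p ε x0 β k t).re) x +
            ntMax μ (fun t : ℝ => (tF2 U M p ε x0 β k t).im) x)) ^ p := by
        apply ENNReal.rpow_le_rpow _ hp.le
        calc ENNReal.ofReal (Real.exp (-P / p))
            ≤ ENNReal.ofReal (L ^ k * (|poisson (fun t : ℝ => (tF2 U M p ε x0 β k t).re) z y| +
              |poisson (fun t : ℝ => (tF2 U M p ε x0 β k t).im) z y|)) := by
              apply ENNReal.ofReal_le_ofReal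
              exact hexp.trans (by gcongr)
          _ = ENNReal.ofReal (L ^ k) *
              (ENNReal.ofReal |poisson (fun t : ℝ => (tF2 U M p ε x0 β k t).re) z y| +
              ENNReal.ofReal |poisson (fun t : ℝ => (tF2 U M p ε x0 β k t).im) z y|) := by
              rw [ENNReal.ofReal_mul (by positivity), ENNReal.ofReal_add (abs_nonneg _) (abs_nonneg _)]
          _ ≤ _ := by gcongr
    _ = (ENNReal.ofReal (L ^ k)) ^ p * (ntMax μ (fun t : ℝ => (tF2 U M p ε x0 β k t).re) x +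
            ntMax μ (fun t : ℝ => (tF2 U M p ε x0 β k t).im) x) ^ p :=
        ENNReal.mul_rpow_of_nonneg _ _ hp.le
    _ ≤ (ENNReal.ofReal (L ^ k)) ^ p * (2 ^ p *
        ((ntMax μ (fun t : ℝ => (tF2 U M p ε x0 β k t).re) x) ^ p +
         (ntMax μ (fun t : ℝ => (tF2 U M p ε x0 β k t).im) x) ^ p)) := by
        gcongr
        exact rpow_add_le _ _ hp
    _ = _ := by rw [mul_assoc]

/-- change of aperture -/
lemma aper {U : ℝ → ℝ} (hU : IsWeight U) {lam μ b p : ℝ} {C2 C3 : ℝ≥0} (hp : 0 < p)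
    (hN : ∀ f : ℝ → ℝ, Admissible f → ∀ x : ℝ, ntMax μ f x ≤ ntMax b f x + C2 * areaFn lam f x)
    (hS : ∀ f : ℝ → ℝ, Admissible f →
      ∫⁻ x : ℝ, (areaFn lam f x) ^ p * ENNReal.ofReal (U x)
        ≤ (C3 : ℝ≥0∞) * ∫⁻ x : ℝ, (ntMax b f x) ^ p * ENNReal.ofReal (U x))
    {f : ℝ → ℝ} (hf : Admissible f) :
    ∫⁻ x : ℝ, (ntMax μ f x) ^ p * ENNReal.ofReal (U x) ≤
      2 ^ p * (1 + (C2 : ℝ≥0∞) ^ p * C3) * ∫⁻ x : ℝ, (ntMax b f x) ^ p * ENNReal.ofReal (U x) := by
  have h2 : (2 : ℝ≥0∞) ^ p ≠ ⊤ := ENNReal.rpow_ne_top_of_nonneg hp.le (by simp)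
  have hC2 : (C2 : ℝ≥0∞) ^ p ≠ ⊤ := ENNReal.rpow_ne_top_of_nonneg hp.le (by simp)
  calc ∫⁻ x : ℝ, (ntMax μ f x) ^ p * ENNReal.ofReal (U x)
      ≤ ∫⁻ x : ℝ, 2 ^ p * ((ntMax b f x) ^ p * ENNReal.ofReal (U x) +
          (C2 : ℝ≥0∞) ^ p * ((areaFn lam f x) ^ p * ENNReal.ofReal (U x))) := by
        apply lintegral_mono
        intro x
        have h3 : (ntMax μ f x) ^ p ≤ 2 ^ p * ((ntMax b f x) ^ p +
            (C2 : ℝ≥0∞) ^ p * (areaFn lam f x) ^ p) := by
          calc (ntMax μ f x) ^ p ≤ (ntMax b f x + C2 * areaFn lam f x) ^ p :=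
                ENNReal.rpow_le_rpow (hN f hf x) hp.le
            _ ≤ 2 ^ p * ((ntMax b f x) ^ p + (C2 * areaFn lam f x) ^ p) := rpow_add_le _ _ hp
            _ = _ := by rw [ENNReal.mul_rpow_of_nonneg _ _ hp.le]
        calc (ntMax μ f x) ^ p * ENNReal.ofReal (U x)
            ≤ (2 ^ p * ((ntMax b f x) ^ p + (C2 : ℝ≥0∞) ^ p * (areaFn lam f x) ^ p)) *
              ENNReal.ofReal (U x) := by gcongr
          _ = _ := by ring
    _ = 2 ^ p * ((∫⁻ x : ℝ, (ntMax b f x) ^ p * ENNReal.ofReal (U x)) +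
          (C2 : ℝ≥0∞) ^ p * ∫⁻ x : ℝ, (areaFn lam f x) ^ p * ENNReal.ofReal (U x)) := by
        rw [lintegral_const_mul' _ _ h2, lintegral_add_left', lintegral_const_mul' _ _ hC2]
        exact ((meas_ntMax hf b).pow_const p).aemeasurable.mul (weight_ofReal_aemeas hU)
    _ ≤ 2 ^ p * ((∫⁻ x : ℝ, (ntMax b f x) ^ p * ENNReal.ofReal (U x)) +
          (C2 : ℝ≥0∞) ^ p * (C3 * ∫⁻ x : ℝ, (ntMax b f x) ^ p * ENNReal.ofReal (U x))) := by
        gcongr
        exact hS f hf
    _ = _ := by ring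

end Nec

theorem stNec (hTF : StTF) (hTFUp : StTFUp) (hNS : StNS) (_hPC : StPCont) : StNec := by
  intro lam μ b p U hb hbl hp hμ hμl hU hA hCC hStar
  obtain ⟨C1, k, hUp⟩ := hTFUp b p U hb hp hU hA hCC
  obtain ⟨C2, hN⟩ := hNS lam μ b hμ hμl hb
  obtain ⟨C3, hS⟩ := hStar
  set L : ℝ := 3 / 2 + 1 / (2 * μ) with hL
  set K : ℝ≥0∞ := (ENNReal.ofReal (L ^ k)) ^ p * 2 ^ p with hK
  set C4 : ℝ≥0∞ := 2 ^ p * (1 + (C2 : ℝ≥0∞) ^ p * C3) with hC4
  have h2 : (2 : ℝ≥0∞) ^ p ≠ ⊤ := ENNReal.rpow_ne_top_of_nonneg hp.le (by simp)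
  have hKt : K ≠ ⊤ := ENNReal.mul_ne_top (ENNReal.rpow_ne_top_of_nonneg hp.le ENNReal.ofReal_ne_top) h2
  have hC4t : C4 ≠ ⊤ := by
    apply ENNReal.mul_ne_top h2
    apply ENNReal.add_ne_top.2
    exact ⟨by simp, ENNReal.mul_ne_top (ENNReal.rpow_ne_top_of_nonneg hp.le (by simp)) (by simp)⟩
  have hfin : K * (C4 * (C1 + C1)) ≠ ⊤ :=
    ENNReal.mul_ne_top hKt (ENNReal.mul_ne_top hC4t (by simp))
  refine ⟨(K * (C4 * (C1 + C1))).toNNReal, fun a c hac => ?_⟩
  rw [ENNReal.coe_toNNReal hfin]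
  obtain ⟨x0, hx0⟩ : ∃ x0 : ℝ, x0 = (a + c) / 2 := ⟨_, rfl⟩
  obtain ⟨β, hβ⟩ : ∃ β : ℝ, β = c - a := ⟨_, rfl⟩
  have hβ0 : 0 < β := by rw [hβ]; linarith
  have ha : a = x0 - β / 2 := by rw [hx0, hβ]; ring
  have hc : c = x0 + β / 2 := by rw [hx0, hβ]; ring
  rw [← hβ]
  have hdn : ∀ n : ℕ, 0 < β / ((n : ℝ) + 1) := fun n => by positivity
  have hdn1 : ∀ n : ℕ, β / ((n : ℝ) + 1) ≤ β := fun n => by
    rw [div_le_iff₀ (by positivity)]
    nlinarith [hβ0, (Nat.cast_nonneg n : (0 : ℝ) ≤ n)]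
  obtain ⟨G, hG⟩ : ∃ G : ℕ → ℝ → ℝ≥0∞, ∀ n x, G n x = K *
      ((ntMax μ (fun t : ℝ => (tF2 U n p (β / ((n : ℝ) + 1)) x0 β k t).re) x) ^ p +
       (ntMax μ (fun t : ℝ => (tF2 U n p (β / ((n : ℝ) + 1)) x0 β k t).im) x) ^ p) :=
    ⟨fun n x => _, fun _ _ => rfl⟩
  have hGm : ∀ n, Measurable (G n) := by
    intro n
    obtain ⟨a1, a2, _⟩ := hTF U n p (β / ((n : ℝ) + 1)) x0 β k hA hp (hdn n) hβ0
    have : G n = fun x => K *
      ((ntMax μ (fun t : ℝ => (tF2 U n p (β / ((n : ℝ) + 1)) x0 β k t).re) x) ^ p +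
       (ntMax μ (fun t : ℝ => (tF2 U n p (β / ((n : ℝ) + 1)) x0 β k t).im) x) ^ p) :=
      funext fun x => hG n x
    rw [this]
    exact (((Nec.meas_ntMax a1 μ).pow_const p).add ((Nec.meas_ntMax a2 μ).pow_const p)).const_mul K
  have hum := weight_ofReal_aemeas hU
  -- the integral of `G n`
  have hGi : ∀ n, ∫⁻ x in Icc a c, G n x * ENNReal.ofReal (U x) ≤
      K * (C4 * (C1 + C1)) * ENNReal.ofReal β := by
    intro n
    obtain ⟨a1, a2, _⟩ := hTF U n p (β / ((n : ℝ) + 1)) x0 β k hA hp (hdn n) hβ0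
    obtain ⟨u1, u2⟩ := hUp n (β / ((n : ℝ) + 1)) x0 β (hdn n) (hdn1 n)
    have v1 := Nec.aper hU hp hN hS a1
    have v2 := Nec.aper hU hp hN hS a2
    calc ∫⁻ x in Icc a c, G n x * ENNReal.ofReal (U x)
        ≤ ∫⁻ x, G n x * ENNReal.ofReal (U x) := setLIntegral_le_lintegral _ _
      _ = ∫⁻ x, K *
          ((ntMax μ (fun t : ℝ => (tF2 U n p (β / ((n : ℝ) + 1)) x0 β k t).re) x) ^ p *
              ENNReal.ofReal (U x) +
            (ntMax μ (fun t : ℝ => (tF2 U n p (β / ((n : ℝ) + 1)) x0 β k t).im) x) ^ p *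
              ENNReal.ofReal (U x)) := by
          refine lintegral_congr fun x => ?_
          rw [hG]; ring
      _ = K * ((∫⁻ x,
          (ntMax μ (fun t : ℝ => (tF2 U n p (β / ((n : ℝ) + 1)) x0 β k t).re) x) ^ p *
              ENNReal.ofReal (U x)) +
            ∫⁻ x, (ntMax μ (fun t : ℝ => (tF2 U n p (β / ((n : ℝ) + 1)) x0 β k t).im) x) ^ p *
              ENNReal.ofReal (U x)) := by
          rw [lintegral_const_mul' _ _ hKt, lintegral_add_left']
          exact ((Nec.meas_ntMax a1 μ).pow_const p).aemeasurable.mul hum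
      _ ≤ K * (C4 * (C1 * ENNReal.ofReal β) + C4 * (C1 * ENNReal.ofReal β)) := by
          gcongr
          · exact v1.trans (by gcongr)
          · exact v2.trans (by gcongr)
      _ = _ := by ring
  -- the pointwise bound in the limit
  have hpt : ∀ x, cc μ a c U x * ENNReal.ofReal (U x) ≤
      liminf (fun n => G n x * ENNReal.ofReal (U x)) atTop := by
    intro x
    unfold cc
    rw [ENNReal.iSup_mul]
    refine iSup_le fun z => ?_
    rw [ENNReal.iSup_mul]
    refine iSup_le fun y => ?_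
    rw [ENNReal.iSup_mul]
    refine iSup_le fun hzy => ?_
    obtain ⟨hy, hxz, h1, h2'⟩ := hzy
    have ht : Tendsto (fun n : ℕ => ENNReal.ofReal (Real.exp (-poisson (lgT U n) z
        (y + β / ((n : ℝ) + 1)))) * ENNReal.ofReal (U x)) atTop
        (𝓝 (ENNReal.ofReal (Real.exp (-poisson (lg U) z y)) * ENNReal.ofReal (U x))) := by
      apply ENNReal.Tendsto.mul_const
      · apply ENNReal.tendsto_ofReal
        exact (Real.continuous_exp.tendsto _).comp (Nec.pois_tend hA hy hβ0).neg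
      · exact Or.inr ENNReal.ofReal_ne_top
    rw [← ht.liminf_eq]
    refine liminf_le_liminf (Eventually.of_forall fun n => ?_)
    have h3 := Nec.point hTF hA (M := n) (k := k) hμ hp (hdn n) hβ0 hy hL (ha ▸ h1) (hc ▸ h2') hxz
    show _ ≤ G n x * ENNReal.ofReal (U x)
    rw [hG]
    gcongr
  calc ∫⁻ x in Icc a c, cc μ a c U x * ENNReal.ofReal (U x)
      ≤ ∫⁻ x in Icc a c, liminf (fun n => G n x * ENNReal.ofReal (U x)) atTop :=
        lintegral_mono hpt
    _ ≤ liminf (fun n => ∫⁻ x in Icc a c, G n x * ENNReal.ofReal (U x)) atTop := by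
        apply lintegral_liminf_le'
        intro n
        exact (hGm n).aemeasurable.mul hum.restrict
    _ ≤ liminf (fun _ : ℕ => K * (C4 * (C1 + C1)) * ENNReal.ofReal β) atTop :=
        liminf_le_liminf (Eventually.of_forall hGi)
    _ = _ := by simp

end Pool.Agent.Work.MP_055a27_an.Crit

end
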