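import Pool.Agent.Work.MP_055a27_an.Crit.Stmts
import Pool.Agent.Work.MP_055a27_an.Bd.B04
import Pool.Agent.Work.MP_055a27_an.Crit.Stmts2
import Pool.Agent.Work.MP_055a27_an.WMeas
import Pool.Agent.Work.MP_055a27_an.Cr3.Stmts

/-! Bundle of small proof modules (one section per former module). -/

section

/-!
# Continuity of the Poisson integral
-/

open MeasureTheory Set Filter Topology Complex Metric
open scoped ENNReal NNReal

namespace Pool.Agent.Work.MP_055a27_an.Crit

/-- The Poisson integral is continuous in the upper half plane. -/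
theorem stPCont : StPCont := by
  intro v hv q hq
  have hq2 : 0 < q.2 := hq
  have hc : Continuous (fun r : ℝ × ℝ => (r.1 : ℂ) + (r.2 : ℂ) * I) := by fun_prop
  have h1 : ContinuousAt (schw v) ((q.1 : ℂ) + (q.2 : ℂ) * I) :=
    (hasDerivAt_schw hv (mem_uhp hq2)).continuousAt
  have h2 : ContinuousAt (fun r : ℝ × ℝ => schw v ((r.1 : ℂ) + (r.2 : ℂ) * I)) q :=
    ContinuousAt.comp (f := fun r : ℝ × ℝ => (r.1 : ℂ) + (r.2 : ℂ) * I) h1 hc.continuousAt
  have h3 : ContinuousAt (fun r : ℝ × ℝ => (schw v ((r.1 : ℂ) + (r.2 : ℂ) * I)).re) q :=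
    Complex.continuous_re.continuousAt.comp h2
  exact h3.continuousWithinAt.congr (fun r hr => poisson_eq_re hv hr) (poisson_eq_re hv hq2)

end Pool.Agent.Work.MP_055a27_an.Crit

end

section

/-! Project MP_055a27_an, module Crit, item Sm: Smirnov type maximum principle with an admissible
exponent. -/

set_option autoImplicit false

open MeasureTheory Set Filter Topology Complex Metric
open scoped ENNReal NNReal

namespace Pool.Agent.Work.MP_055a27_an.Crit

namespace Sm

open Thr (pw hasDerivAt_pw cos_half_pos)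
open Thr.PL (Ge norm_Ge bound re_pw_lower norm_le_add_I)

/-- The truncation. -/
noncomputable def tr (v : ℝ → ℝ) (N : ℕ) (t : ℝ) : ℝ := max (min (v t) N) (-N)

lemma abs_tr_le (v : ℝ → ℝ) (N : ℕ) (t : ℝ) : |tr v N t| ≤ N := by
  unfold tr
  have hN : (0 : ℝ) ≤ N := Nat.cast_nonneg N
  rw [abs_le]
  exact ⟨le_max_right _ _, max_le (min_le_right _ _) (by linarith)⟩

lemma abs_tr_le' (v : ℝ → ℝ) (N : ℕ) (t : ℝ) : |tr v N t| ≤ |v t| := by
  unfold tr
  have hN : (0 : ℝ) ≤ N := Nat.cast_nonneg N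
  rw [abs_le]
  constructor
  · rcases le_total (v t) N with h | h
    · rw [min_eq_left h]
      exact (neg_abs_le _).trans (le_max_left _ _)
    · rw [min_eq_right h]
      have := abs_nonneg (v t)
      exact (by linarith : -|v t| ≤ (N : ℝ)).trans (le_max_left _ _)
  · apply max_le
    · exact (min_le_left _ _).trans (le_abs_self _)
    · have := abs_nonneg (v t)
      linarith

lemma exp_tr_le (v : ℝ → ℝ) (N : ℕ) (t : ℝ) :
    Real.exp (tr v N t) ≤ Real.exp (v t) + Real.exp (-(N : ℝ)) := by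
  unfold tr
  rcases le_total (min (v t) (N : ℝ)) (-(N : ℝ)) with h | h
  · rw [max_eq_right h]
    linarith [Real.exp_pos (v t)]
  · rw [max_eq_left h]
    have := Real.exp_le_exp.2 (min_le_left (v t) (N : ℝ))
    linarith [Real.exp_pos (-(N : ℝ))]

lemma tendsto_tr (v : ℝ → ℝ) (t : ℝ) : Tendsto (fun N : ℕ => tr v N t) atTop (𝓝 (v t)) := by
  refine tendsto_const_nhds.congr' ?_
  obtain ⟨n, hn⟩ := exists_nat_ge |v t|
  filter_upwards [eventually_ge_atTop n] with N hN
  have h1 : |v t| ≤ (N : ℝ) := hn.trans (by exact_mod_cast hN)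
  unfold tr
  have h2 := abs_le.1 h1
  rw [min_eq_left h2.2, max_eq_left h2.1]

lemma meas_tr {v : ℝ → ℝ} (hv : Admissible v) (N : ℕ) :
    AEStronglyMeasurable (tr v N) volume := by
  have h := adm_measurable hv
  exact (h.inf aestronglyMeasurable_const).sup aestronglyMeasurable_const

lemma kernel_dom (v : ℝ → ℝ) {s y : ℝ} (hy : 0 < y) : ∃ C : ℝ, ∀ t : ℝ,
    y * |v t| / ((s - t) ^ 2 + y ^ 2) ≤ C * ‖v t / (1 + t ^ 2)‖ := by
  have hw : y ≤ ((s : ℂ) + y * I).im := by simp
  refine ⟨y * (2 + (1 + 2 * ‖(s : ℂ) + y * I‖ ^ 2) / y ^ 2), fun t => ?_⟩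
  have h1 := one_add_sq_le hy hw t
  have h2 : ‖(s : ℂ) + y * I - (t : ℂ)‖ ^ 2 = (s - t) ^ 2 + y ^ 2 := by
    rw [← Complex.normSq_eq_norm_sq, Complex.normSq_apply]
    simp
    ring
  rw [h2] at h1
  have hpos : 0 < (s - t) ^ 2 + y ^ 2 := by positivity
  have hpos2 : 0 < 1 + t ^ 2 := by positivity
  rw [Real.norm_eq_abs, abs_div, abs_of_pos hpos2, div_le_iff₀ hpos]
  have h3 : 0 ≤ |v t| / (1 + t ^ 2) := by positivity
  have h4 : |v t| = |v t| / (1 + t ^ 2) * (1 + t ^ 2) := by field_simp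
  have h5 := mul_le_mul_of_nonneg_left h1 h3
  rw [← h4] at h5
  have h6 := mul_le_mul_of_nonneg_left h5 hy.le
  linarith

lemma tendsto_poisson {v : ℝ → ℝ} (hv : Admissible v) {s y : ℝ} (hy : 0 < y) :
    Tendsto (fun N : ℕ => poisson (tr v N) s y) atTop (𝓝 (poisson v s y)) := by
  rw [poisson_eq_integral]
  simp_rw [poisson_eq_integral]
  apply Tendsto.const_mul
  obtain ⟨C, hC⟩ := kernel_dom v (s := s) hy
  have hint : Integrable (fun t : ℝ => C * ‖v t / (1 + t ^ 2)‖) volume := by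
    have h1 : Integrable (fun t : ℝ => v t / (1 + t ^ 2)) volume := hv
    exact h1.norm.const_mul C
  refine tendsto_integral_of_dominated_convergence _ ?_ hint ?_ ?_
  · intro N
    have h1 := meas_tr hv N
    have h2 : AEStronglyMeasurable (fun t : ℝ => y / ((s - t) ^ 2 + y ^ 2)) volume := by
      apply Measurable.aestronglyMeasurable
      fun_prop
    refine (h2.mul h1).congr (Eventually.of_forall fun t => ?_)
    simp only [Pi.mul_apply]
    ring
  · intro N
    refine Eventually.of_forall fun t => ?_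
    refine le_trans ?_ (hC t)
    have hpos : 0 < (s - t) ^ 2 + y ^ 2 := by positivity
    rw [Real.norm_eq_abs, abs_div, abs_mul, abs_of_pos hy, abs_of_pos hpos]
    exact div_le_div_of_nonneg_right (mul_le_mul_of_nonneg_left (abs_tr_le' v N t) hy.le) hpos.le
  · refine Eventually.of_forall fun t => ?_
    exact ((tendsto_tr v t).const_mul y).div_const _

lemma main_le (h2 : StSm2) {g A B : ℝ} {G : ℂ → ℂ} {v : ℝ → ℝ} (hg : 0 < g) (hg1 : g < 1)
    (hd : ∀ ζ : ℂ, 0 ≤ ζ.im → DifferentiableAt ℂ G ζ)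
    (hb : ∀ ζ : ℂ, 0 ≤ ζ.im → ‖G ζ‖ ≤ A * (1 + ‖ζ‖) ^ 2 * Real.exp (B * ‖ζ‖ ^ g))
    (hv : Admissible v) {s y : ℝ} (hy : 0 < y) {ε : ℝ} (hε : 0 < ε) :
    ENNReal.ofReal (‖Ge G ((1 + g) / 2) ε (s + y * I)‖ * Real.exp (poisson v s y)) ≤
      ∫⁻ t : ℝ, ENNReal.ofReal (y / ((s - t) ^ 2 + y ^ 2)) *
        ENNReal.ofReal (‖G t‖ * Real.exp (v t)) := by
  set gp : ℝ := (1 + g) / 2 with hgp
  have hgp0 : 0 < gp := by rw [hgp]; linarith
  have hgp1 : gp < 1 := by rw [hgp]; linarith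
  have hgg : g < gp := by rw [hgp]; linarith
  have hcos := cos_half_pos hgp0 hgp1
  set c : ℝ := Real.cos (Real.pi * gp / 2) with hc
  have him : ∀ ζ : ℂ, 0 ≤ ζ.im → 0 < (ζ + I).im := by
    intro ζ h; simp only [add_im, I_im]; linarith
  have hre : ∀ ζ : ℂ, 0 ≤ ζ.im → c * ‖ζ‖ ^ gp ≤ (pw gp (ζ + I)).re := by
    intro ζ h
    refine le_trans ?_ (re_pw_lower hgp0 hgp1 (him ζ h))
    exact mul_le_mul_of_nonneg_left (Real.rpow_le_rpow (norm_nonneg _) (norm_le_add_I h) hgp0.le)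
      hcos.le
  have hre0 : ∀ ζ : ℂ, 0 ≤ ζ.im → 0 ≤ (pw gp (ζ + I)).re := by
    intro ζ h
    refine le_trans ?_ (hre ζ h)
    exact mul_nonneg hcos.le (Real.rpow_nonneg (norm_nonneg _) _)
  have hdiff : ∀ ζ : ℂ, 0 ≤ ζ.im → DifferentiableAt ℂ (Ge G gp ε) ζ := by
    intro ζ h
    have h1 : DifferentiableAt ℂ (pw gp) (ζ + I) := (hasDerivAt_pw gp (him ζ h)).differentiableAt
    have h2 : DifferentiableAt ℂ (fun z : ℂ => pw gp (z + I)) ζ :=
      DifferentiableAt.comp (g := pw gp) (f := fun z : ℂ => z + I) ζ h1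
        (differentiableAt_id.add_const I)
    have h3 : DifferentiableAt ℂ (fun z : ℂ => Complex.exp (-(ε : ℂ) * pw gp (z + I))) ζ :=
      (h2.const_mul (-(ε : ℂ))).cexp
    exact (hd ζ h).mul h3
  obtain ⟨M, hM⟩ := bound (A := A) (B := B) hg hg1 hgg (mul_pos hε hcos)
  have hbd : ∀ ζ : ℂ, 0 ≤ ζ.im → ‖Ge G gp ε ζ‖ ≤ M := by
    intro ζ h
    rw [norm_Ge]
    have h1 : Real.exp (-(ε * (pw gp (ζ + I)).re)) ≤ Real.exp (-(ε * c * ‖ζ‖ ^ gp)) := by
      apply Real.exp_le_exp.2
      have := mul_le_mul_of_nonneg_left (hre ζ h) hε.le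
      linarith
    have h2 : 0 ≤ A * (1 + ‖ζ‖) ^ 2 * Real.exp (B * ‖ζ‖ ^ g) := (norm_nonneg _).trans (hb ζ h)
    calc ‖G ζ‖ * Real.exp (-(ε * (pw gp (ζ + I)).re))
        ≤ A * (1 + ‖ζ‖) ^ 2 * Real.exp (B * ‖ζ‖ ^ g) * Real.exp (-(ε * c * ‖ζ‖ ^ gp)) :=
          mul_le_mul (hb ζ h) h1 (Real.exp_pos _).le h2
      _ ≤ M := hM ‖ζ‖ (norm_nonneg _)
  have hle : ∀ ζ : ℂ, 0 ≤ ζ.im → ‖Ge G gp ε ζ‖ ≤ ‖G ζ‖ := by
    intro ζ h
    rw [norm_Ge]
    have h1 : Real.exp (-(ε * (pw gp (ζ + I)).re)) ≤ 1 := by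
      apply Real.exp_le_one_iff.2
      have := mul_nonneg hε.le (hre0 ζ h)
      linarith
    calc _ ≤ ‖G ζ‖ * 1 := mul_le_mul_of_nonneg_left h1 (norm_nonneg _)
      _ = _ := mul_one _
  have hgrow : ∀ ζ : ℂ, 0 ≤ ζ.im →
      ‖Ge G gp ε ζ‖ ≤ A * (1 + ‖ζ‖) ^ 2 * Real.exp (B * ‖ζ‖ ^ g) := fun ζ h =>
    (hle ζ h).trans (hb ζ h)
  have him0 : ∀ t : ℝ, 0 ≤ ((t : ℝ) : ℂ).im := fun t => by simp
  have hM0 : 0 ≤ M := (norm_nonneg _).trans (hbd ((0 : ℝ) : ℂ) (him0 0))
  set k : ℝ → ℝ≥0∞ := fun t => ENNReal.ofReal (y / ((s - t) ^ 2 + y ^ 2)) with hk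
  have hkm : Measurable k := by
    apply Measurable.ennreal_ofReal
    fun_prop
  set K0 : ℝ≥0∞ := ∫⁻ t : ℝ, k t * ENNReal.ofReal M with hK0
  have hK0f : K0 ≠ ∞ := by
    rw [hK0, lintegral_mul_const' _ _ ENNReal.ofReal_ne_top]
    apply ENNReal.mul_ne_top _ ENNReal.ofReal_ne_top
    have h1 : Integrable (fun t : ℝ => y * (1 / ((s - t) ^ 2 + y ^ 2))) volume :=
      (integrable_kernel hy).const_mul y
    have h3 : ∫⁻ t : ℝ, k t = ∫⁻ t : ℝ, ENNReal.ofReal (y * (1 / ((s - t) ^ 2 + y ^ 2))) := by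
      refine lintegral_congr fun t => ?_
      simp only [hk]
      congr 1
      ring
    rw [h3]
    exact h1.lintegral_lt_top.ne
  set R : ℝ≥0∞ := ∫⁻ t : ℝ, k t * ENNReal.ofReal (‖G t‖ * Real.exp (v t)) with hR
  have hstep : ∀ N : ℕ, ENNReal.ofReal (‖Ge G gp ε (s + y * I)‖ *
      Real.exp (poisson (tr v N) s y)) ≤ R + ENNReal.ofReal (Real.exp (-(N : ℝ))) * K0 := by
    intro N
    refine (h2 g A B N (Ge G gp ε) (tr v N) hg hg1 hdiff hgrow (meas_tr hv N) (abs_tr_le v N)
      s y hy).trans ?_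
    rw [hR, hK0, ← lintegral_const_mul' _ _ ENNReal.ofReal_ne_top,
      ← lintegral_add_right _ ((hkm.mul_const _).const_mul _)]
    refine lintegral_mono fun t => ?_
    simp only
    have h5 : ‖Ge G gp ε t‖ * Real.exp (tr v N t) ≤
        ‖G t‖ * Real.exp (v t) + Real.exp (-(N : ℝ)) * M := by
      calc ‖Ge G gp ε t‖ * Real.exp (tr v N t)
          ≤ ‖Ge G gp ε t‖ * (Real.exp (v t) + Real.exp (-(N : ℝ))) :=
            mul_le_mul_of_nonneg_left (exp_tr_le v N t) (norm_nonneg _)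
        _ = ‖Ge G gp ε t‖ * Real.exp (v t) + Real.exp (-(N : ℝ)) * ‖Ge G gp ε t‖ := by ring
        _ ≤ _ := add_le_add
            (mul_le_mul_of_nonneg_right (hle t (him0 t)) (Real.exp_pos _).le)
            (mul_le_mul_of_nonneg_left (hbd t (him0 t)) (Real.exp_pos _).le)
    calc _ ≤ k t * ENNReal.ofReal (‖G t‖ * Real.exp (v t) + Real.exp (-(N : ℝ)) * M) :=
          mul_le_mul' le_rfl (ENNReal.ofReal_le_ofReal h5)
      _ = k t * (ENNReal.ofReal (‖G t‖ * Real.exp (v t)) +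
            ENNReal.ofReal (Real.exp (-(N : ℝ))) * ENNReal.ofReal M) := by
          rw [ENNReal.ofReal_add (by positivity) (by positivity),
            ENNReal.ofReal_mul (Real.exp_pos _).le]
      _ = _ := by ring
  have hL : Tendsto (fun N : ℕ => ENNReal.ofReal (‖Ge G gp ε (s + y * I)‖ *
      Real.exp (poisson (tr v N) s y))) atTop
      (𝓝 (ENNReal.ofReal (‖Ge G gp ε (s + y * I)‖ * Real.exp (poisson v s y)))) := by
    apply (ENNReal.continuous_ofReal.tendsto _).comp
    exact (((Real.continuous_exp.tendsto _).comp (tendsto_poisson hv hy)).const_mul _)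
  have hE : Tendsto (fun N : ℕ => R + ENNReal.ofReal (Real.exp (-(N : ℝ))) * K0) atTop
      (𝓝 (R + 0 * K0)) := by
    apply Tendsto.const_add
    apply ENNReal.Tendsto.mul_const _ (Or.inr hK0f)
    rw [← ENNReal.ofReal_zero]
    apply (ENNReal.continuous_ofReal.tendsto _).comp
    exact (Real.tendsto_exp_neg_atTop_nhds_zero).comp tendsto_natCast_atTop_atTop
  rw [zero_mul, add_zero] at hE
  exact le_of_tendsto_of_tendsto' hL hE hstep

end Sm

theorem stSm (h2 : StSm2) : StSm := by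
  intro g A B G v hg hg1 hd hb hv s y hy
  have hcont : Continuous (fun ε : ℝ => ENNReal.ofReal
      (‖Thr.PL.Ge G ((1 + g) / 2) ε (s + y * I)‖ * Real.exp (poisson v s y))) := by
    unfold Thr.PL.Ge
    apply ENNReal.continuous_ofReal.comp
    fun_prop
  have h0 : ENNReal.ofReal (‖Thr.PL.Ge G ((1 + g) / 2) 0 (s + y * I)‖ *
      Real.exp (poisson v s y)) = ENNReal.ofReal (‖G (s + y * I)‖ * Real.exp (poisson v s y)) := by
    unfold Thr.PL.Ge
    simp
  have ht : Tendsto (fun ε : ℝ => ENNReal.ofReal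
      (‖Thr.PL.Ge G ((1 + g) / 2) ε (s + y * I)‖ * Real.exp (poisson v s y)))
      (𝓝[>] 0) (𝓝 (ENNReal.ofReal (‖G (s + y * I)‖ * Real.exp (poisson v s y)))) := by
    rw [← h0]
    exact (hcont.tendsto 0).mono_left nhdsWithin_le_nhds
  refine le_of_tendsto ht ?_
  filter_upwards [self_mem_nhdsWithin] with ε hε
  exact Sm.main_le h2 hg hg1 hd hb hv hy hε

end Pool.Agent.Work.MP_055a27_an.Crit

end

section

/-!
# Smirnov type maximum principle, bounded continuous exponent
-/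

open MeasureTheory Set Filter Topology Complex Metric
open scoped ENNReal NNReal

namespace Pool.Agent.Work.MP_055a27_an.Crit

open Pool.Agent.Work.MP_055a27_an.Thr (hlM StHL StPois StPL StGrow StBd)

namespace Sm1

/-- The Poisson integral after scaling. -/
lemma poisson_scaled (u : ℝ → ℝ) (t : ℝ) {ε : ℝ} (hε : 0 < ε) :
    poisson u t ε = (1 / Real.pi) * ∫ v : ℝ, u (t - ε * v) * (1 + v ^ 2)⁻¹ := by
  unfold poisson
  congr 1
  have h := Measure.integral_comp_mul_left (fun x : ℝ => ε * u (t - x) / (x ^ 2 + ε ^ 2)) ε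
  have h1 : ∫ v : ℝ, ε * u (t - ε * v) / ((ε * v) ^ 2 + ε ^ 2) =
      ε⁻¹ * ∫ v : ℝ, u (t - ε * v) * (1 + v ^ 2)⁻¹ := by
    rw [← integral_const_mul]
    refine integral_congr_ae (Eventually.of_forall fun v => ?_)
    have : (ε * v) ^ 2 + ε ^ 2 ≠ 0 := by positivity
    have : 1 + v ^ 2 ≠ 0 := by positivity
    field_simp
    ring
  rw [h1, abs_of_pos (inv_pos.mpr hε), smul_eq_mul] at h
  exact (mul_left_cancel₀ (inv_pos.mpr hε).ne' h).symm

lemma abs_poisson_le {u : ℝ → ℝ} {M : ℝ} (hb : ∀ t, |u t| ≤ M) (t : ℝ)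
    {ε : ℝ} (hε : 0 < ε) : |poisson u t ε| ≤ M := by
  rw [poisson_scaled u t hε, abs_mul, abs_of_pos (by positivity : 0 < 1 / Real.pi)]
  have h1 : |∫ v : ℝ, u (t - ε * v) * (1 + v ^ 2)⁻¹| ≤ ∫ v : ℝ, M * (1 + v ^ 2)⁻¹ := by
    rw [← Real.norm_eq_abs]
    refine norm_integral_le_of_norm_le (integrable_inv_one_add_sq.const_mul M)
      (Eventually.of_forall fun v => ?_)
    rw [Real.norm_eq_abs, abs_mul, abs_of_pos (by positivity : 0 < (1 + v ^ 2)⁻¹)]
    exact mul_le_mul_of_nonneg_right (hb _) (by positivity)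
  rw [integral_const_mul, integral_univ_inv_one_add_sq] at h1
  calc 1 / Real.pi * |∫ v : ℝ, u (t - ε * v) * (1 + v ^ 2)⁻¹| ≤ 1 / Real.pi * (M * Real.pi) :=
        mul_le_mul_of_nonneg_left h1 (by positivity)
    _ = M := by
      have := Real.pi_ne_zero
      field_simp

lemma tendsto_poisson {u : ℝ → ℝ} {M : ℝ} (hc : Continuous u) (hb : ∀ t, |u t| ≤ M) (t : ℝ) :
    Tendsto (fun n : ℕ => poisson u t (1 / ((n : ℝ) + 1))) atTop (𝓝 (u t)) := by
  have h0 : u t = (1 / Real.pi) * ∫ v : ℝ, u t * (1 + v ^ 2)⁻¹ := by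
    rw [integral_const_mul, integral_univ_inv_one_add_sq]
    have := Real.pi_ne_zero
    field_simp
  have h1 : (fun n : ℕ => poisson u t (1 / ((n : ℝ) + 1))) =
      fun n : ℕ => (1 / Real.pi) * ∫ v : ℝ, u (t - 1 / ((n : ℝ) + 1) * v) * (1 + v ^ 2)⁻¹ := by
    funext n
    exact poisson_scaled u t Nat.one_div_pos_of_nat
  rw [h1, h0]
  refine Tendsto.const_mul _ ?_
  refine tendsto_integral_of_dominated_convergence (fun v : ℝ => M * (1 + v ^ 2)⁻¹) ?_
    (integrable_inv_one_add_sq.const_mul M) ?_ ?_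
  · intro n
    refine Continuous.aestronglyMeasurable ?_
    refine Continuous.mul (by fun_prop) ?_
    exact Continuous.inv₀ (by fun_prop) fun v => by positivity
  · intro n
    refine Eventually.of_forall fun v => ?_
    rw [Real.norm_eq_abs, abs_mul, abs_of_pos (by positivity : 0 < (1 + v ^ 2)⁻¹)]
    exact mul_le_mul_of_nonneg_right (hb _) (by positivity)
  · refine Eventually.of_forall fun v => ?_
    refine Tendsto.mul_const _ ?_
    have h2 : Tendsto (fun n : ℕ => t - 1 / ((n : ℝ) + 1) * v) atTop (𝓝 (t - 0 * v)) :=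
      (tendsto_one_div_add_atTop_nhds_zero_nat.mul_const v).const_sub t
    rw [zero_mul, sub_zero] at h2
    exact (hc.tendsto t).comp h2

/-- Continuity of the Poisson integral from above. -/
lemma tendsto_poisson_shift {u : ℝ → ℝ} (ha : Admissible u) (s : ℝ) {y : ℝ} (hy : 0 < y) :
    Tendsto (fun n : ℕ => poisson u s (y + 1 / ((n : ℝ) + 1))) atTop (𝓝 (poisson u s y)) := by
  have hw : 0 < ((s : ℂ) + y * I).im := by simp [hy]
  have h1 : ContinuousAt (schw u) (s + y * I) := (hasDerivAt_schw ha hw).continuousAt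
  have h2 : ∀ n : ℕ, poisson u s (y + 1 / ((n : ℝ) + 1)) =
      (schw u (s + ((y + 1 / ((n : ℝ) + 1) : ℝ) : ℂ) * I)).re := by
    intro n
    have h3 : 0 < 1 / ((n : ℝ) + 1) := Nat.one_div_pos_of_nat
    exact poisson_eq_re ha (by linarith)
  simp_rw [h2]
  rw [poisson_eq_re ha hy]
  refine (Complex.continuous_re.tendsto _).comp (h1.tendsto.comp ?_)
  have h3 : Tendsto (fun n : ℕ => y + 1 / ((n : ℝ) + 1)) atTop (𝓝 (y + 0)) :=
    tendsto_one_div_add_atTop_nhds_zero_nat.const_add y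
  rw [add_zero] at h3
  exact (((Complex.continuous_ofReal.tendsto y).comp h3).mul_const I).const_add (s : ℂ)

end Sm1

theorem stSm1 (hPL : StPL) : StSm1 := by
  intro g A B M G u hg0 hg1 hd hgr hc hb s y hy
  have hM : 0 ≤ M := le_trans (abs_nonneg _) (hb 0)
  have ha : Admissible u := admissible_of_bounded hc.aestronglyMeasurable hb
  -- the approximating inequality
  have key : ∀ ε : ℝ, 0 < ε →
      ENNReal.ofReal (‖G (s + y * I)‖ * Real.exp (poisson u s (y + ε))) ≤
        ∫⁻ t : ℝ, ENNReal.ofReal (y / ((s - t) ^ 2 + y ^ 2)) *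
          ENNReal.ofReal (‖G t‖ * Real.exp (poisson u t ε)) := by
    intro ε hε
    have hnorm : ∀ a b : ℝ, 0 ≤ b →
        ‖G (a + b * I) * Complex.exp (schw u (a + b * I + ε * I))‖ =
          ‖G (a + b * I)‖ * Real.exp (poisson u a (b + ε)) := by
      intro a b hb0
      rw [norm_mul, Complex.norm_exp]
      have h1 : (a : ℂ) + b * I + ε * I = a + ((b + ε : ℝ) : ℂ) * I := by
        push_cast
        ring
      rw [h1, schw_re ha (by linarith)]
    have h1 := hPL g (Real.exp M * A) B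
      (fun ζ => G ζ * Complex.exp (schw u (ζ + ε * I))) hg0 hg1 ?_ ?_ s y hy
    · rw [hnorm s y hy.le] at h1
      refine h1.trans (le_of_eq ?_)
      refine lintegral_congr fun t => ?_
      have h2 := hnorm t 0 le_rfl
      rw [zero_add] at h2
      have h3 : (t : ℂ) + ((0 : ℝ) : ℂ) * I = t := by simp
      rw [h3] at h2
      rw [h2]
    · intro ζ hζ
      have him : 0 < (ζ + ε * I).im := by
        simp
        linarith
      refine (hd ζ hζ).mul ?_
      refine DifferentiableAt.cexp ?_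
      exact DifferentiableAt.comp (g := schw u) (f := fun ζ : ℂ => ζ + ε * I) ζ
        (hasDerivAt_schw ha him).differentiableAt (by fun_prop)
    · intro ζ hζ
      have h2 := hnorm ζ.re ζ.im hζ
      rw [Complex.re_add_im] at h2
      show ‖G ζ * Complex.exp (schw u (ζ + ε * I))‖ ≤ _
      rw [h2]
      have h3 : Real.exp (poisson u ζ.re (ζ.im + ε)) ≤ Real.exp M :=
        Real.exp_le_exp.mpr (le_trans (le_abs_self _) (Sm1.abs_poisson_le hb _ (by linarith)))
      calc ‖G ζ‖ * Real.exp (poisson u ζ.re (ζ.im + ε))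
          ≤ (A * (1 + ‖ζ‖) ^ 2 * Real.exp (B * ‖ζ‖ ^ g)) * Real.exp M :=
            mul_le_mul (hgr ζ hζ) h3 (Real.exp_pos _).le (le_trans (norm_nonneg _) (hgr ζ hζ))
        _ = Real.exp M * A * (1 + ‖ζ‖) ^ 2 * Real.exp (B * ‖ζ‖ ^ g) := by ring
  -- continuity of the kernel and of G on the line
  have hGc : Continuous (fun t : ℝ => G t) := by
    rw [continuous_iff_continuousAt]
    intro t
    have := (hd t (by simp)).continuousAt
    exact ContinuousAt.comp (f := fun t : ℝ => (t : ℂ)) this Complex.continuous_ofReal.continuousAt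
  have hkm : Measurable (fun t : ℝ => ENNReal.ofReal (y / ((s - t) ^ 2 + y ^ 2))) := by
    refine ENNReal.measurable_ofReal.comp ?_
    fun_prop
  by_cases hinf : ∫⁻ t : ℝ, ENNReal.ofReal (y / ((s - t) ^ 2 + y ^ 2)) * ENNReal.ofReal ‖G t‖ = ∞
  · have h1 : ENNReal.ofReal (Real.exp (-M)) *
        ∫⁻ t : ℝ, ENNReal.ofReal (y / ((s - t) ^ 2 + y ^ 2)) * ENNReal.ofReal ‖G t‖ ≤
        ∫⁻ t : ℝ, ENNReal.ofReal (y / ((s - t) ^ 2 + y ^ 2)) *
          ENNReal.ofReal (‖G t‖ * Real.exp (u t)) := by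
      rw [← lintegral_const_mul' _ _ ENNReal.ofReal_ne_top]
      refine lintegral_mono fun t => ?_
      show ENNReal.ofReal (Real.exp (-M)) * (ENNReal.ofReal (y / ((s - t) ^ 2 + y ^ 2)) *
        ENNReal.ofReal ‖G t‖) ≤ _
      have h2 : ENNReal.ofReal (Real.exp (-M)) ≤ ENNReal.ofReal (Real.exp (u t)) :=
        ENNReal.ofReal_le_ofReal (Real.exp_le_exp.mpr (by
          have := (abs_le.mp (hb t)).1
          linarith))
      rw [ENNReal.ofReal_mul (norm_nonneg _)]
      calc ENNReal.ofReal (Real.exp (-M)) * (ENNReal.ofReal (y / ((s - t) ^ 2 + y ^ 2)) *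
            ENNReal.ofReal ‖G t‖)
          = ENNReal.ofReal (y / ((s - t) ^ 2 + y ^ 2)) *
            (ENNReal.ofReal ‖G t‖ * ENNReal.ofReal (Real.exp (-M))) := by ring
        _ ≤ _ := by gcongr
    rw [hinf, ENNReal.mul_top (by
      rw [Ne, ENNReal.ofReal_eq_zero, not_le]
      exact Real.exp_pos _)] at h1
    exact le_trans le_top h1
  · refine le_of_tendsto_of_tendsto (f := fun n : ℕ =>
      ENNReal.ofReal (‖G (s + y * I)‖ * Real.exp (poisson u s (y + 1 / ((n : ℝ) + 1)))))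
      (g := fun n : ℕ => ∫⁻ t : ℝ, ENNReal.ofReal (y / ((s - t) ^ 2 + y ^ 2)) *
          ENNReal.ofReal (‖G t‖ * Real.exp (poisson u t (1 / ((n : ℝ) + 1))))) (b := atTop)
      ?_ ?_ (Eventually.of_forall fun n => key _ Nat.one_div_pos_of_nat)
    · refine (ENNReal.continuous_ofReal.tendsto _).comp ?_
      exact ((Real.continuous_exp.tendsto _).comp
        (Sm1.tendsto_poisson_shift ha s hy)).const_mul _
    · refine tendsto_lintegral_of_dominated_convergence'
        (fun t : ℝ => ENNReal.ofReal (Real.exp M) *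
          (ENNReal.ofReal (y / ((s - t) ^ 2 + y ^ 2)) * ENNReal.ofReal ‖G t‖)) ?_ ?_ ?_ ?_
      · intro n
        have hε : 0 < 1 / ((n : ℝ) + 1) := Nat.one_div_pos_of_nat
        refine Measurable.aemeasurable ?_
        refine hkm.mul (ENNReal.measurable_ofReal.comp ?_)
        refine Continuous.measurable ?_
        refine hGc.norm.mul (Real.continuous_exp.comp ?_)
        have h2 : (fun t : ℝ => poisson u t (1 / ((n : ℝ) + 1))) =
            fun t : ℝ => (schw u (t + ((1 / ((n : ℝ) + 1) : ℝ) : ℂ) * I)).re := by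
          funext t
          exact poisson_eq_re ha hε
        rw [h2]
        refine Complex.continuous_re.comp ?_
        rw [continuous_iff_continuousAt]
        intro t
        have hw : 0 < ((t : ℂ) + ((1 / ((n : ℝ) + 1) : ℝ) : ℂ) * I).im := by
          simp only [add_im, ofReal_im, mul_im, ofReal_re, I_im, I_re, mul_one, mul_zero, add_zero,
            zero_add]
          exact hε
        exact ContinuousAt.comp (g := schw u)
          (f := fun t : ℝ => (t : ℂ) + ((1 / ((n : ℝ) + 1) : ℝ) : ℂ) * I)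
          (hasDerivAt_schw ha hw).continuousAt (by fun_prop)
      · intro n
        refine Eventually.of_forall fun t => ?_
        have hε : 0 < 1 / ((n : ℝ) + 1) := Nat.one_div_pos_of_nat
        have h3 : ENNReal.ofReal (Real.exp (poisson u t (1 / ((n : ℝ) + 1)))) ≤
            ENNReal.ofReal (Real.exp M) :=
          ENNReal.ofReal_le_ofReal (Real.exp_le_exp.mpr
            (le_trans (le_abs_self _) (Sm1.abs_poisson_le hb _ hε)))
        show ENNReal.ofReal (y / ((s - t) ^ 2 + y ^ 2)) *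
          ENNReal.ofReal (‖G t‖ * Real.exp (poisson u t (1 / ((n : ℝ) + 1)))) ≤ _
        rw [ENNReal.ofReal_mul (norm_nonneg _)]
        calc ENNReal.ofReal (y / ((s - t) ^ 2 + y ^ 2)) * (ENNReal.ofReal ‖G t‖ *
              ENNReal.ofReal (Real.exp (poisson u t (1 / ((n : ℝ) + 1)))))
            ≤ ENNReal.ofReal (y / ((s - t) ^ 2 + y ^ 2)) * (ENNReal.ofReal ‖G t‖ *
              ENNReal.ofReal (Real.exp M)) := by gcongr
          _ = _ := by ring
      · rw [lintegral_const_mul' _ _ ENNReal.ofReal_ne_top]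
        exact ENNReal.mul_ne_top ENNReal.ofReal_ne_top hinf
      · refine Eventually.of_forall fun t => ?_
        refine ENNReal.Tendsto.const_mul ?_ (Or.inr ENNReal.ofReal_ne_top)
        refine (ENNReal.continuous_ofReal.tendsto _).comp ?_
        exact ((Real.continuous_exp.tendsto _).comp (Sm1.tendsto_poisson hc hb t)).const_mul _

end Pool.Agent.Work.MP_055a27_an.Crit

end

section

/-! Project MP_055a27_an, module Crit, item Sm2: Smirnov type maximum principle with a bounded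
measurable exponent. -/

set_option autoImplicit false

open MeasureTheory Set Filter Topology Complex Metric
open scoped ENNReal NNReal

namespace Pool.Agent.Work.MP_055a27_an.Crit

namespace Sm2

/-- bounded measurable functions are limits a.e. of continuous functions with the same bound -/
lemma approx {u : ℝ → ℝ} {M : ℝ} (hu : AEStronglyMeasurable u volume) (hM : ∀ t, |u t| ≤ M) :
    ∃ v : ℕ → ℝ → ℝ, (∀ n, Continuous (v n)) ∧ (∀ n t, |v n t| ≤ M) ∧
      ∀ᵐ t, Tendsto (fun n => v n t) atTop (𝓝 (u t)) := by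
  have hloc : LocallyIntegrable u volume := by
    have h1 : LocallyIntegrable (fun _ : ℝ => M) volume := locallyIntegrable_const M
    refine h1.mono hu (Eventually.of_forall fun t => ?_)
    rw [Real.norm_eq_abs, Real.norm_eq_abs]
    exact (hM t).trans (le_abs_self M)
  have hint : ∀ a b : ℝ, IntervalIntegrable u volume a b := fun a b =>
    intervalIntegrable_iff.2 ((hloc.integrableOn_isCompact isCompact_uIcc).mono_set
      uIoc_subset_uIcc)
  set F : ℝ → ℝ := fun x => ∫ t in (0 : ℝ)..x, u t with hF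
  have hFc : Continuous F := intervalIntegral.continuous_primitive hint 0
  have hsub : ∀ a b : ℝ, F b - F a = ∫ t in a..b, u t := fun a b =>
    intervalIntegral.integral_interval_sub_left (hint 0 b) (hint 0 a)
  have hh : ∀ n : ℕ, (0 : ℝ) < 1 / ((n : ℝ) + 1) := fun n => by positivity
  refine ⟨fun n t => (1 / ((n : ℝ) + 1))⁻¹ * (F (t + 1 / ((n : ℝ) + 1)) - F t), ?_, ?_, ?_⟩
  · intro n
    exact continuous_const.mul ((hFc.comp (continuous_id.add continuous_const)).sub hFc)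
  · intro n t
    simp only
    rw [hsub, abs_mul, abs_of_pos (inv_pos.2 (hh n))]
    have h1 : |∫ s in t..(t + 1 / ((n : ℝ) + 1)), u s| ≤ M * |t + 1 / ((n : ℝ) + 1) - t| := by
      rw [← Real.norm_eq_abs]
      apply intervalIntegral.norm_integral_le_of_norm_le_const
      intro s _
      rw [Real.norm_eq_abs]
      exact hM s
    rw [add_sub_cancel_left, abs_of_pos (hh n)] at h1
    calc (1 / ((n : ℝ) + 1))⁻¹ * |∫ s in t..(t + 1 / ((n : ℝ) + 1)), u s|
        ≤ (1 / ((n : ℝ) + 1))⁻¹ * (M * (1 / ((n : ℝ) + 1))) :=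
          mul_le_mul_of_nonneg_left h1 (inv_pos.2 (hh n)).le
      _ = M := by field_simp
  · filter_upwards [_root_.LocallyIntegrable.ae_hasDerivAt_integral hloc] with t ht
    have h1 := (hasDerivAt_iff_tendsto_slope_zero.1 (ht 0))
    have h2 : Tendsto (fun n : ℕ => 1 / ((n : ℝ) + 1)) atTop (𝓝[≠] 0) := by
      rw [tendsto_nhdsWithin_iff]
      refine ⟨tendsto_one_div_add_atTop_nhds_zero_nat, Eventually.of_forall fun n => ?_⟩
      exact (hh n).ne'
    have h3 := h1.comp h2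
    refine h3.congr fun n => ?_
    simp only [Function.comp_apply, smul_eq_mul]
    rfl

end Sm2

theorem stSm2 (h1 : StSm1) : StSm2 := by
  intro g A B M G u hg0 hg1 hG hgrow hu hM s y hy
  obtain ⟨v, hvc, hvM, hv⟩ := Sm2.approx hu hM
  have hGc : Continuous (fun t : ℝ => ‖G t‖) := by
    apply Continuous.norm
    rw [continuous_iff_continuousAt]
    intro t
    exact ContinuousAt.comp (f := fun t : ℝ => (t : ℂ)) (g := G)
      (hG (t : ℂ) (by simp)).continuousAt Complex.continuous_ofReal.continuousAt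
  have hM0 : 0 ≤ M := (abs_nonneg _).trans (hM 0)
  set k : ℝ → ℝ≥0∞ := fun t => ENNReal.ofReal (y / ((s - t) ^ 2 + y ^ 2)) with hk
  have hkc : Measurable k := by
    apply Measurable.ennreal_ofReal
    fun_prop
  by_cases htop : ∫⁻ t : ℝ, k t * ENNReal.ofReal (‖G t‖ * Real.exp M) = ∞
  · have h2 : ∫⁻ t : ℝ, k t * ENNReal.ofReal (‖G t‖ * Real.exp M) ≤
        ENNReal.ofReal (Real.exp (2 * M)) *
          ∫⁻ t : ℝ, k t * ENNReal.ofReal (‖G t‖ * Real.exp (u t)) := by
      rw [← lintegral_const_mul' _ _ ENNReal.ofReal_ne_top]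
      apply lintegral_mono
      intro t
      simp only
      rw [mul_left_comm, ← ENNReal.ofReal_mul (Real.exp_pos _).le]
      apply mul_le_mul' le_rfl
      apply ENNReal.ofReal_le_ofReal
      have h3 : Real.exp M ≤ Real.exp (2 * M) * Real.exp (u t) := by
        rw [← Real.exp_add]
        apply Real.exp_le_exp.2
        have := (abs_le.1 (hM t)).1
        linarith
      calc ‖G t‖ * Real.exp M ≤ ‖G t‖ * (Real.exp (2 * M) * Real.exp (u t)) :=
            mul_le_mul_of_nonneg_left h3 (norm_nonneg _)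
        _ = Real.exp (2 * M) * (‖G t‖ * Real.exp (u t)) := by ring
    rw [htop, top_le_iff] at h2
    have h3 : ∫⁻ t : ℝ, k t * ENNReal.ofReal (‖G t‖ * Real.exp (u t)) = ∞ := by
      by_contra hcon
      exact ENNReal.mul_ne_top ENNReal.ofReal_ne_top hcon h2
    rw [h3]
    exact le_top
  · have hR : Tendsto (fun n => ∫⁻ t : ℝ, k t * ENNReal.ofReal (‖G t‖ * Real.exp (v n t))) atTop
        (𝓝 (∫⁻ t : ℝ, k t * ENNReal.ofReal (‖G t‖ * Real.exp (u t)))) := by
      refine tendsto_lintegral_of_dominated_convergence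
        (fun t => k t * ENNReal.ofReal (‖G t‖ * Real.exp M)) ?_ ?_ htop ?_
      · intro n
        apply hkc.mul
        apply Measurable.ennreal_ofReal
        exact (hGc.mul (Real.continuous_exp.comp (hvc n))).measurable
      · intro n
        refine Eventually.of_forall fun t => ?_
        apply mul_le_mul' le_rfl
        apply ENNReal.ofReal_le_ofReal
        apply mul_le_mul_of_nonneg_left _ (norm_nonneg _)
        exact Real.exp_le_exp.2 ((le_abs_self _).trans (hvM n t))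
      · filter_upwards [hv] with t ht
        apply ENNReal.Tendsto.const_mul
        · apply (ENNReal.continuous_ofReal.tendsto _).comp
          exact (((Real.continuous_exp.tendsto _).comp ht).const_mul _)
        · right
          exact ENNReal.ofReal_ne_top
    have hL : Tendsto (fun n => poisson (v n) s y) atTop (𝓝 (poisson u s y)) := by
      have e1 : ∀ f : ℝ → ℝ, poisson f s y =
          (1 / Real.pi) * ∫ t : ℝ, y * f (s - t) / (t ^ 2 + y ^ 2) := fun f => rfl
      rw [e1 u]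
      simp only [e1]
      apply Tendsto.const_mul
      have hint : Integrable (fun t : ℝ => y * M * (1 / ((0 - t) ^ 2 + y ^ 2))) volume :=
        (integrable_kernel (z := 0) hy).const_mul _
      apply tendsto_integral_of_dominated_convergence _ _ hint
      · intro n
        refine Eventually.of_forall fun t => ?_
        have hpos : 0 < t ^ 2 + y ^ 2 := by positivity
        rw [Real.norm_eq_abs, abs_div, abs_mul, abs_of_pos hy, abs_of_pos hpos]
        calc y * |v n (s - t)| / (t ^ 2 + y ^ 2) ≤ y * M / (t ^ 2 + y ^ 2) := by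
              apply div_le_div_of_nonneg_right _ hpos.le
              exact mul_le_mul_of_nonneg_left (hvM n _) hy.le
          _ = y * M * (1 / ((0 - t) ^ 2 + y ^ 2)) := by ring
      · have h2 : ∀ᵐ t : ℝ, Tendsto (fun n => v n (s - t)) atTop (𝓝 (u (s - t))) := by
          have := (Measure.measurePreserving_sub_left volume s).quasiMeasurePreserving.ae hv
          exact this
        filter_upwards [h2] with t ht
        exact (ht.const_mul y).div_const _
      · intro n
        apply Continuous.aestronglyMeasurable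
        have hden : ∀ t : ℝ, t ^ 2 + y ^ 2 ≠ 0 := fun t => by positivity
        exact (continuous_const.mul ((hvc n).comp (continuous_const.sub continuous_id))).div
          (by fun_prop) hden
    have hL2 : Tendsto (fun n => ENNReal.ofReal (‖G (s + y * I)‖ *
        Real.exp (poisson (v n) s y))) atTop
        (𝓝 (ENNReal.ofReal (‖G (s + y * I)‖ * Real.exp (poisson u s y)))) := by
      apply (ENNReal.continuous_ofReal.tendsto _).comp
      exact (((Real.continuous_exp.tendsto _).comp hL).const_mul _)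
    exact le_of_tendsto_of_tendsto' hL2 hR
      (fun n => h1 g A B M G (v n) hg0 hg1 hG hgrow (hvc n) (hvM n) s y hy)

end Pool.Agent.Work.MP_055a27_an.Crit

end

section

/-!
# The test functions are admissible
-/

open MeasureTheory Set Filter Topology Complex Metric
open scoped ENNReal NNReal

namespace Pool.Agent.Work.MP_055a27_an.Crit

namespace TF

lemma integrable_pk {f : ℝ → ℝ} (hf : Admissible f) {z y : ℝ} (hy : 0 < y) :
    Integrable (fun t : ℝ => y * f t / ((z - t) ^ 2 + y ^ 2)) volume := by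
  set w : ℂ := z + y * I with hw
  have hwim : w.im = y := by simp [hw]
  set C : ℝ := 2 + (1 + 2 * ‖w‖ ^ 2) / y ^ 2 with hC
  have hn : ∀ t : ℝ, ‖w - (t : ℂ)‖ ^ 2 = (z - t) ^ 2 + y ^ 2 := by
    intro t
    rw [← Complex.normSq_eq_norm_sq, Complex.normSq_apply]
    simp [hw]
    ring
  have hb : ∀ t : ℝ, ‖y * (1 + t ^ 2) / ((z - t) ^ 2 + y ^ 2)‖ ≤ y * C := by
    intro t
    have h1 := one_add_sq_le hy (le_of_eq hwim.symm) t
    rw [hn t] at h1
    rw [Real.norm_eq_abs, abs_of_nonneg (by positivity), div_le_iff₀ (by positivity)]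
    calc y * (1 + t ^ 2) ≤ y * ((2 + (1 + 2 * ‖w‖ ^ 2) / y ^ 2) * ((z - t) ^ 2 + y ^ 2)) :=
          mul_le_mul_of_nonneg_left h1 hy.le
      _ = _ := by rw [hC]; ring
  have hf' : Integrable (fun t : ℝ => f t / (1 + t ^ 2)) volume := hf
  refine (hf'.mul_bdd (c := y * C) (g := fun t : ℝ => y * (1 + t ^ 2) / ((z - t) ^ 2 + y ^ 2))
    ?_ (Eventually.of_forall hb)).congr (Eventually.of_forall fun t => ?_)
  · refine Measurable.aestronglyMeasurable ?_
    fun_prop
  · have h1 : (1 + t ^ 2 : ℝ) ≠ 0 := by positivity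
    have h2 : (z - t) ^ 2 + y ^ 2 ≠ 0 := by positivity
    simp only
    field_simp

/-- Lower bound for the Poisson integral. -/
lemma le_poisson {f : ℝ → ℝ} (hf : Admissible f) {M : ℝ} (hM : ∀ t, -M ≤ f t) {z y : ℝ}
    (hy : 0 < y) : -M ≤ poisson f z y := by
  rw [poisson_eq_integral]
  have h1 : ∫ t : ℝ, (-M * y) * (1 / ((z - t) ^ 2 + y ^ 2)) ≤
      ∫ t : ℝ, y * f t / ((z - t) ^ 2 + y ^ 2) := by
    refine integral_mono ((integrable_kernel hy).const_mul _) (integrable_pk hf hy) fun t => ?_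
    show (-M * y) * (1 / ((z - t) ^ 2 + y ^ 2)) ≤ y * f t / ((z - t) ^ 2 + y ^ 2)
    rw [mul_one_div]
    have h2 := mul_le_mul_of_nonneg_left (hM t) hy.le
    have h3 : 0 < (z - t) ^ 2 + y ^ 2 := by positivity
    refine div_le_div_of_nonneg_right ?_ h3.le
    rw [mul_comm]
    exact h2
  rw [integral_const_mul, integral_kernel hy] at h1
  have h2 : -M = 1 / Real.pi * (-M * y * (Real.pi / y)) := by
    have := Real.pi_ne_zero
    field_simp
  calc -M = 1 / Real.pi * (-M * y * (Real.pi / y)) := h2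
    _ ≤ _ := mul_le_mul_of_nonneg_left h1 (by positivity)

lemma admissible_lgT {U : ℝ → ℝ} (hU : Admissible (lg U)) (M : ℝ) : Admissible (lgT U M) := by
  have hm : AEStronglyMeasurable (lgT U M) volume :=
    (adm_measurable hU).sup aestronglyMeasurable_const
  have h1 : Integrable (fun t : ℝ => |lg U t / (1 + t ^ 2)| + |M| * (1 + t ^ 2)⁻¹) volume :=
    (Integrable.abs hU).add (integrable_inv_one_add_sq.const_mul _)
  refine h1.mono' ?_ (Eventually.of_forall fun t => ?_)
  · have h2 : AEStronglyMeasurable (fun t : ℝ => (1 + t ^ 2)⁻¹) volume :=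
      integrable_inv_one_add_sq.aestronglyMeasurable
    refine (hm.mul h2).congr (Eventually.of_forall fun t => ?_)
    simp only [Pi.mul_apply, div_eq_mul_inv]
  · have h2 : (0 : ℝ) < 1 + t ^ 2 := by positivity
    rw [Real.norm_eq_abs, abs_div, abs_div, abs_of_pos h2, ← div_eq_mul_inv, ← add_div]
    refine div_le_div_of_nonneg_right ?_ h2.le
    unfold lgT
    rcases le_total (lg U t) (-M) with h | h
    · rw [max_eq_right h, abs_neg]
      linarith [abs_nonneg (lg U t)]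
    · rw [max_eq_left h]
      linarith [abs_nonneg M]

lemma norm_tF2 {U : ℝ → ℝ} (hU : Admissible (lg U)) {M p ε x0 β : ℝ} (k : ℕ)
    (hε : 0 < ε) (hβ : 0 < β) {z y : ℝ} (hy : 0 ≤ y) :
    ‖tF2 U M p ε x0 β k (z + y * I)‖ =
      Real.exp (-poisson (lgT U M) z (y + ε) / p) *
        (β / ‖(z : ℂ) + y * I - x0 + β * I‖) ^ k := by
  unfold tF2
  rw [norm_mul, norm_tF hβ, Complex.norm_exp]
  congr 2
  have h1 : (z : ℂ) + y * I + ε * I = z + ((y + ε : ℝ) : ℂ) * I := by
    push_cast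
    ring
  rw [h1, Complex.div_ofReal_re, Complex.neg_re, schw_re (admissible_lgT hU M) (by linarith)]

lemma norm_tF2_le {U : ℝ → ℝ} (hU : Admissible (lg U)) {M p ε x0 β : ℝ} (k : ℕ)
    (hp : 0 < p) (hε : 0 < ε) (hβ : 0 < β) {w : ℂ} (hw : 0 ≤ w.im) :
    ‖tF2 U M p ε x0 β k w‖ ≤ Real.exp (M / p) := by
  have h1 := norm_tF2 hU (M := M) (p := p) (ε := ε) (x0 := x0) (β := β) k hε hβ (z := w.re)
    (y := w.im) hw
  rw [Complex.re_add_im] at h1
  rw [h1]
  have h2 : Real.exp (-poisson (lgT U M) w.re (w.im + ε) / p) ≤ Real.exp (M / p) := by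
    refine Real.exp_le_exp.mpr ?_
    refine div_le_div_of_nonneg_right ?_ hp.le
    have := le_poisson (admissible_lgT hU M) (M := M) (fun t => le_max_right _ _) (z := w.re)
      (y := w.im + ε) (by linarith)
    linarith
  have h3 : (β / ‖w - x0 + β * I‖) ^ k ≤ 1 := by
    have := norm_tF_le_one (x0 := x0) hβ (k := k) hw
    rwa [norm_tF hβ] at this
  calc _ ≤ Real.exp (M / p) * 1 := mul_le_mul h2 h3 (by positivity) (Real.exp_pos _).le
    _ = _ := mul_one _

lemma differentiableAt_tF2 {U : ℝ → ℝ} (hU : Admissible (lg U)) {M p ε x0 β : ℝ} (k : ℕ)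
    (hε : 0 < ε) (hβ : 0 < β) {w : ℂ} (hw : 0 ≤ w.im) :
    DifferentiableAt ℂ (tF2 U M p ε x0 β k) w := by
  have him : 0 < (w + ε * I).im := by
    simp
    linarith
  have h1 : DifferentiableAt ℂ (fun w : ℂ => schw (lgT U M) (w + ε * I)) w :=
    DifferentiableAt.comp (g := schw (lgT U M)) (f := fun w : ℂ => w + ε * I) w
      (hasDerivAt_schw (admissible_lgT hU M) him).differentiableAt (by fun_prop)
  have h2 : DifferentiableAt ℂ (fun w : ℂ =>
      Complex.exp (-(schw (lgT U M) (w + ε * I)) / p)) w :=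
    (h1.fun_neg.div_const (p : ℂ)).cexp
  exact h2.fun_mul (hasDerivAt_tF hβ k hw).differentiableAt

end TF

theorem stTF : StTF := by
  intro U M p ε x0 β k hU hp hε hβ
  have hd : ∀ ζ : ℂ, 0 ≤ ζ.im → DifferentiableAt ℂ (tF2 U M p ε x0 β k) ζ := fun ζ hζ =>
    TF.differentiableAt_tF2 hU k hε hβ hζ
  have hb : ∀ ζ : ℂ, 0 ≤ ζ.im → ‖tF2 U M p ε x0 β k ζ‖ ≤ Real.exp (M / p) := fun ζ hζ =>
    TF.norm_tF2_le hU k hp hε hβ hζ
  have hd2 : ∀ ζ : ℂ, 0 ≤ ζ.im → DifferentiableAt ℂ (fun ζ => -I * tF2 U M p ε x0 β k ζ) ζ :=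
    fun ζ hζ => (hd ζ hζ).const_mul _
  have hb2 : ∀ ζ : ℂ, 0 ≤ ζ.im → ‖(fun ζ => -I * tF2 U M p ε x0 β k ζ) ζ‖ ≤ Real.exp (M / p) := by
    intro ζ hζ
    show ‖-I * tF2 U M p ε x0 β k ζ‖ ≤ _
    rw [norm_mul, norm_neg, norm_I, one_mul]
    exact hb ζ hζ
  have him : ∀ w : ℂ, (-I * w).re = w.im := by
    intro w
    simp
  have ha2 := admissible_re hd2 hb2
  simp only [him] at ha2
  refine ⟨admissible_re hd hb, ha2, ?_⟩
  intro z y hy
  have hp2 := poisson_re hd2 hb2 (z := z) hy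
  simp only [him] at hp2
  exact ⟨poisson_re hd hb hy, hp2, TF.norm_tF2 hU k hε hβ hy.le⟩

end Pool.Agent.Work.MP_055a27_an.Crit

end

section

/-! MP_055a27_an, module Thr, item Pois: Poisson averages are bounded by the maximal function
(from the same statement in the module Nv). -/

set_option autoImplicit false

open MeasureTheory Set Filter Topology Complex Metric
open scoped ENNReal NNReal

namespace Pool.Agent.Work.MP_055a27_an.Thr

theorem stPois : StPois := by
  intro β hβ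
  obtain ⟨C, hC⟩ := Nv.I_Pk β hβ
  refine ⟨Real.toNNReal Real.pi * C, fun h x s y hh hy hs => ?_⟩
  have h1 := hC h hh.aemeasurable x s y hy (by rwa [abs_sub_comm])
  rw [HL.hlM_eq]
  have e : ∀ t : ℝ, ENNReal.ofReal (y / ((s - t) ^ 2 + y ^ 2)) * h t =
      ENNReal.ofReal Real.pi * (ENNReal.ofReal (Nv.pk s y t) * h t) := by
    intro t
    rw [← mul_assoc, ← ENNReal.ofReal_mul Real.pi_pos.le]
    congr 2
    unfold Nv.pk
    have := Real.pi_pos
    field_simp
  simp_rw [e]
  rw [lintegral_const_mul' _ _ ENNReal.ofReal_ne_top]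
  calc ENNReal.ofReal Real.pi * ∫⁻ t, ENNReal.ofReal (Nv.pk s y t) * h t
      ≤ ENNReal.ofReal Real.pi * (C * Nv.mx h x) := by gcongr
    _ = ((Real.toNNReal Real.pi * C : ℝ≥0) : ℝ≥0∞) * Nv.mx h x := by
        rw [ENNReal.coe_mul, mul_assoc]; rfl

end Pool.Agent.Work.MP_055a27_an.Thr

end

section

/-!
# Improvement of the aperture on the right side
-/

open MeasureTheory Set Filter Topology Complex Metric
open scoped ENNReal NNReal

namespace Pool.Agent.Work.MP_055a27_an.Crit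

namespace Imp

/-- the algebra -/
lemma algebra {X Y Z : ℝ≥0∞} {C : ℝ≥0} {t : ℝ} (ht0 : 0 < t) (ht1 : t < 1) (hX : X ≠ ∞)
    (hZ : Z ≤ C * X) (h : X ≤ Y ^ (1 - t) * Z ^ t) :
    Z ≤ ((C * C ^ (t / (1 - t)) : ℝ≥0) : ℝ≥0∞) * Y := by
  have h1t : 0 < 1 - t := by linarith
  rcases eq_or_ne X 0 with h0 | h0
  · rw [h0, mul_zero] at hZ
    exact hZ.trans zero_le
  · have h2 : X ≤ Y ^ (1 - t) * ((C : ℝ≥0∞) ^ t * X ^ t) := by
      refine h.trans (mul_le_mul_right ?_ _)
      rw [← ENNReal.mul_rpow_of_nonneg _ _ ht0.le]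
      exact ENNReal.rpow_le_rpow hZ ht0.le
    have h3 : X ^ (1 - t) * X ^ t = X := by
      rw [← ENNReal.rpow_add _ _ h0 hX, sub_add_cancel, ENNReal.rpow_one]
    have hXt0 : X ^ t ≠ 0 := by
      rw [Ne, ENNReal.rpow_eq_zero_iff_of_pos ht0]
      exact h0
    have hXt1 : X ^ t ≠ ∞ := ENNReal.rpow_ne_top_of_nonneg ht0.le hX
    have h4 : X ^ (1 - t) ≤ Y ^ (1 - t) * (C : ℝ≥0∞) ^ t := by
      rw [← ENNReal.mul_le_mul_iff_left hXt0 hXt1, h3, mul_assoc]
      exact h2
    have h5 : X ≤ Y * ((C ^ (t / (1 - t)) : ℝ≥0) : ℝ≥0∞) := by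
      have h6 := ENNReal.rpow_le_rpow h4 (inv_nonneg.2 h1t.le)
      rw [← ENNReal.rpow_mul, mul_inv_cancel₀ h1t.ne', ENNReal.rpow_one,
        ENNReal.mul_rpow_of_nonneg _ _ (inv_nonneg.2 h1t.le), ← ENNReal.rpow_mul,
        mul_inv_cancel₀ h1t.ne', ENNReal.rpow_one, ← ENNReal.rpow_mul, ← div_eq_mul_inv] at h6
      rw [ENNReal.coe_rpow_of_nonneg _ (by positivity)]
      exact h6
    calc Z ≤ C * X := hZ
      _ ≤ C * (Y * ((C ^ (t / (1 - t)) : ℝ≥0) : ℝ≥0∞)) := mul_le_mul_right h5 _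
      _ = _ := by rw [ENNReal.coe_mul]; ring

lemma tt_mem {b lam2 : ℝ} (hb : 0 < b) (hb2 : b < lam2) :
    0 < tt 0 b lam2 ∧ tt 0 b lam2 < 1 := by
  have h1 : 0 < Real.arctan b := by
    rw [← Real.arctan_zero]
    exact Real.arctan_strictMono hb
  have h2 : Real.arctan b < Real.arctan lam2 := Real.arctan_strictMono hb2
  unfold tt
  rw [Real.arctan_zero, sub_zero, sub_zero]
  refine ⟨div_pos h1 (h1.trans h2), ?_⟩
  rw [div_lt_one (h1.trans h2)]
  exact h2

end Imp

theorem stImp (hTL : StTL) (hN : StN) (hNM : StNM) : StImp := by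
  intro lam lam2 b p U hb hb2 hlam hp hU hS
  have hl2 : 0 < lam2 := hb.trans hb2
  obtain ⟨C, hC⟩ := hN lam lam2 b p U hl2 hlam hb hp hU hS
  obtain ⟨ht0, ht1⟩ := Imp.tt_mem hb hb2
  set t := tt 0 b lam2 with ht
  refine ⟨C * C ^ (t / (1 - t)), fun F hF hfin => ?_⟩
  refine Imp.algebra ht0 ht1 hfin (hC F hF) ?_
  have hm0 := hNM F 0 hF le_rfl
  have hm2 := hNM F lam2 hF hl2.le
  have hmb := hNM F b hF hb.le
  have hUm : AEMeasurable (fun x => ENNReal.ofReal (U x)) volume := weight_ofReal_aemeas hU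
  set μ : Measure ℝ := volume.withDensity (fun x => ENNReal.ofReal (U x)) with hμ
  have hint : ∀ g : ℝ → ℝ≥0∞, Measurable g →
      ∫⁻ x, g x * ENNReal.ofReal (U x) = ∫⁻ x, g x ∂μ := by
    intro g hg
    rw [hμ, lintegral_withDensity_eq_lintegral_mul₀ hUm hg.aemeasurable]
    refine lintegral_congr fun x => ?_
    simp only [Pi.mul_apply]
    rw [mul_comm]
  have hp0 : Measurable fun x => (NTc F 0 x) ^ p := hm0.pow_const p
  have hp2 : Measurable fun x => (NTc F lam2 x) ^ p := hm2.pow_const p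
  have hpb : Measurable fun x => (NTc F b x) ^ p := hmb.pow_const p
  have e0 : NI U F 0 p = ∫⁻ x, (NTc F 0 x) ^ p ∂μ := hint _ hp0
  have e2 : NI U F lam2 p = ∫⁻ x, (NTc F lam2 x) ^ p ∂μ := hint _ hp2
  have eb : NI U F b p = ∫⁻ x, (NTc F b x) ^ p ∂μ := hint _ hpb
  rw [e0, e2, eb]
  refine le_trans (lintegral_mono fun x => ?_) (ENNReal.lintegral_mul_norm_pow_le
    hp0.aemeasurable hp2.aemeasurable (by linarith : (0 : ℝ) ≤ 1 - t) ht0.le (by ring))
  have h1 := hTL F 0 b lam2 hF le_rfl hb hb2 x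
  rw [← ht] at h1
  have h2 := ENNReal.rpow_le_rpow h1 hp.le
  rw [ENNReal.mul_rpow_of_nonneg _ _ hp.le, ← ENNReal.rpow_mul, ← ENNReal.rpow_mul] at h2
  show NTc F b x ^ p ≤ (NTc F 0 x ^ p) ^ (1 - t) * (NTc F lam2 x ^ p) ^ t
  rw [← ENNReal.rpow_mul, ← ENNReal.rpow_mul, mul_comm p (1 - t), mul_comm p t]
  exact h2

end Pool.Agent.Work.MP_055a27_an.Crit

end

section

/-!
# The Carleson condition is monotone in the aperture
-/

open MeasureTheory Set Filter Topology Complex Metric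
open scoped ENNReal NNReal

namespace Pool.Agent.Work.MP_055a27_an.Crit

namespace Mono

theorem cc_le {μ μ' a c : ℝ} (hμ' : 0 < μ') (h : μ' ≤ μ) (U : ℝ → ℝ) (x : ℝ) :
    cc μ' a c U x ≤ cc μ (a - μ * (c - a) / (2 * μ')) (c + μ * (c - a) / (2 * μ')) U x := by
  refine iSup_mono fun z => iSup_mono fun y => ?_
  refine iSup_mono' ?_
  rintro ⟨hy, h1, h2, h3⟩
  have h4 : μ' * y ≤ μ * y := mul_le_mul_of_nonneg_right h hy.le
  have h5 : μ * y ≤ μ * (c - a) / (2 * μ') := by
    rw [le_div_iff₀ (by positivity)]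
    have h6 : y * (2 * μ') ≤ c - a := by linarith
    have h7 := mul_le_mul_of_nonneg_left h6 (hμ'.le.trans h)
    linarith
  have h8 : 0 < μ' * y := by positivity
  exact ⟨⟨hy, h1.trans_le h4, by linarith, by linarith⟩, le_rfl⟩

end Mono

open Mono in
theorem stMono : StMono := by
  rintro μ μ' U hμ' h ⟨C, hC⟩
  have hμ : 0 < μ := hμ'.trans_le h
  refine ⟨C * Real.toNNReal (1 + μ / μ'), fun a c hac => ?_⟩
  set d : ℝ := μ * (c - a) / (2 * μ') with hd
  have hd0 : 0 ≤ d := by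
    rw [hd]
    have : 0 ≤ c - a := by linarith
    positivity
  calc ∫⁻ x in Icc a c, cc μ' a c U x * ENNReal.ofReal (U x)
      ≤ ∫⁻ x in Icc a c, cc μ (a - d) (c + d) U x * ENNReal.ofReal (U x) :=
        lintegral_mono fun x => mul_le_mul_left (cc_le hμ' h U x) _
    _ ≤ ∫⁻ x in Icc (a - d) (c + d), cc μ (a - d) (c + d) U x * ENNReal.ofReal (U x) :=
        lintegral_mono_set (Icc_subset_Icc (by linarith) (by linarith))
    _ ≤ C * ENNReal.ofReal (c + d - (a - d)) := hC _ _ (by linarith)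
    _ = _ := by
        have h1 : c + d - (a - d) = (1 + μ / μ') * (c - a) := by
          rw [hd]
          field_simp
          ring
        rw [h1, ENNReal.ofReal_mul (by positivity), ENNReal.coe_mul, mul_assoc]
        rfl

end Pool.Agent.Work.MP_055a27_an.Crit

end

section

/-!
# From the inequality of the problem to maximal functions of analytic functions
-/

open MeasureTheory Set Filter Topology Complex Metric
open scoped ENNReal NNReal

namespace Pool.Agent.Work.MP_055a27_an.Crit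

namespace N

lemma meas_nt {f : ℝ → ℝ} (hf : Admissible f) (b : ℝ) :
    Measurable (fun t : ℝ => ntMax b f t) := by
  have e2 : ∀ x, ntMax b f x = NT (schw f) b x := fun x => ntMax_eq hf
  simp_rw [e2]
  exact measurable_NT (schw_diff hf) b

lemma meas_area {f : ℝ → ℝ} (hf : Admissible f) (lam : ℝ) :
    Measurable (fun x : ℝ => areaFn lam f x) := by
  have e1 : ∀ x, areaFn lam f x = (⨆ m, AK (schw f) lam m x) ^ (1 / 2 : ℝ) := by
    intro x
    rw [areaFn_eq hf, ← iSup_AK]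
  simp_rw [e1]
  exact (Measurable.iSup fun m => (continuous_AK (schw_diff hf) lam m).measurable).pow_const _

lemma NTc_le {F : ℂ → ℂ} {β x : ℝ} {f1 f2 : ℝ → ℝ}
    (h1 : ∀ z y : ℝ, 0 < y → poisson f1 z y = (F (z + y * I)).re)
    (h2 : ∀ z y : ℝ, 0 < y → poisson f2 z y = (F (z + y * I)).im) :
    NTc F β x ≤ ntMax β f1 x + ntMax β f2 x := by
  unfold NTc
  refine iSup_le fun z => iSup_le fun y => iSup_le fun hzy => ?_
  calc ENNReal.ofReal ‖F (z + y * I)‖
      ≤ ENNReal.ofReal (|poisson f1 z y| + |poisson f2 z y|) := by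
        apply ENNReal.ofReal_le_ofReal
        rw [h1 z y hzy.1, h2 z y hzy.1]
        exact Complex.norm_le_abs_re_add_abs_im _
    _ = ENNReal.ofReal |poisson f1 z y| + ENNReal.ofReal |poisson f2 z y| :=
        ENNReal.ofReal_add (abs_nonneg _) (abs_nonneg _)
    _ ≤ _ := add_le_add (le_ntMax hzy.1 hzy.2) (le_ntMax hzy.1 hzy.2)

lemma ntMax_le_NTc {F : ℂ → ℂ} {b x : ℝ} {f : ℝ → ℝ}
    (h : ∀ z y : ℝ, 0 < y → |poisson f z y| ≤ ‖F (z + y * I)‖) :
    ntMax b f x ≤ NTc F b x := by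
  unfold ntMax
  refine iSup_le fun z => iSup_le fun y => iSup_le fun hzy => ?_
  unfold NTc
  refine le_trans (ENNReal.ofReal_le_ofReal (h (x - z) y hzy.1)) ?_
  refine le_iSup_of_le (x - z) (le_iSup_of_le y (le_iSup_of_le ⟨hzy.1, ?_⟩ ?_))
  · rw [sub_sub_cancel]; exact hzy.2
  · exact le_rfl

lemma rpow_add3_le {p : ℝ} (hp : 0 < p) (a b c : ℝ≥0∞) :
    (a + b + c) ^ p ≤ 3 ^ p * (a ^ p + b ^ p + c ^ p) := by
  have h1 : a + b + c ≤ 3 * max (max a b) c := by
    have e1 : a ≤ max (max a b) c := le_trans (le_max_left _ _) (le_max_left _ _)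
    have e2 : b ≤ max (max a b) c := le_trans (le_max_right _ _) (le_max_left _ _)
    have e3 : c ≤ max (max a b) c := le_max_right _ _
    calc a + b + c ≤ max (max a b) c + max (max a b) c + max (max a b) c :=
          add_le_add (add_le_add e1 e2) e3
      _ = 3 * max (max a b) c := by ring
  calc (a + b + c) ^ p ≤ (3 * max (max a b) c) ^ p := by gcongr
    _ = 3 ^ p * (max (max a b) c) ^ p := ENNReal.mul_rpow_of_nonneg _ _ hp.le
    _ ≤ 3 ^ p * (a ^ p + b ^ p + c ^ p) := by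
        gcongr
        rcases max_choice (max a b) c with h | h
        · rw [h]
          rcases max_choice a b with h' | h'
          · rw [h', add_assoc]; exact le_self_add
          · rw [h']
            calc b ^ p ≤ a ^ p + b ^ p := le_add_self
              _ ≤ _ := le_self_add
        · rw [h]; exact le_add_self

lemma lint3 {g1 g2 g3 : ℝ → ℝ≥0∞} (m1 : AEMeasurable g1 volume) (m2 : AEMeasurable g2 volume)
    (m3 : AEMeasurable g3 volume) (c c1 c2 c3 : ℝ≥0∞) :
    ∫⁻ x, c * (c1 * g1 x + c2 * g2 x + c3 * g3 x) =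
      c * (c1 * (∫⁻ x, g1 x) + c2 * (∫⁻ x, g2 x) + c3 * (∫⁻ x, g3 x)) := by
  have h1 : AEMeasurable (fun x => c1 * g1 x) volume := m1.const_mul _
  have h2 : AEMeasurable (fun x => c2 * g2 x) volume := m2.const_mul _
  have h3 : AEMeasurable (fun x => c3 * g3 x) volume := m3.const_mul _
  have h12 : AEMeasurable (fun x => c1 * g1 x + c2 * g2 x) volume := h1.add h2
  have h123 : AEMeasurable (fun x => c1 * g1 x + c2 * g2 x + c3 * g3 x) volume := h12.add h3
  rw [lintegral_const_mul'' _ h123, lintegral_add_left' h12, lintegral_add_left' h1,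
    lintegral_const_mul'' _ m1, lintegral_const_mul'' _ m2, lintegral_const_mul'' _ m3]

end N

open N in
theorem stN (hNS : StNS) (hNM : StNM) : StN := by
  intro lam lam2 b p U hlam2 hlt hb hp hU hStar
  obtain ⟨C0, hC0⟩ := hNS lam lam2 b hlam2 hlt hb
  obtain ⟨C1, hC1⟩ := hStar
  refine ⟨3 ^ p * (2 ^ p + C0 ^ p * C1 + C0 ^ p * C1), fun F hF => ?_⟩
  obtain ⟨hd, M, hM⟩ := id hF
  -- the second function
  have hd2 : ∀ ζ : ℂ, 0 ≤ ζ.im → DifferentiableAt ℂ (fun w => -I * F w) ζ :=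
    fun ζ hζ => (hd ζ hζ).const_mul _
  have hM2 : ∀ ζ : ℂ, 0 ≤ ζ.im → ‖(fun w => -I * F w) ζ‖ ≤ M := by
    intro ζ hζ
    simpa using hM ζ hζ
  set f1 : ℝ → ℝ := fun t => (F t).re with hf1
  set f2 : ℝ → ℝ := fun t => ((fun w => -I * F w) (t : ℂ)).re with hf2
  have a1 : Admissible f1 := admissible_re hd hM
  have a2 : Admissible f2 := admissible_re hd2 hM2
  have p1 : ∀ z y : ℝ, 0 < y → poisson f1 z y = (F (z + y * I)).re :=
    fun z y hy => poisson_re hd hM hy
  have p2 : ∀ z y : ℝ, 0 < y → poisson f2 z y = (F (z + y * I)).im := by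
    intro z y hy
    rw [hf2, poisson_re hd2 hM2 hy]
    simp
  have n1 : ∀ x, ntMax b f1 x ≤ NTc F b x := fun x => ntMax_le_NTc fun z y hy => by
    rw [p1 z y hy]; exact Complex.abs_re_le_norm _
  have n2 : ∀ x, ntMax b f2 x ≤ NTc F b x := fun x => ntMax_le_NTc fun z y hy => by
    rw [p2 z y hy]; exact Complex.abs_im_le_norm _
  -- pointwise
  have hpt : ∀ x, NTc F lam2 x ≤ 2 * NTc F b x + C0 * areaFn lam f1 x + C0 * areaFn lam f2 x := by
    intro x
    calc NTc F lam2 x ≤ ntMax lam2 f1 x + ntMax lam2 f2 x := NTc_le p1 p2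
      _ ≤ (ntMax b f1 x + C0 * areaFn lam f1 x) + (ntMax b f2 x + C0 * areaFn lam f2 x) :=
          add_le_add (hC0 f1 a1 x) (hC0 f2 a2 x)
      _ ≤ (NTc F b x + C0 * areaFn lam f1 x) + (NTc F b x + C0 * areaFn lam f2 x) := by
          gcongr
          · exact n1 x
          · exact n2 x
      _ = _ := by ring
  have hpow : ∀ x, (NTc F lam2 x) ^ p * ENNReal.ofReal (U x) ≤
      3 ^ p * (2 ^ p * ((NTc F b x) ^ p * ENNReal.ofReal (U x)) +
        (C0 : ℝ≥0∞) ^ p * ((areaFn lam f1 x) ^ p * ENNReal.ofReal (U x)) +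
        (C0 : ℝ≥0∞) ^ p * ((areaFn lam f2 x) ^ p * ENNReal.ofReal (U x))) := by
    intro x
    calc (NTc F lam2 x) ^ p * ENNReal.ofReal (U x)
        ≤ (3 ^ p * ((2 * NTc F b x) ^ p + (C0 * areaFn lam f1 x) ^ p +
            (C0 * areaFn lam f2 x) ^ p)) * ENNReal.ofReal (U x) := by
          gcongr
          refine le_trans ?_ (rpow_add3_le hp _ _ _)
          have := hpt x
          gcongr
      _ = _ := by
          rw [ENNReal.mul_rpow_of_nonneg _ _ hp.le, ENNReal.mul_rpow_of_nonneg _ _ hp.le,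
            ENNReal.mul_rpow_of_nonneg _ _ hp.le]
          ring
  have hu := weight_ofReal_aemeas hU
  have m1 : AEMeasurable (fun x => (NTc F b x) ^ p * ENNReal.ofReal (U x)) volume :=
    ((hNM F b hF hb.le).pow_const p).aemeasurable.mul hu
  have m2 : AEMeasurable (fun x => (areaFn lam f1 x) ^ p * ENNReal.ofReal (U x)) volume :=
    ((meas_area a1 lam).pow_const p).aemeasurable.mul hu
  have m3 : AEMeasurable (fun x => (areaFn lam f2 x) ^ p * ENNReal.ofReal (U x)) volume :=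
    ((meas_area a2 lam).pow_const p).aemeasurable.mul hu
  have s1 : ∫⁻ x, (areaFn lam f1 x) ^ p * ENNReal.ofReal (U x) ≤ C1 * NI U F b p := by
    refine (hC1 f1 a1).trans ?_
    unfold NI
    gcongr with x
    exact n1 x
  have s2 : ∫⁻ x, (areaFn lam f2 x) ^ p * ENNReal.ofReal (U x) ≤ C1 * NI U F b p := by
    refine (hC1 f2 a2).trans ?_
    unfold NI
    gcongr with x
    exact n2 x
  have hcast : (((3 : ℝ≥0) ^ p * (2 ^ p + C0 ^ p * C1 + C0 ^ p * C1) : ℝ≥0) : ℝ≥0∞) =
      3 ^ p * (2 ^ p + (C0 : ℝ≥0∞) ^ p * C1 + (C0 : ℝ≥0∞) ^ p * C1) := by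
    push_cast
    rw [ENNReal.coe_rpow_of_nonneg _ hp.le, ENNReal.coe_rpow_of_nonneg _ hp.le,
      ENNReal.coe_rpow_of_nonneg _ hp.le]
    push_cast
    rfl
  rw [hcast]
  calc NI U F lam2 p
      ≤ ∫⁻ x, 3 ^ p * (2 ^ p * ((NTc F b x) ^ p * ENNReal.ofReal (U x)) +
        (C0 : ℝ≥0∞) ^ p * ((areaFn lam f1 x) ^ p * ENNReal.ofReal (U x)) +
        (C0 : ℝ≥0∞) ^ p * ((areaFn lam f2 x) ^ p * ENNReal.ofReal (U x))) :=
        lintegral_mono hpow
    _ = 3 ^ p * (2 ^ p * NI U F b p +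
        (C0 : ℝ≥0∞) ^ p * (∫⁻ x, (areaFn lam f1 x) ^ p * ENNReal.ofReal (U x)) +
        (C0 : ℝ≥0∞) ^ p * (∫⁻ x, (areaFn lam f2 x) ^ p * ENNReal.ofReal (U x))) := by
        rw [lint3 m1 m2 m3]
        rfl
    _ ≤ 3 ^ p * (2 ^ p * NI U F b p + (C0 : ℝ≥0∞) ^ p * (C1 * NI U F b p) +
        (C0 : ℝ≥0∞) ^ p * (C1 * NI U F b p)) := by
        gcongr
    _ = _ := by ring

end Pool.Agent.Work.MP_055a27_an.Crit

end

section

/-!
# Measurability of the non-tangential maximal function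
-/

open MeasureTheory Set Filter Topology Complex Metric
open scoped ENNReal NNReal

namespace Pool.Agent.Work.MP_055a27_an.Crit

namespace NM

lemma eq_sup (F : ℂ → ℂ) (β x : ℝ) :
    NTc F β x = ⨆ (q : {q : ℝ × ℝ // 0 < q.2 ∧ |q.1| ≤ β}),
      ENNReal.ofReal ‖F (((x + q.1.1 * q.1.2 : ℝ) : ℂ) + (q.1.2 : ℂ) * I)‖ := by
  unfold NTc
  apply le_antisymm
  · refine iSup_le fun z => iSup_le fun y => iSup_le fun h => ?_
    obtain ⟨hy, hz⟩ := h
    have hq : |(z - x) / y| ≤ β := by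
      rw [abs_div, abs_of_pos hy, div_le_iff₀ hy, abs_sub_comm]
      exact hz
    refine le_iSup_of_le ⟨((z - x) / y, y), hy, hq⟩ ?_
    have h1 : x + (z - x) / y * y = z := by
      rw [div_mul_cancel₀ _ hy.ne']
      ring
    simp only [h1]
    exact le_rfl
  · refine iSup_le fun q => ?_
    refine le_iSup_of_le (x + q.1.1 * q.1.2) (le_iSup_of_le q.1.2 (le_iSup_of_le ⟨q.2.1, ?_⟩
      le_rfl))
    have h1 : x - (x + q.1.1 * q.1.2) = -(q.1.1 * q.1.2) := by ring
    rw [h1, abs_neg, abs_mul, abs_of_pos q.2.1]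
    exact mul_le_mul_of_nonneg_right q.2.2 q.2.1.le

end NM

theorem stNM : StNM := by
  intro F β hF _
  have h1 : NTc F β = fun x => ⨆ (q : {q : ℝ × ℝ // 0 < q.2 ∧ |q.1| ≤ β}),
      ENNReal.ofReal ‖F (((x + q.1.1 * q.1.2 : ℝ) : ℂ) + (q.1.2 : ℂ) * I)‖ :=
    funext fun x => NM.eq_sup F β x
  rw [h1]
  refine (lowerSemicontinuous_iSup fun q => ?_).measurable
  refine Continuous.lowerSemicontinuous ?_
  refine ENNReal.continuous_ofReal.comp (Continuous.norm ?_)
  rw [continuous_iff_continuousAt]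
  intro x
  have him : 0 ≤ ((((x + q.1.1 * q.1.2 : ℝ) : ℂ) + (q.1.2 : ℂ) * I)).im := by
    simp
    exact q.2.1.le
  have h2 := (hF.1 _ him).continuousAt
  exact ContinuousAt.comp (g := F)
    (f := fun x : ℝ => (((x + q.1.1 * q.1.2 : ℝ) : ℂ) + (q.1.2 : ℂ) * I)) h2 (by fun_prop)

end Pool.Agent.Work.MP_055a27_an.Crit

end

section

/-!
# The critical aperture of a weight, item Nec2: necessity for all `b < lam`
-/

open MeasureTheory Set Filter Topology Complex Metric
open scoped ENNReal NNReal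

namespace Pool.Agent.Work.MP_055a27_an.Crit

namespace Nec2

lemma le_ntc {F : ℂ → ℂ} {β x z y : ℝ} (hy : 0 < y) (h : |x - z| ≤ β * y) :
    ENNReal.ofReal ‖F (z + y * I)‖ ≤ NTc F β x :=
  le_iSup_of_le z (le_iSup_of_le y (le_iSup_of_le ⟨hy, h⟩ le_rfl))

lemma ntc_pow_le {F : ℂ → ℂ} {β x p : ℝ} {L : ℝ≥0∞} (hp : 0 < p)
    (h : ∀ z y : ℝ, 0 < y → |x - z| ≤ β * y → (ENNReal.ofReal ‖F (z + y * I)‖) ^ p ≤ L) :
    (NTc F β x) ^ p ≤ L := by
  rw [← ENNReal.le_rpow_inv_iff hp]
  unfold NTc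
  refine iSup_le fun z => iSup_le fun y => iSup_le fun hzy => ?_
  rw [ENNReal.le_rpow_inv_iff hp]
  exact h z y hzy.1 hzy.2

lemma poisson_nonneg {V : ℝ → ℝ} (hV : ∀ t, 0 ≤ V t) {z y : ℝ} (hy : 0 ≤ y) :
    0 ≤ poisson V z y := by
  unfold poisson
  refine mul_nonneg (by positivity) (integral_nonneg fun x => ?_)
  have := hV (z - x)
  positivity

/-- the upper bound for the test functions, vertical maximal function -/
lemma up (hTF : StTF) {U : ℝ → ℝ} (hU : IsWeight U) (hA : Admissible (lg U)) {μ0 M p ε x0 β : ℝ}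
    {k : ℕ} (hμ0 : 0 < μ0) (hp : 0 < p) (hε : 0 < ε) (hβ : 0 < β) {C : ℝ≥0∞}
    (h1 : ∫⁻ x, (ntMax μ0 (fun t : ℝ => (tF2 U M p ε x0 β k t).re) x) ^ p *
      ENNReal.ofReal (U x) ≤ C)
    (h2 : ∫⁻ x, (ntMax μ0 (fun t : ℝ => (tF2 U M p ε x0 β k t).im) x) ^ p *
      ENNReal.ofReal (U x) ≤ C) :
    NI U (tF2 U M p ε x0 β k) 0 p ≤ 2 ^ p * (C + C) := by
  obtain ⟨a1, a2, a3⟩ := hTF U M p ε x0 β k hA hp hε hβ
  have h2p : (2 : ℝ≥0∞) ^ p ≠ ⊤ := ENNReal.rpow_ne_top_of_nonneg hp.le (by simp)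
  unfold NI
  calc ∫⁻ x, (NTc (tF2 U M p ε x0 β k) 0 x) ^ p * ENNReal.ofReal (U x)
      ≤ ∫⁻ x, 2 ^ p * ((ntMax μ0 (fun t : ℝ => (tF2 U M p ε x0 β k t).re) x) ^ p *
          ENNReal.ofReal (U x) + (ntMax μ0 (fun t : ℝ => (tF2 U M p ε x0 β k t).im) x) ^ p *
          ENNReal.ofReal (U x)) := by
        apply lintegral_mono
        intro x
        have h3 : (NTc (tF2 U M p ε x0 β k) 0 x) ^ p ≤
            2 ^ p * ((ntMax μ0 (fun t : ℝ => (tF2 U M p ε x0 β k t).re) x) ^ p +
              (ntMax μ0 (fun t : ℝ => (tF2 U M p ε x0 β k t).im) x) ^ p) := by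
          apply ntc_pow_le hp
          intro z y hy hz
          have hz' : |x - z| ≤ μ0 * y := by
            rw [zero_mul] at hz
            exact hz.trans (by positivity)
          obtain ⟨b1, b2, _⟩ := a3 z y hy
          have hn : ‖tF2 U M p ε x0 β k (z + y * I)‖ ≤
              |poisson (fun t : ℝ => (tF2 U M p ε x0 β k t).re) z y| +
              |poisson (fun t : ℝ => (tF2 U M p ε x0 β k t).im) z y| := by
            rw [b1, b2]
            exact Complex.norm_le_abs_re_add_abs_im _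
          calc (ENNReal.ofReal ‖tF2 U M p ε x0 β k (z + y * I)‖) ^ p
              ≤ (ntMax μ0 (fun t : ℝ => (tF2 U M p ε x0 β k t).re) x +
                ntMax μ0 (fun t : ℝ => (tF2 U M p ε x0 β k t).im) x) ^ p := by
                apply ENNReal.rpow_le_rpow _ hp.le
                refine (ENNReal.ofReal_le_ofReal hn).trans ?_
                rw [ENNReal.ofReal_add (abs_nonneg _) (abs_nonneg _)]
                exact add_le_add (le_ntMax hy hz') (le_ntMax hy hz')
            _ ≤ _ := Nec.rpow_add_le _ _ hp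
        calc (NTc (tF2 U M p ε x0 β k) 0 x) ^ p * ENNReal.ofReal (U x)
            ≤ (2 ^ p * ((ntMax μ0 (fun t : ℝ => (tF2 U M p ε x0 β k t).re) x) ^ p +
              (ntMax μ0 (fun t : ℝ => (tF2 U M p ε x0 β k t).im) x) ^ p)) *
              ENNReal.ofReal (U x) := by gcongr
          _ = _ := by ring
    _ = 2 ^ p * ((∫⁻ x, (ntMax μ0 (fun t : ℝ => (tF2 U M p ε x0 β k t).re) x) ^ p *
          ENNReal.ofReal (U x)) + ∫⁻ x, (ntMax μ0 (fun t : ℝ => (tF2 U M p ε x0 β k t).im) x) ^ p *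
          ENNReal.ofReal (U x)) := by
        rw [lintegral_const_mul' _ _ h2p, lintegral_add_left']
        exact ((Nec.meas_ntMax a1 μ0).pow_const p).aemeasurable.mul (weight_ofReal_aemeas hU)
    _ ≤ 2 ^ p * (C + C) := by gcongr

/-- the modified test functions are integrable -/
lemma fin {U V : ℝ → ℝ} {M p ε x0 β b : ℝ} {k : ℕ} (hp : 0 < p) (hε : 0 < ε)
    (hb : 0 < b)
    (hn : ∀ z y : ℝ, 0 < y → ‖tV U V M p ε x0 β k (z + y * I)‖ =
      Real.exp (-poisson V z (y + ε) / p) * ‖tF2 U M p ε x0 β k (z + y * I)‖)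
    (hM : ∀ z y : ℝ, 0 < y → ‖tF2 U M p ε x0 β k (z + y * I)‖ ≤ Real.exp (M / p))
    (hV : ∫⁻ x, (⨆ (z : ℝ) (y : ℝ) (_ : 0 < y ∧ |x - z| ≤ b * y),
      ENNReal.ofReal (Real.exp (-poisson V z y))) * ENNReal.ofReal (U x) ≠ ∞) :
    NI U (tV U V M p ε x0 β k) b p ≠ ∞ := by
  have h1 : NI U (tV U V M p ε x0 β k) b p ≤ ENNReal.ofReal (Real.exp M) *
      ∫⁻ x, (⨆ (z : ℝ) (y : ℝ) (_ : 0 < y ∧ |x - z| ≤ b * y),
      ENNReal.ofReal (Real.exp (-poisson V z y))) * ENNReal.ofReal (U x) := by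
    rw [← lintegral_const_mul' _ _ ENNReal.ofReal_ne_top]
    unfold NI
    apply lintegral_mono
    intro x
    beta_reduce
    rw [← mul_assoc]
    refine mul_le_mul_left ?_ _
    apply ntc_pow_le hp
    intro z y hy hz
    have hz' : |x - z| ≤ b * (y + ε) := hz.trans (by nlinarith)
    have h2 : ENNReal.ofReal (Real.exp (-poisson V z (y + ε))) ≤
        ⨆ (z : ℝ) (y : ℝ) (_ : 0 < y ∧ |x - z| ≤ b * y),
          ENNReal.ofReal (Real.exp (-poisson V z y)) :=
      le_iSup_of_le z (le_iSup_of_le (y + ε) (le_iSup_of_le ⟨by linarith, hz'⟩ le_rfl))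
    calc (ENNReal.ofReal ‖tV U V M p ε x0 β k (z + y * I)‖) ^ p
        ≤ (ENNReal.ofReal (Real.exp (-poisson V z (y + ε) / p) * Real.exp (M / p))) ^ p := by
          apply ENNReal.rpow_le_rpow _ hp.le
          apply ENNReal.ofReal_le_ofReal
          rw [hn z y hy]
          gcongr
          exact hM z y hy
      _ = ENNReal.ofReal (Real.exp M) * ENNReal.ofReal (Real.exp (-poisson V z (y + ε))) := by
          rw [← Real.exp_add, ENNReal.ofReal_rpow_of_pos (Real.exp_pos _), ← Real.exp_mul,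
            ← ENNReal.ofReal_mul (Real.exp_pos _).le, ← Real.exp_add]
          congr 2
          field_simp
          ring
      _ ≤ _ := by gcongr
  exact ne_top_of_le_ne_top (ENNReal.mul_ne_top ENNReal.ofReal_ne_top hV) h1

end Nec2

theorem stNec2 (hTF : StTF) (hTFUp : StTFUp) (hImp : StImp) (hVn : StVn) (hTV : StTV)
    (hNM : StNM) (hNecB : StNecB) : StNec2 := by
  intro lam μ μ0 b p U hb hbl hp hμ0 hμ hμl hU hA hCC hStar
  obtain ⟨lam2, hlam2⟩ : ∃ lam2 : ℝ, lam2 = (max μ b + lam) / 2 := ⟨_, rfl⟩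
  have hm : max μ b < lam := max_lt hμl hbl
  have hμ2 : μ < lam2 := by
    have := le_max_left μ b
    rw [hlam2]; linarith
  have hb2 : b < lam2 := by
    have := le_max_right μ b
    rw [hlam2]; linarith
  have hl2 : lam2 < lam := by rw [hlam2]; linarith
  obtain ⟨C1, k, hUp⟩ := hTFUp μ0 p U hμ0 hp hU hA hCC
  obtain ⟨V, hVA, hV0, hVt, hVf⟩ := hVn μ0 b U hμ0 hb hU hA hCC
  obtain ⟨C2, hC2⟩ := hImp lam lam2 b p U hb hb2 hl2 hp hU hStar
  have h2p : (2 : ℝ≥0∞) ^ p ≠ ⊤ := ENNReal.rpow_ne_top_of_nonneg hp.le (by simp)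
  have hfin : (C2 : ℝ≥0∞) * (2 ^ p * (C1 + C1)) ≠ ⊤ :=
    ENNReal.mul_ne_top (by simp) (ENNReal.mul_ne_top h2p (by simp))
  refine hNecB lam2 μ p U hp hμ hμ2 hU hA
    ⟨((C2 : ℝ≥0∞) * (2 ^ p * (C1 + C1))).toNNReal, k, ?_⟩
  intro M ε x0 β hε hεβ
  rw [ENNReal.coe_toNNReal hfin]
  have hβ : 0 < β := hε.trans_le hεβ
  obtain ⟨u1, u2⟩ := hUp M ε x0 β hε hεβ
  have hup := Nec2.up hTF hU hA hμ0 hp hε hβ u1 u2
  -- the sequence
  have hN : ∀ n, NI U (tV U (V n) M p ε x0 β k) lam2 p ≤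
      C2 * (2 ^ p * (C1 + C1)) * ENNReal.ofReal β := by
    intro n
    obtain ⟨t1, t2, t3, t4⟩ := hTV U (V n) M p ε x0 β k hA (hVA n) (hV0 n) hp hε hβ
    calc NI U (tV U (V n) M p ε x0 β k) lam2 p
        ≤ C2 * NI U (tV U (V n) M p ε x0 β k) 0 p :=
          hC2 _ t2 (Nec2.fin hp hε hb t3 t4 (hVf n))
      _ ≤ C2 * NI U (tF2 U M p ε x0 β k) 0 p := by
          gcongr
          unfold NI
          apply lintegral_mono
          intro x
          show (NTc (tV U (V n) M p ε x0 β k) 0 x) ^ p * ENNReal.ofReal (U x) ≤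
            (NTc (tF2 U M p ε x0 β k) 0 x) ^ p * ENNReal.ofReal (U x)
          refine mul_le_mul_left ?_ _
          apply Nec2.ntc_pow_le hp
          intro z y hy hz
          apply ENNReal.rpow_le_rpow _ hp.le
          refine le_trans ?_ (Nec2.le_ntc hy hz)
          apply ENNReal.ofReal_le_ofReal
          rw [t3 z y hy]
          have h0 := Nec2.poisson_nonneg (hV0 n) (z := z) (y := y + ε) (by linarith)
          have h1 : Real.exp (-poisson (V n) z (y + ε) / p) ≤ 1 := by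
            rw [Real.exp_le_one_iff]
            apply div_nonpos_of_nonpos_of_nonneg _ hp.le
            linarith
          exact mul_le_of_le_one_left (norm_nonneg _) h1
      _ ≤ C2 * (2 ^ p * (C1 * ENNReal.ofReal β + C1 * ENNReal.ofReal β)) := by gcongr
      _ = _ := by ring
  -- the limit
  have hpt : ∀ x, (NTc (tF2 U M p ε x0 β k) lam2 x) ^ p * ENNReal.ofReal (U x) ≤
      liminf (fun n => (NTc (tV U (V n) M p ε x0 β k) lam2 x) ^ p * ENNReal.ofReal (U x))
        atTop := by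
    intro x
    rw [ENNReal.liminf_mul_const_of_ne_top ENNReal.ofReal_ne_top, mul_comm]
    refine mul_le_mul_right ?_ _
    apply Nec2.ntc_pow_le hp
    intro z y hy hz
    have ht : Tendsto (fun n : ℕ => (ENNReal.ofReal ‖tV U (V n) M p ε x0 β k (z + y * I)‖) ^ p)
        atTop (𝓝 ((ENNReal.ofReal ‖tF2 U M p ε x0 β k (z + y * I)‖) ^ p)) := by
      apply ((ENNReal.continuous_rpow_const (y := p)).tendsto _).comp
      apply ENNReal.tendsto_ofReal
      have h1 : Tendsto (fun n : ℕ => Real.exp (-poisson (V n) z (y + ε) / p) *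
          ‖tF2 U M p ε x0 β k (z + y * I)‖) atTop
          (𝓝 (Real.exp (-0 / p) * ‖tF2 U M p ε x0 β k (z + y * I)‖)) := by
        apply Tendsto.mul_const
        apply (Real.continuous_exp.tendsto _).comp
        exact ((hVt z (y + ε) (by linarith)).neg).div_const p
      have h2 : Real.exp (-0 / p) * ‖tF2 U M p ε x0 β k (z + y * I)‖ =
          ‖tF2 U M p ε x0 β k (z + y * I)‖ := by simp
      rw [h2] at h1
      refine h1.congr fun n => ?_
      obtain ⟨t1, t2, t3, t4⟩ := hTV U (V n) M p ε x0 β k hA (hVA n) (hV0 n) hp hε hβ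
      rw [t3 z y hy]
    have hle : ∀ n : ℕ, (ENNReal.ofReal ‖tV U (V n) M p ε x0 β k (z + y * I)‖) ^ p ≤
        (NTc (tV U (V n) M p ε x0 β k) lam2 x) ^ p := fun n =>
      ENNReal.rpow_le_rpow (Nec2.le_ntc hy hz) hp.le
    calc (ENNReal.ofReal ‖tF2 U M p ε x0 β k (z + y * I)‖) ^ p
        = liminf (fun n : ℕ => (ENNReal.ofReal ‖tV U (V n) M p ε x0 β k (z + y * I)‖) ^ p)
          atTop := ht.liminf_eq.symm
      _ ≤ liminf (fun n : ℕ => (NTc (tV U (V n) M p ε x0 β k) lam2 x) ^ p) atTop :=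
        liminf_le_liminf (Eventually.of_forall hle)
  calc NI U (tF2 U M p ε x0 β k) lam2 p
      ≤ ∫⁻ x, liminf (fun n => (NTc (tV U (V n) M p ε x0 β k) lam2 x) ^ p *
          ENNReal.ofReal (U x)) atTop := lintegral_mono hpt
    _ ≤ liminf (fun n => ∫⁻ x, (NTc (tV U (V n) M p ε x0 β k) lam2 x) ^ p *
          ENNReal.ofReal (U x)) atTop := by
        apply lintegral_liminf_le'
        intro n
        obtain ⟨t1, t2, t3, t4⟩ := hTV U (V n) M p ε x0 β k hA (hVA n) (hV0 n) hp hε hβ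
        have h3 := hNM (tV U (V n) M p ε x0 β k) lam2 t2 (by linarith)
        exact (h3.pow_const p).aemeasurable.mul (weight_ofReal_aemeas hU)
    _ ≤ _ := liminf_le_of_frequently_le' (Frequently.of_forall fun n => hN n)

end Pool.Agent.Work.MP_055a27_an.Crit

end

section

/-!
# The critical aperture of a weight, item NecB: from the test functions to the Carleson condition
-/

open MeasureTheory Set Filter Topology Complex Metric
open scoped ENNReal NNReal

namespace Pool.Agent.Work.MP_055a27_an.Crit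

namespace NecB

lemma le_NTc {F : ℂ → ℂ} {β x z y : ℝ} (hy : 0 < y) (h : |x - z| ≤ β * y) :
    ENNReal.ofReal ‖F (z + y * I)‖ ≤ NTc F β x :=
  le_iSup_of_le z (le_iSup_of_le y (le_iSup_of_le ⟨hy, h⟩ le_rfl))

/-- the pointwise bound -/
lemma point (hTF : StTF) {U : ℝ → ℝ} (hA : Admissible (lg U)) {μ lam2 p M ε x0 β x z y L : ℝ}
    {k : ℕ} (hμ : 0 < μ) (hlam : μ < lam2) (hp : 0 < p) (hε : 0 < ε) (hβ : 0 < β) (hy : 0 < y)
    (hL : L = 3 / 2 + 1 / (2 * μ)) (h1 : x0 - β / 2 ≤ z - μ * y) (h2 : z + μ * y ≤ x0 + β / 2)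
    (hx : |x - z| < μ * y) :
    ENNReal.ofReal (Real.exp (-poisson (lgT U M) z (y + ε))) ≤
      (ENNReal.ofReal (L ^ k)) ^ p * (NTc (tF2 U M p ε x0 β k) lam2 x) ^ p := by
  obtain ⟨a1, a2, a3⟩ := hTF U M p ε x0 β k hA hp hε hβ
  obtain ⟨b1, b2, b3⟩ := a3 z y hy
  have hL0 : 0 < L := by rw [hL]; positivity
  have hn := Nec.norm_upper hμ hβ hy hL h1 h2
  have hden : 0 < ‖(z : ℂ) + y * I - x0 + β * I‖ := by
    rw [norm_pos_iff]
    exact den_ne hβ (by simp [hy.le])
  have hr : 1 / L ≤ β / ‖(z : ℂ) + y * I - x0 + β * I‖ := by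
    rw [div_le_div_iff₀ hL0 hden]
    linarith
  set P := poisson (lgT U M) z (y + ε) with hP
  have hexp : Real.exp (-P / p) ≤ L ^ k * ‖tF2 U M p ε x0 β k (z + y * I)‖ := by
    rw [b3]
    have h3 : (1 / L) ^ k ≤ (β / ‖(z : ℂ) + y * I - x0 + β * I‖) ^ k :=
      pow_le_pow_left₀ (by positivity) hr k
    calc Real.exp (-P / p) = L ^ k * (Real.exp (-P / p) * (1 / L) ^ k) := by
          rw [one_div, inv_pow]; field_simp
      _ ≤ _ := by gcongr
  have e1 : ENNReal.ofReal (Real.exp (-P)) = (ENNReal.ofReal (Real.exp (-P / p))) ^ p := by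
    rw [ENNReal.ofReal_rpow_of_pos (Real.exp_pos _), ← Real.exp_mul]
    congr 2
    field_simp
  rw [e1]
  have hx' : |x - z| ≤ lam2 * y := hx.le.trans (by gcongr)
  have g1 := le_NTc (F := tF2 U M p ε x0 β k) hy hx'
  calc (ENNReal.ofReal (Real.exp (-P / p))) ^ p
      ≤ (ENNReal.ofReal (L ^ k) * NTc (tF2 U M p ε x0 β k) lam2 x) ^ p := by
        apply ENNReal.rpow_le_rpow _ hp.le
        calc ENNReal.ofReal (Real.exp (-P / p))
            ≤ ENNReal.ofReal (L ^ k * ‖tF2 U M p ε x0 β k (z + y * I)‖) :=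
              ENNReal.ofReal_le_ofReal hexp
          _ = ENNReal.ofReal (L ^ k) * ENNReal.ofReal ‖tF2 U M p ε x0 β k (z + y * I)‖ := by
              rw [ENNReal.ofReal_mul (by positivity)]
          _ ≤ _ := by gcongr
    _ = _ := ENNReal.mul_rpow_of_nonneg _ _ hp.le

lemma adm_zero : Admissible (fun _ : ℝ => (0 : ℝ)) := by
  unfold Admissible
  simp

end NecB

theorem stNecB (hTF : StTF) (hTV : StTV) (hNM : StNM) : StNecB := by
  intro lam2 μ p U hp hμ hμl hU hA hyp
  obtain ⟨C1, k, hUp⟩ := hyp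
  set L : ℝ := 3 / 2 + 1 / (2 * μ) with hL
  set K : ℝ≥0∞ := (ENNReal.ofReal (L ^ k)) ^ p with hK
  have hKt : K ≠ ⊤ := ENNReal.rpow_ne_top_of_nonneg hp.le ENNReal.ofReal_ne_top
  have hfin : K * C1 ≠ ⊤ := ENNReal.mul_ne_top hKt (by simp)
  refine ⟨(K * C1).toNNReal, fun a c hac => ?_⟩
  rw [ENNReal.coe_toNNReal hfin]
  obtain ⟨x0, hx0⟩ : ∃ x0 : ℝ, x0 = (a + c) / 2 := ⟨_, rfl⟩
  obtain ⟨β, hβ⟩ : ∃ β : ℝ, β = c - a := ⟨_, rfl⟩
  have hβ0 : 0 < β := by rw [hβ]; linarith
  have ha : a = x0 - β / 2 := by rw [hx0, hβ]; ring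
  have hc : c = x0 + β / 2 := by rw [hx0, hβ]; ring
  rw [← hβ]
  have hdn : ∀ n : ℕ, 0 < β / ((n : ℝ) + 1) := fun n => by positivity
  have hdn1 : ∀ n : ℕ, β / ((n : ℝ) + 1) ≤ β := fun n => by
    rw [div_le_iff₀ (by positivity)]
    nlinarith [hβ0, (Nat.cast_nonneg n : (0 : ℝ) ≤ n)]
  have hlam0 : 0 ≤ lam2 := (hμ.trans hμl).le
  obtain ⟨G, hG⟩ : ∃ G : ℕ → ℝ → ℝ≥0∞, ∀ n x, G n x = K *
      (NTc (tF2 U n p (β / ((n : ℝ) + 1)) x0 β k) lam2 x) ^ p :=
    ⟨fun n x => _, fun _ _ => rfl⟩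
  have hGm : ∀ n, Measurable (G n) := by
    intro n
    obtain ⟨a1, _⟩ := hTV U (fun _ => 0) n p (β / ((n : ℝ) + 1)) x0 β k hA NecB.adm_zero
      (fun _ => le_rfl) hp (hdn n) hβ0
    have : G n = fun x => K * (NTc (tF2 U n p (β / ((n : ℝ) + 1)) x0 β k) lam2 x) ^ p :=
      funext fun x => hG n x
    rw [this]
    exact ((hNM _ _ a1 hlam0).pow_const p).const_mul K
  have hum := weight_ofReal_aemeas hU
  -- the integral of `G n`
  have hGi : ∀ n, ∫⁻ x in Icc a c, G n x * ENNReal.ofReal (U x) ≤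
      K * C1 * ENNReal.ofReal β := by
    intro n
    have u1 := hUp n (β / ((n : ℝ) + 1)) x0 β (hdn n) (hdn1 n)
    calc ∫⁻ x in Icc a c, G n x * ENNReal.ofReal (U x)
        ≤ ∫⁻ x, G n x * ENNReal.ofReal (U x) := setLIntegral_le_lintegral _ _
      _ = ∫⁻ x, K * ((NTc (tF2 U n p (β / ((n : ℝ) + 1)) x0 β k) lam2 x) ^ p *
              ENNReal.ofReal (U x)) := by
          refine lintegral_congr fun x => ?_
          rw [hG]; ring
      _ = K * NI U (tF2 U n p (β / ((n : ℝ) + 1)) x0 β k) lam2 p :=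
          lintegral_const_mul' _ _ hKt
      _ ≤ K * (C1 * ENNReal.ofReal β) := by gcongr
      _ = _ := by ring
  -- the pointwise bound in the limit
  have hpt : ∀ x, cc μ a c U x * ENNReal.ofReal (U x) ≤
      liminf (fun n => G n x * ENNReal.ofReal (U x)) atTop := by
    intro x
    unfold cc
    rw [ENNReal.iSup_mul]
    refine iSup_le fun z => ?_
    rw [ENNReal.iSup_mul]
    refine iSup_le fun y => ?_
    rw [ENNReal.iSup_mul]
    refine iSup_le fun hzy => ?_
    obtain ⟨hy, hxz, h1, h2'⟩ := hzy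
    have ht : Tendsto (fun n : ℕ => ENNReal.ofReal (Real.exp (-poisson (lgT U n) z
        (y + β / ((n : ℝ) + 1)))) * ENNReal.ofReal (U x)) atTop
        (𝓝 (ENNReal.ofReal (Real.exp (-poisson (lg U) z y)) * ENNReal.ofReal (U x))) := by
      apply ENNReal.Tendsto.mul_const
      · apply ENNReal.tendsto_ofReal
        exact (Real.continuous_exp.tendsto _).comp (Nec.pois_tend hA hy hβ0).neg
      · exact Or.inr ENNReal.ofReal_ne_top
    rw [← ht.liminf_eq]
    refine liminf_le_liminf (Eventually.of_forall fun n => ?_)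
    have h3 := NecB.point hTF hA (M := n) (k := k) hμ hμl hp (hdn n) hβ0 hy hL (ha ▸ h1)
      (hc ▸ h2') hxz
    show _ ≤ G n x * ENNReal.ofReal (U x)
    rw [hG]
    gcongr
  calc ∫⁻ x in Icc a c, cc μ a c U x * ENNReal.ofReal (U x)
      ≤ ∫⁻ x in Icc a c, liminf (fun n => G n x * ENNReal.ofReal (U x)) atTop :=
        lintegral_mono hpt
    _ ≤ liminf (fun n => ∫⁻ x in Icc a c, G n x * ENNReal.ofReal (U x)) atTop := by
        apply lintegral_liminf_le'
        intro n
        exact (hGm n).aemeasurable.mul hum.restrict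
    _ ≤ liminf (fun _ : ℕ => K * C1 * ENNReal.ofReal β) atTop :=
        liminf_le_liminf (Eventually.of_forall hGi)
    _ = _ := by simp

end Pool.Agent.Work.MP_055a27_an.Crit

end

section

/-!
# Three lines theorem in the aperture angle
-/

open MeasureTheory Set Filter Topology Complex Metric
open scoped ENNReal NNReal

namespace Pool.Agent.Work.MP_055a27_an.Crit

namespace TL

/-- Interpolated real bound is monotone in the parameter. -/
lemma interp_mono {A B s t : ℝ} (hA : 0 ≤ A) (hAB : A ≤ B) (h0 : 0 ≤ s) (hst : s ≤ t)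
    (ht : t ≤ 1) : A ^ (1 - s) * B ^ s ≤ A ^ (1 - t) * B ^ t := by
  have hB : 0 ≤ B := hA.trans hAB
  have e1 : A ^ (1 - s) = A ^ (1 - t) * A ^ (t - s) := by
    rw [← Real.rpow_add_of_nonneg hA (by linarith) (by linarith)]
    congr 1; ring
  have e2 : B ^ t = B ^ (t - s) * B ^ s := by
    rw [← Real.rpow_add_of_nonneg hB (by linarith) h0]
    congr 1; ring
  rw [e1, e2, mul_assoc]
  refine mul_le_mul_of_nonneg_left ?_ (Real.rpow_nonneg hA _)
  exact mul_le_mul_of_nonneg_right (Real.rpow_le_rpow hA hAB (by linarith))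
    (Real.rpow_nonneg hB _)

/-- Coordinates of the moving point. -/
lemma point (x p d σ s τ : ℝ) :
    (x : ℂ) + I * Complex.exp (σ * I * (p + ((s : ℂ) + τ * I) * d)) =
      ((x + Real.exp (-(σ * τ * d)) * (-Real.sin (σ * (p + s * d))) : ℝ) : ℂ) +
        ((Real.exp (-(σ * τ * d)) * Real.cos (σ * (p + s * d)) : ℝ) : ℂ) * I := by
  have h1 : (σ : ℂ) * I * (p + ((s : ℂ) + τ * I) * d) =
      ((-(σ * τ * d) : ℝ) : ℂ) + ((σ * (p + s * d) : ℝ) : ℂ) * I := by
    push_cast
    ring_nf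
    rw [I_sq]
    ring
  rw [h1, Complex.exp_add, Complex.exp_mul_I, ← Complex.ofReal_exp, ← Complex.ofReal_cos,
    ← Complex.ofReal_sin]
  push_cast
  ring_nf
  rw [I_sq]
  ring

lemma le_NTc (F : ℂ → ℂ) (β x z y : ℝ) (hy : 0 < y) (h : |x - z| ≤ β * y) :
    ENNReal.ofReal ‖F (z + y * I)‖ ≤ NTc F β x := by
  unfold NTc
  exact le_iSup_of_le z (le_iSup_of_le y (le_iSup_of_le ⟨hy, h⟩ le_rfl))

lemma NTc_lt_top (F : ℂ → ℂ) (hF : Nice F) (β x : ℝ) : NTc F β x ≠ ∞ := by
  obtain ⟨-, M, hM⟩ := hF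
  refine ne_top_of_le_ne_top (b := ENNReal.ofReal M) ENNReal.ofReal_ne_top ?_
  unfold NTc
  refine iSup_le fun z => iSup_le fun y => iSup_le fun h => ?_
  refine ENNReal.ofReal_le_ofReal (hM _ ?_)
  simp [h.1.le]

lemma NTc_mono (F : ℂ → ℂ) {β β' : ℝ} (hβ : β ≤ β') (x : ℝ) : NTc F β x ≤ NTc F β' x := by
  conv_lhs => unfold NTc
  refine iSup_le fun z => iSup_le fun y => iSup_le fun h => ?_
  exact le_NTc F β' x z y h.1 (h.2.trans (mul_le_mul_of_nonneg_right hβ h.1.le))

lemma norm_le (F : ℂ → ℂ) (hF : Nice F) (β x z y : ℝ) (hy : 0 < y) (h : |x - z| ≤ β * y) :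
    ‖F (z + y * I)‖ ≤ (NTc F β x).toReal := by
  have h1 := le_NTc F β x z y hy h
  rw [← ENNReal.toReal_ofReal (norm_nonneg (F (z + y * I)))]
  exact ENNReal.toReal_mono (NTc_lt_top F hF β x) h1

/-- The sine and cosine on the ray. -/
lemma ray (σ : ℝ) (hσ : σ = 1 ∨ σ = -1) (θ : ℝ) (h0 : 0 ≤ θ) (h1 : θ < Real.pi / 2) :
    0 < Real.cos (σ * θ) ∧ |Real.sin (σ * θ)| = Real.tan θ * Real.cos (σ * θ) := by
  have hc : 0 < Real.cos θ := Real.cos_pos_of_mem_Ioo ⟨by linarith [Real.pi_pos], h1⟩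
  have hs : 0 ≤ Real.sin θ := Real.sin_nonneg_of_nonneg_of_le_pi h0 (by linarith [Real.pi_pos])
  have ht : Real.tan θ * Real.cos θ = Real.sin θ := Real.tan_mul_cos hc.ne'
  rcases hσ with rfl | rfl
  · simp only [one_mul]
    exact ⟨hc, by rw [abs_of_nonneg hs, ht]⟩
  · simp only [neg_mul, one_mul, Real.cos_neg, Real.sin_neg, abs_neg]
    exact ⟨hc, by rw [abs_of_nonneg hs, ht]⟩

/-- Three lines on a ray. -/
lemma three (F : ℂ → ℂ) (hF : Nice F) (b b2 : ℝ) (hb : 0 ≤ b) (hb2 : b < b2) (x σ : ℝ)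
    (hσ : σ = 1 ∨ σ = -1) (s τ : ℝ) (hs0 : 0 ≤ s) (hs1 : s ≤ 1) :
    ‖F ((x : ℂ) + I * Complex.exp (σ * I * ((Real.arctan b : ℝ) + ((s : ℂ) + τ * I) *
      ((Real.arctan b2 - Real.arctan b : ℝ) : ℂ))))‖ ≤
      (NTc F b x).toReal ^ (1 - s) * (NTc F b2 x).toReal ^ s := by
  set p := Real.arctan b with hp
  set d := Real.arctan b2 - Real.arctan b with hd
  have hp0 : 0 ≤ p := by rw [hp]; exact Real.arctan_nonneg.2 hb
  have hd0 : 0 < d := by rw [hd]; linarith [Real.arctan_strictMono hb2]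
  have hpd : p + d < Real.pi / 2 := by
    rw [hp, hd]; linarith [Real.arctan_lt_pi_div_two b2]
  -- points of the strip
  have key : ∀ s' τ' : ℝ, 0 ≤ s' → s' ≤ 1 → ∃ z y : ℝ, 0 < y ∧
      |x - z| = Real.tan (p + s' * d) * y ∧
      (x : ℂ) + I * Complex.exp (σ * I * ((p : ℂ) + ((s' : ℂ) + τ' * I) * (d : ℂ))) =
        (z : ℂ) + y * I := by
    intro s' τ' h0 h1
    have hθ0 : 0 ≤ p + s' * d := by positivity
    have hθ1 : p + s' * d < Real.pi / 2 := by nlinarith
    obtain ⟨hc, hsn⟩ := ray σ hσ (p + s' * d) hθ0 hθ1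
    refine ⟨_, _, ?_, ?_, point x p d σ s' τ'⟩
    · exact mul_pos (Real.exp_pos _) hc
    · have e : x - (x + Real.exp (-(σ * τ' * d)) * (-Real.sin (σ * (p + s' * d)))) =
        Real.exp (-(σ * τ' * d)) * Real.sin (σ * (p + s' * d)) := by ring
      rw [e, abs_mul, abs_of_pos (Real.exp_pos _), hsn]
      ring
  have key2 : ∀ ζ : ℂ, 0 ≤ ζ.re → ζ.re ≤ 1 → ∃ z y : ℝ, 0 < y ∧
      |x - z| = Real.tan (p + ζ.re * d) * y ∧
      (x : ℂ) + I * Complex.exp (σ * I * ((p : ℂ) + ζ * (d : ℂ))) = (z : ℂ) + y * I := by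
    intro ζ h0 h1
    have := key ζ.re ζ.im h0 h1
    rwa [Complex.re_add_im] at this
  have him : ∀ ζ : ℂ, 0 ≤ ζ.re → ζ.re ≤ 1 →
      0 ≤ ((x : ℂ) + I * Complex.exp (σ * I * ((p : ℂ) + ζ * (d : ℂ)))).im := by
    intro ζ h0 h1
    obtain ⟨z, y, hy, -, e⟩ := key2 ζ h0 h1
    rw [e]
    simp [hy.le]
  obtain ⟨hdiff, M, hM⟩ := id hF
  have hdo : ∀ ζ : ℂ, 0 ≤ ζ.re → ζ.re ≤ 1 → DifferentiableAt ℂ
      (fun ζ : ℂ => F ((x : ℂ) + I * Complex.exp (σ * I * ((p : ℂ) + ζ * (d : ℂ))))) ζ := by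
    intro ζ h0 h1
    refine DifferentiableAt.comp ζ (g := F) (hdiff _ (him ζ h0 h1)) ?_
    fun_prop
  have hmem : ((s : ℂ) + τ * I) ∈ Complex.HadamardThreeLines.verticalClosedStrip 0 1 := by
    simp only [Complex.HadamardThreeLines.verticalClosedStrip, Set.mem_preimage, Set.mem_Icc,
      Complex.add_re, Complex.ofReal_re, Complex.mul_re, Complex.I_re, Complex.I_im,
      Complex.ofReal_im]
    constructor <;> linarith
  have := Complex.HadamardThreeLines.norm_le_interp_of_mem_verticalClosedStrip₀₁'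
    (fun ζ : ℂ => F ((x : ℂ) + I * Complex.exp (σ * I * ((p : ℂ) + ζ * (d : ℂ)))))
    (z := (s : ℂ) + τ * I) (a := (NTc F b x).toReal) (b := (NTc F b2 x).toReal) hmem ?_ ?_ ?_ ?_
  · simpa using this
  · refine DifferentiableOn.diffContOnCl ?_
    intro ζ hζ
    have hcl : closure (Complex.HadamardThreeLines.verticalStrip 0 1) ⊆
        {ζ : ℂ | 0 ≤ ζ.re ∧ ζ.re ≤ 1} := by
      refine closure_minimal ?_ ?_
      · intro w hw
        exact ⟨hw.1.le, hw.2.le⟩
      · exact (isClosed_le continuous_const Complex.continuous_re).inter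
          (isClosed_le Complex.continuous_re continuous_const)
    have := hcl hζ
    exact (hdo ζ this.1 this.2).differentiableWithinAt
  · refine ⟨M, ?_⟩
    rintro _ ⟨ζ, hζ, rfl⟩
    exact hM _ (him ζ hζ.1 hζ.2)
  · intro ζ hζ
    have h0 : ζ.re = 0 := hζ
    obtain ⟨z, y, hy, hxz, e⟩ := key2 ζ h0.ge (by rw [h0]; norm_num)
    simp only [e]
    refine norm_le F hF b x z y hy ?_
    rw [hxz, h0, zero_mul, add_zero, hp, Real.tan_arctan]
  · intro ζ hζ
    have h0 : ζ.re = 1 := hζ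
    obtain ⟨z, y, hy, hxz, e⟩ := key2 ζ (by rw [h0]; norm_num) h0.le
    simp only [e]
    refine norm_le F hF b2 x z y hy ?_
    have : p + 1 * d = Real.arctan b2 := by rw [hp, hd]; ring
    rw [hxz, h0, this, Real.tan_arctan]

/-- A point of a cone as a point on a ray. -/
lemma rep (x z y p d ψ : ℝ) (hy : 0 < y) (hd : 0 < d) (hψ0 : 0 ≤ ψ) (hψ : ψ < Real.pi / 2)
    (h : |x - z| = Real.tan ψ * y) :
    ∃ σ τ : ℝ, (σ = 1 ∨ σ = -1) ∧ (x : ℂ) + I * Complex.exp (σ * I * ((p : ℂ) +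
      ((((ψ - p) / d : ℝ) : ℂ) + τ * I) * (d : ℂ))) = (z : ℂ) + y * I := by
  have hc : 0 < Real.cos ψ := Real.cos_pos_of_mem_Ioo ⟨by linarith [Real.pi_pos], hψ⟩
  have ht : Real.tan ψ * Real.cos ψ = Real.sin ψ := Real.tan_mul_cos hc.ne'
  have hρ : 0 < y / Real.cos ψ := div_pos hy hc
  have hψe : p + (ψ - p) / d * d = ψ := by field_simp; ring
  rcases le_total 0 (x - z) with hx | hx
  · refine ⟨1, -(Real.log (y / Real.cos ψ) / d), Or.inl rfl, ?_⟩
    rw [point, hψe]
    have e1 : -(1 * -(Real.log (y / Real.cos ψ) / d) * d) = Real.log (y / Real.cos ψ) := by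
      field_simp
    rw [e1, Real.exp_log hρ, one_mul]
    rw [abs_of_nonneg hx] at h
    have e2 : x + y / Real.cos ψ * -Real.sin ψ = z := by
      rw [← ht]; field_simp; linarith
    have e3 : y / Real.cos ψ * Real.cos ψ = y := by field_simp
    rw [e2, e3]
  · refine ⟨-1, Real.log (y / Real.cos ψ) / d, Or.inr rfl, ?_⟩
    rw [point, hψe]
    have e1 : -(-1 * (Real.log (y / Real.cos ψ) / d) * d) = Real.log (y / Real.cos ψ) := by
      field_simp
    rw [e1, Real.exp_log hρ, neg_one_mul, Real.sin_neg, Real.cos_neg, neg_neg]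
    rw [abs_of_nonpos hx] at h
    have e2 : x + y / Real.cos ψ * Real.sin ψ = z := by
      rw [← ht]; field_simp; linarith
    have e3 : y / Real.cos ψ * Real.cos ψ = y := by field_simp
    rw [e2, e3]

end TL

open TL in
/-- Three lines theorem in the aperture angle. -/
theorem stTL : StTL := by
  intro F b b0 b2 hF hb hb0 hb02 x
  have hlt1 : Real.arctan b < Real.arctan b0 := Real.arctan_strictMono hb0
  have hlt2 : Real.arctan b0 < Real.arctan b2 := Real.arctan_strictMono hb02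
  have hd : 0 < Real.arctan b2 - Real.arctan b := by linarith
  have ht0 : 0 ≤ tt b b0 b2 := by unfold tt; exact div_nonneg (by linarith) hd.le
  have ht1 : tt b b0 b2 ≤ 1 := by unfold tt; rw [div_le_one hd]; linarith
  have hA : NTc F b x ≠ ∞ := NTc_lt_top F hF b x
  have hB : NTc F b2 x ≠ ∞ := NTc_lt_top F hF b2 x
  have hAB : (NTc F b x).toReal ≤ (NTc F b2 x).toReal :=
    ENNReal.toReal_mono hB (NTc_mono F (hb0.trans hb02).le x)
  have hA0 : 0 ≤ (NTc F b x).toReal := ENNReal.toReal_nonneg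
  have hB0 : 0 ≤ (NTc F b2 x).toReal := ENNReal.toReal_nonneg
  -- real inequality
  have hreal : ∀ z y : ℝ, 0 < y → |x - z| ≤ b0 * y → ‖F (z + y * I)‖ ≤
      (NTc F b x).toReal ^ (1 - tt b b0 b2) * (NTc F b2 x).toReal ^ (tt b b0 b2) := by
    intro z y hy hz
    rcases le_or_gt (|x - z|) (b * y) with hcase | hcase
    · have h1 := norm_le F hF b x z y hy hcase
      have h2 := interp_mono hA0 hAB le_rfl ht0 ht1
      simp only [sub_zero, Real.rpow_one, Real.rpow_zero, mul_one] at h2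
      exact h1.trans h2
    · -- the angle
      have hu : |x - z| = |x - z| / y * y := by field_simp
      set ψ := Real.arctan (|x - z| / y) with hψ
      have hψt : Real.tan ψ = |x - z| / y := by rw [hψ, Real.tan_arctan]
      have hψ0 : 0 ≤ ψ := by rw [hψ]; exact Real.arctan_nonneg.2 (by positivity)
      have hψp : ψ < Real.pi / 2 := by rw [hψ]; exact Real.arctan_lt_pi_div_two _
      have hψ1 : Real.arctan b ≤ ψ := by
        rw [hψ]; refine Real.arctan_strictMono.monotone ?_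
        rw [le_div_iff₀ hy]; exact hcase.le
      have hψ2 : ψ ≤ Real.arctan b0 := by
        rw [hψ]; refine Real.arctan_strictMono.monotone ?_
        rw [div_le_iff₀ hy]; exact hz
      obtain ⟨σ, τ, hσ, e⟩ := rep x z y (Real.arctan b) (Real.arctan b2 - Real.arctan b) ψ hy hd
        hψ0 hψp (by rw [hψt]; exact hu)
      have hs0 : 0 ≤ (ψ - Real.arctan b) / (Real.arctan b2 - Real.arctan b) :=
        div_nonneg (by linarith) hd.le
      have hst : (ψ - Real.arctan b) / (Real.arctan b2 - Real.arctan b) ≤ tt b b0 b2 := by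
        unfold tt
        exact div_le_div_of_nonneg_right (by linarith) hd.le
      have h3 := three F hF b b2 hb (hb0.trans hb02) x σ hσ _ τ hs0 (hst.trans ht1)
      rw [e] at h3
      exact h3.trans (interp_mono hA0 hAB hs0 hst ht1)
  conv_lhs => unfold NTc
  refine iSup_le fun z => iSup_le fun y => iSup_le fun h => ?_
  have h4 := ENNReal.ofReal_le_ofReal (hreal z y h.1 h.2)
  refine h4.trans (le_of_eq ?_)
  rw [ENNReal.ofReal_mul (Real.rpow_nonneg hA0 _),
    ← ENNReal.ofReal_rpow_of_nonneg hA0 (by linarith), ← ENNReal.ofReal_rpow_of_nonneg hB0 ht0,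
    ENNReal.ofReal_toReal hA, ENNReal.ofReal_toReal hB]

end Pool.Agent.Work.MP_055a27_an.Crit

end

section

/-!
# Properties of the test functions with the additional factor
-/

open MeasureTheory Set Filter Topology Complex Metric
open scoped ENNReal NNReal

namespace Pool.Agent.Work.MP_055a27_an.Crit

namespace TV

lemma norm_fac {V : ℝ → ℝ} (hV : Admissible V) {p ε : ℝ} (hε : 0 < ε) {z y : ℝ} (hy : 0 ≤ y) :
    ‖Complex.exp (-(schw V ((z : ℂ) + y * I + ε * I)) / p)‖ =
      Real.exp (-poisson V z (y + ε) / p) := by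
  rw [Complex.norm_exp]
  congr 1
  have h1 : (z : ℂ) + y * I + ε * I = z + ((y + ε : ℝ) : ℂ) * I := by
    push_cast
    ring
  rw [h1, Complex.div_ofReal_re, Complex.neg_re, schw_re hV (by linarith)]

lemma norm_fac_le {V : ℝ → ℝ} (hV : Admissible V) (hV0 : ∀ t, 0 ≤ V t) {p ε : ℝ} (hp : 0 < p)
    (hε : 0 < ε) {w : ℂ} (hw : 0 ≤ w.im) :
    ‖Complex.exp (-(schw V (w + ε * I)) / p)‖ ≤ 1 := by
  have h1 := norm_fac hV (p := p) hε (z := w.re) (y := w.im) hw
  rw [Complex.re_add_im] at h1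
  rw [h1]
  have h2 := TF.le_poisson hV (M := 0) (fun t => by simpa using hV0 t) (z := w.re)
    (y := w.im + ε) (by linarith)
  rw [Real.exp_le_one_iff]
  refine div_nonpos_of_nonpos_of_nonneg ?_ hp.le
  linarith

lemma diff_fac {V : ℝ → ℝ} (hV : Admissible V) {p ε : ℝ} (hε : 0 < ε) {w : ℂ}
    (hw : 0 ≤ w.im) :
    DifferentiableAt ℂ (fun w : ℂ => Complex.exp (-(schw V (w + ε * I)) / p)) w := by
  have him : 0 < (w + ε * I).im := by
    simp
    linarith
  have h1 : DifferentiableAt ℂ (fun w : ℂ => schw V (w + ε * I)) w :=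
    DifferentiableAt.comp (g := schw V) (f := fun w : ℂ => w + ε * I) w
      (hasDerivAt_schw hV him).differentiableAt (by fun_prop)
  exact (h1.fun_neg.div_const (p : ℂ)).cexp

end TV

theorem stTV : StTV := by
  intro U V M p ε x0 β k hU hV hV0 hp hε hβ
  have hd : ∀ ζ : ℂ, 0 ≤ ζ.im → DifferentiableAt ℂ (tF2 U M p ε x0 β k) ζ := fun ζ hζ =>
    TF.differentiableAt_tF2 hU k hε hβ hζ
  have hb : ∀ ζ : ℂ, 0 ≤ ζ.im → ‖tF2 U M p ε x0 β k ζ‖ ≤ Real.exp (M / p) := fun ζ hζ =>
    TF.norm_tF2_le hU k hp hε hβ hζ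
  have him : ∀ z y : ℝ, ((z : ℂ) + y * I).im = y := by
    intro z y
    simp
  refine ⟨⟨hd, _, hb⟩, ⟨fun w hw => (TV.diff_fac hV hε hw).fun_mul (hd w hw), Real.exp (M / p),
    ?_⟩, ?_, ?_⟩
  · intro w hw
    unfold tV
    rw [norm_mul]
    calc _ ≤ 1 * Real.exp (M / p) := mul_le_mul (TV.norm_fac_le hV hV0 hp hε hw) (hb w hw)
          (norm_nonneg _) zero_le_one
      _ = _ := one_mul _
  · intro z y hy
    unfold tV
    rw [norm_mul, TV.norm_fac hV hε hy.le]
  · intro z y hy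
    exact hb _ (by rw [him]; exact hy.le)

end Pool.Agent.Work.MP_055a27_an.Crit

end

section

/-!
# Basic facts about the averages over shadows
-/

open MeasureTheory Set Filter Topology Complex Metric
open scoped ENNReal NNReal

namespace Pool.Agent.Work.MP_055a27_an.Cr3

open Crit (lg cc CC Pk hU)

namespace Bas

lemma intPos {U : ℝ → ℝ} (hU : Wt U) {a c : ℝ} (hac : a < c) :
    0 < ∫ t in Icc a c, U t := by
  obtain ⟨⟨h0, hloc⟩, hpos, -⟩ := hU
  have hint : IntegrableOn U (Icc a c) volume := hloc.integrableOn_isCompact isCompact_Icc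
  rw [setIntegral_pos_iff_support_of_nonneg_ae (Eventually.of_forall h0) hint]
  have h1 : volume (Icc a c \ (Function.support U ∩ Icc a c)) = 0 := by
    have h2 : volume {x : ℝ | ¬ 0 < U x} = 0 := hpos
    refine measure_mono_null ?_ h2
    intro x hx hx2
    exact hx.2 ⟨ne_of_gt hx2, hx.1⟩
  have h3 : volume (Icc a c) ≤ volume (Function.support U ∩ Icc a c) := by
    calc volume (Icc a c) ≤ volume ((Icc a c \ (Function.support U ∩ Icc a c)) ∪
          (Function.support U ∩ Icc a c)) := by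
            apply measure_mono
            intro x hx
            by_cases h : x ∈ Function.support U ∩ Icc a c
            · exact Or.inr h
            · exact Or.inl ⟨hx, h⟩
      _ ≤ volume (Icc a c \ (Function.support U ∩ Icc a c)) +
          volume (Function.support U ∩ Icc a c) := measure_union_le _ _
      _ = volume (Function.support U ∩ Icc a c) := by rw [h1, zero_add]
  refine lt_of_lt_of_le ?_ h3
  rw [Real.volume_Icc]
  exact ENNReal.ofReal_pos.2 (by linarith)

lemma avgPos {la : ℝ} {U : ℝ → ℝ} {z y : ℝ} (hla : 0 < la) (hy : 0 < y) (hU : Wt U) :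
    0 < avg la U z y := by
  have h1 : 0 < la * y := mul_pos hla hy
  exact div_pos (intPos hU (by linarith)) hy

lemma contAvg {la : ℝ} {U : ℝ → ℝ} (hla : 0 < la) (hU : Wt U) :
    ContinuousOn (fun q : ℝ × ℝ => avg la U q.1 q.2) {q : ℝ × ℝ | 0 < q.2} := by
  obtain ⟨⟨h0, hloc⟩, hpos, -⟩ := hU
  have hii : ∀ a b : ℝ, IntervalIntegrable U volume a b := fun a b =>
    (hloc.integrableOn_isCompact (isCompact_uIcc (a := a) (b := b))).intervalIntegrable
  have hc : Continuous (fun b : ℝ => ∫ t in (0:ℝ)..b, U t) :=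
    intervalIntegral.continuous_primitive hii 0
  have h1 : ContinuousOn (fun q : ℝ × ℝ => ((∫ t in (0:ℝ)..(q.1 + la * q.2), U t) -
      ∫ t in (0:ℝ)..(q.1 - la * q.2), U t) / q.2) {q : ℝ × ℝ | 0 < q.2} := by
    apply ContinuousOn.div
    · apply Continuous.continuousOn
      apply Continuous.sub
      · exact hc.comp (by fun_prop)
      · exact hc.comp (by fun_prop)
    · exact continuous_snd.continuousOn
    · intro q hq
      exact ne_of_gt hq
  refine h1.congr ?_
  intro q hq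
  have hq2 : 0 < q.2 := hq
  have h2 : 0 < la * q.2 := mul_pos hla hq2
  simp only [avg]
  rw [integral_Icc_eq_integral_Ioc, ← intervalIntegral.integral_of_le (by linarith),
    intervalIntegral.integral_interval_sub_left (hii _ _) (hii _ _)]

lemma contGg {la : ℝ} {U : ℝ → ℝ} (hla : 0 < la) (hU : Wt U) :
    ContinuousOn (fun q : ℝ × ℝ => gg la U q.1 q.2) {q : ℝ × ℝ | 0 < q.2} := by
  have h1 : ContinuousOn (fun q : ℝ × ℝ => poisson (lg U) q.1 q.2) {q : ℝ × ℝ | 0 < q.2} :=
    Crit.stPCont (lg U) hU.2.2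
  have h2 : ContinuousOn (fun q : ℝ × ℝ => Real.log (avg la U q.1 q.2)) {q : ℝ × ℝ | 0 < q.2} :=
    ContinuousOn.log (contAvg hla hU) (fun q hq => ne_of_gt (avgPos hla hq hU))
  exact h1.sub h2

end Bas

/-- 1 Bas: basic facts. -/
theorem stBas : StBas := by
  refine ⟨fun la U z y hla hy hU => Bas.avgPos hla hy hU, ?_, ?_⟩
  · intro la U hla hU
    have hopen : IsOpen {q : ℝ × ℝ | 0 < q.2} := isOpen_lt continuous_const continuous_snd
    have hc := Bas.contGg hla hU
    refine ⟨hc, hopen.measurableSet, fun m => ⟨?_, ?_⟩⟩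
    · have h1 : MeasurableSet {q : ℝ × ℝ | 0 < q.2 ∧ m < gg la U q.1 q.2} := by
        have := hc.isOpen_inter_preimage hopen (isOpen_Ioi (a := m))
        exact this.measurableSet
      have h2 : {q : ℝ × ℝ | 0 < q.2 ∧ gg la U q.1 q.2 ≤ m} =
          {q : ℝ × ℝ | 0 < q.2} \ {q : ℝ × ℝ | 0 < q.2 ∧ m < gg la U q.1 q.2} := by
        ext q
        simp only [mem_setOf_eq, mem_diff, not_and, not_lt]
        exact ⟨fun h => ⟨h.1, fun _ => h.2⟩, fun h => ⟨h.1, h.2 h.1⟩⟩
      rw [h2]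
      exact hopen.measurableSet.diff h1
    · have h1 : MeasurableSet {q : ℝ × ℝ | 0 < q.2 ∧ gg la U q.1 q.2 < m} := by
        have := hc.isOpen_inter_preimage hopen (isOpen_Iio (a := m))
        exact this.measurableSet
      have h2 : {q : ℝ × ℝ | 0 < q.2 ∧ m ≤ gg la U q.1 q.2} =
          {q : ℝ × ℝ | 0 < q.2} \ {q : ℝ × ℝ | 0 < q.2 ∧ gg la U q.1 q.2 < m} := by
        ext q
        simp only [mem_setOf_eq, mem_diff, not_and, not_lt]
        exact ⟨fun h => ⟨h.1, fun _ => h.2⟩, fun h => ⟨h.1, h.2 h.1⟩⟩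
      rw [h2]
      exact hopen.measurableSet.diff h1
  · rintro la μ U ⟨hla, hlm, hU, C, hC, hsh⟩
    refine ⟨max 1 (Real.log C), le_max_left _ _, ?_⟩
    intro z y z' y' hy hy' hle
    have ha := Bas.avgPos (z := z) hla hy hU
    have hsub : Icc (z - la * y) (z + la * y) ⊆ Icc (z' - μ * y') (z' + μ * y') := by
      have h1 := abs_le.1 (le_refl |z' - z|)
      apply Icc_subset_Icc
      · linarith [h1.1, h1.2]
      · linarith [h1.1, h1.2]
    have h2 : ∫ t in Icc (z - la * y) (z + la * y), U t ≤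
        ∫ t in Icc (z' - μ * y') (z' + μ * y'), U t :=
      setIntegral_mono_set (hU.1.2.integrableOn_isCompact isCompact_Icc)
        (Eventually.of_forall hU.1.1) (HasSubset.Subset.eventuallyLE hsub)
    have h3 := hsh z' y' hy'
    have h4 : avg la U z y ≤ C * (y' / y) * Real.exp (poisson (lg U) z' y') := by
      rw [avg, div_le_iff₀ hy]
      calc _ ≤ _ := h2
        _ ≤ _ := h3
        _ = C * (y' / y) * Real.exp (poisson (lg U) z' y') * y := by
          field_simp
    have hyy : 0 < y' / y := div_pos hy' hy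
    have h5 : LL la U z y ≤ Real.log (C * (y' / y) * Real.exp (poisson (lg U) z' y')) :=
      Real.log_le_log ha h4
    rw [Real.log_mul (mul_pos hC hyy).ne' (Real.exp_pos _).ne', Real.log_mul hC.ne' hyy.ne',
      Real.log_exp] at h5
    have h6 := le_max_right 1 (Real.log C)
    linarith

end Pool.Agent.Work.MP_055a27_an.Cr3

end

section

/-!
# Item Jen: the Jensen inequalities
-/

open MeasureTheory Set Filter Topology
open scoped ENNReal NNReal

namespace Pool.Agent.Work.MP_055a27_an.Cr3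

open Crit (lg)

namespace Jen

/-- the tangent line of the logarithm -/
lemma tangent {x B : ℝ} (hx : 0 < x) (hB : 0 < B) : Real.log x ≤ Real.log B + (x - B) / B := by
  have h1 := Real.log_le_sub_one_of_pos (div_pos hx hB)
  rw [Real.log_div hx.ne' hB.ne'] at h1
  have h2 : (x - B) / B = x / B - 1 := by
    field_simp
  rw [h2]
  linarith

lemma intOn_lg {U : ℝ → ℝ} (hU : Admissible (lg U)) (a c : ℝ) :
    IntegrableOn (lg U) (Icc a c) volume := by
  have h1 : IntegrableOn (fun t : ℝ => lg U t / (1 + t ^ 2)) (Icc a c) volume :=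
    Integrable.integrableOn hU
  have h2 : IntegrableOn (fun t : ℝ => (1 + t ^ 2) * (lg U t / (1 + t ^ 2))) (Icc a c) volume :=
    h1.continuousOn_mul (by fun_prop) isCompact_Icc
  refine h2.congr_fun (fun t _ => ?_) measurableSet_Icc
  have : (1 + t ^ 2 : ℝ) ≠ 0 := by positivity
  field_simp

end Jen

open Jen in
theorem stJen : StJen := by
  intro U a c L hWt hac
  obtain ⟨⟨h0, hloc⟩, hpos, hadm⟩ := hWt
  have hℓ : 0 < c - a := sub_pos.2 hac
  have hi : IntegrableOn U (Icc a c) volume := hloc.integrableOn_isCompact isCompact_Icc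
  have hlgi := intOn_lg hadm a c
  have hposI : ∀ᵐ x ∂(volume.restrict (Icc a c)), 0 < U x := ae_restrict_of_ae hpos
  have hSpos : 0 < ∫ t in Icc a c, U t := by
    rw [setIntegral_pos_iff_support_of_nonneg_ae (ae_of_all _ h0) hi]
    have h1 : (Function.support U ∩ Icc a c : Set ℝ) =ᵐ[volume] Icc a c := by
      filter_upwards [hpos] with x hx
      apply propext
      show (x ∈ Function.support U ∩ Icc a c) ↔ x ∈ Icc a c
      rw [mem_inter_iff, Function.mem_support]
      exact ⟨fun h => h.2, fun h => ⟨hx.ne', h⟩⟩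
    rw [measure_congr h1, Real.volume_Icc]
    exact ENNReal.ofReal_pos.2 hℓ
  obtain ⟨A, hA⟩ : ∃ A, A = (∫ t in Icc a c, U t) / (c - a) := ⟨_, rfl⟩
  have hA0 : 0 < A := by rw [hA]; exact div_pos hSpos hℓ
  have hAS : ∫ t in Icc a c, U t = A * (c - a) := by
    rw [hA, div_mul_cancel₀ _ hℓ.ne']
  have hvol : (volume.restrict (Icc a c)).real univ = c - a := by
    rw [measureReal_restrict_apply_univ, Real.volume_real_Icc_of_le hac.le]
  -- integral of an affine function of `U`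
  have haff : ∀ p q : ℝ, IntegrableOn (fun t => p + (U t - A) * q) (Icc a c) volume ∧
      ∫ t in Icc a c, (p + (U t - A) * q) = (c - a) * p := by
    intro p q
    have hc : ∀ r : ℝ, IntegrableOn (fun _ : ℝ => r) (Icc a c) volume := fun r =>
      integrableOn_const (by rw [Real.volume_Icc]; exact ENNReal.ofReal_ne_top)
    have h1 : IntegrableOn (fun t => (U t - A) * q) (Icc a c) volume :=
      (hi.sub (hc A)).mul_const q
    refine ⟨(hc p).add h1, ?_⟩
    rw [integral_add (hc p) h1, integral_const, hvol, integral_mul_const,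
      integral_sub hi (hc A), integral_const, hvol, hAS, smul_eq_mul, smul_eq_mul]
    ring
  rw [← hA]
  constructor
  · obtain ⟨B, hB⟩ : ∃ B, B = 1 + Real.exp (-L) * A := ⟨_, rfl⟩
    have hB0 : 0 < B := by rw [hB]; positivity
    rw [← hB]
    obtain ⟨h1, h2⟩ := haff (Real.log B) (Real.exp (-L) / B)
    have h3 : ∀ᵐ t ∂(volume.restrict (Icc a c)),
        0 ≤ Real.log B + (U t - A) * (Real.exp (-L) / B) ∧
          lg U t - L ≤ Real.log B + (U t - A) * (Real.exp (-L) / B) := by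
      filter_upwards [hposI] with t ht
      have h4 : 0 < 1 + Real.exp (-L) * U t := by positivity
      have h5 := tangent h4 hB0
      have h6 : (1 + Real.exp (-L) * U t - B) / B = (U t - A) * (Real.exp (-L) / B) := by
        rw [hB]
        ring
      rw [h6] at h5
      have h7 : 0 ≤ Real.log (1 + Real.exp (-L) * U t) := by
        refine Real.log_nonneg ?_
        have : 0 < Real.exp (-L) * U t := by positivity
        linarith
      have h8 : lg U t - L ≤ Real.log (1 + Real.exp (-L) * U t) := by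
        have h9 : lg U t - L = Real.log (Real.exp (-L) * U t) := by
          rw [Real.log_mul (Real.exp_pos _).ne' ht.ne', Real.log_exp]
          unfold lg
          ring
        rw [h9]
        exact Real.log_le_log (by positivity) (by linarith)
      exact ⟨h7.trans h5, h8.trans h5⟩
    calc ∫⁻ t in Icc a c, ENNReal.ofReal (lg U t - L)
        ≤ ∫⁻ t in Icc a c, ENNReal.ofReal (Real.log B + (U t - A) * (Real.exp (-L) / B)) :=
          lintegral_mono_ae (h3.mono fun t ht => ENNReal.ofReal_le_ofReal ht.2)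
      _ = ENNReal.ofReal (∫ t in Icc a c, (Real.log B + (U t - A) * (Real.exp (-L) / B))) :=
          (ofReal_integral_eq_lintegral_ofReal h1 (h3.mono fun t ht => ht.1)).symm
      _ = ENNReal.ofReal ((c - a) * Real.log B) := by rw [h2]
  · obtain ⟨h1, h2⟩ := haff (Real.log A) A⁻¹
    rw [div_le_iff₀ hℓ, mul_comm, ← h2]
    refine integral_mono_ae hlgi h1 ?_
    filter_upwards [hposI] with t ht
    have h5 := tangent ht hA0
    rw [div_eq_mul_inv] at h5
    exact h5

end Pool.Agent.Work.MP_055a27_an.Cr3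

end
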