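import Pool.Agent.Work.MP_055a27_an.Bd.B04
import Pool.Agent.Work.MP_055a27_an.Fn.Stmts
import Pool.Agent.Work.MP_055a27_an.Crit.TFUp
import Pool.Agent.Work.MP_055a27_an.Bd.B06
import Pool.Agent.Work.MP_055a27_an.Sg.Stmts

/-! Bundle of small proof modules (one section per former module). -/

section

/-! Item Bd: boundary values of Poisson integrals. -/

set_option autoImplicit false

open MeasureTheory Set Filter Topology Complex Metric ComplexConjugate
open scoped ENNReal NNReal

namespace Pool.Agent.Work.MP_055a27_an.Nv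

namespace Bd

lemma loc {f : ℝ → ℝ} (hf : Admissible f) : LocallyIntegrable f volume := by
  rw [locallyIntegrable_iff]
  intro K hK
  have h1 : IntegrableOn (fun t : ℝ => f t / (1 + t ^ 2)) K volume := Integrable.integrableOn hf
  have h2 : IntegrableOn (fun t : ℝ => f t / (1 + t ^ 2) * (1 + t ^ 2)) K volume :=
    h1.mul_continuousOn (by fun_prop) hK
  refine h2.congr_fun_ae (Eventually.of_forall fun t => ?_)
  have : (1 + t ^ 2 : ℝ) ≠ 0 := by positivity
  simp only
  field_simp

lemma pk_nonneg {x y t : ℝ} (hy : 0 < y) : 0 ≤ pk x y t := by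
  unfold pk
  have hpi := Real.pi_pos
  positivity

lemma int_pk_mul {f : ℝ → ℝ} (hf : Admissible f) {x y : ℝ} (hy : 0 < y) :
    Integrable (fun t => pk x y t * f t) volume := by
  have hw : 0 < ((x : ℂ) + y * I).im := by simp [hy]
  set C : ℝ := (2 + (1 + 2 * ‖(x : ℂ) + y * I‖ ^ 2) / y ^ 2) with hC
  have hb : ∀ t : ℝ, ‖(1 + t ^ 2) * pk x y t‖ ≤ C * (y / Real.pi) := by
    intro t
    have h1 := one_add_sq_le (w := (x : ℂ) + y * I) hy (by simp) t
    have h2 : ‖(x : ℂ) + y * I - (t : ℂ)‖ ^ 2 = (x - t) ^ 2 + y ^ 2 := by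
      rw [← Complex.normSq_eq_norm_sq, Complex.normSq_apply]
      simp
      ring
    rw [h2, ← hC] at h1
    rw [Real.norm_of_nonneg (mul_nonneg (by positivity) (pk_nonneg hy))]
    have hpi := Real.pi_pos
    have h3 : 0 < (x - t) ^ 2 + y ^ 2 := by positivity
    unfold pk
    calc (1 + t ^ 2) * (y / (Real.pi * ((x - t) ^ 2 + y ^ 2)))
        ≤ (C * ((x - t) ^ 2 + y ^ 2)) * (y / (Real.pi * ((x - t) ^ 2 + y ^ 2))) :=
          mul_le_mul_of_nonneg_right h1 (by positivity)
      _ = C * (y / Real.pi) := by field_simp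
  have h1 := Integrable.mul_bdd (c := C * (y / Real.pi)) (f := fun t : ℝ => f t / (1 + t ^ 2))
    (g := fun t : ℝ => (1 + t ^ 2) * pk x y t) hf (by
      apply Measurable.aestronglyMeasurable
      unfold pk
      fun_prop) (Eventually.of_forall hb)
  refine h1.congr (Eventually.of_forall fun t => ?_)
  have : (1 + t ^ 2 : ℝ) ≠ 0 := by positivity
  simp only
  field_simp

lemma pois {f : ℝ → ℝ} {z y : ℝ} : poisson f z y = ∫ t, pk z y t * f t := by
  rw [poisson_eq_integral, ← integral_const_mul]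
  refine integral_congr_ae (Eventually.of_forall fun t => ?_)
  simp only [pk, div_eq_mul_inv, mul_inv]
  ring

lemma int_pk {x y : ℝ} (hy : 0 < y) : Integrable (fun t => pk x y t) volume := by
  have h := (integrable_kernel (z := x) hy).const_mul (y / Real.pi)
  refine h.congr (Eventually.of_forall fun t => ?_)
  simp only [pk]
  rw [div_mul_div_comm, mul_one]

lemma integral_pk {x y : ℝ} (hy : 0 < y) : ∫ t, pk x y t = 1 := by
  have h : ∀ t, pk x y t = (y / Real.pi) * (1 / ((x - t) ^ 2 + y ^ 2)) := by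
    intro t
    unfold pk
    rw [div_mul_div_comm, mul_one]
  simp_rw [h]
  rw [integral_const_mul, integral_kernel hy]
  have hpi := Real.pi_pos
  field_simp

lemma diff_le {f : ℝ → ℝ} (hf : Admissible f) {x y : ℝ} (hy : 0 < y) :
    ENNReal.ofReal |f x - poisson f x y| ≤
      ∫⁻ t, ENNReal.ofReal (pk x y t) * ENNReal.ofReal |f t - f x| := by
  have h1 : f x - poisson f x y = ∫ t, pk x y t * (f x - f t) := by
    simp_rw [mul_sub]
    rw [integral_sub ((int_pk hy).mul_const _) (int_pk_mul hf hy), integral_mul_const,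
      integral_pk hy, one_mul, pois]
  rw [h1, ← Real.enorm_eq_ofReal_abs]
  refine (enorm_integral_le_lintegral_enorm _).trans (lintegral_mono fun t => ?_)
  rw [Real.enorm_eq_ofReal_abs, abs_mul, abs_of_nonneg (pk_nonneg hy),
    ENNReal.ofReal_mul (pk_nonneg hy), abs_sub_comm]

/-- the part away from `x` -/
lemma far {f : ℝ → ℝ} (hf : Admissible f) (x : ℝ) {δ : ℝ} (hδ : 0 < δ) :
    ∃ K : ℝ≥0, ∀ y, 0 < y →
      ∫⁻ t in (Ioo (x - δ) (x + δ))ᶜ, ENNReal.ofReal (pk x y t) * ENNReal.ofReal |f t - f x| ≤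
        ENNReal.ofReal y * K := by
  have hpi := Real.pi_pos
  have hc : Admissible (fun _ => |f x|) := by
    unfold Admissible
    have := integrable_inv_one_add_sq.const_mul (|f x|)
    refine this.congr (Eventually.of_forall fun t => ?_)
    simp only
    rw [div_eq_mul_inv]
  have hfa : Admissible (fun t => |f t|) := by
    unfold Admissible
    refine (Integrable.abs hf).congr (Eventually.of_forall fun t => ?_)
    simp only
    rw [abs_div, abs_of_pos (by positivity : (0 : ℝ) < 1 + t ^ 2)]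
  have hi : Integrable (fun t => pk x δ t * |f t| + pk x δ t * |f x|) volume :=
    (int_pk_mul hfa hδ).add (int_pk_mul hc hδ)
  have hfin : ∫⁻ t, ENNReal.ofReal (pk x δ t * |f t| + pk x δ t * |f x|) ≠ ⊤ := by
    have := hi.lintegral_lt_top
    exact this.ne
  refine ⟨(ENNReal.ofReal (2 / δ) * ∫⁻ t, ENNReal.ofReal (pk x δ t * |f t| +
    pk x δ t * |f x|)).toNNReal, fun y hy => ?_⟩
  rw [ENNReal.coe_toNNReal (ENNReal.mul_ne_top ENNReal.ofReal_ne_top hfin), ← mul_assoc,
    ← ENNReal.ofReal_mul hy.le, ← lintegral_const_mul' _ _ ENNReal.ofReal_ne_top]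
  refine (lintegral_mono_ae ?_).trans (setLIntegral_le_lintegral _ _)
  filter_upwards [ae_restrict_mem measurableSet_Ioo.compl] with t ht
  rw [← ENNReal.ofReal_mul (pk_nonneg hy), ← ENNReal.ofReal_mul (by positivity)]
  apply ENNReal.ofReal_le_ofReal
  have h1 : δ ^ 2 ≤ (x - t) ^ 2 := by
    rw [sq_le_sq, abs_of_pos hδ]
    by_contra hcon
    push Not at hcon
    rw [abs_lt] at hcon
    exact ht ⟨by linarith [hcon.2], by linarith [hcon.1]⟩
  have h2 : |f t - f x| ≤ |f t| + |f x| := abs_sub _ _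
  have h3 : pk x y t ≤ y * (2 / δ) * pk x δ t := by
    unfold pk
    have h4 : 0 < (x - t) ^ 2 := lt_of_lt_of_le (by positivity) h1
    have h5 : y * (2 / δ) * (δ / (Real.pi * ((x - t) ^ 2 + δ ^ 2))) =
        (2 * y) / (Real.pi * ((x - t) ^ 2 + δ ^ 2)) := by
      field_simp
    rw [h5, div_le_div_iff₀ (by positivity) (by positivity)]
    have h6 : (x - t) ^ 2 + δ ^ 2 ≤ 2 * ((x - t) ^ 2 + y ^ 2) := by nlinarith [sq_nonneg y]
    nlinarith [mul_le_mul_of_nonneg_left h6 (by positivity : 0 ≤ y * Real.pi)]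
  calc pk x y t * |f t - f x| ≤ (y * (2 / δ) * pk x δ t) * (|f t| + |f x|) := by
        apply mul_le_mul h3 h2 (abs_nonneg _)
        have := pk_nonneg (x := x) (y := δ) (t := t) hδ
        positivity
    _ = y * (2 / δ) * (pk x δ t * |f t| + pk x δ t * |f x|) := by ring

end Bd

open Bd in
theorem I_Bd : StBd := by
  intro b f hb hf
  obtain ⟨C, hC⟩ := I_Pk b hb
  filter_upwards [IsUnifLocDoublingMeasure.ae_tendsto_average_norm_sub volume (loc hf) 1] with x hx
  have h1 : Tendsto (fun r : ℝ => ⨍ t in closedBall x r, ‖f t - f x‖) (𝓝[>] 0) (𝓝 0) := by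
    refine hx (fun _ => x) id tendsto_id ?_
    filter_upwards [self_mem_nhdsWithin] with r hr
    exact mem_closedBall_self (by simpa using (le_of_lt hr))
  refine ENNReal.le_of_forall_pos_le_add fun ε hε _ => ?_
  have hε' : (0 : ℝ) < ε := by exact_mod_cast hε
  set ε' : ℝ := ε / (2 * (C + 1)) with hε'd
  have hε'0 : 0 < ε' := by positivity
  obtain ⟨δ, hδ0, hδ⟩ : ∃ δ : ℝ, 0 < δ ∧ ∀ r : ℝ, 0 < r → r < δ →
      ⨍ t in closedBall x r, ‖f t - f x‖ < ε' := by
    have h2 := h1.eventually (gt_mem_nhds hε'0)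
    rw [eventually_nhdsWithin_iff, Metric.eventually_nhds_iff] at h2
    obtain ⟨δ, hδ0, hδ⟩ := h2
    refine ⟨δ, hδ0, fun r hr hrδ => hδ ?_ hr⟩
    rw [Real.dist_eq, sub_zero, abs_of_pos hr]
    exact hrδ
  have hδ2 : 0 < δ / 2 := by positivity
  obtain ⟨K, hK⟩ := far hf x hδ2
  -- the height
  set y : ℝ := ε / (2 * (K + 1)) with hyd
  have hy : 0 < y := by positivity
  have hmeas : AEMeasurable (fun t => ENNReal.ofReal |f t - f x|) volume := by
    have := (adm_measurable hf).aemeasurable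
    exact ((this.sub_const (f x)).abs).ennreal_ofReal
  set h : ℝ → ℝ≥0∞ := (Ioo (x - δ / 2) (x + δ / 2)).indicator
    (fun t => ENNReal.ofReal |f t - f x|) with hh
  have hhm : AEMeasurable h volume := hmeas.indicator measurableSet_Ioo
  have hmx : mx h x ≤ ENNReal.ofReal ε' := by
    unfold mx
    refine iSup₂_le fun r hr => ?_
    have hr2 : ENNReal.ofReal (2 * r) ≠ 0 := by
      rw [Ne, ENNReal.ofReal_eq_zero, not_le]; positivity
    rw [ENNReal.div_le_iff hr2 ENNReal.ofReal_ne_top]
    set ρ := min r (δ / 2) with hρ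
    have hρ0 : 0 < ρ := lt_min hr hδ2
    have hρδ : ρ < δ := lt_of_le_of_lt (min_le_right _ _) (by linarith)
    have h3 := hδ ρ hρ0 hρδ
    have hint : IntegrableOn (fun t => ‖f t - f x‖) (closedBall x ρ) volume := by
      have h4 := (locallyIntegrable_iff.1 (loc hf)) _ (isCompact_closedBall x ρ)
      exact (h4.sub (integrableOn_const (by
        rw [Real.volume_closedBall]; exact ENNReal.ofReal_ne_top))).norm
    have h5 : ∫ t in closedBall x ρ, ‖f t - f x‖ ≤ 2 * ρ * ε' := by
      rw [setAverage_eq, smul_eq_mul] at h3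
      have h6 : volume.real (closedBall x ρ) = 2 * ρ := by
        rw [Measure.real, Real.volume_closedBall, ENNReal.toReal_ofReal (by positivity)]
      rw [h6, inv_mul_lt_iff₀ (by positivity)] at h3
      exact h3.le
    calc ∫⁻ t in Ioo (x - r) (x + r), h t
        = ∫⁻ t in Ioo (x - r) (x + r) ∩ Ioo (x - δ / 2) (x + δ / 2),
            ENNReal.ofReal |f t - f x| := by
          rw [hh, setLIntegral_indicator measurableSet_Ioo, inter_comm]
      _ ≤ ∫⁻ t in closedBall x ρ, ENNReal.ofReal |f t - f x| := by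
          apply lintegral_mono_set
          rintro t ⟨h7, h8⟩
          rw [Real.closedBall_eq_Icc, hρ]
          constructor
          · rcases le_total r (δ / 2) with h9 | h9
            · rw [min_eq_left h9]; exact h7.1.le
            · rw [min_eq_right h9]; exact h8.1.le
          · rcases le_total r (δ / 2) with h9 | h9
            · rw [min_eq_left h9]; exact h7.2.le
            · rw [min_eq_right h9]; exact h8.2.le
      _ = ENNReal.ofReal (∫ t in closedBall x ρ, ‖f t - f x‖) := by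
          rw [ofReal_integral_eq_lintegral_ofReal hint
            (Eventually.of_forall fun t => norm_nonneg _)]
          rfl
      _ ≤ ENNReal.ofReal (2 * ρ * ε') := ENNReal.ofReal_le_ofReal h5
      _ ≤ ENNReal.ofReal (ε' * (2 * r)) := by
          apply ENNReal.ofReal_le_ofReal
          have : ρ ≤ r := min_le_left _ _
          nlinarith
      _ = ENNReal.ofReal ε' * ENNReal.ofReal (2 * r) := ENNReal.ofReal_mul hε'0.le
  have hnear : ∫⁻ t in Ioo (x - δ / 2) (x + δ / 2),
      ENNReal.ofReal (pk x y t) * ENNReal.ofReal |f t - f x| ≤ ENNReal.ofReal (ε / 2) := by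
    calc ∫⁻ t in Ioo (x - δ / 2) (x + δ / 2),
        ENNReal.ofReal (pk x y t) * ENNReal.ofReal |f t - f x|
        = ∫⁻ t, ENNReal.ofReal (pk x y t) * h t := by
          rw [← lintegral_indicator measurableSet_Ioo]
          refine lintegral_congr fun t => ?_
          rw [hh]
          by_cases ht : t ∈ Ioo (x - δ / 2) (x + δ / 2)
          · rw [indicator_of_mem ht, indicator_of_mem ht]
          · rw [indicator_of_notMem ht, indicator_of_notMem ht, mul_zero]
      _ ≤ C * mx h x := hC h hhm x x y hy (by rw [sub_self, abs_zero]; positivity)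
      _ ≤ C * ENNReal.ofReal ε' := by gcongr
      _ = ENNReal.ofReal (C * ε') := by
          rw [ENNReal.ofReal_mul (by positivity), ENNReal.ofReal_coe_nnreal]
      _ ≤ ENNReal.ofReal (ε / 2) := by
          apply ENNReal.ofReal_le_ofReal
          rw [hε'd, mul_div_assoc', div_le_div_iff₀ (by positivity) (by positivity)]
          have : (0 : ℝ) ≤ C := C.2
          nlinarith
  have hfar : ∫⁻ t in (Ioo (x - δ / 2) (x + δ / 2))ᶜ,
      ENNReal.ofReal (pk x y t) * ENNReal.ofReal |f t - f x| ≤ ENNReal.ofReal (ε / 2) := by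
    refine (hK y hy).trans ?_
    rw [← ENNReal.ofReal_coe_nnreal, ← ENNReal.ofReal_mul hy.le]
    apply ENNReal.ofReal_le_ofReal
    rw [hyd, div_mul_eq_mul_div, div_le_div_iff₀ (by positivity) (by positivity)]
    have : (0 : ℝ) ≤ K := K.2
    nlinarith
  have hd : ENNReal.ofReal |f x - poisson f x y| ≤ ε := by
    refine (diff_le hf hy).trans ?_
    rw [← lintegral_add_compl _ (measurableSet_Ioo (a := x - δ / 2) (b := x + δ / 2))]
    refine (add_le_add hnear hfar).trans ?_
    rw [← ENNReal.ofReal_add (by positivity) (by positivity), add_halves,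
      ENNReal.ofReal_coe_nnreal]
  calc ENNReal.ofReal |f x| ≤ ENNReal.ofReal (|poisson f x y| + |f x - poisson f x y|) := by
        apply ENNReal.ofReal_le_ofReal
        have := abs_add_le (poisson f x y) (f x - poisson f x y)
        rwa [add_sub_cancel] at this
    _ = ENNReal.ofReal |poisson f x y| + ENNReal.ofReal |f x - poisson f x y| :=
        ENNReal.ofReal_add (abs_nonneg _) (abs_nonneg _)
    _ ≤ ntMax b f x + ε := add_le_add (le_ntMax hy (by rw [sub_self, abs_zero]; positivity)) hd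

end Pool.Agent.Work.MP_055a27_an.Nv

end

section

set_option autoImplicit false

/-!
# The main lemma: lower bounds from intervals which nearly fill an interval
-/

open MeasureTheory Set Filter Topology Complex Metric
open scoped ENNReal NNReal

namespace Pool.Agent.Work.MP_055a27_an.Fn

namespace ClA

/-- The set `Y`. -/
def Ys (δ : ℝ) {n : ℕ} (α γ : Fin n → ℝ) : Set ℝ :=
  (⋃ i, Icc (α i) (γ i)) \ ⋃ i,
    (Ioo ((α i + γ i) / 2 - 3 / 2 * (γ i - α i) - δ * (γ i - α i))
      ((α i + γ i) / 2 - 3 / 2 * (γ i - α i) + δ * (γ i - α i)) ∪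
     Ioo ((α i + γ i) / 2 + 3 / 2 * (γ i - α i) - δ * (γ i - α i))
      ((α i + γ i) / 2 + 3 / 2 * (γ i - α i) + δ * (γ i - α i)))

/-- The compact set `K`. -/
def Ks (a M s : ℝ) {n : ℕ} (α γ x : Fin n → ℝ) : Set ℂ :=
  {w | w.im ≤ M * s ∧ (∃ i, |w.re - x i| ≤ a / 2 * w.im) ∧
    ∀ k, ¬(|w.re - (α k + γ k) / 2| < 3 / 2 * (γ k - α k) ∧ w.im < M * (γ k - α k))}

lemma Ys_meas (δ : ℝ) {n : ℕ} (α γ : Fin n → ℝ) : MeasurableSet (Ys δ α γ) := by
  unfold Ys
  apply MeasurableSet.diff
  · exact MeasurableSet.iUnion fun i => measurableSet_Icc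
  · exact MeasurableSet.iUnion fun i => measurableSet_Ioo.union measurableSet_Ioo

lemma Ks_im {a M s a0 : ℝ} {n : ℕ} {α γ x : Fin n → ℝ} (ha : 0 < a) (hM : 0 < M)
    (h : ∀ i, a0 ≤ α i ∧ α i < γ i ∧ γ i ≤ a0 + s ∧ α i ≤ x i ∧ x i ≤ γ i) {w : ℂ}
    (hw : w ∈ Ks a M s α γ x) : 0 < w.im := by
  obtain ⟨_, ⟨i, hi⟩, h3⟩ := hw
  obtain ⟨h1, h2, h4, h5, h6⟩ := h i
  have hL : 0 < γ i - α i := by linarith
  by_cases hc : w.im < M * (γ i - α i)
  · have hd : ¬ |w.re - (α i + γ i) / 2| < 3 / 2 * (γ i - α i) := fun hh => h3 i ⟨hh, hc⟩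
    push Not at hd
    have h7 : |w.re - (α i + γ i) / 2| ≤ |w.re - x i| + |x i - (α i + γ i) / 2| :=
      abs_sub_le _ _ _
    have h8 : |x i - (α i + γ i) / 2| ≤ (γ i - α i) / 2 := by
      rw [abs_le]; constructor <;> linarith
    have h9 : 0 < a / 2 * w.im := by linarith
    by_contra hneg
    push Not at hneg
    have : a / 2 * w.im ≤ 0 := mul_nonpos_of_nonneg_of_nonpos (by positivity) hneg
    linarith
  · push Not at hc
    have : 0 < M * (γ i - α i) := by positivity
    linarith

lemma Ks_closed (a M s : ℝ) {n : ℕ} (α γ x : Fin n → ℝ) : IsClosed (Ks a M s α γ x) := by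
  have e : Ks a M s α γ x = {w : ℂ | w.im ≤ M * s} ∩ (⋃ i, {w : ℂ | |w.re - x i| ≤ a / 2 * w.im}) ∩
      ⋂ k, {w : ℂ | |w.re - (α k + γ k) / 2| < 3 / 2 * (γ k - α k) ∧
        w.im < M * (γ k - α k)}ᶜ := by
    ext w
    simp only [Ks, mem_inter_iff, mem_iUnion, mem_iInter, mem_compl_iff, Set.mem_ofPred_eq]
    tauto
  rw [e]
  have hre := Complex.continuous_re
  have him := Complex.continuous_im
  refine IsClosed.inter (IsClosed.inter (isClosed_le him continuous_const) ?_) ?_
  · exact isClosed_iUnion_of_finite fun i =>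
      isClosed_le ((hre.sub continuous_const).abs) (continuous_const.mul him)
  · refine isClosed_iInter fun k => IsOpen.isClosed_compl ?_
    exact (isOpen_lt ((hre.sub continuous_const).abs) continuous_const).inter
      (isOpen_lt him continuous_const)

lemma Ks_compact {a M s a0 : ℝ} {n : ℕ} {α γ x : Fin n → ℝ} (ha : 0 < a) (hM : 0 < M)
    (h : ∀ i, a0 ≤ α i ∧ α i < γ i ∧ γ i ≤ a0 + s ∧ α i ≤ x i ∧ x i ≤ γ i) :
    IsCompact (Ks a M s α γ x) := by
  refine Metric.isCompact_of_isClosed_isBounded (Ks_closed a M s α γ x) ?_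
  have hb : Bornology.IsBounded
      (Icc (a0 - a / 2 * (M * s)) (a0 + s + a / 2 * (M * s)) ×ℂ Icc 0 (M * s)) :=
    (Metric.isBounded_Icc _ _).reProdIm (Metric.isBounded_Icc _ _)
  refine hb.subset fun w hw => ?_
  have h0 := Ks_im ha hM h hw
  obtain ⟨h1, ⟨i, hi⟩, _⟩ := hw
  obtain ⟨h3, h4, h5, h6, h7⟩ := h i
  have h8 := abs_le.1 hi
  have h9 : a / 2 * w.im ≤ a / 2 * (M * s) := mul_le_mul_of_nonneg_left h1 (by positivity)
  rw [Complex.mem_reProdIm]
  refine ⟨⟨?_, ?_⟩, ⟨h0.le, h1⟩⟩
  · linarith [h8.1]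
  · linarith [h8.2]

lemma Ks_frontier {a M s : ℝ} {n : ℕ} {α γ x : Fin n → ℝ} {w : ℂ}
    (hw : w ∈ frontier (Ks a M s α γ x)) : w ∈ Ks a M s α γ x ∧
    (M * s ≤ w.im ∨ (∀ i, a / 2 * w.im ≤ |w.re - x i|) ∨
      ∃ k, |w.re - (α k + γ k) / 2| ≤ 3 / 2 * (γ k - α k) ∧ w.im ≤ M * (γ k - α k)) := by
  have hK : w ∈ Ks a M s α γ x := (Ks_closed a M s α γ x).frontier_subset hw
  refine ⟨hK, ?_⟩
  by_contra hcon
  push Not at hcon
  obtain ⟨h1, ⟨i, h2⟩, h3⟩ := hcon
  have hre := Complex.continuous_re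
  have him := Complex.continuous_im
  have hopen : IsOpen ({w : ℂ | w.im < M * s} ∩ {w : ℂ | |w.re - x i| < a / 2 * w.im} ∩
      ⋂ k, {w : ℂ | |w.re - (α k + γ k) / 2| ≤ 3 / 2 * (γ k - α k) ∧
        w.im ≤ M * (γ k - α k)}ᶜ) := by
    refine IsOpen.inter (IsOpen.inter (isOpen_lt him continuous_const)
      (isOpen_lt ((hre.sub continuous_const).abs) (continuous_const.mul him))) ?_
    refine isOpen_iInter_of_finite fun k => ?_
    exact ((isClosed_le ((hre.sub continuous_const).abs) continuous_const).inter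
      (isClosed_le him continuous_const)).isOpen_compl
  have hsub : ({w : ℂ | w.im < M * s} ∩ {w : ℂ | |w.re - x i| < a / 2 * w.im} ∩
      ⋂ k, {w : ℂ | |w.re - (α k + γ k) / 2| ≤ 3 / 2 * (γ k - α k) ∧
        w.im ≤ M * (γ k - α k)}ᶜ) ⊆ Ks a M s α γ x := by
    intro v hv
    simp only [mem_inter_iff, mem_iInter, mem_compl_iff, Set.mem_ofPred_eq] at hv
    obtain ⟨⟨hv1, hv2⟩, hv3⟩ := hv
    refine ⟨hv1.le, ⟨i, hv2.le⟩, fun k hk => hv3 k ⟨hk.1.le, hk.2.le⟩⟩
  have hmem : w ∈ ({w : ℂ | w.im < M * s} ∩ {w : ℂ | |w.re - x i| < a / 2 * w.im} ∩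
      ⋂ k, {w : ℂ | |w.re - (α k + γ k) / 2| ≤ 3 / 2 * (γ k - α k) ∧
        w.im ≤ M * (γ k - α k)}ᶜ) := by
    simp only [mem_inter_iff, mem_iInter, mem_compl_iff, Set.mem_ofPred_eq]
    refine ⟨⟨h1, h2⟩, fun k hk => ?_⟩
    exact absurd hk.2 (not_le.2 (h3 k hk.1))
  have hint : w ∈ interior (Ks a M s α γ x) := mem_interior.2 ⟨_, hsub, hopen, hmem⟩
  have hw' : w ∈ closure (Ks a M s α γ x) \ interior (Ks a M s α γ x) := hw
  exact hw'.2 hint

lemma Vs_re {l : ℝ → ℝ} (hl : Admissible l) (c : ℝ) {w : ℂ} (hw : 0 < w.im) :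
    (Vs l c w).re = Vp l c w.re w.im := by
  have h1 : (schw l w).re = poisson l w.re w.im := by
    have := schw_re hl (z := w.re) hw
    rwa [Complex.re_add_im] at this
  unfold Vs Vp
  rw [Complex.sub_re, h1]
  simp

lemma Vs_diff {l : ℝ → ℝ} (hl : Admissible l) (c : ℝ) :
    DifferentiableOn ℂ (Vs l c) {w : ℂ | 0 < w.im} := by
  intro w hw
  have h1 := (hasDerivAt_schw hl hw).differentiableAt
  unfold Vs
  exact (h1.sub (by fun_prop)).differentiableWithinAt

/-- The total length. -/
lemma vol_union {n : ℕ} {α γ : Fin n → ℝ} (h : ∀ i, α i < γ i)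
    (hd : Pairwise (fun i j => Disjoint (Ioo (α i) (γ i)) (Ioo (α j) (γ j)))) :
    volume.real (⋃ i, Ioo (α i) (γ i)) = ∑ i, (γ i - α i) := by
  rw [measureReal_iUnion_fintype hd (fun i => measurableSet_Ioo)
    (fun i => measure_Ioo_lt_top.ne)]
  refine Finset.sum_congr rfl fun i _ => ?_
  rw [Real.volume_real_Ioo_of_le (h i).le]

lemma sum_le {n : ℕ} {α γ : Fin n → ℝ} {a0 s : ℝ} (hs : 0 < s)
    (h : ∀ i, a0 ≤ α i ∧ α i < γ i ∧ γ i ≤ a0 + s)
    (hd : Pairwise (fun i j => Disjoint (Ioo (α i) (γ i)) (Ioo (α j) (γ j)))) :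
    ∑ i, (γ i - α i) ≤ s := by
  rw [← vol_union (fun i => (h i).2.1) hd]
  calc volume.real (⋃ i, Ioo (α i) (γ i)) ≤ volume.real (Icc a0 (a0 + s)) := by
        apply measureReal_mono
        · apply iUnion_subset
          intro i t ht
          exact ⟨(h i).1.trans ht.1.le, ht.2.le.trans (h i).2.2⟩
        · exact (measure_Icc_lt_top).ne
    _ = s := by rw [Real.volume_real_Icc_of_le (by linarith)]; ring

lemma vol_rest {n : ℕ} {α γ : Fin n → ℝ} {a0 s : ℝ} (hs : 0 < s)
    (h : ∀ i, a0 ≤ α i ∧ α i < γ i ∧ γ i ≤ a0 + s)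
    (hd : Pairwise (fun i j => Disjoint (Ioo (α i) (γ i)) (Ioo (α j) (γ j)))) :
    volume.real (Icc a0 (a0 + s) \ ⋃ i, Icc (α i) (γ i)) ≤ s - ∑ i, (γ i - α i) := by
  have hsub : (⋃ i, Ioo (α i) (γ i)) ⊆ Icc a0 (a0 + s) := by
    apply iUnion_subset
    intro i t ht
    exact ⟨(h i).1.trans ht.1.le, ht.2.le.trans (h i).2.2⟩
  have hfin : volume (Icc a0 (a0 + s)) ≠ ∞ := (measure_Icc_lt_top).ne
  calc volume.real (Icc a0 (a0 + s) \ ⋃ i, Icc (α i) (γ i))
      ≤ volume.real (Icc a0 (a0 + s) \ ⋃ i, Ioo (α i) (γ i)) := by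
        apply measureReal_mono
        · apply sdiff_subset_sdiff_right
          exact iUnion_mono fun i => Ioo_subset_Icc_self
        · exact (lt_of_le_of_lt (measure_mono sdiff_subset) measure_Icc_lt_top).ne
    _ = volume.real (Icc a0 (a0 + s)) - volume.real (⋃ i, Ioo (α i) (γ i)) := by
        rw [measureReal_sdiff hsub (MeasurableSet.iUnion fun i => measurableSet_Ioo)]
    _ = s - ∑ i, (γ i - α i) := by
        rw [vol_union (fun i => (h i).2.1) hd, Real.volume_real_Icc_of_le (by linarith)]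
        ring

lemma vol_N {n : ℕ} {α γ : Fin n → ℝ} {a0 s δ ε : ℝ} (hs : 0 < s) (hδ : 0 < δ)
    (h : ∀ i, a0 ≤ α i ∧ α i < γ i ∧ γ i ≤ a0 + s)
    (hd : Pairwise (fun i j => Disjoint (Ioo (α i) (γ i)) (Ioo (α j) (γ j))))
    (hsum : (1 - ε) * s ≤ ∑ i, (γ i - α i)) :
    volume.real (Icc a0 (a0 + s) \ Ys δ α γ) ≤ ε * s + 4 * δ * s := by
  set J : Fin n → Set ℝ := fun i =>
    (Ioo ((α i + γ i) / 2 - 3 / 2 * (γ i - α i) - δ * (γ i - α i))
      ((α i + γ i) / 2 - 3 / 2 * (γ i - α i) + δ * (γ i - α i)) ∪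
     Ioo ((α i + γ i) / 2 + 3 / 2 * (γ i - α i) - δ * (γ i - α i))
      ((α i + γ i) / 2 + 3 / 2 * (γ i - α i) + δ * (γ i - α i))) with hJ
  have hJv : ∀ i, volume.real (J i) ≤ 4 * δ * (γ i - α i) := by
    intro i
    have hL : 0 < γ i - α i := by linarith [(h i).2.1]
    have hL2 : 0 < δ * (γ i - α i) := by positivity
    refine (measureReal_union_le _ _).trans ?_
    rw [Real.volume_real_Ioo_of_le (by linarith), Real.volume_real_Ioo_of_le (by linarith)]
    linarith
  have hJfin : ∀ i, volume (J i) ≠ ∞ := by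
    intro i
    exact (measure_union_lt_top measure_Ioo_lt_top measure_Ioo_lt_top).ne
  have hsub : Icc a0 (a0 + s) \ Ys δ α γ ⊆
      (Icc a0 (a0 + s) \ ⋃ i, Icc (α i) (γ i)) ∪ ⋃ i, J i := by
    intro t ht
    by_cases h1 : t ∈ ⋃ i, J i
    · exact Or.inr h1
    · left
      refine ⟨ht.1, fun h2 => ht.2 ⟨h2, h1⟩⟩
  have hfin1 : volume (Icc a0 (a0 + s) \ ⋃ i, Icc (α i) (γ i)) ≠ ∞ :=
    (lt_of_le_of_lt (measure_mono sdiff_subset) measure_Icc_lt_top).ne
  have hfin2 : volume (⋃ i, J i) ≠ ∞ := by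
    refine (lt_of_le_of_lt (measure_iUnion_fintype_le _ _) ?_).ne
    exact ENNReal.sum_lt_top.2 fun i _ => lt_of_le_of_ne le_top (hJfin i)
  calc volume.real (Icc a0 (a0 + s) \ Ys δ α γ)
      ≤ volume.real ((Icc a0 (a0 + s) \ ⋃ i, Icc (α i) (γ i)) ∪ ⋃ i, J i) :=
        measureReal_mono hsub (measure_union_lt_top (lt_of_le_of_ne le_top hfin1)
          (lt_of_le_of_ne le_top hfin2)).ne
    _ ≤ volume.real (Icc a0 (a0 + s) \ ⋃ i, Icc (α i) (γ i)) + volume.real (⋃ i, J i) :=
        measureReal_union_le _ _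
    _ ≤ (s - ∑ i, (γ i - α i)) + ∑ i, 4 * δ * (γ i - α i) := by
        apply add_le_add (vol_rest hs h hd)
        refine (measureReal_iUnion_fintype_le _).trans ?_
        exact Finset.sum_le_sum fun i _ => hJv i
    _ ≤ ε * s + 4 * δ * s := by
        rw [← Finset.mul_sum]
        have h1 := sum_le hs h hd
        have h2 : 4 * δ * ∑ i, (γ i - α i) ≤ 4 * δ * s :=
          mul_le_mul_of_nonneg_left h1 (by positivity)
        linarith

lemma arctan_le_self' {x : ℝ} (hx : 0 ≤ x) : Real.arctan x ≤ x := by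
  have h := Real.le_tan (x := Real.arctan x) (Real.arctan_nonneg.2 hx)
    (Real.arctan_lt_pi_div_two x)
  rwa [Real.tan_arctan] at h

/-- Numerical estimate at the evaluation point. -/
lemma eval_num {η τ : ℝ} (hη : η < 1) (hτ : τ = (1 - η) / 4) :
    (1 + η) / 2 ≤ 2 / Real.pi * Real.arctan (1 / (2 * τ)) - (1 - η) / (2 * Real.pi) := by
  have hpi := Real.pi_gt_three
  have hτ0 : 0 < τ := by rw [hτ]; linarith
  have h1 : Real.arctan (1 / (2 * τ)) = Real.pi / 2 - Real.arctan (2 * τ) := by
    rw [one_div]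
    exact Real.arctan_inv_of_pos (by positivity)
  have h2 : Real.arctan (2 * τ) ≤ 2 * τ := arctan_le_self' (by positivity)
  rw [h1]
  have h3 : 2 / Real.pi * (Real.pi / 2 - Real.arctan (2 * τ)) ≥ 1 - 2 / Real.pi * (2 * τ) := by
    have h4 : 2 / Real.pi * (Real.pi / 2 - Real.arctan (2 * τ)) =
        1 - 2 / Real.pi * Real.arctan (2 * τ) := by
      field_simp
    rw [h4]
    have : 2 / Real.pi * Real.arctan (2 * τ) ≤ 2 / Real.pi * (2 * τ) :=
      mul_le_mul_of_nonneg_left h2 (by positivity)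
    linarith
  have h5 : 2 / Real.pi * (2 * τ) + (1 - η) / (2 * Real.pi) = 3 * (1 - η) / (2 * Real.pi) := by
    rw [hτ]
    field_simp
    ring
  have h6 : 3 * (1 - η) / (2 * Real.pi) ≤ (1 - η) / 2 := by
    rw [div_le_div_iff₀ (by positivity) (by norm_num)]
    nlinarith
  linarith

lemma le_A {A v : ℝ} (hA : 1 ≤ A) (hv : 0 ≤ v) : v ≤ A * v := by nlinarith

lemma cube_le {C : ℝ} (hC : 1 ≤ C) : C ≤ 2 * C ^ 3 := by
  have h1 : 1 ≤ C ^ 2 := one_le_pow₀ hC
  have h2 : C * 1 ≤ C * C ^ 2 := mul_le_mul_of_nonneg_left h1 (by linarith)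
  have h3 : C * C ^ 2 = C ^ 3 := by ring
  linarith

lemma two_le {a M v : ℝ} (h : 8 ≤ a * M) (hv : 0 ≤ v) : 2 * v ≤ a / 2 * (M * v) := by
  have h1 : 8 * v ≤ a * M * v := mul_le_mul_of_nonneg_right h hv
  have h2 : a / 2 * (M * v) = a * M * v / 2 := by ring
  linarith

lemma top_num {s M η y : ℝ} (hs : 0 < s) (hM : 2 ≤ M) (hη : 1 / 2 ≤ η) (hy : M * s ≤ y) :
    s ≤ η * (Real.pi * y) := by
  have hpi := Real.pi_gt_three
  have h1 : 2 * s ≤ M * s := mul_le_mul_of_nonneg_right hM hs.le
  have h2 : 2 * s ≤ y := h1.trans hy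
  have h3 : 3 * (2 * s) ≤ Real.pi * y := mul_le_mul hpi.le h2 (by positivity) (by positivity)
  have h4 : 1 / 2 * (3 * (2 * s)) ≤ η * (Real.pi * y) :=
    mul_le_mul hη h3 (by positivity) (by linarith)
  linarith

lemma cone_num {a M y L : ℝ} (hM : 0 < M) (haM : 8 ≤ a * M) (hy : 0 < y)
    (h : a / 4 * y < L) : y < M * L := by
  have h1 : M * (a / 4 * y) < M * L := mul_lt_mul_of_pos_left h hM
  have h2 : 8 * y ≤ a * M * y := mul_le_mul_of_nonneg_right haM hy.le
  have h3 : M * (a / 4 * y) = a * M * y / 4 := by ring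
  linarith

lemma side_num {δ M y L : ℝ} (hδ : δ ≤ 1 / 2) (hM : 2 ≤ M) (hL : 0 < L) (h : y < δ * L) :
    y < M * L := by
  have h1 : δ * L ≤ 1 / 2 * L := mul_le_mul_of_nonneg_right hδ hL.le
  have h2 : 2 * L ≤ M * L := mul_le_mul_of_nonneg_right hM hL.le
  linarith

/-- The constants. -/
lemma consts {a : ℝ} (ha : 0 < a) :
    ∃ η τ δ : ℝ, 1 / 2 ≤ η ∧ η < 1 ∧ 1 - 2 / Real.pi * Real.arctan (a / 4) ≤ η ∧
      τ = (1 - η) / 4 ∧ 0 < τ ∧ τ ≤ 1 / 8 ∧ 0 < δ ∧ δ ≤ 1 / 2 ∧ 5 * δ / (Real.pi * τ) ≤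
        (1 - η) / (2 * Real.pi) ∧ 2 * δ ≤ a * τ / 4 ∧ 2 * δ ≤ 1 / 2 := by
  have hpi := Real.pi_pos
  have hat : 0 < Real.arctan (a / 4) := Real.arctan_pos.2 (by positivity)
  set η := max (1 / 2) (1 - 2 / Real.pi * Real.arctan (a / 4)) with hη
  have h1 : 1 / 2 ≤ η := le_max_left _ _
  have h2 : η < 1 := by
    rw [hη]
    refine max_lt (by norm_num) ?_
    have : 0 < 2 / Real.pi * Real.arctan (a / 4) := by positivity
    linarith
  have h3 : 1 - 2 / Real.pi * Real.arctan (a / 4) ≤ η := le_max_right _ _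
  have hτ : 0 < (1 - η) / 4 := by linarith
  set δ := min ((1 - η) * ((1 - η) / 4) / 10) (min (a * ((1 - η) / 4) / 4) (1 / 2) / 2) with hδ
  have hδ0 : 0 < δ := by
    rw [hδ]
    refine lt_min ?_ ?_
    · have : 0 < 1 - η := by linarith
      positivity
    · have : 0 < min (a * ((1 - η) / 4) / 4) (1 / 2) := lt_min (by positivity) (by norm_num)
      positivity
  have hδ1 : δ ≤ (1 - η) * ((1 - η) / 4) / 10 := min_le_left _ _
  have hδ2 : δ ≤ min (a * ((1 - η) / 4) / 4) (1 / 2) / 2 := min_le_right _ _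
  have hm1 : min (a * ((1 - η) / 4) / 4) (1 / 2) ≤ a * ((1 - η) / 4) / 4 := min_le_left _ _
  have hm2 : min (a * ((1 - η) / 4) / 4) (1 / 2) ≤ 1 / 2 := min_le_right _ _
  refine ⟨η, (1 - η) / 4, δ, h1, h2, h3, rfl, hτ, by linarith, hδ0, by linarith, ?_, by linarith,
    by linarith⟩
  rw [div_le_div_iff₀ (by positivity) (by positivity)]
  have : 5 * δ ≤ (1 - η) * ((1 - η) / 4) / 2 := by linarith
  calc 5 * δ * (2 * Real.pi) ≤ (1 - η) * ((1 - η) / 4) / 2 * (2 * Real.pi) :=
        mul_le_mul_of_nonneg_right this (by positivity)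
    _ = (1 - η) * (Real.pi * ((1 - η) / 4)) := by ring

end ClA

open ClA in
theorem stClA (hHch : StHch) (hMx : StMx) (hPd : StPd) : StClA := by
  intro a ha
  refine ⟨max 1 (8 / a) + 1, by have := le_max_left 1 (8 / a); linarith, ?_⟩
  intro M hM
  have hM1 : 2 ≤ M := by have := le_max_left 1 (8 / a); linarith
  have hM8 : 8 / a ≤ M := by have := le_max_right 1 (8 / a); linarith
  have hM0 : 0 < M := by linarith
  have haM : 8 ≤ a * M := by
    rw [div_le_iff₀ ha] at hM8
    linarith
  obtain ⟨η, τ, δ, hη1, hη2, hη3, hτ, hτ0, hτ8, hδ0, hδ1, hδ2, hδ3, hδ4⟩ := consts ha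
  -- the Harnack constant
  set A : ℝ := max 1 (max (M / δ) (max (M / τ) (4 / (a * τ)))) with hA
  have hA1 : 1 ≤ A := le_max_left _ _
  have hA2 : M / δ ≤ A := (le_max_left _ _).trans (le_max_right _ _)
  have hA3 : M / τ ≤ A := ((le_max_left _ _).trans (le_max_right _ _)).trans (le_max_right _ _)
  have hA4 : 4 / (a * τ) ≤ A :=
    ((le_max_right _ _).trans (le_max_right _ _)).trans (le_max_right _ _)
  obtain ⟨C, hC1, hHar⟩ := hHch a (a / 2) A (by positivity) (by linarith) hA1
  have hC0 : 0 < C := by linarith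
  refine ⟨δ, 1 / (2 * C ^ 3), hδ0, hδ1, by positivity, ?_, ?_⟩
  · rw [div_le_one (by positivity)]
    have : 1 ≤ C ^ 3 := one_le_pow₀ hC1
    linarith
  intro l c m kk a0 s n α γ x hl hs hkk hint hdis hsum hlow hval
  have hint3 : ∀ i, a0 ≤ α i ∧ α i < γ i ∧ γ i ≤ a0 + s := fun i =>
    ⟨(hint i).1, (hint i).2.1, (hint i).2.2.1⟩
  have hLs : ∀ i, γ i - α i ≤ s := by
    intro i
    linarith [(hint3 i).1, (hint3 i).2.2]
  have hLp : ∀ i, 0 < γ i - α i := by
    intro i
    linarith [(hint3 i).2.1]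
  have hxc : ∀ i, |(α i + γ i) / 2 - x i| ≤ (γ i - α i) / 2 := by
    intro i
    obtain ⟨_, _, _, h4, h5⟩ := hint i
    rw [abs_le]
    constructor <;> linarith
  -- Harnack chains
  have har : ∀ i, ∀ z y z' y' : ℝ, 0 < y → 0 < y' → |z - x i| ≤ a / 2 * y →
      |z' - x i| ≤ a / 2 * y' → y ≤ A * y' → y' ≤ A * y → y ≤ M * s → y' ≤ M * s →
      Vp l c z y - m ≤ C * (Vp l c z' y' - m) := by
    intro i z y z' y' h1 h2 h3 h4 h5 h6 h7 h8
    have hlow' : LowB a (2 * M * s) m c {x i} l := by
      intro x' hx' z y hy1 hy2 hz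
      rw [mem_singleton_iff] at hx'
      exact hlow x' (by rw [hx']; exact mem_range_self i) z y hy1 hy2 hz
    exact (hHar l c (x i) (2 * M * s) m hl hlow' z y z' y' h1 h2 h3 h4 h5 h6 (by linarith)
      (by linarith)).1
  -- the lower bound on closed cones
  have hu0 : ∀ i, ∀ z y : ℝ, 0 < y → y ≤ M * s → |z - x i| ≤ a / 2 * y →
      0 ≤ Vp l c z y - m := by
    intro i z y hy1 hy2 hz
    have hMs : 0 < M * s := by positivity
    have hay : 0 < a * y := mul_pos ha hy1
    have := hlow (x i) (mem_range_self i) z y hy1 (by linarith) (by linarith)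
    linarith
  -- comparison with the top
  have htop : ∀ k, s ≤ A * (γ k - α k) → kk ≤ C * (Vp l c (a0 + s / 2) (M * s) - m) := by
    intro k hk
    obtain ⟨g1, g2, g3, g4, g5⟩ := hint k
    have hL := hLp k
    have h1 := hval k
    have h2 := har k ((α k + γ k) / 2) (M * (γ k - α k)) (a0 + s / 2) (M * s) (by positivity)
      (by positivity) ((hxc k).trans (by linarith [two_le haM hL.le])) (by
        have : |a0 + s / 2 - x k| ≤ s / 2 := by
          rw [abs_le]
          constructor <;> linarith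
        linarith [two_le haM hs.le]) (by
        have := hLs k
        have h3 : M * (γ k - α k) ≤ M * s := mul_le_mul_of_nonneg_left this hM0.le
        have h4 : M * s ≤ A * (M * s) := le_A hA1 (by positivity)
        linarith) (by
        calc M * s ≤ M * (A * (γ k - α k)) := mul_le_mul_of_nonneg_left hk hM0.le
          _ = A * (M * (γ k - α k)) := by ring)
      (mul_le_mul_of_nonneg_left (hLs k) hM0.le) le_rfl
    linarith
  have hfinish : kk ≤ C * (Vp l c (a0 + s / 2) (M * s) - m) →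
      1 / (2 * C ^ 3) * kk ≤ Vp l c (a0 + s / 2) (M * s) - m := by
    intro h
    have h1 : kk / C ≤ Vp l c (a0 + s / 2) (M * s) - m := by
      rw [div_le_iff₀ hC0]
      linarith
    refine le_trans ?_ h1
    rw [div_mul_eq_mul_div, one_mul]
    exact div_le_div_of_nonneg_left hkk hC0 (cube_le hC1)
  -- the set Y
  have hYm := Ys_meas δ α γ
  obtain ⟨hYadm, hYp⟩ := hPd (Ys δ α γ) hYm
  set pY : ℝ → ℝ → ℝ := poisson ((Ys δ α γ).indicator fun _ => (1 : ℝ)) with hpY
  have hYsub : Ys δ α γ ⊆ Icc a0 (a0 + s) := by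
    intro t ht
    obtain ⟨i, hi⟩ := mem_iUnion.1 ht.1
    exact ⟨(hint3 i).1.trans hi.1, hi.2.trans (hint3 i).2.2⟩
  have hYfin : volume (Ys δ α γ) ≠ ∞ :=
    (lt_of_le_of_lt (measure_mono hYsub) measure_Icc_lt_top).ne
  have hYvol : volume.real (Ys δ α γ) ≤ s := by
    calc volume.real (Ys δ α γ) ≤ volume.real (Icc a0 (a0 + s)) :=
          measureReal_mono hYsub measure_Icc_lt_top.ne
      _ = s := by rw [Real.volume_real_Icc_of_le (by linarith)]; ring
  -- the inequality on K
  have hKc := Ks_compact (s := s) ha hM0 hint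
  set e1 : ℝ := 1 / C ^ 2 with he1
  have he10 : 0 < e1 := by positivity
  have hKin : ∀ w ∈ Ks a M s α γ x,
      e1 * kk * ((pY w.re w.im - η) / (1 - η)) ≤ Vp l c w.re w.im - m := by
    have hG := hMx (Ks a M s α γ x)
      (fun w => Vs l c w - m - (e1 * kk / (1 - η) : ℝ) *
        (Vs ((Ys δ α γ).indicator fun _ => (1 : ℝ)) 0 w - η)) hKc
      (fun w hw => Ks_im ha hM0 hint hw) (by
        apply DifferentiableOn.sub
        · exact (Vs_diff hl c).sub (differentiableOn_const _)
        · apply DifferentiableOn.const_mul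
          exact (Vs_diff hYadm 0).sub (differentiableOn_const _))
    have hre : ∀ w : ℂ, 0 < w.im → (Vs l c w - m - (e1 * kk / (1 - η) : ℝ) *
        (Vs ((Ys δ α γ).indicator fun _ => (1 : ℝ)) 0 w - η)).re =
        Vp l c w.re w.im - m - e1 * kk * ((pY w.re w.im - η) / (1 - η)) := by
      intro w hw
      rw [Complex.sub_re, Complex.sub_re, Vs_re hl c hw, Complex.re_ofReal_mul, Complex.sub_re,
        Vs_re hYadm 0 hw]
      simp only [Vp, Complex.ofReal_re, zero_mul, add_zero, hpY]
      ring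
    have hfr : ∀ w ∈ frontier (Ks a M s α γ x), 0 ≤ (Vs l c w - m - (e1 * kk / (1 - η) : ℝ) *
        (Vs ((Ys δ α γ).indicator fun _ => (1 : ℝ)) 0 w - η)).re := by
      intro w hw
      obtain ⟨hwK, hcase⟩ := Ks_frontier hw
      have hw0 := Ks_im ha hM0 hint hwK
      rw [hre w hw0]
      obtain ⟨hws, ⟨i, hi⟩, hbox⟩ := hwK
      have hu := hu0 i w.re w.im hw0 hws hi
      obtain ⟨⟨hp0, hp1⟩, hp2, hp3, _⟩ := hYp w.re w.im hw0
      -- it is enough that `v ≤ 0`
      have hvneg : pY w.re w.im ≤ η →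
          0 ≤ Vp l c w.re w.im - m - e1 * kk * ((pY w.re w.im - η) / (1 - η)) := by
        intro hv
        have h1 : (pY w.re w.im - η) / (1 - η) ≤ 0 :=
          div_nonpos_of_nonpos_of_nonneg (by linarith) (by linarith)
        have h2 : e1 * kk * ((pY w.re w.im - η) / (1 - η)) ≤ 0 :=
          mul_nonpos_of_nonneg_of_nonpos (by positivity) h1
        linarith
      rcases hcase with h1 | h2 | ⟨k, hk1, hk2⟩
      · -- the top
        apply hvneg
        have h3 := hp2 hYfin
        refine h3.trans ?_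
        rw [div_le_iff₀ (by positivity)]
        exact hYvol.trans (top_num hs hM1 hη1 h1)
      · -- outside the cones
        apply hvneg
        have h4 := hp3 (a / 4 * w.im) (by positivity) (by
          rw [Set.eq_empty_iff_forall_notMem]
          rintro t ⟨ht1, ht2⟩
          obtain ⟨k, hk⟩ := mem_iUnion.1 ht1.1
          obtain ⟨g1, g2, g3, g4, g5⟩ := hint k
          have ht3 : |w.re - t| < a / 4 * w.im := by
            rw [abs_lt]
            constructor <;> linarith [ht2.1, ht2.2]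
          have h5 : |t - x k| ≤ γ k - α k := by
            rw [abs_le]
            constructor <;> linarith [hk.1, hk.2]
          have h6 : |t - (α k + γ k) / 2| ≤ (γ k - α k) / 2 := by
            rw [abs_le]
            constructor <;> linarith [hk.1, hk.2]
          have h7 : |w.re - x k| ≤ |w.re - t| + |t - x k| := abs_sub_le _ _ _
          have h8 : |w.re - (α k + γ k) / 2| ≤ |w.re - t| + |t - (α k + γ k) / 2| :=
            abs_sub_le _ _ _
          have h9 := h2 k
          have h10 : a / 4 * w.im < γ k - α k := by linarith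
          exact hbox k ⟨by linarith, cone_num hM0 haM hw0 h10⟩)
        refine h4.trans ?_
        have h5 : a / 4 * w.im / w.im = a / 4 := by field_simp
        rw [h5]
        exact hη3
      · have hL := hLp k
        by_cases hc : δ * (γ k - α k) ≤ w.im
        · -- comparable to the value over the interval
          have h3 : Vp l c w.re (M * (γ k - α k)) - m ≤ C * (Vp l c w.re w.im - m) := by
            apply har i w.re (M * (γ k - α k)) w.re w.im (by positivity) hw0
              (hi.trans (mul_le_mul_of_nonneg_left hk2 (by positivity))) hi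
            · have h4 : M / δ * (δ * (γ k - α k)) ≤ A * w.im :=
                mul_le_mul hA2 hc (by positivity) (by linarith)
              have h5 : M / δ * (δ * (γ k - α k)) = M * (γ k - α k) := by field_simp
              linarith
            · exact hk2.trans (le_A hA1 (by positivity))
            · exact mul_le_mul_of_nonneg_left (hLs k) hM0.le
            · exact hws
          have h4 : Vp l c ((α k + γ k) / 2) (M * (γ k - α k)) - m ≤
              C * (Vp l c w.re (M * (γ k - α k)) - m) := by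
            have h5 : |w.re - x k| ≤ |w.re - (α k + γ k) / 2| + |(α k + γ k) / 2 - x k| :=
              abs_sub_le _ _ _
            have h6 := hxc k
            have h7 := two_le haM hL.le
            apply har k _ _ _ _ (by positivity) (by positivity) (by linarith) (by linarith)
            · exact le_A hA1 (by positivity)
            · exact le_A hA1 (by positivity)
            · exact mul_le_mul_of_nonneg_left (hLs k) hM0.le
            · exact mul_le_mul_of_nonneg_left (hLs k) hM0.le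
          have h5 := hval k
          have h6 : kk ≤ C ^ 2 * (Vp l c w.re w.im - m) := by
            calc kk ≤ C * (Vp l c w.re (M * (γ k - α k)) - m) := h5.trans h4
              _ ≤ C * (C * (Vp l c w.re w.im - m)) := mul_le_mul_of_nonneg_left h3 hC0.le
              _ = _ := by ring
          have h7 : e1 * kk ≤ Vp l c w.re w.im - m := by
            rw [he1, div_mul_eq_mul_div, one_mul, div_le_iff₀ (by positivity)]
            linarith
          have h8 : (pY w.re w.im - η) / (1 - η) ≤ 1 := by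
            rw [div_le_one (by linarith)]
            linarith
          have h9 : e1 * kk * ((pY w.re w.im - η) / (1 - η)) ≤ e1 * kk * 1 :=
            mul_le_mul_of_nonneg_left h8 (by positivity)
          linarith
        · -- the sides of the box
          push Not at hc
          apply hvneg
          have h3 : w.im < M * (γ k - α k) := side_num hδ1 hM1 hL hc
          have h4 : ¬ |w.re - (α k + γ k) / 2| < 3 / 2 * (γ k - α k) := fun h => hbox k ⟨h, h3⟩
          push Not at h4
          have h5 : |w.re - (α k + γ k) / 2| = 3 / 2 * (γ k - α k) := le_antisymm hk1 h4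
          have h6 := hp3 (δ * (γ k - α k)) (by positivity) (by
            rw [Set.eq_empty_iff_forall_notMem]
            rintro t ⟨ht1, ht2⟩
            apply ht1.2
            rw [mem_iUnion]
            refine ⟨k, ?_⟩
            rcases abs_cases (w.re - (α k + γ k) / 2) with ⟨h7, _⟩ | ⟨h7, _⟩
            · right
              constructor <;> linarith [ht2.1, ht2.2]
            · left
              constructor <;> linarith [ht2.1, ht2.2])
          refine h6.trans ?_
          have h7 : Real.pi / 4 ≤ Real.arctan (δ * (γ k - α k) / w.im) := by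
            rw [← Real.arctan_one]
            apply Real.arctan_le_arctan_iff.2
            rw [le_div_iff₀ hw0]
            linarith
          have h8 : 2 / Real.pi * (Real.pi / 4) ≤
              2 / Real.pi * Real.arctan (δ * (γ k - α k) / w.im) :=
            mul_le_mul_of_nonneg_left h7 (by positivity)
          have h9 : 2 / Real.pi * (Real.pi / 4) = 1 / 2 := by field_simp; norm_num
          linarith
    intro w hw
    have h1 := hG hfr w hw
    rw [hre w (Ks_im ha hM0 hint hw)] at h1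
    linarith
  -- evaluation
  have hev : (1 + η) / 2 ≤ pY (a0 + s / 2) (τ * s) := by
    obtain ⟨_, _, _, h4⟩ := hYp (a0 + s / 2) (τ * s) (by positivity)
    have hNfin : volume (Icc a0 (a0 + s) \ Ys δ α γ) ≠ ∞ :=
      (lt_of_le_of_lt (measure_mono sdiff_subset) measure_Icc_lt_top).ne
    have h5 := h4 (s / 2) (Icc a0 (a0 + s) \ Ys δ α γ) (by positivity)
      (measurableSet_Icc.diff hYm) hNfin (by
        rw [union_sdiff_self]
        have e1 : a0 + s / 2 - s / 2 = a0 := by ring
        have e2 : a0 + s / 2 + s / 2 = a0 + s := by ring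
        rw [e1, e2]
        exact subset_union_right)
    have h6 := vol_N (ε := δ) hs hδ0 hint3 hdis hsum
    have h7 := eval_num hη2 hτ
    have e3 : s / 2 / (τ * s) = 1 / (2 * τ) := by field_simp
    rw [e3] at h5
    have h8 : volume.real (Icc a0 (a0 + s) \ Ys δ α γ) / (Real.pi * (τ * s)) ≤
        5 * δ / (Real.pi * τ) := by
      rw [div_le_div_iff₀ (by positivity) (by positivity)]
      have h9 : volume.real (Icc a0 (a0 + s) \ Ys δ α γ) ≤ 5 * δ * s := by linarith
      calc volume.real (Icc a0 (a0 + s) \ Ys δ α γ) * (Real.pi * τ)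
          ≤ 5 * δ * s * (Real.pi * τ) := mul_le_mul_of_nonneg_right h9 (by positivity)
        _ = 5 * δ * (Real.pi * (τ * s)) := by ring
    linarith
  by_cases hcone : ∃ i, |a0 + s / 2 - x i| ≤ a / 2 * (τ * s)
  · by_cases hbox : ∃ k, |a0 + s / 2 - (α k + γ k) / 2| < 3 / 2 * (γ k - α k) ∧
        τ * s < M * (γ k - α k)
    · obtain ⟨k, _, hk⟩ := hbox
      apply hfinish
      apply htop k
      have hL := hLp k
      have h1 : M / τ * (γ k - α k) ≤ A * (γ k - α k) := mul_le_mul_of_nonneg_right hA3 hL.le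
      have h2 : s ≤ M / τ * (γ k - α k) := by
        rw [div_mul_eq_mul_div, le_div_iff₀ hτ0]
        linarith
      linarith
    · push Not at hbox
      have hmem : (⟨a0 + s / 2, τ * s⟩ : ℂ) ∈ Ks a M s α γ x := by
        refine ⟨?_, hcone, ?_⟩
        · show τ * s ≤ M * s
          exact mul_le_mul_of_nonneg_right (by linarith) hs.le
        · rintro k ⟨h1, h2⟩
          have := hbox k h1
          exact absurd h2 (not_lt.2 this)
      have h1 := hKin _ hmem
      simp only at h1
      have h2 : 1 / 2 ≤ (pY (a0 + s / 2) (τ * s) - η) / (1 - η) := by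
        rw [le_div_iff₀ (by linarith)]
        linarith
      have h3 : e1 * kk * (1 / 2) ≤ e1 * kk * ((pY (a0 + s / 2) (τ * s) - η) / (1 - η)) :=
        mul_le_mul_of_nonneg_left h2 (by positivity)
      obtain ⟨i, hi⟩ := hcone
      have h4 : Vp l c (a0 + s / 2) (τ * s) - m ≤ C * (Vp l c (a0 + s / 2) (M * s) - m) := by
        apply har i _ _ _ _ (by positivity) (by positivity) hi
        · refine hi.trans ?_
          apply mul_le_mul_of_nonneg_left _ (by positivity)
          exact mul_le_mul_of_nonneg_right (by linarith) hs.le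
        · have h5 : τ * s ≤ M * s := mul_le_mul_of_nonneg_right (by linarith) hs.le
          exact h5.trans (le_A hA1 (by positivity))
        · have h5 : M / τ * (τ * s) ≤ A * (τ * s) :=
            mul_le_mul_of_nonneg_right hA3 (by positivity)
          have h6 : M / τ * (τ * s) = M * s := by field_simp
          linarith
        · exact mul_le_mul_of_nonneg_right (by linarith) hs.le
        · exact le_rfl
      have h5 : e1 * kk * (1 / 2) ≤ C * (Vp l c (a0 + s / 2) (M * s) - m) := by linarith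
      have h6 : 1 / (2 * C ^ 3) * kk = e1 * kk * (1 / 2) / C := by
        rw [he1]
        field_simp
      rw [h6, div_le_iff₀ hC0]
      linarith
  · -- no point of the cone
    push Not at hcone
    have hex : ∃ k, ∃ t ∈ Icc (α k) (γ k), |t - (a0 + s / 2)| < a * τ / 4 * s := by
      by_contra hno
      push Not at hno
      set h := min (a * τ / 4) (1 / 2) * s with hh
      have hmin0 : 0 < min (a * τ / 4) (1 / 2) := lt_min (by positivity) (by norm_num)
      have hh0 : 0 < h := by positivity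
      have hh1 : h ≤ a * τ / 4 * s := mul_le_mul_of_nonneg_right (min_le_left _ _) hs.le
      have hh2 : h ≤ 1 / 2 * s := mul_le_mul_of_nonneg_right (min_le_right _ _) hs.le
      have hh3 : 2 * δ * s ≤ h := mul_le_mul_of_nonneg_right (le_min hδ3 hδ4) hs.le
      have hsub : Ioo (a0 + s / 2 - h) (a0 + s / 2 + h) ⊆
          Icc a0 (a0 + s) \ ⋃ i, Icc (α i) (γ i) := by
        intro t ht
        refine ⟨⟨by linarith [ht.1], by linarith [ht.2]⟩, fun ht2 => ?_⟩
        obtain ⟨k, hk⟩ := mem_iUnion.1 ht2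
        have h1 := hno k t hk
        have h2 : |t - (a0 + s / 2)| < h := by
          rw [abs_lt]
          constructor <;> linarith [ht.1, ht.2]
        linarith
      have h1 : volume.real (Ioo (a0 + s / 2 - h) (a0 + s / 2 + h)) ≤
          volume.real (Icc a0 (a0 + s) \ ⋃ i, Icc (α i) (γ i)) :=
        measureReal_mono hsub (lt_of_le_of_lt (measure_mono sdiff_subset) measure_Icc_lt_top).ne
      rw [Real.volume_real_Ioo_of_le (by linarith)] at h1
      have h2 := vol_rest hs hint3 hdis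
      have h3 : 0 < δ * s := by positivity
      linarith
    obtain ⟨k, t, ht, ht2⟩ := hex
    apply hfinish
    apply htop k
    have hL := hLp k
    obtain ⟨g1, g2, g3, g4, g5⟩ := hint k
    have h1 := hcone k
    have h2 : |a0 + s / 2 - x k| ≤ |a0 + s / 2 - t| + |t - x k| := abs_sub_le _ _ _
    have h3 : |t - x k| ≤ γ k - α k := by
      rw [abs_le]
      constructor <;> linarith [ht.1, ht.2]
    rw [abs_sub_comm] at ht2
    have h4 : a * τ / 4 * s < γ k - α k := by linarith
    have h5 : 4 / (a * τ) * (γ k - α k) ≤ A * (γ k - α k) := mul_le_mul_of_nonneg_right hA4 hL.le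
    have h6 : s ≤ 4 / (a * τ) * (γ k - α k) := by
      rw [div_mul_eq_mul_div, le_div_iff₀ (by positivity)]
      linarith
    linarith

end Pool.Agent.Work.MP_055a27_an.Fn

end

section

/-!
# Sets of density near one
-/

set_option autoImplicit false

open MeasureTheory Set Filter Topology Complex Metric
open scoped ENNReal NNReal

namespace Pool.Agent.Work.MP_055a27_an.Fn

namespace HM0

lemma lowB_mono {a T m c : ℝ} {E E' : Set ℝ} {l : ℝ → ℝ} (h : E' ⊆ E) (hE : LowB a T m c E l) :
    LowB a T m c E' l := fun x hx => hE x (h hx)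

/-- Disjoint intervals with centres in `X` which nearly cover `X`. -/
lemma cover (X : Set ℝ) (R : ℝ → ℝ) (hR : ∀ x ∈ X, 0 < R x) (q : ℝ)
    (hX : ENNReal.ofReal q < volume X) : ∃ (n : ℕ) (x r : Fin n → ℝ), (∀ i, x i ∈ X) ∧
    (∀ i, 0 < r i ∧ r i < R (x i)) ∧
    Pairwise (fun i j => Disjoint (Ioo (x i - r i) (x i + r i)) (Ioo (x j - r j) (x j + r j))) ∧
    q ≤ ∑ i, 2 * r i := by
  obtain ⟨t, r, htc, htX, hr, hcov, hdis⟩ :=
    Besicovitch.exists_disjoint_closedBall_covering_ae (volume : Measure ℝ) (fun _ => univ) X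
      (fun x _ δ hδ => ⟨δ / 2, mem_univ _, by constructor <;> linarith⟩) R hR
  have h1 : volume X ≤ ∑' x : t, ENNReal.ofReal (2 * r x) := by
    calc volume X ≤ volume ((X \ ⋃ x ∈ t, closedBall x (r x)) ∪ ⋃ x ∈ t, closedBall x (r x)) :=
          measure_mono (by
            intro z hz
            by_cases h : z ∈ ⋃ x ∈ t, closedBall x (r x)
            · exact Or.inr h
            · exact Or.inl ⟨hz, h⟩)
      _ ≤ volume (X \ ⋃ x ∈ t, closedBall x (r x)) + volume (⋃ x ∈ t, closedBall x (r x)) :=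
          measure_union_le _ _
      _ = volume (⋃ x ∈ t, closedBall x (r x)) := by rw [hcov, zero_add]
      _ ≤ ∑' x : t, volume (closedBall (x : ℝ) (r x)) := measure_biUnion_le _ htc _
      _ = ∑' x : t, ENNReal.ofReal (2 * r x) := by
          congr 1
          funext x
          rw [Real.volume_closedBall]
  have h2 := hX.trans_le h1
  rw [ENNReal.tsum_eq_iSup_sum, lt_iSup_iff] at h2
  obtain ⟨F, hF⟩ := h2
  have hpos : ∀ x : t, 0 < r x := fun x => (hr x x.2).2.1
  refine ⟨F.card, fun i => ((F.equivFin.symm i : t) : ℝ), fun i => r (F.equivFin.symm i : t),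
    fun i => htX (F.equivFin.symm i : t).2, fun i => (hr _ (F.equivFin.symm i : t).2).2, ?_, ?_⟩
  · intro i j hij
    have hne : ((F.equivFin.symm i : t) : ℝ) ≠ ((F.equivFin.symm j : t) : ℝ) := by
      intro h
      exact hij (F.equivFin.symm.injective (Subtype.ext (Subtype.ext h)))
    have := hdis (F.equivFin.symm i : t).2 (F.equivFin.symm j : t).2 hne
    refine Disjoint.mono ?_ ?_ this
    · intro z hz
      show z ∈ closedBall _ _
      rw [Real.closedBall_eq_Icc]
      exact Ioo_subset_Icc_self hz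
    · intro z hz
      show z ∈ closedBall _ _
      rw [Real.closedBall_eq_Icc]
      exact Ioo_subset_Icc_self hz
  · rw [← ENNReal.ofReal_sum_of_nonneg (fun x _ => by have := hpos x; linarith)] at hF
    have h3 := (ENNReal.lt_ofReal_iff_toReal_lt ENNReal.ofReal_ne_top).1 hF
    have h4 : q ≤ (ENNReal.ofReal q).toReal := by
      rw [ENNReal.toReal_ofReal']
      exact le_max_left _ _
    have h5 : ∑ x ∈ F, 2 * r x = ∑ i : Fin F.card, 2 * r (F.equivFin.symm i : t) := by
      rw [← Finset.sum_coe_sort F (fun x => 2 * r x)]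
      exact (Equiv.sum_comp F.equivFin.symm (fun x : F => 2 * r (x : t))).symm
    rw [← h5]
    linarith

end HM0

theorem stHM0 (hClA : StClA) (hLb : StLb) : StHM0 := by
  intro a ha
  obtain ⟨M0A, hM0A, hA⟩ := hClA a ha
  refine ⟨max M0A (1 / a + 1), le_max_of_le_left hM0A, ?_⟩
  intro M hM
  obtain ⟨εA, eA, hεA, hεA2, heA, heA1, hA⟩ := hA M ((le_max_left _ _).trans hM)
  have hM2 : 1 / a + 1 ≤ M := (le_max_right _ _).trans hM
  have hM1 : 1 ≤ M := by
    have : 0 < 1 / a := by positivity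
    linarith
  have haM : 1 < a * M := by
    have : a * (1 / a + 1) = 1 + a := by field_simp
    nlinarith
  refine ⟨εA / 2, eA / 2, by positivity, by linarith, by positivity, ?_⟩
  intro l c m H a0 s X hl hs hH hXm hXs hXv hLow hlX
  have hXr : volume X ≠ ∞ := ((measure_mono hXs).trans_lt measure_Icc_lt_top).ne
  rcases hH.eq_or_lt with rfl | hH
  · have hne : X.Nonempty := by
      rw [nonempty_iff_ne_empty]
      rintro rfl
      simp only [measureReal_empty] at hXv
      nlinarith
    obtain ⟨x, hx⟩ := hne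
    have hx2 := hXs hx
    have := hLow x hx (a0 + s / 2) (M * s) (by positivity) (by nlinarith) (by
      have h1 : |a0 + s / 2 - x| ≤ s / 2 := by
        rw [abs_le]
        constructor <;> linarith [hx2.1, hx2.2]
      have h2 : s < a * (M * s) := by nlinarith
      linarith)
    linarith
  · -- the good points
    have hlim := hLb l c hl
    set X' : Set ℝ := {x | x ∈ X ∧ x ∈ Ioo a0 (a0 + s) ∧
      Tendsto (fun y => Vp l c x y) (𝓝[>] 0) (𝓝 (l x)) ∧ m + H ≤ l x} with hX'
    have hXX' : volume X ≤ volume X' := by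
      have h1 : volume (X \ X') = 0 := by
        have h2 : ∀ᵐ x, x ∉ X \ X' := by
          have h3 : ∀ᵐ x : ℝ, x ≠ a0 := by
            rw [ae_iff]; simp
          have h4 : ∀ᵐ x : ℝ, x ≠ a0 + s := by
            rw [ae_iff]; simp
          filter_upwards [hlim, hlX, h3, h4] with x h5 h6 h7 h8 h9
          refine h9.2 ⟨h9.1, ⟨lt_of_le_of_ne (hXs h9.1).1 (Ne.symm h7),
            lt_of_le_of_ne (hXs h9.1).2 h8⟩, h5, h6 h9.1⟩
        exact measure_eq_zero_iff_ae_notMem.2 h2
      calc volume X ≤ volume ((X \ X') ∪ X') := measure_mono (by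
            intro z hz
            by_cases h : z ∈ X'
            · exact Or.inr h
            · exact Or.inl ⟨hz, h⟩)
        _ ≤ volume (X \ X') + volume X' := measure_union_le _ _
        _ = volume X' := by rw [h1, zero_add]
    have hR : ∀ x : ℝ, ∃ R : ℝ, x ∈ X' → 0 < R ∧ ∀ r : ℝ, 0 < r → r < R →
        a0 ≤ x - r ∧ x + r ≤ a0 + s ∧ H / 2 ≤ Vp l c x (M * (2 * r)) - m := by
      intro x
      by_cases hx : x ∈ X'
      · obtain ⟨_, hx2, hx3, hx4⟩ := hx
        have h1 : ∀ᶠ y in 𝓝[>] (0 : ℝ), m + H / 2 < Vp l c x y :=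
          hx3.eventually (lt_mem_nhds (by linarith))
        rw [eventually_nhdsWithin_iff, Metric.eventually_nhds_iff] at h1
        obtain ⟨δ, hδ, h2⟩ := h1
        refine ⟨min (δ / (2 * M)) (min (x - a0) (a0 + s - x)), fun _ => ⟨?_, ?_⟩⟩
        · exact lt_min (by positivity) (lt_min (by linarith [hx2.1]) (by linarith [hx2.2]))
        · intro r hr hrR
          have h3 := hrR.trans_le (min_le_left _ _)
          have h4 := hrR.trans_le ((min_le_right _ _).trans (min_le_left _ _))
          have h5 := hrR.trans_le ((min_le_right _ _).trans (min_le_right _ _))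
          refine ⟨by linarith, by linarith, ?_⟩
          have h6 : M * (2 * r) < δ := by
            rw [lt_div_iff₀ (by positivity)] at h3
            linarith
          have h7 : 0 < M * (2 * r) := by positivity
          have := h2 (y := M * (2 * r)) (by
            rw [Real.dist_eq, sub_zero, abs_of_pos h7]; exact h6) h7
          linarith
      · exact ⟨0, fun h => absurd h hx⟩
    choose R hR using hR
    obtain ⟨n, x, r, hxX, hrR, hdis, hsum⟩ := HM0.cover X' R (fun x hx => (hR x hx).1)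
      ((1 - εA) * s) (by
        refine lt_of_lt_of_le ?_ hXX'
        rw [ENNReal.ofReal_lt_iff_lt_toReal (by nlinarith) hXr]
        have : volume.real X = (volume X).toReal := rfl
        rw [← this]
        nlinarith)
    have h1 := hA l c m (H / 2) a0 s n (fun i => x i - r i) (fun i => x i + r i) x hl hs
      (by linarith) (fun i => ?_) hdis ?_ ?_ (fun i => ?_)
    · linarith
    · obtain ⟨h2, h3, _⟩ := (hR (x i) (hxX i)).2 (r i) (hrR i).1 (hrR i).2
      have h4 := (hrR i).1
      exact ⟨h2, by linarith, h3, by linarith, by linarith⟩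
    · refine hsum.trans (le_of_eq ?_)
      refine Finset.sum_congr rfl fun i _ => ?_
      ring
    · refine HM0.lowB_mono ?_ hLow
      rintro _ ⟨i, rfl⟩
      exact (hxX i).1
    · obtain ⟨_, _, h4⟩ := (hR (x i) (hxX i)).2 (r i) (hrR i).1 (hrR i).2
      have e1 : (x i - r i + (x i + r i)) / 2 = x i := by ring
      have e2 : x i + r i - (x i - r i) = 2 * r i := by ring
      rw [e1, e2]
      exact h4

end Pool.Agent.Work.MP_055a27_an.Fn

end

section

/-!
# Item Hch: Harnack chains in a truncated cone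
-/

set_option autoImplicit false

open MeasureTheory Set Filter Topology Complex Metric
open scoped ENNReal NNReal

namespace Pool.Agent.Work.MP_055a27_an.Fn

open Crit (lg NTc Nice NI)
open Cr3 (Wt Sh)

namespace Hch

/-- the ratio of the radius of the balls to the height -/
noncomputable def rr (a a' : ℝ) : ℝ := (a - a') / (2 * (1 + a))

theorem rr_facts {a a' : ℝ} (ha' : 0 < a') (ha : a' < a) :
    0 < rr a a' ∧ rr a a' < 1 / 2 ∧ rr a a' * (1 + a) = (a - a') / 2 := by
  have h1 : 0 < 1 + a := by linarith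
  have h2 : rr a a' * (1 + a) = (a - a') / 2 := by
    unfold rr
    field_simp
  have h0 : 0 < rr a a' := div_pos (by linarith) (by linarith)
  refine ⟨h0, ?_, h2⟩
  by_contra h
  have h3 : 1 / 2 * (1 + a) ≤ rr a a' * (1 + a) :=
    mul_le_mul_of_nonneg_right (not_lt.1 h) h1.le
  linarith

theorem geo {a a' x T z1 y1 : ℝ} (ha' : 0 < a') (ha : a' < a) (hy : 0 < y1)
    (hz : |z1 - x| ≤ a' * y1) (hT : 2 * y1 ≤ T) {w : ℂ}
    (hw : w ∈ ball ((z1 : ℂ) + y1 * I) (rr a a' * y1)) :
    0 < w.im ∧ w.im < T ∧ |w.re - x| < a * w.im := by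
  obtain ⟨r0, r1, r2⟩ := rr_facts ha' ha
  have e0 : ‖w - ((z1 : ℂ) + y1 * I)‖ < rr a a' * y1 := by
    rw [← dist_eq_norm]
    exact hw
  have e1 : |w.re - z1| < rr a a' * y1 := by
    refine lt_of_le_of_lt ?_ e0
    have h := Complex.abs_re_le_norm (w - ((z1 : ℂ) + y1 * I))
    simpa using h
  have e2 : |w.im - y1| < rr a a' * y1 := by
    refine lt_of_le_of_lt ?_ e0
    have h := Complex.abs_im_le_norm (w - ((z1 : ℂ) + y1 * I))
    simpa using h
  have e3 := abs_lt.1 e2
  have e4 : rr a a' * y1 < 1 / 2 * y1 := mul_lt_mul_of_pos_right r1 hy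
  refine ⟨by linarith [e3.1], by linarith [e3.2], ?_⟩
  have e5 : |w.re - x| < rr a a' * y1 + a' * y1 := by
    calc |w.re - x| = |(w.re - z1) + (z1 - x)| := by ring_nf
      _ ≤ |w.re - z1| + |z1 - x| := abs_add_le _ _
      _ < rr a a' * y1 + a' * y1 := add_lt_add_of_lt_of_le e1 hz
  have e6 : a * (y1 - rr a a' * y1) ≤ a * w.im :=
    mul_le_mul_of_nonneg_left (by linarith [e3.1]) (by linarith)
  have e7 : rr a a' * (1 + a) * y1 = (a - a') / 2 * y1 := by rw [r2]
  have e8 : 0 < (a - a') / 2 * y1 := mul_pos (by linarith) hy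
  nlinarith

theorem Vp_re {l : ℝ → ℝ} (hl : Admissible l) (c m : ℝ) {w : ℂ} (hw : 0 < w.im) :
    (schw l w - I * c * w - (m : ℂ)).re = Vp l c w.re w.im - m := by
  have h := schw_re hl (z := w.re) hw
  rw [Complex.re_add_im] at h
  simp only [Complex.sub_re, Complex.ofReal_re, h, Vp]
  simp

theorem hasDeriv {l : ℝ → ℝ} (hl : Admissible l) (c m : ℝ) {w : ℂ} (hw : 0 < w.im) :
    HasDerivAt (fun w : ℂ => schw l w - I * c * w - (m : ℂ)) (dschw l w - I * c) w := by
  have h := ((hasDerivAt_schw hl hw).sub ((hasDerivAt_id w).const_mul (I * (c : ℂ)))).sub_const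
    (m : ℂ)
  rw [mul_one] at h
  exact h

/-- one Harnack step -/
theorem harn (hHar : Cr3.StHar) {a a' x T m c : ℝ} {l : ℝ → ℝ} (ha' : 0 < a') (ha : a' < a)
    (hl : Admissible l) (hL : LowB a T m c {x} l) {z1 y1 : ℝ} (hy : 0 < y1)
    (hz : |z1 - x| ≤ a' * y1) (hT : 2 * y1 ≤ T) :
    0 ≤ Vp l c z1 y1 - m ∧
    ‖dschw l (z1 + y1 * I) - I * c‖ ≤ 12 / (rr a a' * y1) * (Vp l c z1 y1 - m) ∧
    ∀ z2 y2 : ℝ, |z2 - z1| + |y2 - y1| < rr a a' * y1 / 2 →
      Vp l c z2 y2 - m ≤ 3 * (Vp l c z1 y1 - m) := by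
  obtain ⟨r0, r1, r2⟩ := rr_facts ha' ha
  have hR : 0 < rr a a' * y1 := mul_pos r0 hy
  have hre : ∀ w : ℂ, 0 < w.im →
      (schw l w - I * c * w - (m : ℂ)).re = Vp l c w.re w.im - m := fun w hw => Vp_re hl c m hw
  have key := hHar (fun w : ℂ => schw l w - I * c * w - (m : ℂ)) ((z1 : ℂ) + y1 * I)
    (rr a a' * y1) hR
    (fun w hw => (hasDeriv hl c m (geo ha' ha hy hz hT hw).1).differentiableAt.differentiableWithinAt)
    (fun w hw => by
      obtain ⟨h1, h2, h3⟩ := geo ha' ha hy hz hT hw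
      have h4 := hL x (mem_singleton x) w.re w.im h1 h2 h3
      show 0 ≤ (schw l w - I * c * w - (m : ℂ)).re
      rw [hre w h1]
      linarith)
  have hc0 : (((z1 : ℂ) + y1 * I).re) = z1 := by simp
  have hc1 : (((z1 : ℂ) + y1 * I).im) = y1 := by simp
  have hcen : (schw l ((z1 : ℂ) + y1 * I) - I * c * ((z1 : ℂ) + y1 * I) - (m : ℂ)).re =
      Vp l c z1 y1 - m := by
    rw [hre _ (by rw [hc1]; exact hy), hc0, hc1]
  have k0 := key ((z1 : ℂ) + y1 * I) (mem_ball_self (by linarith))
  refine ⟨?_, ?_, ?_⟩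
  · have h := k0.1
    simp only [hcen] at h
    linarith
  · have h := k0.2.2
    simp only [hcen] at h
    rw [(hasDeriv hl c m (by rw [hc1]; exact hy)).deriv] at h
    exact h
  · intro z2 y2 h2
    have h3 : ((z2 : ℂ) + y2 * I) ∈ ball ((z1 : ℂ) + y1 * I) (rr a a' * y1 / 2) := by
      rw [mem_ball, dist_eq_norm]
      have h4 : ((z2 : ℂ) + y2 * I) - ((z1 : ℂ) + y1 * I) =
          ((z2 - z1 : ℝ) : ℂ) + ((y2 - y1 : ℝ) : ℂ) * I := by
        push_cast
        ring
      rw [h4]
      refine (norm_add_le _ _).trans_lt ?_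
      rw [norm_mul, Complex.norm_I, mul_one, Complex.norm_real, Complex.norm_real,
        Real.norm_eq_abs, Real.norm_eq_abs]
      exact h2
    have h5 : ((z2 : ℂ) + y2 * I) ∈ ball ((z1 : ℂ) + y1 * I) (rr a a' * y1) :=
      ball_subset_ball (by linarith) h3
    have h6 := (geo ha' ha hy hz hT h5).1
    have h := (key _ h3).2.1
    have hd0 : (((z2 : ℂ) + y2 * I).re) = z2 := by simp
    have hd1 : (((z2 : ℂ) + y2 * I).im) = y2 := by simp
    simp only [hcen] at h
    rw [hre _ h6, hd0, hd1] at h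
    exact h

end Hch

open Hch in
theorem stHch (hHar : Cr3.StHar) : StHch := by
  intro a a' A ha' ha hA
  obtain ⟨r0, r1, r2⟩ := rr_facts ha' ha
  obtain ⟨N, hN⟩ := exists_nat_gt (2 * ((2 * a' + 1) * A) / rr a a')
  have hN0 : (0 : ℝ) < N := lt_of_le_of_lt (by positivity) hN
  have hN' : 2 * ((2 * a' + 1) * A) < rr a a' * N := by
    rw [div_lt_iff₀ r0] at hN
    linarith
  refine ⟨max (3 ^ N) (12 / rr a a'), le_max_of_le_left (one_le_pow₀ (by norm_num)), ?_⟩
  intro l c x T m hl hL z y z' y' hy hy' hz hz' h1 h2 hT hT'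
  have hstep := @harn hHar a a' x T m c l ha' ha hl hL
  constructor
  · -- the chain
    have hy0 : 0 < min y y' := lt_min hy hy'
    have hmax : max y y' ≤ A * min y y' := by
      rcases le_total y y' with h | h
      · rw [max_eq_right h, min_eq_left h]
        exact h2
      · rw [max_eq_left h, min_eq_right h]
        exact h1
    have hdz : |z - z'| ≤ 2 * a' * (A * min y y') := by
      calc |z - z'| = |(z - x) - (z' - x)| := by ring_nf
        _ ≤ |z - x| + |z' - x| := abs_sub _ _
        _ ≤ a' * y + a' * y' := add_le_add hz hz'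
        _ ≤ a' * max y y' + a' * max y y' :=
            add_le_add (mul_le_mul_of_nonneg_left (le_max_left _ _) ha'.le)
              (mul_le_mul_of_nonneg_left (le_max_right _ _) ha'.le)
        _ = 2 * a' * max y y' := by ring
        _ ≤ _ := mul_le_mul_of_nonneg_left hmax (by positivity)
    have hdy : |y - y'| ≤ A * min y y' := by
      refine le_trans ?_ hmax
      rw [abs_le]
      constructor
      · linarith [le_max_right y y']
      · linarith [le_max_left y y']
    have hpt : ∀ t : ℝ, 0 ≤ t → t ≤ 1 → min y y' ≤ y' + t * (y - y') ∧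
        |z' + t * (z - z') - x| ≤ a' * (y' + t * (y - y')) ∧ 2 * (y' + t * (y - y')) ≤ T := by
      intro t ht0 ht1
      refine ⟨?_, ?_, ?_⟩
      · have e1 : t * min y y' ≤ t * y := mul_le_mul_of_nonneg_left (min_le_left _ _) ht0
        have e2 : (1 - t) * min y y' ≤ (1 - t) * y' :=
          mul_le_mul_of_nonneg_left (min_le_right _ _) (by linarith)
        linarith
      · calc |z' + t * (z - z') - x| = |(1 - t) * (z' - x) + t * (z - x)| := by ring_nf
          _ ≤ |(1 - t) * (z' - x)| + |t * (z - x)| := abs_add_le _ _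
          _ = (1 - t) * |z' - x| + t * |z - x| := by
              rw [abs_mul, abs_mul, abs_of_nonneg ht0, abs_of_nonneg (by linarith : 0 ≤ 1 - t)]
          _ ≤ (1 - t) * (a' * y') + t * (a' * y) :=
              add_le_add (mul_le_mul_of_nonneg_left hz' (by linarith))
                (mul_le_mul_of_nonneg_left hz ht0)
          _ = _ := by ring
      · have e1 : t * (2 * y) ≤ t * T := mul_le_mul_of_nonneg_left hT ht0
        have e2 : (1 - t) * (2 * y') ≤ (1 - t) * T :=
          mul_le_mul_of_nonneg_left hT' (by linarith)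
        linarith
    have hind : ∀ j : ℕ, j ≤ N →
        Vp l c (z' + (j / N : ℝ) * (z - z')) (y' + (j / N : ℝ) * (y - y')) - m ≤
          3 ^ j * (Vp l c z' y' - m) := by
      intro j
      induction j with
      | zero =>
        intro _
        simp
      | succ j ih =>
        intro hj
        have hjN : (j : ℝ) + 1 ≤ N := by exact_mod_cast hj
        have hj0 : (0 : ℝ) ≤ j := Nat.cast_nonneg j
        obtain ⟨p1, p2, p3⟩ := hpt (j / N) (by positivity) (by
          rw [div_le_one hN0]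
          linarith)
        have ih' := ih (by omega)
        have hh := (hstep (lt_of_lt_of_le hy0 p1) p2 p3).2.2
          (z' + ((j + 1 : ℕ) / N : ℝ) * (z - z')) (y' + ((j + 1 : ℕ) / N : ℝ) * (y - y')) (by
            have e1 : z' + ((j + 1 : ℕ) / N : ℝ) * (z - z') - (z' + (j / N : ℝ) * (z - z')) =
                1 / N * (z - z') := by
              push_cast
              ring
            have e2 : y' + ((j + 1 : ℕ) / N : ℝ) * (y - y') - (y' + (j / N : ℝ) * (y - y')) =
                1 / N * (y - y') := by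
              push_cast
              ring
            rw [e1, e2, abs_mul, abs_mul, abs_of_pos (by positivity : (0 : ℝ) < 1 / N),
              ← mul_add, one_div, inv_mul_eq_div, div_lt_iff₀ hN0]
            have e3 : |z - z'| + |y - y'| ≤ (2 * a' + 1) * A * min y y' := by
              calc |z - z'| + |y - y'| ≤ 2 * a' * (A * min y y') + A * min y y' :=
                    add_le_add hdz hdy
                _ = _ := by ring
            have e4 : (2 * a' + 1) * A * min y y' < rr a a' * N / 2 * min y y' :=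
              mul_lt_mul_of_pos_right (by linarith) hy0
            have e5 : rr a a' * N / 2 * min y y' ≤
                rr a a' * N / 2 * (y' + (j / N : ℝ) * (y - y')) :=
              mul_le_mul_of_nonneg_left p1 (by positivity)
            calc |z - z'| + |y - y'| < rr a a' * N / 2 * (y' + (j / N : ℝ) * (y - y')) := by
                  linarith
              _ = rr a a' * (y' + (j / N : ℝ) * (y - y')) / 2 * N := by ring)
        rw [pow_succ]
        linarith
    have hfin := hind N le_rfl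
    rw [div_self hN0.ne', one_mul, one_mul, add_sub_cancel, add_sub_cancel] at hfin
    refine hfin.trans (mul_le_mul_of_nonneg_right (le_max_left _ _) ?_)
    exact (hstep hy' hz' hT').1
  · obtain ⟨q1, q2, -⟩ := hstep hy hz hT
    refine q2.trans (mul_le_mul_of_nonneg_right ?_ q1)
    rw [← div_div]
    exact div_le_div_of_nonneg_right (le_max_right _ _) hy.le

end Pool.Agent.Work.MP_055a27_an.Fn

end

section

/-!
# Item Imp: the self improving estimate
-/

set_option autoImplicit false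

open MeasureTheory Set Filter Topology Complex Metric
open scoped ENNReal NNReal

namespace Pool.Agent.Work.MP_055a27_an.Fn

namespace Imp

/-- The mass of an interval, in terms of the measure. -/
lemma wm_Icc_le {U : ℝ → ℝ} (hU : IsWeight U) {u v B : ℝ} (h : ∫ t in Icc u v, U t ≤ B) :
    wm U (Icc u v) ≤ ENNReal.ofReal B := by
  rw [setIntegral_eq_wm hU measurableSet_Icc] at h
  rw [← ENNReal.ofReal_toReal (wm_Icc_lt_top hU u v).ne]
  exact ENNReal.ofReal_le_ofReal h

/-- The set where the weight is small. -/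
lemma low_le {U : ℝ → ℝ} (hU : IsWeight U) {u v h : ℝ} (hh : 0 ≤ h) :
    wm U {x | x ∈ Icc u v ∧ U x < h} ≤ ENNReal.ofReal (h * (v - u)) := by
  have hnm : NullMeasurableSet {x | x ∈ Icc u v ∧ U x < h} volume :=
    (measurableSet_Icc.nullMeasurableSet).inter
      (nullMeasurableSet_lt (weight_aemeas hU) aemeasurable_const)
  unfold wm
  rw [withDensity_apply₀ _ hnm]
  calc ∫⁻ x in {x | x ∈ Icc u v ∧ U x < h}, ENNReal.ofReal (U x)
      ≤ ∫⁻ _x in {x | x ∈ Icc u v ∧ U x < h}, ENNReal.ofReal h := by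
        apply lintegral_mono_ae
        filter_upwards [ae_restrict_mem₀ hnm] with x hx
        exact ENNReal.ofReal_le_ofReal hx.2.le
    _ = ENNReal.ofReal h * volume {x | x ∈ Icc u v ∧ U x < h} := by
        rw [setLIntegral_const]
    _ ≤ ENNReal.ofReal h * volume (Icc u v) := by
        gcongr
        exact fun x hx => hx.1
    _ = ENNReal.ofReal (h * (v - u)) := by
        rw [Real.volume_Icc, ← ENNReal.ofReal_mul hh]

/-- The points with a low value in the cone. -/
lemma nt_le (hCov : StCov) {U l : ℝ → ℝ} {c κ μ1 μ a z0 y0 m : ℝ} (hU : IsWeight U)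
    (hκ : 0 ≤ κ) (hSh : ShK μ κ c U l) (hy0 : 0 < y0) (hμ1 : 0 < μ1) (haμ : a < μ) :
    wm U {x | x ∈ Icc (z0 - μ1 * y0) (z0 + μ1 * y0) ∧
      ∃ z y : ℝ, 0 < y ∧ y < 4 * y0 ∧ |z - x| < a * y ∧ Vp l c z y < m} ≤
    ENNReal.ofReal (2 * κ * Real.exp m / (μ - a) * (2 * μ1 * y0 + 2 * (4 * (μ - a) * y0))) := by
  have hd : 0 < μ - a := sub_pos.2 haμ
  refine hCov (wm U) _ (z0 - μ1 * y0) (2 * μ1 * y0) (4 * (μ - a) * y0)
    (2 * κ * Real.exp m / (μ - a)) (by positivity) (by positivity) (by positivity) ?_ ?_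
  · rintro x ⟨hx, -⟩
    refine ⟨hx.1, ?_⟩
    linarith [hx.2]
  · rintro x ⟨hx, z, y, hy, hy4, hzx, hV⟩
    have hr : 1 ≤ 4 * y0 / y := by
      rw [le_div_iff₀ hy]; linarith
    obtain ⟨n, hn1, hn2⟩ := exists_nat_pow_near hr (by norm_num : (1 : ℝ) < 2)
    set j : ℕ := n + 1 with hj
    set d : ℝ := 4 * (μ - a) * y0 / 2 ^ j with hdd
    have h2n : (0 : ℝ) < 2 ^ n := by positivity
    have h2j : (2 : ℝ) ^ j = 2 * 2 ^ n := by rw [hj, pow_succ]; ring
    have hdpos : 0 < d := by rw [hdd]; positivity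
    have hd1 : d ≤ (μ - a) * y := by
      rw [hdd, div_le_iff₀ (by positivity)]
      have h3 : 4 * y0 < y * 2 ^ j := by
        have := (div_lt_iff₀ hy).1 hn2
        linarith
      nlinarith
    have hd2 : (μ - a) * y ≤ 2 * d := by
      have h3 : 2 ^ n * y ≤ 4 * y0 := (le_div_iff₀ hy).1 hn1
      have h4 : 2 * d = 4 * (μ - a) * y0 / 2 ^ n := by
        rw [hdd, h2j]; field_simp
      rw [h4, le_div_iff₀ h2n]
      nlinarith
    have hi := Int.floor_le (x / d)
    have hi' := Int.lt_floor_add_one (x / d)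
    refine ⟨j, ⌊x / d⌋, ⟨?_, ?_⟩, ?_⟩
    · exact (le_div_iff₀ hdpos).1 hi
    · exact (div_lt_iff₀ hdpos).1 hi'
    · have hsub : Ico ((⌊x / d⌋ : ℝ) * d) (((⌊x / d⌋ : ℝ) + 1) * d) ⊆
          Icc (z - μ * y) (z + μ * y) := by
        rintro t ⟨ht1, ht2⟩
        have h5 := (le_div_iff₀ hdpos).1 hi
        have h6 := (div_lt_iff₀ hdpos).1 hi'
        have h7 := abs_lt.1 hzx
        constructor
        · nlinarith [h7.1, h7.2]
        · nlinarith [h7.1, h7.2]
      calc wm U (_ ∩ Ico ((⌊x / d⌋ : ℝ) * d) (((⌊x / d⌋ : ℝ) + 1) * d))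
          ≤ wm U (Icc (z - μ * y) (z + μ * y)) :=
            measure_mono (inter_subset_right.trans hsub)
        _ ≤ ENNReal.ofReal (κ * (y * Real.exp (Vp l c z y))) := wm_Icc_le hU (hSh z y hy)
        _ ≤ ENNReal.ofReal (2 * κ * Real.exp m / (μ - a) * d) := by
            apply ENNReal.ofReal_le_ofReal
            have h8 : Real.exp (Vp l c z y) ≤ Real.exp m := Real.exp_le_exp.2 hV.le
            have h9 : y ≤ 2 * d / (μ - a) := by
              rw [le_div_iff₀ hd]; linarith
            calc κ * (y * Real.exp (Vp l c z y)) ≤ κ * (2 * d / (μ - a) * Real.exp m) := by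
                  gcongr
              _ = 2 * κ * Real.exp m / (μ - a) * d := by ring

end Imp

/-- The self improving estimate. -/
theorem stImp (hHch : StHch) (hCov : StCov) (hCore : StCore) : StImp := by
  intro C0 lam b p μ1 μ ε hlam hb hbμ1 hμ1μ hp hε
  have hμ1 : 0 < μ1 := hb.trans hbμ1
  set a : ℝ := (μ1 + μ) / 2 with ha
  have ha1 : μ1 < a := by rw [ha]; linarith
  have haμ : a < μ := by rw [ha]; linarith
  have ha0 : 0 < a := hμ1.trans ha1
  obtain ⟨M0, hM0, hC⟩ := hCore C0 lam b p μ a hlam hb (hbμ1.trans hμ1μ) hp ha0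
  obtain ⟨CH0, hCH0, hH⟩ := hHch a μ1 1 hμ1 ha1 le_rfl
  set M : ℝ := max M0 (1 / (2 * μ1)) with hM
  have hM1 : 1 ≤ M := hM0.trans (le_max_left _ _)
  have hMpos : 0 < M := by linarith
  have hMμ : 1 / (2 * M) ≤ μ1 := by
    have h1 : 1 / (2 * μ1) ≤ M := le_max_right _ _
    rw [div_le_iff₀ (by positivity)] at h1 ⊢
    linarith
  have hd : 0 < μ - a := sub_pos.2 haμ
  set B : ℝ := 2 * (2 * μ1 + 8 * (μ - a)) / (μ - a) with hB
  have hBpos : 0 < B := by rw [hB]; positivity
  set kk : ℝ := max 1 (-Real.log (ε / (2 * B)) / 2) with hkk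
  have hkk1 : 1 ≤ kk := le_max_left _ _
  have hkkB : Real.exp (-(2 * kk)) * B ≤ ε / 2 := by
    have h1 : -Real.log (ε / (2 * B)) / 2 ≤ kk := le_max_right _ _
    have h2 : Real.exp (-(2 * kk)) ≤ ε / (2 * B) := by
      rw [← Real.exp_log (show 0 < ε / (2 * B) by positivity)]
      exact Real.exp_le_exp.2 (by linarith)
    calc Real.exp (-(2 * kk)) * B ≤ ε / (2 * B) * B := by gcongr
      _ = ε / 2 := by field_simp
  set η : ℝ := ε / 2 / (2 * μ1 + 1 / M) with hη
  have hηpos : 0 < η := by rw [hη]; positivity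
  obtain ⟨H0, hH0, hC⟩ := hC M (le_max_left _ _) kk (2 * CH0) η hkk1 (by linarith) hηpos
  refine ⟨2 * μ1 * Real.exp H0, by positivity, ?_⟩
  intro U l c κ hU hl hc hUl hStar hκ hSh z0 y0 hy0
  set V0 : ℝ := Vp l c z0 y0 with hV0
  set J : Set ℝ := Icc (z0 - μ1 * y0) (z0 + μ1 * y0) with hJ
  set NT : Set ℝ := {x | x ∈ J ∧ ∃ z y : ℝ, 0 < y ∧ y < 4 * y0 ∧ |z - x| < a * y ∧
    Vp l c z y < V0 - 2 * kk} with hNT
  set LO : Set ℝ := {x | x ∈ J ∧ U x < Real.exp (V0 + H0)} with hLO
  set X : Set ℝ := {x | (x ∈ J ∧ x ∉ NT) ∧ Real.exp (V0 + H0) ≤ U x} with hX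
  have hcover : J ⊆ (NT ∪ LO) ∪ X := by
    intro x hx
    by_cases h1 : x ∈ NT
    · exact Or.inl (Or.inl h1)
    · by_cases h2 : U x < Real.exp (V0 + H0)
      · exact Or.inl (Or.inr ⟨hx, h2⟩)
      · exact Or.inr ⟨⟨hx, h1⟩, not_lt.1 h2⟩
  have hExp : 0 < Real.exp V0 := Real.exp_pos _
  -- the part NT
  have hNTle : wm U NT ≤ ENNReal.ofReal (ε / 2 * κ * (y0 * Real.exp V0)) := by
    refine (Imp.nt_le hCov hU hκ hSh hy0 hμ1 haμ).trans (ENNReal.ofReal_le_ofReal ?_)
    have h1 : Real.exp (V0 - 2 * kk) = Real.exp V0 * Real.exp (-(2 * kk)) := by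
      rw [← Real.exp_add]; ring_nf
    rw [h1]
    calc 2 * κ * (Real.exp V0 * Real.exp (-(2 * kk))) / (μ - a) *
          (2 * μ1 * y0 + 2 * (4 * (μ - a) * y0))
        = Real.exp (-(2 * kk)) * B * (κ * (y0 * Real.exp V0)) := by rw [hB]; ring
      _ ≤ ε / 2 * (κ * (y0 * Real.exp V0)) := by gcongr
      _ = ε / 2 * κ * (y0 * Real.exp V0) := by ring
  -- the part LO
  have hLOle : wm U LO ≤ ENNReal.ofReal (2 * μ1 * Real.exp H0 * (y0 * Real.exp V0)) := by
    refine (Imp.low_le hU (Real.exp_pos _).le).trans (ENNReal.ofReal_le_ofReal (le_of_eq ?_))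
    rw [Real.exp_add]; ring
  -- the part X
  have hXle : wm U X ≤ ENNReal.ofReal (ε / 2 * κ * (y0 * Real.exp V0)) := by
    set s : ℝ := y0 / M with hs
    have hspos : 0 < s := by rw [hs]; positivity
    have hMs : M * s = y0 := by rw [hs]; field_simp
    set N : ℕ := ⌊2 * μ1 * M⌋₊ + 1 with hN
    have hNle : (N : ℝ) ≤ 2 * μ1 * M + 1 := by
      rw [hN]; push_cast
      have := Nat.floor_le (show 0 ≤ 2 * μ1 * M by positivity)
      linarith
    have hLB : ∀ i : ℕ, LowB a (4 * M * s) (V0 - 2 * kk) c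
        (X ∩ Icc (z0 - μ1 * y0 + i * s) (z0 - μ1 * y0 + i * s + s)) l := by
      intro i x hx z y hy hyT hzx
      by_contra hcon
      push Not at hcon
      apply hx.1.1.2
      refine ⟨hx.1.1.1, z, y, hy, ?_, hzx, hcon⟩
      have : 4 * M * s = 4 * y0 := by rw [← hMs]; ring
      linarith
    have hone : ∀ i : ℕ, wm U (X ∩ Icc (z0 - μ1 * y0 + i * s) (z0 - μ1 * y0 + i * s + s)) ≤
        ENNReal.ofReal (η * κ * s * Real.exp V0) := by
      intro i
      rcases (X ∩ Icc (z0 - μ1 * y0 + i * s) (z0 - μ1 * y0 + i * s + s)).eq_empty_or_nonempty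
        with he | ⟨x, hxX, hxD⟩
      · rw [he]; simp
      · refine hC U l c κ V0 (z0 - μ1 * y0 + i * s) s _ hU hl hc hUl hStar hκ hSh hspos
          inter_subset_right (hLB i) (fun x hx => hx.1.2) ?_
        have hLBx : LowB a (4 * M * s) (V0 - 2 * kk) c {x} l := by
          intro x' hx' z y hy hyT hzx
          rw [mem_singleton_iff] at hx'
          subst hx'
          exact hLB i x' ⟨hxX, hxD⟩ z y hy hyT hzx
        have hxJ := hxX.1.1
        have h4 : 4 * M * s = 4 * y0 := by rw [← hMs]; ring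
        have hs2 : s / 2 ≤ μ1 * y0 := by
          have : s / 2 = 1 / (2 * M) * y0 := by rw [hs]; field_simp
          rw [this]; gcongr
        have hh := (hH l c x (4 * M * s) (V0 - 2 * kk) hl.1 hLBx
          (z0 - μ1 * y0 + i * s + s / 2) y0 z0 y0 hy0 hy0
          (by
            rw [abs_le]
            constructor
            · linarith [hxD.1, hxD.2]
            · linarith [hxD.1, hxD.2])
          (by
            rw [abs_le]
            constructor
            · linarith [hxJ.1, hxJ.2]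
            · linarith [hxJ.1, hxJ.2])
          (by linarith) (by linarith) (by rw [h4]; linarith) (by rw [h4]; linarith)).1
        rw [← hV0] at hh
        rw [hMs]
        have : CH0 * (V0 - (V0 - 2 * kk)) = 2 * CH0 * kk := by ring
        rw [this] at hh
        linarith
    have hXc : X ⊆ ⋃ i ∈ Finset.range N,
        (X ∩ Icc (z0 - μ1 * y0 + i * s) (z0 - μ1 * y0 + i * s + s)) := by
      intro x hx
      have hxJ := hx.1.1
      have ht0 : 0 ≤ (x - (z0 - μ1 * y0)) / s := by
        apply div_nonneg _ hspos.le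
        linarith [hxJ.1]
      have ht1 : (x - (z0 - μ1 * y0)) / s ≤ 2 * μ1 * M := by
        rw [div_le_iff₀ hspos]
        have : 2 * μ1 * M * s = 2 * μ1 * y0 := by rw [← hMs]; ring
        rw [this]
        linarith [hxJ.2]
      refine mem_biUnion (x := ⌊(x - (z0 - μ1 * y0)) / s⌋₊) ?_ ⟨hx, ?_, ?_⟩
      · simp only [Finset.coe_range, mem_Iio]
        rw [hN]
        exact Nat.lt_succ_of_le (Nat.floor_le_floor ht1)
      · have := (le_div_iff₀ hspos).1 (Nat.floor_le ht0)
        linarith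
      · have := (div_lt_iff₀ hspos).1 (Nat.lt_floor_add_one ((x - (z0 - μ1 * y0)) / s))
        linarith
    calc wm U X ≤ wm U (⋃ i ∈ Finset.range N,
          (X ∩ Icc (z0 - μ1 * y0 + i * s) (z0 - μ1 * y0 + i * s + s))) := measure_mono hXc
      _ ≤ ∑ i ∈ Finset.range N,
          wm U (X ∩ Icc (z0 - μ1 * y0 + i * s) (z0 - μ1 * y0 + i * s + s)) :=
          measure_biUnion_finset_le _ _
      _ ≤ ∑ _i ∈ Finset.range N, ENNReal.ofReal (η * κ * s * Real.exp V0) :=
          Finset.sum_le_sum fun i _ => hone i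
      _ = ENNReal.ofReal (N * (η * κ * s * Real.exp V0)) := by
          rw [Finset.sum_const, Finset.card_range, nsmul_eq_mul,
            ENNReal.ofReal_mul (p := (N : ℝ)) (Nat.cast_nonneg N), ENNReal.ofReal_natCast]
      _ ≤ ENNReal.ofReal (ε / 2 * κ * (y0 * Real.exp V0)) := by
          apply ENNReal.ofReal_le_ofReal
          have h1 : (N : ℝ) * s ≤ (2 * μ1 + 1 / M) * y0 := by
            calc (N : ℝ) * s ≤ (2 * μ1 * M + 1) * s := by gcongr
              _ = (2 * μ1 + 1 / M) * (M * s) := by field_simp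
              _ = (2 * μ1 + 1 / M) * y0 := by rw [hMs]
          calc (N : ℝ) * (η * κ * s * Real.exp V0)
              = (N * s) * (η * κ * Real.exp V0) := by ring
            _ ≤ ((2 * μ1 + 1 / M) * y0) * (η * κ * Real.exp V0) := by gcongr
            _ = ε / 2 * κ * (y0 * Real.exp V0) := by
                rw [hη]
                have h2 : (2 * μ1 + 1 / M) ≠ 0 := by positivity
                field_simp
  -- sum up
  rw [setIntegral_eq_wm hU measurableSet_Icc]
  apply ENNReal.toReal_le_of_le_ofReal (by positivity)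
  calc wm U J ≤ wm U ((NT ∪ LO) ∪ X) := measure_mono hcover
    _ ≤ wm U (NT ∪ LO) + wm U X := measure_union_le _ _
    _ ≤ (wm U NT + wm U LO) + wm U X := by gcongr; exact measure_union_le _ _
    _ ≤ (ENNReal.ofReal (ε / 2 * κ * (y0 * Real.exp V0)) +
        ENNReal.ofReal (2 * μ1 * Real.exp H0 * (y0 * Real.exp V0))) +
        ENNReal.ofReal (ε / 2 * κ * (y0 * Real.exp V0)) := by gcongr
    _ = ENNReal.ofReal ((ε * κ + 2 * μ1 * Real.exp H0) * (y0 * Real.exp V0)) := by
        rw [← ENNReal.ofReal_add (by positivity) (by positivity),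
          ← ENNReal.ofReal_add (by positivity) (by positivity)]
        congr 1
        ring

end Pool.Agent.Work.MP_055a27_an.Fn

end

section

/-! Item Lb: vertical limits of Poisson integrals at almost every point. -/

set_option autoImplicit false

open MeasureTheory Set Filter Topology Complex Metric
open scoped ENNReal NNReal

namespace Pool.Agent.Work.MP_055a27_an.Fn

namespace Lb

open Nv

/-- the Poisson integral is close to the boundary value for all small heights -/
lemma key {f : ℝ → ℝ} (hf : Admissible f) : ∀ᵐ x, ∀ ε : ℝ, 0 < ε → ∃ y0 : ℝ, 0 < y0 ∧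
    ∀ y, 0 < y → y < y0 → |f x - poisson f x y| ≤ ε := by
  obtain ⟨C, hC⟩ := I_Pk 1 one_pos
  filter_upwards [IsUnifLocDoublingMeasure.ae_tendsto_average_norm_sub volume (Bd.loc hf) 1]
    with x hx
  have h1 : Tendsto (fun r : ℝ => ⨍ t in closedBall x r, ‖f t - f x‖) (𝓝[>] 0) (𝓝 0) := by
    refine hx (fun _ => x) id tendsto_id ?_
    filter_upwards [self_mem_nhdsWithin] with r hr
    exact mem_closedBall_self (by simpa using (le_of_lt hr))
  intro ε hε'
  set ε' : ℝ := ε / (2 * (C + 1)) with hε'd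
  have hε'0 : 0 < ε' := by positivity
  obtain ⟨δ, hδ0, hδ⟩ : ∃ δ : ℝ, 0 < δ ∧ ∀ r : ℝ, 0 < r → r < δ →
      ⨍ t in closedBall x r, ‖f t - f x‖ < ε' := by
    have h2 := h1.eventually (gt_mem_nhds hε'0)
    rw [eventually_nhdsWithin_iff, Metric.eventually_nhds_iff] at h2
    obtain ⟨δ, hδ0, hδ⟩ := h2
    refine ⟨δ, hδ0, fun r hr hrδ => hδ ?_ hr⟩
    rw [Real.dist_eq, sub_zero, abs_of_pos hr]
    exact hrδ
  have hδ2 : 0 < δ / 2 := by positivity
  obtain ⟨K, hK⟩ := Bd.far hf x hδ2
  have hmeas : AEMeasurable (fun t => ENNReal.ofReal |f t - f x|) volume := by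
    have := (adm_measurable hf).aemeasurable
    exact ((this.sub_const (f x)).abs).ennreal_ofReal
  set h : ℝ → ℝ≥0∞ := (Ioo (x - δ / 2) (x + δ / 2)).indicator
    (fun t => ENNReal.ofReal |f t - f x|) with hh
  have hhm : AEMeasurable h volume := hmeas.indicator measurableSet_Ioo
  have hmx : mx h x ≤ ENNReal.ofReal ε' := by
    unfold mx
    refine iSup₂_le fun r hr => ?_
    have hr2 : ENNReal.ofReal (2 * r) ≠ 0 := by
      rw [Ne, ENNReal.ofReal_eq_zero, not_le]; positivity
    rw [ENNReal.div_le_iff hr2 ENNReal.ofReal_ne_top]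
    set ρ := min r (δ / 2) with hρ
    have hρ0 : 0 < ρ := lt_min hr hδ2
    have hρδ : ρ < δ := lt_of_le_of_lt (min_le_right _ _) (by linarith)
    have h3 := hδ ρ hρ0 hρδ
    have hint : IntegrableOn (fun t => ‖f t - f x‖) (closedBall x ρ) volume := by
      have h4 := (locallyIntegrable_iff.1 (Bd.loc hf)) _ (isCompact_closedBall x ρ)
      exact (h4.sub (integrableOn_const (by
        rw [Real.volume_closedBall]; exact ENNReal.ofReal_ne_top))).norm
    have h5 : ∫ t in closedBall x ρ, ‖f t - f x‖ ≤ 2 * ρ * ε' := by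
      rw [setAverage_eq, smul_eq_mul] at h3
      have h6 : volume.real (closedBall x ρ) = 2 * ρ := by
        rw [Measure.real, Real.volume_closedBall, ENNReal.toReal_ofReal (by positivity)]
      rw [h6, inv_mul_lt_iff₀ (by positivity)] at h3
      exact h3.le
    calc ∫⁻ t in Ioo (x - r) (x + r), h t
        = ∫⁻ t in Ioo (x - r) (x + r) ∩ Ioo (x - δ / 2) (x + δ / 2),
            ENNReal.ofReal |f t - f x| := by
          rw [hh, setLIntegral_indicator measurableSet_Ioo, inter_comm]
      _ ≤ ∫⁻ t in closedBall x ρ, ENNReal.ofReal |f t - f x| := by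
          apply lintegral_mono_set
          rintro t ⟨h7, h8⟩
          rw [Real.closedBall_eq_Icc, hρ]
          constructor
          · rcases le_total r (δ / 2) with h9 | h9
            · rw [min_eq_left h9]; exact h7.1.le
            · rw [min_eq_right h9]; exact h8.1.le
          · rcases le_total r (δ / 2) with h9 | h9
            · rw [min_eq_left h9]; exact h7.2.le
            · rw [min_eq_right h9]; exact h8.2.le
      _ = ENNReal.ofReal (∫ t in closedBall x ρ, ‖f t - f x‖) := by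
          rw [ofReal_integral_eq_lintegral_ofReal hint
            (Eventually.of_forall fun t => norm_nonneg _)]
          rfl
      _ ≤ ENNReal.ofReal (2 * ρ * ε') := ENNReal.ofReal_le_ofReal h5
      _ ≤ ENNReal.ofReal (ε' * (2 * r)) := by
          apply ENNReal.ofReal_le_ofReal
          have : ρ ≤ r := min_le_left _ _
          nlinarith
      _ = ENNReal.ofReal ε' * ENNReal.ofReal (2 * r) := ENNReal.ofReal_mul hε'0.le
  refine ⟨ε / (2 * (K + 1)), by positivity, fun y hy hyy => ?_⟩
  have hnear : ∫⁻ t in Ioo (x - δ / 2) (x + δ / 2),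
      ENNReal.ofReal (pk x y t) * ENNReal.ofReal |f t - f x| ≤ ENNReal.ofReal (ε / 2) := by
    calc ∫⁻ t in Ioo (x - δ / 2) (x + δ / 2),
        ENNReal.ofReal (pk x y t) * ENNReal.ofReal |f t - f x|
        = ∫⁻ t, ENNReal.ofReal (pk x y t) * h t := by
          rw [← lintegral_indicator measurableSet_Ioo]
          refine lintegral_congr fun t => ?_
          rw [hh]
          by_cases ht : t ∈ Ioo (x - δ / 2) (x + δ / 2)
          · rw [indicator_of_mem ht, indicator_of_mem ht]
          · rw [indicator_of_notMem ht, indicator_of_notMem ht, mul_zero]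
      _ ≤ C * mx h x := hC h hhm x x y hy (by rw [sub_self, abs_zero]; positivity)
      _ ≤ C * ENNReal.ofReal ε' := by gcongr
      _ = ENNReal.ofReal (C * ε') := by
          rw [ENNReal.ofReal_mul (by positivity), ENNReal.ofReal_coe_nnreal]
      _ ≤ ENNReal.ofReal (ε / 2) := by
          apply ENNReal.ofReal_le_ofReal
          rw [hε'd, mul_div_assoc', div_le_div_iff₀ (by positivity) (by positivity)]
          have : (0 : ℝ) ≤ C := C.2
          nlinarith
  have hfar : ∫⁻ t in (Ioo (x - δ / 2) (x + δ / 2))ᶜ,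
      ENNReal.ofReal (pk x y t) * ENNReal.ofReal |f t - f x| ≤ ENNReal.ofReal (ε / 2) := by
    refine (hK y hy).trans ?_
    rw [← ENNReal.ofReal_coe_nnreal, ← ENNReal.ofReal_mul hy.le]
    apply ENNReal.ofReal_le_ofReal
    have hK0 : (0 : ℝ) ≤ K := K.2
    have h1 : y * K ≤ ε / (2 * (K + 1)) * K := mul_le_mul_of_nonneg_right hyy.le hK0
    refine h1.trans ?_
    rw [div_mul_eq_mul_div, div_le_div_iff₀ (by positivity) (by positivity)]
    nlinarith
  have hd : ENNReal.ofReal |f x - poisson f x y| ≤ ENNReal.ofReal ε := by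
    refine (Bd.diff_le hf hy).trans ?_
    rw [← lintegral_add_compl _ (measurableSet_Ioo (a := x - δ / 2) (b := x + δ / 2))]
    refine (add_le_add hnear hfar).trans ?_
    rw [← ENNReal.ofReal_add (by positivity) (by positivity), add_halves]
  exact (ENNReal.ofReal_le_ofReal_iff hε'.le).1 hd

end Lb

theorem stLb : StLb := by
  intro l c hl
  filter_upwards [Lb.key hl] with x hx
  have h1 : Tendsto (fun y => poisson l x y) (𝓝[>] 0) (𝓝 (l x)) := by
    rw [Metric.tendsto_nhdsWithin_nhds]
    intro ε hε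
    obtain ⟨y0, hy0, h⟩ := hx (ε / 2) (by positivity)
    refine ⟨y0, hy0, fun {y} hy hyd => ?_⟩
    rw [Real.dist_eq, sub_zero] at hyd
    have h2 := h y hy (lt_of_le_of_lt (le_abs_self y) hyd)
    rw [Real.dist_eq, abs_sub_comm]
    linarith
  have h2 : Tendsto (fun y : ℝ => c * y) (𝓝[>] 0) (𝓝 0) := by
    have : Tendsto (fun y : ℝ => c * y) (𝓝 0) (𝓝 (c * 0)) :=
      (continuous_const.mul continuous_id).tendsto 0
    rw [mul_zero] at this
    exact this.mono_left nhdsWithin_le_nhds
  have h3 := h1.add h2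
  rw [add_zero] at h3
  exact h3

end Pool.Agent.Work.MP_055a27_an.Fn

end

section

/-!
# Removal of the far away majorant
-/

set_option autoImplicit false

open MeasureTheory Set Filter Topology
open scoped ENNReal NNReal

namespace Pool.Agent.Work.MP_055a27_an.Fn


namespace LimN

/-- The function `ρ` outside of `(-n, n)`. -/
noncomputable def cut (ρ : ℝ → ℝ) (n : ℕ) (x : ℝ) : ℝ := if (n : ℝ) ≤ |x| then ρ x else 0

lemma cut_eq (ρ : ℝ → ℝ) (n : ℕ) :
    cut ρ n = {x : ℝ | (n : ℝ) ≤ |x|}.indicator ρ := by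
  funext x
  unfold cut
  by_cases h : (n : ℝ) ≤ |x|
  · rw [if_pos h, indicator_of_mem (show x ∈ {x : ℝ | (n : ℝ) ≤ |x|} from h)]
  · rw [if_neg h, indicator_of_notMem (show x ∉ {x : ℝ | (n : ℝ) ≤ |x|} from h)]

lemma meas (n : ℕ) : MeasurableSet {x : ℝ | (n : ℝ) ≤ |x|} :=
  measurableSet_le measurable_const continuous_abs.measurable

lemma adm_cut {ρ : ℝ → ℝ} (hρ : Admissible ρ) (n : ℕ) : Admissible (cut ρ n) := by
  unfold Admissible at hρ ⊢
  refine (hρ.indicator (meas n)).congr (Eventually.of_forall fun t => ?_)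
  rw [cut_eq]
  by_cases h : t ∈ {x : ℝ | (n : ℝ) ≤ |x|}
  · simp only [indicator_of_mem h]
  · simp only [indicator_of_notMem h, zero_div]

lemma abs_cut_le (ρ : ℝ → ℝ) (n : ℕ) (t : ℝ) : |cut ρ n t| ≤ |ρ t| := by
  unfold cut
  split_ifs
  · exact le_rfl
  · simp

lemma tend {ρ : ℝ → ℝ} (hρ : Admissible ρ) {z y : ℝ} (hy : 0 < y) :
    Tendsto (fun n => poisson (cut ρ n) z y) atTop (𝓝 0) := by
  simp only [poisson_eq_integral]
  have h0 : (0 : ℝ) = (1 / Real.pi) * ∫ _ : ℝ, (0 : ℝ) := by simp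
  rw [h0]
  apply Tendsto.const_mul
  refine tendsto_integral_of_dominated_convergence
    (fun t => ‖y * ρ t / ((z - t) ^ 2 + y ^ 2)‖) ?_
    (Crit.TFUp.integrable_pois hρ hy).norm ?_ ?_
  · exact fun n => (Crit.TFUp.integrable_pois (adm_cut hρ n) hy).aestronglyMeasurable
  · intro n
    refine Eventually.of_forall fun t => ?_
    have h2 := abs_cut_le ρ n t
    rw [norm_div, norm_div, norm_mul, norm_mul]
    simp only [Real.norm_eq_abs]
    gcongr
  · refine Eventually.of_forall fun t => ?_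
    obtain ⟨n0, hn0⟩ := exists_nat_gt |t|
    refine tendsto_const_nhds.congr' ?_
    filter_upwards [eventually_ge_atTop n0] with n hn
    have h2 : (n0 : ℝ) ≤ n := by exact_mod_cast hn
    have : cut ρ n t = 0 := if_neg (by linarith)
    rw [this]
    simp

lemma pois_add {l ρ : ℝ → ℝ} (hl : Admissible l) (hρ : Admissible ρ) (n : ℕ) {z y : ℝ}
    (hy : 0 < y) : poisson (fun x => l x + cut ρ n x) z y =
      poisson l z y + poisson (cut ρ n) z y := by
  rw [poisson_eq_integral, poisson_eq_integral, poisson_eq_integral, ← mul_add, ← integral_add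
    (Crit.TFUp.integrable_pois hl hy) (Crit.TFUp.integrable_pois (adm_cut hρ n) hy)]
  congr 1
  refine integral_congr_ae (Eventually.of_forall fun t => ?_)
  change y * (l t + cut ρ n t) / ((z - t) ^ 2 + y ^ 2) =
    y * l t / ((z - t) ^ 2 + y ^ 2) + y * cut ρ n t / ((z - t) ^ 2 + y ^ 2)
  ring

end LimN

theorem stLimN : StLimN := by
  intro U l ρ μ K c hl hρ _ h z y hy
  have h1 : ∀ n : ℕ, ∫ t in Icc (z - μ * y) (z + μ * y), U t ≤
      K * (y * Real.exp (poisson l z y + poisson (LimN.cut ρ n) z y + c * y)) := by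
    intro n
    have h2 := h n z y hy
    unfold Vp at h2
    have h3 : (fun x => l x + if (n : ℝ) ≤ |x| then ρ x else 0) =
        fun x => l x + LimN.cut ρ n x := rfl
    rw [h3, LimN.pois_add hl hρ n hy] at h2
    exact h2
  have h4 : Tendsto (fun n : ℕ =>
      K * (y * Real.exp (poisson l z y + poisson (LimN.cut ρ n) z y + c * y))) atTop
      (𝓝 (K * (y * Real.exp (poisson l z y + 0 + c * y)))) := by
    apply Tendsto.const_mul
    apply Tendsto.const_mul
    apply (Real.continuous_exp.tendsto _).comp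
    exact ((LimN.tend hρ hy).const_add _).add_const _
  have h5 := ge_of_tendsto' h4 h1
  rw [add_zero] at h5
  exact h5

end Pool.Agent.Work.MP_055a27_an.Fn

end

section

/-!
# The maximum principle on a compact subset of the half plane
-/

open MeasureTheory Set Filter Topology Complex Metric

namespace Pool.Agent.Work.MP_055a27_an.Fn

set_option autoImplicit false

theorem stMx : StMx := by
  intro K G hK hpos hG hfr w hw
  set F : ℂ → ℂ := fun w => Complex.exp (-(G w)) with hF
  have hnorm : ∀ z, ‖F z‖ = Real.exp (-(G z).re) := by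
    intro z
    rw [hF]
    simp only [Complex.norm_exp, Complex.neg_re]
  have hopen : IsOpen {w : ℂ | 0 < w.im} := isOpen_lt continuous_const Complex.continuous_im
  have hFd : DifferentiableOn ℂ F {w : ℂ | 0 < w.im} := by
    intro z hz
    exact ((hG z hz).neg).cexp
  have hfrF : ∀ z ∈ frontier K, ‖F z‖ ≤ 1 := by
    intro z hz
    rw [hnorm]
    have := hfr z hz
    rw [Real.exp_le_one_iff]
    linarith
  have hle : ‖F w‖ ≤ 1 := by
    by_cases hwi : w ∈ interior K
    · have hbd : Bornology.IsBounded (interior K) := hK.isBounded.subset interior_subset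
      have hcl : closure (interior K) ⊆ K := closure_minimal interior_subset hK.isClosed
      have hsub : closure (interior K) ⊆ {w : ℂ | 0 < w.im} := fun z hz => hpos z (hcl hz)
      have hdc : DiffContOnCl ℂ F (interior K) := by
        refine ⟨hFd.mono (subset_closure.trans hsub), ?_⟩
        exact hFd.continuousOn.mono hsub
      refine Complex.norm_le_of_forall_mem_frontier_norm_le hbd hdc ?_ (subset_closure hwi)
      intro z hz
      exact hfrF z (frontier_interior_subset hz)
    · apply hfrF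
      rw [hK.isClosed.frontier_eq]
      exact ⟨hw, hwi⟩
  rw [hnorm, Real.exp_le_one_iff] at hle
  linarith

end Pool.Agent.Work.MP_055a27_an.Fn

end

section

/-!
# The shadow condition with larger aperture
-/

set_option autoImplicit false

open MeasureTheory Set Filter Topology Complex Metric
open scoped ENNReal NNReal

namespace Pool.Agent.Work.MP_055a27_an.Fn

open Crit (lg NTc Nice NI)

namespace NK

/-- The test function. -/
noncomputable def FK (l : ℝ → ℝ) (c p δ x0 β : ℝ) (k : ℕ) (w : ℂ) : ℂ :=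
  Complex.exp (-(Vs l c (w + δ * I)) / p) * tF x0 β k w

lemma norm_FK {l : ℝ → ℝ} (hl : Admissible l) {c p δ x0 β : ℝ} (k : ℕ) (hδ : 0 < δ)
    (hβ : 0 < β) {z y : ℝ} (hy : 0 ≤ y) :
    ‖FK l c p δ x0 β k (z + y * I)‖ =
      Real.exp (-Vp l c z (y + δ) / p) * (β / ‖(z : ℂ) + y * I - x0 + β * I‖) ^ k := by
  unfold FK
  rw [norm_mul, norm_tF hβ, Complex.norm_exp]
  congr 2
  have h1 : (z : ℂ) + y * I + δ * I = z + ((y + δ : ℝ) : ℂ) * I := by
    push_cast
    ring
  rw [h1, Complex.div_ofReal_re, Complex.neg_re]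
  unfold Vs Vp
  rw [Complex.sub_re, schw_re hl (by linarith)]
  have h2 : (I * (c : ℂ) * (z + ((y + δ : ℝ) : ℂ) * I)).re = -(c * (y + δ)) := by
    simp
  rw [h2, sub_neg_eq_add]

lemma norm_FK_le {l : ℝ → ℝ} (hl : Admissible l) {c p δ x0 β θ : ℝ} (k : ℕ) (hp : 0 < p)
    (hc : 0 ≤ c) (hθ : ∀ t, θ ≤ l t) (hδ : 0 < δ) (hβ : 0 < β) {w : ℂ} (hw : 0 ≤ w.im) :
    ‖FK l c p δ x0 β k w‖ ≤ Real.exp (-θ / p) := by
  have h1 := norm_FK hl (c := c) (p := p) (δ := δ) (x0 := x0) (β := β) k hδ hβ (z := w.re)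
    (y := w.im) hw
  rw [Complex.re_add_im] at h1
  rw [h1]
  have h2 : Real.exp (-Vp l c w.re (w.im + δ) / p) ≤ Real.exp (-θ / p) := by
    refine Real.exp_le_exp.mpr ?_
    refine div_le_div_of_nonneg_right ?_ hp.le
    have h3 := Crit.TF.le_poisson hl (M := -θ) (fun t => by rw [neg_neg]; exact hθ t) (z := w.re)
      (y := w.im + δ) (by linarith)
    unfold Vp
    have h4 : 0 ≤ c * (w.im + δ) := mul_nonneg hc (by linarith)
    linarith
  have h3 : (β / ‖w - x0 + β * I‖) ^ k ≤ 1 := by
    have := norm_tF_le_one (x0 := x0) hβ (k := k) hw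
    rwa [norm_tF hβ] at this
  calc _ ≤ Real.exp (-θ / p) * 1 := mul_le_mul h2 h3 (by positivity) (Real.exp_pos _).le
    _ = _ := mul_one _

lemma differentiableAt_FK {l : ℝ → ℝ} (hl : Admissible l) {c p δ x0 β : ℝ} (k : ℕ)
    (hδ : 0 < δ) (hβ : 0 < β) {w : ℂ} (hw : 0 ≤ w.im) :
    DifferentiableAt ℂ (FK l c p δ x0 β k) w := by
  have him : 0 < (w + δ * I).im := by
    simp
    linarith
  have h0 : DifferentiableAt ℂ (Vs l c) (w + δ * I) := by
    unfold Vs
    exact (hasDerivAt_schw hl him).differentiableAt.fun_sub (by fun_prop)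
  have h1 : DifferentiableAt ℂ (fun w : ℂ => Vs l c (w + δ * I)) w :=
    DifferentiableAt.comp (g := Vs l c) (f := fun w : ℂ => w + δ * I) w h0 (by fun_prop)
  have h2 : DifferentiableAt ℂ (fun w : ℂ => Complex.exp (-(Vs l c (w + δ * I)) / p)) w :=
    (h1.fun_neg.div_const (p : ℂ)).cexp
  exact h2.fun_mul (hasDerivAt_tF hβ k hw).differentiableAt

lemma nice_FK {l : ℝ → ℝ} (hl : Ex l) {c p δ x0 β : ℝ} (k : ℕ) (hp : 0 < p)
    (hc : 0 ≤ c) (hδ : 0 < δ) (hβ : 0 < β) : Nice (FK l c p δ x0 β k) := by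
  obtain ⟨hl1, θ, hθ⟩ := hl
  exact ⟨fun w hw => differentiableAt_FK hl1 k hδ hβ hw,
    Real.exp (-θ / p), fun w hw => norm_FK_le hl1 k hp hc hθ hδ hβ hw⟩

end NK

open NK in
theorem stNK (hCost : StCost) (hNu : StNu) : StNK := by
  intro C0 lam b p μ μ' hb hbμ hμ hμ'0 hμ' hp
  have hlam : 0 < lam := by linarith
  set lam2 : ℝ := (μ' + lam) / 2 with hlam2
  have hl20 : 0 < lam2 := by rw [hlam2]; linarith
  have hl2 : lam2 < lam := by rw [hlam2]; linarith
  have hl2' : μ' < lam2 := by rw [hlam2]; linarith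
  set ε : ℝ := 1 - μ' / lam2 with hε
  have hε0 : 0 < ε := by
    rw [hε, sub_pos, div_lt_one hl20]
    exact hl2'
  have hε1 : ε < 1 := by
    rw [hε]
    have : 0 < μ' / lam2 := div_pos hμ'0 hl20
    linarith
  have hεμ : lam2 * (1 - ε) = μ' := by
    rw [hε]
    field_simp
    ring
  obtain ⟨k, hk⟩ : ∃ k : ℕ, 4 / p ≤ (k : ℝ) := ⟨⌈4 / p⌉₊, Nat.le_ceil _⟩
  have hk4 : 4 ≤ (k : ℝ) * p := by rwa [div_le_iff₀ hp] at hk
  obtain ⟨CN, hCN⟩ := hNu C0 lam lam2 b p hl20 hl2 hb hp
  obtain ⟨Cc, hCc0, hCc⟩ := hCost b μ p ε k hb hbμ hp hk4 hε0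
  refine ⟨CN * Cc * (2 : ℝ) ^ ((k : ℝ) * p), by positivity, ?_⟩
  intro U l c κ hU hl hc hStar hκ hSh z0 y0 hy0
  have hδ : 0 < ε * y0 := mul_pos hε0 hy0
  set F : ℂ → ℂ := FK l c p (ε * y0) z0 y0 k with hF
  have hNice : Nice F := nice_FK hl k hp hc hδ hy0
  have h1 : NI U F b p ≤ ENNReal.ofReal (Cc * κ * y0) := by
    have h2 := hCc U l c κ z0 y0 1 F hU hl.1 hκ hy0 zero_le_one hSh (fun z y hy => by
      rw [hF, norm_FK hl.1 k hδ hy0 hy.le, one_mul])
    rw [Real.one_rpow, mul_one] at h2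
    exact h2
  have h2 : NI U F lam2 p ≤ ENNReal.ofReal (CN * (Cc * κ * y0)) := by
    refine (hCN U hU hStar F hNice).trans ?_
    rw [ENNReal.ofReal_mul CN.coe_nonneg, ENNReal.ofReal_coe_nnreal]
    exact mul_le_mul_right h1 _
  -- lower bound
  set V : ℝ := Vp l c z0 y0 with hV
  set S : Set ℝ := Icc (z0 - μ' * y0) (z0 + μ' * y0) with hS
  have h3 : ∀ x ∈ S, ENNReal.ofReal (Real.exp (-V / p) * (1 / 2) ^ k) ≤ NTc F lam2 x := by
    intro x hx
    have hy1 : 0 < (1 - ε) * y0 := mul_pos (by linarith) hy0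
    have h4 : |x - z0| ≤ lam2 * ((1 - ε) * y0) := by
      rw [← mul_assoc, hεμ, abs_le]
      constructor
      · linarith [hx.1]
      · linarith [hx.2]
    refine le_trans (ENNReal.ofReal_le_ofReal ?_) (Crit.TL.le_NTc F lam2 x z0 _ hy1 h4)
    rw [hF, norm_FK hl.1 k hδ hy0 hy1.le]
    have h5 : (1 - ε) * y0 + ε * y0 = y0 := by ring
    rw [h5, ← hV]
    refine mul_le_mul_of_nonneg_left ?_ (Real.exp_pos _).le
    refine pow_le_pow_left₀ (by norm_num) ?_ k
    have h6 : ‖(z0 : ℂ) + (((1 - ε) * y0 : ℝ) : ℂ) * I - z0 + y0 * I‖ = (2 - ε) * y0 := by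
      have h7 : (z0 : ℂ) + (((1 - ε) * y0 : ℝ) : ℂ) * I - z0 + y0 * I =
          (((2 - ε) * y0 : ℝ) : ℂ) * I := by
        push_cast
        ring
      rw [h7, norm_mul, norm_I, mul_one, Complex.norm_real, Real.norm_eq_abs,
        abs_of_pos (mul_pos (by linarith) hy0)]
    rw [h6, div_le_div_iff₀ (by norm_num) (mul_pos (by linarith) hy0)]
    nlinarith
  have hg0 : 0 ≤ Real.exp (-V / p) * (1 / 2) ^ k := by positivity
  have h4 : ENNReal.ofReal (Real.exp (-V / p) * (1 / 2) ^ k) ^ p * wm U S ≤ NI U F lam2 p := by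
    rw [wm_apply measurableSet_Icc, ← lintegral_const_mul'' _
      (weight_ofReal_aemeas hU).restrict]
    unfold NI
    refine le_trans ?_ (setLIntegral_le_lintegral S _)
    refine setLIntegral_mono' measurableSet_Icc fun x hx => ?_
    exact mul_le_mul_left (ENNReal.rpow_le_rpow (h3 x hx) hp.le) _
  have h5 : ENNReal.ofReal (Real.exp (-V / p) * (1 / 2) ^ k) ^ p =
      ENNReal.ofReal (Real.exp (-V) * ((2 : ℝ) ^ ((k : ℝ) * p))⁻¹) := by
    rw [ENNReal.ofReal_rpow_of_nonneg hg0 hp.le]
    congr 1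
    rw [Real.mul_rpow (Real.exp_pos _).le (by positivity), ← Real.exp_mul,
      div_mul_cancel₀ _ hp.ne']
    congr 1
    rw [one_div, inv_pow, Real.inv_rpow (by positivity), ← Real.rpow_natCast,
      ← Real.rpow_mul (by norm_num)]
  rw [h5] at h4
  have h6 := h4.trans h2
  have hfin : wm U S ≠ ∞ := (wm_Icc_lt_top hU _ _).ne
  have h7 := ENNReal.toReal_mono ENNReal.ofReal_ne_top h6
  have hnn : 0 ≤ (CN : ℝ) * (Cc * κ * y0) := by positivity
  rw [ENNReal.toReal_mul, ENNReal.toReal_ofReal (by positivity),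
    ENNReal.toReal_ofReal hnn, ← setIntegral_eq_wm hU measurableSet_Icc] at h7
  have hpow : (0 : ℝ) < (2 : ℝ) ^ ((k : ℝ) * p) := by positivity
  have hexp : Real.exp V * Real.exp (-V) = 1 := by
    rw [← Real.exp_add, add_neg_cancel, Real.exp_zero]
  calc ∫ t in S, U t = (Real.exp V * (2 : ℝ) ^ ((k : ℝ) * p)) *
        (Real.exp (-V) * ((2 : ℝ) ^ ((k : ℝ) * p))⁻¹ * ∫ t in S, U t) := by
        have h8 : Real.exp V * (2 : ℝ) ^ ((k : ℝ) * p) *
            (Real.exp (-V) * ((2 : ℝ) ^ ((k : ℝ) * p))⁻¹ * ∫ t in S, U t) =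
            (Real.exp V * Real.exp (-V)) * ((2 : ℝ) ^ ((k : ℝ) * p) *
              ((2 : ℝ) ^ ((k : ℝ) * p))⁻¹) * ∫ t in S, U t := by ring
        rw [h8, hexp, mul_inv_cancel₀ hpow.ne']
        ring
    _ ≤ (Real.exp V * (2 : ℝ) ^ ((k : ℝ) * p)) * (CN * (Cc * κ * y0)) :=
        mul_le_mul_of_nonneg_left h7 (by positivity)
    _ = _ := by ring

end Pool.Agent.Work.MP_055a27_an.Fn

end

section

/-!
# The inequality of the problem for analytic functions
-/

open MeasureTheory Set Filter Topology Complex Metric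
open scoped ENNReal NNReal

namespace Pool.Agent.Work.MP_055a27_an.Sg

open Crit (lg NTc Nice NI)
open Fn (StarC)

theorem stSFb : StSFb := by
  intro C0 lam b p U hp hU hS F hF
  obtain ⟨hd, M, hM⟩ := id hF
  have a1 : Admissible (fun t : ℝ => (F t).re) := admissible_re hd hM
  have p1 : ∀ z y : ℝ, 0 < y → poisson (fun t : ℝ => (F t).re) z y = (F (z + y * I)).re :=
    fun z y hy => poisson_re hd hM hy
  have e1 : ∀ x, SF F lam x = areaFn lam (fun t : ℝ => (F t).re) x := by
    intro x
    unfold SF areaFn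
    congr 1
    apply setLIntegral_congr_fun (measurableSet_cone lam x)
    intro q hq
    have him : 0 ≤ ((q.1 : ℂ) + q.2 * I).im := by simpa using hq.2.le
    simp only
    rw [gradSq_of_re hq.2 (hd _ him).hasDerivAt p1]
  have n1 : ∀ x, ntMax b (fun t : ℝ => (F t).re) x ≤ NTc F b x := fun x =>
    Crit.N.ntMax_le_NTc fun z y hy => by
      rw [p1 z y hy]; exact Complex.abs_re_le_norm _
  calc ∫⁻ x, (SF F lam x) ^ p * ENNReal.ofReal (U x)
      = ∫⁻ x, (areaFn lam (fun t : ℝ => (F t).re) x) ^ p * ENNReal.ofReal (U x) := by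
        simp only [e1]
    _ ≤ C0 * ∫⁻ x, (ntMax b (fun t : ℝ => (F t).re) x) ^ p * ENNReal.ofReal (U x) := hS _ a1
    _ ≤ C0 * NI U F b p := by
        unfold NI
        gcongr with x
        exact n1 x

end Pool.Agent.Work.MP_055a27_an.Sg

end
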