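import Pool.Agent.Work.MP_055a27_an.Schwarz

/-! Bundle of small proof modules (one section per former module). -/

section

/-!
# Poisson representation of bounded analytic functions
-/

open MeasureTheory Set Filter Topology Complex
open scoped ENNReal NNReal

namespace Pool.Agent.Work.MP_055a27_an

/-- Integral over the real line of a function analytic in the upper half plane with quadratic
decay vanishes. -/
lemma integral_real_eq_zero {H : ℂ → ℂ} {C R₀ : ℝ}
    (hd : ∀ ζ : ℂ, 0 ≤ ζ.im → DifferentiableAt ℂ H ζ)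
    (hdec : ∀ ζ : ℂ, 0 ≤ ζ.im → R₀ ≤ ‖ζ‖ → ‖H ζ‖ ≤ C / ‖ζ‖ ^ 2)
    (hint : Integrable (fun t : ℝ => H t) volume) :
    ∫ t : ℝ, H t = 0 := by
  have h1 : Tendsto (fun R : ℝ => ∫ x in (-R)..R, H x) atTop (𝓝 (∫ t : ℝ, H t)) :=
    intervalIntegral_tendsto_integral hint tendsto_neg_atTop_atBot tendsto_id
  have h2 : Tendsto (fun R : ℝ => ∫ x in (-R)..R, H x) atTop (𝓝 0) := by
    have hC : ∀ᶠ R : ℝ in atTop, ‖∫ x in (-R)..R, H x‖ ≤ 4 * |C| / R := by
      filter_upwards [eventually_ge_atTop (max R₀ 1)] with R hR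
      have hR1 : 1 ≤ R := le_trans (le_max_right _ _) hR
      have hR0 : R₀ ≤ R := le_trans (le_max_left _ _) hR
      have hRpos : 0 < R := by linarith
      have hrect := integral_boundary_rect_eq_zero_of_differentiableOn H (-R : ℂ) (R + R * I) ?_
      · simp only [neg_re, ofReal_re, neg_im, ofReal_im, neg_zero, ofReal_zero, zero_mul, add_zero,
          add_re, mul_re, I_re, mul_zero, I_im, mul_one, sub_self, add_im, mul_im, zero_add,
          smul_eq_mul, ofReal_neg] at hrect
        have hbd : ∀ ζ : ℂ, 0 ≤ ζ.im → R ≤ ‖ζ‖ → ‖H ζ‖ ≤ |C| / R ^ 2 := by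
          intro ζ hζ hζR
          refine (hdec ζ hζ (hR0.trans hζR)).trans ?_
          calc C / ‖ζ‖ ^ 2 ≤ |C| / ‖ζ‖ ^ 2 := by gcongr; exact le_abs_self C
            _ ≤ |C| / R ^ 2 := by gcongr
        have htop : ‖∫ x in (-R)..R, H (x + R * I)‖ ≤ |C| / R ^ 2 * |R - (-R)| := by
          apply intervalIntegral.norm_integral_le_of_norm_le_const
          intro x _
          apply hbd
          · simp; exact hRpos.le
          · have := Complex.abs_im_le_norm ((x : ℂ) + R * I)
            simp at this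
            rwa [abs_of_pos hRpos] at this
        have hright : ‖∫ y in (0:ℝ)..R, H (R + y * I)‖ ≤ |C| / R ^ 2 * |R - 0| := by
          apply intervalIntegral.norm_integral_le_of_norm_le_const
          intro y hy
          rw [uIoc_of_le hRpos.le] at hy
          apply hbd
          · simp; exact hy.1.le
          · have := Complex.abs_re_le_norm ((R : ℂ) + y * I)
            simp at this
            rwa [abs_of_pos hRpos] at this
        have hleft : ‖∫ y in (0:ℝ)..R, H (-R + y * I)‖ ≤ |C| / R ^ 2 * |R - 0| := by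
          apply intervalIntegral.norm_integral_le_of_norm_le_const
          intro y hy
          rw [uIoc_of_le hRpos.le] at hy
          apply hbd
          · simp; exact hy.1.le
          · have := Complex.abs_re_le_norm (-(R : ℂ) + y * I)
            simp at this
            rwa [abs_of_pos hRpos] at this
        have heq : ∫ x in (-R)..R, H x = (∫ x in (-R)..R, H (x + R * I))
            - I * (∫ y in (0:ℝ)..R, H (R + y * I)) + I * (∫ y in (0:ℝ)..R, H (-R + y * I)) := by
          linear_combination hrect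
        rw [heq]
        have hs1 : |R - (-R)| = 2 * R := by rw [abs_of_pos (by linarith)]; ring
        have hs2 : |R - 0| = R := by rw [sub_zero, abs_of_pos hRpos]
        rw [hs1] at htop
        rw [hs2] at hright hleft
        calc ‖(∫ x in (-R)..R, H (x + R * I))
            - I * (∫ y in (0:ℝ)..R, H (R + y * I)) + I * (∫ y in (0:ℝ)..R, H (-R + y * I))‖
            ≤ ‖(∫ x in (-R)..R, H (x + R * I))‖
            + ‖I * (∫ y in (0:ℝ)..R, H (R + y * I))‖ + ‖I * (∫ y in (0:ℝ)..R, H (-R + y * I))‖ := by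
              refine (norm_add_le _ _).trans ?_
              gcongr
              exact norm_sub_le _ _
          _ ≤ |C| / R ^ 2 * (2 * R) + |C| / R ^ 2 * R + |C| / R ^ 2 * R := by
              rw [norm_mul, norm_mul, norm_I, one_mul, one_mul]
              gcongr
          _ = 4 * |C| / R := by field_simp; ring
      · intro ζ hζ
        apply DifferentiableAt.differentiableWithinAt
        apply hd
        have := hζ.2
        simp only [mem_preimage, neg_im, ofReal_im, neg_zero, add_im, mul_im, ofReal_re, I_im,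
          mul_one, I_re, mul_zero, add_zero, zero_add] at this
        rw [uIcc_of_le hRpos.le] at this
        exact this.1
    apply squeeze_zero_norm' hC
    have : Tendsto (fun R : ℝ => 4 * |C| * R⁻¹) atTop (𝓝 (4 * |C| * 0)) :=
      tendsto_inv_atTop_zero.const_mul _
    rw [mul_zero] at this
    exact this.congr (fun R => by rw [div_eq_mul_inv])
  exact tendsto_nhds_unique h1 h2

lemma integrable_kernel {z y : ℝ} (hy : 0 < y) :
    Integrable (fun t : ℝ => 1 / ((z - t) ^ 2 + y ^ 2)) volume := by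
  have h1 : Integrable (fun t : ℝ => (1 + (t / y) ^ 2)⁻¹) volume :=
    (integrable_comp_div_iff (fun t : ℝ => (1 + t ^ 2)⁻¹) hy.ne').2 integrable_inv_one_add_sq
  have h2 : Integrable (fun t : ℝ => (1 + ((z - t) / y) ^ 2)⁻¹) volume :=
    h1.comp_sub_left z
  refine (h2.const_mul (y ^ 2)⁻¹).congr (Eventually.of_forall fun t => ?_)
  have : (z - t) ^ 2 + y ^ 2 ≠ 0 := by positivity
  have : y ^ 2 + (z - t) ^ 2 ≠ 0 := by positivity
  field_simp
  ring

lemma integral_kernel {z y : ℝ} (hy : 0 < y) :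
    ∫ t : ℝ, 1 / ((z - t) ^ 2 + y ^ 2) = Real.pi / y := by
  have h1 : ∫ t : ℝ, (1 + (t / y) ^ 2)⁻¹ = y * Real.pi := by
    have := Measure.integral_comp_div (fun t : ℝ => (1 + t ^ 2)⁻¹) y
    rw [integral_univ_inv_one_add_sq, abs_of_pos hy, smul_eq_mul] at this
    exact this
  have h2 : ∫ t : ℝ, (1 + ((z - t) / y) ^ 2)⁻¹ = y * Real.pi := by
    rw [← h1]
    exact integral_sub_left_eq_self (fun t : ℝ => (1 + (t / y) ^ 2)⁻¹) volume z
  have h3 : ∫ t : ℝ, 1 / ((z - t) ^ 2 + y ^ 2) = ∫ t : ℝ, (y ^ 2)⁻¹ * (1 + ((z - t) / y) ^ 2)⁻¹ := by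
    apply integral_congr_ae
    refine Eventually.of_forall fun t => ?_
    have : (z - t) ^ 2 + y ^ 2 ≠ 0 := by positivity
    have : y ^ 2 + (z - t) ^ 2 ≠ 0 := by positivity
    field_simp
    ring
  rw [h3, integral_const_mul, h2]
  field_simp

lemma sub_mul_sub_conj (z y t : ℝ) :
    ((t : ℂ) - (z + y * I)) * ((t : ℂ) - (z - y * I)) = (((z - t) ^ 2 + y ^ 2 : ℝ) : ℂ) := by
  push_cast
  linear_combination (y : ℂ) ^ 2 * (-1 : ℂ) * (Complex.I_sq)

/-- Complex form of the Poisson representation. -/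
lemma poisson_rep_complex {F : ℂ → ℂ} {M : ℝ}
    (hd : ∀ ζ : ℂ, 0 ≤ ζ.im → DifferentiableAt ℂ F ζ)
    (hb : ∀ ζ : ℂ, 0 ≤ ζ.im → ‖F ζ‖ ≤ M) {z y : ℝ} (hy : 0 < y) :
    ∫ t : ℝ, F t * (((1 / ((z - t) ^ 2 + y ^ 2) : ℝ)) : ℂ) = F (z + y * I) * (Real.pi / y) := by
  set w : ℂ := z + y * I with hw
  have hwim : w.im = y := by simp [hw]
  have hM : 0 ≤ M := le_trans (norm_nonneg _) (hb w (by rw [hwim]; exact hy.le))
  have hker := integrable_kernel (z := z) hy
  have hF1 : Continuous (fun t : ℝ => F t) := by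
    rw [continuous_iff_continuousAt]
    intro t
    have := (hd t (by simp)).continuousAt
    exact ContinuousAt.comp (f := fun t : ℝ => (t : ℂ)) this Complex.continuous_ofReal.continuousAt
  have hI1 : Integrable (fun t : ℝ => F t * (((1 / ((z - t) ^ 2 + y ^ 2) : ℝ)) : ℂ)) volume := by
    refine (hker.ofReal (𝕜 := ℂ)).bdd_mul (c := M) ?_ ?_
    · exact hF1.aestronglyMeasurable
    · exact Eventually.of_forall fun t => hb t (by simp)
  have hI2 : Integrable (fun t : ℝ => F w * (((1 / ((z - t) ^ 2 + y ^ 2) : ℝ)) : ℂ)) volume :=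
    (hker.ofReal (𝕜 := ℂ)).const_mul _
  set H : ℂ → ℂ := fun ζ => dslope F w ζ / (ζ - (z - y * I)) with hH
  have hHt : ∀ t : ℝ, H t = F t * (((1 / ((z - t) ^ 2 + y ^ 2) : ℝ)) : ℂ)
      - F w * (((1 / ((z - t) ^ 2 + y ^ 2) : ℝ)) : ℂ) := by
    intro t
    have hne : (t : ℂ) ≠ w := by
      intro h
      have : (t : ℂ).im = w.im := by rw [h]
      rw [hwim] at this
      simp at this
      linarith
    have hne1 : (t : ℂ) - w ≠ 0 := sub_ne_zero.2 hne
    have hne2 : (t : ℂ) - (z - y * I) ≠ 0 := by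
      intro h
      have : ((t : ℂ) - (z - y * I)).im = 0 := by rw [h]; simp
      simp at this
      linarith
    have hprod : ((t : ℂ) - w) * ((t : ℂ) - (z - y * I)) = (((z - t) ^ 2 + y ^ 2 : ℝ) : ℂ) :=
      sub_mul_sub_conj z y t
    have hpos : (((z - t) ^ 2 + y ^ 2 : ℝ) : ℂ) ≠ 0 := by
      rw [Complex.ofReal_ne_zero]; positivity
    simp only [hH]
    rw [dslope_of_ne F hne, slope_def_field]
    rw [Complex.ofReal_div, ← hprod]
    push_cast
    field_simp
  have hHI : Integrable (fun t : ℝ => H t) volume := by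
    refine (hI1.sub hI2).congr (Eventually.of_forall fun t => ?_)
    simp only [Pi.sub_apply]
    rw [hHt]
  have hz : ∫ t : ℝ, H t = 0 := by
    apply integral_real_eq_zero (C := 8 * M) (R₀ := 2 * ‖w‖ + 1)
    · intro ζ hζ
      have h1 : DifferentiableAt ℂ (dslope F w) ζ := by
        have hopen : {ζ : ℂ | 0 < ζ.im} ∈ 𝓝 w :=
          (isOpen_lt continuous_const Complex.continuous_im).mem_nhds (by
            show 0 < w.im
            rw [hwim]; exact hy)
        by_cases hζw : ζ = w
        · have h2 : DifferentiableOn ℂ (dslope F w) {ζ : ℂ | 0 < ζ.im} :=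
            (Complex.differentiableOn_dslope hopen).2
              (fun v hv => (hd v (le_of_lt hv)).differentiableWithinAt)
          rw [hζw]
          exact h2.differentiableAt hopen
        · exact (differentiableAt_dslope_of_ne hζw).2 (hd ζ hζ)
      apply h1.div (by fun_prop)
      intro h
      have : (ζ - (z - y * I)).im = 0 := by rw [h]; simp
      simp at this
      linarith
    · intro ζ hζ hζR
      have hw0 : 0 ≤ ‖w‖ := norm_nonneg _
      have hζ0 : 0 < ‖ζ‖ := by linarith
      have h1 : ‖ζ‖ / 2 ≤ ‖ζ - w‖ := by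
        have := norm_sub_norm_le ζ w
        linarith
      have hconj : ‖((z : ℂ) - y * I)‖ = ‖w‖ := by
        have : (z : ℂ) - y * I = (starRingEnd ℂ) w := by
          simp [hw, sub_eq_add_neg]
        rw [this, Complex.norm_conj]
      have h2 : ‖ζ‖ / 2 ≤ ‖ζ - (z - y * I)‖ := by
        have := norm_sub_norm_le ζ (z - y * I)
        rw [hconj] at this
        linarith
      have hne : ζ ≠ w := by
        intro h
        rw [h, sub_self, norm_zero] at h1
        rw [h] at hζ0
        linarith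
      simp only [hH]
      rw [dslope_of_ne F hne, slope_def_field, norm_div, norm_div]
      have h3 : ‖F ζ - F w‖ ≤ 2 * M := by
        refine (norm_sub_le _ _).trans ?_
        have := hb ζ hζ
        have := hb w (by rw [hwim]; exact hy.le)
        linarith
      calc ‖F ζ - F w‖ / ‖ζ - w‖ / ‖ζ - (z - y * I)‖
          ≤ (2 * M) / (‖ζ‖ / 2) / (‖ζ‖ / 2) := by gcongr
        _ = 8 * M / ‖ζ‖ ^ 2 := by field_simp; ring
    · exact hHI
  have hsum : ∫ t : ℝ, H t = (∫ t : ℝ, F t * (((1 / ((z - t) ^ 2 + y ^ 2) : ℝ)) : ℂ))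
      - ∫ t : ℝ, F w * (((1 / ((z - t) ^ 2 + y ^ 2) : ℝ)) : ℂ) := by
    rw [← integral_sub hI1 hI2]
    apply integral_congr_ae
    exact Eventually.of_forall fun t => hHt t
  rw [hz] at hsum
  have h4 : ∫ t : ℝ, F w * (((1 / ((z - t) ^ 2 + y ^ 2) : ℝ)) : ℂ) = F w * (Real.pi / y) := by
    rw [integral_const_mul, integral_complex_ofReal, integral_kernel hy]
    push_cast
    ring
  rw [h4] at hsum
  linear_combination -hsum

lemma admissible_of_bounded {f : ℝ → ℝ} {M : ℝ} (hm : AEStronglyMeasurable f volume)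
    (hb : ∀ t, |f t| ≤ M) : Admissible f := by
  unfold Admissible
  have h := integrable_inv_one_add_sq
  refine (h.bdd_mul (c := M) (f := f) ?_ (Eventually.of_forall fun t => ?_)).congr
    (Eventually.of_forall fun t => ?_)
  · exact hm
  · exact hb t
  · simp only [div_eq_mul_inv]

/-- The Poisson integral of the real part of a bounded analytic function. -/
lemma poisson_re {F : ℂ → ℂ} {M : ℝ}
    (hd : ∀ ζ : ℂ, 0 ≤ ζ.im → DifferentiableAt ℂ F ζ)
    (hb : ∀ ζ : ℂ, 0 ≤ ζ.im → ‖F ζ‖ ≤ M) {z y : ℝ} (hy : 0 < y) :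
    poisson (fun t : ℝ => (F t).re) z y = (F (z + y * I)).re := by
  have key := poisson_rep_complex hd hb (z := z) hy
  rw [poisson_eq_integral]
  have hF1 : Continuous (fun t : ℝ => F t) := by
    rw [continuous_iff_continuousAt]
    intro t
    have := (hd t (by simp)).continuousAt
    exact ContinuousAt.comp (f := fun t : ℝ => (t : ℂ)) this Complex.continuous_ofReal.continuousAt
  have hI1 : Integrable (fun t : ℝ => F t * (((1 / ((z - t) ^ 2 + y ^ 2) : ℝ)) : ℂ)) volume := by
    refine ((integrable_kernel (z := z) hy).ofReal (𝕜 := ℂ)).bdd_mul (c := M) ?_ ?_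
    · exact hF1.aestronglyMeasurable
    · exact Eventually.of_forall fun t => hb t (by simp)
  have h1 := congrArg Complex.re key
  rw [← Complex.reCLM_apply, ← ContinuousLinearMap.integral_comp_comm _ hI1] at h1
  simp only [Complex.reCLM_apply] at h1
  have h2 : (F (z + y * I) * (Real.pi / y)).re = (F (z + y * I)).re * (Real.pi / y) := by
    have : (F (z + y * I) * ((Real.pi : ℂ) / (y : ℂ))) = ((Real.pi / y : ℝ) : ℂ) * F (z + y * I) := by
      push_cast; ring
    rw [this, Complex.re_ofReal_mul]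
    ring
  rw [h2] at h1
  have h3 : ∫ t : ℝ, y * (F t).re / ((z - t) ^ 2 + y ^ 2) =
      y * ∫ t : ℝ, (F t * (((1 / ((z - t) ^ 2 + y ^ 2) : ℝ)) : ℂ)).re := by
    rw [← integral_const_mul]
    apply integral_congr_ae
    refine Eventually.of_forall fun t => ?_
    simp only
    rw [mul_comm (F t), Complex.re_ofReal_mul]
    ring
  rw [h3, h1]
  have := Real.pi_ne_zero
  field_simp

lemma admissible_re {F : ℂ → ℂ} {M : ℝ}
    (hd : ∀ ζ : ℂ, 0 ≤ ζ.im → DifferentiableAt ℂ F ζ)
    (hb : ∀ ζ : ℂ, 0 ≤ ζ.im → ‖F ζ‖ ≤ M) : Admissible (fun t : ℝ => (F t).re) := by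
  have hF1 : Continuous (fun t : ℝ => F t) := by
    rw [continuous_iff_continuousAt]
    intro t
    have := (hd t (by simp)).continuousAt
    exact ContinuousAt.comp (f := fun t : ℝ => (t : ℂ)) this Complex.continuous_ofReal.continuousAt
  apply admissible_of_bounded (M := M)
  · exact (Complex.continuous_re.comp hF1).aestronglyMeasurable
  · intro t
    exact (Complex.abs_re_le_norm _).trans (hb t (by simp))

/-- If the Poisson integral of `f` is the real part of `F`, then `F' = dschw f`. -/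
lemma dschw_eq {f : ℝ → ℝ} (hf : Admissible f) {F : ℂ → ℂ} {F' w : ℂ} (hw : 0 < w.im)
    (hF : HasDerivAt F F' w)
    (hp : ∀ z y : ℝ, 0 < y → poisson f z y = (F (z + y * I)).re) :
    dschw f w = F' := by
  have hwe : (w.re : ℂ) + w.im * I = w := Complex.re_add_im w
  have key : ∀ (G : ℂ → ℂ) (G' : ℂ), HasDerivAt G G' w →
      (∀ z y : ℝ, 0 < y → poisson f z y = (G (z + y * I)).re) →
      HasDerivAt (fun s : ℝ => poisson f s w.im) G'.re w.re ∧
      HasDerivAt (fun s : ℝ => poisson f w.re s) (-G'.im) w.im := by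
    intro G G' hG hpG
    rw [← hwe] at hG
    constructor
    · have h2 : HasDerivAt (fun s : ℝ => G ((s : ℂ) + w.im * I)) G' w.re := by
        have h3 : HasDerivAt (fun s : ℂ => s + w.im * I) 1 (w.re : ℂ) :=
          (hasDerivAt_id _).add_const _
        have h4 := hG.comp (w.re : ℂ) h3
        rw [mul_one] at h4
        exact h4.comp_ofReal
      have h5 := Complex.reCLM.hasFDerivAt.comp_hasDerivAt w.re h2
      refine HasDerivAt.congr_of_eventuallyEq (f := fun s : ℝ => (G ((s : ℂ) + w.im * I)).re) ?_ ?_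
      · exact h5
      · exact Eventually.of_forall fun s => hpG s w.im hw
    · have h2 : HasDerivAt (fun s : ℝ => G ((w.re : ℂ) + s * I)) (G' * I) w.im := by
        have h3 : HasDerivAt (fun s : ℂ => (w.re : ℂ) + s * I) I (w.im : ℂ) := by
          simpa using ((hasDerivAt_id (w.im : ℂ)).mul_const I).const_add (w.re : ℂ)
        have h4 := hG.comp (w.im : ℂ) h3
        exact h4.comp_ofReal
      have h5 := Complex.reCLM.hasFDerivAt.comp_hasDerivAt w.im h2
      have h6 : (G' * I).re = -G'.im := by simp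
      refine HasDerivAt.congr_of_eventuallyEq (f := fun s : ℝ => (G ((w.re : ℂ) + s * I)).re) ?_ ?_
      · rw [← h6]
        exact h5
      · filter_upwards [eventually_gt_nhds hw] with s hs
        exact hpG w.re s hs
  obtain ⟨a1, a2⟩ := key F F' hF hp
  obtain ⟨b1, b2⟩ := key (schw f) (dschw f w) (hasDerivAt_schw hf hw)
    (fun z y hy => poisson_eq_re hf hy)
  apply Complex.ext
  · exact b1.unique a1
  · have := b2.unique a2
    linarith

lemma gradSq_eq {f : ℝ → ℝ} (hf : Admissible f) {z y : ℝ} (hy : 0 < y) :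
    gradSq f z y = ‖dschw f (z + y * I)‖ ^ 2 := by
  have hw : 0 < ((z : ℂ) + y * I).im := by simp [hy]
  exact gradSq_of_re hy (hasDerivAt_schw hf hw) (fun z y hy => poisson_eq_re hf hy)

end Pool.Agent.Work.MP_055a27_an

end

section

/-!
# Basic bounds for the area function and the maximal function
-/

open MeasureTheory Set Filter Topology Complex
open scoped ENNReal NNReal

namespace Pool.Agent.Work.MP_055a27_an

lemma measurableSet_strip {y1 y2 δ : ℝ} {φ : ℝ → ℝ} (hφ : Measurable φ) :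
    MeasurableSet {q : ℝ × ℝ | q.2 ∈ Icc y1 y2 ∧ q.1 ∈ Icc (φ q.2) (φ q.2 + δ)} := by
  apply MeasurableSet.inter
  · exact measurable_snd measurableSet_Icc
  · apply MeasurableSet.inter
    · exact measurableSet_le (hφ.comp measurable_snd) measurable_fst
    · exact measurableSet_le measurable_fst ((hφ.comp measurable_snd).add_const δ)

lemma volume_strip {y1 y2 δ : ℝ} {φ : ℝ → ℝ} (hφ : Measurable φ) :
    volume {q : ℝ × ℝ | q.2 ∈ Icc y1 y2 ∧ q.1 ∈ Icc (φ q.2) (φ q.2 + δ)}
      = ENNReal.ofReal δ * ENNReal.ofReal (y2 - y1) := by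
  rw [Measure.volume_eq_prod, Measure.prod_apply_symm (measurableSet_strip hφ)]
  have h1 : ∀ y : ℝ, volume ((fun x : ℝ => (x, y)) ⁻¹'
      {q : ℝ × ℝ | q.2 ∈ Icc y1 y2 ∧ q.1 ∈ Icc (φ q.2) (φ q.2 + δ)})
      = (Icc y1 y2).indicator (fun _ => ENNReal.ofReal δ) y := by
    intro y
    by_cases hy : y ∈ Icc y1 y2
    · rw [indicator_of_mem hy]
      have : ((fun x : ℝ => (x, y)) ⁻¹'
        {q : ℝ × ℝ | q.2 ∈ Icc y1 y2 ∧ q.1 ∈ Icc (φ q.2) (φ q.2 + δ)})
          = Icc (φ y) (φ y + δ) := by
        ext x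
        simp only [mem_preimage, mem_ofPred_eq]
        exact ⟨fun h => h.2, fun h => ⟨hy, h⟩⟩
      rw [this, Real.volume_Icc]
      congr 1
      ring
    · rw [indicator_of_notMem hy]
      have : ((fun x : ℝ => (x, y)) ⁻¹'
        {q : ℝ × ℝ | q.2 ∈ Icc y1 y2 ∧ q.1 ∈ Icc (φ q.2) (φ q.2 + δ)}) = ∅ := by
        ext x
        simp only [mem_preimage, mem_ofPred_eq, mem_empty_iff_false, iff_false]
        exact fun h => hy h.1
      rw [this, measure_empty]
  simp_rw [h1]
  rw [lintegral_indicator measurableSet_Icc, setLIntegral_const, Real.volume_Icc]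

lemma area_lower {lam x c : ℝ} {f : ℝ → ℝ} {P : Set (ℝ × ℝ)} (hPm : MeasurableSet P)
    (hP : P ⊆ cone lam x) (hc : ∀ q ∈ P, c ≤ gradSq f q.1 q.2) :
    ENNReal.ofReal c * volume P ≤ ∫⁻ q in cone lam x, ENNReal.ofReal (gradSq f q.1 q.2) := by
  calc ENNReal.ofReal c * volume P = ∫⁻ _ in P, ENNReal.ofReal c := (setLIntegral_const _ _).symm
    _ ≤ ∫⁻ q in P, ENNReal.ofReal (gradSq f q.1 q.2) := by
        apply setLIntegral_mono' hPm
        intro q hq
        exact ENNReal.ofReal_le_ofReal (hc q hq)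
    _ ≤ _ := lintegral_mono_set hP

lemma ntMax_le {b x B : ℝ} {f : ℝ → ℝ}
    (h : ∀ z y : ℝ, 0 < y → |x - z| ≤ b * y → |poisson f z y| ≤ B) :
    ntMax b f x ≤ ENNReal.ofReal B := by
  unfold ntMax
  refine iSup_le fun z => iSup_le fun y => iSup_le fun hzy => ?_
  apply ENNReal.ofReal_le_ofReal
  apply h _ _ hzy.1
  have : x - (x - z) = z := by ring
  rw [this]
  exact hzy.2

lemma le_ntMax {b x z y : ℝ} {f : ℝ → ℝ} (hy : 0 < y) (h : |x - z| ≤ b * y) :
    ENNReal.ofReal |poisson f z y| ≤ ntMax b f x := by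
  unfold ntMax
  have : ENNReal.ofReal |poisson f (x - (x - z)) y| ≤
      ⨆ (z : ℝ) (y : ℝ) (_ : 0 < y ∧ |z| ≤ b * y), ENNReal.ofReal |poisson f (x - z) y| :=
    le_iSup_of_le (x - z) (le_iSup_of_le y (le_iSup_of_le ⟨hy, h⟩ le_rfl))
  simpa using this

lemma areaFn_rpow {lam x p : ℝ} {f : ℝ → ℝ} :
    (areaFn lam f x) ^ p =
      (∫⁻ q in cone lam x, ENNReal.ofReal (gradSq f q.1 q.2)) ^ (p / 2) := by
  unfold areaFn
  rw [← ENNReal.rpow_mul]
  congr 1
  ring

lemma cone_mono {lam lam' x : ℝ} (h : lam ≤ lam') : cone lam x ⊆ cone lam' x := by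
  intro q hq
  refine ⟨hq.1.trans ?_, hq.2⟩
  exact mul_le_mul_of_nonneg_right h hq.2.le

end Pool.Agent.Work.MP_055a27_an

end
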