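import Pool.Agent.Work.MP_055a27_an.Fn.Stmts2
import Pool.Agent.Work.MP_055a27_an.Bd.B04
import Pool.Agent.Work.MP_055a27_an.Bd.B02
import Pool.Agent.Work.MP_055a27_an.Crit.TFUp
import Pool.Agent.Work.MP_055a27_an.Sg.Stmts
import Pool.Agent.Work.MP_055a27_an.Wd.Stmts

/-! Bundle of small proof modules (one section per former module). -/

section

/-! # The mass of a shadow times the gradient -/

set_option autoImplicit false

open MeasureTheory Set Filter Topology Complex Metric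
open scoped ENNReal NNReal

namespace Pool.Agent.Work.MP_055a27_an.Fn

namespace Va

lemma point {b δ z y x : ℝ} {f : ℝ → ℝ} {w : ℂ} (hb : 0 < b) (hδ : 0 < δ) (hδ1 : δ < 1 / 4)
    (hδb : 2 * δ * (1 + b) ≤ b / 2) (hf : Admissible f) (hy : 0 < y)
    (hw : w ∈ ball ((z : ℂ) + y * I) (δ * y)) (hx : x ∈ Icc (z - b / 2 * y) (z + b / 2 * y)) :
    ENNReal.ofReal (y * ‖dschw f w‖) ≤ ENNReal.ofReal (4 / δ) * ntMax b f x := by
  by_cases htop : ntMax b f x = ⊤
  · have h0 : ENNReal.ofReal (4 / δ) ≠ 0 := by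
      rw [Ne, ENNReal.ofReal_eq_zero, not_le]
      positivity
    rw [htop, ENNReal.mul_top h0]
    exact le_top
  set σ : ℝ := (ntMax b f x).toReal with hσ
  have hδy : 0 < δ * y := by positivity
  have hw1 : ‖w - (z + y * I)‖ < δ * y := by simpa [dist_eq_norm] using hw
  have hb1 : ∀ v ∈ ball w (δ * y), |v.re - z| < 2 * δ * y ∧ (1 - 2 * δ) * y < v.im := by
    intro v hv
    have hd : ‖v - w‖ < δ * y := by simpa [dist_eq_norm] using hv
    have hd2 : ‖v - (z + y * I)‖ < 2 * δ * y := by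
      calc ‖v - (z + y * I)‖ = ‖(v - w) + (w - (z + y * I))‖ := by ring_nf
        _ ≤ ‖v - w‖ + ‖w - (z + y * I)‖ := norm_add_le _ _
        _ < 2 * δ * y := by linarith
    have h1 := Complex.abs_re_le_norm (v - (z + y * I))
    have h2 := Complex.abs_im_le_norm (v - (z + y * I))
    simp at h1 h2
    have h3 := (abs_lt.1 (lt_of_le_of_lt h2 hd2)).1
    exact ⟨lt_of_le_of_lt h1 hd2, by linarith⟩
  have hq : 0 < (1 - 2 * δ) * y := mul_pos (by linarith) hy
  have h1 : ∀ v ∈ ball w (δ * y), |(schw f v).re| ≤ σ := by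
    intro v hv
    obtain ⟨h2, h3⟩ := hb1 v hv
    have hvy : 0 < v.im := hq.trans h3
    have hve : (v.re : ℂ) + v.im * I = v := Complex.re_add_im v
    rw [← hve, schw_re hf hvy]
    have h4 : |x - v.re| ≤ b * v.im := by
      have h5 : |x - v.re| ≤ b / 2 * y + 2 * δ * y := by
        have h6 := abs_lt.1 h2
        rw [abs_le]
        constructor <;> linarith [hx.1, hx.2, h6.1, h6.2]
      have h7 : b / 2 * y + 2 * δ * y ≤ b * ((1 - 2 * δ) * y) := by
        nlinarith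
      exact h5.trans (h7.trans (mul_le_mul_of_nonneg_left h3.le hb.le))
    have h5 := le_ntMax (f := f) hvy h4
    rw [hσ]
    exact (ENNReal.ofReal_le_iff_le_toReal htop).1 h5
  have h2 : DifferentiableOn ℂ (schw f) (ball w (δ * y)) := by
    intro v hv
    have hvy : 0 < v.im := hq.trans (hb1 v hv).2
    exact (hasDerivAt_schw hf hvy).differentiableAt.differentiableWithinAt
  have h3 := grad_bound hδy h2 h1
  have hwi : 0 < w.im := hq.trans (hb1 w (mem_ball_self hδy)).2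
  rw [(hasDerivAt_schw hf hwi).deriv] at h3
  have h4 : y * ‖dschw f w‖ ≤ 4 / δ * σ := by
    have h5 := mul_le_mul_of_nonneg_left h3 hy.le
    have h6 : y * (4 * σ / (δ * y)) = 4 / δ * σ := by field_simp
    rwa [h6] at h5
  calc ENNReal.ofReal (y * ‖dschw f w‖) ≤ ENNReal.ofReal (4 / δ * σ) :=
        ENNReal.ofReal_le_ofReal h4
    _ = ENNReal.ofReal (4 / δ) * ntMax b f x := by
        rw [ENNReal.ofReal_mul (by positivity), hσ, ENNReal.ofReal_toReal htop]

end Va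

theorem stVa : StVa := by
  intro b p hb hp
  set δ : ℝ := b / (16 * (1 + b)) with hδd
  have hδ : 0 < δ := by positivity
  have hδe : δ * (1 + b) = b / 16 := by rw [hδd]; field_simp
  have hδ1 : δ < 1 / 16 := by
    rw [hδd, div_lt_div_iff₀ (by positivity) (by norm_num)]
    linarith
  refine ⟨(4 / δ) ^ p, δ, by positivity, hδ, by linarith, ?_⟩
  intro U f A hU hf hA hN z y hy w hw
  set q : ℝ := y * ‖dschw f w‖ with hq
  have hq0 : 0 ≤ q := by positivity
  have hqp : 0 ≤ q ^ p := by positivity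
  have hδp : 0 ≤ (4 / δ) ^ p := by positivity
  set J : Set ℝ := Icc (z - b / 2 * y) (z + b / 2 * y) with hJ
  have hint : IntegrableOn U J volume := hU.2.integrableOn_isCompact isCompact_Icc
  have h0 : ∀ x, 0 ≤ U x := hU.1
  have e1 : ENNReal.ofReal (∫ t in J, U t) = ∫⁻ t in J, ENNReal.ofReal (U t) :=
    ofReal_integral_eq_lintegral_ofReal hint (Eventually.of_forall h0)
  have hpt : ∀ x ∈ J, ENNReal.ofReal (q ^ p) ≤ ENNReal.ofReal ((4 / δ) ^ p) * (ntMax b f x) ^ p := by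
    intro x hx
    have h1 := Va.point hb hδ (by linarith) (by linarith) hf hy hw hx
    have h2 := ENNReal.rpow_le_rpow h1 hp.le
    rw [ENNReal.mul_rpow_of_nonneg _ _ hp.le, ENNReal.ofReal_rpow_of_nonneg hq0 hp.le,
      ENNReal.ofReal_rpow_of_nonneg (by positivity) hp.le] at h2
    exact h2
  have key : ENNReal.ofReal ((∫ t in J, U t) * q ^ p) ≤ ENNReal.ofReal ((4 / δ) ^ p * A) := by
    rw [mul_comm, ENNReal.ofReal_mul hqp, e1, ENNReal.ofReal_mul hδp,
      ← lintegral_const_mul' _ _ ENNReal.ofReal_ne_top]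
    calc ∫⁻ t in J, ENNReal.ofReal (q ^ p) * ENNReal.ofReal (U t) ≤
        ∫⁻ t in J, ENNReal.ofReal ((4 / δ) ^ p) * ((ntMax b f t) ^ p * ENNReal.ofReal (U t)) := by
          refine setLIntegral_mono' measurableSet_Icc fun x hx => ?_
          rw [← mul_assoc]
          exact mul_le_mul_left (hpt x hx) _
      _ = ENNReal.ofReal ((4 / δ) ^ p) * ∫⁻ t in J, (ntMax b f t) ^ p * ENNReal.ofReal (U t) :=
          lintegral_const_mul' _ _ ENNReal.ofReal_ne_top
      _ ≤ ENNReal.ofReal ((4 / δ) ^ p) * ENNReal.ofReal A := by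
          gcongr
          exact (setLIntegral_le_lintegral _ _).trans hN
  exact (ENNReal.ofReal_le_ofReal_iff (by positivity)).1 key

end Pool.Agent.Work.MP_055a27_an.Fn

end

section

/-!
# Item 32 Vac: the vacuous case
-/

open MeasureTheory Set Filter Topology Complex Metric
open scoped ENNReal NNReal ComplexConjugate

namespace Pool.Agent.Work.MP_055a27_an.Fn

theorem stVac (hVf : StVf) : StVac := by
  intro lam b p U hlam hb hp hU hNV
  refine ⟨1, ?_⟩
  intro f hf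
  by_cases hfin : ∫⁻ x, (ntMax b f x) ^ p * ENNReal.ofReal (U x) = ∞
  · rw [hfin]; simp
  · have hz : ∀ w : ℂ, 0 < w.im → dschw f w = 0 := by
      by_contra hcon
      push Not at hcon
      obtain ⟨w, hw, hne⟩ := hcon
      exact hNV (hVf b p U f hb hp hU hf hfin ⟨w, hw, hne⟩)
    have hg : ∀ z y : ℝ, 0 < y → gradSq f z y = 0 := by
      intro z y hy
      rw [gradSq_eq hf hy, hz _ (by simpa using hy)]
      simp
    have ha : ∀ x, areaFn lam f x = 0 := by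
      intro x
      unfold areaFn
      have hm : MeasurableSet (cone lam x) := by
        have h1 : MeasurableSet {q : ℝ × ℝ | |x - q.1| ≤ lam * q.2} :=
          measurableSet_le (by fun_prop) (by fun_prop)
        have h2 : MeasurableSet {q : ℝ × ℝ | 0 < q.2} :=
          measurableSet_lt (by fun_prop) (by fun_prop)
        exact h1.inter h2
      have h0 : ∫⁻ q in cone lam x, ENNReal.ofReal (gradSq f q.1 q.2) = 0 := by
        rw [setLIntegral_congr_fun (g := fun _ => 0) hm (fun q hq => by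
          simp only [hg q.1 q.2 hq.2, ENNReal.ofReal_zero])]
        simp
      rw [h0]
      exact ENNReal.zero_rpow_of_pos (by norm_num)
    simp [ha, ENNReal.zero_rpow_of_pos hp]

end Pool.Agent.Work.MP_055a27_an.Fn

end

section

/-!
# Item 30 (Vz): a bounded analytic function is not too small on balls
-/

set_option autoImplicit false

open MeasureTheory Set Filter Topology Complex Metric
open scoped ENNReal NNReal ComplexConjugate

namespace Pool.Agent.Work.MP_055a27_an.Fn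

namespace Vz

/-! ### Zeros are countable -/

theorem countable_zeros {g : ℂ → ℂ} (hg : DifferentiableOn ℂ g {w : ℂ | 0 < w.im})
    (hne : ∃ w : ℂ, 0 < w.im ∧ g w ≠ 0) : {w : ℂ | 0 < w.im ∧ g w = 0}.Countable := by
  have hopen : IsOpen {w : ℂ | 0 < w.im} := isOpen_lt continuous_const Complex.continuous_im
  have hconv : Convex ℝ {w : ℂ | 0 < w.im} := convex_halfSpace_im_gt 0
  have han : AnalyticOnNhd ℂ g {w : ℂ | 0 < w.im} := hg.analyticOnNhd hopen
  have key : ∀ x ∈ {w : ℂ | 0 < w.im ∧ g w = 0},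
      ({x} : Set ℂ) ∈ 𝓝[{w : ℂ | 0 < w.im ∧ g w = 0}] x := by
    intro x hx
    rcases (han x hx.1).eventually_eq_zero_or_eventually_ne_zero with h | h
    · exfalso
      obtain ⟨w, hw, hgw⟩ := hne
      exact hgw (han.eqOn_zero_of_preconnected_of_eventuallyEq_zero hconv.isPreconnected hx.1 h hw)
    · rw [eventually_nhdsWithin_iff] at h
      rw [mem_nhdsWithin_iff_eventually]
      filter_upwards [h] with w hw hw2
      by_contra hne'
      exact hw hne' hw2.2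
  obtain ⟨t, hts, htc, hst⟩ := TopologicalSpace.countable_cover_nhdsWithin key
  refine htc.mono fun x hx => ?_
  have := hst hx
  simp only [mem_iUnion, mem_singleton_iff, exists_prop] at this
  obtain ⟨y, hy, rfl⟩ := this
  exact hy

theorem exists_height {g : ℂ → ℂ} (hg : DifferentiableOn ℂ g {w : ℂ | 0 < w.im})
    (hne : ∃ w : ℂ, 0 < w.im ∧ g w ≠ 0) {a : ℝ} (ha : 0 < a) :
    ∃ h : ℝ, 0 < h ∧ h < a ∧ ∀ x : ℝ, g ((x : ℂ) + h * I) ≠ 0 := by
  have hc := (countable_zeros hg hne).image Complex.im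
  have h1 : ¬ (Ioo 0 a ⊆ Complex.im '' {w : ℂ | 0 < w.im ∧ g w = 0}) := by
    intro hsub
    have h2 : (Ioo 0 a).Countable := hc.mono hsub
    have h3 : volume (Ioo 0 a) = 0 := h2.measure_zero _
    rw [Real.volume_Ioo, sub_zero, ENNReal.ofReal_eq_zero] at h3
    linarith
  rw [not_subset] at h1
  obtain ⟨h, hh, hh2⟩ := h1
  refine ⟨h, hh.1, hh.2, fun x hx => hh2 ⟨(x : ℂ) + h * I, ⟨?_, hx⟩, ?_⟩⟩
  · simpa using hh.1
  · simp

/-! ### Comparison of Poisson integrals -/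

theorem kernel_cmp {δ z y z' y' Y t : ℝ} (hδ : 0 < δ) (hδ1 : δ < 1) (hy : 0 < y)
    (hY : 3 / 4 * y ≤ Y) (hYy : Y ≤ y) (hz : |z' - z| ≤ δ * Y) (h1 : (1 - δ) * Y ≤ y')
    (h2 : y' ≤ (1 + δ) * Y) :
    y' / ((z' - t) ^ 2 + y' ^ 2) ≤ 24 / (1 - δ) ^ 2 * (y / ((z - t) ^ 2 + y ^ 2)) := by
  have hd : 0 < 1 - δ := by linarith
  have hYp : 0 < Y := by linarith
  have hy' : 0 < y' := lt_of_lt_of_le (mul_pos hd hYp) h1
  have hy2 : y' ≤ 2 * y := by nlinarith
  have hA : 0 < (z' - t) ^ 2 + y' ^ 2 := by positivity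
  have hB : 0 < (z - t) ^ 2 + y ^ 2 := by positivity
  have hzz : (z' - z) ^ 2 ≤ y ^ 2 := by
    rw [← sq_abs (z' - z)]
    have : |z' - z| ≤ y := by nlinarith
    have h0 : 0 ≤ |z' - z| := abs_nonneg _
    nlinarith
  have hyy : (1 - δ) ^ 2 * y ^ 2 ≤ 4 * y' ^ 2 := by
    have h3 : (1 - δ) * y ≤ 2 * y' := by nlinarith
    have h4 : 0 ≤ (1 - δ) * y := by positivity
    nlinarith
  have hd1 : (1 - δ) ^ 2 ≤ 1 := by nlinarith
  have hmain : (1 - δ) ^ 2 * ((z - t) ^ 2 + y ^ 2) ≤ 12 * ((z' - t) ^ 2 + y' ^ 2) := by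
    have h5 : (z - t) ^ 2 + y ^ 2 ≤ 2 * (z' - t) ^ 2 + 3 * y ^ 2 := by
      nlinarith [sq_nonneg ((z' - t) + (z' - z))]
    have h6 : (1 - δ) ^ 2 * (2 * (z' - t) ^ 2) ≤ 2 * (z' - t) ^ 2 := by
      have : 0 ≤ 2 * (z' - t) ^ 2 := by positivity
      nlinarith
    have h7 : (1 - δ) ^ 2 * ((z - t) ^ 2 + y ^ 2) ≤
        (1 - δ) ^ 2 * (2 * (z' - t) ^ 2 + 3 * y ^ 2) :=
      mul_le_mul_of_nonneg_left h5 (by positivity)
    nlinarith [sq_nonneg (z' - t)]
  have h8 : 24 / (1 - δ) ^ 2 * (y / ((z - t) ^ 2 + y ^ 2)) =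
      (24 * y) / ((1 - δ) ^ 2 * ((z - t) ^ 2 + y ^ 2)) := by
    field_simp
  rw [h8, div_le_div_iff₀ hA (by positivity)]
  calc y' * ((1 - δ) ^ 2 * ((z - t) ^ 2 + y ^ 2))
      ≤ y' * (12 * ((z' - t) ^ 2 + y' ^ 2)) := mul_le_mul_of_nonneg_left hmain hy'.le
    _ ≤ (2 * y) * (12 * ((z' - t) ^ 2 + y' ^ 2)) :=
        mul_le_mul_of_nonneg_right hy2 (by positivity)
    _ = 24 * y * ((z' - t) ^ 2 + y' ^ 2) := by ring

theorem Vp_cmp {ρ : ℝ → ℝ} {c δ z y z' y' Y : ℝ} (hρ : Admissible ρ) (hρ0 : ∀ t, 0 ≤ ρ t)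
    (hc : 0 ≤ c) (hδ : 0 < δ) (hδ1 : δ < 1) (hy : 0 < y)
    (hY : 3 / 4 * y ≤ Y) (hYy : Y ≤ y) (hz : |z' - z| ≤ δ * Y) (h1 : (1 - δ) * Y ≤ y')
    (h2 : y' ≤ (1 + δ) * Y) : Vp ρ c z' y' ≤ 24 / (1 - δ) ^ 2 * Vp ρ c z y := by
  have hd : 0 < 1 - δ := by linarith
  have hYp : 0 < Y := by linarith
  have hy' : 0 < y' := lt_of_lt_of_le (mul_pos hd hYp) h1
  have hy2 : y' ≤ 2 * y := by nlinarith
  unfold Vp
  rw [mul_add]
  refine add_le_add ?_ ?_
  · rw [poisson_eq_integral, poisson_eq_integral]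
    have h3 : (24 / (1 - δ) ^ 2) * (1 / Real.pi * ∫ t : ℝ, y * ρ t / ((z - t) ^ 2 + y ^ 2)) =
        1 / Real.pi * ∫ t : ℝ, (24 / (1 - δ) ^ 2) * (y * ρ t / ((z - t) ^ 2 + y ^ 2)) := by
      rw [integral_const_mul]; ring
    rw [h3]
    refine mul_le_mul_of_nonneg_left ?_ (by positivity)
    refine integral_mono (Crit.TFUp.integrable_pois hρ hy')
      ((Crit.TFUp.integrable_pois hρ hy).const_mul _) fun t => ?_
    have h4 := kernel_cmp (t := t) hδ hδ1 hy hY hYy hz h1 h2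
    have h5 : y' * ρ t / ((z' - t) ^ 2 + y' ^ 2) = ρ t * (y' / ((z' - t) ^ 2 + y' ^ 2)) := by ring
    have h6 : (24 / (1 - δ) ^ 2) * (y * ρ t / ((z - t) ^ 2 + y ^ 2)) =
        ρ t * (24 / (1 - δ) ^ 2 * (y / ((z - t) ^ 2 + y ^ 2))) := by ring
    change y' * ρ t / ((z' - t) ^ 2 + y' ^ 2) ≤
      (24 / (1 - δ) ^ 2) * (y * ρ t / ((z - t) ^ 2 + y ^ 2))
    rw [h5, h6]
    exact mul_le_mul_of_nonneg_left h4 (hρ0 t)
  · have h7 : (1 - δ) ^ 2 ≤ 1 := by nlinarith
    have h8 : 24 ≤ 24 / (1 - δ) ^ 2 := by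
      rw [le_div_iff₀ (by positivity)]
      linarith
    have h9 : 0 ≤ c * y := mul_nonneg hc hy.le
    calc c * y' ≤ c * (2 * y) := mul_le_mul_of_nonneg_left hy2 hc
      _ ≤ 24 * (c * y) := by nlinarith
      _ ≤ 24 / (1 - δ) ^ 2 * (c * y) := mul_le_mul_of_nonneg_right h8 h9

theorem poisson_nonneg' {ρ : ℝ → ℝ} {z y : ℝ} (hρ0 : ∀ t, 0 ≤ ρ t) (hy : 0 < y) :
    0 ≤ poisson ρ z y := by
  unfold poisson
  refine mul_nonneg (by positivity) (integral_nonneg fun t => ?_)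
  have := hρ0 (z - t)
  positivity

theorem Vp_nonneg {ρ : ℝ → ℝ} {c z y : ℝ} (hρ0 : ∀ t, 0 ≤ ρ t) (hc : 0 ≤ c) (hy : 0 < y) :
    0 ≤ Vp ρ c z y := add_nonneg (poisson_nonneg' hρ0 hy) (mul_nonneg hc hy.le)

theorem adm_lin {ρ1 ρ2 : ℝ → ℝ} (h1 : Admissible ρ1) (h2 : Admissible ρ2) (K1 K2 : ℝ) :
    Admissible (fun t => K1 * ρ1 t + K2 * ρ2 t) := by
  have := (Integrable.const_mul h1 K1).add (Integrable.const_mul h2 K2)
  refine this.congr (Eventually.of_forall fun t => ?_)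
  change K1 * (ρ1 t / (1 + t ^ 2)) + K2 * (ρ2 t / (1 + t ^ 2)) =
    (K1 * ρ1 t + K2 * ρ2 t) / (1 + t ^ 2)
  ring

theorem Vp_lin {ρ1 ρ2 : ℝ → ℝ} (h1 : Admissible ρ1) (h2 : Admissible ρ2) (K1 K2 c1 c2 z y : ℝ)
    (hy : 0 < y) : Vp (fun t => K1 * ρ1 t + K2 * ρ2 t) (K1 * c1 + K2 * c2) z y =
      K1 * Vp ρ1 c1 z y + K2 * Vp ρ2 c2 z y := by
  unfold Vp
  rw [poisson_eq_integral, poisson_eq_integral, poisson_eq_integral]
  have h3 : ∫ t : ℝ, y * (K1 * ρ1 t + K2 * ρ2 t) / ((z - t) ^ 2 + y ^ 2) =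
      K1 * (∫ t : ℝ, y * ρ1 t / ((z - t) ^ 2 + y ^ 2)) +
      K2 * (∫ t : ℝ, y * ρ2 t / ((z - t) ^ 2 + y ^ 2)) := by
    rw [← integral_const_mul, ← integral_const_mul,
      ← integral_add ((Crit.TFUp.integrable_pois h1 hy).const_mul _)
        ((Crit.TFUp.integrable_pois h2 hy).const_mul _)]
    refine integral_congr_ae (Eventually.of_forall fun t => ?_)
    change y * (K1 * ρ1 t + K2 * ρ2 t) / ((z - t) ^ 2 + y ^ 2) =
      K1 * (y * ρ1 t / ((z - t) ^ 2 + y ^ 2)) + K2 * (y * ρ2 t / ((z - t) ^ 2 + y ^ 2))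
    ring
  rw [h3]
  ring

/-! ### The average over a ball -/

theorem im_ball {z Y δ : ℝ} {v : ℂ} (hv : v ∈ ball ((z : ℂ) + Y * I) (δ * Y)) :
    |v.re - z| ≤ δ * Y ∧ (1 - δ) * Y ≤ v.im ∧ v.im ≤ (1 + δ) * Y ∧ (1 - δ) * Y < v.im := by
  rw [mem_ball, dist_eq_norm] at hv
  have h1 := (Complex.abs_re_le_norm (v - ((z : ℂ) + Y * I))).trans hv.le
  have h2 := (Complex.abs_im_le_norm (v - ((z : ℂ) + Y * I))).trans_lt hv
  simp only [sub_re, add_re, ofReal_re, mul_re, I_re, mul_zero, ofReal_im, I_im, mul_one,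
    sub_self, add_zero] at h1
  simp only [sub_im, add_im, ofReal_im, mul_im, ofReal_re, I_im, mul_one, I_re, mul_zero,
    add_zero, zero_add] at h2
  rw [abs_lt] at h2
  refine ⟨h1, by linarith [h2.1], by linarith [h2.2], by linarith [h2.1]⟩

theorem vol_ball (z Y δ : ℝ) (hY : 0 < Y) (hδ : 0 < δ) :
    volume (ball ((z : ℂ) + Y * I) (δ * Y)) = ENNReal.ofReal (Real.pi * δ ^ 2 * Y ^ 2) := by
  rw [Complex.volume_ball, ← ENNReal.ofReal_pow (by positivity)]
  have : (NNReal.pi : ℝ≥0∞) = ENNReal.ofReal Real.pi := by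
    rw [← NNReal.coe_real_pi, ENNReal.ofReal_coe_nnreal]
  rw [this, ← ENNReal.ofReal_mul (by positivity)]
  congr 1
  ring

theorem avg {g1 : ℂ → ℂ} {h0 : ℝ} (hGG : GG h0 g1) (hZc : (ZZ g1).Countable) {ρ1 : ℝ → ℝ}
    {C1 : ℝ} (m : ZZ g1 → ℕ)
    (hRp : ∀ w : ℂ, 0 < w.im → g1 w ≠ 0 → ENNReal.ofReal (-Real.log ‖g1 w‖) ≤
      ENNReal.ofReal (Vp ρ1 C1 w.re w.im) + ∑' ζ : ZZ g1, (m ζ : ℝ≥0∞) *
        ENNReal.ofReal (Real.log (‖w - conj (ζ : ℂ)‖ / ‖w - ζ‖)))
    {δ z Y S1 S2 : ℝ} (hY : 0 < Y) (hδ : 0 < δ) (hδ1 : δ < 1)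
    (hS1 : ∀ v ∈ ball ((z : ℂ) + Y * I) (δ * Y), Vp ρ1 C1 v.re v.im ≤ S1) (hS1' : 0 ≤ S1)
    (hS2 : ∑' ζ : ZZ g1, (m ζ : ℝ≥0∞) * ∫⁻ w in ball ((z : ℂ) + Y * I) (δ * Y),
      ENNReal.ofReal (Real.log (‖w - conj (ζ : ℂ)‖ / ‖w - ζ‖)) ≤ ENNReal.ofReal (Y ^ 2 * S2))
    (hS2' : 0 ≤ S2) :
    ∃ v ∈ ball ((z : ℂ) + Y * I) (δ * Y), g1 v ≠ 0 ∧
      -Real.log ‖g1 v‖ ≤ S1 + S2 / (Real.pi * δ ^ 2) := by
  have := hZc.to_subtype
  set B := ball ((z : ℂ) + Y * I) (δ * Y) with hB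
  have hvol : volume B = ENNReal.ofReal (Real.pi * δ ^ 2 * Y ^ 2) := vol_ball z Y δ hY hδ
  have hV : 0 < Real.pi * δ ^ 2 * Y ^ 2 := by positivity
  have hBim : ∀ v ∈ B, 0 < v.im := fun v hv =>
    lt_of_le_of_lt (mul_nonneg (by linarith) hY.le) (im_ball hv).2.2.2
  have hμ : volume.restrict B ≠ 0 := by
    rw [Ne, Measure.restrict_eq_zero, hvol, ENNReal.ofReal_eq_zero]
    linarith
  have hcont : ContinuousOn g1 B := hGG.2.1.continuousOn.mono fun v hv => by
    have := hBim v hv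
    have := hGG.1
    change -h0 < v.im
    linarith
  have hf : AEMeasurable (fun v => ENNReal.ofReal (-Real.log ‖g1 v‖)) (volume.restrict B) := by
    have h1 : AEMeasurable g1 (volume.restrict B) := hcont.aemeasurable measurableSet_ball
    exact (Real.measurable_log.comp_aemeasurable h1.norm).neg.ennreal_ofReal
  have hN : volume.restrict B (Bᶜ ∪ ZZ g1) = 0 := by
    refine measure_union_null ?_ ?_
    · rw [Measure.restrict_apply (hB ▸ measurableSet_ball.compl), compl_inter_self,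
        measure_empty]
    · exact le_antisymm ((Measure.restrict_apply_le _ _).trans
        (hZc.measure_zero volume).le) bot_le
  have hfinm : IsFiniteMeasure (volume.restrict B) :=
    ⟨by rw [Measure.restrict_apply_univ, hvol]; exact ENNReal.ofReal_lt_top⟩
  obtain ⟨v, hvN, hv⟩ := exists_notMem_null_le_laverage hμ hf hN
  have hvB : v ∈ B := by
    by_contra h
    exact hvN (Or.inl h)
  have hgv : g1 v ≠ 0 := fun h => hvN (Or.inr ⟨hBim v hvB, h⟩)
  refine ⟨v, hvB, hgv, ?_⟩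
  have hmeas : ∀ ζ : ZZ g1, Measurable fun w : ℂ => (m ζ : ℝ≥0∞) *
      ENNReal.ofReal (Real.log (‖w - conj (ζ : ℂ)‖ / ‖w - ζ‖)) := by
    intro ζ
    refine Measurable.const_mul ?_ _
    refine ENNReal.measurable_ofReal.comp (Real.measurable_log.comp ?_)
    exact ((measurable_id.sub_const _).norm).div ((measurable_id.sub_const _).norm)
  have hint : ∫⁻ v in B, ENNReal.ofReal (-Real.log ‖g1 v‖) ≤
      ENNReal.ofReal S1 * volume B + ENNReal.ofReal (Y ^ 2 * S2) := by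
    calc ∫⁻ v in B, ENNReal.ofReal (-Real.log ‖g1 v‖)
        ≤ ∫⁻ v in B, (ENNReal.ofReal S1 + ∑' ζ : ZZ g1, (m ζ : ℝ≥0∞) *
            ENNReal.ofReal (Real.log (‖v - conj (ζ : ℂ)‖ / ‖v - ζ‖))) := by
          refine lintegral_mono_ae ?_
          have h1 : ∀ᵐ v ∂(volume.restrict B), v ∉ Bᶜ ∪ ZZ g1 := by
            rw [ae_iff]
            simpa only [not_not, setOf_mem_eq] using hN
          filter_upwards [h1] with v hv
          have hvB : v ∈ B := by
            by_contra h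
            exact hv (Or.inl h)
          have hgv : g1 v ≠ 0 := fun h => hv (Or.inr ⟨hBim v hvB, h⟩)
          exact (hRp v (hBim v hvB) hgv).trans
            (add_le_add_left (ENNReal.ofReal_le_ofReal (hS1 v hvB)) _)
      _ = ENNReal.ofReal S1 * volume B + ∑' ζ : ZZ g1, (m ζ : ℝ≥0∞) * ∫⁻ w in B,
            ENNReal.ofReal (Real.log (‖w - conj (ζ : ℂ)‖ / ‖w - ζ‖)) := by
          rw [lintegral_add_left measurable_const, setLIntegral_const,
            lintegral_tsum fun ζ => (hmeas ζ).aemeasurable]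
          congr 1
          refine tsum_congr fun ζ => ?_
          rw [lintegral_const_mul]
          refine ENNReal.measurable_ofReal.comp (Real.measurable_log.comp ?_)
          exact ((measurable_id.sub_const _).norm).div ((measurable_id.sub_const _).norm)
      _ ≤ ENNReal.ofReal S1 * volume B + ENNReal.ofReal (Y ^ 2 * S2) :=
          add_le_add le_rfl hS2
  have hS3 : 0 ≤ S1 + S2 / (Real.pi * δ ^ 2) := by positivity
  rw [← ENNReal.ofReal_le_ofReal_iff hS3]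
  refine hv.trans ?_
  rw [laverage_eq, Measure.restrict_apply_univ]
  refine ENNReal.div_le_of_le_mul (hint.trans ?_)
  rw [hvol, ← ENNReal.ofReal_mul hS1', ← ENNReal.ofReal_mul hS3,
    ← ENNReal.ofReal_add (by positivity) (by positivity)]
  refine ENNReal.ofReal_le_ofReal (le_of_eq ?_)
  have hpi := Real.pi_ne_zero
  have hδ0 := hδ.ne'
  field_simp

end Vz

open Vz in
theorem stVz (hBl : StBl) (hRp : StRp) (hZs : StZs) : StVz := by
  intro δ g hδ hδ1 hg hgb hne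
  obtain ⟨h0, hh0, hh1, hh2⟩ := exists_height hg hne (a := (1 - δ) / 4) (by linarith)
  set g1 : ℂ → ℂ := fun w => g (w + h0 * I) with hg1
  have hGG : GG h0 g1 := by
    refine ⟨hh0, ?_, ?_, ?_⟩
    · refine hg.comp (by fun_prop) fun w hw => ?_
      change -h0 < w.im at hw
      change 0 < (w + h0 * I).im
      simp only [add_im, mul_im, ofReal_re, I_im, mul_one, ofReal_im, I_re, mul_zero, add_zero]
      linarith
    · intro w hw
      refine hgb _ ?_
      simp only [add_im, mul_im, ofReal_re, I_im, mul_one, ofReal_im, I_re, mul_zero, add_zero]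
      linarith
    · intro x
      exact hh2 x
  obtain ⟨hZc, hZs1⟩ := hBl g1 h0 hGG
  obtain ⟨hadm1, C1, hC1, hR⟩ := hRp g1 h0 hGG
  set ρ1 : ℝ → ℝ := fun x : ℝ => -Real.log ‖g1 x‖ with hρ1
  have hρ10 : ∀ t, 0 ≤ ρ1 t := by
    intro t
    have h1 : ‖g1 t‖ ≤ 1 := hGG.2.2.1 _ (by simpa using hh0)
    have := Real.log_nonpos (norm_nonneg _) h1
    change 0 ≤ -Real.log ‖g1 t‖
    linarith
  obtain ⟨ρ2, c2, hadm2, hρ20, hc2, hZs2⟩ := hZs δ (ZZ g1)
    (fun ζ => analyticOrderNatAt g1 (ζ : ℂ)) hδ hδ1 hZc (fun ζ hζ => hζ.1) hZs1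
  set K : ℝ := 24 / (1 - δ) ^ 2 with hK
  have hd : 0 < 1 - δ := by linarith
  have hK0 : 0 ≤ K := by positivity
  set K2 : ℝ := K / (Real.pi * δ ^ 2) with hK2
  have hK20 : 0 ≤ K2 := by positivity
  refine ⟨fun t => K * ρ1 t + K2 * ρ2 t, K * C1 + K2 * c2, adm_lin hadm1 hadm2 K K2,
    fun t => add_nonneg (mul_nonneg hK0 (hρ10 t)) (mul_nonneg hK20 (hρ20 t)),
    add_nonneg (mul_nonneg hK0 hC1) (mul_nonneg hK20 hc2), fun z y hy => ?_⟩
  have hyp : 0 < y := by linarith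
  rw [Vp_lin hadm1 hadm2 K K2 C1 c2 z y hyp]
  set Y : ℝ := y - h0 with hY
  have hY1 : 3 / 4 * y ≤ Y := by
    have : h0 < 1 / 4 := by linarith
    rw [hY]; linarith
  have hYy : Y ≤ y := by rw [hY]; linarith
  have hYp : 0 < Y := by linarith
  obtain ⟨v, hvB, hgv, hv⟩ := avg hGG hZc (ρ1 := ρ1) (C1 := C1)
    (fun ζ => analyticOrderNatAt g1 (ζ : ℂ)) hR (δ := δ) (z := z) (Y := Y)
    (S1 := K * Vp ρ1 C1 z y) (S2 := K * Vp ρ2 c2 z y) hYp hδ hδ1
    (fun v hv => by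
      obtain ⟨b1, b2, b3, _⟩ := im_ball hv
      exact Vp_cmp hadm1 hρ10 hC1 hδ hδ1 hyp hY1 hYy b1 b2 b3)
    (mul_nonneg hK0 (Vp_nonneg hρ10 hC1 hyp))
    ((hZs2 z Y hYp).trans (ENNReal.ofReal_le_ofReal (mul_le_mul_of_nonneg_left
      (Vp_cmp hadm2 hρ20 hc2 hδ hδ1 hyp hY1 hYy (by
        rw [sub_self, abs_zero]; positivity) (by nlinarith) (by nlinarith)) (by positivity))))
    (mul_nonneg hK0 (Vp_nonneg hρ20 hc2 hyp))
  refine ⟨v + h0 * I, ?_, hgv, ?_⟩
  · rw [mem_ball, dist_eq_norm] at hvB ⊢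
    have h1 : v + h0 * I - ((z : ℂ) + y * I) = v - ((z : ℂ) + Y * I) := by
      rw [hY]; push_cast; ring
    rw [h1]
    exact hvB.trans_le (mul_le_mul_of_nonneg_left hYy hδ.le)
  · have h2 : K * Vp ρ2 c2 z y / (Real.pi * δ ^ 2) = K2 * Vp ρ2 c2 z y := by
      rw [hK2]; ring
    rw [h2] at hv
    exact hv

end Pool.Agent.Work.MP_055a27_an.Fn

end

section

/-!
# Gain of aperture: closure properties of the analytic functions
-/

set_option autoImplicit false

open MeasureTheory Set Filter Topology Complex Metric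
open scoped ENNReal NNReal

namespace Pool.Agent.Work.MP_055a27_an.Sg

open Crit (lg NTc Nice NI)
open Cr3 (Wt Sh)
open Fn (StarC ShK Ex Vp Vs Uav lgm NV)

namespace AnCX

theorem isOpen_hp (δ : ℝ) : IsOpen {w : ℂ | -δ < w.im} :=
  isOpen_lt continuous_const Complex.continuous_im

theorem ball_sub {δ : ℝ} {w w' : ℂ} (hw : -(δ / 2) < w.im) (h : dist w' w ≤ δ / 2) :
    -δ < w'.im := by
  have h1 : |(w' - w).im| ≤ ‖w' - w‖ := Complex.abs_im_le_norm _
  rw [dist_eq_norm] at h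
  have h2 := (abs_le.1 (h1.trans h)).1
  rw [Complex.sub_im] at h2
  linarith

theorem an_deriv {F : ℂ → ℂ} (hF : An F) : An (deriv F) := by
  obtain ⟨δ, M, hδ, h⟩ := hF
  refine ⟨δ / 2, M / (δ / 2), by positivity, ?_⟩
  intro w hw
  have hd : DifferentiableOn ℂ F {w : ℂ | -δ < w.im} := fun z hz =>
    (h z hz).1.differentiableWithinAt
  constructor
  · have hw' : w ∈ {w : ℂ | -δ < w.im} := ball_sub hw (by rw [dist_self]; positivity)
    exact (hd.deriv (isOpen_hp δ)).differentiableAt ((isOpen_hp δ).mem_nhds hw')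
  · refine Complex.norm_deriv_le_of_forall_mem_sphere_norm_le (by positivity) ?_ ?_
    · apply DifferentiableOn.diffContOnCl
      rw [closure_ball _ (by positivity : δ / 2 ≠ 0)]
      exact hd.mono fun z hz => ball_sub hw (mem_closedBall.1 hz)
    · intro z hz
      exact (h z (ball_sub hw (mem_sphere.1 hz).le)).2

end AnCX

theorem stAnC : StAnC := by
  intro F hF
  have hF' := hF
  obtain ⟨δ, M, hδ, h⟩ := hF'
  refine ⟨⟨fun w hw => (h w (by linarith)).1, M, fun w hw => (h w (by linarith)).2⟩,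
    AnCX.an_deriv hF, ?_, ?_, ?_, ?_⟩
  · intro v hv
    refine ⟨δ, M, hδ, ?_⟩
    intro w hw
    have h1 : -δ < (w + v).im := by
      rw [Complex.add_im]
      linarith
    obtain ⟨h2, h3⟩ := h (w + v) h1
    refine ⟨?_, h3⟩
    exact h2.comp w (differentiableAt_id.add_const v)
  · intro c
    refine ⟨δ, ‖c‖ * M, hδ, ?_⟩
    intro w hw
    obtain ⟨h2, h3⟩ := h w hw
    refine ⟨h2.const_mul c, ?_⟩
    rw [norm_mul]
    exact mul_le_mul_of_nonneg_left h3 (norm_nonneg c)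
  · rintro G ⟨δ', M', hδ', h'⟩
    refine ⟨min δ δ', M + M', lt_min hδ hδ', ?_⟩
    intro w hw
    have h1 : -δ < w.im := by
      have := min_le_left δ δ'
      linarith
    have h1' : -δ' < w.im := by
      have := min_le_right δ δ'
      linarith
    obtain ⟨h2, h3⟩ := h w h1
    obtain ⟨h4, h5⟩ := h' w h1'
    exact ⟨h2.add h4, (norm_add_le _ _).trans (add_le_add h3 h5)⟩
  · intro b x v hv hb
    unfold NTc
    refine iSup_le fun z => iSup_le fun y => iSup_le fun hzy => ?_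
    have hy : 0 < y + v.im := by linarith [hzy.1]
    have hx : |x - (z + v.re)| ≤ b * (y + v.im) := by
      have h1 : x - (z + v.re) = (x - z) - v.re := by ring
      rw [h1]
      calc |(x - z) - v.re| ≤ |x - z| + |v.re| := abs_sub _ _
        _ ≤ b * y + b * v.im := add_le_add hzy.2 hb
        _ = b * (y + v.im) := by ring
    have he : (z : ℂ) + y * I + v = ((z + v.re : ℝ) : ℂ) + ((y + v.im : ℝ) : ℂ) * I := by
      apply Complex.ext <;> simp
    show ENNReal.ofReal ‖F ((z : ℂ) + y * I + v)‖ ≤ _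
    rw [he]
    exact le_iSup_of_le (z + v.re) (le_iSup_of_le (y + v.im) (le_iSup_of_le ⟨hy, hx⟩ le_rfl))

end Pool.Agent.Work.MP_055a27_an.Sg

end

section

/-!
# The mass of a larger shadow
-/

open MeasureTheory Set Filter Topology Complex Metric
open scoped ENNReal NNReal

namespace Pool.Agent.Work.MP_055a27_an.Sg

open Crit (lg NTc Nice NI)
open Cr3 (Wt Sh)
open Fn (StarC ShK Ex Vp Vs Uav lgm NV)

namespace GainX

/-- The mass of a shadow. -/
lemma shadow {U : ℝ → ℝ} (hU : IsWeight U) (G : ℂ → ℂ) {b p : ℝ} (hp : 0 < p) (z y l r : ℝ)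
    (hy : 0 < y) (hl : z - b * y = l) (hr : z + b * y = r) :
    wm U (Icc l r) * ENNReal.ofReal (‖G (z + y * I)‖ ^ p) ≤ NI U G b p := by
  unfold NI
  rw [lintegral_mul_weight_univ hU]
  calc wm U (Icc l r) * ENNReal.ofReal (‖G (z + y * I)‖ ^ p)
      = ∫⁻ _ in Icc l r, ENNReal.ofReal (‖G (z + y * I)‖ ^ p) ∂(wm U) := by
        rw [setLIntegral_const, mul_comm]
    _ ≤ ∫⁻ x in Icc l r, (NTc G b x) ^ p ∂(wm U) := by
        refine setLIntegral_mono' measurableSet_Icc fun x hx => ?_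
        rw [← ENNReal.ofReal_rpow_of_nonneg (norm_nonneg _) hp.le]
        refine ENNReal.rpow_le_rpow ?_ hp.le
        unfold NTc
        refine le_iSup_of_le z (le_iSup_of_le y (le_iSup_of_le ⟨hy, ?_⟩ le_rfl))
        rw [abs_le]
        constructor
        · linarith [hx.1]
        · linarith [hx.2]
    _ ≤ ∫⁻ x, (NTc G b x) ^ p ∂(wm U) := setLIntegral_le_lintegral _ _

/-- The shadow of a translate. -/
lemma trans {U : ℝ → ℝ} (hU : IsWeight U) (F : ℂ → ℂ) {b p η σ t z y l r : ℝ} (hb : 0 < b)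
    (hp : 0 < p) (hσ : σ * σ = 1) (ht : 0 < t) (hty : 2 * t ≤ y) (hη : 0 < η) (hbη : b * η ≤ 1)
    (hl : z - t * σ * (b + η) - b * (y - t * (1 - b * η)) = l)
    (hr : z - t * σ * (b + η) + b * (y - t * (1 - b * η)) = r) :
    wm U (Icc l r) * ENNReal.ofReal (‖F (z + y * I)‖ ^ p) ≤
      NI U (fun w => F (w + t * ed b σ * (1 - I * (σ * η : ℝ)))) b p := by
  have hbη' : 0 < b * η := by positivity
  have h1 : 0 < y - t * (1 - b * η) := by nlinarith
  have key := shadow hU (fun w => F (w + t * ed b σ * (1 - I * (σ * η : ℝ)))) (b := b) hp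
    (z - t * σ * (b + η)) (y - t * (1 - b * η)) l r h1 hl hr
  have e : ((z - t * σ * (b + η) : ℝ) : ℂ) + ((y - t * (1 - b * η) : ℝ) : ℂ) * I +
      t * ed b σ * (1 - I * (σ * η : ℝ)) = (z : ℂ) + y * I := by
    have hσc : (σ : ℂ) * σ = 1 := by exact_mod_cast hσ
    unfold ed
    push_cast
    linear_combination (-(t : ℂ) * b * η * I) * hσc - t * σ * η * I_sq
  rw [e] at key
  exact key

end GainX

theorem stGain (hAnC : StAnC) (hTay : StTay) : StGain := by
  intro C0 b p hb hp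
  obtain ⟨η, C, hη, hη2, hT⟩ := hTay C0 b p hb hp
  have hden : 0 < 2 * b + η := by positivity
  set τ : ℝ := b / (2 * b + η) with hτ
  have hτ0 : 0 < τ := by positivity
  have hτ1 : 2 * τ ≤ 1 := by
    rw [hτ, ← mul_div_assoc, div_le_one hden]
    linarith
  have hτ2 : τ * (2 * b + η) = b := by
    rw [hτ]
    field_simp
  refine ⟨b + τ * η * (1 + b ^ 2), 1 + 2 * C, ?_, ?_⟩
  · have : 0 < τ * η * (1 + b ^ 2) := by positivity
    linarith
  intro U hU hS F hF hfin z y hy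
  have hbη : b * η ≤ 1 := by nlinarith
  have ht : 0 < τ * y := by positivity
  have hty : 2 * (τ * y) ≤ y := by nlinarith
  set X : ℝ≥0∞ := ENNReal.ofReal (‖F (z + y * I)‖ ^ p) with hX
  have h0 := GainX.shadow hU F (b := b) hp z y (z - b * y) (z + b * y) hy rfl rfl
  have h1 := (GainX.trans hU F (z := z) (y := y) hb hp (σ := 1) (by norm_num) ht hty hη hbη
    rfl rfl).trans (hT U hU hS 1 (τ * y) F (by norm_num) ht hF hfin)
  have h2 := (GainX.trans hU F (z := z) (y := y) hb hp (σ := -1) (by norm_num) ht hty hη hbη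
    rfl rfl).trans (hT U hU hS (-1) (τ * y) F (by norm_num) ht hF hfin)
  have hcov : Icc (z - (b + τ * η * (1 + b ^ 2)) * y) (z + (b + τ * η * (1 + b ^ 2)) * y) ⊆
      Icc (z - τ * y * 1 * (b + η) - b * (y - τ * y * (1 - b * η)))
        (z - τ * y * 1 * (b + η) + b * (y - τ * y * (1 - b * η))) ∪
      (Icc (z - b * y) (z + b * y) ∪
      Icc (z - τ * y * (-1) * (b + η) - b * (y - τ * y * (1 - b * η)))
        (z - τ * y * (-1) * (b + η) + b * (y - τ * y * (1 - b * η)))) := by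
    intro x hx
    have e1 : τ * y * (2 * b + η) = b * y := by
      calc τ * y * (2 * b + η) = (τ * (2 * b + η)) * y := by ring
        _ = b * y := by rw [hτ2]
    have e2 : 0 ≤ τ * y * η * b ^ 2 := by positivity
    have e3 : 0 < b * y := by positivity
    rcases le_or_gt x (z - b * y) with h3 | h3
    · left
      constructor
      · have := hx.1
        nlinarith
      · nlinarith
    · rcases le_or_gt x (z + b * y) with h4 | h4
      · right; left
        exact ⟨h3.le, h4⟩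
      · right; right
        constructor
        · nlinarith
        · have := hx.2
          nlinarith
  calc wm U (Icc (z - (b + τ * η * (1 + b ^ 2)) * y) (z + (b + τ * η * (1 + b ^ 2)) * y)) * X
      ≤ (wm U (Icc (z - τ * y * 1 * (b + η) - b * (y - τ * y * (1 - b * η)))
          (z - τ * y * 1 * (b + η) + b * (y - τ * y * (1 - b * η)))) +
        (wm U (Icc (z - b * y) (z + b * y)) +
        wm U (Icc (z - τ * y * (-1) * (b + η) - b * (y - τ * y * (1 - b * η)))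
          (z - τ * y * (-1) * (b + η) + b * (y - τ * y * (1 - b * η)))))) * X := by
        refine mul_le_mul_left ?_ X
        refine (measure_mono hcov).trans ((measure_union_le _ _).trans ?_)
        exact add_le_add le_rfl (measure_union_le _ _)
    _ = wm U (Icc (z - τ * y * 1 * (b + η) - b * (y - τ * y * (1 - b * η)))
          (z - τ * y * 1 * (b + η) + b * (y - τ * y * (1 - b * η)))) * X +
        (wm U (Icc (z - b * y) (z + b * y)) * X +
        wm U (Icc (z - τ * y * (-1) * (b + η) - b * (y - τ * y * (1 - b * η)))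
          (z - τ * y * (-1) * (b + η) + b * (y - τ * y * (1 - b * η)))) * X) := by
        rw [add_mul, add_mul]
    _ ≤ C * NI U F b p + (NI U F b p + C * NI U F b p) :=
        add_le_add h1 (add_le_add h0 h2)
    _ = ((1 + 2 * C : ℝ≥0) : ℝ≥0∞) * NI U F b p := by
        push_cast
        ring

end Pool.Agent.Work.MP_055a27_an.Sg

end

section

/-!
# Necessity of the shadow condition for `b ≤ lam`: assembly
-/

set_option autoImplicit false

open MeasureTheory Set Filter Topology Complex Metric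
open scoped ENNReal NNReal

namespace Pool.Agent.Work.MP_055a27_an.Sg

open Crit (lg)
open Cr3 (Wt Sh)
open Fn (StarC ShK Ex Vp Vs Uav lgm NV)

namespace NecBX

lemma ntMax_mono {b lam : ℝ} (h : b ≤ lam) (f : ℝ → ℝ) (x : ℝ) :
    ntMax b f x ≤ ntMax lam f x := by
  unfold ntMax
  refine iSup_le fun z => iSup_le fun y => iSup_le fun hzy => ?_
  exact le_iSup_of_le z (le_iSup_of_le y (le_iSup_of_le
    ⟨hzy.1, hzy.2.trans (mul_le_mul_of_nonneg_right h hzy.1.le)⟩ le_rfl))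

lemma starC_mono {C0 : ℝ≥0} {lam b p : ℝ} {U : ℝ → ℝ} (hp : 0 < p) (h : b ≤ lam)
    (hS : StarC C0 lam b p U) : StarC C0 lam lam p U := by
  intro f hf
  refine (hS f hf).trans ?_
  gcongr with x
  exact ntMax_mono h f x

end NecBX

open NecBX in
theorem stNecB (hUnifB : StUnifB) (hTr : Fn.StTr) (hAp : Fn.StAp) (hLimN : Fn.StLimN)
    (hLimT : Fn.StLimT) (hLimTh : Fn.StLimTh) : StNecB := by
  intro lam b p U hb hbl hp hU hNV hS
  have hlam : 0 < lam := lt_of_lt_of_le hb hbl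
  obtain ⟨C0, hC0⟩ := hS
  have hC : StarC C0 lam lam p U := starC_mono hp hbl hC0
  obtain ⟨μ', K, h1, hK0, hK⟩ := hUnifB C0 lam p hlam hp
  have hμ'0 : 0 < μ' := hlam.trans h1
  have key : ∀ t θ : ℝ, 0 < t → t ≤ 1 → 0 < θ → θ ≤ 1 →
      ShK μ' K 0 (Uav U t) (lgm (Uav U t) θ) := by
    intro t θ ht ht1 hθ hθ1
    obtain ⟨hW, hSt⟩ := hTr C0 lam lam p t U hlam hlam hp ht hU hC
    have hc : ∀ c : ℝ, 0 < c → ShK μ' K c (Uav U t) (lgm (Uav U t) θ) := by
      intro c hc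
      obtain ⟨ρ, hρa, hρ0, hρ⟩ := hAp U μ' c hU hNV hμ'0 hc
      obtain ⟨hEx, hn⟩ := hρ t θ ht ht1 hθ hθ1
      refine hLimN (Uav U t) _ ρ μ' K c hEx.1 hρa hK0 fun n => ?_
      obtain ⟨hExn, hκ⟩ := hn n
      refine hK (Uav U t) _ c hW hExn hc.le ?_ hSt hκ
      refine Eventually.of_forall fun x => ?_
      have hmax : Uav U t x ≤ Real.exp (lgm (Uav U t) θ x) := by
        unfold lgm
        rw [Real.exp_log (lt_of_lt_of_le hθ (le_max_right _ _))]
        exact le_max_left _ _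
      refine hmax.trans (Real.exp_le_exp.2 ?_)
      have : 0 ≤ (if (n : ℝ) ≤ |x| then ρ x else 0) := by
        split_ifs
        · exact hρ0 x
        · exact le_rfl
      linarith
    intro z y hy
    have hlim : Tendsto (fun n : ℕ => K * (y * Real.exp (Vp (lgm (Uav U t) θ) (1 / ((n : ℝ) + 1)) z y)))
        atTop (𝓝 (K * (y * Real.exp (Vp (lgm (Uav U t) θ) 0 z y)))) := by
      refine Tendsto.const_mul _ (Tendsto.const_mul _ ?_)
      refine (Real.continuous_exp.tendsto _).comp ?_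
      unfold Vp
      refine Tendsto.const_add _ ?_
      exact (tendsto_one_div_add_atTop_nhds_zero_nat).mul_const y
    refine ge_of_tendsto' hlim fun n => ?_
    exact hc (1 / ((n : ℝ) + 1)) (by positivity) z y hy
  have hθ : ∀ θ : ℝ, 0 < θ → θ ≤ 1 → ShK μ' K 0 U (lgm U θ) := by
    intro θ hθ hθ1
    exact hLimT U μ' K θ hU hNV hμ'0 hK0 hθ hθ1 fun t ht ht1 => key t θ ht ht1 hθ hθ1
  rcases hLimTh U μ' K hU hNV hμ'0 hK0 hθ with h | ⟨hWt, hSh⟩
  · exact Or.inl h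
  · exact Or.inr ⟨hWt, μ', h1, hSh⟩

end Pool.Agent.Work.MP_055a27_an.Sg

end

section

/-!
# Properties of the components
-/

open MeasureTheory Set Filter Topology Complex Metric
open scoped ENNReal NNReal

namespace Pool.Agent.Work.MP_055a27_an.Sg

open Crit (lg NTc Nice NI)

namespace PFbX

lemma norm_osc (r : ℝ) : ‖Complex.exp (-(I * (r : ℂ)))‖ = 1 := by
  rw [Complex.norm_exp]
  simp

lemma im_pt (w e : ℂ) (r : ℝ) : (w + (r : ℂ) * e).im = w.im + r * e.im := by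
  simp

lemma re_pt (w e : ℂ) (r : ℝ) : (w + (r : ℂ) * e).re = w.re + r * e.re := by
  simp

lemma im_lt {w e : ℂ} {t h δ : ℝ} (hw : -δ < w.im) (he : 0 < e.im) (ht : 0 < t) (hh : 0 ≤ h) :
    -δ < (w + ((t * h : ℝ) : ℂ) * e).im := by
  rw [im_pt]
  have : 0 ≤ t * h * e.im := by positivity
  linarith

/-- The translate as a function of the time is differentiable. -/
lemma hasDerivAt_tr {F : ℂ → ℂ} {w e : ℂ} {t h : ℝ}
    (hF : DifferentiableAt ℂ F (w + ((t * h : ℝ) : ℂ) * e)) :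
    HasDerivAt (fun h : ℝ => F (w + ((t * h : ℝ) : ℂ) * e))
      (t * e * deriv F (w + ((t * h : ℝ) : ℂ) * e)) h := by
  have h1 : HasDerivAt (fun h : ℝ => ((t * h : ℝ) : ℂ)) ((t * 1 : ℝ) : ℂ) h :=
    ((hasDerivAt_id h).const_mul t).ofReal_comp
  have h2 : HasDerivAt (fun h : ℝ => w + ((t * h : ℝ) : ℂ) * e) (((t * 1 : ℝ) : ℂ) * e) h :=
    (h1.mul_const e).const_add w
  have h3 := HasDerivAt.comp h hF.hasDerivAt h2
  refine h3.congr_deriv ?_
  rw [mul_one]
  ring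

lemma hasDerivAt_osc (θ h : ℝ) : HasDerivAt (fun h : ℝ => Complex.exp (-(I * (θ * h : ℝ))))
    (-(I * θ) * Complex.exp (-(I * (θ * h : ℝ)))) h := by
  have h1 : HasDerivAt (fun h : ℝ => ((θ * h : ℝ) : ℂ)) ((θ * 1 : ℝ) : ℂ) h :=
    ((hasDerivAt_id h).const_mul θ).ofReal_comp
  have h2 : HasDerivAt (fun h : ℝ => -(I * ((θ * h : ℝ) : ℂ))) (-(I * ((θ * 1 : ℝ) : ℂ))) h :=
    (h1.const_mul I).neg
  refine h2.cexp.congr_deriv ?_
  rw [mul_one]
  push_cast
  ring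

lemma cont_tr {F : ℂ → ℂ} {w e : ℂ} {t δ : ℝ} (hF : ∀ w : ℂ, -δ < w.im → DifferentiableAt ℂ F w)
    (hw : -δ < w.im) (he : 0 < e.im) (ht : 0 < t) :
    ContinuousOn (fun h : ℝ => F (w + ((t * h : ℝ) : ℂ) * e)) (Icc 0 1) := by
  intro h hh
  exact (hasDerivAt_tr (hF _ (im_lt hw he ht hh.1))).continuousAt.continuousWithinAt

lemma cont_osc (θ : ℝ) : Continuous (fun h : ℝ => Complex.exp (-(I * (θ * h : ℝ)))) := by
  fun_prop

lemma cont_int {χ : ℝ → ℝ} (hχ : Continuous χ) (θ : ℝ) {F : ℂ → ℂ} {w e : ℂ} {t δ : ℝ}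
    (hF : ∀ w : ℂ, -δ < w.im → DifferentiableAt ℂ F w)
    (hw : -δ < w.im) (he : 0 < e.im) (ht : 0 < t) :
    ContinuousOn (fun h : ℝ => (χ h : ℂ) * Complex.exp (-(I * (θ * h : ℝ))) *
      F (w + ((t * h : ℝ) : ℂ) * e)) (Icc 0 1) := by
  apply ContinuousOn.mul _ (cont_tr hF hw he ht)
  exact ((Complex.continuous_ofReal.comp hχ).mul (cont_osc θ)).continuousOn

lemma integrable_int {χ : ℝ → ℝ} (hχ : Continuous χ) (θ : ℝ) {F : ℂ → ℂ} {w e : ℂ} {t δ : ℝ}
    (hF : ∀ w : ℂ, -δ < w.im → DifferentiableAt ℂ F w)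
    (hw : -δ < w.im) (he : 0 < e.im) (ht : 0 < t) :
    IntervalIntegrable (fun h : ℝ => (χ h : ℂ) * Complex.exp (-(I * (θ * h : ℝ))) *
      F (w + ((t * h : ℝ) : ℂ) * e)) volume 0 1 := by
  apply ContinuousOn.intervalIntegrable
  rw [uIcc_of_le zero_le_one]
  exact cont_int hχ θ hF hw he ht

/-- The derivative of a component. -/
lemma hasDerivAt_PF {χ : ℝ → ℝ} (hχ : Continuous χ) (θ : ℝ) {F : ℂ → ℂ} {w e : ℂ}
    {t δ M : ℝ} (hF : ∀ w : ℂ, -δ < w.im → DifferentiableAt ℂ F w)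
    (hF' : ∀ w : ℂ, -δ < w.im → DifferentiableAt ℂ (deriv F) w ∧ ‖deriv F w‖ ≤ M)
    (hw : -δ < w.im) (he : 0 < e.im) (ht : 0 < t) :
    HasDerivAt (PF χ θ t e F) (PF χ θ t e (deriv F) w) w := by
  obtain ⟨K, hK⟩ : ∃ K : ℝ, ∀ h ∈ Icc (0 : ℝ) 1, ‖χ h‖ ≤ K :=
    isCompact_Icc.exists_bound_of_continuousOn hχ.continuousOn
  have hopen : IsOpen {w : ℂ | -δ < w.im} := isOpen_lt continuous_const Complex.continuous_im
  have hM : 0 ≤ M := (norm_nonneg _).trans (hF' w hw).2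
  have key := intervalIntegral.hasDerivAt_integral_of_dominated_loc_of_deriv_le
    (μ := volume) (a := 0) (b := 1) (x₀ := w) (s := {w : ℂ | -δ < w.im})
    (F := fun (w : ℂ) (h : ℝ) => (χ h : ℂ) * Complex.exp (-(I * (θ * h : ℝ))) *
      F (w + ((t * h : ℝ) : ℂ) * e))
    (F' := fun (w : ℂ) (h : ℝ) => (χ h : ℂ) * Complex.exp (-(I * (θ * h : ℝ))) *
      deriv F (w + ((t * h : ℝ) : ℂ) * e))
    (bound := fun _ => K * M) (hopen.mem_nhds hw) ?_ ?_ ?_ ?_ ?_ ?_
  · exact key.2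
  · filter_upwards [hopen.mem_nhds hw] with w' hw'
    have h1 := cont_int hχ θ hF hw' he ht
    rw [uIoc_of_le zero_le_one]
    exact (h1.mono Ioc_subset_Icc_self).aestronglyMeasurable measurableSet_Ioc
  · exact integrable_int hχ θ hF hw he ht
  · have h1 := cont_int hχ θ (F := deriv F) (fun w hw => (hF' w hw).1) hw he ht
    rw [uIoc_of_le zero_le_one]
    exact (h1.mono Ioc_subset_Icc_self).aestronglyMeasurable measurableSet_Ioc
  · refine Eventually.of_forall fun h hh w' hw' => ?_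
    rw [uIoc_of_le zero_le_one] at hh
    rw [norm_mul, norm_mul, norm_osc, mul_one, Complex.norm_real]
    have h1 := hK h (Ioc_subset_Icc_self hh)
    have h2 := (hF' _ (im_lt hw' he ht hh.1.le)).2
    exact mul_le_mul h1 h2 (norm_nonneg _) ((norm_nonneg _).trans h1)
  · exact intervalIntegrable_const
  · refine Eventually.of_forall fun h hh w' hw' => ?_
    rw [uIoc_of_le zero_le_one] at hh
    have h1 : HasDerivAt (fun w : ℂ => w + ((t * h : ℝ) : ℂ) * e) 1 w' :=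
      (hasDerivAt_id w').add_const _
    have h2 := (hF _ (im_lt hw' he ht hh.1.le)).hasDerivAt.comp w' h1
    rw [mul_one] at h2
    exact h2.const_mul _

lemma bound_PF {χ : ℝ → ℝ} (θ : ℝ) {F : ℂ → ℂ} {w e : ℂ} {t K M : ℝ}
    (hχ : ∀ h ∈ Icc (0 : ℝ) 1, |χ h| ≤ K)
    (hF : ∀ h ∈ Icc (0 : ℝ) 1, ‖F (w + ((t * h : ℝ) : ℂ) * e)‖ ≤ M) :
    ‖PF χ θ t e F w‖ ≤ K * M := by
  unfold PF
  have h1 := intervalIntegral.norm_integral_le_of_norm_le_const (a := (0 : ℝ)) (b := 1)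
    (C := K * M) (f := fun h : ℝ => (χ h : ℂ) * Complex.exp (-(I * (θ * h : ℝ))) *
      F (w + (t * h : ℝ) * e)) ?_
  · simpa using h1
  · intro h hh
    rw [uIoc_of_le zero_le_one] at hh
    rw [norm_mul, norm_mul, norm_osc, mul_one, Complex.norm_real]
    have h1 := hχ h (Ioc_subset_Icc_self hh)
    have h2 := hF h (Ioc_subset_Icc_self hh)
    exact mul_le_mul h1 h2 (norm_nonneg _) ((abs_nonneg _).trans h1)

end PFbX

open PFbX in
/-- 5 PFb: properties of the components. -/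
theorem stPFb (hAnC : StAnC) : StPFb := by
  intro F e t θ χ hF he ht hχ
  obtain ⟨δ, M, hδ, hFM⟩ := hF
  obtain ⟨-, ⟨δ1, M1, hδ1, hFM1⟩, -⟩ := hAnC F ⟨δ, M, hδ, hFM⟩
  set δ' : ℝ := min δ δ1 with hδ'
  have hδ'0 : 0 < δ' := lt_min hδ hδ1
  have hχc : Continuous χ := hχ.continuous
  have hFd : ∀ w : ℂ, -δ' < w.im → DifferentiableAt ℂ F w := fun w hw =>
    (hFM w (by have := min_le_left δ δ1; linarith)).1
  have hFb : ∀ w : ℂ, -δ' < w.im → ‖F w‖ ≤ M := fun w hw =>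
    (hFM w (by have := min_le_left δ δ1; linarith)).2
  have hFd1 : ∀ w : ℂ, -δ' < w.im → DifferentiableAt ℂ (deriv F) w ∧ ‖deriv F w‖ ≤ M1 :=
    fun w hw => hFM1 w (by have := min_le_right δ δ1; linarith)
  refine ⟨?_, ?_, ?_⟩
  · -- analytic and bounded
    obtain ⟨K, hK⟩ : ∃ K : ℝ, ∀ h ∈ Icc (0 : ℝ) 1, ‖χ h‖ ≤ K :=
      isCompact_Icc.exists_bound_of_continuousOn hχc.continuousOn
    refine ⟨δ', K * M, hδ'0, fun w hw => ⟨?_, ?_⟩⟩
    · exact (hasDerivAt_PF hχc θ hFd hFd1 hw he ht).differentiableAt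
    · exact bound_PF θ (fun h hh => hK h hh) (fun h hh => hFb _ (im_lt hw he ht hh.1))
  · -- the identity
    intro h0 h1 w hw
    have hw' : -δ' < w.im := by linarith
    rw [(hasDerivAt_PF hχc θ hFd hFd1 hw' he ht).deriv]
    have hχ' : Continuous (deriv χ) := hχ.continuous_deriv le_rfl
    have i1 := integrable_int hχc θ (F := deriv F) (fun w hw => (hFd1 w hw).1) hw' he ht
    have i2 := integrable_int hχc θ hFd hw' he ht
    have i3 := integrable_int hχ' θ hFd hw' he ht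
    have hder : ∀ h ∈ uIcc (0 : ℝ) 1, HasDerivAt
        (fun h : ℝ => (χ h : ℂ) * Complex.exp (-(I * (θ * h : ℝ))) *
          F (w + ((t * h : ℝ) : ℂ) * e))
        (t * e * ((χ h : ℂ) * Complex.exp (-(I * (θ * h : ℝ))) *
          deriv F (w + ((t * h : ℝ) : ℂ) * e)) +
          (-(I * θ)) * ((χ h : ℂ) * Complex.exp (-(I * (θ * h : ℝ))) *
          F (w + ((t * h : ℝ) : ℂ) * e)) +
          ((deriv χ h : ℝ) : ℂ) * Complex.exp (-(I * (θ * h : ℝ))) *
          F (w + ((t * h : ℝ) : ℂ) * e)) h := by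
      intro h hh
      rw [uIcc_of_le zero_le_one] at hh
      have a1 : HasDerivAt (fun h : ℝ => (χ h : ℂ)) ((deriv χ h : ℝ) : ℂ) h :=
        ((hχ.differentiable one_ne_zero).differentiableAt.hasDerivAt).ofReal_comp
      have a2 := (a1.mul (hasDerivAt_osc θ h)).mul
        (hasDerivAt_tr (F := F) (w := w) (e := e) (t := t) (h := h)
          (hFd _ (im_lt hw' he ht hh.1)))
      refine a2.congr_deriv ?_
      rw [Pi.mul_apply]
      push_cast
      ring
    have hint := intervalIntegral.integral_eq_sub_of_hasDerivAt hder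
      (((i1.const_mul (t * e)).add (i2.const_mul (-(I * θ)))).add i3)
    rw [intervalIntegral.integral_add ((i1.const_mul (t * e)).add (i2.const_mul (-(I * θ)))) i3,
      intervalIntegral.integral_add (i1.const_mul (t * e)) (i2.const_mul (-(I * θ))),
      intervalIntegral.integral_const_mul, intervalIntegral.integral_const_mul, h0, h1] at hint
    simp only [Complex.ofReal_zero, zero_mul, sub_zero] at hint
    unfold PF
    linear_combination hint
  · -- the maximal function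
    intro b x K hre hK
    have hK0 : 0 ≤ K := (abs_nonneg _).trans (hK 0 ⟨le_rfl, zero_le_one⟩)
    have hpt : ∀ z y : ℝ, 0 < y → |x - z| ≤ b * y → ∀ h ∈ Icc (0 : ℝ) 1,
        ENNReal.ofReal ‖F ((z + y * I) + ((t * h : ℝ) : ℂ) * e)‖ ≤ NTc F b x := by
      intro z y hy hz h hh
      have hth : 0 ≤ t * h := mul_nonneg ht.le hh.1
      have e1 : ((z : ℂ) + y * I) + ((t * h : ℝ) : ℂ) * e =
          ((z + t * h * e.re : ℝ) : ℂ) + ((y + t * h * e.im : ℝ) : ℂ) * I := by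
        apply Complex.ext <;> simp
      rw [e1]
      unfold NTc
      apply le_iSup_of_le (z + t * h * e.re)
      apply le_iSup_of_le (y + t * h * e.im)
      refine le_iSup_of_le ⟨by positivity, ?_⟩ le_rfl
      calc |x - (z + t * h * e.re)| = |(x - z) - t * h * e.re| := by congr 1; ring
        _ ≤ |x - z| + |t * h * e.re| := abs_sub _ _
        _ = |x - z| + t * h * |e.re| := by rw [abs_mul, abs_of_nonneg hth]
        _ ≤ b * y + t * h * (b * e.im) := by gcongr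
        _ = b * (y + t * h * e.im) := by ring
    by_cases hN : NTc F b x = ∞
    · rcases hK0.eq_or_lt with hK0' | hK0'
      · -- the component vanishes
        subst hK0'
        have hz : ∀ w, PF χ θ t e F w = 0 := by
          intro w
          unfold PF
          have h2 : ∫ h in (0 : ℝ)..1, (χ h : ℂ) * Complex.exp (-(I * (θ * h : ℝ))) *
              F (w + (t * h : ℝ) * e) = ∫ h in (0 : ℝ)..1, (0 : ℂ) := by
            apply intervalIntegral.integral_congr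
            intro h hh
            rw [uIcc_of_le zero_le_one] at hh
            have h3 : χ h = 0 := abs_nonpos_iff.1 (hK h hh)
            simp [h3]
          rw [h2]
          simp
        have h3 : NTc (PF χ θ t e F) b x = 0 := by
          unfold NTc
          simp [hz]
        rw [h3]
        exact bot_le
      · rw [hN, ENNReal.mul_top]
        · exact le_top
        · rw [Ne, ENNReal.ofReal_eq_zero, not_le]
          exact hK0'
    · unfold NTc
      apply iSup_le; intro z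
      apply iSup_le; intro y
      apply iSup_le; intro hzy
      have h1 : ‖PF χ θ t e F (z + y * I)‖ ≤ K * (NTc F b x).toReal := by
        apply bound_PF θ hK
        intro h hh
        have h2 := hpt z y hzy.1 hzy.2 h hh
        rwa [ENNReal.ofReal_le_iff_le_toReal hN] at h2
      calc ENNReal.ofReal ‖PF χ θ t e F (z + y * I)‖
          ≤ ENNReal.ofReal (K * (NTc F b x).toReal) := ENNReal.ofReal_le_ofReal h1
        _ = ENNReal.ofReal K * NTc F b x := by
            rw [ENNReal.ofReal_mul hK0, ENNReal.ofReal_toReal hN]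

end Pool.Agent.Work.MP_055a27_an.Sg

end

section

/-!
# Gain of aperture: the pointwise lower bound for the area function
-/

set_option autoImplicit false

open MeasureTheory Set Filter Topology Complex Metric
open scoped ENNReal NNReal

namespace Pool.Agent.Work.MP_055a27_an.Sg

open Crit (lg NTc Nice NI)

namespace PtX

/-- the points of the cone -/
def InC (b x : ℝ) (w : ℂ) : Prop := 0 < w.im ∧ |x - w.re| ≤ b * w.im

theorem le_NTc {F : ℂ → ℂ} {b x : ℝ} {w : ℂ} (hw : InC b x w) :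
    ENNReal.ofReal ‖F w‖ ≤ NTc F b x := by
  unfold Crit.NTc
  have e : w = ((w.re : ℝ) : ℂ) + ((w.im : ℝ) : ℂ) * I := (Complex.re_add_im w).symm
  refine le_iSup_of_le w.re (le_iSup_of_le w.im (le_iSup_of_le hw ?_))
  rw [← e]

theorem norm_le {F : ℂ → ℂ} {b x : ℝ} {w : ℂ} (hfin : NTc F b x ≠ ∞) (hw : InC b x w) :
    ‖F w‖ ≤ (NTc F b x).toReal :=
  (ENNReal.ofReal_le_iff_le_toReal hfin).1 (le_NTc hw)

/-- a point where the function is large -/
theorem exists_large {F : ℂ → ℂ} {b x : ℝ} (hN : 0 < (NTc F b x).toReal) :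
    ∃ w : ℂ, InC b x w ∧ (NTc F b x).toReal / 2 ≤ ‖F w‖ := by
  have hfin : NTc F b x ≠ ∞ := by
    intro h
    rw [h] at hN
    simp at hN
  have h1 : ENNReal.ofReal ((NTc F b x).toReal / 2) < NTc F b x := by
    rw [ENNReal.ofReal_lt_iff_lt_toReal (by linarith) hfin]
    linarith
  conv_rhs at h1 => unfold Crit.NTc
  obtain ⟨z, hz⟩ := lt_iSup_iff.1 h1
  obtain ⟨y, hy⟩ := lt_iSup_iff.1 hz
  obtain ⟨hzy, hlt⟩ := lt_iSup_iff.1 hy
  refine ⟨z + y * I, ?_, ?_⟩
  · unfold InC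
    simpa using hzy
  · have h2 : ENNReal.ofReal ((NTc F b x).toReal / 2) ≤ ENNReal.ofReal ‖F (z + y * I)‖ := hlt.le
    exact (ENNReal.ofReal_le_ofReal_iff (norm_nonneg _)).1 h2

theorem ed_re (b σ : ℝ) : (ed b σ).re = σ * b := by simp [ed]

theorem ed_im (b σ : ℝ) : (ed b σ).im = 1 := by simp [ed]

theorem norm_ed_sq (b σ : ℝ) (hσ : |σ| = 1) : ‖ed b σ‖ ^ 2 = 1 + b ^ 2 := by
  rw [← Complex.normSq_eq_norm_sq, Complex.normSq_apply, ed_re, ed_im]
  have : σ ^ 2 = 1 := by rw [← sq_abs, hσ]; norm_num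
  nlinarith

/-- moving inside of the cone -/
theorem inC_add {b x σ α β : ℝ} {w : ℂ} (hb : 0 < b) (hσ : |σ| = 1) (hw : InC b x w)
    (hα : 0 ≤ α) (hβ : 0 ≤ β) : InC b x (w + α * ed b σ + β * ed b (-σ)) := by
  have e1 : (w + α * ed b σ + β * ed b (-σ)).re = w.re + α * (σ * b) - β * (σ * b) := by
    simp [ed, sub_eq_add_neg]
  have e2 : (w + α * ed b σ + β * ed b (-σ)).im = w.im + α + β := by
    simp [ed]
  unfold InC
  rw [e1, e2]
  obtain ⟨h1, h2⟩ := hw
  refine ⟨by linarith, ?_⟩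
  have hσ1 : -1 ≤ σ ∧ σ ≤ 1 := abs_le.1 hσ.le
  have hk1 : σ * (b * (α - β)) ≤ b * (α + β) ∧ -(b * (α + β)) ≤ σ * (b * (α - β)) := by
    have h3 : |σ * (b * (α - β))| ≤ b * (α + β) := by
      rw [abs_mul, hσ, one_mul, abs_mul, abs_of_pos hb]
      refine mul_le_mul_of_nonneg_left ?_ hb.le
      rw [abs_le]
      constructor <;> linarith
    exact ⟨(abs_le.1 h3).2, (abs_le.1 h3).1⟩
  rw [abs_le] at h2 ⊢
  constructor
  · nlinarith [hk1.1, hk1.2, h2.1, h2.2]
  · nlinarith [hk1.1, hk1.2, h2.1, h2.2]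

/-- translation in one direction -/
theorem hasDerivAt_line {F : ℂ → ℂ} (hF : ∀ w : ℂ, 0 ≤ w.im → DifferentiableAt ℂ F w)
    (w e : ℂ) (s : ℝ) (h : 0 ≤ (w + s * e).im) :
    HasDerivAt (fun s : ℝ => F (w + s * e)) (e * deriv F (w + s * e)) s := by
  have h1 : HasDerivAt F (deriv F (w + s * e)) (w + s * e) := (hF _ h).hasDerivAt
  have h2 : HasDerivAt (fun s : ℝ => w + (s : ℂ) * e) e s := by
    have h3 : HasDerivAt (fun s : ℝ => (s : ℂ)) 1 s := Complex.ofRealCLM.hasDerivAt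
    simpa using (h3.mul_const e).const_add w
  have h4 := h1.comp s h2
  rw [mul_comm] at h4
  exact h4

section

variable {F : ℂ → ℂ} {b σ θ c1 x N : ℝ}

/-- step (a) -/
theorem stepA (hb : 0 < b) (hσ : |σ| = 1) (hF : ∀ w : ℂ, 0 ≤ w.im → DifferentiableAt ℂ F w)
    {K : ℝ} (hG : ∀ w, InC b x w → ‖ed b σ * deriv F w - I * θ * F w‖ ≤ K) {ζ : ℂ}
    (hζ : InC b x ζ) {α : ℝ} (hα : 0 ≤ α) :
    ‖F ζ‖ - K * α ≤ ‖F (ζ + α * ed b σ)‖ := by
  have hin : ∀ s : ℝ, 0 ≤ s → InC b x (ζ + s * ed b σ) := by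
    intro s hs
    have := inC_add (β := 0) hb hσ hζ hs le_rfl
    simpa using this
  have hd : ∀ s : ℝ, 0 ≤ s → HasDerivAt
      (fun s : ℝ => Complex.exp (((-θ * s : ℝ) : ℂ) * I) * F (ζ + s * ed b σ))
      (Complex.exp (((-θ * s : ℝ) : ℂ) * I) *
        (ed b σ * deriv F (ζ + s * ed b σ) - I * θ * F (ζ + s * ed b σ))) s := by
    intro s hs
    have h1 := hasDerivAt_line hF ζ (ed b σ) s (hin s hs).1.le
    have h2 : HasDerivAt (fun s : ℝ => Complex.exp (((-θ * s : ℝ) : ℂ) * I))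
        (Complex.exp (((-θ * s : ℝ) : ℂ) * I) * (((-θ : ℝ) : ℂ) * I)) s := by
      have h3 : HasDerivAt (fun s : ℝ => ((-θ * s : ℝ) : ℂ) * I) (((-θ : ℝ) : ℂ) * I) s := by
        have h4 : HasDerivAt (fun s : ℝ => (-θ * s : ℝ)) (-θ) s := by
          simpa using (hasDerivAt_id s).const_mul (-θ)
        exact (h4.ofReal_comp).mul_const I
      exact h3.cexp
    have h5 := h2.mul h1
    refine h5.congr_deriv ?_
    push_cast
    ring
  have h6 := norm_image_sub_le_of_norm_deriv_le_segment' (a := 0) (b := α) (C := K)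
    (f := fun s : ℝ => Complex.exp (((-θ * s : ℝ) : ℂ) * I) * F (ζ + s * ed b σ))
    (f' := fun s : ℝ => Complex.exp (((-θ * s : ℝ) : ℂ) * I) *
        (ed b σ * deriv F (ζ + s * ed b σ) - I * θ * F (ζ + s * ed b σ)))
    (fun s hs => (hd s hs.1).hasDerivWithinAt)
    (fun s hs => by
      rw [norm_mul, Complex.norm_exp_ofReal_mul_I, one_mul]
      exact hG _ (hin s hs.1)) α (right_mem_Icc.2 hα)
  simp only [mul_zero, Complex.ofReal_zero, zero_mul, Complex.exp_zero, one_mul, add_zero,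
    sub_zero] at h6
  have h7 : ‖Complex.exp (((-θ * α : ℝ) : ℂ) * I) * F (ζ + α * ed b σ)‖ =
      ‖F (ζ + α * ed b σ)‖ := by
    rw [norm_mul, Complex.norm_exp_ofReal_mul_I, one_mul]
  have h8 := norm_sub_norm_le (F ζ)
    (Complex.exp (((-θ * α : ℝ) : ℂ) * I) * F (ζ + α * ed b σ))
  rw [norm_sub_rev, h7] at h8
  linarith

/-- step (b) -/
theorem stepB (hb : 0 < b) (hσ : |σ| = 1) (hF : ∀ w : ℂ, 0 ≤ w.im → DifferentiableAt ℂ F w)
    {K : ℝ} (hG : ∀ w, InC b x w → ‖ed b (-σ) * deriv F w‖ ≤ K) {ζ : ℂ}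
    (hζ : InC b x ζ) {β : ℝ} (hβ : 0 ≤ β) :
    ‖F ζ‖ - K * β ≤ ‖F (ζ + β * ed b (-σ))‖ := by
  have hin : ∀ s : ℝ, 0 ≤ s → InC b x (ζ + s * ed b (-σ)) := by
    intro s hs
    have := inC_add (α := 0) hb hσ hζ le_rfl hs
    simpa using this
  have h6 := norm_image_sub_le_of_norm_deriv_le_segment' (a := 0) (b := β) (C := K)
    (f := fun s : ℝ => F (ζ + s * ed b (-σ)))
    (f' := fun s : ℝ => ed b (-σ) * deriv F (ζ + s * ed b (-σ)))
    (fun s hs => (hasDerivAt_line hF ζ (ed b (-σ)) s (hin s hs.1).1.le).hasDerivWithinAt)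
    (fun s hs => hG _ (hin s hs.1)) β (right_mem_Icc.2 hβ)
  simp only [Complex.ofReal_zero, zero_mul, add_zero, sub_zero] at h6
  have h8 := norm_sub_norm_le (F ζ) (F (ζ + β * ed b (-σ)))
  rw [norm_sub_rev] at h8
  linarith

/-- steps (a), (b), (c): the derivative is large on a parallelogram -/
theorem deriv_large (hb : 0 < b) (hσ : |σ| = 1)
    (hF : ∀ w : ℂ, 0 ≤ w.im → DifferentiableAt ℂ F w) (hθ : θ ≠ 0) (hc1 : 0 < c1)
    (hc2 : c1 ≤ 1 / 16) (hN : 0 < N) (hN1 : ∀ w, InC b x w → ‖F w‖ ≤ N)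
    (hN2 : ∀ w, InC b x w → ‖ed b σ * deriv F w - I * θ * F w‖ ≤ c1 * |θ| * N) {ζ : ℂ}
    (hζ : InC b x ζ) (hζN : N / 2 ≤ ‖F ζ‖) {α β : ℝ} (hα : 0 ≤ α) (hβ : 0 ≤ β)
    (hα1 : c1 * |θ| * α ≤ 1 / 4) (hβ1 : |θ| * β ≤ 1 / 16) :
    θ ^ 2 * N ^ 2 / (256 * (1 + b ^ 2)) ≤
      ‖deriv F (ζ + α * ed b σ + β * ed b (-σ))‖ ^ 2 := by
  have hθ0 : 0 < |θ| := abs_pos.2 hθ
  have hed : ‖ed b σ‖ ^ 2 = 1 + b ^ 2 := norm_ed_sq b σ hσ
  have hed' : ‖ed b (-σ)‖ = ‖ed b σ‖ := by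
    have h1 : ‖ed b (-σ)‖ ^ 2 = ‖ed b σ‖ ^ 2 := by
      rw [hed, norm_ed_sq b (-σ) (by rw [abs_neg]; exact hσ)]
    exact (pow_left_inj₀ (norm_nonneg _) (norm_nonneg _) two_ne_zero).1 h1
  have hIθ : ∀ w : ℂ, ‖I * θ * F w‖ = |θ| * ‖F w‖ := by
    intro w
    rw [norm_mul, norm_mul, Complex.norm_I, one_mul, Complex.norm_real, Real.norm_eq_abs]
  -- the derivative is not too large
  have hup : ∀ w, InC b x w → ‖ed b (-σ) * deriv F w‖ ≤ 2 * |θ| * N := by
    intro w hw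
    have h1 : ‖ed b (-σ) * deriv F w‖ = ‖ed b σ * deriv F w‖ := by
      rw [norm_mul, norm_mul, hed']
    have h2 : ‖ed b σ * deriv F w‖ ≤
        ‖ed b σ * deriv F w - I * θ * F w‖ + ‖I * θ * F w‖ := by
      have := norm_add_le (ed b σ * deriv F w - I * θ * F w) (I * θ * F w)
      rwa [sub_add_cancel] at this
    have h3 := hN2 w hw
    have h4 := hN1 w hw
    have h5 : |θ| * ‖F w‖ ≤ |θ| * N := mul_le_mul_of_nonneg_left h4 hθ0.le
    have h6 : c1 * |θ| * N ≤ |θ| * N := by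
      have : c1 * (|θ| * N) ≤ 1 * (|θ| * N) :=
        mul_le_mul_of_nonneg_right (by linarith) (by positivity)
      linarith
    rw [h1]
    rw [hIθ] at h2
    linarith
  have hA := stepA hb hσ hF hN2 hζ hα
  have hζ' : InC b x (ζ + α * ed b σ) := by
    have := inC_add (β := 0) hb hσ hζ hα le_rfl
    simpa using this
  have hB := stepB hb hσ hF hup hζ' hβ
  have hw : InC b x (ζ + α * ed b σ + β * ed b (-σ)) := inC_add hb hσ hζ hα hβ
  set w : ℂ := ζ + α * ed b σ + β * ed b (-σ) with hwdef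
  have h1 : N / 8 ≤ ‖F w‖ := by
    have h2 : c1 * |θ| * N * α ≤ N / 4 := by
      have := mul_le_mul_of_nonneg_right hα1 hN.le
      linarith
    have h3 : 2 * |θ| * N * β ≤ N / 8 := by
      have := mul_le_mul_of_nonneg_right hβ1 hN.le
      linarith
    linarith
  have h4 : ‖I * θ * F w‖ ≤ ‖ed b σ * deriv F w‖ +
      ‖ed b σ * deriv F w - I * θ * F w‖ := by
    have := norm_sub_le (ed b σ * deriv F w) (ed b σ * deriv F w - I * θ * F w)
    rwa [sub_sub_cancel] at this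
  rw [hIθ] at h4
  have h5 := hN2 w hw
  have h6 : |θ| * (N / 8) ≤ |θ| * ‖F w‖ := mul_le_mul_of_nonneg_left h1 hθ0.le
  have h7 : c1 * |θ| * N ≤ 1 / 16 * (|θ| * N) := by
    have := mul_le_mul_of_nonneg_right hc2 (show 0 ≤ |θ| * N by positivity)
    linarith
  have h8 : |θ| * N / 16 ≤ ‖ed b σ * deriv F w‖ := by linarith
  have h9 : (|θ| * N / 16) ^ 2 ≤ ‖ed b σ * deriv F w‖ ^ 2 :=
    pow_le_pow_left₀ (by positivity) h8 2
  rw [norm_mul, mul_pow, hed] at h9
  have h10 : (|θ| * N / 16) ^ 2 = θ ^ 2 * N ^ 2 / 256 := by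
    rw [div_pow, mul_pow, sq_abs]
    norm_num
  rw [h10] at h9
  rw [div_le_iff₀ (by positivity)]
  have h11 : θ ^ 2 * N ^ 2 ≤ 256 * ((1 + b ^ 2) * ‖deriv F w‖ ^ 2) := by linarith
  linarith

end

/-- the square of the area function -/
theorem SF_sq (F : ℂ → ℂ) (lam x : ℝ) :
    (SF F lam x) ^ 2 =
      ∫⁻ q in cone lam x, ENNReal.ofReal (‖deriv F (q.1 + q.2 * I)‖ ^ 2) := by
  unfold SF
  rw [← ENNReal.rpow_natCast, ← ENNReal.rpow_mul]
  norm_num

end PtX

open PtX in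
/-- 3 Pt: the pointwise lower bound for the area function. -/
theorem stPt : StPt := by
  intro b hb
  refine ⟨b / (64 * 256 * (1 + b ^ 2)), by positivity, ?_⟩
  intro σ F θ c1 x hσ hF hθ hc1 hc2 hfin hG
  obtain ⟨hFd, -⟩ := hF
  obtain ⟨N, hNdef⟩ : ∃ N : ℝ, N = (NTc F b x).toReal := ⟨_, rfl⟩
  have hN0 : 0 ≤ N := by rw [hNdef]; exact ENNReal.toReal_nonneg
  have hNT : NTc F b x = ENNReal.ofReal N := by rw [hNdef, ENNReal.ofReal_toReal hfin]
  rcases hN0.eq_or_lt with hN | hN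
  · rw [hNT, ← hN]
    simp
  have hθ0 : 0 < |θ| := abs_pos.2 hθ
  have hN1 : ∀ w, InC b x w → ‖F w‖ ≤ N := fun w hw => by
    rw [hNdef]
    exact norm_le hfin hw
  have hN2 : ∀ w, InC b x w → ‖ed b σ * deriv F w - I * θ * F w‖ ≤ c1 * |θ| * N := by
    intro w hw
    have h1 := (le_NTc (F := fun w => ed b σ * deriv F w - I * θ * F w) hw).trans hG
    rw [hNT, ← ENNReal.ofReal_mul (by positivity)] at h1
    exact (ENNReal.ofReal_le_ofReal_iff (by positivity)).1 h1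
  obtain ⟨ζ, hζ, hζN⟩ := exists_large (F := F) (b := b) (x := x) (by rw [← hNdef]; exact hN)
  rw [← hNdef] at hζN
  obtain ⟨s1, hs1⟩ : ∃ s : ℝ, s = 1 / (8 * (c1 * |θ|)) := ⟨_, rfl⟩
  obtain ⟨τ1, hτ1⟩ : ∃ t : ℝ, t = b / (8 * |θ|) := ⟨_, rfl⟩
  have hs0 : 0 < s1 := by rw [hs1]; positivity
  have hτ0 : 0 < τ1 := by rw [hτ1]; positivity
  have hs8 : c1 * |θ| * s1 = 1 / 8 := by rw [hs1]; field_simp
  have hτ8 : |θ| * τ1 = b / 8 := by rw [hτ1]; field_simp
  -- `τ1 ≤ 2 b s1`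
  have hτs : τ1 ≤ 2 * b * s1 := by
    have h1 : |θ| * τ1 * c1 ≤ |θ| * (2 * b * s1) * c1 := by
      rw [hτ8]
      have : |θ| * (2 * b * s1) * c1 = 2 * b * (c1 * |θ| * s1) := by ring
      rw [this, hs8]
      nlinarith
    have h2 := le_of_mul_le_mul_right h1 hc1
    exact le_of_mul_le_mul_left h2 hθ0
  have hσ2 : σ ^ 2 = 1 := by rw [← sq_abs, hσ]; norm_num
  obtain ⟨φ, hφ⟩ : ∃ φ : ℝ → ℝ, φ = fun v => ζ.re + σ * b * (v - ζ.im) - (1 + σ) / 2 * τ1 :=
    ⟨_, rfl⟩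
  have hφm : Measurable φ := by
    rw [hφ]
    fun_prop
  obtain ⟨P, hP⟩ : ∃ P : Set (ℝ × ℝ), P = {q : ℝ × ℝ | q.2 ∈ Icc (ζ.im + s1) (ζ.im + 2 * s1) ∧
    q.1 ∈ Icc (φ q.2) (φ q.2 + τ1)} := ⟨_, rfl⟩
  have hPm : MeasurableSet P := by
    rw [hP]
    exact measurableSet_strip hφm
  have hPv : volume P = ENNReal.ofReal τ1 * ENNReal.ofReal (ζ.im + 2 * s1 - (ζ.im + s1)) := by
    rw [hP]
    exact volume_strip hφm
  -- the points of `P`
  have hpt : ∀ q ∈ P, InC b x (q.1 + q.2 * I) ∧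
      θ ^ 2 * N ^ 2 / (256 * (1 + b ^ 2)) ≤ ‖deriv F (q.1 + q.2 * I)‖ ^ 2 := by
    intro q hq
    rw [hP] at hq
    obtain ⟨hv, hu⟩ := hq
    obtain ⟨s, hs⟩ : ∃ s : ℝ, s = q.2 - ζ.im := ⟨_, rfl⟩
    obtain ⟨τ, hτ⟩ : ∃ t : ℝ, t = σ * (ζ.re - q.1) + b * s := ⟨_, rfl⟩
    have hsl : s1 ≤ s := by rw [hs]; linarith [hv.1]
    have hsu : s ≤ 2 * s1 := by rw [hs]; linarith [hv.2]
    have hττ : 0 ≤ τ ∧ τ ≤ τ1 := by
      have h1 : φ q.2 ≤ q.1 := hu.1
      have h2 : q.1 ≤ φ q.2 + τ1 := hu.2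
      rw [hφ] at h1 h2
      simp only at h1 h2
      rw [← hs] at h1 h2
      have hcase : σ = 1 ∨ σ = -1 := by
        have : (σ - 1) * (σ + 1) = 0 := by linear_combination hσ2
        rcases mul_eq_zero.1 this with h | h
        · exact Or.inl (by linarith)
        · exact Or.inr (by linarith)
      rcases hcase with h | h
      · rw [h] at h1 h2 hτ
        constructor <;> linarith
      · rw [h] at h1 h2 hτ
        constructor <;> linarith
    obtain ⟨β, hβ⟩ : ∃ β : ℝ, β = τ / (2 * b) := ⟨_, rfl⟩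
    have hβτ : 2 * b * β = τ := by rw [hβ]; field_simp
    have hβ0 : 0 ≤ β := by rw [hβ]; exact div_nonneg hττ.1 (by linarith)
    have hα0 : 0 ≤ s - β := by
      have h1 : 2 * b * β ≤ 2 * b * s := by
        rw [hβτ]
        have := mul_le_mul_of_nonneg_left hsl (show 0 ≤ 2 * b by linarith)
        linarith [hττ.2]
      have := le_of_mul_le_mul_left h1 (show 0 < 2 * b by linarith)
      linarith
    have hpoint : ((q.1 : ℝ) : ℂ) + ((q.2 : ℝ) : ℂ) * I =
        ζ + ((s - β : ℝ) : ℂ) * ed b σ + ((β : ℝ) : ℂ) * ed b (-σ) := by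
      apply Complex.ext
      · have h1 : (ζ + ((s - β : ℝ) : ℂ) * ed b σ + ((β : ℝ) : ℂ) * ed b (-σ)).re =
            ζ.re + (s - β) * (σ * b) + β * (-σ * b) := by
          simp [ed]
        rw [h1]
        simp only [Complex.add_re, Complex.ofReal_re, Complex.mul_re, Complex.I_re, mul_zero,
          Complex.ofReal_im, Complex.I_im, mul_one, sub_self, add_zero]
        linear_combination σ * hτ + σ * hβτ - (q.1 - ζ.re) * hσ2
      · have h1 : (ζ + ((s - β : ℝ) : ℂ) * ed b σ + ((β : ℝ) : ℂ) * ed b (-σ)).im =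
            ζ.im + (s - β) + β := by
          simp [ed]
        rw [h1]
        simp only [Complex.add_im, Complex.ofReal_re, Complex.mul_im, Complex.I_re, mul_zero,
          Complex.ofReal_im, Complex.I_im, mul_one, add_zero, zero_add]
        linarith
    have hα1 : c1 * |θ| * (s - β) ≤ 1 / 4 := by
      have h1 : c1 * |θ| * (s - β) ≤ c1 * |θ| * (2 * s1) :=
        mul_le_mul_of_nonneg_left (by linarith) (by positivity)
      linarith
    have hβ1 : |θ| * β ≤ 1 / 16 := by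
      have h1 : |θ| * τ ≤ |θ| * τ1 := mul_le_mul_of_nonneg_left hττ.2 hθ0.le
      rw [hτ8, ← hβτ] at h1
      have h2 : b * (|θ| * β) ≤ b * (1 / 16) := by linarith
      exact le_of_mul_le_mul_left h2 hb
    rw [hpoint]
    exact ⟨inC_add hb hσ hζ hα0 hβ0,
      deriv_large hb hσ hFd hθ hc1 hc2 hN hN1 hN2 hζ hζN hα0 hβ0 hα1 hβ1⟩
  have hPc : P ⊆ cone b x := by
    intro q hq
    have h1 := (hpt q hq).1
    unfold InC at h1
    simp at h1
    exact ⟨h1.2, h1.1⟩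
  rw [SF_sq, hNT]
  calc ENNReal.ofReal (b / (64 * 256 * (1 + b ^ 2)) / c1) * ENNReal.ofReal N ^ 2
      = ENNReal.ofReal (θ ^ 2 * N ^ 2 / (256 * (1 + b ^ 2))) * volume P := by
        rw [hPv, ← ENNReal.ofReal_pow hN0, ← ENNReal.ofReal_mul (by positivity),
          ← ENNReal.ofReal_mul (by positivity), ← ENNReal.ofReal_mul (by positivity)]
        congr 1
        have h1 : ζ.im + 2 * s1 - (ζ.im + s1) = s1 := by ring
        rw [h1, hs1, hτ1]
        have h2 : θ ^ 2 = |θ| ^ 2 := (sq_abs θ).symm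
        rw [h2]
        field_simp
        ring
    _ = ∫⁻ _ in P, ENNReal.ofReal (θ ^ 2 * N ^ 2 / (256 * (1 + b ^ 2))) := by
        rw [setLIntegral_const]
    _ ≤ ∫⁻ q in P, ENNReal.ofReal (‖deriv F (q.1 + q.2 * I)‖ ^ 2) := by
        refine setLIntegral_mono' hPm fun q hq => ?_
        exact ENNReal.ofReal_le_ofReal (hpt q hq).2
    _ ≤ ∫⁻ q in cone b x, ENNReal.ofReal (‖deriv F (q.1 + q.2 * I)‖ ^ 2) :=
        lintegral_mono_set hPc

end Pool.Agent.Work.MP_055a27_an.Sg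

end

section

/-!
# Item UnifB: the uniform bound for the constant of the shadow condition, equal apertures
-/

set_option autoImplicit false

open MeasureTheory Set Filter Topology Complex Metric
open scoped ENNReal NNReal

namespace Pool.Agent.Work.MP_055a27_an.Sg

open Fn (StarC ShK Ex Vp)

namespace UnifBX

lemma shK_mono {μ κ κ' c : ℝ} {U l : ℝ → ℝ} (h : κ ≤ κ') (hS : ShK μ κ c U l) :
    ShK μ κ' c U l := by
  intro z y hy
  refine (hS z y hy).trans ?_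
  exact mul_le_mul_of_nonneg_right h (mul_nonneg hy.le (Real.exp_pos _).le)

lemma shK_lim {μ κ K c : ℝ} {U l : ℝ → ℝ}
    (hS : ∀ n : ℕ, ShK μ (κ * (1 / 2) ^ n + K) c U l) : ShK μ K c U l := by
  intro z y hy
  have ht : Tendsto (fun n : ℕ => (κ * (1 / 2 : ℝ) ^ n + K) * (y * Real.exp (Vp l c z y))) atTop
      (𝓝 ((κ * 0 + K) * (y * Real.exp (Vp l c z y)))) := by
    refine Tendsto.mul_const _ ?_
    refine Tendsto.add_const _ ?_
    exact (tendsto_pow_atTop_nhds_zero_of_lt_one (by norm_num) (by norm_num)).const_mul κ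
  have h := ge_of_tendsto' ht (fun n => hS n z y hy)
  simpa using h

/-- the shadow condition with a smaller aperture -/
lemma shK_anti {μ μ' κ c : ℝ} {U l : ℝ → ℝ} (hU : IsWeight U) (h : μ' ≤ μ)
    (hS : ShK μ κ c U l) : ShK μ' κ c U l := by
  intro z y hy
  refine le_trans ?_ (hS z y hy)
  apply setIntegral_mono_set
  · exact hU.2.integrableOn_isCompact isCompact_Icc
  · exact Eventually.of_forall hU.1
  · apply LE.le.eventuallyLE
    have := mul_le_mul_of_nonneg_right h hy.le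
    exact Icc_subset_Icc (by linarith) (by linarith)

end UnifBX

theorem stUnifB (hImp : Fn.StImp) (hGainK : StGainK) : StUnifB := by
  intro C0 b p hb hp
  obtain ⟨μ0, C, hμ0, hC0, hC⟩ := hGainK C0 b p hb hp
  have heps : (0 : ℝ) < 1 / (2 * C + 2) := by positivity
  obtain ⟨K0, hK00, hK0⟩ := hImp C0 b b p ((b + μ0) / 2) μ0 (1 / (2 * C + 2)) hb hb
    (by linarith) (by linarith) hp heps
  refine ⟨(b + μ0) / 2, 2 * K0, by linarith, by positivity, ?_⟩
  intro U l c hU hl hc hUl hstar hκ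
  obtain ⟨κ, hκ0, hκ⟩ := hκ
  have hCe : 1 / (2 * C + 2) * C ≤ 1 / 2 := by
    rw [one_div_mul_eq_div, div_le_div_iff₀ (by positivity) (by norm_num)]
    linarith
  have step : ∀ κ : ℝ, 0 ≤ κ → ShK ((b + μ0) / 2) κ c U l →
      ShK ((b + μ0) / 2) (κ / 2 + K0) c U l := by
    intro κ hκ0 hκ
    have h1 : ShK b κ c U l := UnifBX.shK_anti hU (by linarith) hκ
    have h2 := hC U l c κ hU hl hc hstar hκ0 h1
    have h3 := hK0 U l c (C * κ) hU hl hc hUl hstar (by positivity) h2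
    refine UnifBX.shK_mono ?_ h3
    nlinarith
  have hn : ∀ n : ℕ, ShK ((b + μ0) / 2) (κ * (1 / 2) ^ n + 2 * K0) c U l := by
    intro n
    induction n with
    | zero =>
      refine UnifBX.shK_mono ?_ hκ
      simp
      linarith
    | succ n ih =>
      refine UnifBX.shK_mono ?_ (step _ (by positivity) ih)
      rw [pow_succ]
      apply le_of_eq
      ring
  exact UnifBX.shK_lim hn

end Pool.Agent.Work.MP_055a27_an.Sg

end

section

set_option autoImplicit false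

open MeasureTheory Set Filter Topology Complex Metric
open scoped ENNReal NNReal

namespace Pool.Agent.Work.MP_055a27_an.Wd

namespace Bv

lemma mem_uhp_add (x : ℝ) {e : ℂ} (he : 0 < e.im) : (x : ℂ) + e ∈ uhp := by
  show 0 < ((x : ℂ) + e).im
  simpa using he

lemma bddBelow (b : ℝ) (u : ℂ → ℝ) (hu : SH b u) (x : ℝ) :
    BddBelow (range fun e : {e : ℂ // e ∈ Co b ∧ 0 < e.im} => u ((x : ℂ) + e)) := by
  obtain ⟨m, hm⟩ := hu.bdd
  refine ⟨m, ?_⟩
  rintro _ ⟨e, rfl⟩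
  exact hm _ (mem_uhp_add x e.2.2)

lemma usc (b : ℝ) (u : ℂ → ℝ) (hu : SH b u) (hb : 0 < b) : UpperSemicontinuous (bv b u) := by
  have : Nonempty {e : ℂ // e ∈ Co b ∧ 0 < e.im} :=
    ⟨⟨I, by show |I.re| ≤ b * I.im; simpa using hb.le, by simp⟩⟩
  intro x a ha
  obtain ⟨e, he⟩ := exists_lt_of_ciInf_lt ha
  have h1 := hu.usc ((x : ℂ) + e) (mem_uhp_add x e.2.2) a he
  have hc : Tendsto (fun y : ℝ => (y : ℂ) + (e : ℂ)) (𝓝 x) (𝓝[uhp] ((x : ℂ) + e)) := by
    refine tendsto_nhdsWithin_iff.2 ⟨?_, Eventually.of_forall fun y => mem_uhp_add y e.2.2⟩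
    exact (Continuous.tendsto (by fun_prop) x)
  filter_upwards [hc.eventually h1] with y hy
  exact lt_of_le_of_lt (ciInf_le (bddBelow b u hu y) e) hy

end Bv

theorem stBv : StBv := by
  intro b u hb hu
  have : Nonempty {e : ℂ // e ∈ Co b ∧ 0 < e.im} :=
    ⟨⟨I, by show |I.re| ≤ b * I.im; simpa using hb.le, by simp⟩⟩
  refine ⟨(Bv.usc b u hu hb).measurable, ?_, ?_⟩
  · intro x z hz hxz
    have he : z - x ∈ Co b ∧ 0 < (z - (x : ℂ)).im := by
      refine ⟨?_, ?_⟩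
      · show |(z - (x : ℂ)).re| ≤ b * (z - (x : ℂ)).im
        have : |(z - (x : ℂ)).re| = |x - z.re| := by
          rw [abs_sub_comm]; simp
        rw [this]; simpa using hxz
      · have : 0 < z.im := hz
        simpa using this
    have := ciInf_le (Bv.bddBelow b u hu x) ⟨z - x, he⟩
    simpa [bv] using this
  · intro x m h
    refine le_ciInf fun e => ?_
    refine h _ (Bv.mem_uhp_add x e.2.2) ?_
    have h1 : |(e : ℂ).re| ≤ b * (e : ℂ).im := e.2.1
    have h2 : |x - ((x : ℂ) + (e : ℂ)).re| = |(e : ℂ).re| := by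
      simp
    rw [h2]; simpa using h1

end Pool.Agent.Work.MP_055a27_an.Wd

end

section

set_option autoImplicit false

/-!
# Item 54: covering of the points with large square function by flat tops
-/

open MeasureTheory Set Filter Topology Complex Metric
open scoped ENNReal NNReal

namespace Pool.Agent.Work.MP_055a27_an.Wd

namespace CvE

lemma mem_dy_floor (i : ℤ) (x : ℝ) : x ∈ dy i ⌊x / (2 : ℝ) ^ i⌋ := by
  have h2 : (0 : ℝ) < (2 : ℝ) ^ i := by positivity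
  refine ⟨?_, ?_⟩
  · have := Int.floor_le (x / (2 : ℝ) ^ i)
    rwa [le_div_iff₀ h2] at this
  · have := Int.lt_floor_add_one (x / (2 : ℝ) ^ i)
    rwa [div_lt_iff₀ h2] at this

lemma dy_nested {i i' k k' : ℤ} {x : ℝ} (h : x ∈ dy i k) (h' : x ∈ dy i' k') (hi : i ≤ i') :
    dy i k ⊆ dy i' k' := by
  obtain ⟨n, hn⟩ := Int.eq_ofNat_of_zero_le (sub_nonneg.mpr hi)
  have hi' : i' = i + n := by omega
  have h2 : (0 : ℝ) < (2 : ℝ) ^ i := by positivity
  have e : (2 : ℝ) ^ i' = (((2 : ℤ) ^ n : ℤ) : ℝ) * (2 : ℝ) ^ i := by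
    rw [hi', zpow_add₀ (by norm_num : (2 : ℝ) ≠ 0)]
    push_cast
    rw [zpow_natCast, mul_comm]
  set N : ℤ := (2 : ℤ) ^ n with hN
  unfold dy at h h' ⊢
  rw [e] at h' ⊢
  obtain ⟨h1, h1'⟩ := h
  obtain ⟨h3, h3'⟩ := h'
  have a1 : (k' : ℝ) * (N : ℝ) < (k : ℝ) + 1 := by
    have : ((k' : ℝ) * (N : ℝ)) * (2 : ℝ) ^ i < ((k : ℝ) + 1) * (2 : ℝ) ^ i := by
      calc ((k' : ℝ) * (N : ℝ)) * (2 : ℝ) ^ i = (k' : ℝ) * ((N : ℝ) * (2 : ℝ) ^ i) := by ring
        _ ≤ x := h3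
        _ < _ := h1'
    exact lt_of_mul_lt_mul_right this h2.le
  have a2 : (k : ℝ) < ((k' : ℝ) + 1) * (N : ℝ) := by
    have : (k : ℝ) * (2 : ℝ) ^ i < (((k' : ℝ) + 1) * (N : ℝ)) * (2 : ℝ) ^ i := by
      calc (k : ℝ) * (2 : ℝ) ^ i ≤ x := h1
        _ < ((k' : ℝ) + 1) * ((N : ℝ) * (2 : ℝ) ^ i) := h3'
        _ = _ := by ring
    exact lt_of_mul_lt_mul_right this h2.le
  have b1 : k' * N ≤ k := by
    have : k' * N < k + 1 := by exact_mod_cast a1
    omega
  have b2 : k + 1 ≤ (k' + 1) * N := by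
    have : k < (k' + 1) * N := by exact_mod_cast a2
    omega
  have c1 : (k' : ℝ) * (N : ℝ) ≤ (k : ℝ) := by exact_mod_cast b1
  have c2 : (k : ℝ) + 1 ≤ ((k' : ℝ) + 1) * (N : ℝ) := by exact_mod_cast b2
  rintro y ⟨hy1, hy2⟩
  refine ⟨?_, ?_⟩
  · calc (k' : ℝ) * ((N : ℝ) * (2 : ℝ) ^ i) = ((k' : ℝ) * (N : ℝ)) * (2 : ℝ) ^ i := by ring
      _ ≤ (k : ℝ) * (2 : ℝ) ^ i := mul_le_mul_of_nonneg_right c1 h2.le
      _ ≤ y := hy1
  · calc y < ((k : ℝ) + 1) * (2 : ℝ) ^ i := hy2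
      _ ≤ (((k' : ℝ) + 1) * (N : ℝ)) * (2 : ℝ) ^ i := mul_le_mul_of_nonneg_right c2 h2.le
      _ = _ := by ring

lemma dy_disj {i k k' : ℤ} (h : k ≠ k') : Disjoint (dy i k) (dy i k') := by
  rw [Set.disjoint_left]
  intro x hx hx'
  have h2 : (0 : ℝ) < (2 : ℝ) ^ i := by positivity
  apply h
  obtain ⟨h1, h1'⟩ := hx
  obtain ⟨h3, h3'⟩ := hx'
  have a1 : (k : ℝ) < (k' : ℝ) + 1 := lt_of_mul_lt_mul_right (lt_of_le_of_lt h1 h3') h2.le
  have a2 : (k' : ℝ) < (k : ℝ) + 1 := lt_of_mul_lt_mul_right (lt_of_le_of_lt h3 h1') h2.le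
  have b1 : k < k' + 1 := by exact_mod_cast a1
  have b2 : k' < k + 1 := by exact_mod_cast a2
  omega

/-- The integral over a set of points with comparable heights. -/
lemma lint_le (lam x h B c : ℝ) (F : ℂ → ℂ) (W : Set (ℝ × ℝ)) (hlam : 0 < lam) (hh : 0 < h)
    (hB : 0 < B) (hc : 0 ≤ c)
    (hW : ∀ q ∈ W, |x - q.1| ≤ lam * q.2 ∧ h / B ≤ q.2 ∧ q.2 ≤ 2 * h)
    (hg : ∀ q ∈ W, gsq F q ≤ c / q.2 ^ 2) :
    ∫⁻ q in W, ENNReal.ofReal (gsq F q) ≤ ENNReal.ofReal (8 * lam * B ^ 2 * c) := by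
  have hhB : 0 < h / B := div_pos hh hB
  set m : ℝ := c / (h / B) ^ 2 with hm
  have hm0 : 0 ≤ m := by positivity
  have hsub : W ⊆ {q | gsq F q ≤ m} ∩
      (Icc (x - 2 * lam * h) (x + 2 * lam * h) ×ˢ Icc (0 : ℝ) (2 * h)) := by
    intro q hq
    obtain ⟨h1, h2, h3⟩ := hW q hq
    refine ⟨?_, ⟨?_, ?_⟩, ?_, ?_⟩
    · refine (hg q hq).trans ?_
      rw [hm]
      gcongr
    · have := (abs_le.mp h1).2
      have h4 : lam * q.2 ≤ lam * (2 * h) := by gcongr
      linarith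
    · have := (abs_le.mp h1).1
      have h4 : lam * q.2 ≤ lam * (2 * h) := by gcongr
      linarith
    · linarith
    · exact h3
  have hmeas : MeasurableSet ({q : ℝ × ℝ | gsq F q ≤ m} ∩
      (Icc (x - 2 * lam * h) (x + 2 * lam * h) ×ˢ Icc (0 : ℝ) (2 * h))) := by
    apply MeasurableSet.inter
    · exact measurableSet_le (measurable_gsq F) measurable_const
    · exact measurableSet_Icc.prod measurableSet_Icc
  calc ∫⁻ q in W, ENNReal.ofReal (gsq F q)
      ≤ ∫⁻ q in ({q : ℝ × ℝ | gsq F q ≤ m} ∩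
        (Icc (x - 2 * lam * h) (x + 2 * lam * h) ×ˢ Icc (0 : ℝ) (2 * h))),
          ENNReal.ofReal (gsq F q) := lintegral_mono_set hsub
    _ ≤ ∫⁻ _q in ({q : ℝ × ℝ | gsq F q ≤ m} ∩
        (Icc (x - 2 * lam * h) (x + 2 * lam * h) ×ˢ Icc (0 : ℝ) (2 * h))),
          ENNReal.ofReal m := by
        apply setLIntegral_mono' hmeas
        intro q hq
        exact ENNReal.ofReal_le_ofReal hq.1
    _ = ENNReal.ofReal m * volume ({q : ℝ × ℝ | gsq F q ≤ m} ∩
        (Icc (x - 2 * lam * h) (x + 2 * lam * h) ×ˢ Icc (0 : ℝ) (2 * h))) := by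
        rw [setLIntegral_const]
    _ ≤ ENNReal.ofReal m * volume
        ((Icc (x - 2 * lam * h) (x + 2 * lam * h) ×ˢ Icc (0 : ℝ) (2 * h))) := by
        gcongr
        exact inter_subset_right
    _ = ENNReal.ofReal (8 * lam * B ^ 2 * c) := by
        rw [Measure.volume_eq_prod, Measure.prod_prod, Real.volume_Icc, Real.volume_Icc,
          ← ENNReal.ofReal_mul (by nlinarith [mul_pos hlam hh]), ← ENNReal.ofReal_mul hm0]
        congr 1
        rw [hm]
        field_simp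
        ring

/-- Two points of very different heights. -/
lemma two_pts (lam x R B c S : ℝ) (F : ℂ → ℂ) (W : Set (ℝ × ℝ)) (hlam : 0 < lam)
    (hB : 0 < B) (hc : 0 ≤ c) (hR : 0 < R)
    (hW : ∀ q ∈ W, |x - q.1| ≤ lam * q.2 ∧ 1 / R ≤ q.2 ∧ q.2 ≤ R)
    (hg : ∀ q ∈ W, gsq F q ≤ c / q.2 ^ 2) (hS : 8 * lam * B ^ 2 * c ≤ S)
    (hint : ENNReal.ofReal S < ∫⁻ q in W, ENNReal.ofReal (gsq F q)) :
    ∃ q₁ ∈ W, ∃ q₂ ∈ W, q₁.2 < q₂.2 / B ∧ ∀ q ∈ W, q.2 ≤ 2 * q₂.2 := by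
  have hne : W.Nonempty := by
    by_contra hcon
    rw [Set.not_nonempty_iff_eq_empty] at hcon
    rw [hcon] at hint
    simp at hint
  set H : Set ℝ := (fun q : ℝ × ℝ => q.2) '' W with hH
  have hHne : H.Nonempty := hne.image _
  have hHb : BddAbove H := ⟨R, by rintro _ ⟨q, hq, rfl⟩; exact (hW q hq).2.2⟩
  have hpos : 0 < sSup H := by
    obtain ⟨q, hq⟩ := hne
    have h1 : 0 < q.2 := lt_of_lt_of_le (by positivity) (hW q hq).2.1
    exact lt_of_lt_of_le h1 (le_csSup hHb ⟨q, hq, rfl⟩)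
  obtain ⟨_, ⟨q₂, hq₂, rfl⟩, h2⟩ := exists_lt_of_lt_csSup hHne (half_lt_self hpos)
  have h3 : ∀ q ∈ W, q.2 ≤ 2 * q₂.2 := by
    intro q hq
    have := le_csSup hHb ⟨q, hq, rfl⟩
    simp only at this h2
    linarith
  by_contra hcon
  push Not at hcon
  have h4 : ∀ q ∈ W, q₂.2 / B ≤ q.2 := by
    intro q hq
    by_contra h5
    push Not at h5
    obtain ⟨q', hq', h6⟩ := hcon q hq q₂ hq₂ h5
    exact absurd (h3 q' hq') (not_le.mpr h6)
  have h5 : 0 < q₂.2 := lt_of_lt_of_le (by positivity) (hW q₂ hq₂).2.1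
  have := lint_le lam x q₂.2 B c F W hlam h5 hB hc
    (fun q hq => ⟨(hW q hq).1, h4 q hq, h3 q hq⟩) hg
  exact absurd (lt_of_lt_of_le hint (this.trans (ENNReal.ofReal_le_ofReal hS))) (lt_irrefl _)

/-- The selection of maximal intervals. -/
lemma select (P : ℤ × ℤ × ℝ → Prop) (N K : ℤ)
    (hmem : ∀ t, P t → t.2.2 ∈ dy t.1 t.2.1 ∧ -N ≤ t.1 ∧ t.1 ≤ N ∧ -K ≤ t.2.1 ∧ t.2.1 ≤ K) :
    ∃ T : Finset (ℤ × ℤ × ℝ), (∀ t ∈ T, P t) ∧
      (∀ t ∈ T, ∀ t' ∈ T, t ≠ t' → Disjoint (dy t.1 t.2.1) (dy t'.1 t'.2.1)) ∧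
      (∀ s, P s → ∃ t ∈ T, s.2.2 ∈ dy t.1 t.2.1) ∧
      ∀ s, P s → ∀ t ∈ T, s.2.2 ∈ dy t.1 t.2.1 → s.1 ≤ t.1 := by
  classical
  set Q : Set (ℤ × ℤ) := {a | ∃ x, P (a.1, a.2, x)} with hQ
  have hQf : Q.Finite := by
    apply ((Set.finite_Icc (-N) N).prod (Set.finite_Icc (-K) K)).subset
    rintro ⟨i, k⟩ ⟨x, hx⟩
    obtain ⟨-, h1, h2, h3, h4⟩ := hmem _ hx
    exact ⟨⟨h1, h2⟩, ⟨h3, h4⟩⟩
  set Mx : Set (ℤ × ℤ) := {a | a ∈ Q ∧ ∀ a' ∈ Q, dy a.1 a.2 ⊆ dy a'.1 a'.2 → a'.1 ≤ a.1} with hMx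
  have hMf : Mx.Finite := hQf.subset (fun a ha => ha.1)
  choose! f hf using (fun (a : ℤ × ℤ) (ha : a ∈ Q) => (ha : ∃ x, P (a.1, a.2, x)))
  refine ⟨hMf.toFinset.image (fun a => (a.1, a.2, f a)), ?_, ?_, ?_, ?_⟩
  · intro t ht
    rw [Finset.mem_image] at ht
    obtain ⟨a, ha, rfl⟩ := ht
    rw [Set.Finite.mem_toFinset] at ha
    exact hf a ha.1
  · intro t ht t' ht' hne
    rw [Finset.mem_image] at ht ht'
    obtain ⟨a, ha, rfl⟩ := ht
    obtain ⟨a', ha', rfl⟩ := ht'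
    rw [Set.Finite.mem_toFinset] at ha ha'
    have hne' : a ≠ a' := fun h => hne (by rw [h])
    by_contra hcon
    rw [Set.not_disjoint_iff] at hcon
    obtain ⟨x, hx, hx'⟩ := hcon
    simp only at hx hx'
    rcases le_total a.1 a'.1 with h | h
    · have h1 := dy_nested hx hx' h
      have h2 := ha.2 a' ha'.1 h1
      have h3 : a.1 = a'.1 := le_antisymm h h2
      have h4 : a.2 ≠ a'.2 := fun h5 => hne' (Prod.ext h3 h5)
      rw [h3] at hx
      exact Set.disjoint_left.mp (dy_disj h4) hx hx'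
    · have h1 := dy_nested hx' hx h
      have h2 := ha'.2 a ha.1 h1
      have h3 : a.1 = a'.1 := le_antisymm h2 h
      have h4 : a.2 ≠ a'.2 := fun h5 => hne' (Prod.ext h3 h5)
      rw [h3] at hx
      exact Set.disjoint_left.mp (dy_disj h4) hx hx'
  · rintro ⟨i, k, x⟩ hs
    have hx : x ∈ dy i k := (hmem _ hs).1
    set Q' : Set (ℤ × ℤ) := {a | a ∈ Q ∧ x ∈ dy a.1 a.2} with hQ'
    have hQ'f : Q'.Finite := hQf.subset (fun a ha => ha.1)
    have hQ'ne : Q'.Nonempty := ⟨(i, k), ⟨x, hs⟩, hx⟩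
    obtain ⟨a, ha, hamax⟩ := Set.exists_max_image Q' (fun a => a.1) hQ'f hQ'ne
    refine ⟨(a.1, a.2, f a), ?_, ha.2⟩
    rw [Finset.mem_image]
    refine ⟨a, ?_, rfl⟩
    rw [Set.Finite.mem_toFinset]
    exact ⟨ha.1, fun a' ha' hsub => hamax a' ⟨ha', hsub ha.2⟩⟩
  · rintro ⟨i, k, x⟩ hs t ht hxt
    have hx : x ∈ dy i k := (hmem _ hs).1
    rw [Finset.mem_image] at ht
    obtain ⟨a, ha, rfl⟩ := ht
    rw [Set.Finite.mem_toFinset] at ha
    simp only at hxt ⊢
    by_contra hcon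
    push Not at hcon
    exact absurd (ha.2 (i, k) ⟨x, hs⟩ (dy_nested hxt hx hcon.le)) (not_le.mpr hcon)

lemma mono' {b : ℝ} {u : ℂ → ℝ} (hu : MonoC b u) (x y s t : ℝ) (hy : 0 < y)
    (h : |s - x| ≤ b * (t - y)) :
    u ((x : ℂ) + (y : ℂ) * I) ≤ u ((s : ℂ) + (t : ℂ) * I) := by
  have h1 : (x : ℂ) + (y : ℂ) * I ∈ uhp := by
    simp [uhp, hy]
  have h2 : ((s - x : ℝ) : ℂ) + ((t - y : ℝ) : ℂ) * I ∈ Co b := by
    simp only [Co, Set.mem_ofPred_eq]
    simpa using h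
  have h3 := hu _ h1 _ h2
  have h4 : (x : ℂ) + (y : ℂ) * I + (((s - x : ℝ) : ℂ) + ((t - y : ℝ) : ℂ) * I)
      = (s : ℂ) + (t : ℂ) * I := by
    push_cast
    ring
  rwa [h4] at h3

end CvE

open CvE in
theorem stCvE : StCvE := by
  intro lam b τ p C8 L μ hlam hb hτ hτ1 hlb hp hC8 hL hμ
  set B : ℝ := 2 ^ (μ + 2) / τ with hB
  have hB0 : 0 < B := by positivity
  have hA0 : 0 ≤ 8 * lam * B ^ 2 * C8 ^ 2 := by positivity
  refine ⟨8 * lam * B ^ 2 * C8 ^ 2 + 1, 4 * L / τ, by linarith, ?_, ?_⟩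
  · rw [le_div_iff₀ hτ]
    linarith
  intro u F R hu _ _ hR hHB l a ha
  have hR0 : 0 < R := by linarith
  have hL0 : 0 < L := by linarith
  set W : ℝ → Set (ℝ × ℝ) := fun x => cone lam x ∩ Bx R ∩
    {q | -(l : ℝ) ≤ ut τ u q ∧ ut τ u q < -(l : ℝ) + 1} with hWdef
  set c : ℝ := C8 ^ 2 * Real.exp (2 * l / p) with hc
  have hc0 : 0 ≤ c := by positivity
  have hW : ∀ x, ∀ q ∈ W x, |x - q.1| ≤ lam * q.2 ∧ 1 / R ≤ q.2 ∧ q.2 ≤ R := by
    intro x q hq
    exact ⟨hq.1.1.1, hq.1.2.2.1, hq.1.2.2.2⟩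
  have hg : ∀ x, ∀ q ∈ W x, gsq F q ≤ c / q.2 ^ 2 := by
    intro x q hq
    have hq2 : 0 < q.2 := hq.1.1.2
    have h1 := hHB q hq.1.2
    have h2 : q.2 * ‖deriv F ((q.1 : ℂ) + (q.2 : ℂ) * I)‖ ≤ C8 * Real.exp (l / p) := by
      have h3 : 0 ≤ |(F ((q.1 : ℂ) + (q.2 : ℂ) * I)).re| := abs_nonneg _
      have h4 : Real.exp (-ut τ u q / p) ≤ Real.exp (l / p) := by
        apply Real.exp_le_exp.mpr
        have := hq.2.1
        gcongr
        linarith
      have h5 : C8 * Real.exp (-ut τ u q / p) ≤ C8 * Real.exp (l / p) := by gcongr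
      linarith
    rw [le_div_iff₀ (by positivity)]
    have h6 : Real.exp (2 * l / p) = Real.exp (l / p) ^ 2 := by
      rw [← Real.exp_nat_mul]
      congr 1
      push_cast
      ring
    have h7 : gsq F q * q.2 ^ 2 = (q.2 * ‖deriv F ((q.1 : ℂ) + (q.2 : ℂ) * I)‖) ^ 2 := by
      unfold gsq
      ring
    rw [h7, hc, h6, ← mul_pow]
    exact pow_le_pow_left₀ (by positivity) h2 2
  have hS : 8 * lam * B ^ 2 * c ≤ a * Real.exp (2 * l / p) := by
    rw [hc]
    have h1 : 8 * lam * B ^ 2 * C8 ^ 2 ≤ a := by linarith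
    calc 8 * lam * B ^ 2 * (C8 ^ 2 * Real.exp (2 * l / p))
        = (8 * lam * B ^ 2 * C8 ^ 2) * Real.exp (2 * l / p) := by ring
      _ ≤ a * Real.exp (2 * l / p) := by gcongr
  obtain ⟨N, hN⟩ := pow_unbounded_of_one_lt (2 * L * R / τ) (one_lt_two)
  obtain ⟨K, hK⟩ := exists_nat_ge (R * (1 + lam) * 2 ^ N + 1)
  -- the key claim
  have key : ∀ x, ENNReal.ofReal (a * Real.exp (2 * l / p)) < Sl lam τ R u F l x →
      ∃ i k : ℤ, x ∈ dy i k ∧ -(N : ℤ) ≤ i ∧ i ≤ N ∧ -(K : ℤ) ≤ k ∧ k ≤ K ∧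
        Fl (2 ^ μ) u x (L * (2 : ℝ) ^ i) ∧ lev L u (i, k, x) = l ∧
        ∀ q ∈ W x, q.2 ≤ 4 * L / τ * (2 : ℝ) ^ i := by
    intro x hx
    obtain ⟨q₁, hq₁, q₂, hq₂, h12, hmax⟩ := two_pts lam x R B c (a * Real.exp (2 * l / p)) F (W x)
      hlam hB0 hc0 hR0 (hW x) (hg x) hS hx
    have hy1 : 0 < q₁.2 := hq₁.1.1.2
    have hy2 : 0 < q₂.2 := hq₂.1.1.2
    have hy2R : q₂.2 ≤ R := (hW x q₂ hq₂).2.2
    have hy2R' : 1 / R ≤ q₂.2 := (hW x q₂ hq₂).2.1
    have hx1 := (hW x q₁ hq₁).1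
    have hx2 := (hW x q₂ hq₂).1
    have hlow : ∀ h : ℝ, 2 * q₁.2 ≤ h → -(l : ℝ) ≤ u ((x : ℂ) + (h : ℂ) * I) := by
      intro h hh
      refine hq₁.2.1.trans ?_
      unfold ut
      apply mono' hu _ _ _ _ (by nlinarith)
      have h1 : lam * q₁.2 ≤ b * (h - (1 - τ) * q₁.2) := by
        have e1 : lam * q₁.2 ≤ b * (1 - 2 * τ) * q₁.2 := by gcongr
        have e2 : (1 - 2 * τ) * q₁.2 ≤ h - (1 - τ) * q₁.2 := by nlinarith
        have e3 : b * ((1 - 2 * τ) * q₁.2) ≤ b * (h - (1 - τ) * q₁.2) := by gcongr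
        linarith
      exact hx1.trans h1
    have hupp : ∀ h : ℝ, 0 < h → h ≤ τ * q₂.2 → u ((x : ℂ) + (h : ℂ) * I) < -(l : ℝ) + 1 := by
      intro h hh0 hh
      refine lt_of_le_of_lt ?_ hq₂.2.2
      unfold ut
      apply mono' hu _ _ _ _ hh0
      rw [abs_sub_comm]
      have h1 : lam * q₂.2 ≤ b * ((1 - τ) * q₂.2 - h) := by
        have e1 : lam * q₂.2 ≤ b * (1 - 2 * τ) * q₂.2 := by gcongr
        have e2 : (1 - 2 * τ) * q₂.2 ≤ (1 - τ) * q₂.2 - h := by linarith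
        have e3 : b * ((1 - 2 * τ) * q₂.2) ≤ b * ((1 - τ) * q₂.2 - h) := by gcongr
        linarith
      exact hx2.trans h1
    have hpos : 0 < τ * q₂.2 / L := by positivity
    obtain ⟨i, hi1, hi2⟩ := exists_mem_Ico_zpow hpos (one_lt_two)
    have h2i : (0 : ℝ) < (2 : ℝ) ^ i := by positivity
    rw [le_div_iff₀ hL0] at hi1
    rw [div_lt_iff₀ hL0, zpow_add_one₀ (by norm_num : (2 : ℝ) ≠ 0)] at hi2
    have hxd := mem_dy_floor i x
    have hiN : 1 < (2 : ℝ) ^ i * 2 ^ N := by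
      have e1 : τ < (2 : ℝ) ^ i * 2 * L * R := by
        have e2 : 1 ≤ q₂.2 * R := by
          rwa [div_le_iff₀ hR0] at hy2R'
        calc τ = τ * 1 := by ring
          _ ≤ τ * (q₂.2 * R) := by gcongr
          _ = τ * q₂.2 * R := by ring
          _ < (2 : ℝ) ^ i * 2 * L * R := by gcongr
      have e3 : 1 < (2 : ℝ) ^ i * (2 * L * R / τ) := by
        rw [mul_div_assoc', lt_div_iff₀ hτ]
        linarith
      exact e3.trans (by gcongr)
    have hi0 : (2 : ℝ) ^ i ≤ 2 ^ i * L := by nlinarith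
    have hlt1 : q₁.2 * B < q₂.2 := by rwa [lt_div_iff₀ hB0] at h12
    have hB' : B * τ = 2 ^ (μ + 2) := by
      rw [hB]
      field_simp
    have h2μ : (0 : ℝ) < 2 ^ μ := by positivity
    have hlow1 : 2 * q₁.2 ≤ L * (2 : ℝ) ^ i / 2 ^ μ := by
      rw [le_div_iff₀ h2μ]
      have e1 : q₁.2 * B * τ < q₂.2 * τ := by gcongr
      rw [mul_assoc, hB', pow_add] at e1
      nlinarith
    have hμ1 : (1 : ℝ) ≤ 2 ^ μ := one_le_pow₀ (by norm_num)
    have hlow2 : 2 * q₁.2 ≤ L * (2 : ℝ) ^ i := by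
      refine hlow1.trans (div_le_self (by positivity) hμ1)
    have hu1 := hupp (L * (2 : ℝ) ^ i) (by positivity) (by linarith)
    have hu2 := hlow _ hlow1
    have hu3 := hlow _ hlow2
    have hxabs : |x| ≤ R * (1 + lam) := by
      have e1 : |q₂.1| ≤ R := hq₂.1.2.1
      have e2 : |x - q₂.1| ≤ lam * R := hx2.trans (by gcongr)
      have e3 : |x| ≤ |x - q₂.1| + |q₂.1| := by
        have := abs_add_le (x - q₂.1) q₂.1
        simpa using this
      linarith
    have hxi : |x / (2 : ℝ) ^ i| ≤ R * (1 + lam) * 2 ^ N := by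
      rw [abs_div, abs_of_pos h2i, div_le_iff₀ h2i]
      calc |x| ≤ R * (1 + lam) * 1 := by rw [mul_one]; exact hxabs
        _ ≤ R * (1 + lam) * ((2 : ℝ) ^ i * 2 ^ N) := by gcongr
        _ = _ := by ring
    refine ⟨i, ⌊x / (2 : ℝ) ^ i⌋, hxd, ?_, ?_, ?_, ?_, ?_, ?_, ?_⟩
    · by_contra hcon
      push Not at hcon
      have e1 : (2 : ℝ) ^ i ≤ (2 : ℝ) ^ (-(N : ℤ)) :=
        zpow_le_zpow_right₀ (by norm_num) hcon.le
      rw [zpow_neg, zpow_natCast] at e1
      have e2 : (2 : ℝ) ^ i * 2 ^ N ≤ 1 := by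
        calc (2 : ℝ) ^ i * 2 ^ N ≤ (2 ^ N)⁻¹ * 2 ^ N := by gcongr
          _ = 1 := inv_mul_cancel₀ (by positivity)
      linarith
    · have e1 : (2 : ℝ) ^ i < (2 : ℝ) ^ (N : ℤ) := by
        rw [zpow_natCast]
        have e2 : τ * q₂.2 ≤ 1 * R := by gcongr
        have e3 : R ≤ 2 * L * R / τ := by
          rw [le_div_iff₀ hτ]
          nlinarith [mul_pos hR0 hL0, mul_le_mul_of_nonneg_left hτ1.le hR0.le,
            mul_le_mul_of_nonneg_left hL hR0.le]
        linarith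
      exact ((zpow_lt_zpow_iff_right₀ (by norm_num)).mp e1).le
    · have e1 := (abs_le.mp hxi).1
      have e2 := Int.lt_floor_add_one (x / (2 : ℝ) ^ i)
      have e3 : (-(K : ℝ)) ≤ (⌊x / (2 : ℝ) ^ i⌋ : ℝ) := by linarith
      exact_mod_cast e3
    · have e1 := (abs_le.mp hxi).2
      have e2 := Int.floor_le (x / (2 : ℝ) ^ i)
      have e3 : (⌊x / (2 : ℝ) ^ i⌋ : ℝ) ≤ (K : ℝ) := by linarith
      exact_mod_cast e3
    · unfold Fl
      linarith
    · unfold lev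
      rw [Int.ceil_eq_iff]
      simp only
      constructor <;> linarith
    · intro q hq
      refine (hmax q hq).trans ?_
      rw [div_mul_eq_mul_div, le_div_iff₀ hτ]
      nlinarith
  obtain ⟨T, hT1, hT2, hT3, hT4⟩ := select (fun t => t.2.2 ∈ dy t.1 t.2.1 ∧ -(N : ℤ) ≤ t.1 ∧
    t.1 ≤ N ∧ -(K : ℤ) ≤ t.2.1 ∧ t.2.1 ≤ K ∧ Fl (2 ^ μ) u t.2.2 (L * (2 : ℝ) ^ t.1) ∧
    lev L u t = l) N K (fun t ht => ⟨ht.1, ht.2.1, ht.2.2.1, ht.2.2.2.1, ht.2.2.2.2.1⟩)
  refine ⟨N, T, ⟨?_, ?_⟩, ?_, ?_, ?_⟩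
  · intro t ht
    have := hT1 t ht
    exact ⟨this.2.1, this.2.2.1, this.1, this.2.2.2.2.2.1⟩
  · intro t ht t' ht' hne _
    exact hT2 t ht t' ht' hne
  · intro t ht
    exact (hT1 t ht).2.2.2.2.2.2
  · intro x hx
    obtain ⟨i, k, h1, h2, h3, h4, h5, h6, h7, -⟩ := key x hx
    obtain ⟨t, ht, hxt⟩ := hT3 (i, k, x) ⟨h1, h2, h3, h4, h5, h6, h7⟩
    simp only [Set.mem_iUnion]
    exact ⟨t, ht, hxt⟩
  · intro t ht x hxt hx q hq
    obtain ⟨i, k, h1, h2, h3, h4, h5, h6, h7, h8⟩ := key x hx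
    have h9 := hT4 (i, k, x) ⟨h1, h2, h3, h4, h5, h6, h7⟩ t ht hxt
    refine (h8 q hq).trans ?_
    have h10 : (2 : ℝ) ^ i ≤ (2 : ℝ) ^ t.1 := zpow_le_zpow_right₀ (by norm_num) h9
    gcongr

end Pool.Agent.Work.MP_055a27_an.Wd

end

section

/-!
# Wide cones: power decay
-/

set_option autoImplicit false

open MeasureTheory Set Filter Topology Complex Metric
open scoped ENNReal NNReal

namespace Pool.Agent.Work.MP_055a27_an.Wd

namespace Dec

/-- the numerical inequality of the induction step -/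
lemma step_real {q ρ p η : ℝ} (hq0 : 0 < q) (hq1 : q < 1) (hqp : q = Real.exp (-(p / 4)))
    (hqρ : q ≤ ρ) (hρ2 : 1 / 2 ≤ ρ) (hη : η = 1 / (4 + 4 / (1 - q))) (m : ℕ) :
    η * (2 * ρ ^ m + ∑ j ∈ Finset.range m, Real.exp (-(p / 2 * ((m : ℝ) - 1 - j))) * (2 * ρ ^ j) +
      Real.exp (-(p / 2 * m))) ≤ ρ ^ m := by
  have hρ0 : 0 < ρ := by linarith
  have h1q : 0 < 1 - q := by linarith
  have hexp : ∀ k : ℕ, Real.exp (-(p / 2 * k)) = (q * q) ^ k := by
    intro k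
    rw [hqp, ← Real.exp_add, ← Real.exp_nat_mul]
    congr 1; ring
  have hsum : ∑ j ∈ Finset.range m, Real.exp (-(p / 2 * ((m : ℝ) - 1 - j))) * (2 * ρ ^ j) ≤
      4 / (1 - q) * ρ ^ m := by
    rcases Nat.eq_zero_or_pos m with hm | hm
    · subst hm
      simp only [Finset.range_zero, Finset.sum_empty, pow_zero, mul_one]
      positivity
    · obtain ⟨m', rfl⟩ : ∃ m', m = m' + 1 := ⟨m - 1, by omega⟩
      have hterm : ∀ j ∈ Finset.range (m' + 1),
          Real.exp (-(p / 2 * (((m' + 1 : ℕ) : ℝ) - 1 - j))) * (2 * ρ ^ j) ≤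
            2 * ρ ^ m' * q ^ (m' - j) := by
        intro j hj
        have hjm : j ≤ m' := by
          have := Finset.mem_range.1 hj
          omega
        have he : (((m' + 1 : ℕ) : ℝ) - 1 - j) = ((m' - j : ℕ) : ℝ) := by
          rw [Nat.cast_sub hjm]; push_cast; ring
        rw [he, hexp]
        have h2 : (q * q) ^ (m' - j) ≤ q ^ (m' - j) * ρ ^ (m' - j) := by
          rw [mul_pow]
          gcongr
        have h3 : ρ ^ m' = ρ ^ (m' - j) * ρ ^ j := by
          rw [← pow_add]; congr 1; omega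
        rw [h3]
        calc (q * q) ^ (m' - j) * (2 * ρ ^ j) ≤ q ^ (m' - j) * ρ ^ (m' - j) * (2 * ρ ^ j) := by
              gcongr
          _ = 2 * (ρ ^ (m' - j) * ρ ^ j) * q ^ (m' - j) := by ring
      have hgeo : ∑ j ∈ Finset.range (m' + 1), q ^ (m' - j) ≤ 1 / (1 - q) := by
        have h4 : ∑ j ∈ Finset.range (m' + 1), q ^ (m' - j) =
            ∑ j ∈ Finset.range (m' + 1), q ^ j := by
          have := Finset.sum_range_reflect (fun j => q ^ j) (m' + 1)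
          rw [← this]
          refine Finset.sum_congr rfl (fun j _ => ?_)
          congr 1
        rw [h4, le_div_iff₀ h1q, mul_comm, mul_neg_geom_sum]
        have : 0 < q ^ (m' + 1) := by positivity
        linarith
      calc _ ≤ ∑ j ∈ Finset.range (m' + 1), 2 * ρ ^ m' * q ^ (m' - j) :=
            Finset.sum_le_sum hterm
        _ = 2 * ρ ^ m' * ∑ j ∈ Finset.range (m' + 1), q ^ (m' - j) := by rw [Finset.mul_sum]
        _ ≤ 2 * ρ ^ m' * (1 / (1 - q)) := by gcongr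
        _ ≤ 2 * (2 * ρ ^ (m' + 1)) * (1 / (1 - q)) := by
            have h5 : ρ ^ m' ≤ 2 * ρ ^ (m' + 1) := by
              rw [pow_succ]
              have : 0 < ρ ^ m' := by positivity
              nlinarith
            gcongr
        _ = 4 / (1 - q) * ρ ^ (m' + 1) := by ring
  have hlast : Real.exp (-(p / 2 * m)) ≤ ρ ^ m := by
    rw [hexp]
    have : q * q ≤ ρ := by nlinarith
    gcongr
  have hηpos : 0 < η := by rw [hη]; positivity
  have hρm : 0 < ρ ^ m := by positivity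
  calc _ ≤ η * (2 * ρ ^ m + 4 / (1 - q) * ρ ^ m + ρ ^ m) := by gcongr
    _ = η * (3 + 4 / (1 - q)) * ρ ^ m := by ring
    _ ≤ 1 * ρ ^ m := by
        gcongr
        rw [hη, one_div_mul_eq_div, div_le_one (by positivity)]
        linarith
    _ = ρ ^ m := one_mul _

/-- the induction -/
lemma claim {μ : Measure ℝ} {O : ℕ → Set ℝ} {q ρ p η Z : ℝ} {N n : ℕ} (hq0 : 0 < q) (hq1 : q < 1)
    (hqp : q = Real.exp (-(p / 4))) (hqρ : q ≤ ρ) (hρ2 : 1 / 2 ≤ ρ) (hρ1 : ρ ≤ 1)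
    (hρN : ρ ^ N = 1 / 2) (hη : η = 1 / (4 + 4 / (1 - q))) (hZ : 0 ≤ Z) (hN : 1 ≤ N)
    (h0 : ∀ l ≤ n, μ (O l) ≤ ENNReal.ofReal Z)
    (hstep : ∀ m, m + N ≤ n → μ (O (m + N)) ≤ ENNReal.ofReal η * (μ (O m) +
      ∑ j ∈ Finset.range m, ENNReal.ofReal (Real.exp (-(p / 2 * ((m : ℝ) - 1 - j)))) *
        μ (O j) + ENNReal.ofReal (Real.exp (-(p / 2 * m)) * Z))) :
    ∀ l ≤ n, μ (O l) ≤ ENNReal.ofReal (2 * ρ ^ l * Z) := by
  have hρ0 : 0 < ρ := by linarith
  have hηpos : 0 < η := by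
    have h1q : 0 < 1 - q := by linarith
    rw [hη]; positivity
  intro l
  induction l using Nat.strong_induction_on with
  | _ l ih =>
  intro hl
  rcases lt_or_ge l N with hlN | hlN
  · refine (h0 l hl).trans (ENNReal.ofReal_le_ofReal ?_)
    have h1 : ρ ^ N ≤ ρ ^ l := pow_le_pow_of_le_one hρ0.le hρ1 hlN.le
    rw [hρN] at h1
    nlinarith
  · obtain ⟨m, rfl⟩ : ∃ m, l = m + N := ⟨l - N, by omega⟩
    refine (hstep m hl).trans ?_
    have hm := ih m (by omega) (by omega)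
    have hj : ∀ j ∈ Finset.range m, ENNReal.ofReal (Real.exp (-(p / 2 * ((m : ℝ) - 1 - j)))) *
        μ (O j) ≤ ENNReal.ofReal (Real.exp (-(p / 2 * ((m : ℝ) - 1 - j))) * (2 * ρ ^ j) * Z) := by
      intro j hj
      have hj' := Finset.mem_range.1 hj
      have h2 := ih j (by omega) (by omega)
      calc _ ≤ ENNReal.ofReal (Real.exp (-(p / 2 * ((m : ℝ) - 1 - j)))) *
            ENNReal.ofReal (2 * ρ ^ j * Z) := by gcongr
        _ = _ := by
            rw [← ENNReal.ofReal_mul (Real.exp_pos _).le]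
            congr 1; ring
    have hsum : ∑ j ∈ Finset.range m, ENNReal.ofReal (Real.exp (-(p / 2 * ((m : ℝ) - 1 - j)))) *
        μ (O j) ≤ ENNReal.ofReal ((∑ j ∈ Finset.range m,
          Real.exp (-(p / 2 * ((m : ℝ) - 1 - j))) * (2 * ρ ^ j)) * Z) := by
      rw [Finset.sum_mul, ENNReal.ofReal_sum_of_nonneg (fun j _ => by positivity)]
      exact Finset.sum_le_sum hj
    have hS0 : 0 ≤ ∑ j ∈ Finset.range m, Real.exp (-(p / 2 * ((m : ℝ) - 1 - j))) * (2 * ρ ^ j) :=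
      Finset.sum_nonneg (fun j _ => by positivity)
    calc _ ≤ ENNReal.ofReal η * (ENNReal.ofReal (2 * ρ ^ m * Z) +
          ENNReal.ofReal ((∑ j ∈ Finset.range m,
          Real.exp (-(p / 2 * ((m : ℝ) - 1 - j))) * (2 * ρ ^ j)) * Z) +
          ENNReal.ofReal (Real.exp (-(p / 2 * m)) * Z)) := by gcongr
      _ = ENNReal.ofReal ((η * (2 * ρ ^ m + ∑ j ∈ Finset.range m,
          Real.exp (-(p / 2 * ((m : ℝ) - 1 - j))) * (2 * ρ ^ j) +
          Real.exp (-(p / 2 * m)))) * Z) := by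
          rw [← ENNReal.ofReal_add (by positivity) (by positivity),
            ← ENNReal.ofReal_add (by positivity) (by positivity), ← ENNReal.ofReal_mul hηpos.le]
          congr 1; ring
      _ ≤ _ := by
          apply ENNReal.ofReal_le_ofReal
          have h3 := step_real hq0 hq1 hqp hqρ hρ2 hη m
          have h4 : 2 * ρ ^ (m + N) = ρ ^ m := by
            rw [pow_add, hρN]; ring
          rw [h4]
          gcongr

/-- an open set of almost the same measure -/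
lemma exists_open {E : Set ℝ} {x0 r : ℝ} (hr : 0 < r) (hsub : E ⊆ Icc (x0 - r) (x0 + r))
    (hE : 0 < volume.real E) : ∃ E' : Set ℝ, IsOpen E' ∧ E ⊆ E' ∧
      E' ⊆ Ioo (x0 - 2 * r) (x0 + 2 * r) ∧ volume.real E' ≤ 2 * volume.real E ∧
      volume.real E ≤ volume.real E' := by
  have hfin : volume E ≠ ∞ := ((measure_mono hsub).trans_lt measure_Icc_lt_top).ne
  have hlt : volume E < 2 * volume E := by
    have h0 : volume E ≠ 0 := by
      intro h
      rw [measureReal_def, h] at hE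
      simp at hE
    rw [two_mul]
    exact ENNReal.lt_add_right hfin h0
  obtain ⟨V, hEV, hV, hlt'⟩ := Set.exists_isOpen_lt_of_lt E _ hlt
  have hfin2 : 2 * volume E ≠ ∞ := ENNReal.mul_ne_top (by norm_num) hfin
  have hE' : volume (V ∩ Ioo (x0 - 2 * r) (x0 + 2 * r)) ≤ 2 * volume E :=
    (measure_mono inter_subset_left).trans hlt'.le
  refine ⟨V ∩ Ioo (x0 - 2 * r) (x0 + 2 * r), hV.inter isOpen_Ioo, ?_, inter_subset_right, ?_, ?_⟩
  · refine subset_inter hEV (hsub.trans ?_)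
    intro t ht
    exact ⟨by linarith [ht.1], by linarith [ht.2]⟩
  · have h := ENNReal.toReal_mono hfin2 hE'
    rw [ENNReal.toReal_mul] at h
    rw [measureReal_def, measureReal_def]
    simpa using h
  · refine ENNReal.toReal_mono (hE'.trans_lt hfin2.lt_top).ne (measure_mono ?_)
    refine subset_inter hEV (hsub.trans ?_)
    intro t ht
    exact ⟨by linarith [ht.1], by linarith [ht.2]⟩

end Dec

theorem stDec (hStp : StStp) : StDec := by
  intro C0 lam b p B hlam hb hp hB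
  obtain ⟨q, hqp⟩ : ∃ q, q = Real.exp (-(p / 4)) := ⟨_, rfl⟩
  have hq0 : 0 < q := by rw [hqp]; exact Real.exp_pos _
  have hq1 : q < 1 := by
    rw [hqp, Real.exp_lt_one_iff]; linarith
  have h1q : 0 < 1 - q := by linarith
  obtain ⟨η, hη⟩ : ∃ η, η = 1 / (4 + 4 / (1 - q)) := ⟨_, rfl⟩
  have hηpos : 0 < η := by rw [hη]; positivity
  obtain ⟨K, N, hK, hN, hKN, H⟩ := hStp C0 lam b p B hlam hb hp hB η hηpos
  obtain ⟨ρ, hρ⟩ : ∃ ρ : ℝ, ρ = (1 / 2) ^ (1 / N : ℝ) := ⟨_, rfl⟩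
  have hNr : (0 : ℝ) < N := by
    have : 0 < N := hN
    exact_mod_cast this
  have hqρ : q ≤ ρ := by rw [hqp, hρ]; exact hKN
  have hρ0 : 0 < ρ := by rw [hρ]; positivity
  have hρN : ρ ^ N = 1 / 2 := by
    rw [hρ, ← Real.rpow_natCast, ← Real.rpow_mul (by norm_num), one_div_mul_cancel hNr.ne',
      Real.rpow_one]
  have hρ1 : ρ ≤ 1 := by
    by_contra h
    have h2 : 1 < ρ ^ N := one_lt_pow₀ (not_le.1 h) (by omega)
    rw [hρN] at h2
    norm_num at h2
  have hρlt : ρ < 1 := by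
    rcases hρ1.lt_or_eq with h | h
    · exact h
    · rw [h, one_pow] at hρN; norm_num at hρN
  have hρ2 : 1 / 2 ≤ ρ := by
    rw [← hρN]
    calc ρ ^ N ≤ ρ ^ 1 := pow_le_pow_of_le_one hρ0.le hρ1 hN
      _ = ρ := pow_one ρ
  have hK0 : 0 < K := by linarith
  have hlogK : 0 < Real.log K := Real.log_pos (by linarith)
  have hlogρ : Real.log ρ < 0 := Real.log_neg hρ0 hρlt
  obtain ⟨ε, hε⟩ : ∃ ε, ε = -Real.log ρ / Real.log K := ⟨_, rfl⟩
  have hε0 : 0 < ε := by rw [hε]; exact div_pos (by linarith) hlogK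
  have hρK : ρ = K ^ (-ε) := by
    rw [Real.rpow_def_of_pos hK0, hε, ← neg_div, neg_neg, mul_div_cancel₀ _ hlogK.ne',
      Real.exp_log hρ0]
  refine ⟨4 * 2 ^ ε + (2 * K) ^ ε, ε, by positivity, hε0, ?_⟩
  intro U G x0 r Z hU hS hG hr hZ hG1 hG2 hNI hZ2 E hEm hEs
  rcases (measureReal_nonneg (μ := volume) (s := E)).eq_or_lt with hE0 | hE0
  · have hfin : volume E ≠ ∞ := ((measure_mono hEs).trans_lt measure_Icc_lt_top).ne
    have h1 : volume E = 0 := by
      rcases (ENNReal.toReal_eq_zero_iff _).1 hE0.symm with h | h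
      · exact h
      · exact absurd h hfin
    rw [wm_ac h1]
    exact bot_le
  · obtain ⟨E', hE'o, hEE', hE's, hE'2, hE'1⟩ := Dec.exists_open hr hEs hE0
    obtain ⟨τ, hτ⟩ : ∃ τ, τ = volume.real E' / r := ⟨_, rfl⟩
    obtain ⟨s, hs⟩ : ∃ s, s = volume.real E / r := ⟨_, rfl⟩
    have hs0 : 0 < s := by rw [hs]; exact div_pos hE0 hr
    have hτ0 : 0 < τ := by rw [hτ]; exact div_pos (by linarith) hr
    have hτs : τ ≤ 2 * s := by
      rw [hτ, hs, ← mul_div_assoc]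
      gcongr
    have hτr : volume.real E' = τ * r := by rw [hτ, div_mul_cancel₀ _ hr.ne']
    rw [← hs]
    have hsε : 0 < s ^ ε := Real.rpow_pos_of_pos hs0 _
    have hbig : ∀ X : ℝ, X ≤ 4 * 2 ^ ε * s ^ ε ∨ X ≤ (2 * K) ^ ε * s ^ ε →
        wm U E ≤ ENNReal.ofReal (X * Z) →
        wm U E ≤ ENNReal.ofReal ((4 * 2 ^ ε + (2 * K) ^ ε) * s ^ ε * Z) := by
      intro X hX h
      refine h.trans (ENNReal.ofReal_le_ofReal ?_)
      have h5 : X ≤ (4 * 2 ^ ε + (2 * K) ^ ε) * s ^ ε := by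
        have h6 : 0 < 4 * (2:ℝ) ^ ε * s ^ ε := by positivity
        have h7 : 0 < (2 * K) ^ ε * s ^ ε := by positivity
        rcases hX with h | h
        · linarith
        · linarith
      gcongr
    have hsub3 : ∀ t ∈ Icc (x0 - r) (x0 + r), t ∈ Icc (x0 - 3 * r) (x0 + 3 * r) := by
      intro t ht
      exact ⟨by linarith [ht.1], by linarith [ht.2]⟩
    rcases le_or_gt (1 / K) τ with hcase | hcase
    · refine hbig 1 (Or.inr ?_) ?_
      · rw [← Real.mul_rpow (by positivity) hs0.le]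
        apply Real.one_le_rpow _ hε0.le
        have h8 : 1 / K ≤ 2 * s := hcase.trans hτs
        rw [div_le_iff₀ hK0] at h8
        linarith
      · rw [one_mul]
        exact (measure_mono (fun t ht => hsub3 t (hEs ht))).trans hZ2
    · have hex : ∃ n : ℕ, 1 ≤ τ * K ^ (n + 1) := by
        obtain ⟨n, hn⟩ := pow_unbounded_of_one_lt (1 / τ) (by linarith : (1:ℝ) < K)
        refine ⟨n, ?_⟩
        have h9 : K ^ n ≤ K ^ (n + 1) := pow_le_pow_right₀ (by linarith) (Nat.le_succ n)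
        have h10 : 1 / τ < K ^ (n + 1) := lt_of_lt_of_le hn h9
        rw [div_lt_iff₀ hτ0] at h10
        linarith
      classical
      obtain ⟨n, hn1, hn2⟩ : ∃ n : ℕ, 1 ≤ τ * K ^ (n + 1) ∧ τ * K ^ n < 1 := by
        refine ⟨Nat.find hex, Nat.find_spec hex, ?_⟩
        rcases Nat.eq_zero_or_pos (Nat.find hex) with h | h
        · rw [h, pow_zero, mul_one]
          have : 1 / K ≤ 1 := by
            rw [div_le_one hK0]; linarith
          linarith
        · obtain ⟨n', hn'⟩ : ∃ n', Nat.find hex = n' + 1 := ⟨Nat.find hex - 1, by omega⟩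
          have h11 := Nat.find_min hex (m := n') (by omega)
          rw [hn']
          exact not_le.1 h11
      have hKpow : ∀ l ≤ n, τ * K ^ l < 1 := by
        intro l hl
        refine lt_of_le_of_lt ?_ hn2
        have : K ^ l ≤ K ^ n := pow_le_pow_right₀ (by linarith) hl
        gcongr
      have hfinE' : volume E' ≠ ∞ := ((measure_mono hE's).trans_lt measure_Ioo_lt_top).ne
      have hO : ∀ l, dset E' (τ * K ^ l) ⊆ Icc (x0 - 3 * r) (x0 + 3 * r) := by
        intro l t ht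
        have hK1 : 1 ≤ K ^ l := one_le_pow₀ (by linarith)
        have h12 : volume.real E' ≤ τ * K ^ l * r := by
          rw [hτr]
          have : τ * r ≤ τ * r * K ^ l := le_mul_of_one_le_right (by positivity) hK1
          linarith
        obtain ⟨e, he, hte⟩ := dset_near hfinE' (by positivity) h12 ht
        have h13 := hE's he
        rw [abs_lt] at hte
        exact ⟨by linarith [h13.1, hte.1], by linarith [h13.2, hte.2]⟩
      have hcl := Dec.claim (μ := wm U) (O := fun l => dset E' (τ * K ^ l)) (n := n) hq0 hq1 hqp hqρ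
        hρ2 hρ1 hρN hη hZ hN (fun l _ => (measure_mono (hO l)).trans hZ2) (by
          intro m hm
          exact H U G x0 r Z τ E' (m + N) m hU hS hG hr hZ hG1 hG2 hNI hE'o hE's hτ0 hτr.le rfl
            (hKpow _ hm)) n (le_refl n)
      refine hbig (2 * ρ ^ n) (Or.inl ?_)
        (((measure_mono (hEE'.trans (subset_dset hE'o hn2)))).trans hcl)
      have h14 : ρ ^ n ≤ 2 * ρ ^ (n + 1) := by
        rw [pow_succ]
        have : 0 < ρ ^ n := by positivity
        nlinarith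
      have h15 : ρ ^ (n + 1) ≤ τ ^ ε := by
        have h16 : ρ ^ (n + 1) = (K ^ (n + 1)) ^ (-ε) := by
          rw [hρK, ← Real.rpow_natCast, ← Real.rpow_natCast, ← Real.rpow_mul hK0.le,
            ← Real.rpow_mul hK0.le, mul_comm]
        rw [h16, Real.rpow_neg (by positivity), ← Real.inv_rpow (by positivity)]
        apply Real.rpow_le_rpow (by positivity) _ hε0.le
        rw [inv_le_iff_one_le_mul₀ (by positivity)]
        exact hn1
      have h17 : τ ^ ε ≤ 2 ^ ε * s ^ ε := by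
        rw [← Real.mul_rpow (by norm_num) hs0.le]
        exact Real.rpow_le_rpow hτ0.le hτs hε0.le
      calc 2 * ρ ^ n ≤ 2 * (2 * (2 ^ ε * s ^ ε)) := by
            have := h14.trans (mul_le_mul_of_nonneg_left (h15.trans h17) (by norm_num : (0:ℝ) ≤ 2))
            linarith
        _ = 4 * 2 ^ ε * s ^ ε := by ring

end Pool.Agent.Work.MP_055a27_an.Wd

end
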