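import Pool.Agent.Work.MP_055a27_an.Cr3.Stmts
import Pool.Agent.Work.MP_055a27_an.Cr3.Stmts2
import Pool.Agent.Work.MP_055a27_an.WeakStar
import Pool.Agent.Work.MP_055a27_an.Cr3.CCh

/-! Bundle of small proof modules (one section per former module). -/

section

/-! Project MP_055a27_an, module Cr3, item Suff3: sufficiency of the shadow condition. -/

set_option autoImplicit false

open MeasureTheory Set Filter Topology Complex Metric
open scoped ENNReal NNReal

namespace Pool.Agent.Work.MP_055a27_an.Cr3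

open Crit (lg cc CC Pk hU)
open Nv (mx)

namespace Suff3

lemma add_rpow_le {A B : ℝ≥0∞} {s : ℝ} (hs : 0 ≤ s) :
    (A + B) ^ s ≤ 2 ^ s * (A ^ s + B ^ s) := by
  rcases le_total A B with h | h
  · calc (A + B) ^ s ≤ (2 * B) ^ s := by
          apply ENNReal.rpow_le_rpow _ hs
          rw [two_mul]
          exact add_le_add h le_rfl
      _ = 2 ^ s * B ^ s := ENNReal.mul_rpow_of_nonneg _ _ hs
      _ ≤ 2 ^ s * (A ^ s + B ^ s) := mul_le_mul' le_rfl le_add_self
  · calc (A + B) ^ s ≤ (2 * A) ^ s := by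
          apply ENNReal.rpow_le_rpow _ hs
          rw [two_mul]
          exact add_le_add le_rfl h
      _ = 2 ^ s * A ^ s := ENNReal.mul_rpow_of_nonneg _ _ hs
      _ ≤ 2 ^ s * (A ^ s + B ^ s) := mul_le_mul' le_rfl le_self_add

lemma meas_gg {la : ℝ} {U : ℝ → ℝ} (hla : 0 < la) (hW : Wt U) (m : ℝ) :
    MeasurableSet {q : ℝ × ℝ | 0 < q.2 ∧ gg la U q.1 q.2 ≤ m} := by
  classical
  obtain ⟨hU, _, hadm⟩ := hW
  set H : Set (ℝ × ℝ) := {q | 0 < q.2} with hH
  have hHm : MeasurableSet H := measurableSet_lt measurable_const measurable_snd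
  have hc : ContinuousOn (fun q : ℝ × ℝ => (schw (lg U) (q.1 + q.2 * I)).re) H := by
    have h1 : ContinuousOn (schw (lg U)) uhp := (schw_diff hadm).continuousOn
    have h2 : Continuous (fun q : ℝ × ℝ => ((q.1 : ℂ) + (q.2 : ℂ) * I)) := by fun_prop
    exact Complex.continuous_re.comp_continuousOn
      (h1.comp h2.continuousOn (fun q hq => mem_uhp (z := q.1) hq))
  have hpw : Measurable (H.piecewise (fun q : ℝ × ℝ => (schw (lg U) (q.1 + q.2 * I)).re)
      (fun _ => (0 : ℝ))) := hc.measurable_piecewise continuousOn_const hHm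
  have hint : ∀ a b : ℝ, IntervalIntegrable U volume a b := fun a b =>
    (hU.2.integrableOn_isCompact isCompact_uIcc).intervalIntegrable
  have hV : Continuous (fun x : ℝ => ∫ t in (0 : ℝ)..x, U t) :=
    intervalIntegral.continuous_primitive hint 0
  set V : ℝ → ℝ := fun x => ∫ t in (0 : ℝ)..x, U t with hVdef
  have hM : Measurable (fun q : ℝ × ℝ =>
      Real.log ((V (q.1 + la * q.2) - V (q.1 - la * q.2)) / q.2)) := by
    have h1 : Continuous (fun q : ℝ × ℝ => V (q.1 + la * q.2) - V (q.1 - la * q.2)) :=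
      (hV.comp (by fun_prop)).sub (hV.comp (by fun_prop))
    exact Real.measurable_log.comp (h1.measurable.div measurable_snd)
  have hLL : ∀ q ∈ H, LL la U q.1 q.2 =
      Real.log ((V (q.1 + la * q.2) - V (q.1 - la * q.2)) / q.2) := by
    intro q hq
    have hq' : 0 < q.2 := hq
    have hle : q.1 - la * q.2 ≤ q.1 + la * q.2 := by nlinarith [mul_pos hla hq']
    unfold LL avg
    rw [integral_Icc_eq_integral_Ioc, ← intervalIntegral.integral_of_le hle]
    congr 2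
    exact (intervalIntegral.integral_interval_sub_left (hint _ _) (hint _ _)).symm
  have hset : {q : ℝ × ℝ | 0 < q.2 ∧ gg la U q.1 q.2 ≤ m} = H ∩ {q : ℝ × ℝ |
      (H.piecewise (fun q : ℝ × ℝ => (schw (lg U) (q.1 + q.2 * I)).re) (fun _ => (0 : ℝ))) q -
        Real.log ((V (q.1 + la * q.2) - V (q.1 - la * q.2)) / q.2) ≤ m} := by
    ext q
    constructor
    · rintro ⟨h1, h2⟩
      refine ⟨h1, ?_⟩
      show _ - _ ≤ m
      rw [Set.piecewise_eq_of_mem _ _ _ (show q ∈ H from h1), ← hLL q h1,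
        ← poisson_eq_re hadm h1]
      exact h2
    · rintro ⟨h1, h2⟩
      refine ⟨h1, ?_⟩
      have h3 : _ - _ ≤ m := h2
      rw [Set.piecewise_eq_of_mem _ _ _ (show q ∈ H from h1), ← hLL q h1,
        ← poisson_eq_re hadm h1] at h3
      exact h3
  rw [hset]
  exact hHm.inter (measurableSet_le (hpw.sub hM) measurable_const)

lemma meas_A {la lam m : ℝ} {U f : ℝ → ℝ} (hla : 0 < la) (hW : Wt U) (hf : Admissible f) :
    Measurable (fun x : ℝ => ∫⁻ q in cone lam x ∩ {q : ℝ × ℝ | gg la U q.1 q.2 ≤ m},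
      ENNReal.ofReal (gradSq f q.1 q.2)) := by
  have m1 : MeasurableSet {z : ℝ × (ℝ × ℝ) | |z.1 - z.2.1| ≤ lam * z.2.2} :=
    measurableSet_le (by fun_prop) (by fun_prop)
  have m2 : MeasurableSet {z : ℝ × (ℝ × ℝ) | 0 < z.2.2 ∧ gg la U z.2.1 z.2.2 ≤ m} :=
    measurable_snd (meas_gg hla hW m)
  have h1 := (((measurable_gsq (schw f)).ennreal_ofReal.comp
    (measurable_snd (α := ℝ) (β := ℝ × ℝ))).indicator (m1.inter m2))
  have h2 := h1.lintegral_prod_right' (ν := volume)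
  have hms : ∀ x : ℝ, MeasurableSet (cone lam x ∩ {q : ℝ × ℝ | gg la U q.1 q.2 ≤ m}) := by
    intro x
    have : cone lam x ∩ {q : ℝ × ℝ | gg la U q.1 q.2 ≤ m} =
        cone lam x ∩ {q : ℝ × ℝ | 0 < q.2 ∧ gg la U q.1 q.2 ≤ m} := by
      ext q
      exact ⟨fun h => ⟨h.1, h.1.2, h.2⟩, fun h => ⟨h.1, h.2.2⟩⟩
    rw [this]
    exact (measurableSet_cone lam x).inter (meas_gg hla hW m)
  have h3 : (fun x : ℝ => ∫⁻ q in cone lam x ∩ {q : ℝ × ℝ | gg la U q.1 q.2 ≤ m},
      ENNReal.ofReal (gradSq f q.1 q.2)) = fun x : ℝ => ∫⁻ q : ℝ × ℝ,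
        (({z : ℝ × (ℝ × ℝ) | |z.1 - z.2.1| ≤ lam * z.2.2} ∩
          {z : ℝ × (ℝ × ℝ) | 0 < z.2.2 ∧ gg la U z.2.1 z.2.2 ≤ m}).indicator
          ((fun q => ENNReal.ofReal (gsq (schw f) q)) ∘ Prod.snd)) (x, q) := by
    funext x
    rw [← lintegral_indicator (hms x)]
    apply lintegral_congr
    intro q
    by_cases hq : q ∈ cone lam x ∩ {q : ℝ × ℝ | gg la U q.1 q.2 ≤ m}
    · rw [indicator_of_mem hq, indicator_of_mem]
      · show ENNReal.ofReal (gradSq f q.1 q.2) = ENNReal.ofReal (gsq (schw f) q)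
        rw [gradSq_eq hf hq.1.2]
        unfold gsq
        rw [(hasDerivAt_schw hf (mem_uhp (z := q.1) hq.1.2)).deriv]
      · exact ⟨hq.1.1, hq.1.2, hq.2⟩
    · rw [indicator_of_notMem hq, indicator_of_notMem]
      intro h
      exact hq ⟨⟨h.1, h.2.1⟩, h.2.2⟩
  rw [h3]
  exact h2

end Suff3

theorem stSuff3 (hLowP : StLowP) (hHighP : StHighP) (hCC3 : StCC3) (hAperG : Crit.StAperG) :
    StSuff3 := by
  intro lam μ b p U hlam hlm hb hp hW hSh
  set la : ℝ := (lam + μ) / 2 with hla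
  have hla0 : 0 < la := by rw [hla]; linarith
  have hlla : lam < la := by rw [hla]; linarith
  have hlaμ : la < μ := by rw [hla]; linarith
  have hHyp : Hyp la μ U := ⟨hla0, hlaμ, hW, hSh⟩
  have hp0 : 0 < p := by linarith
  obtain ⟨m0, hm0, CH, hH⟩ := hHighP lam la μ b p U hlam hlla hHyp hb hp
  -- the low part
  have hlow : ∃ CL : ℝ≥0, ∀ f : ℝ → ℝ, Admissible f →
      ∫⁻ x, (∫⁻ q in cone lam x ∩ {q : ℝ × ℝ | gg la U q.1 q.2 ≤ m0},
        ENNReal.ofReal (gradSq f q.1 q.2)) ^ (p / 2) * ENNReal.ofReal (U x) ≤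
        CL * ∫⁻ x, (ntMax b f x) ^ p * ENNReal.ofReal (U x) := by
    rcases lt_or_ge lam b with h | h
    · exact hLowP lam la μ b p m0 U hlam hlla h hp0 hm0 hHyp
    · set b' : ℝ := (lam + la) / 2 with hb'
      have hb1 : lam < b' := by rw [hb']; linarith
      have hb2 : b' < la := by rw [hb']; linarith
      obtain ⟨C1, h1⟩ := hLowP lam la μ b' p m0 U hlam hlla hb1 hp0 hm0 hHyp
      have hCC : CC la U := hCC3 la μ U hla0 hlaμ hW hSh
      obtain ⟨C2, h2⟩ := hAperG la b b' p U hb (hlam.trans hb1) hb2 hp hW.1 hW.2.1 hW.2.2 hCC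
      refine ⟨C1 * C2, fun f hf => ?_⟩
      calc _ ≤ C1 * ∫⁻ x, (ntMax b' f x) ^ p * ENNReal.ofReal (U x) := h1 f hf
        _ ≤ C1 * (C2 * ∫⁻ x, (ntMax b f x) ^ p * ENNReal.ofReal (U x)) :=
            mul_le_mul' le_rfl (h2 f hf)
        _ = _ := by rw [ENNReal.coe_mul, mul_assoc]
  obtain ⟨CL, hL⟩ := hlow
  refine ⟨2 ^ (p / 2) * (CL + CH), fun f hf => ?_⟩
  set A : ℝ → ℝ≥0∞ := fun x => ∫⁻ q in cone lam x ∩ {q : ℝ × ℝ | gg la U q.1 q.2 ≤ m0},
    ENNReal.ofReal (gradSq f q.1 q.2) with hA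
  set B : ℝ → ℝ≥0∞ := fun x => ∫⁻ q in cone lam x ∩ {q : ℝ × ℝ | m0 ≤ gg la U q.1 q.2},
    ENNReal.ofReal (gradSq f q.1 q.2) with hB
  set W : ℝ → ℝ≥0∞ := fun x => ENNReal.ofReal (U x) with hWd
  have hWm : AEMeasurable W volume := (weight_aemeas hW.1).ennreal_ofReal
  have hAm : Measurable A := Suff3.meas_A hla0 hW hf
  have hsum : ∀ x, (areaFn lam f x) ^ p * ENNReal.ofReal (U x) ≤
      2 ^ (p / 2) * ((A x) ^ (p / 2) * W x + (B x) ^ (p / 2) * W x) := by
    intro x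
    rw [areaFn_rpow]
    have e1 : ∫⁻ q in cone lam x, ENNReal.ofReal (gradSq f q.1 q.2) ≤ A x + B x := by
      have e2 : cone lam x ⊆ (cone lam x ∩ {q : ℝ × ℝ | gg la U q.1 q.2 ≤ m0}) ∪
          (cone lam x ∩ {q : ℝ × ℝ | m0 ≤ gg la U q.1 q.2}) := by
        intro q hq
        rcases le_total (gg la U q.1 q.2) m0 with h | h
        · left
          exact ⟨hq, h⟩
        · right
          exact ⟨hq, h⟩
      exact (lintegral_mono_set e2).trans (lintegral_union_le _ _ _)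
    calc (∫⁻ q in cone lam x, ENNReal.ofReal (gradSq f q.1 q.2)) ^ (p / 2) *
          ENNReal.ofReal (U x) ≤ (A x + B x) ^ (p / 2) * W x :=
          mul_le_mul' (ENNReal.rpow_le_rpow e1 (by linarith)) le_rfl
      _ ≤ (2 ^ (p / 2) * ((A x) ^ (p / 2) + (B x) ^ (p / 2))) * W x :=
          mul_le_mul' (Suff3.add_rpow_le (by linarith)) le_rfl
      _ = 2 ^ (p / 2) * ((A x) ^ (p / 2) * W x + (B x) ^ (p / 2) * W x) := by ring
  have h2t : (2 : ℝ≥0∞) ^ (p / 2) ≠ ∞ :=
    ENNReal.rpow_ne_top_of_nonneg (by linarith) (by norm_num)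
  have hAW : AEMeasurable (fun x => (A x) ^ (p / 2) * W x) volume :=
    (hAm.pow_const (p / 2)).aemeasurable.mul hWm
  calc ∫⁻ x, (areaFn lam f x) ^ p * ENNReal.ofReal (U x)
      ≤ ∫⁻ x, 2 ^ (p / 2) * ((A x) ^ (p / 2) * W x + (B x) ^ (p / 2) * W x) :=
        lintegral_mono hsum
    _ = 2 ^ (p / 2) * ∫⁻ x, ((A x) ^ (p / 2) * W x + (B x) ^ (p / 2) * W x) :=
        lintegral_const_mul' _ _ h2t
    _ = 2 ^ (p / 2) * ((∫⁻ x, (A x) ^ (p / 2) * W x) + ∫⁻ x, (B x) ^ (p / 2) * W x) := by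
        congr 1
        exact lintegral_add_left' hAW _
    _ ≤ 2 ^ (p / 2) * (CL * (∫⁻ x, (ntMax b f x) ^ p * ENNReal.ofReal (U x)) +
          CH * ∫⁻ x, (ntMax b f x) ^ p * ENNReal.ofReal (U x)) :=
        mul_le_mul' le_rfl (add_le_add (hL f hf) (hH f hf))
    _ = ((2 ^ (p / 2) * (CL + CH) : ℝ≥0) : ℝ≥0∞) *
          ∫⁻ x, (ntMax b f x) ^ p * ENNReal.ofReal (U x) := by
        rw [← add_mul, ← mul_assoc]
        congr 1
        rw [ENNReal.coe_mul (2 ^ (p / 2)) (CL + CH), ENNReal.coe_add,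
          ENNReal.coe_rpow_of_nonneg (2 : ℝ≥0) (by linarith)]
        rfl

end Pool.Agent.Work.MP_055a27_an.Cr3

end

section

/-!
# Item Sun: the covering argument on a half line
-/

open MeasureTheory Set Filter Topology Complex Metric
open scoped ENNReal NNReal

namespace Pool.Agent.Work.MP_055a27_an.Cr3

namespace Sun

theorem short {e y0 ε : ℝ} (he : 0 < e) (h2 : y0 ≤ (1 + ε) * e) :
    ∫⁻ t in Icc e y0, ENNReal.ofReal (1 / t) ≤ ENNReal.ofReal ε := by
  calc ∫⁻ t in Icc e y0, ENNReal.ofReal (1 / t)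
      ≤ ∫⁻ _ in Icc e y0, ENNReal.ofReal (1 / e) := by
        refine setLIntegral_mono' measurableSet_Icc fun t ht => ?_
        exact ENNReal.ofReal_le_ofReal (one_div_le_one_div_of_le he ht.1)
    _ = ENNReal.ofReal (1 / e) * ENNReal.ofReal (y0 - e) := by
        rw [setLIntegral_const, Real.volume_Icc]
    _ = ENNReal.ofReal (1 / e * (y0 - e)) := by
        rw [ENNReal.ofReal_mul (by positivity)]
    _ ≤ ENNReal.ofReal ε := by
        refine ENNReal.ofReal_le_ofReal ?_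
        rw [one_div, inv_mul_le_iff₀ he]
        linarith

theorem main (D : ℝ → ℝ≥0∞) (Y Y' ε : ℝ) (hε : 0 < ε) (n : ℕ) :
    ∀ (H : Set ℝ) (δ : ℝ), 0 < δ → H ⊆ Ioc δ Y → Y ≤ 2 ^ n * δ →
    (∀ y ∈ H, ∃ y', 2 * y ≤ y' ∧ y' ≤ Y' ∧
      ∫⁻ t in Ioc y y', ENNReal.ofReal (1 / t) ≤ ∫⁻ t in Ioc y y', D t) →
    ∫⁻ t in H, ENNReal.ofReal (1 / t) ≤ (∫⁻ t in Ioc δ Y', D t) + n * ENNReal.ofReal ε := by
  induction n with
  | zero =>
    intro H δ hδ hH hY _
    have : H = ∅ := by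
      rw [eq_empty_iff_forall_notMem]
      intro x hx
      have h1 := hH hx
      rw [pow_zero, one_mul] at hY
      exact absurd (h1.1.trans_le h1.2) (not_lt.2 hY)
    rw [this]
    simp
  | succ n ih =>
    intro H δ hδ hH hY hy
    rcases H.eq_empty_or_nonempty with rfl | hne
    · simp
    set e := sInf H with he
    have hbdd : BddBelow H := ⟨δ, fun x hx => (hH hx).1.le⟩
    have heδ : δ ≤ e := le_csInf hne fun x hx => (hH hx).1.le
    have he0 : 0 < e := hδ.trans_le heδ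
    obtain ⟨y0, hy0, hy0e⟩ := exists_lt_of_csInf_lt hne
      (show sInf H < (1 + ε) * e by rw [← he]; nlinarith)
    have hey0 : e ≤ y0 := csInf_le hbdd hy0
    obtain ⟨y1, h1, h2, h3⟩ := hy y0 hy0
    have hy0pos : 0 < y0 := he0.trans_le hey0
    have hy01 : y0 ≤ y1 := by linarith
    have hsub : H ⊆ Icc e y0 ∪ (Ioc y0 y1 ∪ H ∩ Ioi y1) := by
      intro x hx
      have hex : e ≤ x := csInf_le hbdd hx
      rcases le_or_gt x y0 with h4 | h4
      · exact Or.inl ⟨hex, h4⟩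
      rcases le_or_gt x y1 with h5 | h5
      · exact Or.inr (Or.inl ⟨h4, h5⟩)
      · exact Or.inr (Or.inr ⟨hx, h5⟩)
    have hih := ih (H ∩ Ioi y1) y1 (hy0pos.trans_le hy01) (fun x hx => ⟨hx.2, (hH hx.1).2⟩)
      (by
        have h6 : (2 : ℝ) ^ (n + 1) * δ = 2 ^ n * (2 * δ) := by ring
        rw [h6] at hY
        refine hY.trans (mul_le_mul_of_nonneg_left ?_ (by positivity))
        linarith)
      (fun y hyH => hy y hyH.1)
    have hD : (∫⁻ t in Ioc y0 y1, D t) + (∫⁻ t in Ioc y1 Y', D t) ≤ ∫⁻ t in Ioc δ Y', D t := by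
      rw [← lintegral_union measurableSet_Ioc]
      · refine lintegral_mono_set ?_
        rw [Ioc_union_Ioc_eq_Ioc hy01 h2]
        exact Ioc_subset_Ioc_left (heδ.trans hey0)
      · rw [disjoint_left]
        intro x hx hx'
        exact absurd hx.2 (not_le.2 hx'.1)
    calc ∫⁻ t in H, ENNReal.ofReal (1 / t)
        ≤ ∫⁻ t in Icc e y0 ∪ (Ioc y0 y1 ∪ H ∩ Ioi y1), ENNReal.ofReal (1 / t) :=
          lintegral_mono_set hsub
      _ ≤ (∫⁻ t in Icc e y0, ENNReal.ofReal (1 / t)) +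
          (∫⁻ t in Ioc y0 y1 ∪ H ∩ Ioi y1, ENNReal.ofReal (1 / t)) := lintegral_union_le _ _ _
      _ ≤ ENNReal.ofReal ε + ((∫⁻ t in Ioc y0 y1, ENNReal.ofReal (1 / t)) +
          (∫⁻ t in H ∩ Ioi y1, ENNReal.ofReal (1 / t))) :=
          add_le_add (short he0 hy0e.le) (lintegral_union_le _ _ _)
      _ ≤ ENNReal.ofReal ε + ((∫⁻ t in Ioc y0 y1, D t) +
          ((∫⁻ t in Ioc y1 Y', D t) + n * ENNReal.ofReal ε)) :=
          add_le_add le_rfl (add_le_add h3 hih)
      _ = ((∫⁻ t in Ioc y0 y1, D t) + (∫⁻ t in Ioc y1 Y', D t)) +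
          (n + 1) * ENNReal.ofReal ε := by
          ring
      _ ≤ (∫⁻ t in Ioc δ Y', D t) + ((n + 1 : ℕ) : ℝ≥0∞) * ENNReal.ofReal ε := by
          push_cast
          exact add_le_add hD le_rfl

end Sun

theorem stSun : StSun := by
  intro H D δ Y Y' hδ _ _ hH hy
  obtain ⟨n, hn⟩ := pow_unbounded_of_one_lt (Y / δ) (one_lt_two : (1 : ℝ) < 2)
  have hY : Y ≤ 2 ^ n * δ := by
    rw [← div_le_iff₀ hδ]
    exact hn.le
  refine ENNReal.le_of_forall_pos_le_add fun ε hε _ => ?_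
  have hε' : (0 : ℝ) < ε / (n + 1) := by positivity
  refine (Sun.main D Y Y' (ε / (n + 1)) hε' n H δ hδ hH hY hy).trans ?_
  refine add_le_add le_rfl ?_
  have h1 : (n : ℝ≥0∞) = ENNReal.ofReal n := (ENNReal.ofReal_natCast n).symm
  rw [h1, ← ENNReal.ofReal_mul (by positivity)]
  have h2 : (ε : ℝ≥0∞) = ENNReal.ofReal ε := (ENNReal.ofReal_coe_nnreal).symm
  rw [h2]
  refine ENNReal.ofReal_le_ofReal ?_
  rw [mul_div_assoc', div_le_iff₀ (by positivity)]
  have : (0 : ℝ) ≤ ε := ε.2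
  nlinarith

end Pool.Agent.Work.MP_055a27_an.Cr3

end

section

/-!
# Growth in the vertical direction above a high point
-/

open MeasureTheory Set Filter Topology Complex Metric
open scoped ENNReal NNReal

namespace Pool.Agent.Work.MP_055a27_an.Cr3

open Crit (lg cc CC Pk hU)

namespace Vpp

lemma adm_intOn {f : ℝ → ℝ} (hf : Admissible f) (a c : ℝ) : IntegrableOn f (Icc a c) := by
  have h1 : IntegrableOn (fun t : ℝ => f t / (1 + t ^ 2)) (Icc a c) := Integrable.integrableOn hf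
  have h2 : ContinuousOn (fun t : ℝ => 1 + t ^ 2) (Icc a c) := by fun_prop
  have h3 := h1.mul_continuousOn h2 isCompact_Icc
  refine h3.congr_fun ?_ measurableSet_Icc
  intro t _
  have h4 : (1 + t ^ 2 : ℝ) ≠ 0 := by positivity
  simp only
  field_simp

lemma ker_lower {la y y0 s : ℝ} {n : ℕ} (hy : 0 < y) (hyy : y ≤ y0)
    (hs : |s| ≤ la * y) :
    1 / (1 + la ^ 2) ^ (n + 2) / y ≤
      y / (s ^ 2 + y ^ 2) * (1 / (1 + (s / y0) ^ 2)) ^ (n + 1) := by
  have hy0 : 0 < y0 := lt_of_lt_of_le hy hyy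
  have h1 : s ^ 2 ≤ (la * y) ^ 2 :=
    sq_le_sq' (by linarith [neg_abs_le s]) (le_trans (le_abs_self s) hs)
  have h2 : 1 / (1 + la ^ 2) / y ≤ y / (s ^ 2 + y ^ 2) := by
    rw [div_div, div_le_div_iff₀ (by positivity) (by positivity)]
    nlinarith
  have h3 : 1 / (1 + la ^ 2) ≤ 1 / (1 + (s / y0) ^ 2) := by
    apply one_div_le_one_div_of_le (by positivity)
    have h4 : (s / y0) ^ 2 ≤ la ^ 2 := by
      rw [div_pow, div_le_iff₀ (by positivity)]
      calc s ^ 2 ≤ (la * y) ^ 2 := h1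
        _ ≤ la ^ 2 * y0 ^ 2 := by rw [mul_pow]; gcongr
    linarith
  calc 1 / (1 + la ^ 2) ^ (n + 2) / y
      = (1 / (1 + la ^ 2) / y) * (1 / (1 + la ^ 2)) ^ (n + 1) := by
        rw [one_div_pow, pow_succ (1 + la ^ 2) (n + 1)]
        field_simp
    _ ≤ _ := by gcongr

lemma ker_upper {y y0 s ρ : ℝ} {n : ℕ} (hy : 0 < y) (hyy : y ≤ y0) (hρ : 0 < ρ)
    (hs : ρ ^ 2 ≤ 4 * (s ^ 2 + y ^ 2)) :
    y / (s ^ 2 + y ^ 2) * (1 / (1 + (s / y0) ^ 2)) ^ (n + 1) ≤
      4 * y / ρ ^ 2 * (min 1 (4 / (ρ / y0) ^ 2)) ^ (n + 1) := by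
  have hy0 : 0 < y0 := lt_of_lt_of_le hy hyy
  have h2 : y / (s ^ 2 + y ^ 2) ≤ 4 * y / ρ ^ 2 := by
    rw [div_le_div_iff₀ (by positivity) (by positivity)]
    nlinarith
  have h3 : 1 / (1 + (s / y0) ^ 2) ≤ min 1 (4 / (ρ / y0) ^ 2) := by
    apply le_min
    · rw [div_le_one (by positivity)]; nlinarith [sq_nonneg (s / y0)]
    · rw [div_le_div_iff₀ (by positivity) (by positivity), one_mul, div_pow, div_le_iff₀
        (by positivity)]
      have h4 : 4 * (1 + (s / y0) ^ 2) * y0 ^ 2 = 4 * (y0 ^ 2 + s ^ 2) := by field_simp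
      have h5 : y ^ 2 ≤ y0 ^ 2 := by gcongr
      rw [h4]
      nlinarith
  gcongr

lemma vr {r : ℝ} (hr : 0 < r) : min 1 (4 / r ^ 2) * r ≤ 2 := by
  rcases le_total r 2 with h | h
  · calc min 1 (4 / r ^ 2) * r ≤ 1 * r := by gcongr; exact min_le_left _ _
      _ ≤ 2 := by linarith
  · calc min 1 (4 / r ^ 2) * r ≤ (4 / r ^ 2) * r := by gcongr; exact min_le_right _ _
      _ = 4 / r := by field_simp
      _ ≤ 2 := by rw [div_le_iff₀ hr]; linarith

lemma tsum_split_le {T : ℕ → ℝ≥0∞} {A B : ℝ} (hA : 0 ≤ A) (hB : 0 ≤ B) (k1 : ℕ)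
    (h1 : ∀ k, k < k1 → T k ≤ ENNReal.ofReal (A * (3 / 4) ^ k))
    (h2 : ∀ l, T (l + k1) ≤ ENNReal.ofReal (B * (1 / 2) ^ l)) :
    ∑' k, T k ≤ ENNReal.ofReal (4 * A + 2 * B) := by
  have e1 : ∑' k : ℕ, ENNReal.ofReal (A * (3 / 4) ^ k) = ENNReal.ofReal (4 * A) := by
    rw [← ENNReal.ofReal_tsum_of_nonneg (fun n => by positivity)
      ((summable_geometric_of_lt_one (by norm_num) (by norm_num)).mul_left A), tsum_mul_left,
      tsum_geometric_of_lt_one (by norm_num) (by norm_num)]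
    congr 1
    norm_num
    ring
  have e2 : ∑' k : ℕ, ENNReal.ofReal (B * (1 / 2) ^ k) = ENNReal.ofReal (2 * B) := by
    rw [← ENNReal.ofReal_tsum_of_nonneg (fun n => by positivity)
      ((summable_geometric_of_lt_one (by norm_num) (by norm_num)).mul_left B), tsum_mul_left,
      tsum_geometric_of_lt_one (by norm_num) (by norm_num)]
    congr 1
    norm_num
    ring
  rw [← (ENNReal.summable (f := fun n => T (n + k1))).sum_add_tsum_nat_add' , ENNReal.ofReal_add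
    (by positivity) (by positivity), ← e1, ← e2]
  refine add_le_add ?_ (ENNReal.tsum_le_tsum h2)
  calc ∑ i ∈ Finset.range k1, T i
      ≤ ∑ i ∈ Finset.range k1, ENNReal.ofReal (A * (3 / 4) ^ i) :=
        Finset.sum_le_sum fun i hi => h1 i (Finset.mem_range.1 hi)
    _ ≤ _ := ENNReal.sum_le_tsum _

lemma geo_bd (k : ℕ) : ((k : ℝ) + 1) * (1 / 2) ^ k ≤ 2 * (3 / 4) ^ k := by
  have h1 : 1 + (k : ℝ) * (1 / 2) ≤ (1 + 1 / 2) ^ k :=
    one_add_mul_le_pow (by norm_num) k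
  have h2 : ((3 : ℝ) / 4) ^ k = (1 + 1 / 2) ^ k * (1 / 2) ^ k := by
    rw [← mul_pow]; norm_num
  rw [h2, ← mul_assoc]
  gcongr
  linarith

/-- The Jensen inequality together with the shadow condition. -/
lemma pos_part (hJen : StJen) {U : ℝ → ℝ} (hW : Wt U) {μ CS : ℝ} (hCS : 0 < CS)
    (hSh : ∀ z y : ℝ, 0 < y → ∫ t in Icc (z - μ * y) (z + μ * y), U t ≤
      CS * (y * Real.exp (poisson (lg U) z y)))
    {j0 : ℕ} (hj0 : 1 ≤ μ * 2 ^ j0) {x ρ a : ℝ} (hρ : 0 < ρ) :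
    ∫⁻ t in Icc (x - ρ) (x + ρ), ENNReal.ofReal (lg U t - a) ≤
      ENNReal.ofReal (2 * ρ * (Real.log (1 + CS * 2 ^ j0) +
        max 0 (poisson (lg U) x (2 ^ j0 * ρ) - a))) := by
  refine ((hJen U (x - ρ) (x + ρ) a hW (by linarith)).1).trans (ENNReal.ofReal_le_ofReal ?_)
  have e1 : x + ρ - (x - ρ) = 2 * ρ := by ring
  rw [e1]
  set h' := poisson (lg U) x (2 ^ j0 * ρ) with hh'
  set d := max 0 (h' - a) with hd
  have hU0 : ∀ t, 0 ≤ U t := hW.1.1
  have hI : ∫ t in Icc (x - ρ) (x + ρ), U t ≤ CS * ((2 ^ j0 * ρ) * Real.exp h') := by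
    refine le_trans ?_ (hSh x (2 ^ j0 * ρ) (by positivity))
    refine setIntegral_mono_set ?_ (ae_of_all _ hU0) ?_
    · exact hW.1.2.integrableOn_isCompact isCompact_Icc
    · refine (Icc_subset_Icc ?_ ?_).eventuallyLE
      · have : ρ ≤ μ * (2 ^ j0 * ρ) := by
          calc ρ = 1 * ρ := (one_mul ρ).symm
            _ ≤ (μ * 2 ^ j0) * ρ := by gcongr
            _ = _ := by ring
        linarith
      · have : ρ ≤ μ * (2 ^ j0 * ρ) := by
          calc ρ = 1 * ρ := (one_mul ρ).symm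
            _ ≤ (μ * 2 ^ j0) * ρ := by gcongr
            _ = _ := by ring
        linarith
  have hI0 : 0 ≤ ∫ t in Icc (x - ρ) (x + ρ), U t := integral_nonneg hU0
  have h1 : Real.exp (-a) * ((∫ t in Icc (x - ρ) (x + ρ), U t) / (2 * ρ)) ≤
      CS * 2 ^ j0 * Real.exp d := by
    have h2 : (∫ t in Icc (x - ρ) (x + ρ), U t) / (2 * ρ) ≤ CS * 2 ^ j0 * Real.exp h' := by
      rw [div_le_iff₀ (by positivity)]
      refine hI.trans ?_
      have : 0 < CS * 2 ^ j0 * ρ * Real.exp h' := by positivity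
      nlinarith
    calc Real.exp (-a) * ((∫ t in Icc (x - ρ) (x + ρ), U t) / (2 * ρ))
        ≤ Real.exp (-a) * (CS * 2 ^ j0 * Real.exp h') := by gcongr
      _ = CS * 2 ^ j0 * Real.exp (h' - a) := by rw [sub_eq_add_neg, Real.exp_add]; ring
      _ ≤ _ := by gcongr; exact le_max_right _ _
  have h3 : 1 + CS * 2 ^ j0 * Real.exp d ≤ (1 + CS * 2 ^ j0) * Real.exp d := by
    have : 1 ≤ Real.exp d := Real.one_le_exp (le_max_left _ _)
    nlinarith
  have h4 : Real.log (1 + Real.exp (-a) * ((∫ t in Icc (x - ρ) (x + ρ), U t) / (2 * ρ))) ≤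
      Real.log (1 + CS * 2 ^ j0) + d := by
    calc _ ≤ Real.log ((1 + CS * 2 ^ j0) * Real.exp d) := by
          apply Real.log_le_log
          · positivity
          · linarith
      _ = _ := by rw [Real.log_mul (by positivity) (by positivity), Real.log_exp]
  gcongr

/-- The pieces of the line. -/
def AA (x y : ℝ) (k : ℕ) : Set ℝ :=
  {t | (2 ^ k * y) ^ 2 ≤ 4 * ((x - t) ^ 2 + y ^ 2) ∧ |x - t| ≤ 2 ^ k * y}

lemma meas_AA (x y : ℝ) (k : ℕ) : MeasurableSet (AA x y k) := by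
  have h1 : MeasurableSet {t : ℝ | (2 ^ k * y) ^ 2 ≤ 4 * ((x - t) ^ 2 + y ^ 2)} :=
    measurableSet_le (by fun_prop) (by fun_prop)
  have h2 : MeasurableSet {t : ℝ | |x - t| ≤ 2 ^ k * y} :=
    measurableSet_le (by fun_prop) (by fun_prop)
  exact h1.inter h2

lemma cover_AA {x y : ℝ} (hy : 0 < y) : ⋃ k, AA x y k = univ := by
  classical
  rw [eq_univ_iff_forall]
  intro t
  have hex : ∃ k : ℕ, |x - t| ≤ 2 ^ k * y := by
    obtain ⟨k, hk⟩ := pow_unbounded_of_one_lt (|x - t| / y) (by norm_num : (1 : ℝ) < 2)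
    refine ⟨k, ?_⟩
    rw [div_lt_iff₀ hy] at hk
    exact hk.le
  rw [mem_iUnion]
  refine ⟨Nat.find hex, ?_, Nat.find_spec hex⟩
  rcases Nat.eq_zero_or_pos (Nat.find hex) with h | h
  · rw [h, pow_zero, one_mul]
    nlinarith [sq_nonneg (x - t), sq_nonneg y]
  · obtain ⟨j, hj⟩ : ∃ j, Nat.find hex = j + 1 := ⟨Nat.find hex - 1, by omega⟩
    have h1 := Nat.find_min hex (m := j) (by omega)
    push Not at h1
    have h2 : (2 ^ j * y) ^ 2 ≤ |x - t| ^ 2 := by gcongr
    rw [sq_abs] at h2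
    have h3 : (2 ^ (j + 1) * y) ^ 2 = 4 * (2 ^ j * y) ^ 2 := by ring
    rw [hj, h3]
    nlinarith [sq_nonneg y]

lemma term_le (hJen : StJen) {U : ℝ → ℝ} (hW : Wt U) {μ CS : ℝ} (hCS : 0 < CS)
    (hSh : ∀ z y : ℝ, 0 < y → ∫ t in Icc (z - μ * y) (z + μ * y), U t ≤
      CS * (y * Real.exp (poisson (lg U) z y)))
    {j0 : ℕ} (hj0 : 1 ≤ μ * 2 ^ j0) {x y y0 a C : ℝ} {N : ℕ} {κ : ℝ → ℝ} (hy : 0 < y)
    (hyy : y ≤ y0) (hC : 0 < C) (hκ0 : ∀ s, 0 ≤ κ s)
    (hκ : ∀ s, κ s ≤ C * (y / (s ^ 2 + y ^ 2) * (1 / (1 + (s / y0) ^ 2)) ^ (N + 1))) (k : ℕ) :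
    ∫⁻ t in AA x y k, ENNReal.ofReal ((lg U t - a) * κ (x - t)) ≤
      ENNReal.ofReal (8 * C * (1 / 2) ^ k * (min 1 (4 / (2 ^ k * y / y0) ^ 2)) ^ (N + 1) *
        (Real.log (1 + CS * 2 ^ j0) +
        max 0 (poisson (lg U) x (2 ^ j0 * (2 ^ k * y)) - a))) := by
  have hy0 : 0 < y0 := lt_of_lt_of_le hy hyy
  set v := (min 1 (4 / (2 ^ k * y / y0) ^ 2)) ^ (N + 1) with hv
  have hv0 : 0 ≤ v := by rw [hv]; positivity
  set M := C * (4 * y / (2 ^ k * y) ^ 2 * v) with hM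
  have hM0 : 0 ≤ M := by rw [hM]; positivity
  calc ∫⁻ t in AA x y k, ENNReal.ofReal ((lg U t - a) * κ (x - t))
      ≤ ∫⁻ t in AA x y k, ENNReal.ofReal (lg U t - a) * ENNReal.ofReal M := by
        refine setLIntegral_mono' (meas_AA x y k) ?_
        intro t ht
        rw [ENNReal.ofReal_mul' (hκ0 _)]
        gcongr
        refine (hκ _).trans ?_
        rw [hM, hv]
        gcongr ?_ * ?_
        exact ker_upper hy hyy (by positivity) ht.1
    _ = (∫⁻ t in AA x y k, ENNReal.ofReal (lg U t - a)) * ENNReal.ofReal M :=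
        lintegral_mul_const' _ _ ENNReal.ofReal_ne_top
    _ ≤ (∫⁻ t in Icc (x - 2 ^ k * y) (x + 2 ^ k * y), ENNReal.ofReal (lg U t - a)) *
          ENNReal.ofReal M := by
        gcongr
        intro t ht
        have h1 := abs_le.1 ht.2
        exact ⟨by linarith [h1.2], by linarith [h1.1]⟩
    _ ≤ ENNReal.ofReal (2 * (2 ^ k * y) * (Real.log (1 + CS * 2 ^ j0) +
        max 0 (poisson (lg U) x (2 ^ j0 * (2 ^ k * y)) - a))) * ENNReal.ofReal M := by
        gcongr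
        exact pos_part hJen hW hCS hSh hj0 (by positivity)
    _ = _ := by
        rw [← ENNReal.ofReal_mul' hM0]
        congr 1
        rw [hM]
        have h2 : ((1 : ℝ) / 2) ^ k = 1 / 2 ^ k := by rw [one_div_pow]
        rw [h2]
        field_simp
        ring

lemma upper (hJen : StJen) {U : ℝ → ℝ} (hW : Wt U) {μ CS : ℝ} (hCS : 0 < CS)
    (hSh : ∀ z y : ℝ, 0 < y → ∫ t in Icc (z - μ * y) (z + μ * y), U t ≤
      CS * (y * Real.exp (poisson (lg U) z y)))
    {j0 : ℕ} (hj0 : 1 ≤ μ * 2 ^ j0) {x y y0 a C : ℝ} {N : ℕ} {κ : ℝ → ℝ} (hy : 0 < y)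
    (hyy : y ≤ y0) (hC : 0 < C) (hκ0 : ∀ s, 0 ≤ κ s)
    (hκ : ∀ s, κ s ≤ C * (y / (s ^ 2 + y ^ 2) * (1 / (1 + (s / y0) ^ 2)) ^ (N + 1)))
    {K CG B m : ℝ} (hK : 1 ≤ K) (hCG : 0 ≤ CG) (hB : 0 ≤ B) (hm : 1 ≤ m) (hmy : m * y ≤ y0)
    (hd1 : ∀ k : ℕ, 2 ^ (k + j0) * y ≤ K * y0 →
      poisson (lg U) x (2 ^ (k + j0) * y) - a ≤ k + j0)
    (hd2 : ∀ k : ℕ, K * y0 < 2 ^ (k + j0) * y →
      poisson (lg U) x (2 ^ (k + j0) * y) - a ≤
        CG * m * (2 ^ (k + j0) * y / y0) ^ N + B * m) :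
    ∫⁻ t, ENNReal.ofReal ((lg U t - a) * κ (x - t)) ≤
      ENNReal.ofReal (4 * (16 * C * (Real.log (1 + CS * 2 ^ j0) + j0 + 1)) +
        2 * (8 * C * (Real.log (1 + CS * 2 ^ j0) + CG * (2 ^ j0) ^ N * 2 ^ N + B) * 2 ^ j0)) := by
  classical
  have hy0 : 0 < y0 := lt_of_lt_of_le hy hyy
  set C2 := Real.log (1 + CS * 2 ^ j0) with hC2
  have hC20 : 0 ≤ C2 := Real.log_nonneg (by
    have : 0 < CS * 2 ^ j0 := by positivity
    linarith)
  have hex : ∃ k : ℕ, K * y0 < 2 ^ (k + j0) * y := by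
    obtain ⟨k, hk⟩ := pow_unbounded_of_one_lt (K * y0 / y) (by norm_num : (1 : ℝ) < 2)
    refine ⟨k, ?_⟩
    rw [div_lt_iff₀ hy] at hk
    refine hk.trans_le ?_
    gcongr
    · norm_num
    · omega
  set k1 := Nat.find hex with hk1
  have hk1s : K * y0 < 2 ^ (k1 + j0) * y := Nat.find_spec hex
  have hk1m : ∀ k, k < k1 → 2 ^ (k + j0) * y ≤ K * y0 := by
    intro k hk
    have := Nat.find_min hex hk
    push Not at this
    exact this
  have e0 : ∀ k : ℕ, (2 : ℝ) ^ j0 * (2 ^ k * y) = 2 ^ (k + j0) * y := by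
    intro k; rw [pow_add]; ring
  calc ∫⁻ t, ENNReal.ofReal ((lg U t - a) * κ (x - t))
      = ∫⁻ t in ⋃ k, AA x y k, ENNReal.ofReal ((lg U t - a) * κ (x - t)) := by
        rw [cover_AA hy, Measure.restrict_univ]
    _ ≤ ∑' k, ∫⁻ t in AA x y k, ENNReal.ofReal ((lg U t - a) * κ (x - t)) :=
        lintegral_iUnion_le _ _
    _ ≤ _ := by
        refine tsum_split_le (by positivity) (by positivity) k1 ?_ ?_
        · intro k hk
          refine (term_le hJen hW hCS hSh hj0 hy hyy hC hκ0 hκ k).trans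
            (ENNReal.ofReal_le_ofReal ?_)
          rw [← hC2, e0]
          have h1 := hd1 k (hk1m k hk)
          have h2 : max 0 (poisson (lg U) x (2 ^ (k + j0) * y) - a) ≤ k + j0 :=
            max_le (by positivity) h1
          have h3 : (min 1 (4 / (2 ^ k * y / y0) ^ 2)) ^ (N + 1) ≤ 1 :=
            pow_le_one₀ (by positivity) (min_le_left _ _)
          calc 8 * C * (1 / 2) ^ k * (min 1 (4 / (2 ^ k * y / y0) ^ 2)) ^ (N + 1) *
                (C2 + max 0 (poisson (lg U) x (2 ^ (k + j0) * y) - a))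
              ≤ 8 * C * (1 / 2) ^ k * 1 * (C2 + (k + j0)) := by gcongr
            _ ≤ 8 * C * (C2 + j0 + 1) * (((k : ℝ) + 1) * (1 / 2) ^ k) := by
                have h4 : C2 + ((k : ℝ) + j0) ≤ (C2 + j0 + 1) * (k + 1) := by
                  have : 0 ≤ (C2 + j0) * k := by positivity
                  nlinarith
                calc 8 * C * (1 / 2) ^ k * 1 * (C2 + (k + j0))
                    ≤ 8 * C * (1 / 2) ^ k * 1 * ((C2 + j0 + 1) * (k + 1)) := by gcongr
                  _ = _ := by ring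
            _ ≤ 8 * C * (C2 + j0 + 1) * (2 * (3 / 4) ^ k) := by
                exact mul_le_mul_of_nonneg_left (geo_bd k) (by positivity)
            _ = _ := by ring
        · intro l
          refine (term_le hJen hW hCS hSh hj0 hy hyy hC hκ0 hκ (l + k1)).trans
            (ENNReal.ofReal_le_ofReal ?_)
          rw [← hC2, e0]
          have h0 : K * y0 < 2 ^ (l + k1 + j0) * y := by
            refine hk1s.trans_le ?_
            gcongr
            · norm_num
            · omega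
          have h1 := hd2 (l + k1) h0
          have h2 : max 0 (poisson (lg U) x (2 ^ (l + k1 + j0) * y) - a) ≤
              CG * m * (2 ^ (l + k1 + j0) * y / y0) ^ N + B * m :=
            max_le (by positivity) h1
          set r := 2 ^ (l + k1) * y / y0 with hr
          have hr0 : 0 < r := by rw [hr]; positivity
          set v := min 1 (4 / r ^ 2) with hv
          have hv0 : 0 ≤ v := by rw [hv]; positivity
          have hv1 : v ≤ 1 := min_le_left _ _
          have hvr : v * r ≤ 2 := vr hr0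
          have h3 : 2 ^ (l + k1 + j0) * y / y0 = 2 ^ j0 * r := by
            rw [hr, pow_add _ (l + k1) j0]; ring
          rw [h3] at h2
          have h4 : v ^ (N + 1) ≤ 1 := pow_le_one₀ hv0 hv1
          have h5 : v ^ (N + 1) * (2 ^ j0 * r) ^ N ≤ (2 ^ j0) ^ N * 2 ^ N := by
            calc v ^ (N + 1) * (2 ^ j0 * r) ^ N = (2 ^ j0) ^ N * (v * r) ^ N * v := by
                  rw [mul_pow, mul_pow, pow_succ]; ring
              _ ≤ (2 ^ j0) ^ N * 2 ^ N * 1 := by gcongr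
              _ = _ := by ring
          have h6 : v ^ (N + 1) * (C2 + (CG * m * (2 ^ j0 * r) ^ N + B * m)) ≤
              (C2 + CG * (2 ^ j0) ^ N * 2 ^ N + B) * m := by
            calc v ^ (N + 1) * (C2 + (CG * m * (2 ^ j0 * r) ^ N + B * m))
                = v ^ (N + 1) * C2 + CG * m * (v ^ (N + 1) * (2 ^ j0 * r) ^ N) +
                    v ^ (N + 1) * (B * m) := by ring
              _ ≤ 1 * C2 + CG * m * ((2 ^ j0) ^ N * 2 ^ N) + 1 * (B * m) := by gcongr
              _ ≤ _ := by nlinarith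
          have h7 : m * (1 / 2) ^ k1 ≤ 2 ^ j0 := by
            have h8 : y0 ≤ 2 ^ k1 * (2 ^ j0 * y) := by
              have : y0 ≤ K * y0 := by nlinarith
              calc y0 ≤ K * y0 := this
                _ ≤ 2 ^ (k1 + j0) * y := hk1s.le
                _ = _ := by rw [pow_add]; ring
            rw [one_div_pow, mul_one_div, div_le_iff₀ (by positivity)]
            have h9 : m * y ≤ 2 ^ j0 * 2 ^ k1 * y := by
              calc m * y ≤ y0 := hmy
                _ ≤ _ := h8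
                _ = _ := by ring
            exact le_of_mul_le_mul_right h9 hy
          calc 8 * C * (1 / 2) ^ (l + k1) * v ^ (N + 1) *
                (C2 + max 0 (poisson (lg U) x (2 ^ (l + k1 + j0) * y) - a))
              ≤ 8 * C * (1 / 2) ^ (l + k1) * v ^ (N + 1) *
                (C2 + (CG * m * (2 ^ j0 * r) ^ N + B * m)) := by gcongr
            _ = 8 * C * (1 / 2) ^ (l + k1) * (v ^ (N + 1) *
                (C2 + (CG * m * (2 ^ j0 * r) ^ N + B * m))) := by ring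
            _ ≤ 8 * C * (1 / 2) ^ (l + k1) * ((C2 + CG * (2 ^ j0) ^ N * 2 ^ N + B) * m) := by
                gcongr
            _ = 8 * C * (C2 + CG * (2 ^ j0) ^ N * 2 ^ N + B) * (m * (1 / 2) ^ k1) *
                  (1 / 2) ^ l := by rw [pow_add]; ring
            _ ≤ 8 * C * (C2 + CG * (2 ^ j0) ^ N * 2 ^ N + B) * (2 ^ j0) *
                  (1 / 2) ^ l := by gcongr

/-- The lower bound for the negative part. -/
lemma near (hBas : StBas) (hJen : StJen) {U : ℝ → ℝ} (hW : Wt U) {la x y y0 C : ℝ} {N : ℕ}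
    {κ : ℝ → ℝ} (hla : 0 < la) (hy : 0 < y) (hyy : y ≤ y0) (hC : 0 < C)
    (hκ : ∀ s, y / (s ^ 2 + y ^ 2) * (1 / (1 + (s / y0) ^ 2)) ^ (N + 1) ≤ C * κ s) :
    ENNReal.ofReal (2 * la * (1 / (1 + la ^ 2) ^ (N + 2) / C) *
      (gg la U x y + Real.log (2 * la))) ≤
      ∫⁻ t, ENNReal.ofReal (-((lg U t - poisson (lg U) x y) * κ (x - t))) := by
  set a := poisson (lg U) x y with ha
  set c1 := 1 / (1 + la ^ 2) ^ (N + 2) / C with hc1
  have hc10 : 0 < c1 := by rw [hc1]; positivity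
  have hκl : ∀ s, |s| ≤ la * y → c1 / y ≤ κ s := by
    intro s hs
    have h1 := (ker_lower (n := N) hy hyy hs).trans (hκ s)
    rw [hc1]
    rw [div_div, div_le_iff₀ (by positivity)]
    rw [div_le_iff₀ hy] at h1
    linarith
  have hint : IntegrableOn (lg U) (Icc (x - la * y) (x + la * y)) := adm_intOn hW.2.2 _ _
  have hint3 : IntegrableOn (fun _ : ℝ => a) (Icc (x - la * y) (x + la * y)) :=
    integrableOn_const (by simp)
  have hint2 : IntegrableOn (fun t => a - lg U t) (Icc (x - la * y) (x + la * y)) :=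
    hint3.sub hint
  have hav : 0 < avg la U x y := hBas.1 la U x y hla hy hW
  have hJ := (hJen U (x - la * y) (x + la * y) a hW (by nlinarith)).2
  have e1 : x + la * y - (x - la * y) = 2 * la * y := by ring
  rw [e1] at hJ
  have e2 : Real.log ((∫ t in Icc (x - la * y) (x + la * y), U t) / (2 * la * y)) =
      a - gg la U x y - Real.log (2 * la) := by
    have h1 : (∫ t in Icc (x - la * y) (x + la * y), U t) / (2 * la * y) =
        avg la U x y / (2 * la) := by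
      rw [avg, div_div, mul_comm y]
    rw [h1, Real.log_div hav.ne' (by positivity), gg, LL]
    ring
  rw [e2, div_le_iff₀ (by positivity)] at hJ
  have h2 : 2 * la * y * (gg la U x y + Real.log (2 * la)) ≤
      ∫ t in Icc (x - la * y) (x + la * y), (a - lg U t) := by
    rw [integral_sub hint3 hint, setIntegral_const]
    have : volume.real (Icc (x - la * y) (x + la * y)) = 2 * la * y := by
      rw [Real.volume_real_Icc_of_le (by nlinarith)]; ring
    rw [this, smul_eq_mul]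
    nlinarith
  have h3 : ∫ t in Icc (x - la * y) (x + la * y), (a - lg U t) ≤
      (∫⁻ t in Icc (x - la * y) (x + la * y), ENNReal.ofReal (a - lg U t)).toReal := by
    rw [integral_eq_lintegral_pos_part_sub_lintegral_neg_part hint2]
    have : 0 ≤ (∫⁻ t in Icc (x - la * y) (x + la * y), ENNReal.ofReal (-(a - lg U t))).toReal :=
      ENNReal.toReal_nonneg
    linarith
  have h4 : ENNReal.ofReal (2 * la * y * (gg la U x y + Real.log (2 * la))) ≤
      ∫⁻ t in Icc (x - la * y) (x + la * y), ENNReal.ofReal (a - lg U t) :=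
    ENNReal.ofReal_le_of_le_toReal (h2.trans h3)
  calc ENNReal.ofReal (2 * la * c1 * (gg la U x y + Real.log (2 * la)))
      = ENNReal.ofReal (2 * la * y * (gg la U x y + Real.log (2 * la))) *
          ENNReal.ofReal (c1 / y) := by
        rw [← ENNReal.ofReal_mul' (by positivity)]
        congr 1
        field_simp
    _ ≤ (∫⁻ t in Icc (x - la * y) (x + la * y), ENNReal.ofReal (a - lg U t)) *
          ENNReal.ofReal (c1 / y) := by gcongr
    _ = ∫⁻ t in Icc (x - la * y) (x + la * y), ENNReal.ofReal (a - lg U t) *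
          ENNReal.ofReal (c1 / y) := (lintegral_mul_const' _ _ ENNReal.ofReal_ne_top).symm
    _ ≤ ∫⁻ t in Icc (x - la * y) (x + la * y),
          ENNReal.ofReal (-((lg U t - a) * κ (x - t))) := by
        refine setLIntegral_mono' measurableSet_Icc ?_
        intro t ht
        have h5 : |x - t| ≤ la * y := abs_le.2 ⟨by linarith [ht.2], by linarith [ht.1]⟩
        have h6 := hκl _ h5
        have h7 : 0 < c1 / y := by positivity
        have e3 : -((lg U t - a) * κ (x - t)) = (a - lg U t) * κ (x - t) := by ring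
        rw [e3, ENNReal.ofReal_mul' (h7.le.trans h6)]
        gcongr
    _ ≤ _ := setLIntegral_le_lintegral _ _

end Vpp

theorem stVpp (hBas : StBas) (hJen : StJen) (hGr : StGr) (hRep : StRep) : StVpp := by
  intro la μ U hH R hR
  obtain ⟨hla, hlm, hW, CS, hCS, hSh⟩ := id hH
  have hμ : 0 < μ := hla.trans hlm
  set K := max 2 (1 + 2 * R / μ) with hKd
  have hK2 : 2 ≤ K := le_max_left _ _
  have hKR : 1 + 2 * R / μ ≤ K := le_max_right _ _
  obtain ⟨CG, N, hCG, hG⟩ := hGr la μ U hH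
  obtain ⟨C, hC, hRe⟩ := hRep la μ U hH R 1 N hR le_rfl
  obtain ⟨j0, hj0, hj01⟩ : ∃ j0 : ℕ, 1 ≤ μ * 2 ^ j0 ∧ 1 ≤ j0 := by
    obtain ⟨j, hj⟩ := pow_unbounded_of_one_lt (1 / μ) (by norm_num : (1 : ℝ) < 2)
    refine ⟨j + 1, ?_, by omega⟩
    rw [div_lt_iff₀ hμ] at hj
    rw [pow_succ]
    nlinarith
  refine ⟨K, hK2, ?_⟩
  intro B hB
  set c1 := 1 / (1 + la ^ 2) ^ (N + 2) / C with hc1
  have hC0 : 0 < C := by linarith
  have hc10 : 0 < c1 := by rw [hc1]; positivity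
  set PT := 4 * (16 * C * (Real.log (1 + CS * 2 ^ j0) + j0 + 1)) +
        2 * (8 * C * (Real.log (1 + CS * 2 ^ j0) + CG * (2 ^ j0) ^ N * 2 ^ N + B) * 2 ^ j0)
    with hPT
  have hPT0 : 0 ≤ PT := by
    have : 0 ≤ Real.log (1 + CS * 2 ^ j0) := Real.log_nonneg (by
      have : 0 < CS * 2 ^ j0 := by positivity
      linarith)
    rw [hPT]
    positivity
  refine ⟨max 1 ((PT + C * (1 + B)) / (2 * la * c1) - Real.log (2 * la) + 1),
    le_max_left _ _, ?_⟩
  intro z0 y0 m x y hRt hx hy hmy hosc hms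
  by_contra hcon
  push Not at hcon
  have hm : 1 ≤ m := hRt.2.1
  have hy0 : 0 < y0 := hRt.1
  have hyy : y ≤ y0 := by nlinarith
  obtain ⟨κ, hκc, hκ, hκI⟩ := hRe z0 y0 m y hRt hy (by linarith)
  set a := poisson (lg U) x y with ha
  obtain ⟨hfi, hf1⟩ := hκI x a hx
  have hκ0 : ∀ s, 0 ≤ κ s := by
    intro s
    have h1 := (hκ s).1
    have h2 : 0 ≤ y / (s ^ 2 + y ^ 2) * (1 / (1 + (s / y0) ^ 2)) ^ (N + 1) := by positivity
    exact nonneg_of_mul_nonneg_right (h2.trans h1) hC0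
  have haL : |a - LL la U z0 y0| ≤ B * m := hosc y le_rfl (by nlinarith)
  -- the integral
  have h1 : |∫ t, (lg U t - a) * κ (x - t)| ≤ C * (1 + B) := by
    have h2 : |∫ t, (lg U t - a) * κ (x - t)| ≤ C * (y / y0) * (m + |a - LL la U z0 y0|) := by
      rw [sub_self, zero_sub, abs_neg] at hf1
      exact hf1
    refine h2.trans ?_
    have h3 : m * y / y0 ≤ 1 := by rw [div_le_one hy0]; exact hmy
    calc C * (y / y0) * (m + |a - LL la U z0 y0|) ≤ C * (y / y0) * (m + B * m) := by gcongr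
      _ = C * (1 + B) * (m * y / y0) := by ring
      _ ≤ C * (1 + B) * 1 := by gcongr
      _ = _ := by ring
  have hup := Vpp.upper (x := x) (a := a) (K := K) (CG := CG) (B := B) (m := m) hJen hW hCS hSh hj0 hy hyy
    hC0 hκ0 (fun s => (hκ s).2) (by linarith) (by linarith) (by linarith) hm hmy ?_ ?_
  · have hnear := Vpp.near (x := x) hBas hJen hW hla hy hyy hC0 (fun s => (hκ s).1)
    rw [← ha, ← hc1] at hnear
    rw [← hPT] at hup
    have hNfin : ∫⁻ t, ENNReal.ofReal (-((lg U t - a) * κ (x - t))) ≠ ∞ :=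
      (hfi.neg.lintegral_lt_top).ne
    have hI := integral_eq_lintegral_pos_part_sub_lintegral_neg_part hfi
    have h4 : (∫⁻ t, ENNReal.ofReal ((lg U t - a) * κ (x - t))).toReal ≤ PT :=
      ENNReal.toReal_le_of_le_ofReal hPT0 hup
    have h5 : 2 * la * c1 * (gg la U x y + Real.log (2 * la)) ≤
        (∫⁻ t, ENNReal.ofReal (-((lg U t - a) * κ (x - t)))).toReal :=
      (ENNReal.ofReal_le_iff_le_toReal hNfin).1 hnear
    have h6 := (abs_le.1 h1).1
    rw [hI] at h6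
    have h7 : 2 * la * c1 * (gg la U x y + Real.log (2 * la)) ≤ PT + C * (1 + B) := by linarith
    have h8 : gg la U x y + Real.log (2 * la) ≤ (PT + C * (1 + B)) / (2 * la * c1) := by
      rw [le_div_iff₀ (by positivity)]
      linarith
    have h9 := le_trans (le_max_right _ _) hms
    linarith
  · intro k hk
    have h2 : 2 * y ≤ 2 ^ (k + j0) * y := by
      gcongr
      calc (2 : ℝ) = 2 ^ 1 := (pow_one _).symm
        _ ≤ 2 ^ (k + j0) := pow_le_pow_right₀ (by norm_num) (by omega)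
    have h3 := hcon _ h2 hk
    have h4 : Real.log (2 ^ (k + j0) * y / y) = (k + j0 : ℕ) * Real.log 2 := by
      rw [mul_div_assoc, div_self hy.ne', mul_one, Real.log_pow]
    rw [h4] at h3
    have h5 : Real.log 2 ≤ 1 := by linarith [Real.log_two_lt_d9]
    have h6 : ((k + j0 : ℕ) : ℝ) * Real.log 2 ≤ (k + j0 : ℕ) * 1 := by gcongr
    push_cast at h6 h3
    linarith
  · intro k hk
    have h2 : y0 ≤ 2 ^ (k + j0) * y := by nlinarith
    have h3 : |x - z0| ≤ μ / 2 * (2 ^ (k + j0) * y - y0) := by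
      refine hx.trans ?_
      have h4 : (1 + 2 * R / μ) * y0 ≤ 2 ^ (k + j0) * y :=
        (mul_le_mul_of_nonneg_right hKR hy0.le).trans hk.le
      calc R * y0 = μ / 2 * ((1 + 2 * R / μ) * y0 - y0) := by field_simp; ring
        _ ≤ _ := by gcongr
    have h5 := hG z0 y0 m x (2 ^ (k + j0) * y) hRt h2 h3
    have h6 := (abs_le.1 h5).2
    have h7 := (abs_le.1 haL).1
    linarith

end Pool.Agent.Work.MP_055a27_an.Cr3

end

section

/-!
# Item Ainf2: the `A_∞` inequality near low points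
-/

set_option autoImplicit false

open MeasureTheory Set Filter Topology Complex Metric
open scoped ENNReal NNReal

namespace Pool.Agent.Work.MP_055a27_an.Cr3

open Crit (lg cc CC Pk hU)
open Nv (mx)

theorem stAinf2 (hAinf : StAinf) : StAinf2 := by
  intro la μ R m0 lam U hH hR hm0 hlam
  have hla : 0 < la := hH.1
  obtain ⟨R', hR'⟩ : ∃ R' : ℝ, R' = R + 2 * la + lam + 1 := ⟨_, rfl⟩
  have hR'0 : 0 < R' := by rw [hR']; positivity
  obtain ⟨C, ε, hC, hε, h⟩ := hAinf la μ (2 * (5 * R' + R)) m0 U hH (by positivity) hm0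
  refine ⟨R', C * (2 : ℝ) ^ ε, ε, by rw [hR']; linarith, by positivity, hε, ?_⟩
  rintro q ⟨hq, w, hw1, hw2, hw3, hw4⟩ E hE hsub
  have hw0 : 0 < w.2 := by linarith
  have hw1' := abs_le.1 hw1
  have h1 := h w.1 w.2 hw0 hw4 E hE (fun x hx => by
    have h2 := hsub hx
    rw [mem_Icc] at h2 ⊢
    have h3 : (5 * R' + R) * q.2 ≤ 2 * (5 * R' + R) * w.2 := by
      have : (5 * R' + R) * q.2 ≤ (5 * R' + R) * (2 * w.2) :=
        mul_le_mul_of_nonneg_left (by linarith) (by positivity)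
      linarith
    constructor
    · nlinarith
    · nlinarith)
  refine h1.trans (mul_le_mul' (ENNReal.ofReal_le_ofReal ?_) (measure_mono ?_))
  · rw [mul_assoc]
    refine mul_le_mul_of_nonneg_left ?_ hC.le
    rw [← Real.mul_rpow (by norm_num) (by positivity)]
    refine Real.rpow_le_rpow (by positivity) ?_ hε.le
    rw [div_le_iff₀ hw0]
    have h3 : 2 * (volume.real E / q.2) * w.2 = volume.real E * (2 * w.2 / q.2) := by
      field_simp
    rw [h3]
    have h4 : 1 ≤ 2 * w.2 / q.2 := by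
      rw [le_div_iff₀ hq]
      linarith
    have h5 : 0 ≤ volume.real E := measureReal_nonneg
    nlinarith
  · intro x hx
    rw [mem_Icc] at hx ⊢
    have h3 : la * w.2 ≤ la * (2 * q.2) := mul_le_mul_of_nonneg_left hw3 hla.le
    have h4 : R' * q.2 = R * q.2 + la * (2 * q.2) + (lam + 1) * q.2 := by
      rw [hR']
      ring
    have h5 : 0 ≤ (lam + 1) * q.2 := by positivity
    constructor
    · linarith [hx.1, hw1'.1]
    · linarith [hx.2, hw1'.2]

end Pool.Agent.Work.MP_055a27_an.Cr3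

end

section

/-!
# Item 44: the three circles theorem for the radii `r`, `2 r`, `4 r`
-/

open MeasureTheory Set Filter Topology Complex Metric
open scoped ENNReal NNReal

namespace Pool.Agent.Work.MP_055a27_an.Cr3

namespace Circ

theorem half (x : ℝ) (hx : 0 ≤ x) : x = x ^ (1 / 2 : ℝ) * x ^ (1 / 2 : ℝ) := by
  rw [← Real.rpow_add_of_nonneg hx (by norm_num) (by norm_num)]
  norm_num

end Circ

theorem stCirc : StCirc := by
  intro G c r A N hr hG hN hA w hw
  have hA0 : 0 ≤ A := (norm_nonneg _).trans (hA c (mem_ball_self hr))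
  have hN0 : 0 ≤ N := (norm_nonneg _).trans (hN c (mem_ball_self (by positivity)))
  by_cases hwc : w = c
  · subst hwc
    have h1 : ‖G w‖ ≤ A := hA w (mem_ball_self hr)
    have h2 : ‖G w‖ ≤ N := hN w (mem_ball_self (by positivity))
    calc ‖G w‖ = ‖G w‖ ^ (1 / 2 : ℝ) * ‖G w‖ ^ (1 / 2 : ℝ) := Circ.half _ (norm_nonneg _)
      _ ≤ A ^ (1 / 2 : ℝ) * N ^ (1 / 2 : ℝ) :=
        mul_le_mul (Real.rpow_le_rpow (norm_nonneg _) h1 (by norm_num))
          (Real.rpow_le_rpow (norm_nonneg _) h2 (by norm_num))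
          (Real.rpow_nonneg (norm_nonneg _) _) (Real.rpow_nonneg hA0 _)
  · obtain ⟨ρ, hρd⟩ : ∃ ρ : ℝ, ρ = ‖w - c‖ := ⟨_, rfl⟩
    have hρ : 0 < ρ := by
      rw [hρd]
      exact norm_pos_iff.2 (sub_ne_zero.2 hwc)
    have hρ2 : ρ < 2 * r := by
      rw [mem_ball, dist_eq_norm] at hw
      rw [hρd]
      exact hw
    have hlog2 : 0 < Real.log 2 := Real.log_pos (by norm_num)
    have hl : Real.log (ρ / 2) = Real.log ρ - Real.log 2 := Real.log_div hρ.ne' (by norm_num)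
    have hu : Real.log (2 * ρ) = Real.log 2 + Real.log ρ :=
      Real.log_mul (by norm_num) hρ.ne'
    have hlu : Real.log (ρ / 2) < Real.log (2 * ρ) := by
      rw [hl, hu]
      linarith
    have hn : ∀ ζ : ℂ, ζ.re ≤ Real.log (2 * ρ) → c + exp ζ ∈ ball c (4 * r) := by
      intro ζ h
      rw [mem_ball, dist_eq_norm, add_sub_cancel_left, Complex.norm_exp]
      calc Real.exp ζ.re ≤ Real.exp (Real.log (2 * ρ)) := Real.exp_le_exp.2 h
        _ = 2 * ρ := Real.exp_log (by positivity)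
        _ < 4 * r := by linarith
    have hdiff : ∀ ζ : ℂ, ζ.re ≤ Real.log (2 * ρ) →
        DifferentiableAt ℂ (fun ζ => G (c + exp ζ)) ζ := by
      intro ζ h
      have h1 : DifferentiableAt ℂ G (c + exp ζ) :=
        hG.differentiableAt (isOpen_ball.mem_nhds (hn ζ h))
      have h2 : DifferentiableAt ℂ (fun ζ : ℂ => c + exp ζ) ζ :=
        (differentiableAt_const c).add Complex.differentiable_exp.differentiableAt
      exact DifferentiableAt.comp ζ h1 h2
    have hd : DiffContOnCl ℂ (fun ζ => G (c + exp ζ))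
        (HadamardThreeLines.verticalStrip (Real.log (ρ / 2)) (Real.log (2 * ρ))) := by
      apply DifferentiableOn.diffContOnCl
      intro ζ hζ
      have hcl : closure (HadamardThreeLines.verticalStrip (Real.log (ρ / 2))
          (Real.log (2 * ρ))) ⊆ {ζ : ℂ | ζ.re ≤ Real.log (2 * ρ)} := by
        apply closure_minimal
        · intro z hz
          exact (mem_preimage.1 hz).2.le
        · exact isClosed_le Complex.continuous_re continuous_const
      exact (hdiff ζ (hcl hζ)).differentiableWithinAt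
    have hB : BddAbove ((norm ∘ fun ζ => G (c + exp ζ)) ''
        HadamardThreeLines.verticalClosedStrip (Real.log (ρ / 2)) (Real.log (2 * ρ))) := by
      refine ⟨N, ?_⟩
      rintro _ ⟨ζ, hζ, rfl⟩
      exact hN _ (hn ζ (mem_preimage.1 hζ).2)
    have hexp : exp (Complex.log (w - c)) = w - c := Complex.exp_log (sub_ne_zero.2 hwc)
    have hre : (Complex.log (w - c)).re = Real.log ρ := by
      rw [Complex.log_re, hρd]
    have key := HadamardThreeLines.norm_le_interp_of_mem_verticalClosedStrip'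
      (f := fun ζ => G (c + exp ζ)) (z := Complex.log (w - c)) (a := A) (b := N) hlu (by
        refine mem_preimage.2 ⟨?_, ?_⟩
        · rw [hre, hl]
          linarith
        · rw [hre, hu]
          linarith) hd hB (by
        intro ζ hζ
        have h1 : ζ.re = Real.log (ρ / 2) := hζ
        refine hA _ ?_
        rw [mem_ball, dist_eq_norm, add_sub_cancel_left, Complex.norm_exp, h1,
          Real.exp_log (by positivity)]
        linarith) (by
        intro ζ hζ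
        have h1 : ζ.re = Real.log (2 * ρ) := hζ
        exact hN _ (hn ζ h1.le))
    have e1 : ((Complex.log (w - c)).re - Real.log (ρ / 2)) /
        (Real.log (2 * ρ) - Real.log (ρ / 2)) = 1 / 2 := by
      rw [hre, hl, hu]
      have h1 : Real.log ρ - (Real.log ρ - Real.log 2) = Real.log 2 := by ring
      have h2 : Real.log 2 + Real.log ρ - (Real.log ρ - Real.log 2) = 2 * Real.log 2 := by ring
      rw [h1, h2]
      field_simp
    rw [e1] at key
    have e2 : (1 : ℝ) - 1 / 2 = 1 / 2 := by norm_num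
    rw [e2, hexp, add_sub_cancel] at key
    exact key

end Pool.Agent.Work.MP_055a27_an.Cr3

end

section

/-!
# Propagation of smallness inside a cone
-/

open MeasureTheory Set Filter Topology Complex Metric
open scoped ENNReal NNReal

namespace Pool.Agent.Work.MP_055a27_an.Cr3

namespace PropA

/-- The choice of the small ratio. -/
lemma exists_rho {lam b1 μ1 : ℝ} (h1 : 0 < μ1) (hlam : 0 < lam) (hb1 : lam < b1) :
    ∃ ρ : ℝ, 0 < ρ ∧ ρ ≤ 1 / 8 ∧ ρ * (1 + μ1) ≤ μ1 ∧ 4 * ρ * (1 + b1) ≤ b1 - lam := by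
  have hb : 0 < b1 := hlam.trans hb1
  have h3 : 0 < b1 - lam := by linarith
  refine ⟨min (1 / 8) (min (μ1 / (1 + μ1)) ((b1 - lam) / (4 * (1 + b1)))), ?_, ?_, ?_, ?_⟩
  · positivity
  · exact min_le_left _ _
  · have h : min (1 / 8) (min (μ1 / (1 + μ1)) ((b1 - lam) / (4 * (1 + b1)))) ≤ μ1 / (1 + μ1) :=
      (min_le_right _ _).trans (min_le_left _ _)
    rwa [le_div_iff₀ (by linarith)] at h
  · have h : min (1 / 8) (min (μ1 / (1 + μ1)) ((b1 - lam) / (4 * (1 + b1)))) ≤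
        (b1 - lam) / (4 * (1 + b1)) := (min_le_right _ _).trans (min_le_right _ _)
    rw [le_div_iff₀ (by linarith)] at h
    linarith

/-- The chain of circles. -/
lemma chain (hCirc : StCirc) {G : ℂ → ℂ} {r A0 N0 : ℝ} (hr : 0 < r) (hA : 0 ≤ A0) (hN : 0 ≤ N0)
    (c : ℕ → ℂ) (K : ℕ)
    (hG : ∀ j, j ≤ K → DifferentiableOn ℂ G (ball (c j) (4 * r)))
    (hGN : ∀ j, j ≤ K → ∀ w ∈ ball (c j) (4 * r), ‖G w‖ ≤ N0)
    (hc : ∀ j, ‖c (j + 1) - c j‖ ≤ r)
    (h0 : ∀ w ∈ ball (c 0) r, ‖G w‖ ≤ A0) :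
    ∀ j, j ≤ K → ∀ w ∈ ball (c j) r,
      ‖G w‖ ≤ A0 ^ ((1 / 2 : ℝ) ^ j) * N0 ^ (1 - (1 / 2 : ℝ) ^ j) := by
  intro j
  induction j with
  | zero =>
    intro _ w hw
    simpa using h0 w hw
  | succ j ih =>
    intro hj w hw
    have h1 := hCirc G (c j) r _ N0 hr (hG j (by omega)) (hGN j (by omega)) (ih (by omega)) w ?_
    · refine h1.trans (le_of_eq ?_)
      rw [Real.mul_rpow (by positivity) (by positivity), ← Real.rpow_mul hA, ← Real.rpow_mul hN,
        mul_assoc]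
      have e1 : (1 / 2 : ℝ) ^ j * (1 / 2) = (1 / 2 : ℝ) ^ (j + 1) := by rw [pow_succ]
      rw [e1]
      congr 1
      have hle : (1 / 2 : ℝ) ^ j ≤ 1 := pow_le_one₀ (by norm_num) (by norm_num)
      rw [← Real.rpow_add_of_nonneg hN (by nlinarith) (by norm_num)]
      congr 1
      rw [pow_succ]
      ring
    · rw [mem_ball, dist_eq_norm] at hw ⊢
      calc ‖w - c j‖ = ‖(w - c (j + 1)) + (c (j + 1) - c j)‖ := by congr 1; ring
        _ ≤ ‖w - c (j + 1)‖ + ‖c (j + 1) - c j‖ := norm_add_le _ _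
        _ < 2 * r := by linarith [hc j]

lemma l1 {ρ y : ℝ} (h : ρ ≤ 1 / 8) (hy : 0 < y) : y / 2 ≤ (1 - 4 * ρ) * y := by nlinarith

lemma l2 {ρ y lam b1 : ℝ} (h : 4 * ρ * (1 + b1) ≤ b1 - lam) (hy : 0 < y) :
    4 * (ρ * y) + lam * y ≤ b1 * ((1 - 4 * ρ) * y) := by
  nlinarith [mul_le_mul_of_nonneg_right h hy.le]

lemma l3 {a y v : ℝ} (ha : 0 ≤ a) (h : y / 2 ≤ v) : a * y ≤ 2 * a * v := by nlinarith

lemma l4 {ρ y : ℝ} (h : ρ ≤ 1 / 8) (hy : 0 < y) : y / 2 ≤ (1 - ρ) * y := by nlinarith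

lemma l5 {n v y A : ℝ} (hn : 0 ≤ n) (h : v * n ≤ A) (h7 : y / 2 ≤ v) : n * y ≤ 2 * A := by
  nlinarith

lemma l6 {ρ y μ : ℝ} (h : ρ * (1 + μ) ≤ μ) (hy : 0 < y) : ρ * y ≤ μ * ((1 - ρ) * y) := by
  nlinarith [mul_le_mul_of_nonneg_right h hy.le]

lemma l7 {ρ y : ℝ} (h : ρ ≤ 1 / 8) (hy : 0 < y) : (1 + ρ) * y ≤ 2 * y := by nlinarith

end PropA

open PropA in
/-- 45 Prop: propagation of smallness inside a cone. -/
theorem stProp (hCirc : StCirc) : StProp := by
  intro lam b μ1 hμ1 hlam hlb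
  set b1 : ℝ := (lam + b) / 2 with hb1def
  have hlb1 : lam < b1 := by rw [hb1def]; linarith
  have hb1b : b1 < b := by rw [hb1def]; linarith
  have hb1 : 0 < b1 := hlam.trans hlb1
  have hb : 0 < b := hb1.trans hb1b
  obtain ⟨ρ, hρ, hρ8, hρμ, hρb⟩ := exists_rho hμ1 hlam hlb1
  set K : ℕ := ⌈lam / ρ⌉₊ with hK
  have hK1 : 0 < K := Nat.ceil_pos.2 (by positivity)
  have hKlam : lam / ρ ≤ K := Nat.le_ceil _
  have hKR : (0 : ℝ) < K := by exact_mod_cast hK1
  set ω : ℝ := (1 / 2 : ℝ) ^ K with hω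
  have hω0 : 0 < ω := by positivity
  have hω1 : ω ≤ 1 / 2 := by
    rw [hω]
    calc (1 / 2 : ℝ) ^ K ≤ (1 / 2 : ℝ) ^ 1 := pow_le_pow_of_le_one (by norm_num) (by norm_num) hK1
      _ = 1 / 2 := pow_one _
  set C' : ℝ := 4 * ((1 + b) / (b - b1)) with hC'
  have hbb : 0 < b - b1 := by linarith
  have hC'0 : 0 < C' := by positivity
  refine ⟨(2 ^ ω * (2 * C') ^ (1 - ω)).toNNReal, ω, hω0, hω1, ?_⟩
  intro f hf x q hq hNfin A hA hAw
  have hq2 : 0 < q.2 := hq.2
  -- the analytic function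
  have hG : DifferentiableOn ℂ (dschw f) uhp := by
    have h1 : DifferentiableOn ℂ (deriv (schw f)) uhp := (schw_diff hf).deriv isOpen_uhp
    apply h1.congr
    intro w hw
    exact (hasDerivAt_schw hf hw).deriv.symm
  set N : ℝ := (ntMax b f x).toReal with hN
  have hN0 : 0 ≤ N := ENNReal.toReal_nonneg
  have hvset : x ∈ vset (schw f) b N := by
    rw [← NT_le_iff hN0, ← ntMax_eq hf, hN, ENNReal.ofReal_toReal hNfin]
  have hgrad : ∀ w : ℂ, |x - w.re| ≤ b1 * w.im → 0 < w.im → ‖dschw f w‖ ≤ C' * N / w.im := by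
    intro w hw1 hw2
    have h := vset_grad (schw_diff hf) hb1 hb1b hvset (q := (w.re, w.im)) ⟨hw1, hw2⟩
    unfold gsq at h
    simp only [Complex.re_add_im] at h
    rw [(hasDerivAt_schw hf hw2).deriv] at h
    have e : (4 * N * ((1 + b) / (b - b1))) ^ 2 / w.im ^ 2 = (C' * N / w.im) ^ 2 := by
      rw [hC']; ring
    rw [e] at h
    exact abs_le_of_sq_le_sq' h (by positivity) |>.2
  set r : ℝ := ρ * q.2 with hr
  have hr0 : 0 < r := by positivity
  set c : ℕ → ℂ := fun j => ((x + (j / K : ℝ) * (q.1 - x) : ℝ) : ℂ) + (q.2 : ℂ) * I with hc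
  have hcre : ∀ j, (c j).re = x + (j / K : ℝ) * (q.1 - x) := by intro j; simp [hc]
  have hcim : ∀ j, (c j).im = q.2 := by intro j; simp [hc]
  have hqx : |q.1 - x| ≤ lam * q.2 := by rw [abs_sub_comm]; exact hq.1
  have hball : ∀ (j : ℕ) (s : ℝ) (w : ℂ), w ∈ ball (c j) s →
      |w.re - (c j).re| < s ∧ |w.im - q.2| < s := by
    intro j s w hw
    rw [mem_ball, dist_eq_norm] at hw
    refine ⟨?_, ?_⟩
    · have h := Complex.abs_re_le_norm (w - c j)
      rw [Complex.sub_re] at h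
      exact h.trans_lt hw
    · have h := Complex.abs_im_le_norm (w - c j)
      rw [Complex.sub_im, hcim] at h
      exact h.trans_lt hw
  have hball4 : ∀ j, j ≤ K → ∀ w ∈ ball (c j) (4 * r), q.2 / 2 ≤ w.im ∧ |x - w.re| ≤ b1 * w.im := by
    intro j hj w hw
    obtain ⟨h1, h2⟩ := hball j _ w hw
    rw [abs_lt] at h2
    have h3 : (1 - 4 * ρ) * q.2 ≤ w.im := by rw [hr] at h2; linarith [h2.1]
    have hjK : (j / K : ℝ) ≤ 1 := by
      rw [div_le_one hKR]
      exact_mod_cast hj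
    have hjK0 : (0 : ℝ) ≤ (j / K : ℝ) := by positivity
    refine ⟨?_, ?_⟩
    · exact (l1 hρ8 hq2).trans h3
    · have h4 : |x - w.re| ≤ |w.re - (c j).re| + |(j / K : ℝ) * (q.1 - x)| := by
        rw [hcre]
        have := abs_add_le (w.re - (x + (j / K : ℝ) * (q.1 - x))) ((j / K : ℝ) * (q.1 - x))
        rw [abs_sub_comm x]
        calc |w.re - x| = |w.re - (x + (j / K : ℝ) * (q.1 - x)) + (j / K : ℝ) * (q.1 - x)| := by
              congr 1; ring
          _ ≤ _ := this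
      have h5 : |(j / K : ℝ) * (q.1 - x)| ≤ lam * q.2 := by
        rw [abs_mul, abs_of_nonneg hjK0]
        calc (j / K : ℝ) * |q.1 - x| ≤ 1 * |q.1 - x| := by gcongr
          _ ≤ lam * q.2 := by rw [one_mul]; exact hqx
      calc |x - w.re| ≤ 4 * r + lam * q.2 := by linarith
        _ ≤ b1 * ((1 - 4 * ρ) * q.2) := l2 hρb hq2
        _ ≤ b1 * w.im := by gcongr
  set N0 : ℝ := 2 * C' * N / q.2 with hN0def
  set A0 : ℝ := 2 * A.toReal / q.2 with hA0def
  have hN0nn : 0 ≤ N0 := by positivity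
  have hA0nn : 0 ≤ A0 := by positivity
  have key := chain hCirc (G := dschw f) hr0 hA0nn hN0nn c K ?_ ?_ ?_ ?_ K le_rfl
    ((q.1 : ℂ) + q.2 * I) ?_
  · -- conclusion
    have e : q.2 * (A0 ^ ω * N0 ^ (1 - ω)) =
        (2 ^ ω * (2 * C') ^ (1 - ω)) * N ^ (1 - ω) * (A.toReal) ^ ω := by
      rw [hA0def, hN0def, Real.div_rpow (by positivity) hq2.le,
        Real.div_rpow (by positivity) hq2.le, Real.mul_rpow (by norm_num) ENNReal.toReal_nonneg,
        Real.mul_rpow (by positivity) hN0]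
      have e2 : q.2 ^ ω * q.2 ^ (1 - ω) = q.2 := by
        rw [← Real.rpow_add hq2]
        simp
      have h1 : q.2 ^ ω ≠ 0 := (Real.rpow_pos_of_pos hq2 _).ne'
      have h2 : q.2 ^ (1 - ω) ≠ 0 := (Real.rpow_pos_of_pos hq2 _).ne'
      rw [div_mul_div_comm, e2]
      field_simp
    calc ENNReal.ofReal (q.2 * ‖dschw f ((q.1 : ℂ) + q.2 * I)‖)
        ≤ ENNReal.ofReal (q.2 * (A0 ^ ω * N0 ^ (1 - ω))) := by
          apply ENNReal.ofReal_le_ofReal
          gcongr
      _ = ENNReal.ofReal ((2 ^ ω * (2 * C') ^ (1 - ω)) * N ^ (1 - ω) * (A.toReal) ^ ω) := by rw [e]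
      _ = ENNReal.ofReal (2 ^ ω * (2 * C') ^ (1 - ω)) * ENNReal.ofReal (N ^ (1 - ω)) *
          ENNReal.ofReal ((A.toReal) ^ ω) := by
          rw [ENNReal.ofReal_mul (by positivity), ENNReal.ofReal_mul (by positivity)]
      _ = _ := by
          rw [← ENNReal.ofReal_rpow_of_nonneg hN0 (by linarith),
            ← ENNReal.ofReal_rpow_of_nonneg ENNReal.toReal_nonneg hω0.le, hN,
            ENNReal.ofReal_toReal hNfin, ENNReal.ofReal_toReal hA]
          rfl
  · intro j hj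
    apply hG.mono
    intro w hw
    have := (hball4 j hj w hw).1
    show 0 < w.im
    linarith
  · intro j hj w hw
    obtain ⟨h1, h2⟩ := hball4 j hj w hw
    have hwim : 0 < w.im := by linarith
    refine (hgrad w h2 hwim).trans ?_
    rw [hN0def, div_le_div_iff₀ hwim hq2]
    have h5 := l3 (a := C' * N) (by positivity) h1
    rwa [← mul_assoc] at h5
  · intro j
    have e : c (j + 1) - c j = ((1 / K * (q.1 - x) : ℝ) : ℂ) := by
      apply Complex.ext
      · rw [Complex.sub_re, hcre, hcre, Complex.ofReal_re]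
        push_cast
        field_simp
        ring
      · rw [Complex.sub_im, hcim, hcim, Complex.ofReal_im, sub_self]
    rw [e, Complex.norm_real, Real.norm_eq_abs, abs_mul, abs_of_pos (by positivity)]
    rw [div_le_iff₀ hρ] at hKlam
    rw [one_div, inv_mul_le_iff₀ hKR, hr]
    calc |q.1 - x| ≤ lam * q.2 := hqx
      _ ≤ (K * ρ) * q.2 := by gcongr
      _ = K * (ρ * q.2) := by ring
  · intro w hw
    obtain ⟨h1, h2⟩ := hball 0 _ w hw
    have e0 : (c 0).re = x := by rw [hcre]; simp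
    rw [e0] at h1
    rw [abs_lt] at h2
    have h3 : (1 - ρ) * q.2 ≤ w.im := by rw [hr] at h2; linarith [h2.1]
    have h4 : w.im ≤ (1 + ρ) * q.2 := by rw [hr] at h2; linarith [h2.2]
    have h7 : q.2 / 2 ≤ w.im := (l4 hρ8 hq2).trans h3
    have hwim : 0 < w.im := (half_pos hq2).trans_le h7
    have h5 := hAw (w.re, w.im) ?_ ?_ ?_
    · simp only [Complex.re_add_im] at h5
      have h6 : w.im * ‖dschw f w‖ ≤ A.toReal := by
        rwa [ENNReal.ofReal_le_iff_le_toReal hA] at h5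
      rw [hA0def, le_div_iff₀ hq2]
      exact l5 (norm_nonneg _) h6 h7
    · show |w.re - x| ≤ μ1 * w.im
      calc |w.re - x| ≤ r := h1.le
        _ ≤ μ1 * ((1 - ρ) * q.2) := l6 hρμ hq2
        _ ≤ μ1 * w.im := by gcongr
    · exact h7
    · exact h4.trans (l7 hρ8 hq2)
  · rw [mem_ball, dist_eq_norm]
    have e : (q.1 : ℂ) + q.2 * I - c K = 0 := by
      apply Complex.ext
      · rw [Complex.sub_re, hcre]
        simp [hKR.ne']
      · rw [Complex.sub_im, hcim]
        simp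
    rw [e, norm_zero]
    exact hr0

end Pool.Agent.Work.MP_055a27_an.Cr3

end

section

/-! Project MP_055a27_an, module Cr3, item SMeas: measurability of the set of the points with a
low point at distance comparable to the height. -/

set_option autoImplicit false

open MeasureTheory Set Filter Topology Complex Metric
open scoped ENNReal NNReal

namespace Pool.Agent.Work.MP_055a27_an.Cr3

open Crit (lg cc CC Pk hU)
open Nv (mx)

namespace SMeas

lemma closed {la R m0 : ℝ} {U : ℝ → ℝ} (hR : 0 < R)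
    (hc : ContinuousOn (fun q : ℝ × ℝ => gg la U q.1 q.2) {q | 0 < q.2}) {q : ℝ × ℝ}
    (hq0 : 0 < q.2) (hq : q ∈ closure (SS la R m0 U)) : q ∈ SS la R m0 U := by
  obtain ⟨u, hu, hlim⟩ := mem_closure_iff_seq_limit.1 hq
  choose hu0 w hw1 hw2 hw3 hw4 using hu
  have hu1 : Tendsto (fun n => (u n).1) atTop (𝓝 q.1) :=
    (continuous_fst.tendsto q).comp hlim
  have hu2 : Tendsto (fun n => (u n).2) atTop (𝓝 q.2) :=
    (continuous_snd.tendsto q).comp hlim
  have e1 : ∀ᶠ n in atTop, q.2 / 2 < (u n).2 := hu2.eventually (lt_mem_nhds (by linarith))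
  have e2 : ∀ᶠ n in atTop, (u n).2 < 2 * q.2 := hu2.eventually (gt_mem_nhds (by linarith))
  have e3 : ∀ᶠ n in atTop, q.1 - 1 < (u n).1 := hu1.eventually (lt_mem_nhds (by linarith))
  have e4 : ∀ᶠ n in atTop, (u n).1 < q.1 + 1 := hu1.eventually (gt_mem_nhds (by linarith))
  set K : Set (ℝ × ℝ) := Icc (q.1 - 1 - R * (2 * q.2)) (q.1 + 1 + R * (2 * q.2)) ×ˢ
    Icc (q.2 / 4) (4 * q.2) with hK
  have hKc : IsCompact K := isCompact_Icc.prod isCompact_Icc
  have e5 : ∀ᶠ n in atTop, w n ∈ K := by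
    filter_upwards [e1, e2, e3, e4] with n h1 h2 h3 h4
    have h5 := abs_le.1 (hw1 n)
    have h6 := hw2 n
    have h7 := hw3 n
    have h8 : R * (u n).2 ≤ R * (2 * q.2) := mul_le_mul_of_nonneg_left h2.le hR.le
    refine ⟨⟨?_, ?_⟩, ⟨?_, ?_⟩⟩
    · linarith [h5.1]
    · linarith [h5.2]
    · linarith
    · linarith
  obtain ⟨w0, hw0, φ, hφ, hlim2⟩ := hKc.tendsto_subseq' e5.frequently
  have hw0pos : 0 < w0.2 := by
    have : q.2 / 4 ≤ w0.2 := hw0.2.1
    linarith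
  have t1 : Tendsto (fun n => (u (φ n)).1) atTop (𝓝 q.1) := hu1.comp hφ.tendsto_atTop
  have t2 : Tendsto (fun n => (u (φ n)).2) atTop (𝓝 q.2) := hu2.comp hφ.tendsto_atTop
  have t3 : Tendsto (fun n => (w (φ n)).1) atTop (𝓝 w0.1) :=
    (continuous_fst.tendsto w0).comp hlim2
  have t4 : Tendsto (fun n => (w (φ n)).2) atTop (𝓝 w0.2) :=
    (continuous_snd.tendsto w0).comp hlim2
  have t5 : Tendsto (fun n => gg la U (w (φ n)).1 (w (φ n)).2) atTop
      (𝓝 (gg la U w0.1 w0.2)) := by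
    have hopen : IsOpen {q : ℝ × ℝ | 0 < q.2} := isOpen_lt continuous_const continuous_snd
    have hca : ContinuousAt (fun q : ℝ × ℝ => gg la U q.1 q.2) w0 :=
      hc.continuousAt (hopen.mem_nhds hw0pos)
    exact hca.tendsto.comp hlim2
  refine ⟨hq0, w0, ?_, ?_, ?_, ?_⟩
  · exact le_of_tendsto_of_tendsto' ((t3.sub t1).abs) (t2.const_mul R) (fun n => hw1 (φ n))
  · exact le_of_tendsto_of_tendsto' (t2.div_const 2) t4 (fun n => hw2 (φ n))
  · exact le_of_tendsto_of_tendsto' t4 (t2.const_mul 2) (fun n => hw3 (φ n))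
  · exact le_of_tendsto' t5 (fun n => hw4 (φ n))

end SMeas

theorem stSMeas (hBas : StBas) : StSMeas := by
  intro la R m0 U hla hR hW
  obtain ⟨hc, hm, -⟩ := hBas.2.1 la U hla hW
  have hset : SS la R m0 U = {q : ℝ × ℝ | 0 < q.2} ∩ closure (SS la R m0 U) := by
    apply Set.Subset.antisymm
    · intro q hq
      exact ⟨hq.1, subset_closure hq⟩
    · rintro q ⟨h0, h1⟩
      exact SMeas.closed hR hc h0 h1
  rw [hset]
  exact hm.inter isClosed_closure.measurableSet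

end Pool.Agent.Work.MP_055a27_an.Cr3

end

section

/-!
# Item 46 of the part Cr3: from the supremum to an integral over the high points
-/

open MeasureTheory Set Filter Topology Complex Metric
open scoped ENNReal NNReal

namespace Pool.Agent.Work.MP_055a27_an.Cr3

open Crit (lg cc CC Pk hU)
open Nv (mx)

namespace Sup

/-- Comparison of the Poisson kernels at two near points. -/
lemma Pk_le (k : ℝ → ℝ≥0∞) {z v x t : ℝ} (hv : 0 < v) (h1 : |x - z| ≤ v / 2)
    (h2 : |t - v| ≤ v / 2) : Pk k z v ≤ 16 * Pk k x t := by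
  unfold Pk
  rw [← lintegral_const_mul' _ _ (by norm_num)]
  apply lintegral_mono
  intro s
  show ENNReal.ofReal (v / ((z - s) ^ 2 + v ^ 2)) * k s ≤
    16 * (ENNReal.ofReal (t / ((x - s) ^ 2 + t ^ 2)) * k s)
  rw [← mul_assoc]
  gcongr
  have e16 : (16 : ℝ≥0∞) = ENNReal.ofReal 16 := by norm_num
  rw [e16, ← ENNReal.ofReal_mul (by norm_num)]
  apply ENNReal.ofReal_le_ofReal
  obtain ⟨a1, a2⟩ := abs_le.mp h1
  obtain ⟨b1, b2⟩ := abs_le.mp h2
  have ht : v / 2 ≤ t := by linarith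
  have ht2 : t ≤ 3 / 2 * v := by linarith
  have ht0 : 0 < t := by linarith
  have hA : (x - z) ^ 2 ≤ (v / 2) ^ 2 := sq_le_sq' a1 a2
  have hB : t ^ 2 ≤ (3 / 2 * v) ^ 2 := pow_le_pow_left₀ ht0.le ht2 2
  have hD : (x - s) ^ 2 + t ^ 2 ≤ 4 * ((z - s) ^ 2 + v ^ 2) := by
    have e1 : (x - s) ^ 2 ≤ 2 * (x - z) ^ 2 + 2 * (z - s) ^ 2 := by
      nlinarith [sq_nonneg ((x - z) - (z - s))]
    nlinarith [sq_nonneg (z - s), sq_nonneg v]
  have hp1 : 0 < (z - s) ^ 2 + v ^ 2 := by positivity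
  have hp2 : 0 < (x - s) ^ 2 + t ^ 2 := by positivity
  rw [← mul_div_assoc, div_le_div_iff₀ hp1 hp2]
  calc v * ((x - s) ^ 2 + t ^ 2) ≤ (2 * t) * (4 * ((z - s) ^ 2 + v ^ 2)) :=
        mul_le_mul (by linarith) hD hp2.le (by linarith)
    _ ≤ 16 * t * ((z - s) ^ 2 + v ^ 2) := by
        have := mul_pos ht0 hp1
        nlinarith

/-- The facts at the points of the small square. -/
lemma sq_facts (hBas : StBas) {la' la μ1 μ2 C ρ ms r : ℝ} {U : ℝ → ℝ} (hW : Wt U)
    (hla' : 0 < la') (hla : 0 < la) (hμ2 : 0 < μ2) (hr : 0 < r) (hrρ : r ≤ ρ) (hρ : ρ ≤ 1 / 2)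
    (hr1 : μ1 + r * (1 + μ2) ≤ μ2)
    (hr2 : r * (1 + la') ≤ la - la') (hC : 1 ≤ C) (hms : 1 ≤ ms)
    (hG : ∀ z y m : ℝ, Rt la U z y m → ∀ w : ℂ, ‖w - (z + y * I)‖ ≤ ρ * y →
      ‖dschw (lg U) w‖ ≤ C * m / y)
    {z y x m δ : ℝ} (hy : 0 < y) (hx : |z - x| ≤ μ1 * y)
    (hmm : m = gg la U z y) (hm : 2 * (C + 1) + 2 * ms < m) (hδ : δ = r * y / (2 * m))
    {q : ℝ × ℝ} (hq : q ∈ Icc (z - δ) (z + δ) ×ˢ Icc (y - δ) (y + δ)) :
    |x - q.1| ≤ μ2 * q.2 ∧ |q.1 - z| ≤ y / 2 ∧ |q.2 - y| ≤ y / 2 ∧ m / 2 ≤ gg la' U q.1 q.2 ∧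
      ms ≤ gg la' U q.1 q.2 ∧
      poisson (lg U) q.1 q.2 - poisson (lg U) z y ≤ C := by
  obtain ⟨⟨hq1, hq2⟩, ⟨hq3, hq4⟩⟩ := hq
  have hm1 : 1 ≤ m := by linarith
  have hm0 : 0 < m := by linarith
  have hρ0 : 0 < ρ := lt_of_lt_of_le hr hrρ
  have hδ0 : 0 < δ := by rw [hδ]; positivity
  have hδm : 2 * δ * m = r * y := by rw [hδ]; field_simp
  have hδ1 : 2 * δ ≤ r * y := by
    rw [← hδm]
    have := mul_le_mul_of_nonneg_left hm1 (by positivity : 0 ≤ 2 * δ)
    linarith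
  have hry : r * y ≤ ρ * y := mul_le_mul_of_nonneg_right hrρ hy.le
  have hρy : ρ * y ≤ 1 / 2 * y := mul_le_mul_of_nonneg_right hρ hy.le
  have hrt : Rt la U z y m := ⟨hy, hm1, hmm.ge⟩
  have ha1 : |q.1 - z| ≤ δ := abs_le.mpr ⟨by linarith, by linarith⟩
  have ha2 : |q.2 - y| ≤ δ := abs_le.mpr ⟨by linarith, by linarith⟩
  have hP := CCh.poisson_sub hW.2.2 hy hρ0 hρ (hG z y m hrt) ha1 ha2 (by linarith)
  have hP2 : C * m / y * (2 * δ) = C * r := by
    rw [hδ]; field_simp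
  rw [hP2] at hP
  have hr12 : r ≤ 1 / 2 := le_trans hrρ hρ
  have hCr : C * r ≤ C := by
    have := mul_le_mul_of_nonneg_left hr12 (by linarith : 0 ≤ C)
    linarith
  have hP3 : |poisson (lg U) q.1 q.2 - poisson (lg U) z y| ≤ C := le_trans hP hCr
  obtain ⟨hP4, hP5⟩ := abs_le.mp hP3
  have hy2 : y / 2 ≤ q.2 := by linarith
  have hq20 : 0 < q.2 := by linarith
  -- geometry
  have hg1 : (1 + la') * δ ≤ (la - la') * y := by
    have h1 : (1 + la') * δ ≤ (1 + la') * (r * y) :=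
      mul_le_mul_of_nonneg_left (by linarith) (by linarith)
    have h2 : r * (1 + la') * y ≤ (la - la') * y := mul_le_mul_of_nonneg_right hr2 hy.le
    linarith
  have hg2 : (1 + μ2) * δ ≤ (μ2 - μ1) * y := by
    have h1 : (1 + μ2) * δ ≤ (1 + μ2) * (r * y) :=
      mul_le_mul_of_nonneg_left (by linarith) (by linarith)
    have h2 : r * (1 + μ2) * y ≤ (μ2 - μ1) * y :=
      mul_le_mul_of_nonneg_right (by linarith) hy.le
    linarith
  have hl2 : la' * q.2 ≤ la' * (y + δ) := mul_le_mul_of_nonneg_left hq4 hla'.le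
  have hl3 : μ2 * (y - δ) ≤ μ2 * q.2 := mul_le_mul_of_nonneg_left hq3 hμ2.le
  have hav := CCh.avg_le (la := la) (la' := la') (z := z) (y := y) (x := q.1) (t := q.2) hW.1
    hy hy2 (by linarith) (by linarith)
  have hap : 0 < avg la U z y := hBas.1 la U z y hla hy hW
  have hap' : 0 < avg la' U q.1 q.2 := hBas.1 la' U q.1 q.2 hla' hq20 hW
  have hLL : LL la' U q.1 q.2 ≤ LL la U z y + 1 := by
    unfold LL
    have h1 := Real.log_le_log hap' hav
    rw [Real.log_mul (by norm_num) hap.ne'] at h1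
    have h2 := Real.log_two_lt_d9
    linarith
  have hgq : m - (C + 1) ≤ gg la' U q.1 q.2 := by
    have h1 : m = poisson (lg U) z y - LL la U z y := hmm
    unfold gg
    linarith
  refine ⟨?_, by linarith, by linarith, by linarith, by linarith, hP5⟩
  have h1 : |x - q.1| ≤ |z - x| + |q.1 - z| := by
    have h2 : x - q.1 = -((z - x) + (q.1 - z)) := by ring
    rw [h2, abs_neg]
    exact abs_add_le _ _
  linarith

/-- The estimate of the left side at a point of the square. -/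
lemma one {p ω m C gz gq hz hq v t : ℝ} {A B : ℝ≥0∞} (hp : 0 < p) (hω : 0 < ω) (hω2 : ω ≤ 1 / 2)
    (hm : 1 ≤ m) (hC : 0 ≤ C) (hgz : gz = m) (hgq : m / 2 ≤ gq) (hh : hq - hz ≤ C) (hv : 0 < v)
    (ht0 : 0 < t) (ht : t ≤ 2 * v) (hAB : A ≤ 16 * B) :
    (ENNReal.ofReal (gz * Real.exp (-(hz / p))) * A) ^ (2 * ω) * ENNReal.ofReal (m ^ 2 / v ^ 2) ≤
      ENNReal.ofReal (1024 * Real.exp (C / p)) *
        (ENNReal.ofReal (gq ^ 4 / t ^ 2 * Real.exp (-(2 * ω * hq / p))) * B ^ (2 * ω)) := by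
  have h2ω : 0 ≤ 2 * ω := by linarith
  have hm0 : 0 < m := by linarith
  rw [hgz, ENNReal.mul_rpow_of_nonneg _ _ h2ω,
    ENNReal.ofReal_rpow_of_nonneg (by positivity) h2ω]
  have hA : A ^ (2 * ω) ≤ 16 * B ^ (2 * ω) := by
    calc A ^ (2 * ω) ≤ (16 * B) ^ (2 * ω) := ENNReal.rpow_le_rpow hAB h2ω
      _ = 16 ^ (2 * ω) * B ^ (2 * ω) := ENNReal.mul_rpow_of_nonneg _ _ h2ω
      _ ≤ 16 * B ^ (2 * ω) := by
        gcongr
        have := ENNReal.rpow_le_rpow_of_exponent_le (x := 16) (by norm_num)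
          (show 2 * ω ≤ 1 by linarith)
        simpa using this
  have e16 : (16 : ℝ≥0∞) = ENNReal.ofReal 16 := by norm_num
  have hR : (m * Real.exp (-(hz / p))) ^ (2 * ω) ≤
      m * (Real.exp (C / p) * Real.exp (-(2 * ω * hq / p))) := by
    rw [Real.mul_rpow hm0.le (Real.exp_pos _).le, ← Real.exp_mul, ← Real.exp_add]
    apply mul_le_mul _ _ (Real.exp_pos _).le hm0.le
    · have := Real.rpow_le_rpow_of_exponent_le hm (show 2 * ω ≤ 1 by linarith)
      simpa using this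
    · apply Real.exp_le_exp.mpr
      have e1 : -(hz / p) * (2 * ω) = (2 * ω * (hq - hz)) / p + -(2 * ω * hq / p) := by
        field_simp; ring
      rw [e1]
      have e2 : 2 * ω * (hq - hz) ≤ C := by
        calc 2 * ω * (hq - hz) ≤ 2 * ω * C := mul_le_mul_of_nonneg_left hh h2ω
          _ ≤ 1 * C := mul_le_mul_of_nonneg_right (by linarith) hC
          _ = C := one_mul C
      have e3 := div_le_div_of_nonneg_right e2 hp.le
      linarith
  have hS : m * (m ^ 2 / v ^ 2) * 16 ≤ 1024 * (gq ^ 4 / t ^ 2) := by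
    have e1 : m ^ 4 ≤ 16 * gq ^ 4 := by
      have := pow_le_pow_left₀ (by linarith : 0 ≤ m / 2) hgq 4
      have e2 : (m / 2) ^ 4 = m ^ 4 / 16 := by ring
      rw [e2] at this
      linarith
    have e2 : t ^ 2 ≤ 4 * v ^ 2 := by
      have := pow_le_pow_left₀ ht0.le ht 2
      have e3 : (2 * v) ^ 2 = 4 * v ^ 2 := by ring
      rwa [e3] at this
    have e3 : m ^ 3 ≤ m ^ 4 := pow_le_pow_right₀ hm (by norm_num)
    have e4 : m * (m ^ 2 / v ^ 2) * 16 = (16 * m ^ 3) / v ^ 2 := by ring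
    have e5 : 1024 * (gq ^ 4 / t ^ 2) = (1024 * gq ^ 4) / t ^ 2 := by ring
    rw [e4, e5, div_le_div_iff₀ (by positivity) (by positivity)]
    have hg0 : 0 ≤ gq ^ 4 := by positivity
    calc 16 * m ^ 3 * t ^ 2 ≤ 16 * (16 * gq ^ 4) * (4 * v ^ 2) := by
          apply mul_le_mul _ e2 (by positivity) (by positivity)
          linarith
      _ = 1024 * gq ^ 4 * v ^ 2 := by ring
  calc ENNReal.ofReal ((m * Real.exp (-(hz / p))) ^ (2 * ω)) * A ^ (2 * ω) *
        ENNReal.ofReal (m ^ 2 / v ^ 2)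
      ≤ ENNReal.ofReal (m * (Real.exp (C / p) * Real.exp (-(2 * ω * hq / p)))) *
        (16 * B ^ (2 * ω)) * ENNReal.ofReal (m ^ 2 / v ^ 2) := by
        gcongr
    _ = ENNReal.ofReal ((m * (m ^ 2 / v ^ 2) * 16) *
          (Real.exp (C / p) * Real.exp (-(2 * ω * hq / p)))) * B ^ (2 * ω) := by
        rw [e16]
        have e2 : ENNReal.ofReal ((m * (m ^ 2 / v ^ 2) * 16) *
            (Real.exp (C / p) * Real.exp (-(2 * ω * hq / p)))) =
            ENNReal.ofReal (m * (Real.exp (C / p) * Real.exp (-(2 * ω * hq / p)))) *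
              ENNReal.ofReal 16 * ENNReal.ofReal (m ^ 2 / v ^ 2) := by
          rw [← ENNReal.ofReal_mul (by positivity), ← ENNReal.ofReal_mul (by positivity)]
          congr 1
          ring
        rw [e2]
        ring
    _ ≤ ENNReal.ofReal ((1024 * (gq ^ 4 / t ^ 2)) *
          (Real.exp (C / p) * Real.exp (-(2 * ω * hq / p)))) * B ^ (2 * ω) := by
        gcongr
    _ = _ := by
        rw [← mul_assoc (ENNReal.ofReal (1024 * Real.exp (C / p))),
          ← ENNReal.ofReal_mul (by positivity)]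
        congr 2
        ring

end Sup

theorem stSup (hBas : StBas) (hGd : StGd) : StSup := by
  intro la' la μ μ1 μ2 p ω ms U hμ1 hμ12 hμ2' hla'la hHyp hp hω hω2 hms
  have hμ2 : 0 < μ2 := lt_trans hμ1 hμ12
  have hla' : 0 < la' := lt_trans hμ2 hμ2'
  obtain ⟨hla, hlaμ, hW, hSh⟩ := hHyp
  obtain ⟨C, ρ, hC, hρ0, hρ, hG⟩ := hGd la μ U ⟨hla, hlaμ, hW, hSh⟩
  have h1μ : 0 < 1 + μ2 := by linarith
  have h1la : 0 < 1 + la' := by linarith
  obtain ⟨r, hr⟩ : ∃ r, r = min ρ (min ((μ2 - μ1) / (1 + μ2)) ((la - la') / (1 + la'))) :=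
    ⟨_, rfl⟩
  have hr0 : 0 < r := by
    rw [hr]
    exact lt_min hρ0 (lt_min (div_pos (by linarith) h1μ) (div_pos (by linarith) h1la))
  have hrρ : r ≤ ρ := by rw [hr]; exact min_le_left _ _
  have hr1 : μ1 + r * (1 + μ2) ≤ μ2 := by
    have : r ≤ (μ2 - μ1) / (1 + μ2) := by
      rw [hr]; exact le_trans (min_le_right _ _) (min_le_left _ _)
    rw [le_div_iff₀ h1μ] at this
    linarith
  have hr2 : r * (1 + la') ≤ la - la' := by
    have : r ≤ (la - la') / (1 + la') := by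
      rw [hr]; exact le_trans (min_le_right _ _) (min_le_right _ _)
    rwa [le_div_iff₀ h1la] at this
  refine ⟨2 * (C + 1) + 2 * ms, (1024 * Real.exp (C / p) / r ^ 2).toNNReal, by linarith, ?_⟩
  intro k _ x y hy w hwx hwy1 hwy2 hmw
  obtain ⟨m, hmm⟩ : ∃ m, m = gg la U w.1 w.2 := ⟨_, rfl⟩
  obtain ⟨v, hv⟩ : ∃ v, v = w.2 := ⟨_, rfl⟩
  obtain ⟨z, hz⟩ : ∃ z, z = w.1 := ⟨_, rfl⟩
  rw [← hmm] at hmw ⊢
  rw [← hv, ← hz] at hmm hwx ⊢
  rw [← hv] at hwy1 hwy2
  have hv0 : 0 < v := by linarith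
  obtain ⟨δ, hδ⟩ : ∃ δ, δ = r * v / (2 * m) := ⟨_, rfl⟩
  have hm1 : 1 ≤ m := by linarith
  have hm0 : 0 < m := by linarith
  have hδ0 : 0 < δ := by rw [hδ]; positivity
  have hsq := fun q hq => Sup.sq_facts hBas hW hla' hla hμ2 hr0 hrρ hρ hr1 hr2 hC hms
    (fun z y m hrt w hw => (hG z y m hrt w hw).1) hv0 hwx hmm hmw hδ (q := q) hq
  have hmeas : MeasurableSet (Icc (z - δ) (z + δ) ×ˢ Icc (v - δ) (v + δ)) :=
    measurableSet_Icc.prod measurableSet_Icc
  have hvol : volume (Icc (z - δ) (z + δ) ×ˢ Icc (v - δ) (v + δ)) =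
      ENNReal.ofReal (2 * δ * (2 * δ)) := by
    rw [Measure.volume_eq_prod, Measure.prod_prod, Real.volume_Icc, Real.volume_Icc,
      ← ENNReal.ofReal_mul (by linarith)]
    congr 1
    ring
  obtain ⟨L, hL⟩ : ∃ L, L = (ENNReal.ofReal (m * Real.exp (-(poisson (lg U) z v / p))) *
      Pk k z v) ^ (2 * ω) := ⟨_, rfl⟩
  obtain ⟨F, hF⟩ : ∃ F : ℝ × ℝ → ℝ≥0∞, F = fun q => ENNReal.ofReal ((gg la' U q.1 q.2) ^ 4 /
      q.2 ^ 2 * Real.exp (-(2 * ω * poisson (lg U) q.1 q.2 / p))) * (Pk k q.1 q.2) ^ (2 * ω) :=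
    ⟨_, rfl⟩
  rw [← hL]
  have h1 : L * ENNReal.ofReal (m ^ 2 / v ^ 2) * ENNReal.ofReal (2 * δ * (2 * δ)) ≤
      ENNReal.ofReal (1024 * Real.exp (C / p)) *
        ∫⁻ q in cone μ2 x ∩ {q : ℝ × ℝ | ms ≤ gg la' U q.1 q.2 ∧ y / 4 ≤ q.2 ∧ q.2 ≤ 4 * y},
          F q := by
    calc L * ENNReal.ofReal (m ^ 2 / v ^ 2) * ENNReal.ofReal (2 * δ * (2 * δ))
        = ∫⁻ _q in Icc (z - δ) (z + δ) ×ˢ Icc (v - δ) (v + δ),
            L * ENNReal.ofReal (m ^ 2 / v ^ 2) := by
          rw [setLIntegral_const, hvol]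
      _ ≤ ∫⁻ q in Icc (z - δ) (z + δ) ×ˢ Icc (v - δ) (v + δ),
            ENNReal.ofReal (1024 * Real.exp (C / p)) * F q := by
          refine setLIntegral_mono' hmeas fun q hq => ?_
          obtain ⟨f1, f2, f3, f4, f5, f6⟩ := hsq q hq
          obtain ⟨g1, g2⟩ := abs_le.mp f3
          rw [hL, hF]
          exact Sup.one hp hω hω2 hm1 (by linarith) rfl f4 f6 hv0 (by linarith) (by linarith)
            (Sup.Pk_le k hv0 f2 f3)
      _ = ENNReal.ofReal (1024 * Real.exp (C / p)) *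
            ∫⁻ q in Icc (z - δ) (z + δ) ×ˢ Icc (v - δ) (v + δ), F q :=
          lintegral_const_mul' _ _ ENNReal.ofReal_ne_top
      _ ≤ _ := by
          gcongr
          intro q hq
          obtain ⟨f1, f2, f3, f4, f5, f6⟩ := hsq q hq
          obtain ⟨g1, g2⟩ := abs_le.mp f3
          exact ⟨⟨f1, by linarith⟩, f5, by linarith, by linarith⟩
  have h2 : L * ENNReal.ofReal (m ^ 2 / v ^ 2) * ENNReal.ofReal (2 * δ * (2 * δ)) =
      L * ENNReal.ofReal (r ^ 2) := by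
    rw [mul_assoc, ← ENNReal.ofReal_mul (by positivity)]
    congr 2
    rw [hδ]
    field_simp
  rw [h2] at h1
  have h3 : L = ENNReal.ofReal (1 / r ^ 2) * (L * ENNReal.ofReal (r ^ 2)) := by
    rw [mul_comm L, ← mul_assoc, ← ENNReal.ofReal_mul (by positivity)]
    have : 1 / r ^ 2 * r ^ 2 = 1 := by field_simp
    rw [this, ENNReal.ofReal_one, one_mul]
  rw [h3]
  calc ENNReal.ofReal (1 / r ^ 2) * (L * ENNReal.ofReal (r ^ 2))
      ≤ ENNReal.ofReal (1 / r ^ 2) * (ENNReal.ofReal (1024 * Real.exp (C / p)) *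
        ∫⁻ q in cone μ2 x ∩ {q : ℝ × ℝ | ms ≤ gg la' U q.1 q.2 ∧ y / 4 ≤ q.2 ∧ q.2 ≤ 4 * y},
          F q) := mul_le_mul_right h1 _
    _ = _ := by
      rw [← mul_assoc, ← ENNReal.ofReal_mul (by positivity)]
      have e1 : (((1024 * Real.exp (C / p) / r ^ 2).toNNReal : ℝ≥0) : ℝ≥0∞) =
          ENNReal.ofReal (1024 * Real.exp (C / p) / r ^ 2) := rfl
      rw [e1]
      congr 2
      ring

end Pool.Agent.Work.MP_055a27_an.Cr3

end
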