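import Pool.Agent.Work.MP_055a27_an.Bd.B02
import Pool.Agent.Work.MP_055a27_an.Pattern
import Pool.Agent.Work.MP_055a27_an.TestF
import Pool.Agent.Work.MP_055a27_an.WMeas

/-! Bundle of small proof modules (one section per former module). -/

section

/-!
# The bounded analytic function oscillating on an interval
-/

open MeasureTheory Set Filter Topology Complex
open scoped ENNReal NNReal

namespace Pool.Agent.Work.MP_055a27_an

/-- The conformal map `(w - a) / (c - w)`. -/
noncomputable def mob (a c : ℝ) (w : ℂ) : ℂ := (w - a) / (c - w)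

/-- The oscillating function `((w - a) / (c - w)) ^ (i A)`. -/
noncomputable def osc (A a c : ℝ) (w : ℂ) : ℂ := Complex.exp (I * A * Complex.log (mob a c w))

lemma mob_parts {a c z y : ℝ} (hy : y ≠ 0) :
    (mob a c (z + y * I)).re = ((z - a) * (c - z) - y ^ 2) / ((c - z) ^ 2 + y ^ 2) ∧
    (mob a c (z + y * I)).im = y * (c - a) / ((c - z) ^ 2 + y ^ 2) := by
  have hpos : (c - z) ^ 2 + y ^ 2 ≠ 0 := by positivity
  have hpos' : (c - z) * (c - z) + y * y ≠ 0 := by
    have : (c - z) * (c - z) + y * y = (c - z) ^ 2 + y ^ 2 := by ring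
    rw [this]; exact hpos
  unfold mob
  constructor
  · rw [Complex.div_re]
    simp [Complex.normSq_apply]
    field_simp
    ring
  · rw [Complex.div_im]
    simp [Complex.normSq_apply]
    field_simp
    ring

lemma mob_im_pos {a c : ℝ} (hac : a < c) {w : ℂ} (hw : 0 < w.im) : 0 < (mob a c w).im := by
  have hwe : (w.re : ℂ) + w.im * I = w := Complex.re_add_im w
  rw [← hwe, (mob_parts hw.ne').2]
  have : 0 < c - a := by linarith
  positivity

lemma ofReal_sub_ne_zero {w : ℂ} (hw : w.im ≠ 0) (t : ℝ) : (t : ℂ) - w ≠ 0 := by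
  intro h
  have : ((t : ℂ) - w).im = 0 := by rw [h]; simp
  simp at this
  exact hw this

lemma sub_ofReal_ne_zero' {w : ℂ} (hw : w.im ≠ 0) (t : ℝ) : w - (t : ℂ) ≠ 0 := by
  intro h
  have : (w - (t : ℂ)).im = 0 := by rw [h]; simp
  simp at this
  exact hw this

lemma hasDerivAt_osc {A a c : ℝ} (hac : a < c) {w : ℂ} (hw : 0 < w.im) :
    HasDerivAt (osc A a c) (I * A * ((c - a) / ((w - a) * (c - w))) * osc A a c w) w := by
  have h1 : (c : ℂ) - w ≠ 0 := ofReal_sub_ne_zero hw.ne' c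
  have h2 : w - (a : ℂ) ≠ 0 := sub_ofReal_ne_zero' hw.ne' a
  have hm : HasDerivAt (mob a c) ((c - a) / (c - w) ^ 2) w := by
    have e1 : HasDerivAt (fun w : ℂ => w - (a : ℂ)) 1 w := (hasDerivAt_id w).sub_const _
    have e2 : HasDerivAt (fun w : ℂ => (c : ℂ) - w) (-1) w := (hasDerivAt_id w).const_sub _
    have e3 := e1.div e2 h1
    unfold mob
    convert! e3 using 1
    field_simp
    ring
  have hslit : mob a c w ∈ slitPlane := by
    right
    exact (mob_im_pos hac hw).ne'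
  have hl := hm.clog hslit
  have he := (hl.const_mul (I * A)).cexp
  unfold osc
  convert! he using 1
  unfold mob
  field_simp

lemma norm_osc {A a c : ℝ} (w : ℂ) : ‖osc A a c w‖ = Real.exp (-(A * (mob a c w).arg)) := by
  unfold osc
  rw [Complex.norm_exp]
  congr 1
  simp [Complex.log_im]

lemma norm_osc_le_one {A a c : ℝ} (hA : 0 ≤ A) (hac : a < c) {w : ℂ} (hw : 0 < w.im) :
    ‖osc A a c w‖ ≤ 1 := by
  rw [norm_osc, Real.exp_le_one_iff]
  have h1 : 0 ≤ (mob a c w).arg := Complex.arg_nonneg_iff.2 (mob_im_pos hac hw).le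
  have : 0 ≤ A * (mob a c w).arg := by positivity
  linarith

/-- Boundary values inside the interval. -/
lemma tendsto_osc {A a c t : ℝ} (h1 : a < t) (h2 : t < c) :
    Tendsto (fun ε : ℝ => (osc A a c (t + ε * I)).re) (𝓝[>] 0)
      (𝓝 (Real.cos (A * Real.log ((t - a) / (c - t))))) := by
  have hval : (osc A a c (t : ℂ)).re = Real.cos (A * Real.log ((t - a) / (c - t))) := by
    unfold osc mob
    have e1 : ((t : ℂ) - a) / (c - t) = (((t - a) / (c - t) : ℝ) : ℂ) := by push_cast; ring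
    rw [e1, ← Complex.ofReal_log (by
      apply div_nonneg <;> linarith)]
    have e2 : I * (A : ℂ) * ((Real.log ((t - a) / (c - t)) : ℝ) : ℂ) =
        ((A * Real.log ((t - a) / (c - t)) : ℝ) : ℂ) * I := by push_cast; ring
    rw [e2, Complex.exp_ofReal_mul_I_re]
  rw [← hval]
  have hcont : ContinuousAt (fun ε : ℝ => (osc A a c (t + ε * I)).re) 0 := by
    apply Complex.continuous_re.continuousAt.comp
    unfold osc
    apply ContinuousAt.cexp
    apply ContinuousAt.mul continuousAt_const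
    apply ContinuousAt.clog
    · unfold mob
      apply ContinuousAt.div
      · fun_prop
      · fun_prop
      · simp only [ofReal_zero, zero_mul, add_zero]
        have : ((c : ℂ) - t) = ((c - t : ℝ) : ℂ) := by push_cast; ring
        rw [this, Ne, Complex.ofReal_eq_zero]
        linarith
    · simp only [ofReal_zero, zero_mul, add_zero]
      left
      unfold mob
      have e1 : ((t : ℂ) - a) / (c - t) = (((t - a) / (c - t) : ℝ) : ℂ) := by push_cast; ring
      rw [e1, Complex.ofReal_re]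
      apply div_pos <;> linarith
  have h3 := hcont.tendsto
  simp only [ofReal_zero, zero_mul, add_zero] at h3
  exact h3.mono_left nhdsWithin_le_nhds

lemma norm_sub_sq (z y t : ℝ) : ‖((z : ℂ) + y * I) - t‖ ^ 2 = (z - t) ^ 2 + y ^ 2 := by
  rw [← Complex.normSq_eq_norm_sq, Complex.normSq_apply]
  simp
  ring

/-- Comparison of `dschw f` with the derivative of the oscillating function. -/
lemma dschw_sub_le {A a c : ℝ} (hA : 0 ≤ A) (hac : a < c) {f : ℝ → ℝ} (hfm : Measurable f)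
    (hf1 : ∀ t, |f t| ≤ 1) {S : Set ℝ} (hSm : MeasurableSet S) (hS : S ⊆ Ioo a c)
    (hfS : ∀ t ∈ S, f t = Real.cos (A * Real.log ((t - a) / (c - t)))) {z y : ℝ} (hy : 0 < y) :
    ‖dschw f (z + y * I) - I * A * ((c - a) / (((z + y * I) - a) * (c - (z + y * I)))) *
      osc A a c (z + y * I)‖ ≤ (2 / Real.pi) * ∫ t in Sᶜ, 1 / ((z - t) ^ 2 + y ^ 2) := by
  set w : ℂ := z + y * I with hw
  have hwim : 0 < w.im := by simp [hw, hy]
  have hfa : Admissible f := admissible_of_bounded hfm.aestronglyMeasurable hf1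
  have hker := integrable_kernel (z := z) hy
  have hnw : ∀ t : ℝ, ‖w - t‖ ^ 2 = (z - t) ^ 2 + y ^ 2 := fun t => norm_sub_sq z y t
  -- the shifted functions
  set g : ℝ → ℝ → ℝ := fun ε t => (osc A a c (t + ε * I)).re with hg
  have hd : ∀ ε : ℝ, 0 < ε → ∀ ζ : ℂ, 0 ≤ ζ.im →
      HasDerivAt (fun ζ : ℂ => osc A a c (ζ + ε * I))
        (I * A * ((c - a) / (((ζ + ε * I) - a) * (c - (ζ + ε * I)))) * osc A a c (ζ + ε * I)) ζ := by
    intro ε hε ζ hζ
    have h1 : 0 < (ζ + ε * I).im := by simp; linarith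
    have h2 := hasDerivAt_osc (A := A) hac h1
    have h3 : HasDerivAt (fun ζ : ℂ => ζ + ε * I) 1 ζ := (hasDerivAt_id ζ).add_const _
    have h4 := h2.comp ζ h3
    rw [mul_one] at h4
    exact h4
  have hb : ∀ ε : ℝ, 0 < ε → ∀ ζ : ℂ, 0 ≤ ζ.im → ‖osc A a c (ζ + ε * I)‖ ≤ 1 := by
    intro ε hε ζ hζ
    apply norm_osc_le_one hA hac
    simp; linarith
  have hga : ∀ ε : ℝ, 0 < ε → Admissible (g ε) := fun ε hε =>
    admissible_re (F := fun ζ : ℂ => osc A a c (ζ + ε * I))
      (fun ζ hζ => (hd ε hε ζ hζ).differentiableAt) (hb ε hε)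
  have hgd : ∀ ε : ℝ, 0 < ε → dschw (g ε) w =
      I * A * ((c - a) / (((w + ε * I) - a) * (c - (w + ε * I)))) * osc A a c (w + ε * I) := by
    intro ε hε
    apply dschw_eq (hga ε hε) hwim (hd ε hε w hwim.le)
    intro z' y' hy'
    exact poisson_re (F := fun ζ : ℂ => osc A a c (ζ + ε * I))
      (fun ζ hζ => (hd ε hε ζ hζ).differentiableAt) (hb ε hε) hy'
  have hgm : ∀ ε : ℝ, 0 < ε → Continuous (g ε) := by
    intro ε hε
    rw [continuous_iff_continuousAt]
    intro t
    have h1 : ContinuousAt (fun ζ : ℂ => osc A a c (ζ + ε * I)) (t : ℂ) :=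
      (hd ε hε t (by simp)).continuousAt
    exact Complex.continuous_re.continuousAt.comp
      (ContinuousAt.comp (f := fun t : ℝ => (t : ℂ)) h1 Complex.continuous_ofReal.continuousAt)
  have hg1 : ∀ ε : ℝ, 0 < ε → ∀ t : ℝ, |g ε t| ≤ 1 := by
    intro ε hε t
    exact (Complex.abs_re_le_norm _).trans (hb ε hε t (by simp))
  -- integrability of bounded functions against the complex kernel
  have hInt : ∀ h : ℝ → ℝ, Measurable h → (∀ t, |h t| ≤ 1) →
      Integrable (fun t : ℝ => (h t : ℂ) / (w - t) ^ 2) volume := by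
    intro h hm h1
    apply Integrable.mono' hker
    · apply Measurable.aestronglyMeasurable
      apply Measurable.div
      · exact Complex.measurable_ofReal.comp hm
      · fun_prop
    · refine Eventually.of_forall fun t => ?_
      rw [norm_div, norm_pow, hnw, Complex.norm_real, Real.norm_eq_abs]
      have : 0 < (z - t) ^ 2 + y ^ 2 := by positivity
      gcongr
      exact h1 t
  have hIntR : ∀ h : ℝ → ℝ, Measurable h → (∀ t, |h t| ≤ 2) →
      Integrable (fun t : ℝ => |h t| * (1 / ((z - t) ^ 2 + y ^ 2))) volume := by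
    intro h hm h1
    refine hker.bdd_mul (c := 2) ?_ (Eventually.of_forall fun t => ?_)
    · exact hm.abs.aestronglyMeasurable
    · rw [Real.norm_eq_abs, abs_abs]
      exact h1 t
  have hdiff : ∀ ε : ℝ, 0 < ε → ‖dschw f w - dschw (g ε) w‖ ≤
      (1 / Real.pi) * ((∫ t in S, |f t - g ε t| * (1 / ((z - t) ^ 2 + y ^ 2))) +
        ∫ t in Sᶜ, 2 * (1 / ((z - t) ^ 2 + y ^ 2))) := by
    intro ε hε
    unfold dschw
    rw [← mul_sub, ← integral_sub (hInt f hfm hf1) (hInt (g ε) (hgm ε hε).measurable (hg1 ε hε)),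
      norm_mul, norm_neg, norm_div, norm_I, Complex.norm_real, Real.norm_eq_abs,
      abs_of_pos Real.pi_pos]
    apply mul_le_mul_of_nonneg_left _ (by positivity)
    have hm2 : Measurable (fun t => f t - g ε t) := hfm.sub (hgm ε hε).measurable
    have hb2 : ∀ t, |f t - g ε t| ≤ 2 := by
      intro t
      have h1 := hf1 t
      have h2 := hg1 ε hε t
      calc |f t - g ε t| ≤ |f t| + |g ε t| := abs_sub _ _
        _ ≤ 2 := by linarith
    have hI2 := hIntR _ hm2 hb2
    calc ‖∫ t : ℝ, ((f t : ℂ) / (w - t) ^ 2 - (g ε t : ℂ) / (w - t) ^ 2)‖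
        ≤ ∫ t : ℝ, |f t - g ε t| * (1 / ((z - t) ^ 2 + y ^ 2)) := by
          refine (norm_integral_le_integral_norm _).trans (le_of_eq ?_)
          apply integral_congr_ae
          refine Eventually.of_forall fun t => ?_
          simp only
          rw [← sub_div, norm_div, norm_pow, hnw, ← Complex.ofReal_sub, Complex.norm_real,
            Real.norm_eq_abs]
          ring
      _ = (∫ t in S, |f t - g ε t| * (1 / ((z - t) ^ 2 + y ^ 2))) +
          ∫ t in Sᶜ, |f t - g ε t| * (1 / ((z - t) ^ 2 + y ^ 2)) :=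
          (integral_add_compl hSm hI2).symm
      _ ≤ _ := by
          apply add_le_add le_rfl
          apply setIntegral_mono
          · exact hI2.integrableOn
          · exact (hker.const_mul 2).integrableOn
          · intro t
            simp only
            have : 0 ≤ 1 / ((z - t) ^ 2 + y ^ 2) := by positivity
            exact mul_le_mul_of_nonneg_right (hb2 t) this
  -- limits
  have hlim1 : Tendsto (fun ε : ℝ => ∫ t in S, |f t - g ε t| * (1 / ((z - t) ^ 2 + y ^ 2)))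
      (𝓝[>] 0) (𝓝 0) := by
    suffices hsuff : Tendsto (fun ε : ℝ => ∫ t in S, |f t - g ε t| * (1 / ((z - t) ^ 2 + y ^ 2)))
        (𝓝[>] 0) (𝓝 (∫ _ in S, (0 : ℝ))) by simpa using hsuff
    apply tendsto_integral_filter_of_dominated_convergence
      (fun t => 2 * (1 / ((z - t) ^ 2 + y ^ 2)))
    · filter_upwards [self_mem_nhdsWithin] with ε hε
      have hm2 : Measurable (fun t => f t - g ε t) := hfm.sub (hgm ε hε).measurable
      apply Measurable.aestronglyMeasurable
      apply hm2.abs.mul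
      fun_prop
    · filter_upwards [self_mem_nhdsWithin] with ε hε
      refine Eventually.of_forall fun t => ?_
      have h3 : 0 ≤ 1 / ((z - t) ^ 2 + y ^ 2) := by positivity
      rw [Real.norm_eq_abs, abs_mul, abs_abs, abs_of_nonneg h3]
      apply mul_le_mul_of_nonneg_right _ h3
      have h1 := hf1 t
      have h2 := hg1 ε hε t
      calc |f t - g ε t| ≤ |f t| + |g ε t| := abs_sub _ _
        _ ≤ 2 := by linarith
    · exact (hker.const_mul 2).integrableOn
    · rw [ae_restrict_iff' hSm]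
      refine Eventually.of_forall fun t ht => ?_
      have h1 := tendsto_osc (A := A) (hS ht).1 (hS ht).2
      rw [← hfS t ht] at h1
      have h2 : Tendsto (fun ε : ℝ => |f t - g ε t| * (1 / ((z - t) ^ 2 + y ^ 2))) (𝓝[>] 0)
          (𝓝 (|f t - f t| * (1 / ((z - t) ^ 2 + y ^ 2)))) :=
        ((h1.const_sub (f t)).abs).mul_const _
      simpa using h2
  have hlim2 : Tendsto (fun ε : ℝ => dschw (g ε) w) (𝓝[>] 0)
      (𝓝 (I * A * ((c - a) / ((w - a) * (c - w))) * osc A a c w)) := by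
    have h1 : Tendsto (fun ε : ℝ => I * A * ((c - a) / (((w + ε * I) - a) * (c - (w + ε * I)))) *
        osc A a c (w + ε * I)) (𝓝[>] 0)
        (𝓝 (I * A * ((c - a) / ((w - a) * (c - w))) * osc A a c w)) := by
      have hcont : ContinuousAt (fun ε : ℝ => I * A * ((c - a) /
          (((w + ε * I) - a) * (c - (w + ε * I)))) * osc A a c (w + ε * I)) 0 := by
        apply ContinuousAt.mul
        · apply ContinuousAt.mul continuousAt_const
          apply ContinuousAt.div
          · fun_prop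
          · fun_prop
          · simp only [ofReal_zero, zero_mul, add_zero]
            exact mul_ne_zero (sub_ofReal_ne_zero' hwim.ne' a) (ofReal_sub_ne_zero hwim.ne' c)
        · have h2 : ContinuousAt (osc A a c) (w + ((0 : ℝ) : ℂ) * I) := by
            simp only [ofReal_zero, zero_mul, add_zero]
            exact (hasDerivAt_osc hac hwim).continuousAt
          exact ContinuousAt.comp (f := fun ε : ℝ => w + (ε : ℂ) * I) h2 (by fun_prop)
      have h3 := hcont.tendsto
      simp only [ofReal_zero, zero_mul, add_zero] at h3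
      exact h3.mono_left nhdsWithin_le_nhds
    apply h1.congr'
    filter_upwards [self_mem_nhdsWithin] with ε hε
    exact (hgd ε hε).symm
  have hlimL : Tendsto (fun ε : ℝ => ‖dschw f w - dschw (g ε) w‖) (𝓝[>] 0)
      (𝓝 ‖dschw f w - I * A * ((c - a) / ((w - a) * (c - w))) * osc A a c w‖) :=
    (hlim2.const_sub _).norm
  have hlimR : Tendsto (fun ε : ℝ => (1 / Real.pi) *
      ((∫ t in S, |f t - g ε t| * (1 / ((z - t) ^ 2 + y ^ 2))) +
        ∫ t in Sᶜ, 2 * (1 / ((z - t) ^ 2 + y ^ 2)))) (𝓝[>] 0)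
      (𝓝 ((1 / Real.pi) * (0 + ∫ t in Sᶜ, 2 * (1 / ((z - t) ^ 2 + y ^ 2))))) :=
    (hlim1.add_const _).const_mul _
  have hfinal := le_of_tendsto_of_tendsto hlimL hlimR (by
    filter_upwards [self_mem_nhdsWithin] with ε hε
    exact hdiff ε hε)
  refine hfinal.trans (le_of_eq ?_)
  rw [zero_add, integral_const_mul]
  ring

end Pool.Agent.Work.MP_055a27_an

end

section

/-!
# Pointwise lower bound for the gradient of the multi-level function
-/

open MeasureTheory Set Filter Topology Complex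
open scoped ENNReal NNReal

namespace Pool.Agent.Work.MP_055a27_an

/-- Lower bound for the derivative of the oscillating function at height `≈ ρ / A`. -/
lemma osc_deriv_lower {A a c ρ z y : ℝ} (hA : 16 ≤ A) (hρ : 0 < ρ)
    (hP : 7 / 8 * ρ ≤ z - a) (hQ : 7 / 8 * ρ ≤ c - z)
    (hmin : z - a ≤ 9 / 8 * ρ ∨ c - z ≤ 9 / 8 * ρ) (hy1 : ρ / A ≤ y) (hy2 : y ≤ 2 * ρ / A) :
    A * Real.exp (-10) / (2 * ρ) ≤
      ‖I * A * ((c - a) / (((z + y * I) - a) * (c - (z + y * I)))) * osc A a c (z + y * I)‖ := by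
  have hA0 : 0 < A := by linarith
  have hy0 : 0 < y := lt_of_lt_of_le (by positivity) hy1
  set P : ℝ := z - a with hPdef
  set Q : ℝ := c - z with hQdef
  have hP0 : 0 < P := lt_of_lt_of_le (by positivity) hP
  have hQ0 : 0 < Q := lt_of_lt_of_le (by positivity) hQ
  have hac : a < c := by
    have : c - a = P + Q := by rw [hPdef, hQdef]; ring
    linarith
  have hy8 : y ≤ ρ / 8 := by
    refine hy2.trans ?_
    rw [div_le_div_iff₀ hA0 (by norm_num)]
    nlinarith
  have hAy : A * y ≤ 2 * ρ := by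
    rw [le_div_iff₀ hA0] at hy2
    linarith
  have hρP : ρ ≤ 8 / 7 * P := by linarith
  have hρQ : ρ ≤ 8 / 7 * Q := by linarith
  have hPQ : 49 / 64 * ρ ^ 2 ≤ P * Q := by
    calc 49 / 64 * ρ ^ 2 = (7 / 8 * ρ) * (7 / 8 * ρ) := by ring
      _ ≤ P * Q := mul_le_mul hP hQ (by positivity) hP0.le
  have hy2' : y ^ 2 ≤ ρ ^ 2 / 64 := by
    calc y ^ 2 ≤ (ρ / 8) ^ 2 := pow_le_pow_left₀ hy0.le hy8 2
      _ = ρ ^ 2 / 64 := by ring
  have hre : 0 < P * Q - y ^ 2 := by nlinarith
  -- the argument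
  have hmre : (mob a c (z + y * I)).re = (P * Q - y ^ 2) / ((c - z) ^ 2 + y ^ 2) :=
    (mob_parts hy0.ne').1
  have hmim : (mob a c (z + y * I)).im = y * (P + Q) / ((c - z) ^ 2 + y ^ 2) := by
    rw [(mob_parts hy0.ne').2]
    congr 1
    rw [hPdef, hQdef]; ring
  have hden : 0 < (c - z) ^ 2 + y ^ 2 := by positivity
  have hmre0 : 0 < (mob a c (z + y * I)).re := by rw [hmre]; positivity
  have harg : A * (mob a c (z + y * I)).arg ≤ 10 := by
    have h1 : |(mob a c (z + y * I)).arg| < Real.pi / 2 :=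
      Complex.abs_arg_lt_pi_div_two_iff.2 (Or.inl hmre0)
    have h2 : 0 ≤ (mob a c (z + y * I)).arg := by
      apply Complex.arg_nonneg_iff.2
      rw [hmim]
      positivity
    have h3 : (mob a c (z + y * I)).arg ≤ Real.tan (mob a c (z + y * I)).arg := by
      apply Real.le_tan h2
      exact lt_of_le_of_lt (le_abs_self _) h1
    rw [Complex.tan_arg, hmre, hmim, div_div_div_cancel_right₀ hden.ne'] at h3
    have h4 : A * (y * (P + Q) / (P * Q - y ^ 2)) ≤ 10 := by
      rw [mul_div_assoc', div_le_iff₀ hre]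
      have e1 : ρ * (P + Q) ≤ 16 / 7 * (P * Q) := by
        have : ρ * P ≤ 8 / 7 * Q * P := by gcongr
        have : ρ * Q ≤ 8 / 7 * P * Q := by gcongr
        nlinarith
      calc A * (y * (P + Q)) = (A * y) * (P + Q) := by ring
        _ ≤ (2 * ρ) * (P + Q) := by gcongr
        _ ≤ 32 / 7 * (P * Q) := by linarith
        _ ≤ 10 * (P * Q - y ^ 2) := by nlinarith
    calc A * (mob a c (z + y * I)).arg ≤ A * (y * (P + Q) / (P * Q - y ^ 2)) := by gcongr
      _ ≤ 10 := h4
  have hosc : Real.exp (-10) ≤ ‖osc A a c (z + y * I)‖ := by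
    rw [norm_osc]
    apply Real.exp_le_exp.2
    linarith
  -- the factor
  have hn1 : ‖((z : ℂ) + y * I) - a‖ ≤ P + y := by
    have e : ((z : ℂ) + y * I) - a = ((P : ℝ) : ℂ) + ((y : ℝ) : ℂ) * I := by
      rw [hPdef]; push_cast; ring
    rw [e]
    refine (norm_add_le _ _).trans ?_
    rw [norm_mul, norm_I, mul_one, Complex.norm_real, Complex.norm_real, Real.norm_eq_abs,
      Real.norm_eq_abs, abs_of_pos hP0, abs_of_pos hy0]
  have hn2 : ‖(c : ℂ) - (z + y * I)‖ ≤ Q + y := by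
    have e : (c : ℂ) - (z + y * I) = ((Q : ℝ) : ℂ) - ((y : ℝ) : ℂ) * I := by
      rw [hQdef]; push_cast; ring
    rw [e]
    refine (norm_sub_le _ _).trans ?_
    rw [norm_mul, norm_I, mul_one, Complex.norm_real, Complex.norm_real, Real.norm_eq_abs,
      Real.norm_eq_abs, abs_of_pos hQ0, abs_of_pos hy0]
  have hn1' : 0 < ‖((z : ℂ) + y * I) - a‖ := norm_pos_iff.2
    (sub_ofReal_ne_zero' (by simp; exact hy0.ne') a)
  have hn2' : 0 < ‖(c : ℂ) - (z + y * I)‖ := norm_pos_iff.2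
    (ofReal_sub_ne_zero (by simp; exact hy0.ne') c)
  have hfac : 1 / (2 * ρ) ≤ (P + Q) / (‖((z : ℂ) + y * I) - a‖ * ‖(c : ℂ) - (z + y * I)‖) := by
    rw [div_le_div_iff₀ (by positivity) (by positivity), one_mul]
    have e1 : P * Q ≤ 9 / 8 * ρ * (P + Q) := by
      rcases hmin with h | h
      · have h7 : P * Q ≤ 9 / 8 * ρ * Q := by gcongr
        have h8 := mul_pos hρ hP0
        linarith
      · have h7 : P * Q ≤ P * (9 / 8 * ρ) := by gcongr
        have h8 := mul_pos hρ hQ0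
        linarith
    have e2 : y * (P + Q) ≤ ρ / 8 * (P + Q) := by gcongr
    have e3 : y ^ 2 ≤ ρ / 8 * (P + Q) := by
      have h7 : ρ * (7 / 8 * ρ) ≤ ρ * P := by gcongr
      have h8 := mul_pos hρ hQ0
      have h9 : ρ * (7 / 8 * ρ) = 7 / 8 * ρ ^ 2 := by ring
      have h10 : 0 < ρ ^ 2 := by positivity
      linarith
    calc ‖((z : ℂ) + y * I) - a‖ * ‖(c : ℂ) - (z + y * I)‖ ≤ (P + y) * (Q + y) := by gcongr
      _ = P * Q + y * (P + Q) + y ^ 2 := by ring
      _ ≤ (P + Q) * (2 * ρ) := by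
        have h7 := mul_pos hρ hP0
        have h8 := mul_pos hρ hQ0
        linarith
  have hca : ‖((c : ℂ) - a)‖ = P + Q := by
    have e : (c : ℂ) - a = ((P + Q : ℝ) : ℂ) := by
      rw [hPdef, hQdef]; push_cast; ring
    rw [e, Complex.norm_real, Real.norm_eq_abs, abs_of_pos (by positivity)]
  rw [norm_mul, norm_mul, norm_mul, norm_I, one_mul, Complex.norm_real, Real.norm_eq_abs,
    abs_of_pos hA0, norm_div, hca, norm_mul]
  calc A * Real.exp (-10) / (2 * ρ) = A * (1 / (2 * ρ)) * Real.exp (-10) := by ring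
    _ ≤ A * ((P + Q) / (‖((z : ℂ) + y * I) - a‖ * ‖(c : ℂ) - (z + y * I)‖)) *
        ‖osc A a c (z + y * I)‖ := by
        gcongr

/-- Bound for the error integral. -/
lemma error_bound {A ρ x z y : ℝ} (hA : 16 ≤ A) (hρ : 0 < ρ) {S B : Set ℝ}
    (hBm : MeasurableSet B) (hB : volume B ≤ ENNReal.ofReal (ρ / A ^ 2))
    (hS : ∀ t, t ∉ S → t ∈ B ∨ ρ ≤ |t - x|) (hz : |z - x| ≤ ρ / 8)
    (hy1 : ρ / A ≤ y) :
    (2 / Real.pi) * ∫ t in Sᶜ, 1 / ((z - t) ^ 2 + y ^ 2) ≤ 7 / ρ := by
  have hA0 : 0 < A := by linarith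
  have hy0 : 0 < y := lt_of_lt_of_le (by positivity) hy1
  have hker := integrable_kernel (z := z) hy0
  have hkerρ := integrable_kernel (z := x) hρ
  set T : Set ℝ := {t | ρ ≤ |t - x|} with hT
  have hTm : MeasurableSet T := by
    apply measurableSet_le measurable_const
    fun_prop
  have hnn : ∀ t : ℝ, 0 ≤ 1 / ((z - t) ^ 2 + y ^ 2) := fun t => by positivity
  have hsub : Sᶜ ⊆ B ∪ T := fun t ht => hS t ht
  have h1 : ∫ t in Sᶜ, 1 / ((z - t) ^ 2 + y ^ 2) ≤ ∫ t in B ∪ T, 1 / ((z - t) ^ 2 + y ^ 2) := by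
    apply setIntegral_mono_set hker.integrableOn
    · exact Eventually.of_forall hnn
    · exact hsub.eventuallyLE
  have h2 : ∫ t in B ∪ T, 1 / ((z - t) ^ 2 + y ^ 2) ≤
      (∫ t in B, 1 / ((z - t) ^ 2 + y ^ 2)) + ∫ t in T, 1 / ((z - t) ^ 2 + y ^ 2) := by
    have : B ∪ T = B ∪ (T \ B) := by simp
    rw [this, setIntegral_union disjoint_sdiff_right (hTm.diff hBm) hker.integrableOn
      hker.integrableOn]
    apply add_le_add le_rfl
    apply setIntegral_mono_set hker.integrableOn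
    · exact Eventually.of_forall hnn
    · exact sdiff_subset.eventuallyLE
  have h3 : ∫ t in B, 1 / ((z - t) ^ 2 + y ^ 2) ≤ 1 / ρ := by
    have hBfin : volume B < ∞ := lt_of_le_of_lt hB ENNReal.ofReal_lt_top
    calc ∫ t in B, 1 / ((z - t) ^ 2 + y ^ 2) ≤ ∫ _ in B, A ^ 2 / ρ ^ 2 := by
          apply setIntegral_mono_on hker.integrableOn
          · exact integrableOn_const hBfin.ne
          · exact hBm
          · intro t _
            have h4 : (ρ / A) ^ 2 ≤ y ^ 2 := pow_le_pow_left₀ (by positivity) hy1 2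
            have h5 : (ρ / A) ^ 2 ≤ (z - t) ^ 2 + y ^ 2 := by nlinarith [sq_nonneg (z - t)]
            calc 1 / ((z - t) ^ 2 + y ^ 2) ≤ 1 / (ρ / A) ^ 2 := by gcongr
              _ = A ^ 2 / ρ ^ 2 := by field_simp
      _ = volume.real B * (A ^ 2 / ρ ^ 2) := by rw [setIntegral_const, smul_eq_mul]
      _ ≤ (ρ / A ^ 2) * (A ^ 2 / ρ ^ 2) := by
          gcongr
          exact ENNReal.toReal_le_of_le_ofReal (by positivity) hB
      _ = 1 / ρ := by field_simp
  have h4 : ∫ t in T, 1 / ((z - t) ^ 2 + y ^ 2) ≤ 128 / 49 * (Real.pi / ρ) := by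
    calc ∫ t in T, 1 / ((z - t) ^ 2 + y ^ 2)
        ≤ ∫ t in T, 128 / 49 * (1 / ((x - t) ^ 2 + ρ ^ 2)) := by
          apply setIntegral_mono_on hker.integrableOn
          · exact (hkerρ.const_mul _).integrableOn
          · exact hTm
          · intro t ht
            have ht' : ρ ≤ |t - x| := ht
            have e1 : 7 / 8 * |t - x| ≤ |z - t| := by
              have : |t - x| ≤ |z - x| + |z - t| := by
                calc |t - x| = |(z - x) - (z - t)| := by ring_nf
                  _ ≤ _ := abs_sub _ _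
              linarith
            have e2 : 49 / 64 * (x - t) ^ 2 ≤ (z - t) ^ 2 := by
              have h6 : (7 / 8 * |t - x|) ^ 2 ≤ |z - t| ^ 2 :=
                pow_le_pow_left₀ (by positivity) e1 2
              rw [sq_abs, mul_pow, sq_abs] at h6
              nlinarith
            have e3 : ρ ^ 2 ≤ (x - t) ^ 2 := by
              have h6 : ρ ^ 2 ≤ |t - x| ^ 2 := pow_le_pow_left₀ hρ.le ht' 2
              rw [sq_abs] at h6
              nlinarith
            rw [mul_one_div, div_le_div_iff₀ (by positivity) (by positivity)]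
            nlinarith [sq_nonneg y]
      _ ≤ ∫ t, 128 / 49 * (1 / ((x - t) ^ 2 + ρ ^ 2)) := by
          apply setIntegral_le_integral (hkerρ.const_mul _)
          exact Eventually.of_forall fun t => by positivity
      _ = 128 / 49 * (Real.pi / ρ) := by rw [integral_const_mul, integral_kernel hρ]
  have hpi := Real.pi_pos
  have hpi3 := Real.pi_gt_three
  calc (2 / Real.pi) * ∫ t in Sᶜ, 1 / ((z - t) ^ 2 + y ^ 2)
      ≤ (2 / Real.pi) * (1 / ρ + 128 / 49 * (Real.pi / ρ)) := by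
        gcongr
        linarith
    _ = (2 / Real.pi + 256 / 49) / ρ := by field_simp; ring
    _ ≤ 7 / ρ := by
        gcongr
        have : 2 / Real.pi ≤ 1 := by
          rw [div_le_one hpi]; linarith
        linarith

/-- The main pointwise lower bound. -/
lemma pw_lower {A : ℝ} (hA : 16 ≤ A) {O : ℕ → Set ℝ} (hO : Antitone O)
    (hopen : ∀ l, IsOpen (O l)) (hc : ∀ l, CoUnb (O l)) {n l : ℕ} (hl : l < n) {x z y : ℝ}
    (hx : x ∈ O l)
    (hweak : volume (O (l + 1) ∩ Ioo (x - rho (O l) x) (x + rho (O l) x)) ≤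
      ENNReal.ofReal (rho (O l) x / A ^ 2))
    (hz : |z - x| ≤ rho (O l) x / 8) (hy1 : rho (O l) x / A ≤ y) (hy2 : y ≤ 2 * rho (O l) x / A) :
    (A * Real.exp (-10) / 2 - 7) / rho (O l) x ≤ ‖dschw (mlf A O n) (z + y * I)‖ := by
  set ρ : ℝ := rho (O l) x with hρdef
  have hρ : 0 < ρ := rho_pos (hopen l) (hc l) hx
  have hA0 : 0 < A := by linarith
  have hy0 : 0 < y := lt_of_lt_of_le (by positivity) hy1
  set a : ℝ := lft (O l) x with ha
  set c : ℝ := rgt (O l) x with hcdef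
  have hax : a < x := lft_lt (hopen l) (hc l) hx
  have hxc : x < c := lt_rgt (hopen l) (hc l) hx
  have hac : a < c := hax.trans hxc
  have hρ1 : ρ ≤ x - a := min_le_left _ _
  have hρ2 : ρ ≤ c - x := min_le_right _ _
  have hz' := abs_le.1 hz
  set S : Set ℝ := Ioo a c \ O (l + 1) with hS
  have hSm : MeasurableSet S := measurableSet_Ioo.diff (hopen (l + 1)).measurableSet
  have hSsub : S ⊆ Ioo a c := sdiff_subset
  have hfS : ∀ t ∈ S, mlf A O n t = Real.cos (A * Real.log ((t - a) / (c - t))) := by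
    intro t ht
    have h1 : t ∈ O l := Ioo_lft_rgt_subset ht.1
    rw [mlf_eq hO hl ⟨h1, ht.2⟩]
    unfold pat
    rw [lft_eq (hopen l) (hc l) ht.1, rgt_eq (hopen l) (hc l) ht.1]
  have key := dschw_sub_le (A := A) hA0.le hac (measurable_mlf hopen hc n)
    (abs_mlf_le hO n) hSm hSsub hfS (z := z) hy0
  have herr := error_bound (A := A) (ρ := ρ) (x := x) (z := z) (y := y) hA hρ (S := S)
    (B := O (l + 1) ∩ Ioo (x - ρ) (x + ρ)) ((hopen (l + 1)).measurableSet.inter measurableSet_Ioo)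
    hweak (by
      intro t ht
      by_cases h : ρ ≤ |t - x|
      · right; exact h
      · left
        push Not at h
        rw [abs_lt] at h
        have h1 : t ∈ Ioo a c := ⟨by linarith [h.1], by linarith [h.2]⟩
        have h2 : t ∈ O (l + 1) := by
          by_contra hcon
          exact ht ⟨h1, hcon⟩
        exact ⟨h2, by linarith [h.1], by linarith [h.2]⟩) hz hy1
  have hmain := osc_deriv_lower (A := A) (a := a) (c := c) (ρ := ρ) (z := z) (y := y) hA hρ
    (by linarith [hz'.1]) (by linarith [hz'.2]) (by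
      have h1 : ρ = min (x - a) (c - x) := rfl
      rcases le_total (x - a) (c - x) with h | h
      · left
        rw [min_eq_left h] at h1
        linarith [hz'.2]
      · right
        rw [min_eq_right h] at h1
        linarith [hz'.1]) hy1 hy2
  have htri : ‖I * A * ((c - a) / (((z + y * I) - a) * (c - (z + y * I)))) *
      osc A a c (z + y * I)‖ ≤ ‖dschw (mlf A O n) (z + y * I)‖ +
      ‖dschw (mlf A O n) (z + y * I) - I * A * ((c - a) / (((z + y * I) - a) *
        (c - (z + y * I)))) * osc A a c (z + y * I)‖ := by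
    rw [norm_sub_rev]
    have := norm_add_le (dschw (mlf A O n) (z + y * I)) (I * A * ((c - a) / (((z + y * I) - a) *
        (c - (z + y * I)))) * osc A a c (z + y * I) - dschw (mlf A O n) (z + y * I))
    simpa using this
  have e : (A * Real.exp (-10) / 2 - 7) / ρ = A * Real.exp (-10) / (2 * ρ) - 7 / ρ := by
    field_simp
  rw [e]
  linarith

end Pool.Agent.Work.MP_055a27_an

end

section

/-!
# The oscillating test function `exp (schw f) * (i r / (w - x₀ + i r)) ^ m`
-/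

open MeasureTheory Set Filter Topology Complex
open scoped ENNReal NNReal

namespace Pool.Agent.Work.MP_055a27_an

lemma abs_poisson_le {f : ℝ → ℝ} (hfm : Measurable f) (hf1 : ∀ t, |f t| ≤ 1) {z y : ℝ}
    (hy : 0 < y) : |poisson f z y| ≤ 1 := by
  rw [poisson_eq_integral, abs_mul, abs_of_pos (by positivity : (0:ℝ) < 1 / Real.pi)]
  have hker := integrable_kernel (z := z) hy
  have h1 : |∫ t : ℝ, y * f t / ((z - t) ^ 2 + y ^ 2)| ≤
      ∫ t : ℝ, y * (1 / ((z - t) ^ 2 + y ^ 2)) := by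
    rw [← Real.norm_eq_abs]
    apply norm_integral_le_of_norm_le (hker.const_mul y)
    refine Eventually.of_forall fun t => ?_
    have hpos : 0 < (z - t) ^ 2 + y ^ 2 := by positivity
    rw [Real.norm_eq_abs, abs_div, abs_mul, abs_of_pos hpos, abs_of_pos hy, mul_one_div]
    gcongr
    calc y * |f t| ≤ y * 1 := by gcongr; exact hf1 t
      _ = y := mul_one y
  rw [integral_const_mul, integral_kernel hy] at h1
  calc 1 / Real.pi * |∫ t : ℝ, y * f t / ((z - t) ^ 2 + y ^ 2)|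
      ≤ 1 / Real.pi * (y * (Real.pi / y)) := by gcongr
    _ = 1 := by
      have := Real.pi_ne_zero
      field_simp

/-- The full analytic test function. -/
noncomputable def bigF (f : ℝ → ℝ) (x0 r : ℝ) (m : ℕ) (w : ℂ) : ℂ :=
  Complex.exp (schw f w) * tF x0 r m w

lemma hasDerivAt_bigF {f : ℝ → ℝ} (hf : Admissible f) {x0 r : ℝ} (hr : 0 < r) (m : ℕ) {w : ℂ}
    (hw : 0 < w.im) :
    HasDerivAt (bigF f x0 r m)
      (bigF f x0 r m w * (dschw f w - m / (w - x0 + r * I))) w := by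
  have h1 := (hasDerivAt_schw hf hw).cexp
  have h2 := hasDerivAt_tF (x0 := x0) hr m hw.le
  have h3 := h1.mul h2
  unfold bigF
  convert! h3 using 1
  ring

lemma norm_bigF {f : ℝ → ℝ} (hf : Admissible f) {x0 r : ℝ} {m : ℕ} {w : ℂ}
    (hw : 0 < w.im) :
    ‖bigF f x0 r m w‖ = Real.exp (poisson f w.re w.im) * ‖tF x0 r m w‖ := by
  unfold bigF
  rw [norm_mul, Complex.norm_exp]
  congr 2
  have hwe : (w.re : ℂ) + w.im * I = w := Complex.re_add_im w
  conv_lhs => rw [← hwe]
  exact schw_re hf hw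

lemma norm_bigF_le {f : ℝ → ℝ} (hf : Admissible f) (hfm : Measurable f) (hf1 : ∀ t, |f t| ≤ 1)
    {x0 r : ℝ} {m : ℕ} {w : ℂ} (hw : 0 < w.im) :
    ‖bigF f x0 r m w‖ ≤ Real.exp 1 * ‖tF x0 r m w‖ := by
  rw [norm_bigF hf hw]
  gcongr
  exact (le_abs_self _).trans (abs_poisson_le hfm hf1 hw)

lemma le_norm_bigF {f : ℝ → ℝ} (hf : Admissible f) (hfm : Measurable f) (hf1 : ∀ t, |f t| ≤ 1)
    {x0 r : ℝ} {m : ℕ} {w : ℂ} (hw : 0 < w.im) :
    Real.exp (-1) * ‖tF x0 r m w‖ ≤ ‖bigF f x0 r m w‖ := by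
  rw [norm_bigF hf hw]
  gcongr
  exact (abs_le.1 (abs_poisson_le hfm hf1 hw)).1

/-- The real test function, the real part of the shifted analytic function. -/
noncomputable def tfun (f : ℝ → ℝ) (x0 r : ℝ) (m : ℕ) (ε : ℝ) (t : ℝ) : ℝ :=
  (bigF f x0 r m (t + ε * I)).re

lemma shift_deriv {f : ℝ → ℝ} (hf : Admissible f) {x0 r : ℝ} (hr : 0 < r) (m : ℕ) {ε : ℝ}
    (hε : 0 < ε) {ζ : ℂ} (hζ : 0 ≤ ζ.im) :
    HasDerivAt (fun ζ : ℂ => bigF f x0 r m (ζ + ε * I))
      (bigF f x0 r m (ζ + ε * I) * (dschw f (ζ + ε * I) - m / ((ζ + ε * I) - x0 + r * I))) ζ := by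
  have h1 : 0 < (ζ + ε * I).im := by simp; linarith
  have h2 := hasDerivAt_bigF (x0 := x0) hf hr m h1
  have h3 : HasDerivAt (fun ζ : ℂ => ζ + ε * I) 1 ζ := (hasDerivAt_id ζ).add_const _
  have h4 := h2.comp ζ h3
  rw [mul_one] at h4
  exact h4

lemma shift_bound {f : ℝ → ℝ} (hf : Admissible f) (hfm : Measurable f) (hf1 : ∀ t, |f t| ≤ 1)
    {x0 r : ℝ} (hr : 0 < r) (m : ℕ) {ε : ℝ} (hε : 0 < ε) {ζ : ℂ} (hζ : 0 ≤ ζ.im) :
    ‖bigF f x0 r m (ζ + ε * I)‖ ≤ Real.exp 1 := by
  have h1 : 0 < (ζ + ε * I).im := by simp; linarith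
  calc ‖bigF f x0 r m (ζ + ε * I)‖ ≤ Real.exp 1 * ‖tF x0 r m (ζ + ε * I)‖ :=
        norm_bigF_le hf hfm hf1 h1
    _ ≤ Real.exp 1 * 1 := by
        gcongr
        exact norm_tF_le_one hr h1.le
    _ = Real.exp 1 := mul_one _

lemma admissible_tfun {f : ℝ → ℝ} (hf : Admissible f) (hfm : Measurable f)
    (hf1 : ∀ t, |f t| ≤ 1) {x0 r : ℝ} (hr : 0 < r) (m : ℕ) {ε : ℝ} (hε : 0 < ε) :
    Admissible (tfun f x0 r m ε) :=
  admissible_re (F := fun ζ : ℂ => bigF f x0 r m (ζ + ε * I))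
    (fun _ hζ => (shift_deriv hf hr m hε hζ).differentiableAt)
    (fun _ hζ => shift_bound hf hfm hf1 hr m hε hζ)

lemma poisson_tfun {f : ℝ → ℝ} (hf : Admissible f) (hfm : Measurable f)
    (hf1 : ∀ t, |f t| ≤ 1) {x0 r : ℝ} (hr : 0 < r) (m : ℕ) {ε : ℝ} (hε : 0 < ε)
    {z y : ℝ} (hy : 0 < y) :
    poisson (tfun f x0 r m ε) z y = (bigF f x0 r m ((z + y * I) + ε * I)).re :=
  poisson_re (F := fun ζ : ℂ => bigF f x0 r m (ζ + ε * I))
    (fun _ hζ => (shift_deriv hf hr m hε hζ).differentiableAt)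
    (fun _ hζ => shift_bound hf hfm hf1 hr m hε hζ) hy

lemma gradSq_tfun {f : ℝ → ℝ} (hf : Admissible f) (hfm : Measurable f)
    (hf1 : ∀ t, |f t| ≤ 1) {x0 r : ℝ} (hr : 0 < r) (m : ℕ) {ε : ℝ} (hε : 0 < ε)
    {z y : ℝ} (hy : 0 < y) :
    gradSq (tfun f x0 r m ε) z y = ‖bigF f x0 r m (z + (y + ε : ℝ) * I) *
      (dschw f (z + (y + ε : ℝ) * I) - m / ((z + (y + ε : ℝ) * I) - x0 + r * I))‖ ^ 2 := by
  have him : (0 : ℝ) ≤ ((z : ℂ) + y * I).im := by simp; exact hy.le
  have h := gradSq_of_re (f := tfun f x0 r m ε) (F := fun ζ : ℂ => bigF f x0 r m (ζ + ε * I)) hy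
    (shift_deriv hf hr m hε him)
    (fun z y hy => poisson_tfun hf hfm hf1 hr m hε hy)
  rw [h]
  have e : ((z : ℂ) + y * I) + ε * I = z + (y + ε : ℝ) * I := by push_cast; ring
  rw [e]

lemma ntMax_tfun_le_exp {f : ℝ → ℝ} (hf : Admissible f) (hfm : Measurable f)
    (hf1 : ∀ t, |f t| ≤ 1) {x0 r : ℝ} (hr : 0 < r) (m : ℕ) {ε : ℝ} (hε : 0 < ε) {b x : ℝ} :
    ntMax b (tfun f x0 r m ε) x ≤ ENNReal.ofReal (Real.exp 1) := by
  apply ntMax_le
  intro z y hy _
  rw [poisson_tfun hf hfm hf1 hr m hε hy]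
  refine (Complex.abs_re_le_norm _).trans ?_
  apply shift_bound hf hfm hf1 hr m hε
  simp; exact hy.le

lemma ntMax_tfun_le {f : ℝ → ℝ} (hf : Admissible f) (hfm : Measurable f)
    (hf1 : ∀ t, |f t| ≤ 1) {x0 r : ℝ} (hr : 0 < r) (m : ℕ) {ε : ℝ} (hε : 0 < ε) {b x : ℝ}
    (hb : 0 < b) :
    ntMax b (tfun f x0 r m ε) x ≤ ENNReal.ofReal (Real.exp 1 *
      (r / ((|x - x0| + b * r) / Real.sqrt (1 + b ^ 2))) ^ m) := by
  apply ntMax_le
  intro z y hy hz
  rw [poisson_tfun hf hfm hf1 hr m hε hy]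
  refine (Complex.abs_re_le_norm _).trans ?_
  have e : ((z : ℂ) + y * I) + ε * I = z + (y + ε : ℝ) * I := by push_cast; ring
  rw [e]
  have hyε : 0 < y + ε := by linarith
  have him : 0 < ((z : ℂ) + (y + ε : ℝ) * I).im := by simp; exact hyε
  refine (norm_bigF_le hf hfm hf1 him).trans ?_
  gcongr
  rw [norm_tF hr]
  have h1 : (|x - x0| + b * r) / Real.sqrt (1 + b ^ 2) ≤
      ‖((z : ℂ) + (y + ε : ℝ) * I) - x0 + r * I‖ := by
    apply cone_den_lower hb hr hyε
    refine hz.trans ?_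
    gcongr
    linarith
  have h2 : 0 < (|x - x0| + b * r) / Real.sqrt (1 + b ^ 2) := by positivity
  gcongr

/-- Lower bound for the gradient of the test function at height `≈ ρ / A`. -/
lemma gradSq_tfun_lower {A : ℝ} (hA : 16 ≤ A) {m : ℕ}
    (hAm : 7 + 5 * (m : ℝ) ≤ A * Real.exp (-10) / 4) {O : ℕ → Set ℝ} (hO : Antitone O)
    (hopen : ∀ l, IsOpen (O l)) (hc : ∀ l, CoUnb (O l)) {n l : ℕ} (hl : l < n) {x z y x0 r ε : ℝ}
    (hr : 0 < r) (hε : 0 < ε) (hx : x ∈ O l) (hxx : |x - x0| ≤ 2 * r)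
    (hρr : rho (O l) x ≤ 5 * r)
    (hweak : volume (O (l + 1) ∩ Ioo (x - rho (O l) x) (x + rho (O l) x)) ≤
      ENNReal.ofReal (rho (O l) x / A ^ 2))
    (hz : |z - x| ≤ rho (O l) x / 8) (hy0 : 0 < y) (hy1 : rho (O l) x / A ≤ y + ε)
    (hy2 : y + ε ≤ 2 * rho (O l) x / A) :
    (Real.exp (-11) / 4 * (1 / 5) ^ m * A / rho (O l) x) ^ 2 ≤
      gradSq (tfun (mlf A O n) x0 r m ε) z y := by
  set f : ℝ → ℝ := mlf A O n with hf
  have hfm : Measurable f := measurable_mlf hopen hc n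
  have hf1 : ∀ t, |f t| ≤ 1 := abs_mlf_le hO n
  have hfa : Admissible f := admissible_of_bounded hfm.aestronglyMeasurable hf1
  set ρ : ℝ := rho (O l) x with hρdef
  have hρ : 0 < ρ := rho_pos (hopen l) (hc l) hx
  have hA0 : 0 < A := by linarith
  rw [gradSq_tfun hfa hfm hf1 hr m hε hy0]
  apply pow_le_pow_left₀ (by positivity)
  set w : ℂ := z + (y + ε : ℝ) * I with hw
  have hyε : 0 < y + ε := by linarith
  have him : 0 < w.im := by simp [hw]; exact_mod_cast hyε
  have hpw := pw_lower hA hO hopen hc hl hx hweak hz hy1 hy2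
  have hρ8 : y + ε ≤ ρ / 8 := by
    refine hy2.trans ?_
    rw [div_le_div_iff₀ hA0 (by norm_num)]
    nlinarith
  -- denominator bounds
  have hden : ‖w - x0 + r * I‖ ≤ 5 * r := by
    have e : w - x0 + r * I = ((z - x : ℝ) : ℂ) + ((x - x0 : ℝ) : ℂ) + ((y + ε + r : ℝ) : ℂ) * I := by
      rw [hw]; push_cast; ring
    rw [e]
    calc ‖((z - x : ℝ) : ℂ) + ((x - x0 : ℝ) : ℂ) + ((y + ε + r : ℝ) : ℂ) * I‖
        ≤ ‖((z - x : ℝ) : ℂ)‖ + ‖((x - x0 : ℝ) : ℂ)‖ + ‖((y + ε + r : ℝ) : ℂ) * I‖ := norm_add₃_le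
      _ = |z - x| + |x - x0| + (y + ε + r) := by
          rw [norm_mul, norm_I, mul_one, Complex.norm_real, Complex.norm_real, Complex.norm_real,
            Real.norm_eq_abs, Real.norm_eq_abs, Real.norm_eq_abs,
            abs_of_pos (by linarith : 0 < y + ε + r)]
      _ ≤ 5 * r := by linarith
  have hdenr : r ≤ ‖w - x0 + r * I‖ := le_norm_den hr him.le
  have hden0 : 0 < ‖w - x0 + r * I‖ := lt_of_lt_of_le hr hdenr
  have htF : (1 / 5 : ℝ) ^ m ≤ ‖tF x0 r m w‖ := by
    rw [norm_tF hr]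
    apply pow_le_pow_left₀ (by norm_num)
    rw [div_le_div_iff₀ (by norm_num) hden0]
    linarith
  have hm : ‖(m : ℂ) / (w - x0 + r * I)‖ ≤ 5 * m / ρ := by
    rw [norm_div, Complex.norm_natCast]
    calc (m : ℝ) / ‖w - x0 + r * I‖ ≤ m / r := by gcongr
      _ ≤ 5 * m / ρ := by
        rw [div_le_div_iff₀ hr hρ]
        have : (0 : ℝ) ≤ m := Nat.cast_nonneg m
        nlinarith
  have hd : A * Real.exp (-10) / 4 / ρ ≤ ‖dschw f w - m / (w - x0 + r * I)‖ := by
    have h1 : ‖dschw f w‖ ≤ ‖dschw f w - m / (w - x0 + r * I)‖ + ‖(m : ℂ) / (w - x0 + r * I)‖ := by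
      have := norm_add_le (dschw f w - m / (w - x0 + r * I)) ((m : ℂ) / (w - x0 + r * I))
      simpa using this
    have h2 : (A * Real.exp (-10) / 2 - 7) / ρ - 5 * m / ρ ≤
        ‖dschw f w - m / (w - x0 + r * I)‖ := by linarith
    refine le_trans ?_ h2
    rw [← sub_div]
    gcongr
    linarith
  have hF := le_norm_bigF (x0 := x0) (r := r) (m := m) hfa hfm hf1 him
  rw [norm_mul]
  calc Real.exp (-11) / 4 * (1 / 5) ^ m * A / ρ
      = (Real.exp (-1) * (1 / 5) ^ m) * (A * Real.exp (-10) / 4 / ρ) := by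
        have : Real.exp (-11) = Real.exp (-1) * Real.exp (-10) := by
          rw [← Real.exp_add]; norm_num
        rw [this]; ring
    _ ≤ (Real.exp (-1) * ‖tF x0 r m w‖) * ‖dschw f w - m / (w - x0 + r * I)‖ := by gcongr
    _ ≤ ‖bigF f x0 r m w‖ * ‖dschw f w - m / (w - x0 + r * I)‖ := by gcongr

/-- Lower bound for the area integral of the test function. -/
lemma area_tfun_lower {lam A : ℝ} (hlam : 0 < lam) (hA : 16 ≤ A) (hAl : 8 * lam ≤ A) {m : ℕ}
    (hAm : 7 + 5 * (m : ℝ) ≤ A * Real.exp (-10) / 4) {O : ℕ → Set ℝ} (hO : Antitone O)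
    (hopen : ∀ l, IsOpen (O l)) (hc : ∀ l, CoUnb (O l)) {n : ℕ} {x x0 r ε : ℝ}
    (hr : 0 < r) (hε : 0 < ε) (hx : ∀ l ≤ n, x ∈ O l) (hxx : |x - x0| ≤ 2 * r)
    (hρr : ∀ l ≤ n, rho (O l) x ≤ 5 * r)
    (hweak : ∀ l < n, volume (O (l + 1) ∩ Ioo (x - rho (O l) x) (x + rho (O l) x)) ≤
      ENNReal.ofReal (rho (O l) x / A ^ 2))
    (hεx : 2 * A * ε ≤ rho (O n) x) :
    ENNReal.ofReal (n * ((Real.exp (-11) / 4 * (1 / 5) ^ m) ^ 2 * lam / 2)) ≤
      ∫⁻ q in cone lam x, ENNReal.ofReal (gradSq (tfun (mlf A O n) x0 r m ε) q.1 q.2) := by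
  have hA0 : 0 < A := by linarith
  set ρ : ℕ → ℝ := fun l => rho (O l) x with hρdef
  have hρpos : ∀ l ≤ n, 0 < ρ l := fun l hl => rho_pos (hopen l) (hc l) (hx l hl)
  have hρmono : ∀ l l', l ≤ l' → ρ l' ≤ ρ l := fun l l' hll =>
    rho_mono (hopen l) (hc l) (hO hll) x
  have hρhalf : ∀ l < n, ρ (l + 1) ≤ ρ l / 2 := by
    intro l hl
    have h1 : Ioo (x - ρ (l + 1)) (x + ρ (l + 1)) ⊆ O (l + 1) ∩ Ioo (x - ρ l) (x + ρ l) := by
      intro t ht
      refine ⟨ball_rho_subset ht, ?_⟩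
      have := hρmono l (l + 1) (Nat.le_succ l)
      exact ⟨by linarith [ht.1], by linarith [ht.2]⟩
    have h2 := (measure_mono h1).trans (hweak l hl)
    rw [Real.volume_Ioo] at h2
    have hpos : 0 < ρ l := hρpos l hl.le
    have h3 : x + ρ (l + 1) - (x - ρ (l + 1)) ≤ ρ l / A ^ 2 := by
      exact (ENNReal.ofReal_le_ofReal_iff (by positivity)).1 h2
    have h4 : ρ l / A ^ 2 ≤ ρ l := by
      apply div_le_self hpos.le
      nlinarith
    linarith
  set W : ℕ → Set (ℝ × ℝ) := fun l => {q : ℝ × ℝ | q.2 ∈ Icc (ρ l / A) (3 / 2 * (ρ l / A)) ∧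
    q.1 ∈ Icc ((fun _ => x) q.2) ((fun _ => x) q.2 + lam * (ρ l / A))} with hW
  have hWm : ∀ l, MeasurableSet (W l) := fun l => measurableSet_strip measurable_const
  have hWv : ∀ l, volume (W l) = ENNReal.ofReal (lam * (ρ l / A)) *
      ENNReal.ofReal (3 / 2 * (ρ l / A) - ρ l / A) := fun l => volume_strip measurable_const
  have hWpt : ∀ l < n, ∀ q ∈ W l, 0 < q.2 ∧ |x - q.1| ≤ lam * q.2 ∧ |q.1 - x| ≤ ρ l / 8 := by
    rintro l hl ⟨z, y⟩ ⟨hy, hz⟩
    simp only at hy hz ⊢
    have hpos : 0 < ρ l := hρpos l hl.le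
    have hpos2 : 0 < ρ l / A := by positivity
    have h1 : lam * (ρ l / A) ≤ ρ l / 8 := by
      rw [mul_div_assoc', div_le_div_iff₀ hA0 (by norm_num)]
      nlinarith
    refine ⟨lt_of_lt_of_le hpos2 hy.1, ?_, ?_⟩
    · rw [abs_sub_comm, abs_of_nonneg (by linarith [hz.1])]
      calc z - x ≤ lam * (ρ l / A) := by linarith [hz.2]
        _ ≤ lam * y := by gcongr; exact hy.1
    · rw [abs_of_nonneg (by linarith [hz.1])]
      linarith [hz.2]
  have hWcone : ∀ l < n, W l ⊆ cone lam x := fun l hl q hq =>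
    ⟨(hWpt l hl q hq).2.1, (hWpt l hl q hq).1⟩
  have hdisj : (↑(Finset.range n) : Set ℕ).PairwiseDisjoint W := by
    have key : ∀ l l', l < l' → l' < n → Disjoint (W l) (W l') := by
      intro l l' hll hl'
      rw [Set.disjoint_left]
      rintro ⟨z, y⟩ ⟨hy, -⟩ ⟨hy', -⟩
      simp only at hy hy'
      have h1 : ρ l' ≤ ρ (l + 1) := hρmono _ _ hll
      have h2 := hρhalf l (hll.trans hl')
      have hpos : 0 < ρ l := hρpos l (hll.trans hl').le
      have h3 : 3 / 2 * (ρ l' / A) ≤ 3 / 4 * (ρ l / A) := by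
        have : ρ l' / A ≤ (ρ l / 2) / A := by gcongr; linarith
        calc 3 / 2 * (ρ l' / A) ≤ 3 / 2 * ((ρ l / 2) / A) := by gcongr
          _ = 3 / 4 * (ρ l / A) := by ring
      have h4 : 0 < ρ l / A := by positivity
      linarith [hy.1, hy'.2]
    intro l hl l' hl' hne
    simp only [Finset.coe_range, mem_Iio] at hl hl'
    rcases lt_or_gt_of_ne hne with h | h
    · exact key l l' h hl'
    · exact (key l' l h hl).symm
  set κ : ℝ := Real.exp (-11) / 4 * (1 / 5) ^ m with hκ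
  have hκpos : 0 < κ := by positivity
  have hterm : ∀ l ∈ Finset.range n, ENNReal.ofReal (κ ^ 2 * lam / 2) ≤
      ∫⁻ q in W l, ENNReal.ofReal (gradSq (tfun (mlf A O n) x0 r m ε) q.1 q.2) := by
    intro l hl
    have hln := Finset.mem_range.1 hl
    have hpos : 0 < ρ l := hρpos l hln.le
    have hε2 : ε ≤ 1 / 2 * (ρ l / A) := by
      have h1 := hρmono l n hln.le
      have h2 : 2 * A * ε ≤ ρ l := hεx.trans h1
      rw [mul_div_assoc', le_div_iff₀ hA0]
      linarith
    calc ENNReal.ofReal (κ ^ 2 * lam / 2)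
        = ENNReal.ofReal ((κ * A / ρ l) ^ 2) * volume (W l) := by
          rw [hWv, ← ENNReal.ofReal_mul (by positivity), ← ENNReal.ofReal_mul (by positivity)]
          congr 1
          field_simp
          ring
      _ = ∫⁻ _ in W l, ENNReal.ofReal ((κ * A / ρ l) ^ 2) := (setLIntegral_const _ _).symm
      _ ≤ _ := by
          apply setLIntegral_mono' (hWm l)
          intro q hq
          apply ENNReal.ofReal_le_ofReal
          obtain ⟨hq0, hq1, hq2⟩ := hWpt l hln q hq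
          apply gradSq_tfun_lower hA hAm hO hopen hc hln hr hε (hx l hln.le) hxx (hρr l hln.le)
            (hweak l hln) hq2 hq0
          · have := hq.1.1
            show ρ l / A ≤ q.2 + ε
            linarith
          · have := hq.1.2
            show q.2 + ε ≤ 2 * ρ l / A
            have e : 2 * ρ l / A = 2 * (ρ l / A) := by ring
            rw [e]
            linarith
  calc ENNReal.ofReal (n * (κ ^ 2 * lam / 2))
      = ∑ _l ∈ Finset.range n, ENNReal.ofReal (κ ^ 2 * lam / 2) := by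
        rw [Finset.sum_const, Finset.card_range, nsmul_eq_mul, ENNReal.ofReal_mul (by positivity),
          ENNReal.ofReal_natCast]
    _ ≤ ∑ l ∈ Finset.range n, ∫⁻ q in W l,
          ENNReal.ofReal (gradSq (tfun (mlf A O n) x0 r m ε) q.1 q.2) := Finset.sum_le_sum hterm
    _ = ∫⁻ q in ⋃ l ∈ Finset.range n, W l,
          ENNReal.ofReal (gradSq (tfun (mlf A O n) x0 r m ε) q.1 q.2) :=
        (lintegral_biUnion_finset hdisj (fun l _ => hWm l) _).symm
    _ ≤ _ := by
        apply lintegral_mono_set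
        apply iUnion₂_subset
        intro l hl
        exact hWcone l (Finset.mem_range.1 hl)

end Pool.Agent.Work.MP_055a27_an

end

section

/-!
# `(⋆)` and doubling: sets of small Lebesgue measure have small weighted measure
-/

open MeasureTheory Set Filter Topology Complex
open scoped ENNReal NNReal

namespace Pool.Agent.Work.MP_055a27_an

/-- The doubling property for the measure `wm U`. -/
def DoublingM (U : ℝ → ℝ) (D : ℝ≥0) : Prop := ∀ x r : ℝ, 0 < r →
  wm U (Icc (x - 2 * r) (x + 2 * r)) ≤ D * wm U (Icc (x - r) (x + r))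

lemma doubling_pow {U : ℝ → ℝ} {D : ℝ≥0} (hD : DoublingM U D) (x r : ℝ) (hr : 0 < r) (j : ℕ) :
    wm U (Icc (x - 2 ^ j * r) (x + 2 ^ j * r)) ≤ (D : ℝ≥0∞) ^ j * wm U (Icc (x - r) (x + r)) := by
  induction j with
  | zero => simp
  | succ j ih =>
    have h1 := hD x (2 ^ j * r) (by positivity)
    have e1 : x - 2 * (2 ^ j * r) = x - 2 ^ (j + 1) * r := by ring
    have e2 : x + 2 * (2 ^ j * r) = x + 2 ^ (j + 1) * r := by ring
    rw [e1, e2] at h1
    calc wm U (Icc (x - 2 ^ (j + 1) * r) (x + 2 ^ (j + 1) * r))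
        ≤ D * wm U (Icc (x - 2 ^ j * r) (x + 2 ^ j * r)) := h1
      _ ≤ D * ((D : ℝ≥0∞) ^ j * wm U (Icc (x - r) (x + r))) := by gcongr
      _ = (D : ℝ≥0∞) ^ (j + 1) * wm U (Icc (x - r) (x + r)) := by ring

/-- The tail bound. -/
lemma tail_bound {U : ℝ → ℝ} {D : ℝ≥0} (hD : DoublingM U D) {b s P : ℝ} (hb : 0 < b) (hs : 0 < s)
    (hP : 0 < P) (hDP : 2 * (D : ℝ) ≤ 2 ^ P) {x0 r : ℝ} (hr : 0 < r) :
    ∫⁻ x, ENNReal.ofReal (min 1 ((r / ((|x - x0| + b * r) / s)) ^ P)) ∂(wm U) ≤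
      (1 + ENNReal.ofReal (s ^ P) * (2 * D)) * wm U (Icc (x0 - r) (x0 + r)) := by
  set B : ℕ → Set ℝ := fun j => Icc (x0 - 2 ^ j * r) (x0 + 2 ^ j * r) with hB
  set M : ℝ≥0∞ := wm U (Icc (x0 - r) (x0 + r)) with hM
  set cj : ℕ → ℝ≥0∞ := fun j => ENNReal.ofReal ((s * (1 / 2) ^ j) ^ P) with hcj
  have hpt : ∀ x, ENNReal.ofReal (min 1 ((r / ((|x - x0| + b * r) / s)) ^ P)) ≤
      (B 0).indicator (fun _ => (1 : ℝ≥0∞)) x + ∑' j, (B (j + 1)).indicator (fun _ => cj j) x := by
    intro x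
    by_cases hx : x ∈ B 0
    · rw [indicator_of_mem hx]
      refine le_trans ?_ le_self_add
      rw [← ENNReal.ofReal_one]
      exact ENNReal.ofReal_le_ofReal (min_le_left _ _)
    · have hx' : r < |x - x0| := by
        by_contra hcon
        push Not at hcon
        rw [abs_le] at hcon
        apply hx
        simp only [hB, pow_zero, one_mul, mem_Icc]
        constructor <;> linarith [hcon.1, hcon.2]
      -- the smallest j with x ∈ B j
      have hex : ∃ j, x ∈ B j := by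
        obtain ⟨j, hj⟩ := pow_unbounded_of_one_lt (|x - x0| / r) (one_lt_two (α := ℝ))
        refine ⟨j, ?_⟩
        rw [div_lt_iff₀ hr] at hj
        have := abs_le.1 hj.le
        simp only [hB, mem_Icc]
        constructor <;> linarith [this.1, this.2]
      classical
      obtain ⟨j, hjmem, hjmin⟩ : ∃ j, x ∈ B j ∧ ∀ i < j, x ∉ B i :=
        ⟨Nat.find hex, Nat.find_spec hex, fun i hi => Nat.find_min hex hi⟩
      obtain ⟨i, rfl⟩ : ∃ i, j = i + 1 := by
        rcases Nat.eq_zero_or_pos j with h | h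
        · subst h; exact absurd hjmem hx
        · exact ⟨j - 1, by omega⟩
      have hi : 2 ^ i * r < |x - x0| := by
        by_contra hcon
        push Not at hcon
        rw [abs_le] at hcon
        apply hjmin i (Nat.lt_succ_self i)
        simp only [hB, mem_Icc]
        constructor <;> linarith [hcon.1, hcon.2]
      refine le_trans ?_ le_add_self
      refine le_trans ?_ (ENNReal.le_tsum i)
      rw [indicator_of_mem hjmem]
      apply ENNReal.ofReal_le_ofReal
      refine (min_le_right _ _).trans ?_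
      apply Real.rpow_le_rpow (by positivity) _ hP.le
      rw [div_div_eq_mul_div, div_le_iff₀ (by positivity)]
      have h2 : (1 / 2 : ℝ) ^ i * 2 ^ i = 1 := by
        rw [← mul_pow]; norm_num
      calc r * s = s * ((1 / 2 : ℝ) ^ i * 2 ^ i) * r := by rw [h2]; ring
        _ = s * (1 / 2) ^ i * (2 ^ i * r) := by ring
        _ ≤ s * (1 / 2) ^ i * (|x - x0| + b * r) := by
            gcongr
            have : 0 < b * r := by positivity
            linarith
  have hBm : ∀ j, MeasurableSet (B j) := fun j => measurableSet_Icc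
  have hB0 : B 0 = Icc (x0 - r) (x0 + r) := by simp [hB]
  have hterm : ∀ j, cj j * wm U (B (j + 1)) ≤ ENNReal.ofReal (s ^ P) * D * M *
      (2⁻¹ : ℝ≥0∞) ^ j := by
    intro j
    have h1 : wm U (B (j + 1)) ≤ (D : ℝ≥0∞) ^ (j + 1) * M := doubling_pow hD x0 r hr (j + 1)
    have h2 : cj j * (D : ℝ≥0∞) ^ (j + 1) ≤ ENNReal.ofReal (s ^ P) * D * (2⁻¹ : ℝ≥0∞) ^ j := by
      have e1 : ((s * (1 / 2 : ℝ) ^ j) ^ P) = s ^ P * ((1 / 2 : ℝ) ^ P) ^ j := by
        rw [Real.mul_rpow hs.le (by positivity)]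
        congr 1
        rw [← Real.rpow_natCast, ← Real.rpow_mul (by norm_num), mul_comm (j : ℝ) P,
          Real.rpow_mul (by norm_num), Real.rpow_natCast]
      have e2 : (1 / 2 : ℝ) ^ P * D ≤ 1 / 2 := by
        rw [Real.div_rpow zero_le_one zero_le_two, Real.one_rpow]
        rw [one_div_mul_eq_div, div_le_div_iff₀ (by positivity) (by norm_num)]
        linarith
      have e3 : cj j * (D : ℝ≥0∞) ^ (j + 1) =
          ENNReal.ofReal (s ^ P * D * ((1 / 2 : ℝ) ^ P * D) ^ j) := by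
        simp only [hcj]
        rw [e1]
        have hDr : (D : ℝ≥0∞) = ENNReal.ofReal (D : ℝ) := (ENNReal.ofReal_coe_nnreal).symm
        rw [hDr, ← ENNReal.ofReal_pow (by positivity), ← ENNReal.ofReal_mul (by positivity)]
        congr 1
        ring
      have e4 : ENNReal.ofReal (s ^ P) * D * (2⁻¹ : ℝ≥0∞) ^ j =
          ENNReal.ofReal (s ^ P * D * (1 / 2) ^ j) := by
        have hDr : (D : ℝ≥0∞) = ENNReal.ofReal (D : ℝ) := (ENNReal.ofReal_coe_nnreal).symm
        have h2r : (2⁻¹ : ℝ≥0∞) = ENNReal.ofReal (1 / 2) := by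
          rw [one_div, ENNReal.ofReal_inv_of_pos (by norm_num)]
          norm_num
        rw [hDr, h2r, ← ENNReal.ofReal_pow (by norm_num), ← ENNReal.ofReal_mul (by positivity),
          ← ENNReal.ofReal_mul (by positivity)]
      rw [e3, e4]
      apply ENNReal.ofReal_le_ofReal
      gcongr
    calc cj j * wm U (B (j + 1)) ≤ cj j * ((D : ℝ≥0∞) ^ (j + 1) * M) := by gcongr
      _ = (cj j * (D : ℝ≥0∞) ^ (j + 1)) * M := by ring
      _ ≤ (ENNReal.ofReal (s ^ P) * D * (2⁻¹ : ℝ≥0∞) ^ j) * M := by gcongr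
      _ = _ := by ring
  calc ∫⁻ x, ENNReal.ofReal (min 1 ((r / ((|x - x0| + b * r) / s)) ^ P)) ∂(wm U)
      ≤ ∫⁻ x, ((B 0).indicator (fun _ => (1 : ℝ≥0∞)) x +
          ∑' j, (B (j + 1)).indicator (fun _ => cj j) x) ∂(wm U) := lintegral_mono hpt
    _ = wm U (B 0) + ∑' j, cj j * wm U (B (j + 1)) := by
        rw [lintegral_add_left (measurable_const.indicator (hBm 0))]
        congr 1
        · rw [lintegral_indicator_const (hBm 0), one_mul]
        · rw [lintegral_tsum (fun j => (measurable_const.indicator (hBm (j + 1))).aemeasurable)]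
          congr 1
          funext j
          rw [lintegral_indicator_const (hBm (j + 1))]
    _ ≤ M + ∑' j, ENNReal.ofReal (s ^ P) * D * M * (2⁻¹ : ℝ≥0∞) ^ j := by
        rw [hB0]
        exact add_le_add le_rfl (ENNReal.tsum_le_tsum hterm)
    _ = (1 + ENNReal.ofReal (s ^ P) * (2 * D)) * M := by
        rw [ENNReal.tsum_mul_left, ENNReal.tsum_geometric, ENNReal.one_sub_inv_two, inv_inv]
        ring

/-- The main step: open sets of small measure have small weighted measure. -/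
theorem half_open {lam b p : ℝ} (hlam : 0 < lam) (hb : 0 < b) (hp : 0 < p) {U : ℝ → ℝ}
    (hU : IsWeight U) {D : ℝ≥0} (hD : DoublingM U D) (hS : Star lam b p U) :
    ∃ δ : ℝ, 0 < δ ∧ ∀ x0 r : ℝ, 0 < r → ∀ E : Set ℝ, IsOpen E →
      E ⊆ Ioo (x0 - 2 * r) (x0 + 2 * r) → volume.real E ≤ δ * r →
      2 * wm U E ≤ wm U (Icc (x0 - r) (x0 + r)) := by
  obtain ⟨C0, hC0⟩ := (star_iff hU).1 hS
  set s : ℝ := Real.sqrt (1 + b ^ 2) with hs
  have hspos : 0 < s := by rw [hs]; positivity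
  -- choice of `m`
  obtain ⟨m, hm⟩ : ∃ m : ℕ, 0 < m ∧ 2 * (D : ℝ) ≤ 2 ^ ((m : ℝ) * p) := by
    have t1 : Tendsto (fun m : ℕ => (2 : ℝ) ^ ((m : ℝ) * p)) atTop atTop := by
      have h1 : Tendsto (fun m : ℕ => ((m : ℝ) * p)) atTop atTop :=
        tendsto_natCast_atTop_atTop.atTop_mul_const hp
      exact (tendsto_rpow_atTop_of_base_gt_one 2 one_lt_two).comp h1
    obtain ⟨m, h1, h2⟩ := ((eventually_gt_atTop 0).and
      (t1.eventually_ge_atTop (2 * (D : ℝ)))).exists
    exact ⟨m, h1, h2⟩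
  obtain ⟨hm0, hmD⟩ := hm
  set P : ℝ := (m : ℝ) * p with hP
  have hP0 : 0 < P := by positivity
  -- choice of `A`
  obtain ⟨A, hA16, hAl, hAm⟩ : ∃ A : ℝ, 16 ≤ A ∧ 8 * lam ≤ A ∧
      7 + 5 * (m : ℝ) ≤ A * Real.exp (-10) / 4 := by
    refine ⟨max (max 16 (8 * lam)) ((7 + 5 * m) * 4 * Real.exp 10), ?_, ?_, ?_⟩
    · exact (le_max_left _ _).trans (le_max_left _ _)
    · exact (le_max_right _ _).trans (le_max_left _ _)
    · have h1 : (7 + 5 * (m : ℝ)) * 4 * Real.exp 10 ≤
          max (max 16 (8 * lam)) ((7 + 5 * m) * 4 * Real.exp 10) := le_max_right _ _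
      have h2 : Real.exp 10 * Real.exp (-10) = 1 := by rw [← Real.exp_add]; norm_num
      calc 7 + 5 * (m : ℝ) = (7 + 5 * (m : ℝ)) * 4 * (Real.exp 10 * Real.exp (-10)) / 4 := by
            rw [h2]; ring
        _ = ((7 + 5 * (m : ℝ)) * 4 * Real.exp 10) * Real.exp (-10) / 4 := by ring
        _ ≤ _ := by gcongr
  have hA0 : 0 < A := by linarith
  -- constants
  set κ : ℝ := (Real.exp (-11) / 4 * (1 / 5) ^ m) ^ 2 * lam / 2 with hκ
  have hκpos : 0 < κ := by positivity
  set K' : ℝ≥0∞ := ENNReal.ofReal (Real.exp 1) ^ p * (1 + ENNReal.ofReal (s ^ P) * (2 * D))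
    with hK'
  have hK'fin : (C0 : ℝ≥0∞) * K' ≠ ∞ := by
    apply ENNReal.mul_ne_top ENNReal.coe_ne_top
    apply ENNReal.mul_ne_top
    · exact ENNReal.rpow_ne_top_of_nonneg hp.le ENNReal.ofReal_ne_top
    · apply ENNReal.add_ne_top.2 ⟨ENNReal.one_ne_top, ?_⟩
      exact ENNReal.mul_ne_top ENNReal.ofReal_ne_top
        (ENNReal.mul_ne_top ENNReal.ofNat_ne_top ENNReal.coe_ne_top)
  -- choice of `n`
  obtain ⟨n, hn⟩ : ∃ n : ℕ, 2 * ((C0 : ℝ≥0∞) * K').toReal + 1 ≤ (n * κ) ^ (p / 2) := by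
    have t1 : Tendsto (fun n : ℕ => ((n : ℝ) * κ) ^ (p / 2)) atTop atTop :=
      (tendsto_rpow_atTop (by positivity)).comp
        (tendsto_natCast_atTop_atTop.atTop_mul_const hκpos)
    exact (t1.eventually_ge_atTop _).exists
  -- the density thresholds
  set K : ℝ := 20 * A ^ 2 with hK
  have hK1 : 1 < K := by rw [hK]; nlinarith
  have hK3 : 3 ≤ K := by rw [hK]; nlinarith
  have hK0 : 0 < K := by linarith
  set τ0 : ℝ := (1 / 2) * (1 / K) ^ n with hτ0
  have hτ0pos : 0 < τ0 := by positivity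
  refine ⟨τ0, hτ0pos, fun x0 r hr E hE hEsub hEvol => ?_⟩
  set O : ℕ → Set ℝ := fun l => dset E (τ0 * K ^ l) with hO
  have hOanti : Antitone O := by
    intro l l' hll
    apply dset_anti
    have : K ^ l ≤ K ^ l' := pow_le_pow_right₀ hK1.le hll
    gcongr
  have hopen : ∀ l, IsOpen (O l) := fun l => isOpen_dset _ _
  have hEfin : volume E ≠ ∞ := ((measure_mono hEsub).trans_lt measure_Ioo_lt_top).ne
  have hO0 : O 0 ⊆ Ioo (x0 - 3 * r) (x0 + 3 * r) := by
    intro t ht
    obtain ⟨e, he, hte⟩ := dset_near hEfin (by positivity : 0 < τ0 * K ^ 0)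
      (by simpa using hEvol) ht
    have h1 := hEsub he
    rw [abs_lt] at hte
    exact ⟨by linarith [h1.1, hte.1], by linarith [h1.2, hte.2]⟩
  have hbdd : ∀ l, O l ⊆ Ioo (x0 - 3 * r) (x0 + 3 * r) := fun l =>
    (hOanti (Nat.zero_le l)).trans hO0
  have hc : ∀ l, CoUnb (O l) := by
    intro l
    apply coUnb_of_bounded (M := |x0| + 3 * r)
    refine (hbdd l).trans (Ioo_subset_Ioo ?_ ?_)
    · linarith [neg_abs_le x0]
    · linarith [le_abs_self x0]
  have hEO : ∀ l ≤ n, E ⊆ O l := by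
    intro l hl
    apply subset_dset hE
    have h1 : K ^ l ≤ K ^ n := pow_le_pow_right₀ hK1.le hl
    have h2 : (1 / K) ^ n * K ^ n = 1 := by
      rw [← mul_pow]
      have : 1 / K * K = 1 := by field_simp
      rw [this, one_pow]
    calc τ0 * K ^ l ≤ τ0 * K ^ n := by gcongr
      _ = 1 / 2 * ((1 / K) ^ n * K ^ n) := by rw [hτ0]; ring
      _ < 1 := by rw [h2]; norm_num
  have hρr : ∀ x ∈ E, ∀ l ≤ n, rho (O l) x ≤ 5 * r := by
    intro x hx l _
    have h1 : x0 + 3 * r ∉ O l := fun h => lt_irrefl _ (hbdd l h).2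
    refine (rho_le h1).trans ?_
    have h2 := hEsub hx
    rw [abs_le]
    constructor <;> linarith [h2.1, h2.2]
  have hweak : ∀ x ∈ E, ∀ l < n, volume (O (l + 1) ∩ Ioo (x - rho (O l) x) (x + rho (O l) x)) ≤
      ENNReal.ofReal (rho (O l) x / A ^ 2) := by
    intro x hx l hl
    obtain ⟨a0, ha0, hxa⟩ := exists_rho (hopen l) (hc l) x
    have hρ := rho_pos (hopen l) (hc l) (hEO l hl.le hx)
    have h1 := weak_local (E := E) hE.measurableSet (τ := τ0 * K ^ l) (τ' := τ0 * K ^ (l + 1))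
      (x := x) (a0 := a0) (ρ := rho (O l) x) (by positivity) (by
        rw [pow_succ]
        have : 0 < τ0 * K ^ l := by positivity
        nlinarith) ha0 hρ hxa.le
    refine h1.trans (ENNReal.ofReal_le_ofReal (le_of_eq ?_))
    rw [pow_succ, hK]
    field_simp
  have hxx : ∀ x ∈ E, |x - x0| ≤ 2 * r := by
    intro x hx
    have h2 := hEsub hx
    rw [abs_le]
    constructor <;> linarith [h2.1, h2.2]
  set f : ℝ → ℝ := mlf A O n with hf
  have hfm : Measurable f := measurable_mlf hopen hc n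
  have hf1 : ∀ t, |f t| ≤ 1 := abs_mlf_le hOanti n
  have hfa : Admissible f := admissible_of_bounded hfm.aestronglyMeasurable hf1
  set M : ℝ≥0∞ := wm U (Icc (x0 - r) (x0 + r)) with hM
  -- upper bound
  have hupper : ∀ ε : ℝ, 0 < ε →
      ∫⁻ x, (areaFn lam (tfun f x0 r m ε) x) ^ p ∂(wm U) ≤ (C0 : ℝ≥0∞) * (K' * M) := by
    intro ε hε
    refine (hC0 _ (admissible_tfun hfa hfm hf1 hr m hε)).trans ?_
    gcongr
    calc ∫⁻ x, (ntMax b (tfun f x0 r m ε) x) ^ p ∂(wm U)
        ≤ ∫⁻ x, ENNReal.ofReal (Real.exp 1) ^ p *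
            ENNReal.ofReal (min 1 ((r / ((|x - x0| + b * r) / s)) ^ P)) ∂(wm U) := by
          apply lintegral_mono
          intro x
          simp only
          have hq : 0 ≤ r / ((|x - x0| + b * r) / s) := by positivity
          have h1 : ntMax b (tfun f x0 r m ε) x ≤ ENNReal.ofReal (Real.exp 1) *
              ENNReal.ofReal (min 1 ((r / ((|x - x0| + b * r) / s)) ^ m)) := by
            rw [← ENNReal.ofReal_mul (by positivity)]
            rcases le_total 1 ((r / ((|x - x0| + b * r) / s)) ^ m) with h | h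
            · rw [min_eq_left h, mul_one]
              exact ntMax_tfun_le_exp hfa hfm hf1 hr m hε
            · rw [min_eq_right h]
              exact ntMax_tfun_le hfa hfm hf1 hr m hε hb
          calc (ntMax b (tfun f x0 r m ε) x) ^ p ≤ (ENNReal.ofReal (Real.exp 1) *
              ENNReal.ofReal (min 1 ((r / ((|x - x0| + b * r) / s)) ^ m))) ^ p :=
                ENNReal.rpow_le_rpow h1 hp.le
            _ = ENNReal.ofReal (Real.exp 1) ^ p *
              (ENNReal.ofReal (min 1 ((r / ((|x - x0| + b * r) / s)) ^ m))) ^ p :=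
                ENNReal.mul_rpow_of_nonneg _ _ hp.le
            _ = ENNReal.ofReal (Real.exp 1) ^ p *
              ENNReal.ofReal (min 1 ((r / ((|x - x0| + b * r) / s)) ^ P)) := by
                congr 1
                rw [ENNReal.ofReal_rpow_of_nonneg (by positivity) hp.le]
                congr 1
                have e1 : (r / ((|x - x0| + b * r) / s)) ^ P =
                    ((r / ((|x - x0| + b * r) / s)) ^ m) ^ p := by
                  rw [hP, Real.rpow_mul hq, Real.rpow_natCast]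
                rw [e1]
                rcases le_total 1 ((r / ((|x - x0| + b * r) / s)) ^ m) with h | h
                · rw [min_eq_left h, Real.one_rpow, min_eq_left]
                  exact Real.one_le_rpow h hp.le
                · rw [min_eq_right h, min_eq_right]
                  exact Real.rpow_le_one (by positivity) h hp.le
      _ = ENNReal.ofReal (Real.exp 1) ^ p * ∫⁻ x,
            ENNReal.ofReal (min 1 ((r / ((|x - x0| + b * r) / s)) ^ P)) ∂(wm U) := by
          rw [lintegral_const_mul' _ _ (ENNReal.rpow_ne_top_of_nonneg hp.le ENNReal.ofReal_ne_top)]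
      _ ≤ ENNReal.ofReal (Real.exp 1) ^ p * ((1 + ENNReal.ofReal (s ^ P) * (2 * D)) * M) := by
          gcongr
          exact tail_bound hD hb hspos hP0 hmD hr
      _ = K' * M := by rw [hK']; ring
  -- lower bound
  have hlower : ∀ ε : ℝ, 0 < ε →
      ENNReal.ofReal ((n * κ) ^ (p / 2)) * wm U (E ∩ {x | 2 * A * ε ≤ rho (O n) x}) ≤
      ∫⁻ x, (areaFn lam (tfun f x0 r m ε) x) ^ p ∂(wm U) := by
    intro ε hε
    have hmeas : MeasurableSet (E ∩ {x | 2 * A * ε ≤ rho (O n) x}) :=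
      hE.measurableSet.inter (measurableSet_le measurable_const (measurable_rho (hc n)))
    calc ENNReal.ofReal ((n * κ) ^ (p / 2)) * wm U (E ∩ {x | 2 * A * ε ≤ rho (O n) x})
        = ∫⁻ _ in E ∩ {x | 2 * A * ε ≤ rho (O n) x}, ENNReal.ofReal ((n * κ) ^ (p / 2)) ∂(wm U) :=
          (setLIntegral_const _ _).symm
      _ ≤ ∫⁻ x in E ∩ {x | 2 * A * ε ≤ rho (O n) x},
            (areaFn lam (tfun f x0 r m ε) x) ^ p ∂(wm U) := by
          apply setLIntegral_mono' hmeas
          rintro x ⟨hxE, hxε⟩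
          rw [areaFn_rpow, ← ENNReal.ofReal_rpow_of_nonneg (by positivity) (by positivity)]
          apply ENNReal.rpow_le_rpow _ (by positivity)
          exact area_tfun_lower hlam hA16 hAl hAm hOanti hopen hc hr hε
            (fun l hl => hEO l hl hxE) (hxx x hxE) (hρr x hxE) (hweak x hxE) hxε
      _ ≤ _ := setLIntegral_le_lintegral _ _
  -- exhaust `E`
  have hE_union : E ⊆ ⋃ j : ℕ, E ∩ {x | 2 * A * (1 / ((j : ℝ) + 1)) ≤ rho (O n) x} := by
    intro x hx
    have hρ := rho_pos (hopen n) (hc n) (hEO n le_rfl hx)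
    obtain ⟨j, hj⟩ := exists_nat_one_div_lt (show 0 < rho (O n) x / (2 * A) by positivity)
    refine mem_iUnion.2 ⟨j, hx, ?_⟩
    rw [lt_div_iff₀ (by positivity)] at hj
    show 2 * A * (1 / ((j : ℝ) + 1)) ≤ rho (O n) x
    linarith
  have hmono : Monotone (fun j : ℕ => E ∩ {x | 2 * A * (1 / ((j : ℝ) + 1)) ≤ rho (O n) x}) := by
    intro i j hij x hx
    have hx2 : 2 * A * (1 / ((i : ℝ) + 1)) ≤ rho (O n) x := hx.2
    refine ⟨hx.1, ?_⟩
    have : (i : ℝ) ≤ j := by exact_mod_cast hij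
    have h3 : 2 * A * (1 / ((j : ℝ) + 1)) ≤ 2 * A * (1 / ((i : ℝ) + 1)) := by gcongr
    exact h3.trans hx2
  have hfinal : ENNReal.ofReal ((n * κ) ^ (p / 2)) * wm U E ≤ (C0 : ℝ≥0∞) * (K' * M) := by
    have h1 : wm U E ≤ ⨆ j : ℕ, wm U (E ∩ {x | 2 * A * (1 / ((j : ℝ) + 1)) ≤ rho (O n) x}) := by
      rw [← hmono.measure_iUnion]
      exact measure_mono hE_union
    calc ENNReal.ofReal ((n * κ) ^ (p / 2)) * wm U E
        ≤ ENNReal.ofReal ((n * κ) ^ (p / 2)) *
          ⨆ j : ℕ, wm U (E ∩ {x | 2 * A * (1 / ((j : ℝ) + 1)) ≤ rho (O n) x}) := by gcongr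
      _ = ⨆ j : ℕ, ENNReal.ofReal ((n * κ) ^ (p / 2)) *
          wm U (E ∩ {x | 2 * A * (1 / ((j : ℝ) + 1)) ≤ rho (O n) x}) := ENNReal.mul_iSup _ _
      _ ≤ _ := by
          apply iSup_le
          intro j
          have hε : (0 : ℝ) < 1 / ((j : ℝ) + 1) := by positivity
          exact (hlower _ hε).trans (hupper _ hε)
  -- conclude
  have h1 : 2 * ((C0 : ℝ≥0∞) * K') + 1 ≤ ENNReal.ofReal ((n * κ) ^ (p / 2)) := by
    rw [← ENNReal.ofReal_toReal hK'fin]
    have : (2 : ℝ≥0∞) * ENNReal.ofReal ((C0 : ℝ≥0∞) * K').toReal + 1 =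
        ENNReal.ofReal (2 * ((C0 : ℝ≥0∞) * K').toReal + 1) := by
      rw [ENNReal.ofReal_add (by positivity) (by norm_num), ENNReal.ofReal_mul (by norm_num)]
      norm_num
    rw [this]
    exact ENNReal.ofReal_le_ofReal hn
  have h2 : (2 * ((C0 : ℝ≥0∞) * K') + 1) * wm U E ≤ (C0 : ℝ≥0∞) * K' * M := by
    calc (2 * ((C0 : ℝ≥0∞) * K') + 1) * wm U E
        ≤ ENNReal.ofReal ((n * κ) ^ (p / 2)) * wm U E := by gcongr
      _ ≤ (C0 : ℝ≥0∞) * (K' * M) := hfinal
      _ = _ := by ring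
  by_cases hz : (C0 : ℝ≥0∞) * K' = 0
  · rw [hz] at h2
    simp only [mul_zero, zero_add, one_mul, zero_mul] at h2
    have : wm U E = 0 := le_antisymm h2 (by simp)
    rw [this, mul_zero]
    simp
  · have h3 : (C0 : ℝ≥0∞) * K' * (2 * wm U E) ≤ (C0 : ℝ≥0∞) * K' * M := by
      calc (C0 : ℝ≥0∞) * K' * (2 * wm U E) = (2 * ((C0 : ℝ≥0∞) * K')) * wm U E := by ring
        _ ≤ (2 * ((C0 : ℝ≥0∞) * K') + 1) * wm U E := by
            gcongr
            exact le_self_add
        _ ≤ _ := h2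
    exact (ENNReal.mul_le_mul_iff_right hz hK'fin).1 h3

end Pool.Agent.Work.MP_055a27_an

end
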