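import Pool.Agent.Work.MP_055a27_an.Fn.Stmts
import Pool.Agent.Work.MP_055a27_an.Crit.TFUp
import Pool.Agent.Work.MP_055a27_an.Bd.B03
import Pool.Agent.Work.MP_055a27_an.Bd.B02
import Pool.Agent.Work.MP_055a27_an.Bd.B06
import Pool.Agent.Work.MP_055a27_an.Fn.Stmts2
import Pool.Agent.Work.MP_055a27_an.Wd.Stmts

/-! Bundle of small proof modules (one section per former module). -/

section

/-!
# The growth condition with small linear term and large aperture
-/

set_option autoImplicit false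

open MeasureTheory Set Filter Topology Complex Metric
open scoped ENNReal NNReal

namespace Pool.Agent.Work.MP_055a27_an.Fn

namespace NVc

lemma kernel_comp {l : ℝ → ℝ} (hl : Admissible l) (h0 : ∀ t, 0 ≤ l t) {z y z' y' K : ℝ}
    (hy : 0 < y) (hy' : 0 < y')
    (h : ∀ t : ℝ, y' / ((z' - t) ^ 2 + y' ^ 2) ≤ K * (y / ((z - t) ^ 2 + y ^ 2))) :
    poisson l z' y' ≤ K * poisson l z y := by
  rw [poisson_eq_integral, poisson_eq_integral, mul_left_comm K]
  refine mul_le_mul_of_nonneg_left ?_ (by positivity)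
  rw [← integral_const_mul]
  refine integral_mono (Crit.TFUp.integrable_pois hl hy')
    ((Crit.TFUp.integrable_pois hl hy).const_mul K) fun t => ?_
  have h1 := mul_le_mul_of_nonneg_right (h t) (h0 t)
  have e1 : y' / ((z' - t) ^ 2 + y' ^ 2) * l t = y' * l t / ((z' - t) ^ 2 + y' ^ 2) := by ring
  have e2 : K * (y / ((z - t) ^ 2 + y ^ 2)) * l t = K * (y * l t / ((z - t) ^ 2 + y ^ 2)) := by
    ring
  rw [e1, e2] at h1
  exact h1

lemma adm_lin {l : ℝ → ℝ} (hl : Admissible l) (K d : ℝ) : Admissible fun t => K * l t + d := by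
  have h1 : Integrable (fun t : ℝ => l t / (1 + t ^ 2)) volume := hl
  have h2 : Integrable (fun t : ℝ => K * (l t / (1 + t ^ 2)) + d * (1 + t ^ 2)⁻¹) volume :=
    (h1.const_mul K).add (integrable_inv_one_add_sq.const_mul d)
  refine h2.congr (Eventually.of_forall fun t => ?_)
  change K * (l t / (1 + t ^ 2)) + d * (1 + t ^ 2)⁻¹ = (K * l t + d) / (1 + t ^ 2)
  ring

lemma poisson_lin {l : ℝ → ℝ} (hl : Admissible l) {K d z y : ℝ} (hy : 0 < y) :
    poisson (fun t => K * l t + d) z y = K * poisson l z y + d := by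
  rw [poisson_eq_integral, poisson_eq_integral]
  have h1 : ∫ t : ℝ, y * (K * l t + d) / ((z - t) ^ 2 + y ^ 2) =
      ∫ t : ℝ, (K * (y * l t / ((z - t) ^ 2 + y ^ 2)) + d * y * (1 / ((z - t) ^ 2 + y ^ 2))) := by
    refine integral_congr_ae (Eventually.of_forall fun t => ?_)
    change y * (K * l t + d) / ((z - t) ^ 2 + y ^ 2) =
      K * (y * l t / ((z - t) ^ 2 + y ^ 2)) + d * y * (1 / ((z - t) ^ 2 + y ^ 2))
    ring
  rw [h1, integral_add ((Crit.TFUp.integrable_pois hl hy).const_mul K)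
    ((integrable_kernel hy).const_mul _), integral_const_mul, integral_const_mul,
    integral_kernel hy]
  have hpi := Real.pi_pos
  field_simp

lemma cover {z y' : ℝ} {N : ℕ} (hN : 0 < N) (hy' : 0 < y') :
    Icc (z - y') (z + y') ⊆ ⋃ i ∈ Finset.range N,
      Icc ((z - y' + (2 * (i : ℝ) + 1) * (y' / N)) - y' / N)
        ((z - y' + (2 * (i : ℝ) + 1) * (y' / N)) + y' / N) := by
  intro t ht
  have hN' : (0 : ℝ) < N := by exact_mod_cast hN
  have hh : 0 < y' / N := by positivity
  set h : ℝ := y' / N with hhd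
  have hyh : y' = N * h := by rw [hhd]; field_simp
  set u : ℝ := (t - (z - y')) / (2 * h) with hu
  have hu0 : 0 ≤ u := div_nonneg (by linarith [ht.1]) (by positivity)
  have huN : u ≤ N := by
    rw [hu, div_le_iff₀ (by positivity)]
    linarith [ht.2]
  have htu : t = z - y' + u * (2 * h) := by
    rw [hu]; field_simp; ring
  simp only [mem_iUnion, Finset.mem_range, mem_Icc, exists_prop]
  by_cases hc : ⌊u⌋₊ < N
  · refine ⟨⌊u⌋₊, hc, ?_, ?_⟩
    · have := Nat.floor_le hu0
      rw [htu]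
      nlinarith
    · have := Nat.lt_floor_add_one u
      rw [htu]
      nlinarith
  · have h1 : (N : ℝ) ≤ u := (Nat.le_floor_iff hu0).1 (not_lt.1 hc)
    have h2 : u = N := le_antisymm huN h1
    refine ⟨N - 1, Nat.sub_lt hN Nat.one_pos, ?_, ?_⟩
    · rw [Nat.cast_sub hN, Nat.cast_one, htu, h2]
      nlinarith
    · rw [Nat.cast_sub hN, Nat.cast_one, htu, h2]
      nlinarith

end NVc

open NVc

theorem stNVc : StNVc := by
  intro U c A hU hNV hc hA
  obtain ⟨ρ, c0, hadm, hρ0, hc0, hgr⟩ := hNV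
  obtain ⟨N, hN⟩ := exists_nat_ge (max 1 (c0 * A / c))
  have hN1 : (1 : ℝ) ≤ N := (le_max_left _ _).trans hN
  have hN2 : c0 * A ≤ c * N := by
    have := (le_max_right _ _).trans hN
    rw [div_le_iff₀ hc] at this
    linarith
  have hNpos : 0 < N := by
    have : (0 : ℝ) < N := by linarith
    exact_mod_cast this
  set K : ℝ := 3 * N ^ 2 * A with hK
  have hK0 : 0 ≤ K := by rw [hK]; positivity
  have hNK : (N : ℝ) ≤ K := by
    rw [hK]
    have h1 : (N : ℝ) * 1 ≤ N * N := mul_le_mul_of_nonneg_left hN1 (by positivity)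
    have h2 : (N : ℝ) ^ 2 * 1 ≤ N ^ 2 * A := mul_le_mul_of_nonneg_left hA (by positivity)
    nlinarith
  have hlog : 0 ≤ Real.log N := Real.log_nonneg hN1
  set d : ℝ := Real.log N + c0 * N with hd
  have hd0 : 0 ≤ d := by rw [hd]; positivity
  refine ⟨fun t => K * ρ t + d, adm_lin hadm K d, fun t => by
    have := hρ0 t
    positivity, ?_⟩
  intro z y hy
  have hy0 : 0 < y := by linarith
  have hVp : Vp (fun t => K * ρ t + d) c z y = K * poisson ρ z y + d + c * y := by
    unfold Vp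
    rw [poisson_lin hadm hy0]
  rw [hVp]
  have hP0 : 0 ≤ poisson ρ z y := by
    rw [poisson_eq_integral]
    refine mul_nonneg (by positivity) (integral_nonneg fun t => ?_)
    have := hρ0 t
    positivity
  rcases le_or_gt (N : ℝ) (A * y) with hcase | hcase
  · -- many pieces
    set h : ℝ := A * y / N with hh
    have hh1 : 1 ≤ h := by
      rw [hh, le_div_iff₀ (by positivity)]
      linarith
    have hh0 : 0 < h := by linarith
    have hAyh : A * y = N * h := by rw [hh]; field_simp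
    have hpiece : ∀ i ∈ Finset.range N,
        ∫ t in Icc ((z - A * y + (2 * (i : ℝ) + 1) * h) - h)
          ((z - A * y + (2 * (i : ℝ) + 1) * h) + h), U t ≤
        Real.exp (K * poisson ρ z y + c * y) := by
      intro i hi
      refine (hgr _ _ hh1).trans (Real.exp_le_exp.2 ?_)
      unfold Vp
      have hiN : (i : ℝ) + 1 ≤ N := by
        exact_mod_cast Finset.mem_range.1 hi
      have hi0 : (0 : ℝ) ≤ i := Nat.cast_nonneg i
      have h1 : c0 * h ≤ c * y := by
        have h2 : c0 * h * N ≤ c * y * N := by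
          have : c0 * h * N = c0 * A * y := by
            rw [mul_assoc, mul_comm h, ← hAyh]; ring
          rw [this]
          nlinarith
        exact le_of_mul_le_mul_right h2 (by linarith)
      refine add_le_add (kernel_comp hadm hρ0 hy0 hh0 fun t => ?_) h1
      have hz : |z - (z - A * y + (2 * (i : ℝ) + 1) * h)| ≤ N * h := by
        rw [hAyh, abs_le]
        constructor <;> nlinarith
      set w : ℝ := z - A * y + (2 * (i : ℝ) + 1) * h with hw
      have hz2 : (z - w) ^ 2 ≤ (N * h) ^ 2 := by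
        rw [← sq_abs (z - w)]
        exact pow_le_pow_left₀ (abs_nonneg _) hz 2
      have hy2 : y ^ 2 ≤ (N * h) ^ 2 := by
        refine pow_le_pow_left₀ hy0.le ?_ 2
        rw [← hAyh]
        nlinarith
      have hA2 : h ≤ A * y := by
        rw [hAyh]
        nlinarith
      rw [← mul_div_assoc, div_le_div_iff₀ (by positivity) (by positivity)]
      have h3 : (z - t) ^ 2 + y ^ 2 ≤ 3 * N ^ 2 * ((w - t) ^ 2 + h ^ 2) := by
        have h4 : (z - t) ^ 2 ≤ 2 * (z - w) ^ 2 + 2 * (w - t) ^ 2 := by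
          nlinarith [sq_nonneg ((z - w) - (w - t))]
        have h5 : (w - t) ^ 2 ≤ N ^ 2 * (w - t) ^ 2 := by
          have : (1 : ℝ) ≤ N ^ 2 := one_le_pow₀ hN1
          nlinarith [sq_nonneg (w - t)]
        nlinarith [sq_nonneg (w - t)]
      calc h * ((z - t) ^ 2 + y ^ 2) ≤ (A * y) * (3 * N ^ 2 * ((w - t) ^ 2 + h ^ 2)) :=
            mul_le_mul hA2 h3 (by positivity) (by positivity)
        _ = K * y * ((w - t) ^ 2 + h ^ 2) := by rw [hK]; ring
    have hcov := cover (z := z) (y' := A * y) hNpos (by positivity)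
    rw [← hh] at hcov
    have hm : wm U (Icc (z - A * y) (z + A * y)) ≤ ∑ i ∈ Finset.range N,
        wm U (Icc ((z - A * y + (2 * (i : ℝ) + 1) * h) - h)
          ((z - A * y + (2 * (i : ℝ) + 1) * h) + h)) :=
      (measure_mono hcov).trans (measure_biUnion_finset_le _ _)
    have hfin : ∀ i ∈ Finset.range N, wm U (Icc ((z - A * y + (2 * (i : ℝ) + 1) * h) - h)
          ((z - A * y + (2 * (i : ℝ) + 1) * h) + h)) ≠ ∞ :=
      fun i _ => (wm_Icc_lt_top hU _ _).ne
    have hm2 := ENNReal.toReal_mono (ENNReal.sum_ne_top.2 hfin) hm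
    rw [ENNReal.toReal_sum hfin, ← setIntegral_eq_wm hU measurableSet_Icc] at hm2
    refine hm2.trans ?_
    have hs : ∑ i ∈ Finset.range N, (wm U (Icc ((z - A * y + (2 * (i : ℝ) + 1) * h) - h)
          ((z - A * y + (2 * (i : ℝ) + 1) * h) + h))).toReal ≤
        ∑ i ∈ Finset.range N, Real.exp (K * poisson ρ z y + c * y) := by
      refine Finset.sum_le_sum fun i hi => ?_
      rw [← setIntegral_eq_wm hU measurableSet_Icc]
      exact hpiece i hi
    refine hs.trans ?_
    rw [Finset.sum_const, Finset.card_range, nsmul_eq_mul]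
    have e1 : (N : ℝ) = Real.exp (Real.log N) := (Real.exp_log (by linarith)).symm
    rw [e1, ← Real.exp_add, Real.exp_le_exp, hd]
    have : 0 ≤ c0 * N := by positivity
    linarith
  · -- one piece
    have hyN : y ≤ N := by nlinarith
    have h1 : ∫ t in Icc (z - A * y) (z + A * y), U t ≤ ∫ t in Icc (z - N) (z + N), U t := by
      rw [setIntegral_eq_wm hU measurableSet_Icc, setIntegral_eq_wm hU measurableSet_Icc]
      exact ENNReal.toReal_mono (wm_Icc_lt_top hU _ _).ne
        (measure_mono (Icc_subset_Icc (by linarith) (by linarith)))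
    refine h1.trans ((hgr z N hN1).trans (Real.exp_le_exp.2 ?_))
    unfold Vp
    have h2 : poisson ρ z N ≤ N * poisson ρ z y := by
      refine kernel_comp hadm hρ0 hy0 (by linarith) fun t => ?_
      rw [← mul_div_assoc, div_le_div_iff₀ (by positivity) (by positivity)]
      have h3 : (z - t) ^ 2 + y ^ 2 ≤ y * ((z - t) ^ 2 + N ^ 2) := by
        have h4 : y ^ 2 ≤ (N : ℝ) ^ 2 := pow_le_pow_left₀ hy0.le hyN 2
        nlinarith [sq_nonneg (z - t)]
      nlinarith
    have h3 : (N : ℝ) * poisson ρ z y ≤ K * poisson ρ z y :=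
      mul_le_mul_of_nonneg_right hNK hP0
    have h4 : 0 ≤ c * y := by positivity
    rw [hd]
    linarith

end Pool.Agent.Work.MP_055a27_an.Fn

end

section

/-!
# Item Osc: the multilevel oscillation with a general analytic factor
-/

set_option autoImplicit false

open MeasureTheory Set Filter Topology Complex Metric
open scoped ENNReal NNReal

namespace Pool.Agent.Work.MP_055a27_an.Fn

namespace Osc

/-- Lower bound for the derivative at height about `ρ / A`. -/
theorem grad_lower {A B : ℝ} (hA : 16 ≤ A) (hB : 0 ≤ B)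
    (hAB : 7 + 5 * B ≤ A * Real.exp (-10) / 4) {O : ℕ → Set ℝ} (hO : Antitone O)
    (hopen : ∀ l, IsOpen (O l)) (hc : ∀ l, CoUnb (O l)) {n l : ℕ} (hl : l < n) {x z y r g : ℝ}
    (hr : 0 < r) (hx : x ∈ O l) (hρr : rho (O l) x ≤ 5 * r)
    (hweak : volume (O (l + 1) ∩ Ioo (x - rho (O l) x) (x + rho (O l) x)) ≤
      ENNReal.ofReal (rho (O l) x / A ^ 2))
    (hz : |z - x| ≤ rho (O l) x / 8) (hy0 : 0 < y) (hy1 : rho (O l) x / A ≤ y)
    (hy2 : y ≤ 2 * rho (O l) x / A) {G : ℂ → ℂ}
    (hG : DifferentiableOn ℂ G {w : ℂ | 0 < w.im}) (hg : 0 ≤ g)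
    (hGg : g ≤ ‖G (z + y * I)‖)
    (hGB : ‖deriv G (z + y * I)‖ ≤ B / r * ‖G (z + y * I)‖) :
    Real.exp (-11) / 4 * g * A / rho (O l) x ≤
      ‖deriv (fun w : ℂ => Complex.exp (schw (mlf A O n) w) * G w) (z + y * I)‖ := by
  set f : ℝ → ℝ := mlf A O n with hf
  have hfm : Measurable f := measurable_mlf hopen hc n
  have hf1 : ∀ t, |f t| ≤ 1 := abs_mlf_le hO n
  have hfa : Admissible f := admissible_of_bounded hfm.aestronglyMeasurable hf1
  set ρ : ℝ := rho (O l) x with hρdef
  have hρ : 0 < ρ := rho_pos (hopen l) (hc l) hx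
  have hA0 : 0 < A := by linarith
  set w : ℂ := z + y * I with hw
  have him : 0 < w.im := by simp [hw]; exact hy0
  have hpw := pw_lower hA hO hopen hc hl hx hweak hz hy1 hy2
  have hGd : HasDerivAt G (deriv G w) w :=
    ((hG w him).differentiableAt ((isOpen_lt continuous_const Complex.continuous_im).mem_nhds
      him)).hasDerivAt
  have hd := ((hasDerivAt_schw hfa him).cexp).mul hGd
  have hde : deriv (fun w : ℂ => Complex.exp (schw f w) * G w) w =
      Complex.exp (schw f w) * (dschw f w * G w + deriv G w) := by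
    have := hd.deriv
    refine Eq.trans this ?_
    ring
  rw [hde, norm_mul, Complex.norm_exp, schw_re hfa hy0]
  have hexp : Real.exp (-1) ≤ Real.exp (poisson f z y) := by
    apply Real.exp_le_exp.2
    exact (abs_le.1 (abs_poisson_le hfm hf1 hy0)).1
  have hBr : B / r ≤ 5 * B / ρ := by
    rw [div_le_div_iff₀ hr hρ]
    nlinarith
  have h1 : ‖dschw f w‖ * ‖G w‖ - B / r * ‖G w‖ ≤ ‖dschw f w * G w + deriv G w‖ := by
    have h2 : ‖dschw f w * G w‖ ≤ ‖dschw f w * G w + deriv G w‖ + ‖deriv G w‖ := by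
      have := norm_sub_le (dschw f w * G w + deriv G w) (deriv G w)
      simpa using this
    rw [norm_mul] at h2
    linarith
  have h3 : A * Real.exp (-10) / 4 / ρ ≤ ‖dschw f w‖ - B / r := by
    have h4 : (A * Real.exp (-10) / 2 - 7) / ρ - 5 * B / ρ ≤ ‖dschw f w‖ - B / r := by linarith
    refine le_trans ?_ h4
    rw [← sub_div]
    gcongr
    linarith
  have h5 : A * Real.exp (-10) / 4 / ρ * g ≤ ‖dschw f w * G w + deriv G w‖ := by
    refine le_trans ?_ h1
    rw [← sub_mul]
    have h6 : 0 ≤ A * Real.exp (-10) / 4 / ρ := by positivity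
    exact mul_le_mul h3 hGg hg (h6.trans h3)
  have h7 : Real.exp (-11) = Real.exp (-1) * Real.exp (-10) := by
    rw [← Real.exp_add]; norm_num
  calc Real.exp (-11) / 4 * g * A / ρ
      = Real.exp (-1) * (A * Real.exp (-10) / 4 / ρ * g) := by rw [h7]; ring
    _ ≤ Real.exp (poisson f z y) * ‖dschw f w * G w + deriv G w‖ := by
      have h8 : 0 ≤ A * Real.exp (-10) / 4 / ρ * g := by positivity
      exact mul_le_mul hexp h5 h8 (Real.exp_pos _).le

/-- Lower bound for the area integral. -/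
theorem area_lower {lam A B : ℝ} (hlam : 0 < lam) (hA : 16 ≤ A) (hAl : 8 * lam ≤ A) (hB : 0 ≤ B)
    (hAB : 7 + 5 * B ≤ A * Real.exp (-10) / 4) {O : ℕ → Set ℝ} (hO : Antitone O)
    (hopen : ∀ l, IsOpen (O l)) (hc : ∀ l, CoUnb (O l)) {n : ℕ} {x r ε g : ℝ}
    (hr : 0 < r) (hε : 0 < ε) (hx : ∀ l ≤ n, x ∈ O l)
    (hρr : ∀ l ≤ n, rho (O l) x ≤ 5 * r)
    (hweak : ∀ l < n, volume (O (l + 1) ∩ Ioo (x - rho (O l) x) (x + rho (O l) x)) ≤
      ENNReal.ofReal (rho (O l) x / A ^ 2))
    (hεx : 2 * A * ε ≤ rho (O n) x) {G : ℂ → ℂ}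
    (hG : DifferentiableOn ℂ G {w : ℂ | 0 < w.im}) (hg : 0 ≤ g)
    (hGx : ∀ z y : ℝ, 0 < y → y ≤ r → |z - x| ≤ lam * y →
        g ≤ ‖G (z + y * I)‖ ∧ ‖deriv G (z + y * I)‖ ≤ B / r * ‖G (z + y * I)‖) :
    ENNReal.ofReal (n * (Real.exp (-22) * lam / 32 * g ^ 2)) ≤
      ∫⁻ q in cone lam x, ENNReal.ofReal
        (‖deriv (fun w : ℂ => Complex.exp (schw (mlf A O n) w) * G w)
            (q.1 + (q.2 + ε : ℝ) * I)‖ ^ 2) := by
  have hA0 : 0 < A := by linarith
  set ρ : ℕ → ℝ := fun l => rho (O l) x with hρdef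
  have hρpos : ∀ l ≤ n, 0 < ρ l := fun l hl => rho_pos (hopen l) (hc l) (hx l hl)
  have hρmono : ∀ l l', l ≤ l' → ρ l' ≤ ρ l := fun l l' hll =>
    rho_mono (hopen l) (hc l) (hO hll) x
  have hρhalf : ∀ l < n, ρ (l + 1) ≤ ρ l / 2 := by
    intro l hl
    have h1 : Ioo (x - ρ (l + 1)) (x + ρ (l + 1)) ⊆ O (l + 1) ∩ Ioo (x - ρ l) (x + ρ l) := by
      intro t ht
      refine ⟨ball_rho_subset ht, ?_⟩
      have := hρmono l (l + 1) (Nat.le_succ l)
      exact ⟨by linarith [ht.1], by linarith [ht.2]⟩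
    have h2 := (measure_mono h1).trans (hweak l hl)
    rw [Real.volume_Ioo] at h2
    have hpos : 0 < ρ l := hρpos l hl.le
    have h3 : x + ρ (l + 1) - (x - ρ (l + 1)) ≤ ρ l / A ^ 2 := by
      exact (ENNReal.ofReal_le_ofReal_iff (by positivity)).1 h2
    have h4 : ρ l / A ^ 2 ≤ ρ l := by
      apply div_le_self hpos.le
      nlinarith
    linarith
  set W : ℕ → Set (ℝ × ℝ) := fun l => {q : ℝ × ℝ | q.2 ∈ Icc (ρ l / A) (3 / 2 * (ρ l / A)) ∧
    q.1 ∈ Icc ((fun _ => x) q.2) ((fun _ => x) q.2 + lam * (ρ l / A))} with hW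
  have hWm : ∀ l, MeasurableSet (W l) := fun l => measurableSet_strip measurable_const
  have hWv : ∀ l, volume (W l) = ENNReal.ofReal (lam * (ρ l / A)) *
      ENNReal.ofReal (3 / 2 * (ρ l / A) - ρ l / A) := fun l => volume_strip measurable_const
  have hWpt : ∀ l < n, ∀ q ∈ W l, 0 < q.2 ∧ |q.1 - x| ≤ lam * q.2 ∧ |q.1 - x| ≤ ρ l / 8 := by
    rintro l hl ⟨z, y⟩ ⟨hy, hz⟩
    simp only at hy hz ⊢
    have hpos : 0 < ρ l := hρpos l hl.le
    have hpos2 : 0 < ρ l / A := by positivity
    have h1 : lam * (ρ l / A) ≤ ρ l / 8 := by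
      rw [mul_div_assoc', div_le_div_iff₀ hA0 (by norm_num)]
      nlinarith
    refine ⟨lt_of_lt_of_le hpos2 hy.1, ?_, ?_⟩
    · rw [abs_of_nonneg (by linarith [hz.1])]
      calc z - x ≤ lam * (ρ l / A) := by linarith [hz.2]
        _ ≤ lam * y := by gcongr; exact hy.1
    · rw [abs_of_nonneg (by linarith [hz.1])]
      linarith [hz.2]
  have hWcone : ∀ l < n, W l ⊆ cone lam x := fun l hl q hq =>
    ⟨by rw [abs_sub_comm]; exact (hWpt l hl q hq).2.1, (hWpt l hl q hq).1⟩
  have hdisj : (↑(Finset.range n) : Set ℕ).PairwiseDisjoint W := by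
    have key : ∀ l l', l < l' → l' < n → Disjoint (W l) (W l') := by
      intro l l' hll hl'
      rw [Set.disjoint_left]
      rintro ⟨z, y⟩ ⟨hy, -⟩ ⟨hy', -⟩
      simp only at hy hy'
      have h1 : ρ l' ≤ ρ (l + 1) := hρmono _ _ hll
      have h2 := hρhalf l (hll.trans hl')
      have hpos : 0 < ρ l := hρpos l (hll.trans hl').le
      have h3 : 3 / 2 * (ρ l' / A) ≤ 3 / 4 * (ρ l / A) := by
        have : ρ l' / A ≤ (ρ l / 2) / A := by gcongr; linarith
        calc 3 / 2 * (ρ l' / A) ≤ 3 / 2 * ((ρ l / 2) / A) := by gcongr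
          _ = 3 / 4 * (ρ l / A) := by ring
      have h4 : 0 < ρ l / A := by positivity
      linarith [hy.1, hy'.2]
    intro l hl l' hl' hne
    simp only [Finset.coe_range, mem_Iio] at hl hl'
    rcases lt_or_gt_of_ne hne with h | h
    · exact key l l' h hl'
    · exact (key l' l h hl).symm
  set κ : ℝ := Real.exp (-11) / 4 * g with hκ
  have hκpos : 0 ≤ κ := by positivity
  have hκ2 : κ ^ 2 * lam / 2 = Real.exp (-22) * lam / 32 * g ^ 2 := by
    have : Real.exp (-22) = Real.exp (-11) * Real.exp (-11) := by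
      rw [← Real.exp_add]; norm_num
    rw [hκ, this]
    ring
  set Fn : ℝ × ℝ → ℝ≥0∞ := fun q => ENNReal.ofReal
        (‖deriv (fun w : ℂ => Complex.exp (schw (mlf A O n) w) * G w)
            (q.1 + (q.2 + ε : ℝ) * I)‖ ^ 2) with hFn
  have hterm : ∀ l ∈ Finset.range n, ENNReal.ofReal (κ ^ 2 * lam / 2) ≤ ∫⁻ q in W l, Fn q := by
    intro l hl
    have hln := Finset.mem_range.1 hl
    have hpos : 0 < ρ l := hρpos l hln.le
    have hε2 : ε ≤ 1 / 2 * (ρ l / A) := by
      have h1 := hρmono l n hln.le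
      have h2 : 2 * A * ε ≤ ρ l := hεx.trans h1
      rw [mul_div_assoc', le_div_iff₀ hA0]
      linarith
    calc ENNReal.ofReal (κ ^ 2 * lam / 2)
        = ENNReal.ofReal ((κ * A / ρ l) ^ 2) * volume (W l) := by
          rw [hWv, ← ENNReal.ofReal_mul (by positivity), ← ENNReal.ofReal_mul (by positivity)]
          congr 1
          field_simp
          ring
      _ = ∫⁻ _ in W l, ENNReal.ofReal ((κ * A / ρ l) ^ 2) := (setLIntegral_const _ _).symm
      _ ≤ _ := by
          apply setLIntegral_mono' (hWm l)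
          intro q hq
          apply ENNReal.ofReal_le_ofReal
          obtain ⟨hq0, hq1, hq2⟩ := hWpt l hln q hq
          have hq3 : ρ l / A ≤ q.2 + ε := by
            have := hq.1.1
            linarith
          have hq4 : q.2 + ε ≤ 2 * ρ l / A := by
            have := hq.1.2
            have e : 2 * ρ l / A = 2 * (ρ l / A) := by ring
            rw [e]
            linarith
          have hq5 : q.2 + ε ≤ r := by
            refine hq4.trans ?_
            rw [div_le_iff₀ hA0]
            have h1 := hρr l hln.le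
            have h2 : rho (O l) x = ρ l := rfl
            rw [h2] at h1
            nlinarith
          have hq6 : |q.1 - x| ≤ lam * (q.2 + ε) := by
            refine hq1.trans ?_
            gcongr
            linarith
          obtain ⟨hG1, hG2⟩ := hGx q.1 (q.2 + ε) (by linarith) hq5 hq6
          apply pow_le_pow_left₀ (by positivity)
          exact grad_lower hA hB hAB hO hopen hc hln hr (hx l hln.le) (hρr l hln.le)
            (hweak l hln) hq2 (by linarith) hq3 hq4 hG hg hG1 hG2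
  calc ENNReal.ofReal (n * (Real.exp (-22) * lam / 32 * g ^ 2))
      = ENNReal.ofReal (n * (κ ^ 2 * lam / 2)) := by rw [hκ2]
    _ = ∑ _l ∈ Finset.range n, ENNReal.ofReal (κ ^ 2 * lam / 2) := by
        rw [Finset.sum_const, Finset.card_range, nsmul_eq_mul, ENNReal.ofReal_mul (by positivity),
          ENNReal.ofReal_natCast]
    _ ≤ ∑ l ∈ Finset.range n, ∫⁻ q in W l, Fn q := Finset.sum_le_sum hterm
    _ = ∫⁻ q in ⋃ l ∈ Finset.range n, W l, Fn q :=
        (lintegral_biUnion_finset hdisj (fun l _ => hWm l) _).symm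
    _ ≤ _ := by
        apply lintegral_mono_set
        apply iUnion₂_subset
        intro l hl
        exact hWcone l (Finset.mem_range.1 hl)

end Osc

/-- Item Osc. -/
theorem stOsc : StOsc := by
  intro lam B hlam hB
  refine ⟨Real.exp (-22) * lam / 32, by positivity, fun n => ?_⟩
  -- choice of `A`
  obtain ⟨A, hA16, hAl, hAm⟩ : ∃ A : ℝ, 16 ≤ A ∧ 8 * lam ≤ A ∧
      7 + 5 * B ≤ A * Real.exp (-10) / 4 := by
    refine ⟨max (max 16 (8 * lam)) ((7 + 5 * B) * 4 * Real.exp 10), ?_, ?_, ?_⟩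
    · exact (le_max_left _ _).trans (le_max_left _ _)
    · exact (le_max_right _ _).trans (le_max_left _ _)
    · have h1 : (7 + 5 * B) * 4 * Real.exp 10 ≤
          max (max 16 (8 * lam)) ((7 + 5 * B) * 4 * Real.exp 10) := le_max_right _ _
      have h2 : Real.exp 10 * Real.exp (-10) = 1 := by rw [← Real.exp_add]; norm_num
      calc 7 + 5 * B = (7 + 5 * B) * 4 * (Real.exp 10 * Real.exp (-10)) / 4 := by
            rw [h2]; ring
        _ = ((7 + 5 * B) * 4 * Real.exp 10) * Real.exp (-10) / 4 := by ring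
        _ ≤ _ := by gcongr
  have hA0 : 0 < A := by linarith
  set K : ℝ := 20 * A ^ 2 with hK
  have hK1 : 1 < K := by rw [hK]; nlinarith
  have hK3 : 3 ≤ K := by rw [hK]; nlinarith
  have hK0 : 0 < K := by linarith
  set τ0 : ℝ := (1 / 2) * (1 / K) ^ n with hτ0
  have hτ0pos : 0 < τ0 := by positivity
  refine ⟨τ0, hτ0pos, fun x0 r E hr hE hEsub hEvol => ?_⟩
  set O : ℕ → Set ℝ := fun l => dset E (τ0 * K ^ l) with hO
  have hOanti : Antitone O := by
    intro l l' hll
    apply dset_anti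
    have : K ^ l ≤ K ^ l' := pow_le_pow_right₀ hK1.le hll
    gcongr
  have hopen : ∀ l, IsOpen (O l) := fun l => isOpen_dset _ _
  have hEfin : volume E ≠ ∞ := ((measure_mono hEsub).trans_lt measure_Ioo_lt_top).ne
  have hO0 : O 0 ⊆ Ioo (x0 - 3 * r) (x0 + 3 * r) := by
    intro t ht
    obtain ⟨e, he, hte⟩ := dset_near hEfin (by positivity : 0 < τ0 * K ^ 0)
      (by simpa using hEvol) ht
    have h1 := hEsub he
    rw [abs_lt] at hte
    exact ⟨by linarith [h1.1, hte.1], by linarith [h1.2, hte.2]⟩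
  have hbdd : ∀ l, O l ⊆ Ioo (x0 - 3 * r) (x0 + 3 * r) := fun l =>
    (hOanti (Nat.zero_le l)).trans hO0
  have hc : ∀ l, CoUnb (O l) := by
    intro l
    apply coUnb_of_bounded (M := |x0| + 3 * r)
    refine (hbdd l).trans (Ioo_subset_Ioo ?_ ?_)
    · linarith [neg_abs_le x0]
    · linarith [le_abs_self x0]
  have hEO : ∀ l ≤ n, E ⊆ O l := by
    intro l hl
    apply subset_dset hE
    have h1 : K ^ l ≤ K ^ n := pow_le_pow_right₀ hK1.le hl
    have h2 : (1 / K) ^ n * K ^ n = 1 := by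
      rw [← mul_pow]
      have : 1 / K * K = 1 := by field_simp
      rw [this, one_pow]
    calc τ0 * K ^ l ≤ τ0 * K ^ n := by gcongr
      _ = 1 / 2 * ((1 / K) ^ n * K ^ n) := by rw [hτ0]; ring
      _ < 1 := by rw [h2]; norm_num
  have hρr : ∀ x ∈ E, ∀ l ≤ n, rho (O l) x ≤ 5 * r := by
    intro x hx l _
    have h1 : x0 + 3 * r ∉ O l := fun h => lt_irrefl _ (hbdd l h).2
    refine (rho_le h1).trans ?_
    have h2 := hEsub hx
    rw [abs_le]
    constructor <;> linarith [h2.1, h2.2]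
  have hweak : ∀ x ∈ E, ∀ l < n, volume (O (l + 1) ∩ Ioo (x - rho (O l) x) (x + rho (O l) x)) ≤
      ENNReal.ofReal (rho (O l) x / A ^ 2) := by
    intro x hx l hl
    obtain ⟨a0, ha0, hxa⟩ := exists_rho (hopen l) (hc l) x
    have hρ := rho_pos (hopen l) (hc l) (hEO l hl.le hx)
    have h1 := weak_local (E := E) hE.measurableSet (τ := τ0 * K ^ l) (τ' := τ0 * K ^ (l + 1))
      (x := x) (a0 := a0) (ρ := rho (O l) x) (by positivity) (by
        rw [pow_succ]
        have : 0 < τ0 * K ^ l := by positivity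
        nlinarith) ha0 hρ hxa.le
    refine h1.trans (ENNReal.ofReal_le_ofReal (le_of_eq ?_))
    rw [pow_succ, hK]
    field_simp
  refine ⟨mlf A O n, measurable_mlf hopen hc n, abs_mlf_le hOanti n, ?_⟩
  intro G g hG hg hGE x hx
  have hρn := rho_pos (hopen n) (hc n) (hEO n le_rfl hx)
  refine ⟨rho (O n) x / (2 * A), by positivity, fun ε hε hε0 => ?_⟩
  rw [lt_div_iff₀ (by positivity)] at hε0
  exact Osc.area_lower hlam hA16 hAl hB hAm hOanti hopen hc hr hε
    (fun l hl => hEO l hl hx) (hρr x hx) (hweak x hx) (by linarith) hG hg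
    (fun z y hy hyr hzx => hGE x hx z y hy hyr hzx)

end Pool.Agent.Work.MP_055a27_an.Fn

end

section

set_option autoImplicit false

/-!
# Poisson integrals of indicator functions
-/

open MeasureTheory Set Filter Topology Complex Metric
open scoped ENNReal NNReal

namespace Pool.Agent.Work.MP_055a27_an.Fn

namespace Pd

/-- The Poisson kernel. -/
noncomputable def Kn (z y t : ℝ) : ℝ := (1 / Real.pi) * (y / ((z - t) ^ 2 + y ^ 2))

lemma Kn_nonneg {z y : ℝ} (hy : 0 < y) (t : ℝ) : 0 ≤ Kn z y t := by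
  unfold Kn
  positivity

lemma Kn_le {z y : ℝ} (hy : 0 < y) (t : ℝ) : Kn z y t ≤ 1 / (Real.pi * y) := by
  unfold Kn
  have h1 : y / ((z - t) ^ 2 + y ^ 2) ≤ 1 / y := by
    rw [div_le_div_iff₀ (by positivity) hy]
    nlinarith [sq_nonneg (z - t)]
  calc (1 / Real.pi) * (y / ((z - t) ^ 2 + y ^ 2)) ≤ (1 / Real.pi) * (1 / y) := by
        apply mul_le_mul_of_nonneg_left h1
        positivity
    _ = _ := by field_simp

lemma Kn_int {z y : ℝ} (hy : 0 < y) : Integrable (Kn z y) := by
  have h := ((integrable_kernel (z := z) hy).const_mul y).const_mul (1 / Real.pi)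
  refine h.congr (Eventually.of_forall fun t => ?_)
  simp only [Kn]
  congr 1
  rw [mul_one_div]

lemma Kn_total {z y : ℝ} (hy : 0 < y) : ∫ t, Kn z y t = 1 := by
  have h : ∫ t, Kn z y t = ∫ t : ℝ, (1 / Real.pi) * (y * (1 / ((z - t) ^ 2 + y ^ 2))) := by
    congr 1
    ext t
    simp only [Kn]
    congr 1
    rw [mul_one_div]
  rw [h, integral_const_mul, integral_const_mul, integral_kernel hy]
  have := Real.pi_pos
  field_simp

lemma Kn_Icc {z y r : ℝ} (hy : 0 < y) (hr : 0 ≤ r) :
    ∫ t in Icc (z - r) (z + r), Kn z y t = 2 / Real.pi * Real.arctan (r / y) := by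
  rw [integral_Icc_eq_integral_Ioc, ← intervalIntegral.integral_of_le (by linarith)]
  have hd : ∀ t ∈ uIcc (z - r) (z + r),
      HasDerivAt (fun t : ℝ => (1 / Real.pi) * Real.arctan ((t - z) / y)) (Kn z y t) t := by
    intro t _
    have h1 : HasDerivAt (fun t : ℝ => (t - z) / y) (1 / y) t :=
      ((hasDerivAt_id t).sub_const z).div_const y
    have h2 := (h1.arctan).const_mul (1 / Real.pi)
    convert! h2 using 1
    simp only [Kn]
    congr 1
    have e1 : (z - t) ^ 2 + y ^ 2 ≠ 0 := by positivity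
    have e2 : 1 + ((t - z) / y) ^ 2 ≠ 0 := by positivity
    have e3 : (t - z) ^ 2 + y ^ 2 ≠ 0 := by positivity
    field_simp
    ring
  rw [intervalIntegral.integral_eq_sub_of_hasDerivAt hd (Kn_int hy).intervalIntegrable]
  have e1 : (z + r - z) / y = r / y := by ring
  have e2 : (z - r - z) / y = -(r / y) := by ring
  rw [e1, e2, Real.arctan_neg]
  ring

lemma poisson_ind (Y : Set ℝ) (hY : MeasurableSet Y) (z y : ℝ) :
    poisson (Y.indicator fun _ => 1) z y = ∫ t in Y, Kn z y t := by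
  rw [poisson_eq_integral, ← integral_const_mul, ← integral_indicator hY]
  congr 1
  ext t
  by_cases ht : t ∈ Y
  · simp [ht, Kn]
  · simp [ht]

lemma adm_ind (Y : Set ℝ) (hY : MeasurableSet Y) :
    Admissible (Y.indicator fun _ => (1 : ℝ)) := by
  unfold Admissible
  refine (integrable_inv_one_add_sq).mono' ?_ (Eventually.of_forall fun t => ?_)
  · apply Measurable.aestronglyMeasurable
    apply Measurable.div
    · exact measurable_const.indicator hY
    · fun_prop
  · by_cases ht : t ∈ Y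
    · rw [Set.indicator_of_mem ht, Real.norm_eq_abs, abs_of_nonneg (by positivity), one_div]
    · rw [Set.indicator_of_notMem ht]
      simp
      positivity

lemma mass_le {z y : ℝ} (hy : 0 < y) (N : Set ℝ) (hN : volume N ≠ ∞) :
    ∫ t in N, Kn z y t ≤ volume.real N / (Real.pi * y) := by
  have h := norm_setIntegral_le_of_norm_le_const (μ := (volume : Measure ℝ)) (s := N)
    (f := Kn z y) (C := 1 / (Real.pi * y)) (lt_of_le_of_ne le_top hN) (fun t _ => by
      rw [Real.norm_eq_abs, abs_of_nonneg (Kn_nonneg hy t)]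
      exact Kn_le hy t)
  refine (le_abs_self _).trans ?_
  rw [← Real.norm_eq_abs]
  refine h.trans (le_of_eq ?_)
  ring

end Pd

open Pd in
theorem stPd : StPd := by
  intro Y hY
  refine ⟨adm_ind Y hY, ?_⟩
  intro z y hy
  rw [poisson_ind Y hY]
  have hK := Kn_int (z := z) hy
  have hK0 : ∀ t, 0 ≤ Kn z y t := Kn_nonneg hy
  have hmono : ∀ A B : Set ℝ, A ⊆ B → ∫ t in A, Kn z y t ≤ ∫ t in B, Kn z y t := by
    intro A B hAB
    exact setIntegral_mono_set hK.integrableOn (Eventually.of_forall hK0)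
      (LE.le.eventuallyLE hAB)
  refine ⟨⟨?_, ?_⟩, ?_, ?_, ?_⟩
  · exact integral_nonneg fun t => hK0 t
  · have h1 := hmono Y univ (subset_univ _)
    rw [setIntegral_univ, Kn_total hy] at h1
    exact h1
  · intro hfin
    exact mass_le hy Y hfin
  · intro r hr hdis
    have h1 : ∫ t in Y, Kn z y t ≤ ∫ t in (Ioo (z - r) (z + r))ᶜ, Kn z y t := by
      apply hmono
      intro t ht ht2
      have : t ∈ Y ∩ Ioo (z - r) (z + r) := ⟨ht, ht2⟩
      rw [hdis] at this
      exact this
    have h2 := integral_add_compl (measurableSet_Ioo (a := z - r) (b := z + r)) hK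
    rw [Kn_total hy, ← integral_Icc_eq_integral_Ioo, Kn_Icc hy hr] at h2
    linarith
  · intro r N hr hN hfin hsub
    have h1 : ∫ t in Icc (z - r) (z + r), Kn z y t ≤ ∫ t in Y ∪ N, Kn z y t := hmono _ _ hsub
    rw [Kn_Icc hy hr] at h1
    have h2 : ∫ t in Y ∪ N, Kn z y t ≤ (∫ t in Y, Kn z y t) + ∫ t in N, Kn z y t := by
      have e : Y ∪ N = Y ∪ (N \ Y) := by rw [union_sdiff_self]
      rw [e, setIntegral_union disjoint_sdiff_self_right (hN.diff hY) hK.integrableOn
        hK.integrableOn]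
      have := hmono (N \ Y) N sdiff_subset
      linarith
    have h3 := mass_le (z := z) hy N hfin
    linarith

end Pool.Agent.Work.MP_055a27_an.Fn

end

section

/-!
# Averages of translates satisfy the inequality with the same constant
-/

set_option autoImplicit false

open MeasureTheory Set Filter Topology Complex Metric
open scoped ENNReal NNReal

namespace Pool.Agent.Work.MP_055a27_an.Fn

namespace Tr

/-- translate of a function -/
def tl (f : ℝ → ℝ) (s : ℝ) : ℝ → ℝ := fun τ => f (τ + s)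

lemma admissible_tl {f : ℝ → ℝ} (hf : Admissible f) (s : ℝ) : Admissible (tl f s) := by
  unfold Admissible at hf ⊢
  have h1 : Integrable (fun t : ℝ => f (t + s) / (1 + (t + s) ^ 2)) := hf.comp_add_right s
  have hc : Continuous fun t : ℝ => (1 + (t + s) ^ 2) / (1 + t ^ 2) := by
    refine Continuous.div (by fun_prop) (by fun_prop) fun t => ?_
    positivity
  have heq : (fun t : ℝ => tl f s t / (1 + t ^ 2)) =
      fun t => ((1 + (t + s) ^ 2) / (1 + t ^ 2)) * (f (t + s) / (1 + (t + s) ^ 2)) := by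
    funext t
    unfold tl
    have e1 : (1 + (t + s) ^ 2 : ℝ) ≠ 0 := by positivity
    have e2 : (1 + t ^ 2 : ℝ) ≠ 0 := by positivity
    field_simp
  rw [heq]
  refine (h1.norm.const_mul (2 * (1 + s ^ 2))).mono'
    (hc.aestronglyMeasurable.mul h1.aestronglyMeasurable) (Eventually.of_forall fun t => ?_)
  rw [norm_mul]
  refine mul_le_mul_of_nonneg_right ?_ (norm_nonneg _)
  rw [Real.norm_of_nonneg (by positivity), div_le_iff₀ (by positivity)]
  nlinarith [sq_nonneg (t - s), sq_nonneg (t * s), sq_nonneg s, sq_nonneg t]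

lemma poisson_tl (f : ℝ → ℝ) (s z y : ℝ) : poisson (tl f s) z y = poisson f (z + s) y := by
  unfold poisson tl
  congr 1
  refine integral_congr_ae (Eventually.of_forall fun x => ?_)
  have e : z - x + s = z + s - x := by ring
  simp only [e]

lemma gradSq_tl (f : ℝ → ℝ) (s z y : ℝ) : gradSq (tl f s) z y = gradSq f (z + s) y := by
  unfold gradSq
  have e1 : (fun s' : ℝ => poisson (tl f s) s' y) = fun s' => poisson f (s' + s) y := by
    funext s'; exact poisson_tl f s s' y
  have e2 : (fun s' : ℝ => poisson (tl f s) z s') = fun s' => poisson f (z + s) s' := by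
    funext s'; exact poisson_tl f s z s'
  rw [e1, e2]
  congr 2
  exact deriv_comp_add_const (fun w => poisson f w y) s z

lemma meas_cone (lam x : ℝ) : MeasurableSet (cone lam x) := by
  have h1 : MeasurableSet {q : ℝ × ℝ | |x - q.1| ≤ lam * q.2} :=
    measurableSet_le (by fun_prop) (by fun_prop)
  have h2 : MeasurableSet {q : ℝ × ℝ | 0 < q.2} :=
    measurableSet_lt measurable_const measurable_snd
  exact h1.inter h2

lemma areaFn_tl (lam : ℝ) (f : ℝ → ℝ) (s x : ℝ) :
    areaFn lam (tl f s) x = areaFn lam f (x + s) := by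
  unfold areaFn
  congr 1
  rw [← lintegral_indicator (meas_cone lam x), ← lintegral_indicator (meas_cone lam (x + s)),
    ← lintegral_add_right_eq_self ((cone lam (x + s)).indicator
      (fun q => ENNReal.ofReal (gradSq f q.1 q.2))) ((s, 0) : ℝ × ℝ)]
  refine lintegral_congr fun q => ?_
  have hq : q + (s, (0 : ℝ)) = (q.1 + s, q.2) := by
    ext <;> simp
  rw [hq]
  by_cases h : q ∈ cone lam x
  · have h' : (q.1 + s, q.2) ∈ cone lam (x + s) := by
      unfold cone at h ⊢
      refine ⟨?_, h.2⟩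
      have e : x + s - (q.1 + s) = x - q.1 := by ring
      show |x + s - (q.1 + s)| ≤ lam * q.2
      rw [e]; exact h.1
    rw [indicator_of_mem h, indicator_of_mem h', gradSq_tl]
  · have h' : (q.1 + s, q.2) ∉ cone lam (x + s) := by
      intro h2
      apply h
      unfold cone at h2 ⊢
      refine ⟨?_, h2.2⟩
      have e : x + s - (q.1 + s) = x - q.1 := by ring
      have := h2.1
      simp only [e] at this
      exact this
    rw [indicator_of_notMem h, indicator_of_notMem h']

lemma ntMax_tl (b : ℝ) (f : ℝ → ℝ) (s x : ℝ) :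
    ntMax b (tl f s) x = ntMax b f (x + s) := by
  unfold ntMax
  refine iSup_congr fun z => iSup_congr fun y => iSup_congr fun _ => ?_
  rw [poisson_tl]
  have e : x - z + s = x + s - z := by ring
  rw [e]

lemma intervalIntegrable {U : ℝ → ℝ} (hU : IsWeight U) (a b : ℝ) :
    IntervalIntegrable U volume a b :=
  (hU.2.integrableOn_isCompact isCompact_uIcc).intervalIntegrable

lemma Uav_eq {U : ℝ → ℝ} (hU : IsWeight U) {t : ℝ} (ht : 0 < t) (x : ℝ) :
    Uav U t x = ((∫ s in (0 : ℝ)..x, U s) - ∫ s in (0 : ℝ)..(x - t), U s) / t := by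
  unfold Uav
  rw [integral_Icc_eq_integral_Ioc, ← intervalIntegral.integral_of_le (by linarith),
    intervalIntegral.integral_interval_sub_left (intervalIntegrable hU _ _)
      (intervalIntegrable hU _ _)]

lemma continuous_Uav {U : ℝ → ℝ} (hU : IsWeight U) {t : ℝ} (ht : 0 < t) :
    Continuous (Uav U t) := by
  have h : Uav U t = fun x => ((∫ s in (0 : ℝ)..x, U s) - ∫ s in (0 : ℝ)..(x - t), U s) / t := by
    funext x; exact Uav_eq hU ht x
  rw [h]
  have hc := intervalIntegral.continuous_primitive (intervalIntegrable hU) 0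
  exact ((hc.sub (hc.comp (continuous_id.sub continuous_const))).div_const t)

lemma isWeight_Uav {U : ℝ → ℝ} (hU : IsWeight U) {t : ℝ} (ht : 0 < t) : IsWeight (Uav U t) :=
  ⟨fun _ => div_nonneg (setIntegral_nonneg measurableSet_Icc fun s _ => hU.1 s) ht.le,
    (continuous_Uav hU ht).locallyIntegrable⟩

/-- the average written with an `ℝ≥0∞`-valued version of the weight -/
lemma ofReal_Uav {U : ℝ → ℝ} (hU : IsWeight U) {t : ℝ} (ht : 0 < t) {u : ℝ → ℝ≥0∞}
    (hu : (fun x => ENNReal.ofReal (U x)) =ᵐ[volume] u) (x : ℝ) :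
    ENNReal.ofReal (Uav U t x) =
      (ENNReal.ofReal t)⁻¹ * ∫⁻ s in Icc 0 t, u (x - s) := by
  unfold Uav
  rw [ENNReal.ofReal_div_of_pos ht, ENNReal.div_eq_inv_mul,
    ofReal_integral_eq_lintegral_ofReal (hU.2.integrableOn_isCompact isCompact_Icc)
      (Eventually.of_forall fun s => hU.1 s)]
  congr 1
  rw [lintegral_congr_ae (ae_restrict_of_ae hu), ← lintegral_indicator measurableSet_Icc,
    ← lintegral_indicator measurableSet_Icc, ← lintegral_sub_left_eq_self _ x]
  refine lintegral_congr fun s => ?_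
  by_cases h : s ∈ Icc 0 t
  · have h' : x - s ∈ Icc (x - t) x := ⟨by linarith [h.2], by linarith [h.1]⟩
    rw [indicator_of_mem h, indicator_of_mem h']
  · have h' : x - s ∉ Icc (x - t) x := by
      intro h2
      exact h ⟨by linarith [h2.2], by linarith [h2.1]⟩
    rw [indicator_of_notMem h, indicator_of_notMem h']

/-- the key identity -/
lemma key {U : ℝ → ℝ} (hU : IsWeight U) {t : ℝ} (ht : 0 < t) {g : ℝ → ℝ≥0∞}
    (hg : Measurable g) :
    ∫⁻ x, g x * ENNReal.ofReal (Uav U t x) =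
      (ENNReal.ofReal t)⁻¹ * ∫⁻ s in Icc 0 t, ∫⁻ x, g (x + s) * ENNReal.ofReal (U x) := by
  have hUm := weight_ofReal_aemeas hU
  set u := hUm.mk _ with hudef
  have hum : Measurable u := hUm.measurable_mk
  have hu : (fun x => ENNReal.ofReal (U x)) =ᵐ[volume] u := hUm.ae_eq_mk
  have htop : (ENNReal.ofReal t)⁻¹ ≠ ∞ := by
    rw [ENNReal.inv_ne_top]
    exact (ENNReal.ofReal_pos.2 ht).ne'
  calc ∫⁻ x, g x * ENNReal.ofReal (Uav U t x)
      = ∫⁻ x, (ENNReal.ofReal t)⁻¹ * ∫⁻ s in Icc 0 t, g x * u (x - s) := by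
        refine lintegral_congr fun x => ?_
        have hm : Measurable fun s : ℝ => u (x - s) :=
          hum.comp (measurable_const.sub measurable_id)
        rw [ofReal_Uav hU ht hu, lintegral_const_mul _ hm, mul_left_comm]
    _ = (ENNReal.ofReal t)⁻¹ * ∫⁻ x, ∫⁻ s in Icc 0 t, g x * u (x - s) :=
        lintegral_const_mul' _ _ htop
    _ = (ENNReal.ofReal t)⁻¹ * ∫⁻ s in Icc 0 t, ∫⁻ x, g x * u (x - s) := by
        congr 1
        refine lintegral_lintegral_swap ?_
        refine Measurable.aemeasurable ?_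
        exact (hg.comp measurable_fst).mul (hum.comp (measurable_fst.sub measurable_snd))
    _ = _ := by
        congr 1
        refine lintegral_congr fun s => ?_
        rw [← lintegral_add_right_eq_self _ s]
        refine lintegral_congr_ae ?_
        filter_upwards [hu] with x hx
        rw [add_sub_cancel_right, hx]

end Tr

open Tr in
theorem stTr : StTr := by
  intro C0 lam b p t U hlam hb hp ht hU hS
  refine ⟨isWeight_Uav hU ht, fun f hf => ?_⟩
  rw [key hU ht ((Crit.N.meas_area hf lam).pow_const p),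
    key hU ht ((Crit.N.meas_nt hf b).pow_const p), mul_left_comm (C0 : ℝ≥0∞),
    ← lintegral_const_mul' _ _ ENNReal.coe_ne_top]
  gcongr with s
  have h := hS (tl f s) (admissible_tl hf s)
  simp only [areaFn_tl, ntMax_tl] at h
  exact h

end Pool.Agent.Work.MP_055a27_an.Fn

end

section

/-!
# The a priori bounds
-/

set_option autoImplicit false

open MeasureTheory Set Filter Topology Complex Metric
open scoped ENNReal NNReal

namespace Pool.Agent.Work.MP_055a27_an.Fn

namespace Ap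

/-- the Poisson integral at height one of an admissible function is admissible -/
lemma adm_P {l : ℝ → ℝ} (hl : Admissible l) : Admissible (fun x => poisson l x 1) := by
  have hg : Integrable (fun t : ℝ => l t / (1 + t ^ 2)) volume := hl
  set g : ℝ → ℝ := fun t => l t / (1 + t ^ 2) with hgd
  set h : ℝ → ℝ := fun x => (1 + x ^ 2)⁻¹ with hhd
  have hh : Integrable h volume := integrable_inv_one_add_sq
  have h1 : Integrable (fun p : ℝ × ℝ => ContinuousLinearMap.mul ℝ ℝ (g p.2) (h (p.1 - p.2)))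
      (volume.prod volume) := hg.convolution_integrand (ContinuousLinearMap.mul ℝ ℝ) hh
  have h2 : Integrable (fun p : ℝ × ℝ => h p.1 * g p.2) (volume.prod volume) := hh.mul_prod hg
  have h3 : Integrable (fun p : ℝ × ℝ =>
      g p.2 * ((1 + p.2 ^ 2) / (((p.1 - p.2) ^ 2 + 1) * (1 + p.1 ^ 2))))
      (volume.prod volume) := by
    refine Integrable.mono' ((h1.norm.const_mul 2).add (h2.norm.const_mul 2)) ?_
      (Eventually.of_forall fun p => ?_)
    · exact (hg.aestronglyMeasurable.comp_snd).mul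
        (Measurable.aestronglyMeasurable (by fun_prop))
    · obtain ⟨x, t⟩ := p
      simp only [ContinuousLinearMap.mul_apply', Pi.add_apply, norm_mul, hhd]
      have e1 : (0 : ℝ) < 1 + x ^ 2 := by positivity
      have e2 : (0 : ℝ) < (x - t) ^ 2 + 1 := by positivity
      have e3 : ‖(1 + t ^ 2) / (((x - t) ^ 2 + 1) * (1 + x ^ 2))‖ ≤
          2 * ‖(1 + (x - t) ^ 2)⁻¹‖ + 2 * ‖(1 + x ^ 2)⁻¹‖ := by
        rw [Real.norm_of_nonneg (by positivity), Real.norm_of_nonneg (by positivity),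
          Real.norm_of_nonneg (by positivity), div_le_iff₀ (by positivity)]
        have e4 : (2 * (1 + (x - t) ^ 2)⁻¹ + 2 * (1 + x ^ 2)⁻¹) *
            (((x - t) ^ 2 + 1) * (1 + x ^ 2)) = 2 * (1 + x ^ 2) + 2 * ((x - t) ^ 2 + 1) := by
          have e5 : (1 + (x - t) ^ 2 : ℝ) ≠ 0 := by positivity
          have e6 : (1 + x ^ 2 : ℝ) ≠ 0 := by positivity
          field_simp
          ring
        rw [e4]
        nlinarith [sq_nonneg (2 * x - t)]
      calc ‖g t‖ * ‖(1 + t ^ 2) / (((x - t) ^ 2 + 1) * (1 + x ^ 2))‖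
          ≤ ‖g t‖ * (2 * ‖(1 + (x - t) ^ 2)⁻¹‖ + 2 * ‖(1 + x ^ 2)⁻¹‖) :=
            mul_le_mul_of_nonneg_left e3 (norm_nonneg _)
        _ = _ := by ring
  have h4 := (h3.integral_prod_left).const_mul (1 / Real.pi)
  unfold Admissible
  refine h4.congr (Eventually.of_forall fun x => ?_)
  change 1 / Real.pi * (∫ t : ℝ, g t * ((1 + t ^ 2) / (((x - t) ^ 2 + 1) * (1 + x ^ 2)))) =
    poisson l x 1 / (1 + x ^ 2)
  rw [poisson_eq_integral, mul_div_assoc, ← integral_div]
  congr 1
  refine integral_congr_ae (Eventually.of_forall fun t => ?_)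
  change l t / (1 + t ^ 2) * ((1 + t ^ 2) / (((x - t) ^ 2 + 1) * (1 + x ^ 2))) =
    1 * l t / ((x - t) ^ 2 + 1 ^ 2) / (1 + x ^ 2)
  have e1 : (1 + x ^ 2 : ℝ) ≠ 0 := by positivity
  have e2 : ((x - t) ^ 2 + 1 : ℝ) ≠ 0 := by positivity
  have e3 : (1 + t ^ 2 : ℝ) ≠ 0 := by positivity
  rw [one_pow]
  field_simp

lemma poisson_nonneg {l : ℝ → ℝ} (h0 : ∀ t, 0 ≤ l t) {z y : ℝ} (hy : 0 < y) :
    0 ≤ poisson l z y := by
  rw [poisson_eq_integral]
  refine mul_nonneg (by positivity) (integral_nonneg fun t => ?_)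
  have := h0 t
  positivity

lemma adm_add {l l' : ℝ → ℝ} (hl : Admissible l) (hl' : Admissible l') :
    Admissible (fun x => l x + l' x) := by
  unfold Admissible at *
  refine (hl.add hl').congr (Eventually.of_forall fun t => ?_)
  change l t / (1 + t ^ 2) + l' t / (1 + t ^ 2) = (l t + l' t) / (1 + t ^ 2)
  ring

lemma adm_ind {l : ℝ → ℝ} (hl : Admissible l) {S : Set ℝ} (hS : MeasurableSet S) :
    Admissible (S.indicator l) := by
  unfold Admissible at *
  refine (hl.indicator hS).congr (Eventually.of_forall fun t => ?_)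
  by_cases h : t ∈ S
  · simp only [indicator_of_mem h]
  · simp only [indicator_of_notMem h, zero_div]

lemma poisson_add {l l' : ℝ → ℝ} (hl : Admissible l) (hl' : Admissible l') {z y : ℝ}
    (hy : 0 < y) : poisson (fun x => l x + l' x) z y = poisson l z y + poisson l' z y := by
  rw [poisson_eq_integral, poisson_eq_integral, poisson_eq_integral, ← mul_add,
    ← integral_add (Crit.TFUp.integrable_pois hl hy) (Crit.TFUp.integrable_pois hl' hy)]
  congr 1
  refine integral_congr_ae (Eventually.of_forall fun t => ?_)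
  change y * (l t + l' t) / ((z - t) ^ 2 + y ^ 2) =
    y * l t / ((z - t) ^ 2 + y ^ 2) + y * l' t / ((z - t) ^ 2 + y ^ 2)
  ring

lemma adm_const (d : ℝ) : Admissible fun _ => d := by
  have h : Admissible fun _ : ℝ => (0 : ℝ) := by
    unfold Admissible
    simp
  have h2 := NVc.adm_lin h 0 d
  simpa using h2

lemma poisson_const {d z y : ℝ} (hy : 0 < y) : poisson (fun _ => d) z y = d := by
  have h : Admissible fun _ : ℝ => (0 : ℝ) := by
    unfold Admissible
    simp
  have h2 := NVc.poisson_lin h (K := 0) (d := d) (z := z) hy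
  simpa using h2

/-- the mass of an interval for the averaged weight -/
lemma wm_Uav_le {U : ℝ → ℝ} (hU : IsWeight U) {t : ℝ} (ht : 0 < t) (a b : ℝ) :
    wm (Uav U t) (Icc a b) ≤ wm U (Icc (a - t) b) := by
  have hk := Tr.key hU ht (g := (Icc a b).indicator fun _ => (1 : ℝ≥0∞))
    (measurable_const.indicator measurableSet_Icc)
  have e1 : wm (Uav U t) (Icc a b) =
      ∫⁻ x, (Icc a b).indicator (fun _ => (1 : ℝ≥0∞)) x * ENNReal.ofReal (Uav U t x) := by
    rw [wm_apply measurableSet_Icc, ← lintegral_indicator measurableSet_Icc]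
    refine lintegral_congr fun x => ?_
    by_cases h : x ∈ Icc a b
    · simp only [indicator_of_mem h, one_mul]
    · simp only [indicator_of_notMem h, zero_mul]
  rw [e1, hk]
  have h2 : ∀ s ∈ Icc (0 : ℝ) t, ∫⁻ x, (Icc a b).indicator (fun _ => (1 : ℝ≥0∞)) (x + s) *
      ENNReal.ofReal (U x) ≤ wm U (Icc (a - t) b) := by
    intro s hs
    rw [wm_apply measurableSet_Icc, ← lintegral_indicator measurableSet_Icc]
    refine lintegral_mono fun x => ?_
    by_cases h : x + s ∈ Icc a b
    · have h' : x ∈ Icc (a - t) b := ⟨by linarith [h.1, hs.2], by linarith [h.2, hs.1]⟩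
      simp only [indicator_of_mem h, indicator_of_mem h', one_mul, le_refl]
    · simp only [indicator_of_notMem h, zero_mul, zero_le]
  have h3 : ∫⁻ s in Icc (0 : ℝ) t, ∫⁻ x, (Icc a b).indicator (fun _ => (1 : ℝ≥0∞)) (x + s) *
      ENNReal.ofReal (U x) ≤ ∫⁻ _ in Icc (0 : ℝ) t, wm U (Icc (a - t) b) :=
    setLIntegral_mono' measurableSet_Icc h2
  rw [setLIntegral_const, Real.volume_Icc, sub_zero] at h3
  calc (ENNReal.ofReal t)⁻¹ * ∫⁻ s in Icc (0 : ℝ) t,
        ∫⁻ x, (Icc a b).indicator (fun _ => (1 : ℝ≥0∞)) (x + s) * ENNReal.ofReal (U x)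
      ≤ (ENNReal.ofReal t)⁻¹ * (wm U (Icc (a - t) b) * ENNReal.ofReal t) := by gcongr
    _ = wm U (Icc (a - t) b) := by
        rw [mul_comm (wm U _), ← mul_assoc, ENNReal.inv_mul_cancel
          (ENNReal.ofReal_pos.2 ht).ne' ENNReal.ofReal_ne_top, one_mul]

lemma mass_mono {U : ℝ → ℝ} (hU : IsWeight U) {a b a' b' : ℝ} (h1 : a' ≤ a) (h2 : b ≤ b') :
    ∫ x in Icc a b, U x ≤ ∫ x in Icc a' b', U x := by
  rw [setIntegral_eq_wm hU measurableSet_Icc, setIntegral_eq_wm hU measurableSet_Icc]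
  exact ENNReal.toReal_mono (wm_Icc_lt_top hU _ _).ne (measure_mono (Icc_subset_Icc h1 h2))

lemma mass_Uav {U : ℝ → ℝ} (hU : IsWeight U) {t : ℝ} (ht : 0 < t) (a b : ℝ) :
    ∫ x in Icc a b, Uav U t x ≤ ∫ x in Icc (a - t) b, U x := by
  rw [setIntegral_eq_wm (Tr.isWeight_Uav hU ht) measurableSet_Icc,
    setIntegral_eq_wm hU measurableSet_Icc]
  exact ENNReal.toReal_mono (wm_Icc_lt_top hU _ _).ne (wm_Uav_le hU ht a b)

end Ap

open Ap

theorem stAp (hNVc : StNVc) : StAp := by
  intro U μ c hU hNV hμ hc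
  obtain ⟨ρ1, hadm1, hρ10, hgr⟩ := hNVc U c (μ + 2) hU hNV hc (by linarith)
  have hpi := Real.pi_pos
  have hpi4 : Real.pi < 3.15 := Real.pi_lt_d2
  set Q : ℝ → ℝ := fun x => poisson ρ1 x 1 with hQ
  have hQadm : Admissible Q := adm_P hadm1
  have hQ0 : ∀ x, 0 ≤ Q x := fun x => poisson_nonneg hρ10 one_pos
  have hQle : ∀ x z : ℝ, |x - z| ≤ 1 → Q z ≤ 3 * Q x := by
    intro x z hxz
    refine NVc.kernel_comp hadm1 hρ10 one_pos one_pos fun t => ?_
    rw [← mul_div_assoc, div_le_div_iff₀ (by positivity) (by positivity)]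
    have h1 : (x - z) ^ 2 ≤ 1 := by
      rw [← sq_abs]; exact pow_le_one₀ (abs_nonneg _) hxz
    nlinarith [sq_nonneg ((x - z) - (z - t))]
  set ρ : ℝ → ℝ := fun x => 10 * Q x + ρ1 x with hρ
  have hρadm : Admissible ρ := by
    have := NVc.adm_lin hQadm 10 0
    exact adm_add (by simpa using this) hadm1
  have hρ0 : ∀ x, 0 ≤ ρ x := fun x => by
    have h1 := hQ0 x
    have h2 := hρ10 x
    rw [hρ]; positivity
  refine ⟨ρ, hρadm, hρ0, ?_⟩
  intro t θ ht ht1 hθ hθ1
  -- the pointwise bound for the average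
  have hUavle : ∀ x, Uav U t x ≤ 1 / t * Real.exp (Q x + c) := by
    intro x
    unfold Uav
    have h1 : ∫ s in Icc (x - t) x, U s ≤ ∫ s in Icc (x - (μ + 2) * 1) (x + (μ + 2) * 1), U s :=
      mass_mono hU (by linarith) (by linarith)
    have h2 := h1.trans (hgr x 1 le_rfl)
    unfold Vp at h2
    rw [mul_one] at h2
    rw [div_eq_mul_one_div, mul_comm]
    exact mul_le_mul_of_nonneg_left h2 (by positivity)
  have hmle : ∀ x, max (Uav U t x) θ ≤ 1 / t * Real.exp (Q x + c) := by
    intro x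
    refine max_le (hUavle x) ?_
    have h1 : (1 : ℝ) ≤ 1 / t := by
      rw [le_div_iff₀ ht]; linarith
    have h2 : (1 : ℝ) ≤ Real.exp (Q x + c) := Real.one_le_exp (by linarith [hQ0 x])
    nlinarith
  have hlower : ∀ x, Real.log θ ≤ lgm (Uav U t) θ x := fun x =>
    Real.log_le_log hθ (le_max_right _ _)
  have hupper : ∀ x, lgm (Uav U t) θ x ≤ Real.log (1 / t) + c + Q x := by
    intro x
    unfold lgm
    refine (Real.log_le_log (lt_of_lt_of_le hθ (le_max_right _ _)) (hmle x)).trans ?_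
    rw [Real.log_mul (by positivity) (Real.exp_pos _).ne', Real.log_exp]
    linarith
  have hmeas : Measurable (lgm (Uav U t) θ) := by
    unfold lgm
    exact ((Tr.continuous_Uav hU ht).measurable.max measurable_const).log
  have hladm : Admissible (lgm (Uav U t) θ) := by
    have hb : Admissible fun x => 1 * Q x + (|Real.log θ| + |Real.log (1 / t) + c|) :=
      NVc.adm_lin hQadm _ _
    unfold Admissible at hb ⊢
    refine hb.mono' ?_ (Eventually.of_forall fun x => ?_)
    · exact (hmeas.div (by fun_prop)).aestronglyMeasurable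
    · rw [Real.norm_eq_abs, abs_div, abs_of_pos (by positivity : (0 : ℝ) < 1 + x ^ 2)]
      refine div_le_div_of_nonneg_right ?_ (by positivity)
      rw [abs_le]
      have h1 := hlower x
      have h2 := hupper x
      have h3 := hQ0 x
      have h4 := neg_abs_le (Real.log θ)
      have h5 := le_abs_self (Real.log (1 / t) + c)
      have h6 := abs_nonneg (Real.log θ)
      have h7 := abs_nonneg (Real.log (1 / t) + c)
      constructor <;> linarith
  have hEx1 : Ex (lgm (Uav U t) θ) := ⟨hladm, Real.log θ, hlower⟩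
  refine ⟨hEx1, fun n => ?_⟩
  have hSm : MeasurableSet {x : ℝ | (n : ℝ) ≤ |x|} :=
    measurableSet_le measurable_const (by fun_prop)
  have hindadm : Admissible (fun x : ℝ => if (n : ℝ) ≤ |x| then ρ x else 0) := by
    have h1 := adm_ind hρadm hSm
    have h2 : ({x : ℝ | (n : ℝ) ≤ |x|}).indicator ρ =
        fun x : ℝ => if (n : ℝ) ≤ |x| then ρ x else 0 := by
      funext x
      by_cases h : (n : ℝ) ≤ |x|
      · rw [if_pos h, indicator_of_mem (show x ∈ {x : ℝ | (n : ℝ) ≤ |x|} from h)]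
      · rw [if_neg h, indicator_of_notMem (show x ∉ {x : ℝ | (n : ℝ) ≤ |x|} from h)]
    rwa [h2] at h1
  have hlnadm := adm_add hladm hindadm
  have hind0 : ∀ x : ℝ, 0 ≤ (if (n : ℝ) ≤ |x| then ρ x else 0) := by
    intro x
    split_ifs
    · exact hρ0 x
    · exact le_rfl
  set ln : ℝ → ℝ := fun x => lgm (Uav U t) θ x + if (n : ℝ) ≤ |x| then ρ x else 0 with hln
  have hlnlow : ∀ x, Real.log θ ≤ ln x := fun x => by
    have h1 := hlower x
    have h2 := hind0 x
    rw [hln]
    linarith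
  refine ⟨⟨hlnadm, Real.log θ, hlnlow⟩, ?_⟩
  -- constants
  set J : ℝ := ∫ t : ℝ, ρ1 t / (1 + t ^ 2) with hJ
  have hJ0 : 0 ≤ J := integral_nonneg fun t => by
    have := hρ10 t
    positivity
  set D : ℝ := 1 / Real.pi * ((1 + (n : ℝ) ^ 2) * J) with hD
  set E : ℝ := 1 / Real.pi * ((3 + 2 * ((n : ℝ) + 1) ^ 2) * J) with hE
  have hD0 : 0 ≤ D := by rw [hD]; positivity
  have hE0 : 0 ≤ E := by rw [hE]; positivity
  refine ⟨Real.exp (D - Real.log θ) + 2 * μ / t * Real.exp (E + c - Real.log θ), by positivity,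
    ?_⟩
  intro z y hy
  have hexpV := Real.exp_pos (Vp ln c z y)
  rcases le_or_gt 1 y with hy1 | hy1
  · -- large heights
    have h1 : ∫ x in Icc (z - μ * y) (z + μ * y), Uav U t x ≤ Real.exp (Vp ρ1 c z y) := by
      refine (mass_Uav hU ht _ _).trans ((mass_mono hU ?_ ?_).trans (hgr z y hy1))
      · nlinarith
      · nlinarith
    have h2 : Vp ρ1 c z y ≤ (D - Real.log θ) + Vp ln c z y := by
      unfold Vp
      have h3 : poisson ρ1 z y + Real.log θ ≤ poisson ln z y + D := by
        -- the part of `ρ1` on the ball of radius `n`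
        have hS' : MeasurableSet {x : ℝ | |x| < (n : ℝ)} :=
          measurableSet_lt (by fun_prop) measurable_const
        have hadmi := adm_ind hadm1 hS'
        have h4 : poisson (({x : ℝ | |x| < (n : ℝ)}).indicator ρ1) z y ≤ D := by
          rw [poisson_eq_integral, hD]
          refine mul_le_mul_of_nonneg_left ?_ (by positivity)
          rw [hJ, ← integral_const_mul]
          have hI : Integrable (fun t : ℝ => ρ1 t / (1 + t ^ 2)) volume := hadm1
          refine integral_mono (Crit.TFUp.integrable_pois hadmi hy) (hI.const_mul _)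
            fun s => ?_
          by_cases hs : s ∈ {x : ℝ | |x| < (n : ℝ)}
          · simp only [indicator_of_mem hs]
            have hs' : s ^ 2 ≤ (n : ℝ) ^ 2 := by
              rw [← sq_abs s]
              exact pow_le_pow_left₀ (abs_nonneg _) (le_of_lt hs) 2
            have hs0 := hρ10 s
            have e1 : y / ((z - s) ^ 2 + y ^ 2) ≤ (1 + (n : ℝ) ^ 2) / (1 + s ^ 2) := by
              rw [div_le_div_iff₀ (by positivity) (by positivity)]
              have e2 : y * (1 + s ^ 2) ≤ y ^ 2 * (1 + (n : ℝ) ^ 2) := by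
                nlinarith [mul_nonneg (mul_nonneg hy.le (sub_nonneg.2 hy1))
                  (by positivity : (0 : ℝ) ≤ 1 + s ^ 2)]
              nlinarith [mul_nonneg (sq_nonneg (z - s)) (by positivity : (0 : ℝ) ≤ 1 + (n : ℝ) ^ 2)]
            have e3 := mul_le_mul_of_nonneg_right e1 hs0
            calc y * ρ1 s / ((z - s) ^ 2 + y ^ 2) = y / ((z - s) ^ 2 + y ^ 2) * ρ1 s := by ring
              _ ≤ (1 + (n : ℝ) ^ 2) / (1 + s ^ 2) * ρ1 s := e3
              _ = _ := by ring
          · simp only [indicator_of_notMem hs]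
            have hs0 := hρ10 s
            rw [mul_zero, zero_div]
            positivity
        have h5 : poisson (fun x => ρ1 x + Real.log θ) z y ≤
            poisson (fun x => ln x + ({x : ℝ | |x| < (n : ℝ)}).indicator ρ1 x) z y := by
          refine Crit.TFUp.poisson_mono (adm_add hadm1 (adm_const _)) (adm_add hlnadm hadmi)
            (fun s => ?_) hy
          by_cases hs : s ∈ {x : ℝ | |x| < (n : ℝ)}
          · simp only [indicator_of_mem hs]
            linarith [hlnlow s]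
          · simp only [indicator_of_notMem hs]
            have hs' : (n : ℝ) ≤ |s| := not_lt.1 hs
            have h6 := hlower s
            have h7 := hQ0 s
            rw [hln]
            simp only [if_pos hs', hρ]
            linarith
        rw [poisson_add hadm1 (adm_const _) hy, poisson_add hlnadm hadmi hy,
          poisson_const hy] at h5
        linarith
      linarith
    refine h1.trans ((Real.exp_le_exp.2 h2).trans ?_)
    rw [Real.exp_add]
    have h3 : Real.exp (Vp ln c z y) ≤ y * Real.exp (Vp ln c z y) := by nlinarith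
    have h4 : 0 ≤ 2 * μ / t * Real.exp (E + c - Real.log θ) := by positivity
    refine mul_le_mul (by linarith) h3 hexpV.le (by positivity)
  · -- small heights
    have h1 : ∀ x ∈ Icc (z - μ * y) (z + μ * y), Uav U t x ≤ 1 / t * Real.exp (Q z + c) := by
      intro x hx
      have hμy : μ * y ≤ μ := by nlinarith
      unfold Uav
      have h2 : ∫ s in Icc (x - t) x, U s ≤
          ∫ s in Icc (z - (μ + 2) * 1) (z + (μ + 2) * 1), U s :=
        mass_mono hU (by linarith [hx.1]) (by linarith [hx.2])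
      have h3 := h2.trans (hgr z 1 le_rfl)
      unfold Vp at h3
      rw [mul_one] at h3
      rw [div_eq_mul_one_div, mul_comm]
      exact mul_le_mul_of_nonneg_left h3 (by positivity)
    have h2 : ∫ x in Icc (z - μ * y) (z + μ * y), Uav U t x ≤
        2 * μ * y * (1 / t * Real.exp (Q z + c)) := by
      have h3 : ∫ x in Icc (z - μ * y) (z + μ * y), Uav U t x ≤
          ∫ _ in Icc (z - μ * y) (z + μ * y), (1 / t * Real.exp (Q z + c)) :=
        setIntegral_mono_on
          ((Tr.isWeight_Uav hU ht).2.integrableOn_isCompact isCompact_Icc)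
          (integrableOn_const (by simp)) measurableSet_Icc h1
      refine h3.trans (le_of_eq ?_)
      rw [setIntegral_const, smul_eq_mul, Real.volume_real_Icc_of_le (by nlinarith)]
      ring
    -- the main comparison
    have h3 : Q z ≤ E - Real.log θ + poisson ln z y := by
      rcases le_or_gt |z| ((n : ℝ) + 1) with hz | hz
      · have h4 : Q z ≤ E := by
          rw [hQ]
          simp only
          rw [poisson_eq_integral, hE]
          refine mul_le_mul_of_nonneg_left ?_ (by positivity)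
          rw [hJ, ← integral_const_mul]
          have hI : Integrable (fun t : ℝ => ρ1 t / (1 + t ^ 2)) volume := hadm1
          refine integral_mono (Crit.TFUp.integrable_pois hadm1 one_pos) (hI.const_mul _)
            fun s => ?_
          have hs0 := hρ10 s
          have hz2 : z ^ 2 ≤ ((n : ℝ) + 1) ^ 2 := by
            rw [← sq_abs z]
            exact pow_le_pow_left₀ (abs_nonneg _) hz 2
          have e1 : 1 / ((z - s) ^ 2 + 1 ^ 2) ≤ (3 + 2 * ((n : ℝ) + 1) ^ 2) / (1 + s ^ 2) := by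
            rw [div_le_div_iff₀ (by positivity) (by positivity)]
            nlinarith [sq_nonneg (2 * z - s), mul_nonneg (sq_nonneg (z - s))
              (sq_nonneg ((n : ℝ) + 1)), sq_nonneg (z - s)]
          have e3 := mul_le_mul_of_nonneg_right e1 hs0
          calc 1 * ρ1 s / ((z - s) ^ 2 + 1 ^ 2) = 1 / ((z - s) ^ 2 + 1 ^ 2) * ρ1 s := by ring
            _ ≤ (3 + 2 * ((n : ℝ) + 1) ^ 2) / (1 + s ^ 2) * ρ1 s := e3
            _ = _ := by ring
        have h5 : Real.log θ ≤ poisson ln z y := by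
          rw [← poisson_const (d := Real.log θ) (z := z) hy]
          exact Crit.TFUp.poisson_mono (adm_const _) hlnadm hlnlow hy
        linarith
      · -- far away
        set a : ℝ := 10 / 3 * Q z with ha
        have ha0 : 0 ≤ a := by
          have := hQ0 z
          rw [ha]; positivity
        have hadmi : Admissible ((Icc (z - y) (z + y)).indicator fun _ => a) :=
          adm_ind (adm_const a) measurableSet_Icc
        have h5 : poisson (fun x => Real.log θ + (Icc (z - y) (z + y)).indicator (fun _ => a) x)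
            z y ≤ poisson ln z y := by
          refine Crit.TFUp.poisson_mono (adm_add (adm_const _) hadmi) hlnadm (fun s => ?_) hy
          by_cases hs : s ∈ Icc (z - y) (z + y)
          · simp only [indicator_of_mem hs]
            have hsz : |s - z| ≤ 1 := by
              rw [abs_le]
              constructor <;> linarith [hs.1, hs.2]
            have hs' : (n : ℝ) ≤ |s| := by
              have h6 : |z| ≤ |s| + |s - z| := by
                have := abs_sub_abs_le_abs_sub z s
                rw [abs_sub_comm z s] at this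
                linarith
              linarith
            have h7 := hQle s z hsz
            have h8 := hρ10 s
            have h9 := hlower s
            rw [hln]
            simp only [if_pos hs', hρ, ha]
            linarith
          · simp only [indicator_of_notMem hs, add_zero]
            exact hlnlow s
        rw [poisson_add (adm_const _) hadmi hy, poisson_const hy] at h5
        have h6 : Q z ≤ poisson ((Icc (z - y) (z + y)).indicator fun _ => a) z y := by
          rw [poisson_eq_integral]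
          have h7 : ∫ s : ℝ, (Icc (z - y) (z + y)).indicator (fun _ => a / (2 * y)) s ≤
              ∫ s : ℝ, y * (Icc (z - y) (z + y)).indicator (fun _ => a) s /
                ((z - s) ^ 2 + y ^ 2) := by
            refine integral_mono ?_ (Crit.TFUp.integrable_pois hadmi hy) fun s => ?_
            · exact (integrable_indicator_iff measurableSet_Icc).2 (integrableOn_const (by simp))
            · by_cases hs : s ∈ Icc (z - y) (z + y)
              · simp only [indicator_of_mem hs]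
                rw [div_le_div_iff₀ (by positivity) (by positivity)]
                have e1 : (z - s) ^ 2 ≤ y ^ 2 := by
                  rw [← sq_abs (z - s)]
                  refine pow_le_pow_left₀ (abs_nonneg _) ?_ 2
                  rw [abs_le]
                  constructor <;> linarith [hs.1, hs.2]
                nlinarith
              · simp only [indicator_of_notMem hs, mul_zero, zero_div, le_refl]
          rw [integral_indicator measurableSet_Icc, setIntegral_const, smul_eq_mul,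
            Real.volume_real_Icc_of_le (by linarith)] at h7
          have e1 : (z + y - (z - y)) * (a / (2 * y)) = a := by
            field_simp
            ring
          rw [e1] at h7
          have h8 : Q z ≤ 1 / Real.pi * a := by
            rw [ha, one_div, ← div_eq_inv_mul, le_div_iff₀ hpi]
            nlinarith [hQ0 z]
          exact h8.trans (mul_le_mul_of_nonneg_left h7 (by positivity))
        linarith
    refine h2.trans ?_
    have h4 : Real.exp (Q z + c) ≤ Real.exp (E + c - Real.log θ) * Real.exp (Vp ln c z y) := by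
      rw [← Real.exp_add, Real.exp_le_exp]
      unfold Vp
      have : 0 ≤ c * y := by positivity
      linarith
    have h5 : 2 * μ * y * (1 / t * Real.exp (Q z + c)) ≤
        2 * μ / t * Real.exp (E + c - Real.log θ) * (y * Real.exp (Vp ln c z y)) := by
      calc 2 * μ * y * (1 / t * Real.exp (Q z + c))
          ≤ 2 * μ * y * (1 / t * (Real.exp (E + c - Real.log θ) * Real.exp (Vp ln c z y))) := by
            gcongr
        _ = _ := by ring
    refine h5.trans ?_
    refine mul_le_mul_of_nonneg_right ?_ (by positivity)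
    have := Real.exp_pos (D - Real.log θ)
    linarith

end Pool.Agent.Work.MP_055a27_an.Fn

end

section

/-!
# Item 26 (Bl): the Blaschke condition
-/

set_option autoImplicit false

open MeasureTheory Set Filter Topology Complex Metric
open scoped ENNReal NNReal ComplexConjugate

namespace Pool.Agent.Work.MP_055a27_an.Fn

namespace Bl

/-- The zeros in the upper half plane are countable. -/
theorem countable_zeros {g : ℂ → ℂ} (hg : DifferentiableOn ℂ g {w : ℂ | 0 < w.im})
    (hne : ∃ w : ℂ, 0 < w.im ∧ g w ≠ 0) : {w : ℂ | 0 < w.im ∧ g w = 0}.Countable := by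
  have hopen : IsOpen {w : ℂ | 0 < w.im} := isOpen_lt continuous_const Complex.continuous_im
  have hconv : Convex ℝ {w : ℂ | 0 < w.im} := convex_halfSpace_im_gt 0
  have han : AnalyticOnNhd ℂ g {w : ℂ | 0 < w.im} := hg.analyticOnNhd hopen
  have key : ∀ x ∈ {w : ℂ | 0 < w.im ∧ g w = 0},
      ({x} : Set ℂ) ∈ 𝓝[{w : ℂ | 0 < w.im ∧ g w = 0}] x := by
    intro x hx
    rcases (han x hx.1).eventually_eq_zero_or_eventually_ne_zero with h | h
    · exfalso
      obtain ⟨w, hw, hgw⟩ := hne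
      exact hgw (han.eqOn_zero_of_preconnected_of_eventuallyEq_zero hconv.isPreconnected hx.1 h hw)
    · rw [eventually_nhdsWithin_iff] at h
      rw [mem_nhdsWithin_iff_eventually]
      filter_upwards [h] with w hw hw2
      by_contra hne'
      exact hw hne' hw2.2
  obtain ⟨t, hts, htc, hst⟩ := TopologicalSpace.countable_cover_nhdsWithin key
  refine htc.mono fun x hx => ?_
  have := hst hx
  simp only [mem_iUnion, mem_singleton_iff, exists_prop] at this
  obtain ⟨y, hy, rfl⟩ := this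
  exact hy

/-- There is a point of the upper half plane which is not a zero. -/
theorem exists_point {g : ℂ → ℂ} {h : ℝ} (hG : GG h g) : ∃ w : ℂ, 0 < w.im ∧ g w ≠ 0 := by
  obtain ⟨hh, hd, -, hr⟩ := hG
  have hopen : IsOpen {w : ℂ | -h < w.im} := isOpen_lt continuous_const Complex.continuous_im
  have h0 : (0 : ℂ) ∈ {w : ℂ | -h < w.im} := by simpa using hh
  have hc : ContinuousAt g 0 := (hd.differentiableAt (hopen.mem_nhds h0)).continuousAt
  have hg0 : g 0 ≠ 0 := by simpa using hr 0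
  have he : ∀ᶠ w in 𝓝 (0 : ℂ), g w ≠ 0 := hc.eventually_ne hg0
  obtain ⟨ε, hε, hb⟩ := Metric.eventually_nhds_iff.1 he
  refine ⟨((ε / 2 : ℝ) : ℂ) * I, by simpa using hε, hb ?_⟩
  rw [dist_zero_right, norm_mul, Complex.norm_I, mul_one, Complex.norm_real,
    Real.norm_of_nonneg (by positivity)]
  linarith

theorem norm_sq (z : ℂ) : ‖z‖ ^ 2 = z.re ^ 2 + z.im ^ 2 := by
  rw [← Complex.normSq_eq_norm_sq, Complex.normSq_apply]
  ring

/-- lower bound of the weight of a zero in a large disc -/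
theorem log_low {w ζ : ℂ} {R : ℝ} (hR : 0 < R) (hw : 0 < w.im) (hζ : 0 < ζ.im) (hne : w ≠ ζ)
    (h1 : ‖w‖ ^ 2 ≤ w.im * R) (h2 : ‖ζ‖ ^ 2 ≤ ζ.im * R) :
    w.im / (5 * (1 + ‖w‖ ^ 2)) * (ζ.im / (1 + ‖ζ‖ ^ 2)) ≤
      Real.log (‖(R : ℂ) ^ 2 - conj (ζ - (R : ℂ) * I) * (w - (R : ℂ) * I)‖ / (R * ‖w - ζ‖)) := by
  have hd : 0 < ‖w - ζ‖ := norm_pos_iff.2 (sub_ne_zero.2 hne)
  set D : ℝ := ‖w - ζ‖ with hDdef
  set N : ℝ := ‖(R : ℂ) ^ 2 - conj (ζ - (R : ℂ) * I) * (w - (R : ℂ) * I)‖ with hNdef
  have e1 : ((R : ℂ) ^ 2).re = R ^ 2 := by rw [← Complex.ofReal_pow, Complex.ofReal_re]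
  have e2 : ((R : ℂ) ^ 2).im = 0 := by rw [← Complex.ofReal_pow, Complex.ofReal_im]
  have hN : N ^ 2 = R ^ 2 * D ^ 2 + (2 * R * ζ.im - ‖ζ‖ ^ 2) * (2 * R * w.im - ‖w‖ ^ 2) := by
    rw [hNdef, hDdef, norm_sq, norm_sq, norm_sq, norm_sq]
    simp only [Complex.sub_re, Complex.sub_im, Complex.mul_re, Complex.mul_im,
      Complex.conj_re, Complex.conj_im, e1, e2, Complex.ofReal_re, Complex.ofReal_im,
      Complex.I_re, Complex.I_im]
    ring
  have hx : 0 < w.im * ζ.im := mul_pos hw hζ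
  have hN2 : R ^ 2 * (D ^ 2 + w.im * ζ.im) ≤ N ^ 2 := by
    rw [hN]
    have a1 : R * ζ.im ≤ 2 * R * ζ.im - ‖ζ‖ ^ 2 := by nlinarith
    have a2 : R * w.im ≤ 2 * R * w.im - ‖w‖ ^ 2 := by nlinarith
    have a3 : R * ζ.im * (R * w.im) ≤ (2 * R * ζ.im - ‖ζ‖ ^ 2) * (2 * R * w.im - ‖w‖ ^ 2) :=
      mul_le_mul a1 a2 (by positivity) (le_trans (by positivity) a1)
    nlinarith
  have hNpos : 0 < N := by
    by_contra hcon
    have h0 : N = 0 := le_antisymm (not_lt.1 hcon) (norm_nonneg _)
    rw [h0] at hN2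
    have : 0 < R ^ 2 * (D ^ 2 + w.im * ζ.im) := by positivity
    nlinarith
  have hq : 0 < N / (R * D) := by positivity
  have hlog : 2 * Real.log (N / (R * D)) = Real.log ((N / (R * D)) ^ 2) := by
    rw [Real.log_pow]
    norm_num
  have hq2 : (D ^ 2 + w.im * ζ.im) / D ^ 2 ≤ (N / (R * D)) ^ 2 := by
    rw [div_pow, div_le_div_iff₀ (by positivity) (by positivity)]
    have : 0 < D ^ 2 := by positivity
    nlinarith
  have hl2 : Real.log ((D ^ 2 + w.im * ζ.im) / D ^ 2) ≤ Real.log ((N / (R * D)) ^ 2) :=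
    Real.log_le_log (by positivity) hq2
  have hl3 : w.im * ζ.im / (D ^ 2 + w.im * ζ.im) ≤ Real.log ((D ^ 2 + w.im * ζ.im) / D ^ 2) := by
    have h3 := Real.one_sub_inv_le_log_of_pos
      (show (0 : ℝ) < (D ^ 2 + w.im * ζ.im) / D ^ 2 by positivity)
    have h4 : 1 - ((D ^ 2 + w.im * ζ.im) / D ^ 2)⁻¹ = w.im * ζ.im / (D ^ 2 + w.im * ζ.im) := by
      rw [inv_div]
      field_simp
      ring
    rw [← h4]
    exact h3
  have hDle : D ^ 2 + w.im * ζ.im ≤ 5 / 2 * ((1 + ‖w‖ ^ 2) * (1 + ‖ζ‖ ^ 2)) := by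
    have b1 : D ≤ ‖w‖ + ‖ζ‖ := norm_sub_le w ζ
    have b2 : D ^ 2 ≤ (‖w‖ + ‖ζ‖) ^ 2 := by gcongr
    have b3 : w.im ^ 2 ≤ ‖w‖ ^ 2 := by rw [norm_sq]; nlinarith [sq_nonneg w.re]
    have b4 : ζ.im ^ 2 ≤ ‖ζ‖ ^ 2 := by rw [norm_sq]; nlinarith [sq_nonneg ζ.re]
    nlinarith [sq_nonneg (‖w‖ - ‖ζ‖), sq_nonneg (w.im - ζ.im), sq_nonneg (‖w‖ * ‖ζ‖),
      sq_nonneg ‖w‖, sq_nonneg ‖ζ‖]
  have hl4 : w.im * ζ.im / (5 / 2 * ((1 + ‖w‖ ^ 2) * (1 + ‖ζ‖ ^ 2))) ≤
      w.im * ζ.im / (D ^ 2 + w.im * ζ.im) := by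
    apply div_le_div_of_nonneg_left hx.le (by positivity) hDle
  have hfin : w.im / (5 * (1 + ‖w‖ ^ 2)) * (ζ.im / (1 + ‖ζ‖ ^ 2)) =
      1 / 2 * (w.im * ζ.im / (5 / 2 * ((1 + ‖w‖ ^ 2) * (1 + ‖ζ‖ ^ 2)))) := by
    have p1 : 0 < 1 + ‖w‖ ^ 2 := by positivity
    have p2 : 0 < 1 + ‖ζ‖ ^ 2 := by positivity
    field_simp
  rw [hfin]
  linarith

/-- membership in a disc which touches the real line at zero -/
theorem mem_disc {w : ℂ} {R : ℝ} (hR : 0 < R) (hw : 0 < w.im) (h1 : ‖w‖ ^ 2 ≤ w.im * R) :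
    w ∈ ball ((R : ℂ) * I) R := by
  rw [mem_ball, dist_eq_norm]
  refine lt_of_pow_lt_pow_left₀ 2 hR.le ?_
  have h2 := norm_sq w
  rw [norm_sq]
  simp only [Complex.sub_re, Complex.sub_im, Complex.mul_re, Complex.mul_im, Complex.ofReal_re,
    Complex.ofReal_im, Complex.I_re, Complex.I_im]
  nlinarith [mul_pos hR hw]

theorem im_nonneg {w : ℂ} {R : ℝ} (hR : 0 < R) (h : w ∈ closedBall ((R : ℂ) * I) R) :
    0 ≤ w.im := by
  rw [mem_closedBall, dist_eq_norm] at h
  have h1 : |(w - (R : ℂ) * I).im| ≤ R := le_trans (Complex.abs_im_le_norm _) h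
  rw [abs_le] at h1
  have h2 : (w - (R : ℂ) * I).im = w.im - R := by simp
  rw [h2] at h1
  linarith [h1.1]

/-- the points of the circle -/
theorem sphere_eq {w : ℂ} {R : ℝ} (hR : 0 < R) (h : w ∈ sphere ((R : ℂ) * I) R) :
    ‖w‖ ^ 2 = 2 * R * w.im := by
  rw [mem_sphere, dist_eq_norm] at h
  have h2 : ‖w - (R : ℂ) * I‖ ^ 2 = R ^ 2 := by rw [h]
  rw [norm_sq] at h2 ⊢
  simp only [Complex.sub_re, Complex.sub_im, Complex.mul_re, Complex.mul_im, Complex.ofReal_re,
    Complex.ofReal_im, Complex.I_re, Complex.I_im] at h2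
  nlinarith

/-- a large radius outside a countable set -/
theorem exists_radius {S : Set ℝ} (hS : S.Countable) (a : ℝ) : ∃ R : ℝ, a < R ∧ R ∉ S := by
  have h1 : ¬ (Ioo a (a + 1) ⊆ S) := by
    intro hsub
    have h3 : volume (Ioo a (a + 1)) = 0 := (hS.mono hsub).measure_zero _
    rw [Real.volume_Ioo, ENNReal.ofReal_eq_zero] at h3
    linarith
  rw [not_subset] at h1
  obtain ⟨R, hR, hR2⟩ := h1
  exact ⟨R, hR.1, hR2⟩

/-- the bound of the finite sums -/
theorem fin_sum (hPJ : StPJ) {g : ℂ → ℂ} {h : ℝ} (hG : GG h g) (hc : (ZZ g).Countable) {w : ℂ}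
    (hw : 0 < w.im) (hgw : g w ≠ 0) (F : Finset ℂ) (hF : ∀ ζ ∈ F, ζ ∈ ZZ g) :
    ∑ ζ ∈ F, (analyticOrderNatAt g ζ : ℝ≥0∞) *
      ENNReal.ofReal (w.im / (5 * (1 + ‖w‖ ^ 2)) * (ζ.im / (1 + ‖ζ‖ ^ 2))) ≤
      ENNReal.ofReal (-Real.log ‖g w‖) := by
  classical
  obtain ⟨hh, hd, hle, hr⟩ := hG
  set S : Set ℝ := (fun ζ : ℂ => ‖ζ‖ ^ 2 / (2 * ζ.im)) '' ZZ g with hSdef
  obtain ⟨R, hRa, hRS⟩ := exists_radius (hc.image (fun ζ : ℂ => ‖ζ‖ ^ 2 / (2 * ζ.im)))
    (‖w‖ ^ 2 / w.im + ∑ ζ ∈ F, ‖ζ‖ ^ 2 / ζ.im)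
  have hsn : 0 ≤ ∑ ζ ∈ F, ‖ζ‖ ^ 2 / ζ.im :=
    Finset.sum_nonneg fun ζ hζ => div_nonneg (by positivity) (hF ζ hζ).1.le
  have hwn : 0 ≤ ‖w‖ ^ 2 / w.im := by positivity
  have hR : 0 < R := by linarith
  have hwR : ‖w‖ ^ 2 ≤ w.im * R := by
    have : ‖w‖ ^ 2 / w.im ≤ R := by linarith
    rw [div_le_iff₀ hw] at this
    linarith
  have hζR : ∀ ζ ∈ F, ‖ζ‖ ^ 2 ≤ ζ.im * R := by
    intro ζ hζ
    have h1 : ‖ζ‖ ^ 2 / ζ.im ≤ ∑ ζ ∈ F, ‖ζ‖ ^ 2 / ζ.im :=
      Finset.single_le_sum (f := fun ζ : ℂ => ‖ζ‖ ^ 2 / ζ.im)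
        (fun ζ hζ => div_nonneg (by positivity) (hF ζ hζ).1.le) hζ
    have : ‖ζ‖ ^ 2 / ζ.im ≤ R := by linarith
    rw [div_le_iff₀ (hF ζ hζ).1] at this
    linarith
  have hopen : IsOpen {w : ℂ | -h < w.im} := isOpen_lt continuous_const Complex.continuous_im
  have hsub : closedBall ((R : ℂ) * I) R ⊆ {w : ℂ | -h < w.im} := by
    intro z hz
    have := im_nonneg hR hz
    show -h < z.im
    linarith
  have hball : ∀ ζ ∈ F, ζ ∈ ball ((R : ℂ) * I) R ∧ g ζ = 0 := fun ζ hζ =>
    ⟨mem_disc hR (hF ζ hζ).1 (hζR ζ hζ), (hF ζ hζ).2⟩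
  have hP := (hPJ g ((R : ℂ) * I) R hR (fun z hz => (hd.analyticOnNhd hopen) z (hsub hz)) ?_
    (fun ζ hζ => hle ζ (hsub hζ)) w (mem_disc hR hw hwR) hgw).2
  · rw [hP]
    refine le_trans ?_ le_add_self
    calc ∑ ζ ∈ F, (analyticOrderNatAt g ζ : ℝ≥0∞) *
        ENNReal.ofReal (w.im / (5 * (1 + ‖w‖ ^ 2)) * (ζ.im / (1 + ‖ζ‖ ^ 2)))
        ≤ ∑ ζ ∈ F, (analyticOrderNatAt g ζ : ℝ≥0∞) * ENNReal.ofReal (Real.log
          (‖(R : ℂ) ^ 2 - conj (ζ - (R : ℂ) * I) * (w - (R : ℂ) * I)‖ / (R * ‖w - ζ‖))) := by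
          refine Finset.sum_le_sum fun ζ hζ => ?_
          gcongr
          refine log_low hR hw (hF ζ hζ).1 ?_ hwR (hζR ζ hζ)
          rintro rfl
          exact hgw (hF _ hζ).2
      _ = ∑ ζ ∈ F.subtype (fun ζ => ζ ∈ ball ((R : ℂ) * I) R ∧ g ζ = 0),
          (analyticOrderNatAt g (ζ : ℂ) : ℝ≥0∞) * ENNReal.ofReal (Real.log
          (‖(R : ℂ) ^ 2 - conj ((ζ : ℂ) - (R : ℂ) * I) * (w - (R : ℂ) * I)‖ /
            (R * ‖w - ζ‖))) :=
          (Finset.sum_subtype_of_mem (fun ζ : ℂ => (analyticOrderNatAt g ζ : ℝ≥0∞) *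
            ENNReal.ofReal (Real.log (‖(R : ℂ) ^ 2 - conj (ζ - (R : ℂ) * I) *
              (w - (R : ℂ) * I)‖ / (R * ‖w - ζ‖)))) hball).symm
      _ ≤ _ := ENNReal.sum_le_tsum _
  · intro ζ hζ h0
    have h1 := sphere_eq hR hζ
    have h2 := im_nonneg hR (sphere_subset_closedBall hζ)
    rcases h2.eq_or_lt with h3 | h3
    · rw [← h3, mul_zero] at h1
      have h4 : ζ = 0 := by
        rw [← norm_eq_zero]
        exact pow_eq_zero_iff (two_ne_zero) |>.1 h1
      have h5 := hr 0
      rw [h4] at h0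
      exact h5 (by simpa using h0)
    · refine hRS ⟨ζ, ⟨h3, h0⟩, ?_⟩
      show ‖ζ‖ ^ 2 / (2 * ζ.im) = R
      rw [h1]
      field_simp

end Bl

theorem stBl (hPJ : StPJ) : StBl := by
  classical
  intro g h hG
  obtain ⟨w, hw, hgw⟩ := Bl.exists_point hG
  have hsub : {w : ℂ | 0 < w.im} ⊆ {w : ℂ | -h < w.im} := by
    intro z hz
    have h1 : 0 < z.im := hz
    show -h < z.im
    linarith [hG.1]
  have hc : (ZZ g).Countable := Bl.countable_zeros (hG.2.1.mono hsub) ⟨w, hw, hgw⟩
  refine ⟨hc, ?_⟩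
  set k : ℝ := w.im / (5 * (1 + ‖w‖ ^ 2)) with hkdef
  have hk : 0 < k := by positivity
  have hb : ENNReal.ofReal k * ∑' ζ : ZZ g, (analyticOrderNatAt g (ζ : ℂ) : ℝ≥0∞) *
      ENNReal.ofReal ((ζ : ℂ).im / (1 + ‖(ζ : ℂ)‖ ^ 2)) ≤ ENNReal.ofReal (-Real.log ‖g w‖) := by
    rw [← ENNReal.tsum_mul_left, ENNReal.tsum_eq_iSup_sum]
    refine iSup_le fun F => ?_
    have h1 := Bl.fin_sum hPJ hG hc hw hgw (F.map (Function.Embedding.subtype _)) (by
      intro ζ hζ
      rw [Finset.mem_map] at hζ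
      obtain ⟨a, -, rfl⟩ := hζ
      exact a.2)
    rw [Finset.sum_map] at h1
    refine le_trans (le_of_eq ?_) h1
    refine Finset.sum_congr rfl fun ζ _ => ?_
    simp only [Function.Embedding.subtype_apply]
    rw [ENNReal.ofReal_mul hk.le]
    ring
  intro htop
  rw [htop, ENNReal.mul_top (by simpa using hk)] at hb
  exact absurd hb (by simp)

end Pool.Agent.Work.MP_055a27_an.Fn

end

section

set_option autoImplicit false

/-!
# Averages of the Green function
-/

open MeasureTheory Set Filter Topology Complex Metric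
open scoped ENNReal NNReal ComplexConjugate

namespace Pool.Agent.Work.MP_055a27_an.Fn

namespace Ga

lemma norm_sq_conj (w ζ : ℂ) : ‖w - conj ζ‖ ^ 2 = ‖w - ζ‖ ^ 2 + 4 * w.im * ζ.im := by
  rw [Complex.sq_norm, Complex.sq_norm, Complex.normSq_apply, Complex.normSq_apply]
  simp only [Complex.sub_re, Complex.sub_im, Complex.conj_re, Complex.conj_im]
  ring

lemma norm_conj_le (w ζ : ℂ) (hζ : 0 < ζ.im) : ‖w - conj ζ‖ ≤ ‖w - ζ‖ + 2 * ζ.im := by
  have h1 : w - conj ζ = (w - ζ) + (ζ - conj ζ) := by ring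
  have h2 : ‖ζ - conj ζ‖ = 2 * ζ.im := by
    rw [Complex.sub_conj]
    rw [norm_mul, Complex.norm_I, mul_one, Complex.norm_real, Real.norm_eq_abs,
      abs_of_pos (by positivity)]
  calc ‖w - conj ζ‖ = ‖(w - ζ) + (ζ - conj ζ)‖ := by rw [← h1]
    _ ≤ ‖w - ζ‖ + ‖ζ - conj ζ‖ := norm_add_le _ _
    _ = _ := by rw [h2]

lemma conj_pos (w ζ : ℂ) (hζ : 0 < ζ.im) (hw : 0 < w.im) : 0 < ‖w - conj ζ‖ := by
  rw [norm_pos_iff]
  intro h
  have := congrArg Complex.im h
  simp only [Complex.sub_im, Complex.conj_im, Complex.zero_im] at this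
  linarith

lemma g_le1 (w ζ : ℂ) (hζ : 0 < ζ.im) (hw : 0 < w.im) :
    Real.log (‖w - conj ζ‖ / ‖w - ζ‖) ≤ 2 * w.im * ζ.im / ‖w - ζ‖ ^ 2 := by
  rcases eq_or_ne w ζ with h | h
  · subst h
    simp
  have hb : 0 < ‖w - ζ‖ := norm_pos_iff.2 (sub_ne_zero.2 h)
  have ha := conj_pos w ζ hζ hw
  have h1 : Real.log ((‖w - conj ζ‖ / ‖w - ζ‖) ^ 2) ≤ (‖w - conj ζ‖ / ‖w - ζ‖) ^ 2 - 1 :=
    Real.log_le_sub_one_of_pos (by positivity)
  rw [Real.log_pow, div_pow, norm_sq_conj] at h1
  have h2 : (‖w - ζ‖ ^ 2 + 4 * w.im * ζ.im) / ‖w - ζ‖ ^ 2 - 1 =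
      2 * (2 * w.im * ζ.im / ‖w - ζ‖ ^ 2) := by
    field_simp
    ring
  rw [h2] at h1
  push_cast at h1
  linarith

lemma g_le2 (w ζ : ℂ) (hζ : 0 < ζ.im) (hw : 0 < w.im) :
    Real.log (‖w - conj ζ‖ / ‖w - ζ‖) ≤ 2 * ζ.im / ‖w - ζ‖ := by
  rcases eq_or_ne w ζ with h | h
  · subst h
    simp
  have hb : 0 < ‖w - ζ‖ := norm_pos_iff.2 (sub_ne_zero.2 h)
  have ha := conj_pos w ζ hζ hw
  have h1 : Real.log (‖w - conj ζ‖ / ‖w - ζ‖) ≤ ‖w - conj ζ‖ / ‖w - ζ‖ - 1 :=
    Real.log_le_sub_one_of_pos (by positivity)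
  refine h1.trans ?_
  rw [div_sub_one hb.ne']
  gcongr
  linarith [norm_conj_le w ζ hζ]

lemma pois_lb {ξ η z y K : ℝ} (hη : 0 < η) (hy : 0 < y) (hK : 0 < K)
    (h : ∀ t ∈ Icc (ξ - η) (ξ + η), (z - t) ^ 2 + y ^ 2 ≤ K) :
    2 * η * y / (Real.pi * K) ≤ poisson ((Icc (ξ - η) (ξ + η)).indicator fun _ => 1) z y := by
  rw [Pd.poisson_ind _ measurableSet_Icc]
  have h1 := setIntegral_ge_of_const_le_real (μ := (volume : Measure ℝ)) (c := y / (Real.pi * K))
    (f := Pd.Kn z y) (s := Icc (ξ - η) (ξ + η)) measurableSet_Icc (by simp) (fun t ht => by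
      unfold Pd.Kn
      have h2 := h t ht
      have h3 : 0 < (z - t) ^ 2 + y ^ 2 := by positivity
      rw [one_div_mul_eq_div, div_div]
      have hpi := Real.pi_pos
      rw [div_le_div_iff₀ (by positivity) (by positivity)]
      have : ((z - t) ^ 2 + y ^ 2) * Real.pi ≤ K * Real.pi := by gcongr
      nlinarith) (Pd.Kn_int hy).integrableOn
  refine le_trans (le_of_eq ?_) h1
  rw [Real.volume_real_Icc_of_le (by linarith)]
  ring

lemma int_inv (R : ℝ) (ζ : ℂ) :
    ∫⁻ w in ball ζ R, ENNReal.ofReal (1 / ‖w - ζ‖) ≤ ENNReal.ofReal (2 * Real.pi * R) := by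
  have h1 : ∫⁻ w in ball ζ R, ENNReal.ofReal (1 / ‖w - ζ‖) =
      ∫⁻ w : ℂ, (ball (0 : ℂ) R).indicator (fun u => ENNReal.ofReal (1 / ‖u‖)) w := by
    rw [← lintegral_indicator measurableSet_ball, ← lintegral_sub_right_eq_self
      (fun w : ℂ => (ball (0 : ℂ) R).indicator (fun u => ENNReal.ofReal (1 / ‖u‖)) w) ζ]
    congr 1
    ext w
    simp only [Set.indicator, mem_ball, dist_eq_norm, sub_zero]
  rw [h1, ← Complex.lintegral_comp_polarCoord_symm]
  have h2 : ∫⁻ p in polarCoord.target, ENNReal.ofReal p.1 •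
      (ball (0 : ℂ) R).indicator (fun u => ENNReal.ofReal (1 / ‖u‖)) (Complex.polarCoord.symm p) ≤
      ∫⁻ p in polarCoord.target, (Ioo (0 : ℝ) R ×ˢ Ioo (-Real.pi) Real.pi).indicator
        (fun _ => (1 : ℝ≥0∞)) p := by
    refine setLIntegral_mono' polarCoord.open_target.measurableSet fun p hp => ?_
    rw [polarCoord_target] at hp
    obtain ⟨hp1, hp2⟩ := hp
    have hp1' : 0 < p.1 := hp1
    by_cases hb : Complex.polarCoord.symm p ∈ ball (0 : ℂ) R
    · rw [Set.indicator_of_mem hb]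
      have hn : ‖Complex.polarCoord.symm p‖ = p.1 := by
        rw [Complex.norm_polarCoord_symm, abs_of_pos hp1']
      rw [mem_ball, dist_zero_right, hn] at hb
      rw [Set.indicator_of_mem (show p ∈ Ioo (0 : ℝ) R ×ˢ Ioo (-Real.pi) Real.pi from
        ⟨⟨hp1', hb⟩, hp2⟩)]
      rw [hn, smul_eq_mul, ← ENNReal.ofReal_mul hp1'.le, mul_one_div_cancel hp1'.ne',
        ENNReal.ofReal_one]
    · rw [Set.indicator_of_notMem hb]
      simp
  refine h2.trans ?_
  refine (setLIntegral_le_lintegral _ _).trans ?_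
  rw [lintegral_indicator (measurableSet_Ioo.prod measurableSet_Ioo), setLIntegral_const, one_mul,
    Measure.volume_eq_prod, Measure.prod_prod, Real.volume_Ioo, Real.volume_Ioo,
    ← ENNReal.ofReal_mul' (by have := Real.pi_pos; linarith)]
  apply le_of_eq
  congr 1
  ring

/-- The bound far from `ζ`. -/
lemma caseA {δ : ℝ} (hδ0 : 0 < δ) (hδ1 : δ < 1) {ζ : ℂ} {z y : ℝ} (hζ : 0 < ζ.im) (hy : 0 < y)
    (hd : (1 + δ) / 2 * y ≤ ‖((z : ℂ) + y * I) - ζ‖) :
    ∫⁻ w in ball ((z : ℂ) + y * I) (δ * y), ENNReal.ofReal (Real.log (‖w - conj ζ‖ / ‖w - ζ‖)) ≤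
      ENNReal.ofReal (16 * Real.pi / (1 - δ) ^ 2 * y ^ 2 *
        (y * ζ.im / ‖((z : ℂ) + y * I) - ζ‖ ^ 2)) := by
  set d : ℝ := ‖((z : ℂ) + y * I) - ζ‖ with hdef
  have hd0 : 0 < d := lt_of_lt_of_le (by positivity) hd
  have hδ : 0 < 1 - δ := by linarith
  have hb : ∀ w ∈ ball ((z : ℂ) + y * I) (δ * y),
      Real.log (‖w - conj ζ‖ / ‖w - ζ‖) ≤ 16 / (1 - δ) ^ 2 * (y * ζ.im / d ^ 2) := by
    intro w hw
    rw [mem_ball, dist_eq_norm] at hw
    have him : |(w - ((z : ℂ) + y * I)).im| ≤ ‖w - ((z : ℂ) + y * I)‖ := Complex.abs_im_le_norm _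
    have e1 : (w - ((z : ℂ) + y * I)).im = w.im - y := by simp
    rw [e1] at him
    have h3 := abs_le.1 (him.trans hw.le)
    have hw0 : 0 < w.im := by nlinarith [h3.1]
    have hw2 : w.im ≤ 2 * y := by nlinarith [h3.2]
    have h4 : d * ((1 - δ) / 2) ≤ ‖w - ζ‖ := by
      have h5 : d ≤ ‖w - ζ‖ + ‖w - ((z : ℂ) + y * I)‖ := by
        rw [hdef]
        have h6 : ((z : ℂ) + y * I) - ζ = (w - ζ) - (w - ((z : ℂ) + y * I)) := by ring
        rw [h6]
        exact norm_sub_le _ _
      have h7 : δ * y ≤ 2 * δ / (1 + δ) * d := by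
        rw [div_mul_eq_mul_div, le_div_iff₀ (by linarith)]
        nlinarith
      have h8 : d * ((1 - δ) / 2) ≤ d - 2 * δ / (1 + δ) * d := by
        have h9 : (1 - δ) / 2 ≤ 1 - 2 * δ / (1 + δ) := by
          rw [one_sub_div (by linarith), div_le_div_iff₀ (by norm_num) (by linarith)]
          nlinarith
        nlinarith
      linarith
    refine (g_le1 w ζ hζ hw0).trans ?_
    have h10 : 0 < d * ((1 - δ) / 2) := by positivity
    calc 2 * w.im * ζ.im / ‖w - ζ‖ ^ 2 ≤ 2 * (2 * y) * ζ.im / (d * ((1 - δ) / 2)) ^ 2 := by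
          gcongr
      _ = _ := by
          field_simp
          ring
  calc ∫⁻ w in ball ((z : ℂ) + y * I) (δ * y),
        ENNReal.ofReal (Real.log (‖w - conj ζ‖ / ‖w - ζ‖))
      ≤ ∫⁻ w in ball ((z : ℂ) + y * I) (δ * y),
        ENNReal.ofReal (16 / (1 - δ) ^ 2 * (y * ζ.im / d ^ 2)) :=
        setLIntegral_mono' measurableSet_ball fun w hw => ENNReal.ofReal_le_ofReal (hb w hw)
    _ = ENNReal.ofReal (16 / (1 - δ) ^ 2 * (y * ζ.im / d ^ 2)) *
        (ENNReal.ofReal (δ * y) ^ 2 * NNReal.pi) := by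
        rw [setLIntegral_const, Complex.volume_ball]
    _ = ENNReal.ofReal (16 / (1 - δ) ^ 2 * (y * ζ.im / d ^ 2) * ((δ * y) ^ 2 * Real.pi)) := by
        have e3 : (NNReal.pi : ℝ≥0∞) = ENNReal.ofReal Real.pi := by
          rw [← NNReal.coe_real_pi, ENNReal.ofReal_coe_nnreal]
        rw [e3, ← ENNReal.ofReal_pow (by positivity), ← ENNReal.ofReal_mul (by positivity),
          ← ENNReal.ofReal_mul (by positivity)]
    _ ≤ _ := by
        apply ENNReal.ofReal_le_ofReal
        have h11 : (δ * y) ^ 2 ≤ y ^ 2 := by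
          rw [mul_pow]
          exact mul_le_of_le_one_left (sq_nonneg y) (by nlinarith)
        have hpi := Real.pi_pos
        calc 16 / (1 - δ) ^ 2 * (y * ζ.im / d ^ 2) * ((δ * y) ^ 2 * Real.pi)
            ≤ 16 / (1 - δ) ^ 2 * (y * ζ.im / d ^ 2) * (y ^ 2 * Real.pi) := by gcongr
          _ = _ := by ring

/-- The bound near `ζ`. -/
lemma caseB {δ : ℝ} (hδ1 : δ < 1) {ζ : ℂ} {z y : ℝ} (hζ : 0 < ζ.im) (hy : 0 < y)
    (hd : ‖((z : ℂ) + y * I) - ζ‖ < (1 + δ) / 2 * y) (hη : ζ.im ≤ 2 * y) :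
    ∫⁻ w in ball ((z : ℂ) + y * I) (δ * y), ENNReal.ofReal (Real.log (‖w - conj ζ‖ / ‖w - ζ‖)) ≤
      ENNReal.ofReal (16 * Real.pi * y ^ 2) := by
  have hsub : ball ((z : ℂ) + y * I) (δ * y) ⊆ ball ζ (2 * y) := by
    intro w hw
    rw [mem_ball, dist_eq_norm] at hw ⊢
    have h6 : w - ζ = (w - ((z : ℂ) + y * I)) + (((z : ℂ) + y * I) - ζ) := by ring
    rw [h6]
    refine (norm_add_le _ _).trans_lt ?_
    nlinarith
  calc ∫⁻ w in ball ((z : ℂ) + y * I) (δ * y),
        ENNReal.ofReal (Real.log (‖w - conj ζ‖ / ‖w - ζ‖))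
      ≤ ∫⁻ w in ball ((z : ℂ) + y * I) (δ * y),
        ENNReal.ofReal (4 * y) * ENNReal.ofReal (1 / ‖w - ζ‖) := by
        refine setLIntegral_mono' measurableSet_ball fun w hw => ?_
        rw [mem_ball, dist_eq_norm] at hw
        have him : |(w - ((z : ℂ) + y * I)).im| ≤ ‖w - ((z : ℂ) + y * I)‖ :=
          Complex.abs_im_le_norm _
        have e1 : (w - ((z : ℂ) + y * I)).im = w.im - y := by simp
        rw [e1] at him
        have h3 := abs_le.1 (him.trans hw.le)
        have hw0 : 0 < w.im := by nlinarith [h3.1]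
        rw [← ENNReal.ofReal_mul (by positivity)]
        apply ENNReal.ofReal_le_ofReal
        refine (g_le2 w ζ hζ hw0).trans ?_
        rw [mul_one_div]
        exact div_le_div_of_nonneg_right (by linarith) (norm_nonneg _)
    _ ≤ ∫⁻ w in ball ζ (2 * y), ENNReal.ofReal (4 * y) * ENNReal.ofReal (1 / ‖w - ζ‖) :=
        lintegral_mono_set hsub
    _ = ENNReal.ofReal (4 * y) * ∫⁻ w in ball ζ (2 * y), ENNReal.ofReal (1 / ‖w - ζ‖) :=
        lintegral_const_mul _ (by fun_prop)
    _ ≤ ENNReal.ofReal (4 * y) * ENNReal.ofReal (2 * Real.pi * (2 * y)) := by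
        gcongr
        exact int_inv _ _
    _ = _ := by
        rw [← ENNReal.ofReal_mul (by positivity)]
        congr 1
        ring

end Ga

open Ga in
theorem stGa (hPd : StPd) : StGa := by
  intro δ hδ0 hδ1
  have hpi := Real.pi_pos
  have hδ : 0 < 1 - δ := by linarith
  set C1 : ℝ := 16 * Real.pi / (1 - δ) ^ 2 with hC1
  have hC1p : 0 < C1 := by positivity
  refine ⟨C1 * (10 * Real.pi) + 16 * Real.pi * (10 * Real.pi / (1 - δ)) + C1 * 9 +
    16 * Real.pi * 2, by positivity, ?_⟩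
  intro ζ z y hζ hy
  set d : ℝ := ‖((z : ℂ) + y * I) - ζ‖ with hdef
  set P : ℝ := poisson ((Icc (ζ.re - ζ.im) (ζ.re + ζ.im)).indicator fun _ => 1) z y with hP
  have hP0 : 0 ≤ P := ((hPd (Icc (ζ.re - ζ.im) (ζ.re + ζ.im)) measurableSet_Icc).2 z y hy).1.1
  have hre : |z - ζ.re| ≤ d := by
    have := Complex.abs_re_le_norm (((z : ℂ) + y * I) - ζ)
    simpa using this
  have him : |y - ζ.im| ≤ d := by
    have := Complex.abs_im_le_norm (((z : ℂ) + y * I) - ζ)
    simpa using this
  have hre' := abs_le.1 hre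
  have him' := abs_le.1 him
  rcases le_or_gt ((1 + δ) / 2 * y) d with hd | hd
  · have hd0 : 0 < d := lt_of_lt_of_le (by positivity) hd
    have hA := caseA hδ0 hδ1 hζ hy hd
    rw [← hC1, ← hdef] at hA
    have hyd : y ≤ 2 * d := by nlinarith
    have hηd : ζ.im ≤ 3 * d := by linarith [him'.1]
    have hlb : 2 * ζ.im * y / (Real.pi * (20 * d ^ 2)) ≤ P := by
      refine pois_lb hζ hy (by positivity) fun t ht => ?_
      have h1 : |z - t| ≤ 4 * d := by
        rw [abs_le]
        constructor <;> linarith [ht.1, ht.2, hre'.1, hre'.2]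
      have h2 : (z - t) ^ 2 ≤ (4 * d) ^ 2 := sq_le_sq' (abs_le.1 h1).1 (abs_le.1 h1).2
      have h3 : y ^ 2 ≤ (2 * d) ^ 2 := by gcongr
      nlinarith
    have h4 : y * ζ.im / d ^ 2 ≤ 10 * Real.pi * P := by
      have e : y * ζ.im / d ^ 2 =
          10 * Real.pi * (2 * ζ.im * y / (Real.pi * (20 * d ^ 2))) := by
        field_simp
        ring
      rw [e]
      gcongr
    have h5 : y * ζ.im / d ^ 2 ≤ 9 * (y / ζ.im) := by
      rw [mul_div_assoc', div_le_div_iff₀ (by positivity) hζ]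
      have : ζ.im ^ 2 ≤ (3 * d) ^ 2 := by gcongr
      nlinarith
    constructor
    · refine hA.trans (ENNReal.ofReal_le_ofReal ?_)
      calc C1 * y ^ 2 * (y * ζ.im / d ^ 2) ≤ C1 * y ^ 2 * (10 * Real.pi * P) := by gcongr
        _ = C1 * (10 * Real.pi) * y ^ 2 * P := by ring
        _ ≤ _ := by
          gcongr
          have : 0 ≤ 16 * Real.pi * (10 * Real.pi / (1 - δ)) := by positivity
          nlinarith
    · refine hA.trans (ENNReal.ofReal_le_ofReal ?_)
      calc C1 * y ^ 2 * (y * ζ.im / d ^ 2) ≤ C1 * y ^ 2 * (9 * (y / ζ.im)) := by gcongr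
        _ = C1 * 9 * y ^ 2 * (y / ζ.im) := by ring
        _ ≤ _ := by
          gcongr
          have : 0 ≤ 16 * Real.pi * (10 * Real.pi / (1 - δ)) := by positivity
          nlinarith
  · have hη2 : ζ.im ≤ 2 * y := by nlinarith [him'.1]
    have hη1 : (1 - δ) / 2 * y ≤ ζ.im := by nlinarith [him'.2]
    have hB := caseB hδ1 hζ hy hd hη2
    have hdy : d ≤ y := by nlinarith
    have hlb : 2 * ζ.im * y / (Real.pi * (10 * y ^ 2)) ≤ P := by
      refine pois_lb hζ hy (by positivity) fun t ht => ?_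
      have h1 : |z - t| ≤ 3 * y := by
        rw [abs_le]
        constructor <;> linarith [ht.1, ht.2, hre'.1, hre'.2]
      have h2 : (z - t) ^ 2 ≤ (3 * y) ^ 2 := sq_le_sq' (abs_le.1 h1).1 (abs_le.1 h1).2
      nlinarith
    have h4 : 1 ≤ 10 * Real.pi / (1 - δ) * P := by
      have e : (1 : ℝ) = 10 * Real.pi / (1 - δ) *
          (2 * ((1 - δ) / 2 * y) * y / (Real.pi * (10 * y ^ 2))) := by
        field_simp
      have h6 : 2 * ((1 - δ) / 2 * y) * y / (Real.pi * (10 * y ^ 2)) ≤
          2 * ζ.im * y / (Real.pi * (10 * y ^ 2)) := by gcongr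
      have h8 : 0 ≤ 10 * Real.pi / (1 - δ) := by positivity
      exact e.le.trans (mul_le_mul_of_nonneg_left (h6.trans hlb) h8)
    have h5 : 1 ≤ 2 * (y / ζ.im) := by
      rw [mul_div_assoc', le_div_iff₀ hζ]
      linarith
    constructor
    · refine hB.trans (ENNReal.ofReal_le_ofReal ?_)
      calc 16 * Real.pi * y ^ 2 = 16 * Real.pi * y ^ 2 * 1 := by ring
        _ ≤ 16 * Real.pi * y ^ 2 * (10 * Real.pi / (1 - δ) * P) := by gcongr
        _ = 16 * Real.pi * (10 * Real.pi / (1 - δ)) * y ^ 2 * P := by ring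
        _ ≤ _ := by
          gcongr
          have : 0 ≤ C1 * (10 * Real.pi) := by positivity
          nlinarith
    · refine hB.trans (ENNReal.ofReal_le_ofReal ?_)
      calc 16 * Real.pi * y ^ 2 = 16 * Real.pi * y ^ 2 * 1 := by ring
        _ ≤ 16 * Real.pi * y ^ 2 * (2 * (y / ζ.im)) := by gcongr
        _ = 16 * Real.pi * 2 * y ^ 2 * (y / ζ.im) := by ring
        _ ≤ _ := by
          gcongr
          have : 0 ≤ C1 * (10 * Real.pi) := by positivity
          have : 0 ≤ 16 * Real.pi * (10 * Real.pi / (1 - δ)) := by positivity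
          nlinarith

end Pool.Agent.Work.MP_055a27_an.Fn

end

section

/-!
# Item PJ: the Poisson Jensen formula on a disc
-/

set_option autoImplicit false

open MeasureTheory Set Filter Topology Complex Metric
open scoped ENNReal NNReal ComplexConjugate

namespace Pool.Agent.Work.MP_055a27_an.Fn

namespace PJ

/-- The Poisson Jensen formula on a disc centred at zero. -/
lemma key0 {f : ℂ → ℂ} {R : ℝ} (hR : 0 < R) (hf : AnalyticOnNhd ℂ f (closedBall 0 R))
    (hs : ∀ ζ ∈ sphere (0 : ℂ) R, f ζ ≠ 0) {w : ℂ} (hw : w ∈ ball (0 : ℂ) R) (hfw : f w ≠ 0) :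
    -Real.log ‖f w‖ = Real.circleAverage (fun ζ => poissonKernel 0 w ζ * (-Real.log ‖f ζ‖)) 0 R +
      ∑ᶠ i, (MeromorphicOn.divisor f (ball 0 R) i : ℝ) * Real.log ‖canonicalFactor R i w‖ := by
  have hmer : MeromorphicOn f (closedBall 0 R) := hf.meromorphicOn
  have hw' : w ∈ closedBall (0 : ℂ) R := ball_subset_closedBall hw
  have hord : ∀ z ∈ closedBall (0 : ℂ) R, f z ≠ 0 → meromorphicOrderAt f z = 0 := by
    intro z hz hfz
    rw [(hf z hz).meromorphicNFAt.meromorphicOrderAt_eq_zero_iff]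
    exact hfz
  have htop : ∀ u : closedBall (0 : ℂ) R, meromorphicOrderAt f u ≠ ⊤ := by
    rw [← hmer.exists_meromorphicOrderAt_ne_top_iff_forall (isConnected_closedBall hR.le)]
    exact ⟨⟨w, hw'⟩, by simp [hord w hw' hfw]⟩
  obtain ⟨h, D⟩ := hmer.exists_ecanonicalDecomp htop
  have hsph : ∀ i, MeromorphicOn.divisor f (sphere 0 R) i = 0 := by
    intro i
    by_cases hi : i ∈ sphere (0 : ℂ) R
    · rw [MeromorphicOn.divisor_apply (hmer.mono_set sphere_subset_closedBall) hi,
        hord i (sphere_subset_closedBall hi) (hs i hi)]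
      rfl
    · exact Function.locallyFinsuppWithin.apply_eq_zero_of_notMem _ hi
  have hlog : ∀ z ∈ closedBall (0 : ℂ) R, f z ≠ 0 → Real.log ‖h z‖ =
      (∑ᶠ i, (MeromorphicOn.divisor f (ball 0 R) i : ℝ) * Real.log ‖canonicalFactor R i z‖) +
        Real.log ‖f z‖ := by
    intro z hz hfz
    rw [D.log_norm_eq hz (hord z hz hfz) hR,
      (hf z hz).meromorphicTrailingCoeffAt_of_ne_zero hfz]
    simp [hsph]
  have hsphere : ∀ z ∈ sphere (0 : ℂ) R, Real.log ‖h z‖ = Real.log ‖f z‖ := by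
    intro z hz
    rw [hlog z (sphere_subset_closedBall hz) (hs z hz)]
    have : ∀ i, (MeromorphicOn.divisor f (ball 0 R) i : ℝ) * Real.log ‖canonicalFactor R i z‖
        = 0 := by
      intro i
      by_cases hi : i ∈ ball (0 : ℂ) R
      · rw [norm_canonicalFactor_eval_circle_eq_one hi hz]
        simp
      · rw [Function.locallyFinsuppWithin.apply_eq_zero_of_notMem _ hi]
        simp
    simp [this]
  have hharm : InnerProductSpace.HarmonicOnNhd (fun z => Real.log ‖h z‖) (closedBall 0 R) :=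
    fun x hx => (D.analyticOnNhd x hx).harmonicAt_log_norm (D.ne_zero x hx)
  have hP := hharm.circleAverage_poissonKernel_smul hw
  have hP' : Real.circleAverage (fun ζ => poissonKernel 0 w ζ * (-Real.log ‖f ζ‖)) 0 R =
      - Real.log ‖h w‖ := by
    rw [← hP]
    have : (fun ζ => poissonKernel 0 w ζ * (-Real.log ‖f ζ‖)) =
        fun ζ => (-1 : ℝ) • (poissonKernel 0 w ζ * Real.log ‖f ζ‖) := by
      ext ζ
      simp
    rw [this, Real.circleAverage_fun_smul]
    simp only [smul_eq_mul, neg_mul, one_mul, neg_inj]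
    refine Real.circleAverage_congr_sphere ?_
    intro z hz
    rw [abs_of_pos hR] at hz
    change poissonKernel 0 w z * Real.log ‖f z‖ = poissonKernel 0 w z * Real.log ‖h z‖
    rw [hsphere z hz]
  rw [hP', hlog w hw' hfw]
  ring

/-- Canonical factors have norm at least one in the disc. -/
lemma one_le_norm_cf {R : ℝ} {a b : ℂ} (ha : a ∈ ball (0 : ℂ) R) (hb : b ∈ ball (0 : ℂ) R)
    (hab : b ≠ a) : 1 ≤ ‖canonicalFactor R a b‖ := by
  have hR : 0 < R := pos_of_mem_ball ha
  rw [mem_ball_zero_iff] at ha hb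
  rw [canonicalFactor_apply, norm_div, norm_mul, one_le_div (by
    have : b - a ≠ 0 := sub_ne_zero.2 hab
    have h2 : (R : ℂ) ≠ 0 := by exact_mod_cast hR.ne'
    positivity)]
  rw [Complex.norm_real, Real.norm_of_nonneg hR.le]
  refine le_of_sq_le_sq ?_ (norm_nonneg _)
  rw [mul_pow, ← Complex.normSq_eq_norm_sq, ← Complex.normSq_eq_norm_sq]
  have h1 : ‖a‖ ^ 2 ≤ R ^ 2 := by gcongr
  have h2 : ‖b‖ ^ 2 ≤ R ^ 2 := by gcongr
  rw [← Complex.normSq_eq_norm_sq] at h1 h2
  have h3 : 0 ≤ (R ^ 2 - Complex.normSq a) * (R ^ 2 - Complex.normSq b) :=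
    mul_nonneg (by linarith) (by linarith)
  simp only [Complex.normSq_apply, Complex.sub_re, Complex.sub_im, Complex.mul_re, Complex.mul_im,
    Complex.conj_re, Complex.conj_im] at h3 ⊢
  have e1 : ((R : ℂ) ^ 2).re = R ^ 2 := by
    rw [← Complex.ofReal_pow, Complex.ofReal_re]
  have e2 : ((R : ℂ) ^ 2).im = 0 := by
    rw [← Complex.ofReal_pow, Complex.ofReal_im]
  rw [e1, e2]
  nlinarith

end PJ

theorem stPJ : StPJ := by
  intro g c R hR hg hs hle w hw hgw
  set f : ℂ → ℂ := fun z => g (z + c) with hfdef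
  have hmem : ∀ z : ℂ, z + c ∈ closedBall c R ↔ z ∈ closedBall (0 : ℂ) R := by
    intro z
    simp [mem_closedBall, dist_eq_norm]
  have hmemb : ∀ z : ℂ, z + c ∈ ball c R ↔ z ∈ ball (0 : ℂ) R := by
    intro z
    simp [mem_ball, dist_eq_norm]
  have hmems : ∀ z : ℂ, z + c ∈ sphere c R ↔ z ∈ sphere (0 : ℂ) R := by
    intro z
    simp
  have hf : AnalyticOnNhd ℂ f (closedBall 0 R) := by
    intro z hz
    have h1 : AnalyticAt ℂ g (z + c) := hg _ ((hmem z).2 hz)
    exact h1.comp_of_eq (by fun_prop) rfl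
  have hfs : ∀ ζ ∈ sphere (0 : ℂ) R, f ζ ≠ 0 := fun ζ hζ => hs _ ((hmems ζ).2 hζ)
  have hw0 : w - c ∈ ball (0 : ℂ) R := by
    rw [← hmemb]
    simpa using hw
  have hfw : f (w - c) ≠ 0 := by
    simpa [hfdef] using hgw
  have hkey := PJ.key0 hR hf hfs hw0 hfw
  have hfw' : f (w - c) = g w := by simp [hfdef]
  rw [hfw'] at hkey
  have havg : Real.circleAverage (fun ζ => poissonKernel 0 (w - c) ζ * (-Real.log ‖f ζ‖)) 0 R =
      Real.circleAverage (fun ζ => poissonKernel c w ζ * (-Real.log ‖g ζ‖)) c R := by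
    rw [← Real.circleAverage_map_add_const (c := c)]
    congr 1
    ext z
    simp [poissonKernel_def, hfdef]
  rw [havg] at hkey
  have havg0 : 0 ≤ Real.circleAverage (fun ζ => poissonKernel c w ζ * (-Real.log ‖g ζ‖)) c R := by
    refine Real.circleAverage_nonneg_of_nonneg ?_
    intro z hz
    rw [abs_of_pos hR] at hz
    refine mul_nonneg ?_ ?_
    · rw [poissonKernel_def]
      refine div_nonneg ?_ (by positivity)
      have h1 : ‖z - c‖ = R := by simpa [mem_sphere, dist_eq_norm] using hz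
      have h2 : ‖w - c‖ < R := by simpa [mem_ball, dist_eq_norm] using hw
      rw [h1]
      nlinarith [norm_nonneg (w - c)]
    · have := Real.log_nonpos (norm_nonneg _) (hle z (sphere_subset_closedBall hz))
      linarith
  refine ⟨havg0, ?_⟩
  set a : ℂ → ℝ := fun i =>
    (MeromorphicOn.divisor f (ball 0 R) i : ℝ) * Real.log ‖canonicalFactor R i (w - c)‖ with ha
  have hfb : AnalyticOnNhd ℂ f (ball 0 R) := hf.mono ball_subset_closedBall
  -- the divisor in terms of the analytic order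
  have hdiv : ∀ i ∈ ball (0 : ℂ) R,
      MeromorphicOn.divisor f (ball 0 R) i = (analyticOrderNatAt g (i + c) : ℤ) := by
    intro i hi
    rw [MeromorphicOn.AnalyticOnNhd.divisor_apply hfb hi]
    have h1 : analyticOrderAt f i = analyticOrderAt g (i + c) := by
      have := analyticOrderAt_comp_of_deriv_ne_zero (f := g) (g := fun z : ℂ => z + c) (z₀ := i)
        (by fun_prop) (by simp)
      exact this
    rw [h1, analyticOrderNatAt]
    cases analyticOrderAt g (i + c) with
    | top => rfl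
    | coe n => rfl
  have hann : ∀ i, 0 ≤ a i := by
    intro i
    by_cases hi : i ∈ ball (0 : ℂ) R
    · by_cases hiw : w - c = i
      · have h0 : analyticOrderNatAt g (i + c) = 0 := by
          by_contra hne
          have := apply_eq_zero_of_analyticOrderNatAt_ne_zero hne
          rw [← hiw] at this
          simp at this
          exact hgw this
        simp only [ha]
        rw [hdiv i hi, h0]
        simp
      · simp only [ha]
        rw [hdiv i hi]
        refine mul_nonneg (by positivity) (Real.log_nonneg (PJ.one_le_norm_cf hi hw0 hiw))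
    · simp only [ha]
      rw [Function.locallyFinsuppWithin.apply_eq_zero_of_notMem _ hi]
      simp
  have hfin : (Function.support a).Finite := by
    refine (hf.meromorphicOn.divisor_ball_support_finite).subset ?_
    intro i hi
    simp only [Function.mem_support, ha] at hi ⊢
    intro h0
    exact hi (by rw [h0]; simp)
  have hS0 : 0 ≤ ∑ᶠ i, a i := finsum_nonneg hann
  rw [hkey, ENNReal.ofReal_add havg0 hS0]
  congr 1
  have hsum : ENNReal.ofReal (∑ᶠ i, a i) = ∑' i, ENNReal.ofReal (a i) := by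
    rw [finsum_eq_sum_of_support_subset a (s := hfin.toFinset) (by simp),
      ENNReal.ofReal_sum_of_nonneg (fun i _ => hann i),
      tsum_eq_sum (s := hfin.toFinset)]
    intro i hi
    have : a i = 0 := by simpa using hi
    simp [this]
  rw [hsum, ← (Equiv.subRight c).tsum_eq]
  refine Eq.trans ?_ (tsum_subtype {ζ : ℂ | ζ ∈ ball c R ∧ g ζ = 0}
    (fun ζ => (analyticOrderNatAt g ζ : ℝ≥0∞) * ENNReal.ofReal
      (Real.log (‖(R : ℂ) ^ 2 - conj (ζ - c) * (w - c)‖ / (R * ‖w - ζ‖))))).symm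
  congr 1
  ext ζ
  simp only [Equiv.subRight_apply]
  by_cases hζ : ζ ∈ ball c R ∧ g ζ = 0
  · rw [Set.indicator_of_mem (show ζ ∈ {ζ : ℂ | ζ ∈ ball c R ∧ g ζ = 0} from hζ)]
    have hi : ζ - c ∈ ball (0 : ℂ) R := by
      rw [← hmemb]
      simpa using hζ.1
    simp only [ha]
    rw [hdiv _ hi, sub_add_cancel, canonicalFactor_apply]
    rw [ENNReal.ofReal_mul (by positivity)]
    congr 1
    · simp
    · congr 2
      rw [norm_div, norm_mul, Complex.norm_real, Real.norm_of_nonneg hR.le,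
        show (w - c - (ζ - c)) = w - ζ by ring]
  · rw [Set.indicator_of_notMem (show ζ ∉ {ζ : ℂ | ζ ∈ ball c R ∧ g ζ = 0} from hζ)]
    have : a (ζ - c) = 0 := by
      simp only [ha]
      by_cases hi : ζ - c ∈ ball (0 : ℂ) R
      · rw [hdiv _ hi, sub_add_cancel]
        have hb : ζ ∈ ball c R := by
          rw [← hmemb] at hi
          simpa using hi
        have h0 : analyticOrderNatAt g ζ = 0 := by
          by_contra hne
          exact hζ ⟨hb, apply_eq_zero_of_analyticOrderNatAt_ne_zero hne⟩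
        rw [h0]
        simp
      · rw [Function.locallyFinsuppWithin.apply_eq_zero_of_notMem _ hi]
        simp
    rw [this]
    simp

end Pool.Agent.Work.MP_055a27_an.Fn

end

section

/-!
# Boundary values of the gradient functional
-/

set_option autoImplicit false

open MeasureTheory Set Filter Topology Complex Metric
open scoped ENNReal NNReal

namespace Pool.Agent.Work.MP_055a27_an.Wd

namespace GRb

theorem tau_le {R : ℝ} (hR : 1 ≤ R) {z : ℂ} (hz : 0 ≤ z.im) : ‖tau R z‖ ≤ 1 := by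
  have h1 : R ≤ ‖z + I * R‖ := by
    have h2 := Complex.abs_im_le_norm (z + I * R)
    have h3 : (z + I * R).im = z.im + R := by simp
    rw [h3] at h2
    have := le_abs_self (z.im + R)
    linarith
  have h4 : ‖I * (R : ℂ)‖ = R := by
    rw [norm_mul, Complex.norm_I, one_mul, Complex.norm_real, Real.norm_eq_abs,
      abs_of_nonneg (by linarith)]
  rw [tau, norm_pow, norm_div, h4]
  apply pow_le_one₀ (by positivity)
  rw [div_le_one (by linarith)]
  exact h1

theorem term_le {b : ℝ} (hb : 0 < b) {f : ℝ → ℝ} (hf : Admissible f) {η x N : ℝ} (hη : 0 < η)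
    (hN : ∀ z y : ℝ, 0 < y → |x - z| ≤ b * y → |poisson f z y| ≤ N) {e : ℂ} (he : e ∈ Co b) :
    dl b e * ‖dschw f (x + e + η * I)‖ ≤ 4 * (1 + b) * N := by
  have he1 : |e.re| ≤ b * e.im := he
  have heim : 0 ≤ e.im := by
    have h1 : 0 ≤ b * e.im := (abs_nonneg _).trans he1
    exact nonneg_of_mul_nonneg_right h1 hb
  have hd0 : 0 ≤ dl b e := by
    unfold dl
    linarith
  have hdl : dl b e = b * e.im - |e.re| := rfl
  set w : ℂ := x + e + η * I with hw
  have hwre : w.re = x + e.re := by simp [hw]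
  have hwim : w.im = e.im + η := by simp [hw]
  set ρ : ℝ := (dl b e + b * η) / (1 + b) with hρ
  have hbη : 0 < b * η := mul_pos hb hη
  have hρ0 : 0 < ρ := by positivity
  have hρ1 : ρ * (1 + b) = dl b e + b * η := by
    rw [hρ]; field_simp
  have hN0 : 0 ≤ N := (abs_nonneg _).trans
    (hN x 1 one_pos (by rw [sub_self, abs_zero]; linarith))
  have hpt : ∀ v ∈ ball w ρ, 0 < v.im ∧ |x - v.re| ≤ b * v.im := by
    intro v hv
    have hd : ‖v - w‖ < ρ := by simpa [dist_eq_norm] using hv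
    have hre : |v.re - (x + e.re)| < ρ := by
      have := Complex.abs_re_le_norm (v - w)
      rw [Complex.sub_re, hwre] at this
      linarith
    have him : |v.im - (e.im + η)| < ρ := by
      have := Complex.abs_im_le_norm (v - w)
      rw [Complex.sub_im, hwim] at this
      linarith
    rw [abs_lt] at hre him
    have h0 : 0 ≤ |e.re| := abs_nonneg _
    have h1 := le_abs_self e.re
    have h2 := neg_abs_le e.re
    have h3 : 0 < v.im := by
      by_contra hcon
      push Not at hcon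
      have h4 : e.im + η < ρ := by linarith [him.1]
      have h5 : (e.im + η) * (1 + b) < ρ * (1 + b) := by
        apply mul_lt_mul_of_pos_right h4 (by linarith)
      rw [hρ1, hdl] at h5
      nlinarith
    refine ⟨h3, ?_⟩
    have h6 : b * (e.im + η - ρ) ≤ b * v.im :=
      mul_le_mul_of_nonneg_left (by linarith [him.1]) hb.le
    have h7 : |e.re| + ρ = b * (e.im + η - ρ) := by
      rw [hdl] at hρ1
      linarith
    rw [abs_le]
    constructor <;> linarith [hre.1, hre.2]
  have h1 : ∀ v ∈ ball w ρ, |(schw f v).re| ≤ N := by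
    intro v hv
    obtain ⟨h2, h3⟩ := hpt v hv
    have hve : (v.re : ℂ) + v.im * I = v := Complex.re_add_im v
    have h4 := schw_re hf (z := v.re) h2
    rw [hve] at h4
    rw [h4]
    exact hN _ _ h2 h3
  have h2 : DifferentiableOn ℂ (schw f) (ball w ρ) := fun v hv =>
    (hasDerivAt_schw hf (hpt v hv).1).differentiableAt.differentiableWithinAt
  have h3 := grad_bound hρ0 h2 h1
  rw [(hasDerivAt_schw hf (hpt w (mem_ball_self hρ0)).1).deriv] at h3
  have h4 : dl b e ≤ ρ * (1 + b) := by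
    rw [hρ1]
    linarith
  calc dl b e * ‖dschw f w‖ ≤ ρ * (1 + b) * (4 * N / ρ) :=
        mul_le_mul h4 h3 (norm_nonneg _) (by positivity)
    _ = 4 * (1 + b) * N := by
        field_simp

end GRb

open GRb in
theorem stGRb : StGRb := by
  intro b hb
  refine ⟨4 * (1 + b), by linarith, fun f η R x hf hη hR => ?_⟩
  have hC : 0 < 4 * (1 + b) := by linarith
  by_cases htop : ntMax b f x = ∞
  · rw [htop, ENNReal.mul_top (by simpa using hC)]
    exact le_top
  set N : ℝ := (ntMax b f x).toReal with hNdef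
  have hN : ∀ z y : ℝ, 0 < y → |x - z| ≤ b * y → |poisson f z y| ≤ N := by
    intro z y hy hz
    have h1 : ENNReal.ofReal |poisson f (x - (x - z)) y| ≤ ntMax b f x := by
      unfold ntMax
      refine le_iSup_of_le (x - z) (le_iSup_of_le y (le_iSup_of_le ⟨hy, hz⟩ le_rfl))
    rw [sub_sub_cancel] at h1
    exact (ENNReal.ofReal_le_iff_le_toReal htop).1 h1
  have hN0 : 0 ≤ N := ENNReal.toReal_nonneg
  have hmain : GG b R (fun w => dschw f (w + η * I)) x ≤ 4 * (1 + b) * N := by
    have : Nonempty (Co b) := ⟨⟨0, by simp [Co]⟩⟩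
    unfold GG
    apply ciSup_le
    rintro ⟨e, he⟩
    have he1 : |e.re| ≤ b * e.im := he
    have heim : 0 ≤ e.im := nonneg_of_mul_nonneg_right ((abs_nonneg _).trans he1) hb
    have hd0 : 0 ≤ dl b e := by
      unfold dl
      linarith
    show dl b e * ‖dschw f (x + e + η * I) * tau R (x + e)‖ ≤ _
    rw [norm_mul]
    have h1 : ‖tau R (x + e)‖ ≤ 1 := tau_le hR (by simpa using heim)
    have h2 := term_le hb hf hη hN he
    calc dl b e * (‖dschw f (x + e + η * I)‖ * ‖tau R (x + e)‖)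
        ≤ dl b e * (‖dschw f (x + e + η * I)‖ * 1) := by gcongr
      _ ≤ 4 * (1 + b) * N := by rw [mul_one]; exact h2
  calc ENNReal.ofReal (GG b R (fun w => dschw f (w + η * I)) x)
      ≤ ENNReal.ofReal (4 * (1 + b) * N) := ENNReal.ofReal_le_ofReal hmain
    _ = ENNReal.ofReal (4 * (1 + b)) * ntMax b f x := by
      rw [ENNReal.ofReal_mul hC.le, hNdef, ENNReal.ofReal_toReal htop]

end Pool.Agent.Work.MP_055a27_an.Wd

end
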