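import Pool.Agent.Work.MP_055a27_an.Fn.Stmts2
import Pool.Agent.Work.MP_055a27_an.Bd.B12
import Pool.Agent.Work.MP_055a27_an.Bd.B10
import Pool.Agent.Work.MP_055a27_an.Sg.Stmts
import Pool.Agent.Work.MP_055a27_an.Bd.B05
import Pool.Agent.Work.MP_055a27_an.Bd.B06
import Pool.Agent.Work.MP_055a27_an.Wd.Stmts
import Pool.Agent.Work.MP_055a27_an.Bd.B02

/-! Bundle of small proof modules (one section per former module). -/

section

/-! Item Vf: a non constant function with finite right side implies the growth condition. -/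

set_option autoImplicit false

open MeasureTheory Set Filter Topology Complex Metric
open scoped ENNReal NNReal

namespace Pool.Agent.Work.MP_055a27_an.Fn

namespace Vf

lemma dschw_diff {f : ℝ → ℝ} (hf : Admissible f) :
    DifferentiableOn ℂ (dschw f) {w : ℂ | 0 < w.im} := by
  have h1 : DifferentiableOn ℂ (deriv (schw f)) uhp := (schw_diff hf).deriv isOpen_uhp
  apply h1.congr
  intro w hw
  exact (hasDerivAt_schw hf hw).deriv.symm

/-- growth of the derivative of the Schwarz integral -/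
lemma dschw_bound {f : ℝ → ℝ} (hf : Admissible f) : ∃ M : ℝ, 0 ≤ M ∧ ∀ w : ℂ, 1 ≤ w.im →
    ‖dschw f w‖ ≤ M * (3 + 2 * ‖w‖ ^ 2) := by
  have hgi : Integrable (fun t : ℝ => f t / (1 + t ^ 2)) volume := hf
  refine ⟨(1 / Real.pi) * ∫ t : ℝ, |f t / (1 + t ^ 2)|, by positivity, fun w hw => ?_⟩
  have hpi := Real.pi_pos
  unfold dschw
  rw [norm_mul, norm_neg, norm_div, Complex.norm_I, Complex.norm_real, Real.norm_eq_abs,
    abs_of_pos hpi, mul_assoc]
  refine mul_le_mul_of_nonneg_left ?_ (by positivity)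
  rw [← integral_mul_const]
  refine norm_integral_le_of_norm_le (hgi.abs.mul_const _) (Eventually.of_forall fun t => ?_)
  have hw0 : 0 < w.im := by linarith
  have hne := sub_ofReal_ne_zero hw0 t
  have hpos : 0 < ‖w - (t : ℂ)‖ := norm_pos_iff.2 hne
  have h1 := one_add_sq_le one_pos hw t
  rw [one_pow, div_one] at h1
  have h2 : (0 : ℝ) < 1 + t ^ 2 := by positivity
  rw [norm_div, norm_pow, Complex.norm_real, Real.norm_eq_abs, abs_div, abs_of_pos h2,
    div_mul_eq_mul_div, div_le_div_iff₀ (by positivity) h2, mul_assoc]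
  refine mul_le_mul_of_nonneg_left ?_ (abs_nonneg _)
  calc 1 + t ^ 2 ≤ (2 + (1 + 2 * ‖w‖ ^ 2)) * ‖w - (t : ℂ)‖ ^ 2 := h1
    _ = _ := by ring

lemma norm_two {v : ℂ} (hv : 0 < v.im) : 2 ≤ ‖v + 2 * I‖ := by
  have h := Complex.abs_im_le_norm (v + 2 * I)
  have h2 : (v + 2 * I).im = v.im + 2 := by simp
  rw [h2, abs_of_pos (by linarith)] at h
  linarith

lemma norm_one {v : ℂ} (hv : 0 < v.im) : 3 + 2 * ‖v + I‖ ^ 2 ≤ 6 * ‖v + 2 * I‖ ^ 2 := by
  have h1 := norm_two hv
  have h2 : ‖v + I‖ ≤ ‖v + 2 * I‖ + 1 := by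
    calc ‖v + I‖ = ‖(v + 2 * I) - I‖ := by ring_nf
      _ ≤ ‖v + 2 * I‖ + ‖I‖ := norm_sub_le _ _
      _ = _ := by rw [Complex.norm_I]
  have h3 := norm_nonneg (v + I)
  nlinarith [pow_le_pow_left₀ h3 h2 2]

lemma kc {y y' K D : ℝ} (hy : 0 < y) (h1 : y ≤ y') (h2 : y' ≤ K * y) (hD : 0 ≤ D) :
    y' / (D + y' ^ 2) ≤ K * (y / (D + y ^ 2)) := by
  have hy' : 0 < y' := hy.trans_le h1
  rw [← mul_div_assoc, div_le_div_iff₀ (by positivity) (by positivity)]
  have h3 : y ^ 2 ≤ y' ^ 2 := pow_le_pow_left₀ hy.le h1 2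
  calc y' * (D + y ^ 2) ≤ (K * y) * (D + y ^ 2) := by gcongr
    _ ≤ (K * y) * (D + y' ^ 2) := by
      have : 0 ≤ K * y := hy'.le.trans h2
      gcongr

end Vf

theorem stVf (hVa : StVa) (hVz : StVz) : StVf := by
  intro b p U f hb hp hU hf hfin hnz
  obtain ⟨C, δ, hC, hδ0, hδ1, hVa⟩ := hVa b p hb hp
  set A : ℝ := (∫⁻ x, (ntMax b f x) ^ p * ENNReal.ofReal (U x)).toReal with hA
  have hA0 : 0 ≤ A := ENNReal.toReal_nonneg
  have hA1 : ∫⁻ x, (ntMax b f x) ^ p * ENNReal.ofReal (U x) ≤ ENNReal.ofReal A := by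
    rw [hA, ENNReal.ofReal_toReal hfin]
  have hVa := hVa U f A hU hf hA0 hA1
  obtain ⟨M, hM0, hM⟩ := Vf.dschw_bound hf
  set C2 : ℝ := 6 * M + 1 with hC2
  have hC21 : 1 ≤ C2 := by linarith
  have hC20 : 0 < C2 := by linarith
  set g : ℂ → ℂ := fun v => dschw f (v + I) / (C2 * (v + 2 * I) ^ 2) with hg
  have hd := Vf.dschw_diff hf
  have hden : ∀ v : ℂ, 0 < v.im → (C2 : ℂ) * (v + 2 * I) ^ 2 ≠ 0 := by
    intro v hv
    have h1 := Vf.norm_two hv
    have h2 : v + 2 * I ≠ 0 := by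
      intro h; rw [h, norm_zero] at h1; linarith
    have h3 : (C2 : ℂ) ≠ 0 := by exact_mod_cast hC20.ne'
    exact mul_ne_zero h3 (pow_ne_zero _ h2)
  have him : ∀ v : ℂ, (v + I).im = v.im + 1 := by intro v; simp
  have hgd : DifferentiableOn ℂ g {w : ℂ | 0 < w.im} := by
    refine DifferentiableOn.div ?_ (by fun_prop) fun v hv => hden v hv
    refine hd.comp (by fun_prop) fun v hv => ?_
    change 0 < (v + I).im
    rw [him]
    have : 0 < v.im := hv
    linarith
  have hnorm : ∀ v : ℂ, 0 < v.im → ‖dschw f (v + I)‖ = C2 * ‖v + 2 * I‖ ^ 2 * ‖g v‖ := by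
    intro v hv
    have h1 := hden v hv
    have h2 : dschw f (v + I) = (C2 * (v + 2 * I) ^ 2) * g v := (mul_div_cancel₀ _ h1).symm
    rw [h2, norm_mul, norm_mul, norm_pow, Complex.norm_real, Real.norm_eq_abs, abs_of_pos hC20]
  have hg1 : ∀ w : ℂ, 0 < w.im → ‖g w‖ ≤ 1 := by
    intro v hv
    have h1 := hM (v + I) (by rw [him]; linarith)
    have h2 := Vf.norm_one hv
    have h3 := Vf.norm_two hv
    rw [hnorm v hv] at h1
    have h4 : 0 < ‖v + 2 * I‖ ^ 2 := by positivity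
    have h5 : M * (3 + 2 * ‖v + I‖ ^ 2) ≤ C2 * ‖v + 2 * I‖ ^ 2 := by
      calc M * (3 + 2 * ‖v + I‖ ^ 2) ≤ M * (6 * ‖v + 2 * I‖ ^ 2) := by gcongr
        _ ≤ _ := by rw [hC2]; nlinarith
    have h6 : C2 * ‖v + 2 * I‖ ^ 2 * ‖g v‖ ≤ C2 * ‖v + 2 * I‖ ^ 2 * 1 := by
      rw [mul_one]; exact h1.trans h5
    exact le_of_mul_le_mul_left h6 (by positivity)
  have hgnz : ∃ w : ℂ, 0 < w.im ∧ g w ≠ 0 := by
    by_contra hcon
    push Not at hcon
    obtain ⟨w0, hw0, hw1⟩ := hnz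
    apply hw1
    have hopen : IsOpen {w : ℂ | 0 < w.im} := isOpen_uhp
    have hanal : AnalyticOnNhd ℂ (dschw f) {w : ℂ | 0 < w.im} := hd.analyticOnNhd hopen
    have hconn : IsPreconnected {w : ℂ | 0 < w.im} :=
      (convex_halfSpace_im_gt 0).isPreconnected
    have h2I : (2 * I : ℂ) ∈ {w : ℂ | 0 < w.im} := by simp
    refine hanal.eqOn_zero_of_preconnected_of_eventuallyEq_zero hconn h2I ?_ hw0
    have h3 : {w : ℂ | 1 < w.im} ∈ 𝓝 (2 * I : ℂ) :=
      (isOpen_lt continuous_const Complex.continuous_im).mem_nhds (by simp)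
    filter_upwards [h3] with w hw
    have hw' : 1 < w.im := hw
    have h4 : 0 < (w - I).im := by simp; linarith
    have h5 := hcon (w - I) h4
    have h6 := hnorm (w - I) h4
    rw [h5, norm_zero, mul_zero, sub_add_cancel, norm_eq_zero] at h6
    exact h6
  obtain ⟨ρ, c, hρ, hρ0, hc, hVz⟩ := hVz (δ / 2) g (by positivity) (by linarith) hgd hg1 hgnz
  -- the main estimate
  have hmain : ∀ z y : ℝ, 2 ≤ y → ∫ t in Icc (z - b / 2 * y) (z + b / 2 * y), U t ≤
      C * A * Real.exp (p * Vp ρ c z (y - 1)) := by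
    intro z y hy
    obtain ⟨v, hv, hv0, hv1⟩ := hVz z (y - 1) (by linarith)
    rw [mem_ball, dist_eq_norm] at hv
    have hvim : 0 < v.im := by
      have h1 := Complex.abs_im_le_norm (v - ((z : ℂ) + ((y - 1 : ℝ) : ℂ) * I))
      have h2 : (v - ((z : ℂ) + ((y - 1 : ℝ) : ℂ) * I)).im = v.im - (y - 1) := by simp
      rw [h2] at h1
      have h3 := abs_lt.1 (h1.trans_lt hv)
      nlinarith [h3.1]
    have hw : v + I ∈ ball ((z : ℂ) + y * I) (δ * y) := by
      rw [mem_ball, dist_eq_norm]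
      have e1 : v + I - ((z : ℂ) + y * I) = v - ((z : ℂ) + ((y - 1 : ℝ) : ℂ) * I) := by
        push_cast; ring
      rw [e1]
      refine hv.trans_le ?_
      nlinarith
    have h1 := hVa z y (by linarith) (v + I) hw
    have h2 : Real.exp (-Vp ρ c z (y - 1)) ≤ y * ‖dschw f (v + I)‖ := by
      have h3 : 0 < ‖g v‖ := norm_pos_iff.2 hv0
      have h4 : Real.exp (-Vp ρ c z (y - 1)) ≤ ‖g v‖ := by
        rw [← Real.exp_log h3]
        apply Real.exp_le_exp.2
        linarith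
      refine h4.trans ?_
      rw [hnorm v hvim]
      have h5 := Vf.norm_two hvim
      have h6 : 1 ≤ ‖v + 2 * I‖ ^ 2 := by nlinarith
      have h7 : 1 ≤ C2 * ‖v + 2 * I‖ ^ 2 := one_le_mul_of_one_le_of_one_le hC21 h6
      have h8 : 1 ≤ y * (C2 * ‖v + 2 * I‖ ^ 2) := one_le_mul_of_one_le_of_one_le (by linarith) h7
      calc ‖g v‖ = 1 * ‖g v‖ := (one_mul _).symm
        _ ≤ y * (C2 * ‖v + 2 * I‖ ^ 2) * ‖g v‖ := by gcongr
        _ = _ := by ring
    have h3 : Real.exp (-(p * Vp ρ c z (y - 1))) ≤ (y * ‖dschw f (v + I)‖) ^ p := by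
      have h4 := Real.rpow_le_rpow (Real.exp_pos _).le h2 hp.le
      rw [← Real.exp_mul] at h4
      refine le_trans (le_of_eq ?_) h4
      congr 1; ring
    have hm0 : 0 ≤ ∫ t in Icc (z - b / 2 * y) (z + b / 2 * y), U t :=
      integral_nonneg fun t => hU.1 t
    have h4 : (∫ t in Icc (z - b / 2 * y) (z + b / 2 * y), U t) *
        Real.exp (-(p * Vp ρ c z (y - 1))) ≤ C * A :=
      (mul_le_mul_of_nonneg_left h3 hm0).trans h1
    rw [Real.exp_neg] at h4
    have h5 := Real.exp_pos (p * Vp ρ c z (y - 1))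
    rwa [← div_eq_mul_inv, div_le_iff₀ h5] at h4
  set K : ℝ := max 2 (2 / b) with hK
  have hK2 : 2 ≤ K := le_max_left _ _
  have hKb : 2 / b ≤ K := le_max_right _ _
  have hCA : 0 ≤ C * A := by positivity
  have hL0 : 0 ≤ Real.log (C * A + 1) := Real.log_nonneg (by linarith)
  refine ⟨fun t => p * K * ρ t + Real.log (C * A + 1), p * c * K, NVc.adm_lin hρ _ _,
    fun t => ?_, by positivity, fun z y hy => ?_⟩
  · have := hρ0 t
    positivity
  have hy0 : 0 < y := by linarith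
  have h1 : 2 ≤ K * y := by nlinarith
  have h2 := hmain z (K * y) h1
  have h3 : ∫ t in Icc (z - y) (z + y), U t ≤
      ∫ t in Icc (z - b / 2 * (K * y)) (z + b / 2 * (K * y)), U t := by
    apply setIntegral_mono_set
    · exact hU.2.integrableOn_isCompact isCompact_Icc
    · exact Eventually.of_forall fun t => hU.1 t
    · refine (Icc_subset_Icc ?_ ?_).eventuallyLE
      all_goals
        have h4 : y ≤ b / 2 * (K * y) := by
          have h5 : 1 ≤ b / 2 * K := by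
            rw [div_le_iff₀ hb] at hKb
            linarith
          calc y = 1 * y := (one_mul _).symm
            _ ≤ b / 2 * K * y := by gcongr
            _ = _ := by ring
        linarith
  refine (h3.trans h2).trans ?_
  unfold Vp
  rw [NVc.poisson_lin hρ hy0]
  have hy' : y ≤ K * y - 1 := by nlinarith
  have h4 : poisson ρ z (K * y - 1) ≤ K * poisson ρ z y := by
    refine NVc.kernel_comp hρ hρ0 hy0 (by linarith) fun t => ?_
    exact Vf.kc hy0 hy' (by linarith) (sq_nonneg _)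
  have h5 : C * A ≤ Real.exp (Real.log (C * A + 1)) := by
    rw [Real.exp_log (by linarith)]; linarith
  calc C * A * Real.exp (p * (poisson ρ z (K * y - 1) + c * (K * y - 1)))
      ≤ Real.exp (Real.log (C * A + 1)) *
        Real.exp (p * (K * poisson ρ z y + c * (K * y))) := by
        refine mul_le_mul h5 (Real.exp_le_exp.2 ?_) (Real.exp_pos _).le (Real.exp_pos _).le
        refine mul_le_mul_of_nonneg_left ?_ hp.le
        have : c * (K * y - 1) ≤ c * (K * y) := by nlinarith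
        linarith
    _ = Real.exp (p * K * poisson ρ z y + Real.log (C * A + 1) + p * c * K * y) := by
        rw [← Real.exp_add]
        congr 1
        ring

end Pool.Agent.Work.MP_055a27_an.Fn

end

section

/-!
# The shadow condition with a larger aperture
-/

set_option autoImplicit false

open MeasureTheory Set Filter Topology Complex Metric
open scoped ENNReal NNReal

namespace Pool.Agent.Work.MP_055a27_an.Sg

open Crit (lg NTc Nice NI)
open Cr3 (Wt Sh)
open Fn (StarC ShK Ex Vp Vs Uav lgm NV)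

namespace GainKX

open Fn.NK (FK)

lemma norm_FK' {l : ℝ → ℝ} (hl : Admissible l) {c p δ x0 β : ℝ} (k : ℕ)
    (hβ : 0 < β) {z y : ℝ} (hy : 0 < y + δ) :
    ‖FK l c p δ x0 β k (z + y * I)‖ =
      Real.exp (-Vp l c z (y + δ) / p) * (β / ‖(z : ℂ) + y * I - x0 + β * I‖) ^ k := by
  unfold FK
  rw [norm_mul, norm_tF hβ, Complex.norm_exp]
  congr 2
  have h1 : (z : ℂ) + y * I + δ * I = z + ((y + δ : ℝ) : ℂ) * I := by
    push_cast
    ring
  rw [h1, Complex.div_ofReal_re, Complex.neg_re]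
  unfold Vs Vp
  rw [Complex.sub_re, schw_re hl hy]
  have h2 : (I * (c : ℂ) * (z + ((y + δ : ℝ) : ℂ) * I)).re = -(c * (y + δ)) := by
    simp
  rw [h2, sub_neg_eq_add]

lemma den_lower {x0 β : ℝ} {w : ℂ} (hw : -(β / 2) < w.im) :
    β / 2 ≤ ‖w - x0 + β * I‖ := by
  have h := Complex.abs_im_le_norm (w - x0 + β * I)
  simp at h
  have h2 := le_abs_self (w.im + β)
  linarith

lemma norm_FK_le' {l : ℝ → ℝ} (hl : Admissible l) {c p δ x0 β θ : ℝ} (k : ℕ) (hp : 0 < p)
    (hc : 0 ≤ c) (hθ : ∀ t, θ ≤ l t) (hβ : 0 < β) {w : ℂ} (hw : 0 < w.im + δ)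
    (hw2 : -(β / 2) < w.im) :
    ‖FK l c p δ x0 β k w‖ ≤ Real.exp (-θ / p) * 2 ^ k := by
  have h1 := norm_FK' hl (c := c) (p := p) (δ := δ) (x0 := x0) (β := β) k hβ (z := w.re)
    (y := w.im) hw
  rw [Complex.re_add_im] at h1
  rw [h1]
  have h2 : Real.exp (-Vp l c w.re (w.im + δ) / p) ≤ Real.exp (-θ / p) := by
    refine Real.exp_le_exp.mpr ?_
    refine div_le_div_of_nonneg_right ?_ hp.le
    have h3 := Crit.TF.le_poisson hl (M := -θ) (fun t => by rw [neg_neg]; exact hθ t) (z := w.re)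
      (y := w.im + δ) hw
    unfold Vp
    have h4 : 0 ≤ c * (w.im + δ) := mul_nonneg hc hw.le
    linarith
  have h5 := den_lower (x0 := x0) hw2
  have h3 : (β / ‖w - x0 + β * I‖) ^ k ≤ 2 ^ k := by
    refine pow_le_pow_left₀ (by positivity) ?_ k
    rw [div_le_iff₀ (lt_of_lt_of_le (half_pos hβ) h5)]
    linarith
  exact mul_le_mul h2 h3 (by positivity) (Real.exp_pos _).le

lemma differentiableAt_FK' {l : ℝ → ℝ} (hl : Admissible l) {c p δ x0 β : ℝ} (k : ℕ)
    (hβ : 0 < β) {w : ℂ} (hw : 0 < w.im + δ) (hw2 : -(β / 2) < w.im) :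
    DifferentiableAt ℂ (FK l c p δ x0 β k) w := by
  have him : 0 < (w + δ * I).im := by
    simp
    linarith
  have h0 : DifferentiableAt ℂ (Vs l c) (w + δ * I) := by
    unfold Vs
    exact (hasDerivAt_schw hl him).differentiableAt.fun_sub (by fun_prop)
  have h1 : DifferentiableAt ℂ (fun w : ℂ => Vs l c (w + δ * I)) w :=
    DifferentiableAt.comp (g := Vs l c) (f := fun w : ℂ => w + δ * I) w h0 (by fun_prop)
  have h2 : DifferentiableAt ℂ (fun w : ℂ => Complex.exp (-(Vs l c (w + δ * I)) / p)) w :=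
    (h1.fun_neg.div_const (p : ℂ)).cexp
  have hne : w - x0 + β * I ≠ 0 := by
    rw [← norm_pos_iff]
    exact lt_of_lt_of_le (half_pos hβ) (den_lower hw2)
  have h3 : DifferentiableAt ℂ (tF x0 β k) w := by
    unfold tF
    have h4 : DifferentiableAt ℂ (fun w : ℂ => I * β / (w - x0 + β * I)) w := by
      refine DifferentiableAt.fun_div (by fun_prop) (by fun_prop) hne
    exact h4.fun_pow k
  exact h2.fun_mul h3

lemma an_FK {l : ℝ → ℝ} (hl : Ex l) {c p δ x0 β : ℝ} (k : ℕ) (hp : 0 < p)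
    (hc : 0 ≤ c) (hδ : 0 < δ) (hβ : 0 < β) : An (FK l c p δ x0 β k) := by
  obtain ⟨hl1, θ, hθ⟩ := hl
  refine ⟨min δ (β / 2), Real.exp (-θ / p) * 2 ^ k, lt_min hδ (half_pos hβ), fun w hw => ?_⟩
  have h1 : 0 < w.im + δ := by
    have := min_le_left δ (β / 2)
    linarith
  have h2 : -(β / 2) < w.im := by
    have := min_le_right δ (β / 2)
    linarith
  exact ⟨differentiableAt_FK' hl1 k hβ h1 h2, norm_FK_le' hl1 k hp hc hθ hβ h1 h2⟩

end GainKX

open GainKX in
theorem stGainK (hAnC : StAnC) (hGain : StGain) (hCostB : StCostB) : StGainK := by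
  intro C0 b p hb hp
  obtain ⟨μ0, CG, hμ0, hG⟩ := hGain C0 b p hb hp
  obtain ⟨ε, hε⟩ : ∃ ε, ε = (μ0 - b) / (2 * b) := ⟨_, rfl⟩
  have hε0 : 0 < ε := by
    rw [hε]
    exact div_pos (by linarith) (by linarith)
  have hεb : b * (1 + ε) = (μ0 + b) / 2 := by
    rw [hε]
    field_simp
    ring
  have h1ε : 0 < 1 + ε := by linarith
  obtain ⟨k, hk⟩ : ∃ k : ℕ, 4 / p ≤ (k : ℝ) := ⟨⌈4 / p⌉₊, Nat.le_ceil _⟩
  have hk4 : 4 ≤ (k : ℝ) * p := by rwa [div_le_iff₀ hp] at hk
  obtain ⟨Cc, hCc0, hCc⟩ := hCostB b p ε k hb hp hk4 hε0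
  refine ⟨μ0 / (1 + ε), CG * Cc * (2 : ℝ) ^ ((k : ℝ) * p), ?_, by positivity, ?_⟩
  · rw [lt_div_iff₀ h1ε, hεb]
    linarith
  intro U l c κ hU hl hc hStar hκ hSh z1 y1 hy1
  obtain ⟨β, hβ⟩ : ∃ β, β = y1 / (1 + ε) := ⟨_, rfl⟩
  have hβ0 : 0 < β := by
    rw [hβ]
    exact div_pos hy1 h1ε
  have hβy : β + ε * β = y1 := by
    rw [hβ]
    field_simp
  have hβle : β ≤ y1 := by
    have : 0 ≤ ε * β := by positivity
    linarith
  have hδ : 0 < ε * β := mul_pos hε0 hβ0
  obtain ⟨F, hF⟩ : ∃ F, F = Fn.NK.FK l c p (ε * β) z1 β k := ⟨_, rfl⟩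
  have hAn : An F := by
    rw [hF]
    exact an_FK hl k hp hc hδ hβ0
  have h1 : NI U F b p ≤ ENNReal.ofReal (Cc * κ * β) := by
    have h2 := hCc U l c κ z1 β 1 F hU hl.1 hκ hβ0 zero_le_one hSh (fun z y hy => by
      rw [hF, Fn.NK.norm_FK hl.1 k hδ hβ0 hy.le, one_mul])
    rw [Real.one_rpow, mul_one] at h2
    exact h2
  have hfinN : NI U F b p ≠ ∞ := ne_top_of_le_ne_top ENNReal.ofReal_ne_top h1
  have h2 := hG U hU hStar F hAn hfinN z1 β hβ0
  -- value of the test function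
  obtain ⟨V, hV⟩ : ∃ V, V = Vp l c z1 y1 := ⟨_, rfl⟩
  have h3 : ‖F (z1 + β * I)‖ = Real.exp (-V / p) * (1 / 2) ^ k := by
    rw [hF, Fn.NK.norm_FK hl.1 k hδ hβ0 hβ0.le, hβy, ← hV]
    congr 2
    have h6 : ‖(z1 : ℂ) + (β : ℂ) * I - z1 + β * I‖ = 2 * β := by
      have h7 : (z1 : ℂ) + (β : ℂ) * I - z1 + β * I = ((2 * β : ℝ) : ℂ) * I := by
        push_cast
        ring
      rw [h7, norm_mul, norm_I, mul_one, Complex.norm_real, Real.norm_eq_abs,
        abs_of_pos (by linarith)]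
    rw [h6]
    field_simp
  have h5 : ‖F (z1 + β * I)‖ ^ p = Real.exp (-V) * ((2 : ℝ) ^ ((k : ℝ) * p))⁻¹ := by
    rw [h3, Real.mul_rpow (Real.exp_pos _).le (by positivity), ← Real.exp_mul,
      div_mul_cancel₀ _ hp.ne']
    congr 1
    rw [one_div, inv_pow, Real.inv_rpow (by positivity), ← Real.rpow_natCast,
      ← Real.rpow_mul (by norm_num)]
  obtain ⟨S, hS⟩ : ∃ S, S = Icc (z1 - μ0 / (1 + ε) * y1) (z1 + μ0 / (1 + ε) * y1) := ⟨_, rfl⟩
  have hμβ : μ0 * β = μ0 / (1 + ε) * y1 := by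
    rw [hβ]
    ring
  rw [hμβ, ← hS, h5] at h2
  have h6 : wm U S * ENNReal.ofReal (Real.exp (-V) * ((2 : ℝ) ^ ((k : ℝ) * p))⁻¹) ≤
      ENNReal.ofReal (CG * (Cc * κ * β)) := by
    refine h2.trans ?_
    rw [ENNReal.ofReal_mul CG.coe_nonneg, ENNReal.ofReal_coe_nnreal]
    exact mul_le_mul_right h1 _
  have h7 := ENNReal.toReal_mono ENNReal.ofReal_ne_top h6
  have hnn : 0 ≤ (CG : ℝ) * (Cc * κ * β) := by positivity
  rw [ENNReal.toReal_mul, ENNReal.toReal_ofReal (by positivity),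
    ENNReal.toReal_ofReal hnn] at h7
  have hSm : MeasurableSet S := by
    rw [hS]
    exact measurableSet_Icc
  rw [← setIntegral_eq_wm hU hSm] at h7
  have hpow : (0 : ℝ) < (2 : ℝ) ^ ((k : ℝ) * p) := by positivity
  have hexp : Real.exp V * Real.exp (-V) = 1 := by
    rw [← Real.exp_add, add_neg_cancel, Real.exp_zero]
  rw [← hS, ← hV]
  calc ∫ t in S, U t = (Real.exp V * (2 : ℝ) ^ ((k : ℝ) * p)) *
        ((∫ t in S, U t) * (Real.exp (-V) * ((2 : ℝ) ^ ((k : ℝ) * p))⁻¹)) := by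
        have h8 : Real.exp V * (2 : ℝ) ^ ((k : ℝ) * p) *
            ((∫ t in S, U t) * (Real.exp (-V) * ((2 : ℝ) ^ ((k : ℝ) * p))⁻¹)) =
            (Real.exp V * Real.exp (-V)) * ((2 : ℝ) ^ ((k : ℝ) * p) *
              ((2 : ℝ) ^ ((k : ℝ) * p))⁻¹) * ∫ t in S, U t := by ring
        rw [h8, hexp, mul_inv_cancel₀ hpow.ne']
        ring
    _ ≤ (Real.exp V * (2 : ℝ) ^ ((k : ℝ) * p)) * (CG * (Cc * κ * β)) :=
        mul_le_mul_of_nonneg_left h7 (by positivity)
    _ ≤ (Real.exp V * (2 : ℝ) ^ ((k : ℝ) * p)) * (CG * (Cc * κ * y1)) := by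
        refine mul_le_mul_of_nonneg_left ?_ (by positivity)
        refine mul_le_mul_of_nonneg_left ?_ CG.coe_nonneg
        exact mul_le_mul_of_nonneg_left hβle (by positivity)
    _ = _ := by ring

end Pool.Agent.Work.MP_055a27_an.Sg

end

section

/-!
# The resolvent estimate
-/

open MeasureTheory Set Filter Topology Complex Metric
open scoped ENNReal NNReal

namespace Pool.Agent.Work.MP_055a27_an.Sg

open Crit (lg NTc Nice NI)
open Fn (StarC)

namespace ResX

/-- The abstract argument: `N`, `G`, `S` are the maximal function of `F`, the maximal function of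
the resolvent and the area function. -/
theorem core {U : ℝ → ℝ} (hU : IsWeight U) {N G S : ℝ → ℝ≥0∞} (hN : Measurable N)
    (hG : Measurable G) {p : ℝ} (hp : 0 < p) {C0 : ℝ≥0} {T κ : ℝ≥0∞} (hT0 : T ≠ 0) (hT : T ≠ ∞)
    (hK : (2 * C0 + 3 : ℝ≥0∞) ≤ κ ^ (p / 2))
    (h0 : ∫⁻ x, (N x) ^ p * ENNReal.ofReal (U x) ≠ ∞)
    (hS : ∫⁻ x, (S x) ^ p * ENNReal.ofReal (U x) ≤
      C0 * ∫⁻ x, (N x) ^ p * ENNReal.ofReal (U x))
    (hpt : ∀ x, N x ≠ ∞ → G x ≤ T * N x → κ * (N x) ^ 2 ≤ (S x) ^ 2) :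
    T ^ p / 2 * ∫⁻ x, (N x) ^ p * ENNReal.ofReal (U x) ≤
      ∫⁻ x, (G x) ^ p * ENNReal.ofReal (U x) := by
  set N0 := ∫⁻ x, (N x) ^ p * ENNReal.ofReal (U x) with hN0
  by_contra hcon
  push Not at hcon
  have hTp0 : T ^ p ≠ 0 := by
    rw [Ne, ENNReal.rpow_eq_zero_iff_of_pos hp]
    exact hT0
  have hTp : T ^ p ≠ ∞ := ENNReal.rpow_ne_top_of_nonneg hp.le hT
  have hN00 : N0 ≠ 0 := by
    intro h
    rw [h, mul_zero] at hcon
    exact not_lt_bot hcon
  set A : Set ℝ := {x | G x ≤ T * N x} with hA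
  have hAm : MeasurableSet A := measurableSet_le hG (hN.const_mul T)
  have hsplit := lintegral_add_compl (μ := volume)
    (fun x => (N x) ^ p * ENNReal.ofReal (U x)) hAm
  rw [← hN0] at hsplit
  -- the bad set
  have hbad : T ^ p * ∫⁻ x in Aᶜ, (N x) ^ p * ENNReal.ofReal (U x) ≤ T ^ p * (N0 / 2) := by
    have e1 : T ^ p * ∫⁻ x in Aᶜ, (N x) ^ p * ENNReal.ofReal (U x) ≤
        ∫⁻ x in Aᶜ, (G x) ^ p * ENNReal.ofReal (U x) := by
      rw [← lintegral_const_mul' _ _ hTp]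
      refine setLIntegral_mono' hAm.compl fun x hx => ?_
      have hx' : T * N x ≤ G x := by
        have : ¬ G x ≤ T * N x := hx
        exact (not_le.1 this).le
      rw [← mul_assoc, ← ENNReal.mul_rpow_of_nonneg _ _ hp.le]
      gcongr
    refine e1.trans ((setLIntegral_le_lintegral _ _).trans (hcon.le.trans (le_of_eq ?_)))
    rw [div_eq_mul_inv, div_eq_mul_inv, mul_assoc, mul_comm _ N0]
  have hbad' : ∫⁻ x in Aᶜ, (N x) ^ p * ENNReal.ofReal (U x) ≤ N0 / 2 :=
    (ENNReal.mul_le_mul_iff_right hTp0 hTp).1 hbad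
  have hgood : N0 / 2 ≤ ∫⁻ x in A, (N x) ^ p * ENNReal.ofReal (U x) := by
    have e1 : N0 ≤ (∫⁻ x in A, (N x) ^ p * ENNReal.ofReal (U x)) + N0 / 2 := by
      rw [← hsplit]
      rw [hsplit]
      calc N0 = _ := hsplit.symm
        _ ≤ _ := by gcongr
    have e2 : N0 / 2 + N0 / 2 = N0 := ENNReal.add_halves N0
    have e3 : N0 / 2 ≠ ∞ := (ENNReal.div_lt_top h0 (by norm_num)).ne
    rw [← e2] at e1
    exact (ENNReal.add_le_add_iff_right e3).1 (by
      simpa only [e2] using e1)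
  -- the good set
  have hae : ∀ᵐ x, (N x) ^ p * ENNReal.ofReal (U x) < ∞ :=
    ae_lt_top' ((hN.pow_const p).aemeasurable.mul (weight_ofReal_aemeas hU)) h0
  have hκ : κ ^ (p / 2) * ∫⁻ x in A, (N x) ^ p * ENNReal.ofReal (U x) ≤
      ∫⁻ x, (S x) ^ p * ENNReal.ofReal (U x) := by
    refine le_trans (lintegral_const_mul_le _ _) ?_
    refine le_trans ?_ (setLIntegral_le_lintegral A _)
    refine lintegral_mono_ae ?_
    rw [ae_restrict_iff' hAm]
    filter_upwards [hae] with x hx hxA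
    by_cases hNx : N x = ∞
    · have hU0 : ENNReal.ofReal (U x) = 0 := by
        by_contra hne
        rw [hNx, ENNReal.top_rpow_of_pos hp, ENNReal.top_mul hne] at hx
        exact absurd hx (lt_irrefl _)
      rw [hU0, mul_zero, mul_zero]
      exact zero_le
    · have h1 := hpt x hNx hxA
      have h2 := ENNReal.rpow_le_rpow h1 (show 0 ≤ p / 2 by positivity)
      rw [ENNReal.mul_rpow_of_nonneg _ _ (show 0 ≤ p / 2 by positivity),
        ← ENNReal.rpow_natCast, ← ENNReal.rpow_natCast, ← ENNReal.rpow_mul,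
        ← ENNReal.rpow_mul] at h2
      have e : ((2 : ℕ) : ℝ) * (p / 2) = p := by
        push_cast
        ring
      rw [e] at h2
      rw [← mul_assoc]
      gcongr
  have hfin : (2 * C0 + 3 : ℝ≥0∞) * (N0 / 2) ≤ C0 * N0 :=
    (mul_le_mul' hK hgood).trans (hκ.trans hS)
  have e4 : (2 * C0 + 3 : ℝ≥0∞) * (N0 / 2) = C0 * N0 + 3 * (N0 / 2) := by
    rw [add_mul]
    congr 1
    rw [mul_comm (2 : ℝ≥0∞), mul_assoc, ENNReal.mul_div_cancel (by norm_num) (by norm_num)]
  rw [e4] at hfin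
  have hCN : (C0 : ℝ≥0∞) * N0 ≠ ∞ := ENNReal.mul_ne_top ENNReal.coe_ne_top h0
  have e5 : (3 : ℝ≥0∞) * (N0 / 2) ≠ 0 := by
    refine mul_ne_zero (by norm_num) ?_
    rw [Ne, ENNReal.div_eq_zero_iff]
    push Not
    exact ⟨hN00, by norm_num⟩
  exact absurd hfin (not_le.2 (ENNReal.lt_add_right hCN e5))

end ResX

open ResX in
theorem stRes (hAnC : StAnC) (hSFb : StSFb) (hPt : StPt) : StRes := by
  intro C0 b p hb hp
  obtain ⟨cb, hcb, hpt⟩ := hPt b hb
  set K : ℝ := (2 * (C0 : ℝ) + 3) ^ (2 / p) with hK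
  have hC0 : (0 : ℝ) ≤ C0 := C0.2
  have hK0 : 0 < K := Real.rpow_pos_of_pos (by linarith) _
  set c1 : ℝ := min (1 / 16) (cb / K) with hc1
  have hc10 : 0 < c1 := lt_min (by norm_num) (div_pos hcb hK0)
  have hc16 : c1 ≤ 1 / 16 := min_le_left _ _
  have hKc : K ≤ cb / c1 := by
    have h1 : c1 ≤ cb / K := min_le_right _ _
    rw [le_div_iff₀ hc10]
    rw [le_div_iff₀ hK0] at h1
    linarith
  refine ⟨c1 / 2 ^ (1 / p), by positivity, ?_⟩
  intro U hU hstar σ θ F hσ hF hfin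
  by_cases hθ : θ = 0
  · rw [hθ, abs_zero, mul_zero, Real.zero_rpow hp.ne', ENNReal.ofReal_zero, zero_mul]
    exact zero_le
  have hθ0 : 0 < |θ| := abs_pos.2 hθ
  obtain ⟨hFn, hFd, -, hFc, hFa, -⟩ := hAnC F hF
  have hGA : An (fun w => ed b σ * deriv F w - I * θ * F w) := by
    have h1 := (hAnC _ hFd).2.2.2.1 (ed b σ)
    have h2 := (hAnC _ h1).2.2.2.2.1 _ (hFc (-(I * θ)))
    have e : (fun w => ed b σ * deriv F w - I * θ * F w) =
        fun w => ed b σ * deriv F w + -(I * θ) * F w := by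
      funext w
      ring
    rw [e]
    exact h2
  have hGn := (hAnC _ hGA).1
  have hmN := Crit.stNM F b hFn hb.le
  have hmG := Crit.stNM _ b hGn hb.le
  have hT : 0 < c1 * |θ| := mul_pos hc10 hθ0
  have hcp : ENNReal.ofReal ((c1 / 2 ^ (1 / p) * |θ|) ^ p) =
      ENNReal.ofReal (c1 * |θ|) ^ p / 2 := by
    rw [ENNReal.ofReal_rpow_of_pos hT]
    have e1 : (c1 / 2 ^ (1 / p) * |θ|) ^ p = (c1 * |θ|) ^ p / 2 := by
      rw [div_mul_eq_mul_div, Real.div_rpow hT.le (by positivity), ← Real.rpow_mul (by norm_num),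
        one_div, inv_mul_cancel₀ hp.ne', Real.rpow_one]
    rw [e1, ENNReal.ofReal_div_of_pos (by norm_num)]
    simp
  rw [hcp]
  refine core hU hmN hmG hp (C0 := C0) (κ := ENNReal.ofReal (cb / c1))
    (S := SF F b) (ENNReal.ofReal_pos.2 hT).ne' ENNReal.ofReal_ne_top ?_ hfin
    (hSFb C0 b b p U hp hU hstar F hFn) ?_
  · rw [ENNReal.ofReal_rpow_of_pos (div_pos hcb hc10)]
    have h1 : 2 * (C0 : ℝ) + 3 ≤ (cb / c1) ^ (p / 2) := by
      have h2 : K ^ (p / 2) ≤ (cb / c1) ^ (p / 2) :=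
        Real.rpow_le_rpow hK0.le hKc (by positivity)
      have h3 : K ^ (p / 2) = 2 * (C0 : ℝ) + 3 := by
        rw [hK, ← Real.rpow_mul (by linarith)]
        have : 2 / p * (p / 2) = 1 := by
          field_simp
        rw [this, Real.rpow_one]
      linarith
    have h4 : (2 * C0 + 3 : ℝ≥0∞) = ENNReal.ofReal (2 * (C0 : ℝ) + 3) := by
      rw [ENNReal.ofReal_add (by positivity) (by norm_num), ENNReal.ofReal_mul (by norm_num),
        ENNReal.ofReal_coe_nnreal]
      simp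
    rw [h4]
    exact ENNReal.ofReal_le_ofReal h1
  · intro x hx hG
    exact hpt σ F θ c1 x hσ hFn hθ hc10 hc16 hx hG

end Pool.Agent.Work.MP_055a27_an.Sg

end

section

/-!
# Gain of aperture: translations with directions outside the cone (item Tay)
-/

open MeasureTheory Set Filter Topology Complex Metric
open scoped ENNReal NNReal Nat

namespace Pool.Agent.Work.MP_055a27_an.Sg

open Crit (lg NTc Nice NI)
open Cr3 (Wt Sh)
open Fn (StarC ShK Ex Vp Vs Uav lgm NV)

namespace TayX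

theorem le_NTc (F : ℂ → ℂ) (b x z y : ℝ) (hy : 0 < y) (h : |x - z| ≤ b * y) :
    ENNReal.ofReal ‖F (z + y * I)‖ ≤ NTc F b x := by
  unfold NTc
  exact le_iSup_of_le z (le_iSup_of_le y (le_iSup_of_le ⟨hy, h⟩ le_rfl))

theorem NTc_mul (c : ℂ) (G : ℂ → ℂ) (b x : ℝ) :
    NTc (fun w => c * G w) b x ≤ ENNReal.ofReal ‖c‖ * NTc G b x := by
  rw [NTc]
  refine iSup_le fun z => iSup_le fun y => iSup_le fun h => ?_
  rw [norm_mul, ENNReal.ofReal_mul (norm_nonneg _)]
  gcongr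
  exact le_NTc G b x z y h.1 h.2

theorem NI_mono (U : ℝ → ℝ) (F G : ℂ → ℂ) (b p : ℝ) (hp : 0 < p)
    (h : ∀ x, NTc G b x ≤ NTc F b x) : NI U G b p ≤ NI U F b p := by
  unfold NI
  refine lintegral_mono fun x => ?_
  show (NTc G b x) ^ p * _ ≤ (NTc F b x) ^ p * _
  gcongr
  exact h x

theorem NI_mul (U : ℝ → ℝ) (c : ℂ) (G : ℂ → ℂ) (b p : ℝ) (hp : 0 < p) :
    NI U (fun w => c * G w) b p ≤ (ENNReal.ofReal ‖c‖) ^ p * NI U G b p := by
  unfold NI
  rw [← lintegral_const_mul' _ _ (ENNReal.rpow_ne_top_of_nonneg hp.le ENNReal.ofReal_ne_top)]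
  refine lintegral_mono fun x => ?_
  show (NTc (fun w => c * G w) b x) ^ p * _ ≤ (ENNReal.ofReal ‖c‖) ^ p * ((NTc G b x) ^ p * _)
  rw [← mul_assoc, ← ENNReal.mul_rpow_of_nonneg _ _ hp.le]
  gcongr
  exact NTc_mul c G b x

/-- the iterated translates -/
noncomputable def Aj (s : ℝ) (e : ℂ) (F : ℂ → ℂ) : ℕ → ℂ → ℂ
  | 0 => F
  | j + 1 => fun w => s * e * deriv (Aj s e F j) (w + s * e)

theorem Aj_eq (s : ℝ) (e : ℂ) (F : ℂ → ℂ) (j : ℕ) :
    Aj s e F j = fun w => (s * e) ^ j * iteratedDeriv j F (w + j * (s * e)) := by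
  induction j with
  | zero =>
    funext w
    simp [Aj]
  | succ j ih =>
    funext w
    show s * e * deriv (Aj s e F j) (w + s * e) = _
    rw [ih, deriv_const_mul_field, deriv_comp_add_const]
    have h : w + s * e + j * (s * e) = w + ((j + 1 : ℕ) : ℂ) * (s * e) := by
      push_cast
      ring
    rw [h, iteratedDeriv_succ]
    ring

theorem Aj_An (hAnC : StAnC) (s : ℝ) (e : ℂ) (F : ℂ → ℂ) (hF : An F)
    (him : 0 ≤ ((s : ℂ) * e).im) (j : ℕ) : An (Aj s e F j) := by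
  induction j with
  | zero => exact hF
  | succ j ih =>
    have h1 := (hAnC _ ih).2.1
    have h2 := (hAnC _ h1).2.2.1 (s * e) him
    exact (hAnC _ h2).2.2.2.1 (s * e)

theorem pow_rpow_comm (a : ℝ≥0∞) (p : ℝ) (k : ℕ) : (a ^ p) ^ k = (a ^ k) ^ p := by
  rw [← ENNReal.rpow_natCast, ← ENNReal.rpow_mul, mul_comm, ENNReal.rpow_mul,
    ENNReal.rpow_natCast]

theorem ed_im (b σ : ℝ) : (ed b σ).im = 1 := by
  unfold ed
  simp

theorem ed_re (b σ : ℝ) : (ed b σ).re = σ * b := by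
  unfold ed
  simp

theorem ed_norm (b σ : ℝ) (hb : 0 < b) (hσ : |σ| = 1) : ‖ed b σ‖ ≤ 1 + b := by
  unfold ed
  refine (norm_add_le _ _).trans ?_
  rw [Complex.norm_real, Complex.norm_I, Real.norm_eq_abs, abs_mul, hσ, abs_of_pos hb]
  linarith

/-- the term of the Taylor series -/
noncomputable def Bk (t : ℝ) (e : ℂ) (F : ℂ → ℂ) (k : ℕ) (w : ℂ) : ℂ :=
  (t * e) ^ k * iteratedDeriv k F (w + t * e)

theorem Bk_zero (t : ℝ) (e : ℂ) (F : ℂ → ℂ) : Bk t e F 0 = fun w => F (w + t * e) := by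
  funext w
  simp [Bk]

theorem Bk_eq (t : ℝ) (e : ℂ) (F : ℂ → ℂ) (k : ℕ) (hk : k ≠ 0) :
    Bk t e F k = fun w => ((k : ℂ) ^ k) * Aj (t / k) e F k w := by
  funext w
  rw [Aj_eq]
  have hk' : (k : ℂ) ≠ 0 := by exact_mod_cast hk
  have h : (k : ℂ) * (((t / k : ℝ) : ℂ) * e) = t * e := by
    push_cast
    field_simp
  show Bk t e F k w = (k : ℂ) ^ k * ((((t / k : ℝ) : ℂ) * e) ^ k *
    iteratedDeriv k F (w + k * (((t / k : ℝ) : ℂ) * e)))
  rw [h, ← mul_assoc, ← mul_pow, h]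
  rfl

theorem Bk_An (hAnC : StAnC) (t : ℝ) (ht : 0 < t) (e : ℂ) (he : e.im = 1) (F : ℂ → ℂ)
    (hF : An F) (k : ℕ) : An (Bk t e F k) := by
  rcases Nat.eq_zero_or_pos k with rfl | hk
  · rw [Bk_zero]
    refine (hAnC F hF).2.2.1 _ ?_
    rw [Complex.im_ofReal_mul, he, mul_one]
    exact ht.le
  · rw [Bk_eq t e F k hk.ne']
    refine (hAnC _ (Aj_An hAnC _ e F hF ?_ k)).2.2.2.1 _
    rw [Complex.im_ofReal_mul, he, mul_one]
    positivity

theorem Bk_NI (hAnC : StAnC) (C0 : ℝ≥0) (b p C : ℝ) (hb : 0 < b) (hp : 0 < p) (hC : 1 ≤ C)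
    (U : ℝ → ℝ)
    (hG : ∀ (σ t : ℝ) (F : ℂ → ℂ), |σ| = 1 → 0 < t → An F → NI U F b p ≠ ∞ →
      NI U (fun w => t * ed b σ * deriv F (w + t * ed b σ)) b p ≤
      ENNReal.ofReal (C ^ p) * NI U F b p)
    (σ t : ℝ) (F : ℂ → ℂ) (hσ : |σ| = 1) (ht : 0 < t) (hF : An F) (hfin : NI U F b p ≠ ∞)
    (k : ℕ) : NI U (Bk t (ed b σ) F k) b p ≤
      (ENNReal.ofReal ((k : ℝ) ^ k)) ^ p * ((ENNReal.ofReal C) ^ k) ^ p * NI U F b p := by
  have _ := C0
  rcases Nat.eq_zero_or_pos k with rfl | hk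
  · rw [Bk_zero]
    have h1 : NI U (fun w => F (w + t * ed b σ)) b p ≤ NI U F b p := by
      refine NI_mono U F _ b p hp fun x => ?_
      refine (hAnC F hF).2.2.2.2.2 b x _ ?_ ?_
      · rw [Complex.im_ofReal_mul, ed_im, mul_one]
        exact ht.le
      · rw [Complex.im_ofReal_mul, Complex.re_ofReal_mul, ed_im, ed_re, mul_one, abs_mul,
          abs_mul, hσ, abs_of_pos hb, abs_of_pos ht, one_mul]
        exact (mul_comm _ _).le
    simpa using h1
  · rw [Bk_eq t (ed b σ) F k hk.ne']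
    have hs : 0 < t / k := by positivity
    have him : 0 ≤ (((t / k : ℝ) : ℂ) * ed b σ).im := by
      rw [Complex.im_ofReal_mul, ed_im, mul_one]
      exact hs.le
    have hj : ∀ j : ℕ, NI U (Aj (t / k) (ed b σ) F j) b p ≤
        (ENNReal.ofReal (C ^ p)) ^ j * NI U F b p := by
      intro j
      induction j with
      | zero => simp [Aj]
      | succ j ih =>
        have hne : NI U (Aj (t / k) (ed b σ) F j) b p ≠ ∞ := by
          refine ne_top_of_le_ne_top ?_ ih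
          exact ENNReal.mul_ne_top (ENNReal.pow_ne_top ENNReal.ofReal_ne_top) hfin
        have h2 := hG σ (t / k) (Aj (t / k) (ed b σ) F j) hσ hs
          (Aj_An hAnC _ _ F hF him j) hne
        have h3 : NI U (Aj (t / k) (ed b σ) F (j + 1)) b p ≤
            ENNReal.ofReal (C ^ p) * NI U (Aj (t / k) (ed b σ) F j) b p := h2
        refine h3.trans ?_
        rw [pow_succ', mul_assoc]
        gcongr
    have h4 := NI_mul U ((k : ℂ) ^ k) (Aj (t / k) (ed b σ) F k) b p hp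
    refine h4.trans ?_
    have h5 : ‖((k : ℂ) ^ k)‖ = (k : ℝ) ^ k := by
      rw [norm_pow, Complex.norm_natCast]
    rw [h5, mul_assoc]
    gcongr
    refine (hj k).trans ?_
    rw [← ENNReal.ofReal_rpow_of_nonneg (by linarith) hp.le, pow_rpow_comm]

theorem sum_pow (a : ℕ → ℝ≥0∞) (p : ℝ) (hp : 0 < p) :
    (∑' k, a k) ^ p ≤ 2 ^ p * ∑' k, (2 ^ k * a k) ^ p := by
  set Q : ℝ≥0∞ := (∑' k, (2 ^ k * a k) ^ p) ^ (1 / p) with hQ
  have h1 : ∀ k, a k ≤ (2⁻¹) ^ k * Q := by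
    intro k
    have h2 : (2 : ℝ≥0∞) ^ k * a k ≤ Q := by
      have h3 : (2 : ℝ≥0∞) ^ k * a k = (((2 : ℝ≥0∞) ^ k * a k) ^ p) ^ (1 / p) := by
        rw [← ENNReal.rpow_mul, mul_one_div_cancel hp.ne', ENNReal.rpow_one]
      rw [h3, hQ]
      exact ENNReal.rpow_le_rpow (ENNReal.le_tsum k) (by positivity)
    have h4 : a k = (2⁻¹) ^ k * ((2 : ℝ≥0∞) ^ k * a k) := by
      rw [← mul_assoc, ← mul_pow, ENNReal.inv_mul_cancel (by norm_num) (by norm_num), one_pow,
        one_mul]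
    rw [h4]
    gcongr
  have h5 : ∑' k, a k ≤ 2 * Q := by
    refine (ENNReal.tsum_le_tsum h1).trans ?_
    rw [ENNReal.tsum_mul_right, ENNReal.tsum_geometric_two]
  calc (∑' k, a k) ^ p ≤ (2 * Q) ^ p := ENNReal.rpow_le_rpow h5 hp.le
    _ = 2 ^ p * Q ^ p := ENNReal.mul_rpow_of_nonneg _ _ hp.le
    _ = 2 ^ p * ∑' k, (2 ^ k * a k) ^ p := by
      rw [hQ, ← ENNReal.rpow_mul, one_div_mul_cancel hp.ne', ENNReal.rpow_one]

theorem taylor (F : ℂ → ℂ) (hF : An F) (b σ t η x : ℝ) (hb : 0 < b) (hσ : |σ| = 1)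
    (ht : 0 < t) (hη : 0 < η) (hη2 : η * (1 + b) ≤ 1 / 2) :
    NTc (fun w => F (w + t * ed b σ * (1 - I * (σ * η : ℝ)))) b x ≤
      ∑' k : ℕ, ENNReal.ofReal (η ^ k / k !) * NTc (Bk t (ed b σ) F k) b x := by
  rw [NTc]
  refine iSup_le fun z => iSup_le fun y => iSup_le fun h => ?_
  obtain ⟨hy, hz⟩ := h
  set e : ℂ := ed b σ with he
  set w : ℂ := (z : ℂ) + y * I with hw
  set w0 : ℂ := w + t * e with hw0
  set z1 : ℂ := w + t * e * (1 - I * (σ * η : ℝ)) with hz1
  have hwim : w.im = y := by rw [hw]; simp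
  have hw0im : w0.im = y + t := by
    rw [hw0, Complex.add_im, hwim, Complex.im_ofReal_mul, he, ed_im, mul_one]
  have hd : z1 - w0 = -(t * e * (I * (σ * η : ℝ))) := by
    rw [hz1, hw0]
    ring
  have hdn : ‖z1 - w0‖ = η * ‖(t : ℂ) * e‖ := by
    have hI : ‖I * ((σ * η : ℝ) : ℂ)‖ = η := by
      rw [norm_mul, Complex.norm_I, one_mul, Complex.norm_real, Real.norm_eq_abs, abs_mul, hσ,
        one_mul, abs_of_pos hη]
    rw [hd, norm_neg, norm_mul, hI, mul_comm]
  have hlt : ‖z1 - w0‖ < t := by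
    rw [hdn, norm_mul, Complex.norm_real, Real.norm_eq_abs, abs_of_pos ht]
    have h1 : ‖e‖ ≤ 1 + b := ed_norm b σ hb hσ
    have h2 : η * (t * ‖e‖) ≤ t * (η * (1 + b)) := by
      have : η * (t * ‖e‖) = t * (η * ‖e‖) := by ring
      rw [this]
      gcongr
    have h3 : t * (η * (1 + b)) ≤ t * (1 / 2) := by gcongr
    linarith
  obtain ⟨δ, M, hδ, hA⟩ := hF
  have hdiff : DifferentiableOn ℂ F (Metric.ball w0 t) := by
    intro v hv
    refine (hA v ?_).1.differentiableWithinAt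
    have h1 : |(v - w0).im| ≤ ‖v - w0‖ := Complex.abs_im_le_norm _
    have h2 : ‖v - w0‖ < t := by
      rw [← dist_eq_norm]
      exact Metric.mem_ball.1 hv
    have h3 := (abs_lt.1 (lt_of_le_of_lt h1 h2)).1
    rw [Complex.sub_im, hw0im] at h3
    linarith
  have hz1m : z1 ∈ Metric.ball w0 t := by
    rw [Metric.mem_ball, dist_eq_norm]
    exact hlt
  have hsum := Complex.hasSum_taylorSeries_on_ball hdiff hz1m
  have hnorm : ∀ n : ℕ, ‖((n ! : ℂ))⁻¹ • (z1 - w0) ^ n • iteratedDeriv n F w0‖ =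
      η ^ n / n ! * ‖Bk t e F n w‖ := by
    intro n
    have hB : ‖Bk t e F n w‖ = ‖(t : ℂ) * e‖ ^ n * ‖iteratedDeriv n F w0‖ := by
      show ‖((t : ℂ) * e) ^ n * iteratedDeriv n F (w + t * e)‖ = _
      rw [norm_mul ((((t : ℂ) * e)) ^ n), norm_pow ((t : ℂ) * e)]
    rw [norm_smul, norm_smul, norm_inv, norm_pow, Complex.norm_natCast, hdn, mul_pow, hB]
    ring
  have hs2 : Summable fun n : ℕ => ‖((n ! : ℂ))⁻¹ • (z1 - w0) ^ n • iteratedDeriv n F w0‖ :=
    hsum.summable.norm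
  have h6 : ‖F z1‖ ≤ ∑' n : ℕ, ‖((n ! : ℂ))⁻¹ • (z1 - w0) ^ n • iteratedDeriv n F w0‖ := by
    rw [← hsum.tsum_eq]
    exact norm_tsum_le_tsum_norm hs2
  have h7 : ENNReal.ofReal ‖F z1‖ ≤ ∑' n : ℕ, ENNReal.ofReal
      ‖((n ! : ℂ))⁻¹ • (z1 - w0) ^ n • iteratedDeriv n F w0‖ := by
    rw [← ENNReal.ofReal_tsum_of_nonneg (fun n => norm_nonneg _) hs2]
    exact ENNReal.ofReal_le_ofReal h6
  refine h7.trans (ENNReal.tsum_le_tsum fun n => ?_)
  rw [hnorm n, ENNReal.ofReal_mul (by positivity)]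
  gcongr
  exact le_NTc (Bk t e F n) b x z y hy hz

theorem coef (η C : ℝ) (hη : 0 < η) (hC : 1 ≤ C) (h : η * (12 * C) ≤ 1) (k : ℕ) :
    (2 : ℝ≥0∞) ^ k * ENNReal.ofReal (η ^ k / k !) *
      (ENNReal.ofReal ((k : ℝ) ^ k) * (ENNReal.ofReal C) ^ k) ≤ (2⁻¹) ^ k := by
  have hC0 : 0 < C := by linarith
  have e1 : (2 : ℝ≥0∞) ^ k = ENNReal.ofReal (2 ^ k) := by
    rw [ENNReal.ofReal_pow (by norm_num)]
    simp
  have e2 : (2⁻¹ : ℝ≥0∞) ^ k = ENNReal.ofReal ((1 / 2) ^ k) := by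
    rw [ENNReal.ofReal_pow (by norm_num), one_div, ENNReal.ofReal_inv_of_pos (by norm_num)]
    simp
  rw [e1, e2, ← ENNReal.ofReal_pow hC0.le, ← ENNReal.ofReal_mul (by positivity),
    ← ENNReal.ofReal_mul (by positivity), ← ENNReal.ofReal_mul (by positivity)]
  refine ENNReal.ofReal_le_ofReal ?_
  have h1 : (k : ℝ) ^ k / k ! ≤ Real.exp k := Real.pow_div_factorial_le_exp (k : ℝ) (Nat.cast_nonneg k) k
  have h2 : Real.exp k = (Real.exp 1) ^ k := by
    rw [← Real.exp_nat_mul, mul_one]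
  have h3 : Real.exp 1 ≤ 3 := by
    have := Real.exp_one_lt_d9
    linarith
  have h4 : (k : ℝ) ^ k / k ! ≤ 3 ^ k := by
    refine h1.trans ?_
    rw [h2]
    exact pow_le_pow_left₀ (Real.exp_pos 1).le h3 k
  calc 2 ^ k * (η ^ k / k !) * ((k : ℝ) ^ k * C ^ k)
      = (2 * η * C) ^ k * ((k : ℝ) ^ k / k !) := by
        rw [mul_pow, mul_pow]
        ring
    _ ≤ (2 * η * C) ^ k * 3 ^ k := by gcongr
    _ = (2 * η * C * 3) ^ k := by rw [← mul_pow]
    _ ≤ (1 / 2) ^ k := by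
        refine pow_le_pow_left₀ (by positivity) ?_ k
        nlinarith

end TayX

open TayX in
theorem stTay (hAnC : StAnC) (hGen : StGen) : StTay := by
  intro C0 b p hb hp
  obtain ⟨C, hC, hG⟩ := hGen C0 b p hb hp
  have hC0 : 0 < C := by linarith
  set η : ℝ := min (1 / (12 * C)) (1 / (2 * (1 + b))) with hηdef
  have hη : 0 < η := by
    rw [hηdef]
    exact lt_min (by positivity) (by positivity)
  have hη1 : η * (12 * C) ≤ 1 := by
    have h1 : η ≤ 1 / (12 * C) := min_le_left _ _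
    calc η * (12 * C) ≤ 1 / (12 * C) * (12 * C) := by gcongr
      _ = 1 := by field_simp
  have hη2 : η * (1 + b) ≤ 1 / 2 := by
    have h1 : η ≤ 1 / (2 * (1 + b)) := min_le_right _ _
    calc η * (1 + b) ≤ 1 / (2 * (1 + b)) * (1 + b) := by gcongr
      _ = 1 / 2 := by field_simp
  have hr : ((2⁻¹ : ℝ≥0∞)) ^ p < 1 := ENNReal.rpow_lt_one (by norm_num) hp
  have hK : (2 : ℝ≥0∞) ^ p * (1 - (2⁻¹ : ℝ≥0∞) ^ p)⁻¹ ≠ ∞ := by
    refine ENNReal.mul_ne_top (ENNReal.rpow_ne_top_of_nonneg hp.le (by norm_num)) ?_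
    refine ENNReal.inv_ne_top.2 ?_
    exact (tsub_pos_of_lt hr).ne'
  refine ⟨η, ((2 : ℝ≥0∞) ^ p * (1 - (2⁻¹ : ℝ≥0∞) ^ p)⁻¹).toNNReal, hη, hη2, ?_⟩
  intro U hU hS σ t F hσ ht hF hfin
  rw [ENNReal.coe_toNNReal hK]
  have hUm : AEMeasurable (fun x => ENNReal.ofReal (U x)) volume :=
    hU.2.aestronglyMeasurable.aemeasurable.ennreal_ofReal
  have hBm : ∀ k, AEMeasurable (fun x => (NTc (Bk t (ed b σ) F k) b x) ^ p) volume := by
    intro k
    have h1 := (hAnC _ (Bk_An hAnC t ht (ed b σ) (ed_im b σ) F hF k)).1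
    exact ((Crit.stNM _ b h1 hb.le).pow_const p).aemeasurable
  have hpt : ∀ x, (NTc (fun w => F (w + t * ed b σ * (1 - I * (σ * η : ℝ)))) b x) ^ p *
      ENNReal.ofReal (U x) ≤ ∑' k : ℕ, (2 ^ p * (2 ^ k * ENNReal.ofReal (η ^ k / k !)) ^ p) *
        ((NTc (Bk t (ed b σ) F k) b x) ^ p * ENNReal.ofReal (U x)) := by
    intro x
    have h1 := taylor F hF b σ t η x hb hσ ht hη hη2
    have h2 := (ENNReal.rpow_le_rpow h1 hp.le).trans (sum_pow _ p hp)
    calc _ ≤ (2 ^ p * ∑' k : ℕ, (2 ^ k * (ENNReal.ofReal (η ^ k / k !) *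
          NTc (Bk t (ed b σ) F k) b x)) ^ p) * ENNReal.ofReal (U x) := by gcongr
      _ = ∑' k : ℕ, (2 ^ p * (2 ^ k * ENNReal.ofReal (η ^ k / k !)) ^ p) *
        ((NTc (Bk t (ed b σ) F k) b x) ^ p * ENNReal.ofReal (U x)) := by
          rw [← ENNReal.tsum_mul_left, ← ENNReal.tsum_mul_right]
          refine tsum_congr fun k => ?_
          rw [← mul_assoc (2 ^ k), ENNReal.mul_rpow_of_nonneg _ _ hp.le]
          ring
  have hterm : ∀ k : ℕ, (2 ^ p * (2 ^ k * ENNReal.ofReal (η ^ k / k !)) ^ p) *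
      NI U (Bk t (ed b σ) F k) b p ≤ 2 ^ p * ((2⁻¹ : ℝ≥0∞) ^ p) ^ k * NI U F b p := by
    intro k
    have h1 := Bk_NI hAnC C0 b p C hb hp hC U (fun σ t F h1 h2 h3 h4 =>
      hG U hU hS σ t F h1 h2 h3 h4) σ t F hσ ht hF hfin k
    calc _ ≤ (2 ^ p * (2 ^ k * ENNReal.ofReal (η ^ k / k !)) ^ p) *
        ((ENNReal.ofReal ((k : ℝ) ^ k)) ^ p * ((ENNReal.ofReal C) ^ k) ^ p * NI U F b p) := by
          gcongr
      _ = 2 ^ p * (2 ^ k * ENNReal.ofReal (η ^ k / k !) *
        (ENNReal.ofReal ((k : ℝ) ^ k) * (ENNReal.ofReal C) ^ k)) ^ p * NI U F b p := by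
          rw [ENNReal.mul_rpow_of_nonneg (2 ^ k * ENNReal.ofReal (η ^ k / k !)) _ hp.le,
            ENNReal.mul_rpow_of_nonneg (ENNReal.ofReal ((k : ℝ) ^ k)) _ hp.le]
          ring
      _ ≤ 2 ^ p * ((2⁻¹ : ℝ≥0∞) ^ k) ^ p * NI U F b p := by
          gcongr
          exact coef η C hη hC hη1 k
      _ = 2 ^ p * ((2⁻¹ : ℝ≥0∞) ^ p) ^ k * NI U F b p := by
          rw [pow_rpow_comm]
  have hfinal : NI U (fun w => F (w + t * ed b σ * (1 - I * (σ * η : ℝ)))) b p ≤
      ∑' k : ℕ, (2 ^ p * (2 ^ k * ENNReal.ofReal (η ^ k / k !)) ^ p) *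
        NI U (Bk t (ed b σ) F k) b p := by
    rw [NI]
    refine (lintegral_mono hpt).trans ?_
    have hm : ∀ k : ℕ, AEMeasurable (fun x => (2 ^ p * (2 ^ k * ENNReal.ofReal (η ^ k / k !)) ^ p) *
        ((NTc (Bk t (ed b σ) F k) b x) ^ p * ENNReal.ofReal (U x))) volume := fun k =>
      ((hBm k).mul hUm).const_mul _
    rw [lintegral_tsum hm]
    refine ENNReal.tsum_le_tsum fun k => ?_
    rw [lintegral_const_mul' _ _ ?_]
    · exact le_rfl
    · refine ENNReal.mul_ne_top (ENNReal.rpow_ne_top_of_nonneg hp.le (by norm_num)) ?_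
      refine ENNReal.rpow_ne_top_of_nonneg hp.le ?_
      exact ENNReal.mul_ne_top (ENNReal.pow_ne_top (by norm_num)) ENNReal.ofReal_ne_top
  refine hfinal.trans ((ENNReal.tsum_le_tsum hterm).trans ?_)
  rw [ENNReal.tsum_mul_right, ENNReal.tsum_mul_left, ENNReal.tsum_geometric]

end Pool.Agent.Work.MP_055a27_an.Sg

end

section

set_option autoImplicit false

/-!
# Wide cones, item Fin: the a priori bound for families of tops with bounded heights
-/

open MeasureTheory Set Filter Topology Complex Metric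
open scoped ENNReal NNReal

namespace Pool.Agent.Work.MP_055a27_an.Wd

namespace FinA

lemma Dk_le {k : ℕ} {c γ x0 y d x : ℝ} (hk : 2 ≤ k) (hc : 0 < c) (hy : 0 < y) :
    Dk k c γ x0 y d x ≤ ((1 + |x - x0| / y) ^ 2)⁻¹ := by
  have h0 : 0 ≤ |x - x0| / y := by positivity
  have h1 : 1 ≤ 1 + |x - x0| / y := by linarith
  have h2 : (1 + |x - x0| / y) ^ (-(k : ℝ)) ≤ ((1 + |x - x0| / y) ^ 2)⁻¹ := by
    rw [Real.rpow_neg (by linarith), Real.rpow_natCast]
    exact inv_anti₀ (by positivity) (pow_le_pow_right₀ h1 hk)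
  have h3 : Real.exp (-(c * (1 + |x - x0| / y) ^ (-(γ + 1)) * max d 0)) ≤ 1 := by
    rw [Real.exp_le_one_iff]
    have : 0 ≤ c * (1 + |x - x0| / y) ^ (-(γ + 1)) * max d 0 := by positivity
    linarith
  unfold Dk
  calc _ ≤ ((1 + |x - x0| / y) ^ 2)⁻¹ * 1 := mul_le_mul h2 h3 (Real.exp_pos _).le (by positivity)
    _ = _ := mul_one _

/-- the cost of one top -/
lemma kt_le {k : ℕ} {c γ b L : ℝ} (u : ℂ → ℝ) (U : ℝ → ℝ) (hk : 2 ≤ k) (hc : 0 < c)
    (hL : 1 ≤ L) (t : ℤ × ℤ × ℝ) :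
    kt k c γ b L u U t ≤ ∫⁻ x : ℝ, ENNReal.ofReal ((1 + |x - t.2.2| / (L * (2 : ℝ) ^ t.1)) ^ 2)⁻¹ *
      (ENNReal.ofReal (Real.exp (-bv b u x)) * ENNReal.ofReal (U x)) := by
  unfold kt kap
  refine lintegral_mono fun x => ?_
  rw [← mul_assoc]
  refine mul_le_mul_left ?_ _
  rw [← ENNReal.ofReal_mul (by positivity), mul_comm (Real.exp _)]
  refine ENNReal.ofReal_le_ofReal ?_
  exact mul_le_mul_of_nonneg_right (Dk_le hk hc (by positivity)) (Real.exp_pos _).le

/-- two tops over the same dyadic interval have comparable values -/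
lemma top_le {b γ K L M : ℝ} {u : ℂ → ℝ} (hb : 0 < b) (hγ : 0 < γ) (hK : 1 ≤ K) (hL : 1 ≤ L)
    (hu : MonoC b u) (hg : Gro M γ K u) (i : ℤ) (x x' : ℝ) (hx : |x - x'| ≤ (2 : ℝ) ^ i)
    (hf : Fl M u x (L * (2 : ℝ) ^ i)) :
    u ((x' : ℂ) + ((L * (2 : ℝ) ^ i : ℝ) : ℂ) * I) ≤
      u ((x : ℂ) + ((L * (2 : ℝ) ^ i : ℝ) : ℂ) * I) + K * (1 + 1 / b) ^ γ := by
  have h2 : (0 : ℝ) < (2 : ℝ) ^ i := by positivity
  have hy : 0 < L * (2 : ℝ) ^ i := by positivity
  have hs : 0 ≤ (2 : ℝ) ^ i / b := by positivity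
  have h3 := hg x (L * (2 : ℝ) ^ i) ((2 : ℝ) ^ i / b) hy hs hf
  have h4 : u ((x' : ℂ) + ((L * (2 : ℝ) ^ i : ℝ) : ℂ) * I) ≤
      u ((x : ℂ) + ((L * (2 : ℝ) ^ i + (2 : ℝ) ^ i / b : ℝ) : ℂ) * I) := by
    have hz : ((x' : ℂ) + ((L * (2 : ℝ) ^ i : ℝ) : ℂ) * I) ∈ uhp := by
      simp only [uhp, mem_ofPred_eq, add_im, ofReal_im, mul_im, ofReal_re, I_im, I_re]
      linarith
    have he : (((x - x' : ℝ) : ℂ) + (((2 : ℝ) ^ i / b : ℝ) : ℂ) * I) ∈ Co b := by
      simp only [Co, mem_ofPred_eq, add_im, add_re, ofReal_im, mul_im, mul_re, ofReal_re, I_im,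
        I_re]
      have e1 : b * (0 + ((2 : ℝ) ^ i / b * 1 + 0 * 0)) = (2 : ℝ) ^ i := by
        field_simp
        ring
      rw [e1]
      simpa using hx
    have h5 := hu _ hz _ he
    have e2 : ((x' : ℂ) + ((L * (2 : ℝ) ^ i : ℝ) : ℂ) * I) +
        (((x - x' : ℝ) : ℂ) + (((2 : ℝ) ^ i / b : ℝ) : ℂ) * I) =
        (x : ℂ) + ((L * (2 : ℝ) ^ i + (2 : ℝ) ^ i / b : ℝ) : ℂ) * I := by
      push_cast
      ring
    rwa [e2] at h5
  have h6 : (1 + (2 : ℝ) ^ i / b / (L * (2 : ℝ) ^ i)) ^ γ ≤ (1 + 1 / b) ^ γ := by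
    refine Real.rpow_le_rpow (by positivity) ?_ hγ.le
    have e3 : (2 : ℝ) ^ i / b / (L * (2 : ℝ) ^ i) = 1 / b * (1 / L) := by
      field_simp
    rw [e3]
    have h7 : 1 / L ≤ 1 := by
      rw [div_le_one (by linarith)]
      exact hL
    have h8 : 0 < 1 / b := by positivity
    nlinarith
  have h9 : K * (1 + (2 : ℝ) ^ i / b / (L * (2 : ℝ) ^ i)) ^ γ ≤ K * (1 + 1 / b) ^ γ :=
    mul_le_mul_of_nonneg_left h6 (by linarith)
  linarith

/-- the number of tops over one dyadic interval -/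
lemma card_le {b γ K L M : ℝ} {u : ℂ → ℝ} (hb : 0 < b) (hγ : 0 < γ) (hK : 1 ≤ K) (hL : 1 ≤ L)
    (hu : MonoC b u) (hg : Gro M γ K u) {R : ℕ} {T : Finset (ℤ × ℤ × ℝ)} (hT : Fam L M R u T)
    (i k : ℤ) :
    ((T.filter fun t => t.1 = i ∧ t.2.1 = k).card : ℝ) ≤
      2 * (⌈K * (1 + 1 / b) ^ γ⌉ + 1) + 1 := by
  classical
  set B : ℤ := ⌈K * (1 + 1 / b) ^ γ⌉ + 1 with hB
  have hKb : 0 ≤ K * (1 + 1 / b) ^ γ := by positivity
  have hB0 : 0 ≤ B := by
    have : 0 ≤ ⌈K * (1 + 1 / b) ^ γ⌉ := Int.ceil_nonneg hKb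
    omega
  have hgoal : ((T.filter fun t => t.1 = i ∧ t.2.1 = k).card : ℤ) ≤ 2 * B + 1 := by
    rcases (T.filter fun t => t.1 = i ∧ t.2.1 = k).eq_empty_or_nonempty with h0 | ⟨t0, ht0⟩
    · rw [h0]
      simp only [Finset.card_empty, Nat.cast_zero]
      omega
    · have hmem : ∀ t ∈ T.filter fun t => t.1 = i ∧ t.2.1 = k,
          t ∈ T ∧ t.1 = i ∧ t.2.1 = k ∧ t.2.2 ∈ dy i k ∧ Fl M u t.2.2 (L * (2 : ℝ) ^ i) := by
        intro t ht
        rw [Finset.mem_filter] at ht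
        obtain ⟨h1, h2, h3⟩ := ht
        obtain ⟨-, -, h4, h5⟩ := hT.1 t h1
        rw [h2, h3] at h4
        rw [h2] at h5
        exact ⟨h1, h2, h3, h4, h5⟩
      have hlev : ∀ t ∈ T.filter (fun t => t.1 = i ∧ t.2.1 = k),
          ∀ t' ∈ T.filter (fun t => t.1 = i ∧ t.2.1 = k), lev L u t ≤ lev L u t' + B := by
        intro t ht t' ht'
        obtain ⟨-, h2, h3, h4, h5⟩ := hmem t ht
        obtain ⟨-, h2', h3', h4', h5'⟩ := hmem t' ht'
        have hd : |t.2.2 - t'.2.2| ≤ (2 : ℝ) ^ i := by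
          rw [dy, mem_Ico] at h4 h4'
          rw [abs_le]
          constructor <;> nlinarith
        have h6 := top_le hb hγ hK hL hu hg i t.2.2 t'.2.2 hd h5
        unfold lev
        rw [h2, h2']
        rw [Int.ceil_le]
        push_cast
        have h7 := Int.le_ceil (-u ((t'.2.2 : ℂ) + ((L * (2 : ℝ) ^ i : ℝ) : ℂ) * I))
        have h8 := Int.le_ceil (K * (1 + 1 / b) ^ γ)
        push_cast at h6 h7
        rw [hB]
        push_cast
        linarith
      have hinj : Set.InjOn (lev L u) (T.filter fun t => t.1 = i ∧ t.2.1 = k : Finset _) := by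
        intro t ht t' ht' he
        by_contra hne
        obtain ⟨h1, h2, h3, h4, h5⟩ := hmem t ht
        obtain ⟨h1', h2', h3', h4', h5'⟩ := hmem t' ht'
        have h6 := hT.2 t h1 t' h1' hne he
        rw [h2, h3, h2', h3', disjoint_self, Set.bot_eq_empty] at h6
        rw [h6] at h4
        exact h4
      have hmaps : ∀ t ∈ T.filter (fun t => t.1 = i ∧ t.2.1 = k),
          lev L u t ∈ Finset.Icc (lev L u t0 - B) (lev L u t0 + B) := by
        intro t ht
        rw [Finset.mem_Icc]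
        have h1 := hlev t ht t0 ht0
        have h2 := hlev t0 ht0 t ht
        omega
      have hc := Finset.card_le_card_of_injOn (lev L u) hmaps hinj
      rw [Int.card_Icc] at hc
      have : ((lev L u t0 + B + 1 - (lev L u t0 - B)).toNat : ℤ) = 2 * B + 1 := by
        rw [Int.toNat_of_nonneg (by omega)]
        ring
      omega
  have h := (Int.cast_le (R := ℝ)).mpr hgoal
  rw [hB] at h
  push_cast at h
  exact h

/-- the sum of `(1 + |q|) ^ (-2)` over the integers -/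
lemma summ : Summable fun q : ℤ => ((1 + |(q : ℝ)|) ^ 2)⁻¹ := by
  rw [summable_int_iff_summable_nat_and_neg]
  have h1 : Summable fun n : ℕ => (((n + 1 : ℕ) : ℝ) ^ 2)⁻¹ :=
    (summable_nat_add_iff 1).mpr (Real.summable_nat_pow_inv.mpr one_lt_two)
  have h2 : (fun n : ℕ => ((1 + |((n : ℤ) : ℝ)|) ^ 2)⁻¹) = fun n : ℕ =>
      (((n + 1 : ℕ) : ℝ) ^ 2)⁻¹ := by
    funext n
    push_cast
    rw [abs_of_nonneg (by positivity : (0 : ℝ) ≤ (n : ℝ)), add_comm]
  have h3 : (fun n : ℕ => ((1 + |((-(n : ℤ) : ℤ) : ℝ)|) ^ 2)⁻¹) = fun n : ℕ =>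
      (((n + 1 : ℕ) : ℝ) ^ 2)⁻¹ := by
    funext n
    push_cast
    rw [abs_neg, abs_of_nonneg (by positivity : (0 : ℝ) ≤ (n : ℝ)), add_comm]
  rw [h2, h3]
  exact ⟨h1, h1⟩

lemma sum_le (A : Finset ℤ) (m : ℤ) :
    ∑ q ∈ A, ((1 + |(q : ℝ) - m|) ^ 2)⁻¹ ≤ ∑' q : ℤ, ((1 + |(q : ℝ)|) ^ 2)⁻¹ := by
  have h1 : Summable fun q : ℤ => ((1 + |(q : ℝ) - m|) ^ 2)⁻¹ := by
    have h := (Equiv.subRight m).summable_iff.mpr summ
    refine h.congr fun q => ?_
    simp
  have h2 : ∑' q : ℤ, ((1 + |(q : ℝ) - m|) ^ 2)⁻¹ = ∑' q : ℤ, ((1 + |(q : ℝ)|) ^ 2)⁻¹ := by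
    rw [← (Equiv.subRight m).tsum_eq (fun q : ℤ => ((1 + |(q : ℝ)|) ^ 2)⁻¹)]
    refine tsum_congr fun q => ?_
    simp
  rw [← h2]
  exact h1.sum_le_tsum A fun q _ => by positivity

/-- one term of the sum -/
lemma term_le {L : ℝ} (hL : 1 ≤ L) (i k : ℤ) (x x' : ℝ) (hx : x' ∈ dy i k) :
    ((1 + |x - x'| / (L * (2 : ℝ) ^ i)) ^ 2)⁻¹ ≤
      4 * L ^ 2 * ((1 + |(k : ℝ) - (⌊x / (2 : ℝ) ^ i⌋ : ℤ)|) ^ 2)⁻¹ := by
  have h2 : (0 : ℝ) < (2 : ℝ) ^ i := by positivity
  have hm1 := Int.floor_le (x / (2 : ℝ) ^ i)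
  have hm2 := Int.lt_floor_add_one (x / (2 : ℝ) ^ i)
  generalize ⌊x / (2 : ℝ) ^ i⌋ = m at hm1 hm2
  rw [le_div_iff₀ h2] at hm1
  rw [div_lt_iff₀ h2] at hm2
  rw [dy, mem_Ico] at hx
  have h3 : (|(k : ℝ) - m| - 1) * (2 : ℝ) ^ i ≤ |x - x'| := by
    rcases abs_cases ((k : ℝ) - m) with ⟨h, _⟩ | ⟨h, _⟩
    · rw [h]
      have := neg_abs_le (x - x')
      nlinarith
    · rw [h]
      have := le_abs_self (x - x')
      nlinarith
  have h4 : (1 + |(k : ℝ) - m|) / (2 * L) ≤ 1 + |x - x'| / (L * (2 : ℝ) ^ i) := by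
    rw [div_le_iff₀ (by positivity)]
    have e1 : (1 + |x - x'| / (L * (2 : ℝ) ^ i)) * (2 * L) = 2 * L + 2 * (|x - x'| / (2 : ℝ) ^ i) := by
      field_simp
    rw [e1]
    have h5 : |(k : ℝ) - m| - 1 ≤ |x - x'| / (2 : ℝ) ^ i := (le_div_iff₀ h2).mpr h3
    have h6 : 0 ≤ |x - x'| / (2 : ℝ) ^ i := by positivity
    linarith
  have h5 : 0 < (1 + |(k : ℝ) - m|) / (2 * L) := by positivity
  calc ((1 + |x - x'| / (L * (2 : ℝ) ^ i)) ^ 2)⁻¹ ≤ (((1 + |(k : ℝ) - m|) / (2 * L)) ^ 2)⁻¹ :=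
        inv_anti₀ (by positivity) (pow_le_pow_left₀ h5.le h4 2)
    _ = 4 * L ^ 2 * ((1 + |(k : ℝ) - m|) ^ 2)⁻¹ := by
        rw [div_pow, inv_div]
        ring

/-- superadditivity of the lower integral for finite sums -/
lemma sum_lintegral_le {ι : Type} (T : Finset ι) (f : ι → ℝ → ℝ≥0∞) :
    ∑ t ∈ T, ∫⁻ x, f t x ≤ ∫⁻ x, ∑ t ∈ T, f t x := by
  classical
  induction T using Finset.induction_on with
  | empty => simp
  | insert a s ha ih =>
    rw [Finset.sum_insert ha]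
    simp only [Finset.sum_insert ha]
    refine (add_le_add le_rfl ih).trans ?_
    exact le_lintegral_add _ _

end FinA

theorem stFin (_hBv : StBv) : StFin := by
  classical
  intro b γ K c L μ k hb hγ hK hc hL _ hk
  set S : ℝ := ∑' q : ℤ, ((1 + |(q : ℝ)|) ^ 2)⁻¹ with hS
  have hS0 : 0 < S := by
    have h := FinA.summ.sum_le_tsum {0} (fun q _ => by positivity)
    simp only [Finset.sum_singleton, Int.cast_zero, abs_zero, add_zero, one_pow, inv_one] at h
    rw [← hS] at h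
    linarith
  set B : ℝ := 2 * (⌈K * (1 + 1 / b) ^ γ⌉ + 1) + 1 with hB
  have hB0 : 0 < B := by
    have h1 : (0 : ℝ) ≤ (⌈K * (1 + 1 / b) ^ γ⌉ : ℤ) := by
      exact_mod_cast Int.ceil_nonneg (by positivity)
    rw [hB]
    linarith
  refine ⟨B * (4 * L ^ 2) * S, by positivity, ?_⟩
  intro u U hu hg R T hT
  -- pointwise bound
  have hpt : ∀ x : ℝ, ∑ t ∈ T, ((1 + |x - t.2.2| / (L * (2 : ℝ) ^ t.1)) ^ 2)⁻¹ ≤
      B * (4 * L ^ 2) * S * (2 * R + 1) := by
    intro x
    have hm1 : ∀ t ∈ T, t.1 ∈ Finset.Icc (-(R : ℤ)) R := by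
      intro t ht
      rw [Finset.mem_Icc]
      exact ⟨(hT.1 t ht).1, (hT.1 t ht).2.1⟩
    rw [← Finset.sum_fiberwise_of_maps_to hm1]
    have hone : ∀ i ∈ Finset.Icc (-(R : ℤ)) R,
        ∑ t ∈ T with t.1 = i, ((1 + |x - t.2.2| / (L * (2 : ℝ) ^ t.1)) ^ 2)⁻¹ ≤
          B * (4 * L ^ 2) * S := by
      intro i _
      obtain ⟨A, hm2⟩ : ∃ A : Finset ℤ, ∀ t ∈ T.filter (fun t => t.1 = i), t.2.1 ∈ A :=
        ⟨(T.filter (fun t => t.1 = i)).image (fun t => t.2.1),
          fun t ht => Finset.mem_image_of_mem _ ht⟩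
      rw [← Finset.sum_fiberwise_of_maps_to hm2]
      calc ∑ q ∈ A,
            ∑ t ∈ T.filter (fun t => t.1 = i) with t.2.1 = q,
              ((1 + |x - t.2.2| / (L * (2 : ℝ) ^ t.1)) ^ 2)⁻¹
          ≤ ∑ q ∈ A,
              B * (4 * L ^ 2 * ((1 + |(q : ℝ) - (⌊x / (2 : ℝ) ^ i⌋ : ℤ)|) ^ 2)⁻¹) := by
            refine Finset.sum_le_sum fun q _ => ?_
            have hcard := FinA.card_le hb hγ hK hL hu.mono hg hT i q
            rw [← hB] at hcard
            rw [Finset.filter_filter]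
            calc _ ≤ ∑ t ∈ T.filter (fun t => t.1 = i ∧ t.2.1 = q),
                  4 * L ^ 2 * ((1 + |(q : ℝ) - (⌊x / (2 : ℝ) ^ i⌋ : ℤ)|) ^ 2)⁻¹ := by
                  refine Finset.sum_le_sum fun t ht => ?_
                  rw [Finset.mem_filter] at ht
                  obtain ⟨h1, h2, h3⟩ := ht
                  obtain ⟨-, -, h4, -⟩ := hT.1 t h1
                  rw [h2, h3] at h4
                  rw [h2]
                  exact FinA.term_le hL i q x t.2.2 h4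
              _ ≤ _ := by
                  rw [Finset.sum_const, nsmul_eq_mul]
                  exact mul_le_mul_of_nonneg_right hcard (by positivity)
        _ = B * (4 * L ^ 2) * ∑ q ∈ A,
              ((1 + |(q : ℝ) - (⌊x / (2 : ℝ) ^ i⌋ : ℤ)|) ^ 2)⁻¹ := by
            rw [Finset.mul_sum]
            refine Finset.sum_congr rfl fun q _ => ?_
            ring
        _ ≤ B * (4 * L ^ 2) * S :=
            mul_le_mul_of_nonneg_left (FinA.sum_le _ _) (by positivity)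
    calc _ ≤ ∑ i ∈ Finset.Icc (-(R : ℤ)) R, B * (4 * L ^ 2) * S := Finset.sum_le_sum hone
      _ = B * (4 * L ^ 2) * S * (2 * R + 1) := by
          rw [Finset.sum_const, Int.card_Icc, nsmul_eq_mul]
          have h1 : (((R : ℤ) + 1 - -(R : ℤ)).toNat : ℝ) = 2 * R + 1 := by
            have h2 : ((R : ℤ) + 1 - -(R : ℤ)).toNat = 2 * R + 1 := by omega
            rw [h2]
            push_cast
            ring
          rw [h1]
          ring
  -- integration
  calc ∑ t ∈ T, kt k c γ b L u U t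
      ≤ ∑ t ∈ T, ∫⁻ x : ℝ, ENNReal.ofReal ((1 + |x - t.2.2| / (L * (2 : ℝ) ^ t.1)) ^ 2)⁻¹ *
        (ENNReal.ofReal (Real.exp (-bv b u x)) * ENNReal.ofReal (U x)) :=
        Finset.sum_le_sum fun t _ => FinA.kt_le u U hk hc hL t
    _ ≤ ∫⁻ x : ℝ, ∑ t ∈ T, ENNReal.ofReal ((1 + |x - t.2.2| / (L * (2 : ℝ) ^ t.1)) ^ 2)⁻¹ *
        (ENNReal.ofReal (Real.exp (-bv b u x)) * ENNReal.ofReal (U x)) :=
        FinA.sum_lintegral_le T _
    _ ≤ ∫⁻ x : ℝ, ENNReal.ofReal (B * (4 * L ^ 2) * S * (2 * R + 1)) *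
        (ENNReal.ofReal (Real.exp (-bv b u x)) * ENNReal.ofReal (U x)) := by
        refine lintegral_mono fun x => ?_
        rw [← Finset.sum_mul, ← ENNReal.ofReal_sum_of_nonneg (fun t _ => by positivity)]
        exact mul_le_mul_left (ENNReal.ofReal_le_ofReal (hpt x)) _
    _ = ENNReal.ofReal (B * (4 * L ^ 2) * S * (2 * R + 1)) * XX b u U :=
        lintegral_const_mul' _ _ ENNReal.ofReal_ne_top

end Pool.Agent.Work.MP_055a27_an.Wd

end

section

/-!
# Item GR: properties of the gradient functional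
-/

set_option autoImplicit false

open MeasureTheory Set Filter Topology Complex Metric
open scoped ENNReal NNReal

namespace Pool.Agent.Work.MP_055a27_an.Wd

namespace GR

/-! ### The cone -/

theorem zero_mem_Co {b : ℝ} : (0 : ℂ) ∈ Co b := by
  simp [Co]

instance {b : ℝ} : Nonempty (Co b) := ⟨⟨0, zero_mem_Co⟩⟩

theorem im_nonneg {b : ℝ} (hb : 0 < b) {e : ℂ} (he : e ∈ Co b) : 0 ≤ e.im := by
  have h : |e.re| ≤ b * e.im := he
  have h2 := abs_nonneg e.re
  by_contra hc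
  push Not at hc
  nlinarith

theorem add_mem_Co {b : ℝ} {e e' : ℂ} (he : e ∈ Co b) (he' : e' ∈ Co b) : e + e' ∈ Co b := by
  have h : |e.re| ≤ b * e.im := he
  have h' : |e'.re| ≤ b * e'.im := he'
  show |(e + e').re| ≤ b * (e + e').im
  rw [add_re, add_im]
  calc |e.re + e'.re| ≤ |e.re| + |e'.re| := abs_add_le _ _
    _ ≤ b * (e.im + e'.im) := by linarith

theorem dl_nonneg {b : ℝ} {e : ℂ} (he : e ∈ Co b) : 0 ≤ dl b e := by
  have h : |e.re| ≤ b * e.im := he
  unfold dl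
  linarith

theorem dl_add {b : ℝ} {e e' : ℂ} (he : e ∈ Co b) : dl b e' ≤ dl b (e + e') := by
  have h : |e.re| ≤ b * e.im := he
  have h2 := abs_add_le e.re e'.re
  unfold dl
  rw [add_re, add_im]
  linarith

theorem dl_le {b : ℝ} {e : ℂ} : dl b e ≤ b * e.im := by
  unfold dl
  linarith [abs_nonneg e.re]

/-! ### The decaying factor -/

theorem normSq_add {R : ℝ} (ξ : ℂ) : ‖ξ + I * R‖ ^ 2 = ‖ξ‖ ^ 2 + 2 * R * ξ.im + R ^ 2 := by
  rw [← Complex.normSq_eq_norm_sq, ← Complex.normSq_eq_norm_sq, Complex.normSq_apply,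
    Complex.normSq_apply]
  simp
  ring

theorem ne_zero {R : ℝ} (hR : 0 < R) {ξ : ℂ} (hξ : 0 ≤ ξ.im) : ξ + I * R ≠ 0 := by
  intro h
  have h1 := congrArg Complex.im h
  simp at h1
  linarith

theorem norm_tau {R : ℝ} (hR : 0 < R) (ξ : ℂ) : ‖tau R ξ‖ = (R / ‖ξ + I * R‖) ^ 4 := by
  unfold tau
  rw [norm_pow, norm_div, norm_mul, Complex.norm_I, one_mul, Complex.norm_real,
    Real.norm_of_nonneg hR.le]

theorem tau_ne_zero {R : ℝ} (hR : 0 < R) {ξ : ℂ} (hξ : 0 ≤ ξ.im) : tau R ξ ≠ 0 := by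
  unfold tau
  refine pow_ne_zero _ (div_ne_zero ?_ (ne_zero hR hξ))
  exact mul_ne_zero I_ne_zero (by exact_mod_cast hR.ne')

theorem norm_tau_mono {R R' : ℝ} (hR : 0 < R) (hRR : R ≤ R') {ξ : ℂ} (hξ : 0 ≤ ξ.im) :
    ‖tau R ξ‖ ≤ ‖tau R' ξ‖ := by
  have hR' : 0 < R' := hR.trans_le hRR
  rw [norm_tau hR, norm_tau hR']
  have h1 : 0 < ‖ξ + I * R‖ := norm_pos_iff.2 (ne_zero hR hξ)
  have h2 : 0 < ‖ξ + I * R'‖ := norm_pos_iff.2 (ne_zero hR' hξ)
  refine pow_le_pow_left₀ (by positivity) ?_ 4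
  rw [div_le_div_iff₀ h1 h2]
  refine (sq_le_sq₀ (by positivity) (by positivity)).1 ?_
  rw [mul_pow, mul_pow, normSq_add, normSq_add]
  have h3 : 0 ≤ R' - R := by linarith
  have h4 : 0 ≤ ‖ξ‖ ^ 2 := by positivity
  have e : R' ^ 2 * (‖ξ‖ ^ 2 + 2 * R * ξ.im + R ^ 2) - R ^ 2 * (‖ξ‖ ^ 2 + 2 * R' * ξ.im + R' ^ 2)
      = (R' - R) * ((R' + R) * ‖ξ‖ ^ 2 + 2 * R * R' * ξ.im) := by ring
  have h5 : 0 ≤ (R' - R) * ((R' + R) * ‖ξ‖ ^ 2 + 2 * R * R' * ξ.im) := by positivity
  linarith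

theorem norm_tau_le {R : ℝ} (hR : 1 ≤ R) {ξ : ℂ} (hξ : 0 ≤ ξ.im) :
    ‖tau R ξ‖ * (1 + ‖ξ‖) ^ 4 ≤ 4 * R ^ 4 := by
  have hR0 : 0 < R := by linarith
  rw [norm_tau hR0]
  have h1 : 0 < ‖ξ + I * R‖ := norm_pos_iff.2 (ne_zero hR0 hξ)
  rw [div_pow, div_mul_eq_mul_div, div_le_iff₀ (by positivity)]
  have h2 : (1 + ‖ξ‖) ^ 2 ≤ 2 * ‖ξ + I * R‖ ^ 2 := by
    rw [normSq_add]
    have h3 : 0 ≤ 2 * R * ξ.im := by positivity
    have h4 : (0 : ℝ) ≤ ‖ξ‖ := norm_nonneg _
    nlinarith [sq_nonneg (1 - ‖ξ‖)]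
  have h5 : (1 + ‖ξ‖) ^ 4 ≤ 4 * ‖ξ + I * R‖ ^ 4 := by
    calc (1 + ‖ξ‖) ^ 4 = ((1 + ‖ξ‖) ^ 2) ^ 2 := by ring
      _ ≤ (2 * ‖ξ + I * R‖ ^ 2) ^ 2 := pow_le_pow_left₀ (by positivity) h2 2
      _ = 4 * ‖ξ + I * R‖ ^ 4 := by ring
  have h6 : 0 ≤ R ^ 4 := by positivity
  nlinarith

/-! ### The terms -/

/-- the term of the supremum -/
noncomputable def trm (b R : ℝ) (Φ : ℂ → ℂ) (z e : ℂ) : ℝ :=
  dl b e * ‖Φ (z + e) * tau R (z + e)‖

theorem GG_eq (b R : ℝ) (Φ : ℂ → ℂ) (z : ℂ) : GG b R Φ z = ⨆ e : Co b, trm b R Φ z e := rfl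

theorem trm_nonneg {b R : ℝ} {Φ : ℂ → ℂ} {z e : ℂ} (he : e ∈ Co b) : 0 ≤ trm b R Φ z e :=
  mul_nonneg (dl_nonneg he) (norm_nonneg _)

theorem trm_le {b R K : ℝ} (hb : 0 < b) (hR : 1 ≤ R) (hK : 1 ≤ K) {Φ : ℂ → ℂ}
    (hΦ : ∀ w : ℂ, 0 ≤ w.im → ‖Φ w‖ ≤ K * (1 + ‖w‖) ^ 2) {z e : ℂ} (hz : 0 ≤ z.im)
    (he : e ∈ Co b) : trm b R Φ z e ≤ 4 * b * K * R ^ 4 := by
  unfold trm
  have he0 := im_nonneg hb he
  set ξ := z + e with hξd
  have hξ : 0 ≤ ξ.im := by
    rw [hξd, add_im]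
    linarith
  have h1 : dl b e ≤ b * ‖ξ‖ := by
    have h2 := dl_le (b := b) (e := e)
    have h3 : e.im ≤ ‖ξ‖ := by
      have h4 : ξ.im ≤ ‖ξ‖ := (le_abs_self _).trans (Complex.abs_im_le_norm ξ)
      have h5 : ξ.im = z.im + e.im := by rw [hξd, add_im]
      linarith
    nlinarith
  have h2 := norm_tau_le hR hξ
  have h3 := hΦ ξ hξ
  rw [norm_mul]
  have h4 : (0 : ℝ) ≤ ‖ξ‖ := norm_nonneg _
  have h5 : (0 : ℝ) ≤ ‖tau R ξ‖ := norm_nonneg _
  have h6 : (0 : ℝ) ≤ ‖Φ ξ‖ := norm_nonneg _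
  calc dl b e * (‖Φ ξ‖ * ‖tau R ξ‖)
      ≤ (b * ‖ξ‖) * ((K * (1 + ‖ξ‖) ^ 2) * ‖tau R ξ‖) := by gcongr
    _ = b * K * (‖ξ‖ * (1 + ‖ξ‖) ^ 2 * ‖tau R ξ‖) := by ring
    _ ≤ b * K * ((1 + ‖ξ‖) ^ 2 * (1 + ‖ξ‖) ^ 2 * ‖tau R ξ‖) := by
        gcongr
        nlinarith
    _ = b * K * (‖tau R ξ‖ * (1 + ‖ξ‖) ^ 4) := by ring
    _ ≤ b * K * (4 * R ^ 4) := by gcongr
    _ = 4 * b * K * R ^ 4 := by ring

theorem bdd {b R K : ℝ} (hb : 0 < b) (hR : 1 ≤ R) (hK : 1 ≤ K) {Φ : ℂ → ℂ}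
    (hΦ : ∀ w : ℂ, 0 ≤ w.im → ‖Φ w‖ ≤ K * (1 + ‖w‖) ^ 2) {z : ℂ} (hz : 0 ≤ z.im) :
    BddAbove (range fun e : Co b => trm b R Φ z e) :=
  ⟨4 * b * K * R ^ 4, by
    rintro _ ⟨e, rfl⟩
    exact trm_le hb hR hK hΦ hz e.2⟩

theorem le_GG {b R K : ℝ} (hb : 0 < b) (hR : 1 ≤ R) (hK : 1 ≤ K) {Φ : ℂ → ℂ}
    (hΦ : ∀ w : ℂ, 0 ≤ w.im → ‖Φ w‖ ≤ K * (1 + ‖w‖) ^ 2) {z e : ℂ} (hz : 0 ≤ z.im)
    (he : e ∈ Co b) : trm b R Φ z e ≤ GG b R Φ z := by
  rw [GG_eq]
  exact le_ciSup (bdd hb hR hK hΦ hz) (⟨e, he⟩ : Co b)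

theorem GG_le_of {b R : ℝ} {Φ : ℂ → ℂ} {z : ℂ} {M : ℝ}
    (h : ∀ e ∈ Co b, trm b R Φ z e ≤ M) : GG b R Φ z ≤ M := by
  rw [GG_eq]
  exact ciSup_le fun e => h e e.2

theorem GG_pos {b R K : ℝ} (hb : 0 < b) (hR : 1 ≤ R) (hK : 1 ≤ K) {Φ : ℂ → ℂ}
    (hd : DifferentiableOn ℂ Φ {w | -K⁻¹ < w.im})
    (hΦ : ∀ w : ℂ, 0 ≤ w.im → ‖Φ w‖ ≤ K * (1 + ‖w‖) ^ 2) (hn : ∃ w ∈ uhp, Φ w ≠ 0) {z : ℂ}
    (hz : 0 ≤ z.im) : 0 < GG b R Φ z := by
  have hKi : 0 < K⁻¹ := by positivity
  have hR0 : 0 < R := by linarith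
  by_contra hc
  push Not at hc
  have hzero : ∀ e : ℂ, |e.re| < b * e.im → Φ (z + e) = 0 := by
    intro e he
    by_contra hne
    have he' : e ∈ Co b := he.le
    have he0 := im_nonneg hb he'
    have h1 : 0 < trm b R Φ z e := by
      unfold trm
      have h2 : 0 < dl b e := by
        unfold dl
        linarith
      have h3 : tau R (z + e) ≠ 0 := tau_ne_zero hR0 (by rw [add_im]; linarith)
      have h4 : Φ (z + e) * tau R (z + e) ≠ 0 := mul_ne_zero hne h3
      exact mul_pos h2 (norm_pos_iff.2 h4)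
    exact absurd (h1.trans_le (le_GG hb hR hK hΦ hz he')) (not_lt.2 hc)
  have hopen : IsOpen {w : ℂ | -K⁻¹ < w.im} := isOpen_lt continuous_const Complex.continuous_im
  have hconv : Convex ℝ {w : ℂ | -K⁻¹ < w.im} := convex_halfSpace_im_gt _
  have hA : AnalyticOnNhd ℂ Φ {w : ℂ | -K⁻¹ < w.im} := hd.analyticOnNhd hopen
  have hz1 : z + I ∈ {w : ℂ | -K⁻¹ < w.im} := by
    show -K⁻¹ < (z + I).im
    rw [add_im, I_im]
    linarith
  have hev : Φ =ᶠ[𝓝 (z + I)] 0 := by
    have hO : IsOpen {w : ℂ | |(w - z).re| < b * (w - z).im} := by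
      refine isOpen_lt ?_ ?_
      · exact (Complex.continuous_re.comp (continuous_id.sub continuous_const)).abs
      · exact continuous_const.mul
          (Complex.continuous_im.comp (continuous_id.sub continuous_const))
    have hm : z + I ∈ {w : ℂ | |(w - z).re| < b * (w - z).im} := by
      show |(z + I - z).re| < b * (z + I - z).im
      rw [add_sub_cancel_left, I_re, I_im]
      simpa using hb
    filter_upwards [hO.mem_nhds hm] with w hw
    have h5 := hzero (w - z) hw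
    rw [add_sub_cancel] at h5
    exact h5
  have hE := hA.eqOn_zero_of_preconnected_of_eventuallyEq_zero hconv.isPreconnected hz1 hev
  obtain ⟨w, hw, hne⟩ := hn
  have hw0 : 0 < w.im := hw
  exact hne (hE (show -K⁻¹ < w.im by linarith))

theorem GG_mono {b R K : ℝ} (hb : 0 < b) (hR : 1 ≤ R) (hK : 1 ≤ K) {Φ : ℂ → ℂ}
    (hΦ : ∀ w : ℂ, 0 ≤ w.im → ‖Φ w‖ ≤ K * (1 + ‖w‖) ^ 2) {z e : ℂ} (hz : 0 ≤ z.im)
    (he : e ∈ Co b) : GG b R Φ (z + e) ≤ GG b R Φ z := by
  refine GG_le_of fun e' he' => ?_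
  refine le_trans ?_ (le_GG hb hR hK hΦ hz (add_mem_Co he he'))
  unfold trm
  rw [add_assoc]
  exact mul_le_mul_of_nonneg_right (dl_add he) (norm_nonneg _)

/-! ### Semicontinuity -/

theorem diff_tau {R : ℝ} (hR : 0 < R) {ξ : ℂ} (hξ : 0 ≤ ξ.im) : DifferentiableAt ℂ (tau R) ξ := by
  unfold tau
  refine DifferentiableAt.pow (DifferentiableAt.div (differentiableAt_const _)
    (differentiableAt_id.add (differentiableAt_const _)) ?_) 4
  exact ne_zero hR hξ

theorem diff_A {b R K : ℝ} (hb : 0 < b) (hR : 1 ≤ R) (hK : 1 ≤ K) {Φ : ℂ → ℂ}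
    (hd : DifferentiableOn ℂ Φ {w | -K⁻¹ < w.im}) {z e : ℂ} (hz : 0 ≤ z.im) (he : e ∈ Co b) :
    DifferentiableAt ℂ (fun w => Φ (w + e) * tau R (w + e)) z := by
  have hKi : 0 < K⁻¹ := by positivity
  have he0 := im_nonneg hb he
  have hze : 0 ≤ (z + e).im := by
    rw [add_im]
    linarith
  have hopen : IsOpen {w : ℂ | -K⁻¹ < w.im} := isOpen_lt continuous_const Complex.continuous_im
  have h1 : DifferentiableAt ℂ Φ (z + e) :=
    hd.differentiableAt (hopen.mem_nhds (show -K⁻¹ < (z + e).im by linarith))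
  have h2 : DifferentiableAt ℂ (tau R) (z + e) := diff_tau (by linarith) hze
  have h3 : DifferentiableAt ℂ (fun w : ℂ => w + e) z :=
    differentiableAt_id.add (differentiableAt_const _)
  exact (DifferentiableAt.comp z (g := Φ) h1 h3).mul (DifferentiableAt.comp z (g := tau R) h2 h3)

theorem lsc {b R K : ℝ} (hb : 0 < b) (hR : 1 ≤ R) (hK : 1 ≤ K) {Φ : ℂ → ℂ}
    (hd : DifferentiableOn ℂ Φ {w | -K⁻¹ < w.im})
    (hΦ : ∀ w : ℂ, 0 ≤ w.im → ‖Φ w‖ ≤ K * (1 + ‖w‖) ^ 2) :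
    LowerSemicontinuousOn (GG b R Φ) {z | 0 ≤ z.im} := by
  refine lowerSemicontinuousOn_ciSup (f := fun (e : Co b) z => trm b R Φ z e)
    (fun z hz => bdd hb hR hK hΦ hz) (fun e => ?_)
  refine ContinuousOn.lowerSemicontinuousOn ?_
  intro z hz
  unfold trm
  exact ((diff_A hb hR hK hd hz e.2).continuousAt.norm.const_mul _).continuousWithinAt

theorem log_int {b R K : ℝ} (hb : 0 < b) (hR : 1 ≤ R) (hK : 1 ≤ K) {Φ : ℂ → ℂ}
    (hd : DifferentiableOn ℂ Φ {w | -K⁻¹ < w.im})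
    (hΦ : ∀ w : ℂ, 0 ≤ w.im → ‖Φ w‖ ≤ K * (1 + ‖w‖) ^ 2) (hn : ∃ w ∈ uhp, Φ w ≠ 0) {z : ℂ}
    {r : ℝ} (hr : 0 < r) (hrz : r < z.im) :
    IntegrableOn (fun w => Real.log (GG b R Φ w)) (ball z r) := by
  have him : ∀ w ∈ ball z r, 0 < w.im := by
    intro w hw
    rw [mem_ball, dist_eq_norm] at hw
    have h1 := (Complex.abs_im_le_norm (w - z)).trans hw.le
    rw [sub_im, abs_le] at h1
    linarith [h1.1]
  set z1 : ℂ := z + ((r * (1 + 1 / b) : ℝ) : ℂ) * I with hz1
  have hz1im : 0 ≤ z1.im := by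
    rw [hz1]
    simp only [add_im, mul_im, ofReal_re, I_im, mul_one, ofReal_im, I_re, mul_zero, add_zero]
    have : 0 < r * (1 + 1 / b) := by positivity
    linarith
  have hcone : ∀ w ∈ ball z r, z1 - w ∈ Co b := by
    intro w hw
    rw [mem_ball, dist_eq_norm, norm_sub_rev] at hw
    have h1 := (Complex.abs_im_le_norm (z - w)).trans hw.le
    have h2 := (Complex.abs_re_le_norm (z - w)).trans hw.le
    show |(z1 - w).re| ≤ b * (z1 - w).im
    have e1 : (z1 - w).re = (z - w).re := by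
      rw [hz1]
      simp
    have e2 : (z1 - w).im = (z - w).im + r * (1 + 1 / b) := by
      rw [hz1]
      simp
      ring
    rw [e1, e2]
    have h3 : b * ((z - w).im + r * (1 + 1 / b)) = b * ((z - w).im + r) + r := by
      field_simp
      ring
    rw [h3]
    have h4 : 0 ≤ (z - w).im + r := by
      rw [abs_le] at h1
      linarith [h1.1]
    have h5 : 0 ≤ b * ((z - w).im + r) := by positivity
    linarith
  have hmeas : AEStronglyMeasurable (fun w => Real.log (GG b R Φ w))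
      (volume.restrict (ball z r)) := by
    have h1 : LowerSemicontinuousOn (GG b R Φ) (ball z r) :=
      (lsc hb hR hK hd hΦ).mono fun w hw => (him w hw).le
    have h2 : Measurable fun w : ball z r => GG b R Φ w := by
      have h3 := (lowerSemicontinuous_restrict_iff.2 h1)
      exact h3.measurable
    exact (Real.measurable_log.comp_aemeasurable
      (aemeasurable_restrict_of_measurable_subtype measurableSet_ball h2)).aestronglyMeasurable
  refine IntegrableOn.of_bound measure_ball_lt_top hmeas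
    (max |Real.log (4 * b * K * R ^ 4)| |Real.log (GG b R Φ z1)|) ?_
  refine (ae_restrict_iff' measurableSet_ball).2 (Eventually.of_forall fun w hw => ?_)
  have hw0 := him w hw
  have hpos := GG_pos hb hR hK hd hΦ hn hw0.le
  have hpos1 := GG_pos hb hR hK hd hΦ hn hz1im
  have hle : GG b R Φ w ≤ 4 * b * K * R ^ 4 :=
    GG_le_of fun e he => trm_le hb hR hK hΦ hw0.le he
  have hge : GG b R Φ z1 ≤ GG b R Φ w := by
    have := GG_mono hb hR hK hΦ hw0.le (hcone w hw)
    rwa [add_sub_cancel] at this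
  have hlog1 : Real.log (GG b R Φ w) ≤ Real.log (4 * b * K * R ^ 4) := Real.log_le_log hpos hle
  have hlog2 : Real.log (GG b R Φ z1) ≤ Real.log (GG b R Φ w) := Real.log_le_log hpos1 hge
  rw [Real.norm_eq_abs, abs_le]
  constructor
  · have h1 := neg_abs_le (Real.log (GG b R Φ z1))
    have h2 := le_max_right |Real.log (4 * b * K * R ^ 4)| |Real.log (GG b R Φ z1)|
    linarith
  · have h1 := le_abs_self (Real.log (4 * b * K * R ^ 4))
    have h2 := le_max_left |Real.log (4 * b * K * R ^ 4)| |Real.log (GG b R Φ z1)|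
    linarith

end GR

open GR in
theorem stGR (hSubL : StSubL) : StGR := by
  intro b hb Φ K hd hK hΦ hn
  refine ⟨?_, ?_⟩
  · intro R R' hR hRR z hz
    refine GG_le_of fun e he => ?_
    refine le_trans ?_ (le_GG hb (hR.trans hRR) hK hΦ hz he)
    unfold trm
    have he0 := im_nonneg hb he
    rw [norm_mul, norm_mul]
    have h1 := norm_tau_mono (by linarith : 0 < R) hRR (ξ := z + e)
      (by rw [add_im]; linarith)
    exact mul_le_mul_of_nonneg_left (mul_le_mul_of_nonneg_left h1 (norm_nonneg _)) (dl_nonneg he)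
  intro R hR
  refine ⟨⟨4 * b * K * R ^ 4, fun z hz => ⟨bdd hb hR hK hΦ hz, ?_⟩⟩, ?_, ?_, ?_, ?_, ?_⟩
  · exact GG_le_of fun e he => trm_le hb hR hK hΦ hz he
  · exact fun z hz => GG_pos hb hR hK hd hΦ hn hz
  · exact fun z hz e he => GG_mono hb hR hK hΦ hz he
  · exact lsc hb hR hK hd hΦ
  · intro z hz s hs
    have he : ((s : ℂ) * I) ∈ Co b := by
      show |((s : ℂ) * I).re| ≤ b * ((s : ℂ) * I).im
      simp
      positivity
    have h1 := le_GG hb hR hK hΦ hz he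
    refine le_trans (le_of_eq ?_) h1
    unfold trm dl
    rw [norm_mul]
    simp
    ring
  · intro z hz r hr hrz
    have hz0 : 0 < z.im := hz
    have hpos := GG_pos hb hR hK hd hΦ hn hz0.le
    have hint := log_int hb hR hK hd hΦ hn hr hrz
    rw [Real.log_le_iff_le_exp hpos]
    refine GG_le_of fun e he => ?_
    have him : ∀ w ∈ closedBall z r, 0 < w.im := by
      intro w hw
      rw [mem_closedBall, dist_eq_norm] at hw
      have h1 := (Complex.abs_im_le_norm (w - z)).trans hw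
      rw [sub_im, abs_le] at h1
      linarith [h1.1]
    have h1 := hSubL (fun w => (dl b e : ℂ) * (Φ (w + e) * tau R (w + e))) z r
      (fun w => Real.log (GG b R Φ w)) hr ?_ hint ?_
    · refine le_trans (le_of_eq ?_) h1
      show _ = ‖(dl b e : ℂ) * (Φ (z + e) * tau R (z + e))‖
      rw [norm_mul, Complex.norm_real, Real.norm_of_nonneg (dl_nonneg he)]
      rfl
    · intro w hw
      exact ((differentiableAt_const _).mul
        (diff_A hb hR hK hd (him w hw).le he)).differentiableWithinAt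
    · intro w hw
      have hw0 := him w (ball_subset_closedBall hw)
      show ‖(dl b e : ℂ) * (Φ (w + e) * tau R (w + e))‖ ≤ Real.exp (Real.log (GG b R Φ w))
      rw [Real.exp_log (GG_pos hb hR hK hd hΦ hn hw0.le), norm_mul, Complex.norm_real,
        Real.norm_of_nonneg (dl_nonneg he)]
      exact le_GG hb hR hK hΦ hw0.le he

end Pool.Agent.Work.MP_055a27_an.Wd

end

section

/-!
# Properties of the glued function
-/

set_option autoImplicit false

open MeasureTheory Set Filter Topology Complex Metric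
open scoped ENNReal NNReal

namespace Pool.Agent.Work.MP_055a27_an.Wd

namespace Glu

lemma co_im_nonneg {b : ℝ} (hb : 0 < b) {e : ℂ} (he : e ∈ Co b) : 0 ≤ e.im := by
  have h1 : |e.re| ≤ b * e.im := he
  have h2 : 0 ≤ b * e.im := le_trans (abs_nonneg _) h1
  by_contra h
  push Not at h
  nlinarith

lemma co_smul {b : ℝ} {e : ℂ} (he : e ∈ Co b) {t : ℝ} (ht : 0 ≤ t) : (t : ℂ) * e ∈ Co b := by
  have h1 : |e.re| ≤ b * e.im := he
  show |((t : ℂ) * e).re| ≤ b * ((t : ℂ) * e).im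
  rw [Complex.re_ofReal_mul, Complex.im_ofReal_mul, abs_mul, abs_of_nonneg ht]
  calc t * |e.re| ≤ t * (b * e.im) := mul_le_mul_of_nonneg_left h1 ht
    _ = b * (t * e.im) := by ring

/-- The points near `w` lie below the point `w + T I`. -/
lemma cone_top {b : ℝ} (hb : 0 < b) {w z : ℂ} {T : ℝ} (hT : ‖z - w‖ ≤ b / (1 + b) * T) :
    w + (T : ℂ) * I - z ∈ Co b := by
  have h1 : |(w - z).re| ≤ ‖z - w‖ := by
    rw [norm_sub_rev]; exact Complex.abs_re_le_norm _
  have h2 : |(w - z).im| ≤ ‖z - w‖ := by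
    rw [norm_sub_rev]; exact Complex.abs_im_le_norm _
  have h3 : (w + (T : ℂ) * I - z).re = (w - z).re := by simp
  have h4 : (w + (T : ℂ) * I - z).im = T + (w - z).im := by simp; ring
  show |(w + (T : ℂ) * I - z).re| ≤ b * (w + (T : ℂ) * I - z).im
  rw [h3, h4]
  have h5 : -(b / (1 + b) * T) ≤ (w - z).im := by
    have := (abs_le.1 h2).1
    linarith
  have h6 : b * (T - b / (1 + b) * T) = b / (1 + b) * T := by
    field_simp
    ring
  have h7 : b * (T - b / (1 + b) * T) ≤ b * (T + (w - z).im) :=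
    mul_le_mul_of_nonneg_left (by linarith) hb.le
  linarith

/-- A positive lower semicontinuous function has a measurable version. -/
lemma meas_log {G : ℂ → ℝ} (hG0 : ∀ z : ℂ, 0 < z.im → 0 < G z)
    (hlsc : LowerSemicontinuousOn G uhp) :
    Measurable (uhp.indicator G) := by
  refine measurable_of_Ioi (fun c => ?_)
  by_cases hc : c < 0
  · have : (uhp.indicator G) ⁻¹' Ioi c = univ := by
      refine eq_univ_of_forall (fun z => ?_)
      show c < uhp.indicator G z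
      by_cases hz : z ∈ uhp
      · rw [indicator_of_mem hz]; exact hc.trans (hG0 z hz)
      · rw [indicator_of_notMem hz]; exact hc
    rw [this]; exact MeasurableSet.univ
  · push Not at hc
    have h1 : (uhp.indicator G) ⁻¹' Ioi c = {z | z ∈ uhp ∧ c < G z} := by
      ext z
      show c < uhp.indicator G z ↔ z ∈ uhp ∧ c < G z
      by_cases hz : z ∈ uhp
      · rw [indicator_of_mem hz]; exact ⟨fun h => ⟨hz, h⟩, fun h => h.2⟩
      · rw [indicator_of_notMem hz]
        exact ⟨fun h => absurd h (not_lt.2 hc), fun h => absurd h.1 hz⟩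
    rw [h1]
    refine IsOpen.measurableSet ?_
    rw [isOpen_iff_mem_nhds]
    rintro z ⟨hz, hcz⟩
    have h2 := hlsc z hz c hcz
    rw [IsOpen.nhdsWithin_eq isOpen_uhp hz] at h2
    filter_upwards [h2, isOpen_uhp.mem_nhds hz] with z' h3 h4
    exact ⟨h4, h3⟩

/-- `log G` is integrable on balls if it has an integrable majorant. -/
lemma int_log {b : ℝ} (hb : 0 < b) {G : ℂ → ℝ} (hG0 : ∀ z : ℂ, 0 < z.im → 0 < G z)
    (hmono : ∀ z : ℂ, 0 < z.im → ∀ e ∈ Co b, G (z + e) ≤ G z)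
    (hlsc : LowerSemicontinuousOn G uhp) {z : ℂ} {r : ℝ} (hr : 0 < r) (hrz : r < z.im)
    {g : ℂ → ℝ} (hg : IntegrableOn g (ball z r)) (hgG : ∀ w ∈ ball z r, Real.log (G w) ≤ g w) :
    IntegrableOn (fun w => Real.log (G w)) (ball z r) := by
  have hsub : ball z r ⊆ uhp := by
    intro w hw
    have h1 : ‖w - z‖ < r := by rw [← dist_eq_norm]; exact hw
    have h2 : |(w - z).im| ≤ ‖w - z‖ := Complex.abs_im_le_norm _
    have h3 := (abs_le.1 h2).1
    rw [Complex.sub_im] at h3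
    show 0 < w.im
    linarith
  set R : ℝ := r + r / b with hR
  have hzR : 0 < (z + (R : ℂ) * I).im := by
    have : (z + (R : ℂ) * I).im = z.im + R := by simp
    rw [this]
    have : 0 < r / b := by positivity
    linarith
  have hlow : ∀ w ∈ ball z r, G (z + (R : ℂ) * I) ≤ G w := by
    intro w hw
    have h1 : ‖w - z‖ < r := by rw [← dist_eq_norm]; exact hw
    have he : z + (R : ℂ) * I - w ∈ Co b := by
      have h2 : |(z - w).im| ≤ ‖w - z‖ := by rw [norm_sub_rev]; exact Complex.abs_im_le_norm _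
      have h3 : |(z - w).re| ≤ ‖w - z‖ := by rw [norm_sub_rev]; exact Complex.abs_re_le_norm _
      have h4 : (z + (R : ℂ) * I - w).re = (z - w).re := by simp
      have h5 : (z + (R : ℂ) * I - w).im = R + (z - w).im := by simp; ring
      show |(z + (R : ℂ) * I - w).re| ≤ b * (z + (R : ℂ) * I - w).im
      rw [h4, h5]
      have h6 := (abs_le.1 h2).1
      have h7 : r / b ≤ R + (z - w).im := by rw [hR]; linarith
      have h8 : b * (r / b) ≤ b * (R + (z - w).im) := mul_le_mul_of_nonneg_left h7 hb.le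
      rw [mul_div_cancel₀ r hb.ne'] at h8
      linarith
    have h2 := hmono w (hsub hw) _ he
    rwa [add_sub_cancel] at h2
  have hm := hG0 _ hzR
  have hmeas : AEStronglyMeasurable (fun w => Real.log (G w)) (volume.restrict (ball z r)) := by
    have h1 : AEStronglyMeasurable (fun w => Real.log (uhp.indicator G w))
        (volume.restrict (ball z r)) :=
      (Real.measurable_log.comp (meas_log hG0 hlsc)).aestronglyMeasurable
    refine h1.congr ?_
    filter_upwards [ae_restrict_mem measurableSet_ball] with w hw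
    rw [indicator_of_mem (hsub hw)]
  have hfin : volume (ball z r) ≠ ∞ := measure_ball_lt_top.ne
  have hint : IntegrableOn (fun w => |g w| + |Real.log (G (z + (R : ℂ) * I))|) (ball z r) :=
    hg.abs.add (integrableOn_const hfin)
  refine Integrable.mono' hint hmeas ?_
  filter_upwards [ae_restrict_mem measurableSet_ball] with w hw
  have h1 := hgG w hw
  have h2 : Real.log (G (z + (R : ℂ) * I)) ≤ Real.log (G w) := Real.log_le_log hm (hlow w hw)
  rw [Real.norm_eq_abs, abs_le]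
  have h3 := neg_abs_le (Real.log (G (z + (R : ℂ) * I)))
  have h4 := le_abs_self (g w)
  have h5 := abs_nonneg (g w)
  have h6 := abs_nonneg (Real.log (G (z + (R : ℂ) * I)))
  constructor <;> linarith

/-- Averages are monotone. -/
lemma avg_mono {f g : ℂ → ℝ} {z : ℂ} {r : ℝ} (hf : IntegrableOn f (ball z r))
    (hg : IntegrableOn g (ball z r)) (h : ∀ w ∈ ball z r, f w ≤ g w) :
    ⨍ w in ball z r, f w ≤ ⨍ w in ball z r, g w := by
  rw [setAverage_eq, setAverage_eq]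
  refine mul_le_mul_of_nonneg_left ?_ (by positivity)
  exact setIntegral_mono_on hf hg measurableSet_ball h

end Glu

theorem stGlu (hPk : StPk) (hSubM : StSubM) : StGlu := by
  intro b hb
  obtain ⟨CP, hCP, hpk⟩ := hPk b hb
  have hκ0 : 0 < b / (1 + b) := by positivity
  obtain ⟨J, hJ⟩ := pow_unbounded_of_one_lt
    (4096 * Real.exp (2 * CP) / ((b / (1 + b)) ^ 2 * b) + 1 / (b / (1 + b)))
    (one_lt_two : (1 : ℝ) < 2)
  refine ⟨J, 4 * Real.exp (2 * CP), ?_, ?_⟩
  · have := Real.one_le_exp (show (0 : ℝ) ≤ 2 * CP by linarith)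
    linarith
  intro G w j a hw ha hJj hG0 hmono hlsc hmean hbig
  obtain ⟨hC2, hMo, hcont, hlo, hax, hbd, -⟩ := hpk w.re w.im hw
  obtain ⟨κ, hκ⟩ : ∃ κ : ℝ, κ = b / (1 + b) := ⟨_, rfl⟩
  rw [← hκ] at hJ hκ0
  have hκ1 : κ < 1 := by rw [hκ, div_lt_one (by positivity)]; linarith
  have hX0 : (0 : ℝ) < 2 ^ j := by positivity
  have hXJ : (2 : ℝ) ^ J ≤ 2 ^ j := pow_le_pow_right₀ (by norm_num) hJj
  have hE0 : 0 < Real.exp (2 * CP) := Real.exp_pos _
  have hJ1 : 4096 * Real.exp (2 * CP) / (κ ^ 2 * b) ≤ 2 ^ j := by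
    have : 0 < 1 / κ := by positivity
    linarith
  have hJ2 : 1 / κ ≤ 2 ^ j := by
    have : 0 < 4096 * Real.exp (2 * CP) / (κ ^ 2 * b) := by positivity
    linarith
  obtain ⟨B, hB⟩ : ∃ B : ℝ, B = κ / 4 * 2 ^ j * w.im := ⟨_, rfl⟩
  have hB0 : 0 < B := by rw [hB]; positivity
  obtain ⟨h, hh⟩ : ∃ h : ℂ → ℝ, h = fun z => 4 * a * Real.exp (-2 * pk b w.re w.im z) :=
    ⟨_, rfl⟩
  have hhz : ∀ z, h z = 4 * a * Real.exp (-2 * pk b w.re w.im z) := fun z => by rw [hh]
  have hh0 : ∀ z, 0 < h z := fun z => by rw [hhz]; positivity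
  have hKin : ∀ z, ‖z - w‖ < B → KK b G w j a z = max (G z) (h z) := by
    intro z hz
    rw [hB, hκ] at hz
    rw [hhz, KK, if_pos hz]
  have hKout : ∀ z, B ≤ ‖z - w‖ → KK b G w j a z = G z := by
    intro z hz
    rw [hB, hκ] at hz
    rw [KK, if_neg (not_lt.2 hz)]
  have hww : (w.re : ℂ) + w.im * I = w := Complex.re_add_im w
  have hGK : ∀ z, G z ≤ KK b G w j a z := by
    intro z
    by_cases hz : ‖z - w‖ < B
    · rw [hKin z hz]; exact le_max_left _ _
    · rw [hKout z (not_lt.1 hz)]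
  -- the function `h`
  have hhmono : ∀ z ∈ uhp, ∀ e ∈ Co b, h (z + e) ≤ h z := by
    intro z hz e he
    rw [hhz, hhz]
    have h1 := hMo z hz e he
    refine mul_le_mul_of_nonneg_left (Real.exp_le_exp.2 (by linarith)) (by linarith)
  have hhw : a ≤ h w := by
    have h1 := hax w.im hw
    rw [hww, div_self hw.ne'] at h1
    have h2 : Real.exp (-2 * Real.log (1 + 1)) ≤ Real.exp (-2 * pk b w.re w.im w) :=
      Real.exp_le_exp.2 (by linarith)
    have h3 : Real.exp (-2 * Real.log (1 + 1)) = 1 / 4 := by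
      have : -2 * Real.log (1 + 1) = -Real.log 4 := by
        rw [show (4 : ℝ) = 2 ^ 2 by norm_num, Real.log_pow]; norm_num
      rw [this, Real.exp_neg, Real.exp_log (by norm_num)]; norm_num
    rw [h3] at h2
    rw [hhz]
    nlinarith
  have hhbd : ∀ z ∈ uhp, h z ≤ 4 * Real.exp (2 * CP) * a := by
    intro z hz
    rw [hhz]
    have h1 := hbd z hz
    have h2 : Real.exp (-2 * pk b w.re w.im z) ≤ Real.exp (2 * CP) :=
      Real.exp_le_exp.2 (by linarith)
    nlinarith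
  have hhdec : ∀ z ∈ uhp, h z * (1 + ‖z - w‖ / w.im) ^ 2 ≤ 4 * a * Real.exp (2 * CP) := by
    intro z hz
    have h1 := hlo z hz
    rw [hww] at h1
    have hs : 0 < 1 + ‖z - w‖ / w.im := by positivity
    have h2 : Real.exp (-2 * pk b w.re w.im z) ≤
        Real.exp (2 * CP) / (1 + ‖z - w‖ / w.im) ^ 2 := by
      have h3 : Real.exp (-2 * pk b w.re w.im z) ≤
          Real.exp (2 * CP - Real.log ((1 + ‖z - w‖ / w.im) ^ 2)) := by
        refine Real.exp_le_exp.2 ?_
        rw [Real.log_pow]; push_cast; linarith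
      rwa [Real.exp_sub, Real.exp_log (by positivity)] at h3
    rw [hhz]
    rw [le_div_iff₀ (by positivity)] at h2
    calc 4 * a * Real.exp (-2 * pk b w.re w.im z) * (1 + ‖z - w‖ / w.im) ^ 2
        = 4 * a * (Real.exp (-2 * pk b w.re w.im z) * (1 + ‖z - w‖ / w.im) ^ 2) := by ring
      _ ≤ 4 * a * Real.exp (2 * CP) := mul_le_mul_of_nonneg_left h2 (by linarith)
  -- points near `w` are in the cone below the top
  have htop : ∀ z, ‖z - w‖ ≤ 4 * B → w + (2 ^ j * w.im : ℝ) * I - z ∈ Co b := by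
    intro z hz
    refine Glu.cone_top hb ?_
    rw [← hκ]
    rw [hB] at hz
    linarith
  have hP : ∀ z ∈ uhp, B ≤ ‖z - w‖ → ‖z - w‖ ≤ 4 * B → h z ≤ G z := by
    intro z hz h1 h2
    have h3 := hmono z hz _ (htop z h2)
    rw [add_sub_cancel] at h3
    have h4 := hhdec z hz
    have h5 : κ / 4 * 2 ^ j ≤ 1 + ‖z - w‖ / w.im := by
      have : κ / 4 * 2 ^ j ≤ ‖z - w‖ / w.im := by
        rw [le_div_iff₀ hw, ← hB]; exact h1
      linarith
    have h6 : (κ / 4 * 2 ^ j) ^ 2 ≤ (1 + ‖z - w‖ / w.im) ^ 2 :=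
      pow_le_pow_left₀ (by positivity) h5 2
    have h7 : h z * (κ / 4 * 2 ^ j) ^ 2 ≤ 4 * a * Real.exp (2 * CP) :=
      le_trans (mul_le_mul_of_nonneg_left h6 (hh0 z).le) h4
    have h8 : h z ≤ b / 64 * a * (1 / 2) ^ j := by
      have h9 : 4096 * Real.exp (2 * CP) ≤ 2 ^ j * (κ ^ 2 * b) := by
        rwa [div_le_iff₀ (by positivity)] at hJ1
      have h10 : ((1 : ℝ) / 2) ^ j = 1 / 2 ^ j := by rw [one_div_pow]
      rw [h10]
      have h11 : 0 < κ ^ 2 * (2 ^ j) ^ 2 := by positivity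
      rw [← mul_le_mul_iff_left₀ h11]
      have h12 : b / 64 * a * (1 / 2 ^ j) * (κ ^ 2 * (2 ^ j) ^ 2) =
          a / 64 * (2 ^ j * (κ ^ 2 * b)) := by
        field_simp
      rw [h12]
      have h13 : h z * (κ ^ 2 * (2 ^ j) ^ 2) ≤ 64 * a * Real.exp (2 * CP) := by
        nlinarith [h7]
      have h14 : a / 64 * (4096 * Real.exp (2 * CP)) ≤ a / 64 * (2 ^ j * (κ ^ 2 * b)) :=
        mul_le_mul_of_nonneg_left h9 (by positivity)
      linarith
    linarith
  have hKh : ∀ z ∈ uhp, ‖z - w‖ ≤ 4 * B → h z ≤ KK b G w j a z := by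
    intro z hz h1
    by_cases h2 : ‖z - w‖ < B
    · rw [hKin z h2]; exact le_max_right _ _
    · rw [hKout z (not_lt.1 h2)]; exact hP z hz (not_lt.1 h2) h1
  refine ⟨?_, fun z _ => hGK z, ?_, ?_, ?_, ?_, ?_⟩
  · rw [hKin w (by simpa using hB0)]
    exact hhw.trans (le_max_right _ _)
  · intro z hz
    by_cases h1 : ‖z - w‖ < B
    · rw [hKin z h1]; exact max_le_max le_rfl (hhbd z hz)
    · rw [hKout z (not_lt.1 h1)]; exact le_max_left _ _
  · intro z hz
    by_cases h1 : ‖z - w‖ < B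
    · exact Or.inr (htop z (by linarith))
    · exact Or.inl (hKout z (not_lt.1 h1)).le
  · intro z hz e he
    have h0 : G (z + e) ≤ KK b G w j a z := (hmono z hz e he).trans (hGK z)
    by_cases h1 : ‖z + e - w‖ < B
    · rw [hKin _ h1]
      refine max_le h0 ?_
      by_cases h2 : ‖z - w‖ < B
      · exact (hhmono z hz e he).trans (hKh z hz (by linarith))
      · -- a point of the segment on the circle
        push Not at h2
        have hc : ContinuousOn (fun t : ℝ => ‖z + (t : ℂ) * e - w‖) (Icc 0 1) := by fun_prop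
        have h3 : B ∈ (fun t : ℝ => ‖z + (t : ℂ) * e - w‖) '' Icc 0 1 := by
          refine intermediate_value_Icc' (by norm_num) hc ⟨?_, ?_⟩
          · simpa using h1.le
          · simpa using h2
        obtain ⟨t, ⟨ht0, ht1⟩, ht⟩ := h3
        have hz1 : z + (t : ℂ) * e ∈ uhp := by
          have h4 := Glu.co_im_nonneg hb he
          have h5 : (z + (t : ℂ) * e).im = z.im + t * e.im := by simp
          have h6 : 0 < z.im := hz
          show 0 < (z + (t : ℂ) * e).im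
          rw [h5]
          have := mul_nonneg ht0 h4
          linarith
        have h4 : h (z + e) ≤ h (z + (t : ℂ) * e) := by
          have h5 := hhmono _ hz1 _ (Glu.co_smul he (show 0 ≤ 1 - t by linarith))
          have h6 : z + (t : ℂ) * e + ((1 - t : ℝ) : ℂ) * e = z + e := by
            push_cast; ring
          rwa [h6] at h5
        have h5 : h (z + (t : ℂ) * e) ≤ G (z + (t : ℂ) * e) :=
          hP _ hz1 (le_of_eq ht.symm) (by rw [show ‖z + (t : ℂ) * e - w‖ = B from ht]; linarith)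
        have h6 := hmono z hz _ (Glu.co_smul he ht0)
        have h7 := hGK z
        linarith
    · rw [hKout _ (not_lt.1 h1)]; exact h0
  · intro z hz c hc
    have hcG : c < G z → ∀ᶠ z' in 𝓝[uhp] z, c < KK b G w j a z' := by
      intro h1
      filter_upwards [hlsc z hz c h1] with z' h2
      exact h2.trans_le (hGK z')
    by_cases h1 : ‖z - w‖ < B
    · rw [hKin z h1] at hc
      rcases lt_max_iff.1 hc with h2 | h2
      · exact hcG h2
      · have h3 : ContinuousWithinAt h uhp z := by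
          rw [hh]
          exact ((Real.continuous_exp.continuousAt.comp_continuousWithinAt
            ((hcont z hz).const_mul (-2 : ℝ))).const_mul (4 * a))
        have h4 : ∀ᶠ z' in 𝓝[uhp] z, c < h z' := h3.eventually (lt_mem_nhds h2)
        have h5 : ∀ᶠ z' in 𝓝[uhp] z, ‖z' - w‖ < B := by
          have : ContinuousWithinAt (fun z' : ℂ => ‖z' - w‖) uhp z := by fun_prop
          exact this.eventually (gt_mem_nhds h1)
        filter_upwards [h4, h5] with z' h6 h7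
        rw [hKin z' h7]
        exact h6.trans_le (le_max_right _ _)
    · rw [hKout z (not_lt.1 h1)] at hc
      exact hcG hc
  · intro z hz r hr hrz g hg hgK
    have hz0 : 0 < z.im := hz
    have hrz' : r < z.im := by linarith
    have hsub : closedBall z r ⊆ uhp := by
      intro z' hz'
      have h1 : ‖z' - z‖ ≤ r := by rw [← dist_eq_norm]; exact hz'
      have h2 : |(z' - z).im| ≤ ‖z' - z‖ := Complex.abs_im_le_norm _
      have h3 := (abs_le.1 h2).1
      rw [Complex.sub_im] at h3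
      show 0 < z'.im
      linarith
    have hGg : ∀ w' ∈ ball z r, Real.log (G w') ≤ g w' := by
      intro w' hw'
      have h1 := hG0 w' (hsub (ball_subset_closedBall hw'))
      exact (Real.log_le_log h1 (hGK w')).trans (hgK w' hw')
    by_cases hcase : KK b G w j a z = G z
    · rw [hcase]
      refine (hmean z hz r hr hrz').trans ?_
      exact Glu.avg_mono (Glu.int_log hb hG0 hmono hlsc hr hrz' hg hGg) hg hGg
    · have h1 : ‖z - w‖ < B := by
        by_contra h1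
        exact hcase (hKout z (not_lt.1 h1))
      have h2 : KK b G w j a z = h z := by
        rw [hKin z h1] at hcase ⊢
        rcases le_total (G z) (h z) with h3 | h3
        · exact max_eq_right h3
        · exact absurd (max_eq_left h3) hcase
      rw [h2]
      have h3 : ∀ w' ∈ ball z r, Real.log (h w') ≤ g w' := by
        intro w' hw'
        have hw'u := hsub (ball_subset_closedBall hw')
        refine le_trans ?_ (hgK w' hw')
        refine Real.log_le_log (hh0 w') (hKh w' hw'u ?_)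
        have h4 : ‖w' - z‖ < r := by rw [← dist_eq_norm]; exact hw'
        have h5 : ‖w' - w‖ ≤ ‖w' - z‖ + ‖z - w‖ := by
          have := norm_add_le (w' - z) (z - w)
          rwa [sub_add_sub_cancel] at this
        have h6 : z.im ≤ w.im + B := by
          have h7 : |(z - w).im| ≤ ‖z - w‖ := Complex.abs_im_le_norm _
          have h8 := (abs_le.1 h7).2
          rw [Complex.sub_im] at h8
          linarith
        have h7 : w.im ≤ 4 * B := by
          have h8 : 1 ≤ 2 ^ j * κ := by rwa [div_le_iff₀ hκ0] at hJ2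
          rw [hB]
          nlinarith
        linarith
      have hlogh : ∀ w', Real.log (h w') = Real.log (4 * a) - 2 * pk b w.re w.im w' := by
        intro w'
        rw [hhz, Real.log_mul (by positivity) (Real.exp_ne_zero _), Real.log_exp]
        ring
      have hpint : IntegrableOn (pk b w.re w.im) (ball z r) :=
        ((hcont.mono hsub).integrableOn_compact (isCompact_closedBall z r)).mono_set
          ball_subset_closedBall
      have hfin : volume (ball z r) ≠ ∞ := measure_ball_lt_top.ne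
      have hlint : IntegrableOn (fun w' => Real.log (h w')) (ball z r) := by
        have : (fun w' => Real.log (h w')) =
            fun w' => Real.log (4 * a) - 2 * pk b w.re w.im w' := by
          funext w'; exact hlogh w'
        rw [this]
        exact (integrableOn_const hfin).sub (hpint.const_mul 2)
      refine le_trans ?_ (Glu.avg_mono hlint hg h3)
      have h4 := hSubM (pk b w.re w.im) hC2 z hz r hr hrz'
      have hvol : volume.real (ball z r) ≠ 0 := by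
        rw [Measure.real, ENNReal.toReal_ne_zero]
        exact ⟨(measure_ball_pos volume z hr).ne', hfin⟩
      have h5 : ⨍ w' in ball z r, Real.log (h w') =
          Real.log (4 * a) - 2 * ⨍ w' in ball z r, pk b w.re w.im w' := by
        have : (fun w' => Real.log (h w')) =
            fun w' => Real.log (4 * a) - 2 * pk b w.re w.im w' := by
          funext w'; exact hlogh w'
        have hc : IntegrableOn (fun _ : ℂ => Real.log (4 * a)) (ball z r) :=
          integrableOn_const hfin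
        have hi : ∫ w' in ball z r, (Real.log (4 * a) - 2 * pk b w.re w.im w') =
            volume.real (ball z r) * Real.log (4 * a) -
              2 * ∫ w' in ball z r, pk b w.re w.im w' := by
          rw [integral_sub hc (hpint.const_mul 2), integral_const_mul, setIntegral_const,
            smul_eq_mul]
        rw [this, setAverage_eq, setAverage_eq, hi, smul_eq_mul, smul_eq_mul]
        field_simp
      rw [h5, hlogh]
      linarith

end Pool.Agent.Work.MP_055a27_an.Wd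

end

section

/-!
# Item Hfu: the Poisson integral of the counting function
-/

set_option autoImplicit false

open MeasureTheory Set Filter Topology Complex Metric
open scoped ENNReal NNReal

namespace Pool.Agent.Work.MP_055a27_an.Wd

namespace Hfu

/-- the kernel -/
noncomputable def kr (z y t : ℝ) : ℝ := 1 / ((z - t) ^ 2 + y ^ 2)

lemma kr_nonneg (z y t : ℝ) : 0 ≤ kr z y t := by
  unfold kr; positivity

lemma kr_int (z : ℝ) {y : ℝ} (hy : 0 < y) : Integrable (kr z y) := integrable_kernel hy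

lemma kr_cmp {x z y b t : ℝ} (hy : 0 < y) (h : |x - z| ≤ b * y) :
    kr z y t ≤ (2 * b ^ 2 + 2) * kr x y t := by
  unfold kr
  have h1 : 0 < (z - t) ^ 2 + y ^ 2 := by positivity
  have h2 : 0 < (x - t) ^ 2 + y ^ 2 := by positivity
  rw [mul_one_div, div_le_div_iff₀ h1 h2]
  have h3 : (x - z) ^ 2 ≤ (b * y) ^ 2 := by
    rw [← sq_abs (x - z)]
    exact pow_le_pow_left₀ (abs_nonneg _) h 2
  have h4 : (x - t) ^ 2 ≤ 2 * (x - z) ^ 2 + 2 * (z - t) ^ 2 := by
    nlinarith [sq_nonneg ((x - z) - (z - t))]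
  nlinarith [mul_nonneg (sq_nonneg b) (sq_nonneg (z - t)), sq_nonneg y, sq_nonneg (z - t)]

lemma kr_dyadic (x t : ℝ) {y : ℝ} (hy : 0 < y) :
    ENNReal.ofReal (kr x y t) ≤ ∑' n : ℕ, ENNReal.ofReal (4 * (1 / 4) ^ n / y ^ 2) *
      (Ioo (x - 2 ^ n * y) (x + 2 ^ n * y)).indicator (fun _ => (1 : ℝ≥0∞)) t := by
  have hex : ∃ n : ℕ, |t - x| < 2 ^ n * y := by
    obtain ⟨n, hn⟩ := pow_unbounded_of_one_lt (|t - x| / y) (one_lt_two)
    exact ⟨n, by rwa [div_lt_iff₀ hy] at hn⟩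
  classical
  set n := Nat.find hex with hn
  have h1 : |t - x| < 2 ^ n * y := Nat.find_spec hex
  refine le_trans ?_ (ENNReal.le_tsum n)
  have h2 : t ∈ Ioo (x - 2 ^ n * y) (x + 2 ^ n * y) := by
    rw [abs_lt] at h1
    exact ⟨by linarith [h1.1], by linarith [h1.2]⟩
  rw [indicator_of_mem h2, mul_one]
  apply ENNReal.ofReal_le_ofReal
  unfold kr
  rcases Nat.eq_zero_or_pos n with h0 | h0
  · rw [h0, pow_zero, mul_one]
    rw [div_le_div_iff₀ (by positivity) (by positivity)]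
    nlinarith [sq_nonneg (x - t), sq_nonneg y]
  · obtain ⟨k, hk⟩ : ∃ k, n = k + 1 := ⟨n - 1, by omega⟩
    have h3 : ¬ |t - x| < 2 ^ k * y := Nat.find_min hex (by omega)
    push Not at h3
    have h4 : (2 ^ k * y) ^ 2 ≤ (x - t) ^ 2 := by
      rw [← sq_abs (x - t), abs_sub_comm]
      exact pow_le_pow_left₀ (by positivity) h3 2
    have h5 : (4 : ℝ) * (1 / 4) ^ n / y ^ 2 = 1 / (2 ^ k * y) ^ 2 := by
      rw [hk, mul_pow, ← pow_mul, mul_comm k 2, pow_mul, pow_succ]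
      norm_num
      field_simp
      rw [← mul_pow]
      norm_num
    rw [h5]
    exact one_div_le_one_div_of_le (by positivity) (by nlinarith [sq_nonneg y])

/-- the integral over a set which has small density at all scales -/
lemma small {O : Set ℝ} {x z y b δ : ℝ} (hy : 0 < y) (hδ : 0 ≤ δ)
    (h : |x - z| ≤ b * y)
    (hv : ∀ s : ℝ, 0 < s → volume (O ∩ Ioo (x - s) (x + s)) ≤ ENNReal.ofReal (20 * δ * s)) :
    ∫ t in O, kr z y t ≤ (2 * b ^ 2 + 2) * (160 * δ / y) := by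
  have h1 : ∫ t in O, kr x y t ≤ 160 * δ / y := by
    rw [← ENNReal.ofReal_le_ofReal_iff (by positivity),
      ofReal_integral_eq_lintegral_ofReal (kr_int x hy).integrableOn
        (Eventually.of_forall fun t => kr_nonneg x y t)]
    calc ∫⁻ t in O, ENNReal.ofReal (kr x y t)
        ≤ ∫⁻ t in O, ∑' n : ℕ, ENNReal.ofReal (4 * (1 / 4) ^ n / y ^ 2) *
            (Ioo (x - 2 ^ n * y) (x + 2 ^ n * y)).indicator (fun _ => (1 : ℝ≥0∞)) t :=
          lintegral_mono fun t => kr_dyadic x t hy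
      _ = ∑' n : ℕ, ENNReal.ofReal (4 * (1 / 4) ^ n / y ^ 2) *
            volume (O ∩ Ioo (x - 2 ^ n * y) (x + 2 ^ n * y)) := by
          rw [lintegral_tsum]
          · congr 1
            funext n
            rw [lintegral_const_mul _ (measurable_const.indicator measurableSet_Ioo),
              lintegral_indicator measurableSet_Ioo, setLIntegral_one,
              Measure.restrict_apply measurableSet_Ioo, inter_comm]
          · intro n
            exact (measurable_const.mul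
              (measurable_const.indicator measurableSet_Ioo)).aemeasurable
      _ ≤ ∑' n : ℕ, ENNReal.ofReal ((80 * δ / y) * (1 / 2) ^ n) := by
          refine ENNReal.tsum_le_tsum fun n => ?_
          refine (mul_le_mul_right (hv (2 ^ n * y) (by positivity)) _).trans ?_
          rw [← ENNReal.ofReal_mul (by positivity)]
          apply ENNReal.ofReal_le_ofReal
          apply le_of_eq
          have h2 : ((1 : ℝ) / 4) ^ n * 2 ^ n = (1 / 2) ^ n := by
            rw [← mul_pow]; norm_num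
          calc (4 : ℝ) * (1 / 4) ^ n / y ^ 2 * (20 * δ * (2 ^ n * y))
              = 80 * δ * ((1 / 4) ^ n * 2 ^ n) * (y / y ^ 2) := by ring
            _ = 80 * δ * (1 / 2) ^ n * (1 / y) := by
                rw [h2]; congr 1; field_simp
            _ = (80 * δ / y) * (1 / 2) ^ n := by ring
      _ = ENNReal.ofReal (160 * δ / y) := by
          rw [← ENNReal.ofReal_tsum_of_nonneg (fun n => by positivity)
            (summable_geometric_two.mul_left _), tsum_mul_left, tsum_geometric_two]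
          congr 1
          ring
  calc ∫ t in O, kr z y t ≤ ∫ t in O, (2 * b ^ 2 + 2) * kr x y t :=
        integral_mono (kr_int z hy).integrableOn ((kr_int x hy).integrableOn.const_mul _)
          (fun t => kr_cmp hy h)
    _ = (2 * b ^ 2 + 2) * ∫ t in O, kr x y t := integral_const_mul _ _
    _ ≤ _ := mul_le_mul_of_nonneg_left h1 (by positivity)

/-- the integral over a set which is far away -/
lemma far {S : Set ℝ} (hS : MeasurableSet S) {x z y b ρ : ℝ} (hy : 0 < y) (hρ : 0 < ρ)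
    (h : |x - z| ≤ b * y) (hfar : ∀ t ∈ S, ρ ≤ |x - t|) :
    ∫ t in S, kr z y t ≤ (2 * b ^ 2 + 2) * (2 * Real.pi / ρ) := by
  have h1 : ∫ t in S, kr z y t ≤ ∫ t in S, (2 * b ^ 2 + 2) * 2 * kr x ρ t := by
    refine setIntegral_mono_on (kr_int z hy).integrableOn
      ((kr_int x hρ).integrableOn.const_mul _) hS fun t ht => ?_
    refine (kr_cmp hy h).trans ?_
    rw [mul_assoc]
    refine mul_le_mul_of_nonneg_left ?_ (by positivity)
    unfold kr
    rw [mul_one_div, div_le_div_iff₀ (by positivity) (by positivity)]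
    have h2 : ρ ^ 2 ≤ (x - t) ^ 2 := by
      rw [← sq_abs (x - t)]
      exact pow_le_pow_left₀ hρ.le (hfar t ht) 2
    nlinarith [sq_nonneg y]
  refine h1.trans ?_
  rw [integral_const_mul, mul_assoc]
  refine mul_le_mul_of_nonneg_left ?_ (by positivity)
  have h3 : ∫ t in S, kr x ρ t ≤ ∫ t, kr x ρ t :=
    setIntegral_le_integral (kr_int x hρ) (Eventually.of_forall fun t => kr_nonneg x ρ t)
  have h4 : ∫ t, kr x ρ t = Real.pi / ρ := integral_kernel hρ
  rw [h4] at h3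
  calc 2 * ∫ t in S, kr x ρ t ≤ 2 * (Real.pi / ρ) := by linarith
    _ = 2 * Real.pi / ρ := by ring

lemma cnt_nonneg (O : ℕ → Set ℝ) (m : ℕ) (t : ℝ) : 0 ≤ cnt O m t :=
  Finset.sum_nonneg fun _ _ => indicator_nonneg (fun _ _ => zero_le_one) _

lemma cnt_le (O : ℕ → Set ℝ) (m : ℕ) (t : ℝ) : cnt O m t ≤ m + 1 := by
  have h : ∀ j ∈ Finset.range (m + 1), (O j)ᶜ.indicator (fun _ => (1 : ℝ)) t ≤ 1 := by
    intro j _
    exact indicator_le_self' (fun _ _ => zero_le_one) t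
  have h2 := Finset.sum_le_card_nsmul _ _ _ h
  rw [Finset.card_range, nsmul_eq_mul, mul_one] at h2
  push_cast at h2
  exact h2

lemma cnt_meas {O : ℕ → Set ℝ} (hO : ∀ j, MeasurableSet (O j)) (m : ℕ) : Measurable (cnt O m) := by
  unfold cnt
  exact Finset.measurable_sum _ fun j _ => measurable_const.indicator (hO j).compl

lemma cnt_int {O : ℕ → Set ℝ} (hO : ∀ j, MeasurableSet (O j)) (m : ℕ) (z : ℝ) {y : ℝ}
    (hy : 0 < y) : ∫ t, cnt O m t * kr z y t =
      ∑ j ∈ Finset.range (m + 1), ∫ t in (O j)ᶜ, kr z y t := by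
  unfold cnt
  simp only [Finset.sum_mul]
  have h1 : ∀ j, (fun t => (O j)ᶜ.indicator (fun _ => (1 : ℝ)) t * kr z y t) =
      (O j)ᶜ.indicator (kr z y) := by
    intro j
    funext t
    by_cases ht : t ∈ (O j)ᶜ
    · rw [indicator_of_mem ht, indicator_of_mem ht, one_mul]
    · rw [indicator_of_notMem ht, indicator_of_notMem ht, zero_mul]
  rw [integral_finsetSum]
  · refine Finset.sum_congr rfl fun j _ => ?_
    rw [h1 j, integral_indicator (hO j).compl]
  · intro j _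
    rw [h1 j]
    exact (kr_int z hy).indicator (hO j).compl

lemma poisson_eq (f : ℝ → ℝ) (z y : ℝ) : poisson f z y = y / Real.pi * ∫ t, f t * kr z y t := by
  have h : ∫ t, y * f t / ((z - t) ^ 2 + y ^ 2) = y * ∫ t, f t * kr z y t := by
    rw [← integral_const_mul]
    refine integral_congr_ae (Eventually.of_forall fun t => ?_)
    show y * f t / ((z - t) ^ 2 + y ^ 2) = y * (f t * kr z y t)
    unfold kr
    ring
  rw [poisson_eq_integral, h]
  ring

lemma dschw_le {f : ℝ → ℝ} (hf : ∀ t, 0 ≤ f t) (z y : ℝ) :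
    ‖dschw f (z + y * I)‖ ≤ 1 / Real.pi * ∫ t, f t * kr z y t := by
  have hpi := Real.pi_pos
  unfold dschw
  rw [norm_mul, norm_neg, norm_div, Complex.norm_I, Complex.norm_real, Real.norm_eq_abs,
    abs_of_pos hpi]
  refine mul_le_mul_of_nonneg_left ?_ (by positivity)
  refine (norm_integral_le_integral_norm _).trans (le_of_eq ?_)
  refine integral_congr_ae (Eventually.of_forall fun t => ?_)
  show ‖(f t : ℂ) / ((z : ℂ) + y * I - t) ^ 2‖ = f t * kr z y t
  have h1 : ‖((z : ℂ) + y * I - t)‖ ^ 2 = (z - t) ^ 2 + y ^ 2 := by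
    rw [Complex.sq_norm, Complex.normSq_apply]
    simp
    ring
  rw [norm_div, norm_pow, h1, Complex.norm_real, Real.norm_eq_abs, abs_of_nonneg (hf t)]
  unfold kr
  ring

end Hfu

open Hfu in
theorem stHfu : StHfu := by
  intro lam b hlam hb
  refine ⟨320 * (2 * b ^ 2 + 2), 4 * (2 * lam ^ 2 + 2), by nlinarith [sq_nonneg b],
    by nlinarith [sq_nonneg lam], ?_⟩
  intro K τ E m hK hτ hτm hE hEb
  have hK20 : 20 ≤ K := by nlinarith [sq_nonneg b]
  have hK0 : 0 < K := by linarith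
  have hK1 : 1 ≤ K := by linarith
  set O : ℕ → Set ℝ := fun j => dset E (τ * K ^ j) with hOdef
  have hτj : ∀ j, 0 < τ * K ^ j := fun j => by positivity
  have hOo : ∀ j, IsOpen (O j) := fun j => isOpen_dset E _
  have hOm : ∀ j, MeasurableSet (O j) := fun j => (hOo j).measurableSet
  have hmono : ∀ i j, i ≤ j → O j ⊆ O i := by
    intro i j hij
    exact dset_anti (mul_le_mul_of_nonneg_left (pow_le_pow_right₀ hK1 hij) hτ.le)
  have hvE : volume E ≠ ∞ := hEb.measure_lt_top.ne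
  have hco : ∀ j, CoUnb (O j) := by
    intro j
    obtain ⟨R, hR⟩ := hEb.subset_closedBall (0 : ℝ)
    set r := volume.real E / (τ * K ^ j) with hr
    refine coUnb_of_bounded (M := R + r + 1) fun t ht => ?_
    obtain ⟨e, he, hte⟩ := dset_near (r := r + 1) hvE (hτj j) (by
      have h1 : τ * K ^ j * r = volume.real E := by
        rw [hr]; field_simp
      nlinarith [hτj j]) ht
    have h2 := hR he
    rw [mem_closedBall, dist_zero_right, Real.norm_eq_abs] at h2
    rw [abs_lt] at hte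
    rw [abs_le] at h2
    exact ⟨by linarith [hte.1, h2.1], by linarith [hte.2, h2.2]⟩
  have hpi := Real.pi_pos
  have hpi1 : 1 ≤ Real.pi := by linarith [Real.pi_gt_three]
  refine ⟨?_, ?_, ?_, ?_⟩
  · refine admissible_of_bounded (M := m + 1) (cnt_meas hOm m).aestronglyMeasurable fun t => ?_
    rw [abs_of_nonneg (cnt_nonneg O m t)]
    exact cnt_le O m t
  · exact fun t => ⟨cnt_nonneg O m t, cnt_le O m t⟩
  · intro j x z y hj hx hy hxz
    rw [poisson_eq, cnt_int hOm m z hy]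
    have hJ0 : ∀ i, 0 ≤ ∫ t in (O i)ᶜ, kr z y t := fun i =>
      integral_nonneg fun t => kr_nonneg z y t
    have hJ : ∀ i ∈ Finset.Ioc j m, Real.pi / (2 * y) ≤ ∫ t in (O i)ᶜ, kr z y t := by
      intro i hi
      rw [Finset.mem_Ioc] at hi
      have hKi : K ≤ K ^ (i - j) := by
        calc K = K ^ 1 := (pow_one K).symm
          _ ≤ K ^ (i - j) := pow_le_pow_right₀ hK1 (by omega)
      have hpow : K ^ i = K ^ j * K ^ (i - j) := by
        rw [← pow_add]; congr 1; omega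
      have h3 : 3 * (τ * K ^ j) ≤ τ * K ^ i := by
        rw [hpow]
        nlinarith [hτj j]
      have hratio : τ * K ^ j / (τ * K ^ i) ≤ 1 / K := by
        rw [div_le_div_iff₀ (hτj i) hK0, hpow]
        nlinarith [hτj j]
      have h4 := small (δ := 1 / K) hy (by positivity) hxz (fun s hs => by
        refine (weak_local hE.measurableSet (hτj j) h3 hx hs (by simpa using hs.le)).trans ?_
        apply ENNReal.ofReal_le_ofReal
        refine mul_le_mul_of_nonneg_right ?_ hs.le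
        exact mul_le_mul_of_nonneg_left hratio (by norm_num))
      have h5 : (2 * b ^ 2 + 2) * (160 * (1 / K) / y) ≤ Real.pi / (2 * y) := by
        have h50 : (2 * b ^ 2 + 2) * 160 ≤ K / 2 := by linarith
        calc (2 * b ^ 2 + 2) * (160 * (1 / K) / y) = ((2 * b ^ 2 + 2) * 160) / (K * y) := by
              field_simp
          _ ≤ (K / 2) / (K * y) := div_le_div_of_nonneg_right h50 (by positivity)
          _ = 1 / (2 * y) := by field_simp
          _ ≤ Real.pi / (2 * y) := div_le_div_of_nonneg_right hpi1 (by positivity)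
      have h6 := integral_add_compl (hOm i) (kr_int z hy)
      have h7 : ∫ t, kr z y t = Real.pi / y := integral_kernel hy
      rw [h7] at h6
      have h8 : Real.pi / y = Real.pi / (2 * y) + Real.pi / (2 * y) := by
        field_simp; ring
      linarith
    have hsum : ((m : ℝ) - j) * (Real.pi / (2 * y)) ≤
        ∑ i ∈ Finset.range (m + 1), ∫ t in (O i)ᶜ, kr z y t := by
      have h9 := Finset.card_nsmul_le_sum _ _ _ hJ
      rw [Nat.card_Ioc, nsmul_eq_mul, Nat.cast_sub hj] at h9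
      refine h9.trans (Finset.sum_le_sum_of_subset_of_nonneg ?_ fun i _ _ => hJ0 i)
      intro i hi
      rw [Finset.mem_Ioc] at hi
      rw [Finset.mem_range]
      omega
    calc ((m : ℝ) - j) / 2 = y / Real.pi * (((m : ℝ) - j) * (Real.pi / (2 * y))) := by
          field_simp
      _ ≤ _ := mul_le_mul_of_nonneg_left hsum (by positivity)
  · intro x z y hx hy hxz hyρ
    have hxj : ∀ j, j ≤ m → x ∈ O j := fun j hj => hmono j m hj hx
    have hρpos : ∀ j, j ≤ m → 0 < rho (O j) x := fun j hj => rho_pos (hOo j) (hco j) (hxj j hj)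
    have hstep : ∀ j, j + 1 ≤ m → 2 * rho (O (j + 1)) x ≤ rho (O j) x := by
      intro j hj
      obtain ⟨a0, ha0, he⟩ := exists_rho (hOo j) (hco j) x
      have hρj := hρpos j (by omega)
      have hρj1 := hρpos (j + 1) hj
      have h3 : 3 * (τ * K ^ j) ≤ τ * K ^ (j + 1) := by
        rw [pow_succ]
        nlinarith [hτj j]
      have h1 := weak_local hE.measurableSet (hτj j) h3 ha0 hρj he.le
      have h2 : Ioo (x - rho (O (j + 1)) x) (x + rho (O (j + 1)) x) ⊆
          dset E (τ * K ^ (j + 1)) ∩ Ioo (x - rho (O j) x) (x + rho (O j) x) := by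
        refine subset_inter ball_rho_subset ?_
        have h4 := rho_mono (hOo j) (hco j) (hmono j (j + 1) (Nat.le_succ j)) x
        exact Ioo_subset_Ioo (by linarith) (by linarith)
      have h5 := (measure_mono h2).trans h1
      rw [Real.volume_Ioo] at h5
      have hratio : τ * K ^ j / (τ * K ^ (j + 1)) = 1 / K := by
        rw [pow_succ]; field_simp
      rw [hratio, ENNReal.ofReal_le_ofReal_iff (by positivity)] at h5
      have h6 : 20 * (1 / K) * rho (O j) x ≤ 1 * rho (O j) x := by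
        refine mul_le_mul_of_nonneg_right ?_ hρj.le
        rw [mul_one_div, div_le_one hK0]
        exact hK20
      linarith
    have hgeo : ∀ d, d ≤ m → 2 ^ d * rho (O m) x ≤ rho (O (m - d)) x := by
      intro d
      induction d with
      | zero => intro _; simp
      | succ d ih =>
        intro hd
        have h1 := ih (by omega)
        have h2 := hstep (m - (d + 1)) (by omega)
        have h3 : m - (d + 1) + 1 = m - d := by omega
        rw [h3] at h2
        rw [pow_succ]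
        linarith
    set ρ := rho (O m) x with hρdef
    have hρ0 : 0 < ρ := hρpos m le_rfl
    set c : ℝ := (2 * lam ^ 2 + 2) * (2 * Real.pi / ρ) with hc
    have hJ : ∀ j ∈ Finset.range (m + 1), ∫ t in (O j)ᶜ, kr z y t ≤ c * (1 / 2) ^ (m - j) := by
      intro j hj
      rw [Finset.mem_range] at hj
      have h1 := hgeo (m - j) (by omega)
      have h2 : m - (m - j) = j := by omega
      rw [h2] at h1
      have h3 := far (hOm j).compl (ρ := 2 ^ (m - j) * ρ) hy (by positivity) hxz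
        (fun t ht => h1.trans (rho_le ht))
      refine h3.trans (le_of_eq ?_)
      rw [hc, one_div, inv_pow]
      field_simp
    have hsum : ∫ t, cnt O m t * kr z y t ≤ c * 2 := by
      rw [cnt_int hOm m z hy]
      refine (Finset.sum_le_sum hJ).trans ?_
      rw [← Finset.mul_sum]
      refine mul_le_mul_of_nonneg_left ?_ (by positivity)
      have h4 := Finset.sum_range_reflect (fun i => (1 / (2 : ℝ)) ^ i) (m + 1)
      simp only [Nat.add_sub_cancel] at h4
      rw [h4]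
      exact sum_geometric_two_le (m + 1)
    constructor
    · rw [poisson_eq]
      calc y / Real.pi * ∫ t, cnt O m t * kr z y t ≤ y / Real.pi * (c * 2) :=
            mul_le_mul_of_nonneg_left hsum (by positivity)
        _ = 4 * (2 * lam ^ 2 + 2) * (y / ρ) := by
            rw [hc]; field_simp; ring
        _ ≤ 4 * (2 * lam ^ 2 + 2) * 1 := by
            refine mul_le_mul_of_nonneg_left ?_ (by positivity)
            rw [div_le_one hρ0]
            exact hyρ
        _ = 4 * (2 * lam ^ 2 + 2) := mul_one _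
    · refine (dschw_le (cnt_nonneg O m) z y).trans ?_
      calc 1 / Real.pi * ∫ t, cnt O m t * kr z y t ≤ 1 / Real.pi * (c * 2) :=
            mul_le_mul_of_nonneg_left hsum (by positivity)
        _ = 4 * (2 * lam ^ 2 + 2) / ρ := by
            rw [hc]; field_simp; ring

end Pool.Agent.Work.MP_055a27_an.Wd

end
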