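import Pool.Agent.Work.MP_055a27_an.Wd.Stmts

/-! Bundle of small proof modules (one section per former module). -/

section

/-!
# Wide cones: the basic inequality of Hörmander in dimension one
-/

set_option autoImplicit false

open MeasureTheory Set Filter Topology Complex Metric
open scoped ENNReal NNReal ComplexConjugate

namespace Pool.Agent.Work.MP_055a27_an.Wd

namespace HorI

lemma isOpen_uhp : IsOpen uhp := isOpen_lt continuous_const Complex.continuous_im

section pointwise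

variable {f g : ℂ → ℂ} {z : ℂ}

lemma fd_mul (hf : DifferentiableAt ℝ f z) (hg : DifferentiableAt ℝ g z) (v : ℂ) :
    fderiv ℝ (fun w => f w * g w) z v = f z * fderiv ℝ g z v + fderiv ℝ f z v * g z := by
  have h := (hf.hasFDerivAt.mul hg.hasFDerivAt).fderiv
  have h2 : fderiv ℝ (fun w => f w * g w) z = f z • fderiv ℝ g z + g z • fderiv ℝ f z := h
  rw [h2]
  simp only [add_apply, smul_apply, smul_eq_mul]
  ring

lemma dzz_mul (hf : DifferentiableAt ℝ f z) (hg : DifferentiableAt ℝ g z) :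
    dzz (fun w => f w * g w) z = dzz f z * g z + f z * dzz g z := by
  unfold dzz
  rw [fd_mul hf hg, fd_mul hf hg]
  ring

lemma dbar_mul (hf : DifferentiableAt ℝ f z) (hg : DifferentiableAt ℝ g z) :
    dbar (fun w => f w * g w) z = dbar f z * g z + f z * dbar g z := by
  unfold dbar
  rw [fd_mul hf hg, fd_mul hf hg]
  ring

lemma dbar_sub (hf : DifferentiableAt ℝ f z) (hg : DifferentiableAt ℝ g z) :
    dbar (fun w => f w - g w) z = dbar f z - dbar g z := by
  have h : fderiv ℝ (fun w => f w - g w) z = fderiv ℝ f z - fderiv ℝ g z :=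
    (hf.hasFDerivAt.sub hg.hasFDerivAt).fderiv
  unfold dbar
  rw [h]
  simp only [sub_apply]
  ring

lemma diff_conj (hf : DifferentiableAt ℝ f z) : DifferentiableAt ℝ (fun w => conj (f w)) z :=
  (Complex.conjCLE.toContinuousLinearMap.hasFDerivAt.comp z hf.hasFDerivAt).differentiableAt

lemma fd_conj (hf : DifferentiableAt ℝ f z) (v : ℂ) :
    fderiv ℝ (fun w => conj (f w)) z v = conj (fderiv ℝ f z v) := by
  have h := (Complex.conjCLE.toContinuousLinearMap.hasFDerivAt.comp z hf.hasFDerivAt).fderiv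
  have h2 : fderiv ℝ (fun w => conj (f w)) z =
      Complex.conjCLE.toContinuousLinearMap.comp (fderiv ℝ f z) := h
  rw [h2]
  rfl

lemma dzz_conj (hf : DifferentiableAt ℝ f z) :
    dzz (fun w => conj (f w)) z = conj (dbar f z) := by
  unfold dzz dbar
  rw [fd_conj hf, fd_conj hf]
  simp only [map_div₀, map_add, map_mul, Complex.conj_I]
  have : conj (2 : ℂ) = 2 := Complex.conj_ofNat 2
  rw [this]
  ring

lemma fd_real {u : ℂ → ℝ} (hu : DifferentiableAt ℝ u z) (v : ℂ) :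
    fderiv ℝ (fun w => (u w : ℂ)) z v = ((fderiv ℝ u z v : ℝ) : ℂ) := by
  have h := (Complex.ofRealCLM.hasFDerivAt.comp z hu.hasFDerivAt).fderiv
  have h2 : fderiv ℝ (fun w => (u w : ℂ)) z = Complex.ofRealCLM.comp (fderiv ℝ u z) := h
  rw [h2]
  rfl

lemma diff_real {u : ℂ → ℝ} (hu : DifferentiableAt ℝ u z) :
    DifferentiableAt ℝ (fun w => (u w : ℂ)) z :=
  (Complex.ofRealCLM.hasFDerivAt.comp z hu.hasFDerivAt).differentiableAt

lemma dzz_exp {u : ℂ → ℝ} (hu : DifferentiableAt ℝ u z) :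
    dzz (fun w => ((Real.exp (-u w) : ℝ) : ℂ)) z =
      -(((Real.exp (-u z) : ℝ) : ℂ) * dzz (fun w => (u w : ℂ)) z) := by
  have h1 : HasFDerivAt (fun w => Real.exp (-u w)) (Real.exp (-u z) • (-fderiv ℝ u z)) z :=
    hu.hasFDerivAt.neg.exp
  have h2 : ∀ v, fderiv ℝ (fun w => Real.exp (-u w)) z v =
      -(Real.exp (-u z) * fderiv ℝ u z v) := by
    intro v
    rw [h1.fderiv]
    simp
  unfold dzz
  rw [fd_real h1.differentiableAt, fd_real h1.differentiableAt, h2, h2, fd_real hu, fd_real hu]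
  push_cast
  ring

lemma fd2 {F : Type*} [NormedAddCommGroup F] [NormedSpace ℝ F] {f : ℂ → F}
    (hf : ContDiffAt ℝ 2 f z) (u v : ℂ) :
    fderiv ℝ (fun w => fderiv ℝ f w v) z u = fderiv ℝ (fderiv ℝ f) z u v := by
  have h1 : DifferentiableAt ℝ (fderiv ℝ f) z :=
    (hf.fderiv_right (m := 1) (by norm_num)).differentiableAt (by norm_num)
  have h2 : fderiv ℝ (fun w => fderiv ℝ f w v) z = (fderiv ℝ (fderiv ℝ f) z).flip v := by
    have := (h1.hasFDerivAt.clm_apply (hasFDerivAt_const v z)).fderiv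
    rw [this]
    ext
    simp
  rw [h2]
  rfl

lemma cd_fd {F : Type*} [NormedAddCommGroup F] [NormedSpace ℝ F] {f : ℂ → F}
    (hf : ContDiffAt ℝ 2 f z) (v : ℂ) : ContDiffAt ℝ 1 (fun w => fderiv ℝ f w v) z :=
  (hf.fderiv_right (m := 1) (by norm_num)).clm_apply contDiffAt_const

lemma cd_dzz (hf : ContDiffAt ℝ 2 f z) : ContDiffAt ℝ 1 (dzz f) z :=
  ((cd_fd hf 1).sub (contDiffAt_const.mul (cd_fd hf I))).div_const 2

lemma cd_dbar (hf : ContDiffAt ℝ 2 f z) : ContDiffAt ℝ 1 (dbar f) z :=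
  ((cd_fd hf 1).add (contDiffAt_const.mul (cd_fd hf I))).div_const 2

lemma fd_dzz (hf : ContDiffAt ℝ 2 f z) (u : ℂ) : fderiv ℝ (dzz f) z u =
    (fderiv ℝ (fderiv ℝ f) z u 1 - I * fderiv ℝ (fderiv ℝ f) z u I) / 2 := by
  have h1 := ((cd_fd hf 1).differentiableAt (by norm_num)).hasFDerivAt
  have h2 := ((cd_fd hf I).differentiableAt (by norm_num)).hasFDerivAt
  have h3 := ((h1.sub (h2.const_mul I)).mul_const ((2 : ℂ)⁻¹)).fderiv
  have h4 : fderiv ℝ (dzz f) z = ((2 : ℂ)⁻¹) • (fderiv ℝ (fun w => fderiv ℝ f w 1) z -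
      I • fderiv ℝ (fun w => fderiv ℝ f w I) z) := by
    rw [← h3]
    congr 1
  rw [h4]
  simp only [smul_apply, sub_apply, smul_eq_mul]
  rw [fd2 hf, fd2 hf]
  ring

lemma fd_dbar (hf : ContDiffAt ℝ 2 f z) (u : ℂ) : fderiv ℝ (dbar f) z u =
    (fderiv ℝ (fderiv ℝ f) z u 1 + I * fderiv ℝ (fderiv ℝ f) z u I) / 2 := by
  have h1 := ((cd_fd hf 1).differentiableAt (by norm_num)).hasFDerivAt
  have h2 := ((cd_fd hf I).differentiableAt (by norm_num)).hasFDerivAt
  have h3 := ((h1.add (h2.const_mul I)).mul_const ((2 : ℂ)⁻¹)).fderiv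
  have h4 : fderiv ℝ (dbar f) z = ((2 : ℂ)⁻¹) • (fderiv ℝ (fun w => fderiv ℝ f w 1) z +
      I • fderiv ℝ (fun w => fderiv ℝ f w I) z) := by
    rw [← h3]
    congr 1
  rw [h4]
  simp only [smul_apply, add_apply, smul_eq_mul]
  rw [fd2 hf, fd2 hf]
  ring

lemma symm (hf : ContDiffAt ℝ 2 f z) :
    fderiv ℝ (fderiv ℝ f) z I 1 = fderiv ℝ (fderiv ℝ f) z 1 I :=
  (hf.isSymmSndFDerivAt (by simp)).eq I 1

lemma dbar_dzz (hf : ContDiffAt ℝ 2 f z) : dbar (dzz f) z =
    (fderiv ℝ (fderiv ℝ f) z 1 1 + fderiv ℝ (fderiv ℝ f) z I I) / 4 := by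
  have h := symm hf
  rw [dbar, fd_dzz hf, fd_dzz hf, h]
  have hI := Complex.I_mul_I
  linear_combination (-(fderiv ℝ (fderiv ℝ f) z I I) / 4) * hI

lemma dzz_dbar (hf : ContDiffAt ℝ 2 f z) : dzz (dbar f) z = dbar (dzz f) z := by
  have h := symm hf
  rw [dbar_dzz hf, dzz, fd_dbar hf, fd_dbar hf, h]
  have hI := Complex.I_mul_I
  linear_combination (-(fderiv ℝ (fderiv ℝ f) z I I) / 4) * hI

lemma cd_real {u : ℂ → ℝ} {n : WithTop ℕ∞} (hu : ContDiffAt ℝ n u z) :
    ContDiffAt ℝ n (fun w => (u w : ℂ)) z :=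
  Complex.ofRealCLM.contDiff.contDiffAt.comp z hu

lemma lap {u : ℂ → ℝ} (hu : ContDiffAt ℝ 2 u z) :
    dbar (dzz (fun w => (u w : ℂ))) z = ((Laplacian.laplacian u z / 4 : ℝ) : ℂ) := by
  have h1 : ∀ a v : ℂ, fderiv ℝ (fderiv ℝ (fun w => (u w : ℂ))) z a v =
      ((fderiv ℝ (fderiv ℝ u) z a v : ℝ) : ℂ) := by
    intro a v
    rw [← fd2 (cd_real hu), ← fd2 hu, ← fd_real ((cd_fd hu v).differentiableAt (by norm_num))]
    have h2 : (fun w => fderiv ℝ (fun w => (u w : ℂ)) w v) =ᶠ[𝓝 z]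
        fun w => ((fderiv ℝ u w v : ℝ) : ℂ) := by
      have h3 : ∀ᶠ w in 𝓝 z, ContDiffAt ℝ 2 u w := hu.eventually (by simp)
      filter_upwards [h3] with w hw
      exact fd_real (hw.differentiableAt (by norm_num)) v
    rw [h2.fderiv_eq]
  rw [dbar_dzz (cd_real hu), h1, h1, InnerProductSpace.laplacian_eq_iteratedFDeriv_complexPlane]
  simp only [iteratedFDeriv_two_apply]
  push_cast
  rfl

end pointwise

section integrals

/-- continuity by gluing -/
lemma cont {F : Type*} [NormedAddCommGroup F] {K : Set ℂ} (hK : IsClosed K)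
    {f : ℂ → F} (h1 : ∀ z ∈ uhp, ContinuousAt f z) (hKu : K ⊆ uhp) (h2 : ∀ z ∉ K, f z = 0) :
    Continuous f := by
  rw [continuous_iff_continuousAt]
  intro z
  by_cases hz : z ∈ uhp
  · exact h1 z hz
  · have hz2 : z ∈ Kᶜ := fun h => hz (hKu h)
    have h3 : f =ᶠ[𝓝 z] fun _ => 0 := by
      filter_upwards [hK.isOpen_compl.mem_nhds hz2] with w hw
      exact h2 w hw
    exact h3.continuousAt

lemma integ {F : Type*} [NormedAddCommGroup F] {K : Set ℂ} (hK : IsCompact K)
    {f : ℂ → F} (h1 : ∀ z ∈ uhp, ContinuousAt f z) (hKu : K ⊆ uhp) (h2 : ∀ z ∉ K, f z = 0) :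
    Integrable f :=
  (cont hK.isClosed h1 hKu h2).integrable_of_hasCompactSupport (HasCompactSupport.intro hK h2)

lemma int_dzz {K : Set ℂ} (hK : IsCompact K) (hKu : K ⊆ uhp) {P : ℂ → ℂ}
    (h1 : ∀ z ∈ uhp, ContDiffAt ℝ 1 P z) (h2 : ∀ z ∉ K, P z = 0) :
    Integrable (dzz P) ∧ ∫ z in uhp, dzz P z = 0 := by
  have hzero : ∀ z ∉ K, fderiv ℝ P z = 0 := by
    intro z hz
    have h3 : P =ᶠ[𝓝 z] fun _ => 0 := by
      filter_upwards [hK.isClosed.isOpen_compl.mem_nhds hz] with w hw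
      exact h2 w hw
    rw [h3.fderiv_eq]
    simp
  have hdiff : ∀ z, DifferentiableAt ℝ P z := by
    intro z
    by_cases hz : z ∈ uhp
    · exact (h1 z hz).differentiableAt (by norm_num)
    · have hz2 : z ∈ Kᶜ := fun h => hz (hKu h)
      have h3 : P =ᶠ[𝓝 z] fun _ => 0 := by
        filter_upwards [hK.isClosed.isOpen_compl.mem_nhds hz2] with w hw
        exact h2 w hw
      exact (differentiableAt_const (0 : ℂ)).congr_of_eventuallyEq h3
  have hPi : Integrable P := integ hK (fun z hz => (h1 z hz).continuousAt) hKu h2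
  have hfi : ∀ v : ℂ, Integrable (fun z => fderiv ℝ P z v) := by
    intro v
    refine integ hK (fun z hz => ?_) hKu (fun z hz => ?_)
    · have h4 : ContDiffAt ℝ 0 (fderiv ℝ P) z := (h1 z hz).fderiv_right (by norm_num)
      exact h4.continuousAt.clm_apply continuousAt_const
    · rw [hzero z hz]
      rfl
  have hint : ∀ v : ℂ, ∫ z, fderiv ℝ P z v = 0 := by
    intro v
    have h5 := integral_mul_fderiv_eq_neg_fderiv_mul_of_integrable (𝕜 := ℂ) (μ := volume)
      (f := fun _ : ℂ => (1 : ℂ)) (g := P) (v := v) (by simp) (by simpa using hfi v)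
      (by simpa using hPi) (fun x _ => differentiableAt_const _) (fun x _ => hdiff x)
    simpa using h5
  have hdz : Integrable (dzz P) := ((hfi 1).sub ((hfi I).const_mul I)).div_const 2
  refine ⟨hdz, ?_⟩
  have h6 : ∀ z, z ∉ uhp → dzz P z = 0 := by
    intro z hz
    have hz2 : z ∉ K := fun h => hz (hKu h)
    rw [dzz, hzero z hz2]
    simp
  rw [setIntegral_eq_integral_of_forall_compl_eq_zero h6]
  have h7 : ∫ z, dzz P z = ((∫ z, fderiv ℝ P z 1) - I * ∫ z, fderiv ℝ P z I) / 2 := by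
    rw [← integral_const_mul, ← integral_sub (hfi 1) ((hfi I).const_mul I),
      ← integral_div]
    rfl
  rw [h7, hint, hint]
  simp

end integrals

end HorI

open HorI in
theorem stHorI : StHorI := by
  intro φ α hφ hα hcs hsub
  have hφ' : ∀ z ∈ uhp, ContDiffAt ℝ 2 φ z := fun z hz =>
    hφ.contDiffAt (isOpen_uhp.mem_nhds hz)
  have hα' : ∀ z, ContDiffAt ℝ 2 α z := fun z => hα.contDiffAt
  have hK : IsCompact (tsupport α) := hcs
  -- the operator
  obtain ⟨T, hT⟩ : ∃ T : ℂ → ℂ, T = fun z => dzz (fun w => (φ w : ℂ)) z * α z - dzz α z :=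
    ⟨_, rfl⟩
  obtain ⟨W, hW⟩ : ∃ W : ℂ → ℝ, W = fun z => Real.exp (-φ z) := ⟨_, rfl⟩
  have hWc : ∀ z ∈ uhp, ContDiffAt ℝ 2 W z := by
    intro z hz
    rw [hW]
    exact (hφ' z hz).neg.exp
  have hTc : ∀ z ∈ uhp, ContDiffAt ℝ 1 T z := by
    intro z hz
    rw [hT]
    exact ((cd_dzz (cd_real (hφ' z hz))).mul ((hα' z).of_le (by norm_num))).sub
      (cd_dzz (hα' z))
  have hα0 : ∀ z ∉ tsupport α, α z = 0 := fun z hz => image_eq_zero_of_notMem_tsupport hz
  have hfα0 : ∀ z ∉ tsupport α, fderiv ℝ α z = 0 := by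
    intro z hz
    have h3 : α =ᶠ[𝓝 z] fun _ => 0 := notMem_tsupport_iff_eventuallyEq.1 hz
    rw [h3.fderiv_eq]
    simp
  have hdα0 : ∀ z ∉ tsupport α, dzz α z = 0 := by
    intro z hz
    rw [dzz, hfα0 z hz]
    simp
  have hbα0 : ∀ z ∉ tsupport α, dbar α z = 0 := by
    intro z hz
    rw [dbar, hfα0 z hz]
    simp
  have hT0 : ∀ z ∉ tsupport α, T z = 0 := by
    intro z hz
    rw [hT]
    simp [hα0 z hz, hdα0 z hz]
  -- the two vector fields
  obtain ⟨P, hP⟩ : ∃ P : ℂ → ℂ, P = fun z => (W z : ℂ) * α z * conj (T z) := ⟨_, rfl⟩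
  obtain ⟨Q, hQ⟩ : ∃ Q : ℂ → ℂ, Q = fun z => (W z : ℂ) * conj (α z) * dbar α z := ⟨_, rfl⟩
  have hcc : ∀ {n : WithTop ℕ∞} {f : ℂ → ℂ} {z : ℂ}, ContDiffAt ℝ n f z →
      ContDiffAt ℝ n (fun w => conj (f w)) z := fun h =>
    Complex.conjCLE.toContinuousLinearMap.contDiff.contDiffAt.comp _ h
  have hPc : ∀ z ∈ uhp, ContDiffAt ℝ 1 P z := by
    intro z hz
    rw [hP]
    exact (((cd_real (hWc z hz)).of_le (by norm_num)).mul ((hα' z).of_le (by norm_num))).mul
      (hcc (hTc z hz))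
  have hQc : ∀ z ∈ uhp, ContDiffAt ℝ 1 Q z := by
    intro z hz
    rw [hQ]
    exact (((cd_real (hWc z hz)).of_le (by norm_num)).mul
      (hcc ((hα' z).of_le (by norm_num)))).mul (cd_dbar (hα' z))
  obtain ⟨hPi, hP0⟩ := int_dzz hK hsub hPc (fun z hz => by rw [hP]; simp [hα0 z hz])
  obtain ⟨hQi, hQ0⟩ := int_dzz hK hsub hQc (fun z hz => by rw [hQ]; simp [hα0 z hz])
  -- the pointwise identity
  have hpt : ∀ z ∈ uhp, ((‖T z‖ ^ 2 * W z : ℝ) : ℂ) =
      ((Laplacian.laplacian φ z / 4 * ‖α z‖ ^ 2 * W z : ℝ) : ℂ) +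
      ((‖dbar α z‖ ^ 2 * W z : ℝ) : ℂ) - conj (dzz Q z) - dzz P z := by
    intro z hz
    have hWd : DifferentiableAt ℝ (fun w => ((W w : ℝ) : ℂ)) z :=
      diff_real ((hWc z hz).differentiableAt (by norm_num))
    have hαd : DifferentiableAt ℝ α z := (hα' z).differentiableAt (by norm_num)
    have hTd : DifferentiableAt ℝ T z := (hTc z hz).differentiableAt (by norm_num)
    have hΦd : DifferentiableAt ℝ (dzz (fun w => (φ w : ℂ))) z :=
      (cd_dzz (cd_real (hφ' z hz))).differentiableAt (by norm_num)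
    have hdαd : DifferentiableAt ℝ (dzz α) z := (cd_dzz (hα' z)).differentiableAt (by norm_num)
    have hbαd : DifferentiableAt ℝ (dbar α) z := (cd_dbar (hα' z)).differentiableAt (by norm_num)
    have hWz : dzz (fun w => ((W w : ℝ) : ℂ)) z =
        -((W z : ℂ) * dzz (fun w => (φ w : ℂ)) z) := by
      rw [hW]
      exact dzz_exp ((hφ' z hz).differentiableAt (by norm_num))
    have hbT : dbar T z = ((Laplacian.laplacian φ z / 4 : ℝ) : ℂ) * α z +
        dzz (fun w => (φ w : ℂ)) z * dbar α z - dbar (dzz α) z := by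
      have hm : DifferentiableAt ℝ (fun w => dzz (fun w => (φ w : ℂ)) w * α w) z :=
        hΦd.mul hαd
      rw [hT, dbar_sub hm hdαd, dbar_mul hΦd hαd, lap (hφ' z hz)]
    have hdP : dzz P z = (dzz (fun w => ((W w : ℝ) : ℂ)) z * α z + (W z : ℂ) * dzz α z) *
        conj (T z) + (W z : ℂ) * α z * conj (dbar T z) := by
      have hm : DifferentiableAt ℝ (fun w => (W w : ℂ) * α w) z := hWd.mul hαd
      rw [hP, dzz_mul hm (diff_conj hTd), dzz_mul hWd hαd, dzz_conj hTd]
    have hdQ : dzz Q z = (dzz (fun w => ((W w : ℝ) : ℂ)) z * conj (α z) +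
        (W z : ℂ) * conj (dbar α z)) * dbar α z +
        (W z : ℂ) * conj (α z) * dbar (dzz α) z := by
      have hm : DifferentiableAt ℝ (fun w => (W w : ℂ) * conj (α w)) z :=
        hWd.mul (diff_conj hαd)
      rw [hQ, dzz_mul hm hbαd, dzz_mul hWd (diff_conj hαd), dzz_conj hαd, dzz_dbar (hα' z)]
    have hTz : T z = dzz (fun w => (φ w : ℂ)) z * α z - dzz α z := by rw [hT]
    have hn : ∀ c : ℂ, ((‖c‖ : ℝ) : ℂ) ^ 2 = c * conj c := fun c => by
      rw [Complex.mul_conj, Complex.normSq_eq_norm_sq]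
      push_cast
      rfl
    rw [hdP, hdQ, hbT, hWz]
    simp only [Complex.ofReal_mul, Complex.ofReal_pow, hn]
    simp only [map_add, map_sub, map_mul, map_neg, Complex.conj_conj, Complex.conj_ofReal, hTz]
    ring
  -- integrals
  have hI1 : Integrable (fun z => ‖T z‖ ^ 2 * W z) := by
    refine integ hK (fun z hz => ?_) hsub (fun z hz => by simp [hT0 z hz])
    exact ((hTc z hz).continuousAt.norm.pow 2).mul (hWc z hz).continuousAt
  have hI2 : Integrable (fun z => Laplacian.laplacian φ z / 4 * ‖α z‖ ^ 2 * W z) := by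
    refine integ hK (fun z hz => ?_) hsub (fun z hz => by simp [hα0 z hz])
    have hL : ContinuousAt (fun z => Laplacian.laplacian φ z) z := by
      have h1 : ContDiffAt ℝ 0 (fderiv ℝ (fderiv ℝ φ)) z :=
        ((hφ' z hz).fderiv_right (m := 1) (by norm_num)).fderiv_right (by norm_num)
      have h2 : (fun z => Laplacian.laplacian φ z) = fun z =>
          fderiv ℝ (fderiv ℝ φ) z 1 1 + fderiv ℝ (fderiv ℝ φ) z I I := by
        rw [InnerProductSpace.laplacian_eq_iteratedFDeriv_complexPlane]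
        simp only [iteratedFDeriv_two_apply]
        rfl
      rw [h2]
      have h3 := h1.continuousAt
      exact ((h3.clm_apply continuousAt_const).clm_apply continuousAt_const).add
        ((h3.clm_apply continuousAt_const).clm_apply continuousAt_const)
    exact ((hL.div_const 4).mul ((hα' z).continuousAt.norm.pow 2)).mul
      (hWc z hz).continuousAt
  have hI3 : Integrable (fun z => ‖dbar α z‖ ^ 2 * W z) := by
    refine integ hK (fun z hz => ?_) hsub (fun z hz => by simp [hbα0 z hz])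
    exact ((cd_dbar (hα' z)).continuousAt.norm.pow 2).mul (hWc z hz).continuousAt
  have hPu : IntegrableOn (dzz P) uhp := hPi.integrableOn
  have hQu : IntegrableOn (fun z => conj (dzz Q z)) uhp :=
    (Complex.conjCLE.toContinuousLinearMap.integrable_comp hQi).integrableOn
  have hQ1 : ∫ z in uhp, conj (dzz Q z) = 0 := by
    rw [integral_conj, hQ0, map_zero]
  have hmeas : MeasurableSet uhp := isOpen_uhp.measurableSet
  have hkey : ((∫ z in uhp, ‖T z‖ ^ 2 * W z : ℝ) : ℂ) =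
      ((∫ z in uhp, Laplacian.laplacian φ z / 4 * ‖α z‖ ^ 2 * W z : ℝ) : ℂ) +
      ((∫ z in uhp, ‖dbar α z‖ ^ 2 * W z : ℝ) : ℂ) := by
    rw [← integral_complex_ofReal, setIntegral_congr_fun hmeas hpt]
    rw [integral_sub, integral_sub, integral_add, hQ1, hP0, integral_complex_ofReal,
      integral_complex_ofReal, sub_zero, sub_zero]
    · exact hI2.integrableOn.ofReal
    · exact hI3.integrableOn.ofReal
    · exact hI2.integrableOn.ofReal.add hI3.integrableOn.ofReal
    · exact hQu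
    · exact (hI2.integrableOn.ofReal.add hI3.integrableOn.ofReal).sub hQu
    · exact hPu
  have hkey2 : ∫ z in uhp, ‖T z‖ ^ 2 * W z =
      (∫ z in uhp, Laplacian.laplacian φ z / 4 * ‖α z‖ ^ 2 * W z) +
      ∫ z in uhp, ‖dbar α z‖ ^ 2 * W z := by
    exact_mod_cast hkey
  have hnn : 0 ≤ ∫ z in uhp, ‖dbar α z‖ ^ 2 * W z := by
    refine integral_nonneg (fun z => ?_)
    rw [hW]
    positivity
  rw [hT, hW] at hkey2
  rw [hW] at hnn
  linarith

end Pool.Agent.Work.MP_055a27_an.Wd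

end

section

/-!
# Project Wd: item 56 Int, integration of the estimate
-/

set_option autoImplicit false

open MeasureTheory Set Filter Topology Complex Metric
open scoped ENNReal NNReal

namespace Pool.Agent.Work.MP_055a27_an.Wd

namespace Int

/-- the geometric sum -/
lemma geo (p : ℝ) (hp : 0 < p) :
    ∑' n : ℕ, ENNReal.ofReal (Real.exp (-(n : ℝ) / p)) ≠ ∞ := by
  have h : Summable (fun n : ℕ => Real.exp (-(n : ℝ) / p)) := by
    have h1 : (fun n : ℕ => Real.exp (-(n : ℝ) / p)) = fun n : ℕ => (Real.exp (-1 / p)) ^ n := by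
      funext n
      rw [← Real.exp_nat_mul]
      congr 1
      ring
    rw [h1]
    refine summable_geometric_of_lt_one (Real.exp_pos _).le ?_
    rw [Real.exp_lt_one_iff]
    exact div_neg_of_neg_of_pos (by norm_num) hp
  rw [← ENNReal.ofReal_tsum_of_nonneg (fun n => (Real.exp_pos _).le) h]
  exact ENNReal.ofReal_ne_top

/-- the sum of the tails -/
lemma tails (C c A0 : ℝ) (N : ℕ) (hC : 0 < C) (hc : 0 < c) (hA : 1 ≤ A0) :
    ∑' n : ℕ, ENNReal.ofReal ((A0 + n + 1) ^ N) *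
      ENNReal.ofReal (C * Real.exp (-(c * (A0 + n)))) ≠ ∞ := by
  have h0 : Summable (fun n : ℕ => (n : ℝ) ^ N * Real.exp (-c * n)) :=
    Real.summable_pow_mul_exp_neg_nat_mul N hc
  have h1 : Summable (fun n : ℕ => ((n + 1 : ℕ) : ℝ) ^ N * Real.exp (-c * ((n + 1 : ℕ) : ℝ))) :=
    (summable_nat_add_iff 1).2 h0
  have h2 : Summable (fun n : ℕ => ((A0 + 1) ^ N * (C * Real.exp c)) *
      (((n + 1 : ℕ) : ℝ) ^ N * Real.exp (-c * ((n + 1 : ℕ) : ℝ)))) := h1.mul_left _
  have h3 : ∀ n : ℕ, (A0 + n + 1) ^ N * (C * Real.exp (-(c * (A0 + n)))) ≤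
      ((A0 + 1) ^ N * (C * Real.exp c)) *
      (((n + 1 : ℕ) : ℝ) ^ N * Real.exp (-c * ((n + 1 : ℕ) : ℝ))) := by
    intro n
    have e1 : (A0 + n + 1) ^ N ≤ (A0 + 1) ^ N * ((n + 1 : ℕ) : ℝ) ^ N := by
      rw [← mul_pow]
      refine pow_le_pow_left₀ (by positivity) ?_ N
      push_cast
      have : (0 : ℝ) ≤ n := Nat.cast_nonneg n
      nlinarith
    have e2 : Real.exp (-(c * (A0 + n))) ≤ Real.exp c * Real.exp (-c * ((n + 1 : ℕ) : ℝ)) := by
      rw [← Real.exp_add]
      refine Real.exp_le_exp.2 ?_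
      push_cast
      nlinarith
    calc (A0 + n + 1) ^ N * (C * Real.exp (-(c * (A0 + n))))
        ≤ ((A0 + 1) ^ N * ((n + 1 : ℕ) : ℝ) ^ N) *
          (C * (Real.exp c * Real.exp (-c * ((n + 1 : ℕ) : ℝ)))) := by
          refine mul_le_mul e1 (mul_le_mul_of_nonneg_left e2 hC.le) (by positivity) (by positivity)
      _ = _ := by ring
  have hnn : ∀ n : ℕ, 0 ≤ (A0 + n + 1) ^ N * (C * Real.exp (-(c * (A0 + n)))) := by
    intro n
    positivity
  have h4 := Summable.of_nonneg_of_le hnn h3 h2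
  have h5 : ∑' n : ℕ, ENNReal.ofReal ((A0 + n + 1) ^ N) *
      ENNReal.ofReal (C * Real.exp (-(c * (A0 + n)))) =
      ENNReal.ofReal (∑' n : ℕ, (A0 + n + 1) ^ N * (C * Real.exp (-(c * (A0 + n))))) := by
    rw [ENNReal.ofReal_tsum_of_nonneg hnn h4]
    refine tsum_congr (fun n => ?_)
    exact (ENNReal.ofReal_mul (by positivity)).symm
  rw [h5]
  exact ENNReal.ofReal_ne_top

/-- the pointwise estimate of one level -/
lemma key (p A0 : ℝ) (hp : 0 < p) (hA : 1 ≤ A0) (N : ℕ) (hN : p ≤ N) (l : ℤ) (s : ℝ≥0∞) (t : ℝ)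
    (hs : s ≠ 0 → (l : ℝ) ≤ t) (H : ℝ≥0∞)
    (hH : ∀ n : ℕ, ENNReal.ofReal ((A0 + n) * Real.exp (2 * l / p)) < s →
      ENNReal.ofReal ((A0 + n + 1) ^ N) * ENNReal.ofReal (Real.exp l) ≤ H)
    (hT : s = ∞ → H = ∞) :
    s ^ (p / 2) ≤ ENNReal.ofReal (Real.exp (-(t - l) / 2)) *
      (ENNReal.ofReal (A0 ^ (p / 2) * Real.exp t) + H) := by
  have hq : 0 < p / 2 := by positivity
  by_cases h0 : s = 0
  · rw [h0, ENNReal.zero_rpow_of_pos hq]
    exact zero_le
  by_cases h1 : s = ∞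
  · rw [hT h1, add_top, ENNReal.mul_top]
    · exact le_top
    · rw [Ne, ENNReal.ofReal_eq_zero, not_le]
      exact Real.exp_pos _
  have hlt := hs h0
  obtain ⟨r, hr, rfl⟩ : ∃ r : ℝ, 0 < r ∧ s = ENNReal.ofReal r :=
    ⟨s.toReal, ENNReal.toReal_pos h0 h1, (ENNReal.ofReal_toReal h1).symm⟩
  set a : ℝ := Real.exp (2 * l / p) with ha
  have hapos : 0 < a := Real.exp_pos _
  have haq : a ^ (p / 2) = Real.exp l := by
    rw [ha, ← Real.exp_mul]
    congr 1
    field_simp
  rw [ENNReal.ofReal_rpow_of_pos hr]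
  by_cases h2 : r ≤ A0 * a
  · have e1 : r ^ (p / 2) ≤ Real.exp (-(t - l) / 2) * (A0 ^ (p / 2) * Real.exp t) := by
      calc r ^ (p / 2) ≤ (A0 * a) ^ (p / 2) := Real.rpow_le_rpow hr.le h2 hq.le
        _ = A0 ^ (p / 2) * Real.exp l := by
          rw [Real.mul_rpow (by linarith) hapos.le, haq]
        _ ≤ A0 ^ (p / 2) * (Real.exp (-(t - l) / 2) * Real.exp t) := by
          refine mul_le_mul_of_nonneg_left ?_ (Real.rpow_nonneg (by linarith) _)
          rw [← Real.exp_add]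
          refine Real.exp_le_exp.2 ?_
          linarith
        _ = _ := by ring
    calc ENNReal.ofReal (r ^ (p / 2)) ≤
        ENNReal.ofReal (Real.exp (-(t - l) / 2) * (A0 ^ (p / 2) * Real.exp t)) :=
          ENNReal.ofReal_le_ofReal e1
      _ = ENNReal.ofReal (Real.exp (-(t - l) / 2)) *
          ENNReal.ofReal (A0 ^ (p / 2) * Real.exp t) :=
          ENNReal.ofReal_mul (Real.exp_pos _).le
      _ ≤ _ := by
          refine mul_le_mul_right ?_ _
          exact le_self_add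
  · push Not at h2
    obtain ⟨T, hTr⟩ : ∃ T : ℝ, r = T * a := ⟨r / a, by field_simp⟩
    have hTA : A0 < T := by
      rw [hTr] at h2
      exact lt_of_mul_lt_mul_right h2 hapos.le
    have hT1 : 1 ≤ T := by linarith
    have hT0 : 0 < T := by linarith
    obtain ⟨n, hn1, hn2⟩ : ∃ n : ℕ, A0 + n < T ∧ T ≤ A0 + n + 1 := by
      have hpos : 0 < ⌈T - A0⌉₊ := Nat.ceil_pos.2 (by linarith)
      refine ⟨⌈T - A0⌉₊ - 1, ?_, ?_⟩
      · have := Nat.lt_ceil.1 (Nat.sub_lt hpos one_pos)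
        linarith
      · have := Nat.le_ceil (T - A0)
        have e : ((⌈T - A0⌉₊ - 1 : ℕ) : ℝ) = (⌈T - A0⌉₊ : ℝ) - 1 := by
          rw [Nat.cast_sub hpos, Nat.cast_one]
        rw [e]
        linarith
    have hH' := hH n (by
      rw [hTr]
      exact (ENNReal.ofReal_lt_ofReal_iff (by positivity)).2
        (mul_lt_mul_of_pos_right hn1 hapos))
    have hHT : ENNReal.ofReal (T ^ N * Real.exp l) ≤ H := by
      refine le_trans ?_ hH'
      rw [← ENNReal.ofReal_mul (by positivity)]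
      refine ENNReal.ofReal_le_ofReal ?_
      exact mul_le_mul_of_nonneg_right (pow_le_pow_left₀ hT0.le hn2 N) (Real.exp_pos _).le
    have e1 : r ^ (p / 2) ≤ Real.exp (-(t - l) / 2) *
        (A0 ^ (p / 2) * Real.exp t + T ^ N * Real.exp l) := by
      set y : ℝ := T ^ ((N : ℝ) / 2) with hy
      have hy0 : 0 < y := Real.rpow_pos_of_pos hT0 _
      have hy2 : y * y = T ^ N := by
        rw [hy, ← Real.rpow_add hT0, ← Real.rpow_natCast]
        congr 1
        ring
      have hTy : T ^ (p / 2) ≤ y := Real.rpow_le_rpow_of_exponent_le hT1 (by linarith)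
      have hA1 : 1 ≤ A0 ^ (p / 2) := Real.one_le_rpow hA hq.le
      set u : ℝ := Real.exp ((t - l) / 2) with hu
      have hu0 : 0 < u := Real.exp_pos _
      have hui : Real.exp (-(t - l) / 2) = u⁻¹ := by
        rw [hu, ← Real.exp_neg]
        congr 1
        ring
      have het : Real.exp t = Real.exp l * (u * u) := by
        rw [hu, ← Real.exp_add, ← Real.exp_add]
        congr 1
        ring
      have hrq : r ^ (p / 2) = T ^ (p / 2) * Real.exp l := by
        rw [hTr, Real.mul_rpow hT0.le hapos.le, haq]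
      have hl0 : 0 < Real.exp (l : ℝ) := Real.exp_pos _
      rw [hrq, hui, het, ← hy2]
      have e2 : y ≤ u⁻¹ * (u * u + y * y) := by
        rw [inv_mul_eq_div, le_div_iff₀ hu0]
        nlinarith [sq_nonneg (y - u), mul_pos hy0 hu0]
      calc T ^ (p / 2) * Real.exp l ≤ (u⁻¹ * (u * u + y * y)) * Real.exp l :=
            mul_le_mul_of_nonneg_right (hTy.trans e2) hl0.le
        _ = u⁻¹ * (1 * (Real.exp l * (u * u)) + y * y * Real.exp l) := by ring
        _ ≤ u⁻¹ * (A0 ^ (p / 2) * (Real.exp l * (u * u)) + y * y * Real.exp l) := by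
            refine mul_le_mul_of_nonneg_left ?_ (inv_nonneg.2 hu0.le)
            refine add_le_add ?_ le_rfl
            exact mul_le_mul_of_nonneg_right hA1 (by positivity)
    calc ENNReal.ofReal (r ^ (p / 2)) ≤ ENNReal.ofReal (Real.exp (-(t - l) / 2) *
        (A0 ^ (p / 2) * Real.exp t + T ^ N * Real.exp l)) := ENNReal.ofReal_le_ofReal e1
      _ = ENNReal.ofReal (Real.exp (-(t - l) / 2)) * (ENNReal.ofReal (A0 ^ (p / 2) * Real.exp t) +
          ENNReal.ofReal (T ^ N * Real.exp l)) := by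
          rw [ENNReal.ofReal_mul (Real.exp_pos _).le, ENNReal.ofReal_add (by positivity)
            (by positivity)]
      _ ≤ _ := by
          refine mul_le_mul_right ?_ _
          exact add_le_add le_rfl hHT

end Int

theorem stInt : StInt := by
  intro p C c A0 hp hC hc hA
  obtain ⟨N, hN⟩ := exists_nat_ge p
  have hq : 0 < p / 2 := by positivity
  set K : ℝ≥0∞ := ∑' n : ℕ, ENNReal.ofReal (Real.exp (-(n : ℝ) / p)) with hK
  have hKtop : K ≠ ∞ := Int.geo p hp
  set K2 : ℝ≥0∞ := ∑' n : ℕ, ENNReal.ofReal ((A0 + n + 1) ^ N) *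
      ENNReal.ofReal (C * Real.exp (-(c * (A0 + n)))) with hK2
  have hK2top : K2 ≠ ∞ := Int.tails C c A0 N hC hc hA
  set KK : ℝ≥0∞ := K ^ (p / 2) * (ENNReal.ofReal (A0 ^ (p / 2)) + K2) with hKK
  have hKKtop : KK ≠ ∞ :=
    ENNReal.mul_ne_top (ENNReal.rpow_ne_top_of_nonneg hq.le hKtop)
      (ENNReal.add_ne_top.2 ⟨ENNReal.ofReal_ne_top, hK2top⟩)
  refine ⟨KK.toNNReal, ?_⟩
  intro ν S ℓ hS hℓ hsupp htail
  rw [ENNReal.coe_toNNReal hKKtop]
  -- the functions H
  set W : ℤ → ℕ → Set ℝ := fun l n =>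
    {x | ENNReal.ofReal ((A0 + n) * Real.exp (2 * l / p)) < S l x} with hW
  have hWm : ∀ l n, MeasurableSet (W l n) := fun l n => measurableSet_lt measurable_const (hS l)
  set H : ℤ → ℝ → ℝ≥0∞ := fun l x => ∑' n : ℕ, (W l n).indicator
    (fun _ => ENNReal.ofReal ((A0 + n + 1) ^ N) * ENNReal.ofReal (Real.exp l)) x with hHdef
  have hHm : ∀ l, Measurable (H l) := fun l =>
    Measurable.tsum (fun n => measurable_const.indicator (hWm l n))
  set G : ℝ → ℝ≥0∞ := fun x => ENNReal.ofReal (A0 ^ (p / 2) * Real.exp (ℓ x)) + ∑' l : ℤ, H l x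
    with hG
  -- pointwise estimate
  have hpt : ∀ x, (∑' l : ℤ, S l x) ^ (p / 2) ≤ K ^ (p / 2) * G x := by
    intro x
    have h1 : ∀ l : ℤ, (S l x) ^ (p / 2) ≤
        ENNReal.ofReal (Real.exp (-(ℓ x - l) / 2)) * G x := by
      intro l
      refine (Int.key p A0 hp hA N hN l (S l x) (ℓ x) (hsupp l x) (H l x) ?_ ?_).trans ?_
      · intro n hn
        have hx : x ∈ W l n := hn
        calc ENNReal.ofReal ((A0 + n + 1) ^ N) * ENNReal.ofReal (Real.exp l)
            = (W l n).indicator (fun _ => ENNReal.ofReal ((A0 + n + 1) ^ N) *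
              ENNReal.ofReal (Real.exp l)) x := by rw [Set.indicator_of_mem hx]
          _ ≤ H l x := ENNReal.le_tsum n
      · intro htop
        have hx : ∀ n : ℕ, x ∈ W l n := by
          intro n
          show ENNReal.ofReal _ < S l x
          rw [htop]
          exact ENNReal.ofReal_lt_top
        have h3 : ∑' _ : ℕ, ENNReal.ofReal (Real.exp l) ≤ H l x := by
          refine ENNReal.tsum_le_tsum (fun n => ?_)
          rw [Set.indicator_of_mem (hx n)]
          have h4 : (1 : ℝ≥0∞) ≤ ENNReal.ofReal ((A0 + n + 1) ^ N) := by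
            rw [ENNReal.one_le_ofReal]
            refine one_le_pow₀ ?_
            have : (0 : ℝ) ≤ n := Nat.cast_nonneg n
            linarith
          calc ENNReal.ofReal (Real.exp l) = 1 * ENNReal.ofReal (Real.exp l) := (one_mul _).symm
            _ ≤ _ := mul_le_mul_left h4 _
        rw [ENNReal.tsum_const_eq_top_of_ne_zero] at h3
        · exact top_le_iff.1 h3
        · rw [Ne, ENNReal.ofReal_eq_zero, not_le]
          exact Real.exp_pos _
      · refine mul_le_mul_right ?_ _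
        exact add_le_add le_rfl (ENNReal.le_tsum l)
    have h2 : ∀ l : ℤ, S l x ≤
        ENNReal.ofReal (Real.exp (-(ℓ x - l) / p)) * (G x) ^ (2 / p) := by
      intro l
      have h3 := ENNReal.rpow_le_rpow (h1 l) (z := 2 / p) (by positivity)
      rw [← ENNReal.rpow_mul, ENNReal.mul_rpow_of_nonneg _ _ (by positivity : (0 : ℝ) ≤ 2 / p),
        ENNReal.ofReal_rpow_of_pos (Real.exp_pos _), ← Real.exp_mul] at h3
      have e1 : p / 2 * (2 / p) = 1 := by field_simp
      have e2 : -(ℓ x - l) / 2 * (2 / p) = -(ℓ x - l) / p := by field_simp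
      rw [e1, e2, ENNReal.rpow_one] at h3
      exact h3
    have h3 : ∑' l : ℤ, S l x ≤ K * (G x) ^ (2 / p) := by
      have hinj : Function.Injective (fun n : ℕ => ⌊ℓ x⌋ - (n : ℤ)) := by
        intro a b hab
        have : ⌊ℓ x⌋ - (a : ℤ) = ⌊ℓ x⌋ - (b : ℤ) := hab
        omega
      have hsub : Function.support (fun l : ℤ => S l x) ⊆
          Set.range (fun n : ℕ => ⌊ℓ x⌋ - (n : ℤ)) := by
        intro l hl
        have h4 : l ≤ ⌊ℓ x⌋ := Int.le_floor.2 (hsupp l x hl)
        refine ⟨(⌊ℓ x⌋ - l).toNat, ?_⟩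
        show ⌊ℓ x⌋ - ((⌊ℓ x⌋ - l).toNat : ℤ) = l
        omega
      rw [← hinj.tsum_eq hsub, hK, ← ENNReal.tsum_mul_right]
      refine ENNReal.tsum_le_tsum (fun n => (h2 _).trans ?_)
      refine mul_le_mul_left ?_ _
      refine ENNReal.ofReal_le_ofReal (Real.exp_le_exp.2 ?_)
      refine div_le_div_of_nonneg_right ?_ hp.le
      push_cast
      have := Int.floor_le (ℓ x)
      linarith
    calc (∑' l : ℤ, S l x) ^ (p / 2) ≤ (K * (G x) ^ (2 / p)) ^ (p / 2) :=
          ENNReal.rpow_le_rpow h3 hq.le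
      _ = K ^ (p / 2) * G x := by
          rw [ENNReal.mul_rpow_of_nonneg _ _ hq.le, ← ENNReal.rpow_mul]
          have e1 : 2 / p * (p / 2) = 1 := by field_simp
          rw [e1, ENNReal.rpow_one]
  -- integration
  have hHint : ∀ l, ∫⁻ x, H l x ∂ν = ∑' n : ℕ, ENNReal.ofReal ((A0 + n + 1) ^ N) *
      (ENNReal.ofReal (Real.exp l) * ν (W l n)) := by
    intro l
    rw [hHdef]
    simp only
    rw [lintegral_tsum (fun n => (measurable_const.indicator (hWm l n)).aemeasurable)]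
    refine tsum_congr (fun n => ?_)
    rw [lintegral_indicator_const (hWm l n), mul_assoc]
  have htail' : ∀ n : ℕ, ∑' l : ℤ, ENNReal.ofReal (Real.exp l) * ν (W l n) ≤
      ENNReal.ofReal (C * Real.exp (-(c * (A0 + n)))) *
        ∫⁻ x, ENNReal.ofReal (Real.exp (ℓ x)) ∂ν := by
    intro n
    rw [ENNReal.tsum_eq_iSup_sum]
    refine iSup_le (fun s => ?_)
    exact htail s (A0 + n) (by have : (0 : ℝ) ≤ n := Nat.cast_nonneg n; linarith)
  have hGint : ∫⁻ x, G x ∂ν ≤ (ENNReal.ofReal (A0 ^ (p / 2)) + K2) *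
      ∫⁻ x, ENNReal.ofReal (Real.exp (ℓ x)) ∂ν := by
    have hm1 : Measurable (fun x => ENNReal.ofReal (A0 ^ (p / 2) * Real.exp (ℓ x))) :=
      ENNReal.measurable_ofReal.comp (measurable_const.mul (Real.measurable_exp.comp hℓ))
    have hm2 : Measurable (fun x => ENNReal.ofReal (Real.exp (ℓ x))) :=
      ENNReal.measurable_ofReal.comp (Real.measurable_exp.comp hℓ)
    rw [hG]
    simp only
    rw [lintegral_add_left hm1, lintegral_tsum (fun l => (hHm l).aemeasurable), add_mul]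
    refine add_le_add (le_of_eq ?_) ?_
    · rw [← lintegral_const_mul _ hm2]
      refine lintegral_congr (fun x => ?_)
      rw [ENNReal.ofReal_mul (Real.rpow_nonneg (by linarith) _)]
    · calc ∑' l : ℤ, ∫⁻ x, H l x ∂ν = ∑' (l : ℤ) (n : ℕ), ENNReal.ofReal ((A0 + n + 1) ^ N) *
            (ENNReal.ofReal (Real.exp l) * ν (W l n)) := tsum_congr hHint
        _ = ∑' (n : ℕ) (l : ℤ), ENNReal.ofReal ((A0 + n + 1) ^ N) *
            (ENNReal.ofReal (Real.exp l) * ν (W l n)) := ENNReal.tsum_comm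
        _ = ∑' n : ℕ, ENNReal.ofReal ((A0 + n + 1) ^ N) *
            ∑' l : ℤ, ENNReal.ofReal (Real.exp l) * ν (W l n) := by
            refine tsum_congr (fun n => ?_)
            rw [ENNReal.tsum_mul_left]
        _ ≤ ∑' n : ℕ, ENNReal.ofReal ((A0 + n + 1) ^ N) *
            (ENNReal.ofReal (C * Real.exp (-(c * (A0 + n)))) *
              ∫⁻ x, ENNReal.ofReal (Real.exp (ℓ x)) ∂ν) := by
            refine ENNReal.tsum_le_tsum (fun n => ?_)
            exact mul_le_mul_right (htail' n) _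
        _ = K2 * ∫⁻ x, ENNReal.ofReal (Real.exp (ℓ x)) ∂ν := by
            rw [hK2, ← ENNReal.tsum_mul_right]
            refine tsum_congr (fun n => ?_)
            rw [mul_assoc]
  calc ∫⁻ x, (∑' l : ℤ, S l x) ^ (p / 2) ∂ν ≤ ∫⁻ x, K ^ (p / 2) * G x ∂ν :=
        lintegral_mono hpt
    _ = K ^ (p / 2) * ∫⁻ x, G x ∂ν :=
        lintegral_const_mul' _ _ (ENNReal.rpow_ne_top_of_nonneg hq.le hKtop)
    _ ≤ K ^ (p / 2) * ((ENNReal.ofReal (A0 ^ (p / 2)) + K2) *
        ∫⁻ x, ENNReal.ofReal (Real.exp (ℓ x)) ∂ν) := mul_le_mul_right hGint _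
    _ = KK * ∫⁻ x, ENNReal.ofReal (Real.exp (ℓ x)) ∂ν := by rw [hKK, mul_assoc]

end Pool.Agent.Work.MP_055a27_an.Wd

end

section

set_option autoImplicit false

open MeasureTheory Set Filter Topology Complex Metric
open scoped ENNReal NNReal

namespace Pool.Agent.Work.MP_055a27_an.Wd

namespace JN

lemma two_pos (j : ℤ) : (0 : ℝ) < (2 : ℝ) ^ j := by positivity

lemma vol_dy (j k : ℤ) : volume (dy j k) = ENNReal.ofReal ((2 : ℝ) ^ j) := by
  rw [dy, Real.volume_Ico]
  congr 1; ring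

lemma vol_dy_ne_top (j k : ℤ) : volume (dy j k) ≠ ∞ := by
  rw [vol_dy]; exact ENNReal.ofReal_ne_top

lemma vol_dy_pos (j k : ℤ) : 0 < volume (dy j k) := by
  rw [vol_dy]; exact ENNReal.ofReal_pos.2 (two_pos j)

lemma meas_dy (j k : ℤ) : MeasurableSet (dy j k) := measurableSet_Ico

lemma mem_floor (j : ℤ) (x : ℝ) : x ∈ dy j ⌊x / (2 : ℝ) ^ j⌋ := by
  have h := two_pos j
  refine ⟨?_, ?_⟩
  · have := Int.floor_le (x / (2 : ℝ) ^ j)
    rwa [le_div_iff₀ h] at this
  · have := Int.lt_floor_add_one (x / (2 : ℝ) ^ j)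
    rwa [div_lt_iff₀ h] at this

lemma nest {j' k' j k : ℤ} (hj : j' ≤ j) {x : ℝ} (h' : x ∈ dy j' k') (h : x ∈ dy j k) :
    dy j' k' ⊆ dy j k := by
  obtain ⟨n, rfl⟩ : ∃ n : ℕ, j = j' + n := ⟨(j - j').toNat, by omega⟩
  have hp : (0 : ℝ) < (2 : ℝ) ^ j' := two_pos j'
  have e : (2 : ℝ) ^ (j' + (n : ℤ)) = (2 : ℝ) ^ n * (2 : ℝ) ^ j' := by
    rw [zpow_add₀ (by norm_num), zpow_natCast, mul_comm]
  obtain ⟨a1, a2⟩ := h'
  obtain ⟨b1, b2⟩ := h
  rw [e] at b1 b2
  have c1 : (k : ℝ) * 2 ^ n < (k' : ℝ) + 1 := by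
    have : (k : ℝ) * 2 ^ n * (2 : ℝ) ^ j' < ((k' : ℝ) + 1) * (2 : ℝ) ^ j' := by
      calc (k : ℝ) * 2 ^ n * (2 : ℝ) ^ j' = (k : ℝ) * (2 ^ n * (2 : ℝ) ^ j') := by ring
        _ ≤ x := b1
        _ < _ := a2
    exact lt_of_mul_lt_mul_right this hp.le
  have c2 : (k' : ℝ) < ((k : ℝ) + 1) * 2 ^ n := by
    have : (k' : ℝ) * (2 : ℝ) ^ j' < (((k : ℝ) + 1) * 2 ^ n) * (2 : ℝ) ^ j' := by
      calc (k' : ℝ) * (2 : ℝ) ^ j' ≤ x := a1
        _ < ((k : ℝ) + 1) * (2 ^ n * (2 : ℝ) ^ j') := b2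
        _ = _ := by ring
    exact lt_of_mul_lt_mul_right this hp.le
  have d1 : k * 2 ^ n ≤ k' := by
    have : k * 2 ^ n < k' + 1 := by exact_mod_cast c1
    omega
  have d2 : k' + 1 ≤ (k + 1) * 2 ^ n := by
    have : k' < (k + 1) * 2 ^ n := by exact_mod_cast c2
    omega
  have d1' : (k : ℝ) * 2 ^ n ≤ k' := by exact_mod_cast d1
  have d2' : (k' : ℝ) + 1 ≤ ((k : ℝ) + 1) * 2 ^ n := by exact_mod_cast d2
  intro y hy
  obtain ⟨y1, y2⟩ := hy
  refine ⟨?_, ?_⟩
  · rw [e]
    calc (k : ℝ) * (2 ^ n * (2 : ℝ) ^ j') = ((k : ℝ) * 2 ^ n) * (2 : ℝ) ^ j' := by ring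
      _ ≤ k' * (2 : ℝ) ^ j' := mul_le_mul_of_nonneg_right d1' hp.le
      _ ≤ y := y1
  · rw [e]
    calc y < ((k' : ℝ) + 1) * (2 : ℝ) ^ j' := y2
      _ ≤ (((k : ℝ) + 1) * 2 ^ n) * (2 : ℝ) ^ j' := mul_le_mul_of_nonneg_right d2' hp.le
      _ = _ := by ring

lemma parent (j k : ℤ) : dy j k ⊆ dy (j + 1) (k / 2) := by
  have hp : (0 : ℝ) < (2 : ℝ) ^ j := two_pos j
  have e : (2 : ℝ) ^ (j + 1) = 2 * (2 : ℝ) ^ j := by
    rw [zpow_add₀ (by norm_num), zpow_one, mul_comm]
  have d1 : 2 * (k / 2) ≤ k := by omega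
  have d2 : k + 1 ≤ 2 * (k / 2) + 2 := by omega
  have d1' : 2 * (((k / 2 : ℤ)) : ℝ) ≤ k := by exact_mod_cast d1
  have d2' : (k : ℝ) + 1 ≤ 2 * (((k / 2 : ℤ)) : ℝ) + 2 := by exact_mod_cast d2
  intro y hy
  obtain ⟨y1, y2⟩ := hy
  refine ⟨?_, ?_⟩
  · rw [e]; nlinarith
  · rw [e]; nlinarith

lemma same {j k k' : ℤ} {x : ℝ} (h : x ∈ dy j k) (h' : x ∈ dy j k') : k = k' := by
  have hp := two_pos j
  have a1 : ⌊x / (2 : ℝ) ^ j⌋ = k := by
    rw [Int.floor_eq_iff, le_div_iff₀ hp, div_lt_iff₀ hp]; exact h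
  have a2 : ⌊x / (2 : ℝ) ^ j⌋ = k' := by
    rw [Int.floor_eq_iff, le_div_iff₀ hp, div_lt_iff₀ hp]; exact h'
  exact a1.symm.trans a2

/-- the set `B` fills more than half of the interval -/
def sel (B : Set ℝ) (j k : ℤ) : Prop := volume (dy j k) < 2 * volume (dy j k ∩ B)

lemma dens (B : Set ℝ) : ∀ᵐ x ∂(volume.restrict B), ∀ j : ℤ, ∃ j' < j, ∃ k', x ∈ dy j' k' ∧
    sel B j' k' := by
  have h := IsUnifLocDoublingMeasure.ae_tendsto_measure_inter_div (volume : Measure ℝ) B 1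
  filter_upwards [h] with x hx
  intro j
  have h2 := hx (ι := ℕ) (l := atTop)
    (fun n => ((⌊x / (2 : ℝ) ^ (-(n : ℤ))⌋ : ℝ) + 1 / 2) * (2 : ℝ) ^ (-(n : ℤ)))
    (fun n => (1 / 2 : ℝ) * (2 : ℝ) ^ (-(n : ℤ))) ?_ ?_
  · have h3 : ∀ᶠ n : ℕ in atTop, (1 / 2 : ℝ≥0∞) < volume (B ∩ closedBall
        (((⌊x / (2 : ℝ) ^ (-(n : ℤ))⌋ : ℝ) + 1 / 2) * (2 : ℝ) ^ (-(n : ℤ)))
        ((1 / 2 : ℝ) * (2 : ℝ) ^ (-(n : ℤ)))) / volume (closedBall
        (((⌊x / (2 : ℝ) ^ (-(n : ℤ))⌋ : ℝ) + 1 / 2) * (2 : ℝ) ^ (-(n : ℤ)))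
        ((1 / 2 : ℝ) * (2 : ℝ) ^ (-(n : ℤ)))) := by
      apply h2.eventually (lt_mem_nhds _)
      exact ENNReal.half_lt_self (by simp) (by simp)
    obtain ⟨n, hn, hnj⟩ := (h3.and (eventually_gt_atTop (-j).toNat)).exists
    refine ⟨-(n : ℤ), by omega, ⌊x / (2 : ℝ) ^ (-(n : ℤ))⌋, mem_floor _ _, ?_⟩
    set k := ⌊x / (2 : ℝ) ^ (-(n : ℤ))⌋ with hk
    have e : closedBall (((k : ℝ) + 1 / 2) * (2 : ℝ) ^ (-(n : ℤ)))
        ((1 / 2 : ℝ) * (2 : ℝ) ^ (-(n : ℤ))) =
        Icc ((k : ℝ) * (2 : ℝ) ^ (-(n : ℤ))) (((k : ℝ) + 1) * (2 : ℝ) ^ (-(n : ℤ))) := by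
      rw [Real.closedBall_eq_Icc]
      congr 1 <;> ring
    rw [e] at hn
    have v1 : volume (Icc ((k : ℝ) * (2 : ℝ) ^ (-(n : ℤ)))
        (((k : ℝ) + 1) * (2 : ℝ) ^ (-(n : ℤ)))) = volume (dy (-(n : ℤ)) k) := by
      rw [dy, Real.volume_Icc, Real.volume_Ico]
    have v2 : volume (B ∩ Icc ((k : ℝ) * (2 : ℝ) ^ (-(n : ℤ)))
        (((k : ℝ) + 1) * (2 : ℝ) ^ (-(n : ℤ)))) ≤ volume (dy (-(n : ℤ)) k ∩ B) := by
      have hs : B ∩ Icc ((k : ℝ) * (2 : ℝ) ^ (-(n : ℤ)))
          (((k : ℝ) + 1) * (2 : ℝ) ^ (-(n : ℤ))) ⊆ (dy (-(n : ℤ)) k ∩ B) ∪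
          {((k : ℝ) + 1) * (2 : ℝ) ^ (-(n : ℤ))} := by
        rintro y ⟨hy, hy1, hy2⟩
        rcases eq_or_lt_of_le hy2 with h | h
        · right; exact h
        · left; exact ⟨⟨hy1, h⟩, hy⟩
      refine (measure_mono hs).trans ((measure_union_le _ _).trans ?_)
      simp
    rw [v1] at hn
    have v3 : (1 / 2 : ℝ≥0∞) < volume (dy (-(n : ℤ)) k ∩ B) / volume (dy (-(n : ℤ)) k) :=
      hn.trans_le (ENNReal.div_le_div_right v2 _)
    rw [ENNReal.lt_div_iff_mul_lt (Or.inl (vol_dy_pos _ _).ne') (Or.inl (vol_dy_ne_top _ _))] at v3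
    unfold sel
    have v4 : 2 * ((1 / 2 : ℝ≥0∞) * volume (dy (-(n : ℤ)) k)) <
        2 * volume (dy (-(n : ℤ)) k ∩ B) :=
      ENNReal.mul_lt_mul_right (by simp) (by simp) v3
    rwa [← mul_assoc, one_div, ENNReal.mul_inv_cancel (by simp) (by simp), one_mul] at v4
  · rw [tendsto_nhdsWithin_iff]
    refine ⟨?_, Eventually.of_forall fun n => ?_⟩
    · have : Tendsto (fun n : ℕ => (1 / 2 : ℝ) * (1 / 2 : ℝ) ^ n) atTop (𝓝 ((1 / 2) * 0)) :=
        (tendsto_pow_atTop_nhds_zero_of_lt_one (by norm_num) (by norm_num)).const_mul _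
      rw [mul_zero] at this
      refine this.congr fun n => ?_
      rw [zpow_neg, zpow_natCast, one_div, inv_pow]
    · have := two_pos (-(n : ℤ))
      simp only [mem_Ioi]; positivity
  · refine Eventually.of_forall fun n => ?_
    rw [one_mul, Real.closedBall_eq_Icc]
    obtain ⟨a1, a2⟩ := mem_floor (-(n : ℤ)) x
    constructor <;> nlinarith

lemma step (a : ℝ≥0∞) (ha0 : a ≠ 0) (ha : a ≠ ∞) (F F' : ℤ → ℤ → ℝ → ℝ≥0∞)
    (hF' : ∀ j k, Measurable (F' j k)) (hFF' : ∀ j k x, F j k x ≤ F' j k x)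
    (hint : ∀ j k, ∫⁻ x in dy j k, F' j k x ≤ a * volume (dy j k))
    (hsub : ∀ (j k j' k' : ℤ) (x x' : ℝ), j' < j → dy j' k' ⊆ dy j k → x ∈ dy j' k' →
      x' ∈ dy (j' + 1) (k' / 2) → F j k x ≤ F' j k x' + F j' k' x + a)
    (s c : ℝ≥0∞) (hs : ∀ j k, volume {x | x ∈ dy j k ∧ s < F j k x} ≤ c * volume (dy j k))
    (j k : ℤ) :
    volume {x | x ∈ dy j k ∧ s + 5 * a < F j k x} ≤ c / 2 * volume (dy j k) := by
  obtain ⟨B, hB⟩ : ∃ B, B = {x | x ∈ dy j k ∧ 4 * a < F' j k x} := ⟨_, rfl⟩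
  have hBQ : B ⊆ dy j k := by rw [hB]; exact fun x hx => hx.1
  have hBm : MeasurableSet B := by
    rw [hB]
    exact (meas_dy j k).inter (measurableSet_lt measurable_const (hF' j k))
  -- Markov
  have hBv : 4 * volume B ≤ volume (dy j k) := by
    have h1 := mul_meas_ge_le_lintegral (μ := volume.restrict (dy j k)) (hF' j k) (4 * a)
    have h2 : volume B ≤ (volume.restrict (dy j k)) {x | 4 * a ≤ F' j k x} := by
      rw [Measure.restrict_apply (measurableSet_le measurable_const (hF' j k))]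
      apply measure_mono
      rw [hB]
      exact fun x hx => ⟨hx.2.le, hx.1⟩
    have h3 : a * (4 * volume B) ≤ a * volume (dy j k) := by
      calc a * (4 * volume B) = (4 * a) * volume B := by ring
        _ ≤ (4 * a) * (volume.restrict (dy j k)) {x | 4 * a ≤ F' j k x} :=
          mul_le_mul' le_rfl h2
        _ ≤ _ := h1.trans (hint j k)
    exact (ENNReal.mul_le_mul_iff_right ha0 ha).1 h3
  -- the selected intervals
  obtain ⟨S, hS⟩ : ∃ S : Set (ℤ × ℤ), S = {p | p.1 < j ∧ dy p.1 p.2 ⊆ dy j k ∧ sel B p.1 p.2 ∧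
      ∀ j'' k'' : ℤ, p.1 < j'' → j'' < j → dy p.1 p.2 ⊆ dy j'' k'' → ¬ sel B j'' k''} := ⟨_, rfl⟩
  have hne : ∀ p : ℤ × ℤ, (dy p.1 p.2).Nonempty := by
    intro p
    refine nonempty_of_measure_ne_zero (μ := volume) (vol_dy_pos _ _).ne'
  have hdisj : S.PairwiseDisjoint (fun p => dy p.1 p.2 ∩ B) := by
    have key : ∀ p ∈ S, ∀ q ∈ S, p.1 ≤ q.1 → ∀ x, x ∈ dy p.1 p.2 → x ∈ dy q.1 q.2 → p = q := by
      intro p hp q hq hpq x hxp hxq
      rw [hS] at hp hq
      rcases eq_or_lt_of_le hpq with h | h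
      · rw [h] at hxp
        exact Prod.ext h (same hxp hxq)
      · exact absurd hq.2.2.1 (hp.2.2.2 q.1 q.2 h hq.1 (nest hpq hxp hxq))
    intro p hp q hq hpq
    rw [Function.onFun, Set.disjoint_left]
    rintro x ⟨hxp, _⟩ ⟨hxq, _⟩
    apply hpq
    rcases le_total p.1 q.1 with h | h
    · exact key p hp q hq h x hxp hxq
    · exact (key q hq p hp h x hxq hxp).symm
  have hnull : volume (B \ ⋃ p ∈ S, dy p.1 p.2) = 0 := by
    have h1 := (ae_restrict_iff' hBm).1 (dens B)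
    refine measure_mono_null ?_ (ae_iff.1 h1)
    rintro x ⟨hxB, hxT⟩ hx
    apply hxT
    have hx' := hx hxB
    obtain ⟨j0, ⟨h0, k0, hx0, hs0⟩, hmax⟩ := Int.exists_greatest_of_bdd
      (P := fun i => i < j ∧ ∃ k', x ∈ dy i k' ∧ sel B i k') ⟨j, fun z hz => hz.1.le⟩ (by
        obtain ⟨j', hj', k', h1, h2⟩ := hx' j
        exact ⟨j', hj', k', h1, h2⟩)
    rw [mem_iUnion₂]
    refine ⟨(j0, k0), ?_, hx0⟩
    rw [hS]
    refine ⟨h0, nest h0.le hx0 (hBQ hxB), hs0, ?_⟩
    intro j'' k'' h1 h2 h3 h4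
    have := hmax j'' ⟨h2, k'', h3 hx0, h4⟩
    simp only at h1
    omega
  have hcov : {x | x ∈ dy j k ∧ s + 5 * a < F j k x} ⊆ (B \ ⋃ p ∈ S, dy p.1 p.2) ∪
      ⋃ p ∈ S, {x | x ∈ dy p.1 p.2 ∧ s < F p.1 p.2 x} := by
    rintro x ⟨hxQ, hxF⟩
    by_cases hxB : x ∈ B
    · by_cases hxT : x ∈ ⋃ p ∈ S, dy p.1 p.2
      · right
        rw [mem_iUnion₂] at hxT ⊢
        obtain ⟨p, hp, hxp⟩ := hxT
        refine ⟨p, hp, hxp, ?_⟩
        rw [hS] at hp
        obtain ⟨p1, p2, p3, p4⟩ := hp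
        -- the parent
        have hP : ¬ sel B (p.1 + 1) (p.2 / 2) := by
          rcases eq_or_lt_of_le (show p.1 + 1 ≤ j by omega) with h | h
          · have hk : dy (p.1 + 1) (p.2 / 2) = dy j k := by
              have h1 : x ∈ dy j (p.2 / 2) := by rw [← h]; exact parent _ _ hxp
              rw [same h1 hxQ, h]
            unfold sel
            rw [hk, not_lt, inter_eq_self_of_subset_right hBQ]
            refine le_trans ?_ hBv
            exact mul_le_mul' (by norm_num) le_rfl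
          · exact p4 _ _ (by omega) h (parent _ _)
        have hPQ : dy (p.1 + 1) (p.2 / 2) ⊆ dy j k := nest (by omega) (parent _ _ hxp) hxQ
        obtain ⟨x', hx'P, hx'B⟩ : ∃ x', x' ∈ dy (p.1 + 1) (p.2 / 2) ∧ x' ∉ B := by
          by_contra hcon
          push Not at hcon
          apply hP
          unfold sel
          rw [inter_eq_self_of_subset_left hcon]
          have h1 := vol_dy_pos (p.1 + 1) (p.2 / 2)
          have h2 := vol_dy_ne_top (p.1 + 1) (p.2 / 2)
          rw [two_mul]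
          exact ENNReal.lt_add_right h2 h1.ne'
        have h4 : F' j k x' ≤ 4 * a := by
          by_contra hcon
          rw [not_le] at hcon
          apply hx'B
          rw [hB]
          exact ⟨hPQ hx'P, hcon⟩
        have h5 := hsub j k p.1 p.2 x x' p1 p2 hxp hx'P
        by_contra hcon
        rw [not_lt] at hcon
        have : F j k x ≤ s + 5 * a := by
          calc F j k x ≤ F' j k x' + F p.1 p.2 x + a := h5
            _ ≤ 4 * a + s + a := by gcongr
            _ = s + 5 * a := by ring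
        exact absurd hxF (not_lt.2 this)
      · left; exact ⟨hxB, hxT⟩
    · exfalso
      have h4 : F' j k x ≤ 4 * a := by
        by_contra hcon
        rw [not_le] at hcon
        apply hxB
        rw [hB]
        exact ⟨hxQ, hcon⟩
      have h5 : F j k x ≤ s + 5 * a := by
        calc F j k x ≤ F' j k x := hFF' j k x
          _ ≤ 4 * a := h4
          _ ≤ 5 * a := by gcongr; norm_num
          _ ≤ s + 5 * a := le_add_self
      exact absurd hxF (not_lt.2 h5)
  calc volume {x | x ∈ dy j k ∧ s + 5 * a < F j k x}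
      ≤ volume (B \ ⋃ p ∈ S, dy p.1 p.2) +
        volume (⋃ p ∈ S, {x | x ∈ dy p.1 p.2 ∧ s < F p.1 p.2 x}) :=
        (measure_mono hcov).trans (measure_union_le _ _)
    _ = volume (⋃ p ∈ S, {x | x ∈ dy p.1 p.2 ∧ s < F p.1 p.2 x}) := by rw [hnull, zero_add]
    _ ≤ ∑' p : S, volume {x | x ∈ dy (p : ℤ × ℤ).1 (p : ℤ × ℤ).2 ∧
          s < F (p : ℤ × ℤ).1 (p : ℤ × ℤ).2 x} :=
        measure_biUnion_le _ (Set.to_countable S) _
    _ ≤ ∑' p : S, 2 * c * volume (dy (p : ℤ × ℤ).1 (p : ℤ × ℤ).2 ∩ B) := by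
        apply ENNReal.tsum_le_tsum
        rintro ⟨p, hp⟩
        rw [hS] at hp
        refine (hs p.1 p.2).trans ?_
        calc c * volume (dy p.1 p.2) ≤ c * (2 * volume (dy p.1 p.2 ∩ B)) :=
              mul_le_mul' le_rfl (le_of_lt hp.2.2.1)
          _ = _ := by ring
    _ = 2 * c * volume (⋃ p ∈ S, (dy p.1 p.2 ∩ B)) := by
        rw [ENNReal.tsum_mul_left, measure_biUnion (Set.to_countable S) hdisj
          (fun p _ => (meas_dy _ _).inter hBm)]
    _ ≤ 2 * c * volume B := by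
        refine mul_le_mul' le_rfl (measure_mono ?_)
        exact iUnion₂_subset fun p _ => inter_subset_right
    _ ≤ c / 2 * volume (dy j k) := by
        have h4 : volume B ≤ volume (dy j k) / 4 := by
          rw [ENNReal.le_div_iff_mul_le (by simp) (by simp), mul_comm]
          exact hBv
        have h42 : (2 : ℝ≥0∞) * 4⁻¹ = 2⁻¹ := by
          have : (4 : ℝ≥0∞) = 2 * 2 := by norm_num
          rw [this, ENNReal.mul_inv (by simp) (by simp), ← mul_assoc,
            ENNReal.mul_inv_cancel (by simp) (by simp), one_mul]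
        calc 2 * c * volume B ≤ 2 * c * (volume (dy j k) / 4) := mul_le_mul' le_rfl h4
          _ = c * (2 * 4⁻¹) * volume (dy j k) := by rw [div_eq_mul_inv]; ring
          _ = c / 2 * volume (dy j k) := by rw [h42, div_eq_mul_inv]

lemma num (A t : ℝ) (hA : 0 < A) (ht : 0 ≤ t) :
    ((1 : ℝ) / 2) ^ ⌊t / (5 * A)⌋₊ ≤ 2 * Real.exp (-(t / (8 * A))) := by
  have hl : (0.6931471803 : ℝ) < Real.log 2 := Real.log_two_gt_d9
  set n := ⌊t / (5 * A)⌋₊ with hn
  have h1 : t / (5 * A) < n + 1 := Nat.lt_floor_add_one _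
  have e : ((1 : ℝ) / 2) ^ n = 2 * Real.exp (-(((n : ℝ) + 1) * Real.log 2)) := by
    have h2 : Real.exp (((n : ℝ) + 1) * Real.log 2) = 2 ^ (n + 1) := by
      have := Real.exp_nat_mul (Real.log 2) (n + 1)
      rw [Real.exp_log (by norm_num)] at this
      rw [← this]; push_cast; ring_nf
    rw [Real.exp_neg, h2, pow_succ, one_div, inv_pow, mul_inv]
    ring
  rw [e]
  refine mul_le_mul_of_nonneg_left (Real.exp_le_exp.2 (neg_le_neg ?_)) (by norm_num)
  have h2 : t / (8 * A) = t / (5 * A) * (5 / 8) := by field_simp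
  have h3 : 0 ≤ t / (5 * A) := by positivity
  rw [h2]
  nlinarith

end JN

open JN in
theorem stJN : StJN := by
  intro A F F' hA hF' hFF' hint hsub j k t ht
  have hstep := step (ENNReal.ofReal A) (by simpa using hA) ENNReal.ofReal_ne_top F F' hF' hFF'
    hint hsub
  have hall : ∀ n : ℕ, ∀ j k : ℤ,
      volume {x | x ∈ dy j k ∧ (n : ℝ≥0∞) * (5 * ENNReal.ofReal A) < F j k x} ≤
        (1 / 2 : ℝ≥0∞) ^ n * volume (dy j k) := by
    intro n
    induction n with
    | zero =>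
      intro j k
      rw [pow_zero, one_mul]
      exact measure_mono fun x hx => hx.1
    | succ n ih =>
      intro j k
      have h := hstep _ _ ih j k
      have e1 : ((n + 1 : ℕ) : ℝ≥0∞) * (5 * ENNReal.ofReal A) =
          (n : ℝ≥0∞) * (5 * ENNReal.ofReal A) + 5 * ENNReal.ofReal A := by
        push_cast; ring
      have e2 : (1 / 2 : ℝ≥0∞) ^ (n + 1) = (1 / 2 : ℝ≥0∞) ^ n / 2 := by
        rw [pow_succ, one_div, div_eq_mul_inv]
      rw [e1, e2]
      exact h
  set n := ⌊t / (5 * A)⌋₊ with hn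
  have h1 : (n : ℝ) * (5 * A) ≤ t := by
    have := Nat.floor_le (show 0 ≤ t / (5 * A) by positivity)
    rwa [le_div_iff₀ (by positivity)] at this
  have h2 : (n : ℝ≥0∞) * (5 * ENNReal.ofReal A) ≤ ENNReal.ofReal t := by
    have : (n : ℝ≥0∞) * (5 * ENNReal.ofReal A) = ENNReal.ofReal ((n : ℝ) * (5 * A)) := by
      rw [ENNReal.ofReal_mul (by positivity), ENNReal.ofReal_mul (by norm_num),
        ENNReal.ofReal_natCast]
      norm_num
    rw [this]
    exact ENNReal.ofReal_le_ofReal h1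
  have hsub' : {x | x ∈ dy j k ∧ ENNReal.ofReal t < F j k x} ⊆
      {x | x ∈ dy j k ∧ (n : ℝ≥0∞) * (5 * ENNReal.ofReal A) < F j k x} :=
    fun x hx => ⟨hx.1, h2.trans_lt hx.2⟩
  refine (measure_mono hsub').trans ((hall n j k).trans ?_)
  refine mul_le_mul' ?_ le_rfl
  have h3 : (1 / 2 : ℝ≥0∞) ^ n = ENNReal.ofReal (((1 : ℝ) / 2) ^ n) := by
    rw [ENNReal.ofReal_pow (by norm_num)]
    congr 1
    rw [ENNReal.ofReal_div_of_pos (by norm_num)]
    simp
  rw [h3]
  exact ENNReal.ofReal_le_ofReal (num A t hA ht)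

end Pool.Agent.Work.MP_055a27_an.Wd

end

section

/-!
# Block Wd, item JNc: the counting function of dilated disjoint dyadic intervals
-/

set_option autoImplicit false

open MeasureTheory Set Filter Topology Complex Metric
open scoped ENNReal NNReal

namespace Pool.Agent.Work.MP_055a27_an.Wd

namespace JNc

/-- the counting function -/
noncomputable def cn (T : Finset (ℤ × ℤ × ℝ)) (j : ℤ) (D : ℝ) (x : ℝ) : ℝ≥0∞ :=
  ∑ t ∈ T, if t.1 < j ∧ |x - t.2.2| < D * (2 : ℝ) ^ t.1 then 1 else 0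

lemma cn_card (T : Finset (ℤ × ℤ × ℝ)) (j : ℤ) (D : ℝ) (x : ℝ) :
    (((T.filter fun t => t.1 < j ∧ |x - t.2.2| < D * (2 : ℝ) ^ t.1).card : ℕ) : ℝ≥0∞) =
      cn T j D x := by
  rw [cn, Finset.natCast_card_filter]

lemma meas_set (t : ℤ × ℤ × ℝ) (j : ℤ) (D : ℝ) :
    MeasurableSet {x : ℝ | t.1 < j ∧ |x - t.2.2| < D * (2 : ℝ) ^ t.1} := by
  by_cases h : t.1 < j
  · simp only [h, true_and]
    exact measurableSet_lt (by fun_prop) measurable_const
  · simp only [h, false_and]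
    exact MeasurableSet.empty

lemma cn_meas (T : Finset (ℤ × ℤ × ℝ)) (j : ℤ) (D : ℝ) : Measurable (cn T j D) := by
  unfold cn
  refine Finset.measurable_fun_sum _ (fun t _ => ?_)
  exact Measurable.ite (meas_set t j D) measurable_const measurable_const

lemma two_pos (j : ℤ) : (0 : ℝ) < (2 : ℝ) ^ j := zpow_pos (by norm_num) j

lemma cn_mono (T : Finset (ℤ × ℤ × ℝ)) (j : ℤ) {D D' : ℝ} (h : D ≤ D') (x : ℝ) :
    cn T j D x ≤ cn T j D' x := by
  refine Finset.sum_le_sum (fun t _ => ?_)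
  by_cases h1 : t.1 < j ∧ |x - t.2.2| < D * (2 : ℝ) ^ t.1
  · have h2 : t.1 < j ∧ |x - t.2.2| < D' * (2 : ℝ) ^ t.1 :=
      ⟨h1.1, lt_of_lt_of_le h1.2 (mul_le_mul_of_nonneg_right h (two_pos _).le)⟩
    rw [if_pos h1, if_pos h2]
  · rw [if_neg h1]; exact zero_le

lemma dist_dy {j k : ℤ} {x y : ℝ} (hx : x ∈ dy j k) (hy : y ∈ dy j k) :
    |x - y| < (2 : ℝ) ^ j := by
  obtain ⟨h1, h2⟩ := hx
  obtain ⟨h3, h4⟩ := hy
  rw [abs_lt]
  constructor <;> nlinarith

lemma dy_half (j k : ℤ) : dy j k ⊆ dy (j + 1) (k / 2) := by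
  rintro x ⟨h1, h2⟩
  have h3 : 2 * (k / 2) ≤ k := by omega
  have h4 : k + 1 ≤ 2 * (k / 2) + 2 := by omega
  have h3' : 2 * ((k / 2 : ℤ) : ℝ) ≤ k := by exact_mod_cast h3
  have h4' : (k : ℝ) + 1 ≤ 2 * ((k / 2 : ℤ) : ℝ) + 2 := by exact_mod_cast h4
  have h5 : (2 : ℝ) ^ (j + 1) = 2 * (2 : ℝ) ^ j := by
    rw [zpow_add₀ (by norm_num), zpow_one, mul_comm]
  have h6 := two_pos j
  constructor
  · rw [h5]
    refine le_trans ?_ h1
    nlinarith
  · rw [h5]
    refine lt_of_lt_of_le h2 ?_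
    nlinarith

lemma vol_dy (j k : ℤ) : volume (dy j k) = ENNReal.ofReal ((2 : ℝ) ^ j) := by
  rw [dy, Real.volume_Ico]
  congr 1
  ring

lemma cn_rec (T : Finset (ℤ × ℤ × ℝ)) {j j' k' : ℤ} {D x x' : ℝ} (hx : x ∈ dy j' k')
    (hx' : x' ∈ dy (j' + 1) (k' / 2)) :
    cn T j D x ≤ cn T j (D + 2) x' + cn T j' D x := by
  rw [cn, cn, cn, ← Finset.sum_add_distrib]
  refine Finset.sum_le_sum (fun t _ => ?_)
  by_cases h1 : t.1 < j ∧ |x - t.2.2| < D * (2 : ℝ) ^ t.1
  · by_cases h2 : t.1 < j'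
    · rw [if_pos h1, if_pos (⟨h2, h1.2⟩ : t.1 < j' ∧ _)]
      exact le_add_self
    · have h3 : |x - x'| < (2 : ℝ) ^ (j' + 1) := dist_dy (dy_half _ _ hx) hx'
      have h4 : (2 : ℝ) ^ (j' + 1) ≤ (2 : ℝ) ^ (t.1 + 1) :=
        zpow_le_zpow_right₀ (by norm_num) (by omega)
      have h5 : (2 : ℝ) ^ (t.1 + 1) = 2 * (2 : ℝ) ^ t.1 := by
        rw [zpow_add₀ (by norm_num), zpow_one, mul_comm]
      have h6 : |x' - t.2.2| < (D + 2) * (2 : ℝ) ^ t.1 := by
        have h7 : x' - t.2.2 = (x - t.2.2) - (x - x') := by ring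
        rw [h7]
        refine lt_of_le_of_lt (abs_sub _ _) ?_
        rw [add_mul]
        linarith [h1.2]
      rw [if_pos h1, if_pos (⟨h1.1, h6⟩ : t.1 < j ∧ _)]
      exact le_self_add
  · rw [if_neg h1]; exact zero_le

lemma cn_int (T : Finset (ℤ × ℤ × ℝ)) (hT : ∀ t ∈ T, t.2.2 ∈ dy t.1 t.2.1)
    (hd : ∀ t ∈ T, ∀ t' ∈ T, t ≠ t' → Disjoint (dy t.1 t.2.1) (dy t'.1 t'.2.1)) (j k : ℤ) {D : ℝ}
    (hD : 0 ≤ D) : ∫⁻ x in dy j k, cn T j D x ≤
      ENNReal.ofReal (2 * D * (D + 2)) * volume (dy j k) := by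
  classical
  have hj := two_pos j
  unfold cn
  rw [lintegral_finsetSum _ (fun t _ =>
    Measurable.ite (meas_set t j D) measurable_const measurable_const)]
  set G : Finset (ℤ × ℤ × ℝ) := T.filter (fun t => t.1 < j ∧ ∃ y ∈ dy j k,
    |y - t.2.2| < D * (2 : ℝ) ^ t.1) with hG
  have h1 : ∀ t ∈ T, t ∉ G → ∫⁻ x in dy j k,
      (if t.1 < j ∧ |x - t.2.2| < D * (2 : ℝ) ^ t.1 then (1 : ℝ≥0∞) else 0) = 0 := by
    intro t ht hG'
    have h2 : ∫⁻ x in dy j k,
      (if t.1 < j ∧ |x - t.2.2| < D * (2 : ℝ) ^ t.1 then (1 : ℝ≥0∞) else 0) =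
      ∫⁻ x in dy j k, (0 : ℝ≥0∞) := by
      refine setLIntegral_congr_fun measurableSet_Ico (fun x hx => ?_)
      refine if_neg (fun h => hG' ?_)
      rw [hG, Finset.mem_filter]
      exact ⟨ht, h.1, x, hx, h.2⟩
    rw [h2, lintegral_zero]
  have h2 : ∀ t ∈ G, ∫⁻ x in dy j k,
      (if t.1 < j ∧ |x - t.2.2| < D * (2 : ℝ) ^ t.1 then (1 : ℝ≥0∞) else 0) ≤
      ENNReal.ofReal (2 * D) * volume (dy t.1 t.2.1) := by
    intro t ht
    calc ∫⁻ x in dy j k,
        (if t.1 < j ∧ |x - t.2.2| < D * (2 : ℝ) ^ t.1 then (1 : ℝ≥0∞) else 0)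
        ≤ ∫⁻ x, (Ioo (t.2.2 - D * (2 : ℝ) ^ t.1) (t.2.2 + D * (2 : ℝ) ^ t.1)).indicator
          (fun _ => (1 : ℝ≥0∞)) x := by
          refine le_trans (setLIntegral_le_lintegral _ _) (lintegral_mono (fun x => ?_))
          dsimp only
          by_cases h : t.1 < j ∧ |x - t.2.2| < D * (2 : ℝ) ^ t.1
          · rw [if_pos h, indicator_of_mem]
            have h3 := abs_lt.1 h.2
            constructor <;> linarith [h3.1, h3.2]
          · rw [if_neg h]; exact zero_le
      _ = ENNReal.ofReal (2 * D) * volume (dy t.1 t.2.1) := by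
          rw [lintegral_indicator measurableSet_Ioo, lintegral_const, one_mul,
            Measure.restrict_apply_univ, Real.volume_Ioo, vol_dy,
            ← ENNReal.ofReal_mul (by linarith)]
          congr 1
          ring
  have h3 : ∑ t ∈ G, volume (dy t.1 t.2.1) ≤ ENNReal.ofReal (D + 2) * volume (dy j k) := by
    rw [← measure_biUnion_finset (fun t ht t' ht' hne =>
      hd t (Finset.mem_filter.1 ht).1 t' (Finset.mem_filter.1 ht').1 hne)
      (fun t _ => measurableSet_Ico)]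
    have h4 : (⋃ t ∈ G, dy t.1 t.2.1) ⊆ Icc ((k : ℝ) * (2 : ℝ) ^ j - (D + 1) / 2 * (2 : ℝ) ^ j)
        (((k : ℝ) + 1) * (2 : ℝ) ^ j + (D + 1) / 2 * (2 : ℝ) ^ j) := by
      intro x hx
      rw [mem_iUnion₂] at hx
      obtain ⟨t, ht, hx⟩ := hx
      obtain ⟨htT, htj, y, hy, hyt⟩ := Finset.mem_filter.1 ht
      have h5 := dist_dy hx (hT t htT)
      have h6 : (2 : ℝ) ^ t.1 ≤ (2 : ℝ) ^ j / 2 := by
        have h7 : (2 : ℝ) ^ (t.1 + 1) ≤ (2 : ℝ) ^ j :=
          zpow_le_zpow_right₀ (by norm_num) (by omega)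
        rw [zpow_add₀ (by norm_num), zpow_one] at h7
        linarith
      have h7 : D * (2 : ℝ) ^ t.1 ≤ D * ((2 : ℝ) ^ j / 2) := mul_le_mul_of_nonneg_left h6 hD
      have h8 := abs_lt.1 h5
      have h9 := abs_lt.1 hyt
      have h10 := hy.1
      have h11 := hy.2
      constructor
      · linarith [h8.1, h8.2, h9.1, h9.2]
      · linarith [h8.1, h8.2, h9.1, h9.2]
    refine le_trans (measure_mono h4) ?_
    rw [Real.volume_Icc, vol_dy, ← ENNReal.ofReal_mul (by linarith)]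
    refine ENNReal.ofReal_le_ofReal (le_of_eq ?_)
    ring
  calc ∑ t ∈ T, ∫⁻ x in dy j k,
        (if t.1 < j ∧ |x - t.2.2| < D * (2 : ℝ) ^ t.1 then (1 : ℝ≥0∞) else 0)
      = ∑ t ∈ G, ∫⁻ x in dy j k,
        (if t.1 < j ∧ |x - t.2.2| < D * (2 : ℝ) ^ t.1 then (1 : ℝ≥0∞) else 0) :=
        (Finset.sum_subset (Finset.filter_subset _ _) h1).symm
    _ ≤ ∑ t ∈ G, ENNReal.ofReal (2 * D) * volume (dy t.1 t.2.1) := Finset.sum_le_sum h2
    _ = ENNReal.ofReal (2 * D) * ∑ t ∈ G, volume (dy t.1 t.2.1) := by rw [Finset.mul_sum]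
    _ ≤ ENNReal.ofReal (2 * D) * (ENNReal.ofReal (D + 2) * volume (dy j k)) := by gcongr
    _ = ENNReal.ofReal (2 * D * (D + 2)) * volume (dy j k) := by
        rw [← mul_assoc, ← ENNReal.ofReal_mul (by linarith)]

end JNc

theorem stJNc (hJN : StJN) : StJNc := by
  refine ⟨1 / 240, by norm_num, fun D T hD hT hd j k n hn => ?_⟩
  have h := hJN (30 * D ^ 2) (fun j _ x => JNc.cn T j D x) (fun j _ x => JNc.cn T j (D + 2) x)
    (by positivity) (fun j _ => JNc.cn_meas T j (D + 2))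
    (fun j _ x => JNc.cn_mono T j (by linarith) x) ?_ ?_ j k n hn
  · refine le_trans (measure_mono ?_) (le_trans h ?_)
    · rintro x ⟨hx, hnx⟩
      refine ⟨hx, ?_⟩
      rw [← JNc.cn_card, ← ENNReal.ofReal_natCast]
      exact (ENNReal.ofReal_lt_ofReal_iff_of_nonneg hn).2 hnx
    · refine mul_le_mul_left (ENNReal.ofReal_le_ofReal (le_of_eq ?_)) _
      congr 2
      have : D ≠ 0 := by positivity
      field_simp
      ring
  · intro j k
    refine le_trans (JNc.cn_int T hT hd j k (by linarith)) ?_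
    refine mul_le_mul_left (ENNReal.ofReal_le_ofReal ?_) _
    nlinarith
  · intro j k j' k' x x' _ _ hx hx'
    exact le_trans (JNc.cn_rec T hx hx') le_self_add

end Pool.Agent.Work.MP_055a27_an.Wd

end

section

set_option autoImplicit false

/-!
# Wide cones, item LapN: the mean value inequality implies a nonpositive Laplacian
-/

open MeasureTheory Set Filter Topology Complex Metric
open scoped ENNReal NNReal

namespace Pool.Agent.Work.MP_055a27_an.Wd

namespace LapN

lemma int_rot (v : ℂ → ℝ) (z a : ℂ) (ha : ‖a‖ = 1) (r : ℝ) :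
    ∫ h in ball (0 : ℂ) r, v (z + a * h) = ∫ w in ball z r, v w := by
  let R : ℂ ≃ₗᵢ[ℝ] ℂ := rotation ⟨a, mem_sphere_zero_iff_norm.mpr ha⟩
  have hRa : ∀ h, R h = a * h := fun h => rfl
  have hm : MeasurePreserving (fun h : ℂ => z + R h) volume volume :=
    (measurePreserving_add_left volume z).comp R.measurePreserving
  have he : MeasurableEmbedding (fun h : ℂ => z + R h) :=
    (measurableEmbedding_addLeft z).comp R.toHomeomorph.measurableEmbedding
  have hpre : (fun h : ℂ => z + R h) ⁻¹' ball z r = ball 0 r := by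
    ext h
    simp [dist_eq_norm]
  have h := hm.setIntegral_preimage_emb he v (ball z r)
  rw [hpre] at h
  simpa [hRa] using h

lemma taylor (v : ℂ → ℝ) (z : ℂ) (hv : ContDiffAt ℝ 2 v z) (ε : ℝ) (hε : 0 < ε) :
    ∃ δ : ℝ, 0 < δ ∧ ∀ h : ℂ, ‖h‖ < δ →
      |v (z + h) - v z - fderiv ℝ v z h - 1 / 2 * fderiv ℝ (fderiv ℝ v) z h h| ≤
        ε * ‖h‖ ^ 2 := by
  have hsymm : IsSymmSndFDerivAt ℝ v z := hv.isSymmSndFDerivAt (by simp)
  have hd1 : ∀ᶠ y in 𝓝 z, DifferentiableAt ℝ v y := by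
    filter_upwards [hv.eventually (by simp)] with y hy
    exact hy.differentiableAt (by norm_num)
  have h2 : HasFDerivAt (fderiv ℝ v) (fderiv ℝ (fderiv ℝ v) z) z :=
    ((hv.fderiv_right (m := 1) (by norm_num)).differentiableAt (by norm_num)).hasFDerivAt
  have h3 := (hasFDerivAt_iff_isLittleO_nhds_zero.mp h2).def hε
  have h4 : ∀ᶠ h in 𝓝 (0 : ℂ), DifferentiableAt ℝ v (z + h) := by
    have ht : Tendsto (fun h : ℂ => z + h) (𝓝 0) (𝓝 z) :=
      Continuous.tendsto' (by fun_prop) 0 z (add_zero z)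
    exact ht.eventually hd1
  obtain ⟨δ, hδ, h5⟩ := Metric.eventually_nhds_iff_ball.mp (h3.and h4)
  refine ⟨δ, hδ, fun h hh => ?_⟩
  have key := Convex.norm_image_sub_le_of_norm_hasFDerivWithin_le
    (f := fun x : ℂ => v (z + x) - v z - fderiv ℝ v z x -
      1 / 2 * fderiv ℝ (fderiv ℝ v) z x x)
    (f' := fun x : ℂ => fderiv ℝ v (z + x) - fderiv ℝ v z - fderiv ℝ (fderiv ℝ v) z x)
    (C := ε * ‖h‖) (s := closedBall (0 : ℂ) ‖h‖) (x := 0) (y := h) ?_ ?_
    (convex_closedBall _ _) (mem_closedBall_self (norm_nonneg _)) (by simp)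
  · simp only [add_zero, map_zero, sub_self, mul_zero, sub_zero, Real.norm_eq_abs] at key
    calc _ ≤ ε * ‖h‖ * ‖h‖ := key
      _ = ε * ‖h‖ ^ 2 := by ring
  · intro x hx
    have hxδ : x ∈ ball (0 : ℂ) δ := by
      rw [mem_closedBall_zero_iff] at hx
      rw [mem_ball_zero_iff]
      linarith
    have hdx : HasFDerivAt (fun x : ℂ => v (z + x)) (fderiv ℝ v (z + x)) x := by
      have h6 : HasFDerivAt (v ∘ fun x : ℂ => z + x)
          ((fderiv ℝ v (z + x)).comp (ContinuousLinearMap.id ℝ ℂ)) x :=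
        (h5 x hxδ).2.hasFDerivAt.comp x ((hasFDerivAt_id x).const_add z)
      rw [ContinuousLinearMap.comp_id] at h6
      exact h6
    have hq : HasFDerivAt (fun x : ℂ => fderiv ℝ (fderiv ℝ v) z x x)
        ((fderiv ℝ (fderiv ℝ v) z x).comp (ContinuousLinearMap.id ℝ ℂ) +
          (fderiv ℝ (fderiv ℝ v) z).flip x) x :=
      ((fderiv ℝ (fderiv ℝ v) z).hasFDerivAt (x := x)).clm_apply (hasFDerivAt_id x)
    have h7 := ((hdx.sub_const (v z)).sub ((fderiv ℝ v z).hasFDerivAt (x := x))).sub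
      (hq.const_mul (1 / 2 : ℝ))
    refine (h7.congr_fderiv ?_).hasFDerivWithinAt
    ext w
    · have h8 : (fderiv ℝ (fderiv ℝ v) z w) x = (fderiv ℝ (fderiv ℝ v) z x) w := hsymm w x
      simp only [_root_.sub_apply, _root_.smul_apply,
        _root_.add_apply, ContinuousLinearMap.comp_apply,
        ContinuousLinearMap.flip_apply, ContinuousLinearMap.id_apply, smul_eq_mul, h8]
      ring
  · intro x hx
    have hxδ : x ∈ ball (0 : ℂ) δ := by
      rw [mem_closedBall_zero_iff] at hx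
      rw [mem_ball_zero_iff]
      linarith
    refine ((h5 x hxδ).1).trans ?_
    rw [mem_closedBall_zero_iff] at hx
    exact mul_le_mul_of_nonneg_left hx hε.le

/-- the symmetrised second derivative -/
lemma sym_bil (D : ℂ →L[ℝ] ℂ →L[ℝ] ℝ) (hD : ∀ x y, D x y = D y x) (h : ℂ) :
    D h h + D (I * h) (I * h) = ‖h‖ ^ 2 * (D 1 1 + D I I) := by
  have e1 : h = h.re • (1 : ℂ) + h.im • I := by
    apply Complex.ext <;> simp
  have e2 : I * h = (-h.im) • (1 : ℂ) + h.re • I := by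
    apply Complex.ext <;> simp
  have e3 : D h h = h.re ^ 2 * D 1 1 + 2 * h.re * h.im * D 1 I + h.im ^ 2 * D I I := by
    conv_lhs => rw [e1]
    simp only [map_add, map_smul, _root_.add_apply, _root_.smul_apply, smul_eq_mul, hD I 1]
    ring
  have e4 : D (I * h) (I * h) = h.im ^ 2 * D 1 1 - 2 * h.re * h.im * D 1 I + h.re ^ 2 * D I I := by
    rw [e2]
    simp only [map_add, map_smul, _root_.add_apply, _root_.smul_apply, smul_eq_mul, hD I 1]
    ring
  have e5 : ‖h‖ ^ 2 = h.re ^ 2 + h.im ^ 2 := by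
    rw [Complex.sq_norm, Complex.normSq_apply]
    ring
  rw [e3, e4, e5]
  ring

end LapN

theorem stLapN : StLapN := by
  rintro v z hv ⟨r0, hr0, hmean⟩
  by_contra hcon
  push Not at hcon
  have hsymm : IsSymmSndFDerivAt ℝ v z := hv.isSymmSndFDerivAt (by simp)
  have hLap : Laplacian.laplacian v z = fderiv ℝ (fderiv ℝ v) z 1 1 +
      fderiv ℝ (fderiv ℝ v) z I I := by
    have h := congrFun (InnerProductSpace.laplacian_eq_iteratedFDeriv_complexPlane v) z
    rw [h]
    simp only [iteratedFDeriv_two_apply]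
    rfl
  generalize hΔ : Laplacian.laplacian v z = Δ at hcon hLap
  obtain ⟨δ, hδ, htay⟩ := LapN.taylor v z hv (Δ / 8) (by positivity)
  -- continuity near `z`
  obtain ⟨δ', hδ', hcont⟩ : ∃ δ' : ℝ, 0 < δ' ∧ ContinuousOn v (ball z δ') := by
    obtain ⟨δ', hδ', h⟩ := Metric.eventually_nhds_iff_ball.mp (hv.eventually (by simp))
    exact ⟨δ', hδ', fun y hy => (h y hy).continuousAt.continuousWithinAt⟩
  obtain ⟨r, hr, hr1, hr2, hr3⟩ : ∃ r : ℝ, 0 < r ∧ r < r0 ∧ r < δ ∧ r < δ' := by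
    refine ⟨min r0 (min δ δ') / 2, by positivity, ?_, ?_, ?_⟩
    · have := min_le_left r0 (min δ δ')
      have := lt_min hr0 (lt_min hδ hδ')
      linarith
    · have := (min_le_right r0 (min δ δ')).trans (min_le_left _ _)
      have := lt_min hr0 (lt_min hδ hδ')
      linarith
    · have := (min_le_right r0 (min δ δ')).trans (min_le_right _ _)
      have := lt_min hr0 (lt_min hδ hδ')
      linarith
  have hint : ∀ a : ℂ, ‖a‖ = 1 → IntegrableOn (fun h : ℂ => v (z + a * h)) (ball 0 r) := by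
    intro a ha
    have hc : ContinuousOn (fun h : ℂ => v (z + a * h)) (closedBall 0 r) := by
      refine hcont.comp (by fun_prop) ?_
      intro h hh
      rw [mem_closedBall_zero_iff] at hh
      rw [mem_ball, dist_eq_norm, add_sub_cancel_left, norm_mul, ha, one_mul]
      linarith
    exact (hc.integrableOn_compact (isCompact_closedBall _ _)).mono_set ball_subset_closedBall
  have hnI : ‖I‖ = 1 := Complex.norm_I
  have hn1 : ‖(1 : ℂ)‖ = 1 := norm_one
  have hnI' : ‖-I‖ = 1 := by rw [norm_neg, hnI]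
  have hn1' : ‖(-1 : ℂ)‖ = 1 := by rw [norm_neg, hn1]
  -- the mean value inequality
  have hle : ∫ w in ball z r, v w ≤ volume.real (ball z r) * v z := by
    have h := hmean r hr hr1
    rw [setAverage_eq, smul_eq_mul] at h
    have hpos : 0 < volume.real (ball z r) := by
      rw [measureReal_def]
      exact ENNReal.toReal_pos (measure_ball_pos _ _ hr).ne' measure_ball_lt_top.ne
    rwa [inv_mul_le_iff₀ hpos] at h
  have hvol : volume.real (ball (0 : ℂ) r) = volume.real (ball z r) := by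
    rw [measureReal_def, measureReal_def, Measure.addHaar_ball_center volume z r]
  -- the symmetrised function
  have hsum : ∫ h in ball (0 : ℂ) r, (v (z + 1 * h) + v (z + -1 * h) + v (z + I * h) +
      v (z + -I * h)) = 4 * ∫ w in ball z r, v w := by
    have i2 : IntegrableOn (fun h : ℂ => v (z + 1 * h) + v (z + -1 * h)) (ball 0 r) :=
      (hint 1 hn1).add (hint (-1) hn1')
    have i3 : IntegrableOn (fun h : ℂ => v (z + 1 * h) + v (z + -1 * h) + v (z + I * h))
      (ball 0 r) := i2.add (hint I hnI)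
    rw [integral_add i3 (hint (-I) hnI'), integral_add i2 (hint I hnI),
      integral_add (hint 1 hn1) (hint (-1) hn1'),
      LapN.int_rot v z 1 hn1, LapN.int_rot v z (-1) hn1', LapN.int_rot v z I hnI,
      LapN.int_rot v z (-I) hnI']
    ring
  have hlow : ∀ h ∈ ball (0 : ℂ) r, 4 * v z + Δ / 2 * ‖h‖ ^ 2 ≤
      v (z + 1 * h) + v (z + -1 * h) + v (z + I * h) + v (z + -I * h) := by
    intro h hh
    rw [mem_ball_zero_iff] at hh
    have hb := LapN.sym_bil (fderiv ℝ (fderiv ℝ v) z) (fun x y => hsymm x y) h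
    rw [← hLap] at hb
    have hnh : ‖I * h‖ = ‖h‖ := by rw [norm_mul, hnI, one_mul]
    have t1 := (abs_le.mp (htay h (by linarith))).1
    have t2 := (abs_le.mp (htay (-h) (by rw [norm_neg]; linarith))).1
    have t3 := (abs_le.mp (htay (I * h) (by rw [hnh]; linarith))).1
    have t4 := (abs_le.mp (htay (-(I * h)) (by rw [norm_neg, hnh]; linarith))).1
    simp only [map_neg, _root_.neg_apply, neg_neg, norm_neg, hnh] at t1 t2 t3 t4
    have e1 : z + 1 * h = z + h := by ring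
    have e2 : z + -1 * h = z + -h := by ring
    have e3 : z + -I * h = z + -(I * h) := by ring
    rw [e1, e2, e3]
    linarith
  have hsqi : IntegrableOn (fun h : ℂ => ‖h‖ ^ 2) (ball 0 r) :=
    ((by fun_prop : Continuous fun h : ℂ => ‖h‖ ^ 2).continuousOn.integrableOn_compact
      (isCompact_closedBall 0 r)).mono_set ball_subset_closedBall
  have hconsti : IntegrableOn (fun _ : ℂ => 4 * v z) (ball 0 r) :=
    integrableOn_const measure_ball_lt_top.ne
  have hint2 : ∫ h in ball (0 : ℂ) r, (4 * v z + Δ / 2 * ‖h‖ ^ 2) ≤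
      4 * ∫ w in ball z r, v w := by
    rw [← hsum]
    exact setIntegral_mono_on (hconsti.add (hsqi.const_mul _))
      ((((hint 1 hn1).add (hint (-1) hn1')).add (hint I hnI)).add (hint (-I) hnI'))
      measurableSet_ball hlow
  rw [integral_add hconsti (hsqi.const_mul _), setIntegral_const, smul_eq_mul,
    integral_const_mul, hvol] at hint2
  have hpos : 0 < ∫ h in ball (0 : ℂ) r, ‖h‖ ^ 2 := by
    rw [setIntegral_pos_iff_support_of_nonneg_ae (Eventually.of_forall fun h => by positivity)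
      hsqi]
    have hs : (Function.support fun h : ℂ => ‖h‖ ^ 2) ∩ ball 0 r = ball 0 r \ {0} := by
      ext h
      simp [Function.mem_support, and_comm]
    rw [hs, measure_sdiff_null (measure_singleton _)]
    exact measure_ball_pos _ _ hr
  nlinarith [mul_pos hcon hpos]

end Pool.Agent.Work.MP_055a27_an.Wd

end

section

/-!
# The estimate near a point where `v` is nearly minimal
-/

set_option autoImplicit false

open MeasureTheory Set Filter Topology Complex Metric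
open scoped ENNReal NNReal

namespace Pool.Agent.Work.MP_055a27_an.Wd

open Crit (NTc Nice NI)
open Fn (StarC)
open Sg (An)

namespace Loc

lemma mem_uhp {z : ℂ} (h : 0 < z.im) : z ∈ uhp := h

lemma mem_co {b : ℝ} {e : ℂ} (h : |e.re| ≤ b * e.im) : e ∈ Co b := h

/-- the geometric inequality for the decaying factor -/
lemma geo {ξ : ℂ} {r : ℝ} (hr : 0 < r) (hz : -(r / 2) ≤ ξ.im) :
    ‖ξ‖ + r ≤ 5 * ‖ξ + I * r‖ := by
  have him : (ξ + I * r).im = ξ.im + r := by simp
  have h1 : ξ.im + r ≤ ‖ξ + I * r‖ := by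
    rw [← him]
    exact (le_abs_self _).trans (Complex.abs_im_le_norm _)
  have h2 : ‖ξ‖ ≤ ‖ξ + I * r‖ + r := by
    have h3 : ξ = (ξ + I * r) - I * r := by ring
    have h4 : ‖I * (r : ℂ)‖ = r := by
      rw [norm_mul, Complex.norm_I, one_mul, Complex.norm_real, Real.norm_of_nonneg hr.le]
    calc ‖ξ‖ = ‖(ξ + I * r) - I * r‖ := by rw [← h3]
      _ ≤ ‖ξ + I * r‖ + ‖I * (r : ℂ)‖ := norm_sub_le _ _
      _ = _ := by rw [h4]
  linarith

lemma ne0 {ξ : ℂ} {r : ℝ} (hr : 0 < r) (hz : -(r / 2) ≤ ξ.im) : ξ + I * r ≠ 0 := by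
  intro h
  have := geo hr hz
  rw [h, norm_zero, mul_zero] at this
  have := norm_nonneg ξ
  linarith

/-- the decaying factor -/
lemma fac {ξ : ℂ} {r : ℝ} (hr : 0 < r) (hz : -(r / 2) ≤ ξ.im) :
    ‖I * r / (ξ + I * r)‖ ≤ 5 / (1 + ‖ξ‖ / r) := by
  have h1 := geo hr hz
  have h0 : 0 < ‖ξ + I * r‖ := norm_pos_iff.2 (ne0 hr hz)
  have h4 : ‖I * (r : ℂ)‖ = r := by
    rw [norm_mul, Complex.norm_I, one_mul, Complex.norm_real, Real.norm_of_nonneg hr.le]
  rw [norm_div, h4]
  have h5 : 1 + ‖ξ‖ / r = (‖ξ‖ + r) / r := by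
    field_simp
    ring
  rw [h5, div_le_div_iff₀ h0 (by have := norm_nonneg ξ; positivity)]
  rw [mul_div_assoc', div_le_iff₀ hr]
  nlinarith

/-- The function. -/
noncomputable def GF (F : ℂ → ℂ) (w : ℂ) (x0 r : ℝ) (m : ℕ) (z : ℂ) : ℂ :=
  F (z + (w - x0)) * (I * r / ((z - x0) + I * r)) ^ m

/-- the main bound -/
lemma star {F : ℂ → ℂ} {w : ℂ} {x0 r : ℝ} {m : ℕ} {p CH A : ℝ} {v : ℂ → ℝ} (hr : 0 < r)
    (hrw : r ≤ w.im / 8) (hp : 0 < p) (hCH : 1 ≤ CH) (hm : A + 2 ≤ m * p)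
    (hF : ∀ z : ℂ, r ≤ z.im →
      ‖F z‖ ^ p ≤ CH * Real.exp (v w - v (z - (r / 4 : ℝ) * I)) * (1 + ‖z - w‖ / r) ^ A)
    {z : ℂ} (hz : -(r / 2) ≤ z.im) :
    ‖GF F w x0 r m z‖ ^ p ≤ (CH * 5 ^ (m * p)) *
      Real.exp (v w - v (z + (w - x0) - (r / 4 : ℝ) * I)) * (1 + ‖z - x0‖ / r) ^ (-(2 : ℝ)) := by
  have hξ : -(r / 2) ≤ (z - (x0 : ℂ)).im := by simpa using hz
  have him : (z + (w - x0)).im = z.im + w.im := by simp
  have h1 := hF (z + (w - x0)) (by rw [him]; linarith)
  have h2 : z + (w - x0) - w = z - x0 := by ring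
  rw [h2] at h1
  set s : ℝ := 1 + ‖z - (x0 : ℂ)‖ / r with hs
  have hs1 : 1 ≤ s := by
    have : 0 ≤ ‖z - (x0 : ℂ)‖ / r := by positivity
    linarith
  have hs0 : 0 < s := by linarith
  have h3 := fac hr hξ
  unfold GF
  rw [norm_mul, norm_pow, Real.mul_rpow (norm_nonneg _) (by positivity)]
  have h4 : (‖I * r / ((z - (x0 : ℂ)) + I * r)‖ ^ m) ^ p ≤ (5 : ℝ) ^ (m * p) * s ^ (-(m * p)) := by
    rw [← Real.rpow_natCast, ← Real.rpow_mul (norm_nonneg _)]
    calc ‖I * r / ((z - (x0 : ℂ)) + I * r)‖ ^ ((m : ℝ) * p) ≤ (5 / s) ^ ((m : ℝ) * p) :=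
          Real.rpow_le_rpow (norm_nonneg _) h3 (by positivity)
      _ = 5 ^ (m * p) * s ^ (-(m * p)) := by
          rw [Real.div_rpow (by norm_num) hs0.le, Real.rpow_neg hs0.le, div_eq_mul_inv]
  calc ‖F (z + (w - x0))‖ ^ p * (‖I * r / ((z - (x0 : ℂ)) + I * r)‖ ^ m) ^ p
      ≤ (CH * Real.exp (v w - v (z + (w - x0) - (r / 4 : ℝ) * I)) * s ^ A) *
        ((5 : ℝ) ^ (m * p) * s ^ (-(m * p))) := by
        apply mul_le_mul h1 h4 (by positivity)
        have := Real.exp_pos (v w - v (z + (w - x0) - (r / 4 : ℝ) * I))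
        have h9 : 0 < CH := by linarith
        positivity
    _ = (CH * 5 ^ (m * p)) * Real.exp (v w - v (z + (w - x0) - (r / 4 : ℝ) * I)) *
        (s ^ A * s ^ (-(m * p))) := by ring
    _ ≤ (CH * 5 ^ (m * p)) * Real.exp (v w - v (z + (w - x0) - (r / 4 : ℝ) * I)) *
        s ^ (-(2 : ℝ)) := by
        apply mul_le_mul_of_nonneg_left _
        · have := Real.exp_pos (v w - v (z + (w - x0) - (r / 4 : ℝ) * I))
          have h9 : 0 < CH := by linarith
          positivity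
        · rw [← Real.rpow_add hs0]
          exact Real.rpow_le_rpow_of_exponent_le hs1 (by linarith)

lemma diffAt {F : ℂ → ℂ} {w : ℂ} {x0 r : ℝ} {m : ℕ} (hr : 0 < r) (hrw : r ≤ w.im / 8)
    (hFd : DifferentiableOn ℂ F uhp) {z : ℂ} (hz : -(r / 2) ≤ z.im) :
    DifferentiableAt ℂ (GF F w x0 r m) z := by
  have hξ : -(r / 2) ≤ (z - (x0 : ℂ)).im := by simpa using hz
  have him : (z + (w - x0)).im = z.im + w.im := by simp
  have hopen : IsOpen uhp := isOpen_lt continuous_const Complex.continuous_im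
  have h1 : DifferentiableAt ℂ F (z + (w - x0)) := by
    apply hFd.differentiableAt (hopen.mem_nhds (mem_uhp _))
    rw [him]; linarith
  have h2 : DifferentiableAt ℂ (fun z : ℂ => F (z + (w - x0))) z :=
    h1.comp (f := fun z : ℂ => z + (w - x0)) z (by fun_prop)
  have h3 : DifferentiableAt ℂ (fun z : ℂ => I * r / ((z - (x0 : ℂ)) + I * r)) z := by
    apply DifferentiableAt.div (by fun_prop) (by fun_prop)
    exact ne0 hr hξ
  exact h2.mul (h3.pow m)

lemma rpow_le_root {x K p : ℝ} (hx : 0 ≤ x) (hp : 0 < p) (h : x ^ p ≤ K) : x ≤ K ^ (1 / p) := by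
  calc x = (x ^ p) ^ (1 / p) := by
        rw [← Real.rpow_mul hx, mul_one_div_cancel hp.ne', Real.rpow_one]
    _ ≤ K ^ (1 / p) := Real.rpow_le_rpow (by positivity) h (by positivity)

end Loc

theorem stLoc (hHor : StHor) (hZb : StZb) (hDec : StDec) : StLoc := by
  intro C0 lam b p hlam hlb hp
  have hb : 0 < b := hlam.trans hlb
  obtain ⟨CH, A, hCH, hA, hHor⟩ := hHor b p hb hp
  obtain ⟨CZ, hCZ, hZb⟩ := hZb b hb
  obtain ⟨m, hm⟩ := exists_nat_ge ((A + 2) / p)
  have hm' : A + 2 ≤ m * p := by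
    rw [div_le_iff₀ hp] at hm
    exact hm
  set K5 : ℝ := CH * 5 ^ ((m : ℝ) * p) with hK5
  have h5 : (1 : ℝ) ≤ 5 ^ ((m : ℝ) * p) := Real.one_le_rpow (by norm_num) (by positivity)
  have hK51 : 1 ≤ K5 := by nlinarith
  have hK50 : 0 < K5 := by linarith
  set B1 : ℝ := (K5 * Real.exp 1) ^ (1 / p) with hB1
  have hB11 : 1 ≤ B1 := by
    apply Real.one_le_rpow _ (by positivity)
    have := Real.one_le_exp (zero_le_one (α := ℝ))
    nlinarith
  have hB10 : 0 < B1 := by linarith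
  set c3 : ℝ := min (b / 12) (1 / (320 * (1 + lam) * B1)) with hc3
  have hc30 : 0 < c3 := by
    apply lt_min <;> positivity
  have hc3b : c3 ≤ b / 12 := min_le_left _ _
  have hc3B : c3 * (320 * (1 + lam) * B1) ≤ 1 := by
    have h := min_le_right (b / 12) (1 / (320 * (1 + lam) * B1))
    rw [← hc3, le_div_iff₀ (by positivity)] at h
    exact h
  have hc3B' : 10 * (1 + lam) * c3 * (32 * B1) ≤ 1 := by
    calc 10 * (1 + lam) * c3 * (32 * B1) = c3 * (320 * (1 + lam) * B1) := by ring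
      _ ≤ 1 := hc3B
  have hc31 : c3 ≤ 1 := by
    have h1 : 1 ≤ 320 * (1 + lam) * B1 := by nlinarith
    nlinarith
  set B : ℝ := 16 * B1 with hB
  have hB16 : 16 ≤ B := by linarith
  obtain ⟨CD, εD, hCD, hεD, hDec⟩ := hDec C0 lam b p B hlam hb hp (by linarith)
  set c5 : ℝ := (b - lam) / (4 * b) with hc5
  have hbl : 0 < b - lam := by linarith
  have hc50 : 0 < c5 := by positivity
  have hc5b : b * c5 = (b - lam) / 4 := by
    rw [hc5]; field_simp
  set c : ℝ := min (min c3 c5) (min 1 ((b - lam) / (6 * c3))) with hc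
  have hc0 : 0 < c := by
    apply lt_min (lt_min hc30 hc50) (lt_min one_pos (by positivity))
  have hcc3 : c ≤ c3 := (min_le_left _ _).trans (min_le_left _ _)
  have hcc5 : c ≤ c5 := (min_le_left _ _).trans (min_le_right _ _)
  have hc1 : c ≤ 1 := (min_le_right _ _).trans (min_le_left _ _)
  have hc6 : 3 * c3 * c ≤ (b - lam) / 2 := by
    have h : c ≤ (b - lam) / (6 * c3) := (min_le_right _ _).trans (min_le_right _ _)
    rw [le_div_iff₀ (by positivity)] at h
    linarith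
  set C1 : ℝ := max 1 (K5 * (1 + b) ^ 2 * CZ) with hC1
  have hC11 : 1 ≤ C1 := le_max_left _ _
  refine ⟨c, CD * (1 / c3) ^ εD * C1, εD, hc0, hc1, by positivity, hεD, ?_⟩
  intro U v hU hStar hv hmono hbdd hDom w hw r hr hrw hball x0 hx0 hrc E hE hEs
  have hw0 : 0 < w.im := hw
  obtain ⟨F, hFd, hFw, hF⟩ := hHor v hv hmono hbdd w hw r hr (by linarith) hball
  obtain ⟨mv, hmv⟩ := hbdd
  set G : ℂ → ℂ := Loc.GF F w x0 r m with hG
  have hstar : ∀ z : ℂ, -(r / 2) ≤ z.im → ‖G z‖ ^ p ≤ K5 *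
      Real.exp (v w - v (z + (w - x0) - (r / 4 : ℝ) * I)) * (1 + ‖z - x0‖ / r) ^ (-(2 : ℝ)) :=
    fun z hz => Loc.star hr hrw hp hCH hm' hF hz
  have hs2 : ∀ z : ℂ, (1 + ‖z - x0‖ / r) ^ (-(2 : ℝ)) ≤ 1 := by
    intro z
    apply Real.rpow_le_one_of_one_le_of_nonpos _ (by norm_num)
    have : 0 ≤ ‖z - (x0 : ℂ)‖ / r := by positivity
    linarith
  -- pointwise bound when the exponent is at least `v w - 1`
  have hB1p : ∀ z : ℂ, -(r / 2) ≤ z.im → v w - 1 ≤ v (z + (w - x0) - (r / 4 : ℝ) * I) →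
      ‖G z‖ ≤ B1 := by
    intro z hz hvz
    apply Loc.rpow_le_root (norm_nonneg _) hp
    refine (hstar z hz).trans ?_
    calc K5 * Real.exp (v w - v (z + (w - x0) - (r / 4 : ℝ) * I)) *
        (1 + ‖z - x0‖ / r) ^ (-(2 : ℝ)) ≤
        K5 * Real.exp (v w - v (z + (w - x0) - (r / 4 : ℝ) * I)) * 1 :=
          mul_le_mul_of_nonneg_left (hs2 z) (by positivity)
      _ ≤ K5 * Real.exp 1 := by
          rw [mul_one]
          apply mul_le_mul_of_nonneg_left _ hK50.le
          exact Real.exp_le_exp.2 (by linarith)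
  have him : ∀ z : ℂ, (z + (w - x0) - (r / 4 : ℝ) * I).im = z.im + w.im - r / 4 := by
    intro z; simp
  have hre : ∀ z : ℂ, (z + (w - x0) - (r / 4 : ℝ) * I).re = z.re + w.re - x0 := by
    intro z; simp; ring
  -- (a)
  have hAn : An G := by
    refine ⟨r / 2, (K5 * Real.exp (v w - mv)) ^ (1 / p), by positivity, ?_⟩
    intro z hz
    have hz' : -(r / 2) ≤ z.im := hz.le
    refine ⟨Loc.diffAt hr hrw hFd hz', ?_⟩
    apply Loc.rpow_le_root (norm_nonneg _) hp
    refine (hstar z hz').trans ?_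
    calc K5 * Real.exp (v w - v (z + (w - x0) - (r / 4 : ℝ) * I)) *
        (1 + ‖z - x0‖ / r) ^ (-(2 : ℝ)) ≤
        K5 * Real.exp (v w - v (z + (w - x0) - (r / 4 : ℝ) * I)) * 1 :=
          mul_le_mul_of_nonneg_left (hs2 z) (by positivity)
      _ ≤ K5 * Real.exp (v w - mv) := by
          rw [mul_one]
          apply mul_le_mul_of_nonneg_left _ hK50.le
          apply Real.exp_le_exp.2
          have : mv ≤ v (z + (w - x0) - (r / 4 : ℝ) * I) := by
            apply hmv _ (Loc.mem_uhp _)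
            rw [him]; linarith
          linarith
  -- (b)
  have hwr : v w - 1 ≤ v (w - (r / 2 : ℝ) * I) := by
    apply hball
    rw [mem_ball, dist_eq_norm]
    have : w - (r / 2 : ℝ) * I - w = -((r / 2 : ℝ) * I) := by ring
    rw [this, norm_neg, norm_mul, Complex.norm_I, mul_one, Complex.norm_real,
      Real.norm_of_nonneg (by positivity)]
    linarith
  have hwru : w - (r / 2 : ℝ) * I ∈ uhp := by
    apply Loc.mem_uhp
    have : (w - (r / 2 : ℝ) * I).im = w.im - r / 2 := by simp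
    rw [this]
    linarith
  have hbB : ∀ x ∈ Icc (x0 - 3 * (c3 * r)) (x0 + 3 * (c3 * r)), ∀ z y : ℝ, 0 < y →
      |x - z| ≤ b * y → ‖G (z + y * I)‖ ≤ B := by
    intro x hx z y hy hxz
    have h1 : ‖G (z + y * I)‖ ≤ B1 := by
      apply hB1p
      · simp; linarith
      · refine hwr.trans ?_
        have h2 := hmono _ hwru (((z : ℂ) + y * I + (w - x0) - (r / 4 : ℝ) * I) -
          (w - (r / 2 : ℝ) * I)) (by
          apply Loc.mem_co
          have e1 : (((z : ℂ) + y * I + (w - x0) - (r / 4 : ℝ) * I) -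
            (w - (r / 2 : ℝ) * I)).re = z - x0 := by simp; ring
          have e2 : (((z : ℂ) + y * I + (w - x0) - (r / 4 : ℝ) * I) -
            (w - (r / 2 : ℝ) * I)).im = y + r / 4 := by simp; ring
          rw [e1, e2]
          have h3 : |z - x0| ≤ |x - z| + |x - x0| := by
            have : z - x0 = -(x - z) + (x - x0) := by ring
            rw [this]
            refine (abs_add_le _ _).trans ?_
            rw [abs_neg]
          have h4 : |x - x0| ≤ 3 * (c3 * r) := by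
            rw [abs_le]
            constructor <;> linarith [hx.1, hx.2]
          have h5 : c3 * r ≤ b / 12 * r := mul_le_mul_of_nonneg_right hc3b hr.le
          nlinarith)
        rwa [add_sub_cancel] at h2
    linarith
  -- (c)
  have hx0im : ∀ z : ℂ, |z.im| ≤ ‖z - x0‖ := by
    intro z
    have := Complex.abs_im_le_norm (z - x0)
    simpa using this
  have hnear : ∀ z ∈ ball (x0 : ℂ) (r / 8), ‖G z‖ ≤ B1 := by
    intro z hz
    rw [mem_ball, dist_eq_norm] at hz
    have h1 := (abs_le.1 (hx0im z)).1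
    apply hB1p z (by linarith)
    apply hball
    rw [mem_ball, dist_eq_norm]
    have : z + (w - x0) - (r / 4 : ℝ) * I - w = (z - x0) - (r / 4 : ℝ) * I := by ring
    rw [this]
    refine (norm_sub_le _ _).trans_lt ?_
    rw [norm_mul, Complex.norm_I, mul_one, Complex.norm_real, Real.norm_of_nonneg (by positivity)]
    linarith
  have hdiff : ∀ z ∈ ball (x0 : ℂ) (r / 8), DifferentiableAt ℂ G z := by
    intro z hz
    rw [mem_ball, dist_eq_norm] at hz
    have h1 := (abs_le.1 (hx0im z)).1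
    exact Loc.diffAt hr hrw hFd (by linarith)
  have hder : ∀ z ∈ ball (x0 : ℂ) (r / 16), ‖deriv G z‖ ≤ B / r := by
    intro z hz
    have hsub : closedBall z (r / 16) ⊆ ball (x0 : ℂ) (r / 8) := by
      intro u hu
      rw [mem_closedBall] at hu
      rw [mem_ball] at hz ⊢
      have := dist_triangle u z x0
      linarith
    have hd : DiffContOnCl ℂ G (ball z (r / 16)) := by
      apply DifferentiableOn.diffContOnCl
      intro u hu
      have hu' : u ∈ closedBall z (r / 16) := closure_ball_subset_closedBall hu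
      exact (hdiff u (hsub hu')).differentiableWithinAt
    have h1 := Complex.norm_deriv_le_of_forall_mem_sphere_norm_le (c := z) (R := r / 16)
      (C := B1) (f := G) (by positivity) hd
      (fun u hu => hnear u (hsub (sphere_subset_closedBall hu)))
    refine h1.trans (le_of_eq ?_)
    rw [hB]
    field_simp
  have hGx0 : G x0 = 1 := by
    rw [hG]
    unfold Loc.GF
    have e1 : (x0 : ℂ) + (w - x0) = w := by ring
    have e2 : ((x0 : ℂ) - x0) + I * r = I * r := by ring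
    rw [e1, e2, hFw, div_self, one_pow, one_mul]
    simp [hr.ne']
  have hdist : ∀ z : ℂ, ‖z - x0‖ ≤ 10 * (1 + lam) * (c3 * r) → ‖z - x0‖ * (32 * B1) ≤ r := by
    intro z hz
    calc ‖z - x0‖ * (32 * B1) ≤ 10 * (1 + lam) * (c3 * r) * (32 * B1) :=
          mul_le_mul_of_nonneg_right hz (by positivity)
      _ = (10 * (1 + lam) * c3 * (32 * B1)) * r := by ring
      _ ≤ 1 * r := mul_le_mul_of_nonneg_right hc3B' hr.le
      _ = r := one_mul r
  have hcB : ∀ z : ℂ, 0 ≤ z.im → ‖z - x0‖ ≤ 10 * (1 + lam) * (c3 * r) →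
      1 / B ≤ ‖G z‖ ∧ ‖deriv G z‖ ≤ B / (c3 * r) := by
    intro z _ hz
    have h1 := hdist z hz
    have h2 : ‖z - x0‖ ≤ r / 32 := by
      have := norm_nonneg (z - (x0 : ℂ))
      nlinarith
    have hzb : z ∈ ball (x0 : ℂ) (r / 16) := by
      rw [mem_ball, dist_eq_norm]
      linarith
    have hxb : (x0 : ℂ) ∈ ball (x0 : ℂ) (r / 16) := mem_ball_self (by positivity)
    constructor
    · have h3 := (convex_ball (x0 : ℂ) (r / 16)).norm_image_sub_le_of_norm_deriv_le
        (f := G) (C := B / r) (fun u hu => hdiff u (ball_subset_ball (by linarith) hu)) hder hxb hzb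
      rw [hGx0] at h3
      have h4 : B / r * ‖z - x0‖ ≤ 1 / 2 := by
        rw [hB, div_mul_eq_mul_div, div_le_iff₀ hr]
        linarith
      have h5 : 1 ≤ ‖G z‖ + ‖G z - 1‖ := by
        have : (1 : ℂ) = G z - (G z - 1) := by ring
        calc (1 : ℝ) = ‖(1 : ℂ)‖ := by simp
          _ = ‖G z - (G z - 1)‖ := by rw [← this]
          _ ≤ _ := norm_sub_le _ _
      have h6 : 1 / B ≤ 1 / 2 := by
        apply one_div_le_one_div_of_le <;> linarith
      linarith
    · refine (hder z hzb).trans ?_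
      apply div_le_div_of_nonneg_left (by linarith) (by positivity)
      nlinarith
  -- (d)
  have hη : r ≤ c5 * w.im := by
    refine hrc.trans ?_
    exact mul_le_mul_of_nonneg_right hcc5 hw0.le
  have hZ := hZb U v hU hmono hv.1.continuousOn hDom (c5 * w.im) r x0 hr hη
  set η : ℝ := c5 * w.im with hηd
  have hη0 : 0 < η := by positivity
  have hNT : ∀ x : ℝ, (NTc G b x) ^ p ≤ ENNReal.ofReal (K5 * (1 + b) ^ 2 * Real.exp (v w)) *
      ENNReal.ofReal (Real.exp (-v (x + η * I)) * (1 + |x - x0| / r) ^ (-(2 : ℝ))) := by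
    intro x
    rw [← ENNReal.ofReal_mul (by positivity)]
    set Q : ℝ := K5 * (1 + b) ^ 2 * Real.exp (v w) *
      (Real.exp (-v (x + η * I)) * (1 + |x - x0| / r) ^ (-(2 : ℝ))) with hQ
    have hx1 : 1 ≤ 1 + |x - x0| / r := by
      have : 0 ≤ |x - x0| / r := by positivity
      linarith
    have hQ0 : 0 ≤ Q := by positivity
    have hsup : NTc G b x ≤ ENNReal.ofReal (Q ^ (1 / p)) := by
      unfold NTc
      refine iSup_le fun z => iSup_le fun y => iSup_le fun hzy => ?_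
      obtain ⟨hy, hxz⟩ := hzy
      apply ENNReal.ofReal_le_ofReal
      apply Loc.rpow_le_root (norm_nonneg _) hp
      refine (hstar _ (by simp; linarith)).trans ?_
      have hxu : (x : ℂ) + η * I ∈ uhp := by
        apply Loc.mem_uhp
        simpa using hη0
      have h2 := hmono _ hxu (((z : ℂ) + y * I + (w - x0) - (r / 4 : ℝ) * I) -
          (x + η * I)) (by
          apply Loc.mem_co
          have e1 : (((z : ℂ) + y * I + (w - x0) - (r / 4 : ℝ) * I) -
            (x + η * I)).re = (z - x) + (w.re - x0) := by simp; ring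
          have e2 : (((z : ℂ) + y * I + (w - x0) - (r / 4 : ℝ) * I) -
            (x + η * I)).im = y + w.im - r / 4 - η := by simp
          rw [e1, e2]
          have h3 : |(z - x) + (w.re - x0)| ≤ |x - z| + |x0 - w.re| := by
            refine (abs_add_le _ _).trans ?_
            rw [abs_sub_comm z x, abs_sub_comm w.re x0]
          have h5 : b * η = (b - lam) / 4 * w.im := by
            rw [hηd, ← mul_assoc, hc5b]
          have h6 : b * r ≤ b * η := mul_le_mul_of_nonneg_left hη hb.le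
          nlinarith [mul_pos hbl hw0])
      rw [add_sub_cancel] at h2
      have h7 : |x - x0| ≤ (1 + b) * ‖((z : ℂ) + y * I) - x0‖ := by
        have h8 : |z - x0| ≤ ‖((z : ℂ) + y * I) - x0‖ := by
          have := Complex.abs_re_le_norm (((z : ℂ) + y * I) - x0)
          simpa using this
        have h9 : y ≤ ‖((z : ℂ) + y * I) - x0‖ := by
          have := (le_abs_self _).trans (Complex.abs_im_le_norm (((z : ℂ) + y * I) - x0))
          simpa using this
        have h10 : |x - x0| ≤ |x - z| + |z - x0| := abs_sub_le _ _ _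
        nlinarith
      have h11 : (1 + |x - x0| / r) / (1 + b) ≤ 1 + ‖((z : ℂ) + y * I) - x0‖ / r := by
        rw [div_le_iff₀ (by positivity)]
        have h12 : |x - x0| / r ≤ (1 + b) * (‖((z : ℂ) + y * I) - x0‖ / r) := by
          rw [← mul_div_assoc]
          exact div_le_div_of_nonneg_right h7 hr.le
        nlinarith
      have h13 : (1 + ‖((z : ℂ) + y * I) - x0‖ / r) ^ (-(2 : ℝ)) ≤
          (1 + b) ^ 2 * (1 + |x - x0| / r) ^ (-(2 : ℝ)) := by
        have h14 : (1 + ‖((z : ℂ) + y * I) - x0‖ / r) ^ (-(2 : ℝ)) ≤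
            ((1 + |x - x0| / r) / (1 + b)) ^ (-(2 : ℝ)) :=
          Real.rpow_le_rpow_of_nonpos (by positivity) h11 (by norm_num)
        refine h14.trans (le_of_eq ?_)
        rw [Real.div_rpow (by positivity) (by positivity), Real.rpow_neg (by positivity),
          Real.rpow_neg (by positivity), Real.rpow_two, Real.rpow_two]
        field_simp
      calc K5 * Real.exp (v w - v ((z : ℂ) + y * I + (w - x0) - (r / 4 : ℝ) * I)) *
          (1 + ‖((z : ℂ) + y * I) - x0‖ / r) ^ (-(2 : ℝ))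
          ≤ K5 * Real.exp (v w - v (x + η * I)) *
            ((1 + b) ^ 2 * (1 + |x - x0| / r) ^ (-(2 : ℝ))) := by
            apply mul_le_mul _ h13 (by positivity) (by positivity)
            apply mul_le_mul_of_nonneg_left _ hK50.le
            exact Real.exp_le_exp.2 (by linarith)
        _ = Q := by
            rw [hQ, sub_eq_add_neg, Real.exp_add]
            ring
    calc (NTc G b x) ^ p ≤ (ENNReal.ofReal (Q ^ (1 / p))) ^ p :=
          ENNReal.rpow_le_rpow hsup hp.le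
      _ = ENNReal.ofReal Q := by
          rw [ENNReal.ofReal_rpow_of_nonneg (by positivity) hp.le, ← Real.rpow_mul hQ0,
            one_div_mul_cancel hp.ne', Real.rpow_one]
  have hNI : NI U G b p ≤ ENNReal.ofReal (C1 * Real.exp (v w)) := by
    unfold NI
    calc ∫⁻ x, (NTc G b x) ^ p * ENNReal.ofReal (U x)
        ≤ ∫⁻ x : ℝ, ENNReal.ofReal (K5 * (1 + b) ^ 2 * Real.exp (v w)) *
          (ENNReal.ofReal (Real.exp (-v (x + η * I)) * (1 + |x - x0| / r) ^ (-(2 : ℝ))) *
            ENNReal.ofReal (U x)) := by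
          apply lintegral_mono
          intro x
          simp only
          rw [← mul_assoc]
          gcongr
          exact hNT x
      _ = ENNReal.ofReal (K5 * (1 + b) ^ 2 * Real.exp (v w)) * ∫⁻ x : ℝ,
          (ENNReal.ofReal (Real.exp (-v (x + η * I)) * (1 + |x - x0| / r) ^ (-(2 : ℝ))) *
            ENNReal.ofReal (U x)) := lintegral_const_mul' _ _ ENNReal.ofReal_ne_top
      _ ≤ ENNReal.ofReal (K5 * (1 + b) ^ 2 * Real.exp (v w)) * ENNReal.ofReal CZ := by
          gcongr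
      _ = ENNReal.ofReal (K5 * (1 + b) ^ 2 * Real.exp (v w) * CZ) := by
          rw [← ENNReal.ofReal_mul (by positivity)]
      _ ≤ ENNReal.ofReal (C1 * Real.exp (v w)) := by
          apply ENNReal.ofReal_le_ofReal
          have h1 : K5 * (1 + b) ^ 2 * CZ ≤ C1 := le_max_right _ _
          calc K5 * (1 + b) ^ 2 * Real.exp (v w) * CZ = (K5 * (1 + b) ^ 2 * CZ) * Real.exp (v w) := by
                ring
            _ ≤ _ := mul_le_mul_of_nonneg_right h1 (Real.exp_pos _).le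
  -- (e)
  have hIv : wm U (Icc (x0 - 3 * (c3 * r)) (x0 + 3 * (c3 * r))) ≤
      ENNReal.ofReal (C1 * Real.exp (v w)) := by
    have hsub : Icc (x0 - 3 * (c3 * r)) (x0 + 3 * (c3 * r)) ⊆ Iv b w := by
      intro x hx
      have h1 := abs_le.1 hx0
      have h2 : 3 * (c3 * r) ≤ (b - lam) / 2 * w.im := by
        calc 3 * (c3 * r) = 3 * c3 * r := by ring
          _ ≤ 3 * c3 * (c * w.im) := mul_le_mul_of_nonneg_left hrc (by positivity)
          _ = (3 * c3 * c) * w.im := by ring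
          _ ≤ _ := mul_le_mul_of_nonneg_right hc6 hw0.le
      show x ∈ Icc _ _
      constructor <;> linarith [hx.1, hx.2]
    have h1 := hDom w hw
    have hmeas : MeasurableSet (Iv b w) := measurableSet_Icc
    rw [setIntegral_eq_wm hU hmeas] at h1
    have hfin : wm U (Iv b w) ≠ ∞ := (wm_Icc_lt_top hU _ _).ne
    calc wm U (Icc (x0 - 3 * (c3 * r)) (x0 + 3 * (c3 * r))) ≤ wm U (Iv b w) := measure_mono hsub
      _ = ENNReal.ofReal (wm U (Iv b w)).toReal := (ENNReal.ofReal_toReal hfin).symm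
      _ ≤ ENNReal.ofReal (C1 * Real.exp (v w)) := by
          apply ENNReal.ofReal_le_ofReal
          refine h1.trans ?_
          nlinarith [Real.exp_pos (v w)]
  have hfinal := hDec U G x0 (c3 * r) (C1 * Real.exp (v w)) hU hStar hAn (by positivity)
    (by positivity) hbB hcB hNI hIv E hE (by
      refine hEs.trans ?_
      apply Icc_subset_Icc
      · have : c * r ≤ c3 * r := mul_le_mul_of_nonneg_right hcc3 hr.le
        linarith
      · have : c * r ≤ c3 * r := mul_le_mul_of_nonneg_right hcc3 hr.le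
        linarith)
  refine hfinal.trans (le_of_eq ?_)
  congr 1
  have h1 : volume.real E / (c3 * r) = (1 / c3) * (volume.real E / r) := by
    field_simp
  rw [h1, Real.mul_rpow (by positivity) (by positivity)]
  ring

end Pool.Agent.Work.MP_055a27_an.Wd

end

section

set_option autoImplicit false

open MeasureTheory Set Filter Topology Complex Metric
open scoped ENNReal NNReal

namespace Pool.Agent.Work.MP_055a27_an.Wd

open Crit (NTc Nice NI)
open Fn (StarC)
open Sg (An)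

theorem stNec (hVst : StVst) (hSmo : StSmo) (hNecM : StNecM) : StNec := by
  intro lam b p U hlam hlb hp hU hStar
  obtain ⟨C0, hC0⟩ := hStar
  obtain ⟨C, ε, hC, hε, hN⟩ := hNecM C0 lam b p hlam hlb hp
  refine ⟨C, ε, hC, hε, ?_⟩
  intro v hv hvb hD z hz E hE hEs
  have hb : 0 < b := hlam.trans hlb
  obtain ⟨hSH, hle, hdom⟩ := hVst b v hb hv hvb
  have hzim : 0 < z.im := hz
  have hs0 : 0 ≤ (volume.real E / z.im) ^ ε := Real.rpow_nonneg (by positivity) _
  have key : ∀ t : ℝ, 0 < t →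
      ∫ x in E, U x ≤ C * (volume.real E / z.im) ^ ε * Real.exp (v (z + 2 * t * I)) := by
    intro t ht
    obtain ⟨v1, hv1, hm1, hb1, hs1⟩ := hSmo b (vst b v) hb hSH t ht
    obtain ⟨m, hm⟩ := hSH.bdd
    have hbd : BddB v1 := ⟨m, hb1 m hm⟩
    have hD1 : Dom b U v1 := fun w hw =>
      (hdom U hU hD w hw).trans (Real.exp_le_exp.2 (hs1 w hw).1)
    have h := hN U v1 hU hC0 hv1 hm1 hbd hD1 z hz E hE hEs
    have hz2 : z + 2 * t * I ∈ uhp := by
      show 0 < (z + 2 * t * I).im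
      simp
      linarith
    rw [setIntegral_eq_wm hU hE]
    have h2 : (wm U E).toReal ≤ C * (volume.real E / z.im) ^ ε * Real.exp (v1 z) :=
      ENNReal.toReal_le_of_le_ofReal (by positivity) h
    refine h2.trans ?_
    apply mul_le_mul_of_nonneg_left _ (by positivity)
    exact Real.exp_le_exp.2 ((hs1 z hz).2.trans (hle _ hz2))
  have hcv : ContinuousAt v z :=
    (hv.1.continuousOn).continuousAt (isOpen_uhp.mem_nhds hz)
  have hlim : Tendsto (fun t : ℝ => C * (volume.real E / z.im) ^ ε *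
      Real.exp (v (z + 2 * t * I))) (𝓝[>] 0)
      (𝓝 (C * (volume.real E / z.im) ^ ε * Real.exp (v z))) := by
    apply Tendsto.const_mul
    apply (Real.continuous_exp.tendsto _).comp
    have h1 : Tendsto (fun t : ℝ => z + 2 * t * I) (𝓝[>] 0) (𝓝 z) := by
      have h2 : Continuous (fun t : ℝ => z + 2 * t * I) := by fun_prop
      have h3 := (h2.tendsto 0).mono_left (nhdsWithin_le_nhds (s := Ioi (0 : ℝ)))
      simpa using h3
    exact hcv.tendsto.comp h1
  refine ge_of_tendsto hlim ?_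
  filter_upwards [self_mem_nhdsWithin] with t ht
  exact key t ht

end Pool.Agent.Work.MP_055a27_an.Wd

end

section

/-!
# Necessity for functions nondecreasing along the cone
-/

set_option autoImplicit false

open MeasureTheory Set Filter Topology Complex Metric
open scoped ENNReal NNReal

namespace Pool.Agent.Work.MP_055a27_an.Wd

open Crit (NTc Nice NI)
open Fn (StarC)
open Sg (An)

namespace NecM

lemma ball_facts {z w : ℂ} {d : ℝ} (hw : w ∈ closedBall z d) :
    |w.re - z.re| ≤ d ∧ z.im - d ≤ w.im := by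
  rw [mem_closedBall, dist_eq_norm] at hw
  have h1 := (abs_re_le_norm (w - z)).trans hw
  have h2 := (abs_im_le_norm (w - z)).trans hw
  rw [sub_re] at h1
  rw [sub_im] at h2
  exact ⟨h1, by linarith [(abs_le.1 h2).1]⟩

lemma dom_wm {b : ℝ} {U : ℝ → ℝ} {v : ℂ → ℝ} (hU : IsWeight U) (hD : Dom b U v) {w : ℂ}
    (hw : w ∈ uhp) : wm U (Iv b w) ≤ ENNReal.ofReal (Real.exp (v w)) := by
  have h1 := hD w hw
  rw [setIntegral_eq_wm hU (S := Iv b w) measurableSet_Icc] at h1
  have h2 : wm U (Iv b w) ≠ ∞ := (wm_Icc_lt_top hU _ _).ne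
  rw [← ENNReal.ofReal_toReal h2]
  exact ENNReal.ofReal_le_ofReal h1

lemma exp_bd (m : ℝ) : ∃ C : ℝ, 0 < C ∧ ∀ t : ℝ, 1 ≤ t → Real.exp (-t) ≤ C * t ^ (-m) := by
  refine ⟨(⌈m⌉₊.factorial : ℝ), by positivity, fun t ht => ?_⟩
  have h0 : 0 < t := by linarith
  have h1 := Real.pow_div_factorial_le_exp t h0.le ⌈m⌉₊
  rw [div_le_iff₀ (by positivity)] at h1
  have h2 : t ^ m ≤ t ^ ⌈m⌉₊ := by
    rw [← Real.rpow_natCast]
    exact Real.rpow_le_rpow_of_exponent_le ht (Nat.le_ceil m)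
  have h3 : t ^ m ≤ Real.exp t * (⌈m⌉₊.factorial : ℝ) := h2.trans h1
  rw [Real.exp_neg, Real.rpow_neg h0.le, ← div_eq_mul_inv, inv_eq_one_div,
    div_le_div_iff₀ (Real.exp_pos t) (Real.rpow_pos_of_pos h0 m), one_mul, mul_comm]
  exact h3

/-- covering of an interval -/
lemma cover (a L h : ℝ) (hL : 0 < L) (hh : 0 < h) : ∃ M : ℕ, (M : ℝ) ≤ L / h + 1 ∧
    ∃ x : ℕ → ℝ, (∀ i < M, |x i - a| ≤ L) ∧
      ∀ t ∈ Icc (a - L) (a + L), ∃ i < M, t ∈ Icc (x i - h) (x i + h) := by
  obtain ⟨M, hM⟩ : ∃ M : ℕ, M = ⌈L / h⌉₊ := ⟨_, rfl⟩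
  have hM0 : 0 < M := by rw [hM]; exact Nat.ceil_pos.2 (by positivity)
  have hM1 : L / h ≤ M := by rw [hM]; exact Nat.le_ceil _
  have hM2 : (M : ℝ) ≤ L / h + 1 := by
    rw [hM]; exact (Nat.ceil_lt_add_one (by positivity)).le
  have hMR : (0 : ℝ) < M := by exact_mod_cast hM0
  obtain ⟨h', hh'⟩ : ∃ h' : ℝ, h' = L / M := ⟨_, rfl⟩
  have hh0 : 0 < h' := by rw [hh']; positivity
  have hle : h' ≤ h := by
    rw [hh', div_le_iff₀ hMR]
    rw [div_le_iff₀ hh] at hM1
    linarith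
  have hML : M * h' = L := by rw [hh']; field_simp
  refine ⟨M, hM2, fun i => a - L + (2 * i + 1) * h', ?_, ?_⟩
  · intro i hi
    have hi' : (i : ℝ) + 1 ≤ M := by exact_mod_cast hi
    have hi0 : (0 : ℝ) ≤ i := by positivity
    rw [abs_le]
    constructor <;> nlinarith
  · rintro t ⟨ht1, ht2⟩
    obtain ⟨q, hq⟩ : ∃ q : ℝ, q = (t - (a - L)) / (2 * h') := ⟨_, rfl⟩
    have hq0 : 0 ≤ q := by rw [hq]; exact div_nonneg (by linarith) (by positivity)
    have hq1 : q * (2 * h') = t - (a - L) := by rw [hq]; field_simp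
    have hqM : q ≤ M := by
      rw [hq, div_le_iff₀ (by positivity)]
      nlinarith
    obtain ⟨i, hi, hi1, hi2⟩ : ∃ i : ℕ, i < M ∧ (i : ℝ) ≤ q ∧ q ≤ i + 1 := by
      by_cases hlt : q < M
      · refine ⟨⌊q⌋₊, (Nat.floor_lt hq0).2 hlt, Nat.floor_le hq0, (Nat.lt_floor_add_one q).le⟩
      · have hqe : q = M := le_antisymm hqM (not_lt.1 hlt)
        obtain ⟨j, rfl⟩ : ∃ j, M = j + 1 := ⟨M - 1, by omega⟩
        refine ⟨j, by omega, ?_, ?_⟩ <;> rw [hqe] <;> push_cast <;> linarith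
    refine ⟨i, hi, ?_, ?_⟩
    · change (a - L + (2 * i + 1) * h') - h ≤ t
      nlinarith
    · change t ≤ (a - L + (2 * i + 1) * h') + h
      nlinarith

/-- the choice of the radius -/
lemma choose_ball {v : ℂ → ℝ} {z : ℂ} {d : ℝ} (hd : 0 < d)
    (hc : ContinuousOn v (closedBall z d)) (N : ℕ) (hN1 : 1 ≤ N)
    (hk : ∀ w0 ∈ closedBall z d, v z - v w0 < N) :
    ∃ w ∈ closedBall z d, v w ≤ v z ∧ ∀ w' ∈ ball w (d / N), v w - 1 ≤ v w' := by
  have hNR : (0 : ℝ) < N := by exact_mod_cast hN1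
  have hmin : ∀ i : ℕ, ∃ w ∈ closedBall z (min (i * (d / N)) d),
      IsMinOn v (closedBall z (min (i * (d / N)) d)) w := by
    intro i
    refine (isCompact_closedBall _ _).exists_isMinOn ⟨z, mem_closedBall_self ?_⟩
      (hc.mono (closedBall_subset_closedBall (min_le_right _ _)))
    exact le_min (by positivity) hd.le
  choose w hw hwm using hmin
  have hz : ∀ i : ℕ, z ∈ closedBall z (min (i * (d / N)) d) := fun i =>
    mem_closedBall_self (le_min (by positivity) hd.le)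
  obtain ⟨i, hi, hi1⟩ : ∃ i < N, v (w i) - v (w (i + 1)) < 1 := by
    by_contra hcon
    push Not at hcon
    have h1 : ∑ i ∈ Finset.range N, (1 : ℝ) ≤ ∑ i ∈ Finset.range N, (v (w i) - v (w (i + 1))) :=
      Finset.sum_le_sum fun i hi => hcon i (Finset.mem_range.1 hi)
    rw [Finset.sum_range_sub' (fun i => v (w i)) N] at h1
    simp only [Finset.sum_const, Finset.card_range, nsmul_eq_mul, mul_one] at h1
    have h2 := hk (w N) (closedBall_subset_closedBall (min_le_right _ _) (hw N))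
    have h3 : v (w 0) ≤ v z := hwm 0 (hz 0)
    linarith
  refine ⟨w i, closedBall_subset_closedBall (min_le_right _ _) (hw i), hwm i (hz i), ?_⟩
  intro w' hw'
  have h1 : w' ∈ closedBall z (min (((i + 1 : ℕ) : ℝ) * (d / N)) d) := by
    rw [mem_closedBall]
    rw [mem_ball] at hw'
    have h2 := hw i
    rw [mem_closedBall] at h2
    have h3 := dist_triangle w' (w i) z
    have h4 : dist w' z ≤ ((i + 1 : ℕ) : ℝ) * (d / N) := by
      push_cast
      have h5 := h2.trans (min_le_left _ _)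
      linarith
    refine le_min h4 (h4.trans ?_)
    have h5 : ((i + 1 : ℕ) : ℝ) ≤ N := by exact_mod_cast hi
    calc ((i + 1 : ℕ) : ℝ) * (d / N) ≤ N * (d / N) :=
          mul_le_mul_of_nonneg_right h5 (by positivity)
      _ = d := by field_simp
  have h2 : v (w (i + 1)) ≤ v w' := hwm (i + 1) h1
  linarith

/-- the sum over a covering -/
lemma wm_cover {U : ℝ → ℝ} {E : Set ℝ} {M : ℕ} {x : ℕ → ℝ} {h B : ℝ} (hB : 0 ≤ B)
    (hE : ∀ t ∈ E, ∃ i < M, t ∈ Icc (x i - h) (x i + h))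
    (hb : ∀ i < M, wm U (E ∩ Icc (x i - h) (x i + h)) ≤ ENNReal.ofReal B) :
    wm U E ≤ ENNReal.ofReal (M * B) := by
  have h1 : E ⊆ ⋃ i ∈ Finset.range M, (E ∩ Icc (x i - h) (x i + h)) := by
    intro t ht
    obtain ⟨i, hi, hi2⟩ := hE t ht
    exact mem_iUnion₂.2 ⟨i, Finset.mem_range.2 hi, ht, hi2⟩
  refine (measure_mono h1).trans ((measure_biUnion_finset_le _ _).trans ?_)
  refine (Finset.sum_le_sum fun i hi => hb i (Finset.mem_range.1 hi)).trans ?_
  rw [Finset.sum_const, Finset.card_range, nsmul_eq_mul, ENNReal.ofReal_mul (by positivity),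
    ENNReal.ofReal_natCast]

end NecM

open NecM in
theorem stNecM (hLoc : StLoc) : StNecM := by
  intro C0 lam b p hlam hlb hp
  obtain ⟨c, CL, eL, hc, hc1, hCL, heL, HL⟩ := hLoc C0 lam b p hlam hlb hp
  obtain ⟨Ce, hCe, hexp⟩ := exp_bd (1 + eL)
  have hb : 0 < b := hlam.trans hlb
  obtain ⟨a, ha⟩ : ∃ a : ℝ, a = min (1 / 8) ((b - lam) / (2 + lam + b)) := ⟨_, rfl⟩
  have ha0 : 0 < a := by
    rw [ha]
    refine lt_min (by norm_num) (div_pos (by linarith) (by linarith))
  have ha1 : a ≤ 1 / 8 := by rw [ha]; exact min_le_left _ _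
  have ha2 : a * (2 + lam + b) ≤ b - lam := by
    rw [← le_div_iff₀ (by linarith), ha]
    exact min_le_right _ _
  obtain ⟨C1, hC1⟩ : ∃ C1 : ℝ, C1 = 2 * lam / (c ^ 2 * a) + 1 := ⟨_, rfl⟩
  have hC10 : 0 < C1 := by rw [hC1]; positivity
  obtain ⟨C2, hC2⟩ : ∃ C2 : ℝ, C2 = 3 * C1 * (CL * (6 / (c * a)) ^ eL) := ⟨_, rfl⟩
  have hC20 : 0 < C2 := by rw [hC2]; positivity
  refine ⟨1 + Ce + C2, eL / 2, by positivity, by positivity, ?_⟩
  intro U v hU hStar hv hmono hbdd hdom z hz E hE hEz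
  have hy : 0 < z.im := hz
  obtain ⟨y, hyz⟩ : ∃ y : ℝ, y = z.im := ⟨_, rfl⟩
  rw [← hyz] at hy ⊢
  obtain ⟨s, hs⟩ : ∃ s : ℝ, s = volume.real E / y := ⟨_, rfl⟩
  rw [← hs]
  have hs0 : 0 ≤ s := by rw [hs]; positivity
  have hsy : volume.real E = s * y := by rw [hs]; field_simp
  have hEfin : volume E ≠ ∞ := by
    refine ((measure_mono hEz).trans_lt ?_).ne
    rw [Iv, Real.volume_Icc]
    exact ENNReal.ofReal_lt_top
  -- geometry
  have hgeo : ∀ w ∈ closedBall z (a * y), 7 / 8 * y ≤ w.im ∧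
      ∀ x0 : ℝ, |x0 - z.re| ≤ lam * y → |x0 - w.re| ≤ (lam + b) / 2 * w.im := by
    intro w hw
    obtain ⟨h1, h2⟩ := ball_facts hw
    rw [← hyz] at h2
    have h3 : 7 / 8 * y ≤ w.im := by nlinarith
    refine ⟨h3, fun x0 hx0 => ?_⟩
    have h4 : |x0 - w.re| ≤ lam * y + a * y := by
      have h5 := abs_sub_le x0 z.re w.re
      rw [abs_sub_comm z.re w.re] at h5
      linarith
    have h6 : (1 - a) * y ≤ w.im := by linarith
    nlinarith [mul_nonneg hlam.le hy.le, mul_nonneg hb.le hy.le,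
      mul_le_mul_of_nonneg_left h6 (by linarith : (0 : ℝ) ≤ (lam + b) / 2)]
  have hsub : ∀ w ∈ closedBall z (a * y), w ∈ uhp ∧ wm U E ≤ ENNReal.ofReal (Real.exp (v w)) := by
    intro w hw
    obtain ⟨h1, h2⟩ := hgeo w hw
    have h3 : 0 < w.im := by linarith
    refine ⟨h3, (measure_mono ?_).trans (dom_wm hU hdom h3)⟩
    intro x hx
    have h4 := hEz hx
    have h5 : |x - z.re| ≤ lam * y := by
      rw [hyz, abs_le]
      constructor <;> linarith [h4.1, h4.2]
    have h6 := h2 x h5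
    have h7 : |x - w.re| ≤ b * w.im := by nlinarith
    rw [abs_le] at h7
    exact ⟨by linarith, by linarith⟩
  have hzz : z ∈ closedBall z (a * y) := mem_closedBall_self (by positivity)
  rcases eq_or_lt_of_le hs0 with hs00 | hspos
  · -- the set has measure zero
    have h1 : volume.real E = 0 := by rw [hsy, ← hs00, zero_mul]
    have h2 : volume E = 0 := by
      rcases (ENNReal.toReal_eq_zero_iff _).1 h1 with h | h
      · exact h
      · exact absurd h hEfin
    rw [wm_ac h2]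
    exact zero_le
  rcases lt_or_ge 1 s with hs1 | hs1
  · refine (hsub z hzz).2.trans (ENNReal.ofReal_le_ofReal ?_)
    have h1 : 1 ≤ s ^ (eL / 2) := Real.one_le_rpow hs1.le (by positivity)
    have h2 := Real.exp_pos (v z)
    have h3 : 1 ≤ (1 + Ce + C2) * s ^ (eL / 2) := by nlinarith
    nlinarith
  -- the exponent
  obtain ⟨e0, he0⟩ : ∃ e0 : ℝ, e0 = eL / (2 * (1 + eL)) := ⟨_, rfl⟩
  have he00 : 0 < e0 := by rw [he0]; positivity
  have he1 : e0 * (1 + eL) = eL / 2 := by rw [he0]; field_simp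
  obtain ⟨t, ht⟩ : ∃ t : ℝ, t = s ^ (-e0) := ⟨_, rfl⟩
  have ht1 : 1 ≤ t := by
    rw [ht]
    exact Real.one_le_rpow_of_pos_of_le_one_of_nonpos hspos hs1 (by linarith)
  by_cases hcase : ∃ w0 ∈ closedBall z (a * y), t ≤ v z - v w0
  · obtain ⟨w0, hw0, hw1⟩ := hcase
    refine (hsub w0 hw0).2.trans (ENNReal.ofReal_le_ofReal ?_)
    have h1 : Real.exp (v w0) ≤ Real.exp (-t) * Real.exp (v z) := by
      rw [← Real.exp_add]
      exact Real.exp_le_exp.2 (by linarith)
    have h2 : t ^ (-(1 + eL)) = s ^ (eL / 2) := by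
      rw [ht, ← Real.rpow_mul hspos.le]
      congr 1
      rw [← he1]; ring
    have h3 := hexp t ht1
    rw [h2] at h3
    have h4 : 0 < s ^ (eL / 2) := Real.rpow_pos_of_pos hspos _
    have h5 := Real.exp_pos (v z)
    calc Real.exp (v w0) ≤ Real.exp (-t) * Real.exp (v z) := h1
      _ ≤ (Ce * s ^ (eL / 2)) * Real.exp (v z) := mul_le_mul_of_nonneg_right h3 h5.le
      _ ≤ (1 + Ce + C2) * s ^ (eL / 2) * Real.exp (v z) := by
          refine mul_le_mul_of_nonneg_right ?_ h5.le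
          refine mul_le_mul_of_nonneg_right ?_ h4.le
          linarith
  · push Not at hcase
    obtain ⟨N, hN⟩ : ∃ N : ℕ, N = ⌈t⌉₊ := ⟨_, rfl⟩
    have hNt : t ≤ N := by rw [hN]; exact Nat.le_ceil t
    have hN1 : 1 ≤ N := by
      have : (1 : ℝ) ≤ N := ht1.trans hNt
      exact_mod_cast this
    have hN3 : (N : ℝ) ≤ 3 * t := by
      have : (N : ℝ) < t + 1 := by rw [hN]; exact Nat.ceil_lt_add_one (by linarith)
      linarith
    have hNR : (0 : ℝ) < N := by exact_mod_cast hN1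
    have hcont : ContinuousOn v (closedBall z (a * y)) :=
      hv.1.continuousOn.mono fun w hw => (hsub w hw).1
    obtain ⟨w, hw, hw1, hw2⟩ := choose_ball (by positivity : 0 < a * y) hcont N hN1
      (fun w0 hw0 => (hcase w0 hw0).trans_le hNt)
    obtain ⟨hg1, hg2⟩ := hgeo w hw
    obtain ⟨r, hr⟩ : ∃ r : ℝ, r = c / 2 * (a * y) / N := ⟨_, rfl⟩
    have hr0 : 0 < r := by rw [hr]; positivity
    have hN1' : (1 : ℝ) ≤ N := by exact_mod_cast hN1
    have hrle : r ≤ c / 2 * (a * y) := by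
      rw [hr]
      exact div_le_self (by positivity) hN1'
    have hr2 : r ≤ c * (y / 16) := by nlinarith [mul_pos hc hy]
    have hr3 : r ≤ w.im / 8 := by nlinarith
    have hr4 : r ≤ c * w.im := by nlinarith [mul_pos hc hy]
    have hr5 : r ≤ a * y / N := by
      rw [hr]
      exact div_le_div_of_nonneg_right (by nlinarith [mul_pos ha0 hy]) hNR.le
    obtain ⟨M, hM, x, hx1, hx2⟩ := cover z.re (lam * y) (c * r) (by positivity) (by positivity)
    obtain ⟨B, hB⟩ : ∃ B : ℝ, B = CL * (volume.real E / r) ^ eL * Real.exp (v w) := ⟨_, rfl⟩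
    have hB0 : 0 ≤ B := by rw [hB]; positivity
    have hcov := wm_cover (U := U) (E := E) (M := M) (x := x) (h := c * r) hB0 (by
      intro t' ht'
      have h4 := hEz ht'
      refine hx2 t' ?_
      rw [hyz]
      exact h4) (by
      intro i hi
      refine (HL U v hU hStar hv hmono hbdd hdom w (hsub w hw).1 r hr0 hr3
        (fun w' hw' => hw2 w' (ball_subset_ball hr5 hw')) (x i) (hg2 _ (hx1 i hi)) hr4
        (E ∩ Icc (x i - c * r) (x i + c * r)) (hE.inter measurableSet_Icc)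
        inter_subset_right).trans (ENNReal.ofReal_le_ofReal ?_)
      rw [hB]
      refine mul_le_mul_of_nonneg_right ?_ (Real.exp_pos _).le
      refine mul_le_mul_of_nonneg_left ?_ hCL.le
      refine Real.rpow_le_rpow (by positivity) ?_ heL.le
      refine div_le_div_of_nonneg_right ?_ hr0.le
      exact measureReal_mono inter_subset_left hEfin)
    refine hcov.trans (ENNReal.ofReal_le_ofReal ?_)
    -- final estimate
    have hMb : (M : ℝ) ≤ C1 * (3 * t) := by
      have h1 : lam * y / (c * r) = 2 * lam / (c ^ 2 * a) * N := by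
        rw [hr]; field_simp
      rw [h1] at hM
      have h2 : (M : ℝ) ≤ C1 * N := by rw [hC1]; nlinarith
      exact h2.trans (mul_le_mul_of_nonneg_left hN3 hC10.le)
    have hE1 : volume.real E / r ≤ 6 / (c * a) * (t * s) := by
      have h1 : volume.real E / r = 2 / (c * a) * s * N := by
        rw [hsy, hr]; field_simp
      rw [h1]
      have h2 : 0 ≤ 2 / (c * a) * s := by positivity
      calc 2 / (c * a) * s * N ≤ 2 / (c * a) * s * (3 * t) := mul_le_mul_of_nonneg_left hN3 h2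
        _ = 6 / (c * a) * (t * s) := by ring
    have hts : t * s = s ^ (1 - e0) := by
      rw [ht, sub_eq_add_neg, Real.rpow_add hspos, Real.rpow_one]; ring
    have hE2 : (volume.real E / r) ^ eL ≤ (6 / (c * a)) ^ eL * s ^ ((1 - e0) * eL) := by
      refine (Real.rpow_le_rpow (by positivity) hE1 heL.le).trans ?_
      rw [Real.mul_rpow (by positivity) (by positivity), hts, ← Real.rpow_mul hspos.le]
    have hsum : t * s ^ ((1 - e0) * eL) = s ^ (eL / 2) := by
      rw [ht, ← Real.rpow_add hspos]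
      congr 1
      linarith
    have h4 : 0 < s ^ (eL / 2) := Real.rpow_pos_of_pos hspos _
    have h5 := Real.exp_pos (v z)
    have hBb : B ≤ CL * ((6 / (c * a)) ^ eL * s ^ ((1 - e0) * eL)) * Real.exp (v z) := by
      rw [hB]
      refine mul_le_mul ?_ (Real.exp_le_exp.2 hw1) (Real.exp_pos _).le (by positivity)
      exact mul_le_mul_of_nonneg_left hE2 hCL.le
    calc (M : ℝ) * B ≤ (C1 * (3 * t)) *
          (CL * ((6 / (c * a)) ^ eL * s ^ ((1 - e0) * eL)) * Real.exp (v z)) :=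
          mul_le_mul hMb hBb hB0 (by positivity)
      _ = C2 * (t * s ^ ((1 - e0) * eL)) * Real.exp (v z) := by rw [hC2]; ring
      _ = C2 * s ^ (eL / 2) * Real.exp (v z) := by rw [hsum]
      _ ≤ (1 + Ce + C2) * s ^ (eL / 2) * Real.exp (v z) := by
          refine mul_le_mul_of_nonneg_right ?_ h5.le
          refine mul_le_mul_of_nonneg_right ?_ h4.le
          linarith

end Pool.Agent.Work.MP_055a27_an.Wd

end

section

/-!
# Item Up: upper bound near a point where the function is nearly minimal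
-/

set_option autoImplicit false

open MeasureTheory Set Filter Topology Complex Metric
open scoped ENNReal NNReal

namespace Pool.Agent.Work.MP_055a27_an.Wd

open Crit (NTc Nice NI)
open Fn (StarC)
open Sg (An)

namespace Up

theorem mem_uhp_of_ball {w z : ℂ} {r : ℝ} (hr : r ≤ w.im / 2) (hw : 0 < w.im)
    (hz : z ∈ ball w r) : 0 < z.im := by
  rw [mem_ball, Complex.dist_eq] at hz
  have h1 : |(z - w).im| ≤ ‖z - w‖ := Complex.abs_im_le_norm _
  rw [Complex.sub_im] at h1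
  have h2 := (abs_le.mp h1).1
  linarith

theorem volR (a : ℂ) (r : ℝ) (hr : 0 ≤ r) : volume.real (ball a r) = Real.pi * r ^ 2 := by
  rw [measureReal_def, Complex.volume_ball, ENNReal.toReal_mul, ENNReal.toReal_pow,
    ENNReal.toReal_ofReal hr]
  simp [mul_comm]

theorem mono' {b : ℝ} {u : ℂ → ℝ} (hu : SH b u) {z z' : ℂ} (hz : 0 < z.im)
    (h : |(z' - z).re| ≤ b * (z' - z).im) : u z ≤ u z' := by
  have := hu.mono z hz (z' - z) h
  rwa [add_sub_cancel] at this

theorem integrable {b : ℝ} (hb : 0 < b) {u : ℂ → ℝ} (hu : SH b u) {w : ℂ} (hw : 0 < w.im)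
    {r : ℝ} (hr0 : 0 < r) (hr : r ≤ w.im / 2) (hflat : ∀ z ∈ ball w r, u w - 1 ≤ u z) :
    IntegrableOn u (ball w r) := by
  have hsub : ball w r ⊆ uhp := fun z hz => mem_uhp_of_ball hr hw hz
  have husc : UpperSemicontinuousOn u (ball w r) := hu.usc.mono hsub
  have hmeas : AEMeasurable u (volume.restrict (ball w r)) :=
    aemeasurable_restrict_of_measurable_subtype measurableSet_ball
      (upperSemicontinuousOn_iff_restrict.mpr husc).measurable
  have hup : ∀ z ∈ ball w r, u z ≤ u (w + ((r + r / b : ℝ) : ℂ) * I) := by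
    intro z hz
    refine mono' hu (hsub hz) ?_
    rw [mem_ball, Complex.dist_eq] at hz
    have h1 : |(z - w).im| ≤ ‖z - w‖ := Complex.abs_im_le_norm _
    have h2 : |(z - w).re| ≤ ‖z - w‖ := Complex.abs_re_le_norm _
    rw [Complex.sub_im] at h1
    rw [Complex.sub_re] at h2
    have h3 := (abs_le.mp h1).2
    have e1 : (w + ((r + r / b : ℝ) : ℂ) * I - z).re = w.re - z.re := by simp
    have e2 : (w + ((r + r / b : ℝ) : ℂ) * I - z).im = w.im + (r + r / b) - z.im := by simp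
    rw [e1, e2, abs_sub_comm]
    have h4 : b * (r / b) = r := by field_simp
    have h5 : b * (w.im + (r + r / b) - z.im) = b * (w.im + r - z.im) + r := by
      linear_combination h4
    rw [h5]
    have h6 : 0 ≤ b * (w.im + r - z.im) := mul_nonneg hb.le (by linarith)
    linarith
  have : IsFiniteMeasure (volume.restrict (ball w r)) :=
    isFiniteMeasure_restrict.mpr measure_ball_lt_top.ne
  refine Integrable.of_bound hmeas.aestronglyMeasurable (max |u w - 1|
    |u (w + ((r + r / b : ℝ) : ℂ) * I)|) ?_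
  rw [ae_restrict_iff' measurableSet_ball]
  refine Eventually.of_forall fun z hz => ?_
  rw [Real.norm_eq_abs]
  exact abs_le_max_abs_abs (hflat z hz) (hup z hz)

theorem main {b : ℝ} (hb : 0 < b) {u : ℂ → ℝ} (hu : SH b u) {w : ℂ} (hw : 0 < w.im)
    {r : ℝ} (hr0 : 0 < r) (hr : r ≤ w.im / 2) (hflat : ∀ z ∈ ball w r, u w - 1 ≤ u z)
    (c' : ℝ) (hc' : 0 < c') (hc1 : c' ≤ 1 / 4) (hc2 : c' * (1 + b) = b / 4) :
    u (w + ((r / 2 : ℝ) : ℂ) * I) ≤ u w + 1 / c' ^ 2 := by
  set q : ℂ := w + ((r / 2 : ℝ) : ℂ) * I with hq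
  set a : ℂ := w + ((3 / 4 * r : ℝ) : ℂ) * I with ha
  have hI := integrable hb hu hw hr0 hr hflat
  have hqim : 0 < q.im := by
    have : q.im = w.im + r / 2 := by simp [hq]
    rw [this]; linarith
  -- the small ball
  have hB1 : ball a (c' * r) ⊆ ball w r := by
    intro z hz
    rw [mem_ball] at hz ⊢
    have h1 : dist a w = 3 / 4 * r := by
      rw [Complex.dist_eq, ha, add_sub_cancel_left, norm_mul, Complex.norm_I, mul_one,
        Complex.norm_real, Real.norm_eq_abs, abs_of_pos (by positivity)]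
    have h2 := dist_triangle z a w
    have h3 : c' * r ≤ 1 / 4 * r := mul_le_mul_of_nonneg_right hc1 hr0.le
    linarith
  have hB2 : ∀ z ∈ ball a (c' * r), u q ≤ u z := by
    intro z hz
    refine mono' hu hqim ?_
    rw [mem_ball, Complex.dist_eq] at hz
    have h1 : |(z - a).im| ≤ ‖z - a‖ := Complex.abs_im_le_norm _
    have h2 : |(z - a).re| ≤ ‖z - a‖ := Complex.abs_re_le_norm _
    have e1 : (z - q).re = (z - a).re := by simp [hq, ha]
    have e2 : (z - q).im = (z - a).im + r / 4 := by simp [hq, ha]; ring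
    rw [e1, e2]
    have h3 := (abs_le.mp h1).1
    have h4 : b * (r / 4 - c' * r) = c' * r := by
      have : b * (r / 4 - c' * r) = (b / 4 - b * c') * r := by ring
      rw [this, ← hc2]; ring
    have h5 : b * (r / 4 - c' * r) ≤ b * ((z - a).im + r / 4) :=
      mul_le_mul_of_nonneg_left (by linarith) hb.le
    linarith
  have hmean := hu.mean w hw r hr0 hr
  rw [setAverage_eq, volR w r hr0.le, smul_eq_mul] at hmean
  have hV : 0 < Real.pi * r ^ 2 := by positivity
  rw [inv_mul_le_iff₀ hV] at hmean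
  have hc : IntegrableOn (fun _ : ℂ => u w - 1) (ball w r) :=
    integrableOn_const measure_ball_lt_top.ne
  have hg : ∫ z in ball w r, (u z - (u w - 1)) ≤ Real.pi * r ^ 2 := by
    rw [integral_sub hI hc, setIntegral_const, volR w r hr0.le, smul_eq_mul]
    linarith
  have hg2 : ∫ z in ball a (c' * r), (u z - (u w - 1)) ≤
      ∫ z in ball w r, (u z - (u w - 1)) := by
    refine setIntegral_mono_set (hI.sub hc) ?_ hB1.eventuallyLE
    rw [EventuallyLE, ae_restrict_iff' measurableSet_ball]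
    refine Eventually.of_forall fun z hz => ?_
    have := hflat z hz
    simp only [Pi.zero_apply]
    linarith
  have hg3 : Real.pi * (c' * r) ^ 2 * (u q - (u w - 1)) ≤
      ∫ z in ball a (c' * r), (u z - (u w - 1)) := by
    have h1 : ∫ z in ball a (c' * r), (u q - (u w - 1)) =
        Real.pi * (c' * r) ^ 2 * (u q - (u w - 1)) := by
      rw [setIntegral_const, volR a (c' * r) (by positivity), smul_eq_mul]
    rw [← h1]
    refine setIntegral_mono_on (integrableOn_const measure_ball_lt_top.ne)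
      ((hI.sub hc).mono_set hB1) measurableSet_ball ?_
    intro z hz
    have := hB2 z hz
    show u q - (u w - 1) ≤ u z - (u w - 1)
    linarith
  have h4 : Real.pi * (c' * r) ^ 2 * (u q - (u w - 1)) ≤ Real.pi * r ^ 2 :=
    hg3.trans (hg2.trans hg)
  have h5 : Real.pi * (c' * r) ^ 2 * (u q - (u w - 1)) =
      Real.pi * r ^ 2 * (c' ^ 2 * (u q - (u w - 1))) := by ring
  rw [h5] at h4
  have h6 : c' ^ 2 * (u q - (u w - 1)) ≤ 1 := by
    have : Real.pi * r ^ 2 * (c' ^ 2 * (u q - (u w - 1))) ≤ Real.pi * r ^ 2 * 1 := by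
      linarith
    exact le_of_mul_le_mul_left this hV
  have h7 : u q - (u w - 1) ≤ 1 / c' ^ 2 := by
    rw [le_div_iff₀ (by positivity)]
    linarith
  linarith

end Up

theorem stUp : StUp := by
  intro b hb
  have hc2 : b / (4 * (1 + b)) * (1 + b) = b / 4 := by field_simp
  have hc' : 0 < b / (4 * (1 + b)) := by positivity
  have hc1 : b / (4 * (1 + b)) ≤ 1 / 4 := by
    rw [div_le_div_iff₀ (by positivity) (by norm_num)]
    linarith
  refine ⟨b / (2 * (1 + b)), 1 / (b / (4 * (1 + b))) ^ 2, by positivity, ?_, ?_, ?_⟩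
  · rw [div_le_div_iff₀ (by positivity) (by norm_num)]
    linarith
  · rw [le_div_iff₀ (by positivity)]
    nlinarith
  · intro u hu w hw r hr0 hr hflat z hz
    have h1 := Up.main hb hu hw hr0 hr hflat _ hc' hc1 hc2
    refine le_trans (Up.mono' hu ?_ ?_) h1
    · refine Up.mem_uhp_of_ball hr hw (ball_subset_ball ?_ hz)
      have : b / (2 * (1 + b)) ≤ 1 := by
        rw [div_le_one (by positivity)]
        linarith
      nlinarith
    · rw [mem_ball, Complex.dist_eq] at hz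
      have h1 : |(z - w).im| ≤ ‖z - w‖ := Complex.abs_im_le_norm _
      have h2 : |(z - w).re| ≤ ‖z - w‖ := Complex.abs_re_le_norm _
      have e1 : (w + ((r / 2 : ℝ) : ℂ) * I - z).re = -(z - w).re := by simp
      have e2 : (w + ((r / 2 : ℝ) : ℂ) * I - z).im = r / 2 - (z - w).im := by simp; ring
      rw [e1, e2, abs_neg]
      have h3 := (abs_le.mp h1).2
      have h4 : b * (r / 2 - b / (2 * (1 + b)) * r) = b / (2 * (1 + b)) * r := by
        field_simp
        ring
      have h5 : b * (r / 2 - b / (2 * (1 + b)) * r) ≤ b * (r / 2 - (z - w).im) :=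
        mul_le_mul_of_nonneg_left (by linarith) hb.le
      linarith

end Pool.Agent.Work.MP_055a27_an.Wd

end
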