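import Pool.Agent.Work.MP_055a27_an.Wd.Stmts
import Pool.Agent.Work.MP_055a27_an.Bd.B04
import Pool.Agent.Work.MP_055a27_an.WMeas
import Pool.Agent.Work.MP_055a27_an.WeakStar
import Pool.Agent.Work.MP_055a27_an.Bd.B15

/-! Bundle of small proof modules (one section per former module). -/

section

/-!
# The sawtooth estimate above Lipschitz graphs
-/

set_option autoImplicit false

open MeasureTheory Set Filter Topology Complex Metric
open scoped ENNReal NNReal

namespace Pool.Agent.Work.MP_055a27_an.Wd.SawG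

open Pool.Agent.Work.MP_055a27_an.Cr3.SawT (green_boundT)

/-- Gradient bound from bounds of bounded height. -/
lemma cone_grad_boundG {F : ℂ → ℂ} (hF : DifferentiableOn ℂ F uhp) {b lam σ : ℝ} (hlam : 0 < lam)
    (hlb : lam < b) {D : ℝ → ℝ} (hD : LipschitzWith 1 D)
    {H : ℝ} (hσ : ∀ z y : ℝ, 0 < y → y ≤ H → D z < b * y → |(F (z + y * I)).re| ≤ σ)
    {z y : ℝ}
    (hy : 0 < y) (hyH : 2 * y ≤ H) (hz : D z ≤ lam * y) :
    ‖deriv F (z + y * I)‖ ≤ 4 * σ * ((1 + b) / (b - lam)) / y := by
  have hb : 0 < b := hlam.trans hlb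
  set ρ : ℝ := (b - lam) / (1 + b) * y with hρ
  have hbl : 0 < b - lam := by linarith
  have hρ0 : 0 < ρ := by positivity
  have hρy : ρ < y := by
    rw [hρ]
    have : (b - lam) / (1 + b) < 1 := by
      rw [div_lt_one (by positivity)]; linarith
    calc (b - lam) / (1 + b) * y < 1 * y := by gcongr
      _ = y := one_mul y
  have h1 : ∀ v ∈ ball ((z : ℂ) + y * I) ρ, |(F v).re| ≤ σ := by
    intro v hv
    have hve : (v.re : ℂ) + v.im * I = v := Complex.re_add_im v
    have hd : ‖v - (z + y * I)‖ < ρ := by simpa [dist_eq_norm] using hv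
    have hre : |v.re - z| < ρ := by
      have := Complex.abs_re_le_norm (v - (z + y * I))
      simp at this
      linarith
    have him : |v.im - y| < ρ := by
      have := Complex.abs_im_le_norm (v - (z + y * I))
      simp at this
      linarith
    rw [abs_lt] at hre him
    have hvy : 0 < v.im := by linarith [him.1]
    rw [← hve]
    apply hσ _ _ hvy (by linarith [him.2])
    have h2 : D v.re ≤ D z + |v.re - z| := by
      have h0 := hD.dist_le_mul v.re z
      rw [NNReal.coe_one, one_mul, Real.dist_eq, Real.dist_eq] at h0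
      linarith [(abs_le.1 h0).2]
    have h3 : |v.re - z| < ρ := abs_lt.2 hre
    have h4 : ρ * (1 + b) = (b - lam) * y := by
      rw [hρ]; field_simp
    nlinarith [him.1]
  have h2 : ball ((z : ℂ) + y * I) ρ ⊆ uhp := by
    intro v hv
    have hd : ‖v - (z + y * I)‖ < ρ := by simpa [dist_eq_norm] using hv
    have := Complex.abs_im_le_norm (v - (z + y * I))
    simp at this
    have h3 := (abs_lt.1 (lt_of_le_of_lt this hd)).1
    show 0 < v.im
    linarith
  have h3 := grad_bound hρ0 (hF.mono h2) h1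
  refine h3.trans (le_of_eq ?_)
  rw [hρ]
  field_simp

/-- The inequality for the region at height above `ε'`. -/
lemma saw_epsG {F : ℂ → ℂ} (hF : DifferentiableOn ℂ F uhp) {lam b C T : ℝ} (hlam : 0 < lam)
    (hlb : lam < b) (hC : 0 < C) (hT : 0 < T) (c : Cutoff C T) {D : ℝ → ℝ} (hD : LipschitzWith 1 D)
    (hD0 : ∀ z, 0 ≤ D z) {x r σ : ℝ} (hr : 0 < r) (hDx : ∀ z, |z - x| - r ≤ D z) (hσ0 : 0 ≤ σ)
    (hσ : ∀ z y : ℝ, 0 < y → y ≤ 4 * T → D z < b * y → |(F (z + y * I)).re| ≤ σ) {ε : ℝ}
    (hε : 0 < ε) :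
    ∫⁻ q in {q : ℝ × ℝ | ε / (1 - lam / ((lam + b) / 2)) < q.2 ∧ q.2 < T ∧
      D q.1 ≤ lam * q.2}, ENNReal.ofReal (q.2 * gsq F q) ≤
    ENNReal.ofReal (((1 / ((lam + b) / 2) + 1) * (4 * ((1 + b) / (b - (lam + b) / 2))) + C / 2 + C) *
      σ ^ 2 * (2 * (r + 2 * ((lam + b) / 2) * T))) := by
  set lam' : ℝ := (lam + b) / 2 with hlam'
  have hl1 : lam < lam' := by rw [hlam']; linarith
  have hl2 : lam' < b := by rw [hlam']; linarith
  have hl0 : 0 < lam' := by linarith
  set φ : ℝ → ℝ := fun z => D z / lam' + ε with hφdef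
  have hφε : ∀ z, ε ≤ φ z := by
    intro z
    have : 0 ≤ D z / lam' := by
      have := hD0 z
      positivity
    simp only [hφdef]
    linarith
  set L : ℝ≥0 := (1 / lam').toNNReal with hL
  have hLr : (L : ℝ) = 1 / lam' := Real.coe_toNNReal _ (by positivity)
  have hlip : LipschitzWith L φ := by
    apply LipschitzWith.of_dist_le_mul
    intro z z'
    have h1 := hD.dist_le_mul z z'
    rw [NNReal.coe_one, one_mul] at h1
    rw [hLr]
    simp only [hφdef, Real.dist_eq] at h1 ⊢
    have e : D z / lam' + ε - (D z' / lam' + ε) =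
        (1 / lam') * (D z - D z') := by ring
    rw [e, abs_mul, abs_of_pos (by positivity : (0:ℝ) < 1 / lam')]
    gcongr
  set R : ℝ := r + 2 * lam' * T with hR
  have hfar : ∀ z, R ≤ |z - x| → 2 * T < φ z := by
    intro z hz
    have h1 : 2 * lam' * T ≤ D z := by linarith [hDx z]
    have h2 : 2 * T ≤ D z / lam' := by
      rw [le_div_iff₀ hl0]; linarith
    simp only [hφdef]
    linarith
  have hRpos : 0 < R := by rw [hR]; positivity
  have hA : 2 * T < φ (x - R) := hfar _ (by
    have : x - R - x = -R := by ring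
    rw [this, abs_neg, abs_of_pos hRpos])
  have hB : 2 * T < φ (x + R) := hfar _ (by
    have : x + R - x = R := by ring
    rw [this, abs_of_pos hRpos])
  -- points above the graph
  have habove : ∀ z t : ℝ, 0 ≤ t → D z ≤ lam' * (φ z + t) := by
    intro z t ht
    have : lam' * φ z = D z + lam' * ε := by
      simp only [hφdef]; field_simp
    nlinarith [mul_nonneg hl0.le ht, mul_pos hl0 hε]
  have hu : ∀ z t, 0 ≤ t → φ z + t ≤ 2 * T → |(F (curve φ t z)).re| ≤ σ := by
    intro z t ht ht2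
    have hpos : 0 < φ z + t := by linarith [hφε z]
    unfold curve
    apply hσ z (φ z + t) hpos (by linarith)
    calc D z ≤ lam' * (φ z + t) := habove z t ht
      _ < b * (φ z + t) := by gcongr
  have hg : ∀ z, φ z ≤ 2 * T →
      φ z * ‖deriv F (curve φ 0 z)‖ ≤ (4 * ((1 + b) / (b - lam'))) * σ := by
    intro z hz2
    have hpos : 0 < φ z := lt_of_lt_of_le hε (hφε z)
    have h1 := cone_grad_boundG hF hl0 hl2 hD hσ (z := z) (y := φ z) hpos (by linarith) (by
      have := habove z 0 le_rfl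
      rwa [add_zero] at this)
    have e : curve φ 0 z = (z : ℂ) + (φ z : ℂ) * I := by unfold curve; simp
    rw [e]
    calc φ z * ‖deriv F ((z : ℂ) + (φ z : ℂ) * I)‖
        ≤ φ z * (4 * σ * ((1 + b) / (b - lam')) / φ z) := by gcongr
      _ = _ := by field_simp
  have hbl : 0 < b - lam' := by linarith
  have hb : 0 < b := hlam.trans hlb
  have hgreen := green_boundT hF hlip hε hφε hC hT c (A := x - R) (B := x + R) (by linarith) hA hB
    hσ0 (by positivity) hu hg
  rw [hLr] at hgreen
  have e1 : x + R - (x - R) = 2 * R := by ring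
  rw [e1] at hgreen
  refine le_trans ?_ (ENNReal.ofReal_le_ofReal hgreen)
  -- convert to lintegral
  have hcont : Continuous φ := hlip.continuous
  have hF1 : DifferentiableOn ℂ (deriv F) uhp := hF.deriv isOpen_uhp
  have h1 : ContinuousOn (fun q : ℝ × ℝ => hf F c φ q.1 q.2) {q | 0 ≤ q.2} := by
    unfold hf
    have e0 : ContinuousOn (fun q : ℝ × ℝ => c.q (φ q.1 + q.2)) {q | 0 ≤ q.2} :=
      ((cutoff_cont_q c).comp ((hcont.comp continuous_fst).add continuous_snd)).continuousOn
    exact e0.mul ((continuousOn_curve hcont hε hφε hF1).norm.pow 2)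
  have hint := integrable_rect h1 (x - R) (x + R) (2 * T)
  have hnn : ∀ z t, 0 ≤ t → 0 ≤ hf F c φ z t := by
    intro z t ht
    unfold hf
    have := c.nonneg (φ z + t) (by linarith [hφε z])
    positivity
  have hconv : ENNReal.ofReal (∫ z in (x - R)..(x + R), ∫ t in (0:ℝ)..(2 * T), hf F c φ z t) =
      ∫⁻ z in Ioc (x - R) (x + R), ∫⁻ t in Ioc (0:ℝ) (2 * T), ENNReal.ofReal (hf F c φ z t) := by
    have e2 : ∫ z in (x - R)..(x + R), ∫ t in (0:ℝ)..(2 * T), hf F c φ z t =
        ∫ q, hf F c φ q.1 q.2 ∂((volume.restrict (Ioc (x - R) (x + R))).prod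
          (volume.restrict (Ioc 0 (2 * T)))) := by
      rw [integral_prod _ hint, intervalIntegral.integral_of_le (by linarith)]
      apply MeasureTheory.integral_congr_ae
      refine Eventually.of_forall fun z => ?_
      simp only
      rw [intervalIntegral.integral_of_le (by positivity)]
    rw [e2, ofReal_integral_eq_lintegral_ofReal hint]
    · rw [lintegral_prod]
      exact hint.aestronglyMeasurable.aemeasurable.ennreal_ofReal
    · rw [Measure.prod_restrict]
      rw [Filter.EventuallyLE, ae_restrict_iff' (measurableSet_Ioc.prod measurableSet_Ioc)]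
      refine Eventually.of_forall fun q hq => ?_
      exact hnn q.1 q.2 hq.2.1.le
  rw [hconv]
  -- main comparison
  set W : Set (ℝ × ℝ) := {q : ℝ × ℝ | ε / (1 - lam / lam') < q.2 ∧ q.2 < T ∧
      D q.1 ≤ lam * q.2} with hW
  have hWm : MeasurableSet W := by
    apply MeasurableSet.inter
    · exact measurableSet_lt measurable_const measurable_snd
    · apply MeasurableSet.inter
      · exact measurableSet_lt measurable_snd measurable_const
      · exact measurableSet_le (hD.continuous.measurable.comp measurable_fst)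
          (measurable_snd.const_mul lam)
  have hfrac : 0 < 1 - lam / lam' := by
    have : lam / lam' < 1 := by rw [div_lt_one hl0]; exact hl1
    linarith
  have hWpt : ∀ z y, (z, y) ∈ W → φ z < y ∧ z ∈ Ioc (x - R) (x + R) := by
    rintro z y ⟨hy1, hy2, hy3⟩
    simp only at hy1 hy2 hy3
    have hy0 : 0 < y := lt_trans (by positivity) hy1
    constructor
    · rw [div_lt_iff₀ hfrac] at hy1
      have : D z / lam' ≤ lam * y / lam' := by gcongr
      have e : lam * y / lam' = y * (lam / lam') := by ring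
      simp only [hφdef]
      rw [e] at this
      nlinarith
    · by_contra hcon
      have h3 : r + lam * T < |z - x| := by
        have hRR : r + lam * T < R := by rw [hR]; nlinarith
        by_contra h4
        push Not at h4
        apply hcon
        have h5 := abs_le.1 (h4.trans hRR.le)
        have h6 := abs_le.1 h4
        exact ⟨by linarith, by linarith⟩
      have h4 : lam * T < D z := by
        have h5 : |z - x| - r ≤ D z := hDx z
        linarith
      have : lam * y < lam * T := by gcongr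
      linarith
  rw [← lintegral_indicator hWm, Measure.volume_eq_prod, lintegral_prod _ (by
    apply AEMeasurable.indicator _ hWm
    exact (measurable_snd.mul (measurable_gsq F)).ennreal_ofReal.aemeasurable)]
  rw [← lintegral_indicator measurableSet_Ioc]
  apply lintegral_mono
  intro z
  simp only
  by_cases hz : z ∈ Ioc (x - R) (x + R)
  · rw [indicator_of_mem hz]
    -- change of variables in y
    have hcv : ∫⁻ t in Ioc (0:ℝ) (2 * T), ENNReal.ofReal (hf F c φ z t) =
        ∫⁻ y, (Ioc (φ z) (φ z + 2 * T)).indicator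
          (fun y => ENNReal.ofReal (c.q y * gsq F (z, y))) y := by
      rw [← lintegral_indicator measurableSet_Ioc,
        ← lintegral_add_left_eq_self (μ := volume)
          (fun y => (Ioc (φ z) (φ z + 2 * T)).indicator
            (fun y => ENNReal.ofReal (c.q y * gsq F (z, y))) y) (φ z)]
      apply lintegral_congr
      intro t
      by_cases ht : t ∈ Ioc (0:ℝ) (2 * T)
      · have ht' : φ z + t ∈ Ioc (φ z) (φ z + 2 * T) := ⟨by linarith [ht.1], by linarith [ht.2]⟩
        rw [indicator_of_mem ht, indicator_of_mem ht']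
        rfl
      · have ht' : φ z + t ∉ Ioc (φ z) (φ z + 2 * T) := fun h =>
          ht ⟨by linarith [h.1], by linarith [h.2]⟩
        rw [indicator_of_notMem ht, indicator_of_notMem ht']
    rw [hcv]
    apply lintegral_mono
    intro y
    simp only
    by_cases hq : (z, y) ∈ W
    · obtain ⟨h2, -⟩ := hWpt z y hq
      have hyT : y < T := hq.2.1
      have hφpos : 0 < φ z := lt_of_lt_of_le hε (hφε z)
      have hmem : y ∈ Ioc (φ z) (φ z + 2 * T) := ⟨h2, by linarith⟩
      rw [indicator_of_mem hq, indicator_of_mem hmem, c.eq_self y hyT.le]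
    · rw [indicator_of_notMem hq]
      exact bot_le
  · rw [indicator_of_notMem hz]
    apply le_of_eq
    rw [lintegral_eq_zero_iff' ]
    · refine Eventually.of_forall fun y => ?_
      have hq : (z, y) ∉ W := fun h => hz (hWpt z y h).2
      simp only [Pi.zero_apply]
      rw [indicator_of_notMem hq]
    · have : Measurable (W.indicator fun q : ℝ × ℝ => ENNReal.ofReal (q.2 * gsq F q)) :=
        ((measurable_snd.mul (measurable_gsq F)).ennreal_ofReal).indicator hWm
      exact (this.comp measurable_prodMk_left).aemeasurable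

/-- Limit `ε → 0` in `saw_eps`. -/
lemma saw_zeroG {F : ℂ → ℂ} (hF : DifferentiableOn ℂ F uhp) {lam b C T : ℝ} (hlam : 0 < lam)
    (hlb : lam < b) (hC : 0 < C) (hT : 0 < T) (c : Cutoff C T) {D : ℝ → ℝ} (hD : LipschitzWith 1 D)
    (hD0 : ∀ z, 0 ≤ D z) {x r σ : ℝ} (hr : 0 < r) (hDx : ∀ z, |z - x| - r ≤ D z) (hσ0 : 0 ≤ σ)
    (hσ : ∀ z y : ℝ, 0 < y → y ≤ 4 * T → D z < b * y → |(F (z + y * I)).re| ≤ σ) :
    ∫⁻ q in {q : ℝ × ℝ | 0 < q.2 ∧ q.2 < T ∧ D q.1 ≤ lam * q.2},
      ENNReal.ofReal (q.2 * gsq F q) ≤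
    ENNReal.ofReal (((1 / ((lam + b) / 2) + 1) * (4 * ((1 + b) / (b - (lam + b) / 2))) + C / 2 + C) *
      σ ^ 2 * (2 * (r + 2 * ((lam + b) / 2) * T))) := by
  have hl0 : 0 < (lam + b) / 2 := by linarith
  have hfrac : 0 < 1 - lam / ((lam + b) / 2) := by
    have : lam / ((lam + b) / 2) < 1 := by rw [div_lt_one hl0]; linarith
    linarith
  set W : ℕ → Set (ℝ × ℝ) := fun n => {q : ℝ × ℝ |
    (1 / ((n : ℝ) + 1)) / (1 - lam / ((lam + b) / 2)) < q.2 ∧ q.2 < T ∧
      D q.1 ≤ lam * q.2} with hW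
  have hWm : ∀ n, MeasurableSet (W n) := by
    intro n
    apply MeasurableSet.inter
    · exact measurableSet_lt measurable_const measurable_snd
    · apply MeasurableSet.inter
      · exact measurableSet_lt measurable_snd measurable_const
      · exact measurableSet_le (hD.continuous.measurable.comp measurable_fst)
          (measurable_snd.const_mul lam)
  have hmono : Monotone W := by
    intro m n hmn q hq
    refine ⟨lt_of_le_of_lt ?_ hq.1, hq.2⟩
    have : (m : ℝ) ≤ n := by exact_mod_cast hmn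
    gcongr
  have hunion : {q : ℝ × ℝ | 0 < q.2 ∧ q.2 < T ∧ D q.1 ≤ lam * q.2} ⊆ ⋃ n, W n := by
    rintro q ⟨h1, h2, h3⟩
    obtain ⟨n, hn⟩ := exists_nat_one_div_lt (show 0 < q.2 * (1 - lam / ((lam + b) / 2)) by
      positivity)
    refine mem_iUnion.2 ⟨n, ?_, h2, h3⟩
    rw [div_lt_iff₀ hfrac]
    exact hn
  calc ∫⁻ q in {q : ℝ × ℝ | 0 < q.2 ∧ q.2 < T ∧ D q.1 ≤ lam * q.2},
      ENNReal.ofReal (q.2 * gsq F q)
      ≤ ∫⁻ q in ⋃ n, W n, ENNReal.ofReal (q.2 * gsq F q) := lintegral_mono_set hunion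
    _ = ⨆ n, ∫⁻ q in W n, ENNReal.ofReal (q.2 * gsq F q) := by
        rw [setLIntegral_iUnion_of_directed _ (directed_of_isDirected_le hmono)]
    _ ≤ _ := by
        apply iSup_le
        intro n
        have hn : (0 : ℝ) < 1 / ((n : ℝ) + 1) := by positivity
        exact saw_epsG hF hlam hlb hC hT c hD hD0 hr hDx hσ0 hσ hn

end Pool.Agent.Work.MP_055a27_an.Wd.SawG

namespace Pool.Agent.Work.MP_055a27_an.Wd

open SawG in
/-- The sawtooth estimate above Lipschitz graphs. -/
theorem stSawG : StSawG := by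
  intro lam b hlam hlb
  obtain ⟨C, hC, hcut⟩ := exists_cutoff
  have hb : 0 < b := hlam.trans hlb
  set lam' : ℝ := (lam + b) / 2 with hlam'
  have hl0 : 0 < lam' := by rw [hlam']; linarith
  have hbl : 0 < b - lam' := by rw [hlam']; linarith
  set K0 : ℝ := ((1 / lam' + 1) * (4 * ((1 + b) / (b - lam'))) + C / 2 + C) with hK0
  have hK0pos : 0 < K0 := by rw [hK0]; positivity
  refine ⟨K0 * (2 * (1 + 2 * lam')), 4 * b + 4, by positivity, by linarith, ?_⟩
  intro F hF d x r T σ hd hd0 hr hT hσ0 hσ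
  obtain ⟨c⟩ := hcut T hT
  set D : ℝ → ℝ := fun z => max (d z) (|z - x| - r) with hDdef
  have hD : LipschitzWith 1 D := by
    have h1 : LipschitzWith 1 (fun z : ℝ => |z - x| - r) := by
      apply LipschitzWith.of_dist_le_mul
      intro z z'
      rw [NNReal.coe_one, one_mul, Real.dist_eq, Real.dist_eq]
      have e : |z - x| - r - (|z' - x| - r) = |z - x| - |z' - x| := by ring
      rw [e]
      have := abs_abs_sub_abs_le_abs_sub (z - x) (z' - x)
      have e2 : z - x - (z' - x) = z - z' := by ring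
      rwa [e2] at this
    have := hd.max h1
    rwa [max_self] at this
  have hD0 : ∀ z, 0 ≤ D z := fun z => (hd0 z).trans (le_max_left _ _)
  have hDx : ∀ z, |z - x| - r ≤ D z := fun z => le_max_right _ _
  have hσ' : ∀ z y : ℝ, 0 < y → y ≤ 4 * T → D z < b * y → |(F (z + y * I)).re| ≤ σ := by
    intro z y hy hyT hDz
    have h1 : d z < b * y := (le_max_left _ _).trans_lt hDz
    have h2 : |z - x| - r < b * y := (hDx z).trans_lt hDz
    have h3 : b * y ≤ b * (4 * T) := by gcongr
    have h4 : 0 < b * r := by positivity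
    have h5 : 0 < b * T := by positivity
    exact hσ z y hy (by nlinarith) (by nlinarith) h1
  have hmain := saw_zeroG hF hlam hlb hC hT c hD hD0 hr hDx hσ0 hσ'
  rw [← hlam', ← hK0] at hmain
  have hsub : {q : ℝ × ℝ | 0 < q.2 ∧ q.2 < T ∧ |q.1 - x| ≤ r ∧ d q.1 ≤ lam * q.2} ⊆
      {q : ℝ × ℝ | 0 < q.2 ∧ q.2 < T ∧ D q.1 ≤ lam * q.2} := by
    rintro q ⟨h1, h2, h3, h4⟩
    refine ⟨h1, h2, max_le h4 ?_⟩
    have : 0 < lam * q.2 := by positivity
    linarith
  refine (lintegral_mono_set hsub).trans (hmain.trans (ENNReal.ofReal_le_ofReal ?_))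
  have h1 : r + 2 * lam' * T ≤ (1 + 2 * lam') * (r + T) := by nlinarith [mul_pos hl0 hr]
  calc K0 * σ ^ 2 * (2 * (r + 2 * lam' * T))
      ≤ K0 * σ ^ 2 * (2 * ((1 + 2 * lam') * (r + T))) := by gcongr
    _ = _ := by ring

end Pool.Agent.Work.MP_055a27_an.Wd

end

section

/-!
# MP_055a27_an, Wd: a height where the gradient functional is not small
-/

set_option autoImplicit false

open MeasureTheory Set Filter Topology Complex Metric
open scoped ENNReal NNReal

namespace Pool.Agent.Work.MP_055a27_an.Wd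

namespace Slo

/-- vertical derivative of the Poisson integral -/
lemma hasDerivAt_h {f : ℝ → ℝ} (hf : Admissible f) (w : ℂ) (η s : ℝ) (hs : 0 < w.im + s + η) :
    HasDerivAt (fun s : ℝ => poisson f w.re (w.im + s + η))
      ((dschw f (w + s * I + η * I) * I).re) s := by
  have e : ∀ t : ℝ, w + t * I + η * I = (w.re : ℂ) + ((w.im + t + η : ℝ) : ℂ) * I := by
    intro t
    apply Complex.ext <;> simp
  have h1 : HasDerivAt (fun t : ℝ => w + t * I + η * I) I s := by
    have := (((Complex.ofRealCLM.hasDerivAt (x := s)).mul_const I).const_add w).add_const (η * I)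
    simpa using this
  have him : 0 < (w + s * I + η * I).im := by simpa using hs
  have h2 := (hasDerivAt_schw hf him).scomp s h1
  have h3 : HasDerivAt (fun t : ℝ => (schw f (w + t * I + η * I)).re)
      ((dschw f (w + s * I + η * I) * I).re) s := by
    have h4 := Complex.reCLM.hasFDerivAt.comp_hasDerivAt s h2
    have h5 : Complex.reCLM (I • dschw f (w + s * I + η * I)) =
        (dschw f (w + s * I + η * I) * I).re := by
      rw [smul_eq_mul, mul_comm]; rfl
    rw [h5] at h4
    exact h4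
  apply h3.congr_of_eventuallyEq
  have hc : ∀ᶠ t in 𝓝 s, 0 < w.im + t + η := by
    have hcont : Continuous fun t : ℝ => w.im + t + η := by fun_prop
    exact hcont.continuousAt.eventually (lt_mem_nhds hs)
  filter_upwards [hc] with t ht
  rw [e, schw_re hf ht]

/-- the shifted derivative is holomorphic -/
lemma diff_shift {f : ℝ → ℝ} (hf : Admissible f) {η : ℝ} {K : ℝ} (hK : K⁻¹ ≤ η) :
    DifferentiableOn ℂ (fun u => dschw f (u + η * I)) {u | -K⁻¹ < u.im} := by
  have ho : IsOpen {u : ℂ | 0 < u.im} := isOpen_lt continuous_const Complex.continuous_im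
  have h1 : DifferentiableOn ℂ (schw f) {u | 0 < u.im} := fun u hu =>
    (hasDerivAt_schw hf hu).differentiableAt.differentiableWithinAt
  have h2 := h1.deriv ho
  have h3 : DifferentiableOn ℂ (dschw f) {u | 0 < u.im} :=
    h2.congr fun u hu => ((hasDerivAt_schw hf hu).deriv).symm
  have h4 : DifferentiableOn ℂ (fun u : ℂ => u + η * I) {u | -K⁻¹ < u.im} := by fun_prop
  apply h3.comp h4
  intro u hu
  show 0 < (u + η * I).im
  have hu' : -K⁻¹ < u.im := hu
  have : (u + η * I).im = u.im + η := by simp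
  rw [this]
  linarith

/-- the factor `tau` is not small near the origin -/
lemma tau_ge {R : ℝ} (hR : 1 ≤ R) {u : ℂ} (hu : ‖u‖ ≤ R / 8) : 1 / 2 ≤ ‖tau R u‖ := by
  have h0 : (0 : ℝ) < R := by linarith
  have hIR : ‖I * (R : ℂ)‖ = R := by
    rw [norm_mul, Complex.norm_I, one_mul, Complex.norm_real, Real.norm_eq_abs, abs_of_pos h0]
  have h1 : ‖u + I * R‖ ≤ 9 / 8 * R := by
    have := norm_add_le u (I * (R : ℂ))
    rw [hIR] at this
    linarith
  have h2 : 0 < ‖u + I * R‖ := by
    have h3 : ‖I * (R : ℂ)‖ ≤ ‖u + I * R‖ + ‖u‖ := by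
      have e : I * (R : ℂ) = (u + I * R) - u := by ring
      calc ‖I * (R : ℂ)‖ = ‖(u + I * R) - u‖ := by rw [← e]
        _ ≤ _ := norm_sub_le _ _
    rw [hIR] at h3
    linarith
  unfold tau
  rw [norm_pow, norm_div, hIR]
  have h4 : 8 / 9 ≤ R / ‖u + I * R‖ := by
    rw [le_div_iff₀ h2]
    linarith
  calc (1 : ℝ) / 2 ≤ (8 / 9) ^ 4 := by norm_num
    _ ≤ _ := pow_le_pow_left₀ (by norm_num) h4 4

/-- the geometric sum -/
lemma geo (J m : ℕ) : ∑ j ∈ Finset.Ico J m, ((1 : ℝ) / 2) ^ j ≤ 2 := by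
  calc ∑ j ∈ Finset.Ico J m, ((1 : ℝ) / 2) ^ j ≤ ∑ j ∈ Finset.range m, ((1 : ℝ) / 2) ^ j := by
        apply Finset.sum_le_sum_of_subset_of_nonneg
        · intro j hj
          rw [Finset.mem_range]
          exact (Finset.mem_Ico.1 hj).2
        · intro j _ _
          positivity
    _ ≤ 2 := by
        have h := geom_sum_eq (x := (1 : ℝ) / 2) (by norm_num) m
        rw [h]
        have : (0 : ℝ) ≤ (1 / 2) ^ m := by positivity
        linarith [this, (by ring : (((1 : ℝ) / 2) ^ m - 1) / (1 / 2 - 1) = 2 - 2 * (1 / 2) ^ m)]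

end Slo

open Slo in
/-- 33 Slo: a height where the gradient functional is not small. -/
theorem stSlo (hGR : StGR) (hGrow : Thr.StGrow) : StSlo := by
  intro b τ hb hτ hτ2 J
  set L : ℝ := Real.log (1 + 2 ^ (J + 1) / τ) with hL
  have hL0 : 0 < L := by
    apply Real.log_pos
    have : (0 : ℝ) < 2 ^ (J + 1) / τ := by positivity
    linarith
  refine ⟨b / (16 * L), by positivity, ?_⟩
  intro f η R w j0 hf hη hR hw hwR ha hG hj0
  set y : ℝ := w.im with hy
  set Φ : ℂ → ℂ := fun u => dschw f (u + η * I) with hΦ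
  set h : ℝ → ℝ := fun s => poisson f w.re (y + s + η) with hh
  have h0 : poisson f w.re (y + η) = h 0 := by simp [hh]
  rw [h0] at ha hG hj0 ⊢
  have hj0' : |h (2 ^ j0 * y)| < |h 0| / 2 := hj0
  set a : ℝ := |h 0| with haDef
  -- derivative
  have hder : ∀ s : ℝ, 0 ≤ s → HasDerivAt h ((dschw f (w + s * I + η * I) * I).re) s := by
    intro s hs
    exact hasDerivAt_h hf w η s (by positivity)
  have hdn : ∀ s : ℝ, ‖(dschw f (w + s * I + η * I) * I).re‖ ≤ ‖Φ (w + s * I)‖ := by
    intro s
    have h1 := Complex.abs_re_le_norm (dschw f (w + s * I + η * I) * I)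
    rw [norm_mul, Complex.norm_I, mul_one] at h1
    exact h1
  -- not identically zero
  have hnz : ∃ u ∈ uhp, Φ u ≠ 0 := by
    by_contra hcon
    push Not at hcon
    have h1 : ‖h (2 ^ j0 * y) - h 0‖ ≤ 0 * ((2 ^ j0 * y) - 0) := by
      apply norm_image_sub_le_of_norm_deriv_le_segment' (a := 0) (b := 2 ^ j0 * y)
        (f' := fun s => (dschw f (w + s * I + η * I) * I).re)
      · intro x hx
        exact (hder x hx.1).hasDerivWithinAt
      · intro x hx
        refine (hdn x).trans ?_
        rw [hcon (w + x * I), norm_zero]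
        show 0 < (w + x * I).im
        have : (w + x * I).im = y + x := by simp [hy]
        rw [this]
        linarith [hx.1]
      · exact ⟨by positivity, le_rfl⟩
    rw [zero_mul, norm_le_zero_iff, sub_eq_zero] at h1
    rw [h1, ← haDef] at hj0'
    linarith
  -- the facts about the gradient functional
  obtain ⟨K₀, hK₀⟩ := hGrow f hf η hη
  set K : ℝ := max 1 (max η⁻¹ (|K₀| * (1 + η) ^ 2)) with hK
  have hK1 : 1 ≤ K := le_max_left _ _
  have hK2 : η⁻¹ ≤ K := (le_max_left _ _).trans (le_max_right _ _)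
  have hK3 : |K₀| * (1 + η) ^ 2 ≤ K := (le_max_right _ _).trans (le_max_right _ _)
  have hKη : K⁻¹ ≤ η := by
    rw [inv_le_comm₀ (by linarith) hη]
    exact hK2
  have hgr : ∀ u : ℂ, 0 ≤ u.im → ‖Φ u‖ ≤ K * (1 + ‖u‖) ^ 2 := by
    intro u hu
    have h1 : η ≤ (u + η * I).im := by
      have : (u + η * I).im = u.im + η := by simp
      rw [this]; linarith
    have h2 := hK₀ (u + η * I) h1
    have h3 : 1 + ‖u + η * I‖ ≤ (1 + η) * (1 + ‖u‖) := by
      have h4 := norm_add_le u (η * I)
      rw [norm_mul, Complex.norm_I, mul_one, Complex.norm_real, Real.norm_eq_abs,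
        abs_of_pos hη] at h4
      nlinarith [norm_nonneg u, mul_nonneg hη.le (norm_nonneg u)]
    calc ‖Φ u‖ ≤ K₀ * (1 + ‖u + η * I‖) ^ 2 := h2
      _ ≤ |K₀| * (1 + ‖u + η * I‖) ^ 2 :=
        mul_le_mul_of_nonneg_right (le_abs_self _) (by positivity)
      _ ≤ |K₀| * ((1 + η) * (1 + ‖u‖)) ^ 2 :=
        mul_le_mul_of_nonneg_left (pow_le_pow_left₀ (by positivity) h3 2) (abs_nonneg _)
      _ = (|K₀| * (1 + η) ^ 2) * (1 + ‖u‖) ^ 2 := by ring
      _ ≤ _ := mul_le_mul_of_nonneg_right hK3 (by positivity)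
  obtain ⟨-, hGR2⟩ := hGR b hb Φ K (diff_shift hf hKη) hK1 hgr hnz
  obtain ⟨-, -, -, -, h5, -⟩ := hGR2 R hR
  -- combined with the bound of tau
  have key : ∀ (s t : ℝ), 0 ≤ s → s ≤ 2 ^ j0 * y → 0 ≤ s - t → 0 ≤ y + t →
      b * (s - t) * ‖Φ (w + s * I)‖ ≤ 2 * GG b R Φ (w + (t : ℝ) * I) := by
    intro s t hs hs2 hst hyt
    have h6 := h5 (w + t * I) (by
      have : (w + t * I).im = y + t := by simp [hy]
      rw [this]; exact hyt) (s - t) hst
    have e : w + t * I + ((s - t : ℝ) : ℂ) * I = w + s * I := by push_cast; ring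
    rw [e] at h6
    have h7 : 1 / 2 ≤ ‖tau R (w + s * I)‖ := by
      apply tau_ge hR
      have h8 := norm_add_le w (s * I)
      rw [norm_mul, Complex.norm_I, mul_one, Complex.norm_real, Real.norm_eq_abs,
        abs_of_nonneg hs] at h8
      linarith
    have h9 : 0 ≤ b * (s - t) * ‖Φ (w + s * I)‖ := by positivity
    nlinarith
  have hy0 : 0 < y := hw
  -- step 1
  have step1 : ∀ S : ℝ, 0 ≤ S → S ≤ 2 ^ (J + 1) * y → S ≤ 2 ^ j0 * y → |h S - h 0| ≤ a / 8 := by
    intro S hS hS1 hS2
    have hfin : ∀ ⦃x⦄, x ∈ Icc (0 : ℝ) S → ‖h x - h 0‖ ≤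
        a / (8 * L) * Real.log (1 + x / (τ * y)) := by
      apply image_norm_le_of_norm_deriv_right_le_deriv_boundary'
        (f := fun x => h x - h 0) (a := 0) (b := S)
        (f' := fun s => (dschw f (w + s * I + η * I) * I).re)
        (B := fun x => a / (8 * L) * Real.log (1 + x / (τ * y)))
        (B' := fun s => a / (8 * L) * (1 / (s + τ * y)))
      · intro x hx
        exact ((hder x hx.1).sub_const (h 0)).continuousAt.continuousWithinAt
      · intro x hx
        exact ((hder x hx.1).sub_const (h 0)).hasDerivWithinAt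
      · simp
      · intro x hx
        apply ContinuousAt.continuousWithinAt
        apply ContinuousAt.mul continuousAt_const
        apply ContinuousAt.log
        · fun_prop
        · have : 0 ≤ x / (τ * y) := div_nonneg hx.1 (by positivity)
          linarith
      · intro x hx
        have hx0 : 0 ≤ x := hx.1
        have h10 : HasDerivAt (fun x : ℝ => 1 + x / (τ * y)) (1 / (τ * y)) x := by
          have := ((hasDerivAt_id x).div_const (τ * y)).const_add 1
          simpa using this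
        have h11 : (1 + x / (τ * y)) ≠ 0 := by
          have : 0 ≤ x / (τ * y) := div_nonneg hx0 (by positivity)
          linarith
        have h12 := (h10.log h11).const_mul (a / (8 * L))
        have e : 1 / (τ * y) / (1 + x / (τ * y)) = 1 / (x + τ * y) := by
          have : τ * y ≠ 0 := by positivity
          have h13 : x + τ * y ≠ 0 := by positivity
          field_simp
          ring
        rw [e] at h12
        exact h12.hasDerivWithinAt
      · intro x hx
        have hx0 : 0 ≤ x := hx.1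
        refine (hdn x).trans ?_
        have h14 := key x (-(τ * y)) hx0 (by linarith [hx.2]) (by nlinarith) (by nlinarith)
        have e : w + ((-(τ * y) : ℝ) : ℂ) * I = w - ((τ * y : ℝ) : ℂ) * I := by push_cast; ring
        rw [e] at h14
        have h15 : b * (x + τ * y) * ‖Φ (w + x * I)‖ ≤ 2 * (b / (16 * L) * a) := by
          have e2 : x - -(τ * y) = x + τ * y := by ring
          rw [e2] at h14
          linarith
        have h16 : 0 < x + τ * y := by positivity
        show ‖Φ (w + x * I)‖ ≤ a / (8 * L) * (1 / (x + τ * y))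
        rw [mul_one_div, le_div_iff₀ h16]
        have h17 : b * (‖Φ (w + x * I)‖ * (x + τ * y)) ≤ b * (a / (8 * L)) := by
          calc b * (‖Φ (w + x * I)‖ * (x + τ * y)) = b * (x + τ * y) * ‖Φ (w + x * I)‖ := by ring
            _ ≤ 2 * (b / (16 * L) * a) := h15
            _ = b * (a / (8 * L)) := by field_simp; ring
        exact le_of_mul_le_mul_left h17 hb
    have h18 := hfin (show S ∈ Icc 0 S from ⟨hS, le_rfl⟩)
    have h19 : Real.log (1 + S / (τ * y)) ≤ L := by
      apply Real.log_le_log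
      · have : 0 ≤ S / (τ * y) := by positivity
        linarith
      · have : S / (τ * y) ≤ 2 ^ (J + 1) / τ := by
          rw [div_le_div_iff₀ (by positivity) hτ]
          nlinarith
        linarith
    have h20 : 0 ≤ a / (8 * L) := by positivity
    calc |h S - h 0| ≤ a / (8 * L) * Real.log (1 + S / (τ * y)) := h18
      _ ≤ a / (8 * L) * L := mul_le_mul_of_nonneg_left h19 h20
      _ = a / 8 := by field_simp
  have hbig : ∀ S : ℝ, |h S - h 0| ≤ a / 4 → ¬ |h S| < a / 2 := by
    intro S hS hlt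
    have h21 : a ≤ |h S| + |h S - h 0| := by
      have : |h 0| ≤ |h S| + |h S - h 0| := by
        calc |h 0| = |h S - (h S - h 0)| := by ring_nf
          _ ≤ _ := abs_sub _ _
      exact this
    linarith
  have hpow : ∀ {i j : ℕ}, i ≤ j → (2 : ℝ) ^ i * y ≤ 2 ^ j * y := by
    intro i j hij
    exact mul_le_mul_of_nonneg_right (pow_le_pow_right₀ (by norm_num) hij) hy0.le
  -- `j0` is large
  have hj0J : J + 1 < j0 := by
    by_contra hcon
    have hle : j0 ≤ J + 1 := not_lt.1 hcon
    have := step1 (2 ^ j0 * y) (by positivity) (hpow hle) le_rfl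
    exact hbig _ (by linarith) hj0'
  -- the smallest `j`
  have hex : ∃ j : ℕ, |h (2 ^ j * y)| < a / 2 := ⟨j0, hj0'⟩
  classical
  set j1 : ℕ := Nat.find hex with hj1
  have hj1s : |h (2 ^ j1 * y)| < a / 2 := Nat.find_spec hex
  have hj1le : j1 ≤ j0 := Nat.find_min' hex hj0'
  have hj1min : ∀ j, j < j1 → a / 2 ≤ |h (2 ^ j * y)| := by
    intro j hj
    exact not_lt.1 (Nat.find_min hex hj)
  have hj1J : J + 1 < j1 := by
    by_contra hcon
    have hle : j1 ≤ J + 1 := not_lt.1 hcon
    have := step1 (2 ^ j1 * y) (by positivity) (hpow hle) (hpow hj1le)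
    exact hbig _ (by linarith) hj1s
  -- step 2
  have step2 : ∀ i : ℕ, i + 1 < j0 → |h (2 ^ (i + 2) * y) - h (2 ^ (i + 1) * y)| ≤
      4 / b * GG b R Φ (w + (2 ^ i * y : ℝ) * I) := by
    intro i hi
    set g : ℝ := GG b R Φ (w + (2 ^ i * y : ℝ) * I) with hg
    have h22 : ‖h (2 ^ (i + 2) * y) - h (2 ^ (i + 1) * y)‖ ≤
        2 * g / (b * (2 ^ i * y)) * ((2 ^ (i + 2) * y) - 2 ^ (i + 1) * y) := by
      apply norm_image_sub_le_of_norm_deriv_le_segment' (a := 2 ^ (i + 1) * y)
        (b := 2 ^ (i + 2) * y)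
        (f' := fun s => (dschw f (w + s * I + η * I) * I).re)
      · intro x hx
        have : (0 : ℝ) ≤ 2 ^ (i + 1) * y := by positivity
        exact (hder x (this.trans hx.1)).hasDerivWithinAt
      · intro x hx
        refine (hdn x).trans ?_
        have hp : (0 : ℝ) < 2 ^ i * y := by positivity
        have hx1 : 2 ^ (i + 1) * y ≤ x := hx.1
        have e1 : (2 : ℝ) ^ (i + 1) * y = 2 * (2 ^ i * y) := by rw [pow_succ]; ring
        have hx2 : x ≤ 2 ^ j0 * y := hx.2.le.trans (hpow (by omega))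
        have hxt : 2 ^ i * y ≤ x - 2 ^ i * y := by linarith
        have h23 := key x (2 ^ i * y) (by linarith) hx2 (by linarith) (by linarith)
        rw [le_div_iff₀ (by positivity)]
        have h24 : b * (2 ^ i * y) * ‖Φ (w + x * I)‖ ≤ b * (x - 2 ^ i * y) * ‖Φ (w + x * I)‖ := by
          apply mul_le_mul_of_nonneg_right _ (norm_nonneg _)
          exact mul_le_mul_of_nonneg_left hxt hb.le
        calc ‖Φ (w + x * I)‖ * (b * (2 ^ i * y)) = b * (2 ^ i * y) * ‖Φ (w + x * I)‖ := by ring
          _ ≤ _ := h24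
          _ ≤ _ := h23
      · exact ⟨hpow (by omega), le_rfl⟩
    calc |h (2 ^ (i + 2) * y) - h (2 ^ (i + 1) * y)| ≤
        2 * g / (b * (2 ^ i * y)) * ((2 ^ (i + 2) * y) - 2 ^ (i + 1) * y) := h22
      _ = 4 / b * g := by
        have : (2 : ℝ) ^ i ≠ 0 := by positivity
        rw [pow_succ, pow_succ]
        field_simp
        ring
  -- conclusion
  by_contra hcon
  push Not at hcon
  have hsmall : ∀ j, J ≤ j → j + 1 < j1 → GG b R Φ (w + (2 ^ j * y : ℝ) * I) <
      b / 64 * a * (1 / 2) ^ j := by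
    intro j hJj hj
    exact hcon j hJj (by omega) (hj1min j (by omega))
  have htel : ∀ m : ℕ, J + 1 + m ≤ j1 → |h (2 ^ (J + 1 + m) * y) - h (2 ^ (J + 1) * y)| ≤
      a / 16 * ∑ j ∈ Finset.Ico J (J + m), ((1 : ℝ) / 2) ^ j := by
    intro m
    induction m with
    | zero => intro _; simp
    | succ m ih =>
      intro hm
      have h25 := ih (by omega)
      have h26 := step2 (J + m) (by omega)
      have h27 := hsmall (J + m) (by omega) (by omega)
      have e1 : J + 1 + (m + 1) = J + m + 2 := by ring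
      have e2 : J + 1 + m = J + m + 1 := by ring
      have e3 : J + (m + 1) = (J + m) + 1 := by ring
      rw [e1, e3, Finset.sum_Ico_succ_top (by omega)]
      rw [e2] at h25
      have h28 : 4 / b * GG b R Φ (w + (2 ^ (J + m) * y : ℝ) * I) ≤
          a / 16 * (1 / 2) ^ (J + m) := by
        calc 4 / b * GG b R Φ (w + (2 ^ (J + m) * y : ℝ) * I) ≤
            4 / b * (b / 64 * a * (1 / 2) ^ (J + m)) :=
              mul_le_mul_of_nonneg_left h27.le (by positivity)
          _ = _ := by field_simp; ring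
      calc |h (2 ^ (J + m + 2) * y) - h (2 ^ (J + 1) * y)|
          = |(h (2 ^ (J + m + 2) * y) - h (2 ^ (J + m + 1) * y)) +
              (h (2 ^ (J + m + 1) * y) - h (2 ^ (J + 1) * y))| := by ring_nf
        _ ≤ |h (2 ^ (J + m + 2) * y) - h (2 ^ (J + m + 1) * y)| +
              |h (2 ^ (J + m + 1) * y) - h (2 ^ (J + 1) * y)| := abs_add_le _ _
        _ ≤ _ := by linarith
  have h29 := htel (j1 - (J + 1)) (by omega)
  have e4 : J + 1 + (j1 - (J + 1)) = j1 := by omega
  rw [e4] at h29
  have h30 := geo J (J + (j1 - (J + 1)))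
  have h31 := step1 (2 ^ (J + 1) * y) (by positivity) le_rfl (hpow hj0J.le)
  have h32 : |h (2 ^ j1 * y) - h 0| ≤ a / 4 := by
    calc |h (2 ^ j1 * y) - h 0| = |(h (2 ^ j1 * y) - h (2 ^ (J + 1) * y)) +
          (h (2 ^ (J + 1) * y) - h 0)| := by ring_nf
      _ ≤ |h (2 ^ j1 * y) - h (2 ^ (J + 1) * y)| + |h (2 ^ (J + 1) * y) - h 0| := abs_add_le _ _
      _ ≤ a / 16 * 2 + a / 8 := by
        apply add_le_add _ h31
        refine h29.trans ?_
        exact mul_le_mul_of_nonneg_left h30 (by positivity)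
      _ = a / 4 := by ring
  exact hbig _ h32 hj1s

end Pool.Agent.Work.MP_055a27_an.Wd

end

section

/-!
# Item Smo: regularisation in the directions of the cone
-/

set_option autoImplicit false

open MeasureTheory Set Filter Topology Complex Metric
open scoped ENNReal NNReal Convolution

namespace Pool.Agent.Work.MP_055a27_an.Wd

namespace Smo

/-- The half plane `t / 2 ≤ Im`. -/
def Ht (t : ℝ) : Set ℂ := {w | t / 2 ≤ w.im}

/-- The function `u` cut off. -/
noncomputable def uu (t : ℝ) (u : ℂ → ℝ) : ℂ → ℝ := (Ht t).indicator u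

theorem isClosed_Ht (t : ℝ) : IsClosed (Ht t) :=
  isClosed_le continuous_const Complex.continuous_im

theorem Ht_sub {t : ℝ} (ht : 0 < t) : Ht t ⊆ uhp := fun w hw => by
  show 0 < w.im
  have : t / 2 ≤ w.im := hw
  linarith

theorem meas_uu {b t : ℝ} {u : ℂ → ℝ} (ht : 0 < t) (hu : SH b u) : Measurable (uu t u) := by
  refine measurable_of_restrict_of_restrict_compl (isClosed_Ht t).measurableSet ?_ ?_
  · have h : (Ht t).domRestrict (uu t u) = (Ht t).domRestrict u := by
      ext x
      simp only [domRestrict_apply, uu, indicator_of_mem x.2]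
    rw [h]
    exact (upperSemicontinuousOn_iff_restrict.mpr (hu.usc.mono (Ht_sub ht))).measurable
  · have h : (Ht t)ᶜ.domRestrict (uu t u) = fun _ => 0 := by
      ext x
      simp only [domRestrict_apply, uu, indicator_of_notMem x.2]
    rw [h]
    exact measurable_const

theorem bd_uu {b t : ℝ} {u : ℂ → ℝ} (hb : 0 < b) (ht : 0 < t) (hu : SH b u) (ρ : ℝ) :
    ∃ K : ℝ, 0 ≤ K ∧ ∀ w, ‖w‖ ≤ ρ → |uu t u w| ≤ K := by
  obtain ⟨m, hm⟩ := hu.bdd
  refine ⟨|m| + |u (((ρ * (1 + 1 / b) : ℝ) : ℂ) * I)|, by positivity, fun w hw => ?_⟩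
  by_cases h : w ∈ Ht t
  · have hw' := Ht_sub ht h
    rw [uu, indicator_of_mem h]
    have h1 := hm w hw'
    have h2 : u w ≤ u (((ρ * (1 + 1 / b) : ℝ) : ℂ) * I) := by
      have h3 := hu.mono w hw' ((((ρ * (1 + 1 / b) : ℝ) : ℂ) * I) - w) (by
        show |((((ρ * (1 + 1 / b) : ℝ) : ℂ) * I) - w).re| ≤
          b * ((((ρ * (1 + 1 / b) : ℝ) : ℂ) * I) - w).im
        have e1 : ((((ρ * (1 + 1 / b) : ℝ) : ℂ) * I) - w).re = -w.re := by simp
        have e2 : ((((ρ * (1 + 1 / b) : ℝ) : ℂ) * I) - w).im = ρ * (1 + 1 / b) - w.im := by simp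
        rw [e1, e2, abs_neg]
        have h4 := (Complex.abs_re_le_norm w).trans hw
        have h5 := (le_abs_self _).trans ((Complex.abs_im_le_norm w).trans hw)
        have h6 : b * (ρ * (1 + 1 / b) - w.im) = b * (ρ - w.im) + ρ := by
          field_simp
          ring
        rw [h6]
        have h7 : 0 ≤ b * (ρ - w.im) := mul_nonneg hb.le (by linarith)
        linarith)
      rwa [add_sub_cancel] at h3
    rw [abs_le]
    have h6 := neg_abs_le m
    have h7 := le_abs_self (u (((ρ * (1 + 1 / b) : ℝ) : ℂ) * I))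
    have h8 := abs_nonneg (u (((ρ * (1 + 1 / b) : ℝ) : ℂ) * I))
    have h9 := abs_nonneg m
    constructor <;> linarith
  · rw [uu, indicator_of_notMem h, abs_zero]
    positivity

theorem locInt_uu {b t : ℝ} {u : ℂ → ℝ} (hb : 0 < b) (ht : 0 < t) (hu : SH b u) :
    LocallyIntegrable (uu t u) volume := by
  rw [locallyIntegrable_iff]
  intro k hk
  obtain ⟨ρ, hρ⟩ := hk.isBounded.subset_closedBall (0 : ℂ)
  obtain ⟨K, hK, hbd⟩ := bd_uu hb ht hu ρ
  have hfin : IsFiniteMeasure (volume.restrict k) :=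
    isFiniteMeasure_restrict.mpr hk.measure_lt_top.ne
  refine Integrable.of_bound (meas_uu ht hu).aestronglyMeasurable K ?_
  refine ae_restrict_of_forall_mem hk.measurableSet fun w hw => ?_
  rw [Real.norm_eq_abs]
  exact hbd w (by simpa using hρ hw)

theorem exists_phi (p : ℂ) (c : ℝ) (hc : 0 < c) : ∃ φ : ℂ → ℝ, ContDiff ℝ 2 φ ∧
    HasCompactSupport φ ∧ (∀ s, 0 ≤ φ s) ∧ Integrable φ volume ∧ ∫ s, φ s = 1 ∧
    ∀ s, φ s ≠ 0 → ‖s - p‖ < c := by
  let B : ContDiffBump p := ⟨c / 2, c, by positivity, by linarith⟩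
  refine ⟨B.normed volume, ?_, B.hasCompactSupport_normed, fun s => B.nonneg_normed s,
    B.integrable_normed, B.integral_normed, fun s hs => ?_⟩
  · exact B.contDiff_normed (n := 2)
  · have h : s ∈ Function.support (B.normed volume) := hs
    rw [B.support_normed_eq] at h
    simpa [dist_eq_norm] using h

theorem geom {b t c : ℝ} (hb : 0 < b) (hc1 : c ≤ t / 2) (hc2 : c ≤ b * (t - c)) {s : ℂ}
    (hs : ‖s - -((t : ℂ) * I)‖ < c) :
    -s ∈ Co b ∧ (2 * t * I + s : ℂ) ∈ Co b ∧ t / 2 ≤ -s.im := by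
  have h1 := (Complex.abs_re_le_norm _).trans hs.le
  have h2 := (Complex.abs_im_le_norm _).trans hs.le
  have e1 : (s - -((t : ℂ) * I)).re = s.re := by simp
  have e2 : (s - -((t : ℂ) * I)).im = s.im + t := by simp
  rw [e1] at h1
  rw [e2] at h2
  have h3 := abs_le.mp h2
  refine ⟨?_, ?_, by linarith⟩
  · show |(-s).re| ≤ b * (-s).im
    rw [Complex.neg_re, Complex.neg_im, abs_neg]
    have : b * (t - c) ≤ b * -s.im := mul_le_mul_of_nonneg_left (by linarith) hb.le
    linarith
  · show |(2 * t * I + s : ℂ).re| ≤ b * (2 * t * I + s : ℂ).im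
    have e3 : (2 * t * I + s : ℂ).re = s.re := by simp
    have e4 : (2 * t * I + s : ℂ).im = 2 * t + s.im := by simp
    rw [e3, e4]
    have : b * (t - c) ≤ b * (2 * t + s.im) := mul_le_mul_of_nonneg_left (by linarith) hb.le
    linarith

theorem int_phi {φ : ℂ → ℝ} (hφ0 : ∀ s, 0 ≤ φ s) (hφi : Integrable φ volume) {p : ℂ} {c : ℝ}
    (hφs : ∀ s, φ s ≠ 0 → ‖s - p‖ < c) {g : ℂ → ℝ} (hg : Measurable g) (K : ℝ)
    (hK : ∀ s, ‖s - p‖ < c → |g s| ≤ K) : Integrable (fun s => φ s * g s) volume := by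
  refine Integrable.mono' (hφi.const_mul K) (hφi.aestronglyMeasurable.mul
    hg.aestronglyMeasurable) ?_
  refine Eventually.of_forall fun s => ?_
  rw [norm_mul, Real.norm_eq_abs, Real.norm_eq_abs, abs_of_nonneg (hφ0 s), mul_comm]
  by_cases h : φ s = 0
  · rw [h]; simp
  · exact mul_le_mul_of_nonneg_right (hK s (hφs s h)) (hφ0 s)

theorem comp {φ : ℂ → ℝ} (hφ0 : ∀ s, 0 ≤ φ s) {p : ℂ} {c : ℝ}
    (hφs : ∀ s, φ s ≠ 0 → ‖s - p‖ < c) {g h : ℂ → ℝ}
    (hg : Integrable (fun s => φ s * g s) volume) (hh : Integrable (fun s => φ s * h s) volume)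
    (hle : ∀ s, ‖s - p‖ < c → g s ≤ h s) : ∫ s, φ s * g s ≤ ∫ s, φ s * h s := by
  refine integral_mono hg hh fun s => ?_
  show φ s * g s ≤ φ s * h s
  by_cases h0 : φ s = 0
  · rw [h0]; simp
  · exact mul_le_mul_of_nonneg_left (hle s (hφs s h0)) (hφ0 s)

theorem fub {φ : ℂ → ℝ} (hφ0 : ∀ s, 0 ≤ φ s) (hφi : Integrable φ volume) {p : ℂ} {c : ℝ}
    (hφs : ∀ s, φ s ≠ 0 → ‖s - p‖ < c) (hφm : Measurable φ) {g : ℂ → ℝ} (hg : Measurable g)
    (z : ℂ) (r K : ℝ)
    (hK : ∀ w, ‖w - z‖ < r → ∀ s, ‖s - p‖ < c → |g (w - s)| ≤ K) :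
    Integrable (Function.uncurry fun (w s : ℂ) => φ s * g (w - s))
      ((volume.restrict (ball z r)).prod volume) := by
  have hfin : IsFiniteMeasure (volume.restrict (ball z r)) :=
    isFiniteMeasure_restrict.mpr measure_ball_lt_top.ne
  have h1 : Integrable (fun q : ℂ × ℂ => (1 : ℝ) * (K * φ q.2))
      ((volume.restrict (ball z r)).prod volume) :=
    (integrable_const (1 : ℝ)).mul_prod (hφi.const_mul K)
  refine Integrable.mono' h1 ?_ ?_
  · exact ((hφm.comp measurable_snd).mul
      (hg.comp (measurable_fst.sub measurable_snd))).aestronglyMeasurable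
  · have h2 : (volume.restrict (ball z r)).prod (volume : Measure ℂ) =
        ((volume : Measure ℂ).prod (volume : Measure ℂ)).restrict (ball z r ×ˢ univ) := by
      rw [← Measure.prod_restrict, Measure.restrict_univ]
    rw [h2]
    refine ae_restrict_of_forall_mem (measurableSet_ball.prod MeasurableSet.univ) fun q hq => ?_
    have hq1 : ‖q.1 - z‖ < r := by
      have := hq.1
      rwa [mem_ball, dist_eq_norm] at this
    show ‖φ q.2 * g (q.1 - q.2)‖ ≤ 1 * (K * φ q.2)
    rw [norm_mul, Real.norm_eq_abs, Real.norm_eq_abs, abs_of_nonneg (hφ0 _), one_mul, mul_comm]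
    by_cases h : φ q.2 = 0
    · rw [h]; simp
    · exact mul_le_mul_of_nonneg_right (hK _ hq1 _ (hφs _ h)) (hφ0 _)

end Smo

open Smo in
theorem stSmo (hLapN : StLapN) : StSmo := by
  intro b u hb hu t ht
  obtain ⟨c, hc, hc1, hc2⟩ : ∃ c : ℝ, 0 < c ∧ c ≤ t / 2 ∧ c ≤ b * (t - c) := by
    refine ⟨min (t / 2) (b * t / (1 + b)), lt_min (by positivity) (by positivity),
      min_le_left _ _, ?_⟩
    have h1 := min_le_right (t / 2) (b * t / (1 + b))
    rw [le_div_iff₀ (by positivity)] at h1
    linarith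
  obtain ⟨φ, hφ2, hφc, hφ0, hφi, hφ1, hφs⟩ := exists_phi (-((t : ℂ) * I)) c hc
  have hm := meas_uu ht hu
  have hφm : Measurable φ := hφ2.continuous.measurable
  have hgeo := fun s (hs : ‖s - -((t : ℂ) * I)‖ < c) => geom hb hc1 hc2 hs
  have hns : ∀ s : ℂ, ‖s - -((t : ℂ) * I)‖ < c → ‖s‖ ≤ t + c := by
    intro s hs
    have h1 : s = (s - -((t : ℂ) * I)) + -((t : ℂ) * I) := by ring
    have h2 : ‖-((t : ℂ) * I)‖ = t := by
      rw [norm_neg, norm_mul, Complex.norm_I, mul_one, Complex.norm_real, Real.norm_eq_abs,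
        abs_of_pos ht]
    rw [h1]
    refine (norm_add_le _ _).trans ?_
    rw [h2]
    linarith
  -- the cut off function agrees with `u`
  have huu : ∀ z : ℂ, t / 2 ≤ z.im → uu t u z = u z := fun z hz => by
    rw [uu, indicator_of_mem (show z ∈ Ht t from hz)]
  have himz : ∀ z ∈ uhp, ∀ s : ℂ, ‖s - -((t : ℂ) * I)‖ < c → t / 2 ≤ (z - s).im := by
    intro z hz s hs
    have h1 := (hgeo s hs).2.2
    have h2 : 0 < z.im := hz
    rw [Complex.sub_im]
    linarith
  have hI : ∀ z : ℂ, Integrable (fun s => φ s * uu t u (z - s)) volume := by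
    intro z
    obtain ⟨K, hK0, hK⟩ := bd_uu hb ht hu (‖z‖ + (t + c))
    refine int_phi hφ0 hφi hφs (hm.comp (measurable_const.sub measurable_id)) K fun s hs => ?_
    exact hK _ ((norm_sub_le _ _).trans (by linarith [hns s hs]))
  have hIc : ∀ a : ℝ, Integrable (fun s => φ s * a) volume := fun a => hφi.mul_const a
  have hconst : ∀ a : ℝ, ∫ s, φ s * a = a := fun a => by
    rw [integral_mul_const, hφ1, one_mul]
  set v : ℂ → ℝ := φ ⋆[ContinuousLinearMap.mul ℝ ℝ, volume] (uu t u) with hv
  have hvz : ∀ z, v z = ∫ s, φ s * uu t u (z - s) := fun z => rfl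
  have hvC : ContDiff ℝ 2 v := hφc.contDiff_convolution_left _ hφ2 (locInt_uu hb ht hu)
  refine ⟨v, ⟨hvC.contDiffOn, ?_⟩, ?_, ?_, ?_⟩
  · -- the Laplacian
    intro z hz
    have hz' : 0 < z.im := hz
    refine hLapN v z hvC.contDiffAt ⟨z.im / 2, by positivity, fun r hr hrz => ?_⟩
    have hpos : 0 < volume.real (ball z r) := by
      rw [measureReal_def]
      exact ENNReal.toReal_pos (measure_ball_pos _ _ hr).ne' measure_ball_lt_top.ne
    rw [setAverage_eq, smul_eq_mul, inv_mul_le_iff₀ hpos]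
    obtain ⟨K, hK0, hK⟩ := bd_uu hb ht hu (‖z‖ + r + (t + c))
    have hF := fub hφ0 hφi hφs hφm hm z r K (fun w hw s hs => by
      refine hK _ ((norm_sub_le _ _).trans ?_)
      have h1 : ‖w‖ ≤ ‖w - z‖ + ‖z‖ := by
        have := norm_add_le (w - z) z
        rwa [sub_add_cancel] at this
      linarith [hns s hs])
    have hsw : ∫ w in ball z r, v w = ∫ s, φ s * ∫ w in ball z r, uu t u (w - s) := by
      have h1 := integral_integral_swap hF
      calc ∫ w in ball z r, v w = ∫ w in ball z r, ∫ s, φ s * uu t u (w - s) := rfl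
        _ = ∫ s, ∫ w in ball z r, φ s * uu t u (w - s) := h1
        _ = _ := by
          refine integral_congr_ae (Eventually.of_forall fun s => ?_)
          exact integral_const_mul _ _
    rw [hsw, hvz, ← integral_const_mul]
    have e1 : ∀ s, volume.real (ball z r) * (φ s * uu t u (z - s)) =
        φ s * (volume.real (ball z r) * uu t u (z - s)) := fun s => by ring
    simp only [e1]
    refine comp hφ0 hφs ?_ ?_ fun s hs => ?_
    · have h1 := hF.integral_prod_right
      refine h1.congr (Eventually.of_forall fun s => ?_)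
      exact integral_const_mul (φ s) (fun w => uu t u (w - s))
    · have h1 := (hI z).const_mul (volume.real (ball z r))
      simpa only [e1] using h1
    · have h1 := himz z hz s hs
      rw [huu _ h1]
      have h2 : (z - s) ∈ uhp := by
        show 0 < (z - s).im
        linarith
      have h3 := (hgeo s hs).2.2
      have h4 : z.im ≤ (z - s).im := by rw [Complex.sub_im]; linarith
      have h5 := hu.mean (z - s) h2 r hr (by linarith)
      have h6 : volume.real (ball (z - s) r) = volume.real (ball z r) := by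
        rw [measureReal_def, measureReal_def, Measure.addHaar_ball_center volume (z - s) r,
          Measure.addHaar_ball_center volume z r]
      rw [setAverage_eq, smul_eq_mul, h6, inv_mul_le_iff₀ hpos] at h5
      refine le_trans (le_of_eq ?_) h5
      have h7 := (measurePreserving_sub_right (volume : Measure ℂ) s).setIntegral_preimage_emb
        (measurableEmbedding_subRight s) (uu t u) (ball (z - s) r)
      have h8 : (fun w : ℂ => w - s) ⁻¹' ball (z - s) r = ball z r := by
        ext w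
        simp [mem_ball]
      rw [h8] at h7
      rw [h7]
      refine setIntegral_congr_fun measurableSet_ball fun w hw => ?_
      refine huu w ?_
      rw [mem_ball, dist_eq_norm] at hw
      have h9 := (abs_le.mp ((Complex.abs_im_le_norm _).trans hw.le)).1
      rw [Complex.sub_im] at h9
      rw [Complex.sub_im] at h9
      linarith
  · -- monotonicity
    intro z hz e he
    rw [hvz, hvz]
    have he0 : 0 ≤ e.im := by
      have h1 : |e.re| ≤ b * e.im := he
      have h2 := abs_nonneg e.re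
      by_contra hcon
      push Not at hcon
      have := mul_neg_of_pos_of_neg hb hcon
      linarith
    have hz' : 0 < z.im := hz
    have hze : z + e ∈ uhp := by
      show 0 < (z + e).im
      rw [Complex.add_im]
      linarith
    refine comp hφ0 hφs (hI z) (hI (z + e)) fun s hs => ?_
    have h1 := himz z hz s hs
    have h2 := himz (z + e) hze s hs
    rw [huu _ h1, huu _ h2]
    have h3 := hu.mono (z - s) (by show 0 < (z - s).im; linarith) e he
    have e1 : z - s + e = z + e - s := by ring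
    rwa [e1] at h3
  · -- the lower bound
    intro m hm' z hz
    rw [hvz, ← hconst m]
    refine comp hφ0 hφs (hIc m) (hI z) fun s hs => ?_
    have h1 := himz z hz s hs
    rw [huu _ h1]
    exact hm' _ (by show 0 < (z - s).im; linarith)
  · -- comparison with `u`
    intro z hz
    have hz' : 0 < z.im := hz
    constructor
    · rw [hvz, ← hconst (u z)]
      refine comp hφ0 hφs (hIc (u z)) (hI z) fun s hs => ?_
      have h1 := himz z hz s hs
      rw [huu _ h1]
      have h3 := hu.mono z hz (-s) (hgeo s hs).1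
      rwa [← sub_eq_add_neg] at h3
    · rw [hvz, ← hconst (u (z + 2 * t * I))]
      refine comp hφ0 hφs (hI z) (hIc _) fun s hs => ?_
      have h1 := himz z hz s hs
      rw [huu _ h1]
      have h3 := hu.mono (z - s) (by show 0 < (z - s).im; linarith) _ (hgeo s hs).2.1
      have e1 : z - s + (2 * t * I + s) = z + 2 * t * I := by ring
      rwa [e1] at h3

end Pool.Agent.Work.MP_055a27_an.Wd

end

section

/-!
# The estimate of the area function for a majorant
-/

set_option autoImplicit false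

open MeasureTheory Set Filter Topology Complex Metric
open scoped ENNReal NNReal

namespace Pool.Agent.Work.MP_055a27_an.Wd

namespace SuE

/-- Constants are superharmonic. -/
lemma c2s_const (m : ℝ) : C2S (fun _ => m) := by
  refine ⟨contDiffOn_const, fun z _ => ?_⟩
  have h : Laplacian.laplacian (fun _ : ℂ => m) z = 0 := by
    rw [InnerProductSpace.laplacian_const]
    rfl
  exact h.le

/-- For a negative aperture the condition forces the measure to vanish. -/
lemma wm_zero {lam b : ℝ} {U : ℝ → ℝ} (hlam : 0 < lam) (hb : b < 0) (hU : IsWeight U)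
    (hC : CondV lam b U) : wm U = 0 := by
  obtain ⟨C, ε, hC0, hε, h⟩ := hC
  have key : ∀ z ∈ uhp, wm U (Iv lam z) = 0 := by
    intro z hz
    have hz' : 0 < z.im := hz
    have hm : MeasurableSet (Iv lam z) := measurableSet_Icc
    have h1 : ∀ n : ℕ, ∫ t in Iv lam z, U t ≤
        C * (volume.real (Iv lam z) / z.im) ^ ε * Real.exp (-(n : ℝ)) := by
      intro n
      refine h (fun _ => -(n : ℝ)) (c2s_const _) ⟨-(n : ℝ), fun z _ => le_rfl⟩ ?_ z hz _ hm
        Subset.rfl
      intro w hw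
      have hw' : 0 < w.im := hw
      have : Iv b w = ∅ := by
        unfold Iv
        apply Icc_eq_empty
        have := mul_neg_of_neg_of_pos hb hw'
        linarith
      rw [this]
      simp only [Measure.restrict_empty, integral_zero_measure]
      exact (Real.exp_pos _).le
    have h2 : Tendsto (fun n : ℕ => C * (volume.real (Iv lam z) / z.im) ^ ε *
        Real.exp (-(n : ℝ))) atTop (𝓝 0) := by
      have := (Real.tendsto_exp_neg_atTop_nhds_zero.comp
        (tendsto_natCast_atTop_atTop (R := ℝ))).const_mul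
          (C * (volume.real (Iv lam z) / z.im) ^ ε)
      simpa using this
    have h3 : ∫ t in Iv lam z, U t ≤ 0 := ge_of_tendsto' h2 h1
    rw [setIntegral_eq_wm hU hm] at h3
    have h4 : (wm U (Iv lam z)).toReal = 0 := le_antisymm h3 ENNReal.toReal_nonneg
    rcases (ENNReal.toReal_eq_zero_iff _).1 h4 with h5 | h5
    · exact h5
    · exact absurd h5 (wm_Icc_lt_top hU _ _).ne
  rw [← Measure.measure_univ_eq_zero]
  have hun : (univ : Set ℝ) ⊆ ⋃ n : ℕ, Iv lam ((((n : ℝ) + 1) / lam : ℝ) * I) := by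
    intro x _
    obtain ⟨n, hn⟩ := exists_nat_ge |x|
    refine mem_iUnion.2 ⟨n, ?_⟩
    unfold Iv
    have e1 : ((((n : ℝ) + 1) / lam : ℝ) * I : ℂ).re = 0 := by simp
    have e2 : ((((n : ℝ) + 1) / lam : ℝ) * I : ℂ).im = ((n : ℝ) + 1) / lam := by
      rw [Complex.im_ofReal_mul, Complex.I_im, mul_one]
    have e3 : lam * (((n : ℝ) + 1) / lam) = (n : ℝ) + 1 := by field_simp
    rw [e1, e2, e3]
    have := abs_le.1 hn
    constructor <;> linarith
  refine measure_mono_null hun (measure_iUnion_null fun n => key _ ?_)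
  show 0 < ((((n : ℝ) + 1) / lam : ℝ) * I : ℂ).im
  rw [Complex.im_ofReal_mul, Complex.I_im, mul_one]
  positivity

/-- Subset relation of boxes. -/
lemma bx_mono {R R' : ℝ} (hR : 0 < R) (h : R ≤ R') : Bx R ⊆ Bx R' := by
  rintro q ⟨h1, h2, h3⟩
  exact ⟨h1.trans h, (one_div_le_one_div_of_le hR h).trans h2, h3.trans h⟩

/-- Length of a dyadic interval. -/
lemma vol_dy (j k : ℤ) : volume (dy j k) = ENNReal.ofReal ((2 : ℝ) ^ j) := by
  unfold dy
  rw [Real.volume_Ico]
  congr 1
  ring

/-- A dyadic interval lies in the shadow of its tops. -/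
lemma dy_sub {lam L : ℝ} (hL : 1 ≤ lam * L) (j k : ℤ) {x0 : ℝ} (hx0 : x0 ∈ dy j k) :
    dy j k ⊆ Icc (x0 - lam * (L * (2 : ℝ) ^ j)) (x0 + lam * (L * (2 : ℝ) ^ j)) := by
  intro x hx
  have h2 : (0 : ℝ) < (2 : ℝ) ^ j := by positivity
  have h3 : (2 : ℝ) ^ j ≤ lam * (L * (2 : ℝ) ^ j) := by nlinarith
  obtain ⟨a1, a2⟩ := hx
  obtain ⟨b1, b2⟩ := hx0
  constructor <;> nlinarith

end SuE

theorem stSuE (hGro : StGro) (hBv : StBv) (hWco : StWco) (hKsu : StKsu) (hCvE : StCvE)
    (hLE : StLE) (hSlM : StSlM) (hInt : StInt) : StSuE := by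
  intro lam b τ p C8 U hlam hτ0 hτ1 hlb2 hp hC8 hU hCond
  rcases le_or_gt b 0 with hb0 | hb
  · -- degenerate apertures
    have hb : b < 0 := by
      rcases hb0.lt_or_eq with h | h
      · exact h
      · rw [h] at hlb2
        linarith
    have hz := SuE.wm_zero hlam hb hU hCond
    refine ⟨0, 1, le_rfl, fun u F R _ _ _ _ _ => ?_⟩
    rw [lintegral_mul_weight_univ hU, hz]
    simp
  have hlb : lam < b := by nlinarith
  have hlb1 : lam < b * (1 - τ) := by nlinarith
  obtain ⟨μ, γ, K, hμ, hγ, hK, hGr⟩ := hGro b hb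
  obtain ⟨c, hc, hW⟩ := hWco lam b γ K μ hlam hlb hγ hK hμ
  obtain ⟨k, -, hks⟩ := hKsu lam b γ K c μ hlam hlb hγ hK hc hμ
  obtain ⟨Cw, ε, hCw, hε, hWp⟩ := hW k U hU hCond
  set L : ℝ := max 1 (1 / lam) with hL
  have hL1 : 1 ≤ L := le_max_left _ _
  have hL0 : 0 < L := by linarith
  have hL2 : 1 ≤ lam * L := by
    have h1 : 1 / lam ≤ L := le_max_right _ _
    calc (1 : ℝ) = lam * (1 / lam) := by field_simp
      _ ≤ lam * L := by gcongr
  obtain ⟨CK, hCK, hsum⟩ := hks L Cw ε hL1 hL2 hCw hε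
  obtain ⟨A0, Λ, hA0, hΛ, hCv⟩ := hCvE lam b τ p C8 L μ hlam hb hτ0 hτ1 hlb2 hp hC8 hL1 hμ
  obtain ⟨Cb, CE, cE, hCb, hCE, hcE, hLe⟩ := hLE lam b τ p C8 Λ hlam hτ0 hτ1 hlb1 hp hC8 hΛ
  have hCt : 0 < Cw * CE ^ ε * Real.exp 1 * CK := by positivity
  obtain ⟨C', hC'⟩ := hInt p (Cw * CE ^ ε * Real.exp 1 * CK) (cE * ε) A0 hp hCt (by positivity) hA0
  refine ⟨C' * (Real.exp 1).toNNReal, Cb, hCb, fun u F R hu hF hR hHB hXX => ?_⟩
  have hR0 : 0 < R := by linarith
  have hHB1 : HB τ p C8 R u F := fun q hq => hHB q (SuE.bx_mono hR0 (by nlinarith) hq)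
  have hG := hGr u hu
  have hwp := hWp u hu hG hXX
  obtain ⟨hBm, -, -⟩ := hBv b u hb hu
  obtain ⟨hS1, hS2, hS3⟩ := hSlM lam b τ R u F hlam hτ0 hτ1 hlb1.le hR hu hF
  set ℓ : ℝ → ℝ := fun x => -bv b u x + 1 with hℓ
  have hℓm : Measurable ℓ := hBm.neg.add_const 1
  have hell : ∫⁻ x, ENNReal.ofReal (Real.exp (ℓ x)) ∂(wm U) =
      ENNReal.ofReal (Real.exp 1) * XX b u U := by
    unfold XX
    rw [lintegral_mul_weight_univ hU, ← lintegral_const_mul' _ _ ENNReal.ofReal_ne_top]
    refine lintegral_congr fun x => ?_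
    rw [hℓ, ← ENNReal.ofReal_mul (Real.exp_pos _).le, ← Real.exp_add]
    congr 2
    ring
  have hmain : ∀ (s : Finset ℤ) (a : ℝ), A0 ≤ a → ∑ l ∈ s, ENNReal.ofReal (Real.exp l) *
      wm U {x | ENNReal.ofReal (a * Real.exp (2 * l / p)) < Sl lam τ R u F l x} ≤
        ENNReal.ofReal (Cw * CE ^ ε * Real.exp 1 * CK * Real.exp (-(cE * ε * a))) *
          ∫⁻ x, ENNReal.ofReal (Real.exp (ℓ x)) ∂(wm U) := by
    intro s a ha
    have ha0 : 0 ≤ a := by linarith
    choose N T hT1 hT2 hT3 hT4 using fun l : ℤ =>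
      hCv u F R hu.mono hu.usc hF hR hHB1 l a ha
    set E : ℤ → Set ℝ := fun l =>
      {x | ENNReal.ofReal (a * Real.exp (2 * l / p)) < Sl lam τ R u F l x} with hE
    have hEm : ∀ l, MeasurableSet (E l) := fun l => measurableSet_lt measurable_const (hS1 l)
    have hdm : ∀ j k, MeasurableSet (dy j k) := fun j k => measurableSet_Ico
    -- one top
    have hone : ∀ l : ℤ, ∀ t ∈ T l, ENNReal.ofReal (Real.exp l) * wm U (E l ∩ dy t.1 t.2.1) ≤
        ENNReal.ofReal (Cw * CE ^ ε * Real.exp 1 * Real.exp (-(cE * ε * a))) *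
          kt k c γ b L u U t := by
      intro l t ht
      obtain ⟨-, -, hx0, hfl⟩ := (hT1 l).1 t ht
      have hlev := hT2 l t ht
      have h2 : (0 : ℝ) < (2 : ℝ) ^ t.1 := by positivity
      have hvol : volume (E l ∩ dy t.1 t.2.1) ≤
          ENNReal.ofReal (CE * Real.exp (-(cE * a)) * (2 : ℝ) ^ t.1) := by
        have h3 := hLe u F R hu.mono hu.usc hF hR hHB l t.1 t.2.1 a ha0
        rw [SuE.vol_dy, ← ENNReal.ofReal_mul (by positivity)] at h3
        refine le_trans (measure_mono ?_) h3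
        rintro x ⟨hx1, hx2⟩
        refine ⟨hx2, lt_of_lt_of_le hx1 ?_⟩
        unfold Sl
        refine lintegral_mono_set ?_
        intro q hq
        exact ⟨hq.1, hq.2.1, hT4 l t ht x hx2 hx1 q hq⟩
      have hvr : volume.real (E l ∩ dy t.1 t.2.1) / (L * (2 : ℝ) ^ t.1) ≤
          CE * Real.exp (-(cE * a)) := by
        have h4 : volume.real (E l ∩ dy t.1 t.2.1) ≤
            CE * Real.exp (-(cE * a)) * (2 : ℝ) ^ t.1 :=
          ENNReal.toReal_le_of_le_ofReal (by positivity) hvol
        rw [div_le_iff₀ (by positivity)]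
        refine h4.trans ?_
        gcongr
        nlinarith
      have hsub : E l ∩ dy t.1 t.2.1 ⊆ Icc (t.2.2 - lam * (L * (2 : ℝ) ^ t.1))
          (t.2.2 + lam * (L * (2 : ℝ) ^ t.1)) :=
        inter_subset_right.trans (SuE.dy_sub hL2 _ _ hx0)
      have hw := hwp t.2.2 (L * (2 : ℝ) ^ t.1) (by positivity) hfl _
        ((hEm l).inter (hdm _ _)) hsub
      have hup : u ((t.2.2 : ℂ) + ((L * (2 : ℝ) ^ t.1 : ℝ) : ℂ) * I) ≤ -(l : ℝ) + 1 := by
        unfold lev at hlev
        have h5 := (Int.ceil_eq_iff.1 hlev).1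
        linarith
      have hcoef : Real.exp l * (Cw * (volume.real (E l ∩ dy t.1 t.2.1) /
          (L * (2 : ℝ) ^ t.1)) ^ ε *
          Real.exp (u ((t.2.2 : ℂ) + ((L * (2 : ℝ) ^ t.1 : ℝ) : ℂ) * I))) ≤
          Cw * CE ^ ε * Real.exp 1 * Real.exp (-(cE * ε * a)) := by
        have hv0 : 0 ≤ volume.real (E l ∩ dy t.1 t.2.1) / (L * (2 : ℝ) ^ t.1) := by positivity
        calc Real.exp l * (Cw * (volume.real (E l ∩ dy t.1 t.2.1) /
          (L * (2 : ℝ) ^ t.1)) ^ ε *
          Real.exp (u ((t.2.2 : ℂ) + ((L * (2 : ℝ) ^ t.1 : ℝ) : ℂ) * I)))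
            ≤ Real.exp l * (Cw * (CE * Real.exp (-(cE * a))) ^ ε *
              Real.exp (-(l : ℝ) + 1)) := by gcongr
          _ = Cw * (CE * Real.exp (-(cE * a))) ^ ε * (Real.exp l * Real.exp (-(l : ℝ) + 1)) := by
              ring
          _ = Cw * (CE ^ ε * Real.exp (-(cE * ε * a))) * Real.exp 1 := by
              rw [← Real.exp_add, Real.mul_rpow (by positivity) (by positivity), ← Real.exp_mul]
              congr 3
              · congr 1
                ring
              · ring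
          _ = _ := by ring
      calc ENNReal.ofReal (Real.exp l) * wm U (E l ∩ dy t.1 t.2.1)
          ≤ ENNReal.ofReal (Real.exp l) * (ENNReal.ofReal (Cw * (volume.real
              (E l ∩ dy t.1 t.2.1) / (L * (2 : ℝ) ^ t.1)) ^ ε *
              Real.exp (u ((t.2.2 : ℂ) + ((L * (2 : ℝ) ^ t.1 : ℝ) : ℂ) * I))) *
              kap k c γ b u U t.2.2 (L * (2 : ℝ) ^ t.1)) := by gcongr
        _ = ENNReal.ofReal (Real.exp l * (Cw * (volume.real
              (E l ∩ dy t.1 t.2.1) / (L * (2 : ℝ) ^ t.1)) ^ ε *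
              Real.exp (u ((t.2.2 : ℂ) + ((L * (2 : ℝ) ^ t.1 : ℝ) : ℂ) * I)))) *
              kt k c γ b L u U t := by
            unfold kt
            rw [← mul_assoc, ← ENNReal.ofReal_mul (Real.exp_pos _).le]
        _ ≤ _ := by gcongr
    -- one level
    have hlevel : ∀ l : ℤ, ENNReal.ofReal (Real.exp l) * wm U (E l) ≤
        ENNReal.ofReal (Cw * CE ^ ε * Real.exp 1 * Real.exp (-(cE * ε * a))) *
          ∑ t ∈ T l, kt k c γ b L u U t := by
      intro l
      have h1 : wm U (E l) ≤ ∑ t ∈ T l, wm U (E l ∩ dy t.1 t.2.1) := by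
        have h2 : E l ⊆ ⋃ t ∈ T l, (E l ∩ dy t.1 t.2.1) := by
          intro x hx
          have h3 := hT3 l hx
          simp only [mem_iUnion] at h3 ⊢
          obtain ⟨t, ht, hxt⟩ := h3
          exact ⟨t, ht, hx, hxt⟩
        exact (measure_mono h2).trans (measure_biUnion_finset_le _ _)
      calc ENNReal.ofReal (Real.exp l) * wm U (E l)
          ≤ ENNReal.ofReal (Real.exp l) * ∑ t ∈ T l, wm U (E l ∩ dy t.1 t.2.1) := by gcongr
        _ = ∑ t ∈ T l, ENNReal.ofReal (Real.exp l) * wm U (E l ∩ dy t.1 t.2.1) := by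
            rw [Finset.mul_sum]
        _ ≤ ∑ t ∈ T l, ENNReal.ofReal (Cw * CE ^ ε * Real.exp 1 * Real.exp (-(cE * ε * a))) *
            kt k c γ b L u U t := Finset.sum_le_sum fun t ht => hone l t ht
        _ = _ := by rw [Finset.mul_sum]
    -- all levels
    have hdis : (s : Set ℤ).PairwiseDisjoint T := by
      intro l _ l' _ hne
      rw [Function.onFun, Finset.disjoint_left]
      intro t ht ht'
      exact hne ((hT2 l t ht).symm.trans (hT2 l' t ht'))
    have hfam : Fam L (2 ^ μ) (s.sup N) u (s.biUnion T) := by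
      constructor
      · intro t ht
        obtain ⟨l, hl, htl⟩ := Finset.mem_biUnion.1 ht
        obtain ⟨h1, h2, h3, h4⟩ := (hT1 l).1 t htl
        have h5 : (N l : ℤ) ≤ (s.sup N : ℕ) := by exact_mod_cast Finset.le_sup hl
        exact ⟨by linarith, by linarith, h3, h4⟩
      · intro t ht t' ht' hne hlv
        obtain ⟨l, hl, htl⟩ := Finset.mem_biUnion.1 ht
        obtain ⟨l', hl', htl'⟩ := Finset.mem_biUnion.1 ht'
        have h1 : l = l' := by rw [← hT2 l t htl, ← hT2 l' t' htl', hlv]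
        subst h1
        exact (hT1 l).2 t htl t' htl' hne hlv
    have hs := hsum u U hU hu hG hwp hXX _ _ hfam
    rw [Finset.sum_biUnion hdis] at hs
    have h6 : XX b u U ≤ ∫⁻ x, ENNReal.ofReal (Real.exp (ℓ x)) ∂(wm U) := by
      rw [hell]
      have : (1 : ℝ≥0∞) ≤ ENNReal.ofReal (Real.exp 1) := by
        rw [← ENNReal.ofReal_one]
        exact ENNReal.ofReal_le_ofReal (Real.one_le_exp zero_le_one)
      calc XX b u U = 1 * XX b u U := (one_mul _).symm
        _ ≤ _ := by gcongr
    calc ∑ l ∈ s, ENNReal.ofReal (Real.exp l) * wm U (E l)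
        ≤ ∑ l ∈ s, ENNReal.ofReal (Cw * CE ^ ε * Real.exp 1 * Real.exp (-(cE * ε * a))) *
          ∑ t ∈ T l, kt k c γ b L u U t := Finset.sum_le_sum fun l _ => hlevel l
      _ = ENNReal.ofReal (Cw * CE ^ ε * Real.exp 1 * Real.exp (-(cE * ε * a))) *
          ∑ l ∈ s, ∑ t ∈ T l, kt k c γ b L u U t := by rw [Finset.mul_sum]
      _ ≤ ENNReal.ofReal (Cw * CE ^ ε * Real.exp 1 * Real.exp (-(cE * ε * a))) *
          (ENNReal.ofReal CK * ∫⁻ x, ENNReal.ofReal (Real.exp (ℓ x)) ∂(wm U)) := by
          gcongr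
          exact hs.trans (by gcongr)
      _ = _ := by
          rw [← mul_assoc, ← ENNReal.ofReal_mul (by positivity)]
          congr 2
          ring
  have hfin := hC' (wm U) (fun l x => Sl lam τ R u F l x) ℓ hS1 hℓm hS2 hmain
  rw [lintegral_mul_weight_univ hU]
  calc ∫⁻ x, (∫⁻ q in cone lam x ∩ Bx R, ENNReal.ofReal (gsq F q)) ^ (p / 2) ∂(wm U)
      = ∫⁻ x, (∑' l : ℤ, Sl lam τ R u F l x) ^ (p / 2) ∂(wm U) := by
        refine lintegral_congr fun x => ?_
        rw [hS3 x]
    _ ≤ C' * ∫⁻ x, ENNReal.ofReal (Real.exp (ℓ x)) ∂(wm U) := hfin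
    _ = _ := by
        rw [hell, ENNReal.coe_mul, mul_assoc]
        rfl

end Pool.Agent.Work.MP_055a27_an.Wd

end

section

/-!
# Item SubL: the sub mean value property of the logarithm of an analytic function
-/

set_option autoImplicit false

open MeasureTheory Set Filter Topology Complex Metric
open scoped ENNReal NNReal

namespace Pool.Agent.Work.MP_055a27_an.Wd

namespace SubL

/-- Jensen's inequality on a circle -/
lemma jen {A : ℂ → ℂ} {z : ℂ} {ρ : ℝ} {g : ℂ → ℝ} (hρ : 0 < ρ)
    (hA : AnalyticOnNhd ℂ A (closedBall z ρ)) (hz : A z ≠ 0) (hg : CircleIntegrable g z ρ)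
    (hle : ∀ w ∈ sphere z ρ, ‖A w‖ ≤ Real.exp (g w)) :
    Real.log ‖A z‖ ≤ Real.circleAverage g z ρ := by
  have habs : |ρ| = ρ := abs_of_pos hρ
  have hA' : AnalyticOnNhd ℂ A (closedBall z |ρ|) := by rw [habs]; exact hA
  have h1 := hA'.circleAverage_log_norm hρ.ne' hz
  have h2 : 0 ≤ ∑ᶠ u, (MeromorphicOn.divisor A (closedBall z |ρ|) u : ℝ) *
      Real.log (ρ * ‖z - u‖⁻¹) := by
    refine finsum_nonneg (fun u => ?_)
    by_cases hu : u ∈ closedBall z |ρ|
    · refine mul_nonneg (by exact_mod_cast MeromorphicOn.AnalyticOnNhd.divisor_nonneg hA' u) ?_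
      by_cases huz : u = z
      · simp [huz]
      · have h3 : 0 < ‖z - u‖ := by
          rw [norm_pos_iff, sub_ne_zero]
          exact fun h => huz h.symm
        refine Real.log_nonneg ?_
        rw [← div_eq_mul_inv, one_le_div h3]
        rw [habs, mem_closedBall, dist_comm, dist_eq_norm] at hu
        exact hu
    · rw [Function.locallyFinsuppWithin.apply_eq_zero_of_notMem _ hu]
      simp
  classical
  have h4 : (fun w => Real.log ‖A w‖) =ᶠ[codiscreteWithin (sphere z |ρ|)]
      fun w => if A w = 0 then g w else Real.log ‖A w‖ := by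
    have h5 : A ⁻¹' {0}ᶜ ∈ codiscreteWithin (closedBall z |ρ|) :=
      hA'.preimage_zero_mem_codiscreteWithin hz (mem_closedBall_self (abs_nonneg _))
        (by rw [habs]; exact isConnected_closedBall hρ.le)
    have h6 := codiscreteWithin_mono (sphere_subset_closedBall (x := z) (ε := |ρ|)) h5
    filter_upwards [h6] with w hw
    have hw' : A w ≠ 0 := hw
    rw [if_neg hw']
  have h7 : CircleIntegrable (fun w => Real.log ‖A w‖) z ρ :=
    (hA'.mono sphere_subset_closedBall).meromorphicOn.circleIntegrable_log_norm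
  have h8 := CircleIntegrable.congr_codiscreteWithin h4 h7
  have h9 := Real.circleAverage_congr_codiscreteWithin h4 hρ.ne'
  have h10 : Real.circleAverage (fun w => if A w = 0 then g w else Real.log ‖A w‖) z ρ ≤
      Real.circleAverage g z ρ := by
    refine Real.circleAverage_mono h8 hg (fun w hw => ?_)
    by_cases hw0 : A w = 0
    · rw [if_pos hw0]
    · rw [if_neg hw0, Real.log_le_iff_le_exp (norm_pos_iff.2 hw0)]
      rw [habs] at hw
      exact hle w hw
  rw [← h9, h1] at h10
  linarith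

lemma cm (z : ℂ) (ρ θ : ℝ) : z + Complex.polarCoord.symm (ρ, θ) = circleMap z ρ θ := by
  rw [Complex.polarCoord_symm_apply, circleMap, Complex.exp_mul_I, ← Complex.ofReal_cos,
    ← Complex.ofReal_sin]

/-- polar coordinates and integrability -/
lemma polar_int {F : ℂ → ℝ} (hF : Integrable F) (z : ℂ) :
    Integrable (fun p : ℝ × ℝ => p.1 * F (circleMap z p.1 p.2))
      ((volume.restrict (Ioi (0 : ℝ))).prod (volume.restrict (Ioo (-Real.pi) Real.pi))) := by
  have h0 : Integrable (fun w : ℂ => F (z + w)) := hF.comp_add_left z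
  have h1 : Integrable (fun p : ℝ × ℝ => F (z + measurableEquivRealProd.symm p)) :=
    ((volume_preserving_equiv_real_prod.symm).integrable_comp_emb
      measurableEquivRealProd.symm.measurableEmbedding).2 h0
  have h2 := (integrableOn_image_iff_integrableOn_abs_det_fderiv_smul volume
    polarCoord.open_target.measurableSet
    (fun p _ => (hasFDerivAt_polarCoord_symm p).hasFDerivWithinAt) polarCoord.symm.injOn
    (fun p : ℝ × ℝ => F (z + measurableEquivRealProd.symm p))).1 h1.integrableOn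
  rw [Measure.prod_restrict, ← Measure.volume_eq_prod]
  have h3 : polarCoord.target = Ioi (0 : ℝ) ×ˢ Ioo (-Real.pi) Real.pi := polarCoord_target
  rw [h3] at h2
  refine (integrableOn_congr_fun (fun p hp => ?_) (measurableSet_Ioi.prod measurableSet_Ioo)).1 h2
  have hp1 : 0 < p.1 := hp.1
  simp only [det_fderivPolarCoordSymm, abs_of_pos hp1, smul_eq_mul]
  rw [measurableEquivRealProd_symm_polarCoord_symm_apply, ← cm]

/-- polar coordinates -/
lemma polar_eq {F : ℂ → ℝ} (hF : Integrable F) (z : ℂ) :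
    ∫ w, F w = ∫ ρ in Ioi (0 : ℝ), ∫ θ in Ioo (-Real.pi) Real.pi, ρ * F (circleMap z ρ θ) := by
  have h1 : ∫ w, F w = ∫ w, F (z + w) := (integral_add_left_eq_self F z).symm
  rw [h1, ← Complex.integral_comp_polarCoord_symm, polarCoord_target, Measure.volume_eq_prod,
    ← Measure.prod_restrict]
  have h2 := integral_prod _ (polar_int hF z)
  rw [← h2]
  refine integral_congr_ae (Eventually.of_forall fun p => ?_)
  simp only [smul_eq_mul]
  rw [← cm]

lemma circ_avg (g : ℂ → ℝ) (z : ℂ) (ρ : ℝ) :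
    ∫ θ in Ioo (-Real.pi) Real.pi, g (circleMap z ρ θ) =
      2 * Real.pi * Real.circleAverage g z ρ := by
  have hpi := Real.pi_pos
  rw [Real.circleAverage_eq_integral_add (-Real.pi)]
  have h2 : ∫ θ in (0 : ℝ)..2 * Real.pi, g (circleMap z ρ (θ + -Real.pi)) =
      ∫ θ in (-Real.pi)..Real.pi, g (circleMap z ρ θ) := by
    rw [intervalIntegral.integral_comp_add_right (fun θ => g (circleMap z ρ θ)) (-Real.pi)]
    congr 1 <;> ring
  rw [h2, intervalIntegral.integral_of_le (by linarith), restrict_Ioo_eq_restrict_Ioc,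
    smul_eq_mul]
  field_simp

lemma circ_int {g : ℂ → ℝ} {z : ℂ} {ρ : ℝ}
    (h : Integrable (fun θ => g (circleMap z ρ θ)) (volume.restrict (Ioo (-Real.pi) Real.pi))) :
    CircleIntegrable g z ρ := by
  have hpi := Real.pi_pos
  have h1 : IntervalIntegrable (fun θ => g (circleMap z ρ θ)) volume (-Real.pi) Real.pi := by
    rw [intervalIntegrable_iff_integrableOn_Ioo_of_le (by linarith)]
    exact h
  have hper : Function.Periodic (fun θ => g (circleMap z ρ θ)) (2 * Real.pi) := by
    intro θ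
    show g (circleMap z ρ (θ + 2 * Real.pi)) = g (circleMap z ρ θ)
    rw [periodic_circleMap z ρ θ]
  have h2 : IntervalIntegrable (fun θ => g (circleMap z ρ θ)) volume (-Real.pi)
      (-Real.pi + 2 * Real.pi) := by
    have : -Real.pi + 2 * Real.pi = Real.pi := by ring
    rw [this]
    exact h1
  exact hper.intervalIntegrable (by positivity) h2 0 (2 * Real.pi)

end SubL

open SubL in
theorem stSubL : StSubL := by
  intro A z r g hr hA hg hle
  by_cases hz : A z = 0
  · rw [hz, norm_zero]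
    exact (Real.exp_pos _).le
  have hpos : 0 < ‖A z‖ := norm_pos_iff.2 hz
  rw [← Real.log_le_iff_le_exp hpos]
  have hpi := Real.pi_pos
  set L : ℝ := Real.log ‖A z‖ with hL
  have hanb : AnalyticOnNhd ℂ A (ball z r) :=
    (hA.mono ball_subset_closedBall).analyticOnNhd isOpen_ball
  set F : ℂ → ℝ := (ball z r).indicator g with hF
  have hFi : Integrable F := (integrable_indicator_iff measurableSet_ball).2 hg
  have h1 : ∫ w in ball z r, g w = ∫ w, F w := (integral_indicator measurableSet_ball).symm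
  have hvol : volume.real (ball z r) = Real.pi * r ^ 2 := by
    rw [Measure.real, Complex.volume_ball, ENNReal.toReal_mul, ENNReal.toReal_pow,
      ENNReal.toReal_ofReal hr.le]
    simp [mul_comm]
  rw [setAverage_eq, hvol, smul_eq_mul, h1, polar_eq hFi z]
  have hint := (polar_int hFi z).integral_prod_left
  have hae := (polar_int hFi z).prod_right_ae
  have hlow : ∫ ρ in Ioi (0 : ℝ), (Ioo 0 r).indicator (fun ρ => ρ * (2 * Real.pi * L)) ρ =
      Real.pi * r ^ 2 * L := by
    rw [setIntegral_indicator measurableSet_Ioo]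
    have h2 : Ioi (0 : ℝ) ∩ Ioo 0 r = Ioo 0 r := inter_eq_right.2 (fun x hx => hx.1)
    rw [h2, restrict_Ioo_eq_restrict_Ioc, ← intervalIntegral.integral_of_le hr.le,
      intervalIntegral.integral_mul_const, integral_id]
    ring
  have hkey : ∫ ρ in Ioi (0 : ℝ), (Ioo 0 r).indicator (fun ρ => ρ * (2 * Real.pi * L)) ρ ≤
      ∫ ρ in Ioi (0 : ℝ), ∫ θ in Ioo (-Real.pi) Real.pi, ρ * F (circleMap z ρ θ) := by
    refine integral_mono_ae ?_ hint ?_
    · refine Integrable.integrableOn ?_
      rw [integrable_indicator_iff measurableSet_Ioo]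
      have h3 : Continuous fun ρ : ℝ => ρ * (2 * Real.pi * L) := by fun_prop
      exact (h3.continuousOn.integrableOn_Icc (a := 0) (b := r)).mono_set Ioo_subset_Icc_self
    · filter_upwards [hae, self_mem_ae_restrict measurableSet_Ioi] with ρ hρi hρ0
      have hρ : 0 < ρ := hρ0
      show (Ioo 0 r).indicator (fun ρ => ρ * (2 * Real.pi * L)) ρ ≤
        ∫ θ in Ioo (-Real.pi) Real.pi, ρ * F (circleMap z ρ θ)
      have hmem : ∀ θ, circleMap z ρ θ ∈ sphere z ρ := fun θ => circleMap_mem_sphere z hρ.le θ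
      by_cases hρr : ρ < r
      · have hsub : closedBall z ρ ⊆ ball z r := closedBall_subset_ball hρr
        have hFg : ∀ θ, F (circleMap z ρ θ) = g (circleMap z ρ θ) := fun θ =>
          indicator_of_mem (hsub (sphere_subset_closedBall (hmem θ))) g
        rw [indicator_of_mem (show ρ ∈ Ioo 0 r from ⟨hρ, hρr⟩)]
        simp only [hFg] at hρi ⊢
        have hgi : Integrable (fun θ => g (circleMap z ρ θ))
            (volume.restrict (Ioo (-Real.pi) Real.pi)) := by
          have h4 := hρi.const_mul ρ⁻¹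
          refine h4.congr (Eventually.of_forall fun θ => ?_)
          show ρ⁻¹ * (ρ * g (circleMap z ρ θ)) = g (circleMap z ρ θ)
          field_simp
        rw [integral_const_mul, circ_avg]
        have h5 := jen hρ (hanb.mono hsub) hz (circ_int hgi)
          (fun w hw => hle w (hsub (sphere_subset_closedBall hw)))
        have h6 : 2 * Real.pi * L ≤ 2 * Real.pi * Real.circleAverage g z ρ :=
          mul_le_mul_of_nonneg_left h5 (by positivity)
        exact mul_le_mul_of_nonneg_left h6 hρ.le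
      · have hF0 : ∀ θ, F (circleMap z ρ θ) = 0 := by
          intro θ
          refine indicator_of_notMem (fun hm => hρr ?_) g
          have h7 := hmem θ
          rw [mem_sphere] at h7
          rw [mem_ball, h7] at hm
          exact hm
        rw [indicator_of_notMem (fun h => hρr h.2)]
        simp only [hF0, mul_zero, integral_zero, le_refl]
  rw [hlow] at hkey
  have h8 : L = (Real.pi * r ^ 2)⁻¹ * (Real.pi * r ^ 2 * L) := by
    field_simp
  rw [h8]
  exact mul_le_mul_of_nonneg_left hkey (by positivity)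

end Pool.Agent.Work.MP_055a27_an.Wd

end

section

/-!
# Sufficiency: assembly
-/

open MeasureTheory Set Filter Topology Complex Metric
open scoped ENNReal NNReal

set_option autoImplicit false

namespace Pool.Agent.Work.MP_055a27_an.Wd

namespace Suf

/-- Lower limits and powers. -/
lemma liminf_rpow (a : ℕ → ℝ≥0∞) {r : ℝ} (hr : 0 < r) :
    (liminf a atTop) ^ r = liminf (fun m => a m ^ r) atTop :=
  OrderIso.liminf_apply (ENNReal.orderIsoRpow r hr)

lemma dschw_eq_deriv {f : ℝ → ℝ} (hf : Admissible f) {w : ℂ} (hw : w ∈ uhp) :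
    deriv (schw f) w = dschw f w := (hasDerivAt_schw hf hw).deriv

lemma cont_dschw {f : ℝ → ℝ} (hf : Admissible f) : ContinuousOn (dschw f) uhp := by
  have h : DifferentiableOn ℂ (deriv (schw f)) uhp := (schw_diff hf).deriv isOpen_uhp
  exact h.continuousOn.congr fun w hw => (dschw_eq_deriv hf hw).symm

lemma shift_mem {w : ℂ} (hw : w ∈ uhp) {η : ℝ} (hη : 0 < η) : w + η * I ∈ uhp := by
  show 0 < (w + η * I).im
  have h : 0 < w.im := hw
  simp
  linarith

lemma hasDeriv_shift {f : ℝ → ℝ} (hf : Admissible f) {η : ℝ} (hη : 0 < η) {w : ℂ}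
    (hw : w ∈ uhp) : HasDerivAt (fun w => schw f (w + η * I)) (dschw f (w + η * I)) w := by
  have h1 := hasDerivAt_schw hf (shift_mem hw hη)
  have h2 : HasDerivAt (fun w : ℂ => w + η * I) 1 w := (hasDerivAt_id w).add_const _
  have h3 := h1.comp w h2
  rw [mul_one] at h3
  exact h3

lemma gsq_shift {f : ℝ → ℝ} (hf : Admissible f) {η : ℝ} (hη : 0 < η) {q : ℝ × ℝ}
    (hq : 0 < q.2) : gsq (fun w => schw f (w + η * I)) q =
      ‖dschw f ((q.1 : ℂ) + (q.2 : ℂ) * I + η * I)‖ ^ 2 := by
  unfold gsq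
  rw [(hasDeriv_shift hf hη (mem_uhp hq)).deriv]

lemma gsq_schw {f : ℝ → ℝ} (hf : Admissible f) {q : ℝ × ℝ}
    (hq : 0 < q.2) : gsq (schw f) q = ‖dschw f ((q.1 : ℂ) + (q.2 : ℂ) * I)‖ ^ 2 := by
  unfold gsq
  rw [dschw_eq_deriv hf (mem_uhp hq)]

/-- Pointwise limit of the shifted functions. -/
lemma tendsto_gsq {f : ℝ → ℝ} (hf : Admissible f) {η : ℕ → ℝ} (hη : ∀ m, 0 < η m)
    (hlim : Tendsto η atTop (𝓝 0)) {q : ℝ × ℝ} (hq : 0 < q.2) :
    Tendsto (fun m => ENNReal.ofReal (gsq (fun w => schw f (w + η m * I)) q)) atTop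
      (𝓝 (ENNReal.ofReal (gsq (schw f) q))) := by
  apply ENNReal.tendsto_ofReal
  rw [gsq_schw hf hq]
  simp only [gsq_shift hf (hη _) hq]
  have hw : (q.1 : ℂ) + (q.2 : ℂ) * I ∈ uhp := mem_uhp hq
  have hc : ContinuousAt (dschw f) ((q.1 : ℂ) + (q.2 : ℂ) * I) :=
    (cont_dschw hf).continuousAt (isOpen_uhp.mem_nhds hw)
  have h1 : Tendsto (fun m => (q.1 : ℂ) + (q.2 : ℂ) * I + (η m : ℂ) * I) atTop
      (𝓝 ((q.1 : ℂ) + (q.2 : ℂ) * I)) := by
    have h2 : Tendsto (fun m => ((η m : ℝ) : ℂ)) atTop (𝓝 ((0 : ℝ) : ℂ)) :=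
      (Complex.continuous_ofReal.tendsto 0).comp hlim
    have h3 := (h2.mul_const I).const_add ((q.1 : ℂ) + (q.2 : ℂ) * I)
    simpa using h3
  exact ((hc.tendsto.comp h1).norm).pow 2

lemma measurableSet_Bx (R : ℝ) : MeasurableSet (Bx R) := by
  have m1 : MeasurableSet {q : ℝ × ℝ | |q.1| ≤ R} := measurableSet_le (by fun_prop) (by fun_prop)
  have m2 : MeasurableSet {q : ℝ × ℝ | 1 / R ≤ q.2} :=
    measurableSet_le measurable_const (by fun_prop)
  have m3 : MeasurableSet {q : ℝ × ℝ | q.2 ≤ R} := measurableSet_le (by fun_prop) measurable_const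
  exact m1.inter (m2.inter m3)

/-- The boxes exhaust the half plane. -/
lemma mem_Bx_eventually {q : ℝ × ℝ} (hq : 0 < q.2) : ∀ᶠ m : ℕ in atTop, q ∈ Bx ((m : ℝ) + 1) := by
  obtain ⟨m0, hm0⟩ := exists_nat_ge (max |q.1| (max q.2 (1 / q.2)))
  filter_upwards [eventually_ge_atTop m0] with m hm
  have h1 : (m0 : ℝ) ≤ m := by exact_mod_cast hm
  have h2 : |q.1| ≤ m0 := (le_max_left _ _).trans hm0
  have h3 : q.2 ≤ m0 := ((le_max_left _ _).trans (le_max_right _ _)).trans hm0
  have h4 : 1 / q.2 ≤ m0 := ((le_max_right _ _).trans (le_max_right _ _)).trans hm0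
  refine ⟨by linarith, ?_, by linarith⟩
  rw [div_le_iff₀ (by positivity)]
  rw [div_le_iff₀ hq] at h4
  nlinarith

/-- Measurability of the truncated area integral. -/
lemma measurable_HH (lam R : ℝ) (F : ℂ → ℂ) :
    Measurable fun x => ∫⁻ q in cone lam x ∩ Bx R, ENNReal.ofReal (gsq F q) := by
  have hm : Measurable (fun z : ℝ × (ℝ × ℝ) =>
      {z : ℝ × (ℝ × ℝ) | z.2 ∈ cone lam z.1 ∩ Bx R}.indicator
        (fun z => ENNReal.ofReal (gsq F z.2)) z) := by
    refine Measurable.indicator ((measurable_gsq F).comp measurable_snd).ennreal_ofReal ?_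
    have m1 : MeasurableSet {z : ℝ × (ℝ × ℝ) | |z.1 - z.2.1| ≤ lam * z.2.2} :=
      measurableSet_le (by fun_prop) (by fun_prop)
    have m2 : MeasurableSet {z : ℝ × (ℝ × ℝ) | 0 < z.2.2} :=
      measurableSet_lt measurable_const (by fun_prop)
    have m3 : MeasurableSet {z : ℝ × (ℝ × ℝ) | z.2 ∈ Bx R} :=
      measurable_snd (measurableSet_Bx R)
    exact (m1.inter m2).inter m3
  have h := hm.lintegral_prod_right' (ν := (volume : Measure (ℝ × ℝ)))
  have e : (fun x => ∫⁻ q in cone lam x ∩ Bx R, ENNReal.ofReal (gsq F q)) =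
      fun x => ∫⁻ q : ℝ × ℝ, {z : ℝ × (ℝ × ℝ) | z.2 ∈ cone lam z.1 ∩ Bx R}.indicator
        (fun z => ENNReal.ofReal (gsq F z.2)) (x, q) := by
    funext x
    rw [← lintegral_indicator ((measurableSet_cone lam x).inter (measurableSet_Bx R))]
    rfl
  rw [e]
  exact h

/-- Lower semicontinuity: the area integral and the truncated area integrals. -/
lemma area_le {f : ℝ → ℝ} (hf : Admissible f) {η : ℕ → ℝ} (hη : ∀ m, 0 < η m)
    (hlim : Tendsto η atTop (𝓝 0)) (lam x : ℝ) :
    ∫⁻ q in cone lam x, ENNReal.ofReal (gsq (schw f) q) ≤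
      liminf (fun m : ℕ => ∫⁻ q in cone lam x ∩ Bx ((m : ℝ) + 1),
        ENNReal.ofReal (gsq (fun w => schw f (w + η m * I)) q)) atTop := by
  have h1 : ∀ m : ℕ, ∫⁻ q in cone lam x ∩ Bx ((m : ℝ) + 1),
      ENNReal.ofReal (gsq (fun w => schw f (w + η m * I)) q) =
      ∫⁻ q in cone lam x, (Bx ((m : ℝ) + 1)).indicator (fun q =>
        ENNReal.ofReal (gsq (fun w => schw f (w + η m * I)) q)) q := by
    intro m
    rw [lintegral_indicator (measurableSet_Bx _), Measure.restrict_restrict (measurableSet_Bx _),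
      inter_comm]
  simp only [h1]
  refine le_trans (le_of_eq ?_) (lintegral_liminf_le fun m =>
    ((measurable_gsq _).ennreal_ofReal.indicator (measurableSet_Bx _)))
  apply setLIntegral_congr_fun (measurableSet_cone lam x)
  intro q hq
  have h2 := tendsto_gsq hf hη hlim hq.2
  simp only
  symm
  refine Tendsto.liminf_eq (h2.congr' ?_)
  filter_upwards [mem_Bx_eventually hq.2] with m hm
  rw [indicator_of_mem hm]

end Suf

theorem stSuf (hHK : StHK) (hSuE : StSuE) : StSuf := by
  intro lam b p U hlam hlb hp hU hC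
  have hb : 0 < b := hlam.trans hlb
  have hbl : 0 < b - lam := by linarith
  obtain ⟨τ, hτ⟩ : ∃ τ : ℝ, τ = (b - lam) / (4 * b) := ⟨_, rfl⟩
  have hτ0 : 0 < τ := by rw [hτ]; positivity
  have hτb : b * τ = (b - lam) / 4 := by rw [hτ]; field_simp
  have hτ1 : τ ≤ 1 / 2 := by
    rw [hτ, div_le_iff₀ (by positivity)]
    linarith
  have hl : lam < b * (1 - 2 * τ) := by nlinarith
  obtain ⟨C8, hC8, hK⟩ := hHK b τ p hb hτ0 hτ1 hp
  obtain ⟨C, Cb, hCb, hS⟩ := hSuE lam b τ p C8 U hlam hτ0 (by linarith) hl hp hC8 hU hC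
  rw [star_iff hU]
  refine ⟨max 1 (C * C8.toNNReal), fun f hf => ?_⟩
  by_cases hZ : ∫⁻ x : ℝ, (ntMax b f x) ^ p ∂(wm U) = ∞
  · rw [hZ, ENNReal.mul_top]
    · exact le_top
    · have : (1 : ℝ≥0) ≤ max 1 (C * C8.toNNReal) := le_max_left _ _
      intro h
      rw [ENNReal.coe_eq_zero] at h
      rw [h] at this
      simp at this
  by_cases hx : ∃ x, ntMax b f x ≠ ∞
  swap
  · push Not at hx
    have h1 : ∫⁻ x : ℝ, (ntMax b f x) ^ p ∂(wm U) = ∞ * wm U univ := by
      simp only [hx, ENNReal.top_rpow_of_pos hp]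
      rw [lintegral_const]
    have h2 : wm U univ = 0 := by
      by_contra h
      exact hZ (by rw [h1, ENNReal.top_mul h])
    have h3 : wm U = 0 := Measure.measure_univ_eq_zero.1 h2
    rw [h3]
    simp
  by_cases hw : ∃ w ∈ uhp, dschw f w ≠ 0
  swap
  · push Not at hw
    have h1 : ∀ x, areaFn lam f x = 0 := by
      intro x
      rw [areaFn_eq hf]
      have : ∫⁻ q in cone lam x, ENNReal.ofReal (gsq (schw f) q) = 0 := by
        rw [setLIntegral_congr_fun (measurableSet_cone lam x) (g := fun _ => 0)]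
        · simp
        · intro q hq
          simp only
          rw [Suf.gsq_schw hf hq.2, hw _ (mem_uhp hq.2)]
          simp
      rw [this]
      simp
    simp [h1, hp]
  obtain ⟨w0, hw0, hd0⟩ := hw
  have hw0' : 0 < w0.im := hw0
  obtain ⟨η, hηd⟩ : ∃ η : ℕ → ℝ, ∀ m, η m = w0.im / ((m : ℝ) + 2) := ⟨_, fun _ => rfl⟩
  have hη : ∀ m, 0 < η m := fun m => by rw [hηd]; positivity
  have hη1 : ∀ m, η m < w0.im := fun m => by
    rw [hηd, div_lt_iff₀ (by positivity)]
    nlinarith [(Nat.cast_nonneg m : (0 : ℝ) ≤ m)]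
  have hlim : Tendsto η atTop (𝓝 0) := by
    have h1 : Tendsto (fun m : ℕ => w0.im / ((m : ℝ) + 2)) atTop (𝓝 0) := by
      apply Tendsto.div_atTop tendsto_const_nhds
      exact tendsto_atTop_add_const_right _ _ tendsto_natCast_atTop_atTop
    exact h1.congr fun m => (hηd m).symm
  -- the estimate of one truncation
  have key : ∀ m : ℕ, ∫⁻ x, (∫⁻ q in cone lam x ∩ Bx ((m : ℝ) + 1),
      ENNReal.ofReal (gsq (fun w => schw f (w + η m * I)) q)) ^ (p / 2) ∂(wm U) ≤
      C * (ENNReal.ofReal C8 * ∫⁻ x : ℝ, (ntMax b f x) ^ p ∂(wm U)) := by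
    intro m
    have hR : (1 : ℝ) ≤ (m : ℝ) + 1 := by
      have := (Nat.cast_nonneg m : (0 : ℝ) ≤ m)
      linarith
    have hR' : 1 ≤ Cb * ((m : ℝ) + 1) := by nlinarith
    obtain ⟨u, hu, hHB, hbu⟩ := hK f (η m) (Cb * ((m : ℝ) + 1)) hf (hη m) hR'
      ⟨w0 - η m * I, by
        show 0 < (w0 - η m * I).im
        have := hη1 m
        simp
        linarith, by
        rw [sub_add_cancel]
        exact hd0⟩ hx
    have hXX : XX b u U ≤ ENNReal.ofReal C8 * ∫⁻ x : ℝ, (ntMax b f x) ^ p ∂(wm U) := by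
      unfold XX
      rw [lintegral_mul_weight_univ hU, ← lintegral_const_mul' _ _ ENNReal.ofReal_ne_top]
      exact lintegral_mono fun x => hbu x
    have hfin : XX b u U ≠ ∞ :=
      (hXX.trans_lt (ENNReal.mul_lt_top ENNReal.ofReal_lt_top (lt_top_iff_ne_top.2 hZ))).ne
    have h1 := hS u (fun w => schw f (w + η m * I)) ((m : ℝ) + 1) hu
      (fun w hw => (Suf.hasDeriv_shift hf (hη m) hw).differentiableAt.differentiableWithinAt)
      hR hHB hfin
    rw [lintegral_mul_weight_univ hU] at h1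
    exact h1.trans (by gcongr)
  have e1 : ∀ x, (areaFn lam f x) ^ p ≤ liminf (fun m : ℕ => (∫⁻ q in
      cone lam x ∩ Bx ((m : ℝ) + 1),
        ENNReal.ofReal (gsq (fun w => schw f (w + η m * I)) q)) ^ (p / 2)) atTop := by
    intro x
    rw [← Suf.liminf_rpow _ (by positivity), areaFn_eq hf, ← ENNReal.rpow_mul,
      show (1 / 2 : ℝ) * p = p / 2 by ring]
    exact ENNReal.rpow_le_rpow (Suf.area_le hf hη hlim lam x) (by positivity)
  calc ∫⁻ x : ℝ, (areaFn lam f x) ^ p ∂(wm U)
      ≤ ∫⁻ x : ℝ, liminf (fun m : ℕ => (∫⁻ q in cone lam x ∩ Bx ((m : ℝ) + 1),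
        ENNReal.ofReal (gsq (fun w => schw f (w + η m * I)) q)) ^ (p / 2)) atTop ∂(wm U) :=
        lintegral_mono e1
    _ ≤ liminf (fun m : ℕ => ∫⁻ x : ℝ, (∫⁻ q in cone lam x ∩ Bx ((m : ℝ) + 1),
        ENNReal.ofReal (gsq (fun w => schw f (w + η m * I)) q)) ^ (p / 2) ∂(wm U)) atTop :=
        lintegral_liminf_le fun m => (Suf.measurable_HH lam _ _).pow_const _
    _ ≤ liminf (fun _ : ℕ => C * (ENNReal.ofReal C8 *
        ∫⁻ x : ℝ, (ntMax b f x) ^ p ∂(wm U))) atTop :=
        liminf_le_liminf (Eventually.of_forall key)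
    _ = C * (ENNReal.ofReal C8 * ∫⁻ x : ℝ, (ntMax b f x) ^ p ∂(wm U)) := by
        rw [liminf_const]
    _ ≤ ((max 1 (C * C8.toNNReal) : ℝ≥0) : ℝ≥0∞) * ∫⁻ x : ℝ, (ntMax b f x) ^ p ∂(wm U) := by
        rw [← mul_assoc]
        gcongr
        have : ((C : ℝ≥0∞) * ENNReal.ofReal C8) = ((C * C8.toNNReal : ℝ≥0) : ℝ≥0∞) := by
          rw [ENNReal.coe_mul]
          rfl
        rw [this]
        exact ENNReal.coe_le_coe.2 (le_max_right _ _)

end Pool.Agent.Work.MP_055a27_an.Wd

end

section

/-!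
# Wide cones: the infimum over the translated cones
-/

set_option autoImplicit false

open MeasureTheory Set Filter Topology Complex Metric
open scoped ENNReal NNReal

namespace Pool.Agent.Work.MP_055a27_an.Wd

namespace Vst

lemma im_nonneg {b : ℝ} (hb : 0 < b) {e : ℂ} (he : e ∈ Co b) : 0 ≤ e.im := by
  have h : |e.re| ≤ b * e.im := he
  have h1 : 0 ≤ b * e.im := (abs_nonneg _).trans h
  exact nonneg_of_mul_nonneg_right h1 hb

lemma zero_mem (b : ℝ) : (0 : ℂ) ∈ Co b := by simp [Co]

lemma add_mem {b : ℝ} {e e' : ℂ} (he : e ∈ Co b) (he' : e' ∈ Co b) : e + e' ∈ Co b := by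
  show |(e + e').re| ≤ b * (e + e').im
  rw [add_re, add_im, mul_add]
  exact (abs_add_le _ _).trans (add_le_add he he')

lemma add_uhp {b : ℝ} (hb : 0 < b) {z e : ℂ} (hz : z ∈ uhp) (he : e ∈ Co b) : z + e ∈ uhp := by
  show 0 < (z + e).im
  rw [add_im]
  exact add_pos_of_pos_of_nonneg hz (im_nonneg hb he)

lemma bddBelow {b m : ℝ} (hb : 0 < b) {v : ℂ → ℝ} (hm : ∀ z ∈ uhp, m ≤ v z) {z : ℂ}
    (hz : z ∈ uhp) : BddBelow (range fun e : Co b => v (z + e)) := by
  refine ⟨m, ?_⟩
  rintro _ ⟨e, rfl⟩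
  exact hm _ (add_uhp hb hz e.2)

lemma nonempty (b : ℝ) : Nonempty (Co b) := ⟨⟨0, zero_mem b⟩⟩

lemma vst_le {b m : ℝ} (hb : 0 < b) {v : ℂ → ℝ} (hm : ∀ z ∈ uhp, m ≤ v z) {z : ℂ}
    (hz : z ∈ uhp) {e : ℂ} (he : e ∈ Co b) : vst b v z ≤ v (z + e) :=
  ciInf_le (bddBelow hb hm hz) ⟨e, he⟩

lemma vst_le_self {b m : ℝ} (hb : 0 < b) {v : ℂ → ℝ} (hm : ∀ z ∈ uhp, m ≤ v z) {z : ℂ}
    (hz : z ∈ uhp) : vst b v z ≤ v z := by
  have h := vst_le hb hm hz (zero_mem b)
  rwa [add_zero] at h

lemma le_vst {b m : ℝ} (hb : 0 < b) {v : ℂ → ℝ} (hm : ∀ z ∈ uhp, m ≤ v z) {z : ℂ}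
    (hz : z ∈ uhp) : m ≤ vst b v z := by
  have := nonempty b
  exact le_ciInf fun e => hm _ (add_uhp hb hz e.2)

lemma usc {b m : ℝ} (hb : 0 < b) {v : ℂ → ℝ} (hv : ContinuousOn v uhp)
    (hm : ∀ z ∈ uhp, m ≤ v z) : UpperSemicontinuousOn (vst b v) uhp := by
  have := nonempty b
  refine upperSemicontinuousOn_ciInf (f := fun (e : Co b) (z : ℂ) => v (z + e))
    (fun z hz => bddBelow hb hm hz) (fun e => ?_)
  refine ContinuousOn.upperSemicontinuousOn ?_
  exact hv.comp (continuous_id.add continuous_const).continuousOn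
    (fun z hz => add_uhp hb hz e.2)

lemma closedBall_subset {z : ℂ} {r : ℝ} (hr : r < z.im) : closedBall z r ⊆ uhp := by
  intro w hw
  have h1 : ‖w - z‖ ≤ r := by rw [← dist_eq_norm]; exact hw
  have h2 := (Complex.abs_im_le_norm (w - z)).trans h1
  rw [sub_im] at h2
  have h3 := (abs_le.1 h2).1
  show 0 < w.im
  linarith

lemma integ {v : ℂ → ℝ} (hv : ContinuousOn v uhp) {z : ℂ} {r : ℝ} (hr : r < z.im) :
    IntegrableOn v (ball z r) :=
  ((hv.mono (closedBall_subset hr)).integrableOn_compact (isCompact_closedBall z r)).mono_set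
    ball_subset_closedBall

lemma setIntegral_shift (v : ℂ → ℝ) (z e : ℂ) (r : ℝ) :
    ∫ w in ball z r, v (w + e) = ∫ w in ball (z + e) r, v w := by
  have h := (measurePreserving_add_right (volume : Measure ℂ) e).setIntegral_preimage_emb
    (measurableEmbedding_addRight e) v (ball (z + e) r)
  have h2 : (fun w : ℂ => w + e) ⁻¹' ball (z + e) r = ball z r := by
    ext w
    simp [mem_ball]
  rw [h2] at h
  exact h

lemma integ_shift {b : ℝ} (hb : 0 < b) {v : ℂ → ℝ} (hv : ContinuousOn v uhp) {z : ℂ} {r : ℝ}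
    (hr : r < z.im) {e : ℂ} (he : e ∈ Co b) : IntegrableOn (fun w => v (w + e)) (ball z r) := by
  have hc : ContinuousOn (fun w => v (w + e)) uhp :=
    hv.comp (continuous_id.add continuous_const).continuousOn (fun z hz => add_uhp hb hz he)
  exact integ hc hr

lemma integ_vst {b m : ℝ} (hb : 0 < b) {v : ℂ → ℝ} (hv : ContinuousOn v uhp)
    (hm : ∀ z ∈ uhp, m ≤ v z) {z : ℂ} {r : ℝ} (hr : r < z.im) :
    IntegrableOn (vst b v) (ball z r) := by
  have hsub : ball z r ⊆ uhp := ball_subset_closedBall.trans (closedBall_subset hr)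
  have h1 : AEMeasurable (vst b v) (volume.restrict (ball z r)) := by
    refine aemeasurable_restrict_of_measurable_subtype measurableSet_ball ?_
    have h2 : UpperSemicontinuousOn (vst b v) (ball z r) := (usc hb hv hm).mono hsub
    exact (upperSemicontinuousOn_iff_restrict.2 h2).measurable
  have h3 : Integrable (fun w => |v w| + |m|) (volume.restrict (ball z r)) := by
    refine Integrable.add (integ hv hr).abs ?_
    have : IsFiniteMeasure (volume.restrict (ball z r)) :=
      ⟨by rw [Measure.restrict_apply_univ]; exact measure_ball_lt_top⟩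
    exact integrable_const _
  refine Integrable.mono' h3 h1.aestronglyMeasurable ?_
  refine (ae_restrict_mem measurableSet_ball).mono fun w hw => ?_
  have h4 := vst_le_self hb hm (hsub hw)
  have h5 := le_vst hb hm (hsub hw)
  rw [Real.norm_eq_abs, abs_le]
  have h6 := neg_abs_le m
  have h7 := le_abs_self (v w)
  have h8 := abs_nonneg (v w)
  have h9 := abs_nonneg m
  constructor <;> linarith

end Vst

open Vst in
theorem stVst (hSubM : StSubM) : StVst := by
  intro b v hb hv hbd
  have hc : ContinuousOn v uhp := hv.1.continuousOn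
  obtain ⟨m, hm⟩ := hbd
  have hne := nonempty b
  refine ⟨⟨usc hb hc hm, ?_, ⟨m, fun z hz => le_vst hb hm hz⟩, ?_⟩,
    fun z hz => vst_le_self hb hm hz, ?_⟩
  · intro z hz e he
    refine le_ciInf fun e' => ?_
    have h := vst_le hb hm hz (add_mem he e'.2)
    rwa [← add_assoc] at h
  · intro z hz r hr hrz
    have hz' : 0 < z.im := hz
    have hr' : r < z.im := by linarith
    refine le_ciInf fun e => ?_
    have h1 := hSubM v hv (z + e) (add_uhp hb hz e.2) r hr (by
      rw [add_im]
      have := im_nonneg hb e.2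
      linarith)
    refine le_trans ?_ h1
    rw [setAverage_eq, setAverage_eq, ← setIntegral_shift]
    have h2 : volume.real (ball (z + (e : ℂ)) r) = volume.real (ball z r) := by
      rw [measureReal_def, measureReal_def, Complex.volume_ball, Complex.volume_ball]
    rw [h2, smul_eq_mul, smul_eq_mul]
    refine mul_le_mul_of_nonneg_left ?_ (inv_nonneg.2 measureReal_nonneg)
    have hsub : ball z r ⊆ uhp := ball_subset_closedBall.trans (closedBall_subset hr')
    exact setIntegral_mono_on (integ_vst hb hc hm hr') (integ_shift hb hc hr' e.2)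
      measurableSet_ball (fun w hw => vst_le hb hm (hsub hw) e.2)
  · intro U hU hdom z hz
    by_cases hI : ∫ t in Iv b z, U t ≤ 0
    · exact hI.trans (Real.exp_pos _).le
    · push Not at hI
      refine (Real.log_le_iff_le_exp hI).1 (le_ciInf fun e => ?_)
      refine (Real.log_le_iff_le_exp hI).2 ?_
      refine le_trans ?_ (hdom (z + e) (add_uhp hb hz e.2))
      have he : |(e : ℂ).re| ≤ b * (e : ℂ).im := e.2
      have he' := abs_le.1 he
      refine setIntegral_mono_set ?_ ?_ ?_
      · exact hU.2.integrableOn_isCompact isCompact_Icc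
      · exact ae_of_all _ fun t => hU.1 t
      · refine (LE.le.eventuallyLE ?_)
        refine Icc_subset_Icc ?_ ?_
        · rw [add_re, add_im]; nlinarith [he'.2]
        · rw [add_re, add_im]; nlinarith [he'.1]

end Pool.Agent.Work.MP_055a27_an.Wd

end

section

/-!
# Item Gro: growth of the function above flat points
-/

set_option autoImplicit false

open MeasureTheory Set Filter Topology Complex Metric
open scoped ENNReal NNReal

namespace Pool.Agent.Work.MP_055a27_an.Wd

open Crit (NTc Nice NI)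
open Fn (StarC)
open Sg (An)

namespace Gro

theorem integrable {b : ℝ} (hb : 0 < b) {u : ℂ → ℝ} (hu : SH b u) {w : ℂ} (hw : 0 < w.im)
    {r : ℝ} (hr0 : 0 < r) (hr : r ≤ w.im / 2) (m : ℝ) (hflat : ∀ z ∈ ball w r, m ≤ u z) :
    IntegrableOn u (ball w r) := by
  have hsub : ball w r ⊆ uhp := fun z hz => Up.mem_uhp_of_ball hr hw hz
  have husc : UpperSemicontinuousOn u (ball w r) := hu.usc.mono hsub
  have hmeas : AEMeasurable u (volume.restrict (ball w r)) :=
    aemeasurable_restrict_of_measurable_subtype measurableSet_ball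
      (upperSemicontinuousOn_iff_restrict.mpr husc).measurable
  have hup : ∀ z ∈ ball w r, u z ≤ u (w + ((r + r / b : ℝ) : ℂ) * I) := by
    intro z hz
    refine Up.mono' hu (hsub hz) ?_
    rw [mem_ball, Complex.dist_eq] at hz
    have h1 : |(z - w).im| ≤ ‖z - w‖ := Complex.abs_im_le_norm _
    have h2 : |(z - w).re| ≤ ‖z - w‖ := Complex.abs_re_le_norm _
    rw [Complex.sub_im] at h1
    rw [Complex.sub_re] at h2
    have h3 := (abs_le.mp h1).2
    have e1 : (w + ((r + r / b : ℝ) : ℂ) * I - z).re = w.re - z.re := by simp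
    have e2 : (w + ((r + r / b : ℝ) : ℂ) * I - z).im = w.im + (r + r / b) - z.im := by simp
    rw [e1, e2, abs_sub_comm]
    have h4 : b * (r / b) = r := by field_simp
    have h5 : b * (w.im + (r + r / b) - z.im) = b * (w.im + r - z.im) + r := by
      linear_combination h4
    rw [h5]
    have h6 : 0 ≤ b * (w.im + r - z.im) := mul_nonneg hb.le (by linarith)
    linarith
  have : IsFiniteMeasure (volume.restrict (ball w r)) :=
    isFiniteMeasure_restrict.mpr measure_ball_lt_top.ne
  refine Integrable.of_bound hmeas.aestronglyMeasurable (max |m|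
    |u (w + ((r + r / b : ℝ) : ℂ) * I)|) ?_
  rw [ae_restrict_iff' measurableSet_ball]
  refine Eventually.of_forall fun z hz => ?_
  rw [Real.norm_eq_abs]
  exact abs_le_max_abs_abs (hflat z hz) (hup z hz)

/-- One step: from the point `w` to the point `w + (r / 4) I`. -/
theorem step {b : ℝ} (hb : 0 < b) {u : ℂ → ℝ} (hu : SH b u) {w : ℂ} (hw : 0 < w.im)
    {r : ℝ} (hr0 : 0 < r) (hr : r ≤ w.im / 2) (m : ℝ) (hflat : ∀ z ∈ ball w r, m ≤ u z)
    (c' : ℝ) (hc' : 0 < c') (hc1 : c' ≤ 1 / 4) (hc2 : c' * (1 + b) = b / 4) :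
    c' ^ 2 * (u (w + ((r / 4 : ℝ) : ℂ) * I) - m) ≤ u w - m := by
  set q : ℂ := w + ((r / 4 : ℝ) : ℂ) * I with hq
  set a : ℂ := w + ((5 / 8 * r : ℝ) : ℂ) * I with ha
  have hI := integrable hb hu hw hr0 hr m hflat
  have hqim : 0 < q.im := by
    have : q.im = w.im + r / 4 := by simp [hq]
    rw [this]; linarith
  -- the small ball
  have hB1 : ball a (c' * r) ⊆ ball w r := by
    intro z hz
    rw [mem_ball] at hz ⊢
    have h1 : dist a w = 5 / 8 * r := by
      rw [Complex.dist_eq, ha, add_sub_cancel_left, norm_mul, Complex.norm_I, mul_one,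
        Complex.norm_real, Real.norm_eq_abs, abs_of_pos (by positivity)]
    have h2 := dist_triangle z a w
    have h3 : c' * r ≤ 1 / 4 * r := mul_le_mul_of_nonneg_right hc1 hr0.le
    linarith
  have hB2 : ∀ z ∈ ball a (c' * r), u q ≤ u z := by
    intro z hz
    refine Up.mono' hu hqim ?_
    rw [mem_ball, Complex.dist_eq] at hz
    have h1 : |(z - a).im| ≤ ‖z - a‖ := Complex.abs_im_le_norm _
    have h2 : |(z - a).re| ≤ ‖z - a‖ := Complex.abs_re_le_norm _
    have e1 : (z - q).re = (z - a).re := by simp [hq, ha]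
    have e2 : (z - q).im = (z - a).im + 3 / 8 * r := by simp [hq, ha]; ring
    rw [e1, e2]
    have h3 := (abs_le.mp h1).1
    have h4 : b * (r / 4 - c' * r) = c' * r := by
      have : b * (r / 4 - c' * r) = (b / 4 - b * c') * r := by ring
      rw [this, ← hc2]; ring
    have h5 : b * (r / 4 - c' * r) ≤ b * ((z - a).im + 3 / 8 * r) :=
      mul_le_mul_of_nonneg_left (by linarith) hb.le
    linarith
  have hmean := hu.mean w hw r hr0 hr
  rw [setAverage_eq, Up.volR w r hr0.le, smul_eq_mul] at hmean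
  have hV : 0 < Real.pi * r ^ 2 := by positivity
  rw [inv_mul_le_iff₀ hV] at hmean
  have hc : IntegrableOn (fun _ : ℂ => m) (ball w r) :=
    integrableOn_const measure_ball_lt_top.ne
  have hg : ∫ z in ball w r, (u z - m) ≤ Real.pi * r ^ 2 * (u w - m) := by
    rw [integral_sub hI hc, setIntegral_const, Up.volR w r hr0.le, smul_eq_mul]
    linarith
  have hg2 : ∫ z in ball a (c' * r), (u z - m) ≤ ∫ z in ball w r, (u z - m) := by
    refine setIntegral_mono_set (hI.sub hc) ?_ hB1.eventuallyLE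
    rw [EventuallyLE, ae_restrict_iff' measurableSet_ball]
    refine Eventually.of_forall fun z hz => ?_
    have := hflat z hz
    simp only [Pi.zero_apply]
    linarith
  have hg3 : ∫ _z in ball a (c' * r), (u q - m) ≤ ∫ z in ball a (c' * r), (u z - m) := by
    refine setIntegral_mono_on (integrableOn_const measure_ball_lt_top.ne)
      ((hI.sub hc).mono_set hB1) measurableSet_ball fun z hz => ?_
    have := hB2 z hz
    linarith
  rw [setIntegral_const, Up.volR a (c' * r) (by positivity), smul_eq_mul] at hg3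
  have hfin : Real.pi * (c' * r) ^ 2 * (u q - m) ≤ Real.pi * r ^ 2 * (u w - m) :=
    hg3.trans (hg2.trans hg)
  have h7 : Real.pi * (c' * r) ^ 2 * (u q - m) = Real.pi * r ^ 2 * (c' ^ 2 * (u q - m)) := by
    ring
  rw [h7] at hfin
  exact le_of_mul_le_mul_left hfin hV

/-- The growth along the geometric sequence of heights. -/
theorem geo {b : ℝ} (hb : 0 < b) {u : ℂ → ℝ} (hu : SH b u) {x y : ℝ} (hy : 0 < y)
    (hfl : u (x + y * I) - 1 ≤ u (x + ((y / 2 : ℝ) : ℂ) * I)) (j : ℕ) :
    u (x + ((y * (1 + b / (8 * (1 + b))) ^ j : ℝ) : ℂ) * I) - (u (x + y * I) - 1) ≤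
      (((b / (4 * (1 + b))) ^ 2)⁻¹) ^ j := by
  have h1b : (0 : ℝ) < 1 + b := by linarith
  set c' : ℝ := b / (4 * (1 + b)) with hc
  set θ : ℝ := 1 + b / (8 * (1 + b)) with hθ
  have hc' : 0 < c' := by positivity
  have hc2 : c' * (1 + b) = b / 4 := by rw [hc]; field_simp
  have hc1 : c' ≤ 1 / 4 := by
    rw [hc, div_le_div_iff₀ (by positivity) (by norm_num)]; linarith
  have hθ1 : 1 ≤ θ := by
    have : 0 ≤ b / (8 * (1 + b)) := by positivity
    rw [hθ]; linarith
  set m : ℝ := u (x + y * I) - 1 with hm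
  induction j with
  | zero => simp [hm]
  | succ j ih =>
    set Y : ℝ := y * θ ^ j with hY
    have hpow : 1 ≤ θ ^ j := one_le_pow₀ hθ1
    have hYy : y ≤ Y := by
      rw [hY]; nlinarith
    have hYpos : 0 < Y := lt_of_lt_of_le hy hYy
    set r : ℝ := b * Y / (2 * (1 + b)) with hr
    have hr0 : 0 < r := by positivity
    have hr1 : r * (1 + b) = b * Y / 2 := by rw [hr]; field_simp
    have him : ((x : ℂ) + (Y : ℂ) * I).im = Y := by simp
    have hrle : r ≤ ((x : ℂ) + (Y : ℂ) * I).im / 2 := by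
      rw [him, hr, div_le_div_iff₀ (by positivity) (by norm_num)]
      nlinarith
    have hflat : ∀ z ∈ ball ((x : ℂ) + (Y : ℂ) * I) r, m ≤ u z := by
      intro z hz
      refine hfl.trans (Up.mono' hu (by simp; linarith) ?_)
      rw [mem_ball, Complex.dist_eq] at hz
      have h1 : |(z - (x + (Y : ℂ) * I)).im| ≤ ‖z - (x + (Y : ℂ) * I)‖ :=
        Complex.abs_im_le_norm _
      have h2 : |(z - (x + (Y : ℂ) * I)).re| ≤ ‖z - (x + (Y : ℂ) * I)‖ :=
        Complex.abs_re_le_norm _
      have e1 : (z - ((x : ℂ) + ((y / 2 : ℝ) : ℂ) * I)).re = (z - (x + (Y : ℂ) * I)).re := by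
        simp
      have e2 : (z - ((x : ℂ) + ((y / 2 : ℝ) : ℂ) * I)).im =
          (z - (x + (Y : ℂ) * I)).im + (Y - y / 2) := by
        simp
      rw [e1, e2]
      have h3 := (abs_le.mp h1).1
      have h5 : b * (-r + (Y - y / 2)) ≤ b * ((z - (x + (Y : ℂ) * I)).im + (Y - y / 2)) :=
        mul_le_mul_of_nonneg_left (by linarith) hb.le
      have h6 : r ≤ b * (-r + (Y - y / 2)) := by
        have : b * (-r + (Y - y / 2)) = b * (Y - y / 2) - r * b := by ring
        rw [this]
        nlinarith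
      linarith
    have hst := step hb hu (w := (x : ℂ) + (Y : ℂ) * I) (by rw [him]; exact hYpos) hr0 hrle m
      hflat c' hc' hc1 hc2
    have hnext : ((x : ℂ) + (Y : ℂ) * I + ((r / 4 : ℝ) : ℂ) * I) =
        (x : ℂ) + ((y * θ ^ (j + 1) : ℝ) : ℂ) * I := by
      have : y * θ ^ (j + 1) = Y + r / 4 := by
        rw [pow_succ, ← mul_assoc, ← hY, hθ, hr]
        field_simp
        ring
      rw [this]
      push_cast
      ring
    rw [hnext] at hst
    have hc2pos : 0 < c' ^ 2 := by positivity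
    rw [pow_succ ((c' ^ 2)⁻¹) j, ← div_eq_mul_inv, le_div_iff₀ hc2pos, mul_comm _ (c' ^ 2)]
    exact hst.trans ih

end Gro

/-- Growth above the flat points. -/
theorem stGro : StGro := by
  intro b hb
  have h1b : (0 : ℝ) < 1 + b := by linarith
  set c' : ℝ := b / (4 * (1 + b)) with hc
  set θ : ℝ := 1 + b / (8 * (1 + b)) with hθ
  have hc' : 0 < c' := by positivity
  have hc1 : c' ≤ 1 / 4 := by
    rw [hc, div_le_div_iff₀ (by positivity) (by norm_num)]; linarith
  have hθ1 : 1 < θ := by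
    have : 0 < b / (8 * (1 + b)) := by positivity
    rw [hθ]; linarith
  have hc2pos : 0 < c' ^ 2 := by positivity
  have hD1 : 1 < (c' ^ 2)⁻¹ := by
    rw [one_lt_inv₀ hc2pos]
    nlinarith
  set D : ℝ := (c' ^ 2)⁻¹ with hD
  have hlogθ : 0 < Real.log θ := Real.log_pos hθ1
  have hlogD : 0 < Real.log D := Real.log_pos hD1
  refine ⟨1, Real.log D / Real.log θ, D, le_rfl, div_pos hlogD hlogθ, hD1.le, ?_⟩
  intro u hu x y s hy hs hfl
  have hfl' : u (x + y * I) - 1 ≤ u (x + ((y / 2 : ℝ) : ℂ) * I) := by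
    have := hfl
    unfold Fl at this
    simpa using this
  set t : ℝ := Real.log (1 + s / y) / Real.log θ with ht
  have hsy : 1 ≤ 1 + s / y := by
    have : 0 ≤ s / y := by positivity
    linarith
  have ht0 : 0 ≤ t := div_nonneg (Real.log_nonneg hsy) hlogθ.le
  set j : ℕ := ⌈t⌉₊ with hj
  have hj1 : t ≤ j := Nat.le_ceil t
  have hj2 : (j : ℝ) < t + 1 := Nat.ceil_lt_add_one ht0
  have hgeo := Gro.geo hb hu hy hfl' j
  rw [← hθ, ← hc, ← hD] at hgeo
  -- heights
  have hheight : y + s ≤ y * θ ^ j := by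
    have h1 : 1 + s / y ≤ θ ^ j := by
      rw [← Real.rpow_natCast, ← Real.log_le_log_iff (by linarith) (by positivity),
        Real.log_rpow (by linarith)]
      rw [ht, div_le_iff₀ hlogθ] at hj1
      exact hj1
    have h2 : y * (1 + s / y) = y + s := by field_simp
    rw [← h2]
    exact mul_le_mul_of_nonneg_left h1 hy.le
  have hmono : u (x + ((y + s : ℝ) : ℂ) * I) ≤ u (x + ((y * θ ^ j : ℝ) : ℂ) * I) := by
    refine Up.mono' hu (by simp; linarith) ?_
    have e1 : ((x : ℂ) + ((y * θ ^ j : ℝ) : ℂ) * I - (x + ((y + s : ℝ) : ℂ) * I)).re = 0 := by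
      simp [-ofReal_mul, -ofReal_pow, -ofReal_add]
    have e2 : ((x : ℂ) + ((y * θ ^ j : ℝ) : ℂ) * I - (x + ((y + s : ℝ) : ℂ) * I)).im =
        y * θ ^ j - (y + s) := by
      simp [-ofReal_mul, -ofReal_pow, -ofReal_add]
    rw [e1, e2, abs_zero]
    exact mul_nonneg hb.le (by linarith)
  -- the power
  have hpow : D ^ j ≤ D * (1 + s / y) ^ (Real.log D / Real.log θ) := by
    have h1 : (1 + s / y) ^ (Real.log D / Real.log θ) = D ^ t := by
      rw [Real.rpow_def_of_pos (by linarith), Real.rpow_def_of_pos (by linarith), ht]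
      congr 1
      ring
    rw [h1, ← Real.rpow_natCast]
    have h2 : D * D ^ t = D ^ (t + 1) := by
      rw [Real.rpow_add (by linarith), Real.rpow_one, mul_comm]
    rw [h2]
    exact Real.rpow_le_rpow_of_exponent_le hD1.le hj2.le
  linarith

end Pool.Agent.Work.MP_055a27_an.Wd

end

section

/-!
# The condition `CondV lam b` does not depend on `lam < b`
-/

set_option autoImplicit false

open MeasureTheory Set Filter Topology Complex Metric
open scoped ENNReal NNReal

namespace Pool.Agent.Work.MP_055a27_an.Wd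

open NecM in
theorem condV_mono (hVst : StVst) (hSmo : StSmo) {lam lam' b : ℝ} {U : ℝ → ℝ} (hlam : 0 < lam)
    (hlam' : 0 < lam') (hlb : lam' < b) (hU : IsWeight U) (h : CondV lam b U) :
    CondV lam' b U := by
  obtain ⟨C, ε, hC, hε, hN⟩ := h
  have hb : 0 < b := hlam'.trans hlb
  obtain ⟨η, hη⟩ : ∃ η : ℝ, η = 1 - lam' / b := ⟨_, rfl⟩
  have hη0 : 0 < η := by
    rw [hη]
    have : lam' / b < 1 := (div_lt_one hb).2 hlb
    linarith
  have hη1 : η < 1 := by
    rw [hη]
    have : 0 < lam' / b := by positivity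
    linarith
  have hηb : b * (1 - η) = lam' := by rw [hη]; field_simp; ring
  refine ⟨(lam' / (lam * η) + 1) * (C * (1 / η) ^ ε), ε, by positivity, hε, ?_⟩
  intro v hv hvb hD z hz E hE hEs
  obtain ⟨hSH, hle, hdom⟩ := hVst b v hb hv hvb
  have hzim : 0 < z.im := hz
  set s : ℝ := volume.real E / z.im with hs
  have hs0 : 0 ≤ s := by positivity
  have key : ∀ t : ℝ, 0 < t → ∫ x in E, U x ≤
      (lam' / (lam * η) + 1) * (C * (1 / η) ^ ε) * s ^ ε * Real.exp (v (z + 2 * t * I)) := by
    intro t ht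
    obtain ⟨v1, hv1, hm1, hb1, hs1⟩ := hSmo b (vst b v) hb hSH t ht
    obtain ⟨m, hm⟩ := hSH.bdd
    have hbd : BddB v1 := ⟨m, hb1 m hm⟩
    have hD1 : Dom b U v1 := fun w hw =>
      (hdom U hU hD w hw).trans (Real.exp_le_exp.2 (hs1 w hw).1)
    have hz2 : z + 2 * t * I ∈ uhp := by
      show 0 < (z + 2 * t * I).im
      simp
      linarith
    have hv1z : v1 z ≤ v (z + 2 * t * I) := (hs1 z hz).2.trans (hle _ hz2)
    obtain ⟨M, hM, x, hx, hcov⟩ := cover z.re (lam' * z.im) (lam * η * z.im) (by positivity)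
      (by positivity)
    have hM2 : (M : ℝ) ≤ lam' / (lam * η) + 1 := by
      refine hM.trans (le_of_eq ?_)
      field_simp
    set B : ℝ := C * (volume.real E / (η * z.im)) ^ ε * Real.exp (v1 z) with hB
    have hB0 : 0 ≤ B := by positivity
    have hfinE : volume E ≠ ∞ := ((measure_mono hEs).trans_lt measure_Icc_lt_top).ne
    have h1 : wm U E ≤ ENNReal.ofReal (M * B) := by
      apply wm_cover hB0
      · intro t ht
        exact hcov t (hEs ht)
      · intro i hi
        have hxi := hx i hi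
        set zi : ℂ := (x i : ℂ) + ((η * z.im : ℝ) : ℂ) * I with hzi
        have hzi1 : zi.re = x i := by rw [hzi]; simp
        have hzi2 : zi.im = η * z.im := by rw [hzi]; simp
        have hziu : zi ∈ uhp := by
          show 0 < zi.im
          rw [hzi2]; positivity
        have hEm : MeasurableSet (E ∩ Icc (x i - lam * η * z.im) (x i + lam * η * z.im)) :=
          hE.inter measurableSet_Icc
        have h2 := hN v1 hv1 hbd hD1 zi hziu _ hEm (by
          unfold Iv
          rw [hzi1, hzi2, ← mul_assoc]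
          exact inter_subset_right)
        have h3 : v1 zi ≤ v1 z := by
          have h4 := hm1 zi hziu (z - zi) (by
            unfold Co
            show |(z - zi).re| ≤ b * (z - zi).im
            rw [sub_re, sub_im, hzi1, hzi2, abs_sub_comm]
            calc |x i - z.re| ≤ lam' * z.im := hxi
              _ = b * (z.im - η * z.im) := by rw [← hηb]; ring)
          rwa [add_sub_cancel] at h4
        rw [hzi2] at h2
        have h5 : wm U (E ∩ Icc (x i - lam * η * z.im) (x i + lam * η * z.im)) ≠ ∞ :=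
          ((measure_mono inter_subset_right).trans_lt (wm_Icc_lt_top hU _ _)).ne
        rw [← ENNReal.ofReal_toReal h5]
        apply ENNReal.ofReal_le_ofReal
        rw [← setIntegral_eq_wm hU hEm]
        refine h2.trans ?_
        rw [hB]
        have h6 : volume.real (E ∩ Icc (x i - lam * η * z.im) (x i + lam * η * z.im)) ≤
            volume.real E := measureReal_mono inter_subset_left hfinE
        gcongr
    have h2 : (wm U E).toReal ≤ M * B := ENNReal.toReal_le_of_le_ofReal (by positivity) h1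
    rw [setIntegral_eq_wm hU hE]
    refine h2.trans ?_
    have h3 : (volume.real E / (η * z.im)) ^ ε = (1 / η) ^ ε * s ^ ε := by
      rw [← Real.mul_rpow (by positivity) hs0, hs]
      congr 1
      field_simp
    rw [hB, h3]
    calc (M : ℝ) * (C * ((1 / η) ^ ε * s ^ ε) * Real.exp (v1 z))
        ≤ (lam' / (lam * η) + 1) * (C * ((1 / η) ^ ε * s ^ ε) *
            Real.exp (v (z + 2 * t * I))) := by
          gcongr
      _ = _ := by ring
  have hcv : ContinuousAt v z :=
    (hv.1.continuousOn).continuousAt (isOpen_uhp.mem_nhds hz)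
  have hlim : Tendsto (fun t : ℝ => (lam' / (lam * η) + 1) * (C * (1 / η) ^ ε) * s ^ ε *
      Real.exp (v (z + 2 * t * I))) (𝓝[>] 0)
      (𝓝 ((lam' / (lam * η) + 1) * (C * (1 / η) ^ ε) * s ^ ε * Real.exp (v z))) := by
    apply Tendsto.const_mul
    apply (Real.continuous_exp.tendsto _).comp
    have h1 : Tendsto (fun t : ℝ => z + 2 * t * I) (𝓝[>] 0) (𝓝 z) := by
      have h2 : Continuous (fun t : ℝ => z + 2 * t * I) := by fun_prop
      have h3 := (h2.tendsto 0).mono_left (nhdsWithin_le_nhds (s := Ioi (0 : ℝ)))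
      simpa using h3
    exact hcv.tendsto.comp h1
  refine ge_of_tendsto hlim ?_
  filter_upwards [self_mem_nhdsWithin] with t ht
  exact key t ht

theorem condV_iff (hVst : StVst) (hSmo : StSmo) {lam lam' b : ℝ} {U : ℝ → ℝ} (hlam : 0 < lam)
    (hlb : lam < b) (hlam' : 0 < lam') (hlb' : lam' < b) (hU : IsWeight U) :
    CondV lam b U ↔ CondV lam' b U :=
  ⟨condV_mono hVst hSmo hlam hlam' hlb' hU, condV_mono hVst hSmo hlam' hlam hlb hU⟩

end Pool.Agent.Work.MP_055a27_an.Wd

end
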