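import Mathlib
import Pool.Agent.Work.MP_055a27_an.SawL

/-! Bundle of small proof modules (one section per former module). -/

section

/-!
# Averaging a local estimate over Whitney balls
-/

open MeasureTheory Set Metric
open scoped ENNReal NNReal

namespace Pool.Agent.Work.MP_055a27_an

theorem averaging {μ : Measure ℝ} [SFinite μ] {Ω G : Set ℝ} (hΩ : IsOpen Ω)
    (hne : (Ωᶜ).Nonempty) (hG : MeasurableSet G) (hGΩ : G ⊆ Ω) {κ : ℝ≥0∞} {ρ : ℝ → ℝ}
    (hρ : ∀ x, ρ x = infDist x Ωᶜ / 10)
    (h : ∀ x ∈ Ω, μ (G ∩ Icc (x - ρ x) (x + ρ x)) ≤ κ * μ (Icc (x - 2 * ρ x) (x + 2 * ρ x))) :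
    μ G ≤ 12 * κ * μ Ω := by
  have hclosed : IsClosed Ωᶜ := hΩ.isClosed_compl
  have hpos : ∀ x, 0 < ρ x ↔ x ∈ Ω := by
    intro x
    rw [hρ]
    constructor
    · intro hx
      by_contra hcon
      have : infDist x Ωᶜ = 0 := infDist_zero_of_mem hcon
      rw [this] at hx; simp at hx
    · intro hx
      have := (hclosed.notMem_iff_infDist_pos hne).1 (fun h : x ∈ Ωᶜ => h hx)
      positivity
  have hcont : Continuous ρ := by
    have : ρ = fun x => infDist x Ωᶜ / 10 := funext hρ
    rw [this]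
    exact (continuous_infDist_pt _).div_const _
  have hlip : ∀ x t, ρ x ≤ ρ t + |x - t| / 10 := by
    intro x t
    have := infDist_le_infDist_add_dist (s := Ωᶜ) (x := x) (y := t)
    rw [Real.dist_eq] at this
    rw [hρ, hρ]; linarith
  -- the two kernels
  set k1 : ℝ × ℝ → ℝ≥0∞ := ({q : ℝ × ℝ | |q.1 - q.2| ≤ ρ q.1} ∩ ({q | 0 < ρ q.1} ∩
    {q | q.2 ∈ G})).indicator (fun q => ENNReal.ofReal (1 / ρ q.1)) with hk1
  set k2 : ℝ × ℝ → ℝ≥0∞ := ({q : ℝ × ℝ | |q.1 - q.2| ≤ 2 * ρ q.1} ∩
    {q | 0 < ρ q.1}).indicator (fun q => ENNReal.ofReal (1 / ρ q.1)) with hk2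
  have hρm : Measurable (fun q : ℝ × ℝ => ρ q.1) := hcont.measurable.comp measurable_fst
  have hdm : Measurable (fun q : ℝ × ℝ => |q.1 - q.2|) := by fun_prop
  have hm1 : MeasurableSet {q : ℝ × ℝ | |q.1 - q.2| ≤ ρ q.1} := measurableSet_le hdm hρm
  have hm1' : MeasurableSet {q : ℝ × ℝ | |q.1 - q.2| ≤ 2 * ρ q.1} :=
    measurableSet_le hdm (hρm.const_mul 2)
  have hm2 : MeasurableSet {q : ℝ × ℝ | 0 < ρ q.1} := measurableSet_lt measurable_const hρm
  have hm3 : MeasurableSet {q : ℝ × ℝ | q.2 ∈ G} := measurable_snd hG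
  have hfm : Measurable (fun q : ℝ × ℝ => ENNReal.ofReal (1 / ρ q.1)) := by
    apply Measurable.ennreal_ofReal
    exact hρm.const_div 1
  have hk1m : Measurable k1 := hfm.indicator (hm1.inter (hm2.inter hm3))
  have hk2m : Measurable k2 := hfm.indicator (hm1'.inter hm2)
  have hle : ∫⁻ x, ∫⁻ t, k1 (x, t) ∂μ ≤ κ * ∫⁻ x, ∫⁻ t, k2 (x, t) ∂μ := by
    rw [← lintegral_const_mul _ (by exact Measurable.lintegral_prod_right' hk2m)]
    apply lintegral_mono
    intro x
    simp only
    by_cases hx : 0 < ρ x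
    · have e1 : ∫⁻ t, k1 (x, t) ∂μ = ENNReal.ofReal (1 / ρ x) * μ (G ∩ Icc (x - ρ x) (x + ρ x)) := by
        have : ∀ t, k1 (x, t) = (G ∩ Icc (x - ρ x) (x + ρ x)).indicator
            (fun _ => ENNReal.ofReal (1 / ρ x)) t := by
          intro t
          rw [hk1]
          by_cases ht : t ∈ G ∩ Icc (x - ρ x) (x + ρ x)
          · rw [indicator_of_mem ht, indicator_of_mem]
            refine ⟨?_, hx, ht.1⟩
            show |x - t| ≤ ρ x
            rw [abs_le]; constructor <;> linarith [ht.2.1, ht.2.2]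
          · rw [indicator_of_notMem ht, indicator_of_notMem]
            rintro ⟨h1, -, h3⟩
            apply ht
            have h1' : |x - t| ≤ ρ x := h1
            have h1'' := abs_le.1 h1'
            exact ⟨h3, by constructor <;> linarith [h1''.1, h1''.2]⟩
        rw [lintegral_congr this, lintegral_indicator_const (hG.inter measurableSet_Icc)]
      have e2 : ∫⁻ t, k2 (x, t) ∂μ = ENNReal.ofReal (1 / ρ x) *
          μ (Icc (x - 2 * ρ x) (x + 2 * ρ x)) := by
        have : ∀ t, k2 (x, t) = (Icc (x - 2 * ρ x) (x + 2 * ρ x)).indicator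
            (fun _ => ENNReal.ofReal (1 / ρ x)) t := by
          intro t
          rw [hk2]
          by_cases ht : t ∈ Icc (x - 2 * ρ x) (x + 2 * ρ x)
          · rw [indicator_of_mem ht, indicator_of_mem]
            refine ⟨?_, hx⟩
            show |x - t| ≤ 2 * ρ x
            rw [abs_le]; constructor <;> linarith [ht.1, ht.2]
          · rw [indicator_of_notMem ht, indicator_of_notMem]
            rintro ⟨h1, -⟩
            apply ht
            have h1' : |x - t| ≤ 2 * ρ x := h1
            have h1'' := abs_le.1 h1'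
            constructor <;> linarith [h1''.1, h1''.2]
        rw [lintegral_congr this, lintegral_indicator_const measurableSet_Icc]
      rw [e1, e2]
      calc ENNReal.ofReal (1 / ρ x) * μ (G ∩ Icc (x - ρ x) (x + ρ x))
          ≤ ENNReal.ofReal (1 / ρ x) * (κ * μ (Icc (x - 2 * ρ x) (x + 2 * ρ x))) := by
            gcongr
            exact h x ((hpos x).1 hx)
        _ = κ * (ENNReal.ofReal (1 / ρ x) * μ (Icc (x - 2 * ρ x) (x + 2 * ρ x))) := by ring
    · have : ∀ t, k1 (x, t) = 0 := by
        intro t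
        rw [hk1]
        apply indicator_of_notMem
        rintro ⟨-, h2, -⟩
        exact hx h2
      simp only [this, lintegral_const, zero_mul]
      exact bot_le
  have sw1 : ∫⁻ x, ∫⁻ t, k1 (x, t) ∂μ = ∫⁻ t, (∫⁻ x, k1 (x, t)) ∂μ :=
    lintegral_lintegral_swap (μ := volume) (ν := μ) (f := fun x t => k1 (x, t)) hk1m.aemeasurable
  have sw2 : ∫⁻ x, ∫⁻ t, k2 (x, t) ∂μ = ∫⁻ t, (∫⁻ x, k2 (x, t)) ∂μ :=
    lintegral_lintegral_swap (μ := volume) (ν := μ) (f := fun x t => k2 (x, t)) hk2m.aemeasurable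
  rw [sw1, sw2] at hle
  -- lower bound
  have hlow : ENNReal.ofReal (1 / 2) * μ G ≤ ∫⁻ t, (∫⁻ x, k1 (x, t)) ∂μ := by
    rw [← lintegral_indicator_const hG]
    apply lintegral_mono
    intro t
    simp only
    by_cases ht : t ∈ G
    · rw [indicator_of_mem ht]
      have ht0 : 0 < ρ t := (hpos t).2 (hGΩ ht)
      calc ENNReal.ofReal (1 / 2) = ENNReal.ofReal (1 / (2 * ρ t)) *
            volume (Icc (t - ρ t / 2) (t + ρ t / 2)) := by
            rw [Real.volume_Icc, ← ENNReal.ofReal_mul (by positivity)]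
            congr 1
            field_simp
            ring
        _ = ∫⁻ x, (Icc (t - ρ t / 2) (t + ρ t / 2)).indicator
              (fun _ => ENNReal.ofReal (1 / (2 * ρ t))) x := by
            rw [lintegral_indicator_const measurableSet_Icc]
        _ ≤ ∫⁻ x, k1 (x, t) := by
            apply lintegral_mono
            intro x
            simp only
            by_cases hx : x ∈ Icc (t - ρ t / 2) (t + ρ t / 2)
            · rw [indicator_of_mem hx]
              have hxt : |x - t| ≤ ρ t / 2 := by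
                rw [abs_le]; constructor <;> linarith [hx.1, hx.2]
              have h1 := hlip t x
              have h2 := hlip x t
              rw [abs_sub_comm] at h1
              have h3 : |x - t| ≤ ρ x := by linarith
              have h4 : 0 < ρ x := by linarith
              have hmem : (x, t) ∈ {q : ℝ × ℝ | |q.1 - q.2| ≤ ρ q.1} ∩ ({q | 0 < ρ q.1} ∩
                  {q | q.2 ∈ G}) := ⟨h3, h4, ht⟩
              rw [hk1, indicator_of_mem hmem]
              apply ENNReal.ofReal_le_ofReal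
              apply one_div_le_one_div_of_le h4
              linarith
            · rw [indicator_of_notMem hx]; exact bot_le
    · rw [indicator_of_notMem ht]; exact bot_le
  have hup : ∫⁻ t, (∫⁻ x, k2 (x, t)) ∂μ ≤ 6 * μ Ω := by
    have h6 : (6 : ℝ≥0∞) * μ Ω = ∫⁻ t, Ω.indicator (fun _ => (6 : ℝ≥0∞)) t ∂μ := by
      rw [lintegral_indicator_const hΩ.measurableSet]
    rw [h6]
    apply lintegral_mono
    intro t
    simp only
    by_cases ht : t ∈ Ω
    · rw [indicator_of_mem ht]
      have ht0 : 0 < ρ t := (hpos t).2 ht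
      calc ∫⁻ x, k2 (x, t) ≤ ∫⁻ x, (Icc (t - 5 / 2 * ρ t) (t + 5 / 2 * ρ t)).indicator
              (fun _ => ENNReal.ofReal (6 / 5 / ρ t)) x := by
            apply lintegral_mono
            intro x
            simp only
            by_cases hx : |x - t| ≤ 2 * ρ x ∧ 0 < ρ x
            · have h1 := hlip t x
              have h2 := hlip x t
              rw [abs_sub_comm] at h1
              have h3 : ρ t ≤ 6 / 5 * ρ x := by linarith [hx.1]
              have h4 : ρ x ≤ 5 / 4 * ρ t := by linarith [hx.1]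
              have hx' : x ∈ Icc (t - 5 / 2 * ρ t) (t + 5 / 2 * ρ t) := by
                have := abs_le.1 hx.1
                constructor <;> linarith [this.1, this.2]
              have hmem : (x, t) ∈ {q : ℝ × ℝ | |q.1 - q.2| ≤ 2 * ρ q.1} ∩ {q | 0 < ρ q.1} :=
                ⟨hx.1, hx.2⟩
              rw [indicator_of_mem hx', hk2, indicator_of_mem hmem]
              apply ENNReal.ofReal_le_ofReal
              rw [div_le_div_iff₀ hx.2 ht0]
              linarith
            · rw [hk2, indicator_of_notMem]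
              · exact bot_le
              · intro hq; exact hx hq
        _ = 6 := by
            rw [lintegral_indicator_const measurableSet_Icc, Real.volume_Icc,
              ← ENNReal.ofReal_mul (by positivity)]
            rw [show 6 / 5 / ρ t * (t + 5 / 2 * ρ t - (t - 5 / 2 * ρ t)) = 6 by field_simp; ring]
            norm_num
    · rw [indicator_of_notMem ht]
      have : ∀ x, k2 (x, t) = 0 := by
        intro x
        rw [hk2]
        apply indicator_of_notMem
        rintro ⟨h1, h2⟩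
        have h1' : |x - t| ≤ 2 * ρ x := h1
        have h2' : 0 < ρ x := h2
        have h3 := hlip x t
        apply ht
        rw [← hpos]
        linarith
      simp [this]
  have hfin : ENNReal.ofReal (1 / 2) * μ G ≤ κ * (6 * μ Ω) :=
    hlow.trans (hle.trans (by gcongr))
  calc μ G = 2 * (ENNReal.ofReal (1 / 2) * μ G) := by
        rw [← mul_assoc]
        have : (2 : ℝ≥0∞) * ENNReal.ofReal (1 / 2) = 1 := by
          rw [show (2 : ℝ≥0∞) = ENNReal.ofReal 2 by norm_num, ← ENNReal.ofReal_mul (by norm_num)]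
          norm_num
        rw [this, one_mul]
    _ ≤ 2 * (κ * (6 * μ Ω)) := by gcongr
    _ = 12 * κ * μ Ω := by ring

end Pool.Agent.Work.MP_055a27_an

end

section

/-!
# The sawtooth estimate: final form
-/

open MeasureTheory Set Filter Topology Complex Metric
open scoped ENNReal NNReal

namespace Pool.Agent.Work.MP_055a27_an

/-- Limit `ε → 0` in `saw_eps`. -/
lemma saw_zero {F : ℂ → ℂ} (hF : DifferentiableOn ℂ F uhp) {lam b C T : ℝ} (hlam : 0 < lam)
    (hlb : lam < b) (hC : 0 < C) (hT : 0 < T) (c : Cutoff C T) {E : Set ℝ} (hE : E.Nonempty)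
    {x r σ : ℝ} (hr : 0 < r) (hEs : E ⊆ Icc (x - r) (x + r)) (hσ0 : 0 ≤ σ)
    (hσ : ∀ z y : ℝ, 0 < y → infDist z E < b * y → |(F (z + y * I)).re| ≤ σ) :
    ∫⁻ q in {q : ℝ × ℝ | 0 < q.2 ∧ q.2 < T ∧ infDist q.1 E ≤ lam * q.2},
      ENNReal.ofReal (q.2 * gsq F q) ≤
    ENNReal.ofReal (((1 / ((lam + b) / 2) + 1) * (4 * ((1 + b) / (b - (lam + b) / 2))) + C / 2 + C) *
      σ ^ 2 * (2 * (r + 2 * ((lam + b) / 2) * T))) := by
  have hl0 : 0 < (lam + b) / 2 := by linarith
  have hfrac : 0 < 1 - lam / ((lam + b) / 2) := by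
    have : lam / ((lam + b) / 2) < 1 := by rw [div_lt_one hl0]; linarith
    linarith
  set W : ℕ → Set (ℝ × ℝ) := fun n => {q : ℝ × ℝ |
    (1 / ((n : ℝ) + 1)) / (1 - lam / ((lam + b) / 2)) < q.2 ∧ q.2 < T ∧
      infDist q.1 E ≤ lam * q.2} with hW
  have hWm : ∀ n, MeasurableSet (W n) := by
    intro n
    apply MeasurableSet.inter
    · exact measurableSet_lt measurable_const measurable_snd
    · apply MeasurableSet.inter
      · exact measurableSet_lt measurable_snd measurable_const
      · exact measurableSet_le ((continuous_infDist_pt E).measurable.comp measurable_fst)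
          (measurable_snd.const_mul lam)
  have hmono : Monotone W := by
    intro m n hmn q hq
    refine ⟨lt_of_le_of_lt ?_ hq.1, hq.2⟩
    have : (m : ℝ) ≤ n := by exact_mod_cast hmn
    gcongr
  have hunion : {q : ℝ × ℝ | 0 < q.2 ∧ q.2 < T ∧ infDist q.1 E ≤ lam * q.2} ⊆ ⋃ n, W n := by
    rintro q ⟨h1, h2, h3⟩
    obtain ⟨n, hn⟩ := exists_nat_one_div_lt (show 0 < q.2 * (1 - lam / ((lam + b) / 2)) by
      positivity)
    refine mem_iUnion.2 ⟨n, ?_, h2, h3⟩
    rw [div_lt_iff₀ hfrac]
    exact hn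
  calc ∫⁻ q in {q : ℝ × ℝ | 0 < q.2 ∧ q.2 < T ∧ infDist q.1 E ≤ lam * q.2},
      ENNReal.ofReal (q.2 * gsq F q)
      ≤ ∫⁻ q in ⋃ n, W n, ENNReal.ofReal (q.2 * gsq F q) := lintegral_mono_set hunion
    _ = ⨆ n, ∫⁻ q in W n, ENNReal.ofReal (q.2 * gsq F q) := by
        rw [setLIntegral_iUnion_of_directed _ (directed_of_isDirected_le hmono)]
    _ ≤ _ := by
        apply iSup_le
        intro n
        have hn : (0 : ℝ) < 1 / ((n : ℝ) + 1) := by positivity
        exact saw_eps hF hlam hlb hC hT c hE hr hEs hσ0 hσ hn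

/-- The sawtooth estimate. -/
theorem saw {lam b : ℝ} (hlam : 0 < lam) (hlb : lam < b) : ∃ K : ℝ, 0 < K ∧
    ∀ F : ℂ → ℂ, DifferentiableOn ℂ F uhp → ∀ (E : Set ℝ) (x r T σ : ℝ), 0 < r → 0 < T → 0 ≤ σ →
      E ⊆ Icc (x - r) (x + r) →
      (∀ z y : ℝ, 0 < y → (∃ t ∈ E, |t - z| ≤ b * y) → |(F (z + y * I)).re| ≤ σ) →
      ∫⁻ t in E, ∫⁻ q in cone lam t ∩ {q | q.2 < T}, ENNReal.ofReal (gsq F q) ≤
        ENNReal.ofReal (K * σ ^ 2 * (r + T)) := by
  obtain ⟨C, hC, hcut⟩ := exists_cutoff
  have hb : 0 < b := hlam.trans hlb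
  set lam' : ℝ := (lam + b) / 2 with hlam'
  have hl0 : 0 < lam' := by rw [hlam']; linarith
  have hbl : 0 < b - lam' := by rw [hlam']; linarith
  set K0 : ℝ := ((1 / lam' + 1) * (4 * ((1 + b) / (b - lam'))) + C / 2 + C) with hK0
  have hK0pos : 0 < K0 := by rw [hK0]; positivity
  refine ⟨2 * lam * (K0 * (2 * (1 + 2 * lam'))), by positivity, ?_⟩
  intro F hF E x r T σ hr hT hσ0 hEs hσ
  rcases E.eq_empty_or_nonempty with rfl | hE
  · simp
  obtain ⟨c⟩ := hcut T hT
  have hσ' : ∀ z y : ℝ, 0 < y → infDist z E < b * y → |(F (z + y * I)).re| ≤ σ := by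
    intro z y hy hz
    obtain ⟨t, ht, htz⟩ := (infDist_lt_iff hE).1 hz
    refine hσ z y hy ⟨t, ht, ?_⟩
    rw [Real.dist_eq, abs_sub_comm] at htz
    exact htz.le
  have hmain := saw_zero hF hlam hlb hC hT c hE hr hEs hσ0 hσ'
  rw [← hlam', ← hK0] at hmain
  -- Tonelli
  set S : Set (ℝ × (ℝ × ℝ)) := {w | |w.1 - w.2.1| ≤ lam * w.2.2 ∧ 0 < w.2.2 ∧ w.2.2 < T} with hS
  have hSm : MeasurableSet S := by
    have m1 : MeasurableSet {w : ℝ × (ℝ × ℝ) | |w.1 - w.2.1| ≤ lam * w.2.2} :=
      measurableSet_le (by fun_prop) (by fun_prop)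
    have m2 : MeasurableSet {w : ℝ × (ℝ × ℝ) | 0 < w.2.2} :=
      measurableSet_lt measurable_const (by fun_prop)
    have m3 : MeasurableSet {w : ℝ × (ℝ × ℝ) | w.2.2 < T} :=
      measurableSet_lt (by fun_prop) measurable_const
    exact m1.inter (m2.inter m3)
  have hG : Measurable (fun w : ℝ × (ℝ × ℝ) => S.indicator (fun w => ENNReal.ofReal (gsq F w.2)) w) :=
    (((measurable_gsq F).comp measurable_snd).ennreal_ofReal).indicator hSm
  have e1 : ∫⁻ t in E, ∫⁻ q in cone lam t ∩ {q | q.2 < T}, ENNReal.ofReal (gsq F q) =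
      ∫⁻ t in E, ∫⁻ q, S.indicator (fun w => ENNReal.ofReal (gsq F w.2)) (t, q) := by
    apply lintegral_congr
    intro t
    have hm : MeasurableSet (cone lam t ∩ {q : ℝ × ℝ | q.2 < T}) := by
      have m1 : MeasurableSet {q : ℝ × ℝ | |t - q.1| ≤ lam * q.2} :=
        measurableSet_le (by fun_prop) (by fun_prop)
      have m2 : MeasurableSet {q : ℝ × ℝ | 0 < q.2} :=
        measurableSet_lt measurable_const (by fun_prop)
      have m3 : MeasurableSet {q : ℝ × ℝ | q.2 < T} :=
        measurableSet_lt (by fun_prop) measurable_const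
      exact (m1.inter m2).inter m3
    rw [← lintegral_indicator hm]
    apply lintegral_congr
    intro q
    by_cases h : q ∈ cone lam t ∩ {q : ℝ × ℝ | q.2 < T}
    · have h' : ((t, q) : ℝ × (ℝ × ℝ)) ∈ S := ⟨h.1.1, h.1.2, h.2⟩
      rw [indicator_of_mem h, indicator_of_mem h']
    · have h' : ((t, q) : ℝ × (ℝ × ℝ)) ∉ S := fun h' => h ⟨⟨h'.1, h'.2.1⟩, h'.2.2⟩
      rw [indicator_of_notMem h, indicator_of_notMem h']
  rw [e1, lintegral_lintegral_swap hG.aemeasurable]
  -- inner integral
  set W : Set (ℝ × ℝ) := {q : ℝ × ℝ | 0 < q.2 ∧ q.2 < T ∧ infDist q.1 E ≤ lam * q.2} with hW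
  have hWm : MeasurableSet W := by
    apply MeasurableSet.inter
    · exact measurableSet_lt measurable_const measurable_snd
    · apply MeasurableSet.inter
      · exact measurableSet_lt measurable_snd measurable_const
      · exact measurableSet_le ((continuous_infDist_pt E).measurable.comp measurable_fst)
          (measurable_snd.const_mul lam)
  have hin : ∀ q : ℝ × ℝ, ∫⁻ t in E, S.indicator (fun w => ENNReal.ofReal (gsq F w.2)) (t, q) ≤
      W.indicator (fun q => ENNReal.ofReal (2 * lam) * ENNReal.ofReal (q.2 * gsq F q)) q := by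
    intro q
    by_cases hq : q ∈ W
    · rw [indicator_of_mem hq]
      have hq0 : 0 < q.2 := hq.1
      calc ∫⁻ t in E, S.indicator (fun w => ENNReal.ofReal (gsq F w.2)) (t, q)
          ≤ ∫⁻ t, S.indicator (fun w => ENNReal.ofReal (gsq F w.2)) (t, q) :=
            setLIntegral_le_lintegral _ _
        _ ≤ ∫⁻ t, (Icc (q.1 - lam * q.2) (q.1 + lam * q.2)).indicator
              (fun _ => ENNReal.ofReal (gsq F q)) t := by
            apply lintegral_mono
            intro t
            simp only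
            by_cases h : ((t, q) : ℝ × (ℝ × ℝ)) ∈ S
            · have h1 := abs_le.1 h.1
              have h2 : t ∈ Icc (q.1 - lam * q.2) (q.1 + lam * q.2) := by
                simp only at h1
                exact ⟨by linarith [h1.1], by linarith [h1.2]⟩
              rw [indicator_of_mem h, indicator_of_mem h2]
            · rw [indicator_of_notMem h]
              exact bot_le
        _ = ENNReal.ofReal (2 * lam) * ENNReal.ofReal (q.2 * gsq F q) := by
            rw [lintegral_indicator_const measurableSet_Icc, Real.volume_Icc,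
              ← ENNReal.ofReal_mul (gsq_nonneg F q), ← ENNReal.ofReal_mul (by positivity)]
            congr 1
            ring
    · rw [indicator_of_notMem hq]
      apply le_of_eq
      have hfm : Measurable (fun t : ℝ => S.indicator (fun w => ENNReal.ofReal (gsq F w.2)) (t, q)) :=
        hG.comp (measurable_prodMk_right (y := q))
      rw [lintegral_eq_zero_iff hfm]
      show ∀ᵐ t ∂(volume.restrict E), S.indicator (fun w => ENNReal.ofReal (gsq F w.2)) (t, q) = 0
      have hms : MeasurableSet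
          {t : ℝ | ¬ S.indicator (fun w => ENNReal.ofReal (gsq F w.2)) (t, q) = 0} :=
        (hfm (measurableSet_singleton 0)).compl
      rw [ae_iff, Measure.restrict_apply hms]
      have hempty : {t : ℝ | ¬ S.indicator (fun w => ENNReal.ofReal (gsq F w.2)) (t, q) = 0} ∩ E
          = ∅ := by
        ext t
        simp only [mem_inter_iff, mem_empty_iff_false, iff_false, not_and]
        intro h1 h2
        have h3 : ((t, q) : ℝ × (ℝ × ℝ)) ∈ S := by
          by_contra h4
          exact h1 (indicator_of_notMem h4 _)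
        apply hq
        refine ⟨h3.2.1, h3.2.2, ?_⟩
        have h5 : infDist q.1 E ≤ dist q.1 t := infDist_le_dist_of_mem h2
        rw [Real.dist_eq, abs_sub_comm] at h5
        exact h5.trans h3.1
      rw [hempty, measure_empty]
  calc ∫⁻ q, ∫⁻ t in E, S.indicator (fun w => ENNReal.ofReal (gsq F w.2)) (t, q)
      ≤ ∫⁻ q, W.indicator (fun q => ENNReal.ofReal (2 * lam) *
          ENNReal.ofReal (q.2 * gsq F q)) q := lintegral_mono hin
    _ = ENNReal.ofReal (2 * lam) * ∫⁻ q in W, ENNReal.ofReal (q.2 * gsq F q) := by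
        rw [lintegral_indicator hWm, lintegral_const_mul' _ _ ENNReal.ofReal_ne_top]
    _ ≤ ENNReal.ofReal (2 * lam) * ENNReal.ofReal (K0 * σ ^ 2 * (2 * (r + 2 * lam' * T))) := by
        gcongr
    _ ≤ ENNReal.ofReal (2 * lam * (K0 * (2 * (1 + 2 * lam'))) * σ ^ 2 * (r + T)) := by
        rw [← ENNReal.ofReal_mul (by positivity)]
        apply ENNReal.ofReal_le_ofReal
        have h1 : r + 2 * lam' * T ≤ (1 + 2 * lam') * (r + T) := by nlinarith [mul_pos hl0 hr]
        calc 2 * lam * (K0 * σ ^ 2 * (2 * (r + 2 * lam' * T)))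
            ≤ 2 * lam * (K0 * σ ^ 2 * (2 * ((1 + 2 * lam') * (r + T)))) := by gcongr
          _ = _ := by ring

end Pool.Agent.Work.MP_055a27_an

end
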