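import Pool.Agent.Work.MP_055a27_an.Crit.Stmts2
import Pool.Agent.Work.MP_055a27_an.Crit.TFUp
import Pool.Agent.Work.MP_055a27_an.Crit.Ex
import Pool.Agent.Work.MP_055a27_an.Cr3.Stmts
import Pool.Agent.Work.MP_055a27_an.WMeas
import Pool.Agent.Work.MP_055a27_an.Bd.B04

/-! Bundle of small proof modules (one section per former module). -/

section

/-!
# The critical aperture of a weight, item Vn: auxiliary exponents
-/

set_option autoImplicit false

open MeasureTheory Set Filter Topology Complex Metric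
open scoped ENNReal NNReal

namespace Pool.Agent.Work.MP_055a27_an.Crit

namespace Vn

/-- the logarithmic part -/
noncomputable def lw (t : ℝ) : ℝ := 10 * Real.pi * Real.log (2 + |t|)

lemma lw_nonneg (t : ℝ) : 0 ≤ lw t := by
  unfold lw
  have h : 0 ≤ Real.log (2 + |t|) := Real.log_nonneg (by have := abs_nonneg t; linarith)
  positivity

lemma log_le (t : ℝ) : Real.log (2 + |t|) ≤ 4 + 2 * |t| ^ (1 / 2 : ℝ) := by
  have h0 := abs_nonneg t
  have h1 := Real.log_le_rpow_div (x := 2 + |t|) (by linarith) (ε := 1 / 2) (by norm_num)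
  have h2 : (2 + |t|) ^ (1 / 2 : ℝ) ≤ 2 + |t| ^ (1 / 2 : ℝ) := by
    rw [← Real.sqrt_eq_rpow, ← Real.sqrt_eq_rpow, Real.sqrt_le_iff]
    have h3 := Real.sqrt_nonneg |t|
    have h4 := Real.sq_sqrt h0
    refine ⟨by linarith, ?_⟩
    nlinarith
  have h5 : (2 + |t|) ^ (1 / 2 : ℝ) / (1 / 2) = 2 * (2 + |t|) ^ (1 / 2 : ℝ) := by ring
  rw [h5] at h1
  linarith

lemma adm_lw : Admissible lw := by
  unfold Admissible
  have h1 := Ex.admissible_abs (g := 1 / 2) (by norm_num) (by norm_num)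
  have h2 : Integrable (fun t : ℝ => (40 * Real.pi) * (1 + t ^ 2)⁻¹ +
      (20 * Real.pi) * (|t| ^ (1 / 2 : ℝ) / (1 + t ^ 2))) volume :=
    (integrable_inv_one_add_sq.const_mul _).add (h1.const_mul _)
  refine h2.mono' ?_ (Eventually.of_forall fun t => ?_)
  · apply Measurable.aestronglyMeasurable
    unfold lw
    fun_prop
  · have hp : (0 : ℝ) < 1 + t ^ 2 := by positivity
    rw [Real.norm_of_nonneg (div_nonneg (lw_nonneg t) hp.le)]
    have e : (40 * Real.pi) * (1 + t ^ 2)⁻¹ + (20 * Real.pi) * (|t| ^ (1 / 2 : ℝ) / (1 + t ^ 2)) =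
        (10 * Real.pi * (4 + 2 * |t| ^ (1 / 2 : ℝ))) / (1 + t ^ 2) := by
      field_simp
      ring
    rw [e]
    unfold lw
    have := log_le t
    gcongr

/-- the sum of the two parts -/
noncomputable def uu (U : ℝ → ℝ) (t : ℝ) : ℝ := |lg U t| + lw t

lemma uu_nonneg (U : ℝ → ℝ) (t : ℝ) : 0 ≤ uu U t := add_nonneg (abs_nonneg _) (lw_nonneg t)

lemma adm_uu {U : ℝ → ℝ} (hA : Admissible (lg U)) : Admissible (uu U) := by
  unfold Admissible
  have h1 : Integrable (fun t : ℝ => ‖lg U t / (1 + t ^ 2)‖ + lw t / (1 + t ^ 2)) volume :=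
    (Integrable.norm hA).add adm_lw
  refine h1.congr (Eventually.of_forall fun t => ?_)
  have hp : (0 : ℝ) < 1 + t ^ 2 := by positivity
  change ‖lg U t / (1 + t ^ 2)‖ + lw t / (1 + t ^ 2) = (|lg U t| + lw t) / (1 + t ^ 2)
  rw [Real.norm_eq_abs, abs_div, abs_of_pos hp, add_div]

/-- the complement of `[-n, n]` -/
def Sn (n : ℕ) : Set ℝ := {t : ℝ | (n : ℝ) < |t|}

lemma measurable_Sn (n : ℕ) : MeasurableSet (Sn n) :=
  (isOpen_lt continuous_const continuous_abs).measurableSet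

/-- the exponents -/
noncomputable def VV (b : ℝ) (U : ℝ → ℝ) (n : ℕ) : ℝ → ℝ :=
  (Sn n).indicator fun t => (2 + 2 * b ^ 2) * uu U t

lemma VV_nonneg (b : ℝ) (U : ℝ → ℝ) (n : ℕ) (t : ℝ) : 0 ≤ VV b U n t := by
  unfold VV
  refine indicator_nonneg (fun t _ => ?_) t
  have := uu_nonneg U t
  positivity

lemma VV_le (b : ℝ) (U : ℝ → ℝ) (n : ℕ) (t : ℝ) : VV b U n t ≤ (2 + 2 * b ^ 2) * uu U t := by
  unfold VV
  refine indicator_le_self' (fun t _ => ?_) t
  have := uu_nonneg U t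
  positivity

lemma adm_VV {U : ℝ → ℝ} (hA : Admissible (lg U)) (b : ℝ) (n : ℕ) : Admissible (VV b U n) := by
  unfold Admissible
  have h1 : Integrable (fun t : ℝ => (2 + 2 * b ^ 2) * (uu U t / (1 + t ^ 2))) volume :=
    Integrable.const_mul (adm_uu hA) _
  refine (h1.indicator (measurable_Sn n)).congr (Eventually.of_forall fun t => ?_)
  unfold VV
  by_cases ht : t ∈ Sn n
  · simp only [indicator_of_mem ht]
    ring
  · simp only [indicator_of_notMem ht, zero_div]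

lemma integrable_low {U : ℝ → ℝ} (hA : Admissible (lg U)) (n : ℕ) :
    Integrable ((Sn n)ᶜ.indicator (uu U)) volume := by
  have h1 : Integrable (fun t : ℝ => (1 + (n : ℝ) ^ 2) * (uu U t / (1 + t ^ 2))) volume :=
    Integrable.const_mul (adm_uu hA) _
  refine h1.mono' ((adm_measurable (adm_uu hA)).indicator (measurable_Sn n).compl)
    (Eventually.of_forall fun t => ?_)
  have hu := uu_nonneg U t
  have hp : (0 : ℝ) < 1 + t ^ 2 := by positivity
  by_cases ht : t ∈ (Sn n)ᶜ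
  · rw [indicator_of_mem ht, Real.norm_of_nonneg hu, mul_div_assoc', le_div_iff₀ hp]
    have h2 : |t| ≤ n := not_lt.1 ht
    have h3 : t ^ 2 ≤ (n : ℝ) ^ 2 := by
      rw [← sq_abs t]
      exact pow_le_pow_left₀ (abs_nonneg t) h2 2
    nlinarith
  · rw [indicator_of_notMem ht, norm_zero]
    positivity

lemma pois_nonneg {v : ℝ → ℝ} (hv : ∀ t, 0 ≤ v t) {z y : ℝ} (hy : 0 < y) :
    0 ≤ poisson v z y := by
  rw [poisson_eq_integral]
  refine mul_nonneg (by positivity) (integral_nonneg fun t => ?_)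
  have := hv t
  positivity

lemma tend {U : ℝ → ℝ} (hA : Admissible (lg U)) (b : ℝ) {z y : ℝ} (hy : 0 < y) :
    Tendsto (fun n => poisson (VV b U n) z y) atTop (𝓝 0) := by
  simp only [poisson_eq_integral]
  have h0 : (0 : ℝ) = (1 / Real.pi) * ∫ _ : ℝ, (0 : ℝ) := by simp
  rw [h0]
  apply Tendsto.const_mul
  have hKu : Admissible (fun t => (2 + 2 * b ^ 2) * uu U t) := by
    unfold Admissible
    refine (Integrable.const_mul (adm_uu hA) (2 + 2 * b ^ 2)).congr
      (Eventually.of_forall fun t => ?_)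
    change (2 + 2 * b ^ 2) * (uu U t / (1 + t ^ 2)) = (2 + 2 * b ^ 2) * uu U t / (1 + t ^ 2)
    ring
  refine tendsto_integral_of_dominated_convergence
    (fun t => y * ((2 + 2 * b ^ 2) * uu U t) / ((z - t) ^ 2 + y ^ 2)) ?_
    (TFUp.integrable_pois hKu hy) ?_ ?_
  · exact fun n => (TFUp.integrable_pois (adm_VV hA b n) hy).aestronglyMeasurable
  · intro n
    refine Eventually.of_forall fun t => ?_
    have h1 := VV_nonneg b U n t
    have h2 := VV_le b U n t
    have h3 : 0 < (z - t) ^ 2 + y ^ 2 := by positivity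
    rw [Real.norm_of_nonneg (by positivity)]
    gcongr
  · refine Eventually.of_forall fun t => ?_
    obtain ⟨n0, hn0⟩ := exists_nat_ge |t|
    refine tendsto_const_nhds.congr' ?_
    filter_upwards [eventually_ge_atTop n0] with n hn
    have ht : t ∉ Sn n := by
      intro h
      have h1 : (n : ℝ) < |t| := h
      have h2 : (n0 : ℝ) ≤ n := by exact_mod_cast hn
      linarith
    have : VV b U n t = 0 := indicator_of_notMem ht _
    rw [this]
    simp

/-- the harmonic measure of the set `|t| ≥ max (|x|, y)` is bounded below -/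
lemma harm {x y : ℝ} (hy : 0 < y) : 2 * Real.log (2 + max |x| y) ≤ poisson lw x y := by
  rw [poisson_eq_integral]
  set R : ℝ := max |x| y with hR
  have hR1 : |x| ≤ R := le_max_left _ _
  have hR2 : R ≤ |x| + y := max_le (by linarith) (by linarith [abs_nonneg x])
  have hR0 : 0 ≤ R := (abs_nonneg x).trans hR1
  have hlog : 0 ≤ Real.log (2 + R) := Real.log_nonneg (by linarith)
  obtain ⟨p, hp⟩ : ∃ p : ℝ, ∀ t ∈ Icc p (p + y), R ≤ |t| ∧ (x - t) ^ 2 ≤ 4 * y ^ 2 := by
    rcases le_total 0 x with h | h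
    · rw [abs_of_nonneg h] at hR1 hR2
      refine ⟨R, fun t ht => ⟨ht.1.trans (le_abs_self t), ?_⟩⟩
      have h1 := ht.1
      have h2 := ht.2
      nlinarith
    · rw [abs_of_nonpos h] at hR1 hR2
      refine ⟨-R - y, fun t ht => ?_⟩
      have h1 := ht.1
      have h2 := ht.2
      have h3 := neg_le_abs t
      exact ⟨by linarith, by nlinarith⟩
  have hint := TFUp.integrable_pois adm_lw (z := x) hy
  have h1 : ∫ t in Icc p (p + y), 2 * Real.pi * Real.log (2 + R) / y ≤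
      ∫ t in Icc p (p + y), y * lw t / ((x - t) ^ 2 + y ^ 2) := by
    refine setIntegral_mono_on (integrableOn_const (by simp)) hint.integrableOn
      measurableSet_Icc fun t ht => ?_
    obtain ⟨h2, h3⟩ := hp t ht
    have h4 : 0 < (x - t) ^ 2 + y ^ 2 := by positivity
    have h5 : Real.log (2 + R) ≤ Real.log (2 + |t|) :=
      Real.log_le_log (by linarith) (by linarith)
    rw [div_le_div_iff₀ hy h4]
    unfold lw
    have h6 : (x - t) ^ 2 + y ^ 2 ≤ 5 * y ^ 2 := by linarith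
    have hpi := Real.pi_pos
    have h7 : 0 ≤ Real.log (2 + |t|) := hlog.trans h5
    calc 2 * Real.pi * Real.log (2 + R) * ((x - t) ^ 2 + y ^ 2)
        ≤ 2 * Real.pi * Real.log (2 + |t|) * (5 * y ^ 2) := by gcongr
      _ = y * (10 * Real.pi * Real.log (2 + |t|)) * y := by ring
  have h2 : ∫ t in Icc p (p + y), y * lw t / ((x - t) ^ 2 + y ^ 2) ≤
      ∫ t, y * lw t / ((x - t) ^ 2 + y ^ 2) := by
    refine setIntegral_le_integral hint (Eventually.of_forall fun t => ?_)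
    have := lw_nonneg t
    change 0 ≤ y * lw t / ((x - t) ^ 2 + y ^ 2)
    positivity
  have h3 : ∫ t in Icc p (p + y), 2 * Real.pi * Real.log (2 + R) / y =
      2 * Real.pi * Real.log (2 + R) := by
    rw [setIntegral_const, Measure.real, Real.volume_Icc, smul_eq_mul,
      ENNReal.toReal_ofReal (by linarith)]
    field_simp
    ring
  have h4 := (h3 ▸ h1).trans h2
  have hpi := Real.pi_pos
  rw [one_div, ← div_eq_inv_mul, le_div_iff₀ hpi]
  linarith

/-- the constant -/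
noncomputable def cn (U : ℝ → ℝ) (n : ℕ) : ℝ :=
  (1 / Real.pi) * ∫ t, (Sn n)ᶜ.indicator (uu U) t

lemma lower {U : ℝ → ℝ} (hA : Admissible (lg U)) {b : ℝ} (n : ℕ) {x z y : ℝ} (hy : 0 < y)
    (hx : 2 * (n : ℝ) + 1 ≤ |x|) (h : |x - z| ≤ b * y) :
    poisson (lg U) x y + 2 * Real.log (2 + max |x| y) ≤ poisson (VV b U n) z y + cn U n := by
  have h1 : poisson (lg U) x y + poisson lw x y ≤ poisson (uu U) x y := by
    rw [poisson_eq_integral, poisson_eq_integral, poisson_eq_integral, ← mul_add, ← integral_add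
      (TFUp.integrable_pois hA hy) (TFUp.integrable_pois adm_lw hy)]
    refine mul_le_mul_of_nonneg_left ?_ (by positivity)
    refine integral_mono ((TFUp.integrable_pois hA hy).add (TFUp.integrable_pois adm_lw hy))
      (TFUp.integrable_pois (adm_uu hA) hy) fun t => ?_
    have h3 : 0 < (x - t) ^ 2 + y ^ 2 := by positivity
    change y * lg U t / ((x - t) ^ 2 + y ^ 2) + y * lw t / ((x - t) ^ 2 + y ^ 2) ≤
      y * (|lg U t| + lw t) / ((x - t) ^ 2 + y ^ 2)
    rw [← add_div, ← mul_add]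
    have := le_abs_self (lg U t)
    gcongr
  have h2 : poisson (uu U) x y ≤ poisson (VV b U n) z y + cn U n := by
    unfold cn
    rw [poisson_eq_integral, poisson_eq_integral, ← mul_add, ← integral_add
      (TFUp.integrable_pois (adm_VV hA b n) hy) (integrable_low hA n)]
    refine mul_le_mul_of_nonneg_left ?_ (by positivity)
    refine integral_mono (TFUp.integrable_pois (adm_uu hA) hy)
      ((TFUp.integrable_pois (adm_VV hA b n) hy).add (integrable_low hA n)) fun t => ?_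
    change y * uu U t / ((x - t) ^ 2 + y ^ 2) ≤
      y * VV b U n t / ((z - t) ^ 2 + y ^ 2) + (Sn n)ᶜ.indicator (uu U) t
    have hu := uu_nonneg U t
    have h3 : 0 < (x - t) ^ 2 + y ^ 2 := by positivity
    have h4 : 0 < (z - t) ^ 2 + y ^ 2 := by positivity
    by_cases ht : t ∈ Sn n
    · have e1 : VV b U n t = (2 + 2 * b ^ 2) * uu U t := indicator_of_mem ht _
      have e2 : (Sn n)ᶜ.indicator (uu U) t = 0 := indicator_of_notMem (by simpa using ht) _
      rw [e1, e2, add_zero, div_le_div_iff₀ h3 h4]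
      have h5 : (x - z) ^ 2 ≤ b ^ 2 * y ^ 2 := by
        rw [← sq_abs, ← mul_pow]
        exact pow_le_pow_left₀ (abs_nonneg _) h 2
      have h6 : (z - t) ^ 2 + y ^ 2 ≤ (2 + 2 * b ^ 2) * ((x - t) ^ 2 + y ^ 2) := by
        nlinarith [sq_nonneg ((x - t) + (x - z)), sq_nonneg (b * (x - t)), sq_nonneg y]
      calc y * uu U t * ((z - t) ^ 2 + y ^ 2)
          ≤ y * uu U t * ((2 + 2 * b ^ 2) * ((x - t) ^ 2 + y ^ 2)) := by gcongr
        _ = _ := by ring
    · have e1 : VV b U n t = 0 := indicator_of_notMem ht _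
      have e2 : (Sn n)ᶜ.indicator (uu U) t = uu U t := indicator_of_mem (by simpa using ht) _
      rw [e1, e2, mul_zero, zero_div, zero_add, div_le_iff₀ h3]
      have h5 : |t| ≤ n := not_lt.1 ht
      have h6 : 1 ≤ |x - t| := by
        have := abs_sub_abs_le_abs_sub x t
        have : (0 : ℝ) ≤ n := Nat.cast_nonneg n
        linarith
      have h7 : 1 ≤ (x - t) ^ 2 := by
        rw [← sq_abs]
        nlinarith
      have h8 : y ≤ (x - t) ^ 2 + y ^ 2 := by nlinarith [sq_nonneg (y - 1)]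
      nlinarith
  have h3 := harm (x := x) hy
  linarith

lemma pointwise {U : ℝ → ℝ} (hA : Admissible (lg U)) {μ b : ℝ} (hμ : 0 < μ) (n : ℕ) {x : ℝ}
    (hx : 2 * (n : ℝ) + 1 ≤ |x|) :
    (⨆ (z : ℝ) (y : ℝ) (_ : 0 < y ∧ |x - z| ≤ b * y),
      ENNReal.ofReal (Real.exp (-poisson (VV b U n) z y))) ≤
      TFUp.GG μ U (Real.exp (cn U n)) 0 (2 * (1 + μ)) x := by
  refine iSup_le fun z => iSup_le fun y => iSup_le fun ⟨hy, hz⟩ => ?_
  have h1 := lower hA n hy hx hz
  have hn0 : (0 : ℝ) ≤ n := Nat.cast_nonneg n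
  have hR1 : |x| ≤ max |x| y := le_max_left _ _
  have hR2 : y ≤ max |x| y := le_max_right _ _
  obtain ⟨j, hj1, hj2⟩ := exists_nat_pow_near (x := max |x| y) (y := 2) (by linarith) (by norm_num)
  set R : ℝ := max |x| y with hR
  refine le_trans ?_ (ENNReal.le_tsum j)
  have hpow : (2 : ℝ) ^ (j + 1) = 2 ^ j * 2 := pow_succ _ _
  have hx2 : |x| < 2 ^ j * 2 := by linarith
  have hy2 : y < 2 ^ j * 2 := by linarith
  have hpj : (0 : ℝ) < 2 ^ j := by positivity
  have hμj : 0 ≤ μ * (2 ^ j * 2 - y) := mul_nonneg hμ.le (by linarith)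
  have hx3 := abs_lt.1 hx2
  have hxJ : x ∈ Icc ((0 : ℝ) - 2 ^ j * (2 * (1 + μ))) (0 + 2 ^ j * (2 * (1 + μ))) := by
    have : 0 ≤ 2 ^ j * 2 * μ := by positivity
    constructor
    · nlinarith [hx3.1]
    · nlinarith [hx3.2]
  rw [indicator_of_mem hxJ]
  have hcc : ENNReal.ofReal (Real.exp (-poisson (lg U) x y)) ≤
      cc μ (0 - 2 ^ j * (2 * (1 + μ))) (0 + 2 ^ j * (2 * (1 + μ))) U x := by
    refine le_iSup_of_le x (le_iSup_of_le y (le_iSup_of_le ⟨hy, ?_, ?_, ?_⟩ le_rfl))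
    · rw [sub_self, abs_zero]; positivity
    · nlinarith [hx3.1]
    · nlinarith [hx3.2]
  refine le_trans ?_ (mul_le_mul_right hcc _)
  rw [← ENNReal.ofReal_mul (by positivity)]
  refine ENNReal.ofReal_le_ofReal ?_
  have hR3 : 0 < 2 + R := by linarith [abs_nonneg x]
  have e1 : Real.exp (-(2 * Real.log (2 + R))) = ((2 + R) ^ 2)⁻¹ := by
    rw [Real.exp_neg, two_mul, Real.exp_add, Real.exp_log hR3, sq]
  have e2 : ((2 + R) ^ 2)⁻¹ ≤ (1 / 4 : ℝ) ^ j := by
    rw [one_div, inv_pow]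
    apply inv_anti₀ (by positivity)
    have : (4 : ℝ) ^ j = (2 ^ j) ^ 2 := by rw [← pow_mul, mul_comm, pow_mul]; norm_num
    rw [this]
    exact pow_le_pow_left₀ hpj.le (by linarith) 2
  calc Real.exp (-poisson (VV b U n) z y)
      ≤ Real.exp (cn U n + -(2 * Real.log (2 + R)) + -poisson (lg U) x y) :=
        Real.exp_le_exp.2 (by linarith)
    _ = Real.exp (cn U n) * ((2 + R) ^ 2)⁻¹ * Real.exp (-poisson (lg U) x y) := by
        rw [Real.exp_add, Real.exp_add, e1]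
    _ ≤ _ := by gcongr

end Vn

theorem stVn : StVn := by
  intro μ b U hμ hb hU hA hCC
  obtain ⟨C0, hC0⟩ := hCC
  refine ⟨Vn.VV b U, Vn.adm_VV hA b, Vn.VV_nonneg b U, fun z y hy => Vn.tend hA b hy,
    fun n => ?_⟩
  have hn0 : (0 : ℝ) ≤ n := Nat.cast_nonneg n
  set r : ℝ := 2 * (n : ℝ) + 1 with hr
  have hpt : ∀ x : ℝ, (⨆ (z : ℝ) (y : ℝ) (_ : 0 < y ∧ |x - z| ≤ b * y),
      ENNReal.ofReal (Real.exp (-poisson (Vn.VV b U n) z y))) * ENNReal.ofReal (U x) ≤
      TFUp.GG μ U (Real.exp (Vn.cn U n)) 0 (2 * (1 + μ)) x * ENNReal.ofReal (U x) +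
        (Icc (-r) r).indicator (fun x => ENNReal.ofReal (U x)) x := by
    intro x
    rcases le_total r |x| with h | h
    · refine le_add_right ?_
      exact mul_le_mul_left (Vn.pointwise hA hμ n h) _
    · refine le_add_left ?_
      have hx : x ∈ Icc (-r) r := abs_le.1 h
      rw [indicator_of_mem hx]
      have h1 : (⨆ (z : ℝ) (y : ℝ) (_ : 0 < y ∧ |x - z| ≤ b * y),
          ENNReal.ofReal (Real.exp (-poisson (Vn.VV b U n) z y))) ≤ 1 := by
        refine iSup_le fun z => iSup_le fun y => iSup_le fun ⟨hy, _⟩ => ?_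
        rw [← ENNReal.ofReal_one]
        refine ENNReal.ofReal_le_ofReal (Real.exp_le_one_iff.2 ?_)
        have := Vn.pois_nonneg (Vn.VV_nonneg b U n) (z := z) hy
        linarith
      exact (mul_le_mul_left h1 _).trans (one_mul _).le
  refine ne_top_of_le_ne_top ?_ (lintegral_mono hpt)
  rw [lintegral_add_right' _ ((weight_ofReal_aemeas hU).indicator measurableSet_Icc),
    lintegral_indicator measurableSet_Icc]
  refine ENNReal.add_ne_top.2 ⟨?_, ?_⟩
  · refine ne_top_of_le_ne_top ?_ (TFUp.integral_GG hU hC0 (Real.exp_pos _).le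
      (show 0 < 2 * (1 + μ) by linarith))
    exact ENNReal.mul_ne_top (ENNReal.mul_ne_top ENNReal.ofReal_ne_top (by simp))
      ENNReal.ofReal_ne_top
  · have := wm_Icc_lt_top hU (-r) r
    rw [wm_apply measurableSet_Icc] at this
    exact this.ne

end Pool.Agent.Work.MP_055a27_an.Crit

end

section

set_option autoImplicit false

/-!
# Integrating the good lambda inequality, part of the cones
-/

open MeasureTheory Set Filter Topology Complex Metric
open scoped ENNReal NNReal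

namespace Pool.Agent.Work.MP_055a27_an.Cr3

namespace Abs

lemma ALK_le (F : ℂ → ℂ) (lam : ℝ) (S : Set (ℝ × ℝ)) (m : ℕ) (x : ℝ) :
    ALK F lam S m x ≤ AK F lam m x :=
  lintegral_mono_set inter_subset_left

lemma measurable_ALK (F : ℂ → ℂ) (lam : ℝ) {S : Set (ℝ × ℝ)} (hS : MeasurableSet S) (m : ℕ) :
    Measurable (ALK F lam S m) := by
  set T : Set (ℝ × (ℝ × ℝ)) := {t | t.2 ∈ cone lam t.1 ∩ S} with hT
  have hTm : MeasurableSet T := by
    have h1 : MeasurableSet {t : ℝ × (ℝ × ℝ) | |t.1 - t.2.1| ≤ lam * t.2.2} :=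
      measurableSet_le (by fun_prop) (by fun_prop)
    have h2 : MeasurableSet {t : ℝ × (ℝ × ℝ) | 0 < t.2.2} :=
      measurableSet_lt (by fun_prop) (by fun_prop)
    have h3 : MeasurableSet {t : ℝ × (ℝ × ℝ) | t.2 ∈ S} := measurable_snd hS
    have : T = ({t : ℝ × (ℝ × ℝ) | |t.1 - t.2.1| ≤ lam * t.2.2} ∩
        {t : ℝ × (ℝ × ℝ) | 0 < t.2.2}) ∩ {t : ℝ × (ℝ × ℝ) | t.2 ∈ S} := by
      ext t
      rfl
    rw [this]
    exact (h1.inter h2).inter h3
  have h4 : Measurable (fun t : ℝ × (ℝ × ℝ) => T.indicator (fun t => gK F m t.2) t) :=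
    ((measurable_gK F m).comp measurable_snd).indicator hTm
  have h5 := h4.lintegral_prod_right' (ν := (volume : Measure (ℝ × ℝ)))
  convert h5 using 1
  funext x
  unfold ALK
  rw [← lintegral_indicator ((measurableSet_cone lam x).inter hS)]
  rfl

end Abs

open Abs in
theorem stAbs : StAbs := by
  intro lam b p hlam hb hp ν hν S0 hSm0 hfin hyp
  have := hν
  set δ : ℝ := 2 ^ (-p) / 24 with hδ
  have hδ0 : 0 < δ := by positivity
  obtain ⟨γ, hγ, hgood⟩ := hyp (12 * δ) (by positivity)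
  refine ⟨(2 * 2 ^ p * γ ^ (-p)).toNNReal, ?_⟩
  intro F hF m
  have hA0 : (((2 * 2 ^ p * γ ^ (-p)).toNNReal : ℝ≥0) : ℝ≥0∞) ≠ 0 := by
    have : 0 < 2 * 2 ^ p * γ ^ (-p) := by positivity
    simpa using this
  by_cases htop : ∫⁻ t, (NT F b t) ^ p ∂ν = ∞
  · rw [htop, ENNReal.mul_top hA0]
    exact le_top
  have hNm := measurable_NT hF b
  have hNfin : ∀ᵐ t ∂ν, NT F b t < ∞ := by
    have h1 := ae_lt_top (hNm.pow_const p) htop
    filter_upwards [h1] with t ht
    by_contra hcon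
    rw [not_lt, top_le_iff] at hcon
    rw [hcon, ENNReal.top_rpow_of_pos hp] at ht
    exact absurd ht (lt_irrefl _)
  obtain ⟨B, hB0⟩ := AK_lt_top hF lam m
  have hB : ∀ x, ALK F lam S0 m x ≤ ENNReal.ofReal B := fun x => (ALK_le F lam S0 m x).trans (hB0 x)
  have hAfin : ∀ x, ALK F lam S0 m x ≠ ∞ := fun x => ne_top_of_le_ne_top ENNReal.ofReal_ne_top (hB x)
  have hmeas := measurable_ALK F lam hSm0 m
  set S : ℝ → ℝ := fun t => ((ALK F lam S0 m t) ^ (1 / 2 : ℝ)).toReal with hS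
  set N' : ℝ → ℝ := fun t => (NT F b t).toReal with hN'
  have hSm : Measurable S := (hmeas.pow_const _).ennreal_toReal
  have hN'm : Measurable N' := hNm.ennreal_toReal
  have hS0 : ∀ t, 0 ≤ S t := fun t => ENNReal.toReal_nonneg
  have hN'0 : ∀ t, 0 ≤ N' t := fun t => ENNReal.toReal_nonneg
  -- the distribution inequality
  have hdist : ∀ s : ℝ, 0 < s → ν {t | s < S t / 2} ≤
      ENNReal.ofReal (12 * δ) * ν {t | s < S t} + ν {t | s < N' t / γ} := by
    intro s hs
    have h1 := hgood F hF m s hs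
    have e1 : {t | ENNReal.ofReal (s ^ 2) < ALK F lam S0 m t} = {t | s < S t} := by
      ext t
      exact (sqrt_lt_iff hs.le (hAfin t)).symm
    have e2 : ∀ t, s < S t / 2 ↔ ENNReal.ofReal (4 * s ^ 2) < ALK F lam S0 m t := by
      intro t
      have : (4 : ℝ) * s ^ 2 = (2 * s) ^ 2 := by ring
      rw [this, ← sqrt_lt_iff (by positivity) (hAfin t)]
      constructor
      · intro h
        have : (2 : ℝ) * s < S t := by linarith
        exact this
      · intro h
        have : (2 : ℝ) * s < S t := h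
        linarith
    rw [e1] at h1
    have hsub : {t | s < S t / 2} ⊆ ({t | ENNReal.ofReal (4 * s ^ 2) < ALK F lam S0 m t} ∩
        vset F b (γ * s)) ∪ {t | ENNReal.ofReal (γ * s) < NT F b t} := by
      intro t ht
      by_cases hv : t ∈ vset F b (γ * s)
      · left; exact ⟨(e2 t).1 ht, hv⟩
      · right
        show ENNReal.ofReal (γ * s) < NT F b t
        by_contra hcon
        rw [not_lt, NT_le_iff (by positivity)] at hcon
        exact hv hcon
    have hle2 : ν {t | ENNReal.ofReal (γ * s) < NT F b t} ≤ ν {t | s < N' t / γ} := by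
      apply measure_mono_ae
      filter_upwards [hNfin] with t ht hmem
      have hmem' : ENNReal.ofReal (γ * s) < NT F b t := hmem
      show s < N' t / γ
      rw [lt_div_iff₀ hγ, mul_comm]
      exact (ENNReal.ofReal_lt_iff_lt_toReal (by positivity) ht.ne).1 hmem'
    calc ν {t | s < S t / 2} ≤ _ := measure_mono hsub
      _ ≤ _ := measure_union_le _ _
      _ ≤ ENNReal.ofReal (12 * δ) * ν {t | s < S t} + ν {t | s < N' t / γ} := by
          gcongr
  -- integrate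
  have hl1 := lintegral_rpow_eq_lintegral_meas_lt_mul ν (f := fun t => S t / 2)
    (Eventually.of_forall fun t => by have := hS0 t; positivity) (hSm.div_const 2).aemeasurable hp
  have hl2 := lintegral_rpow_eq_lintegral_meas_lt_mul ν (f := S)
    (Eventually.of_forall fun t => hS0 t) hSm.aemeasurable hp
  have hl3 := lintegral_rpow_eq_lintegral_meas_lt_mul ν (f := fun t => N' t / γ)
    (Eventually.of_forall fun t => by have := hN'0 t; positivity) (hN'm.div_const γ).aemeasurable hp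
  have hm2 : Measurable (fun s : ℝ => ν {t | s < S t} * ENNReal.ofReal (s ^ (p - 1))) := by
    apply Measurable.mul
    · apply Antitone.measurable
      intro s s' h
      exact measure_mono (fun a ha => lt_of_le_of_lt h ha)
    · fun_prop
  have hmain : ∫⁻ t, ENNReal.ofReal ((S t / 2) ^ p) ∂ν ≤
      ENNReal.ofReal (12 * δ) * (∫⁻ t, ENNReal.ofReal (S t ^ p) ∂ν) +
        ∫⁻ t, ENNReal.ofReal ((N' t / γ) ^ p) ∂ν := by
    rw [hl1, hl2, hl3]
    calc ENNReal.ofReal p * ∫⁻ s in Ioi 0, ν {t | s < S t / 2} * ENNReal.ofReal (s ^ (p - 1))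
        ≤ ENNReal.ofReal p * ∫⁻ s in Ioi 0, (ENNReal.ofReal (12 * δ) * (ν {t | s < S t} *
            ENNReal.ofReal (s ^ (p - 1))) + ν {t | s < N' t / γ} *
            ENNReal.ofReal (s ^ (p - 1))) := by
          gcongr ENNReal.ofReal p * ?_
          apply setLIntegral_mono' measurableSet_Ioi
          intro s hs
          calc ν {t | s < S t / 2} * ENNReal.ofReal (s ^ (p - 1))
              ≤ (ENNReal.ofReal (12 * δ) * ν {t | s < S t} + ν {t | s < N' t / γ}) *
                ENNReal.ofReal (s ^ (p - 1)) := by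
                gcongr
                exact hdist s hs
            _ = _ := by ring
      _ = _ := by
          rw [lintegral_add_left (hm2.const_mul _), lintegral_const_mul _ hm2]
          ring
  -- finiteness of the left side
  have hX : ∫⁻ t, ENNReal.ofReal (S t ^ p) ∂ν ≠ ∞ := by
    have hbd : ∀ t, ENNReal.ofReal (S t ^ p) ≤ (Icc (-((1 + lam) * (m + 1))) ((1 + lam) *
        (m + 1))).indicator (fun _ => ((ENNReal.ofReal B) ^ (1 / 2 : ℝ)) ^ p) t := by
      intro t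
      have e : ENNReal.ofReal (S t ^ p) = ((ALK F lam S0 m t) ^ (1 / 2 : ℝ)) ^ p := by
        rw [← ENNReal.ofReal_rpow_of_nonneg (hS0 t) hp.le, hS,
          ENNReal.ofReal_toReal (ENNReal.rpow_ne_top_of_nonneg (by norm_num) (hAfin t))]
      rw [e]
      by_cases ht : t ∈ Icc (-((1 + lam) * ((m : ℝ) + 1))) ((1 + lam) * ((m : ℝ) + 1))
      · rw [indicator_of_mem ht]
        gcongr
        exact hB t
      · rw [indicator_of_notMem ht]
        have h1 : (1 + lam) * ((m : ℝ) + 1) < |t| := by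
          by_contra hcon
          rw [not_lt, abs_le] at hcon
          exact ht hcon
        have h0 : ALK F lam S0 m t = 0 :=
          le_antisymm ((ALK_le F lam S0 m t).trans (AK_support hlam h1).le) bot_le
        rw [h0, ENNReal.zero_rpow_of_pos (by norm_num),
          ENNReal.zero_rpow_of_pos hp]
    have hle := lintegral_mono (μ := ν) hbd
    rw [lintegral_indicator_const measurableSet_Icc] at hle
    apply ne_top_of_le_ne_top _ hle
    apply ENNReal.mul_ne_top _ (hfin _ _).ne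
    exact ENNReal.rpow_ne_top_of_nonneg hp.le
      (ENNReal.rpow_ne_top_of_nonneg (by norm_num) ENNReal.ofReal_ne_top)
  -- rewrite
  have e1 : ∫⁻ t, ENNReal.ofReal ((S t / 2) ^ p) ∂ν =
      ENNReal.ofReal (2 ^ (-p)) * ∫⁻ t, ENNReal.ofReal (S t ^ p) ∂ν := by
    rw [← lintegral_const_mul _ (by fun_prop)]
    apply lintegral_congr
    intro t
    rw [← ENNReal.ofReal_mul (by positivity), Real.div_rpow (hS0 t) (by norm_num),
      Real.rpow_neg (by norm_num)]
    congr 1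
    ring
  have e2 : ∫⁻ t, ENNReal.ofReal ((N' t / γ) ^ p) ∂ν ≤
      ENNReal.ofReal (γ ^ (-p)) * ∫⁻ t, (NT F b t) ^ p ∂ν := by
    rw [← lintegral_const_mul _ (hNm.pow_const p)]
    apply lintegral_mono
    intro t
    simp only
    rw [Real.div_rpow (hN'0 t) hγ.le, div_eq_inv_mul, ← Real.rpow_neg hγ.le,
      ENNReal.ofReal_mul (by positivity)]
    gcongr
    rw [← ENNReal.ofReal_rpow_of_nonneg (hN'0 t) hp.le]
    gcongr
    exact ENNReal.ofReal_toReal_le
  have e3 : ∫⁻ t, ((ALK F lam S0 m t) ^ (1 / 2 : ℝ)) ^ p ∂ν = ∫⁻ t, ENNReal.ofReal (S t ^ p) ∂ν := by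
    apply lintegral_congr
    intro t
    rw [← ENNReal.ofReal_rpow_of_nonneg (hS0 t) hp.le, hS,
      ENNReal.ofReal_toReal (ENNReal.rpow_ne_top_of_nonneg (by norm_num) (hAfin t))]
  rw [e3]
  set X : ℝ≥0∞ := ∫⁻ t, ENNReal.ofReal (S t ^ p) ∂ν with hXdef
  set Y : ℝ≥0∞ := ∫⁻ t, (NT F b t) ^ p ∂ν with hYdef
  rw [e1] at hmain
  have h5 : ENNReal.ofReal (2 ^ (-p)) * X ≤ ENNReal.ofReal (12 * δ) * X +
      ENNReal.ofReal (γ ^ (-p)) * Y := hmain.trans (by gcongr)
  -- to reals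
  have hXr : X = ENNReal.ofReal X.toReal := (ENNReal.ofReal_toReal hX).symm
  have hYr : Y = ENNReal.ofReal Y.toReal := (ENNReal.ofReal_toReal htop).symm
  rw [hXr, hYr] at h5 ⊢
  have h6 : (((2 * 2 ^ p * γ ^ (-p)).toNNReal : ℝ≥0) : ℝ≥0∞) =
      ENNReal.ofReal (2 * 2 ^ p * γ ^ (-p)) := rfl
  rw [h6, ← ENNReal.ofReal_mul (by positivity)]
  rw [← ENNReal.ofReal_mul (by positivity), ← ENNReal.ofReal_mul (by positivity),
    ← ENNReal.ofReal_mul (by positivity), ← ENNReal.ofReal_add (by positivity) (by positivity)] at h5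
  have h7 := (ENNReal.ofReal_le_ofReal_iff (by positivity)).1 h5
  apply ENNReal.ofReal_le_ofReal
  have h8 : (2 : ℝ) ^ (-p) * (2 : ℝ) ^ p = 1 := by
    rw [← Real.rpow_add (by norm_num)]; simp
  have h9 : (2 : ℝ) ^ (-p) / 2 * X.toReal ≤ γ ^ (-p) * Y.toReal := by
    rw [hδ] at h7; linarith
  have hp2 : (0 : ℝ) < 2 ^ p := by positivity
  calc X.toReal = 2 * 2 ^ p * ((2 : ℝ) ^ (-p) / 2 * X.toReal) := by
        have : 2 * (2 : ℝ) ^ p * ((2 : ℝ) ^ (-p) / 2 * X.toReal) =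
          ((2 : ℝ) ^ (-p) * (2 : ℝ) ^ p) * X.toReal := by ring
        rw [this, h8, one_mul]
    _ ≤ 2 * 2 ^ p * (γ ^ (-p) * Y.toReal) := by gcongr
    _ = _ := by ring

end Pool.Agent.Work.MP_055a27_an.Cr3

end

section

/-!
# The `A_∞` inequality at low points
-/

open MeasureTheory Set Filter Topology
open scoped ENNReal NNReal

namespace Pool.Agent.Work.MP_055a27_an.Cr3

open Crit (lg)

namespace Ainf

lemma avg_eq {la : ℝ} {U : ℝ → ℝ} (hU : IsWeight U) {z y : ℝ} (hy : 0 < y)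
    (ha : 0 < avg la U z y) :
    wm U (Icc (z - la * y) (z + la * y)) = ENNReal.ofReal (y * Real.exp (LL la U z y)) := by
  have hf := (wm_Icc_lt_top hU (z - la * y) (z + la * y)).ne
  rw [← ENNReal.ofReal_toReal hf]
  congr 1
  rw [← setIntegral_eq_wm hU measurableSet_Icc]
  unfold LL
  rw [Real.exp_log ha]
  unfold avg
  field_simp

/-- Hölder inequality on a bounded set. -/
lemma holder {U : ℝ → ℝ} (hU : IsWeight U) {E : Set ℝ} (hE : MeasurableSet E)
    (hEf : volume E ≠ ∞) {p : ℝ} (hp : 1 < p) {B : ℝ} (hB : 0 ≤ B)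
    (h : ∫⁻ t in E, (ENNReal.ofReal (U t)) ^ p ≤ ENNReal.ofReal B) :
    wm U E ≤ ENNReal.ofReal (B ^ (1 / p) * (volume.real E) ^ (1 - 1 / p)) := by
  have hp0 : 0 < p := by linarith
  have hpq : p.HolderConjugate (p / (p - 1)) := Real.HolderConjugate.conjExponent hp
  have h1 := ENNReal.lintegral_mul_le_Lp_mul_Lq (volume.restrict E) hpq
    (f := fun t => ENNReal.ofReal (U t)) (g := fun _ => 1)
    (weight_ofReal_aemeas hU).restrict aemeasurable_const
  have h2 : 1 / (p / (p - 1)) = 1 - 1 / p := by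
    field_simp
  rw [h2] at h1
  have h3 : ∫⁻ t in E, (fun t => ENNReal.ofReal (U t)) t * (fun _ => (1 : ℝ≥0∞)) t = wm U E := by
    rw [wm_apply hE]
    simp
  have h4 : ∫⁻ t in E, ((fun _ => (1 : ℝ≥0∞)) t) ^ (p / (p - 1)) = volume E := by
    simp
  have h5 : volume E = ENNReal.ofReal (volume.real E) := by
    rw [measureReal_def, ENNReal.ofReal_toReal hEf]
  simp only [Pi.mul_apply] at h1
  rw [h3, h4, h5] at h1
  have h6 : 0 ≤ 1 - 1 / p := by
    rw [sub_nonneg, div_le_one hp0]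
    exact hp.le
  refine h1.trans ?_
  rw [ENNReal.ofReal_mul (Real.rpow_nonneg hB _),
    ENNReal.ofReal_rpow_of_nonneg measureReal_nonneg h6]
  gcongr
  rw [← ENNReal.ofReal_rpow_of_nonneg hB (by positivity)]
  exact ENNReal.rpow_le_rpow h (by positivity)

end Ainf

open Ainf in
/-- The `A_∞` inequality at low points. -/
theorem stAinf (hBas : StBas) (hGr : StGr) (hRH : StRH) : StAinf := by
  intro la μ R m0 U hH hR hm0
  have hla : 0 < la := hH.1
  have hμ : 0 < μ := hla.trans hH.2.1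
  have hU : IsWeight U := hH.2.2.1.1
  obtain ⟨ε0, CR, hε0, hCR, hR1⟩ := hRH la μ U hH
  obtain ⟨CG, N, hCG, hG1⟩ := hGr la μ U hH
  set K : ℝ := max 1 (R / la) with hK
  have hK1 : 1 ≤ K := le_max_left _ _
  have hKR : R ≤ la * K := by
    have : R / la ≤ K := le_max_right _ _
    rw [div_le_iff₀ hla] at this
    linarith
  set p : ℝ := 1 + ε0 with hp
  have hp1 : 1 < p := by rw [hp]; linarith
  have hp0 : 0 < p := by linarith
  have hε : 0 < 1 - 1 / p := by
    rw [sub_pos, div_lt_one hp0]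
    exact hp1
  refine ⟨(CR * K) ^ (1 / p) * Real.exp (CG * m0 * K ^ N), 1 - 1 / p, by positivity, hε, ?_⟩
  intro z y hy hg E hE hEs
  have hav : 0 < avg la U z y := hBas.1 la U z y hla hy hH.2.2.1
  rw [avg_eq hU hy hav]
  set h' := poisson (lg U) z (K * y) with hh'
  have hKy : 0 < K * y := by positivity
  have hyK : y ≤ K * y := by nlinarith
  have hgr : h' ≤ LL la U z y + CG * m0 * K ^ N := by
    have := hG1 z y m0 z (K * y) ⟨hy, hm0, hg⟩ hyK (by
      rw [sub_self, abs_zero]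
      have : 0 ≤ K * y - y := by linarith
      positivity)
    rw [mul_div_assoc, div_self hy.ne', mul_one] at this
    have h2 := (abs_le.1 this).2
    linarith
  have hEs2 : E ⊆ Icc (z - la * (K * y)) (z + la * (K * y)) := by
    refine hEs.trans (Icc_subset_Icc ?_ ?_)
    · have := mul_le_mul_of_nonneg_right hKR hy.le
      rw [mul_assoc] at this
      linarith
    · have := mul_le_mul_of_nonneg_right hKR hy.le
      rw [mul_assoc] at this
      linarith
  have hEf : volume E ≠ ∞ := by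
    refine (lt_of_le_of_lt (measure_mono hEs) ?_).ne
    exact measure_Icc_lt_top
  have hB : ∫⁻ t in E, (ENNReal.ofReal (U t)) ^ p ≤
      ENNReal.ofReal (CR * (K * y) * Real.exp (p * h')) :=
    (lintegral_mono_set hEs2).trans (hR1 z (K * y) hKy)
  have hhol := holder hU hE hEf hp1 (B := CR * (K * y) * Real.exp (p * h')) (by positivity) hB
  refine hhol.trans ?_
  rw [← ENNReal.ofReal_mul (by positivity)]
  apply ENNReal.ofReal_le_ofReal
  have e1 : (CR * (K * y) * Real.exp (p * h')) ^ (1 / p) =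
      (CR * K) ^ (1 / p) * y ^ (1 / p) * Real.exp h' := by
    rw [show CR * (K * y) = CR * K * y by ring, Real.mul_rpow (by positivity) (Real.exp_pos _).le,
      Real.mul_rpow (by positivity) hy.le, ← Real.exp_mul]
    congr 2
    field_simp
  have e2 : y ^ (1 / p) * (volume.real E) ^ (1 - 1 / p) =
      y * (volume.real E / y) ^ (1 - 1 / p) := by
    rw [Real.div_rpow measureReal_nonneg hy.le, ← mul_div_assoc, eq_div_iff (by positivity)]
    have : y ^ (1 / p) * y ^ (1 - 1 / p) = y := by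
      rw [← Real.rpow_add hy]
      simp
    calc y ^ (1 / p) * (volume.real E) ^ (1 - 1 / p) * y ^ (1 - 1 / p)
        = (y ^ (1 / p) * y ^ (1 - 1 / p)) * (volume.real E) ^ (1 - 1 / p) := by ring
      _ = _ := by rw [this]
  have e3 : Real.exp h' ≤ Real.exp (LL la U z y) * Real.exp (CG * m0 * K ^ N) := by
    rw [← Real.exp_add]
    exact Real.exp_le_exp.2 hgr
  have e4 : 0 ≤ (volume.real E / y) ^ (1 - 1 / p) :=
    Real.rpow_nonneg (div_nonneg measureReal_nonneg hy.le) _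
  calc (CR * (K * y) * Real.exp (p * h')) ^ (1 / p) * (volume.real E) ^ (1 - 1 / p)
      = (CR * K) ^ (1 / p) * Real.exp h' * (y ^ (1 / p) * (volume.real E) ^ (1 - 1 / p)) := by
        rw [e1]; ring
    _ = (CR * K) ^ (1 / p) * Real.exp h' * (y * (volume.real E / y) ^ (1 - 1 / p)) := by rw [e2]
    _ ≤ (CR * K) ^ (1 / p) * (Real.exp (LL la U z y) * Real.exp (CG * m0 * K ^ N)) *
        (y * (volume.real E / y) ^ (1 - 1 / p)) := by gcongr
    _ = _ := by ring

end Pool.Agent.Work.MP_055a27_an.Cr3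

end

section

/-!
# The shadow condition implies the Carleson condition with smaller aperture
-/

open MeasureTheory Set Filter Topology Complex Metric
open scoped ENNReal NNReal

namespace Pool.Agent.Work.MP_055a27_an.Cr3

open Crit (lg cc CC Pk hU)

namespace CC3

/-- A supremum over an open condition is measurable. -/
theorem meas_sup (μ' s : ℝ) (P : ℝ → ℝ → Prop) (e : ℝ → ℝ → ℝ≥0∞) :
    Measurable fun x : ℝ => ⨆ (z : ℝ) (y : ℝ) (_ : 0 < y ∧ y ≤ s ∧ |x - z| < μ' * y ∧ P z y),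
      e z y := by
  refine measurable_of_Ioi fun b => ?_
  apply IsOpen.measurableSet
  have : (fun x : ℝ => ⨆ (z : ℝ) (y : ℝ) (_ : 0 < y ∧ y ≤ s ∧ |x - z| < μ' * y ∧ P z y),
      e z y) ⁻¹' Ioi b = ⋃ (z : ℝ) (y : ℝ) (_ : 0 < y ∧ y ≤ s ∧ P z y ∧ b < e z y),
        {x : ℝ | |x - z| < μ' * y} := by
    ext x
    simp only [mem_preimage, mem_Ioi, lt_iSup_iff, mem_iUnion, mem_ofPred_eq, exists_prop]
    constructor
    · rintro ⟨z, y, ⟨h1, h2, h3, h4⟩, h5⟩
      exact ⟨z, y, ⟨h1, h2, h4, h5⟩, h3⟩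
    · rintro ⟨z, y, ⟨h1, h2, h4, h5⟩, h3⟩
      exact ⟨z, y, ⟨h1, h2, h3, h4⟩, h5⟩
  rw [this]
  refine isOpen_iUnion fun z => isOpen_iUnion fun y => isOpen_iUnion fun _ => ?_
  exact isOpen_lt (by fun_prop) continuous_const

end CC3

theorem stCC3 (hCCl : StCCl) (hCCh : StCCh) : StCC3 := by
  intro μ' μ U hμ' hμ hW hS
  obtain ⟨la', h1, la, h2, h3⟩ : ∃ la' : ℝ, μ' < la' ∧ ∃ la : ℝ, la' < la ∧ la < μ := by
    refine ⟨μ' + (μ - μ') / 3, by linarith, μ' + (μ - μ') / 3 * 2, by linarith, by linarith⟩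
  have hH : Hyp la μ U := ⟨by linarith, h3, hW, hS⟩
  obtain ⟨m0, hm0, C1, hC1⟩ := hCCh la' la μ μ' U hμ' h1 h2 hH
  obtain ⟨C2, hC2⟩ := hCCl la μ μ' m0 U hH hμ' hm0
  set K : ℝ := max 1 (1 / (2 * μ')) with hK
  have hK1 : 1 ≤ K := le_max_left _ _
  have hK2 : 1 / (2 * μ') ≤ K := le_max_right _ _
  refine ⟨(C2 + C1) * K.toNNReal, fun a c hac => ?_⟩
  set s : ℝ := K * (c - a) with hs
  have hca : 0 < c - a := sub_pos.2 hac
  have hs0 : 0 < s := by positivity
  have hcs : c ≤ a + s := by nlinarith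
  set L : ℝ → ℝ≥0∞ := fun x => ⨆ (z : ℝ) (y : ℝ) (_ : 0 < y ∧ y ≤ s ∧ |x - z| < μ' * y ∧
      gg la U z y ≤ m0), ENNReal.ofReal (Real.exp (-poisson (lg U) z y)) with hL
  set H : ℝ → ℝ≥0∞ := fun x => ⨆ (z : ℝ) (y : ℝ) (_ : 0 < y ∧ y ≤ s ∧ |x - z| < μ' * y ∧
      m0 < gg la U z y), ENNReal.ofReal (Real.exp (-poisson (lg U) z y)) with hHd
  have hLm : Measurable L := CC3.meas_sup μ' s (fun z y => gg la U z y ≤ m0)
    (fun z y => ENNReal.ofReal (Real.exp (-poisson (lg U) z y)))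
  have hle : ∀ x, cc μ' a c U x ≤ L x + H x := by
    intro x
    unfold cc
    refine iSup_le fun z => iSup_le fun y => iSup_le fun h => ?_
    obtain ⟨q1, q2, q3, q4⟩ := h
    have hy : y ≤ s := by
      have : 2 * μ' * y ≤ c - a := by linarith
      have h5 : y ≤ 1 / (2 * μ') * (c - a) := by
        rw [div_mul_eq_mul_div, one_mul, le_div_iff₀ (by positivity)]
        linarith
      exact h5.trans (mul_le_mul_of_nonneg_right hK2 hca.le)
    by_cases hg : gg la U z y ≤ m0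
    · refine le_trans ?_ le_self_add
      exact le_iSup_of_le z (le_iSup_of_le y (le_iSup_of_le ⟨q1, hy, q2, hg⟩ le_rfl))
    · refine le_trans ?_ le_add_self
      exact le_iSup_of_le z (le_iSup_of_le y (le_iSup_of_le ⟨q1, hy, q2, not_le.1 hg⟩ le_rfl))
  have hUm : AEMeasurable (fun x => ENNReal.ofReal (U x)) (volume.restrict (Icc a c)) :=
    (hW.1.2.aestronglyMeasurable.aemeasurable.ennreal_ofReal).restrict
  calc ∫⁻ x in Icc a c, cc μ' a c U x * ENNReal.ofReal (U x)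
      ≤ ∫⁻ x in Icc a c, (L x * ENNReal.ofReal (U x) + H x * ENNReal.ofReal (U x)) := by
        refine lintegral_mono fun x => ?_
        rw [← add_mul]
        exact mul_le_mul_left (hle x) _
    _ = (∫⁻ x in Icc a c, L x * ENNReal.ofReal (U x)) +
          (∫⁻ x in Icc a c, H x * ENNReal.ofReal (U x)) :=
        lintegral_add_left' (hLm.aemeasurable.mul hUm) _
    _ ≤ (∫⁻ x in Icc a (a + s), L x * ENNReal.ofReal (U x)) +
          (∫⁻ x in Icc a (a + s), H x * ENNReal.ofReal (U x)) :=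
        add_le_add (lintegral_mono_set (Icc_subset_Icc_right hcs))
          (lintegral_mono_set (Icc_subset_Icc_right hcs))
    _ ≤ C2 * ENNReal.ofReal s + C1 * ENNReal.ofReal s :=
        add_le_add (hC2 a s hs0) (hC1 a s hs0)
    _ = ((C2 + C1) * K.toNNReal : ℝ≥0) * ENNReal.ofReal (c - a) := by
        rw [hs, ENNReal.ofReal_mul (by linarith), ← add_mul, ENNReal.coe_mul, ENNReal.coe_add,
          mul_assoc]
        rfl

end Pool.Agent.Work.MP_055a27_an.Cr3

end

section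

/-!
# Cauchy Schwarz on a vertical segment
-/

open MeasureTheory Set Filter Topology Complex Metric
open scoped ENNReal NNReal

namespace Pool.Agent.Work.MP_055a27_an.Cr3

namespace CS

lemma dvert {v : ℝ → ℝ} (hv : Admissible v) (x : ℝ) {t : ℝ} (ht : 0 < t) :
    HasDerivAt (fun s : ℝ => poisson v x s)
      (-(deriv (schw v) ((x : ℂ) + (t : ℂ) * I)).im) t := by
  have him : 0 < ((x : ℂ) + (t : ℂ) * I).im := by simpa using ht
  have hF := (hasDerivAt_schw hv him).differentiableAt.hasDerivAt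
  set F' := deriv (schw v) ((x : ℂ) + (t : ℂ) * I) with hF'
  have h2 : HasDerivAt (fun s : ℝ => schw v ((x : ℂ) + s * I)) (F' * I) t := by
    have h3 : HasDerivAt (fun s : ℂ => (x : ℂ) + s * I) I (t : ℂ) := by
      simpa using ((hasDerivAt_id (t : ℂ)).mul_const I).const_add (x : ℂ)
    have h4 := hF.comp (t : ℂ) h3
    exact h4.comp_ofReal
  have h5 := Complex.reCLM.hasFDerivAt.comp_hasDerivAt t h2
  have h6 : (F' * I).re = -F'.im := by simp
  refine HasDerivAt.congr_of_eventuallyEq (f := fun s : ℝ => (schw v ((x : ℂ) + s * I)).re) ?_ ?_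
  · rw [← h6]
    exact h5
  · filter_upwards [eventually_gt_nhds ht] with s hs
    exact poisson_eq_re hv hs

lemma contG {v : ℝ → ℝ} (hv : Admissible v) (x : ℝ) :
    ContinuousOn (fun t : ℝ => deriv (schw v) ((x : ℂ) + (t : ℂ) * I)) (Ioi 0) := by
  have h1 : DifferentiableOn ℂ (deriv (schw v)) uhp := (schw_diff hv).deriv isOpen_uhp
  refine h1.continuousOn.comp (by fun_prop) ?_
  intro t ht
  show 0 < ((x : ℂ) + (t : ℂ) * I).im
  simpa using ht

end CS

open CS in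
theorem stCS : StCS := by
  intro v x y y' hv hy hyy hlog
  set G : ℝ → ℂ := fun t => deriv (schw v) ((x : ℂ) + (t : ℂ) * I) with hG
  have hsub : uIcc y y' ⊆ Ioi 0 := by
    rw [uIcc_of_le hyy.le]
    intro t ht
    exact hy.trans_le ht.1
  have hsub' : Icc y y' ⊆ Ioi 0 := by rw [← uIcc_of_le hyy.le]; exact hsub
  have hGc : ContinuousOn G (Ioi 0) := contG hv x
  have hinv : ContinuousOn (fun t : ℝ => 1 / t) (Icc y y') :=
    continuousOn_const.div continuousOn_id (fun t ht => (hsub' ht).ne')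
  have hsq : ContinuousOn (fun t : ℝ => t * ‖G t‖ ^ 2) (Icc y y') :=
    continuousOn_id.mul ((hGc.mono hsub').norm.pow 2)
  have hder : ContinuousOn (fun t : ℝ => -(G t).im) (Icc y y') :=
    (Complex.continuous_im.comp_continuousOn (hGc.mono hsub')).neg
  -- the two integrals
  have hi1 : IntervalIntegrable (fun t : ℝ => 1 / t) volume y y' :=
    hinv.intervalIntegrable_of_Icc hyy.le
  have hi2 : IntervalIntegrable (fun t : ℝ => t * ‖G t‖ ^ 2) volume y y' :=
    hsq.intervalIntegrable_of_Icc hyy.le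
  have hi3 : IntervalIntegrable (fun t : ℝ => -(G t).im) volume y y' :=
    hder.intervalIntegrable_of_Icc hyy.le
  have e1 : ∫ t in y..y', 1 / t = Real.log (y' / y) := by
    rw [integral_one_div_of_pos hy (hy.trans hyy)]
  have e3 : ∫ t in y..y', -(G t).im = poisson v x y' - poisson v x y := by
    refine intervalIntegral.integral_eq_sub_of_hasDerivAt (f := fun s => poisson v x s) ?_ hi3
    intro t ht
    exact dvert hv x (hsub ht)
  have hle : ∫ t in y..y', (2 * (-(G t).im) - 1 / t) ≤ ∫ t in y..y', t * ‖G t‖ ^ 2 := by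
    refine intervalIntegral.integral_mono_on hyy.le ((hi3.const_mul 2).sub hi1) hi2 ?_
    intro t ht
    have ht0 : 0 < t := hsub' ht
    have h1 : (G t).im ^ 2 ≤ ‖G t‖ ^ 2 := by
      rw [← sq_abs (G t).im]
      exact pow_le_pow_left₀ (abs_nonneg _) (Complex.abs_im_le_norm _) 2
    have h2 : 2 * (-(G t).im) - 1 / t ≤ t * (G t).im ^ 2 := by
      have h3 : 0 ≤ t * ((G t).im + 1 / t) ^ 2 := by positivity
      have h4 : t * ((G t).im + 1 / t) ^ 2 = t * (G t).im ^ 2 + 2 * (G t).im + 1 / t := by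
        field_simp
        ring
      linarith
    exact h2.trans (mul_le_mul_of_nonneg_left h1 ht0.le)
  rw [intervalIntegral.integral_sub (hi3.const_mul 2) hi1, intervalIntegral.integral_const_mul,
    e1, e3] at hle
  have hfin : ∫ t in y..y', 1 / t ≤ ∫ t in y..y', t * ‖G t‖ ^ 2 := by
    rw [e1]; linarith
  rw [intervalIntegral.integral_of_le hyy.le, intervalIntegral.integral_of_le hyy.le] at hfin
  have hn1 : ∀ᵐ t ∂(volume.restrict (Ioc y y')), 0 ≤ 1 / t := by
    filter_upwards [ae_restrict_mem measurableSet_Ioc] with t ht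
    have : 0 < t := hy.trans ht.1
    positivity
  have hn2 : ∀ᵐ t ∂(volume.restrict (Ioc y y')), 0 ≤ t * ‖G t‖ ^ 2 := by
    filter_upwards [ae_restrict_mem measurableSet_Ioc] with t ht
    have : 0 < t := hy.trans ht.1
    positivity
  rw [← ofReal_integral_eq_lintegral_ofReal hi1.1 hn1]
  have e2 : ∫⁻ t in Ioc y y', ENNReal.ofReal (t * gsq (schw v) (x, t)) =
      ENNReal.ofReal (∫ t in Ioc y y', t * ‖G t‖ ^ 2) := by
    rw [ofReal_integral_eq_lintegral_ofReal hi2.1 hn2]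
    rfl
  rw [e2]
  exact ENNReal.ofReal_le_ofReal hfin

end Pool.Agent.Work.MP_055a27_an.Cr3

end

section

/-!
# Comparison of the weight and its level sets
-/

open MeasureTheory Set Filter Topology Complex Metric
open scoped ENNReal NNReal

namespace Pool.Agent.Work.MP_055a27_an.Cr3

open Crit (lg cc CC Pk hU)
open Nv (mx)

namespace CZ

/-- The weight (or a measurable version `V`) cut off to an interval. -/
noncomputable def cut (s1 s2 : ℝ) (V : ℝ → ℝ) : ℝ → ℝ≥0∞ :=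
  (Icc s1 s2).indicator (fun t => ENNReal.ofReal (V t))

lemma lint {U V : ℝ → ℝ} (hU : IsWeight U) (hV : U =ᵐ[volume] V) {s1 s2 p q : ℝ}
    (h : Icc p q ⊆ Icc s1 s2) :
    ∫⁻ t in Icc p q, cut s1 s2 V t = ENNReal.ofReal (∫ t in Icc p q, U t) := by
  have hi : IntegrableOn U (Icc p q) volume :=
    hU.2.integrableOn_isCompact isCompact_Icc
  rw [ofReal_integral_eq_lintegral_ofReal hi (Eventually.of_forall fun x => hU.1 x)]
  refine lintegral_congr_ae ?_
  filter_upwards [ae_restrict_of_ae hV, ae_restrict_mem measurableSet_Icc] with t ht hm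
  rw [cut, indicator_of_mem (h hm), ht]

lemma lint_all {U V : ℝ → ℝ} (hU : IsWeight U) (hV : U =ᵐ[volume] V) (s1 s2 : ℝ) :
    ∫⁻ t, cut s1 s2 V t = ENNReal.ofReal (∫ t in Icc s1 s2, U t) := by
  rw [← lint hU hV (Subset.refl (Icc s1 s2)), cut, lintegral_indicator measurableSet_Icc,
    setLIntegral_indicator measurableSet_Icc, inter_self]

lemma anti {f : ℝ → ℝ≥0∞} {a b : ℝ≥0∞} (h : a ≤ b) : OO f b ⊆ OO f a := by
  rintro x ⟨p, q, h1, h2, h3⟩
  exact ⟨p, q, h1, h2, lt_of_le_of_lt (mul_le_mul_left h _) h3⟩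

lemma exists_notMem {O : Set ℝ} {p q : ℝ} (h : volume O < ENNReal.ofReal (q - p)) :
    ∃ x ∈ Icc p q, x ∉ O := by
  by_contra hc
  push Not at hc
  have h1 : volume (Icc p q) ≤ volume O := measure_mono hc
  rw [Real.volume_Icc] at h1
  exact absurd h (not_lt.2 h1)

lemma comps {O : Set ℝ} (hO : IsOpen O) {p q : ℝ} (hp : p ∉ O) (hq : q ∉ O) :
    ∃ (ι : Type) (_ : Countable ι) (A B : ι → ℝ), (∀ i, A i < B i) ∧
      O ∩ Ioo p q = ⋃ i, Ioo (A i) (B i) ∧
      Pairwise (fun i j => Disjoint (Ioo (A i) (B i)) (Ioo (A j) (B j))) ∧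
      ∀ i, A i ∉ O ∧ B i ∉ O ∧ p ≤ A i ∧ B i ≤ q ∧ Ioo (A i) (B i) ⊆ O := by
  obtain ⟨ι, hι, A, B, hAB, hU, hd, -⟩ := Crit.stComps (O ∩ Ioo p q) (hO.inter isOpen_Ioo)
    (ne_top_of_le_ne_top (by rw [Real.volume_Ioo]; exact ENNReal.ofReal_ne_top)
      (measure_mono inter_subset_right))
  refine ⟨ι, hι, A, B, hAB, hU, hd, fun i => ?_⟩
  have h1 : Ioo (A i) (B i) ⊆ O ∩ Ioo p q := by
    rw [hU]
    exact subset_iUnion (fun i => Ioo (A i) (B i)) i
  obtain ⟨h2, h3⟩ := (Ioo_subset_Ioo_iff (hAB i)).1 (h1.trans inter_subset_right)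
  have h4 := hAB i
  refine ⟨?_, ?_, h2, h3, h1.trans inter_subset_left⟩
  · intro hA
    have h5 : p ≠ A i := fun h => hp (h ▸ hA)
    have h6 : A i ∈ O ∩ Ioo p q := ⟨hA, lt_of_le_of_ne h2 h5, by linarith⟩
    rw [hU] at h6
    obtain ⟨j, hj⟩ := mem_iUnion.1 h6
    have hij : i ≠ j := by
      rintro rfl
      exact lt_irrefl _ hj.1
    have h7 := hd hij
    have h8 : A i < min (B i) (B j) := lt_min h4 hj.2
    have h9 := min_le_left (B i) (B j)
    have h10 := min_le_right (B i) (B j)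
    have h11 := hj.1
    have h12 : (A i + min (B i) (B j)) / 2 ∈ Ioo (A i) (B i) := ⟨by linarith, by linarith⟩
    have h13 : (A i + min (B i) (B j)) / 2 ∈ Ioo (A j) (B j) := ⟨by linarith, by linarith⟩
    exact Set.disjoint_left.1 h7 h12 h13
  · intro hB
    have h5 : B i ≠ q := fun h => hq (h ▸ hB)
    have h6 : B i ∈ O ∩ Ioo p q := ⟨hB, by linarith, lt_of_le_of_ne h3 h5⟩
    rw [hU] at h6
    obtain ⟨j, hj⟩ := mem_iUnion.1 h6
    have hij : i ≠ j := by
      rintro rfl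
      exact lt_irrefl _ hj.2
    have h7 := hd hij
    have h8 : max (A i) (A j) < B i := max_lt h4 hj.1
    have h9 := le_max_left (A i) (A j)
    have h10 := le_max_right (A i) (A j)
    have h11 := hj.2
    have h12 : (B i + max (A i) (A j)) / 2 ∈ Ioo (A i) (B i) := ⟨by linarith, by linarith⟩
    have h13 : (B i + max (A i) (A j)) / 2 ∈ Ioo (A j) (B j) := ⟨by linarith, by linarith⟩
    exact Set.disjoint_left.1 h7 h12 h13

/-- The lower bound of the kernel on the shadow. -/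
lemma kern {la r x t : ℝ} (hla : 0 < la) (hr : 0 < r) (ht : |t - x| ≤ r) (n : ℕ) :
    la / ((la ^ 2 + 1) ^ (n + 1) * r) ≤
      (r / la) ^ (2 * n + 1) / ((t - x) ^ 2 + (r / la) ^ 2) ^ (n + 1) := by
  have h0 : 0 < r / la := div_pos hr hla
  have h1 : (t - x) ^ 2 + (r / la) ^ 2 ≤ (la ^ 2 + 1) * (r / la) ^ 2 := by
    have h2 : (t - x) ^ 2 ≤ r ^ 2 := by
      rw [← sq_abs]
      exact pow_le_pow_left₀ (abs_nonneg _) ht 2
    have h3 : (la ^ 2 + 1) * (r / la) ^ 2 = r ^ 2 + (r / la) ^ 2 := by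
      field_simp
    rw [h3]
    linarith
  have h4 : 0 < (t - x) ^ 2 + (r / la) ^ 2 := by positivity
  have h5 : ((t - x) ^ 2 + (r / la) ^ 2) ^ (n + 1) ≤ ((la ^ 2 + 1) * (r / la) ^ 2) ^ (n + 1) :=
    pow_le_pow_left₀ h4.le h1 _
  have h6 : la / ((la ^ 2 + 1) ^ (n + 1) * r) =
      (r / la) ^ (2 * n + 1) / ((la ^ 2 + 1) * (r / la) ^ 2) ^ (n + 1) := by
    have h7 : ((la ^ 2 + 1) * (r / la) ^ 2) ^ (n + 1) =
        (la ^ 2 + 1) ^ (n + 1) * ((r / la) ^ (2 * n + 1) * (r / la)) := by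
      rw [mul_pow, ← pow_succ, ← pow_mul]
      ring_nf
    rw [h7]
    have h8 : (0 : ℝ) < (la ^ 2 + 1) ^ (n + 1) := by positivity
    have h9 : (0 : ℝ) < (r / la) ^ (2 * n + 1) := by positivity
    rw [div_eq_div_iff (by positivity) (by positivity)]
    field_simp
  rw [h6]
  exact div_le_div_of_nonneg_left (by positivity) (by positivity) h5

/-- The weight is large on a large part of a stopping interval. -/
lemma big {U : ℝ → ℝ} (hU0 : ∀ᵐ x, 0 < U x) (hm : AEStronglyMeasurable (lg U) volume)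
    {x r la κ L : ℝ} {n : ℕ} {D : ℝ} (hla : 0 < la) (hr : 0 < r) (hκ : 0 < κ)
    (hD : D * (la ^ 2 + 1) ^ (n + 1) ≤ κ * la)
    (hL : ∫⁻ t, ENNReal.ofReal (|lg U t - L| *
      ((r / la) ^ (2 * n + 1) / ((t - x) ^ 2 + (r / la) ^ 2) ^ (n + 1))) ≤ ENNReal.ofReal D) :
    ENNReal.ofReal r ≤
      volume (Ioo (x - r) (x + r) ∩ {t | Real.exp (L - κ) ≤ U t}) := by
  set c : ℝ := la / ((la ^ 2 + 1) ^ (n + 1) * r) with hc
  have hc0 : 0 < c := by positivity
  set S : Set ℝ := Ioo (x - r) (x + r) with hS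
  set g : ℝ → ℝ≥0∞ := fun t => ENNReal.ofReal |lg U t - L| with hg
  have hgm : AEMeasurable g volume :=
    ENNReal.measurable_ofReal.comp_aemeasurable
      ((hm.aemeasurable.sub_const L).abs)
  have h1 : ENNReal.ofReal c * ∫⁻ t in S, g t ≤ ENNReal.ofReal D := by
    rw [← lintegral_const_mul' _ _ ENNReal.ofReal_ne_top]
    refine le_trans ?_ (le_trans (setLIntegral_le_lintegral S _) hL)
    refine setLIntegral_mono' measurableSet_Ioo fun t ht => ?_
    rw [hg]
    simp only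
    rw [mul_comm, ← ENNReal.ofReal_mul (abs_nonneg _)]
    refine ENNReal.ofReal_le_ofReal (mul_le_mul_of_nonneg_left ?_ (abs_nonneg _))
    exact kern hla hr (abs_le.2 ⟨by linarith [ht.1], by linarith [ht.2]⟩) n
  have h2 : ∫⁻ t in S, g t ≤ ENNReal.ofReal (κ * r) := by
    have h3 : ∫⁻ t in S, g t ≤ ENNReal.ofReal D / ENNReal.ofReal c := by
      rw [ENNReal.le_div_iff_mul_le (Or.inl (by simpa using hc0)) (Or.inl ENNReal.ofReal_ne_top),
        mul_comm]
      exact h1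
    refine h3.trans ?_
    rw [← ENNReal.ofReal_div_of_pos hc0]
    refine ENNReal.ofReal_le_ofReal ?_
    rw [div_le_iff₀ hc0, hc]
    have h4 : κ * r * (la / ((la ^ 2 + 1) ^ (n + 1) * r)) = κ * la / (la ^ 2 + 1) ^ (n + 1) := by
      field_simp
    rw [h4, le_div_iff₀ (by positivity)]
    exact hD
  have h5 : (volume.restrict S) {t | ENNReal.ofReal κ ≤ g t} ≤ ENNReal.ofReal r := by
    have h6 := mul_meas_ge_le_lintegral₀ (hgm.restrict (s := S)) (ENNReal.ofReal κ)
    have h7 := h6.trans h2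
    rw [ENNReal.ofReal_mul hκ.le] at h7
    exact (ENNReal.mul_le_mul_iff_right (by simpa using hκ) ENNReal.ofReal_ne_top).1 h7
  have h8 : (volume.restrict S) univ ≤ (volume.restrict S) {t | ENNReal.ofReal κ ≤ g t} +
      (volume.restrict S) {t | Real.exp (L - κ) ≤ U t} := by
    refine le_trans (measure_mono_ae ?_) (measure_union_le _ _)
    filter_upwards [ae_restrict_of_ae hU0] with t ht _
    by_cases h9 : ENNReal.ofReal κ ≤ g t
    · exact Or.inl h9
    · right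
      have h10 : |lg U t - L| < κ := by
        by_contra h11
        exact h9 (ENNReal.ofReal_le_ofReal (not_lt.1 h11))
      have h11 := (abs_lt.1 h10).1
      show Real.exp (L - κ) ≤ U t
      rw [← Real.exp_log ht]
      refine Real.exp_le_exp.2 ?_
      have h12 : lg U t = Real.log (U t) := rfl
      linarith
  have h13 : (volume.restrict S) univ = ENNReal.ofReal r + ENNReal.ofReal r := by
    rw [Measure.restrict_apply_univ, hS, Real.volume_Ioo, ← ENNReal.ofReal_add hr.le hr.le]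
    congr 1
    ring
  have h14 : (volume.restrict S) {t | Real.exp (L - κ) ≤ U t} =
      volume (S ∩ {t | Real.exp (L - κ) ≤ U t}) := by
    rw [Measure.restrict_apply' measurableSet_Ioo, inter_comm]
  rw [← h14]
  have h15 := h13 ▸ h8
  have h16 : ENNReal.ofReal r + ENNReal.ofReal r ≤
      ENNReal.ofReal r + (volume.restrict S) {t | Real.exp (L - κ) ≤ U t} :=
    h15.trans (add_le_add_left h5 _)
  exact (ENNReal.add_le_add_iff_left ENNReal.ofReal_ne_top).1 h16

/-- One stopping interval. -/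
lemma stop {U V : ℝ → ℝ} {la1 la μ z y a x r Cb CL κ : ℝ} {n : ℕ} (hH : Hyp la μ U)
    (hV : U =ᵐ[volume] V) (hla1 : la1 < la) (hy : 0 < y) (hr : 0 < r)
    (hBas1 : ∀ z y : ℝ, 0 < y → 0 < avg la U z y)
    (hA : ∀ p q w : ℝ, p < q → p ≤ w → w ≤ q → w ∉ OO (cut (z - la * y) (z + la * y) V)
      (ENNReal.ofReal (Real.exp a)) → ∫⁻ t in Icc p q, cut (z - la * y) (z + la * y) V t ≤
        ENNReal.ofReal (Real.exp a) * ENNReal.ofReal (q - p))
    (hB : ∀ p q : ℝ, p < q → Ioo p q ⊆ OO (cut (z - la * y) (z + la * y) V)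
      (ENNReal.ofReal (Real.exp a)) → p ∉ OO (cut (z - la * y) (z + la * y) V)
      (ENNReal.ofReal (Real.exp a)) → q ∉ OO (cut (z - la * y) (z + la * y) V)
      (ENNReal.ofReal (Real.exp a)) → ENNReal.ofReal (Real.exp a) / 5 * ENNReal.ofReal (q - p) ≤
        ∫⁻ t in Icc p q, cut (z - la * y) (z + la * y) V t)
    (hb : ∀ z y x r a : ℝ, 0 < y → 0 < r → |x - z| ≤ la * y → poisson (lg U) z y ≤ a →
      LL la U z y ≤ a → r ≤ 3 * y * Real.exp (LL la U z y - a) →
      (∀ ρ : ℝ, r ≤ ρ → ρ ≤ (la - la1) * y →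
        ∫ t in Icc (x - ρ) (x + ρ), U t ≤ 2 * ρ * Real.exp a) →
      poisson (lg U) x (r / la) ≤ a + Cb)
    (hL : ∀ z y m : ℝ, Rt la U z y m →
      ∫⁻ t, ENNReal.ofReal (|lg U t - LL la U z y| *
        (y ^ (2 * n + 1) / ((t - z) ^ 2 + y ^ 2) ^ (n + 1))) ≤ ENNReal.ofReal (CL * m))
    (hCL : 1 ≤ CL)
    (hκ : κ = CL * (1 + |Cb| + |Real.log (2 * la / 5)|) * (la ^ 2 + 1) ^ (n + 1) / la)
    (ha1 : poisson (lg U) z y ≤ a) (ha2 : LL la U z y ≤ a)
    (hx1 : z - la1 * y ≤ x - r) (hx2 : x + r ≤ z + la1 * y)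
    (hO : Ioo (x - r) (x + r) ⊆ OO (cut (z - la * y) (z + la * y) V)
      (ENNReal.ofReal (Real.exp a)))
    (hO1 : x - r ∉ OO (cut (z - la * y) (z + la * y) V) (ENNReal.ofReal (Real.exp a)))
    (hO2 : x + r ∉ OO (cut (z - la * y) (z + la * y) V) (ENNReal.ofReal (Real.exp a))) :
    ENNReal.ofReal r ≤ volume (Ioo (x - r) (x + r) ∩
      {t | 2 * la / 5 * Real.exp (-κ) * Real.exp a ≤ U t}) := by
  obtain ⟨hla, -, hW, -⟩ := hH
  have hU := hW.1
  have hsub : ∀ ρ : ℝ, ρ ≤ (la - la1) * y →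
      Icc (x - ρ) (x + ρ) ⊆ Icc (z - la * y) (z + la * y) := by
    intro ρ hρ
    refine Icc_subset_Icc ?_ ?_
    · nlinarith
    · nlinarith
  have hxz : |x - z| ≤ la * y := by
    have : la1 * y ≤ la * y := mul_le_mul_of_nonneg_right hla1.le hy.le
    refine abs_le.2 ⟨by linarith, by linarith⟩
  have hsub0 : Icc (x - r) (x + r) ⊆ Icc (z - la * y) (z + la * y) := by
    have : la1 * y ≤ la * y := mul_le_mul_of_nonneg_right hla1.le hy.le
    exact Icc_subset_Icc (by linarith) (by linarith)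
  have he : ∫ t in Icc (z - la * y) (z + la * y), U t = y * Real.exp (LL la U z y) := by
    rw [LL, Real.exp_log (hBas1 z y hy), avg]
    field_simp
  have hI0 : ∀ p q : ℝ, 0 ≤ ∫ t in Icc p q, U t := fun p q =>
    setIntegral_nonneg measurableSet_Icc fun t _ => hU.1 t
  -- the fourth part
  have h1 : Real.exp a / 5 * (2 * r) ≤ ∫ t in Icc (x - r) (x + r), U t := by
    have h := hB (x - r) (x + r) (by linarith) hO hO1 hO2
    rw [lint hU hV hsub0, show x + r - (x - r) = 2 * r by ring,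
      show (5 : ℝ≥0∞) = ENNReal.ofReal 5 by simp, ← ENNReal.ofReal_div_of_pos (by norm_num),
      ← ENNReal.ofReal_mul (by positivity)] at h
    exact (ENNReal.ofReal_le_ofReal_iff (hI0 _ _)).1 h
  have h2 : ∫ t in Icc (x - r) (x + r), U t ≤ y * Real.exp (LL la U z y) := by
    rw [← he]
    exact setIntegral_mono_set (hU.2.integrableOn_isCompact isCompact_Icc)
      (Eventually.of_forall fun t => hU.1 t) hsub0.eventuallyLE
  have h3 : r ≤ 3 * y * Real.exp (LL la U z y - a) := by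
    rw [Real.exp_sub]
    have h4 := h1.trans h2
    have h5 : 0 < Real.exp a := Real.exp_pos a
    have h6 : 0 < Real.exp (LL la U z y) := Real.exp_pos _
    rw [← mul_div_assoc, le_div_iff₀ h5]
    nlinarith
  have h4 : ∀ ρ : ℝ, r ≤ ρ → ρ ≤ (la - la1) * y →
      ∫ t in Icc (x - ρ) (x + ρ), U t ≤ 2 * ρ * Real.exp a := by
    intro ρ hρ1 hρ2
    have hρ0 : 0 < ρ := by linarith
    have h := hA (x - ρ) (x + ρ) (x - r) (by linarith) (by linarith) (by linarith) hO1
    rw [lint hU hV (hsub ρ hρ2), show x + ρ - (x - ρ) = 2 * ρ by ring,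
      ← ENNReal.ofReal_mul (Real.exp_pos a).le,
      ENNReal.ofReal_le_ofReal_iff (by positivity)] at h
    linarith
  have h5 := hb z y x r a hy hr hxz ha1 ha2 h3 h4
  have hrl : 0 < r / la := div_pos hr hla
  have h6 : 2 * la / 5 * Real.exp a ≤ avg la U x (r / la) := by
    rw [avg, le_div_iff₀ hrl, show la * (r / la) = r by field_simp]
    have h7 : 2 * la / 5 * Real.exp a * (r / la) = Real.exp a / 5 * (2 * r) := by
      field_simp
    rw [h7]
    exact h1
  have h7 : Real.log (2 * la / 5) + a ≤ LL la U x (r / la) := by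
    rw [LL, ← Real.log_exp a, ← Real.log_mul (by positivity) (by positivity)]
    exact Real.log_le_log (by positivity) h6
  have hm1 : 1 ≤ 1 + |Cb| + |Real.log (2 * la / 5)| := by
    have := abs_nonneg Cb
    have := abs_nonneg (Real.log (2 * la / 5))
    linarith
  have h8 : Rt la U x (r / la) (1 + |Cb| + |Real.log (2 * la / 5)|) := by
    refine ⟨hrl, hm1, ?_⟩
    have h9 := le_abs_self Cb
    have h10 := neg_abs_le (Real.log (2 * la / 5))
    rw [gg]
    linarith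
  have h9 := hL x (r / la) _ h8
  have hκ0 : 0 < κ := by
    rw [hκ]
    have : 0 < CL := by linarith
    have : 0 < 1 + |Cb| + |Real.log (2 * la / 5)| := by linarith
    positivity
  have h10 := big hW.2.1 (Real.measurable_log.comp_aemeasurable
      hU.2.aestronglyMeasurable.aemeasurable).aestronglyMeasurable hla hr hκ0
    (le_of_eq (by rw [hκ]; field_simp)) h9
  refine h10.trans (measure_mono (inter_subset_inter_right _ fun t ht => ?_))
  have h11 : 2 * la / 5 * Real.exp (-κ) * Real.exp a ≤ Real.exp (LL la U x (r / la) - κ) := by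
    rw [sub_eq_add_neg, Real.exp_add]
    have h12 : 2 * la / 5 * Real.exp a ≤ Real.exp (LL la U x (r / la)) := by
      refine le_trans (le_of_eq ?_) (Real.exp_le_exp.2 h7)
      rw [Real.exp_add, Real.exp_log (by positivity)]
    nlinarith [Real.exp_pos (-κ)]
  exact h11.trans ht

end CZ

theorem stCZ (hBas : StBas) (_hJen : StJen) (hLS : StLS) (hCZa : StCZa) (hCZb : StCZb) :
    StCZ := by
  intro lam la μ U hlam hll hH
  have hH' := hH
  obtain ⟨hla, hlaμ, hW, hSh⟩ := hH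
  have hU := hW.1
  obtain ⟨CB, hCB1, hCB⟩ := hBas.2.2 la μ U hH'
  obtain ⟨n, hn⟩ := hLS la μ U hH'
  obtain ⟨CL, hCL1, hCL⟩ := hn n le_rfl
  set la1 : ℝ := (lam + la) / 2 with hla1
  have h1 : lam < la1 := by rw [hla1]; linarith
  have h2 : la1 < la := by rw [hla1]; linarith
  obtain ⟨Cb, hCb1, hCb⟩ := hCZb la μ U hH' (la - la1) (by linarith)
  have hd : 0 < la1 - lam := by linarith
  set κ : ℝ := CL * (1 + |Cb| + |Real.log (2 * la / 5)|) * (la ^ 2 + 1) ^ (n + 1) / la with hκ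
  set γ : ℝ := min 1 (2 * la / 5 * Real.exp (-κ)) with hγ
  have hγ0 : 0 < γ := lt_min one_pos (by positivity)
  set C0 : ℝ := Real.exp CB * (1 + 5 / (la1 - lam)) with hC0
  have hC0' : Real.exp CB ≤ C0 := by
    rw [hC0]
    have : 0 ≤ 5 / (la1 - lam) := by positivity
    nlinarith [Real.exp_pos CB]
  have hC01 : 1 ≤ C0 := le_trans (Real.one_le_exp (by linarith)) hC0'
  refine ⟨C0, 2, γ, hC01, by norm_num, hγ0, min_le_left _ _, fun z y hy => ?_⟩
  obtain ⟨V, hVm, hV⟩ := hU.2.aestronglyMeasurable.aemeasurable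
  set f := CZ.cut (z - la * y) (z + la * y) V with hf
  have hfm : Measurable f :=
    (ENNReal.measurable_ofReal.comp hVm).indicator measurableSet_Icc
  have hfi : ∫⁻ t, f t = ENNReal.ofReal (∫ t in Icc (z - la * y) (z + la * y), U t) :=
    CZ.lint_all hU hV _ _
  have hfi' : ∫⁻ t, f t ≠ ∞ := by rw [hfi]; exact ENNReal.ofReal_ne_top
  have he : ∫ t in Icc (z - la * y) (z + la * y), U t = y * Real.exp (LL la U z y) := by
    rw [LL, Real.exp_log (hBas.1 la U z y hla hy hW), avg]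
    field_simp
  have hL0 : LL la U z y ≤ poisson (lg U) z y + CB := by
    have h := hCB z y z y hy hy (by
      rw [sub_self, abs_zero, zero_add]
      exact mul_le_mul_of_nonneg_right hlaμ.le hy.le)
    rwa [div_self hy.ne', Real.log_one, add_zero] at h
  set h0 : ℝ := poisson (lg U) z y with hh0
  set Λ0 : ℝ := C0 * Real.exp h0 with hΛ0
  have hΛ0p : 0 < Λ0 := by positivity
  have hvol : volume (OO f (ENNReal.ofReal Λ0)) < ENNReal.ofReal ((la1 - lam) * y) := by
    obtain ⟨-, h, -⟩ := hCZa f hfm hfi' (ENNReal.ofReal Λ0) (by simpa using hΛ0p)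
      ENNReal.ofReal_ne_top
    refine lt_of_le_of_lt h ?_
    rw [hfi, he, show (5 : ℝ≥0∞) = ENNReal.ofReal 5 by simp, ← ENNReal.ofReal_div_of_pos hΛ0p,
      ← ENNReal.ofReal_mul (by positivity)]
    refine (ENNReal.ofReal_lt_ofReal_iff (by positivity)).2 ?_
    have h3 : Real.exp (LL la U z y) ≤ Real.exp CB * Real.exp h0 := by
      rw [← Real.exp_add]
      exact Real.exp_le_exp.2 (by linarith)
    have h4 : 5 / Λ0 * (y * Real.exp (LL la U z y)) ≤
        5 / Λ0 * (y * (Real.exp CB * Real.exp h0)) := by gcongr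
    refine lt_of_le_of_lt h4 ?_
    rw [hΛ0, hC0]
    have h5 : 5 / (Real.exp CB * (1 + 5 / (la1 - lam)) * Real.exp h0) *
        (y * (Real.exp CB * Real.exp h0)) = 5 / (1 + 5 / (la1 - lam)) * y := by
      field_simp
    rw [h5]
    refine mul_lt_mul_of_pos_right ?_ hy
    rw [div_lt_iff₀ (by positivity), mul_add, mul_one, mul_div_cancel₀ _ hd.ne']
    linarith
  obtain ⟨a', ha', haO⟩ := CZ.exists_notMem (p := z - la1 * y) (q := z - lam * y)
    (O := OO f (ENNReal.ofReal Λ0)) (lt_of_lt_of_le hvol (ENNReal.ofReal_le_ofReal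
      (le_of_eq (by ring))))
  obtain ⟨c', hc', hcO⟩ := CZ.exists_notMem (p := z + lam * y) (q := z + la1 * y)
    (O := OO f (ENNReal.ofReal Λ0)) (lt_of_lt_of_le hvol (ENNReal.ofReal_le_ofReal
      (le_of_eq (by ring))))
  have hla1y : la1 * y ≤ la * y := mul_le_mul_of_nonneg_right h2.le hy.le
  refine ⟨a', c', by linarith [ha'.1], ha'.2, hc'.1, by linarith [hc'.2], fun Λ hΛ => ?_⟩
  have hΛp : 0 < Λ := lt_of_lt_of_le hΛ0p hΛ
  set a : ℝ := Real.log Λ with ha
  have hea : Real.exp a = Λ := Real.exp_log hΛp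
  have ha1 : h0 ≤ a := by
    rw [ha, Real.le_log_iff_exp_le hΛp]
    refine le_trans ?_ hΛ
    nlinarith [Real.exp_pos h0]
  have ha2 : LL la U z y ≤ a := by
    rw [ha, Real.le_log_iff_exp_le hΛp]
    refine le_trans ?_ hΛ
    refine le_trans (Real.exp_le_exp.2 hL0) ?_
    rw [Real.exp_add, mul_comm, hΛ0]
    exact mul_le_mul_of_nonneg_right hC0' (Real.exp_pos _).le
  obtain ⟨hOo, hOv, hA, hB, hD⟩ := hCZa f hfm hfi' (ENNReal.ofReal Λ) (by simpa using hΛp)
      ENNReal.ofReal_ne_top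
  set O := OO f (ENNReal.ofReal Λ) with hO
  have hsubO : O ⊆ OO f (ENNReal.ofReal Λ0) := CZ.anti (ENNReal.ofReal_le_ofReal hΛ)
  have haO' : a' ∉ O := fun h => haO (hsubO h)
  have hcO' : c' ∉ O := fun h => hcO (hsubO h)
  obtain ⟨ι, hι, A, B, hAB, hUn, hdis, hAB'⟩ := CZ.comps hOo haO' hcO'
  -- reduction to the open set
  have h3 : ∫⁻ x in Ioo a' c' ∩ {x | Λ < U x}, ENNReal.ofReal (U x) ≤
      ∫⁻ x in O ∩ Ioo a' c', ENNReal.ofReal (U x) := by
    refine lintegral_mono' (Measure.restrict_mono_ae ?_) le_rfl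
    filter_upwards [hD, hV] with x hx hxV hx'
    refine ⟨?_, hx'.1⟩
    by_contra hxO
    have h4 := hx hxO
    have h5 : x ∈ Icc (z - la * y) (z + la * y) :=
      ⟨by linarith [hx'.1.1, ha'.1], by linarith [hx'.1.2, hc'.2]⟩
    rw [hf, CZ.cut, indicator_of_mem h5, ← hxV, ENNReal.ofReal_le_ofReal_iff hΛp.le] at h4
    exact absurd hx'.2 (not_lt.2 h4)
  refine h3.trans ?_
  rw [hUn, lintegral_iUnion (fun i => measurableSet_Ioo) hdis]
  have h4 : ∀ i, ∫⁻ x in Ioo (A i) (B i), ENNReal.ofReal (U x) ≤ ENNReal.ofReal (2 * Λ) *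
      volume (Ioo (A i) (B i) ∩ {x | γ * Λ ≤ U x}) := by
    intro i
    obtain ⟨hi1, hi2, hi3, hi4, hi5⟩ := hAB' i
    have hi0 := hAB i
    obtain ⟨x, hx⟩ : ∃ x, x = (A i + B i) / 2 := ⟨_, rfl⟩
    obtain ⟨r, hr⟩ : ∃ r, r = (B i - A i) / 2 := ⟨_, rfl⟩
    have hAi : A i = x - r := by rw [hx, hr]; ring
    have hBi : B i = x + r := by rw [hx, hr]; ring
    have hr0 : 0 < r := by rw [hr]; linarith
    rw [hAi] at hi1 hi3 hi5
    rw [hBi] at hi2 hi4 hi5
    rw [hAi, hBi]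
    have h5 := CZ.stop (U := U) (V := V) (la1 := la1) (la := la) (μ := μ) (z := z) (y := y)
      (a := a) (x := x) (r := r) (Cb := Cb) (CL := CL) (κ := κ) (n := n) hH' hV h2 hy hr0
      (fun z y hy => hBas.1 la U z y hla hy hW) (by rw [hea]; exact fun p q w => hA p q w)
      (by rw [hea]; exact hB) hCb (fun z y m => hCL z y m) hCL1 hκ ha1 ha2
      (by linarith [ha'.1]) (by linarith [hc'.2]) (by rw [hea]; exact hi5)
      (by rw [hea]; exact hi1) (by rw [hea]; exact hi2)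
    have h6 : ENNReal.ofReal r ≤ volume (Ioo (x - r) (x + r) ∩ {x | γ * Λ ≤ U x}) := by
      refine h5.trans (measure_mono (inter_subset_inter_right _ fun t ht => ?_))
      have h7 : 2 * la / 5 * Real.exp (-κ) * Real.exp a ≤ U t := ht
      rw [hea] at h7
      show γ * Λ ≤ U t
      refine le_trans (mul_le_mul_of_nonneg_right (min_le_right _ _) hΛp.le) h7
    refine le_trans ?_ (mul_le_mul_right h6 _)
    have h7 : ∫⁻ t in Ioo (x - r) (x + r), ENNReal.ofReal (U t) ≤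
        ∫⁻ t in Icc (x - r) (x + r), f t := by
      have h8 : Icc (x - r) (x + r) ⊆ Icc (z - la * y) (z + la * y) :=
        Icc_subset_Icc (by linarith [ha'.1]) (by linarith [hc'.2])
      rw [CZ.lint hU hV h8, ofReal_integral_eq_lintegral_ofReal
        (hU.2.integrableOn_isCompact isCompact_Icc) (Eventually.of_forall fun x => hU.1 x)]
      exact lintegral_mono_set Ioo_subset_Icc_self
    refine h7.trans ((hA (x - r) (x + r) (x - r) (by linarith) le_rfl (by linarith) hi1).trans ?_)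
    rw [← ENNReal.ofReal_mul hΛp.le, ← ENNReal.ofReal_mul (by positivity)]
    exact ENNReal.ofReal_le_ofReal (le_of_eq (by ring))
  refine (ENNReal.tsum_le_tsum h4).trans ?_
  rw [ENNReal.tsum_mul_left]
  refine mul_le_mul_right ?_ _
  have h5 : ∀ i, volume (Ioo (A i) (B i) ∩ {x | γ * Λ ≤ U x}) =
      (volume.restrict {x | γ * Λ ≤ U x}) (Ioo (A i) (B i)) := fun i =>
    (Measure.restrict_apply measurableSet_Ioo).symm
  simp_rw [h5]
  rw [← measure_iUnion hdis (fun i => measurableSet_Ioo), ← hUn,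
    Measure.restrict_apply (hOo.inter isOpen_Ioo).measurableSet]
  exact measure_mono (inter_subset_inter_left _ inter_subset_right)

end Pool.Agent.Work.MP_055a27_an.Cr3

end

section

/-!
# The level sets of the uncentred maximal function
-/

set_option autoImplicit false

open MeasureTheory Set Filter Topology Complex Metric
open scoped ENNReal NNReal

namespace Pool.Agent.Work.MP_055a27_an.Cr3

namespace CZa

lemma cover (f : ℝ → ℝ≥0∞) (hI : ∫⁻ t, f t ≠ ∞) (s : ℝ≥0∞) (hs : s ≠ 0) (hs' : s ≠ ∞)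
    (S E : Set ℝ) (hS : ∀ x ∈ S, ∃ a c : ℝ, a < x ∧ x < c ∧ Icc a c ⊆ E ∧
      s * ENNReal.ofReal (c - a) < ∫⁻ t in Icc a c, f t) :
    volume S ≤ 5 / s * ∫⁻ t in E, f t := by
  set T : Set (ℝ × ℝ) := {q | 0 < q.2 ∧ Icc (q.1 - q.2) (q.1 + q.2) ⊆ E ∧
    s * ENNReal.ofReal (2 * q.2) < ∫⁻ t in Icc (q.1 - q.2) (q.1 + q.2), f t} with hT
  have hbd : ∀ q ∈ T, q.2 ≤ ((∫⁻ x, f x) / s).toReal := by
    rintro ⟨x, r⟩ ⟨hr, -, hq⟩
    simp only at hr hq ⊢
    have h1 : s * ENNReal.ofReal (2 * r) ≤ ∫⁻ x, f x := hq.le.trans (setLIntegral_le_lintegral _ _)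
    have h2 : ENNReal.ofReal (2 * r) ≤ (∫⁻ x, f x) / s := by
      rw [ENNReal.le_div_iff_mul_le (Or.inl hs) (Or.inl hs'), mul_comm]
      exact h1
    have h3 : ENNReal.ofReal r ≤ (∫⁻ x, f x) / s :=
      (ENNReal.ofReal_le_ofReal (by linarith)).trans h2
    exact (ENNReal.ofReal_le_iff_le_toReal (ENNReal.div_lt_top hI hs).ne).1 h3
  obtain ⟨u, huT, hudisj, hucov⟩ := Vitali.exists_disjoint_subfamily_covering_enlargement_closedBall
    T (fun q : ℝ × ℝ => q.1) (fun q : ℝ × ℝ => q.2) _ hbd 5 (by norm_num)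
  have hucount : u.Countable := by
    apply hudisj.countable_of_nonempty_interior
    intro q hq
    refine ⟨q.1, ball_subset_interior_closedBall ?_⟩
    simp [(huT hq).1]
  have hcov : S ⊆ ⋃ q ∈ u, closedBall q.1 (5 * q.2) := by
    intro x hx
    obtain ⟨a, c, hax, hxc, hE, hlt⟩ := hS x hx
    have e1 : (a + c) / 2 - (c - a) / 2 = a := by ring
    have e2 : (a + c) / 2 + (c - a) / 2 = c := by ring
    have e3 : 2 * ((c - a) / 2) = c - a := by ring
    have hmem : (((a + c) / 2, (c - a) / 2) : ℝ × ℝ) ∈ T := by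
      refine ⟨by simp only; linarith, ?_, ?_⟩
      · simp only [e1, e2]
        exact hE
      · simp only [e1, e2, e3]
        exact hlt
    obtain ⟨b, hb, hsub⟩ := hucov _ hmem
    rw [mem_iUnion₂]
    refine ⟨b, hb, hsub ?_⟩
    rw [Real.closedBall_eq_Icc]
    simp only [e1, e2]
    exact ⟨hax.le, hxc.le⟩
  have hdisj : u.PairwiseDisjoint (fun q : ℝ × ℝ => Icc (q.1 - q.2) (q.1 + q.2)) := by
    intro a ha b hb hab
    have h := hudisj ha hb hab
    simp only [Function.onFun, Real.closedBall_eq_Icc] at h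
    exact h
  calc volume S ≤ volume (⋃ q ∈ u, closedBall q.1 (5 * q.2)) := measure_mono hcov
    _ ≤ ∑' q : u, volume (closedBall (q : ℝ × ℝ).1 (5 * (q : ℝ × ℝ).2)) :=
        measure_biUnion_le volume hucount _
    _ ≤ ∑' q : u, 5 / s * ∫⁻ t in Icc ((q : ℝ × ℝ).1 - (q : ℝ × ℝ).2)
          ((q : ℝ × ℝ).1 + (q : ℝ × ℝ).2), f t := by
        apply ENNReal.tsum_le_tsum
        intro q
        obtain ⟨h0, -, h1⟩ := huT q.2
        rw [Real.volume_closedBall]
        have e1 : ENNReal.ofReal (2 * (5 * (q : ℝ × ℝ).2)) =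
            5 / s * (s * ENNReal.ofReal (2 * (q : ℝ × ℝ).2)) := by
          rw [← mul_assoc (5 / s), ENNReal.div_mul_cancel hs hs',
            show 2 * (5 * (q : ℝ × ℝ).2) = 5 * (2 * (q : ℝ × ℝ).2) by ring,
            ENNReal.ofReal_mul (by norm_num)]
          norm_num
        rw [e1]
        gcongr
    _ = 5 / s * ∑' q : u, ∫⁻ t in Icc ((q : ℝ × ℝ).1 - (q : ℝ × ℝ).2)
          ((q : ℝ × ℝ).1 + (q : ℝ × ℝ).2), f t := ENNReal.tsum_mul_left
    _ = 5 / s * ∫⁻ t in ⋃ q ∈ u, Icc (q.1 - q.2) (q.1 + q.2), f t := by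
        rw [lintegral_biUnion hucount (fun _ _ => measurableSet_Icc) hdisj]
    _ ≤ 5 / s * ∫⁻ t in E, f t := by
        gcongr
        exact iUnion₂_subset fun q hq => (huT hq).2.1

lemma isOpen_OO (f : ℝ → ℝ≥0∞) (Λ : ℝ≥0∞) : IsOpen (OO f Λ) := by
  rw [isOpen_iff_mem_nhds]
  rintro x ⟨a, c, hax, hxc, h⟩
  filter_upwards [Ioo_mem_nhds hax hxc] with y hy
  exact ⟨a, c, hy.1, hy.2, h⟩

lemma third (f : ℝ → ℝ≥0∞) (Λ : ℝ≥0∞) (hΛ : Λ ≠ ∞) (a c x : ℝ) (hax : a ≤ x)
    (hxc : x ≤ c) (hx : x ∉ OO f Λ) :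
    ∫⁻ t in Icc a c, f t ≤ Λ * ENNReal.ofReal (c - a) := by
  have h1 : ∀ ε : ℝ, 0 < ε →
      ∫⁻ t in Icc a c, f t ≤ Λ * ENNReal.ofReal ((c + ε) - (a - ε)) := by
    intro ε hε
    have h2 : ¬ (Λ * ENNReal.ofReal ((c + ε) - (a - ε)) <
        ∫⁻ t in Icc (a - ε) (c + ε), f t) := fun h =>
      hx ⟨a - ε, c + ε, by linarith, by linarith, h⟩
    refine le_trans ?_ (not_lt.1 h2)
    exact lintegral_mono_set (Icc_subset_Icc (by linarith) (by linarith))
  have h3 : Tendsto (fun ε : ℝ => Λ * ENNReal.ofReal ((c + ε) - (a - ε))) (𝓝[>] 0)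
      (𝓝 (Λ * ENNReal.ofReal (c - a))) := by
    apply Tendsto.mono_left _ nhdsWithin_le_nhds
    apply ENNReal.Tendsto.const_mul _ (Or.inr hΛ)
    apply ENNReal.tendsto_ofReal
    have h4 : Continuous fun ε : ℝ => (c + ε) - (a - ε) := by fun_prop
    have h5 := h4.tendsto 0
    simpa using h5
  refine ge_of_tendsto h3 ?_
  filter_upwards [self_mem_nhdsWithin] with ε hε
  exact h1 ε hε

lemma fourth (f : ℝ → ℝ≥0∞) (hI : ∫⁻ t, f t ≠ ∞) (Λ : ℝ≥0∞) (h0 : Λ ≠ 0) (hΛ : Λ ≠ ∞)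
    (a c : ℝ) (hsub : Ioo a c ⊆ OO f Λ) (ha : a ∉ OO f Λ) (hc : c ∉ OO f Λ) :
    Λ / 5 * ENNReal.ofReal (c - a) ≤ ∫⁻ t in Icc a c, f t := by
  have h1 := cover f hI Λ h0 hΛ (Ioo a c) (Icc a c) (by
    intro x hx
    obtain ⟨a', c', hax, hxc, h⟩ := hsub hx
    refine ⟨a', c', hax, hxc, Icc_subset_Icc ?_ ?_, h⟩
    · by_contra hlt
      exact ha ⟨a', c', not_le.1 hlt, hx.1.trans hxc, h⟩
    · by_contra hlt
      exact hc ⟨a', c', hax.trans hx.2, not_le.1 hlt, h⟩)
  rw [Real.volume_Ioo] at h1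
  calc Λ / 5 * ENNReal.ofReal (c - a) ≤ Λ / 5 * (5 / Λ * ∫⁻ t in Icc a c, f t) := by gcongr
    _ = ∫⁻ t in Icc a c, f t := by
        rw [← mul_assoc]
        have e : Λ / 5 * (5 / Λ) = 1 := by
          have e1 : Λ / 5 * (5 / Λ) = (Λ * Λ⁻¹) * ((5 : ℝ≥0∞)⁻¹ * 5) := by
            rw [div_eq_mul_inv, div_eq_mul_inv]
            ring
          rw [e1, ENNReal.mul_inv_cancel h0 hΛ, ENNReal.inv_mul_cancel (by norm_num) (by norm_num),
            one_mul]
        rw [e, one_mul]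

lemma fifth (f : ℝ → ℝ≥0∞) (hf : Measurable f) (hI : ∫⁻ t, f t ≠ ∞) (Λ : ℝ≥0∞)
    (hΛ : Λ ≠ ∞) : ∀ᵐ x, x ∉ OO f Λ → f x ≤ Λ := by
  filter_upwards [(Besicovitch.vitaliFamily (volume : Measure ℝ)).ae_tendsto_lintegral_div
    hf.aemeasurable hI] with x hx hxO
  have h1 := hx.comp (Besicovitch.tendsto_filterAt (volume : Measure ℝ) x)
  refine le_of_tendsto h1 ?_
  filter_upwards [self_mem_nhdsWithin] with r hr
  have hr' : (0 : ℝ) < r := hr
  simp only [Function.comp_apply]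
  rw [Real.volume_closedBall, Real.closedBall_eq_Icc]
  have h2 := third f Λ hΛ (x - r) (x + r) x (by linarith) (by linarith) hxO
  rw [show x + r - (x - r) = 2 * r by ring] at h2
  exact ENNReal.div_le_of_le_mul h2

end CZa

theorem stCZa : StCZa := by
  intro f hf hI Λ h0 hΛ
  refine ⟨CZa.isOpen_OO f Λ, ?_, ?_, ?_, CZa.fifth f hf hI Λ hΛ⟩
  · have h := CZa.cover f hI Λ h0 hΛ (OO f Λ) univ (by
      rintro x ⟨a, c, hax, hxc, h⟩
      exact ⟨a, c, hax, hxc, subset_univ _, h⟩)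
    rwa [Measure.restrict_univ] at h
  · intro a c x _ hax hxc hx
    exact CZa.third f Λ hΛ a c x hax hxc hx
  · intro a c _ hsub ha hc
    exact CZa.fourth f hI Λ h0 hΛ a c hsub ha hc

end Pool.Agent.Work.MP_055a27_an.Cr3

end

section

/-!
# The upper bound for the Poisson integral at a stopping interval
-/

open MeasureTheory Set Filter Topology Complex Metric
open scoped ENNReal NNReal

namespace Pool.Agent.Work.MP_055a27_an.Cr3

open Crit (lg cc CC Pk hU)

namespace CZb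

/-- Decomposition into dyadic annuli. -/
lemma ann (g : ℝ → ℝ≥0∞) (x r : ℝ) (hr : 0 < r) (B : ℕ → ℝ≥0∞)
    (h0 : ∫⁻ t in {t | |t - x| ≤ r}, g t ≤ B 0)
    (h1 : ∀ k : ℕ, ∫⁻ t in {t | 2 ^ k * r ≤ |t - x| ∧ |t - x| ≤ 2 ^ (k + 1) * r}, g t
      ≤ B (k + 1)) :
    ∫⁻ t, g t ≤ ∑' j, B j := by
  set A : ℕ → Set ℝ := fun j => Nat.casesOn j {t | |t - x| ≤ r}
    (fun k => {t | 2 ^ k * r ≤ |t - x| ∧ |t - x| ≤ 2 ^ (k + 1) * r}) with hA
  have hU : (⋃ j, A j) = univ := by
    refine eq_univ_of_forall fun t => ?_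
    rcases le_or_gt |t - x| r with h | h
    · exact mem_iUnion.2 ⟨0, h⟩
    · have h2 : 1 ≤ |t - x| / r := by rw [le_div_iff₀ hr]; linarith
      obtain ⟨k, hk, hk'⟩ := exists_nat_pow_near h2 (by norm_num : (1 : ℝ) < 2)
      refine mem_iUnion.2 ⟨k + 1, ?_⟩
      refine ⟨?_, ?_⟩
      · rwa [le_div_iff₀ hr] at hk
      · rw [div_lt_iff₀ hr] at hk'
        exact hk'.le
  calc ∫⁻ t, g t = ∫⁻ t in ⋃ j, A j, g t := by rw [hU, setLIntegral_univ]
    _ ≤ ∑' j, ∫⁻ t in A j, g t := lintegral_iUnion_le _ _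
    _ ≤ ∑' j, B j := by
        refine ENNReal.tsum_le_tsum fun j => ?_
        cases j with
        | zero => exact h0
        | succ k => exact h1 k

lemma int_le (g : ℝ → ℝ) (hg : Integrable g volume) (T : ℝ) (hT : 0 ≤ T)
    (h : ∫⁻ t, ENNReal.ofReal (g t) ≤ ENNReal.ofReal T) : ∫ t, g t ≤ T := by
  rw [integral_eq_lintegral_pos_part_sub_lintegral_neg_part hg]
  have h1 : (∫⁻ t, ENNReal.ofReal (g t)).toReal ≤ T := ENNReal.toReal_le_of_le_ofReal hT h
  have h2 : 0 ≤ (∫⁻ t, ENNReal.ofReal (-g t)).toReal := ENNReal.toReal_nonneg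
  linarith

/-- Bound of the integral of the product over a set. -/
lemma prod_le (f κ : ℝ → ℝ) (A : Set ℝ) (hA : MeasurableSet A) (x ρ c I D : ℝ)
    (hAs : A ⊆ Icc (x - ρ) (x + ρ)) (hc : 0 ≤ c)
    (hκ0 : ∀ s, 0 ≤ κ s) (hκ : ∀ t ∈ A, κ (x - t) ≤ c)
    (hI : ∫⁻ t in Icc (x - ρ) (x + ρ), ENNReal.ofReal (f t) ≤ ENNReal.ofReal I)
    (hD : c * I ≤ D) :
    ∫⁻ t in A, ENNReal.ofReal (f t * κ (x - t)) ≤ ENNReal.ofReal D := by
  calc ∫⁻ t in A, ENNReal.ofReal (f t * κ (x - t))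
      ≤ ∫⁻ t in A, ENNReal.ofReal c * ENNReal.ofReal (f t) := by
        refine setLIntegral_mono' hA fun t ht => ?_
        rw [ENNReal.ofReal_mul' (hκ0 _), mul_comm]
        gcongr
        exact hκ t ht
    _ = ENNReal.ofReal c * ∫⁻ t in A, ENNReal.ofReal (f t) :=
        lintegral_const_mul' _ _ ENNReal.ofReal_ne_top
    _ ≤ ENNReal.ofReal c * ∫⁻ t in Icc (x - ρ) (x + ρ), ENNReal.ofReal (f t) := by
        gcongr
    _ ≤ ENNReal.ofReal c * ENNReal.ofReal I := by gcongr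
    _ = ENNReal.ofReal (c * I) := (ENNReal.ofReal_mul hc).symm
    _ ≤ ENNReal.ofReal D := ENNReal.ofReal_le_ofReal hD

lemma geo (D lam : ℝ) (hD : 0 ≤ D) (h0 : 0 ≤ lam) (h1 : lam < 1) :
    ∑' j : ℕ, ENNReal.ofReal (D * lam ^ j) = ENNReal.ofReal (D * (1 - lam)⁻¹) := by
  rw [← ENNReal.ofReal_tsum_of_nonneg (fun n => by positivity)
    ((summable_geometric_of_lt_one h0 h1).mul_left D), tsum_mul_left,
    tsum_geometric_of_lt_one h0 h1]

/-- The integral of the positive part, small intervals. -/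
lemma smallI (hJen : StJen) {U : ℝ → ℝ} (hW : Wt U) (x ρ a : ℝ) (hρ : 0 < ρ)
    (h : ∫ t in Icc (x - ρ) (x + ρ), U t ≤ 2 * ρ * Real.exp a) :
    ∫⁻ t in Icc (x - ρ) (x + ρ), ENNReal.ofReal (lg U t - a) ≤ ENNReal.ofReal (2 * ρ) := by
  refine (hJen U (x - ρ) (x + ρ) a hW (by linarith)).1.trans (ENNReal.ofReal_le_ofReal ?_)
  have e : x + ρ - (x - ρ) = 2 * ρ := by ring
  rw [e]
  have h0 : 0 ≤ ∫ t in Icc (x - ρ) (x + ρ), U t := integral_nonneg hW.1.1
  set J := ∫ t in Icc (x - ρ) (x + ρ), U t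
  have h1 : Real.exp (-a) * (J / (2 * ρ)) ≤ 1 := by
    have : J / (2 * ρ) ≤ Real.exp a := by
      rw [div_le_iff₀ (by positivity)]; linarith
    calc Real.exp (-a) * (J / (2 * ρ)) ≤ Real.exp (-a) * Real.exp a := by gcongr
      _ = 1 := by rw [← Real.exp_add]; simp
  have h2 : 0 ≤ Real.exp (-a) * (J / (2 * ρ)) := by positivity
  have h3 : Real.log (1 + Real.exp (-a) * (J / (2 * ρ))) ≤ 1 := by
    have := Real.log_le_sub_one_of_pos (x := 1 + Real.exp (-a) * (J / (2 * ρ))) (by positivity)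
    linarith
  nlinarith

/-- The integral of the positive part, large intervals. -/
lemma bigI (hJen : StJen) {U : ℝ → ℝ} (hW : Wt U) (μ CS : ℝ)
    (hCS : 0 < CS) (hSh : ∀ z y : ℝ, 0 < y →
      ∫ t in Icc (z - μ * y) (z + μ * y), U t ≤ CS * (y * Real.exp (poisson (lg U) z y)))
    (x ρ a y' K3 Q : ℝ) (hρ : 0 < ρ) (hy' : 0 < y') (h1 : ρ ≤ μ * y') (h2 : y' ≤ K3 * ρ)
    (hQ : 0 ≤ Q) (hP : poisson (lg U) x y' ≤ a + Q) :
    ∫⁻ t in Icc (x - ρ) (x + ρ), ENNReal.ofReal (lg U t - a) ≤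
      ENNReal.ofReal (2 * ρ * (Real.log (1 + CS * K3) + Q)) := by
  refine (hJen U (x - ρ) (x + ρ) a hW (by linarith)).1.trans (ENNReal.ofReal_le_ofReal ?_)
  have e : x + ρ - (x - ρ) = 2 * ρ := by ring
  rw [e]
  have hK3 : 0 < K3 := by
    by_contra hc
    push Not at hc
    nlinarith
  have h0 : 0 ≤ ∫ t in Icc (x - ρ) (x + ρ), U t := integral_nonneg hW.1.1
  have hJ : ∫ t in Icc (x - ρ) (x + ρ), U t ≤ CS * (y' * Real.exp (a + Q)) := by
    calc ∫ t in Icc (x - ρ) (x + ρ), U t ≤ ∫ t in Icc (x - μ * y') (x + μ * y'), U t := by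
          refine setIntegral_mono_set ?_ ?_ ?_
          · exact (hW.1.2.integrableOn_isCompact isCompact_Icc)
          · exact Eventually.of_forall fun t => hW.1.1 t
          · exact (Icc_subset_Icc (by linarith) (by linarith)).eventuallyLE
      _ ≤ CS * (y' * Real.exp (poisson (lg U) x y')) := hSh x y' hy'
      _ ≤ CS * (y' * Real.exp (a + Q)) := by gcongr
  set J := ∫ t in Icc (x - ρ) (x + ρ), U t
  have h3 : Real.exp (-a) * (J / (2 * ρ)) ≤ CS * K3 * Real.exp Q := by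
    have h4 : J / (2 * ρ) ≤ CS * K3 * Real.exp (a + Q) := by
      rw [div_le_iff₀ (by positivity)]
      calc J ≤ CS * (y' * Real.exp (a + Q)) := hJ
        _ ≤ CS * (K3 * ρ * Real.exp (a + Q)) := by gcongr
        _ ≤ 2 * (CS * (K3 * ρ * Real.exp (a + Q))) := by
            have : 0 ≤ CS * (K3 * ρ * Real.exp (a + Q)) := by positivity
            linarith
        _ = CS * K3 * Real.exp (a + Q) * (2 * ρ) := by ring
    calc Real.exp (-a) * (J / (2 * ρ)) ≤ Real.exp (-a) * (CS * K3 * Real.exp (a + Q)) := by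
          gcongr
      _ = CS * K3 * (Real.exp (-a) * Real.exp (a + Q)) := by ring
      _ = CS * K3 * Real.exp Q := by
          rw [← Real.exp_add]; congr 2; ring
  have h5 : 0 ≤ Real.exp (-a) * (J / (2 * ρ)) := by positivity
  have h6 : 1 ≤ Real.exp Q := Real.one_le_exp hQ
  have h7 : Real.log (1 + Real.exp (-a) * (J / (2 * ρ))) ≤ Real.log (1 + CS * K3) + Q := by
    rw [← Real.log_exp Q, ← Real.log_mul (by positivity) (by positivity)]
    refine Real.log_le_log (by positivity) ?_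
    nlinarith
  gcongr

/-- Kernel bound at the centre. -/
lemma ker0 (CR η s y : ℝ) (n : ℕ) (κs : ℝ) (hη : 0 < η) (hCR : 0 ≤ CR)
    (h : κs ≤ CR * (η / (s ^ 2 + η ^ 2) * (1 / (1 + (s / y) ^ 2)) ^ (n + 1))) :
    κs ≤ CR / η := by
  have h1 : (1 / (1 + (s / y) ^ 2)) ^ (n + 1) ≤ 1 := by
    refine pow_le_one₀ (by positivity) ?_
    rw [div_le_one (by positivity)]
    nlinarith [sq_nonneg (s / y)]
  have h2 : η / (s ^ 2 + η ^ 2) ≤ 1 / η := by
    rw [div_le_div_iff₀ (by positivity) hη]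
    nlinarith [sq_nonneg s]
  have h3 : η / (s ^ 2 + η ^ 2) * (1 / (1 + (s / y) ^ 2)) ^ (n + 1) ≤ 1 / η := by
    calc η / (s ^ 2 + η ^ 2) * (1 / (1 + (s / y) ^ 2)) ^ (n + 1) ≤ 1 / η * 1 := by gcongr
      _ = 1 / η := mul_one _
  calc κs ≤ CR * (η / (s ^ 2 + η ^ 2) * (1 / (1 + (s / y) ^ 2)) ^ (n + 1)) := h
    _ ≤ CR * (1 / η) := by gcongr
    _ = CR / η := by ring

/-- Kernel bound in an annulus. -/
lemma ker1 (CR η s y hh : ℝ) (n : ℕ) (κs : ℝ) (hη : 0 < η) (hCR : 0 ≤ CR) (hy : 0 < y)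
    (hh0 : 0 < hh) (hs : hh ≤ |s|)
    (h : κs ≤ CR * (η / (s ^ 2 + η ^ 2) * (1 / (1 + (s / y) ^ 2)) ^ (n + 1))) :
    κs ≤ CR * (η / hh ^ 2 * (1 / (1 + (hh / y) ^ 2)) ^ (n + 1)) := by
  have h0 : hh ^ 2 ≤ s ^ 2 := by
    rw [← sq_abs s]; gcongr
  have h1 : (hh / y) ^ 2 ≤ (s / y) ^ 2 := by
    rw [div_pow, div_pow]; gcongr
  refine h.trans ?_
  gcongr
  nlinarith [sq_nonneg η]

lemma vpow (v : ℝ) (hv : 0 ≤ v) (N : ℕ) : v ^ N * (1 / (1 + v ^ 2)) ^ (N + 1) ≤ 1 := by
  have h1 : v ≤ 1 + v ^ 2 := by nlinarith [sq_nonneg (v - 1)]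
  rw [one_div, inv_pow, ← div_eq_mul_inv, div_le_one (by positivity)]
  calc v ^ N ≤ (1 + v ^ 2) ^ N := by gcongr
    _ ≤ (1 + v ^ 2) ^ (N + 1) := pow_le_pow_right₀ (by nlinarith [sq_nonneg v]) (by omega)

/-- `m ≤ exp u`. -/
lemma m_le (u : ℝ) : 1 + u ≤ Real.exp u := by
  have := Real.add_one_le_exp u; linarith

lemma sq_m_le (u : ℝ) (hu : 0 ≤ u) : (1 + u) ^ 2 * Real.exp (-u) ≤ 4 := by
  have h1 := m_le (u / 2)
  have h2 : 1 + u ≤ 2 * Real.exp (u / 2) := by linarith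
  have h3 : (1 + u) ^ 2 ≤ (2 * Real.exp (u / 2)) ^ 2 := by gcongr
  have h4 : (2 * Real.exp (u / 2)) ^ 2 * Real.exp (-u) = 4 := by
    have : Real.exp (u / 2) ^ 2 = Real.exp u := by
      rw [← Real.exp_nat_mul]; congr 1; push_cast; ring
    rw [mul_pow, this, mul_assoc, ← Real.exp_add]
    norm_num
  calc (1 + u) ^ 2 * Real.exp (-u) ≤ (2 * Real.exp (u / 2)) ^ 2 * Real.exp (-u) := by gcongr
    _ = 4 := h4

lemma mk (c1 y r u m : ℝ) (k : ℕ) (hc1 : 0 < c1) (hy : 0 < y) (hu : 0 ≤ u)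
    (hm1 : 1 ≤ m) (hm : m ≤ 1 + u) (hru : r ≤ 3 * y * Real.exp (-u))
    (hk : c1 * y < 2 ^ (k + 1) * r) :
    m * (1 / 2) ^ k ≤ (24 / c1 + 1) * √(1 / 2) ^ k := by
  have h2 : (1 / 2 : ℝ) ^ k ≤ 6 * Real.exp (-u) / c1 := by
    rw [one_div, inv_pow, inv_le_iff_one_le_mul₀ (by positivity), div_mul_eq_mul_div,
      le_div_iff₀ hc1]
    have h3 : c1 * y < 2 ^ (k + 1) * (3 * y * Real.exp (-u)) :=
      hk.trans_le (by gcongr)
    have h4 : c1 * y < (6 * Real.exp (-u) * 2 ^ k) * y := by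
      calc c1 * y < 2 ^ (k + 1) * (3 * y * Real.exp (-u)) := h3
        _ = (6 * Real.exp (-u) * 2 ^ k) * y := by ring
    have h5 := lt_of_mul_lt_mul_right h4 hy.le
    linarith
  have hsq : (√(1 / 2) ^ k) ^ 2 = (1 / 2 : ℝ) ^ k := by
    rw [← pow_mul, mul_comm, pow_mul, Real.sq_sqrt (by norm_num)]
  have h6 : m ^ 2 * (1 / 2 : ℝ) ^ k ≤ 24 / c1 := by
    calc m ^ 2 * (1 / 2 : ℝ) ^ k ≤ (1 + u) ^ 2 * (6 * Real.exp (-u) / c1) := by gcongr
      _ = 6 / c1 * ((1 + u) ^ 2 * Real.exp (-u)) := by ring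
      _ ≤ 6 / c1 * 4 := by
          gcongr
          exact sq_m_le u hu
      _ = 24 / c1 := by ring
  have h7 : (24 / c1 : ℝ) ≤ (24 / c1 + 1) ^ 2 := by
    have : 0 ≤ 24 / c1 := by positivity
    nlinarith
  have h8 : (m * (1 / 2) ^ k) ^ 2 ≤ ((24 / c1 + 1) * √(1 / 2) ^ k) ^ 2 := by
    rw [mul_pow (24 / c1 + 1), hsq]
    calc (m * (1 / 2) ^ k) ^ 2 = m ^ 2 * (1 / 2 : ℝ) ^ k * (1 / 2 : ℝ) ^ k := by ring
      _ ≤ (24 / c1) * (1 / 2 : ℝ) ^ k := by gcongr
      _ ≤ (24 / c1 + 1) ^ 2 * (1 / 2 : ℝ) ^ k := by gcongr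
  have h9 : 0 ≤ (24 / c1 + 1) * √(1 / 2) ^ k := by positivity
  exact (le_abs_self _).trans (abs_le_of_sq_le_sq h8 h9)

/-- The product at the centre. -/
lemma pr0 (CR la c1 y r u m K5 : ℝ) (N : ℕ) (hCR : 0 ≤ CR) (hla : 0 < la) (hK5 : 0 ≤ K5)
    (hc1 : 0 < c1) (hy : 0 < y) (hr : 0 < r) (hu : 0 ≤ u) (hm1 : 1 ≤ m) (hm : m ≤ 1 + u)
    (hru : r ≤ 3 * y * Real.exp (-u)) (X : ℝ)
    (hX : X = 2 * r ∨ (c1 * y < r ∧ X = 2 * r * (K5 * m * (r / y) ^ N))) :
    CR / (r / la) * X ≤ 2 * CR * la * (1 + K5 * (3 / c1) * 3 ^ N) := by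
  rcases hX with rfl | ⟨h, rfl⟩
  · calc CR / (r / la) * (2 * r) = 2 * CR * la * 1 := by field_simp
      _ ≤ 2 * CR * la * (1 + K5 * (3 / c1) * 3 ^ N) := by
          gcongr
          have : 0 ≤ K5 * (3 / c1) * 3 ^ N := by positivity
          linarith
  · have h1 : m ≤ 3 / c1 := by
      have h2 : c1 * y < 3 * y * Real.exp (-u) := h.trans_le hru
      have h3 : c1 < 3 * Real.exp (-u) := by nlinarith
      have h4 : Real.exp (-u) * Real.exp u = 1 := by rw [← Real.exp_add]; simp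
      have h5 : c1 * Real.exp u ≤ 3 := by nlinarith [Real.exp_pos u]
      rw [le_div_iff₀ hc1]
      nlinarith [m_le u]
    have h6 : r / y ≤ 3 := by
      rw [div_le_iff₀ hy]
      have h7 : Real.exp (-u) ≤ 1 := Real.exp_le_one_iff.2 (by linarith)
      nlinarith
    calc CR / (r / la) * (2 * r * (K5 * m * (r / y) ^ N))
        = 2 * CR * la * (K5 * m * (r / y) ^ N) := by field_simp
      _ ≤ 2 * CR * la * (K5 * (3 / c1) * 3 ^ N) := by gcongr
      _ ≤ 2 * CR * la * (1 + K5 * (3 / c1) * 3 ^ N) := by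
          gcongr
          linarith

/-- The product in an annulus. -/
lemma pr1 (CR la c1 y r u m K5 : ℝ) (N k : ℕ) (hCR : 0 ≤ CR) (hla : 0 < la) (hK5 : 0 ≤ K5)
    (hc1 : 0 < c1) (hy : 0 < y) (hr : 0 < r) (hu : 0 ≤ u) (hm1 : 1 ≤ m) (hm : m ≤ 1 + u)
    (hru : r ≤ 3 * y * Real.exp (-u)) (X : ℝ)
    (hX : X = 2 * (2 ^ (k + 1) * r) ∨ (c1 * y < 2 ^ (k + 1) * r ∧
      X = 2 * (2 ^ (k + 1) * r) * (K5 * m * ((2 ^ (k + 1) * r) / y) ^ N))) :
    CR * ((r / la) / (2 ^ k * r) ^ 2 * (1 / (1 + ((2 ^ k * r) / y) ^ 2)) ^ (N + 1)) * X ≤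
      4 * CR / la * (1 + 2 ^ N * K5 * (24 / c1 + 1)) * √(1 / 2) ^ k := by
  have hw : (1 / (1 + ((2 ^ k * r) / y) ^ 2)) ^ (N + 1) ≤ 1 := by
    refine pow_le_one₀ (by positivity) ?_
    rw [div_le_one (by positivity)]
    nlinarith [sq_nonneg ((2 ^ k * r) / y)]
  have hl : (1 / 2 : ℝ) ^ k ≤ √(1 / 2) ^ k := by
    gcongr
    rw [Real.le_sqrt (by norm_num) (by norm_num)]
    norm_num
  rcases hX with rfl | ⟨h, rfl⟩
  · calc CR * ((r / la) / (2 ^ k * r) ^ 2 * (1 / (1 + ((2 ^ k * r) / y) ^ 2)) ^ (N + 1)) *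
          (2 * (2 ^ (k + 1) * r))
        ≤ CR * ((r / la) / (2 ^ k * r) ^ 2 * 1) * (2 * (2 ^ (k + 1) * r)) := by gcongr
      _ = 4 * CR / la * 1 * (1 / 2) ^ k := by
          rw [one_div, inv_pow]
          field_simp
          ring
      _ ≤ 4 * CR / la * (1 + 2 ^ N * K5 * (24 / c1 + 1)) * √(1 / 2) ^ k := by
          gcongr
          have : 0 ≤ 2 ^ N * K5 * (24 / c1 + 1) := by positivity
          linarith
  · have h1 := vpow ((2 ^ k * r) / y) (by positivity) N
    have h2 := mk c1 y r u m k hc1 hy hu hm1 hm hru h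
    set w := (1 / (1 + ((2 ^ k * r) / y) ^ 2)) ^ (N + 1) with hwdef
    have hv : (2 ^ (k + 1) * r) / y = 2 * ((2 ^ k * r) / y) := by ring
    rw [hv]
    set v := (2 ^ k * r) / y with hvdef
    have hv0 : 0 ≤ v := by positivity
    rw [mul_pow 2 v N]
    calc CR * ((r / la) / (2 ^ k * r) ^ 2 * w) *
          (2 * (2 ^ (k + 1) * r) * (K5 * m * (2 ^ N * v ^ N)))
        = 4 * CR / la * (2 ^ N * K5) * (m * (1 / 2) ^ k) * (v ^ N * w) := by
          rw [one_div 2, inv_pow]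
          field_simp
          ring
      _ ≤ 4 * CR / la * (2 ^ N * K5) * ((24 / c1 + 1) * √(1 / 2) ^ k) * 1 := by
          gcongr
      _ = 4 * CR / la * (2 ^ N * K5 * (24 / c1 + 1)) * √(1 / 2) ^ k := by ring
      _ ≤ 4 * CR / la * (1 + 2 ^ N * K5 * (24 / c1 + 1)) * √(1 / 2) ^ k := by
          gcongr
          linarith

/-- The integral of the positive part of the logarithm over an interval. -/
lemma exI (hJen : StJen) (hGr : StGr) {la μ : ℝ} {U : ℝ → ℝ} (H : Hyp la μ U) (c1 : ℝ)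
    (hc1 : 0 < c1) : ∃ (K5 : ℝ) (N : ℕ), 0 ≤ K5 ∧ ∀ z y x a m : ℝ, 0 < y → |x - z| ≤ la * y →
      LL la U z y ≤ a → Rt la U z y m → ∀ ρ : ℝ, 0 < ρ →
      (ρ ≤ c1 * y → ∫ t in Icc (x - ρ) (x + ρ), U t ≤ 2 * ρ * Real.exp a) →
      ∃ X : ℝ, (X = 2 * ρ ∨ (c1 * y < ρ ∧ X = 2 * ρ * (K5 * m * (ρ / y) ^ N))) ∧
        ∫⁻ t in Icc (x - ρ) (x + ρ), ENNReal.ofReal (lg U t - a) ≤ ENNReal.ofReal X := by
  obtain ⟨CG, N, hCG, hG⟩ := hGr la μ U H
  obtain ⟨hla, hlaμ, hW, CS, hCS, hSh⟩ := H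
  have hμ : 0 < μ := hla.trans hlaμ
  set K2 : ℝ := 1 + 2 * la / μ with hK2
  set K3 : ℝ := max (1 / μ) (K2 / c1) with hK3
  have hK3p : 0 < K3 := lt_max_of_lt_left (by positivity)
  have hlog : 0 ≤ Real.log (1 + CS * K3) := Real.log_nonneg (by nlinarith [mul_pos hCS hK3p])
  refine ⟨(Real.log (1 + CS * K3) + CG) * K3 ^ N, N, by positivity, ?_⟩
  intro z y x a m hy hxz hLa hRt ρ hρ hhyp
  rcases le_or_gt ρ (c1 * y) with hc | hc
  · exact ⟨2 * ρ, Or.inl rfl, smallI hJen hW x ρ a hρ (hhyp hc)⟩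
  · refine ⟨_, Or.inr ⟨hc, rfl⟩, ?_⟩
    have hm1 : 1 ≤ m := hRt.2.1
    set y' : ℝ := max (ρ / μ) (K2 * y) with hy'
    have hK2p : 1 ≤ K2 := by
      have : 0 ≤ 2 * la / μ := by positivity
      linarith
    have hyy' : y ≤ y' := le_trans (by nlinarith) (le_max_right _ _)
    have hy'0 : 0 < y' := hy.trans_le hyy'
    have h1 : ρ ≤ μ * y' := by
      have := le_max_left (ρ / μ) (K2 * y)
      rw [div_le_iff₀ hμ] at this
      linarith
    have h2 : y' ≤ K3 * ρ := by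
      refine max_le ?_ ?_
      · calc ρ / μ = 1 / μ * ρ := by ring
          _ ≤ K3 * ρ := by
              gcongr
              exact le_max_left _ _
      · calc K2 * y = K2 / c1 * (c1 * y) := by field_simp
          _ ≤ K3 * ρ := by
              gcongr
              exact le_max_right _ _
    have h3 : |x - z| ≤ μ / 2 * (y' - y) := by
      have h4 : K2 * y ≤ y' := le_max_right _ _
      have h5 : μ / 2 * (K2 * y - y) = la * y := by
        rw [hK2]; field_simp; ring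
      calc |x - z| ≤ la * y := hxz
        _ = μ / 2 * (K2 * y - y) := h5.symm
        _ ≤ μ / 2 * (y' - y) := by gcongr
    have h6 := hG z y m x y' hRt hyy' h3
    have h7 : 1 ≤ y' / y := by rw [le_div_iff₀ hy]; linarith
    have h8 : 0 ≤ CG * m * (y' / y) ^ N := by positivity
    have h9 : poisson (lg U) x y' ≤ a + CG * m * (y' / y) ^ N := by
      have := (abs_le.1 h6).2
      linarith
    refine (bigI hJen hW μ CS hCS hSh x ρ a y' K3 _ hρ hy'0 h1 h2 h8 h9).trans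
      (ENNReal.ofReal_le_ofReal ?_)
    have h10 : 1 ≤ m * (y' / y) ^ N := by
      have := one_le_pow₀ h7 (n := N)
      nlinarith
    have h11 : (y' / y) ^ N ≤ K3 ^ N * (ρ / y) ^ N := by
      rw [← mul_pow]
      gcongr
      calc y' / y ≤ K3 * ρ / y := by gcongr
        _ = K3 * (ρ / y) := by ring
    calc 2 * ρ * (Real.log (1 + CS * K3) + CG * m * (y' / y) ^ N)
        ≤ 2 * ρ * (Real.log (1 + CS * K3) * (m * (y' / y) ^ N) + CG * m * (y' / y) ^ N) := by
          gcongr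
          nlinarith
      _ = 2 * ρ * ((Real.log (1 + CS * K3) + CG) * m * (y' / y) ^ N) := by ring
      _ ≤ 2 * ρ * ((Real.log (1 + CS * K3) + CG) * m * (K3 ^ N * (ρ / y) ^ N)) := by gcongr
      _ = 2 * ρ * ((Real.log (1 + CS * K3) + CG) * K3 ^ N * m * (ρ / y) ^ N) := by ring

end CZb

theorem stCZb (_hBas : StBas) (hJen : StJen) (hGr : StGr) (hRep : StRep) : StCZb := by
  intro la μ U H c1 hc1
  obtain ⟨K5, N, hK5, hI⟩ := CZb.exI hJen hGr H c1 hc1
  have hla : 0 < la := H.1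
  obtain ⟨CR, hCR, hR⟩ := hRep la μ U H la (max 1 (3 / la)) N hla.le (le_max_left _ _)
  set D : ℝ := 2 * CR * la * (1 + K5 * (3 / c1) * 3 ^ N) +
    2 * (4 * CR / la * (1 + 2 ^ N * K5 * (24 / c1 + 1))) with hD
  have hD0 : 0 ≤ D := by positivity
  have hlam1 : √(1 / 2 : ℝ) < 1 := by
    rw [Real.sqrt_lt' (by norm_num)]; norm_num
  have hlam2 : (1 / 2 : ℝ) ≤ √(1 / 2 : ℝ) := by
    rw [Real.le_sqrt (by norm_num) (by norm_num)]; norm_num
  have hT0 : 0 ≤ D * (1 - √(1 / 2 : ℝ))⁻¹ := by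
    have : 0 < 1 - √(1 / 2 : ℝ) := by linarith
    positivity
  refine ⟨1 + (D * (1 - √(1 / 2 : ℝ))⁻¹ + CR * (6 / la)), ?_, ?_⟩
  · have : 0 ≤ CR * (6 / la) := by positivity
    linarith
  intro z y x r a hy hr hxz hPa hLa hru hhyp
  set L := LL la U z y with hL
  set u := a - L with hu
  have hu0 : 0 ≤ u := by linarith
  set m := max 1 (poisson (lg U) z y - L) with hm
  have hm1 : 1 ≤ m := le_max_left _ _
  have hmu : m ≤ 1 + u := max_le (by linarith) (by linarith)
  have hRt : Rt la U z y m := ⟨hy, hm1, le_max_right _ _⟩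
  have hru' : r ≤ 3 * y * Real.exp (-u) := by
    have : L - a = -u := by ring
    rwa [this] at hru
  have hη : 0 < r / la := by positivity
  have hexp : Real.exp (-u) ≤ 1 := Real.exp_le_one_iff.2 (by linarith)
  have hηy : r / la / y ≤ 3 / la * Real.exp (-u) := by
    rw [div_le_iff₀ hy, div_le_iff₀ hla]
    calc r ≤ 3 * y * Real.exp (-u) := hru'
      _ = 3 / la * Real.exp (-u) * y * la := by field_simp
  have hηK : r / la ≤ max 1 (3 / la) * y := by
    calc r / la ≤ (3 * y * Real.exp (-u)) / la := by gcongr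
      _ ≤ (3 * y * 1) / la := by gcongr
      _ = 3 / la * y := by ring
      _ ≤ max 1 (3 / la) * y := by
          gcongr
          exact le_max_right _ _
  obtain ⟨κ, hκc, hκ, hrep⟩ := hR z y m (r / la) hRt hη hηK
  obtain ⟨hint, hrep⟩ := hrep x a hxz
  have hκ0 : ∀ s, 0 ≤ κ s := by
    intro s
    have h1 := (hκ s).1
    have h2 : 0 ≤ (r / la) / (s ^ 2 + (r / la) ^ 2) * (1 / (1 + (s / y) ^ 2)) ^ (N + 1) := by
      positivity
    by_contra hc
    push Not at hc
    nlinarith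
  -- the integral
  have hmain : ∫⁻ t, ENNReal.ofReal ((lg U t - a) * κ (x - t)) ≤
      ENNReal.ofReal (D * (1 - √(1 / 2 : ℝ))⁻¹) := by
    rw [← CZb.geo D _ hD0 (Real.sqrt_nonneg _) hlam1]
    refine CZb.ann _ x r hr _ ?_ ?_
    · obtain ⟨X, hX, hXI⟩ := hI z y x a m hy hxz hLa hRt r hr (fun h => hhyp r le_rfl h)
      refine CZb.prod_le (fun t => lg U t - a) κ _ ?_ x r (CR / (r / la)) X _ ?_ (by positivity)
        hκ0 ?_ hXI ?_
      · exact measurableSet_le (by fun_prop) measurable_const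
      · intro t ht
        have := abs_le.1 (show |t - x| ≤ r from ht)
        exact ⟨by linarith, by linarith⟩
      · intro t _
        exact CZb.ker0 CR (r / la) (x - t) y N _ hη (by linarith) (hκ _).2
      · refine (CZb.pr0 CR la c1 y r u m K5 N (by linarith) hla hK5 hc1 hy hr hu0 hm1 hmu hru'
          X hX).trans ?_
        rw [pow_zero, mul_one, hD]
        have : 0 ≤ 2 * (4 * CR / la * (1 + 2 ^ N * K5 * (24 / c1 + 1))) := by positivity
        linarith
    · intro k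
      have hρ : 0 < 2 ^ (k + 1) * r := by positivity
      have hρr : r ≤ 2 ^ (k + 1) * r := by
        have : (1 : ℝ) ≤ 2 ^ (k + 1) := one_le_pow₀ (by norm_num)
        nlinarith
      obtain ⟨X, hX, hXI⟩ := hI z y x a m hy hxz hLa hRt (2 ^ (k + 1) * r) hρ
        (fun h => hhyp _ hρr h)
      refine CZb.prod_le (fun t => lg U t - a) κ _ ?_ x (2 ^ (k + 1) * r)
        (CR * ((r / la) / (2 ^ k * r) ^ 2 * (1 / (1 + ((2 ^ k * r) / y) ^ 2)) ^ (N + 1))) X _ ?_
        (by positivity) hκ0 ?_ hXI ?_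
      · have hmeas : Measurable (fun t : ℝ => |t - x|) := by fun_prop
        exact (measurableSet_le measurable_const hmeas).inter
          (measurableSet_le hmeas measurable_const)
      · intro t ht
        have := abs_le.1 ht.2
        exact ⟨by linarith, by linarith⟩
      · intro t ht
        refine CZb.ker1 CR (r / la) (x - t) y (2 ^ k * r) N _ hη (by linarith) hy
          (by positivity) ?_ (hκ _).2
        rw [abs_sub_comm]
        exact ht.1
      · refine (CZb.pr1 CR la c1 y r u m K5 N k (by linarith) hla hK5 hc1 hy hr hu0 hm1 hmu hru'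
          X hX).trans ?_
        set E := 4 * CR / la * (1 + 2 ^ N * K5 * (24 / c1 + 1)) with hE
        have hE0 : 0 ≤ E := by positivity
        have hDE : 2 * E ≤ D := by
          rw [hD]
          have : 0 ≤ 2 * CR * la * (1 + K5 * (3 / c1) * 3 ^ N) := by positivity
          linarith
        calc E * √(1 / 2) ^ k = 2 * E * (1 / 2) * √(1 / 2) ^ k := by ring
          _ ≤ D * √(1 / 2) * √(1 / 2) ^ k := by gcongr
          _ = D * √(1 / 2) ^ (k + 1) := by ring
  have h1 := CZb.int_le _ hint _ hT0 hmain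
  have h2 := (abs_le.1 hrep).2
  have h3 : CR * (r / la / y) * (m + |a - L|) ≤ CR * (6 / la) := by
    rw [abs_of_nonneg (show 0 ≤ a - L from hu0)]
    have h4 : m + (a - L) ≤ 1 + 2 * u := by linarith
    have h5 : Real.exp (-u) * (1 + 2 * u) ≤ 2 := by
      have h6 := CZb.m_le u
      have h7 : Real.exp (-u) * Real.exp u = 1 := by rw [← Real.exp_add]; simp
      nlinarith [Real.exp_pos (-u)]
    calc CR * (r / la / y) * (m + (a - L))
        ≤ CR * (3 / la * Real.exp (-u)) * (1 + 2 * u) := by gcongr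
      _ = CR * (3 / la) * (Real.exp (-u) * (1 + 2 * u)) := by ring
      _ ≤ CR * (3 / la) * 2 := by gcongr
      _ = CR * (6 / la) := by ring
  linarith

end Pool.Agent.Work.MP_055a27_an.Cr3

end

section

set_option autoImplicit false

/-!
# The low part of the area function
-/

open MeasureTheory Set Filter Topology Complex Metric
open scoped ENNReal NNReal

namespace Pool.Agent.Work.MP_055a27_an.Cr3

namespace LowP

lemma iSup_ALK {F : ℂ → ℂ} {lam x : ℝ} {S : Set (ℝ × ℝ)} (hS : MeasurableSet S) :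
    ⨆ m, ALK F lam S m x = ∫⁻ q in cone lam x ∩ S, ENNReal.ofReal (gsq F q) := by
  unfold ALK
  rw [← lintegral_iSup (fun m => measurable_gK F m) gK_mono]
  apply setLIntegral_congr_fun ((measurableSet_cone lam x).inter hS)
  intro q hq
  exact iSup_gK hq.1.2

lemma ALK_mono {F : ℂ → ℂ} {lam x : ℝ} {S : Set (ℝ × ℝ)} :
    Monotone (fun m => ALK F lam S m x) := by
  intro m n hmn
  exact lintegral_mono (fun q => gK_mono hmn q)

lemma measurable_ALK (F : ℂ → ℂ) (lam : ℝ) {S : Set (ℝ × ℝ)} (hS : MeasurableSet S) (m : ℕ) :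
    Measurable (ALK F lam S m) := by
  set T : Set (ℝ × (ℝ × ℝ)) := {t | t.2 ∈ cone lam t.1 ∩ S} with hT
  have hTm : MeasurableSet T := by
    have h1 : MeasurableSet {t : ℝ × (ℝ × ℝ) | |t.1 - t.2.1| ≤ lam * t.2.2} :=
      measurableSet_le (by fun_prop) (by fun_prop)
    have h2 : MeasurableSet {t : ℝ × (ℝ × ℝ) | 0 < t.2.2} :=
      measurableSet_lt (by fun_prop) (by fun_prop)
    have h3 : MeasurableSet {t : ℝ × (ℝ × ℝ) | t.2 ∈ S} := measurable_snd hS
    have : T = ({t : ℝ × (ℝ × ℝ) | |t.1 - t.2.1| ≤ lam * t.2.2} ∩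
        {t : ℝ × (ℝ × ℝ) | 0 < t.2.2}) ∩ {t : ℝ × (ℝ × ℝ) | t.2 ∈ S} := by
      ext t
      rfl
    rw [this]
    exact (h1.inter h2).inter h3
  have h4 : Measurable (fun t : ℝ × (ℝ × ℝ) => T.indicator (fun t => gK F m t.2) t) :=
    ((measurable_gK F m).comp measurable_snd).indicator hTm
  have h5 := h4.lintegral_prod_right' (ν := (volume : Measure (ℝ × ℝ)))
  convert h5 using 1
  funext x
  unfold ALK
  rw [← lintegral_indicator ((measurableSet_cone lam x).inter hS)]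
  rfl

lemma lin_eq {f : ℝ → ℝ} (hf : Admissible f) {lam m0 p la : ℝ} {U : ℝ → ℝ} (hp : 0 < p)
    (hS : MeasurableSet {q : ℝ × ℝ | 0 < q.2 ∧ gg la U q.1 q.2 ≤ m0}) (x : ℝ) :
    (∫⁻ q in cone lam x ∩ {q : ℝ × ℝ | gg la U q.1 q.2 ≤ m0},
      ENNReal.ofReal (gradSq f q.1 q.2)) ^ (p / 2) =
    ⨆ m, ((ALK (schw f) lam {q : ℝ × ℝ | 0 < q.2 ∧ gg la U q.1 q.2 ≤ m0} m x) ^
      (1 / 2 : ℝ)) ^ p := by
  have e1 : cone lam x ∩ {q : ℝ × ℝ | gg la U q.1 q.2 ≤ m0} =
      cone lam x ∩ {q : ℝ × ℝ | 0 < q.2 ∧ gg la U q.1 q.2 ≤ m0} := by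
    ext q
    constructor
    · intro h
      exact ⟨h.1, h.1.2, h.2⟩
    · intro h
      exact ⟨h.1, h.2.2⟩
  have e2 : ∫⁻ q in cone lam x ∩ {q : ℝ × ℝ | gg la U q.1 q.2 ≤ m0},
      ENNReal.ofReal (gradSq f q.1 q.2) =
      ⨆ m, ALK (schw f) lam {q : ℝ × ℝ | 0 < q.2 ∧ gg la U q.1 q.2 ≤ m0} m x := by
    rw [iSup_ALK hS, e1]
    apply setLIntegral_congr_fun ((measurableSet_cone lam x).inter hS)
    intro q hq
    simp only
    rw [gradSq_eq hf hq.1.2]
    unfold gsq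
    rw [(hasDerivAt_schw hf (mem_uhp (z := q.1) hq.1.2)).deriv]
  rw [e2, iSup_rpow' (by positivity)]
  apply iSup_congr
  intro m
  rw [← ENNReal.rpow_mul]
  congr 1
  ring

end LowP

open LowP in
theorem stLowP (hBas : StBas) (hAinf : StAinf) (hGL : StGL) (hAbs : StAbs) : StLowP := by
  intro lam la μ b p m0 U hlam hlla hlb hp hm0 hyp
  obtain ⟨hla, hlaμ, hWt, hSh⟩ := hyp
  set S : Set (ℝ × ℝ) := {q : ℝ × ℝ | 0 < q.2 ∧ gg la U q.1 q.2 ≤ m0} with hSdef
  have hS : MeasurableSet S := ((hBas.2.1 la U hla hWt).2.2 m0).1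
  obtain ⟨C, ε, hC, hε, hA⟩ := hAinf la μ (5 * la) m0 U ⟨hla, hlaμ, hWt, hSh⟩ (by positivity) hm0
  obtain ⟨K, c1, hK, hc1, hgl⟩ := hGL lam la b C ε hlam hlla hlb hC hε
  have hsf : SFinite (wm U) := by unfold wm; infer_instance
  obtain ⟨A, hAb⟩ := hAbs lam b p hlam (hlam.trans hlb) hp (wm U) hsf S hS
    (wm_Icc_lt_top hWt.1) (by
      intro δ hδ
      obtain ⟨γ, hγ, hγc, hγδ⟩ := exists_gamma hC hε hK hc1 hδ
      refine ⟨γ, hγ, ?_⟩
      intro F hF m s hs
      refine (hgl (wm U) S hS (fun q hq hq2 E hE hEs => hA q.1 q.2 hq2 hq.2 E hE hEs) F hF m s γ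
        hs hγ hγc).trans ?_
      gcongr)
  refine ⟨A, fun f hf => ?_⟩
  rw [lintegral_mul_weight_univ hWt.1, lintegral_mul_weight_univ hWt.1]
  have e2 : ∀ x, ntMax b f x = NT (schw f) b x := fun x => ntMax_eq hf
  simp only [e2, lin_eq hf hp hS]
  rw [lintegral_iSup]
  · exact iSup_le fun m => hAb _ (schw_diff hf) m
  · intro m
    exact ((measurable_ALK (schw f) lam hS m).pow_const _).pow_const _
  · intro m n hmn x
    simp only
    have := ALK_mono (F := schw f) (lam := lam) (x := x) (S := S) hmn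
    simp only at this
    gcongr

end Pool.Agent.Work.MP_055a27_an.Cr3

end
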