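import Pool.Agent.Work.MP_055a27_an.Cr3.Stmts
import Pool.Agent.Work.MP_055a27_an.LocalEst
import Pool.Agent.Work.MP_055a27_an.WMeas
import Pool.Agent.Work.MP_055a27_an.Bd.B04
import Pool.Agent.Work.MP_055a27_an.Bd.B06

/-! Bundle of small proof modules (one section per former module). -/

section

/-!
# Item GL: the good lambda inequality for the low part
-/

open MeasureTheory Set Filter Topology Complex Metric
open scoped ENNReal NNReal

namespace Pool.Agent.Work.MP_055a27_an.Cr3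

namespace GLi

/-- The part of the truncated area integral above the height `τ`. -/
noncomputable def UP (F : ℂ → ℂ) (lam : ℝ) (S : Set (ℝ × ℝ)) (m : ℕ) (x τ : ℝ) : ℝ≥0∞ :=
  ∫⁻ q in (cone lam x ∩ S) ∩ {q : ℝ × ℝ | τ ≤ q.2}, gK F m q

lemma measurable_ALK (F : ℂ → ℂ) (lam : ℝ) {S : Set (ℝ × ℝ)} (hS : MeasurableSet S) (m : ℕ) :
    Measurable (ALK F lam S m) := by
  set W : Set (ℝ × (ℝ × ℝ)) := {w | |w.1 - w.2.1| ≤ lam * w.2.2 ∧ 0 < w.2.2 ∧ w.2 ∈ S} with hW
  have hWm : MeasurableSet W := by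
    have m1 : MeasurableSet {w : ℝ × (ℝ × ℝ) | |w.1 - w.2.1| ≤ lam * w.2.2} :=
      measurableSet_le (by fun_prop) (by fun_prop)
    have m2 : MeasurableSet {w : ℝ × (ℝ × ℝ) | 0 < w.2.2} :=
      measurableSet_lt measurable_const (by fun_prop)
    have m3 : MeasurableSet {w : ℝ × (ℝ × ℝ) | w.2 ∈ S} := measurable_snd hS
    exact m1.inter (m2.inter m3)
  have hG : Measurable (fun w : ℝ × (ℝ × ℝ) => W.indicator (fun w => gK F m w.2) w) :=
    ((measurable_gK F m).comp measurable_snd).indicator hWm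
  have e : ALK F lam S m = fun x => ∫⁻ q, W.indicator (fun w => gK F m w.2) (x, q) := by
    funext x
    unfold ALK
    rw [← lintegral_indicator ((measurableSet_cone lam x).inter hS)]
    apply lintegral_congr
    intro q
    by_cases h : q ∈ cone lam x ∩ S
    · have h' : ((x, q) : ℝ × (ℝ × ℝ)) ∈ W := ⟨h.1.1, h.1.2, h.2⟩
      rw [indicator_of_mem h, indicator_of_mem h']
    · have h' : ((x, q) : ℝ × (ℝ × ℝ)) ∉ W := fun h' => h ⟨⟨h'.1, h'.2.1⟩, h'.2.2⟩
      rw [indicator_of_notMem h, indicator_of_notMem h']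
  rw [e]
  exact hG.lintegral_prod_right'

lemma UP_le_ALK (F : ℂ → ℂ) (lam : ℝ) (S : Set (ℝ × ℝ)) (m : ℕ) (x τ : ℝ) :
    UP F lam S m x τ ≤ ALK F lam S m x := lintegral_mono_set inter_subset_left

/-- Comparison of the upper parts at two vertices. -/
lemma UP_le {F : ℂ → ℂ} (hF : DifferentiableOn ℂ F uhp) {lam b σ τ : ℝ} (hlam : 0 < lam)
    (hlb : lam < b) (hτ : 0 < τ) (S : Set (ℝ × ℝ)) (m : ℕ) {x x' : ℝ} (hx : x ∈ vset F b σ) :
    UP F lam S m x τ ≤ UP F lam S m x' τ +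
      ENNReal.ofReal (|x - x'| * ((4 * σ * ((1 + b) / (b - lam))) ^ 2 / τ)) := by
  have hsub : (cone lam x ∩ S) ∩ {q : ℝ × ℝ | τ ≤ q.2} ⊆
      ((cone lam x' ∩ S) ∩ {q : ℝ × ℝ | τ ≤ q.2}) ∪
        ((cone lam x \ cone lam x') ∩ {q | τ ≤ q.2}) := by
    rintro q ⟨⟨h1, h2⟩, h3⟩
    by_cases h4 : q ∈ cone lam x'
    · left; exact ⟨⟨h4, h2⟩, h3⟩
    · right; exact ⟨⟨h1, h4⟩, h3⟩
  calc UP F lam S m x τ ≤ ∫⁻ q in ((cone lam x' ∩ S) ∩ {q : ℝ × ℝ | τ ≤ q.2}) ∪
        ((cone lam x \ cone lam x') ∩ {q | τ ≤ q.2}), gK F m q := lintegral_mono_set hsub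
    _ ≤ UP F lam S m x' τ + ∫⁻ q in (cone lam x \ cone lam x') ∩ {q | τ ≤ q.2}, gK F m q :=
        lintegral_union_le _ _ _
    _ ≤ UP F lam S m x' τ + ∫⁻ q in (cone lam x \ cone lam x') ∩ {q | τ ≤ q.2},
          ENNReal.ofReal (gsq F q) := by
        gcongr
        exact gK_le F m _
    _ ≤ _ := by
        gcongr
        exact far_bound hF hlam hlb hτ hx

/-- Splitting of the truncated area integral at the height `τ`. -/
lemma ALK_le (F : ℂ → ℂ) (lam : ℝ) (S : Set (ℝ × ℝ)) (m : ℕ) (x τ : ℝ) :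
    ALK F lam S m x ≤ UP F lam S m x τ +
      ∫⁻ q in cone lam x ∩ {q : ℝ × ℝ | q.2 < τ}, ENNReal.ofReal (gsq F q) := by
  have hsub : cone lam x ∩ S ⊆ ((cone lam x ∩ S) ∩ {q : ℝ × ℝ | τ ≤ q.2}) ∪
      (cone lam x ∩ {q : ℝ × ℝ | q.2 < τ}) := by
    rintro q ⟨h1, h2⟩
    rcases le_or_gt τ q.2 with h | h
    · left; exact ⟨⟨h1, h2⟩, h⟩
    · right; exact ⟨h1, h⟩
  calc ALK F lam S m x ≤ ∫⁻ q in ((cone lam x ∩ S) ∩ {q : ℝ × ℝ | τ ≤ q.2}) ∪
        (cone lam x ∩ {q : ℝ × ℝ | q.2 < τ}), gK F m q := lintegral_mono_set hsub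
    _ ≤ UP F lam S m x τ + ∫⁻ q in cone lam x ∩ {q : ℝ × ℝ | q.2 < τ}, gK F m q :=
        lintegral_union_le _ _ _
    _ ≤ _ := by
        gcongr
        exact gK_le F m _

lemma UP_top (F : ℂ → ℂ) (lam : ℝ) {S : Set (ℝ × ℝ)} (hS : MeasurableSet S) (m : ℕ) (x : ℝ)
    {τ : ℝ} (hτ : (m : ℝ) + 1 < τ) : UP F lam S m x τ = 0 := by
  unfold UP
  have hm : MeasurableSet ((cone lam x ∩ S) ∩ {q : ℝ × ℝ | τ ≤ q.2}) :=
    ((measurableSet_cone lam x).inter hS).inter (measurableSet_le measurable_const (by fun_prop))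
  have h : ∀ q ∈ (cone lam x ∩ S) ∩ {q : ℝ × ℝ | τ ≤ q.2}, gK F m q = 0 := by
    rintro q ⟨-, h3⟩
    unfold gK
    apply indicator_of_notMem
    intro h4
    have h5 : τ ≤ q.2 := h3
    have h6 : q.2 ≤ (m : ℝ) + 1 := h4.2.1
    linarith
  rw [setLIntegral_congr_fun hm h]
  simp

lemma UP_bot (F : ℂ → ℂ) (lam : ℝ) {S : Set (ℝ × ℝ)} (hS : MeasurableSet S) (m : ℕ) (x : ℝ)
    {τ : ℝ} (hτ : τ ≤ 1 / ((m : ℝ) + 1)) : ALK F lam S m x ≤ UP F lam S m x τ := by
  have hsub : cone lam x ∩ S ⊆ ((cone lam x ∩ S) ∩ {q : ℝ × ℝ | τ ≤ q.2}) ∪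
      ((cone lam x ∩ S) ∩ {q : ℝ × ℝ | q.2 < τ}) := by
    rintro q ⟨h1, h2⟩
    rcases le_or_gt τ q.2 with h | h
    · left; exact ⟨⟨h1, h2⟩, h⟩
    · right; exact ⟨⟨h1, h2⟩, h⟩
  have hm : MeasurableSet ((cone lam x ∩ S) ∩ {q : ℝ × ℝ | q.2 < τ}) :=
    ((measurableSet_cone lam x).inter hS).inter (measurableSet_lt (by fun_prop) measurable_const)
  have h : ∀ q ∈ (cone lam x ∩ S) ∩ {q : ℝ × ℝ | q.2 < τ}, gK F m q = 0 := by
    rintro q ⟨-, h3⟩
    unfold gK
    apply indicator_of_notMem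
    intro h4
    have h5 : q.2 < τ := h3
    have h6 : 1 / ((m : ℝ) + 1) ≤ q.2 := h4.1
    linarith
  calc ALK F lam S m x ≤ ∫⁻ q in ((cone lam x ∩ S) ∩ {q : ℝ × ℝ | τ ≤ q.2}) ∪
        ((cone lam x ∩ S) ∩ {q : ℝ × ℝ | q.2 < τ}), gK F m q := lintegral_mono_set hsub
    _ ≤ UP F lam S m x τ + ∫⁻ q in (cone lam x ∩ S) ∩ {q : ℝ × ℝ | q.2 < τ}, gK F m q :=
        lintegral_union_le _ _ _
    _ = UP F lam S m x τ := by
        rw [setLIntegral_congr_fun hm h]
        simp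

/-- The stopping height and the point of `S` at this height. -/
lemma exists_pt (F : ℂ → ℂ) (lam : ℝ) {S : Set (ℝ × ℝ)} (hS : MeasurableSet S) (m : ℕ) (x : ℝ)
    {s : ℝ} (hs : 0 < s) (hx : ENNReal.ofReal (4 * s ^ 2) < ALK F lam S m x) :
    ∃ (τ : ℝ) (w : ℝ × ℝ), 0 < τ ∧ τ ≤ m + 2 ∧ ENNReal.ofReal (2 * s ^ 2) ≤ UP F lam S m x τ ∧
      UP F lam S m x (2 * τ) ≤ ENNReal.ofReal (2 * s ^ 2) ∧ w ∈ cone lam x ∧ w ∈ S ∧
      τ ≤ w.2 ∧ w.2 < 2 * τ := by
  classical
  have hm0 : (0 : ℝ) ≤ m := Nat.cast_nonneg m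
  have hex : ∃ k : ℕ, ENNReal.ofReal (2 * s ^ 2) ≤ UP F lam S m x (((m : ℝ) + 2) / 2 ^ k) := by
    obtain ⟨k, hk⟩ := pow_unbounded_of_one_lt (((m : ℝ) + 2) * (m + 1)) (one_lt_two)
    refine ⟨k, ?_⟩
    have h1 : ((m : ℝ) + 2) / 2 ^ k ≤ 1 / ((m : ℝ) + 1) := by
      rw [div_le_div_iff₀ (by positivity) (by positivity)]
      linarith
    refine le_trans ?_ (UP_bot F lam hS m x h1)
    refine le_trans (ENNReal.ofReal_le_ofReal ?_) hx.le
    nlinarith [sq_nonneg s]
  have hk := Nat.find_spec hex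
  have hkmin := fun j => Nat.find_min hex (m := j)
  set k := Nat.find hex with hkdef
  have hpos : 0 < s ^ 2 := by positivity
  have h2 : ENNReal.ofReal (2 * s ^ 2) ≠ 0 := by
    rw [Ne, ENNReal.ofReal_eq_zero, not_le]; positivity
  have hk0 : k ≠ 0 := by
    intro h0
    rw [h0, pow_zero, div_one, UP_top F lam hS m x (by linarith)] at hk
    exact h2 (le_antisymm hk bot_le)
  obtain ⟨j, hj⟩ := Nat.exists_eq_succ_of_ne_zero hk0
  have hj2 := hkmin j (by omega)
  have e : 2 * (((m : ℝ) + 2) / 2 ^ k) = ((m : ℝ) + 2) / 2 ^ j := by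
    rw [hj, pow_succ]; field_simp
  push Not at hj2
  rw [← e] at hj2
  have hτ : 0 < ((m : ℝ) + 2) / 2 ^ k := by positivity
  have hτ2 : ((m : ℝ) + 2) / 2 ^ k ≤ m + 2 := by
    apply div_le_self (by positivity)
    exact one_le_pow₀ one_le_two
  set τ : ℝ := ((m : ℝ) + 2) / 2 ^ k with hτdef
  have hw : ∃ w : ℝ × ℝ, w ∈ cone lam x ∧ w ∈ S ∧ τ ≤ w.2 ∧ w.2 < 2 * τ := by
    by_contra hcon
    push Not at hcon
    have hsub : (cone lam x ∩ S) ∩ {q : ℝ × ℝ | τ ≤ q.2} ⊆
        (cone lam x ∩ S) ∩ {q : ℝ × ℝ | 2 * τ ≤ q.2} := by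
      rintro q ⟨⟨h1, h3⟩, h4⟩
      exact ⟨⟨h1, h3⟩, hcon q h1 h3 h4⟩
    have h5 : UP F lam S m x τ ≤ UP F lam S m x (2 * τ) := lintegral_mono_set hsub
    exact absurd (hk.trans h5) (not_le.2 hj2)
  obtain ⟨w, hw1, hw2, hw3, hw4⟩ := hw
  exact ⟨τ, w, hτ, hτ2, hk, hj2.le, hw1, hw2, hw3, hw4⟩

end GLi

theorem stGL : StGL := by
  intro lam la b C ε hlam hlla hlb hC hε
  obtain ⟨K, hK, hsaw⟩ := saw hlam hlb
  have hla : 0 < la := hlam.trans hlla
  have hb : 0 < b := hlam.trans hlb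
  have hbl : 0 < b - lam := by linarith
  set C1 : ℝ := 4 * ((1 + b) / (b - lam)) with hC1
  have hC1pos : 0 < C1 := by positivity
  set R : ℝ := 2 * lam + 10 * la with hR
  have hRpos : 0 < R := by positivity
  refine ⟨K * (R + 2), 1 / (C1 * (R + 2)), by positivity, by positivity, ?_⟩
  intro ν S hS hν F hF m s γ hs hγ hγc
  have hγC : γ * C1 ≤ 1 / (R + 2) := by
    calc γ * C1 ≤ 1 / (C1 * (R + 2)) * C1 := by gcongr
      _ = 1 / (R + 2) := by field_simp
  have hγC2 : (γ * C1) ^ 2 ≤ 1 / (R + 2) ^ 2 := by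
    calc (γ * C1) ^ 2 ≤ (1 / (R + 2)) ^ 2 := by gcongr
      _ = 1 / (R + 2) ^ 2 := by rw [div_pow, one_pow]
  have hfar : ∀ D τ : ℝ, D * ((4 * (γ * s) * ((1 + b) / (b - lam))) ^ 2 / τ) =
      D / τ * (γ * C1) ^ 2 * s ^ 2 := by
    intro D τ; rw [hC1]; ring
  have hs2 : 0 < s ^ 2 := by positivity
  set E : Set ℝ := {t | ENNReal.ofReal (4 * s ^ 2) < ALK F lam S m t} ∩ vset F b (γ * s) with hE
  have hEm : MeasurableSet E :=
    (measurableSet_lt measurable_const (GLi.measurable_ALK F lam hS m)).inter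
      (isClosed_vset hF b _).measurableSet
  -- stopping heights
  have hpt : ∀ x : ℝ, ∃ (τ : ℝ) (w : ℝ × ℝ), x ∈ E → 0 < τ ∧ τ ≤ m + 2 ∧
      ENNReal.ofReal (2 * s ^ 2) ≤ GLi.UP F lam S m x τ ∧
      GLi.UP F lam S m x (2 * τ) ≤ ENNReal.ofReal (2 * s ^ 2) ∧ w ∈ cone lam x ∧ w ∈ S ∧
      τ ≤ w.2 ∧ w.2 < 2 * τ := by
    intro x
    by_cases hx : x ∈ E
    · obtain ⟨τ, w, h⟩ := GLi.exists_pt F lam hS m x hs hx.1
      exact ⟨τ, w, fun _ => h⟩
    · exact ⟨0, 0, fun h => absurd h hx⟩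
  choose τ w hτw using hpt
  -- claim 1
  have claim1 : ∀ x ∈ E, Icc ((w x).1 - la * (w x).2) ((w x).1 + la * (w x).2) ⊆
      {t | ENNReal.ofReal (s ^ 2) < ALK F lam S m t} := by
    intro x hx t ht
    obtain ⟨h1, h2, h3, h4, h5, h6, h7, h8⟩ := hτw x hx
    show ENNReal.ofReal (s ^ 2) < ALK F lam S m t
    by_contra hcon
    push Not at hcon
    have hdist : |x - t| ≤ R * τ x := by
      have h9 := abs_le.1 h5.1
      have h10 : la * (w x).2 ≤ la * (2 * τ x) := by gcongr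
      have h11 : lam * (w x).2 ≤ lam * (2 * τ x) := by gcongr
      have h12 : 0 < la * τ x := by positivity
      rw [abs_le]
      constructor
      · rw [hR]; linarith [ht.1, ht.2, h9.1, h9.2]
      · rw [hR]; linarith [ht.1, ht.2, h9.1, h9.2]
    have h13 := GLi.UP_le hF hlam hlb h1 S m (x' := t) hx.2
    have h14 : |x - t| * ((4 * (γ * s) * ((1 + b) / (b - lam))) ^ 2 / τ x) ≤ 1 / 2 * s ^ 2 := by
      rw [hfar]
      have h15 : |x - t| / τ x ≤ R := by rw [div_le_iff₀ h1]; exact hdist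
      calc |x - t| / τ x * (γ * C1) ^ 2 * s ^ 2 ≤ R * (1 / (R + 2) ^ 2) * s ^ 2 := by gcongr
        _ ≤ 1 / 2 * s ^ 2 := by
          gcongr
          rw [mul_one_div, div_le_div_iff₀ (by positivity) (by positivity)]
          nlinarith
    have h16 : ENNReal.ofReal (2 * s ^ 2) ≤ ENNReal.ofReal (s ^ 2) +
        ENNReal.ofReal (1 / 2 * s ^ 2) := by
      calc ENNReal.ofReal (2 * s ^ 2) ≤ GLi.UP F lam S m x (τ x) := h3
        _ ≤ _ := h13
        _ ≤ _ := by
          gcongr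
          exact (GLi.UP_le_ALK F lam S m t (τ x)).trans hcon
    rw [← ENNReal.ofReal_add (by positivity) (by positivity),
      ENNReal.ofReal_le_ofReal_iff (by positivity)] at h16
    linarith
  -- claim 2
  have claim2 : ∀ x ∈ E, volume (E ∩ Icc (x - R * τ x) (x + R * τ x)) ≤
      ENNReal.ofReal (K * (R + 2) * γ ^ 2 * τ x) := by
    intro x hx
    obtain ⟨h1, h2, h3, h4, h5, h6, h7, h8⟩ := hτw x hx
    have hnear : ∀ t ∈ E ∩ Icc (x - R * τ x) (x + R * τ x), ENNReal.ofReal (s ^ 2) ≤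
        ∫⁻ q in cone lam t ∩ {q | q.2 < 2 * τ x}, ENNReal.ofReal (gsq F q) := by
      rintro t ⟨ht1, ht2⟩
      have hdist : |t - x| ≤ R * τ x := by
        rw [abs_le]; constructor <;> linarith [ht2.1, ht2.2]
      have h13 := GLi.UP_le hF hlam hlb (by positivity : 0 < 2 * τ x) S m (x' := x) ht1.2
      have h14 : |t - x| * ((4 * (γ * s) * ((1 + b) / (b - lam))) ^ 2 / (2 * τ x)) ≤
          1 * s ^ 2 := by
        rw [hfar]
        have h15 : |t - x| / (2 * τ x) ≤ R := by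
          rw [div_le_iff₀ (by positivity)]; nlinarith [mul_pos hRpos h1]
        calc |t - x| / (2 * τ x) * (γ * C1) ^ 2 * s ^ 2 ≤ R * (1 / (R + 2) ^ 2) * s ^ 2 := by
              gcongr
          _ ≤ 1 * s ^ 2 := by
            gcongr
            rw [mul_one_div, div_le_one (by positivity)]
            nlinarith
      by_contra hcon
      push Not at hcon
      have h17 : ALK F lam S m t ≤ ENNReal.ofReal (2 * s ^ 2) + ENNReal.ofReal (1 * s ^ 2) +
          ENNReal.ofReal (s ^ 2) := by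
        refine (GLi.ALK_le F lam S m t (2 * τ x)).trans ?_
        gcongr
        refine h13.trans ?_
        gcongr
      rw [← ENNReal.ofReal_add (by positivity) (by positivity),
        ← ENNReal.ofReal_add (by positivity) (by positivity)] at h17
      have h18 : 2 * s ^ 2 + 1 * s ^ 2 + s ^ 2 = 4 * s ^ 2 := by ring
      rw [h18] at h17
      exact absurd ht1.1 (not_lt.2 h17)
    have h19 := hsaw F hF (E ∩ Icc (x - R * τ x) (x + R * τ x)) x (R * τ x) (2 * τ x) (γ * s)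
      (by positivity) (by positivity) (by positivity) inter_subset_right (by
        rintro z y hy ⟨t, ht, hty⟩
        exact ht.1.2 z y hy hty)
    have h20 : ENNReal.ofReal (s ^ 2) * volume (E ∩ Icc (x - R * τ x) (x + R * τ x)) ≤
        ENNReal.ofReal (K * (γ * s) ^ 2 * (R * τ x + 2 * τ x)) := by
      calc ENNReal.ofReal (s ^ 2) * volume (E ∩ Icc (x - R * τ x) (x + R * τ x))
          = ∫⁻ t in E ∩ Icc (x - R * τ x) (x + R * τ x), ENNReal.ofReal (s ^ 2) := by
            rw [setLIntegral_const]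
        _ ≤ ∫⁻ t in E ∩ Icc (x - R * τ x) (x + R * τ x),
              ∫⁻ q in cone lam t ∩ {q | q.2 < 2 * τ x}, ENNReal.ofReal (gsq F q) :=
            setLIntegral_mono' (hEm.inter measurableSet_Icc) hnear
        _ ≤ _ := h19
    have h21 : K * (γ * s) ^ 2 * (R * τ x + 2 * τ x) = s ^ 2 * (K * (R + 2) * γ ^ 2 * τ x) := by
      ring
    rw [h21, ENNReal.ofReal_mul (by positivity : (0:ℝ) ≤ s ^ 2)] at h20
    have h22 : ENNReal.ofReal (s ^ 2) ≠ 0 := by
      rw [Ne, ENNReal.ofReal_eq_zero, not_le]; positivity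
    exact (ENNReal.mul_le_mul_iff_right h22 ENNReal.ofReal_ne_top).1 h20
  -- Vitali covering
  have hwpos : ∀ x ∈ E, 0 < (w x).2 := by
    intro x hx
    obtain ⟨h1, h2, h3, h4, h5, h6, h7, h8⟩ := hτw x hx
    linarith
  obtain ⟨u, huE, hdisj, hcov⟩ := Vitali.exists_disjoint_subfamily_covering_enlargement_closedBall
    E (fun x => (w x).1) (fun x => la * (w x).2) (la * (2 * (m + 2))) (by
      intro x hx
      obtain ⟨h1, h2, h3, h4, h5, h6, h7, h8⟩ := hτw x hx
      have : (w x).2 ≤ 2 * (m + 2) := by linarith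
      gcongr) 5 (by norm_num)
  have hcount : u.Countable := by
    apply hdisj.countable_of_nonempty_interior
    intro x hx
    have h1 : (ball (w x).1 (la * (w x).2)).Nonempty := by
      rw [nonempty_ball]
      exact mul_pos hla (hwpos x (huE hx))
    exact h1.mono (interior_maximal ball_subset_closedBall isOpen_ball)
  have hEcov : E ⊆ ⋃ x ∈ u, E ∩ Icc ((w x).1 - 5 * la * (w x).2) ((w x).1 + 5 * la * (w x).2) := by
    intro t ht
    obtain ⟨x, hxu, hx⟩ := hcov t ht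
    obtain ⟨h1, h2, h3, h4, h5, h6, h7, h8⟩ := hτw t ht
    have h9 : t ∈ closedBall (w t).1 (la * (w t).2) := by
      rw [mem_closedBall, Real.dist_eq]
      refine h5.1.trans ?_
      have := hwpos t ht
      gcongr
    have h10 := hx h9
    rw [Real.closedBall_eq_Icc] at h10
    refine mem_iUnion₂.2 ⟨x, hxu, ht, ?_, ?_⟩
    · linarith [h10.1]
    · linarith [h10.2]
  have hterm : ∀ x ∈ u, ν (E ∩ Icc ((w x).1 - 5 * la * (w x).2) ((w x).1 + 5 * la * (w x).2)) ≤
      ENNReal.ofReal (C * (K * (R + 2) * γ ^ 2) ^ ε) *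
        ν (Icc ((w x).1 - la * (w x).2) ((w x).1 + la * (w x).2)) := by
    intro x hx
    have hxE := huE hx
    obtain ⟨h1, h2, h3, h4, h5, h6, h7, h8⟩ := hτw x hxE
    have hw0 := hwpos x hxE
    refine (hν (w x) h6 hw0 _ (hEm.inter measurableSet_Icc) inter_subset_right).trans ?_
    gcongr
    have h9 : E ∩ Icc ((w x).1 - 5 * la * (w x).2) ((w x).1 + 5 * la * (w x).2) ⊆
        E ∩ Icc (x - R * τ x) (x + R * τ x) := by
      apply inter_subset_inter_right
      have h10 := abs_le.1 h5.1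
      have h11 : la * (w x).2 ≤ la * (2 * τ x) := by gcongr
      have h12 : lam * (w x).2 ≤ lam * (2 * τ x) := by gcongr
      apply Icc_subset_Icc
      · rw [hR]; linarith [h10.1, h10.2]
      · rw [hR]; linarith [h10.1, h10.2]
    have h13 : volume.real (E ∩ Icc ((w x).1 - 5 * la * (w x).2) ((w x).1 + 5 * la * (w x).2)) ≤
        K * (R + 2) * γ ^ 2 * τ x := by
      have h14 := (measure_mono h9).trans (claim2 x hxE)
      have h15 := ENNReal.toReal_mono ENNReal.ofReal_ne_top h14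
      rwa [ENNReal.toReal_ofReal (by positivity)] at h15
    rw [div_le_iff₀ hw0]
    refine h13.trans ?_
    gcongr
  calc ν E ≤ ν (⋃ x ∈ u, E ∩ Icc ((w x).1 - 5 * la * (w x).2) ((w x).1 + 5 * la * (w x).2)) :=
        measure_mono hEcov
    _ ≤ ∑' x : u, ν (E ∩ Icc ((w x).1 - 5 * la * (w x).2) ((w x).1 + 5 * la * (w x).2)) :=
        measure_biUnion_le ν hcount _
    _ ≤ ∑' x : u, ENNReal.ofReal (C * (K * (R + 2) * γ ^ 2) ^ ε) *
        ν (Icc ((w x).1 - la * (w x).2) ((w x).1 + la * (w x).2)) :=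
        ENNReal.tsum_le_tsum fun x => hterm x.1 x.2
    _ = ENNReal.ofReal (C * (K * (R + 2) * γ ^ 2) ^ ε) *
        ∑' x : u, ν (Icc ((w x).1 - la * (w x).2) ((w x).1 + la * (w x).2)) :=
        ENNReal.tsum_mul_left
    _ = ENNReal.ofReal (C * (K * (R + 2) * γ ^ 2) ^ ε) *
        ν (⋃ x ∈ u, Icc ((w x).1 - la * (w x).2) ((w x).1 + la * (w x).2)) := by
        congr 1
        rw [measure_biUnion hcount _ (fun x _ => measurableSet_Icc)]
        intro x hx y hy hxy
        have := hdisj hx hy hxy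
        simp only [Function.onFun, Real.closedBall_eq_Icc] at this ⊢
        exact this
    _ ≤ _ := by
        gcongr
        apply iUnion₂_subset
        intro x hx
        exact claim1 x (huE hx)

end Pool.Agent.Work.MP_055a27_an.Cr3

end

section

/-!
# Item Gd: bounds near a root
-/

open MeasureTheory Set Filter Topology Complex Metric
open scoped ENNReal NNReal

namespace Pool.Agent.Work.MP_055a27_an.Cr3

open Crit (lg cc CC Pk hU)
open Nv (mx)

namespace Gd

lemma norm_bounds {w : ℂ} {z y r : ℝ} (h : ‖w - (z + y * I)‖ ≤ r) :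
    |w.re - z| ≤ r ∧ |w.im - y| ≤ r := by
  have h1 := Complex.abs_re_le_norm (w - (z + y * I))
  have h2 := Complex.abs_im_le_norm (w - (z + y * I))
  simp at h1 h2
  exact ⟨h1.trans h, h2.trans h⟩

end Gd

theorem stGd (hBas : StBas) (hHar : StHar) : StGd := by
  intro la μ U hH
  obtain ⟨C, hC1, hC⟩ := hBas.2.2 la μ U hH
  obtain ⟨hla, hlm, hW, hS⟩ := hH
  have hadm : Admissible (lg U) := hW.2.2
  have hμ : 0 < μ := hla.trans hlm
  set r : ℝ := min (1 / 2) ((μ - la) / (1 + μ)) with hr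
  have hr0 : 0 < r := lt_min (by norm_num) (div_pos (by linarith) (by linarith))
  have hr1 : r ≤ 1 / 2 := min_le_left _ _
  have hr2 : r * (1 + μ) ≤ μ - la := by
    have : r ≤ (μ - la) / (1 + μ) := min_le_right _ _
    rwa [le_div_iff₀ (by linarith)] at this
  set β : ℝ := C + Real.log 2 with hβ
  have hlog2 : 0 < Real.log 2 := Real.log_pos (by norm_num)
  have hβ1 : 1 ≤ β := by linarith
  refine ⟨12 * (1 + β) / r, r / 4, ?_, by positivity, by linarith, ?_⟩
  · rw [le_div_iff₀ hr0]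
    nlinarith
  intro z y m hR w hw
  obtain ⟨hy, hm, hg⟩ := hR
  set L := LL la U z y with hL
  set c : ℂ := z + y * I with hc
  have hpt : ∀ v ∈ ball c (r * y), y / 2 < v.im ∧ 0 ≤ (schw (lg U) v - (L : ℂ) + (β : ℂ)).re := by
    intro v hv
    rw [mem_ball_iff_norm] at hv
    obtain ⟨h1, h2⟩ := Gd.norm_bounds hv.le
    have h3 : |v.im - y| < r * y := by
      have h4 := Complex.abs_im_le_norm (v - (z + y * I))
      simp at h4
      exact lt_of_le_of_lt h4 hv
    have h5 := abs_lt.1 h3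
    have him : y / 2 < v.im := by nlinarith
    have hvim : 0 < v.im := by linarith
    refine ⟨him, ?_⟩
    have hvy : v.im ≤ 2 * y := by nlinarith
    have h6 : |v.re - z| + la * y ≤ μ * v.im := by
      have : μ * (y - r * y) ≤ μ * v.im := mul_le_mul_of_nonneg_left (by linarith) hμ.le
      nlinarith
    have h7 := hC z y v.re v.im hy hvim h6
    have h8 : Real.log (v.im / y) ≤ Real.log 2 := by
      apply Real.log_le_log (by positivity)
      rw [div_le_iff₀ hy]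
      exact hvy
    have h9 : poisson (lg U) v.re v.im = (schw (lg U) v).re := by
      rw [poisson_eq_re hadm hvim, Complex.re_add_im]
    rw [h9] at h7
    simp only [Complex.add_re, Complex.sub_re, Complex.ofReal_re]
    linarith
  have hdiff : DifferentiableOn ℂ (fun v => schw (lg U) v - (L : ℂ) + (β : ℂ)) (ball c (r * y)) := by
    intro v hv
    have hvim : 0 < v.im := by linarith [(hpt v hv).1]
    exact (((hasDerivAt_schw hadm hvim).sub_const _).add_const _).differentiableAt.differentiableWithinAt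
  have hry : 0 < r * y := by positivity
  have key := hHar (fun v => schw (lg U) v - (L : ℂ) + (β : ℂ)) c (r * y) hry hdiff
    (fun v hv => (hpt v hv).2)
  have hwb : w ∈ ball c (r * y / 2) := by
    rw [mem_ball_iff_norm]
    refine lt_of_le_of_lt hw ?_
    linarith
  have hwb' : w ∈ ball c (r * y) := ball_subset_ball (by linarith) hwb
  obtain ⟨-, k2, k3⟩ := key w hwb
  have hwim : 0 < w.im := by linarith [(hpt w hwb').1]
  have hder : deriv (fun v => schw (lg U) v - (L : ℂ) + (β : ℂ)) w = dschw (lg U) w :=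
    (((hasDerivAt_schw hadm hwim).sub_const _).add_const _).deriv
  have hcre : (schw (lg U) c - (L : ℂ) + (β : ℂ)).re ≤ (1 + β) * m := by
    have h1 : (schw (lg U) c).re = poisson (lg U) z y := by
      rw [hc, poisson_eq_re hadm hy]
    simp only [Complex.add_re, Complex.sub_re, Complex.ofReal_re, h1]
    unfold gg at hg
    nlinarith
  have hw0 := (hpt w hwb').2
  rw [hder] at k3
  constructor
  · refine k3.trans ?_
    have : 12 / (r * y) * (schw (lg U) c - (L : ℂ) + (β : ℂ)).re ≤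
        12 / (r * y) * ((1 + β) * m) := mul_le_mul_of_nonneg_left hcre (by positivity)
    refine this.trans (le_of_eq ?_)
    field_simp
  · simp only [Complex.add_re, Complex.sub_re, Complex.ofReal_re] at k2 hw0 hcre
    have h1 : 3 * ((1 + β) * m) ≤ 12 * (1 + β) / r * m := by
      rw [div_mul_eq_mul_div, le_div_iff₀ hr0]
      have : 0 ≤ (1 + β) * m := by positivity
      nlinarith
    rw [abs_le]
    constructor
    · nlinarith
    · linarith

end Pool.Agent.Work.MP_055a27_an.Cr3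

end

section

/-!
# Item Gr: growth of the Poisson integral above a root
-/

open MeasureTheory Set Filter Topology Complex Metric
open scoped ENNReal NNReal

namespace Pool.Agent.Work.MP_055a27_an.Cr3

open Crit (lg cc CC Pk hU)
open Nv (mx)

namespace Gr

/-- the radius. -/
noncomputable def rh (la μ : ℝ) : ℝ := min (μ - la) (μ / 2) / (1 + μ)

theorem rh_facts {la μ : ℝ} (h0 : 0 < la) (h1 : la < μ) :
    0 < rh la μ ∧ rh la μ ≤ 1 / 2 ∧ rh la μ * (1 + μ) ≤ μ - la ∧ rh la μ * (1 + μ) ≤ μ / 2 := by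
  have hμ : 0 < μ := h0.trans h1
  have h2 : 0 < 1 + μ := by linarith
  have h3 : rh la μ * (1 + μ) = min (μ - la) (μ / 2) := by
    unfold rh
    field_simp
  have h4 : 0 < min (μ - la) (μ / 2) := lt_min (by linarith) (by linarith)
  refine ⟨div_pos h4 h2, ?_, ?_, ?_⟩
  · unfold rh
    rw [div_le_iff₀ h2]
    have := min_le_right (μ - la) (μ / 2)
    linarith
  · rw [h3]
    exact min_le_left _ _
  · rw [h3]
    exact min_le_right _ _

/-- the lower bound on a ball. -/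
theorem low {la μ C0 : ℝ} {U : ℝ → ℝ} (hla : 0 < la) (hμ : la < μ) (hadm : Admissible (lg U))
    (hC : ∀ z y z' y' : ℝ, 0 < y → 0 < y' → |z' - z| + la * y ≤ μ * y' →
      LL la U z y ≤ poisson (lg U) z' y' + Real.log (y' / y) + C0)
    {z y z1 y1 : ℝ} (hy : 0 < y) (hy1 : y ≤ y1) (hz1 : |z1 - z| ≤ μ / 2 * (y1 - y)) {w : ℂ}
    (hw : w ∈ ball ((z1 : ℂ) + y1 * I) (rh la μ * y1)) :
    0 < w.im ∧ 0 ≤ (schw (lg U) w).re - LL la U z y + (C0 + Real.log (2 * y1 / y)) := by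
  obtain ⟨r0, r1, r2, r3⟩ := rh_facts hla hμ
  have hy1p : 0 < y1 := hy.trans_le hy1
  rw [mem_ball, dist_eq_norm] at hw
  have e1 : |w.re - z1| < rh la μ * y1 := by
    have h := (Complex.abs_re_le_norm (w - ((z1 : ℂ) + y1 * I))).trans_lt hw
    simpa using h
  have e2 : |w.im - y1| < rh la μ * y1 := by
    have h := (Complex.abs_im_le_norm (w - ((z1 : ℂ) + y1 * I))).trans_lt hw
    simpa using h
  have hr1 : rh la μ * y1 ≤ 1 / 2 * y1 := mul_le_mul_of_nonneg_right r1 hy1p.le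
  rw [abs_lt] at e1 e2
  have him : 0 < w.im := by linarith [e2.1]
  refine ⟨him, ?_⟩
  have hμ0 : 0 < μ := hla.trans hμ
  have hcond : |w.re - z| + la * y ≤ μ * w.im := by
    have h1 : |w.re - z| ≤ rh la μ * y1 + μ / 2 * (y1 - y) := by
      calc |w.re - z| = |(w.re - z1) + (z1 - z)| := by ring_nf
        _ ≤ |w.re - z1| + |z1 - z| := abs_add_le _ _
        _ ≤ rh la μ * y1 + μ / 2 * (y1 - y) :=
            add_le_add (abs_le.2 ⟨e1.1.le, e1.2.le⟩) hz1
    have h2 : μ * (y1 - rh la μ * y1) ≤ μ * w.im :=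
      mul_le_mul_of_nonneg_left (by linarith [e2.1]) hμ0.le
    have h3 : rh la μ * (1 + μ) * (y1 - y) ≤ μ / 2 * (y1 - y) :=
      mul_le_mul_of_nonneg_right r3 (by linarith)
    have h4 : rh la μ * (1 + μ) * y ≤ (μ - la) * y := mul_le_mul_of_nonneg_right r2 hy.le
    linarith
  have h5 := hC z y w.re w.im hy him hcond
  have h6 : poisson (lg U) w.re w.im = (schw (lg U) w).re := by
    rw [poisson_eq_re hadm him, Complex.re_add_im]
  have h7 : Real.log (w.im / y) ≤ Real.log (2 * y1 / y) := by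
    refine Real.log_le_log (div_pos him hy) ?_
    exact div_le_div_of_nonneg_right (by linarith [e2.2]) hy.le
  rw [h6] at h5
  linarith

/-- one Harnack step. -/
theorem harn (hHar : StHar) {la μ C0 : ℝ} {U : ℝ → ℝ} (hla : 0 < la) (hμ : la < μ)
    (hadm : Admissible (lg U))
    (hC : ∀ z y z' y' : ℝ, 0 < y → 0 < y' → |z' - z| + la * y ≤ μ * y' →
      LL la U z y ≤ poisson (lg U) z' y' + Real.log (y' / y) + C0)
    {z y z1 y1 z2 y2 : ℝ} (hy : 0 < y) (hy1 : y ≤ y1) (hz1 : |z1 - z| ≤ μ / 2 * (y1 - y))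
    (hy2 : 0 < y2) (hd : |z2 - z1| + |y2 - y1| < rh la μ * y1 / 2) :
    poisson (lg U) z2 y2 - LL la U z y ≤
      3 * (poisson (lg U) z1 y1 - LL la U z y) + 2 * (C0 + Real.log (2 * y1 / y)) := by
  obtain ⟨r0, r1, r2, r3⟩ := rh_facts hla hμ
  have hy1p : 0 < y1 := hy.trans_le hy1
  set β : ℝ := C0 + Real.log (2 * y1 / y) with hβ
  set c : ℂ := (z1 : ℂ) + y1 * I with hc
  set G : ℂ → ℂ := fun w => schw (lg U) w - ((LL la U z y : ℝ) : ℂ) + ((β : ℝ) : ℂ) with hG
  have hre : ∀ w, (G w).re = (schw (lg U) w).re - LL la U z y + β := by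
    intro w
    simp [hG]
  have h1 : DifferentiableOn ℂ G (ball c (rh la μ * y1)) := by
    intro w hw
    have him := (low hla hμ hadm hC hy hy1 hz1 hw).1
    exact (((hasDerivAt_schw hadm him).differentiableAt.sub_const _).add_const
      _).differentiableWithinAt
  have h2 : ∀ w ∈ ball c (rh la μ * y1), 0 ≤ (G w).re := by
    intro w hw
    rw [hre]
    exact (low hla hμ hadm hC hy hy1 hz1 hw).2
  have h3 : ((z2 : ℂ) + y2 * I) ∈ ball c (rh la μ * y1 / 2) := by
    rw [mem_ball, dist_eq_norm]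
    have h4 : ((z2 : ℂ) + y2 * I) - c = ((z2 - z1 : ℝ) : ℂ) + ((y2 - y1 : ℝ) : ℂ) * I := by
      rw [hc]
      push_cast
      ring
    rw [h4]
    refine (norm_add_le _ _).trans_lt ?_
    rw [norm_mul, Complex.norm_I, mul_one, Complex.norm_real, Complex.norm_real,
      Real.norm_eq_abs, Real.norm_eq_abs]
    exact hd
  have h5 := (hHar G c (rh la μ * y1) (mul_pos r0 hy1p) h1 h2 _ h3).2.1
  rw [hre, hre, ← poisson_eq_re hadm hy2, hc, ← poisson_eq_re hadm hy1p] at h5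
  linarith

/-- the chain. -/
theorem chain (hHar : StHar) {la μ C0 : ℝ} {U : ℝ → ℝ} (hla : 0 < la) (hμ : la < μ)
    (hadm : Admissible (lg U)) (hC0 : 1 ≤ C0)
    (hC : ∀ z y z' y' : ℝ, 0 < y → 0 < y' → |z' - z| + la * y ≤ μ * y' →
      LL la U z y ≤ poisson (lg U) z' y' + Real.log (y' / y) + C0)
    {z y m s q : ℝ} (hy : 0 < y) (hm : 1 ≤ m) (hg : gg la U z y ≤ m) (hs : |s| ≤ μ / 2)
    (hq : q = 1 + rh la μ / (4 * (1 + μ))) (k : ℕ) :
    ∀ t : ℝ, y ≤ t → t ≤ q ^ k * y →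
      poisson (lg U) (z + s * (t - y)) t - LL la U z y ≤ 4 ^ k * ((2 * C0 + 3) * m) := by
  obtain ⟨r0, r1, r2, r3⟩ := rh_facts hla hμ
  have hμ0 : 0 < μ := hla.trans hμ
  have hD : 2 * C0 + 3 ≤ (2 * C0 + 3) * m := le_mul_of_one_le_right (by linarith) hm
  have hq1 : 1 < q := by
    rw [hq]
    have : 0 < rh la μ / (4 * (1 + μ)) := by positivity
    linarith
  have hq2 : q ≤ 2 := by
    rw [hq]
    have : rh la μ / (4 * (1 + μ)) ≤ 1 := by
      rw [div_le_one (by positivity)]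
      linarith
    linarith
  have hq0 : 0 < q := by linarith
  induction k with
  | zero =>
    intro t h1 h2
    rw [pow_zero, one_mul] at h2
    have ht : t = y := le_antisymm h2 h1
    subst ht
    rw [sub_self, mul_zero, add_zero, pow_zero, one_mul]
    have h3 : poisson (lg U) z t - LL la U z t ≤ m := hg
    have h4 : m ≤ (2 * C0 + 3) * m := le_mul_of_one_le_left (by linarith) (by linarith)
    linarith
  | succ k ih =>
    intro t h1 h2
    set t1 : ℝ := max y (t / q) with ht1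
    have g1 : y ≤ t1 := le_max_left _ _
    have g2 : t1 ≤ t := max_le h1 (div_le_self (hy.le.trans h1) hq1.le)
    have g3 : t ≤ q * t1 := by
      have : t / q ≤ t1 := le_max_right _ _
      rw [div_le_iff₀ hq0] at this
      linarith
    have g4 : t1 ≤ q ^ k * y := by
      refine max_le ?_ ?_
      · have : (1 : ℝ) ≤ q ^ k := one_le_pow₀ hq1.le
        exact le_mul_of_one_le_left hy.le this
      · rw [div_le_iff₀ hq0]
        calc t ≤ q ^ (k + 1) * y := h2
          _ = q ^ k * y * q := by ring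
    have ht1p : 0 < t1 := hy.trans_le g1
    have htp : 0 < t := ht1p.trans_le g2
    have g5 : |z + s * (t1 - y) - z| ≤ μ / 2 * (t1 - y) := by
      rw [add_sub_cancel_left, abs_mul, abs_of_nonneg (by linarith : (0 : ℝ) ≤ t1 - y)]
      exact mul_le_mul_of_nonneg_right hs (by linarith)
    have g6 : |z + s * (t - y) - (z + s * (t1 - y))| + |t - t1| < rh la μ * t1 / 2 := by
      have e1 : z + s * (t - y) - (z + s * (t1 - y)) = s * (t - t1) := by ring
      rw [e1, abs_mul, abs_of_nonneg (by linarith : (0 : ℝ) ≤ t - t1)]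
      have e2 : t - t1 ≤ rh la μ / (4 * (1 + μ)) * t1 := by
        rw [hq] at g3
        linarith
      have e3 : |s| * (t - t1) + (t - t1) ≤ (1 + μ) * (t - t1) := by
        have h7 : |s| * (t - t1) ≤ μ / 2 * (t - t1) :=
          mul_le_mul_of_nonneg_right hs (by linarith)
        have h8 : 0 ≤ μ / 2 * (t - t1) := mul_nonneg (by linarith) (by linarith)
        linarith
      have e4 : (1 + μ) * (t - t1) ≤ (1 + μ) * (rh la μ / (4 * (1 + μ)) * t1) :=
        mul_le_mul_of_nonneg_left e2 (by linarith)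
      have e5 : (1 + μ) * (rh la μ / (4 * (1 + μ)) * t1) = rh la μ * t1 / 4 := by
        have : (1 + μ) ≠ 0 := by linarith
        field_simp
      have e6 : 0 < rh la μ * t1 := mul_pos r0 ht1p
      linarith
    have h3 := harn hHar hla hμ hadm hC hy g1 g5 htp g6
    have h4 := ih t1 g1 g4
    have h5 : Real.log (2 * t1 / y) ≤ 1 + k := by
      have e1 : 2 * t1 / y ≤ 2 * q ^ k := by
        rw [div_le_iff₀ hy]
        linarith
      have e2 : (2 : ℝ) * q ^ k ≤ 2 * 2 ^ k := by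
        have := pow_le_pow_left₀ hq0.le hq2 k
        linarith
      calc Real.log (2 * t1 / y) ≤ Real.log (2 ^ (k + 1)) := by
            refine Real.log_le_log (by positivity) ?_
            rw [pow_succ]
            linarith
        _ = (k + 1 : ℕ) * Real.log 2 := by rw [Real.log_pow]
        _ ≤ (k + 1 : ℕ) * 1 := by
            refine mul_le_mul_of_nonneg_left ?_ (by positivity)
            have := Real.log_two_lt_d9
            linarith
        _ = 1 + k := by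
            push_cast
            ring
    have h6 : ((1 : ℝ) + k) ≤ 4 ^ k := by
      have h7 : ∀ j : ℕ, ((1 : ℝ) + j) ≤ 4 ^ j := by
        intro j
        induction j with
        | zero => norm_num
        | succ j ihj =>
          rw [pow_succ]
          push_cast
          have : (1 : ℝ) ≤ 4 ^ j := one_le_pow₀ (by norm_num)
          linarith
      exact h7 k
    have h8 : (2 : ℝ) * (C0 + Real.log (2 * t1 / y)) ≤ 4 ^ k * ((2 * C0 + 3) * m) := by
      have e1 : (2 : ℝ) * (C0 + Real.log (2 * t1 / y)) ≤ (2 * C0 + 3) * (1 + k) := by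
        have h9 : (0 : ℝ) ≤ k := by positivity
        have h10 : (0 : ℝ) ≤ C0 * k := mul_nonneg (by linarith) h9
        linarith
      have e2 : (2 * C0 + 3) * ((1 : ℝ) + k) ≤ (2 * C0 + 3) * 4 ^ k :=
        mul_le_mul_of_nonneg_left h6 (by linarith)
      have e3 : (4 : ℝ) ^ k * (2 * C0 + 3) ≤ 4 ^ k * ((2 * C0 + 3) * m) :=
        mul_le_mul_of_nonneg_left hD (by positivity)
      linarith
    calc poisson (lg U) (z + s * (t - y)) t - LL la U z y
        ≤ 3 * (poisson (lg U) (z + s * (t1 - y)) t1 - LL la U z y) +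
          2 * (C0 + Real.log (2 * t1 / y)) := h3
      _ ≤ 3 * (4 ^ k * ((2 * C0 + 3) * m)) + 4 ^ k * ((2 * C0 + 3) * m) := by linarith
      _ = 4 ^ (k + 1) * ((2 * C0 + 3) * m) := by ring

end Gr

theorem stGr (hBas : StBas) (hHar : StHar) : StGr := by
  intro la μ U hyp
  obtain ⟨C0, hC0, hC⟩ := hBas.2.2 la μ U hyp
  obtain ⟨hla, hμ, hWt, hSh⟩ := hyp
  obtain ⟨r0, r1, r2, r3⟩ := Gr.rh_facts hla hμ
  have hμ0 : 0 < μ := hla.trans hμ
  set q : ℝ := 1 + Gr.rh la μ / (4 * (1 + μ)) with hq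
  have hq1 : 1 < q := by
    rw [hq]
    have : 0 < Gr.rh la μ / (4 * (1 + μ)) := by positivity
    linarith
  obtain ⟨N, hN⟩ := pow_unbounded_of_one_lt (4 : ℝ) hq1
  have hN1 : N ≠ 0 := by
    rintro rfl
    rw [pow_zero] at hN
    linarith
  refine ⟨4 * (2 * C0 + 3) + C0 + 1, N, by linarith, ?_⟩
  intro z y m z' y' hRt hyy hz'
  obtain ⟨hy, hm, hg⟩ := hRt
  have hy' : 0 < y' := hy.trans_le hyy
  set x : ℝ := y' / y with hx
  have hx1 : 1 ≤ x := by
    rw [hx, one_le_div hy]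
    exact hyy
  have hxN1 : x ≤ x ^ N := le_self_pow₀ hx1 hN1
  have hxN : 1 ≤ x ^ N := hx1.trans hxN1
  have hmx : x ^ N ≤ m * x ^ N := le_mul_of_one_le_left (by linarith) hm
  obtain ⟨n, hn1, hn2⟩ := exists_nat_pow_near hx1 hq1
  -- the slope
  obtain ⟨s, hs, hsz⟩ : ∃ s : ℝ, |s| ≤ μ / 2 ∧ z + s * (y' - y) = z' := by
    rcases hyy.eq_or_lt with h | h
    · refine ⟨0, by rw [abs_zero]; linarith, ?_⟩
      rw [← h, sub_self, mul_zero] at hz'
      have := abs_nonpos_iff.1 hz'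
      linarith
    · have hp : 0 < y' - y := by linarith
      refine ⟨(z' - z) / (y' - y), ?_, ?_⟩
      · rw [abs_div, abs_of_pos hp, div_le_iff₀ hp]
        exact hz'
      · rw [div_mul_cancel₀ _ hp.ne']
        ring
  have hup := Gr.chain hHar hla hμ hWt.2.2 hC0 hC hy hm hg hs hq (n + 1) y' hyy (by
    have : x < q ^ (n + 1) := hn2
    rw [hx, div_lt_iff₀ hy] at this
    exact this.le)
  rw [hsz] at hup
  have h4 : (4 : ℝ) ^ (n + 1) ≤ 4 * x ^ N := by
    calc (4 : ℝ) ^ (n + 1) = 4 * 4 ^ n := by ring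
      _ ≤ 4 * (q ^ N) ^ n := by
          refine mul_le_mul_of_nonneg_left ?_ (by norm_num)
          exact pow_le_pow_left₀ (by norm_num) hN.le n
      _ = 4 * (q ^ n) ^ N := by rw [← pow_mul, ← pow_mul, mul_comm N n]
      _ ≤ 4 * x ^ N := by
          refine mul_le_mul_of_nonneg_left ?_ (by norm_num)
          exact pow_le_pow_left₀ (by positivity) hn1 N
  have hlow := hC z y z' y' hy hy' (by
    have e1 : μ / 2 * (y' - y) ≤ μ * (y' - y) :=
      mul_le_mul_of_nonneg_right (by linarith) (by linarith)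
    have e2 : la * y ≤ μ * y := mul_le_mul_of_nonneg_right hμ.le hy.le
    linarith)
  have hlog : Real.log (y' / y) ≤ x ^ N := by
    have := Real.log_le_sub_one_of_pos (lt_of_lt_of_le one_pos hx1)
    rw [← hx]
    linarith
  rw [abs_le]
  constructor
  · have e1 : C0 ≤ C0 * (m * x ^ N) :=
      le_mul_of_one_le_right (by linarith) (hxN.trans hmx)
    have e2 : 0 ≤ 4 * (2 * C0 + 3) * (m * x ^ N) := by positivity
    have e3 : (4 * (2 * C0 + 3) + C0 + 1) * m * x ^ N =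
        4 * (2 * C0 + 3) * (m * x ^ N) + C0 * (m * x ^ N) + m * x ^ N := by ring
    rw [e3]
    linarith
  · have e1 : (4 : ℝ) ^ (n + 1) * ((2 * C0 + 3) * m) ≤ 4 * x ^ N * ((2 * C0 + 3) * m) :=
      mul_le_mul_of_nonneg_right h4 (by positivity)
    have e2 : 0 ≤ (C0 + 1) * (m * x ^ N) := by positivity
    have e3 : (4 * (2 * C0 + 3) + C0 + 1) * m * x ^ N =
        4 * x ^ N * ((2 * C0 + 3) * m) + (C0 + 1) * (m * x ^ N) := by ring
    rw [e3]
    linarith

end Pool.Agent.Work.MP_055a27_an.Cr3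

end

section

/-!
# The high part for `1 < p ≤ 2`
-/

set_option autoImplicit false

open MeasureTheory Set Filter Topology Complex Metric
open scoped ENNReal NNReal

namespace Pool.Agent.Work.MP_055a27_an.Cr3

open Crit (lg cc CC Pk hU)
open Nv (mx)

namespace H2

theorem Pk_congr {k k' : ℝ → ℝ≥0∞} (h : k =ᵐ[volume] k') (z y : ℝ) : Pk k z y = Pk k' z y := by
  unfold Pk
  exact lintegral_congr_ae (h.mono fun t ht => by simp only [ht])

theorem Pk_meas {k : ℝ → ℝ≥0∞} (hk : AEMeasurable k volume) :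
    Measurable (fun q : ℝ × ℝ => Pk k q.1 q.2) := by
  have h1 : (fun q : ℝ × ℝ => Pk k q.1 q.2) = fun q : ℝ × ℝ => Pk (hk.mk k) q.1 q.2 := by
    funext q
    exact Pk_congr hk.ae_eq_mk _ _
  rw [h1]
  unfold Pk
  have hm : Measurable (hk.mk k) := hk.measurable_mk
  have h2 : Measurable (fun r : (ℝ × ℝ) × ℝ =>
      ENNReal.ofReal (r.1.2 / ((r.1.1 - r.2) ^ 2 + r.1.2 ^ 2)) * hk.mk k r.2) := by
    refine Measurable.mul (Measurable.ennreal_ofReal ?_) (hm.comp measurable_snd)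
    fun_prop
  exact h2.lintegral_prod_right'

theorem sup_meas (μ' : ℝ) (a : ℝ → ℝ → ℝ≥0∞) :
    Measurable (fun x : ℝ => ⨆ (z : ℝ) (y : ℝ) (_ : 0 < y ∧ |x - z| < μ' * y), a z y) := by
  refine LowerSemicontinuous.measurable ?_
  rw [lowerSemicontinuous_iff_isOpen_preimage]
  intro t
  have h : (fun x : ℝ => ⨆ (z : ℝ) (y : ℝ) (_ : 0 < y ∧ |x - z| < μ' * y), a z y) ⁻¹' Ioi t =
      ⋃ (z : ℝ) (y : ℝ) (_ : 0 < y ∧ t < a z y), {x : ℝ | |x - z| < μ' * y} := by
    ext x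
    simp only [mem_preimage, mem_Ioi, lt_iSup_iff, mem_iUnion, mem_ofPred_eq, exists_prop]
    constructor
    · rintro ⟨z, y, ⟨h1, h2⟩, h3⟩
      exact ⟨z, y, ⟨h1, h3⟩, h2⟩
    · rintro ⟨z, y, ⟨h1, h3⟩, h2⟩
      exact ⟨z, y, ⟨h1, h2⟩, h3⟩
  rw [h]
  refine isOpen_iUnion fun z => isOpen_iUnion fun y => isOpen_iUnion fun _ => ?_
  exact isOpen_lt (by fun_prop) continuous_const

theorem cone_meas (lam x : ℝ) : MeasurableSet (cone lam x) := by
  have h1 : MeasurableSet {q : ℝ × ℝ | |x - q.1| ≤ lam * q.2} :=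
    (isClosed_le (by fun_prop) (by fun_prop)).measurableSet
  have h2 : MeasurableSet {q : ℝ × ℝ | 0 < q.2} :=
    (isOpen_lt continuous_const continuous_snd).measurableSet
  exact h1.inter h2

theorem T_meas (lam : ℝ) :
    MeasurableSet {r : ℝ × (ℝ × ℝ) | |r.1 - r.2.1| ≤ lam * r.2.2 ∧ 0 < r.2.2} := by
  have h1 : MeasurableSet {r : ℝ × (ℝ × ℝ) | |r.1 - r.2.1| ≤ lam * r.2.2} :=
    (isClosed_le (by fun_prop) (by fun_prop)).measurableSet
  have h2 : MeasurableSet {r : ℝ × (ℝ × ℝ) | 0 < r.2.2} :=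
    (isOpen_lt continuous_const (by fun_prop)).measurableSet
  exact h1.inter h2

/-- Domination of the Poisson integral by the maximal function. -/
theorem Pk_mx : ∃ C : ℝ≥0, ∀ k : ℝ → ℝ≥0∞, AEMeasurable k volume → ∀ x z y : ℝ, 0 < y →
    |z - x| ≤ 1 * y → Pk k z y ≤ C * mx k x := by
  obtain ⟨C, hC⟩ := Nv.I_Pk 1 one_pos
  refine ⟨Real.pi.toNNReal * C, fun k hk x z y hy hzx => ?_⟩
  have h1 := hC k hk x z y hy hzx
  have h2 : Pk k z y = ENNReal.ofReal Real.pi * ∫⁻ t, ENNReal.ofReal (Nv.pk z y t) * k t := by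
    rw [← lintegral_const_mul' _ _ ENNReal.ofReal_ne_top]
    unfold Pk
    refine lintegral_congr fun t => ?_
    rw [← mul_assoc, ← ENNReal.ofReal_mul Real.pi_pos.le]
    congr 2
    unfold Nv.pk
    rw [mul_div_assoc', mul_div_mul_left _ _ Real.pi_ne_zero]
  rw [h2, ENNReal.coe_mul, mul_assoc]
  exact mul_le_mul' le_rfl h1

/-- The identity for the powers. -/
theorem pow_id {p : ℝ} (hp : 1 < p) (u h : ℝ) (hu : 0 ≤ u) (P : ℝ≥0∞) :
    ENNReal.ofReal (u * Real.exp (-(2 * h / p))) * P ^ 2 =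
      ENNReal.ofReal u * (ENNReal.ofReal (Real.exp (-h)) * P ^ p) ^ (2 / p) := by
  have hp0 : 0 < p := by linarith
  have h2p : 0 ≤ 2 / p := by positivity
  rw [ENNReal.mul_rpow_of_nonneg _ _ h2p, ENNReal.ofReal_rpow_of_pos (Real.exp_pos _),
    ← Real.exp_mul, ← ENNReal.rpow_mul, mul_div_cancel₀ _ hp0.ne', ENNReal.ofReal_mul hu,
    mul_assoc]
  have e1 : -(2 * h / p) = -h * (2 / p) := by ring
  rw [e1, ENNReal.rpow_two]

theorem pow_le {p : ℝ} (hp : 1 < p) (hp2 : p ≤ 2) (a V : ℝ≥0∞) (h : a ≤ V) :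
    a ^ (2 / p) ≤ V ^ ((2 - p) / p) * a := by
  have hp0 : 0 < p := by linarith
  have h2 : 0 ≤ (2 - p) / p := div_nonneg (by linarith) hp0.le
  have e : 2 / p = (2 - p) / p + 1 := by field_simp; ring
  rw [e, ENNReal.rpow_add_of_nonneg _ _ h2 zero_le_one, ENNReal.rpow_one]
  exact mul_le_mul' (ENNReal.rpow_le_rpow h h2) le_rfl

end H2

open H2 in
theorem stH2 (hBas : StBas) (hHP : StHP) (hCE : StCE) (hCar : Crit.StCar) (hCC3 : StCC3) :
    StH2 := by
  intro lam la μ p U hlam hlamla hH hp hp2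
  obtain ⟨hla, hlaμ, hWt, hSh⟩ := id hH
  obtain ⟨hU, hpos, hadm⟩ := id hWt
  have hp0 : 0 < p := by linarith
  obtain ⟨μ', hμ1, hμ2⟩ : ∃ μ', lam < μ' ∧ μ' < μ := exists_between (by linarith)
  have hCC : CC μ' U := hCC3 μ' μ U (by linarith) hμ2 hWt hSh
  obtain ⟨C1, hC1⟩ := hCar μ' p U (by linarith) hp hU hadm hCC
  obtain ⟨ms, hms, hHP'⟩ := hHP la μ U hH
  obtain ⟨C2, hC2, hbox⟩ := hHP' 1 one_pos
  refine ⟨ms, hms, ?_⟩
  obtain ⟨hB1, hB2, -⟩ := hBas
  obtain ⟨hgc, hm0, hmS⟩ := hB2 la U hla hWt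
  have hS : MeasurableSet {q : ℝ × ℝ | 0 < q.2 ∧ ms ≤ gg la U q.1 q.2} := (hmS ms).2
  set S : Set (ℝ × ℝ) := {q : ℝ × ℝ | 0 < q.2 ∧ ms ≤ gg la U q.1 q.2} with hSdef
  have hPc : ContinuousOn (fun q : ℝ × ℝ => poisson (lg U) q.1 q.2) {q | 0 < q.2} :=
    Crit.stPCont (lg U) hadm
  classical
  -- measurable versions
  obtain ⟨G, hG, hGe⟩ : ∃ G : ℝ × ℝ → ℝ, Measurable G ∧ ∀ q : ℝ × ℝ, 0 < q.2 →
      G q = gg la U q.1 q.2 := by
    refine ⟨{q : ℝ × ℝ | 0 < q.2}.piecewise (fun q => gg la U q.1 q.2) (fun _ => 0),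
      hgc.measurable_piecewise continuousOn_const hm0, fun q hq => ?_⟩
    exact piecewise_eq_of_mem _ _ _ hq
  obtain ⟨P, hP, hPe⟩ : ∃ P : ℝ × ℝ → ℝ, Measurable P ∧ ∀ q : ℝ × ℝ, 0 < q.2 →
      P q = poisson (lg U) q.1 q.2 := by
    refine ⟨{q : ℝ × ℝ | 0 < q.2}.piecewise (fun q => poisson (lg U) q.1 q.2) (fun _ => 0),
      hPc.measurable_piecewise continuousOn_const hm0, fun q hq => ?_⟩
    exact piecewise_eq_of_mem _ _ _ hq
  -- the weight for the embedding
  let w : ℝ × ℝ → ℝ≥0∞ := S.indicator (fun q => ENNReal.ofReal (G q ^ 2 *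
    Real.exp (-(1 * G q)) / q.2))
  have hw : Measurable w := by
    refine Measurable.indicator ?_ hS
    refine Measurable.ennreal_ofReal ?_
    fun_prop
  obtain ⟨C3, hC3⟩ := hCE w C2.toNNReal 1 one_pos hw (by
    intro a s hs
    have h1 := hbox a s hs
    have e1 : ∫⁻ q in Icc a (a + s) ×ˢ Ioc 0 s, w q =
        ∫⁻ q in S ∩ (Icc a (a + s) ×ˢ Ioc 0 s), ENNReal.ofReal (G q ^ 2 *
          Real.exp (-(1 * G q)) / q.2) := by
      rw [setLIntegral_indicator hS]
    have e2 : {q : ℝ × ℝ | q.1 ∈ Icc a (a + s) ∧ 0 < q.2 ∧ q.2 ≤ s ∧ ms ≤ gg la U q.1 q.2} =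
        S ∩ (Icc a (a + s) ×ˢ Ioc 0 s) := by
      ext q
      simp only [mem_ofPred_eq, mem_inter_iff, mem_prod, mem_Icc, mem_Ioc, hSdef]
      tauto
    rw [e1]
    rw [e2] at h1
    have e3 : ∫⁻ q in S ∩ (Icc a (a + s) ×ˢ Ioc 0 s), ENNReal.ofReal (G q ^ 2 *
          Real.exp (-(1 * G q)) / q.2) =
        ∫⁻ q in S ∩ (Icc a (a + s) ×ˢ Ioc 0 s), ENNReal.ofReal ((gg la U q.1 q.2) ^ 2 *
          Real.exp (-(1 * gg la U q.1 q.2)) / q.2) := by
      refine setLIntegral_congr_fun (hS.inter (measurableSet_Icc.prod measurableSet_Ioc)) ?_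
      intro q hq
      have hq0 : 0 < q.2 := hq.1.1
      simp only [hGe q hq0]
    rw [e3]
    refine h1.trans (le_of_eq ?_)
    rw [ENNReal.ofReal_mul (by linarith)]
    rfl)
  obtain ⟨C4, hC4⟩ := Pk_mx
  obtain ⟨C5, hC5⟩ := Nv.I_HL p hp
  refine ⟨C1 ^ ((2 - p) / 2) * (C3 * (C4 ^ p * C5)) ^ (p / 2), fun k hk => ?_⟩
  have hPk : Measurable (fun q : ℝ × ℝ => Pk k q.1 q.2) := Pk_meas hk
  let a : ℝ → ℝ → ℝ≥0∞ := fun z y =>
    ENNReal.ofReal (Real.exp (-poisson (lg U) z y)) * (Pk k z y) ^ p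
  let V : ℝ → ℝ≥0∞ := fun x => ⨆ (z : ℝ) (y : ℝ) (_ : 0 < y ∧ |x - z| < μ' * y), a z y
  have hV : Measurable V := sup_meas μ' a
  let B : ℝ × ℝ → ℝ≥0∞ := S.indicator (fun q => ENNReal.ofReal ((G q / q.2) ^ 2) *
    (ENNReal.ofReal (Real.exp (-P q)) * (Pk k q.1 q.2) ^ p))
  have hB : Measurable B := by
    refine Measurable.indicator ?_ hS
    refine Measurable.mul (Measurable.ennreal_ofReal (by fun_prop)) (Measurable.mul
      (Measurable.ennreal_ofReal (by fun_prop)) (hPk.pow_const p))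
  have hcone : ∀ x : ℝ, MeasurableSet (cone lam x) := cone_meas lam
  let Y : ℝ → ℝ≥0∞ := fun x => ∫⁻ q in cone lam x, B q
  let T : Set (ℝ × (ℝ × ℝ)) := {r | |r.1 - r.2.1| ≤ lam * r.2.2 ∧ 0 < r.2.2}
  have hT : MeasurableSet T := T_meas lam
  let BB : ℝ × (ℝ × ℝ) → ℝ≥0∞ := T.indicator (fun r => B r.2)
  have hBB : Measurable BB := (hB.comp measurable_snd).indicator hT
  have hYe : ∀ x, Y x = ∫⁻ q, BB (x, q) := by
    intro x
    show ∫⁻ q in cone lam x, B q = ∫⁻ q, BB (x, q)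
    rw [← lintegral_indicator (hcone x)]
    rfl
  have hY : Measurable Y := by
    have : Y = fun x => ∫⁻ q, BB (x, q) := funext hYe
    rw [this]
    exact hBB.lintegral_prod_right'
  -- pointwise estimate
  have hpt : ∀ x : ℝ, (∫⁻ q in cone lam x ∩ {q : ℝ × ℝ | ms ≤ gg la U q.1 q.2},
      ENNReal.ofReal ((gg la U q.1 q.2 / q.2) ^ 2 *
        Real.exp (-(2 * poisson (lg U) q.1 q.2 / p))) * (Pk k q.1 q.2) ^ 2) ^ (p / 2) ≤
      V x ^ ((2 - p) / 2) * Y x ^ (p / 2) := by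
    intro x
    have hset : cone lam x ∩ {q : ℝ × ℝ | ms ≤ gg la U q.1 q.2} = cone lam x ∩ S := by
      ext q
      simp only [mem_inter_iff, mem_ofPred_eq, hSdef, cone]
      tauto
    have h1 : ∫⁻ q in cone lam x ∩ {q : ℝ × ℝ | ms ≤ gg la U q.1 q.2},
        ENNReal.ofReal ((gg la U q.1 q.2 / q.2) ^ 2 *
        Real.exp (-(2 * poisson (lg U) q.1 q.2 / p))) * (Pk k q.1 q.2) ^ 2 ≤
        V x ^ ((2 - p) / p) * Y x := by
      rw [hset]
      calc ∫⁻ q in cone lam x ∩ S,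
        ENNReal.ofReal ((gg la U q.1 q.2 / q.2) ^ 2 *
        Real.exp (-(2 * poisson (lg U) q.1 q.2 / p))) * (Pk k q.1 q.2) ^ 2
          ≤ ∫⁻ q in cone lam x ∩ S, V x ^ ((2 - p) / p) * B q := by
            refine setLIntegral_mono' ((hcone x).inter hS) ?_
            intro q hq
            have hq0 : 0 < q.2 := hq.2.1
            have hq1 : |x - q.1| ≤ lam * q.2 := hq.1.1
            rw [pow_id hp _ _ (sq_nonneg _)]
            have e : B q = ENNReal.ofReal ((gg la U q.1 q.2 / q.2) ^ 2) *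
                (ENNReal.ofReal (Real.exp (-poisson (lg U) q.1 q.2)) * (Pk k q.1 q.2) ^ p) := by
              show S.indicator _ q = _
              rw [indicator_of_mem hq.2, hGe q hq0, hPe q hq0]
            rw [e, mul_left_comm]
            refine mul_le_mul' le_rfl (pow_le hp hp2 _ _ ?_)
            refine le_iSup_of_le q.1 (le_iSup_of_le q.2 (le_iSup_of_le ⟨hq0, ?_⟩ le_rfl))
            nlinarith
        _ ≤ ∫⁻ q in cone lam x, V x ^ ((2 - p) / p) * B q :=
            lintegral_mono_set inter_subset_left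
        _ = V x ^ ((2 - p) / p) * Y x := lintegral_const_mul _ hB
    refine (ENNReal.rpow_le_rpow h1 (by positivity)).trans (le_of_eq ?_)
    rw [ENNReal.mul_rpow_of_nonneg _ _ (by positivity), ← ENNReal.rpow_mul]
    congr 2
    field_simp
  have hsf : SFinite (wm U) := by
    unfold wm
    infer_instance
  -- the integral of Y
  have hYint : ∫⁻ x, Y x ∂(wm U) ≤ C3 * (C4 ^ p * C5) * ∫⁻ x, (k x) ^ p := by
    calc ∫⁻ x, Y x ∂(wm U) = ∫⁻ x, (∫⁻ q, BB (x, q)) ∂(wm U) := by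
          simp only [hYe]
      _ = ∫⁻ q, (∫⁻ x, BB (x, q) ∂(wm U)) := by
          exact lintegral_lintegral_swap hBB.aemeasurable
      _ ≤ ∫⁻ q in {q : ℝ × ℝ | 0 < q.2}, (Pk k q.1 q.2) ^ p * w q := by
          rw [← lintegral_indicator hm0]
          refine lintegral_mono fun q => ?_
          by_cases hq : q ∈ S
          · have hq0 : 0 < q.2 := hq.1
            have e1 : (fun x => BB (x, q)) =
                (Icc (q.1 - lam * q.2) (q.1 + lam * q.2)).indicator (fun _ => B q) := by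
              funext x
              show T.indicator _ (x, q) = _
              by_cases hx : x ∈ Icc (q.1 - lam * q.2) (q.1 + lam * q.2)
              · rw [indicator_of_mem hx, indicator_of_mem]
                refine ⟨?_, hq0⟩
                show |x - q.1| ≤ lam * q.2
                rw [abs_le]
                exact ⟨by linarith [hx.1], by linarith [hx.2]⟩
              · rw [indicator_of_notMem hx, indicator_of_notMem]
                rintro ⟨h1, -⟩
                have h1' : |x - q.1| ≤ lam * q.2 := h1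
                rw [abs_le] at h1'
                exact hx ⟨by linarith [h1'.1], by linarith [h1'.2]⟩
            show ∫⁻ x, (fun x => BB (x, q)) x ∂(wm U) ≤ _
            rw [e1, lintegral_indicator measurableSet_Icc, lintegral_const,
              Measure.restrict_apply_univ, indicator_of_mem (show q ∈ {q : ℝ × ℝ | 0 < q.2} from hq0)]
            have h2 : wm U (Icc (q.1 - lam * q.2) (q.1 + lam * q.2)) ≤
                ENNReal.ofReal (q.2 * Real.exp (poisson (lg U) q.1 q.2 - gg la U q.1 q.2)) := by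
              have h3 : wm U (Icc (q.1 - lam * q.2) (q.1 + lam * q.2)) ≤
                  wm U (Icc (q.1 - la * q.2) (q.1 + la * q.2)) := by
                refine measure_mono (Icc_subset_Icc ?_ ?_)
                · nlinarith
                · nlinarith
              refine h3.trans (le_of_eq ?_)
              have h4 := setIntegral_eq_wm hU (measurableSet_Icc (a := q.1 - la * q.2)
                (b := q.1 + la * q.2))
              have h5 : wm U (Icc (q.1 - la * q.2) (q.1 + la * q.2)) =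
                  ENNReal.ofReal (∫ x in Icc (q.1 - la * q.2) (q.1 + la * q.2), U x) := by
                rw [h4, ENNReal.ofReal_toReal (wm_Icc_lt_top hU _ _).ne]
              rw [h5]
              congr 1
              have h6 : gg la U q.1 q.2 = poisson (lg U) q.1 q.2 - LL la U q.1 q.2 := rfl
              have h7 : Real.exp (LL la U q.1 q.2) = avg la U q.1 q.2 :=
                Real.exp_log (hB1 la U q.1 q.2 hla hq0 hWt)
              rw [h6, sub_sub_cancel, h7]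
              unfold avg
              field_simp
            have e2 : B q = ENNReal.ofReal ((gg la U q.1 q.2 / q.2) ^ 2) *
                (ENNReal.ofReal (Real.exp (-poisson (lg U) q.1 q.2)) * (Pk k q.1 q.2) ^ p) := by
              show S.indicator _ q = _
              rw [indicator_of_mem hq, hGe q hq0, hPe q hq0]
            have e3 : w q = ENNReal.ofReal (gg la U q.1 q.2 ^ 2 *
                Real.exp (-(1 * gg la U q.1 q.2)) / q.2) := by
              show S.indicator _ q = _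
              rw [indicator_of_mem hq, hGe q hq0]
            refine (mul_le_mul' le_rfl h2).trans (le_of_eq ?_)
            rw [e2, e3]
            rw [show ENNReal.ofReal ((gg la U q.1 q.2 / q.2) ^ 2) *
                (ENNReal.ofReal (Real.exp (-poisson (lg U) q.1 q.2)) * (Pk k q.1 q.2) ^ p) *
                ENNReal.ofReal (q.2 * Real.exp (poisson (lg U) q.1 q.2 - gg la U q.1 q.2)) =
                (Pk k q.1 q.2) ^ p * (ENNReal.ofReal ((gg la U q.1 q.2 / q.2) ^ 2) *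
                ENNReal.ofReal (Real.exp (-poisson (lg U) q.1 q.2)) *
                ENNReal.ofReal (q.2 * Real.exp (poisson (lg U) q.1 q.2 - gg la U q.1 q.2)))
                by ring]
            congr 1
            rw [← ENNReal.ofReal_mul (sq_nonneg _), ← ENNReal.ofReal_mul (by positivity)]
            congr 1
            have e4 : Real.exp (poisson (lg U) q.1 q.2 - gg la U q.1 q.2) =
                Real.exp (poisson (lg U) q.1 q.2) * Real.exp (-(1 * gg la U q.1 q.2)) := by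
              rw [← Real.exp_add]
              congr 1
              ring
            have e5 : Real.exp (-poisson (lg U) q.1 q.2) * Real.exp (poisson (lg U) q.1 q.2) = 1 := by
              rw [← Real.exp_add]
              simp
            rw [e4]
            field_simp
            linear_combination (gg la U q.1 q.2 ^ 2) * e5
          · have e0 : ∀ x, BB (x, q) = 0 := by
              intro x
              show T.indicator (fun r => B r.2) (x, q) = 0
              have : B q = 0 := indicator_of_notMem hq _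
              by_cases hx : (x, q) ∈ T
              · rw [indicator_of_mem hx]; exact this
              · rw [indicator_of_notMem hx]
            simp only [e0, lintegral_zero]
            exact zero_le
      _ ≤ C3 * ∫⁻ x, ⨆ (z : ℝ) (y : ℝ) (_ : 0 < y ∧ |x - z| < 1 * y), (Pk k z y) ^ p :=
          hC3 (fun q => (Pk k q.1 q.2) ^ p) (hPk.pow_const p)
      _ ≤ C3 * ∫⁻ x, (C4 * mx k x) ^ p := by
          refine mul_le_mul' le_rfl (lintegral_mono fun x => ?_)
          refine iSup_le fun z => iSup_le fun y => iSup_le fun h => ?_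
          refine ENNReal.rpow_le_rpow (hC4 k hk x z y h.1 ?_) hp0.le
          rw [abs_sub_comm]
          exact h.2.le
      _ = C3 * (C4 ^ p * ∫⁻ x, (mx k x) ^ p) := by
          congr 1
          rw [← lintegral_const_mul _ ((hC5 k hk).1.pow_const p)]
          refine lintegral_congr fun x => ?_
          rw [ENNReal.mul_rpow_of_nonneg _ _ hp0.le]
      _ ≤ C3 * (C4 ^ p * (C5 * ∫⁻ x, (k x) ^ p)) :=
          mul_le_mul' le_rfl (mul_le_mul' le_rfl (hC5 k hk).2)
      _ = C3 * (C4 ^ p * C5) * ∫⁻ x, (k x) ^ p := by ring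
  have hVint : ∫⁻ x, V x ∂(wm U) ≤ C1 * ∫⁻ x, (k x) ^ p := by
    rw [← lintegral_mul_weight_univ hU]
    exact hC1 k hk
  have e6 : (2 - p) / 2 + p / 2 = 1 := by ring
  rw [lintegral_mul_weight_univ hU]
  calc ∫⁻ x, (∫⁻ q in cone lam x ∩ {q : ℝ × ℝ | ms ≤ gg la U q.1 q.2},
      ENNReal.ofReal ((gg la U q.1 q.2 / q.2) ^ 2 *
        Real.exp (-(2 * poisson (lg U) q.1 q.2 / p))) * (Pk k q.1 q.2) ^ 2) ^ (p / 2) ∂(wm U)
      ≤ ∫⁻ x, V x ^ ((2 - p) / 2) * Y x ^ (p / 2) ∂(wm U) := lintegral_mono hpt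
    _ ≤ (∫⁻ x, V x ∂(wm U)) ^ ((2 - p) / 2) * (∫⁻ x, Y x ∂(wm U)) ^ (p / 2) :=
        ENNReal.lintegral_mul_norm_pow_le hV.aemeasurable hY.aemeasurable (by linarith)
          (by positivity) e6
    _ ≤ (C1 * ∫⁻ x, (k x) ^ p) ^ ((2 - p) / 2) *
        (C3 * (C4 ^ p * C5) * ∫⁻ x, (k x) ^ p) ^ (p / 2) :=
        mul_le_mul' (ENNReal.rpow_le_rpow hVint (by linarith))
          (ENNReal.rpow_le_rpow hYint (by positivity))
    _ = _ := by
        rw [ENNReal.mul_rpow_of_nonneg _ _ (show 0 ≤ (2 - p) / 2 by linarith),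
          ENNReal.mul_rpow_of_nonneg _ (∫⁻ x, (k x) ^ p) (show 0 ≤ p / 2 by positivity)]
        rw [show ∀ A B I J : ℝ≥0∞, A * I * (B * J) = A * B * (I * J) by intros; ring]
        rw [← ENNReal.rpow_add_of_nonneg _ _ (by linarith) (by positivity), e6,
          ENNReal.rpow_one]
        congr 1
        rw [ENNReal.coe_mul, ENNReal.coe_rpow_of_nonneg _ (by linarith),
          ENNReal.coe_rpow_of_nonneg _ (by positivity), ENNReal.coe_mul, ENNReal.coe_mul,
          ENNReal.coe_rpow_of_nonneg _ hp0.le]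

end Pool.Agent.Work.MP_055a27_an.Cr3

end

section

/-!
# Item H3: the high part of the area function, `2 < p`, by duality
-/

open MeasureTheory Set Filter Topology Complex Metric
open scoped ENNReal NNReal

namespace Pool.Agent.Work.MP_055a27_an.Cr3

open Crit (lg cc CC Pk hU)
open Nv (mx)

namespace H3

lemma cancel {I K : ℝ≥0∞} {q0 : ℝ} (hq : 1 < q0) (hI : I ≠ ∞)
    (h : I ≤ K * I ^ ((q0 - 1) / q0)) : I ≤ K ^ q0 := by
  have hq0 : 0 < q0 := by linarith
  rcases eq_or_ne I 0 with h0 | h0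
  · rw [h0]; exact zero_le
  have e1 : I = I ^ (1 / q0) * I ^ ((q0 - 1) / q0) := by
    rw [← ENNReal.rpow_add _ _ h0 hI]
    have : 1 / q0 + (q0 - 1) / q0 = 1 := by field_simp; ring
    rw [this, ENNReal.rpow_one]
  have hne0 : I ^ ((q0 - 1) / q0) ≠ 0 := by
    intro h1
    rw [ENNReal.rpow_eq_zero_iff] at h1
    rcases h1 with h1 | h1
    · exact h0 h1.1
    · exact hI h1.1
  have hnet : I ^ ((q0 - 1) / q0) ≠ ∞ := by
    apply ENNReal.rpow_ne_top_of_nonneg _ hI
    apply div_nonneg <;> linarith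
  have h2 : I ^ (1 / q0) ≤ K := by
    have h3 : I ^ (1 / q0) * I ^ ((q0 - 1) / q0) ≤ K * I ^ ((q0 - 1) / q0) := by
      rw [← e1]; exact h
    exact (ENNReal.mul_le_mul_iff_left hne0 hnet).1 h3
  calc I = (I ^ (1 / q0)) ^ q0 := by
        rw [← ENNReal.rpow_mul, one_div, inv_mul_cancel₀ hq0.ne', ENNReal.rpow_one]
    _ ≤ K ^ q0 := ENNReal.rpow_le_rpow h2 hq0.le

lemma dual (ν : Measure ℝ) (hν : ∀ a c : ℝ, ν (Icc a c) < ∞) (X : ℝ → ℝ≥0∞)
    (hX : Measurable X) {q0 : ℝ} (hq : 1 < q0) (K : ℝ≥0∞)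
    (hK : ∀ φ : ℝ → ℝ≥0∞, Measurable φ → ∫⁻ x, X x * φ x ∂ν ≤
      K * (∫⁻ x, (φ x) ^ (q0 / (q0 - 1)) ∂ν) ^ ((q0 - 1) / q0)) :
    ∫⁻ x, (X x) ^ q0 ∂ν ≤ K ^ q0 := by
  have hq0 : 0 < q0 := by linarith
  have hq1 : 0 < q0 - 1 := by linarith
  set Xn : ℕ → ℝ → ℝ≥0∞ := fun n => (Icc (-(n : ℝ)) n).indicator (fun x => min (X x) n) with hXn
  have hXm : ∀ n, Measurable (Xn n) := fun n =>
    (hX.min measurable_const).indicator measurableSet_Icc
  have hmono : Monotone Xn := by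
    intro n m hnm x
    have hnm' : (n : ℝ) ≤ m := by exact_mod_cast hnm
    simp only [hXn, indicator_apply]
    split_ifs with h1 h2
    · apply min_le_min le_rfl
      exact_mod_cast hnm
    · exact absurd ⟨by linarith [h1.1], by linarith [h1.2]⟩ h2
    · exact zero_le
    · exact le_rfl
  have hlim : ∀ x, Tendsto (fun n => Xn n x) atTop (𝓝 (X x)) := by
    intro x
    have h1 : ∀ᶠ n : ℕ in atTop, Xn n x = min (X x) n := by
      obtain ⟨N, hN⟩ := exists_nat_ge |x|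
      filter_upwards [eventually_ge_atTop N] with n hn
      have hn' : (N : ℝ) ≤ n := by exact_mod_cast hn
      have h2 : x ∈ Icc (-(n : ℝ)) n := by
        rw [mem_Icc, ← abs_le]; linarith
      simp only [hXn, indicator_of_mem h2]
    have h2 : Tendsto (fun n : ℕ => min (X x) (n : ℝ≥0∞)) atTop (𝓝 (min (X x) ∞)) :=
      tendsto_const_nhds.min ENNReal.tendsto_nat_nhds_top
    rw [min_eq_left le_top] at h2
    exact h2.congr' (h1.mono fun n hn => hn.symm)
  have hle : ∀ n x, Xn n x ≤ X x := by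
    intro n x
    simp only [hXn, indicator_apply]
    split_ifs
    · exact min_le_left _ _
    · exact zero_le
  have hbd : ∀ n, ∫⁻ x, (Xn n x) ^ q0 ∂ν ≤ K ^ q0 := by
    intro n
    apply cancel hq
    · have h1 : ∫⁻ x, (Xn n x) ^ q0 ∂ν ≤
          ∫⁻ x, (Icc (-(n : ℝ)) n).indicator (fun _ => ((n : ℝ≥0∞)) ^ q0) x ∂ν := by
        apply lintegral_mono
        intro x
        simp only [hXn, indicator_apply]
        split_ifs
        · exact ENNReal.rpow_le_rpow (min_le_right _ _) hq0.le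
        · rw [ENNReal.zero_rpow_of_pos hq0]
      rw [lintegral_indicator_const measurableSet_Icc] at h1
      refine ne_top_of_le_ne_top (ENNReal.mul_ne_top ?_ (hν _ _).ne) h1
      exact ENNReal.rpow_ne_top_of_nonneg hq0.le (ENNReal.natCast_ne_top n)
    · have h1 := hK (fun x => (Xn n x) ^ (q0 - 1)) ((hXm n).pow_const _)
      have h2 : ∀ x, ((Xn n x) ^ (q0 - 1)) ^ (q0 / (q0 - 1)) = (Xn n x) ^ q0 := by
        intro x
        rw [← ENNReal.rpow_mul]
        congr 1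
        field_simp
      simp only [h2] at h1
      refine le_trans ?_ h1
      apply lintegral_mono
      intro x
      have h3 : (Xn n x) ^ q0 = Xn n x * (Xn n x) ^ (q0 - 1) := by
        have h4 := ENNReal.rpow_add_of_nonneg (x := Xn n x) 1 (q0 - 1) (by norm_num) hq1.le
        rw [ENNReal.rpow_one] at h4
        rw [← h4]
        congr 1
        ring
      show (Xn n x) ^ q0 ≤ X x * (Xn n x) ^ (q0 - 1)
      rw [h3]
      gcongr
      exact hle n x
  have hT : Tendsto (fun n => ∫⁻ x, (Xn n x) ^ q0 ∂ν) atTop (𝓝 (∫⁻ x, (X x) ^ q0 ∂ν)) := by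
    apply lintegral_tendsto_of_tendsto_of_monotone
    · intro n
      exact ((hXm n).pow_const _).aemeasurable
    · apply Eventually.of_forall
      intro x n m hnm
      exact ENNReal.rpow_le_rpow (hmono hnm x) hq0.le
    · apply Eventually.of_forall
      intro x
      exact ((ENNReal.continuous_rpow_const (y := q0)).tendsto _).comp (hlim x)
  exact le_of_tendsto' hT hbd

/-! ### Measurability -/

/-- Replace a function on the half plane by zero outside. -/
lemma meas_ext {f : ℝ × ℝ → ℝ} (hf : ContinuousOn f {q | 0 < q.2}) :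
    ∃ f' : ℝ × ℝ → ℝ, Measurable f' ∧ ∀ q : ℝ × ℝ, 0 < q.2 → f' q = f q := by
  classical
  have hS : MeasurableSet {q : ℝ × ℝ | 0 < q.2} := measurableSet_lt measurable_const measurable_snd
  refine ⟨Set.piecewise {q | 0 < q.2} f 0, ?_, ?_⟩
  · exact hf.measurable_piecewise continuousOn_const hS
  · intro q hq
    exact piecewise_eq_of_mem _ _ _ hq

lemma meas_Pk {k : ℝ → ℝ≥0∞} (hk : Measurable k) :
    Measurable (fun q : ℝ × ℝ => Pk k q.1 q.2) := by
  unfold Pk
  apply Measurable.lintegral_prod_right'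
    (f := fun r : (ℝ × ℝ) × ℝ => ENNReal.ofReal (r.1.2 / ((r.1.1 - r.2) ^ 2 + r.1.2 ^ 2)) * k r.2)
  apply Measurable.mul
  · fun_prop
  · exact hk.comp measurable_snd

lemma meas_shadow {Ψ : ℝ → ℝ≥0∞} (hΨ : Measurable Ψ) (lam : ℝ) :
    Measurable (fun q : ℝ × ℝ => ∫⁻ t in Icc (q.1 - lam * q.2) (q.1 + lam * q.2), Ψ t) := by
  have e : ∀ q : ℝ × ℝ, ∫⁻ t in Icc (q.1 - lam * q.2) (q.1 + lam * q.2), Ψ t =
      ∫⁻ t, {r : (ℝ × ℝ) × ℝ | r.1.1 - lam * r.1.2 ≤ r.2 ∧ r.2 ≤ r.1.1 + lam * r.1.2}.indicator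
        (fun r => Ψ r.2) (q, t) := by
    intro q
    rw [← lintegral_indicator measurableSet_Icc]
    rfl
  simp_rw [e]
  apply Measurable.lintegral_prod_right'
    (f := {r : (ℝ × ℝ) × ℝ | r.1.1 - lam * r.1.2 ≤ r.2 ∧ r.2 ≤ r.1.1 + lam * r.1.2}.indicator
        (fun r => Ψ r.2))
  apply Measurable.indicator
  · exact hΨ.comp measurable_snd
  · have h1 : MeasurableSet {r : (ℝ × ℝ) × ℝ | r.1.1 - lam * r.1.2 ≤ r.2} :=
      measurableSet_le (by fun_prop) (by fun_prop)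
    have h2 : MeasurableSet {r : (ℝ × ℝ) × ℝ | r.2 ≤ r.1.1 + lam * r.1.2} :=
      measurableSet_le (by fun_prop) (by fun_prop)
    exact h1.inter h2

lemma mem_shadow {lam x : ℝ} {q : ℝ × ℝ} :
    |x - q.1| ≤ lam * q.2 ↔ x ∈ Icc (q.1 - lam * q.2) (q.1 + lam * q.2) := by
  rw [abs_le, mem_Icc]
  constructor <;> rintro ⟨h1, h2⟩ <;> constructor <;> linarith

/-- Tonelli. -/
lemma tonelli {U : ℝ → ℝ} {lam : ℝ} {S0 : Set (ℝ × ℝ)} (hS0 : MeasurableSet S0)
    {A : ℝ × ℝ → ℝ≥0∞} (hA : Measurable A) {φ : ℝ → ℝ≥0∞} (hφ : Measurable φ)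
    (hU : IsWeight U) :
    (Measurable fun x => ∫⁻ q in {q : ℝ × ℝ | |x - q.1| ≤ lam * q.2} ∩ S0, A q) ∧
    ∫⁻ x, (∫⁻ q in {q : ℝ × ℝ | |x - q.1| ≤ lam * q.2} ∩ S0, A q) * φ x ∂(wm U) =
      ∫⁻ q in S0, A q * ∫⁻ x in Icc (q.1 - lam * q.2) (q.1 + lam * q.2),
        φ x * ENNReal.ofReal (U x) := by
  have hT : MeasurableSet {r : ℝ × (ℝ × ℝ) | |r.1 - r.2.1| ≤ lam * r.2.2} := by
    apply measurableSet_le
    · exact (measurable_fst.sub (measurable_fst.comp measurable_snd)).abs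
    · exact measurable_const.mul (measurable_snd.comp measurable_snd)
  have hTx : ∀ x : ℝ, MeasurableSet {q : ℝ × ℝ | |x - q.1| ≤ lam * q.2} := by
    intro x
    apply measurableSet_le
    · exact (measurable_const.sub measurable_fst).abs
    · exact measurable_const.mul measurable_snd
  have e : ∀ x : ℝ, ∫⁻ q in {q : ℝ × ℝ | |x - q.1| ≤ lam * q.2} ∩ S0, A q =
      ∫⁻ q, {r : ℝ × (ℝ × ℝ) | |r.1 - r.2.1| ≤ lam * r.2.2}.indicator
        (fun r => S0.indicator A r.2) (x, q) := by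
    intro x
    rw [← setLIntegral_indicator (hTx x), ← lintegral_indicator hS0]
    apply lintegral_congr
    intro q
    by_cases h1 : q ∈ S0
    · by_cases h2 : |x - q.1| ≤ lam * q.2
      · rw [indicator_of_mem h1, indicator_of_mem (show q ∈ {q : ℝ × ℝ | |x - q.1| ≤ lam * q.2}
          from h2), indicator_of_mem (show (x, q) ∈
            {r : ℝ × (ℝ × ℝ) | |r.1 - r.2.1| ≤ lam * r.2.2} from h2), indicator_of_mem h1]
      · rw [indicator_of_mem h1, indicator_of_notMem (show q ∉ {q : ℝ × ℝ | |x - q.1| ≤ lam * q.2}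
          from h2), indicator_of_notMem (show (x, q) ∉
            {r : ℝ × (ℝ × ℝ) | |r.1 - r.2.1| ≤ lam * r.2.2} from h2)]
    · rw [indicator_of_notMem h1]
      by_cases h2 : |x - q.1| ≤ lam * q.2
      · rw [indicator_of_mem (show (x, q) ∈
            {r : ℝ × (ℝ × ℝ) | |r.1 - r.2.1| ≤ lam * r.2.2} from h2), indicator_of_notMem h1]
      · rw [indicator_of_notMem (show (x, q) ∉
            {r : ℝ × (ℝ × ℝ) | |r.1 - r.2.1| ≤ lam * r.2.2} from h2)]
  have hG : Measurable ({r : ℝ × (ℝ × ℝ) | |r.1 - r.2.1| ≤ lam * r.2.2}.indicator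
        (fun r => S0.indicator A r.2)) := by
    apply Measurable.indicator _ hT
    exact (hA.indicator hS0).comp measurable_snd
  constructor
  · simp_rw [e]
    exact hG.lintegral_prod_right'
  · simp_rw [e]
    have e2 : ∀ x : ℝ, (∫⁻ q, {r : ℝ × (ℝ × ℝ) | |r.1 - r.2.1| ≤ lam * r.2.2}.indicator
        (fun r => S0.indicator A r.2) (x, q)) * φ x =
        ∫⁻ q, {r : ℝ × (ℝ × ℝ) | |r.1 - r.2.1| ≤ lam * r.2.2}.indicator
        (fun r => S0.indicator A r.2) (x, q) * φ x := by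
      intro x
      rw [lintegral_mul_const]
      exact hG.comp measurable_prodMk_left
    simp_rw [e2]
    have : SFinite (wm U) := by unfold wm; infer_instance
    rw [lintegral_lintegral_swap]
    · rw [← lintegral_indicator hS0]
      apply lintegral_congr
      intro q
      by_cases hq : q ∈ S0
      · rw [indicator_of_mem hq, lintegral_mul_weight hU measurableSet_Icc,
          ← lintegral_const_mul _ hφ, ← lintegral_indicator measurableSet_Icc]
        apply lintegral_congr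
        intro x
        by_cases hx : |x - q.1| ≤ lam * q.2
        · have hx' := mem_shadow.1 hx
          rw [indicator_of_mem hx', indicator_of_mem (show (x, q) ∈
            {r : ℝ × (ℝ × ℝ) | |r.1 - r.2.1| ≤ lam * r.2.2} from hx), indicator_of_mem hq]
        · have hx' : x ∉ Icc (q.1 - lam * q.2) (q.1 + lam * q.2) := fun h => hx (mem_shadow.2 h)
          rw [indicator_of_notMem hx', indicator_of_notMem (show (x, q) ∉
            {r : ℝ × (ℝ × ℝ) | |r.1 - r.2.1| ≤ lam * r.2.2} from hx), zero_mul]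
      · rw [indicator_of_notMem hq]
        have : ∀ x : ℝ, {r : ℝ × (ℝ × ℝ) | |r.1 - r.2.1| ≤ lam * r.2.2}.indicator
            (fun r => S0.indicator A r.2) (x, q) * φ x = 0 := by
          intro x
          simp only [indicator_apply]
          split_ifs <;> simp [hq]
        simp only [this, lintegral_zero]
    · apply Measurable.aemeasurable
      exact hG.mul (hφ.comp measurable_fst)

/-! ### Hölder on a shadow -/

lemma conj {q0 ε : ℝ} (hq : 1 < q0) (hε : 0 < ε) :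
    (q0 * (1 + ε) / (q0 * (1 + ε) - 1)).HolderConjugate (q0 * (1 + ε)) := by
  have h1 : 1 < q0 * (1 + ε) := by nlinarith
  rw [Real.holderConjugate_iff]
  have h2 : 0 < q0 * (1 + ε) - 1 := by linarith
  constructor
  · rw [lt_div_iff₀ h2]; linarith
  · field_simp
    ring

lemma holder_shadow {W φ : ℝ → ℝ≥0∞} (hW : Measurable W) (hφ : Measurable φ) {q0 r r' ε : ℝ}
    (hq : 1 < q0) (hε : 0 < ε) (hr' : r' = q0 * (1 + ε)) (hr : r = r' / (r' - 1)) (I : Set ℝ) :
    ∫⁻ x in I, φ x * W x ≤ (∫⁻ x in I, (φ x * W x ^ ((q0 - 1) / q0)) ^ r) ^ (1 / r) *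
      (∫⁻ x in I, W x ^ (1 + ε)) ^ (1 / r') := by
  have hq0 : 0 < q0 := by linarith
  have hc : r.HolderConjugate r' := by
    rw [hr, hr']; exact conj hq hε
  have h := ENNReal.lintegral_mul_le_Lp_mul_Lq (volume.restrict I) hc
    (f := fun x => φ x * W x ^ ((q0 - 1) / q0)) (g := fun x => W x ^ (1 / q0))
    (hφ.mul (hW.pow_const _)).aemeasurable (hW.pow_const _).aemeasurable
  have e1 : ∀ x, φ x * W x = ((fun x => φ x * W x ^ ((q0 - 1) / q0)) *
      (fun x => W x ^ (1 / q0))) x := by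
    intro x
    simp only [Pi.mul_apply]
    rw [mul_assoc, ← ENNReal.rpow_add_of_nonneg _ _ (div_nonneg (by linarith) hq0.le)
      (by positivity)]
    have : (q0 - 1) / q0 + 1 / q0 = 1 := by field_simp; ring
    rw [this, ENNReal.rpow_one]
  have e2 : ∀ x, (W x ^ (1 / q0)) ^ r' = W x ^ (1 + ε) := by
    intro x
    rw [← ENNReal.rpow_mul, hr']
    congr 1
    field_simp
  simp only [e2] at h
  simp only [← e1] at h
  exact h

lemma real_id {g y C c r r' : ℝ} (hy : 0 < y) (hC : 0 < C) (hr : 1 / r + 1 / r' = 1) :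
    (g / y) ^ 2 * y ^ (1 / r) * (C * y * Real.exp (-(c * g))) ^ (1 / r') =
      C ^ (1 / r') * (g ^ 2 * Real.exp (-(c / r' * g)) / y) := by
  rw [Real.mul_rpow (by positivity) (Real.exp_pos _).le, Real.mul_rpow hC.le hy.le,
    ← Real.exp_mul]
  have e1 : -(c * g) * (1 / r') = -(c / r' * g) := by ring
  have e2 : y ^ (1 / r) * y ^ (1 / r') = y := by
    rw [← Real.rpow_add hy, hr, Real.rpow_one]
  rw [e1]
  calc (g / y) ^ 2 * y ^ (1 / r) * (C ^ (1 / r') * y ^ (1 / r') * Real.exp (-(c / r' * g)))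
      = C ^ (1 / r') * ((g / y) ^ 2 * (y ^ (1 / r) * y ^ (1 / r')) *
        Real.exp (-(c / r' * g))) := by ring
    _ = _ := by rw [e2]; field_simp

/-- The pointwise estimate. -/
lemma point {U : ℝ → ℝ} {W φ : ℝ → ℝ≥0∞} (hW : Measurable W) (hφ : Measurable φ)
    (hWU : W =ᵐ[volume] fun x => ENNReal.ofReal (U x)) {q0 p r r' ε lam la C c g h y z : ℝ}
    (P : ℝ≥0∞)
    (hq : 1 < q0) (hp : p = 2 * q0) (hε : 0 < ε) (hr' : r' = q0 * (1 + ε))
    (hr : r = r' / (r' - 1)) (hlam : lam < la) (hy : 0 < y) (hC : 0 < C)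
    (hI : ∫⁻ t in Icc (z - la * y) (z + la * y), (ENNReal.ofReal (U t * Real.exp (-h))) ^ (1 + ε) ≤
      ENNReal.ofReal (C * y * Real.exp (-(c * g)))) :
    ENNReal.ofReal ((g / y) ^ 2 * Real.exp (-(2 * h / p))) * P ^ 2 *
      ∫⁻ x in Icc (z - lam * y) (z + lam * y), φ x * W x ≤
    ENNReal.ofReal (C ^ (1 / r')) * ((P ^ 2 * ((ENNReal.ofReal y)⁻¹ *
      ∫⁻ x in Icc (z - lam * y) (z + lam * y), (φ x * W x ^ ((q0 - 1) / q0)) ^ r) ^ (1 / r)) *
      ENNReal.ofReal (g ^ 2 * Real.exp (-(c / r' * g)) / y)) := by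
  have hq0 : 0 < q0 := by linarith
  have hr'0 : 0 < r' := by rw [hr']; positivity
  have hr'1 : 1 < r' := by rw [hr']; nlinarith
  have hc : r.HolderConjugate r' := by
    rw [hr, hr']; exact conj hq hε
  have hr0 : 0 < r := hc.pos
  have hsum : 1 / r + 1 / r' = 1 := by
    have := hc.inv_add_inv_eq_one
    rw [one_div, one_div]; exact this
  set I := Icc (z - lam * y) (z + lam * y) with hIdef
  set B := ∫⁻ x in I, (φ x * W x ^ ((q0 - 1) / q0)) ^ r with hB
  set D := ∫⁻ x in I, W x ^ (1 + ε) with hD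
  have h1 : ∫⁻ x in I, φ x * W x ≤ B ^ (1 / r) * D ^ (1 / r') :=
    holder_shadow hW hφ hq hε hr' hr I
  have h2 : ENNReal.ofReal (Real.exp (-h)) ^ (1 + ε) * D ≤
      ENNReal.ofReal (C * y * Real.exp (-(c * g))) := by
    refine le_trans ?_ hI
    rw [hD, ← lintegral_const_mul _ (hW.pow_const _)]
    have hsub : I ⊆ Icc (z - la * y) (z + la * y) := by
      apply Icc_subset_Icc <;> nlinarith
    refine le_trans (lintegral_mono_set hsub) (le_of_eq ?_)
    apply lintegral_congr_ae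
    filter_upwards [ae_restrict_of_ae hWU] with x hx
    rw [hx, ENNReal.ofReal_mul' (Real.exp_pos _).le, mul_comm (ENNReal.ofReal (U x)),
      ENNReal.mul_rpow_of_nonneg _ _ (by linarith : (0 : ℝ) ≤ 1 + ε)]
  have h3 : ENNReal.ofReal (Real.exp (-(2 * h / p))) * D ^ (1 / r') ≤
      ENNReal.ofReal ((C * y * Real.exp (-(c * g))) ^ (1 / r')) := by
    rw [← ENNReal.ofReal_rpow_of_nonneg (by positivity) (by positivity)]
    refine le_trans (le_of_eq ?_) (ENNReal.rpow_le_rpow h2 (by positivity : (0 : ℝ) ≤ 1 / r'))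
    rw [ENNReal.mul_rpow_of_nonneg _ _ (by positivity : (0 : ℝ) ≤ 1 / r'), ← ENNReal.rpow_mul,
      ENNReal.ofReal_rpow_of_nonneg (Real.exp_pos _).le (by positivity), ← Real.exp_mul]
    congr 3
    rw [hp, hr']
    field_simp
  have hy0 : ENNReal.ofReal y ≠ 0 := by
    rw [Ne, ENNReal.ofReal_eq_zero, not_le]; exact hy
  have h4 : B ^ (1 / r) = ENNReal.ofReal (y ^ (1 / r)) * ((ENNReal.ofReal y)⁻¹ * B) ^ (1 / r) := by
    rw [← ENNReal.ofReal_rpow_of_nonneg hy.le (by positivity),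
      ← ENNReal.mul_rpow_of_nonneg _ _ (by positivity : (0 : ℝ) ≤ 1 / r), ← mul_assoc,
      ENNReal.mul_inv_cancel hy0 ENNReal.ofReal_ne_top, one_mul]
  calc ENNReal.ofReal ((g / y) ^ 2 * Real.exp (-(2 * h / p))) * P ^ 2 * ∫⁻ x in I, φ x * W x
      ≤ ENNReal.ofReal ((g / y) ^ 2 * Real.exp (-(2 * h / p))) * P ^ 2 *
        (B ^ (1 / r) * D ^ (1 / r')) := by gcongr
    _ = ENNReal.ofReal ((g / y) ^ 2) * P ^ 2 * B ^ (1 / r) *
        (ENNReal.ofReal (Real.exp (-(2 * h / p))) * D ^ (1 / r')) := by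
        rw [ENNReal.ofReal_mul (by positivity)]; ring
    _ ≤ ENNReal.ofReal ((g / y) ^ 2) * P ^ 2 * B ^ (1 / r) *
        ENNReal.ofReal ((C * y * Real.exp (-(c * g))) ^ (1 / r')) := by gcongr
    _ = (P ^ 2 * ((ENNReal.ofReal y)⁻¹ * B) ^ (1 / r)) * ENNReal.ofReal ((g / y) ^ 2 *
        y ^ (1 / r) * (C * y * Real.exp (-(c * g))) ^ (1 / r')) := by
        rw [h4, ENNReal.ofReal_mul (by positivity), ENNReal.ofReal_mul (by positivity)]; ring
    _ = _ := by
        rw [real_id hy hC hsum, ENNReal.ofReal_mul (by positivity)]; ring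

/-! ### The maximal functions -/

lemma shadow_mx (Ψ : ℝ → ℝ≥0∞) {lam x z y : ℝ} (hlam : 0 < lam) (hy : 0 < y)
    (h : |x - z| < 1 * y) :
    (ENNReal.ofReal y)⁻¹ * ∫⁻ t in Icc (z - lam * y) (z + lam * y), Ψ t ≤
      ENNReal.ofReal (2 * (lam + 2)) * mx Ψ x := by
  have hy0 : ENNReal.ofReal y ≠ 0 := by
    rw [Ne, ENNReal.ofReal_eq_zero, not_le]; exact hy
  rw [one_mul, abs_lt] at h
  have hsub : Icc (z - lam * y) (z + lam * y) ⊆
      Ioo (x - (lam + 2) * y) (x + (lam + 2) * y) := by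
    intro t ht
    constructor
    · nlinarith [ht.1]
    · nlinarith [ht.2]
  have h1 := Nv.Pk.ball_le Ψ x (show 0 < (lam + 2) * y by positivity)
  calc (ENNReal.ofReal y)⁻¹ * ∫⁻ t in Icc (z - lam * y) (z + lam * y), Ψ t
      ≤ (ENNReal.ofReal y)⁻¹ * (mx Ψ x * ENNReal.ofReal (2 * ((lam + 2) * y))) := by
        gcongr
        exact (lintegral_mono_set hsub).trans h1
    _ = _ := by
        rw [show 2 * ((lam + 2) * y) = 2 * (lam + 2) * y by ring,
          ENNReal.ofReal_mul (by positivity : (0 : ℝ) ≤ 2 * (lam + 2))]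
        calc (ENNReal.ofReal y)⁻¹ * (mx Ψ x * (ENNReal.ofReal (2 * (lam + 2)) *
              ENNReal.ofReal y)) = (ENNReal.ofReal y * (ENNReal.ofReal y)⁻¹) *
              (ENNReal.ofReal (2 * (lam + 2)) * mx Ψ x) := by ring
          _ = _ := by rw [ENNReal.mul_inv_cancel hy0 ENNReal.ofReal_ne_top, one_mul]

lemma Pk_mx {k : ℝ → ℝ≥0∞} (hk : Measurable k) {C3 : ℝ≥0}
    (hC3 : ∀ h : ℝ → ℝ≥0∞, AEMeasurable h volume → ∀ x z y : ℝ, 0 < y → |z - x| ≤ 1 * y →
      ∫⁻ t, ENNReal.ofReal (Nv.pk z y t) * h t ≤ C3 * mx h x) {x z y : ℝ} (hy : 0 < y)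
    (h : |x - z| < 1 * y) : Pk k z y ≤ ENNReal.ofReal Real.pi * C3 * mx k x := by
  have h1 := hC3 k hk.aemeasurable x z y hy (by rw [abs_sub_comm]; exact h.le)
  have e : Pk k z y = ENNReal.ofReal Real.pi * ∫⁻ t, ENNReal.ofReal (Nv.pk z y t) * k t := by
    rw [← lintegral_const_mul' _ _ ENNReal.ofReal_ne_top]
    unfold Pk
    apply lintegral_congr
    intro t
    rw [← mul_assoc, ← ENNReal.ofReal_mul Real.pi_pos.le]
    congr 2
    unfold Nv.pk
    have := Real.pi_pos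
    field_simp
  rw [e, mul_assoc]
  gcongr

lemma holder_mx {f1 f2 : ℝ → ℝ≥0∞} (h1 : Measurable f1) (h2 : Measurable f2) {q0 p r : ℝ}
    (hq : 1 < q0) (hp : p = 2 * q0) (hr : 0 < r) :
    ∫⁻ x, f1 x ^ 2 * f2 x ^ (1 / r) ≤ (∫⁻ x, f1 x ^ p) ^ (1 / q0) *
      (∫⁻ x, f2 x ^ (q0 / (q0 - 1) / r)) ^ ((q0 - 1) / q0) := by
  have hq0 : 0 < q0 := by linarith
  have hq1 : 0 < q0 - 1 := by linarith
  have hc : q0.HolderConjugate (q0 / (q0 - 1)) := by
    rw [Real.holderConjugate_iff]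
    refine ⟨hq, ?_⟩
    field_simp
    ring
  have h := ENNReal.lintegral_mul_le_Lp_mul_Lq (volume : Measure ℝ) hc
    (f := fun x => f1 x ^ 2) (g := fun x => f2 x ^ (1 / r))
    (h1.pow_const _).aemeasurable (h2.pow_const _).aemeasurable
  have e1 : ∀ x, (f1 x ^ 2) ^ q0 = f1 x ^ p := by
    intro x
    rw [← ENNReal.rpow_natCast, ← ENNReal.rpow_mul, hp]
    norm_num
  have e2 : ∀ x, (f2 x ^ (1 / r)) ^ (q0 / (q0 - 1)) = f2 x ^ (q0 / (q0 - 1) / r) := by
    intro x
    rw [← ENNReal.rpow_mul]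
    congr 1
    field_simp
  have e3 : 1 / (q0 / (q0 - 1)) = (q0 - 1) / q0 := by field_simp
  simp only [e1, e2, e3] at h
  exact h

end H3

open H3 in
theorem stH3 (hBas : StBas) (hHP : StHP) (hCE : StCE) (hInt : StInt) : StH3 := by
  intro lam la μ p U hlam hlamla hHyp hp
  obtain ⟨hla, hlaμ, hWt, hSh⟩ := id hHyp
  obtain ⟨ms, hms1, hHP'⟩ := hHP la μ U hHyp
  obtain ⟨ε, hε, hInt'⟩ := hInt la μ U hHyp
  obtain ⟨c, C, hc, hC, hI⟩ := hInt' ε hε le_rfl
  obtain ⟨q0, hq0p⟩ : ∃ q0, q0 = p / 2 := ⟨_, rfl⟩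
  have hq : 1 < q0 := by rw [hq0p]; linarith
  have hp2 : p = 2 * q0 := by rw [hq0p]; ring
  have hq0 : 0 < q0 := by linarith
  have hq1 : 0 < q0 - 1 := by linarith
  obtain ⟨r', hr'⟩ : ∃ r', r' = q0 * (1 + ε) := ⟨_, rfl⟩
  obtain ⟨r, hr⟩ : ∃ r, r = r' / (r' - 1) := ⟨_, rfl⟩
  have hr'q : q0 < r' := by rw [hr']; nlinarith
  have hr'0 : 0 < r' := by linarith
  have hr'1 : 0 < r' - 1 := by linarith
  have hr0 : 0 < r := by rw [hr]; positivity
  have hC0 : 0 < C := by linarith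
  obtain ⟨CH, hCH, hHPc⟩ := hHP' (c / r') (by positivity)
  -- measurable versions
  have hIW := hWt.1
  have hS0 : MeasurableSet {q : ℝ × ℝ | 0 < q.2 ∧ ms ≤ gg la U q.1 q.2} :=
    (((hBas.2.1 la U hla hWt).2.2) ms).2
  set S0 := {q : ℝ × ℝ | 0 < q.2 ∧ ms ≤ gg la U q.1 q.2} with hS0def
  obtain ⟨g', hg'm, hg'⟩ := meas_ext (hBas.2.1 la U hla hWt).1
  obtain ⟨h', hh'm, hh'⟩ := meas_ext (Crit.stPCont (lg U) hWt.2.2)
  have hUm : AEMeasurable (fun x => ENNReal.ofReal (U x)) volume := weight_ofReal_aemeas hIW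
  obtain ⟨W, hWm, hUW⟩ : ∃ W : ℝ → ℝ≥0∞, Measurable W ∧
      W =ᵐ[volume] fun x => ENNReal.ofReal (U x) := ⟨hUm.mk, hUm.measurable_mk, hUm.ae_eq_mk.symm⟩
  -- the density
  have hw : Measurable (S0.indicator (fun q : ℝ × ℝ =>
      ENNReal.ofReal ((g' q) ^ 2 * Real.exp (-(c / r' * g' q)) / q.2))) := by
    apply Measurable.indicator _ hS0
    apply ENNReal.measurable_ofReal.comp
    exact ((hg'm.pow_const 2).mul (Real.measurable_exp.comp (hg'm.const_mul _).neg)).div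
      measurable_snd
  set w := S0.indicator (fun q : ℝ × ℝ =>
      ENNReal.ofReal ((g' q) ^ 2 * Real.exp (-(c / r' * g' q)) / q.2)) with hwdef
  have hbox : ∀ a s : ℝ, 0 < s → ∫⁻ q in Icc a (a + s) ×ˢ Ioc 0 s, w q ≤
      (CH.toNNReal : ℝ≥0∞) * ENNReal.ofReal s := by
    intro a s hs
    have h1 := hHPc a s hs
    have e : (CH.toNNReal : ℝ≥0∞) * ENNReal.ofReal s = ENNReal.ofReal (CH * s) := by
      rw [ENNReal.ofReal_mul (by linarith)]; rfl
    rw [e]
    refine le_trans (le_of_eq ?_) h1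
    rw [hwdef, setLIntegral_indicator hS0]
    have e2 : S0 ∩ Icc a (a + s) ×ˢ Ioc 0 s = {q : ℝ × ℝ | q.1 ∈ Icc a (a + s) ∧ 0 < q.2 ∧
        q.2 ≤ s ∧ ms ≤ gg la U q.1 q.2} := by
      ext q
      simp only [hS0def, mem_inter_iff, mem_ofPred_eq, mem_prod, mem_Ioc]
      tauto
    have hm2 : MeasurableSet {q : ℝ × ℝ | q.1 ∈ Icc a (a + s) ∧ 0 < q.2 ∧
        q.2 ≤ s ∧ ms ≤ gg la U q.1 q.2} := by
      rw [← e2]
      exact hS0.inter (measurableSet_Icc.prod measurableSet_Ioc)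
    rw [e2]
    apply setLIntegral_congr_fun hm2
    intro q hq'
    show ENNReal.ofReal ((g' q) ^ 2 * Real.exp (-(c / r' * g' q)) / q.2) = _
    rw [hg' q hq'.2.1]
  obtain ⟨CE, hCE'⟩ := hCE w CH.toNNReal 1 one_pos hw hbox
  obtain ⟨C1, hC1⟩ := Nv.I_HL p (by linarith)
  have hqr : 1 < q0 / (q0 - 1) / r := by
    rw [hr]
    have e : q0 / (q0 - 1) / (r' / (r' - 1)) = (q0 * (r' - 1)) / ((q0 - 1) * r') := by
      field_simp
    rw [e, lt_div_iff₀ (by positivity)]
    nlinarith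
  obtain ⟨C2, hC2⟩ := Nv.I_HL (q0 / (q0 - 1) / r) hqr
  obtain ⟨C3, hC3⟩ := Nv.I_Pk 1 one_pos
  -- the constants
  obtain ⟨K1, hK1⟩ : ∃ K1 : ℝ≥0, (K1 : ℝ≥0∞) = ENNReal.ofReal (C ^ (1 / r')) * (CE *
      ((ENNReal.ofReal Real.pi * C3) ^ 2 * (ENNReal.ofReal (2 * (lam + 2))) ^ (1 / r))) := by
    refine ⟨(ENNReal.ofReal (C ^ (1 / r')) * (CE *
      ((ENNReal.ofReal Real.pi * C3) ^ 2 *
      (ENNReal.ofReal (2 * (lam + 2))) ^ (1 / r)))).toNNReal, ?_⟩
    apply ENNReal.coe_toNNReal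
    apply ENNReal.mul_ne_top ENNReal.ofReal_ne_top
    apply ENNReal.mul_ne_top ENNReal.coe_ne_top
    apply ENNReal.mul_ne_top
    · apply ENNReal.pow_ne_top
      exact ENNReal.mul_ne_top ENNReal.ofReal_ne_top ENNReal.coe_ne_top
    · exact ENNReal.rpow_ne_top_of_nonneg (by positivity) ENNReal.ofReal_ne_top
  obtain ⟨K2, hK2⟩ : ∃ K2 : ℝ≥0, (K2 : ℝ≥0∞) = (K1 : ℝ≥0∞) ^ q0 * C1 *
      ((C2 : ℝ≥0∞) ^ ((q0 - 1) / q0)) ^ q0 := by
    refine ⟨((K1 : ℝ≥0∞) ^ q0 * C1 * ((C2 : ℝ≥0∞) ^ ((q0 - 1) / q0)) ^ q0).toNNReal, ?_⟩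
    apply ENNReal.coe_toNNReal
    apply ENNReal.mul_ne_top
    · apply ENNReal.mul_ne_top _ ENNReal.coe_ne_top
      exact ENNReal.rpow_ne_top_of_nonneg hq0.le ENNReal.coe_ne_top
    · apply ENNReal.rpow_ne_top_of_nonneg hq0.le
      apply ENNReal.rpow_ne_top_of_nonneg (by positivity) ENNReal.coe_ne_top
  refine ⟨ms, hms1, K2, fun k0 hk0 => ?_⟩
  -- measurable version of `k`
  obtain ⟨k, hkm, hkk⟩ : ∃ k : ℝ → ℝ≥0∞, Measurable k ∧ k0 =ᵐ[volume] k :=
    ⟨hk0.mk, hk0.measurable_mk, hk0.ae_eq_mk⟩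
  have hPkk : ∀ z y : ℝ, Pk k0 z y = Pk k z y := by
    intro z y
    unfold Pk
    apply lintegral_congr_ae
    filter_upwards [hkk] with t ht
    rw [ht]
  have hNk : ∫⁻ x, (k0 x) ^ p = ∫⁻ x, (k x) ^ p := by
    apply lintegral_congr_ae
    filter_upwards [hkk] with t ht
    rw [ht]
  rw [hNk]
  -- the integrand
  set A : ℝ × ℝ → ℝ≥0∞ := fun q => ENNReal.ofReal ((g' q / q.2) ^ 2 *
      Real.exp (-(2 * h' q / p))) * (Pk k q.1 q.2) ^ 2 with hA
  have hAm : Measurable A := by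
    apply Measurable.mul
    · apply ENNReal.measurable_ofReal.comp
      exact ((hg'm.div measurable_snd).pow_const 2).mul
        (Real.measurable_exp.comp ((hh'm.const_mul 2).div_const p).neg)
    · exact (meas_Pk hkm).pow_const 2
  have hX : ∀ x : ℝ, ∫⁻ q in cone lam x ∩ {q : ℝ × ℝ | ms ≤ gg la U q.1 q.2},
      ENNReal.ofReal ((gg la U q.1 q.2 / q.2) ^ 2 *
        Real.exp (-(2 * poisson (lg U) q.1 q.2 / p))) * (Pk k0 q.1 q.2) ^ 2 =
      ∫⁻ q in {q : ℝ × ℝ | |x - q.1| ≤ lam * q.2} ∩ S0, A q := by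
    intro x
    have e : cone lam x ∩ {q : ℝ × ℝ | ms ≤ gg la U q.1 q.2} =
        {q : ℝ × ℝ | |x - q.1| ≤ lam * q.2} ∩ S0 := by
      ext q
      simp only [cone, hS0def, mem_inter_iff, mem_ofPred_eq]
      tauto
    have hm : MeasurableSet ({q : ℝ × ℝ | |x - q.1| ≤ lam * q.2} ∩ S0) := by
      refine MeasurableSet.inter ?_ hS0
      apply measurableSet_le
      · exact (measurable_const.sub measurable_fst).abs
      · exact measurable_const.mul measurable_snd
    rw [e]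
    apply setLIntegral_congr_fun hm
    intro q hq'
    show _ = A q
    rw [hA]
    simp only
    rw [hg' q hq'.2.1, hh' q hq'.2.1, hPkk]
  simp only [hX]
  rw [lintegral_mul_weight_univ hIW, ← hq0p]
  have hXm := (tonelli (lam := lam) hS0 hAm (measurable_const (a := (1 : ℝ≥0∞))) hIW).1
  set N := ∫⁻ x, (k x) ^ p with hN
  have hdual := dual (wm U) (fun a c => wm_Icc_lt_top hIW a c) _ hXm hq
    ((K1 : ℝ≥0∞) * (C1 * N) ^ (1 / q0) * (C2 : ℝ≥0∞) ^ ((q0 - 1) / q0)) ?_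
  · refine hdual.trans (le_of_eq ?_)
    rw [ENNReal.mul_rpow_of_nonneg _ _ hq0.le, ENNReal.mul_rpow_of_nonneg _ _ hq0.le,
      ← ENNReal.rpow_mul (_ * N), one_div, inv_mul_cancel₀ hq0.ne', ENNReal.rpow_one, hK2]
    ring
  · intro φ hφ
    rw [(tonelli (lam := lam) hS0 hAm hφ hIW).2]
    set Ψ : ℝ → ℝ≥0∞ := fun x => (φ x * W x ^ ((q0 - 1) / q0)) ^ r with hΨ
    have hΨm : Measurable Ψ := (hφ.mul (hWm.pow_const _)).pow_const _
    set H : ℝ × ℝ → ℝ≥0∞ := fun q => (Pk k q.1 q.2) ^ 2 * ((ENNReal.ofReal q.2)⁻¹ *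
      ∫⁻ x in Icc (q.1 - lam * q.2) (q.1 + lam * q.2), Ψ x) ^ (1 / r) with hH
    have hHm : Measurable H := by
      apply Measurable.mul
      · exact (meas_Pk hkm).pow_const 2
      · apply Measurable.pow_const
        exact (ENNReal.measurable_ofReal.comp measurable_snd).inv.mul (meas_shadow hΨm lam)
    have s1 : ∫⁻ q in S0, A q * ∫⁻ x in Icc (q.1 - lam * q.2) (q.1 + lam * q.2),
        φ x * ENNReal.ofReal (U x) ≤
        ENNReal.ofReal (C ^ (1 / r')) * ∫⁻ q in {q : ℝ × ℝ | 0 < q.2}, H q * w q := by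
      rw [← lintegral_const_mul' _ _ ENNReal.ofReal_ne_top]
      have hsub : S0 ⊆ {q : ℝ × ℝ | 0 < q.2} := fun q hq' => hq'.1
      refine le_trans ?_ (lintegral_mono_set hsub)
      apply setLIntegral_mono' hS0
      intro q hq'
      have e : ∫⁻ x in Icc (q.1 - lam * q.2) (q.1 + lam * q.2), φ x * ENNReal.ofReal (U x) =
          ∫⁻ x in Icc (q.1 - lam * q.2) (q.1 + lam * q.2), φ x * W x := by
        apply lintegral_congr_ae
        filter_upwards [ae_restrict_of_ae hUW] with x hx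
        rw [hx]
      rw [e]
      have h1 := point (φ := φ) hWm hφ hUW (Pk k q.1 q.2) hq hp2 hε hr' hr hlamla hq'.1 hC0
        (hI q.1 q.2 hq'.1)
      have e3 : w q = ENNReal.ofReal ((gg la U q.1 q.2) ^ 2 *
          Real.exp (-(c / r' * gg la U q.1 q.2)) / q.2) := by
        rw [hwdef, indicator_of_mem hq', hg' q hq'.1]
      have e4 : A q = ENNReal.ofReal ((gg la U q.1 q.2 / q.2) ^ 2 *
          Real.exp (-(2 * poisson (lg U) q.1 q.2 / p))) * (Pk k q.1 q.2) ^ 2 := by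
        rw [hA]
        simp only
        rw [hg' q hq'.1, hh' q hq'.1]
      rw [e3, e4]
      exact h1
    have s2 : ∫⁻ x, ⨆ (z : ℝ) (y : ℝ) (_ : 0 < y ∧ |x - z| < 1 * y), H (z, y) ≤
        ∫⁻ x, ((ENNReal.ofReal Real.pi * C3) ^ 2 *
          (ENNReal.ofReal (2 * (lam + 2))) ^ (1 / r)) * ((mx k x) ^ 2 * (mx Ψ x) ^ (1 / r)) := by
      apply lintegral_mono
      intro x
      apply iSup_le
      intro z
      apply iSup₂_le
      intro y hy
      have h1 := Pk_mx hkm hC3 hy.1 hy.2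
      have h2 := shadow_mx Ψ hlam hy.1 hy.2
      have hr1 : (0 : ℝ) ≤ 1 / r := by positivity
      calc H (z, y) ≤ (ENNReal.ofReal Real.pi * C3 * mx k x) ^ 2 *
            (ENNReal.ofReal (2 * (lam + 2)) * mx Ψ x) ^ (1 / r) := by
            rw [hH]
            simp only
            gcongr
        _ = _ := by
            rw [ENNReal.mul_rpow_of_nonneg _ _ hr1]
            ring
    have hmk : Measurable (mx k) := (hC1 k hkm.aemeasurable).1
    have hmΨ : Measurable (mx Ψ) := (hC2 Ψ hΨm.aemeasurable).1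
    have s3 := holder_mx hmk hmΨ hq hp2 hr0
    have s4 : ∫⁻ x, (mx k x) ^ p ≤ C1 * N := (hC1 k hkm.aemeasurable).2
    have s5 : ∫⁻ x, (mx Ψ x) ^ (q0 / (q0 - 1) / r) ≤
        C2 * ∫⁻ x, (φ x) ^ (q0 / (q0 - 1)) ∂(wm U) := by
      refine ((hC2 Ψ hΨm.aemeasurable).2).trans (le_of_eq ?_)
      congr 1
      rw [← lintegral_mul_weight_univ hIW]
      apply lintegral_congr_ae
      filter_upwards [hUW] with x hx
      rw [← hx, hΨ]
      simp only
      rw [← ENNReal.rpow_mul, show r * (q0 / (q0 - 1) / r) = q0 / (q0 - 1) by field_simp,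
        ENNReal.mul_rpow_of_nonneg _ _ (by positivity : (0 : ℝ) ≤ q0 / (q0 - 1)),
        ← ENNReal.rpow_mul, show (q0 - 1) / q0 * (q0 / (q0 - 1)) = 1 by field_simp,
        ENNReal.rpow_one]
    have hprod : Measurable fun x => (mx k x) ^ 2 * (mx Ψ x) ^ (1 / r) :=
      (hmk.pow_const 2).mul (hmΨ.pow_const _)
    calc ∫⁻ q in S0, A q * ∫⁻ x in Icc (q.1 - lam * q.2) (q.1 + lam * q.2),
          φ x * ENNReal.ofReal (U x)
        ≤ ENNReal.ofReal (C ^ (1 / r')) * ∫⁻ q in {q : ℝ × ℝ | 0 < q.2}, H q * w q := s1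
      _ ≤ ENNReal.ofReal (C ^ (1 / r')) * (CE * ∫⁻ x, ⨆ (z : ℝ) (y : ℝ)
          (_ : 0 < y ∧ |x - z| < 1 * y), H (z, y)) := by
          gcongr
          exact hCE' H hHm
      _ ≤ ENNReal.ofReal (C ^ (1 / r')) * (CE * ∫⁻ x, ((ENNReal.ofReal Real.pi * C3) ^ 2 *
          (ENNReal.ofReal (2 * (lam + 2))) ^ (1 / r)) * ((mx k x) ^ 2 * (mx Ψ x) ^ (1 / r))) := by
          gcongr
      _ = K1 * ∫⁻ x, (mx k x) ^ 2 * (mx Ψ x) ^ (1 / r) := by
          rw [lintegral_const_mul _ hprod, hK1]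
          ring
      _ ≤ K1 * ((∫⁻ x, mx k x ^ p) ^ (1 / q0) *
          (∫⁻ x, mx Ψ x ^ (q0 / (q0 - 1) / r)) ^ ((q0 - 1) / q0)) := by
          gcongr
      _ ≤ K1 * ((C1 * N) ^ (1 / q0) *
          (C2 * ∫⁻ x, (φ x) ^ (q0 / (q0 - 1)) ∂(wm U)) ^ ((q0 - 1) / q0)) := by
          gcongr
      _ = _ := by
          rw [ENNReal.mul_rpow_of_nonneg _ _ (by positivity : (0 : ℝ) ≤ (q0 - 1) / q0)]
          ring

end Pool.Agent.Work.MP_055a27_an.Cr3

end

section

/-!
# The gradient at the high points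
-/

open MeasureTheory Set Filter Topology Complex Metric
open scoped ENNReal NNReal

namespace Pool.Agent.Work.MP_055a27_an.Cr3

open Crit (lg cc CC Pk hU)

namespace HG

lemma mem_half {s y ρ : ℝ} (hy : 0 < y) (hρ : ρ ≤ 1 / 2) {w : ℂ}
    (hw : ‖w - (s + y * I)‖ ≤ ρ * y) : 0 < w.im := by
  have h1 : |(w - (s + y * I)).im| ≤ ρ * y := (Complex.abs_im_le_norm _).trans hw
  have h2 : (w - (s + y * I)).im = w.im - y := by simp
  rw [h2, abs_le] at h1
  have h3 : ρ * y ≤ 1 / 2 * y := mul_le_mul_of_nonneg_right hρ hy.le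
  linarith [h1.1]

lemma lower {U : ℝ → ℝ} {s y ρ a B : ℝ} (hadm : Admissible (lg U)) (hy : 0 < y)
    (hρ0 : 0 < ρ) (hρ : ρ ≤ 1 / 2)
    (hB : ∀ w : ℂ, ‖w - (s + y * I)‖ ≤ ρ * y → ‖dschw (lg U) w‖ ≤ B) (ha0 : 0 < a)
    (ha : a ≤ ρ * y) : poisson (lg U) s y - B * a ≤ poisson (lg U) s (y - a) := by
  have hya : 0 < y - a := by
    have h3 : ρ * y ≤ 1 / 2 * y := mul_le_mul_of_nonneg_right hρ hy.le
    linarith
  have hconv : Convex ℝ (closedBall ((s : ℂ) + y * I) (ρ * y)) := convex_closedBall _ _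
  have e1 : ((s : ℂ) + y * I) - (s + ((y - a : ℝ) : ℂ) * I) = a * I := by
    push_cast
    ring
  have n1 : ‖((s : ℂ) + y * I) - (s + ((y - a : ℝ) : ℂ) * I)‖ = a := by
    rw [e1]
    simp [abs_of_pos ha0]
  have m1 : (s + ((y - a : ℝ) : ℂ) * I) ∈ closedBall ((s : ℂ) + y * I) (ρ * y) := by
    rw [mem_closedBall, dist_eq_norm, norm_sub_rev, n1]
    exact ha
  have m2 : ((s : ℂ) + y * I) ∈ closedBall ((s : ℂ) + y * I) (ρ * y) :=
    mem_closedBall_self (mul_pos hρ0 hy).le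
  have key := hconv.norm_image_sub_le_of_norm_hasDerivWithin_le (f := schw (lg U))
    (f' := dschw (lg U)) (C := B)
    (fun w hw => (hasDerivAt_schw hadm (mem_half hy hρ
      (by rwa [mem_closedBall, dist_eq_norm] at hw))).hasDerivWithinAt)
    (fun w hw => hB w (by rwa [mem_closedBall, dist_eq_norm] at hw)) m1 m2
  rw [n1] at key
  have h4 := (Complex.abs_re_le_norm _).trans key
  rw [Complex.sub_re, ← poisson_eq_re hadm hy, ← poisson_eq_re hadm hya] at h4
  have h5 := (abs_le.1 h4).2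
  linarith

lemma kernel_le {s t y a : ℝ} (ha : a ≤ y / 2) (ha0 : 0 < a) (hy : 0 < y) :
    (y - a) / ((s - t) ^ 2 + (y - a) ^ 2) ≤ 4 * (y / ((s - t) ^ 2 + y ^ 2)) := by
  have h1 : 0 < y - a := by linarith
  have h2 : 0 < (s - t) ^ 2 + (y - a) ^ 2 := by positivity
  have h3 : 0 < (s - t) ^ 2 + y ^ 2 := by positivity
  rw [← mul_div_assoc, div_le_div_iff₀ h2 h3]
  have h4 : (s - t) ^ 2 + y ^ 2 ≤ 4 * ((s - t) ^ 2 + (y - a) ^ 2) := by
    nlinarith [sq_nonneg (s - t)]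
  have h5 : (y - a) * ((s - t) ^ 2 + y ^ 2) ≤ y * ((s - t) ^ 2 + y ^ 2) :=
    mul_le_mul_of_nonneg_right (by linarith) h3.le
  have h6 : y * ((s - t) ^ 2 + y ^ 2) ≤ y * (4 * ((s - t) ^ 2 + (y - a) ^ 2)) :=
    mul_le_mul_of_nonneg_left h4 hy.le
  linarith

lemma Pk_le (k : ℝ → ℝ≥0∞) {s y a : ℝ} (ha : a ≤ y / 2) (ha0 : 0 < a) (hy : 0 < y) :
    Pk k s (y - a) ≤ 4 * Pk k s y := by
  unfold Crit.Pk
  rw [← lintegral_const_mul' _ _ (by norm_num)]
  refine lintegral_mono fun t => ?_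
  have h1 := kernel_le (s := s) (t := t) ha ha0 hy
  have h2 : ENNReal.ofReal ((y - a) / ((s - t) ^ 2 + (y - a) ^ 2)) ≤
      4 * ENNReal.ofReal (y / ((s - t) ^ 2 + y ^ 2)) := by
    have h3 : (4 : ℝ≥0∞) = ENNReal.ofReal 4 := by norm_num
    rw [h3, ← ENNReal.ofReal_mul (by norm_num)]
    exact ENNReal.ofReal_le_ofReal h1
  simp only
  rw [← mul_assoc]
  exact mul_le_mul_left h2 _

end HG

open HG in
theorem stHG (hGd : StGd) (hKEG : Crit.StKEG) : StHG := by
  intro la μ b p U hyp hb hp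
  obtain ⟨C, ρ, hC, hρ0, hρ, hGd⟩ := hGd la μ U hyp
  obtain ⟨C', hC', hK⟩ := hKEG b p hb hp
  have hadm : Admissible (lg U) := hyp.2.2.1.2.2
  refine ⟨1 + 4 * C' * Real.exp (C * ρ / p) / ρ, ?_, ?_⟩
  · have : 0 < 4 * C' * Real.exp (C * ρ / p) / ρ := by positivity
    linarith
  intro f hf s y hy hg
  set g := gg la U s y with hgdef
  have hg0 : 0 < g := by linarith
  have hRt : Rt la U s y g := ⟨hy, hg, le_refl _⟩
  set a := ρ * y / g with hadef
  have ha0 : 0 < a := by positivity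
  have ha1 : a ≤ ρ * y := by
    rw [hadef, div_le_iff₀ hg0]
    exact le_mul_of_one_le_right (mul_pos hρ0 hy).le hg
  have ha2 : a ≤ y / 2 := by
    have h3 : ρ * y ≤ 1 / 2 * y := mul_le_mul_of_nonneg_right hρ hy.le
    linarith
  have hay : a < y := by linarith
  have hlow := lower (B := C * g / y) hadm hy hρ0 hρ (fun w hw => (hGd s y g hRt w hw).1) ha0 ha1
  have e1 : C * g / y * a = C * ρ := by
    rw [hadef]
    field_simp
  rw [e1] at hlow
  have h1 := hK U hadm f hf s y a ha0 hay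
  refine h1.trans ?_
  have h2 := Pk_le (hU U b p f) (s := s) ha2 ha0 hy
  have h3 : C' / a * Real.exp (-poisson (lg U) s (y - a) / p) ≤
      C' * Real.exp (C * ρ / p) / ρ * (g / y) * Real.exp (-(poisson (lg U) s y / p)) := by
    have e2 : C' / a = C' / ρ * (g / y) := by
      rw [hadef]
      field_simp
    have h4 : Real.exp (-poisson (lg U) s (y - a) / p) ≤
        Real.exp (C * ρ / p) * Real.exp (-(poisson (lg U) s y / p)) := by
      rw [← Real.exp_add]
      apply Real.exp_le_exp.2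
      have h5 : -poisson (lg U) s (y - a) ≤ C * ρ - poisson (lg U) s y := by linarith
      calc -poisson (lg U) s (y - a) / p ≤ (C * ρ - poisson (lg U) s y) / p :=
            div_le_div_of_nonneg_right h5 hp.le
        _ = C * ρ / p + -(poisson (lg U) s y / p) := by ring
    rw [e2]
    have h6 : 0 ≤ C' / ρ * (g / y) := by positivity
    calc C' / ρ * (g / y) * Real.exp (-poisson (lg U) s (y - a) / p) ≤
        C' / ρ * (g / y) * (Real.exp (C * ρ / p) * Real.exp (-(poisson (lg U) s y / p))) :=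
          mul_le_mul_of_nonneg_left h4 h6
      _ = _ := by ring
  calc ENNReal.ofReal (C' / a * Real.exp (-poisson (lg U) s (y - a) / p)) *
        Pk (hU U b p f) s (y - a)
      ≤ ENNReal.ofReal (C' * Real.exp (C * ρ / p) / ρ * (g / y) *
          Real.exp (-(poisson (lg U) s y / p))) * (4 * Pk (hU U b p f) s y) :=
        mul_le_mul' (ENNReal.ofReal_le_ofReal h3) h2
    _ = ENNReal.ofReal (4 * (C' * Real.exp (C * ρ / p) / ρ * (g / y) *
          Real.exp (-(poisson (lg U) s y / p)))) * Pk (hU U b p f) s y := by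
        rw [← mul_assoc, mul_comm _ (4 : ℝ≥0∞)]
        rw [ENNReal.ofReal_mul (by norm_num : (0 : ℝ) ≤ 4)]
        norm_num
    _ ≤ ENNReal.ofReal ((1 + 4 * C' * Real.exp (C * ρ / p) / ρ) * (g / y) *
          Real.exp (-(poisson (lg U) s y / p))) * Pk (hU U b p f) s y := by
        refine mul_le_mul_left (ENNReal.ofReal_le_ofReal ?_) _
        have h7 : 0 ≤ (g / y) * Real.exp (-(poisson (lg U) s y / p)) := by positivity
        have h8 : (1 + 4 * C' * Real.exp (C * ρ / p) / ρ) * (g / y) *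
          Real.exp (-(poisson (lg U) s y / p)) =
          4 * (C' * Real.exp (C * ρ / p) / ρ * (g / y) *
          Real.exp (-(poisson (lg U) s y / p))) +
          (g / y) * Real.exp (-(poisson (lg U) s y / p)) := by ring
        rw [h8]
        linarith

end Pool.Agent.Work.MP_055a27_an.Cr3

end

section

/-!
# The Carleson bound for the high points
-/

open MeasureTheory Set Filter Topology Complex Metric
open scoped ENNReal NNReal

namespace Pool.Agent.Work.MP_055a27_an.Cr3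

open Crit (lg cc CC Pk hU)
open Nv (mx)

namespace HP

/-- The coefficient of the `k`-th layer. -/
noncomputable def co (c ms : ℝ) (k : ℕ) : ℝ :=
  (ms + k + 1) ^ 2 * Real.exp (-(c * (ms + k)))

theorem co_nonneg (c ms : ℝ) (k : ℕ) : 0 ≤ co c ms k := by
  unfold co
  positivity

theorem summable_co (c ms : ℝ) (hc : 0 < c) (hms : 1 ≤ ms) :
    Summable (fun k : ℕ => co c ms k * (ms + k + 1) ^ 2) := by
  have hr : ‖Real.exp (-c)‖ < 1 := by
    rw [Real.norm_eq_abs, Real.abs_exp]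
    exact Real.exp_lt_one_iff.mpr (by linarith)
  have h1 := summable_pow_mul_geometric_of_norm_lt_one (R := ℝ) 4 hr
  have h2 := (summable_nat_add_iff (f := fun n : ℕ => ((n : ℝ) ^ 4 * Real.exp (-c) ^ n)) 1).2 h1
  have h3 := h2.mul_left ((ms + 1) ^ 4 * Real.exp c)
  refine Summable.of_nonneg_of_le (fun k => ?_) (fun k => ?_) h3
  · exact mul_nonneg (co_nonneg c ms k) (sq_nonneg _)
  · have hk : (0 : ℝ) ≤ k := Nat.cast_nonneg k
    have e1 : co c ms k * (ms + k + 1) ^ 2 = (ms + k + 1) ^ 4 * Real.exp (-(c * (ms + k))) := by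
      unfold co
      ring
    have e2 : Real.exp (-(c * (ms + k))) ≤ Real.exp c * Real.exp (-c) ^ (k + 1) := by
      rw [← Real.exp_nat_mul, ← Real.exp_add]
      apply Real.exp_le_exp.2
      push_cast
      nlinarith
    have e3 : (ms + k + 1) ^ 4 ≤ ((ms + 1) * ((k : ℝ) + 1)) ^ 4 := by
      apply pow_le_pow_left₀ (by linarith)
      nlinarith
    rw [e1]
    calc (ms + k + 1) ^ 4 * Real.exp (-(c * (ms + k)))
        ≤ ((ms + 1) * ((k : ℝ) + 1)) ^ 4 * (Real.exp c * Real.exp (-c) ^ (k + 1)) :=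
          mul_le_mul e3 e2 (Real.exp_pos _).le (by positivity)
      _ = (ms + 1) ^ 4 * Real.exp c * (((k + 1 : ℕ) : ℝ) ^ 4 * Real.exp (-c) ^ (k + 1)) := by
          push_cast
          ring

theorem layer (c ms g y : ℝ) (k : ℕ) (hc : 0 < c) (hms : 1 ≤ ms) (hy : 0 < y)
    (h1 : ms + k ≤ g) (h2 : g ≤ ms + k + 1) :
    ENNReal.ofReal (g ^ 2 * Real.exp (-(c * g)) / y) ≤
      ENNReal.ofReal (co c ms k) * ENNReal.ofReal (1 / y) := by
  rw [← ENNReal.ofReal_mul (co_nonneg c ms k)]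
  apply ENNReal.ofReal_le_ofReal
  have hk : (0 : ℝ) ≤ k := Nat.cast_nonneg k
  have e1 : g ^ 2 ≤ (ms + k + 1) ^ 2 := pow_le_pow_left₀ (by linarith) h2 2
  have e2 : Real.exp (-(c * g)) ≤ Real.exp (-(c * (ms + k))) := by
    apply Real.exp_le_exp.2
    nlinarith
  have e3 : g ^ 2 * Real.exp (-(c * g)) ≤ co c ms k :=
    mul_le_mul e1 e2 (Real.exp_pos _).le (by positivity)
  rw [mul_one_div]
  exact div_le_div_of_nonneg_right e3 hy.le

end HP

open Pool.Agent.Work.MP_055a27_an.Cr3.HP in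
theorem stHP (hBas : StBas) (hHPm : StHPm) : StHP := by
  have _ := hBas
  intro la μ U hyp
  obtain ⟨ms, C0, hms, hC0, hH⟩ := hHPm la μ U hyp
  refine ⟨ms, hms, fun c hc => ?_⟩
  have hsum := summable_co c ms hc hms
  set T : ℝ := ∑' k : ℕ, co c ms k * (ms + k + 1) ^ 2 with hT
  have hT0 : 0 ≤ T := tsum_nonneg fun k => mul_nonneg (co_nonneg c ms k) (sq_nonneg _)
  refine ⟨1 + C0 * T, by nlinarith [mul_nonneg (by linarith : (0 : ℝ) ≤ C0) hT0],
    fun a s hs => ?_⟩
  -- the layers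
  let A : ℕ → Set (ℝ × ℝ) := fun k => {q : ℝ × ℝ | q.1 ∈ Icc a (a + s) ∧ 0 < q.2 ∧ q.2 ≤ s ∧
    ms + k ≤ gg la U q.1 q.2 ∧ gg la U q.1 q.2 ≤ ms + k + 1}
  have hcov : {q : ℝ × ℝ | q.1 ∈ Icc a (a + s) ∧ 0 < q.2 ∧ q.2 ≤ s ∧
      ms ≤ gg la U q.1 q.2} ⊆ ⋃ k, A k := by
    rintro q ⟨h1, h2, h3, h4⟩
    refine mem_iUnion.2 ⟨⌊gg la U q.1 q.2 - ms⌋₊, h1, h2, h3, ?_, ?_⟩
    · have := Nat.floor_le (sub_nonneg.2 h4)
      linarith
    · have := (Nat.lt_floor_add_one (gg la U q.1 q.2 - ms)).le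
      linarith
  have hmeas : Measurable (fun q : ℝ × ℝ => ENNReal.ofReal (1 / q.2)) := by
    exact (measurable_const.div measurable_snd).ennreal_ofReal
  have hA : ∀ k, ∫⁻ q in A k, ENNReal.ofReal ((gg la U q.1 q.2) ^ 2 *
      Real.exp (-(c * gg la U q.1 q.2)) / q.2) ≤
      ENNReal.ofReal (co c ms k * (ms + k + 1) ^ 2 * (C0 * s)) := by
    intro k
    have hk : (0 : ℝ) ≤ k := Nat.cast_nonneg k
    calc ∫⁻ q in A k, ENNReal.ofReal ((gg la U q.1 q.2) ^ 2 *
          Real.exp (-(c * gg la U q.1 q.2)) / q.2)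
        ≤ ∫⁻ q in A k, ENNReal.ofReal (co c ms k) * ENNReal.ofReal (1 / q.2) := by
          apply setLIntegral_mono (hmeas.const_mul _)
          rintro q ⟨-, h2, -, h4, h5⟩
          exact layer c ms _ _ k hc hms h2 h4 h5
      _ = ENNReal.ofReal (co c ms k) * ∫⁻ q in A k, ENNReal.ofReal (1 / q.2) :=
          lintegral_const_mul _ hmeas
      _ ≤ ENNReal.ofReal (co c ms k) * ENNReal.ofReal (C0 * (ms + k + 1) ^ 2 * s) := by
          gcongr
          refine le_trans (lintegral_mono_set ?_) (hH (ms + k + 1) a s (by linarith) hs)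
          rintro q ⟨h1, h2, h3, h4, h5⟩
          exact ⟨h1, h2, h3, by linarith, h5⟩
      _ = ENNReal.ofReal (co c ms k * (ms + k + 1) ^ 2 * (C0 * s)) := by
          rw [← ENNReal.ofReal_mul (co_nonneg c ms k)]
          congr 1
          ring
  calc ∫⁻ q in {q : ℝ × ℝ | q.1 ∈ Icc a (a + s) ∧ 0 < q.2 ∧ q.2 ≤ s ∧
        ms ≤ gg la U q.1 q.2}, ENNReal.ofReal ((gg la U q.1 q.2) ^ 2 *
          Real.exp (-(c * gg la U q.1 q.2)) / q.2)
      ≤ ∫⁻ q in ⋃ k, A k, ENNReal.ofReal ((gg la U q.1 q.2) ^ 2 *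
          Real.exp (-(c * gg la U q.1 q.2)) / q.2) := lintegral_mono_set hcov
    _ ≤ ∑' k, ∫⁻ q in A k, ENNReal.ofReal ((gg la U q.1 q.2) ^ 2 *
          Real.exp (-(c * gg la U q.1 q.2)) / q.2) := lintegral_iUnion_le _ _
    _ ≤ ∑' k : ℕ, ENNReal.ofReal (co c ms k * (ms + k + 1) ^ 2 * (C0 * s)) :=
        ENNReal.tsum_le_tsum hA
    _ = ENNReal.ofReal (∑' k : ℕ, co c ms k * (ms + k + 1) ^ 2 * (C0 * s)) :=
        (ENNReal.ofReal_tsum_of_nonneg (fun k => by
          have := co_nonneg c ms k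
          positivity) (hsum.mul_right _)).symm
    _ = ENNReal.ofReal (T * (C0 * s)) := by rw [tsum_mul_right]
    _ ≤ ENNReal.ofReal ((1 + C0 * T) * s) := by
        apply ENNReal.ofReal_le_ofReal
        nlinarith

end Pool.Agent.Work.MP_055a27_an.Cr3

end
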