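import Pool.Agent.Work.MP_055a27_an.Cr3.Stmts
import Pool.Agent.Work.MP_055a27_an.Crit.AperG
import Pool.Agent.Work.MP_055a27_an.Bd.B06
import Pool.Agent.Work.MP_055a27_an.WMeas
import Pool.Agent.Work.MP_055a27_an.Bd.B04
import Pool.Agent.Work.MP_055a27_an.Cr3.Stmts2
import Pool.Agent.Work.MP_055a27_an.Bd.B07

/-! Bundle of small proof modules (one section per former module). -/

section

/-!
# The shadow condition, item HighP: the high part of the area function
-/

open MeasureTheory Set Filter Topology Complex Metric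
open scoped ENNReal NNReal

namespace Pool.Agent.Work.MP_055a27_an.Cr3

open Crit (lg cc CC Pk hU)

namespace HighP

lemma intv {U : ℝ → ℝ} (hU : IsWeight U) (a c : ℝ) : IntervalIntegrable U volume a c := by
  rw [intervalIntegrable_iff]
  exact (hU.2.integrableOn_isCompact isCompact_uIcc).mono_set uIoc_subset_uIcc

/-- The high points of a cone are a measurable set. -/
lemma meas_S {U : ℝ → ℝ} (hw : Wt U) {la : ℝ} (hla : 0 < la) (lam x ms : ℝ) :
    MeasurableSet (cone lam x ∩ {q : ℝ × ℝ | ms ≤ gg la U q.1 q.2}) := by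
  classical
  set H : Set (ℝ × ℝ) := {q | 0 < q.2} with hH
  have hHm : MeasurableSet H := measurableSet_lt measurable_const measurable_snd
  have h1 : Measurable (H.piecewise (fun q : ℝ × ℝ => poisson (lg U) q.1 q.2) (fun _ => 0)) :=
    ContinuousOn.measurable_piecewise (Crit.stPCont (lg U) hw.2.2) continuousOn_const hHm
  have hP : Continuous (fun b : ℝ => ∫ t in (0:ℝ)..b, U t) :=
    intervalIntegral.continuous_primitive (fun a c => intv hw.1 a c) 0
  have h2 : Measurable (fun q : ℝ × ℝ => Real.log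
      (((∫ t in (0:ℝ)..(q.1 + la * q.2), U t) - ∫ t in (0:ℝ)..(q.1 - la * q.2), U t) / q.2)) := by
    apply Real.measurable_log.comp
    refine Measurable.div ?_ measurable_snd
    apply Continuous.measurable
    exact (hP.comp (by fun_prop)).sub (hP.comp (by fun_prop))
  have h3 : MeasurableSet {q : ℝ × ℝ | ms ≤
      H.piecewise (fun q : ℝ × ℝ => poisson (lg U) q.1 q.2) (fun _ => 0) q - Real.log
      (((∫ t in (0:ℝ)..(q.1 + la * q.2), U t) - ∫ t in (0:ℝ)..(q.1 - la * q.2), U t) / q.2)} :=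
    measurableSet_le measurable_const (h1.sub h2)
  have h4 : cone lam x ∩ {q : ℝ × ℝ | ms ≤ gg la U q.1 q.2} = cone lam x ∩ {q : ℝ × ℝ | ms ≤
      H.piecewise (fun q : ℝ × ℝ => poisson (lg U) q.1 q.2) (fun _ => 0) q - Real.log
      (((∫ t in (0:ℝ)..(q.1 + la * q.2), U t) - ∫ t in (0:ℝ)..(q.1 - la * q.2), U t) / q.2)} := by
    ext q
    simp only [mem_inter_iff, mem_setOf_eq]
    refine and_congr_right fun hq => ?_
    have hq2 : 0 < q.2 := hq.2
    have e1 : H.piecewise (fun q : ℝ × ℝ => poisson (lg U) q.1 q.2) (fun _ => 0) q =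
        poisson (lg U) q.1 q.2 := piecewise_eq_of_mem _ _ _ hq2
    have e2 : (∫ t in (0:ℝ)..(q.1 + la * q.2), U t) - ∫ t in (0:ℝ)..(q.1 - la * q.2), U t =
        ∫ t in Icc (q.1 - la * q.2) (q.1 + la * q.2), U t := by
      rw [intervalIntegral.integral_interval_sub_left (intv hw.1 _ _) (intv hw.1 _ _),
        intervalIntegral.integral_of_le (by nlinarith [mul_pos hla hq2]),
        integral_Icc_eq_integral_Ioc]
    rw [e1, e2]
    rfl
  rw [h4]
  exact (measurableSet_cone lam x).inter h3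

end HighP

theorem stHighP (hHG : StHG) (hH2 : StH2) (hH3 : StH3) : StHighP := by
  intro lam la μ b p U hlam hla hH hb hp
  have hp0 : 0 < p := by linarith
  have hla0 : 0 < la := hH.1
  have hw : Wt U := hH.2.2.1
  obtain ⟨ms, hms, CX, hCX⟩ : ∃ ms : ℝ, 1 ≤ ms ∧ HX p lam la ms U := by
    rcases le_or_gt p 2 with h | h
    · exact hH2 lam la μ p U hlam hla hH hp h
    · exact hH3 lam la μ p U hlam hla hH h
  obtain ⟨C, hC1, hC⟩ := hHG la μ b p U hH hb hp0
  have hCt : (ENNReal.ofReal (C ^ 2)) ^ (p / 2) ≠ ⊤ :=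
    ENNReal.rpow_ne_top_of_nonneg (by positivity) ENNReal.ofReal_ne_top
  refine ⟨ms, hms, ((ENNReal.ofReal (C ^ 2)) ^ (p / 2)).toNNReal * CX, fun f hf => ?_⟩
  have hk := hCX (hU U b p f) (Crit.AperG.aem_hU hw.2.2 hf b p)
  have e1 : ∫⁻ x, (hU U b p f x) ^ p = ∫⁻ x, (ntMax b f x) ^ p * ENNReal.ofReal (U x) := by
    apply lintegral_congr_ae
    filter_upwards [hw.2.1] with x hx
    exact Crit.AperG.hU_pow hp0 hx
  rw [e1] at hk
  have hin : ∀ x : ℝ, ∫⁻ q in cone lam x ∩ {q : ℝ × ℝ | ms ≤ gg la U q.1 q.2},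
      ENNReal.ofReal (gradSq f q.1 q.2) ≤ ENNReal.ofReal (C ^ 2) *
      ∫⁻ q in cone lam x ∩ {q : ℝ × ℝ | ms ≤ gg la U q.1 q.2},
      ENNReal.ofReal ((gg la U q.1 q.2 / q.2) ^ 2 *
        Real.exp (-(2 * poisson (lg U) q.1 q.2 / p))) * (Pk (hU U b p f) q.1 q.2) ^ 2 := by
    intro x
    rw [← lintegral_const_mul' _ _ ENNReal.ofReal_ne_top]
    apply setLIntegral_mono' (HighP.meas_S hw hla0 lam x ms)
    rintro q ⟨hq1, hq2⟩
    have hq0 : 0 < q.2 := hq1.2
    have hg : 1 ≤ gg la U q.1 q.2 := hms.trans hq2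
    have h1 := hC f hf q.1 q.2 hq0 hg
    rw [gradSq_eq hf hq0]
    calc ENNReal.ofReal (‖dschw f (q.1 + q.2 * I)‖ ^ 2)
        = (ENNReal.ofReal ‖dschw f (q.1 + q.2 * I)‖) ^ 2 :=
          ENNReal.ofReal_pow (norm_nonneg _) 2
      _ ≤ (ENNReal.ofReal (C * (gg la U q.1 q.2 / q.2) * Real.exp (-(poisson (lg U) q.1 q.2 / p))) *
          Pk (hU U b p f) q.1 q.2) ^ 2 := pow_le_pow_left' h1 2
      _ = ENNReal.ofReal (C ^ 2) * (ENNReal.ofReal ((gg la U q.1 q.2 / q.2) ^ 2 *
          Real.exp (-(2 * poisson (lg U) q.1 q.2 / p))) * (Pk (hU U b p f) q.1 q.2) ^ 2) := by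
          have hnn : 0 ≤ C * (gg la U q.1 q.2 / q.2) * Real.exp (-(poisson (lg U) q.1 q.2 / p)) := by
            have : 0 ≤ gg la U q.1 q.2 := by linarith
            positivity
          rw [mul_pow, ← ENNReal.ofReal_pow hnn, ← mul_assoc, ← ENNReal.ofReal_mul (by positivity)]
          congr 2
          rw [mul_pow, mul_pow, ← Real.exp_nat_mul, mul_assoc]
          congr 3
          push_cast
          ring
  calc ∫⁻ x, (∫⁻ q in cone lam x ∩ {q : ℝ × ℝ | ms ≤ gg la U q.1 q.2},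
        ENNReal.ofReal (gradSq f q.1 q.2)) ^ (p / 2) * ENNReal.ofReal (U x)
      ≤ ∫⁻ x, (ENNReal.ofReal (C ^ 2)) ^ (p / 2) *
        ((∫⁻ q in cone lam x ∩ {q : ℝ × ℝ | ms ≤ gg la U q.1 q.2},
        ENNReal.ofReal ((gg la U q.1 q.2 / q.2) ^ 2 *
        Real.exp (-(2 * poisson (lg U) q.1 q.2 / p))) * (Pk (hU U b p f) q.1 q.2) ^ 2) ^ (p / 2) *
        ENNReal.ofReal (U x)) := by
        apply lintegral_mono
        intro x
        beta_reduce
        rw [← mul_assoc, ← ENNReal.mul_rpow_of_nonneg _ _ (by positivity : 0 ≤ p / 2)]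
        refine mul_le_mul_left ?_ _
        exact ENNReal.rpow_le_rpow (hin x) (by positivity)
    _ = (ENNReal.ofReal (C ^ 2)) ^ (p / 2) * ∫⁻ x,
        ((∫⁻ q in cone lam x ∩ {q : ℝ × ℝ | ms ≤ gg la U q.1 q.2},
        ENNReal.ofReal ((gg la U q.1 q.2 / q.2) ^ 2 *
        Real.exp (-(2 * poisson (lg U) q.1 q.2 / p))) * (Pk (hU U b p f) q.1 q.2) ^ 2) ^ (p / 2) *
        ENNReal.ofReal (U x)) := lintegral_const_mul' _ _ hCt
    _ ≤ (ENNReal.ofReal (C ^ 2)) ^ (p / 2) *
        (CX * ∫⁻ x, (ntMax b f x) ^ p * ENNReal.ofReal (U x)) := by gcongr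
    _ = _ := by
        rw [ENNReal.coe_mul, ENNReal.coe_toNNReal hCt, mul_assoc]

end Pool.Agent.Work.MP_055a27_an.Cr3

end

section

/-!
# Interpolation between the reverse Hölder inequality and the average
-/

open MeasureTheory Set Filter Topology Complex Metric
open scoped ENNReal NNReal

namespace Pool.Agent.Work.MP_055a27_an.Cr3

open Crit (lg cc CC Pk hU)
open Nv (mx)

namespace Int

theorem split (x : ℝ≥0∞) (θ ε1 : ℝ) (h0 : 0 ≤ θ) (h1 : θ ≤ 1) (he : 0 < ε1) :
    x ^ (1 + θ * ε1) = x ^ (1 - θ) * (x ^ (1 + ε1)) ^ θ := by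
  rw [← ENNReal.rpow_mul, ← ENNReal.rpow_add_of_nonneg _ _ (by linarith) (by positivity)]
  congr 1
  ring

theorem bound (y g C1 θ : ℝ) (hy : 0 < y) (hC1 : 1 ≤ C1) (h1 : θ ≤ 1) :
    (y * Real.exp (-g)) ^ (1 - θ) * (C1 * y) ^ θ ≤ C1 * y * Real.exp (-((1 - θ) * g)) := by
  rw [Real.mul_rpow hy.le (Real.exp_pos _).le, Real.mul_rpow (by linarith) hy.le,
    ← Real.exp_mul]
  have e1 : y ^ (1 - θ) * y ^ θ = y := by
    rw [← Real.rpow_add hy]
    simp
  have e2 : C1 ^ θ ≤ C1 := by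
    calc C1 ^ θ ≤ C1 ^ (1 : ℝ) := Real.rpow_le_rpow_of_exponent_le hC1 h1
      _ = C1 := Real.rpow_one C1
  have e3 : -g * (1 - θ) = -((1 - θ) * g) := by ring
  rw [e3]
  calc y ^ (1 - θ) * Real.exp (-((1 - θ) * g)) * (C1 ^ θ * y ^ θ)
      = C1 ^ θ * (y ^ (1 - θ) * y ^ θ) * Real.exp (-((1 - θ) * g)) := by ring
    _ = C1 ^ θ * y * Real.exp (-((1 - θ) * g)) := by rw [e1]
    _ ≤ C1 * y * Real.exp (-((1 - θ) * g)) := by gcongr

theorem avg_bound (la : ℝ) (U : ℝ → ℝ) (z y : ℝ) (hy : 0 < y) :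
    (∫ t in Icc (z - la * y) (z + la * y), U t) * Real.exp (-poisson (lg U) z y) ≤
      y * Real.exp (-gg la U z y) := by
  have h1 : avg la U z y ≤ Real.exp (LL la U z y) := Real.le_exp_log _
  have h2 : (∫ t in Icc (z - la * y) (z + la * y), U t) = avg la U z y * y := by
    unfold avg
    rw [div_mul_cancel₀ _ hy.ne']
  have h3 : Real.exp (-gg la U z y) =
      Real.exp (LL la U z y) * Real.exp (-poisson (lg U) z y) := by
    rw [← Real.exp_add]
    congr 1
    unfold gg
    ring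
  rw [h2, h3]
  calc avg la U z y * y * Real.exp (-poisson (lg U) z y)
      ≤ Real.exp (LL la U z y) * y * Real.exp (-poisson (lg U) z y) := by gcongr
    _ = y * (Real.exp (LL la U z y) * Real.exp (-poisson (lg U) z y)) := by ring

end Int

open Pool.Agent.Work.MP_055a27_an.Cr3.Int in
theorem stInt (hRH : StRH) : StInt := by
  intro la μ U hyp
  obtain ⟨ε1, C1, hε1, hC1, hR⟩ := hRH la μ U hyp
  refine ⟨ε1 / 2, by positivity, fun ε hε hεle => ⟨1 - ε / ε1, C1, ?_, hC1, fun z y hy => ?_⟩⟩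
  · have : ε / ε1 ≤ 1 / 2 := by
      rw [div_le_iff₀ hε1]
      linarith
    linarith
  · set θ : ℝ := ε / ε1 with hθ
    have hθ0 : 0 ≤ θ := by positivity
    have hθ1 : θ ≤ 1 := by
      rw [hθ, div_le_iff₀ hε1]
      linarith
    have hεθ : ε = θ * ε1 := by rw [hθ, div_mul_cancel₀ _ hε1.ne']
    set h : ℝ := poisson (lg U) z y with hh
    have hUi : IntegrableOn U (Icc (z - la * y) (z + la * y)) volume :=
      hyp.2.2.1.1.2.integrableOn_isCompact isCompact_Icc
    have hU0 : ∀ t, 0 ≤ U t := hyp.2.2.1.1.1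
    have hm : AEMeasurable (fun t => ENNReal.ofReal (U t * Real.exp (-h)))
        (volume.restrict (Icc (z - la * y) (z + la * y))) :=
      (hUi.aestronglyMeasurable.aemeasurable.mul_const _).ennreal_ofReal
    have h1 : ∫⁻ t in Icc (z - la * y) (z + la * y), ENNReal.ofReal (U t * Real.exp (-h)) ≤
        ENNReal.ofReal (y * Real.exp (-gg la U z y)) := by
      rw [← ofReal_integral_eq_lintegral_ofReal (hUi.mul_const _)
        (Eventually.of_forall fun t => mul_nonneg (hU0 t) (Real.exp_pos _).le),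
        integral_mul_const]
      exact ENNReal.ofReal_le_ofReal (avg_bound la U z y hy)
    have h2 : ∫⁻ t in Icc (z - la * y) (z + la * y),
        (ENNReal.ofReal (U t * Real.exp (-h))) ^ (1 + ε1) ≤ ENNReal.ofReal (C1 * y) := by
      have e : ∀ t, (ENNReal.ofReal (U t * Real.exp (-h))) ^ (1 + ε1) =
          (ENNReal.ofReal (U t)) ^ (1 + ε1) * ENNReal.ofReal (Real.exp (-((1 + ε1) * h))) := by
        intro t
        rw [ENNReal.ofReal_mul (hU0 t), ENNReal.mul_rpow_of_nonneg _ _ (by linarith),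
          ENNReal.ofReal_rpow_of_pos (Real.exp_pos _), ← Real.exp_mul]
        congr 3
        ring
      simp only [e]
      rw [lintegral_mul_const' _ _ ENNReal.ofReal_ne_top]
      calc (∫⁻ t in Icc (z - la * y) (z + la * y), (ENNReal.ofReal (U t)) ^ (1 + ε1)) *
            ENNReal.ofReal (Real.exp (-((1 + ε1) * h)))
          ≤ ENNReal.ofReal (C1 * y * Real.exp ((1 + ε1) * h)) *
            ENNReal.ofReal (Real.exp (-((1 + ε1) * h))) := by
              gcongr
              exact hR z y hy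
        _ = ENNReal.ofReal (C1 * y) := by
              rw [← ENNReal.ofReal_mul (by positivity), mul_assoc, ← Real.exp_add,
                add_neg_cancel, Real.exp_zero, mul_one]
    calc ∫⁻ t in Icc (z - la * y) (z + la * y),
          (ENNReal.ofReal (U t * Real.exp (-h))) ^ (1 + ε)
        = ∫⁻ t in Icc (z - la * y) (z + la * y),
          (ENNReal.ofReal (U t * Real.exp (-h))) ^ (1 - θ) *
            ((ENNReal.ofReal (U t * Real.exp (-h))) ^ (1 + ε1)) ^ θ := by
          rw [hεθ]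
          simp only [split _ θ ε1 hθ0 hθ1 hε1]
      _ ≤ (∫⁻ t in Icc (z - la * y) (z + la * y),
            ENNReal.ofReal (U t * Real.exp (-h))) ^ (1 - θ) *
          (∫⁻ t in Icc (z - la * y) (z + la * y),
            (ENNReal.ofReal (U t * Real.exp (-h))) ^ (1 + ε1)) ^ θ :=
          ENNReal.lintegral_mul_norm_pow_le hm (hm.pow_const _) (by linarith) hθ0 (by ring)
      _ ≤ (ENNReal.ofReal (y * Real.exp (-gg la U z y))) ^ (1 - θ) *
          (ENNReal.ofReal (C1 * y)) ^ θ := by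
          gcongr
      _ = ENNReal.ofReal ((y * Real.exp (-gg la U z y)) ^ (1 - θ) * (C1 * y) ^ θ) := by
          rw [ENNReal.ofReal_rpow_of_pos (by positivity),
            ENNReal.ofReal_rpow_of_pos (by positivity), ← ENNReal.ofReal_mul (by positivity)]
      _ ≤ ENNReal.ofReal (C1 * y * Real.exp (-((1 - θ) * gg la U z y))) :=
          ENNReal.ofReal_le_ofReal (bound y _ C1 θ hy hC1 hθ1)

end Pool.Agent.Work.MP_055a27_an.Cr3

end

section

/-!
# Partial fractions
-/

open MeasureTheory Set Filter Topology Complex Metric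
open scoped ENNReal NNReal

namespace Pool.Agent.Work.MP_055a27_an.Cr3

namespace KI

/-- Partial fractions of a product with distinct positive nodes. -/
theorem pf (c : ℕ → ℝ) (hc : ∀ j, 0 < c j) (hinj : Function.Injective c) (n : ℕ) :
    ∃ β : ℕ → ℝ, ∀ s : ℝ, 0 ≤ s → ∏ j ∈ Finset.range (n + 1), (1 / (s + c j)) =
      ∑ j ∈ Finset.range (n + 1), β j / (s + c j) := by
  induction n with
  | zero => exact ⟨fun _ => 1, fun s _ => by simp⟩
  | succ n ih =>
    obtain ⟨β, hβ⟩ := ih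
    refine ⟨Function.update (fun j => β j / (c (n + 1) - c j)) (n + 1)
      (-∑ j ∈ Finset.range (n + 1), β j / (c (n + 1) - c j)), fun s hs => ?_⟩
    rw [Finset.prod_range_succ, hβ s hs, Finset.sum_range_succ _ (n + 1), Function.update_self,
      Finset.sum_mul]
    have h1 : ∑ j ∈ Finset.range (n + 1), Function.update (fun j => β j / (c (n + 1) - c j)) (n + 1)
        (-∑ j ∈ Finset.range (n + 1), β j / (c (n + 1) - c j)) j / (s + c j) =
        ∑ j ∈ Finset.range (n + 1), β j / (c (n + 1) - c j) / (s + c j) := by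
      refine Finset.sum_congr rfl fun j hj => ?_
      rw [Function.update_of_ne (Finset.mem_range.1 hj).ne]
    rw [h1, neg_div, Finset.sum_div, ← sub_eq_add_neg, ← Finset.sum_sub_distrib]
    refine Finset.sum_congr rfl fun j hj => ?_
    have h2 : c (n + 1) - c j ≠ 0 := by
      intro h0
      have h3 := hinj (sub_eq_zero.1 h0)
      exact (Finset.mem_range.1 hj).ne' h3
    have h3 : s + c j ≠ 0 := by have := hc j; positivity
    have h4 : s + c (n + 1) ≠ 0 := by have := hc (n + 1); positivity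
    field_simp
    ring

/-- The same with a bound. -/
theorem pfb (c : ℕ → ℝ) (hc : ∀ j, 0 < c j) (hinj : Function.Injective c) (n : ℕ) :
    ∃ (C : ℝ) (β : ℕ → ℝ), 0 ≤ C ∧ (∀ j, |β j| ≤ C) ∧ ∀ s : ℝ, 0 ≤ s →
      ∏ j ∈ Finset.range (n + 1), (1 / (s + c j)) =
        ∑ j ∈ Finset.range (n + 1), β j / (s + c j) := by
  obtain ⟨β, hβ⟩ := pf c hc hinj n
  refine ⟨∑ j ∈ Finset.range (n + 1), |β j|, fun j => if j ∈ Finset.range (n + 1) then β j else 0,
    Finset.sum_nonneg fun j _ => abs_nonneg _, fun j => ?_, fun s hs => ?_⟩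
  · by_cases h : j ∈ Finset.range (n + 1)
    · simp only [h, if_true]
      exact Finset.single_le_sum (f := fun j => |β j|) (fun i _ => abs_nonneg (β i)) h
    · simp only [h, if_false, abs_zero]
      exact Finset.sum_nonneg fun j _ => abs_nonneg _
  · rw [hβ s hs]
    refine Finset.sum_congr rfl fun j hj => ?_
    simp only [hj, if_true]

theorem p2 (c : ℕ → ℝ) (hc : ∀ j, 0 < c j) (hinj : Function.Injective c) (U : ℝ) (hU : 0 ≤ U)
    (N : ℕ) : ∃ C : ℝ, 0 ≤ C ∧ ∀ u : ℝ, 0 ≤ u → u ≤ U → ∃ b : ℕ → ℝ, (∀ j, |b j| ≤ C) ∧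
      ∀ s : ℝ, 0 ≤ s → 0 < s + u →
        1 / (s + u) = (∏ j ∈ Finset.range N, ((c j - u) / (s + c j))) / (s + u) +
          ∑ j ∈ Finset.range N, b j / (s + c j) := by
  induction N with
  | zero => exact ⟨0, le_refl _, fun u _ _ => ⟨fun _ => 0, by simp, fun s _ _ => by simp⟩⟩
  | succ N ih =>
    obtain ⟨C, hC, ih⟩ := ih
    obtain ⟨D, β, hD, hβ, hpf⟩ := pfb c hc hinj N
    have hQ0 : 0 ≤ ∏ j ∈ Finset.range N, (c j + U) :=
      Finset.prod_nonneg fun j _ => by have := hc j; positivity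
    refine ⟨C + (∏ j ∈ Finset.range N, (c j + U)) * D, add_nonneg hC (mul_nonneg hQ0 hD),
      fun u hu0 hu1 => ?_⟩
    obtain ⟨b, hb, hs⟩ := ih u hu0 hu1
    have hQ : |∏ j ∈ Finset.range N, (c j - u)| ≤ ∏ j ∈ Finset.range N, (c j + U) := by
      rw [Finset.abs_prod]
      refine Finset.prod_le_prod (fun j _ => abs_nonneg _) fun j _ => ?_
      have := hc j
      rw [abs_le]
      constructor <;> linarith
    refine ⟨fun j => (if j ∈ Finset.range N then b j else 0) +
      (∏ j ∈ Finset.range N, (c j - u)) * β j, fun j => ?_, fun s hs0 hsu => ?_⟩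
    · refine (abs_add_le _ _).trans (add_le_add ?_ ?_)
      · by_cases h : j ∈ Finset.range N
        · simp only [h, if_true]; exact hb j
        · simp only [h, if_false, abs_zero]; exact hC
      · rw [abs_mul]
        exact mul_le_mul hQ (hβ j) (abs_nonneg _) hQ0
    · have h1 := hs s hs0 hsu
      have h2 : ∑ j ∈ Finset.range (N + 1), ((if j ∈ Finset.range N then b j else 0) +
          (∏ j ∈ Finset.range N, (c j - u)) * β j) / (s + c j) =
          ∑ j ∈ Finset.range N, b j / (s + c j) +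
            (∏ j ∈ Finset.range N, (c j - u)) *
              ∏ j ∈ Finset.range (N + 1), (1 / (s + c j)) := by
        rw [hpf s hs0, Finset.mul_sum]
        simp only [add_div]
        rw [Finset.sum_add_distrib]
        congr 1
        · rw [Finset.sum_range_succ]
          simp only [Finset.mem_range, lt_irrefl, if_false, zero_div, add_zero]
          refine Finset.sum_congr rfl fun j hj => ?_
          rw [if_pos (Finset.mem_range.1 hj)]
        · refine Finset.sum_congr rfl fun j _ => ?_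
          rw [mul_div_assoc]
      rw [h2]
      have h3 : (∏ j ∈ Finset.range (N + 1), ((c j - u) / (s + c j))) / (s + u) +
          (∏ j ∈ Finset.range N, (c j - u)) * ∏ j ∈ Finset.range (N + 1), (1 / (s + c j)) =
          (∏ j ∈ Finset.range N, ((c j - u) / (s + c j))) / (s + u) := by
        rw [Finset.prod_range_succ, Finset.prod_range_succ, ← mul_assoc, ← Finset.prod_mul_distrib]
        have h4 : ∏ j ∈ Finset.range N, ((c j - u) * (1 / (s + c j))) =
            ∏ j ∈ Finset.range N, ((c j - u) / (s + c j)) :=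
          Finset.prod_congr rfl fun j _ => by rw [mul_one_div]
        rw [h4]
        have h5 : s + c N ≠ 0 := by have := hc N; positivity
        have h6 : s + u ≠ 0 := hsu.ne'
        field_simp
        ring
      rw [h1, ← h3]
      ring

end KI

open KI in
theorem stKI : StKI := by
  intro n K hK
  have hK0 : 0 < K := by linarith
  have hc1 : ∀ j : ℕ, 0 < ((j : ℝ) + 1) ^ 2 := fun j => by positivity
  have hc2 : ∀ j : ℕ, 0 < (K * ((j : ℝ) + 1)) ^ 2 := fun j => by positivity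
  have hi1 : Function.Injective fun j : ℕ => ((j : ℝ) + 1) ^ 2 := by
    intro a b h
    have h1 : (a : ℝ) + 1 = b + 1 :=
      (pow_left_inj₀ (by positivity) (by positivity) two_ne_zero).1 h
    have h2 : (a : ℝ) = b := by linarith
    exact_mod_cast h2
  have hi2 : Function.Injective fun j : ℕ => (K * ((j : ℝ) + 1)) ^ 2 := by
    intro a b h
    have h1 : K * ((a : ℝ) + 1) = K * (b + 1) :=
      (pow_left_inj₀ (by positivity) (by positivity) two_ne_zero).1 h
    have h2 : (a : ℝ) + 1 = b + 1 := mul_left_cancel₀ hK0.ne' h1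
    have h3 : (a : ℝ) = b := by linarith
    exact_mod_cast h3
  obtain ⟨C₁, β, hC₁, hβ, h1⟩ := pfb (fun j : ℕ => ((j : ℝ) + 1) ^ 2) hc1 hi1 n
  obtain ⟨C₂, hC₂, h2⟩ := p2 (fun j : ℕ => (K * ((j : ℝ) + 1)) ^ 2) hc2 hi2 (K ^ 2 / 2)
    (by positivity) (n + 1)
  refine ⟨1 + C₁ + C₂, by linarith, ⟨β, fun j => (hβ j).trans (by linarith), h1⟩, ?_⟩
  intro u hu0 hu1
  obtain ⟨b, hb, h3⟩ := h2 u hu0 hu1
  exact ⟨b, fun j => (hb j).trans (by linarith), h3⟩

end Pool.Agent.Work.MP_055a27_an.Cr3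

end

section

/-!
# Weighted `L^1` bound for the logarithm above a root
-/

open MeasureTheory Set Filter Topology Complex Metric
open scoped ENNReal NNReal

namespace Pool.Agent.Work.MP_055a27_an.Cr3

open Crit (lg cc CC Pk hU)
open Nv (mx)

namespace LS

/-- The kernel of the statement. -/
noncomputable def kn (n : ℕ) (z y t : ℝ) : ℝ := y ^ (2 * n + 1) / ((t - z) ^ 2 + y ^ 2) ^ (n + 1)

/-- The product kernel. -/
noncomputable def kp (n : ℕ) (z y t : ℝ) : ℝ :=
  (1 / y) * ∏ j ∈ Finset.range (n + 1), (1 / (((t - z) / y) ^ 2 + ((j : ℝ) + 1) ^ 2))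

lemma kn_nonneg (n : ℕ) {z y : ℝ} (hy : 0 < y) (t : ℝ) : 0 ≤ kn n z y t := by
  unfold kn; positivity

lemma kp_nonneg (n : ℕ) {z y : ℝ} (hy : 0 < y) (t : ℝ) : 0 ≤ kp n z y t := by
  unfold kp
  refine mul_nonneg (by positivity) (Finset.prod_nonneg fun j _ => by positivity)

lemma kn_eq (n : ℕ) {z y : ℝ} (hy : 0 < y) (t : ℝ) :
    kn n z y t = (1 / y) * (1 / (((t - z) / y) ^ 2 + 1)) ^ (n + 1) := by
  unfold kn
  have h1 : ((t - z) / y) ^ 2 + 1 = ((t - z) ^ 2 + y ^ 2) / y ^ 2 := by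
    field_simp
  have h2 : 0 < (t - z) ^ 2 + y ^ 2 := by positivity
  rw [h1, one_div_div, div_pow, ← pow_mul]
  rw [div_mul_div_comm, one_mul, div_eq_div_iff (by positivity) (by positivity)]
  ring

lemma kp_le_kn (n : ℕ) {z y : ℝ} (hy : 0 < y) (t : ℝ) : kp n z y t ≤ kn n z y t := by
  rw [kn_eq n hy]
  unfold kp
  refine mul_le_mul_of_nonneg_left ?_ (by positivity)
  have h1 : ∏ j ∈ Finset.range (n + 1), (1 / (((t - z) / y) ^ 2 + ((j : ℝ) + 1) ^ 2)) ≤
      ∏ _j ∈ Finset.range (n + 1), (1 / (((t - z) / y) ^ 2 + 1)) := by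
    refine Finset.prod_le_prod (fun j _ => by positivity) fun j _ => ?_
    refine one_div_le_one_div_of_le (by positivity) ?_
    have : (0 : ℝ) ≤ j := j.cast_nonneg
    nlinarith
  rwa [Finset.prod_const, Finset.card_range] at h1

lemma kn_le_kp (n : ℕ) {z y : ℝ} (hy : 0 < y) (t : ℝ) :
    kn n z y t ≤ ((n : ℝ) + 1) ^ (2 * (n + 1)) * kp n z y t := by
  rw [kn_eq n hy]
  unfold kp
  rw [mul_left_comm]
  refine mul_le_mul_of_nonneg_left ?_ (by positivity)
  have h1 : ∏ _j ∈ Finset.range (n + 1), (1 / (((t - z) / y) ^ 2 + 1)) ≤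
      ∏ j ∈ Finset.range (n + 1),
        (((n : ℝ) + 1) ^ 2 * (1 / (((t - z) / y) ^ 2 + ((j : ℝ) + 1) ^ 2))) := by
    refine Finset.prod_le_prod (fun j _ => by positivity) fun j hj => ?_
    have hj1 : (j : ℝ) ≤ n := by
      have := Finset.mem_range.1 hj
      exact_mod_cast Nat.lt_succ_iff.1 this
    have : (0 : ℝ) ≤ j := j.cast_nonneg
    rw [mul_one_div, div_le_div_iff₀ (by positivity) (by positivity), one_mul]
    have h2 : ((j : ℝ) + 1) ^ 2 ≤ ((n : ℝ) + 1) ^ 2 := by
      apply pow_le_pow_left₀ (by positivity); linarith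
    have h3 : (1 : ℝ) ≤ ((n : ℝ) + 1) ^ 2 := by nlinarith
    have h4 : ((t - z) / y) ^ 2 ≤ ((n : ℝ) + 1) ^ 2 * ((t - z) / y) ^ 2 :=
      le_mul_of_one_le_left (by positivity) h3
    nlinarith
  rw [Finset.prod_const, Finset.card_range, Finset.prod_mul_distrib, Finset.prod_const,
    Finset.card_range, ← pow_mul] at h1
  exact h1

/-- Bound of the kernel away from the centre. -/
lemma kn_le_q (n : ℕ) {z y q : ℝ} (hy : 0 < y) (hq : 0 < q) {t : ℝ}
    (h : q ≤ ((t - z) / y) ^ 2 + 1) : kn n z y t ≤ (1 / y) * (1 / q) ^ (n + 1) := by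
  rw [kn_eq n hy]
  refine mul_le_mul_of_nonneg_left ?_ (by positivity)
  refine pow_le_pow_left₀ (by positivity) ?_ _
  exact one_div_le_one_div_of_le hq h

/-- The coefficients of the dyadic decomposition. -/
noncomputable def co (n : ℕ) (y : ℝ) (k : ℕ) : ℝ := 4 ^ (n + 1) / y * (1 / 4) ^ (k * (n + 1))

lemma kn_dyadic (n : ℕ) {z y : ℝ} (hy : 0 < y) (t : ℝ) :
    ∃ k : ℕ, t ∈ Icc (z - 2 ^ k * y) (z + 2 ^ k * y) ∧ kn n z y t ≤ co n y k := by
  have hex : ∃ k : ℕ, |t - z| ≤ 2 ^ k * y := by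
    obtain ⟨k, hk⟩ := pow_unbounded_of_one_lt (|t - z| / y) (one_lt_two : (1 : ℝ) < 2)
    exact ⟨k, by rw [div_lt_iff₀ hy] at hk; exact hk.le⟩
  classical
  obtain ⟨k, hk, hmin⟩ : ∃ k : ℕ, |t - z| ≤ 2 ^ k * y ∧ ∀ i < k, ¬ |t - z| ≤ 2 ^ i * y :=
    ⟨Nat.find hex, Nat.find_spec hex, fun i hi => Nat.find_min hex hi⟩
  refine ⟨k, ?_, ?_⟩
  · rw [abs_le] at hk
    exact ⟨by linarith [hk.1], by linarith [hk.2]⟩
  · cases k with
    | zero =>
      have h1 : kn n z y t ≤ (1 / y) * (1 / 1) ^ (n + 1) := by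
        refine kn_le_q n hy one_pos ?_
        have : 0 ≤ ((t - z) / y) ^ 2 := by positivity
        linarith
      refine h1.trans ?_
      unfold co
      rw [zero_mul, pow_zero, mul_one, div_one, one_pow, mul_one]
      refine div_le_div_of_nonneg_right ?_ hy.le
      exact one_le_pow₀ (by norm_num)
    | succ k =>
      have h2 := hmin k (Nat.lt_succ_self k)
      rw [not_le] at h2
      have h3 : (4 : ℝ) ^ k ≤ ((t - z) / y) ^ 2 + 1 := by
        have h4 : (2 : ℝ) ^ k ≤ |(t - z) / y| := by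
          rw [abs_div, abs_of_pos hy, le_div_iff₀ hy]
          exact h2.le
        have h5 : ((2 : ℝ) ^ k) ^ 2 ≤ |(t - z) / y| ^ 2 := pow_le_pow_left₀ (by positivity) h4 2
        rw [sq_abs, ← pow_mul, mul_comm k 2, pow_mul] at h5
        norm_num at h5
        linarith
      have h1 := kn_le_q n hy (by positivity) h3
      refine h1.trans (le_of_eq ?_)
      unfold co
      rw [one_div_pow, one_div_pow, ← pow_mul, add_mul, one_mul, pow_add]
      field_simp
      ring

lemma lint_dyadic (n : ℕ) {z y : ℝ} (hy : 0 < y) {f : ℝ → ℝ≥0∞} (hf : AEMeasurable f volume) :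
    ∫⁻ t, f t * ENNReal.ofReal (kn n z y t) ≤
      ∑' k : ℕ, ENNReal.ofReal (co n y k) *
        ∫⁻ t in Icc (z - 2 ^ k * y) (z + 2 ^ k * y), f t := by
  calc ∫⁻ t, f t * ENNReal.ofReal (kn n z y t)
      ≤ ∫⁻ t, ∑' k : ℕ, ENNReal.ofReal (co n y k) *
          (Icc (z - 2 ^ k * y) (z + 2 ^ k * y)).indicator f t := by
        refine lintegral_mono fun t => ?_
        obtain ⟨k, hk, hle⟩ := kn_dyadic n (z := z) hy t
        refine le_trans ?_ (ENNReal.le_tsum k)
        rw [indicator_of_mem hk, mul_comm]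
        gcongr
    _ = ∑' k : ℕ, ∫⁻ t, ENNReal.ofReal (co n y k) *
          (Icc (z - 2 ^ k * y) (z + 2 ^ k * y)).indicator f t := by
        rw [lintegral_tsum]
        intro k
        exact (hf.indicator measurableSet_Icc).const_mul _
    _ = _ := by
        refine tsum_congr fun k => ?_
        rw [lintegral_const_mul'' _ (hf.indicator measurableSet_Icc),
          lintegral_indicator measurableSet_Icc]

/-- The positive part over a dyadic interval. -/
lemma term_bound {la μ : ℝ} {U : ℝ → ℝ} (hJen : StJen) (hH : Hyp la μ U) {C0 : ℝ} (hC0 : 0 < C0)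
    (hSh : ∀ z y : ℝ, 0 < y → ∫ t in Icc (z - μ * y) (z + μ * y), U t ≤
      C0 * (y * Real.exp (poisson (lg U) z y)))
    {C1 : ℝ} {N : ℕ} (hC1 : 1 ≤ C1)
    (hG : ∀ z y m z' y' : ℝ, Rt la U z y m → y ≤ y' → |z' - z| ≤ μ / 2 * (y' - y) →
      |poisson (lg U) z' y' - LL la U z y| ≤ C1 * m * (y' / y) ^ N)
    {κ : ℝ} (hκ1 : 1 ≤ κ) (hκμ : 1 ≤ μ * κ)
    {z y m : ℝ} (hR : Rt la U z y m) (k : ℕ) :
    ∫⁻ t in Icc (z - 2 ^ k * y) (z + 2 ^ k * y), ENNReal.ofReal (lg U t - LL la U z y) ≤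
      ENNReal.ofReal (2 * (2 ^ k * y) *
        ((Real.log (1 + C0 * κ / 2) + C1 * κ ^ N) * m * 2 ^ (k * N))) := by
  have hW := hH.2.2.1
  have hy : 0 < y := hR.1
  have hm : 1 ≤ m := hR.2.1
  have hμ : 0 < μ := hH.1.trans hH.2.1
  have hκ0 : 0 < κ := lt_of_lt_of_le one_pos hκ1
  have h2k : (1 : ℝ) ≤ 2 ^ k := one_le_pow₀ (by norm_num)
  generalize hr' : (2 : ℝ) ^ k * y = r
  have hr : 0 < r := by rw [← hr']; positivity
  have hyr : y ≤ r := by rw [← hr']; nlinarith
  have hrκ : r ≤ κ * r := by nlinarith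
  generalize hL : LL la U z y = L
  have h1 := (hJen U (z - r) (z + r) L hW (by linarith)).1
  refine h1.trans (ENNReal.ofReal_le_ofReal ?_)
  have e1 : z + r - (z - r) = 2 * r := by ring
  rw [e1]
  have h2 : ∫ t in Icc (z - r) (z + r), U t ≤
      C0 * (κ * r * Real.exp (poisson (lg U) z (κ * r))) := by
    refine le_trans ?_ (hSh z (κ * r) (by positivity))
    refine setIntegral_mono_set ?_ ?_ ?_
    · exact hW.1.2.integrableOn_isCompact isCompact_Icc
    · exact Eventually.of_forall fun t => hW.1.1 t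
    · refine (Icc_subset_Icc ?_ ?_).eventuallyLE
      · nlinarith
      · nlinarith
  have h3 := hG z y m z (κ * r) hR (hyr.trans hrκ) (by
    rw [sub_self, abs_zero]
    exact mul_nonneg (by positivity) (by linarith))
  rw [hL] at h3
  have e2 : κ * r / y = κ * 2 ^ k := by
    rw [← hr']; field_simp
  have e3 : C1 * m * (κ * r / y) ^ N = C1 * κ ^ N * m * 2 ^ (k * N) := by
    rw [e2, mul_pow, ← pow_mul]; ring
  rw [e3] at h3
  generalize hB : C1 * κ ^ N * m * 2 ^ (k * N) = B at h3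
  have hB0 : 0 ≤ B := by rw [← hB]; positivity
  have h4 : poisson (lg U) z (κ * r) ≤ L + B := by linarith [(abs_le.1 h3).2]
  have hI0 : 0 ≤ ∫ t in Icc (z - r) (z + r), U t :=
    setIntegral_nonneg measurableSet_Icc fun t _ => hW.1.1 t
  have h5 : Real.exp (-L) * ((∫ t in Icc (z - r) (z + r), U t) / (2 * r)) ≤
      C0 * κ / 2 * Real.exp B := by
    have h51 : (∫ t in Icc (z - r) (z + r), U t) ≤ C0 * (κ * r * Real.exp (L + B)) := by
      refine h2.trans ?_
      gcongr
    calc Real.exp (-L) * ((∫ t in Icc (z - r) (z + r), U t) / (2 * r))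
        ≤ Real.exp (-L) * ((C0 * (κ * r * Real.exp (L + B))) / (2 * r)) := by
          gcongr
      _ = C0 * κ / 2 * (Real.exp (-L) * Real.exp (L + B)) := by
          field_simp
      _ = _ := by
          rw [← Real.exp_add]
          congr 2
          ring
  have h6 : 0 ≤ Real.exp (-L) * ((∫ t in Icc (z - r) (z + r), U t) / (2 * r)) := by positivity
  have hlog0 : 0 ≤ Real.log (1 + C0 * κ / 2) := by
    apply Real.log_nonneg
    have : 0 < C0 * κ / 2 := by positivity
    linarith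
  have h7 : Real.log (1 + Real.exp (-L) * ((∫ t in Icc (z - r) (z + r), U t) / (2 * r))) ≤
      Real.log (1 + C0 * κ / 2) + B := by
    have h8 : 1 + Real.exp (-L) * ((∫ t in Icc (z - r) (z + r), U t) / (2 * r)) ≤
        (1 + C0 * κ / 2) * Real.exp B := by
      have : 1 ≤ Real.exp B := Real.one_le_exp hB0
      nlinarith
    calc _ ≤ Real.log ((1 + C0 * κ / 2) * Real.exp B) := Real.log_le_log (by linarith) h8
      _ = _ := by rw [Real.log_mul (by positivity) (Real.exp_pos _).ne', Real.log_exp]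
  refine mul_le_mul_of_nonneg_left (h7.trans ?_) (by positivity)
  have h9 : (1 : ℝ) ≤ m * 2 ^ (k * N) := by
    have : (1 : ℝ) ≤ 2 ^ (k * N) := one_le_pow₀ (by norm_num)
    nlinarith
  calc Real.log (1 + C0 * κ / 2) + B
      ≤ Real.log (1 + C0 * κ / 2) * (m * 2 ^ (k * N)) + B := by
        gcongr
        exact le_mul_of_one_le_right hlog0 h9
    _ = _ := by rw [← hB]; ring

/-- The positive part. -/
lemma pos_bound {la μ : ℝ} {U : ℝ → ℝ} (hJen : StJen) (hH : Hyp la μ U) {C0 : ℝ} (hC0 : 0 < C0)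
    (hSh : ∀ z y : ℝ, 0 < y → ∫ t in Icc (z - μ * y) (z + μ * y), U t ≤
      C0 * (y * Real.exp (poisson (lg U) z y)))
    {C1 : ℝ} {N : ℕ} (hC1 : 1 ≤ C1)
    (hG : ∀ z y m z' y' : ℝ, Rt la U z y m → y ≤ y' → |z' - z| ≤ μ / 2 * (y' - y) →
      |poisson (lg U) z' y' - LL la U z y| ≤ C1 * m * (y' / y) ^ N)
    {κ : ℝ} (hκ1 : 1 ≤ κ) (hκμ : 1 ≤ μ * κ) {n : ℕ} (hn : N ≤ n)
    {z y m : ℝ} (hR : Rt la U z y m) :
    ∫⁻ t, ENNReal.ofReal (lg U t - LL la U z y) * ENNReal.ofReal (kn n z y t) ≤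
      ENNReal.ofReal (4 * 4 ^ (n + 1) * (Real.log (1 + C0 * κ / 2) + C1 * κ ^ N) * m) := by
  have hy : 0 < y := hR.1
  have hm : 1 ≤ m := hR.2.1
  have hκ0 : 0 < κ := lt_of_lt_of_le one_pos hκ1
  have hA := hH.2.2.1.2.2
  have hmeas : AEMeasurable (fun t => ENNReal.ofReal (lg U t - LL la U z y)) volume :=
    ((adm_measurable hA).aemeasurable.sub_const _).ennreal_ofReal
  have hlog0 : 0 ≤ Real.log (1 + C0 * κ / 2) := by
    apply Real.log_nonneg
    have : 0 < C0 * κ / 2 := by positivity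
    linarith
  refine (lint_dyadic n hy hmeas).trans ?_
  generalize hD : Real.log (1 + C0 * κ / 2) + C1 * κ ^ N = D
  have hD0 : 0 ≤ D := by rw [← hD]; positivity
  have h1 : ∀ k : ℕ, ENNReal.ofReal (co n y k) *
      ∫⁻ t in Icc (z - 2 ^ k * y) (z + 2 ^ k * y), ENNReal.ofReal (lg U t - LL la U z y) ≤
      ENNReal.ofReal (2 * 4 ^ (n + 1) * D * m * (1 / 2) ^ k) := by
    intro k
    have h2 := term_bound hJen hH hC0 hSh hC1 hG hκ1 hκμ hR k
    rw [hD] at h2
    have hco : 0 ≤ co n y k := by unfold co; positivity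
    calc _ ≤ ENNReal.ofReal (co n y k) *
          ENNReal.ofReal (2 * (2 ^ k * y) * (D * m * 2 ^ (k * N))) := by gcongr
      _ = ENNReal.ofReal (co n y k * (2 * (2 ^ k * y) * (D * m * 2 ^ (k * N)))) := by
          rw [ENNReal.ofReal_mul hco]
      _ ≤ _ := by
          apply ENNReal.ofReal_le_ofReal
          unfold co
          have e1 : 4 ^ (n + 1) / y * (1 / 4) ^ (k * (n + 1)) *
              (2 * (2 ^ k * y) * (D * m * 2 ^ (k * N))) =
              (2 * 4 ^ (n + 1) * D * m) * ((1 / 4) ^ (k * (n + 1)) * (2 ^ k * 2 ^ (k * N))) := by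
            field_simp
          rw [e1]
          refine mul_le_mul_of_nonneg_left ?_ (by positivity)
          have e2 : ((1 : ℝ) / 4) ^ (k * (n + 1)) = (1 / 2) ^ (2 * (k * (n + 1))) := by
            rw [pow_mul (1 / 2 : ℝ) 2]; norm_num
          rw [e2, ← pow_add]
          have e3 : 2 * (k * (n + 1)) = (k + k * N) + (k + k * (2 * n - N)) := by
            obtain ⟨d, rfl⟩ := Nat.exists_eq_add_of_le hn
            have : 2 * (N + d) - N = N + 2 * d := by omega
            rw [this]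
            ring
          rw [e3, pow_add, mul_right_comm, ← mul_pow]
          norm_num
          rw [pow_add]
          have : ((1 : ℝ) / 2) ^ (k * (2 * n - N)) ≤ 1 := pow_le_one₀ (by norm_num) (by norm_num)
          calc ((1 : ℝ) / 2) ^ k * (1 / 2) ^ (k * (2 * n - N)) ≤ (1 / 2) ^ k * 1 := by gcongr
            _ = _ := mul_one _
  refine (ENNReal.tsum_le_tsum h1).trans ?_
  rw [← ENNReal.ofReal_tsum_of_nonneg]
  · apply ENNReal.ofReal_le_ofReal
    rw [tsum_mul_left, tsum_geometric_two]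
    apply le_of_eq
    ring
  · intro k
    positivity
  · exact Summable.mul_left _ summable_geometric_two

/-- One term of the signed integral. -/
lemma int_term {U : ℝ → ℝ} (hA : Admissible (lg U)) (L z : ℝ) {y c : ℝ} (hy : 0 < y)
    (hc : 0 < c) :
    Integrable (fun t => (lg U t - L) * (y / ((t - z) ^ 2 + (c * y) ^ 2))) volume ∧
    ∫ t, (lg U t - L) * (y / ((t - z) ^ 2 + (c * y) ^ 2)) =
      Real.pi / c * (poisson (lg U) z (c * y) - L) := by
  have hY : 0 < c * y := by positivity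
  have h1 := Crit.TF.integrable_pk hA (z := z) hY
  have h2 := integrable_kernel (z := z) hY
  have e1 : ∀ t, (lg U t - L) * (y / ((t - z) ^ 2 + (c * y) ^ 2)) =
      (1 / c) * ((c * y) * lg U t / ((z - t) ^ 2 + (c * y) ^ 2)) -
        (L * y) * (1 / ((z - t) ^ 2 + (c * y) ^ 2)) := by
    intro t
    have h3 : (t - z) ^ 2 = (z - t) ^ 2 := by ring
    rw [h3]
    have h4 : (z - t) ^ 2 + (c * y) ^ 2 ≠ 0 := by positivity
    field_simp
  have h5 := h1.const_mul (1 / c)
  have h6 := h2.const_mul (L * y)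
  constructor
  · exact (h5.sub h6).congr (Eventually.of_forall fun t => (e1 t).symm)
  · rw [integral_congr_ae (Eventually.of_forall e1), integral_sub h5 h6, integral_const_mul,
      integral_const_mul, integral_kernel hY, poisson_eq_integral]
    have := Real.pi_pos
    field_simp

lemma kp_sum (n : ℕ) {β : ℕ → ℝ} (hβ : ∀ s : ℝ, 0 ≤ s →
    ∏ j ∈ Finset.range (n + 1), (1 / (s + ((j : ℝ) + 1) ^ 2)) =
      ∑ j ∈ Finset.range (n + 1), β j / (s + ((j : ℝ) + 1) ^ 2)) {z y : ℝ} (hy : 0 < y) (t : ℝ) :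
    kp n z y t = ∑ j ∈ Finset.range (n + 1),
      β j * (y / ((t - z) ^ 2 + (((j : ℝ) + 1) * y) ^ 2)) := by
  unfold kp
  rw [hβ _ (by positivity), Finset.mul_sum]
  refine Finset.sum_congr rfl fun j _ => ?_
  have h1 : ((t - z) / y) ^ 2 + ((j : ℝ) + 1) ^ 2 =
      ((t - z) ^ 2 + (((j : ℝ) + 1) * y) ^ 2) / y ^ 2 := by field_simp
  rw [h1]
  have h2 : 0 < (t - z) ^ 2 + (((j : ℝ) + 1) * y) ^ 2 := by positivity
  field_simp

/-- The signed integral. -/
lemma signed {U : ℝ → ℝ} (hA : Admissible (lg U)) (L z : ℝ) {y : ℝ} (hy : 0 < y) (n : ℕ)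
    {β : ℕ → ℝ} (hβ : ∀ s : ℝ, 0 ≤ s →
    ∏ j ∈ Finset.range (n + 1), (1 / (s + ((j : ℝ) + 1) ^ 2)) =
      ∑ j ∈ Finset.range (n + 1), β j / (s + ((j : ℝ) + 1) ^ 2)) :
    Integrable (fun t => (lg U t - L) * kp n z y t) volume ∧
    ∫ t, (lg U t - L) * kp n z y t = ∑ j ∈ Finset.range (n + 1),
      β j * (Real.pi / ((j : ℝ) + 1) * (poisson (lg U) z (((j : ℝ) + 1) * y) - L)) := by
  have e : ∀ t, (lg U t - L) * kp n z y t = ∑ j ∈ Finset.range (n + 1),
      β j * ((lg U t - L) * (y / ((t - z) ^ 2 + (((j : ℝ) + 1) * y) ^ 2))) := by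
    intro t
    rw [kp_sum n hβ hy, Finset.mul_sum]
    exact Finset.sum_congr rfl fun j _ => by ring
  have hi : ∀ j ∈ Finset.range (n + 1), Integrable (fun t =>
      β j * ((lg U t - L) * (y / ((t - z) ^ 2 + (((j : ℝ) + 1) * y) ^ 2)))) volume :=
    fun j _ => (int_term hA L z hy (c := (j : ℝ) + 1) (by positivity)).1.const_mul _
  constructor
  · exact (integrable_finsetSum _ hi).congr (Eventually.of_forall fun t => (e t).symm)
  · rw [integral_congr_ae (Eventually.of_forall e), integral_finsetSum _ hi]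
    refine Finset.sum_congr rfl fun j _ => ?_
    rw [integral_const_mul, (int_term hA L z hy (c := (j : ℝ) + 1) (by positivity)).2]

lemma signed_bound {la μ : ℝ} {U : ℝ → ℝ} (hH : Hyp la μ U) {C1 : ℝ} {N : ℕ} (hC1 : 1 ≤ C1)
    (hG : ∀ z y m z' y' : ℝ, Rt la U z y m → y ≤ y' → |z' - z| ≤ μ / 2 * (y' - y) →
      |poisson (lg U) z' y' - LL la U z y| ≤ C1 * m * (y' / y) ^ N)
    (n : ℕ) {CK : ℝ} {β : ℕ → ℝ} (hβ1 : ∀ j, |β j| ≤ CK) (hβ : ∀ s : ℝ, 0 ≤ s →
    ∏ j ∈ Finset.range (n + 1), (1 / (s + ((j : ℝ) + 1) ^ 2)) =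
      ∑ j ∈ Finset.range (n + 1), β j / (s + ((j : ℝ) + 1) ^ 2))
    {z y m : ℝ} (hR : Rt la U z y m) :
    |∫ t, (lg U t - LL la U z y) * kp n z y t| ≤
      ((n : ℝ) + 1) * (CK * (Real.pi * (C1 * ((n : ℝ) + 1) ^ N))) * m := by
  have hμ : 0 < μ := hH.1.trans hH.2.1
  have hy : 0 < y := hR.1
  have hm : 1 ≤ m := hR.2.1
  have hCK : 0 ≤ CK := le_trans (abs_nonneg _) (hβ1 0)
  have hpi := Real.pi_pos
  rw [(signed hH.2.2.1.2.2 (LL la U z y) z hy n hβ).2]
  refine (Finset.abs_sum_le_sum_abs _ _).trans ?_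
  have h1 : ∀ j ∈ Finset.range (n + 1),
      |β j * (Real.pi / ((j : ℝ) + 1) * (poisson (lg U) z (((j : ℝ) + 1) * y) - LL la U z y))| ≤
        CK * (Real.pi * (C1 * m * ((n : ℝ) + 1) ^ N)) := by
    intro j hj
    have hj1 : (j : ℝ) ≤ n := by
      have := Finset.mem_range.1 hj
      exact_mod_cast Nat.lt_succ_iff.1 this
    have hj0 : (0 : ℝ) ≤ j := j.cast_nonneg
    rw [abs_mul, abs_mul, abs_of_pos (by positivity : 0 < Real.pi / ((j : ℝ) + 1))]
    have h2 := hG z y m z (((j : ℝ) + 1) * y) hR (by nlinarith) (by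
      rw [sub_self, abs_zero]
      refine mul_nonneg (by positivity) ?_
      nlinarith)
    rw [mul_div_cancel_right₀ _ hy.ne'] at h2
    have h3 : C1 * m * ((j : ℝ) + 1) ^ N ≤ C1 * m * ((n : ℝ) + 1) ^ N := by gcongr
    have h4 : Real.pi / ((j : ℝ) + 1) ≤ Real.pi := div_le_self hpi.le (by linarith)
    exact mul_le_mul (hβ1 j) (mul_le_mul h4 (h2.trans h3) (abs_nonneg _) hpi.le)
      (by positivity) hCK
  have h5 := Finset.sum_le_card_nsmul _ _ _ h1
  rw [Finset.card_range, nsmul_eq_mul] at h5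
  refine h5.trans (le_of_eq ?_)
  push_cast
  ring

end LS

theorem stLS (hBas : StBas) (hJen : StJen) (hGr : StGr) (hKI : StKI) : StLS := by
  intro la μ U hH
  obtain ⟨C1, N, hC1, hG⟩ := hGr la μ U hH
  obtain ⟨C0, hC0, hSh⟩ := hH.2.2.2
  refine ⟨N, fun n hn => ?_⟩
  obtain ⟨CK, hCK, ⟨β, hβ1, hβ⟩, -⟩ := hKI n 1 le_rfl
  have hμ : 0 < μ := hH.1.trans hH.2.1
  obtain ⟨κ, hκ1, hκμ⟩ : ∃ κ : ℝ, 1 ≤ κ ∧ 1 ≤ μ * κ := by
    refine ⟨max 1 (1 / μ), le_max_left _ _, ?_⟩
    have h : 1 / μ ≤ max 1 (1 / μ) := le_max_right _ _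
    rw [div_le_iff₀ hμ] at h
    linarith
  have hP := fun (z y m : ℝ) (hR : Rt la U z y m) =>
    LS.pos_bound hJen hH hC0 hSh hC1 hG hκ1 hκμ hn hR
  have hS := fun (z y m : ℝ) (hR : Rt la U z y m) =>
    LS.signed_bound hH hC1 hG n hβ1 hβ hR
  have hA10 : 0 ≤ 4 * 4 ^ (n + 1) * (Real.log (1 + C0 * κ / 2) + C1 * κ ^ N) := by
    have h : 0 ≤ Real.log (1 + C0 * κ / 2) := by
      apply Real.log_nonneg
      have : 0 < C0 * κ / 2 := by positivity
      linarith
    positivity
  generalize 4 * 4 ^ (n + 1) * (Real.log (1 + C0 * κ / 2) + C1 * κ ^ N) = A1 at hP hA10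
  generalize ((n : ℝ) + 1) * (CK * (Real.pi * (C1 * ((n : ℝ) + 1) ^ N))) = A2 at hS
  refine ⟨max 1 (((n : ℝ) + 1) ^ (2 * (n + 1)) * (2 * A1 + A2)), le_max_left _ _,
    fun z y m hR => ?_⟩
  have hy : 0 < y := hR.1
  have hm : 1 ≤ m := hR.2.1
  have hA := hH.2.2.1.2.2
  have hP1 := hP z y m hR
  have hS1 := hS z y m hR
  have hi := (LS.signed hA (LL la U z y) z hy n hβ).1
  generalize LL la U z y = L at hP1 hS1 hi ⊢
  have hi2 : Integrable (fun t => |lg U t - L| * LS.kp n z y t) volume := by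
    refine hi.abs.congr (Eventually.of_forall fun t => ?_)
    show |(lg U t - L) * LS.kp n z y t| = |lg U t - L| * LS.kp n z y t
    rw [abs_mul, abs_of_nonneg (LS.kp_nonneg n hy t)]
  have e3 : ∀ t, max (lg U t - L) 0 * LS.kp n z y t =
      (1 / 2) * (|lg U t - L| * LS.kp n z y t + (lg U t - L) * LS.kp n z y t) := by
    intro t
    rcases le_total 0 (lg U t - L) with h | h
    · rw [max_eq_left h, abs_of_nonneg h]; ring
    · rw [max_eq_right h, abs_of_nonpos h]; ring
  have hi3 : Integrable (fun t => max (lg U t - L) 0 * LS.kp n z y t) volume :=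
    ((hi2.add hi).const_mul (1 / 2)).congr (Eventually.of_forall fun t => (e3 t).symm)
  have h3 : ∫ t, max (lg U t - L) 0 * LS.kp n z y t ≤ A1 * m := by
    have h4 : ENNReal.ofReal (∫ t, max (lg U t - L) 0 * LS.kp n z y t) ≤
        ENNReal.ofReal (A1 * m) := by
      rw [ofReal_integral_eq_lintegral_ofReal hi3 (Eventually.of_forall fun t =>
        mul_nonneg (le_max_right _ _) (LS.kp_nonneg n hy t))]
      refine le_trans (lintegral_mono fun t => ?_) hP1
      rw [ENNReal.ofReal_mul (le_max_right _ _)]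
      have h5 : ENNReal.ofReal (max (lg U t - L) 0) = ENNReal.ofReal (lg U t - L) := by
        rcases le_total 0 (lg U t - L) with h | h
        · rw [max_eq_left h]
        · rw [max_eq_right h, ENNReal.ofReal_zero, ENNReal.ofReal_of_nonpos h]
      rw [h5]
      exact mul_le_mul_right (ENNReal.ofReal_le_ofReal (LS.kp_le_kn n hy t)) _
    exact (ENNReal.ofReal_le_ofReal_iff (by positivity)).1 h4
  have h6 : ∫ t, |lg U t - L| * LS.kp n z y t ≤ (2 * A1 + A2) * m := by
    have h7 : ∫ t, max (lg U t - L) 0 * LS.kp n z y t =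
        (1 / 2) * ((∫ t, |lg U t - L| * LS.kp n z y t) +
          ∫ t, (lg U t - L) * LS.kp n z y t) := by
      rw [integral_congr_ae (Eventually.of_forall e3), integral_const_mul, integral_add hi2 hi]
    have h8 := (abs_le.1 hS1).1
    linarith
  calc ∫⁻ t, ENNReal.ofReal (|lg U t - L| *
        (y ^ (2 * n + 1) / ((t - z) ^ 2 + y ^ 2) ^ (n + 1)))
      ≤ ∫⁻ t, ENNReal.ofReal (((n : ℝ) + 1) ^ (2 * (n + 1)) *
          (|lg U t - L| * LS.kp n z y t)) := by
        refine lintegral_mono fun t => ENNReal.ofReal_le_ofReal ?_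
        calc |lg U t - L| * (y ^ (2 * n + 1) / ((t - z) ^ 2 + y ^ 2) ^ (n + 1))
            ≤ |lg U t - L| * (((n : ℝ) + 1) ^ (2 * (n + 1)) * LS.kp n z y t) :=
              mul_le_mul_of_nonneg_left (LS.kn_le_kp n hy t) (abs_nonneg _)
          _ = _ := by ring
    _ = ENNReal.ofReal (∫ t, ((n : ℝ) + 1) ^ (2 * (n + 1)) *
          (|lg U t - L| * LS.kp n z y t)) := by
        rw [ofReal_integral_eq_lintegral_ofReal (hi2.const_mul _) (Eventually.of_forall fun t =>
          mul_nonneg (by positivity) (mul_nonneg (abs_nonneg _) (LS.kp_nonneg n hy t)))]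
    _ ≤ _ := by
        apply ENNReal.ofReal_le_ofReal
        rw [integral_const_mul]
        calc ((n : ℝ) + 1) ^ (2 * (n + 1)) * ∫ t, |lg U t - L| * LS.kp n z y t
            ≤ ((n : ℝ) + 1) ^ (2 * (n + 1)) * ((2 * A1 + A2) * m) := by gcongr
          _ = (((n : ℝ) + 1) ^ (2 * (n + 1)) * (2 * A1 + A2)) * m := by ring
          _ ≤ _ := by
            gcongr
            exact le_max_right _ _

end Pool.Agent.Work.MP_055a27_an.Cr3

end

section

/-!
# Reverse Hölder inequality with the exponential of the Poisson integral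
-/

open MeasureTheory Set Filter Topology
open scoped ENNReal NNReal

namespace Pool.Agent.Work.MP_055a27_an.Cr3

open Crit (lg)

namespace RH

lemma wm_all {U : ℝ → ℝ} (S : Set ℝ) : wm U S = ∫⁻ x in S, ENNReal.ofReal (U x) :=
  withDensity_apply' _ S

/-- The pointwise inequality for the truncations. -/
lemma ptw {u T γ ε : ℝ} (hu : 0 ≤ u) (hT : 0 < T) (hγ : 0 < γ) (hγ1 : γ ≤ 1) (hε : 0 < ε)
    (hε1 : ε ≤ 1) :
    (min (u / γ) T) ^ (1 + ε) ≤ (γ ^ 2)⁻¹ * ((min u T) ^ ε * u) := by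
  have h1 : min (u / γ) T ≤ min u T / γ := by
    rw [le_div_iff₀ hγ]
    apply le_min
    · calc min (u / γ) T * γ ≤ u / γ * γ := mul_le_mul_of_nonneg_right (min_le_left _ _) hγ.le
        _ = u := div_mul_cancel₀ _ hγ.ne'
    · calc min (u / γ) T * γ ≤ T * γ := mul_le_mul_of_nonneg_right (min_le_right _ _) hγ.le
        _ ≤ T * 1 := mul_le_mul_of_nonneg_left hγ1 hT.le
        _ = T := mul_one _
  have h0 : 0 ≤ min (u / γ) T := le_min (div_nonneg hu hγ.le) hT.le
  have hm0 : 0 ≤ min u T := le_min hu hT.le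
  have h2 : (min (u / γ) T) ^ (1 + ε) = (min (u / γ) T) * (min (u / γ) T) ^ ε := by
    rw [Real.rpow_add_of_nonneg h0 zero_le_one hε.le, Real.rpow_one]
  rw [h2]
  have h3 : (min (u / γ) T) ^ ε ≤ (min u T) ^ ε * γ⁻¹ := by
    calc (min (u / γ) T) ^ ε ≤ (min u T / γ) ^ ε := Real.rpow_le_rpow h0 h1 hε.le
      _ = (min u T) ^ ε * (γ⁻¹) ^ ε := by
        rw [div_eq_mul_inv, Real.mul_rpow hm0 (inv_nonneg.2 hγ.le)]
      _ ≤ (min u T) ^ ε * γ⁻¹ := by
        apply mul_le_mul_of_nonneg_left _ (Real.rpow_nonneg hm0 _)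
        calc (γ⁻¹) ^ ε ≤ (γ⁻¹) ^ (1 : ℝ) :=
              Real.rpow_le_rpow_of_exponent_le ((one_le_inv₀ hγ).2 hγ1) hε1
          _ = γ⁻¹ := Real.rpow_one _
  calc min (u / γ) T * (min (u / γ) T) ^ ε
      ≤ (u / γ) * ((min u T) ^ ε * γ⁻¹) :=
        mul_le_mul (min_le_left _ _) h3 (Real.rpow_nonneg h0 _) (div_nonneg hu hγ.le)
    _ = (γ ^ 2)⁻¹ * ((min u T) ^ ε * u) := by
        field_simp

/-- The truncated inequality. -/
lemma trunc {U : ℝ → ℝ} (hU : IsWeight U) {I : Set ℝ} (hI : MeasurableSet I)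
    (hfin : wm U I ≠ ∞) {Λ0 C1 γ ε T : ℝ} (hΛ0 : 0 < Λ0) (hC1 : 1 ≤ C1) (hγ : 0 < γ)
    (hγ1 : γ ≤ 1) (hε : 0 < ε) (hε1 : ε ≤ 1) (hεs : ε * C1 * (γ ^ 2)⁻¹ ≤ 1 / 2) (hT : 0 < T)
    (hCZ : ∀ Λ : ℝ, Λ0 ≤ Λ → ∫⁻ x in I ∩ {x | Λ < U x}, ENNReal.ofReal (U x) ≤
        ENNReal.ofReal (C1 * Λ) * volume (I ∩ {x | γ * Λ ≤ U x})) :
    ∫⁻ x in I, ENNReal.ofReal ((min (U x) T) ^ ε) ∂(wm U) ≤
      2 * (ENNReal.ofReal (Λ0 ^ ε) * wm U I) := by
  set X : ℝ≥0∞ := ∫⁻ x in I, ENNReal.ofReal ((min (U x) T) ^ ε) ∂(wm U) with hX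
  have hmU : AEMeasurable U volume := weight_aemeas hU
  have hf0 : ∀ x, 0 ≤ min (U x) T := fun x => le_min (hU.1 x) hT.le
  have hg0 : ∀ x, 0 ≤ min (U x / γ) T := fun x => le_min (div_nonneg (hU.1 x) hγ.le) hT.le
  have hfm : AEMeasurable (fun x => min (U x) T) ((wm U).restrict I) :=
    ((hmU.mono_ac wm_ac).restrict).min aemeasurable_const
  have hgm : AEMeasurable (fun x => min (U x / γ) T) (volume.restrict I) :=
    (hmU.restrict.div_const γ).min aemeasurable_const
  -- layer cakes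
  have hL1 := lintegral_rpow_eq_lintegral_meas_lt_mul ((wm U).restrict I)
    (f := fun x => min (U x) T) (Eventually.of_forall hf0) hfm hε
  have hL2 := lintegral_rpow_eq_lintegral_meas_lt_mul ((wm U).restrict I)
    (f := fun _ => Λ0) (Eventually.of_forall fun _ => hΛ0.le) aemeasurable_const hε
  have hL3 := lintegral_rpow_eq_lintegral_meas_le_mul (volume.restrict I)
    (f := fun x => min (U x / γ) T) (Eventually.of_forall hg0) hgm
    (show (0 : ℝ) < 1 + ε by linarith)
  -- the pointwise comparison of the distribution functions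
  have hcmp : ∀ t ∈ Ioi (0 : ℝ),
      ((wm U).restrict I) {x | t < min (U x) T} * ENNReal.ofReal (t ^ (ε - 1)) ≤
      ((wm U).restrict I) {_x | t < Λ0} * ENNReal.ofReal (t ^ (ε - 1)) +
      ENNReal.ofReal C1 * ((volume.restrict I) {x | t ≤ min (U x / γ) T} *
        ENNReal.ofReal (t ^ ((1 + ε) - 1))) := by
    intro t ht
    have ht0 : 0 < t := ht
    rcases lt_or_ge t Λ0 with h | h
    · refine le_trans ?_ le_self_add
      exact mul_le_mul' (measure_mono fun x _ => h) le_rfl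
    · refine le_trans ?_ le_add_self
      rcases lt_or_ge t T with h' | h'
      · have e1 : ((wm U).restrict I) {x | t < min (U x) T} ≤
            ENNReal.ofReal (C1 * t) * (volume.restrict I) {x | t ≤ min (U x / γ) T} := by
          rw [Measure.restrict_apply' hI, Measure.restrict_apply' hI, wm_all]
          have e2 : {x | t < min (U x) T} ∩ I = I ∩ {x | t < U x} := by
            ext x
            simp only [mem_inter_iff, mem_ofPred_eq, lt_min_iff]
            tauto
          have e3 : {x | t ≤ min (U x / γ) T} ∩ I = I ∩ {x | γ * t ≤ U x} := by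
            ext x
            simp only [mem_inter_iff, mem_ofPred_eq, le_min_iff, le_div_iff₀ hγ]
            constructor
            · rintro ⟨⟨h1, _⟩, h2⟩
              exact ⟨h2, by rwa [mul_comm]⟩
            · rintro ⟨h2, h1⟩
              exact ⟨⟨by rwa [mul_comm], h'.le⟩, h2⟩
          rw [e2, e3]
          exact hCZ t h
        calc ((wm U).restrict I) {x | t < min (U x) T} * ENNReal.ofReal (t ^ (ε - 1))
            ≤ ENNReal.ofReal (C1 * t) * (volume.restrict I) {x | t ≤ min (U x / γ) T} *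
              ENNReal.ofReal (t ^ (ε - 1)) := by gcongr
          _ = ENNReal.ofReal C1 * ((volume.restrict I) {x | t ≤ min (U x / γ) T} *
              (ENNReal.ofReal t * ENNReal.ofReal (t ^ (ε - 1)))) := by
              rw [ENNReal.ofReal_mul (by linarith)]
              ring
          _ = _ := by
              rw [← ENNReal.ofReal_mul ht0.le]
              congr 4
              rw [show (1 + ε) - 1 = 1 + (ε - 1) by ring, Real.rpow_add ht0, Real.rpow_one]
      · have e1 : {x | t < min (U x) T} = ∅ := by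
          ext x
          simp only [mem_ofPred_eq, lt_min_iff, mem_empty_iff_false, iff_false, not_and, not_lt]
          exact fun _ => h'
        rw [e1]
        simp
  have hint : ∫⁻ t in Ioi (0 : ℝ), ((wm U).restrict I) {x | t < min (U x) T} *
      ENNReal.ofReal (t ^ (ε - 1)) ≤
      (∫⁻ t in Ioi (0 : ℝ), ((wm U).restrict I) {_x | t < Λ0} * ENNReal.ofReal (t ^ (ε - 1))) +
      ENNReal.ofReal C1 * ∫⁻ t in Ioi (0 : ℝ), (volume.restrict I) {x | t ≤ min (U x / γ) T} *
        ENNReal.ofReal (t ^ ((1 + ε) - 1)) := by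
    have hm1 : Measurable (fun t : ℝ => ((wm U).restrict I) {_x | t < Λ0} *
        ENNReal.ofReal (t ^ (ε - 1))) := by
      apply Measurable.mul
      · apply Antitone.measurable
        intro s t hst
        apply measure_mono
        intro x hx
        exact lt_of_le_of_lt hst hx
      · fun_prop
    rw [← lintegral_const_mul' _ _ ENNReal.ofReal_ne_top, ← lintegral_add_left hm1]
    exact setLIntegral_mono' measurableSet_Ioi hcmp
  have hA : X ≤ ENNReal.ofReal (Λ0 ^ ε) * wm U I +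
      ENNReal.ofReal (ε * C1) * ∫⁻ x in I, ENNReal.ofReal ((min (U x / γ) T) ^ (1 + ε)) := by
    have h1 : ∫⁻ t in Ioi (0 : ℝ), (volume.restrict I) {x | t ≤ min (U x / γ) T} *
        ENNReal.ofReal (t ^ ((1 + ε) - 1)) ≤
        ∫⁻ x in I, ENNReal.ofReal ((min (U x / γ) T) ^ (1 + ε)) := by
      rw [hL3]
      have : (1 : ℝ≥0∞) ≤ ENNReal.ofReal (1 + ε) := by
        rw [← ENNReal.ofReal_one]
        exact ENNReal.ofReal_le_ofReal (by linarith)
      calc _ = 1 * ∫⁻ t in Ioi (0 : ℝ), (volume.restrict I) {x | t ≤ min (U x / γ) T} *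
          ENNReal.ofReal (t ^ ((1 + ε) - 1)) := (one_mul _).symm
        _ ≤ _ := by gcongr
    have h2 : ENNReal.ofReal (Λ0 ^ ε) * wm U I = ENNReal.ofReal ε *
        ∫⁻ t in Ioi (0 : ℝ), ((wm U).restrict I) {_x | t < Λ0} *
          ENNReal.ofReal (t ^ (ε - 1)) := by
      rw [← hL2, lintegral_const, Measure.restrict_apply_univ]
    calc X = ENNReal.ofReal ε * ∫⁻ t in Ioi (0 : ℝ), ((wm U).restrict I) {x | t < min (U x) T} *
          ENNReal.ofReal (t ^ (ε - 1)) := hL1
      _ ≤ ENNReal.ofReal ε * ((∫⁻ t in Ioi (0 : ℝ), ((wm U).restrict I) {_x | t < Λ0} *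
          ENNReal.ofReal (t ^ (ε - 1))) +
          ENNReal.ofReal C1 * ∫⁻ t in Ioi (0 : ℝ), (volume.restrict I)
            {x | t ≤ min (U x / γ) T} * ENNReal.ofReal (t ^ ((1 + ε) - 1))) := by gcongr
      _ ≤ ENNReal.ofReal ε * ((∫⁻ t in Ioi (0 : ℝ), ((wm U).restrict I) {_x | t < Λ0} *
          ENNReal.ofReal (t ^ (ε - 1))) +
          ENNReal.ofReal C1 * ∫⁻ x in I, ENNReal.ofReal ((min (U x / γ) T) ^ (1 + ε))) := by
          gcongr
      _ = _ := by
          rw [h2, ENNReal.ofReal_mul hε.le]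
          ring
  have hB : ∫⁻ x in I, ENNReal.ofReal ((min (U x / γ) T) ^ (1 + ε)) ≤
      ENNReal.ofReal ((γ ^ 2)⁻¹) * X := by
    rw [hX, ← lintegral_mul_weight hU hI, ← lintegral_const_mul' _ _ ENNReal.ofReal_ne_top]
    apply lintegral_mono
    intro x
    dsimp only
    rw [← ENNReal.ofReal_mul (Real.rpow_nonneg (hf0 x) _),
      ← ENNReal.ofReal_mul (by positivity)]
    exact ENNReal.ofReal_le_ofReal (ptw (hU.1 x) hT hγ hγ1 hε hε1)
  have hXfin : X ≠ ∞ := by
    have : X ≤ ENNReal.ofReal (T ^ ε) * wm U I := by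
      rw [hX]
      calc ∫⁻ x in I, ENNReal.ofReal ((min (U x) T) ^ ε) ∂(wm U)
          ≤ ∫⁻ x in I, ENNReal.ofReal (T ^ ε) ∂(wm U) := by
            apply lintegral_mono
            intro x
            exact ENNReal.ofReal_le_ofReal
              (Real.rpow_le_rpow (hf0 x) (min_le_right _ _) hε.le)
        _ = ENNReal.ofReal (T ^ ε) * wm U I := by
            rw [lintegral_const, Measure.restrict_apply_univ]
    exact (lt_of_le_of_lt this (ENNReal.mul_lt_top ENNReal.ofReal_lt_top hfin.lt_top)).ne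
  have hC : X ≤ ENNReal.ofReal (Λ0 ^ ε) * wm U I + 2⁻¹ * X := by
    calc X ≤ _ := hA
      _ ≤ ENNReal.ofReal (Λ0 ^ ε) * wm U I +
          ENNReal.ofReal (ε * C1) * (ENNReal.ofReal ((γ ^ 2)⁻¹) * X) := by gcongr
      _ = ENNReal.ofReal (Λ0 ^ ε) * wm U I +
          ENNReal.ofReal (ε * C1 * (γ ^ 2)⁻¹) * X := by
          rw [ENNReal.ofReal_mul (p := ε * C1) (by positivity), mul_assoc]
      _ ≤ ENNReal.ofReal (Λ0 ^ ε) * wm U I + 2⁻¹ * X := by
          gcongr
          rw [show (2⁻¹ : ℝ≥0∞) = ENNReal.ofReal (1 / 2) by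
            rw [one_div, ENNReal.ofReal_inv_of_pos (by norm_num)]; simp]
          exact ENNReal.ofReal_le_ofReal hεs
  have hhalf : 2⁻¹ * X + 2⁻¹ * X = X := by
    rw [← add_mul, ENNReal.inv_two_add_inv_two, one_mul]
  have hhf : 2⁻¹ * X ≠ ∞ := ENNReal.mul_ne_top (by simp) hXfin
  have hD : 2⁻¹ * X ≤ ENNReal.ofReal (Λ0 ^ ε) * wm U I := by
    have : 2⁻¹ * X + 2⁻¹ * X ≤ ENNReal.ofReal (Λ0 ^ ε) * wm U I + 2⁻¹ * X := by
      rw [hhalf]; exact hC
    exact (ENNReal.add_le_add_iff_right hhf).1 this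
  calc X = 2 * (2⁻¹ * X) := by
        rw [← mul_assoc, ENNReal.mul_inv_cancel (by simp) (by simp), one_mul]
    _ ≤ _ := by gcongr

/-- The inequality without truncation. -/
lemma full {U : ℝ → ℝ} (hU : IsWeight U) {I : Set ℝ} (hI : MeasurableSet I)
    (hfin : wm U I ≠ ∞) {Λ0 C1 γ ε : ℝ} (hΛ0 : 0 < Λ0) (hC1 : 1 ≤ C1) (hγ : 0 < γ)
    (hγ1 : γ ≤ 1) (hε : 0 < ε) (hε1 : ε ≤ 1) (hεs : ε * C1 * (γ ^ 2)⁻¹ ≤ 1 / 2)
    (hCZ : ∀ Λ : ℝ, Λ0 ≤ Λ → ∫⁻ x in I ∩ {x | Λ < U x}, ENNReal.ofReal (U x) ≤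
        ENNReal.ofReal (C1 * Λ) * volume (I ∩ {x | γ * Λ ≤ U x})) :
    ∫⁻ x in I, ENNReal.ofReal ((U x) ^ ε) ∂(wm U) ≤
      2 * (ENNReal.ofReal (Λ0 ^ ε) * wm U I) := by
  have hmU : AEMeasurable U volume := weight_aemeas hU
  have key : ∀ n : ℕ, ∫⁻ x in I, ENNReal.ofReal ((min (U x) ((n : ℝ) + 1)) ^ ε) ∂(wm U) ≤
      2 * (ENNReal.ofReal (Λ0 ^ ε) * wm U I) := fun n =>
    trunc hU hI hfin hΛ0 hC1 hγ hγ1 hε hε1 hεs (by positivity) hCZ
  have hsup : ∀ x, ENNReal.ofReal ((U x) ^ ε) =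
      ⨆ n : ℕ, ENNReal.ofReal ((min (U x) ((n : ℝ) + 1)) ^ ε) := by
    intro x
    apply le_antisymm
    · obtain ⟨n, hn⟩ := exists_nat_ge (U x)
      refine le_trans (le_of_eq ?_) (le_iSup _ n)
      rw [min_eq_left (by linarith)]
    · apply iSup_le
      intro n
      exact ENNReal.ofReal_le_ofReal (Real.rpow_le_rpow (le_min (hU.1 x) (by positivity))
        (min_le_left _ _) hε.le)
  simp only [hsup]
  rw [lintegral_iSup']
  · exact iSup_le key
  · intro n
    have : AEMeasurable (fun x => min (U x) ((n : ℝ) + 1)) ((wm U).restrict I) :=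
      ((hmU.mono_ac wm_ac).restrict).min aemeasurable_const
    exact (this.pow_const ε).ennreal_ofReal
  · refine Eventually.of_forall fun x => ?_
    intro n m hnm
    apply ENNReal.ofReal_le_ofReal
    apply Real.rpow_le_rpow (le_min (hU.1 x) (by positivity)) _ hε.le
    apply min_le_min le_rfl
    have : (n : ℝ) ≤ m := by exact_mod_cast hnm
    linarith

end RH

open RH in
/-- Reverse Hölder inequality. -/
theorem stRH (hCZ : StCZ) : StRH := by
  intro lam μ U hH
  obtain ⟨hlam, hlamμ, hW, hS⟩ := hH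
  have hU : IsWeight U := hW.1
  set la : ℝ := (lam + μ) / 2 with hla
  have h1 : lam < la := by rw [hla]; linarith
  have h2 : la < μ := by rw [hla]; linarith
  have hHla : Hyp la μ U := ⟨by linarith, h2, hW, hS⟩
  obtain ⟨C0, C1, γ, hC0, hC1, hγ, hγ1, hmain⟩ := hCZ lam la μ U hlam h1 hHla
  obtain ⟨CS, hCS, hSh⟩ := hS
  set ε : ℝ := min 1 (γ ^ 2 / (2 * C1)) with hε
  have hε0 : 0 < ε := lt_min one_pos (by positivity)
  have hε1 : ε ≤ 1 := min_le_left _ _
  have hεs : ε * C1 * (γ ^ 2)⁻¹ ≤ 1 / 2 := by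
    have : ε ≤ γ ^ 2 / (2 * C1) := min_le_right _ _
    calc ε * C1 * (γ ^ 2)⁻¹ ≤ γ ^ 2 / (2 * C1) * C1 * (γ ^ 2)⁻¹ := by gcongr
      _ = 1 / 2 := by
        have : C1 ≠ 0 := by positivity
        field_simp
  refine ⟨ε, max 1 (2 * C0 ^ ε * CS), hε0, le_max_left _ _, ?_⟩
  intro z y hy
  obtain ⟨a', c', ha1, ha2, hc1, hc2, hz⟩ := hmain z y hy
  set h := poisson (lg U) z y with hh
  have hsub : Ioo a' c' ⊆ Icc (z - μ * y) (z + μ * y) := by
    intro x hx
    have : la * y ≤ μ * y := mul_le_mul_of_nonneg_right h2.le hy.le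
    exact ⟨by linarith [hx.1], by linarith [hx.2]⟩
  have hwI : wm U (Ioo a' c') ≤ ENNReal.ofReal (CS * (y * Real.exp h)) := by
    have hf := (wm_Icc_lt_top hU (z - μ * y) (z + μ * y)).ne
    calc wm U (Ioo a' c') ≤ wm U (Icc (z - μ * y) (z + μ * y)) := measure_mono hsub
      _ = ENNReal.ofReal ((wm U (Icc (z - μ * y) (z + μ * y))).toReal) :=
        (ENNReal.ofReal_toReal hf).symm
      _ ≤ _ := by
        rw [← setIntegral_eq_wm hU measurableSet_Icc]
        exact ENNReal.ofReal_le_ofReal (hSh z y hy)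
  have hfin : wm U (Ioo a' c') ≠ ∞ := (lt_of_le_of_lt hwI ENNReal.ofReal_lt_top).ne
  have hfull := full hU measurableSet_Ioo hfin (Λ0 := C0 * Real.exp h) (by positivity) hC1 hγ
    hγ1 hε0 hε1 hεs hz
  have hsub2 : Icc (z - lam * y) (z + lam * y) ⊆ Icc a' c' := Icc_subset_Icc ha2 hc1
  calc ∫⁻ t in Icc (z - lam * y) (z + lam * y), (ENNReal.ofReal (U t)) ^ (1 + ε)
      ≤ ∫⁻ t in Icc a' c', (ENNReal.ofReal (U t)) ^ (1 + ε) := lintegral_mono_set hsub2
    _ = ∫⁻ t in Ioo a' c', (ENNReal.ofReal (U t)) ^ (1 + ε) :=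
      setLIntegral_congr Ioo_ae_eq_Icc.symm
    _ = ∫⁻ t in Ioo a' c', ENNReal.ofReal ((U t) ^ ε) * ENNReal.ofReal (U t) := by
      apply lintegral_congr
      intro t
      rw [ENNReal.ofReal_rpow_of_nonneg (hU.1 t) (by linarith),
        ← ENNReal.ofReal_mul (Real.rpow_nonneg (hU.1 t) _),
        Real.rpow_add_of_nonneg (hU.1 t) zero_le_one hε0.le, Real.rpow_one, mul_comm]
    _ = ∫⁻ t in Ioo a' c', ENNReal.ofReal ((U t) ^ ε) ∂(wm U) :=
      lintegral_mul_weight hU measurableSet_Ioo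
    _ ≤ 2 * (ENNReal.ofReal ((C0 * Real.exp h) ^ ε) * wm U (Ioo a' c')) := hfull
    _ ≤ 2 * (ENNReal.ofReal ((C0 * Real.exp h) ^ ε) *
        ENNReal.ofReal (CS * (y * Real.exp h))) := by gcongr
    _ = ENNReal.ofReal (2 * C0 ^ ε * CS * y * Real.exp ((1 + ε) * h)) := by
      rw [show (2 : ℝ≥0∞) = ENNReal.ofReal 2 by simp, ← ENNReal.ofReal_mul (by positivity),
        ← ENNReal.ofReal_mul (by norm_num)]
      congr 1
      rw [Real.mul_rpow (by linarith) (Real.exp_pos h).le, ← Real.exp_mul, one_add_mul,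
        Real.exp_add, mul_comm h ε]
      ring
    _ ≤ _ := by
      apply ENNReal.ofReal_le_ofReal
      gcongr
      exact le_max_right _ _

end Pool.Agent.Work.MP_055a27_an.Cr3

end

section

/-!
# The high points of a sawtooth region
-/

open MeasureTheory Set Filter Topology Complex Metric
open scoped ENNReal NNReal

namespace Pool.Agent.Work.MP_055a27_an.Cr3

open Crit (lg cc CC Pk hU)
open Nv (mx)

namespace Saw1

lemma gsq_sub (F : ℂ → ℂ) (L : ℂ) (q : ℝ × ℝ) : gsq (fun w => F w - L) q = gsq F q := by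
  unfold gsq
  rw [deriv_sub_const_fun]

lemma lint_top {m y0 s : ℝ} (hm : 1 ≤ m) (hy0 : 0 < y0) (hsy : s ≤ 2 * y0) :
    ∫⁻ t in Ioc (y0 / m) s, ENNReal.ofReal (1 / t) ≤ ENNReal.ofReal (2 * m ^ 2) := by
  have hm0 : 0 < m := by linarith
  have h0 : 0 < y0 / m := by positivity
  calc ∫⁻ t in Ioc (y0 / m) s, ENNReal.ofReal (1 / t)
      ≤ ∫⁻ t in Ioc (y0 / m) s, ENNReal.ofReal (m / y0) := by
        apply setLIntegral_mono measurable_const
        intro t ht
        apply ENNReal.ofReal_le_ofReal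
        rw [div_le_div_iff₀ (h0.trans ht.1) hy0, one_mul]
        have := ht.1.le
        rw [div_le_iff₀ hm0] at this
        linarith
    _ = ENNReal.ofReal (m / y0) * volume (Ioc (y0 / m) s) := by
        rw [setLIntegral_const]
    _ ≤ ENNReal.ofReal (m / y0) * ENNReal.ofReal s := by
        gcongr
        rw [Real.volume_Ioc]
        apply ENNReal.ofReal_le_ofReal
        linarith
    _ = ENNReal.ofReal (m / y0 * s) := by
        rw [ENNReal.ofReal_mul (by positivity)]
    _ ≤ ENNReal.ofReal (2 * m ^ 2) := by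
        apply ENNReal.ofReal_le_ofReal
        rw [div_mul_eq_mul_div, div_le_iff₀ hy0]
        nlinarith [mul_le_mul_of_nonneg_left hsy hm0.le, mul_pos hm0 hy0,
          mul_nonneg (mul_nonneg (mul_pos hm0 hy0).le (sub_nonneg.2 hm)) zero_le_two]

/-- The lower part of a fibre. -/
lemma lint_low {H : Set ℝ} {D : ℝ → ℝ≥0∞} {Y Y' : ℝ} (hSun : StSun) (hH : MeasurableSet H)
    (hD : Measurable D) (hHs : H ⊆ Ioc 0 Y)
    (hyy : ∀ y ∈ H, ∃ y', 2 * y ≤ y' ∧ y' ≤ Y' ∧
      ∫⁻ t in Ioc y y', ENNReal.ofReal (1 / t) ≤ ∫⁻ t in Ioc y y', D t) :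
    ∫⁻ t in H, ENNReal.ofReal (1 / t) ≤ ∫⁻ t in Ioc 0 Y', D t := by
  have hU : H = ⋃ n : ℕ, H ∩ Ioi (1 / ((n : ℝ) + 1)) := by
    ext t
    simp only [mem_iUnion, mem_inter_iff, mem_Ioi]
    constructor
    · intro ht
      obtain ⟨n, hn⟩ := exists_nat_one_div_lt (hHs ht).1
      exact ⟨n, ht, hn⟩
    · rintro ⟨n, ht, -⟩
      exact ht
  have hmono : Monotone fun n : ℕ => H ∩ Ioi (1 / ((n : ℝ) + 1)) := by
    intro n k hnk
    apply inter_subset_inter_right
    apply Ioi_subset_Ioi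
    apply one_div_le_one_div_of_le (by positivity)
    have : (n : ℝ) ≤ k := by exact_mod_cast hnk
    linarith
  rw [hU, setLIntegral_iUnion_of_directed _ hmono.directed_le]
  apply iSup_le
  intro n
  have hδ : 0 < 1 / ((n : ℝ) + 1) := by positivity
  refine (hSun (H ∩ Ioi (1 / ((n : ℝ) + 1))) D (1 / ((n : ℝ) + 1)) Y Y' hδ
    (hH.inter measurableSet_Ioi) hD ?_ ?_).trans ?_
  · intro t ht
    exact ⟨ht.2, (hHs ht.1).2⟩
  · intro y hy
    exact hyy y hy.1
  · exact lintegral_mono_set (Ioc_subset_Ioc_left hδ.le)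

end Saw1

open Saw1 in
theorem stSaw1 (hBas : StBas) (hSawT : StSawT) (hVpp : StVpp) (hCS : StCS) (hSun : StSun) :
    StSaw1 := by
  intro la μ U hU
  obtain ⟨hla, hlm, hW, hSh⟩ := id hU
  have hadm : Admissible (lg U) := hW.2.2
  obtain ⟨K1, M, hK1, hM, hsaw⟩ := hSawT 1 2 one_pos one_lt_two
  obtain ⟨KV, hKV, hV⟩ := hVpp la μ U hU 2 zero_le_two
  have hM0 : 0 < M := by linarith
  have hKV0 : 0 < KV := by linarith
  refine ⟨2 * M * KV, by nlinarith, ?_⟩
  intro B hB
  obtain ⟨ms, hms, hVB⟩ := hV B hB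
  refine ⟨ms, 2 + K1 * B ^ 2 * (1 / 2 + 2 * KV), hms, ?_, ?_⟩
  · have : 0 ≤ K1 * B ^ 2 * (1 / 2 + 2 * KV) := by positivity
    linarith
  intro a s z0 y0 m G hs hz0 hsy hys hRt hG hGB
  have hy0 : 0 < y0 := hRt.1
  have hm1 : 1 ≤ m := hRt.2.1
  have hm0 : 0 < m := by linarith
  set L : ℝ := LL la U z0 y0 with hL
  set F : ℂ → ℂ := schw (lg U) with hF
  rcases G.eq_empty_or_nonempty with hGe | hGn
  · have : {q : ℝ × ℝ | q.1 ∈ Icc a (a + s) ∧ 0 < q.2 ∧ q.2 ≤ s ∧
      (∃ x' ∈ G, |q.1 - x'| ≤ q.2) ∧ ms ≤ gg la U q.1 q.2} = ∅ := by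
      ext q
      simp [hGe]
    rw [this]
    simp
  set T : ℝ := 2 * KV * y0 with hT
  have hT0 : 0 < T := by positivity
  -- the regions
  set W : Set (ℝ × ℝ) := {q | q.1 ∈ Icc a (a + s) ∧ infDist q.1 G ≤ q.2 ∧ 0 < q.2 ∧ q.2 ≤ s ∧
    ms ≤ gg la U q.1 q.2} with hWdef
  set S : Set (ℝ × ℝ) := {q | 0 < q.2 ∧ q.2 < T ∧ infDist q.1 G ≤ 1 * q.2} with hSdef
  have hinf : Measurable fun q : ℝ × ℝ => infDist q.1 G :=
    ((continuous_infDist_pt G).comp continuous_fst).measurable
  have hWm : MeasurableSet W := by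
    have h1 := ((hBas.2.1 la U hla hW).2.2 ms).2
    have e : W = ({q : ℝ × ℝ | q.1 ∈ Icc a (a + s)} ∩ {q | infDist q.1 G ≤ q.2}) ∩
        ({q | q.2 ≤ s} ∩ {q : ℝ × ℝ | 0 < q.2 ∧ ms ≤ gg la U q.1 q.2}) := by
      ext q
      simp only [hWdef, mem_ofPred_eq, mem_inter_iff]
      tauto
    rw [e]
    refine ((measurable_fst measurableSet_Icc).inter (measurableSet_le hinf measurable_snd)).inter
      ((measurableSet_le measurable_snd measurable_const).inter h1)
  have hSm : MeasurableSet S := by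
    refine (measurableSet_lt measurable_const measurable_snd).inter
      ((measurableSet_lt measurable_snd measurable_const).inter
        (measurableSet_le hinf (measurable_snd.const_mul 1)))
  have hfm : Measurable fun q : ℝ × ℝ => ENNReal.ofReal (q.2 * gsq F q) :=
    (measurable_snd.mul (measurable_gsq F)).ennreal_ofReal
  have hgm : Measurable fun q : ℝ × ℝ => ENNReal.ofReal (1 / q.2) :=
    (measurable_snd.const_div 1).ennreal_ofReal
  have hfS : Measurable (S.indicator fun q : ℝ × ℝ => ENNReal.ofReal (q.2 * gsq F q)) :=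
    hfm.indicator hSm
  have hgW : Measurable (W.indicator fun q : ℝ × ℝ => ENNReal.ofReal (1 / q.2)) :=
    hgm.indicator hWm
  -- the fibres
  have hfib : ∀ x : ℝ, ∫⁻ y, W.indicator (fun q : ℝ × ℝ => ENNReal.ofReal (1 / q.2)) (x, y) ≤
      (Icc a (a + s)).indicator (fun _ => ENNReal.ofReal (2 * m ^ 2)) x +
        ∫⁻ t, S.indicator (fun q : ℝ × ℝ => ENNReal.ofReal (q.2 * gsq F q)) (x, t) := by
    intro x
    by_cases hx : x ∈ Icc a (a + s)
    swap
    · have : ∀ y, W.indicator (fun q : ℝ × ℝ => ENNReal.ofReal (1 / q.2)) (x, y) = 0 := by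
        intro y
        apply indicator_of_notMem
        intro h
        exact hx h.1
      simp only [this, lintegral_zero]
      exact zero_le
    rw [indicator_of_mem hx]
    set Wx : Set ℝ := {y | (x, y) ∈ W} with hWx
    have hWxm : MeasurableSet Wx := measurable_prodMk_left hWm
    have e1 : ∫⁻ y, W.indicator (fun q : ℝ × ℝ => ENNReal.ofReal (1 / q.2)) (x, y) =
        ∫⁻ y in Wx, ENNReal.ofReal (1 / y) := by
      rw [← lintegral_indicator hWxm]
      rfl
    rw [e1]
    have hsub : Wx ⊆ Ioc (y0 / m) s ∪ (Wx ∩ Ioc 0 (y0 / m)) := by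
      intro y hy
      rcases lt_or_ge (y0 / m) y with h | h
      · exact Or.inl ⟨h, hy.2.2.2.1⟩
      · exact Or.inr ⟨hy, hy.2.2.1, h⟩
    refine (lintegral_mono_set hsub).trans ((lintegral_union_le _ _ _).trans ?_)
    refine add_le_add ?_ ?_
    · exact lint_top hm1 hy0 (by linarith)
    · set Dx : Set ℝ := {t | infDist x G ≤ t ∧ t ≤ KV * y0} with hDx
      have hDxm : MeasurableSet Dx := (measurableSet_le measurable_const measurable_id).inter
        (measurableSet_le measurable_id measurable_const)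
      set D : ℝ → ℝ≥0∞ := Dx.indicator fun t => ENNReal.ofReal (t * gsq F (x, t)) with hDdef
      have hDm : Measurable D := (hfm.comp measurable_prodMk_left).indicator hDxm
      refine (lint_low (D := D) (Y := y0 / m) (Y' := KV * y0) hSun (hWxm.inter measurableSet_Ioc)
        hDm inter_subset_right ?_).trans ?_
      · intro y hy
        obtain ⟨hyW, hy1, hy2⟩ := hy
        have hinfy : infDist x G ≤ y := hyW.2.1
        have hgy : ms ≤ gg la U x y := hyW.2.2.2.2
        have hmy : m * y ≤ y0 := by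
          rw [le_div_iff₀ hm0] at hy2
          linarith
        have hxz : |x - z0| ≤ 2 * y0 := by
          rw [abs_le]
          constructor <;> linarith [hx.1, hx.2, hz0.1, hz0.2]
        obtain ⟨y', h1, h2, h3⟩ := hVB z0 y0 m x y hRt hxz hy1 hmy (by
          intro t ht1 ht2
          have h4 : infDist x G < 2 * t := by linarith
          obtain ⟨x', hx', hd⟩ := (infDist_lt_iff hGn).1 h4
          apply hGB x' hx' x t (by linarith) _
          · rw [Real.dist_eq] at hd
            rw [abs_sub_comm]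
            exact hd
          · calc t ≤ KV * y0 := ht2
              _ ≤ 2 * M * KV * y0 := by
                have : 0 ≤ KV * y0 := by positivity
                nlinarith) hgy
        refine ⟨y', h1, h2, ?_⟩
        refine (hCS (lg U) x y y' hadm hy1 (by linarith) h3).trans ?_
        apply setLIntegral_mono hDm
        intro t ht
        rw [hDdef, indicator_of_mem]
        exact ⟨by linarith [ht.1], by linarith [ht.2]⟩
      · rw [← lintegral_indicator measurableSet_Ioc]
        apply lintegral_mono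
        intro t
        simp only [hDdef]
        by_cases ht : t ∈ Ioc 0 (KV * y0)
        · rw [indicator_of_mem ht]
          by_cases ht2 : t ∈ Dx
          · rw [indicator_of_mem ht2, indicator_of_mem]
            refine ⟨ht.1, ?_, ?_⟩
            · calc t ≤ KV * y0 := ht.2
                _ < T := by rw [hT]; nlinarith [mul_pos hKV0 hy0]
            · show infDist x G ≤ 1 * t
              rw [one_mul]; exact ht2.1
          · rw [indicator_of_notMem ht2]
            exact zero_le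
        · rw [indicator_of_notMem ht]
          exact zero_le
  -- the sawtooth estimate
  have hmain : ∫⁻ q in S, ENNReal.ofReal (q.2 * gsq F q) ≤
      ENNReal.ofReal (K1 * (B * m) ^ 2 * (s / 2 + T)) := by
    have := hsaw (fun w => F w - (L : ℂ)) ((schw_diff hadm).sub_const _) G (a + s / 2) (s / 2) T
      (B * m) hGn (by linarith) hT0 (by positivity) (by
        intro x hx
        have := hG hx
        constructor <;> linarith [this.1, this.2]) (by
        intro z y hy1 hy2 hy3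
        obtain ⟨x', hx', hd⟩ := (infDist_lt_iff hGn).1 hy3
        rw [Complex.sub_re, Complex.ofReal_re, hF, ← poisson_eq_re hadm hy1]
        apply hGB x' hx' z y hy1 _
        · rw [Real.dist_eq] at hd
          rw [abs_sub_comm]
          exact hd
        · calc y ≤ M * T := hy2
            _ = 2 * M * KV * y0 := by rw [hT]; ring)
    simp only [gsq_sub] at this
    exact this
  -- assembly
  have hRW : {q : ℝ × ℝ | q.1 ∈ Icc a (a + s) ∧ 0 < q.2 ∧ q.2 ≤ s ∧
      (∃ x' ∈ G, |q.1 - x'| ≤ q.2) ∧ ms ≤ gg la U q.1 q.2} ⊆ W := by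
    rintro q ⟨h1, h2, h3, ⟨x', hx', hd⟩, h5⟩
    refine ⟨h1, ?_, h2, h3, h5⟩
    refine (infDist_le_dist_of_mem hx').trans ?_
    rw [Real.dist_eq]
    exact hd
  calc ∫⁻ q in {q : ℝ × ℝ | q.1 ∈ Icc a (a + s) ∧ 0 < q.2 ∧ q.2 ≤ s ∧
      (∃ x' ∈ G, |q.1 - x'| ≤ q.2) ∧ ms ≤ gg la U q.1 q.2}, ENNReal.ofReal (1 / q.2)
      ≤ ∫⁻ q in W, ENNReal.ofReal (1 / q.2) := lintegral_mono_set hRW
    _ = ∫⁻ q, W.indicator (fun q : ℝ × ℝ => ENNReal.ofReal (1 / q.2)) q := by
        rw [lintegral_indicator hWm]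
    _ = ∫⁻ x, ∫⁻ y, W.indicator (fun q : ℝ × ℝ => ENNReal.ofReal (1 / q.2)) (x, y) := by
        rw [Measure.volume_eq_prod, lintegral_prod _ hgW.aemeasurable]
    _ ≤ ∫⁻ x, ((Icc a (a + s)).indicator (fun _ => ENNReal.ofReal (2 * m ^ 2)) x +
        ∫⁻ t, S.indicator (fun q : ℝ × ℝ => ENNReal.ofReal (q.2 * gsq F q)) (x, t)) :=
        lintegral_mono hfib
    _ = ENNReal.ofReal (2 * m ^ 2) * volume (Icc a (a + s)) +
        ∫⁻ q in S, ENNReal.ofReal (q.2 * gsq F q) := by
        rw [lintegral_add_left (measurable_const.indicator measurableSet_Icc),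
          lintegral_indicator measurableSet_Icc, setLIntegral_const, ← lintegral_indicator hSm,
          Measure.volume_eq_prod, lintegral_prod _ hfS.aemeasurable]
    _ ≤ ENNReal.ofReal (2 * m ^ 2) * ENNReal.ofReal s +
        ENNReal.ofReal (K1 * (B * m) ^ 2 * (s / 2 + T)) := by
        gcongr
        rw [Real.volume_Icc]
        apply ENNReal.ofReal_le_ofReal
        linarith
    _ = ENNReal.ofReal (2 * m ^ 2 * s + K1 * (B * m) ^ 2 * (s / 2 + T)) := by
        rw [← ENNReal.ofReal_mul (by positivity), ← ENNReal.ofReal_add (by positivity)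
          (by positivity)]
    _ ≤ ENNReal.ofReal ((2 + K1 * B ^ 2 * (1 / 2 + 2 * KV)) * m ^ 2 * s) := by
        apply ENNReal.ofReal_le_ofReal
        have hT2 : T ≤ 2 * KV * s := by
          rw [hT]; gcongr
        have h5 : K1 * (B * m) ^ 2 * (s / 2 + T) ≤ K1 * (B * m) ^ 2 * (s / 2 + 2 * KV * s) := by
          gcongr
        nlinarith [h5]

end Pool.Agent.Work.MP_055a27_an.Cr3

end

section

/-!
# The sawtooth estimate of bounded height
-/

open MeasureTheory Set Filter Topology Complex Metric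
open scoped ENNReal NNReal

namespace Pool.Agent.Work.MP_055a27_an.Cr3.SawT

/-- The inequality for the region at height above `ε'`. -/
lemma saw_epsT {F : ℂ → ℂ} (hF : DifferentiableOn ℂ F uhp) {lam b C T : ℝ} (hlam : 0 < lam)
    (hlb : lam < b) (hC : 0 < C) (hT : 0 < T) (c : Cutoff C T) {E : Set ℝ} (hE : E.Nonempty)
    {x r σ : ℝ} (hr : 0 < r) (hEs : E ⊆ Icc (x - r) (x + r)) (hσ0 : 0 ≤ σ)
    (hσ : ∀ z y : ℝ, 0 < y → y ≤ 4 * T → infDist z E < b * y → |(F (z + y * I)).re| ≤ σ) {ε : ℝ}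
    (hε : 0 < ε) :
    ∫⁻ q in {q : ℝ × ℝ | ε / (1 - lam / ((lam + b) / 2)) < q.2 ∧ q.2 < T ∧
      infDist q.1 E ≤ lam * q.2}, ENNReal.ofReal (q.2 * gsq F q) ≤
    ENNReal.ofReal (((1 / ((lam + b) / 2) + 1) * (4 * ((1 + b) / (b - (lam + b) / 2))) + C / 2 + C) *
      σ ^ 2 * (2 * (r + 2 * ((lam + b) / 2) * T))) := by
  set lam' : ℝ := (lam + b) / 2 with hlam'
  have hl1 : lam < lam' := by rw [hlam']; linarith
  have hl2 : lam' < b := by rw [hlam']; linarith
  have hl0 : 0 < lam' := by linarith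
  set φ : ℝ → ℝ := fun z => infDist z E / lam' + ε with hφdef
  have hφε : ∀ z, ε ≤ φ z := by
    intro z
    have : 0 ≤ infDist z E / lam' := by
      have := infDist_nonneg (x := z) (s := E)
      positivity
    simp only [hφdef]
    linarith
  set L : ℝ≥0 := (1 / lam').toNNReal with hL
  have hLr : (L : ℝ) = 1 / lam' := Real.coe_toNNReal _ (by positivity)
  have hlip : LipschitzWith L φ := by
    apply LipschitzWith.of_dist_le_mul
    intro z z'
    have h1 := (lipschitz_infDist_pt E).dist_le_mul z z'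
    rw [NNReal.coe_one, one_mul] at h1
    rw [hLr]
    simp only [hφdef, Real.dist_eq] at h1 ⊢
    have e : infDist z E / lam' + ε - (infDist z' E / lam' + ε) =
        (1 / lam') * (infDist z E - infDist z' E) := by ring
    rw [e, abs_mul, abs_of_pos (by positivity : (0:ℝ) < 1 / lam')]
    gcongr
  set R : ℝ := r + 2 * lam' * T with hR
  have hfar : ∀ z, R ≤ |z - x| → 2 * T < φ z := by
    intro z hz
    have h1 : 2 * lam' * T ≤ infDist z E := by
      apply (le_infDist hE).2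
      intro t ht
      have h2 := hEs ht
      have h3 : |t - x| ≤ r := abs_le.2 ⟨by linarith [h2.1], by linarith [h2.2]⟩
      have h4 : |z - x| ≤ |z - t| + |t - x| := by
        calc |z - x| = |(z - t) + (t - x)| := by ring_nf
          _ ≤ _ := abs_add_le _ _
      rw [Real.dist_eq]
      linarith
    have h2 : 2 * T ≤ infDist z E / lam' := by
      rw [le_div_iff₀ hl0]; linarith
    simp only [hφdef]
    linarith
  have hRpos : 0 < R := by rw [hR]; positivity
  have hA : 2 * T < φ (x - R) := hfar _ (by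
    have : x - R - x = -R := by ring
    rw [this, abs_neg, abs_of_pos hRpos])
  have hB : 2 * T < φ (x + R) := hfar _ (by
    have : x + R - x = R := by ring
    rw [this, abs_of_pos hRpos])
  -- points above the graph
  have habove : ∀ z t : ℝ, 0 ≤ t → infDist z E ≤ lam' * (φ z + t) := by
    intro z t ht
    have : lam' * φ z = infDist z E + lam' * ε := by
      simp only [hφdef]; field_simp
    nlinarith [mul_nonneg hl0.le ht, mul_pos hl0 hε]
  have hu : ∀ z t, 0 ≤ t → φ z + t ≤ 2 * T → |(F (curve φ t z)).re| ≤ σ := by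
    intro z t ht ht2
    have hpos : 0 < φ z + t := by linarith [hφε z]
    unfold curve
    apply hσ z (φ z + t) hpos (by linarith)
    calc infDist z E ≤ lam' * (φ z + t) := habove z t ht
      _ < b * (φ z + t) := by gcongr
  have hg : ∀ z, φ z ≤ 2 * T →
      φ z * ‖deriv F (curve φ 0 z)‖ ≤ (4 * ((1 + b) / (b - lam'))) * σ := by
    intro z hz2
    have hpos : 0 < φ z := lt_of_lt_of_le hε (hφε z)
    have h1 := cone_grad_boundT hF hl0 hl2 hσ (z := z) (y := φ z) hpos (by linarith) (by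
      have := habove z 0 le_rfl
      rwa [add_zero] at this)
    have e : curve φ 0 z = (z : ℂ) + (φ z : ℂ) * I := by unfold curve; simp
    rw [e]
    calc φ z * ‖deriv F ((z : ℂ) + (φ z : ℂ) * I)‖
        ≤ φ z * (4 * σ * ((1 + b) / (b - lam')) / φ z) := by gcongr
      _ = _ := by field_simp
  have hbl : 0 < b - lam' := by linarith
  have hb : 0 < b := hlam.trans hlb
  have hgreen := green_boundT hF hlip hε hφε hC hT c (A := x - R) (B := x + R) (by linarith) hA hB
    hσ0 (by positivity) hu hg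
  rw [hLr] at hgreen
  have e1 : x + R - (x - R) = 2 * R := by ring
  rw [e1] at hgreen
  refine le_trans ?_ (ENNReal.ofReal_le_ofReal hgreen)
  -- convert to lintegral
  have hcont : Continuous φ := hlip.continuous
  have hF1 : DifferentiableOn ℂ (deriv F) uhp := hF.deriv isOpen_uhp
  have h1 : ContinuousOn (fun q : ℝ × ℝ => hf F c φ q.1 q.2) {q | 0 ≤ q.2} := by
    unfold hf
    have e0 : ContinuousOn (fun q : ℝ × ℝ => c.q (φ q.1 + q.2)) {q | 0 ≤ q.2} :=
      ((cutoff_cont_q c).comp ((hcont.comp continuous_fst).add continuous_snd)).continuousOn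
    exact e0.mul ((continuousOn_curve hcont hε hφε hF1).norm.pow 2)
  have hint := integrable_rect h1 (x - R) (x + R) (2 * T)
  have hnn : ∀ z t, 0 ≤ t → 0 ≤ hf F c φ z t := by
    intro z t ht
    unfold hf
    have := c.nonneg (φ z + t) (by linarith [hφε z])
    positivity
  have hconv : ENNReal.ofReal (∫ z in (x - R)..(x + R), ∫ t in (0:ℝ)..(2 * T), hf F c φ z t) =
      ∫⁻ z in Ioc (x - R) (x + R), ∫⁻ t in Ioc (0:ℝ) (2 * T), ENNReal.ofReal (hf F c φ z t) := by
    have e2 : ∫ z in (x - R)..(x + R), ∫ t in (0:ℝ)..(2 * T), hf F c φ z t =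
        ∫ q, hf F c φ q.1 q.2 ∂((volume.restrict (Ioc (x - R) (x + R))).prod
          (volume.restrict (Ioc 0 (2 * T)))) := by
      rw [integral_prod _ hint, intervalIntegral.integral_of_le (by linarith)]
      apply MeasureTheory.integral_congr_ae
      refine Eventually.of_forall fun z => ?_
      simp only
      rw [intervalIntegral.integral_of_le (by positivity)]
    rw [e2, ofReal_integral_eq_lintegral_ofReal hint]
    · rw [lintegral_prod]
      exact hint.aestronglyMeasurable.aemeasurable.ennreal_ofReal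
    · rw [Measure.prod_restrict]
      rw [Filter.EventuallyLE, ae_restrict_iff' (measurableSet_Ioc.prod measurableSet_Ioc)]
      refine Eventually.of_forall fun q hq => ?_
      exact hnn q.1 q.2 hq.2.1.le
  rw [hconv]
  -- main comparison
  set W : Set (ℝ × ℝ) := {q : ℝ × ℝ | ε / (1 - lam / lam') < q.2 ∧ q.2 < T ∧
      infDist q.1 E ≤ lam * q.2} with hW
  have hWm : MeasurableSet W := by
    apply MeasurableSet.inter
    · exact measurableSet_lt measurable_const measurable_snd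
    · apply MeasurableSet.inter
      · exact measurableSet_lt measurable_snd measurable_const
      · exact measurableSet_le ((continuous_infDist_pt E).measurable.comp measurable_fst)
          (measurable_snd.const_mul lam)
  have hfrac : 0 < 1 - lam / lam' := by
    have : lam / lam' < 1 := by rw [div_lt_one hl0]; exact hl1
    linarith
  have hWpt : ∀ z y, (z, y) ∈ W → φ z < y ∧ z ∈ Ioc (x - R) (x + R) := by
    rintro z y ⟨hy1, hy2, hy3⟩
    simp only at hy1 hy2 hy3
    have hy0 : 0 < y := lt_trans (by positivity) hy1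
    constructor
    · rw [div_lt_iff₀ hfrac] at hy1
      have : infDist z E / lam' ≤ lam * y / lam' := by gcongr
      have e : lam * y / lam' = y * (lam / lam') := by ring
      simp only [hφdef]
      rw [e] at this
      nlinarith
    · by_contra hcon
      have h3 : r + lam * T < |z - x| := by
        have hRR : r + lam * T < R := by rw [hR]; nlinarith
        by_contra h4
        push Not at h4
        apply hcon
        have h5 := abs_le.1 (h4.trans hRR.le)
        have h6 := abs_le.1 h4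
        exact ⟨by linarith, by linarith⟩
      have h4 : lam * T < infDist z E := by
        have h5 : |z - x| - r ≤ infDist z E := by
          apply (le_infDist hE).2
          intro t ht
          have h2 := hEs ht
          have h3 : |t - x| ≤ r := abs_le.2 ⟨by linarith [h2.1], by linarith [h2.2]⟩
          have h4 : |z - x| ≤ |z - t| + |t - x| := by
            calc |z - x| = |(z - t) + (t - x)| := by ring_nf
              _ ≤ _ := abs_add_le _ _
          rw [Real.dist_eq]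
          linarith
        linarith
      have : lam * y < lam * T := by gcongr
      linarith
  rw [← lintegral_indicator hWm, Measure.volume_eq_prod, lintegral_prod _ (by
    apply AEMeasurable.indicator _ hWm
    exact (measurable_snd.mul (measurable_gsq F)).ennreal_ofReal.aemeasurable)]
  rw [← lintegral_indicator measurableSet_Ioc]
  apply lintegral_mono
  intro z
  simp only
  by_cases hz : z ∈ Ioc (x - R) (x + R)
  · rw [indicator_of_mem hz]
    -- change of variables in y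
    have hcv : ∫⁻ t in Ioc (0:ℝ) (2 * T), ENNReal.ofReal (hf F c φ z t) =
        ∫⁻ y, (Ioc (φ z) (φ z + 2 * T)).indicator
          (fun y => ENNReal.ofReal (c.q y * gsq F (z, y))) y := by
      rw [← lintegral_indicator measurableSet_Ioc,
        ← lintegral_add_left_eq_self (μ := volume)
          (fun y => (Ioc (φ z) (φ z + 2 * T)).indicator
            (fun y => ENNReal.ofReal (c.q y * gsq F (z, y))) y) (φ z)]
      apply lintegral_congr
      intro t
      by_cases ht : t ∈ Ioc (0:ℝ) (2 * T)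
      · have ht' : φ z + t ∈ Ioc (φ z) (φ z + 2 * T) := ⟨by linarith [ht.1], by linarith [ht.2]⟩
        rw [indicator_of_mem ht, indicator_of_mem ht']
        rfl
      · have ht' : φ z + t ∉ Ioc (φ z) (φ z + 2 * T) := fun h =>
          ht ⟨by linarith [h.1], by linarith [h.2]⟩
        rw [indicator_of_notMem ht, indicator_of_notMem ht']
    rw [hcv]
    apply lintegral_mono
    intro y
    simp only
    by_cases hq : (z, y) ∈ W
    · obtain ⟨h2, -⟩ := hWpt z y hq
      have hyT : y < T := hq.2.1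
      have hφpos : 0 < φ z := lt_of_lt_of_le hε (hφε z)
      have hmem : y ∈ Ioc (φ z) (φ z + 2 * T) := ⟨h2, by linarith⟩
      rw [indicator_of_mem hq, indicator_of_mem hmem, c.eq_self y hyT.le]
    · rw [indicator_of_notMem hq]
      exact bot_le
  · rw [indicator_of_notMem hz]
    apply le_of_eq
    rw [lintegral_eq_zero_iff' ]
    · refine Eventually.of_forall fun y => ?_
      have hq : (z, y) ∉ W := fun h => hz (hWpt z y h).2
      simp only [Pi.zero_apply]
      rw [indicator_of_notMem hq]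
    · have : Measurable (W.indicator fun q : ℝ × ℝ => ENNReal.ofReal (q.2 * gsq F q)) :=
        ((measurable_snd.mul (measurable_gsq F)).ennreal_ofReal).indicator hWm
      exact (this.comp measurable_prodMk_left).aemeasurable

/-- Limit `ε → 0` in `saw_eps`. -/
lemma saw_zeroT {F : ℂ → ℂ} (hF : DifferentiableOn ℂ F uhp) {lam b C T : ℝ} (hlam : 0 < lam)
    (hlb : lam < b) (hC : 0 < C) (hT : 0 < T) (c : Cutoff C T) {E : Set ℝ} (hE : E.Nonempty)
    {x r σ : ℝ} (hr : 0 < r) (hEs : E ⊆ Icc (x - r) (x + r)) (hσ0 : 0 ≤ σ)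
    (hσ : ∀ z y : ℝ, 0 < y → y ≤ 4 * T → infDist z E < b * y → |(F (z + y * I)).re| ≤ σ) :
    ∫⁻ q in {q : ℝ × ℝ | 0 < q.2 ∧ q.2 < T ∧ infDist q.1 E ≤ lam * q.2},
      ENNReal.ofReal (q.2 * gsq F q) ≤
    ENNReal.ofReal (((1 / ((lam + b) / 2) + 1) * (4 * ((1 + b) / (b - (lam + b) / 2))) + C / 2 + C) *
      σ ^ 2 * (2 * (r + 2 * ((lam + b) / 2) * T))) := by
  have hl0 : 0 < (lam + b) / 2 := by linarith
  have hfrac : 0 < 1 - lam / ((lam + b) / 2) := by
    have : lam / ((lam + b) / 2) < 1 := by rw [div_lt_one hl0]; linarith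
    linarith
  set W : ℕ → Set (ℝ × ℝ) := fun n => {q : ℝ × ℝ |
    (1 / ((n : ℝ) + 1)) / (1 - lam / ((lam + b) / 2)) < q.2 ∧ q.2 < T ∧
      infDist q.1 E ≤ lam * q.2} with hW
  have hWm : ∀ n, MeasurableSet (W n) := by
    intro n
    apply MeasurableSet.inter
    · exact measurableSet_lt measurable_const measurable_snd
    · apply MeasurableSet.inter
      · exact measurableSet_lt measurable_snd measurable_const
      · exact measurableSet_le ((continuous_infDist_pt E).measurable.comp measurable_fst)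
          (measurable_snd.const_mul lam)
  have hmono : Monotone W := by
    intro m n hmn q hq
    refine ⟨lt_of_le_of_lt ?_ hq.1, hq.2⟩
    have : (m : ℝ) ≤ n := by exact_mod_cast hmn
    gcongr
  have hunion : {q : ℝ × ℝ | 0 < q.2 ∧ q.2 < T ∧ infDist q.1 E ≤ lam * q.2} ⊆ ⋃ n, W n := by
    rintro q ⟨h1, h2, h3⟩
    obtain ⟨n, hn⟩ := exists_nat_one_div_lt (show 0 < q.2 * (1 - lam / ((lam + b) / 2)) by
      positivity)
    refine mem_iUnion.2 ⟨n, ?_, h2, h3⟩
    rw [div_lt_iff₀ hfrac]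
    exact hn
  calc ∫⁻ q in {q : ℝ × ℝ | 0 < q.2 ∧ q.2 < T ∧ infDist q.1 E ≤ lam * q.2},
      ENNReal.ofReal (q.2 * gsq F q)
      ≤ ∫⁻ q in ⋃ n, W n, ENNReal.ofReal (q.2 * gsq F q) := lintegral_mono_set hunion
    _ = ⨆ n, ∫⁻ q in W n, ENNReal.ofReal (q.2 * gsq F q) := by
        rw [setLIntegral_iUnion_of_directed _ (directed_of_isDirected_le hmono)]
    _ ≤ _ := by
        apply iSup_le
        intro n
        have hn : (0 : ℝ) < 1 / ((n : ℝ) + 1) := by positivity
        exact saw_epsT hF hlam hlb hC hT c hE hr hEs hσ0 hσ hn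

end Pool.Agent.Work.MP_055a27_an.Cr3.SawT

namespace Pool.Agent.Work.MP_055a27_an.Cr3

open SawT in
/-- The sawtooth estimate of bounded height. -/
theorem stSawT : StSawT := by
  intro lam b hlam hlb
  obtain ⟨C, hC, hcut⟩ := exists_cutoff
  have hb : 0 < b := hlam.trans hlb
  set lam' : ℝ := (lam + b) / 2 with hlam'
  have hl0 : 0 < lam' := by rw [hlam']; linarith
  have hbl : 0 < b - lam' := by rw [hlam']; linarith
  set K0 : ℝ := ((1 / lam' + 1) * (4 * ((1 + b) / (b - lam'))) + C / 2 + C) with hK0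
  have hK0pos : 0 < K0 := by rw [hK0]; positivity
  refine ⟨K0 * (2 * (1 + 2 * lam')), 4, by positivity, by norm_num, ?_⟩
  intro F hF E x r T σ hE hr hT hσ0 hEs hσ
  obtain ⟨c⟩ := hcut T hT
  have hmain := saw_zeroT hF hlam hlb hC hT c hE hr hEs hσ0 hσ
  rw [← hlam', ← hK0] at hmain
  refine hmain.trans (ENNReal.ofReal_le_ofReal ?_)
  have h1 : r + 2 * lam' * T ≤ (1 + 2 * lam') * (r + T) := by nlinarith [mul_pos hl0 hr]
  calc K0 * σ ^ 2 * (2 * (r + 2 * lam' * T))
      ≤ K0 * σ ^ 2 * (2 * ((1 + 2 * lam') * (r + T))) := by gcongr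
    _ = _ := by ring

end Pool.Agent.Work.MP_055a27_an.Cr3

end

section

/-!
# Item Sh1: the Carleson condition implies the shadow condition; monotonicity
-/

open MeasureTheory Set Filter Topology Complex Metric
open scoped ENNReal NNReal

namespace Pool.Agent.Work.MP_055a27_an.Cr3

open Crit (lg cc CC Pk hU)
open Nv (mx)

namespace Sh1

theorem intOn {U : ℝ → ℝ} (hU : IsWeight U) (a c : ℝ) : IntegrableOn U (Icc a c) volume :=
  hU.2.integrableOn_isCompact isCompact_Icc

theorem cc_ge {μ z y x : ℝ} {U : ℝ → ℝ} (hy : 0 < y) (hx : |x - z| < μ * y) :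
    ENNReal.ofReal (Real.exp (-poisson (lg U) z y)) ≤ cc μ (z - μ * y) (z + μ * y) U x :=
  le_iSup_of_le z (le_iSup_of_le y (le_iSup_of_le ⟨hy, hx, le_rfl, le_rfl⟩ le_rfl))

theorem part1 (μ : ℝ) (U : ℝ → ℝ) (hμ : 0 < μ) (hU : IsWeight U) (h : CC μ U) : Sh μ U := by
  obtain ⟨C, hC⟩ := h
  refine ⟨2 * μ * C + 1, by positivity, fun z y hy => ?_⟩
  have hμy : 0 < μ * y := mul_pos hμ hy
  have hac : z - μ * y < z + μ * y := by linarith
  set E := Real.exp (-poisson (lg U) z y) with hE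
  have h1 : ENNReal.ofReal E * ∫⁻ x in Ioo (z - μ * y) (z + μ * y), ENNReal.ofReal (U x) ≤
      C * ENNReal.ofReal (2 * (μ * y)) := by
    calc ENNReal.ofReal E * ∫⁻ x in Ioo (z - μ * y) (z + μ * y), ENNReal.ofReal (U x)
        ≤ ∫⁻ x in Ioo (z - μ * y) (z + μ * y), ENNReal.ofReal E * ENNReal.ofReal (U x) :=
          lintegral_const_mul_le _ _
      _ ≤ ∫⁻ x in Ioo (z - μ * y) (z + μ * y), cc μ (z - μ * y) (z + μ * y) U x *
          ENNReal.ofReal (U x) := by
          refine setLIntegral_mono' measurableSet_Ioo fun x hx => ?_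
          refine mul_le_mul_left (cc_ge hy ?_) _
          rw [abs_lt]
          constructor <;> linarith [hx.1, hx.2]
      _ ≤ ∫⁻ x in Icc (z - μ * y) (z + μ * y), cc μ (z - μ * y) (z + μ * y) U x *
          ENNReal.ofReal (U x) := lintegral_mono_set Ioo_subset_Icc_self
      _ ≤ C * ENNReal.ofReal (z + μ * y - (z - μ * y)) := hC _ _ hac
      _ = C * ENNReal.ofReal (2 * (μ * y)) := by
          congr 2
          ring
  have h2 : ∫⁻ x in Ioo (z - μ * y) (z + μ * y), ENNReal.ofReal (U x) =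
      ENNReal.ofReal (∫ x in Ioo (z - μ * y) (z + μ * y), U x) := by
    rw [ofReal_integral_eq_lintegral_ofReal ((intOn hU _ _).mono_set Ioo_subset_Icc_self)
      (Eventually.of_forall fun x => hU.1 x)]
  have h3 : ENNReal.ofReal (E * ∫ x in Ioo (z - μ * y) (z + μ * y), U x) ≤
      ENNReal.ofReal (C * (2 * (μ * y))) := by
    have hC0 : (0 : ℝ) ≤ (C : ℝ) := C.2
    have hE0 : (0 : ℝ) ≤ E := (Real.exp_pos _).le
    rw [ENNReal.ofReal_mul hE0, ENNReal.ofReal_mul hC0, ← h2, ENNReal.ofReal_coe_nnreal]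
    exact h1
  have h4 : E * ∫ x in Ioo (z - μ * y) (z + μ * y), U x ≤ C * (2 * (μ * y)) :=
    (ENNReal.ofReal_le_ofReal_iff (by positivity)).1 h3
  rw [integral_Icc_eq_integral_Ioo]
  have h5 : E * Real.exp (poisson (lg U) z y) = 1 := by
    rw [hE, ← Real.exp_add, neg_add_cancel, Real.exp_zero]
  have h6 := mul_le_mul_of_nonneg_right h4 (Real.exp_pos (poisson (lg U) z y)).le
  have h7 : 0 ≤ y * Real.exp (poisson (lg U) z y) := by positivity
  calc ∫ x in Ioo (z - μ * y) (z + μ * y), U x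
      = (E * Real.exp (poisson (lg U) z y)) * ∫ x in Ioo (z - μ * y) (z + μ * y), U x := by
        rw [h5, one_mul]
    _ = E * (∫ x in Ioo (z - μ * y) (z + μ * y), U x) * Real.exp (poisson (lg U) z y) := by ring
    _ ≤ C * (2 * (μ * y)) * Real.exp (poisson (lg U) z y) := h6
    _ = 2 * μ * C * (y * Real.exp (poisson (lg U) z y)) := by ring
    _ ≤ (2 * μ * C + 1) * (y * Real.exp (poisson (lg U) z y)) := by linarith

theorem part2 (μ μ' : ℝ) (U : ℝ → ℝ) (hμ : μ' ≤ μ) (hU : IsWeight U)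
    (h : Sh μ U) : Sh μ' U := by
  obtain ⟨C, hC, h1⟩ := h
  refine ⟨C, hC, fun z y hy => (?_ : _ ≤ _).trans (h1 z y hy)⟩
  refine setIntegral_mono_set (intOn hU _ _) (Eventually.of_forall fun x => hU.1 x) ?_
  refine LE.le.eventuallyLE ?_
  have : μ' * y ≤ μ * y := mul_le_mul_of_nonneg_right hμ hy.le
  exact Icc_subset_Icc (by linarith) (by linarith)

end Sh1

theorem stSh1 : StSh1 :=
  ⟨fun μ U hμ hU h => Sh1.part1 μ U hμ hU h, fun μ μ' U _ hμ hU h => Sh1.part2 μ μ' U hμ hU h⟩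

end Pool.Agent.Work.MP_055a27_an.Cr3

end

section

set_option autoImplicit false

/-!
# The stopping time induction
-/

namespace Pool.Agent.Work.MP_055a27_an.Cr3

open MeasureTheory Set Filter Topology
open scoped ENNReal NNReal

namespace Stop

/-- In a disjoint family of intervals the left end of one is in none of them. -/
theorem left_notMem {ι : Type} (α γ : ι → ℝ) (hlt : ∀ i, α i < γ i)
    (hd : Pairwise (fun i j => Disjoint (Ioo (α i) (γ i)) (Ioo (α j) (γ j)))) (i : ι) :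
    α i ∉ ⋃ j, Ioo (α j) (γ j) := by
  intro h
  obtain ⟨j, hj⟩ := mem_iUnion.1 h
  by_cases hij : i = j
  · subst hij
    exact lt_irrefl _ hj.1
  · have hdj : Disjoint (Ioo (α i) (γ i)) (Ioo (α j) (γ j)) := hd hij
    rw [Set.disjoint_left] at hdj
    have h1 := hlt i
    have hm : α i < min (γ i) (γ j) := lt_min h1 hj.2
    have h2 : min (γ i) (γ j) ≤ γ i := min_le_left _ _
    have h3 : min (γ i) (γ j) ≤ γ j := min_le_right _ _
    have h4 := hj.1
    exact hdj (a := (α i + min (γ i) (γ j)) / 2) ⟨by linarith, by linarith⟩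
      ⟨by linarith, by linarith⟩

theorem right_notMem {ι : Type} (α γ : ι → ℝ) (hlt : ∀ i, α i < γ i)
    (hd : Pairwise (fun i j => Disjoint (Ioo (α i) (γ i)) (Ioo (α j) (γ j)))) (i : ι) :
    γ i ∉ ⋃ j, Ioo (α j) (γ j) := by
  intro h
  obtain ⟨j, hj⟩ := mem_iUnion.1 h
  by_cases hij : i = j
  · subst hij
    exact lt_irrefl _ hj.2
  · have hdj : Disjoint (Ioo (α i) (γ i)) (Ioo (α j) (γ j)) := hd hij
    rw [Set.disjoint_left] at hdj
    have h1 := hlt i
    have hm : max (α i) (α j) < γ i := max_lt h1 hj.1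
    have h2 : α i ≤ max (α i) (α j) := le_max_left _ _
    have h3 : α j ≤ max (α i) (α j) := le_max_right _ _
    have h4 := hj.2
    exact hdj (a := (γ i + max (α i) (α j)) / 2) ⟨by linarith, by linarith⟩
      ⟨by linarith, by linarith⟩

theorem half (C : ℝ≥0) (s : ℝ) :
    2 * (C : ℝ≥0∞) * ENNReal.ofReal (s / 2) = C * ENNReal.ofReal s := by
  have h : ENNReal.ofReal s = 2 * ENNReal.ofReal (s / 2) := by
    have : s = 2 * (s / 2) := by ring
    conv_lhs => rw [this]
    rw [ENNReal.ofReal_mul (by norm_num)]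
    norm_num
  rw [h]
  ring

theorem step (hComps : Crit.StComps) (Φ : ℝ → ℝ → ℝ≥0∞) (δ : ℝ) (C : ℝ≥0) (hδ : 0 < δ)
    (h0 : ∀ a s, s ≤ δ → Φ a s = 0)
    (h1 : ∀ a s, δ < s → Φ a s ≤ Φ a (s / 2) + Φ (a + s / 2) (s / 2) ∨
      ∃ O : Set ℝ, IsOpen O ∧ volume (O ∩ Ioo a (a + s)) ≤ ENNReal.ofReal (s / 2) ∧
        ∀ (ι : Type) (_ : Countable ι) (α γ : ι → ℝ), (∀ i, α i < γ i) →
          O ∩ Ioo a (a + s) = ⋃ i, Ioo (α i) (γ i) →
          (∀ i, ∃ x' ∈ Ioo a (a + s), x' ∉ O ∧ ∀ x ∈ Ioo (α i) (γ i), |x - x'| ≤ γ i - α i) →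
          Φ a s ≤ C * ENNReal.ofReal s + ∑' i, Φ (α i) (γ i - α i))
    (T : ℝ) (hT : ∀ a s, s ≤ T → Φ a s ≤ 2 * C * ENNReal.ofReal s) :
    ∀ a s, s ≤ 2 * T → Φ a s ≤ 2 * C * ENNReal.ofReal s := by
  intro a s hs
  rcases le_or_gt s δ with hsδ | hsδ
  · rw [h0 a s hsδ]
    exact zero_le
  have hs0 : 0 < s := hδ.trans hsδ
  have hhalf : s / 2 ≤ T := by linarith
  rcases h1 a s hsδ with h | ⟨O, hO, hvol, hall⟩
  · calc Φ a s ≤ Φ a (s / 2) + Φ (a + s / 2) (s / 2) := h
      _ ≤ 2 * C * ENNReal.ofReal (s / 2) + 2 * C * ENNReal.ofReal (s / 2) :=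
          add_le_add (hT _ _ hhalf) (hT _ _ hhalf)
      _ = 2 * C * ENNReal.ofReal s := by
          rw [half C s]
          ring
  · obtain ⟨ι, hι, α, γ, hlt, hU, hd, -⟩ := hComps (O ∩ Ioo a (a + s)) (hO.inter isOpen_Ioo)
      (ne_top_of_le_ne_top ENNReal.ofReal_ne_top hvol)
    have := hι
    have hsum : ∑' i, ENNReal.ofReal (γ i - α i) ≤ ENNReal.ofReal (s / 2) := by
      calc ∑' i, ENNReal.ofReal (γ i - α i) = ∑' i, volume (Ioo (α i) (γ i)) := by
            simp only [Real.volume_Ioo]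
        _ = volume (⋃ i, Ioo (α i) (γ i)) :=
            (measure_iUnion hd fun i => measurableSet_Ioo).symm
        _ = volume (O ∩ Ioo a (a + s)) := by rw [hU]
        _ ≤ _ := hvol
    have hlen : ∀ i, γ i - α i ≤ s / 2 := by
      intro i
      have := (ENNReal.le_tsum (f := fun i => ENNReal.ofReal (γ i - α i)) i).trans hsum
      exact (ENNReal.ofReal_le_ofReal_iff (by linarith)).1 this
    have hx' : ∀ i, ∃ x' ∈ Ioo a (a + s), x' ∉ O ∧
        ∀ x ∈ Ioo (α i) (γ i), |x - x'| ≤ γ i - α i := by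
      intro i
      have hsub : Ioo (α i) (γ i) ⊆ Ioo a (a + s) := by
        intro x hx
        have hx2 : x ∈ O ∩ Ioo a (a + s) := by
          rw [hU]
          exact mem_iUnion.2 ⟨i, hx⟩
        exact hx2.2
      obtain ⟨ha, hb⟩ := (Ioo_subset_Ioo_iff (hlt i)).1 hsub
      have hli := hlen i
      have hlti := hlt i
      by_cases hc : a < α i
      · refine ⟨α i, ⟨hc, by linarith⟩, fun hO' => ?_, fun x hx => ?_⟩
        · apply left_notMem α γ hlt hd i
          rw [← hU]
          exact ⟨hO', hc, by linarith⟩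
        · rw [abs_le]
          exact ⟨by linarith [hx.1, hx.2], by linarith [hx.1, hx.2]⟩
      · have hc' : α i = a := le_antisymm (not_lt.1 hc) ha
        refine ⟨γ i, ⟨by linarith, by linarith⟩, fun hO' => ?_, fun x hx => ?_⟩
        · apply right_notMem α γ hlt hd i
          rw [← hU]
          exact ⟨hO', by linarith, by linarith⟩
        · rw [abs_le]
          exact ⟨by linarith [hx.1, hx.2], by linarith [hx.1, hx.2]⟩
    calc Φ a s ≤ C * ENNReal.ofReal s + ∑' i, Φ (α i) (γ i - α i) :=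
          hall ι hι α γ hlt hU hx'
      _ ≤ C * ENNReal.ofReal s + ∑' i, 2 * C * ENNReal.ofReal (γ i - α i) :=
          add_le_add le_rfl (ENNReal.tsum_le_tsum fun i => hT _ _ ((hlen i).trans hhalf))
      _ = C * ENNReal.ofReal s + 2 * C * ∑' i, ENNReal.ofReal (γ i - α i) := by
          rw [ENNReal.tsum_mul_left]
      _ ≤ C * ENNReal.ofReal s + 2 * C * ENNReal.ofReal (s / 2) := by
          gcongr
      _ = 2 * C * ENNReal.ofReal s := by
          rw [half C s]
          ring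

end Stop

theorem stStop (hComps : Crit.StComps) : StStop := by
  intro Φ δ C hδ h0 h1
  have key : ∀ (k : ℕ) (a s : ℝ), s ≤ 2 ^ k * δ → Φ a s ≤ 2 * C * ENNReal.ofReal s := by
    intro k
    induction k with
    | zero =>
      intro a s hs
      rw [h0 a s (by simpa using hs)]
      exact zero_le
    | succ k ih =>
      intro a s hs
      exact Stop.step hComps Φ δ C hδ h0 h1 (2 ^ k * δ) ih a s (by rw [pow_succ] at hs; linarith)
  intro a s
  obtain ⟨k, hk⟩ := pow_unbounded_of_one_lt (s / δ) (by norm_num : (1 : ℝ) < 2)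
  refine key k a s ?_
  rw [div_lt_iff₀ hδ] at hk
  exact hk.le

end Pool.Agent.Work.MP_055a27_an.Cr3

end

section

set_option autoImplicit false

/-!
# The low part of the area function, all apertures
-/

open MeasureTheory Set Filter Topology Complex Metric
open scoped ENNReal NNReal

namespace Pool.Agent.Work.MP_055a27_an.Cr3

namespace Low2

lemma lin_eq {f : ℝ → ℝ} (hf : Admissible f) {lam R m0 p la : ℝ} {U : ℝ → ℝ} (hp : 0 < p)
    (hS : MeasurableSet (SS la R m0 U)) (x : ℝ) :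
    (∫⁻ q in cone lam x ∩ SS la R m0 U,
      ENNReal.ofReal (gradSq f q.1 q.2)) ^ (p / 2) =
    ⨆ m, ((ALK (schw f) lam (SS la R m0 U) m x) ^ (1 / 2 : ℝ)) ^ p := by
  have e2 : ∫⁻ q in cone lam x ∩ SS la R m0 U,
      ENNReal.ofReal (gradSq f q.1 q.2) =
      ⨆ m, ALK (schw f) lam (SS la R m0 U) m x := by
    rw [LowP.iSup_ALK hS]
    apply setLIntegral_congr_fun ((measurableSet_cone lam x).inter hS)
    intro q hq
    simp only
    rw [gradSq_eq hf hq.1.2]
    unfold gsq
    rw [(hasDerivAt_schw hf (mem_uhp (z := q.1) hq.1.2)).deriv]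
  rw [e2, iSup_rpow' (by positivity)]
  apply iSup_congr
  intro m
  rw [← ENNReal.rpow_mul]
  congr 1
  ring

end Low2

open Low2 in
theorem stLow2 (hSMeas : StSMeas) (hAinf2 : StAinf2) (hGL : StGL) (hAbs : StAbs) : StLow2 := by
  intro lam la μ R b p m0 U hlam hlb hp hR hm0 hyp
  obtain ⟨hla, hlaμ, hWt, hSh⟩ := hyp
  set S : Set (ℝ × ℝ) := SS la R m0 U with hSdef
  have hS : MeasurableSet S := hSMeas la R m0 U hla hR hWt
  obtain ⟨R', C, ε, hR', hC, hε, hA⟩ :=
    hAinf2 la μ R m0 lam U ⟨hla, hlaμ, hWt, hSh⟩ hR hm0 hlam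
  obtain ⟨K, c1, hK, hc1, hgl⟩ := hGL lam R' b C ε hlam hR' hlb hC hε
  have hsf : SFinite (wm U) := by unfold wm; infer_instance
  obtain ⟨A, hAb⟩ := hAbs lam b p hlam (hlam.trans hlb) hp (wm U) hsf S hS
    (wm_Icc_lt_top hWt.1) (by
      intro δ hδ
      obtain ⟨γ, hγ, hγc, hγδ⟩ := exists_gamma hC hε hK hc1 hδ
      refine ⟨γ, hγ, ?_⟩
      intro F hF m s hs
      refine (hgl (wm U) S hS (fun q hq _ E hE hEs => hA q hq E hE hEs) F hF m s γ
        hs hγ hγc).trans ?_
      gcongr)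
  refine ⟨A, fun f hf => ?_⟩
  rw [lintegral_mul_weight_univ hWt.1, lintegral_mul_weight_univ hWt.1]
  have e2 : ∀ x, ntMax b f x = NT (schw f) b x := fun x => ntMax_eq hf
  have e3 : ∀ x, (∫⁻ q in cone lam x ∩ S,
      ENNReal.ofReal (gradSq f q.1 q.2)) ^ (p / 2) =
      ⨆ m, ((ALK (schw f) lam S m x) ^ (1 / 2 : ℝ)) ^ p := fun x => lin_eq hf hp hS x
  simp only [e2, e3]
  rw [lintegral_iSup]
  · exact iSup_le fun m => hAb _ (schw_diff hf) m
  · intro m
    exact ((LowP.measurable_ALK (schw f) lam hS m).pow_const _).pow_const _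
  · intro m n hmn x
    simp only
    have := LowP.ALK_mono (F := schw f) (lam := lam) (x := x) (S := S) hmn
    simp only at this
    gcongr

end Pool.Agent.Work.MP_055a27_an.Cr3

end
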