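import Pool.Agent.Work.MP_055a27_an.Cr3.Stmts2
import Pool.Agent.Work.MP_055a27_an.Bd.B08
import Pool.Agent.Work.MP_055a27_an.Bd.B06

/-! Bundle of small proof modules (one section per former module). -/

section

/-!
# Item H3r: the high part of the area function with general exponents, by duality
-/

open MeasureTheory Set Filter Topology Complex Metric
open scoped ENNReal NNReal

namespace Pool.Agent.Work.MP_055a27_an.Cr3

open Crit (lg cc CC Pk hU)
open Nv (mx)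

namespace H3r

open H3 (conj holder_shadow)

lemma real_id {g y C c s s' : ℝ} {N : ℕ} (hy : 0 < y) (hC : 0 < C) (hr : 1 / s + 1 / s' = 1) :
    (g ^ N / y ^ 2) * y ^ (1 / s) * (C * y * Real.exp (-(c * g))) ^ (1 / s') =
      C ^ (1 / s') * (g ^ N * Real.exp (-(c / s' * g)) / y) := by
  rw [Real.mul_rpow (by positivity) (Real.exp_pos _).le, Real.mul_rpow hC.le hy.le,
    ← Real.exp_mul]
  have e1 : -(c * g) * (1 / s') = -(c / s' * g) := by ring
  have e2 : y ^ (1 / s) * y ^ (1 / s') = y := by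
    rw [← Real.rpow_add hy, hr, Real.rpow_one]
  rw [e1]
  calc (g ^ N / y ^ 2) * y ^ (1 / s) * (C ^ (1 / s') * y ^ (1 / s') * Real.exp (-(c / s' * g)))
      = C ^ (1 / s') * ((g ^ N / y ^ 2) * (y ^ (1 / s) * y ^ (1 / s')) *
        Real.exp (-(c / s' * g))) := by ring
    _ = _ := by rw [e2]; field_simp

lemma pow_exp (N : ℕ) (c : ℝ) (hc : 0 < c) : ∃ K : ℝ, 0 < K ∧ ∀ g : ℝ, 1 ≤ g →
    g ^ N * Real.exp (-(c * g)) ≤ K * (g ^ 2 * Real.exp (-(c / 2 * g))) := by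
  refine ⟨(N.factorial : ℝ) * (2 / c) ^ N, by positivity, fun g hg => ?_⟩
  have h1 := Real.pow_div_factorial_le_exp (c / 2 * g) (by positivity) N
  rw [div_le_iff₀ (by positivity), mul_pow] at h1
  have h2 : g ^ N ≤ (N.factorial : ℝ) * (2 / c) ^ N * Real.exp (c / 2 * g) := by
    have h3 : (2 / c) ^ N * ((c / 2) ^ N * g ^ N) = g ^ N := by
      rw [← mul_assoc, ← mul_pow]
      have : 2 / c * (c / 2) = 1 := by field_simp
      rw [this, one_pow, one_mul]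
    calc g ^ N = (2 / c) ^ N * ((c / 2) ^ N * g ^ N) := h3.symm
      _ ≤ (2 / c) ^ N * (Real.exp (c / 2 * g) * N.factorial) :=
        mul_le_mul_of_nonneg_left h1 (by positivity)
      _ = _ := by ring
  have h4 : Real.exp (-(c * g)) = Real.exp (-(c / 2 * g)) * Real.exp (-(c / 2 * g)) := by
    rw [← Real.exp_add]
    congr 1
    ring
  have h5 : Real.exp (c / 2 * g) * Real.exp (-(c / 2 * g)) = 1 := by
    rw [← Real.exp_add, add_neg_cancel, Real.exp_zero]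
  calc g ^ N * Real.exp (-(c * g))
      ≤ (N.factorial : ℝ) * (2 / c) ^ N * Real.exp (c / 2 * g) * Real.exp (-(c * g)) :=
        mul_le_mul_of_nonneg_right h2 (Real.exp_pos _).le
    _ = (N.factorial : ℝ) * (2 / c) ^ N * (Real.exp (c / 2 * g) * Real.exp (-(c / 2 * g))) *
        Real.exp (-(c / 2 * g)) := by rw [h4]; ring
    _ = (N.factorial : ℝ) * (2 / c) ^ N * (1 * Real.exp (-(c / 2 * g))) := by rw [h5]; ring
    _ ≤ (N.factorial : ℝ) * (2 / c) ^ N * (g ^ 2 * Real.exp (-(c / 2 * g))) := by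
        refine mul_le_mul_of_nonneg_left (mul_le_mul_of_nonneg_right ?_ (Real.exp_pos _).le)
          (by positivity)
        nlinarith

/-- The pointwise estimate. -/
lemma point {U : ℝ → ℝ} {W φ : ℝ → ℝ≥0∞} (hW : Measurable W) (hφ : Measurable φ)
    (hWU : W =ᵐ[volume] fun x => ENNReal.ofReal (U x)) {q0 p s s' ε lam la C c g h y z ρ : ℝ} {N : ℕ}
    (P : ℝ≥0∞) (hρ : 0 < ρ) (hg : 0 ≤ g)
    (hq : 1 < q0) (hp : p = ρ * q0) (hε : 0 < ε) (hr' : s' = q0 * (1 + ε))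
    (hr : s = s' / (s' - 1)) (hlam : lam < la) (hy : 0 < y) (hC : 0 < C)
    (hI : ∫⁻ t in Icc (z - la * y) (z + la * y), (ENNReal.ofReal (U t * Real.exp (-h))) ^ (1 + ε) ≤
      ENNReal.ofReal (C * y * Real.exp (-(c * g)))) :
    ENNReal.ofReal ((g ^ N / y ^ 2) * Real.exp (-(ρ * h / p))) * P ^ ρ *
      ∫⁻ x in Icc (z - lam * y) (z + lam * y), φ x * W x ≤
    ENNReal.ofReal (C ^ (1 / s')) * ((P ^ ρ * ((ENNReal.ofReal y)⁻¹ *
      ∫⁻ x in Icc (z - lam * y) (z + lam * y), (φ x * W x ^ ((q0 - 1) / q0)) ^ s) ^ (1 / s)) *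
      ENNReal.ofReal (g ^ N * Real.exp (-(c / s' * g)) / y)) := by
  have hq0 : 0 < q0 := by linarith
  have hr'0 : 0 < s' := by rw [hr']; positivity
  have hr'1 : 1 < s' := by rw [hr']; nlinarith
  have hc : s.HolderConjugate s' := by
    rw [hr, hr']; exact conj hq hε
  have hr0 : 0 < s := hc.pos
  have hsum : 1 / s + 1 / s' = 1 := by
    have := hc.inv_add_inv_eq_one
    rw [one_div, one_div]; exact this
  set I := Icc (z - lam * y) (z + lam * y) with hIdef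
  set B := ∫⁻ x in I, (φ x * W x ^ ((q0 - 1) / q0)) ^ s with hB
  set D := ∫⁻ x in I, W x ^ (1 + ε) with hD
  have h1 : ∫⁻ x in I, φ x * W x ≤ B ^ (1 / s) * D ^ (1 / s') :=
    holder_shadow hW hφ hq hε hr' hr I
  have h2 : ENNReal.ofReal (Real.exp (-h)) ^ (1 + ε) * D ≤
      ENNReal.ofReal (C * y * Real.exp (-(c * g))) := by
    refine le_trans ?_ hI
    rw [hD, ← lintegral_const_mul _ (hW.pow_const _)]
    have hsub : I ⊆ Icc (z - la * y) (z + la * y) := by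
      apply Icc_subset_Icc <;> nlinarith
    refine le_trans (lintegral_mono_set hsub) (le_of_eq ?_)
    apply lintegral_congr_ae
    filter_upwards [ae_restrict_of_ae hWU] with x hx
    rw [hx, ENNReal.ofReal_mul' (Real.exp_pos _).le, mul_comm (ENNReal.ofReal (U x)),
      ENNReal.mul_rpow_of_nonneg _ _ (by linarith : (0 : ℝ) ≤ 1 + ε)]
  have h3 : ENNReal.ofReal (Real.exp (-(ρ * h / p))) * D ^ (1 / s') ≤
      ENNReal.ofReal ((C * y * Real.exp (-(c * g))) ^ (1 / s')) := by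
    rw [← ENNReal.ofReal_rpow_of_nonneg (by positivity) (by positivity)]
    refine le_trans (le_of_eq ?_) (ENNReal.rpow_le_rpow h2 (by positivity : (0 : ℝ) ≤ 1 / s'))
    rw [ENNReal.mul_rpow_of_nonneg _ _ (by positivity : (0 : ℝ) ≤ 1 / s'), ← ENNReal.rpow_mul,
      ENNReal.ofReal_rpow_of_nonneg (Real.exp_pos _).le (by positivity), ← Real.exp_mul]
    congr 3
    rw [hp, hr']
    field_simp
  have hy0 : ENNReal.ofReal y ≠ 0 := by
    rw [Ne, ENNReal.ofReal_eq_zero, not_le]; exact hy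
  have h4 : B ^ (1 / s) = ENNReal.ofReal (y ^ (1 / s)) * ((ENNReal.ofReal y)⁻¹ * B) ^ (1 / s) := by
    rw [← ENNReal.ofReal_rpow_of_nonneg hy.le (by positivity),
      ← ENNReal.mul_rpow_of_nonneg _ _ (by positivity : (0 : ℝ) ≤ 1 / s), ← mul_assoc,
      ENNReal.mul_inv_cancel hy0 ENNReal.ofReal_ne_top, one_mul]
  calc ENNReal.ofReal ((g ^ N / y ^ 2) * Real.exp (-(ρ * h / p))) * P ^ ρ * ∫⁻ x in I, φ x * W x
      ≤ ENNReal.ofReal ((g ^ N / y ^ 2) * Real.exp (-(ρ * h / p))) * P ^ ρ *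
        (B ^ (1 / s) * D ^ (1 / s')) := by gcongr
    _ = ENNReal.ofReal ((g ^ N / y ^ 2)) * P ^ ρ * B ^ (1 / s) *
        (ENNReal.ofReal (Real.exp (-(ρ * h / p))) * D ^ (1 / s')) := by
        rw [ENNReal.ofReal_mul (by positivity)]; ring
    _ ≤ ENNReal.ofReal ((g ^ N / y ^ 2)) * P ^ ρ * B ^ (1 / s) *
        ENNReal.ofReal ((C * y * Real.exp (-(c * g))) ^ (1 / s')) := by gcongr
    _ = (P ^ ρ * ((ENNReal.ofReal y)⁻¹ * B) ^ (1 / s)) * ENNReal.ofReal ((g ^ N / y ^ 2) *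
        y ^ (1 / s) * (C * y * Real.exp (-(c * g))) ^ (1 / s')) := by
        rw [h4, ENNReal.ofReal_mul (by positivity), ENNReal.ofReal_mul (by positivity)]; ring
    _ = _ := by
        rw [real_id hy hC hsum, ENNReal.ofReal_mul (by positivity)]; ring

lemma holder_mx {f1 f2 : ℝ → ℝ≥0∞} (h1 : Measurable f1) (h2 : Measurable f2) {q0 p s ρ : ℝ}
    (hq : 1 < q0) (hp : p = ρ * q0) (hr : 0 < s) :
    ∫⁻ x, f1 x ^ ρ * f2 x ^ (1 / s) ≤ (∫⁻ x, f1 x ^ p) ^ (1 / q0) *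
      (∫⁻ x, f2 x ^ (q0 / (q0 - 1) / s)) ^ ((q0 - 1) / q0) := by
  have hq0 : 0 < q0 := by linarith
  have hq1 : 0 < q0 - 1 := by linarith
  have hc : q0.HolderConjugate (q0 / (q0 - 1)) := by
    rw [Real.holderConjugate_iff]
    refine ⟨hq, ?_⟩
    field_simp
    ring
  have h := ENNReal.lintegral_mul_le_Lp_mul_Lq (volume : Measure ℝ) hc
    (f := fun x => f1 x ^ ρ) (g := fun x => f2 x ^ (1 / s))
    (h1.pow_const _).aemeasurable (h2.pow_const _).aemeasurable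
  have e1 : ∀ x, (f1 x ^ ρ) ^ q0 = f1 x ^ p := by
    intro x
    rw [← ENNReal.rpow_mul, hp]
  have e2 : ∀ x, (f2 x ^ (1 / s)) ^ (q0 / (q0 - 1)) = f2 x ^ (q0 / (q0 - 1) / s) := by
    intro x
    rw [← ENNReal.rpow_mul]
    congr 1
    field_simp
  have e3 : 1 / (q0 / (q0 - 1)) = (q0 - 1) / q0 := by field_simp
  simp only [e1, e2, e3] at h
  exact h

end H3r

open H3r in
open H3 (dual meas_ext meas_Pk meas_shadow tonelli shadow_mx Pk_mx) in
theorem stH3r (hBas : StBas) (hHP : StHP) (hCE : StCE) (hInt : StInt) : StH3r := by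
  intro lam la μ p r N U hlam hlamla hHyp hp hr00 hrp
  obtain ⟨hla, hlaμ, hWt, hSh⟩ := id hHyp
  obtain ⟨ms, hms1, hHP'⟩ := hHP la μ U hHyp
  obtain ⟨ε, hε, hInt'⟩ := hInt la μ U hHyp
  obtain ⟨c, C, hc, hC, hI⟩ := hInt' ε hε le_rfl
  obtain ⟨q0, hq0p⟩ : ∃ q0, q0 = p / r := ⟨_, rfl⟩
  have hq : 1 < q0 := by rw [hq0p, lt_div_iff₀ hr00]; linarith
  have hp2 : p = r * q0 := by rw [hq0p]; field_simp
  have hq0 : 0 < q0 := by linarith
  have hq1 : 0 < q0 - 1 := by linarith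
  obtain ⟨s', hr'⟩ : ∃ s', s' = q0 * (1 + ε) := ⟨_, rfl⟩
  obtain ⟨s, hr⟩ : ∃ s, s = s' / (s' - 1) := ⟨_, rfl⟩
  have hr'q : q0 < s' := by rw [hr']; nlinarith
  have hr'0 : 0 < s' := by linarith
  have hr'1 : 0 < s' - 1 := by linarith
  have hr0 : 0 < s := by rw [hr]; positivity
  have hC0 : 0 < C := by linarith
  obtain ⟨CH, hCH, hHPc⟩ := hHP' (c / s' / 2) (by positivity)
  obtain ⟨KN, hKN0, hKN⟩ := pow_exp N (c / s') (by positivity)
  -- measurable versions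
  have hIW := hWt.1
  have hS0 : MeasurableSet {q : ℝ × ℝ | 0 < q.2 ∧ ms ≤ gg la U q.1 q.2} :=
    (((hBas.2.1 la U hla hWt).2.2) ms).2
  set S0 := {q : ℝ × ℝ | 0 < q.2 ∧ ms ≤ gg la U q.1 q.2} with hS0def
  obtain ⟨g', hg'm, hg'⟩ := meas_ext (hBas.2.1 la U hla hWt).1
  obtain ⟨h', hh'm, hh'⟩ := meas_ext (Crit.stPCont (lg U) hWt.2.2)
  have hUm : AEMeasurable (fun x => ENNReal.ofReal (U x)) volume := weight_ofReal_aemeas hIW
  obtain ⟨W, hWm, hUW⟩ : ∃ W : ℝ → ℝ≥0∞, Measurable W ∧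
      W =ᵐ[volume] fun x => ENNReal.ofReal (U x) := ⟨hUm.mk, hUm.measurable_mk, hUm.ae_eq_mk.symm⟩
  -- the density
  have hw : Measurable (S0.indicator (fun q : ℝ × ℝ =>
      ENNReal.ofReal (KN * ((g' q) ^ 2 * Real.exp (-(c / s' / 2 * g' q)) / q.2)))) := by
    apply Measurable.indicator _ hS0
    apply ENNReal.measurable_ofReal.comp
    exact (((hg'm.pow_const 2).mul (Real.measurable_exp.comp (hg'm.const_mul _).neg)).div
      measurable_snd).const_mul _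
  set w := S0.indicator (fun q : ℝ × ℝ =>
      ENNReal.ofReal (KN * ((g' q) ^ 2 * Real.exp (-(c / s' / 2 * g' q)) / q.2))) with hwdef
  have hbox : ∀ a s : ℝ, 0 < s → ∫⁻ q in Icc a (a + s) ×ˢ Ioc 0 s, w q ≤
      ((KN * CH).toNNReal : ℝ≥0∞) * ENNReal.ofReal s := by
    intro a t ht
    have h1 := hHPc a t ht
    have e : ((KN * CH).toNNReal : ℝ≥0∞) * ENNReal.ofReal t =
        ENNReal.ofReal KN * ENNReal.ofReal (CH * t) := by
      rw [← ENNReal.ofReal_mul hKN0.le, ← mul_assoc,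
        ENNReal.ofReal_mul (mul_nonneg hKN0.le (by linarith))]
      rfl
    rw [e]
    refine le_trans (le_of_eq ?_) (mul_le_mul_right h1 (ENNReal.ofReal KN))
    rw [hwdef, setLIntegral_indicator hS0, ← lintegral_const_mul' _ _ ENNReal.ofReal_ne_top]
    have e2 : S0 ∩ Icc a (a + t) ×ˢ Ioc 0 t = {q : ℝ × ℝ | q.1 ∈ Icc a (a + t) ∧ 0 < q.2 ∧
        q.2 ≤ t ∧ ms ≤ gg la U q.1 q.2} := by
      ext q
      simp only [hS0def, mem_inter_iff, mem_ofPred_eq, mem_prod, mem_Ioc]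
      tauto
    have hm2 : MeasurableSet {q : ℝ × ℝ | q.1 ∈ Icc a (a + t) ∧ 0 < q.2 ∧
        q.2 ≤ t ∧ ms ≤ gg la U q.1 q.2} := by
      rw [← e2]
      exact hS0.inter (measurableSet_Icc.prod measurableSet_Ioc)
    rw [e2]
    apply setLIntegral_congr_fun hm2
    intro q hq'
    show ENNReal.ofReal (KN * ((g' q) ^ 2 * Real.exp (-(c / s' / 2 * g' q)) / q.2)) =
      ENNReal.ofReal KN * ENNReal.ofReal ((gg la U q.1 q.2) ^ 2 *
        Real.exp (-(c / s' / 2 * gg la U q.1 q.2)) / q.2)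
    rw [hg' q hq'.2.1, ENNReal.ofReal_mul hKN0.le]
  obtain ⟨CE, hCE'⟩ := hCE w (KN * CH).toNNReal 1 one_pos hw hbox
  obtain ⟨C1, hC1⟩ := Nv.I_HL p (by linarith)
  have hqr : 1 < q0 / (q0 - 1) / s := by
    rw [hr]
    have e : q0 / (q0 - 1) / (s' / (s' - 1)) = (q0 * (s' - 1)) / ((q0 - 1) * s') := by
      field_simp
    rw [e, lt_div_iff₀ (by positivity)]
    nlinarith
  obtain ⟨C2, hC2⟩ := Nv.I_HL (q0 / (q0 - 1) / s) hqr
  obtain ⟨C3, hC3⟩ := Nv.I_Pk 1 one_pos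
  -- the constants
  obtain ⟨K1, hK1⟩ : ∃ K1 : ℝ≥0, (K1 : ℝ≥0∞) = ENNReal.ofReal (C ^ (1 / s')) * (CE *
      ((ENNReal.ofReal Real.pi * C3) ^ r * (ENNReal.ofReal (2 * (lam + 2))) ^ (1 / s))) := by
    refine ⟨(ENNReal.ofReal (C ^ (1 / s')) * (CE *
      ((ENNReal.ofReal Real.pi * C3) ^ r *
      (ENNReal.ofReal (2 * (lam + 2))) ^ (1 / s)))).toNNReal, ?_⟩
    apply ENNReal.coe_toNNReal
    apply ENNReal.mul_ne_top ENNReal.ofReal_ne_top
    apply ENNReal.mul_ne_top ENNReal.coe_ne_top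
    apply ENNReal.mul_ne_top
    · apply ENNReal.rpow_ne_top_of_nonneg hr00.le
      exact ENNReal.mul_ne_top ENNReal.ofReal_ne_top ENNReal.coe_ne_top
    · exact ENNReal.rpow_ne_top_of_nonneg (by positivity) ENNReal.ofReal_ne_top
  obtain ⟨K2, hK2⟩ : ∃ K2 : ℝ≥0, (K2 : ℝ≥0∞) = (K1 : ℝ≥0∞) ^ q0 * C1 *
      ((C2 : ℝ≥0∞) ^ ((q0 - 1) / q0)) ^ q0 := by
    refine ⟨((K1 : ℝ≥0∞) ^ q0 * C1 * ((C2 : ℝ≥0∞) ^ ((q0 - 1) / q0)) ^ q0).toNNReal, ?_⟩
    apply ENNReal.coe_toNNReal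
    apply ENNReal.mul_ne_top
    · apply ENNReal.mul_ne_top _ ENNReal.coe_ne_top
      exact ENNReal.rpow_ne_top_of_nonneg hq0.le ENNReal.coe_ne_top
    · apply ENNReal.rpow_ne_top_of_nonneg hq0.le
      apply ENNReal.rpow_ne_top_of_nonneg (by positivity) ENNReal.coe_ne_top
  refine ⟨ms, hms1, K2, fun k0 hk0 => ?_⟩
  -- measurable version of `k`
  obtain ⟨k, hkm, hkk⟩ : ∃ k : ℝ → ℝ≥0∞, Measurable k ∧ k0 =ᵐ[volume] k :=
    ⟨hk0.mk, hk0.measurable_mk, hk0.ae_eq_mk⟩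
  have hPkk : ∀ z y : ℝ, Pk k0 z y = Pk k z y := by
    intro z y
    unfold Pk
    apply lintegral_congr_ae
    filter_upwards [hkk] with t ht
    rw [ht]
  have hNk : ∫⁻ x, (k0 x) ^ p = ∫⁻ x, (k x) ^ p := by
    apply lintegral_congr_ae
    filter_upwards [hkk] with t ht
    rw [ht]
  rw [hNk]
  -- the integrand
  set A : ℝ × ℝ → ℝ≥0∞ := fun q => ENNReal.ofReal ((g' q) ^ N / q.2 ^ 2 *
      Real.exp (-(r * h' q / p))) * (Pk k q.1 q.2) ^ r with hA
  have hAm : Measurable A := by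
    apply Measurable.mul
    · apply ENNReal.measurable_ofReal.comp
      exact ((hg'm.pow_const N).div (measurable_snd.pow_const 2)).mul
        (Real.measurable_exp.comp ((hh'm.const_mul r).div_const p).neg)
    · exact (meas_Pk hkm).pow_const r
  have hX : ∀ x : ℝ, ZZ p r lam la ms N U k0 x =
      ∫⁻ q in {q : ℝ × ℝ | |x - q.1| ≤ lam * q.2} ∩ S0, A q := by
    intro x
    unfold ZZ
    have e : cone lam x ∩ {q : ℝ × ℝ | ms ≤ gg la U q.1 q.2} =
        {q : ℝ × ℝ | |x - q.1| ≤ lam * q.2} ∩ S0 := by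
      ext q
      simp only [cone, hS0def, mem_inter_iff, mem_ofPred_eq]
      tauto
    have hm : MeasurableSet ({q : ℝ × ℝ | |x - q.1| ≤ lam * q.2} ∩ S0) := by
      refine MeasurableSet.inter ?_ hS0
      apply measurableSet_le
      · exact (measurable_const.sub measurable_fst).abs
      · exact measurable_const.mul measurable_snd
    rw [e]
    apply setLIntegral_congr_fun hm
    intro q hq'
    show _ = A q
    rw [hA]
    simp only
    rw [hg' q hq'.2.1, hh' q hq'.2.1, hPkk]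
  simp only [hX]
  rw [lintegral_mul_weight_univ hIW, ← hq0p]
  have hXm := (tonelli (lam := lam) hS0 hAm (measurable_const (a := (1 : ℝ≥0∞))) hIW).1
  set Nk := ∫⁻ x, (k x) ^ p with hNk2
  have hdual := dual (wm U) (fun a c => wm_Icc_lt_top hIW a c) _ hXm hq
    ((K1 : ℝ≥0∞) * (C1 * Nk) ^ (1 / q0) * (C2 : ℝ≥0∞) ^ ((q0 - 1) / q0)) ?_
  · refine hdual.trans (le_of_eq ?_)
    rw [ENNReal.mul_rpow_of_nonneg _ _ hq0.le, ENNReal.mul_rpow_of_nonneg _ _ hq0.le,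
      ← ENNReal.rpow_mul (_ * Nk), one_div, inv_mul_cancel₀ hq0.ne', ENNReal.rpow_one, hK2]
    ring
  · intro φ hφ
    rw [(tonelli (lam := lam) hS0 hAm hφ hIW).2]
    set Ψ : ℝ → ℝ≥0∞ := fun x => (φ x * W x ^ ((q0 - 1) / q0)) ^ s with hΨ
    have hΨm : Measurable Ψ := (hφ.mul (hWm.pow_const _)).pow_const _
    set H : ℝ × ℝ → ℝ≥0∞ := fun q => (Pk k q.1 q.2) ^ r * ((ENNReal.ofReal q.2)⁻¹ *
      ∫⁻ x in Icc (q.1 - lam * q.2) (q.1 + lam * q.2), Ψ x) ^ (1 / s) with hH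
    have hHm : Measurable H := by
      apply Measurable.mul
      · exact (meas_Pk hkm).pow_const r
      · apply Measurable.pow_const
        exact (ENNReal.measurable_ofReal.comp measurable_snd).inv.mul (meas_shadow hΨm lam)
    have s1 : ∫⁻ q in S0, A q * ∫⁻ x in Icc (q.1 - lam * q.2) (q.1 + lam * q.2),
        φ x * ENNReal.ofReal (U x) ≤
        ENNReal.ofReal (C ^ (1 / s')) * ∫⁻ q in {q : ℝ × ℝ | 0 < q.2}, H q * w q := by
      rw [← lintegral_const_mul' _ _ ENNReal.ofReal_ne_top]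
      have hsub : S0 ⊆ {q : ℝ × ℝ | 0 < q.2} := fun q hq' => hq'.1
      refine le_trans ?_ (lintegral_mono_set hsub)
      apply setLIntegral_mono' hS0
      intro q hq'
      have e : ∫⁻ x in Icc (q.1 - lam * q.2) (q.1 + lam * q.2), φ x * ENNReal.ofReal (U x) =
          ∫⁻ x in Icc (q.1 - lam * q.2) (q.1 + lam * q.2), φ x * W x := by
        apply lintegral_congr_ae
        filter_upwards [ae_restrict_of_ae hUW] with x hx
        rw [hx]
      rw [e]
      have hg1 : 1 ≤ gg la U q.1 q.2 := hms1.trans hq'.2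
      have h1 := point (φ := φ) (N := N) hWm hφ hUW (Pk k q.1 q.2) hr00 (by linarith) hq hp2 hε
        hr' hr hlamla hq'.1 hC0 (hI q.1 q.2 hq'.1)
      have e3 : ENNReal.ofReal ((gg la U q.1 q.2) ^ N *
          Real.exp (-(c / s' * gg la U q.1 q.2)) / q.2) ≤ w q := by
        rw [hwdef, indicator_of_mem hq', hg' q hq'.1]
        apply ENNReal.ofReal_le_ofReal
        rw [← mul_div_assoc]
        exact div_le_div_of_nonneg_right (hKN _ hg1) hq'.1.le
      have e4 : A q = ENNReal.ofReal ((gg la U q.1 q.2) ^ N / q.2 ^ 2 *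
          Real.exp (-(r * poisson (lg U) q.1 q.2 / p))) * (Pk k q.1 q.2) ^ r := by
        rw [hA]
        simp only
        rw [hg' q hq'.1, hh' q hq'.1]
      rw [e4]
      refine h1.trans ?_
      gcongr
    have s2 : ∫⁻ x, ⨆ (z : ℝ) (y : ℝ) (_ : 0 < y ∧ |x - z| < 1 * y), H (z, y) ≤
        ∫⁻ x, ((ENNReal.ofReal Real.pi * C3) ^ r *
          (ENNReal.ofReal (2 * (lam + 2))) ^ (1 / s)) * ((mx k x) ^ r * (mx Ψ x) ^ (1 / s)) := by
      apply lintegral_mono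
      intro x
      apply iSup_le
      intro z
      apply iSup₂_le
      intro y hy
      have h1 := Pk_mx hkm hC3 hy.1 hy.2
      have h2 := shadow_mx Ψ hlam hy.1 hy.2
      have hr1 : (0 : ℝ) ≤ 1 / s := by positivity
      calc H (z, y) ≤ (ENNReal.ofReal Real.pi * C3 * mx k x) ^ r *
            (ENNReal.ofReal (2 * (lam + 2)) * mx Ψ x) ^ (1 / s) := by
            rw [hH]
            simp only
            gcongr
        _ = _ := by
            rw [ENNReal.mul_rpow_of_nonneg _ _ hr1, ENNReal.mul_rpow_of_nonneg _ _ hr00.le]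
            ring
    have hmk : Measurable (mx k) := (hC1 k hkm.aemeasurable).1
    have hmΨ : Measurable (mx Ψ) := (hC2 Ψ hΨm.aemeasurable).1
    have s3 := holder_mx (ρ := r) hmk hmΨ hq hp2 hr0
    have s4 : ∫⁻ x, (mx k x) ^ p ≤ C1 * Nk := (hC1 k hkm.aemeasurable).2
    have s5 : ∫⁻ x, (mx Ψ x) ^ (q0 / (q0 - 1) / s) ≤
        C2 * ∫⁻ x, (φ x) ^ (q0 / (q0 - 1)) ∂(wm U) := by
      refine ((hC2 Ψ hΨm.aemeasurable).2).trans (le_of_eq ?_)
      congr 1
      rw [← lintegral_mul_weight_univ hIW]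
      apply lintegral_congr_ae
      filter_upwards [hUW] with x hx
      rw [← hx, hΨ]
      simp only
      rw [← ENNReal.rpow_mul, show s * (q0 / (q0 - 1) / s) = q0 / (q0 - 1) by field_simp,
        ENNReal.mul_rpow_of_nonneg _ _ (by positivity : (0 : ℝ) ≤ q0 / (q0 - 1)),
        ← ENNReal.rpow_mul, show (q0 - 1) / q0 * (q0 / (q0 - 1)) = 1 by field_simp,
        ENNReal.rpow_one]
    have hprod : Measurable fun x => (mx k x) ^ r * (mx Ψ x) ^ (1 / s) :=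
      (hmk.pow_const r).mul (hmΨ.pow_const _)
    calc ∫⁻ q in S0, A q * ∫⁻ x in Icc (q.1 - lam * q.2) (q.1 + lam * q.2),
          φ x * ENNReal.ofReal (U x)
        ≤ ENNReal.ofReal (C ^ (1 / s')) * ∫⁻ q in {q : ℝ × ℝ | 0 < q.2}, H q * w q := s1
      _ ≤ ENNReal.ofReal (C ^ (1 / s')) * (CE * ∫⁻ x, ⨆ (z : ℝ) (y : ℝ)
          (_ : 0 < y ∧ |x - z| < 1 * y), H (z, y)) := by
          gcongr
          exact hCE' H hHm
      _ ≤ ENNReal.ofReal (C ^ (1 / s')) * (CE * ∫⁻ x, ((ENNReal.ofReal Real.pi * C3) ^ r *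
          (ENNReal.ofReal (2 * (lam + 2))) ^ (1 / s)) * ((mx k x) ^ r * (mx Ψ x) ^ (1 / s))) := by
          gcongr
      _ = K1 * ∫⁻ x, (mx k x) ^ r * (mx Ψ x) ^ (1 / s) := by
          rw [lintegral_const_mul _ hprod, hK1]
          ring
      _ ≤ K1 * ((∫⁻ x, mx k x ^ p) ^ (1 / q0) *
          (∫⁻ x, mx Ψ x ^ (q0 / (q0 - 1) / s)) ^ ((q0 - 1) / q0)) := by
          gcongr
      _ ≤ K1 * ((C1 * Nk) ^ (1 / q0) *
          (C2 * ∫⁻ x, (φ x) ^ (q0 / (q0 - 1)) ∂(wm U)) ^ ((q0 - 1) / q0)) := by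
          gcongr
      _ = _ := by
          rw [ENNReal.mul_rpow_of_nonneg _ _ (by positivity : (0 : ℝ) ≤ (q0 - 1) / q0)]
          ring

end Pool.Agent.Work.MP_055a27_an.Cr3

end

section

/-! Project MP_055a27_an, module Cr3, item SuffB: sufficiency for all apertures `lam < b`. -/

set_option autoImplicit false

open MeasureTheory Set Filter Topology Complex Metric
open scoped ENNReal NNReal

namespace Pool.Agent.Work.MP_055a27_an.Cr3

open Crit (lg cc CC Pk hU)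
open Nv (mx)

namespace SuffB

lemma add_rpow_le {A B : ℝ≥0∞} {s : ℝ} (hs : 0 ≤ s) :
    (A + B) ^ s ≤ 2 ^ s * (A ^ s + B ^ s) := by
  rcases le_total A B with h | h
  · calc (A + B) ^ s ≤ (2 * B) ^ s := by
          apply ENNReal.rpow_le_rpow _ hs
          rw [two_mul]
          exact add_le_add h le_rfl
      _ = 2 ^ s * B ^ s := ENNReal.mul_rpow_of_nonneg _ _ hs
      _ ≤ 2 ^ s * (A ^ s + B ^ s) := mul_le_mul' le_rfl le_add_self
  · calc (A + B) ^ s ≤ (2 * A) ^ s := by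
          apply ENNReal.rpow_le_rpow _ hs
          rw [two_mul]
          exact add_le_add le_rfl h
      _ = 2 ^ s * A ^ s := ENNReal.mul_rpow_of_nonneg _ _ hs
      _ ≤ 2 ^ s * (A ^ s + B ^ s) := mul_le_mul' le_rfl le_self_add

/-- `SS` is relatively closed in the half plane, hence measurable. -/
lemma meas_SS {la R m0 : ℝ} {U : ℝ → ℝ} (hla : 0 < la) (hR : 0 < R) (hW : Wt U) :
    MeasurableSet (SS la R m0 U) := by
  have hgg := (stBas.2.1 la U hla hW).1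
  have hHm : MeasurableSet {q : ℝ × ℝ | 0 < q.2} := (stBas.2.1 la U hla hW).2.1
  set H : Set (ℝ × ℝ) := {q | 0 < q.2} with hH
  set K : Set (ℝ × ℝ) := Icc (-1 : ℝ) 1 ×ˢ Icc (1 / 2 : ℝ) 2 with hK
  have : CompactSpace K := isCompact_iff_compactSpace.mp (isCompact_Icc.prod isCompact_Icc)
  let φ : H × K → ℝ × ℝ := fun z =>
    ((z.1 : ℝ × ℝ).1 + (z.2 : ℝ × ℝ).1 * R * (z.1 : ℝ × ℝ).2,
      (z.2 : ℝ × ℝ).2 * (z.1 : ℝ × ℝ).2)
  have hφ : Continuous φ := by fun_prop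
  have hφH : ∀ z, φ z ∈ H := by
    rintro ⟨⟨q, hq⟩, ⟨s, hs⟩⟩
    have h1 : (0 : ℝ) < q.2 := hq
    have h2 : (1 / 2 : ℝ) ≤ s.2 := hs.2.1
    show 0 < s.2 * q.2
    have h3 : (0 : ℝ) < s.2 := by linarith
    exact mul_pos h3 h1
  have hF : Continuous (fun z : H × K => gg la U (φ z).1 (φ z).2) :=
    hgg.comp_continuous hφ hφH
  have hcl : IsClosed {z : H × K | gg la U (φ z).1 (φ z).2 ≤ m0} :=
    isClosed_le hF continuous_const
  have himg : IsClosed (Prod.fst '' {z : H × K | gg la U (φ z).1 (φ z).2 ≤ m0}) :=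
    isClosedMap_fst_of_compactSpace _ hcl
  have hset : SS la R m0 U =
      Subtype.val '' (Prod.fst '' {z : H × K | gg la U (φ z).1 (φ z).2 ≤ m0}) := by
    ext q
    constructor
    · rintro ⟨hq, w, h1, h2, h3, h4⟩
      have hsK : (((w.1 - q.1) / (R * q.2), w.2 / q.2) : ℝ × ℝ) ∈ K := by
        have hRq : 0 < R * q.2 := mul_pos hR hq
        rw [abs_le] at h1
        refine ⟨⟨?_, ?_⟩, ⟨?_, ?_⟩⟩
        · show (-1 : ℝ) ≤ (w.1 - q.1) / (R * q.2)
          rw [le_div_iff₀ hRq]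
          linarith [h1.1]
        · show (w.1 - q.1) / (R * q.2) ≤ 1
          rw [div_le_iff₀ hRq]
          linarith [h1.2]
        · show (1 / 2 : ℝ) ≤ w.2 / q.2
          rw [le_div_iff₀ hq]
          linarith
        · show w.2 / q.2 ≤ 2
          rw [div_le_iff₀ hq]
          exact h3
      refine ⟨⟨q, hq⟩, ⟨(⟨q, hq⟩, ⟨_, hsK⟩), ?_, rfl⟩, rfl⟩
      show gg la U (q.1 + (w.1 - q.1) / (R * q.2) * R * q.2) (w.2 / q.2 * q.2) ≤ m0
      have e1 : q.1 + (w.1 - q.1) / (R * q.2) * R * q.2 = w.1 := by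
        have hR' := hR.ne'
        have hq' := hq.ne'
        field_simp
        ring
      have e2 : w.2 / q.2 * q.2 = w.2 := div_mul_cancel₀ _ hq.ne'
      rw [e1, e2]
      exact h4
    · rintro ⟨q', ⟨⟨z, s⟩, hz, h2⟩, h3⟩
      have h2' : z = q' := h2
      subst h2'
      rw [← h3]
      obtain ⟨s, hs⟩ := s
      obtain ⟨z, hz0⟩ := z
      have hz1 : (0 : ℝ) < z.2 := hz0
      obtain ⟨⟨hs1, hs2⟩, ⟨hs3, hs4⟩⟩ := hs
      refine ⟨hz1, (z.1 + s.1 * R * z.2, s.2 * z.2), ?_, ?_, ?_, hz⟩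
      · show |z.1 + s.1 * R * z.2 - z.1| ≤ R * z.2
        have hRz : 0 < R * z.2 := mul_pos hR hz1
        rw [abs_le]
        constructor <;> nlinarith
      · show z.2 / 2 ≤ s.2 * z.2
        nlinarith
      · show s.2 * z.2 ≤ 2 * z.2
        nlinarith
  rw [hset]
  exact MeasurableSet.subtype_image hHm himg.measurableSet

lemma meas_A {lam : ℝ} {S : Set (ℝ × ℝ)} {f : ℝ → ℝ} (hS : MeasurableSet S)
    (hSH : ∀ q ∈ S, 0 < q.2) (hf : Admissible f) :
    Measurable (fun x : ℝ => ∫⁻ q in cone lam x ∩ S, ENNReal.ofReal (gradSq f q.1 q.2)) := by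
  have m1 : MeasurableSet {z : ℝ × (ℝ × ℝ) | |z.1 - z.2.1| ≤ lam * z.2.2} :=
    measurableSet_le (by fun_prop) (by fun_prop)
  have m2 : MeasurableSet {z : ℝ × (ℝ × ℝ) | z.2 ∈ S} := measurable_snd hS
  have h1 := (((measurable_gsq (schw f)).ennreal_ofReal.comp
    (measurable_snd (α := ℝ) (β := ℝ × ℝ))).indicator (m1.inter m2))
  have h2 := h1.lintegral_prod_right' (ν := volume)
  have hms : ∀ x : ℝ, MeasurableSet (cone lam x ∩ S) := fun x =>
    (measurableSet_cone lam x).inter hS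
  have h3 : (fun x : ℝ => ∫⁻ q in cone lam x ∩ S,
      ENNReal.ofReal (gradSq f q.1 q.2)) = fun x : ℝ => ∫⁻ q : ℝ × ℝ,
        (({z : ℝ × (ℝ × ℝ) | |z.1 - z.2.1| ≤ lam * z.2.2} ∩
          {z : ℝ × (ℝ × ℝ) | z.2 ∈ S}).indicator
          ((fun q => ENNReal.ofReal (gsq (schw f) q)) ∘ Prod.snd)) (x, q) := by
    funext x
    rw [← lintegral_indicator (hms x)]
    apply lintegral_congr
    intro q
    by_cases hq : q ∈ cone lam x ∩ S
    · rw [indicator_of_mem hq, indicator_of_mem]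
      · show ENNReal.ofReal (gradSq f q.1 q.2) = ENNReal.ofReal (gsq (schw f) q)
        rw [gradSq_eq hf hq.1.2]
        unfold gsq
        rw [(hasDerivAt_schw hf (mem_uhp (z := q.1) hq.1.2)).deriv]
      · exact ⟨hq.1.1, hq.2⟩
    · rw [indicator_of_notMem hq, indicator_of_notMem]
      intro h
      exact hq ⟨⟨h.1, hSH q h.2⟩, h.2⟩
  rw [h3]
  exact h2

end SuffB

theorem stSuffB (hLow2 : StLow2) (hHigh2 : StHigh2) : StSuffB := by
  intro lam b p μ U hlam hlb hp hμ hW hSh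
  obtain ⟨la, R, m0, hla, hlaμ, hR, hm0, CH, hH⟩ := hHigh2 lam b p μ U hlam hlb hp hμ hW hSh
  have hHyp : Hyp la μ U := ⟨hla, hlaμ, hW, hSh⟩
  have hp0 : 0 < p := by linarith
  obtain ⟨CL, hL⟩ := hLow2 lam la μ R b p m0 U hlam hlb hp0 hR hm0 hHyp
  refine ⟨2 ^ (p / 2) * (CL + CH), fun f hf => ?_⟩
  set A : ℝ → ℝ≥0∞ := fun x => ∫⁻ q in cone lam x ∩ SS la R m0 U,
    ENNReal.ofReal (gradSq f q.1 q.2) with hA
  set B : ℝ → ℝ≥0∞ := fun x => ∫⁻ q in cone lam x \ SS la R m0 U,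
    ENNReal.ofReal (gradSq f q.1 q.2) with hB
  set W : ℝ → ℝ≥0∞ := fun x => ENNReal.ofReal (U x) with hWd
  have hWm : AEMeasurable W volume := (weight_aemeas hW.1).ennreal_ofReal
  have hAm : Measurable A := SuffB.meas_A (SuffB.meas_SS hla hR hW) (fun q hq => hq.1) hf
  have hsum : ∀ x, (areaFn lam f x) ^ p * ENNReal.ofReal (U x) ≤
      2 ^ (p / 2) * ((A x) ^ (p / 2) * W x + (B x) ^ (p / 2) * W x) := by
    intro x
    rw [areaFn_rpow]
    have e1 : ∫⁻ q in cone lam x, ENNReal.ofReal (gradSq f q.1 q.2) ≤ A x + B x := by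
      have e2 : cone lam x ⊆ (cone lam x ∩ SS la R m0 U) ∪ (cone lam x \ SS la R m0 U) := by
        intro q hq
        by_cases h : q ∈ SS la R m0 U
        · left
          exact ⟨hq, h⟩
        · right
          exact ⟨hq, h⟩
      exact (lintegral_mono_set e2).trans (lintegral_union_le _ _ _)
    calc (∫⁻ q in cone lam x, ENNReal.ofReal (gradSq f q.1 q.2)) ^ (p / 2) *
          ENNReal.ofReal (U x) ≤ (A x + B x) ^ (p / 2) * W x :=
          mul_le_mul' (ENNReal.rpow_le_rpow e1 (by linarith)) le_rfl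
      _ ≤ (2 ^ (p / 2) * ((A x) ^ (p / 2) + (B x) ^ (p / 2))) * W x :=
          mul_le_mul' (SuffB.add_rpow_le (by linarith)) le_rfl
      _ = 2 ^ (p / 2) * ((A x) ^ (p / 2) * W x + (B x) ^ (p / 2) * W x) := by ring
  have h2t : (2 : ℝ≥0∞) ^ (p / 2) ≠ ∞ :=
    ENNReal.rpow_ne_top_of_nonneg (by linarith) (by norm_num)
  have hAW : AEMeasurable (fun x => (A x) ^ (p / 2) * W x) volume :=
    (hAm.pow_const (p / 2)).aemeasurable.mul hWm
  calc ∫⁻ x, (areaFn lam f x) ^ p * ENNReal.ofReal (U x)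
      ≤ ∫⁻ x, 2 ^ (p / 2) * ((A x) ^ (p / 2) * W x + (B x) ^ (p / 2) * W x) :=
        lintegral_mono hsum
    _ = 2 ^ (p / 2) * ∫⁻ x, ((A x) ^ (p / 2) * W x + (B x) ^ (p / 2) * W x) :=
        lintegral_const_mul' _ _ h2t
    _ = 2 ^ (p / 2) * ((∫⁻ x, (A x) ^ (p / 2) * W x) + ∫⁻ x, (B x) ^ (p / 2) * W x) := by
        congr 1
        exact lintegral_add_left' hAW _
    _ ≤ 2 ^ (p / 2) * (CL * (∫⁻ x, (ntMax b f x) ^ p * ENNReal.ofReal (U x)) +
          CH * ∫⁻ x, (ntMax b f x) ^ p * ENNReal.ofReal (U x)) :=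
        mul_le_mul' le_rfl (add_le_add (hL f hf) (hH f hf))
    _ = ((2 ^ (p / 2) * (CL + CH) : ℝ≥0) : ℝ≥0∞) *
          ∫⁻ x, (ntMax b f x) ^ p * ENNReal.ofReal (U x) := by
        rw [← add_mul, ← mul_assoc]
        congr 1
        rw [ENNReal.coe_mul (2 ^ (p / 2)) (CL + CH), ENNReal.coe_add,
          ENNReal.coe_rpow_of_nonneg (2 : ℝ≥0) (by linarith)]
        rfl

end Pool.Agent.Work.MP_055a27_an.Cr3

end
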